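import Pool.Agent.H330FB.Lib4

set_option autoImplicit false

/-!
# Exact statements on programs, part 1

Each `Spec...` says that there is one program (a closed term of the language, the same for all
fields) with the stated results and running time.
-/

namespace Pool.Agent.H330FB

open Polynomial

/-- polynomials / rows -/
abbrev Po : Ty := .list .fld
/-- matrices / polynomials over truncated power series -/
abbrev Ma : Ty := .list Po
/-- numbers in unary -/
abbrev Un : Ty := .list .unit
/-- tables for the multiplication of polynomials -/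
abbrev TB : Ty := .prod Ma Ma

/-- the number `n` in unary -/
def un (n : ℕ) : List Unit := List.replicate n ()

/-- polynomial with the coefficients `l` -/
noncomputable def pol {R : Type} [CommRing R] : List R → R[X]
  | [] => 0
  | x :: l => C x + X * pol l

/-- monic polynomial with the lower coefficients `l` -/
noncomputable def mpol {R : Type} [CommRing R] (l : List R) : R[X] := X ^ l.length + pol l

/-- polynomial over an algebra `R`; every coefficient is a list, evaluated at `τ` -/
noncomputable def rp {F R : Type} [Field F] [CommRing R] [Algebra F R] (τ : R)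
    (l : List (List F)) : R[X] := pol (l.map (fun r => aeval τ (pol r)))

/-- monic polynomial over an algebra `R` with lower coefficients `l` -/
noncomputable def mrp {F R : Type} [Field F] [CommRing R] [Algebra F R] (τ : R)
    (l : List (List F)) : R[X] := X ^ l.length + rp τ l

/-- all rows have length `s` -/
def Sh {F : Type} (s : ℕ) (l : List (List F)) : Prop := ∀ r ∈ l, r.length = s

/-- bits of a number, least significant first, as field elements -/
def bits (F : Type) [Field F] (n : ℕ) : List F :=
  (Nat.bits n).map (fun b => if b then (1 : F) else 0)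

/-! ### cost units -/

/-- auxiliary -/
def uu (k : ℕ) : ℕ := 7 ^ k / 4 ^ k + 1
/-- auxiliary -/
def vv (k : ℕ) : ℕ := 7 ^ k / 2 ^ k + 1
/-- cost unit of the multiplication of polynomials of length `N` (about `N ^ 1.404`) -/
def mu (N : ℕ) : ℕ := N * uu ((Nat.clog 2 N + 1) / 2)
/-- cost unit of the multiplication of matrices of size `N` (about `N ^ 2.808`) -/
def ww (N : ℕ) : ℕ := N * vv (Nat.clog 2 N)
/-- logarithm plus one -/
def lgc (N : ℕ) : ℕ := Nat.clog 2 N + 1

/-- properties of the cost units -/
def SpecUnits : Prop :=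
  (∀ a b, a ≤ b → mu a ≤ mu b) ∧ (∀ a b, a ≤ b → ww a ≤ ww b) ∧ (∀ a b, a ≤ b → vv a ≤ vv b) ∧
  (∀ a b, mu a + mu b ≤ mu (a + b)) ∧ (∀ a b, ww a + ww b ≤ ww (a + b)) ∧
  (∀ N, N ≤ mu N) ∧ (∀ N, N * N ≤ ww N) ∧
  (∀ c, ∃ C, ∀ N, mu (c * (N + 1)) ≤ C * mu (N + 1)) ∧
  (∀ c, ∃ C, ∀ N, ww (c * (N + 1)) ≤ C * ww (N + 1)) ∧
  (∀ c, ∃ C, ∀ N, vv (Nat.clog 2 (c * (N + 1))) ≤ C * vv (Nat.clog 2 (N + 1))) ∧
  (∀ c, ∃ C, ∀ N, mu (c * (N + 1) * (N + 1)) ≤ C * ww (N + 1)) ∧
  (∀ c, ∃ C, ∀ N, (N + 1) * mu (c * (N + 1)) ≤ C * ww (N + 1)) ∧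
  (∀ N, 1 ≤ N → 7 ^ ((Nat.clog 2 N + 1) / 2) ≤ 4 * mu N) ∧
  (∀ N, 1 ≤ N → 7 ^ (Nat.clog 2 N) ≤ 2 * ww N)

/-- final estimate: polylogarithmic factors are absorbed -/
def SpecCalc : Prop := ∀ k c : ℕ, ∃ C : ℝ, ∀ N : ℕ, 1 ≤ N →
  ((c * lgc N ^ k * ww (c * N) : ℕ) : ℝ) ≤ C * (N : ℝ) ^ (29 / 10 : ℝ)

/-! ### Toom-Cook multiplication -/

/-- a table of a bilinear algorithm of rank 7 for polynomials with 4 coefficients -/
def IsTb {F : Type} [Field F] (tb : List (List F) × List (List F)) : Prop :=
  tb.1.length = 7 ∧ (∀ r ∈ tb.1, r.length = 4) ∧ tb.2.length = 7 ∧ (∀ r ∈ tb.2, r.length = 7) ∧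
  ∀ i < 4, ∀ i' < 4, ∀ j < 7,
    ∑ r ∈ Finset.range 7, (tb.2.getD j []).getD r 0 * (tb.1.getD r []).getD i 0 *
      (tb.1.getD r []).getD i' 0 = if i + i' = j then 1 else 0

/-- the table of 7 distinct elements -/
def SpecTb : Prop := ∃ (p : Pr [] Po TB) (C : ℕ), ∀ (F : Type) [Field F] [DecidableEq F]
  (l : List F), l.length = 7 → l.Nodup →
  IsTb (p.val () l) ∧ p.cost () () l ≤ C

/-- multiplication of polynomials, input `(table, (a, b))` -/
def SpecMul : Prop := ∃ (p : Pr [] (.prod TB (.prod Po Po)) Po) (C : ℕ),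
  ∀ (F : Type) [Field F] [DecidableEq F] (tb : List (List F) × List (List F)) (a b : List F),
  IsTb tb →
  pol (p.val () (tb, (a, b)) : List F) = pol a * pol b ∧
  List.length (p.val () (tb, (a, b)) : List F) = a.length + b.length ∧
  p.cost () () (tb, (a, b)) ≤ C * mu (a.length + b.length + 1)

/-- multiplication over truncated power series, input `(table, (s, (a, b)))` -/
def SpecMulR : Prop := ∃ (p : Pr [] (.prod TB (.prod Un (.prod Ma Ma))) Ma) (C : ℕ),
  ∀ (F : Type) [Field F] [DecidableEq F] (tb : List (List F) × List (List F)) (s : ℕ)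
  (a b : List (List F)), IsTb tb → 1 ≤ s → Sh s a → Sh s b →
  let r : List (List F) := p.val () (tb, (un s, (a, b)))
  Sh s r ∧ r.length = a.length + b.length ∧
  (∀ (R : Type) [CommRing R] [Algebra F R] (τ : R), τ ^ s = 0 → rp τ r = rp τ a * rp τ b) ∧
  p.cost () () (tb, (un s, (a, b))) ≤ C * mu (s * (a.length + b.length) + 1)

/-- division with remainder by a monic polynomial over truncated power series,
input `(table, (s, (P, G)))` -/
def SpecDivR : Prop := ∃ (p : Pr [] (.prod TB (.prod Un (.prod Ma Ma))) (.prod Ma Ma)) (C : ℕ),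
  ∀ (F : Type) [Field F] [DecidableEq F] (tb : List (List F) × List (List F)) (s : ℕ)
  (P G : List (List F)), IsTb tb → 1 ≤ s → Sh s P → Sh s G →
  let r : List (List F) × List (List F) := p.val () (tb, (un s, (P, G)))
  Sh s r.1 ∧ r.1.length = P.length - G.length ∧ Sh s r.2 ∧ r.2.length = G.length ∧
  (∀ (R : Type) [CommRing R] [Algebra F R] (τ : R), τ ^ s = 0 →
    rp τ P = rp τ r.1 * mrp τ G + rp τ r.2) ∧
  p.cost () () (tb, (un s, (P, G))) ≤
    C * lgc (P.length + 1) * mu (s * (P.length + G.length) + 1)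

/-- multiplication modulo a monic polynomial over the field, input `(table, ((a, b), G))` -/
def SpecMulMod : Prop := ∃ (p : Pr [] (.prod TB (.prod (.prod Po Po) Po)) Po) (C : ℕ),
  ∀ (F : Type) [Field F] [DecidableEq F] (tb : List (List F) × List (List F))
  (a b G : List F), IsTb tb →
  let r : List F := p.val () (tb, ((a, b), G))
  r.length = G.length ∧ mpol G ∣ pol a * pol b - pol r ∧
  p.cost () () (tb, ((a, b), G)) ≤
    C * lgc (a.length + b.length + 1) * mu (a.length + b.length + G.length + 1)

/-- powers modulo a monic polynomial over the field; the exponent is given by its bits,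
input `(table, ((a, bits), G))` -/
def SpecPow : Prop := ∃ (p : Pr [] (.prod TB (.prod (.prod Po Po) Po)) Po) (C : ℕ),
  ∀ (F : Type) [Field F] [DecidableEq F] (tb : List (List F) × List (List F))
  (a G : List F) (n : ℕ), IsTb tb → a.length = G.length →
  let r : List F := p.val () (tb, ((a, bits F n), G))
  r.length = G.length ∧ mpol G ∣ pol a ^ n - pol r ∧
  p.cost () () (tb, ((a, bits F n), G)) ≤
    C * lgc n * lgc (G.length + 1) * mu (G.length + 1)

/-- `a ^ (q ^ e)` modulo a monic polynomial over the field; `q` is given by its bits, `e` in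
unary, input `(table, ((a, (bits, e)), G))` -/
def SpecFrob : Prop := ∃ (p : Pr [] (.prod TB (.prod (.prod Po (.prod Po Un)) Po)) Po) (C : ℕ),
  ∀ (F : Type) [Field F] [DecidableEq F] (tb : List (List F) × List (List F))
  (a G : List F) (q e : ℕ), IsTb tb → a.length = G.length →
  let r : List F := p.val () (tb, ((a, (bits F q, un e)), G))
  r.length = G.length ∧ mpol G ∣ pol a ^ (q ^ e) - pol r ∧
  p.cost () () (tb, ((a, (bits F q, un e)), G)) ≤
    C * (e + 1) * lgc q * lgc (G.length + 1) * mu (G.length + 1)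

/-! ### Matrices -/

/-- product of matrices given by rows; `c` is the number of columns of `B` -/
def mmul {F : Type} [Field F] (c : ℕ) (A B : List (List F)) : List (List F) :=
  A.map (fun r => (List.range c).map (fun j =>
    (List.zipWith (fun x y => x * y.getD j 0) r B).sum))

/-- multiplication of matrices, input `(number of columns of B, (A, B))` -/
def SpecMM : Prop := ∃ (p : Pr [] (.prod Un (.prod Ma Ma)) Ma) (C : ℕ),
  ∀ (F : Type) [Field F] [DecidableEq F] (c : ℕ) (A B : List (List F)),
  Sh B.length A → Sh c B →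
  (p.val () (un c, (A, B)) : List (List F)) = mmul c A B ∧
  p.cost () () (un c, (A, B)) ≤
    C * (A.length + B.length + c + 1) * vv (Nat.clog 2 (B.length + c + 1))

/-- the vector of a column -/
def cvec {F : Type} [Field F] (l : List F) : ℕ → F := fun i => l.getD i 0

/-- result of the elimination routine: `P` are the labels of the pivot columns, `Fr` the labels of
the other columns with their coefficients with respect to the pivot columns -/
def KerSpec {α F : Type} [Field F] (cs : List (α × List F)) (P : List α)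
    (Fr : List (α × List F)) : Prop :=
  ∃ (P' : List (α × List F)) (Fr' : List ((α × List F) × List F)),
    P = P'.map Prod.fst ∧ Fr = Fr'.map (fun x => (x.1.1, x.2)) ∧
    (P' ++ Fr'.map Prod.fst).Perm cs ∧ (Fr'.map Prod.fst).Sublist cs ∧
    LinearIndependent F (fun k : Fin P'.length => cvec (P'.get k).2) ∧
    (∀ x ∈ Fr', x.2.length = P'.length ∧
      cvec x.1.2 = ∑ k : Fin P'.length, x.2.getD k 0 • cvec (P'.get k).2) ∧
    (∀ ρ : α × List F → ℕ, cs.Pairwise (fun x y => ρ x ≤ ρ y) →
      ∀ x ∈ Fr', ∀ k : Fin P'.length, x.2.getD k 0 ≠ 0 → ρ (P'.get k) ≤ ρ x.1)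

/-- elimination; `m` is the common length of the columns -/
def SpecKer : Prop := ∀ lab : Ty, ∃ (p : Pr [] (.list (.prod lab Po))
    (.prod (.list lab) (.list (.prod lab Po)))) (C : ℕ),
  ∀ (F : Type) [Field F] [DecidableEq F] (m : ℕ) (cs : List (Ty.D F lab × List F)),
  (∀ x ∈ cs, x.2.length = m) →
  KerSpec cs (p.val () cs).1 (p.val () cs).2 ∧
  p.cost () () cs ≤ C * (cs.length + m + 1) * vv (Nat.clog 2 (m + 1))

/-- inverse modulo a monic polynomial, input `(h, G)` -/
def SpecInv : Prop := ∃ (p : Pr [] (.prod Po Po) Po) (C : ℕ),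
  ∀ (F : Type) [Field F] [DecidableEq F] (h G : List F), h.length = G.length →
  (IsCoprime (pol h) (mpol G) →
    mpol G ∣ pol (p.val () (h, G) : List F) * pol h - 1) ∧
  List.length (p.val () (h, G) : List F) = G.length ∧
  p.cost () () (h, G) ≤ C * ww (G.length + 1)

/-- annihilator: `mpol A` is the monic generator of the ideal of all `B` with
`B(y) e = 0` modulo `mpol H`; input `(table, ((y, e), H))` -/
def SpecAnn : Prop := ∃ (p : Pr [] (.prod TB (.prod (.prod Po Po) Po)) Po) (C : ℕ),
  ∀ (F : Type) [Field F] [DecidableEq F] (tb : List (List F) × List (List F))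
  (y e H : List F), IsTb tb → y.length = H.length → e.length = H.length →
  let A : List F := p.val () (tb, ((y, e), H))
  A.length ≤ H.length ∧
  (∀ B : F[X], mpol H ∣ B.comp (pol y) * pol e ↔ mpol A ∣ B) ∧
  p.cost () () (tb, ((y, e), H)) ≤ C * lgc (H.length + 1) * ww (H.length + 1)

/-! ### Naturality -/

/-- the map of data induced by a map of fields -/
def Ty.map {F F' : Type} (φ : F → F') : (a : Ty) → Ty.D F a → Ty.D F' a
  | .fld, x => φ x
  | .unit, x => x
  | .prod a b, x => (Ty.map φ a x.1, Ty.map φ b x.2)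
  | .list a, x => List.map (Ty.map φ a) x

/-- programs are natural with respect to homomorphisms of fields -/
def SpecNat : Prop := ∀ (a b : Ty) (p : Pr [] a b) (F F' : Type) [Field F] [DecidableEq F]
  [Field F'] [DecidableEq F'] (φ : F →+* F') (x : Ty.D F a),
  p.val () (Ty.map φ a x) = Ty.map φ b (p.val () x) ∧
  p.cost () () (Ty.map φ a x) = p.cost () () x

end Pool.Agent.H330FB
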