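import Pool.Agent.H330FB.Spec3

set_option autoImplicit false

/-!
# Exact statements on programs, part 4: extension of the field and descent
-/

namespace Pool.Agent.H330FB

open Polynomial

/-! ### Simulation of an extension field -/

/-- data over an extension field, the elements of which are represented by lists -/
def Ty.ext : Ty → Ty
  | .fld => .list .fld
  | .unit => .unit
  | .prod a b => .prod (Ty.ext a) (Ty.ext b)
  | .list a => .list (Ty.ext a)

/-- the representation of data -/
def Ty.enc {F L : Type} (enc : L → List F) : (a : Ty) → Ty.D L a → Ty.D F (Ty.ext a)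
  | .fld, x => enc x
  | .unit, x => x
  | .prod a b, x => (Ty.enc enc a x.1, Ty.enc enc b x.2)
  | .list a, x => List.map (Ty.enc enc a) x

/-- `enc` is the representation of the elements of `L` by their coordinates with respect to the
powers of `θ`, a root of the monic polynomial with lower coefficients `P` -/
structure EncOK (F L : Type) [Field F] [Field L] [Algebra F L] (P : List F) (θ : L)
    (enc : L → List F) : Prop where
  pos : 1 ≤ P.length
  root : aeval θ (mpol P) = 0
  len : ∀ z, (enc z).length = P.length
  dec : ∀ z, aeval θ (pol (enc z)) = z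
  enc_dec : ∀ l : List F, l.length = P.length → enc (aeval θ (pol l)) = l

/-- schoolbook multiplication modulo a monic polynomial; input `((a, b), P)` -/
def SpecNaive : Prop := ∃ (p : Pr [] (.prod (.prod Po Po) Po) Po) (C : ℕ),
  ∀ (F : Type) [Field F] [DecidableEq F] (a b P : List F), a.length = P.length →
  b.length = P.length →
  let r : List F := p.val () ((a, b), P)
  r.length = P.length ∧ mpol P ∣ pol a * pol b - pol r ∧
  p.cost () () ((a, b), P) ≤ C * (P.length + 1) ^ 2

/-- every program over the extension field can be run over the small field; the simulation gets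
the bits of `q` and the modulus `P` -/
def SpecSim : Prop := ∀ (a b : Ty) (p : Pr [] a b),
  ∃ (p' : Pr [] (.prod (.prod Po Po) (Ty.ext a)) (Ty.ext b)) (C k : ℕ),
  ∀ (F L : Type) [Field F] [Fintype F] [DecidableEq F] [Field L] [DecidableEq L] [Algebra F L]
  (q : ℕ) (P : List F) (θ : L) (enc : L → List F), Fintype.card F = q → EncOK F L P θ enc →
  ∀ x : Ty.D L a,
    p'.val () ((bits F q, P), Ty.enc enc a x) = Ty.enc enc b (p.val () x) ∧
    p'.cost () () ((bits F q, P), Ty.enc enc a x) ≤
      C * (P.length * lgc q) ^ k * (p.cost () () x + 1)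

/-! ### Search for an irreducible polynomial -/

/-- there are many irreducible polynomials -/
def StmtIrrCount : Prop := ∀ (F : Type) [Field F] [Fintype F] (j : ℕ), 1 ≤ j →
  Fintype.card F ^ (2 ^ j) ≤
    2 * 2 ^ j * Nat.card {l : List F // l.length = 2 ^ j ∧ Irreducible (mpol l)}

/-- test of irreducibility; input `(bits q, P)` -/
def SpecIrr : Prop := ∃ (p : Pr [] (.prod Po Po) Un) (C k : ℕ),
  ∀ (F : Type) [Field F] [Fintype F] [DecidableEq F] (q j : ℕ) (P : List F),
  Fintype.card F = q → 1 ≤ j → P.length = 2 ^ j →
  (Irreducible (mpol P) → p.val () (bits F q, P) = un 1) ∧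
  (¬ Irreducible (mpol P) → p.val () (bits F q, P) = un 0) ∧
  p.cost () () (bits F q, P) ≤ C * (P.length * lgc q) ^ k

/-- search for an irreducible polynomial of degree `E = 2 ^ j`;
input `(bits q, (E, random elements))` -/
def SpecFind : Prop := ∃ (p : Pr [] (.prod Po (.prod Un Po)) Po) (C k : ℕ),
  ∀ (F : Type) [Field F] [Fintype F] [DecidableEq F] (q j : ℕ), Fintype.card F = q → 1 ≤ j →
  50 * Nat.card {r : Fin (8 * 2 ^ j * 2 ^ j) → F //
    ¬ (List.length (p.val () (bits F q, (un (2 ^ j), List.ofFn r)) : List F) = 2 ^ j ∧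
      Irreducible (mpol (p.val () (bits F q, (un (2 ^ j), List.ofFn r)) : List F)))} ≤
    q ^ (8 * 2 ^ j * 2 ^ j) ∧
  ∀ r : Fin (8 * 2 ^ j * 2 ^ j) → F,
    p.cost () () (bits F q, (un (2 ^ j), List.ofFn r)) ≤ C * (2 ^ j * lgc q) ^ k

/-! ### Descent -/

/-- from the factorization over `K` to the factorization over the subfield `F` with `q` elements;
input `(table, ((bits q, e), factorization))` -/
def SpecDesc : Prop := ∃ (p : Pr [] (.prod TB (.prod (.prod Po Un) (.list (.prod Ma Un))))
    (.list (.prod Ma Un))) (C k : ℕ),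
  ∀ (F K : Type) [Field F] [Fintype F] [DecidableEq F] [Field K] [Fintype K] [DecidableEq K]
  [Algebra F K] (q e d : ℕ) (tb : List (List K) × List (List K)) (H : List (List F))
  (out : List (List (List K) × List Unit)), Fintype.card F = q → Fintype.card K = q ^ e →
  IsTb tb → IsHom d H → 1 ≤ d → TopNe d H →
  FacGood (hom (Ty.map (algebraMap F K) Ma H : List (List K))) out →
  ∃ outF : List (List (List F) × List Unit), FacGood (hom H) outF ∧
    (p.val () (tb, ((bits K q, un e), out)) : List (List (List K) × List Unit)) =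
      Ty.map (algebraMap F K) (.list (.prod Ma Un)) outF ∧
    p.cost () () (tb, ((bits K q, un e), out)) ≤ C * PL e q d ^ k * ww (d + 1)

/-- factorization over the small field by computations in a field `L` with `q ^ (2 e)` elements;
input `((bits q, e), (H, random elements))` -/
def SpecFull : Prop := ∃ (p : Pr [] (.prod (.prod Po Un) (.prod Ma Po)) (.list (.prod Ma Un)))
    (C k : ℕ),
  ∀ (F L : Type) [Field F] [Fintype F] [DecidableEq F] [Field L] [Fintype L] [DecidableEq L]
  [Algebra F L] (q e d : ℕ) (H : List (List F)), Fintype.card F = q →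
  Fintype.card L = q ^ (2 * e) → 1 ≤ e → IsHom d H → 1 ≤ d → TopNe d H →
  (40 * (d + 1)) ^ 4 ≤ q ^ e →
  9 * Nat.card {r : Fin (Rn d) → L //
    ¬ ∃ out : List (List (List F) × List Unit), FacGood (hom H) out ∧
      (p.val () ((bits L q, un e), (Ty.map (algebraMap F L) Ma H, List.ofFn r)) :
        List (List (List L) × List Unit)) =
        Ty.map (algebraMap F L) (.list (.prod Ma Un)) out ∧
      p.cost () () ((bits L q, un e), (Ty.map (algebraMap F L) Ma H, List.ofFn r)) ≤
        C * PL e q d ^ k * ww (d + 1)} ≤ Fintype.card L ^ Rn d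

/-! ### The main statement -/

/-- exponent: half the degree of the extension is `2 ^ jj d` -/
def jj (d : ℕ) : ℕ := Nat.clog 2 (4 * Nat.clog 2 (40 * (d + 1)))

/-- degree of the extension -/
def EE (d : ℕ) : ℕ := 2 ^ (jj d + 1)

/-- number of random field elements -/
def RR (d : ℕ) : ℕ := 8 * EE d * EE d + EE d * Rn d

/-- the main statement, in terms of lists; input `(bits q, (H, random elements))` -/
def SpecMain : Prop := ∃ main : Pr [] (.prod Po (.prod Ma Po)) (.list (.prod Ma Un)),
  ∀ c : ℕ, ∃ C : ℝ, ∀ (F : Type) [Field F] [Fintype F] [DecidableEq F] (d : ℕ)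
  (H : List (List F)), 1 ≤ d → Fintype.card F ≤ c * d ^ c → IsHom d H → TopNe d H →
  2 * Fintype.card F ^ RR d ≤
    3 * Nat.card {r : Fin (RR d) → F //
      FacGood (hom H) (main.val () (bits F (Fintype.card F), (H, List.ofFn r))) ∧
      (main.cost () () (bits F (Fintype.card F), (H, List.ofFn r)) : ℝ) ≤
        C * (d : ℝ) ^ (29 / 10 : ℝ)}

end Pool.Agent.H330FB
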