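import Pool.Agent.H330FB.Lib5
import Pool.Agent.H330FB.Spec1
set_option autoImplicit false
noncomputable section
namespace Pool.Agent.H330FB.JA5
open Polynomial

namespace MulRAux

variable {F : Type} [Field F]

/-- coefficients of `pol` -/
theorem coeff_pol {R : Type} [CommRing R] (l : List R) (m : ℕ) :
    (pol l).coeff m = l.getD m 0 := by
  induction l generalizing m with
  | nil => simp [pol]
  | cons x l ih =>
    cases m with
    | zero => simp [pol]
    | succ m => simp [pol, ih]

theorem pol_append {R : Type} [CommRing R] (l m : List R) :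
    pol (l ++ m) = pol l + X ^ l.length * pol m := by
  induction l with
  | nil => simp [pol]
  | cons x l ih => simp [pol, ih, pow_succ]; ring

theorem pol_fit (n : ℕ) (l : List F) : pol (fit n 0 l) = pol (l.take n) := by
  induction n generalizing l with
  | zero => simp [fit, pol]
  | succ n ih =>
    cases l with
    | nil =>
      have := ih []
      simp [fit, pol] at this ⊢
      exact this
    | cons x l => simp [fit, pol, ih]

theorem pol_map {R S : Type} [CommRing R] [CommRing S] (f : R →+* S) (l : List R) :
    pol (l.map f) = (pol l).map f := by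
  induction l with
  | nil => simp [pol]
  | cons x l ih => simp [pol, ih]

/-- polynomial in two variables -/
noncomputable def p2 (l : List (List F)) : F[X][X] := pol (l.map pol)

theorem coeff_p2 (l : List (List F)) (m : ℕ) : (p2 l).coeff m = pol (l.getD m []) := by
  rw [p2, coeff_pol]
  rcases lt_or_ge m l.length with h | h
  · simp [List.getD_eq_getElem?_getD, h]
  · rw [List.getD_eq_default _ _ (by simpa using h), List.getD_eq_default _ _ h]
    rfl

/-- all coefficients have degree less than `n` -/
def Dg (n : ℕ) (U : F[X][X]) : Prop := ∀ m j, n ≤ j → (U.coeff m).coeff j = 0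

theorem dg_p2 (n : ℕ) (l : List (List F)) (h : ∀ r ∈ l, r.length ≤ n) : Dg n (p2 l) := by
  intro m j hj
  rw [coeff_p2, coeff_pol]
  apply List.getD_eq_default
  rcases lt_or_ge m l.length with h1 | h1
  · rw [List.getD_eq_getElem _ _ h1]
    exact (h _ (List.getElem_mem h1)).trans hj
  · rw [List.getD_eq_default _ _ h1]; simp

theorem dg_mul (n : ℕ) (U V : F[X][X]) (hU : Dg n U) (hV : Dg n V) : Dg (n + n) (U * V) := by
  intro m j hj
  rw [coeff_mul, finsetSum_coeff]
  apply Finset.sum_eq_zero
  rintro ⟨i, i'⟩ _
  rw [coeff_mul]
  apply Finset.sum_eq_zero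
  rintro ⟨k, k'⟩ hk
  rw [Finset.HasAntidiagonal.mem_antidiagonal] at hk
  dsimp only at hk ⊢
  rcases le_or_gt n k with h | h
  · simp [hU i k h]
  · simp [hV i' k' (by omega)]

theorem coeff_eval (n : ℕ) (U : F[X][X]) (hU : Dg n U) (m j : ℕ) (hj : j < n) :
    (U.eval (X ^ n)).coeff (n * m + j) = (U.coeff m).coeff j := by
  rw [eval_eq_sum_range' (n := max (U.natDegree + 1) (m + 1)) (by omega), finsetSum_coeff]
  rw [Finset.sum_eq_single m]
  · rw [← pow_mul, coeff_mul_X_pow']
    simp
  · intro i _ hi
    rw [← pow_mul, coeff_mul_X_pow']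
    split_ifs with h
    · apply hU
      have : i < m := by
        by_contra hc
        have h1 : m + 1 ≤ i := by omega
        have := Nat.mul_le_mul_left n h1
        rw [Nat.mul_add] at this
        omega
      have := Nat.mul_le_mul_left n (show i + 1 ≤ m by omega)
      rw [Nat.mul_add] at this
      omega
    · rfl
  · intro h
    simp at h

theorem eq_of_eval (n : ℕ) (U V : F[X][X]) (hU : Dg n U) (hV : Dg n V)
    (h : U.eval (X ^ n) = V.eval (X ^ n)) : U = V := by
  ext m j
  rcases lt_or_ge j n with hj | hj
  · rw [← coeff_eval n U hU m j hj, ← coeff_eval n V hV m j hj, h]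
  · rw [hU m j hj, hV m j hj]

theorem pol_flatten (n : ℕ) (l : List (List F)) (h : ∀ r ∈ l, r.length = n) :
    pol l.flatten = (p2 l).eval (X ^ n) := by
  induction l with
  | nil => simp [pol, p2]
  | cons r l ih =>
    have h1 := ih (fun r hr => h r (by simp [hr]))
    have h2 := h r (by simp)
    rw [List.flatten_cons, pol_append, h1, h2]
    simp [p2, pol]

theorem p2_fit (n : ℕ) (l : List (List F)) (h : ∀ r ∈ l, r.length ≤ n) :
    p2 (l.map (fit n 0)) = p2 l := by
  simp only [p2, List.map_map]
  congr 1
  apply List.map_congr_left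
  intro r hr
  simp only [Function.comp]
  rw [pol_fit, List.take_of_length_le (h r hr)]

theorem length_chunks {α : Type} (n k : ℕ) (l : List α) : (chunks n k l).length = k := by
  induction k generalizing l with
  | zero => rfl
  | succ k ih => simp [chunks, ih]

theorem mem_chunks {α : Type} (n k : ℕ) (l : List α) (h : l.length = n * k) :
    ∀ r ∈ chunks n k l, r.length = n := by
  induction k generalizing l with
  | zero => simp [chunks]
  | succ k ih =>
    intro r hr
    simp only [chunks, List.mem_cons] at hr
    rw [Nat.mul_succ] at h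
    rcases hr with rfl | hr
    · simp; omega
    · exact ih (l.drop n) (by simp; omega) r hr

theorem flatten_chunks {α : Type} (n k : ℕ) (l : List α) (h : l.length = n * k) :
    (chunks n k l).flatten = l := by
  induction k generalizing l with
  | zero => simp [chunks]; exact List.length_eq_zero_iff.mp (by simpa using h)
  | succ k ih =>
    simp only [chunks, List.flatten_cons]
    rw [Nat.mul_succ] at h
    rw [ih (l.drop n) (by simp; omega), List.take_append_drop]

theorem length_flatten_fit (n : ℕ) (l : List (List F)) :
    (l.map (fit n 0)).flatten.length = n * l.length := by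
  induction l with
  | nil => simp
  | cons r l ih => simp only [List.map_cons, List.flatten_cons, List.length_append, ih,
      length_fit, List.length_cons]; ring

theorem rp_eq {R : Type} [CommRing R] [Algebra F R] (τ : R) (l : List (List F)) :
    rp τ l = (p2 l).map (aeval τ).toRingHom := by
  rw [p2, ← pol_map, List.map_map]
  rfl

/-- the Kronecker substitution -/
theorem kron (s : ℕ) (a b : List (List F)) (ha : Sh s a) (hb : Sh s b) (P : List F)
    (hP : P.length = (s + s) * (a.length + b.length))
    (hm : pol P = pol (a.map (fit (s + s) 0)).flatten * pol (b.map (fit (s + s) 0)).flatten) :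
    p2 (chunks (s + s) (a.length + b.length) P) = p2 a * p2 b := by
  have ha' : ∀ r ∈ a, r.length ≤ s + s := fun r hr => by rw [ha r hr]; omega
  have hb' : ∀ r ∈ b, r.length ≤ s + s := fun r hr => by rw [hb r hr]; omega
  apply eq_of_eval (s + s)
  · apply dg_p2
    intro r hr
    exact (mem_chunks _ _ _ hP r hr).le
  · apply dg_mul
    · exact dg_p2 _ _ (fun r hr => (ha r hr).le)
    · exact dg_p2 _ _ (fun r hr => (hb r hr).le)
  · rw [← pol_flatten _ _ (mem_chunks _ _ _ hP), flatten_chunks _ _ _ hP, hm, eval_mul,
      pol_flatten (s + s) _ (by simp), pol_flatten (s + s) _ (by simp), p2_fit _ _ ha',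
      p2_fit _ _ hb']

theorem aeval_pol_fit {R : Type} [CommRing R] [Algebra F R] (τ : R) (s : ℕ) (hτ : τ ^ s = 0)
    (r : List F) : aeval τ (pol (fit s 0 r)) = aeval τ (pol r) := by
  rw [pol_fit]
  rcases le_or_gt r.length s with h | h
  · rw [List.take_of_length_le h]
  · conv_rhs => rw [← List.take_append_drop s r, pol_append]
    have : (r.take s).length = s := by simp; omega
    rw [this]
    simp [hτ]

theorem rp_fit {R : Type} [CommRing R] [Algebra F R] (τ : R) (s : ℕ) (hτ : τ ^ s = 0)
    (l : List (List F)) : rp τ (l.map (fit s 0)) = rp τ l := by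
  simp only [rp, List.map_map]
  congr 1
  apply List.map_congr_left
  intro r _
  exact aeval_pol_fit τ s hτ r

section prog
variable {s : List (Ty × Ty)} {a b c : Ty}

/-- pad every row: input `(u, rows)` -/
def padP : Pr s (.prod (.list b) Ma) Ma :=
  mapP (.comp (.pair .fst (.pair .zero .snd)) fitP)

@[simp] theorem val_padP [DecidableEq F] (v : SV F s) (x : Ty.D F (.prod (.list b) Ma)) :
    (padP : Pr s (.prod (.list b) Ma) Ma).val v x =
      List.map (fit (List.length x.1) 0) (x.2 : List (List F)) := by
  simp [padP]

theorem cost_padP [DecidableEq F] (v : SV F s) (k : SC F s) (x : Ty.D F (.prod (.list b) Ma)) :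
    (padP : Pr s (.prod (.list b) Ma) Ma).cost v k x ≤
      (20 * List.length x.1 + 20) * List.length x.2 + 5 := by
  have h := cost_mapP_le (s := s) (c := .list b) (a := Po) (b := Po)
    (.comp (.pair .fst (.pair .zero .snd)) fitP) v k x (20 * List.length x.1 + 7)
    (fun y _ => by
      have h1 := cost_fitP (s := s) (F := F) v k (x.1, ((0 : F), y))
      simp at h1 ⊢
      omega)
  rw [padP]
  refine h.trans ?_
  nlinarith

/-- pad and flatten -/
def pfP : Pr s (.prod (.list b) Ma) Po := .comp padP flatP

@[simp] theorem val_pfP [DecidableEq F] (v : SV F s) (x : Ty.D F (.prod (.list b) Ma)) :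
    (pfP : Pr s (.prod (.list b) Ma) Po).val v x =
      List.flatten (List.map (fit (List.length x.1) 0) (x.2 : List (List F))) := by
  simp [pfP]

theorem cost_pfP [DecidableEq F] (v : SV F s) (k : SC F s) (x : Ty.D F (.prod (.list b) Ma)) :
    (pfP : Pr s (.prod (.list b) Ma) Po).cost v k x ≤
      (40 * List.length x.1 + 91) * List.length x.2 + 45 := by
  have h := cost_padP (F := F) v k x
  have h2 := cost_flatP (s := s) (a := .fld) v k
    (List.map (fit (List.length x.1) 0) (x.2 : List (List F))) (List.length x.1) (by simp)
  simp [pfP] at h2 ⊢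
  nlinarith

end prog

/-- the program -/
def mulRP (p : Pr [] (.prod TB (.prod Po Po)) Po) :
    Pr [] (.prod TB (.prod Un (.prod Ma Ma))) Ma :=
  lt (.comp (.comp .snd .snd) appP)
    (onL .snd .nil
      (.comp .fst
        (lt (.comp (.comp (.comp .fst .snd) .fst) (.comp (.pair .id .id) appP))
          (.comp (.pair (.comp (.comp (.comp .fst .fst) .snd) .fst)
            (ap3 chunksP (.comp .fst .snd) .snd
              (ap3 p (.comp (.comp .fst .fst) .fst)
                (.comp (.pair .snd (.comp (.comp (.comp (.comp .fst .fst) .snd) .snd) .fst)) pfP)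
                (.comp (.pair .snd (.comp (.comp (.comp (.comp .fst .fst) .snd) .snd) .snd))
                  pfP))))
            padP))))

theorem val_mulRP [DecidableEq F] (p : Pr [] (.prod TB (.prod Po Po)) Po)
    (tb : List (List F) × List (List F)) (s : ℕ) (a b : List (List F)) :
    ((mulRP p).val () (tb, (un s, (a, b))) : List (List F)) =
      if a ++ b = [] then [] else
      (chunks (s + s) (a.length + b.length)
        (p.val () (tb, ((a.map (fit (s + s) 0)).flatten,
          (b.map (fit (s + s) 0)).flatten)) : List F)).map (fit s 0) := by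
  simp only [mulRP, val_lt, val_onL, val_comp, val_snd, val_fst, val_appP, val_pair, val_id,
    val_nil, val_chunksP, val_pfP, val_padP]
  cases h : a ++ b with
  | nil => simp
  | cons x y =>
    have h2 : y.length + 1 = a.length + b.length := by
      rw [← List.length_append, h]; rfl
    simp [un, h2]

theorem cost_mulRP [DecidableEq F] (p : Pr [] (.prod TB (.prod Po Po)) Po)
    (tb : List (List F) × List (List F)) (s : ℕ) (hs : 1 ≤ s) (a b : List (List F)) (K : ℕ)
    (hK : p.cost () () (tb, ((a.map (fit (s + s) 0)).flatten,
          (b.map (fit (s + s) 0)).flatten)) ≤ K) :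
    (mulRP p).cost () () (tb, (un s, (a, b))) ≤ K + 1000 * (s * (a.length + b.length) + 1) := by
  simp only [mulRP, val_comp, val_snd, val_fst, val_appP, val_pair, val_id,
    val_chunksP, val_pfP, cost_lt, cost_onL, cost_comp, cost_snd, cost_fst,
    cost_pair, cost_id, cost_nil]
  have e1 := cost_appP (s := []) (F := F) (a := Po) () () (a, b)
  have hl : (un s ++ un s).length = s + s := by simp [un]
  have hl' : (un s).length = s := by simp [un]
  cases h : a ++ b with
  | nil =>
    have h1 : a = [] := (List.append_eq_nil_iff.mp h).1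
    subst h1
    simp only [lcase_nil]
    simp only [List.length_nil] at e1
    omega
  | cons x y =>
    have h2 : (x :: y).length = a.length + b.length := by
      rw [← List.length_append, h]
    have h3 : 1 ≤ a.length + b.length := by rw [← h2]; simp
    simp only [lcase_cons, hl]
    have e2 := cost_appP (s := []) (F := F) (a := .unit) () () (un s, un s)
    have e3 := cost_pfP (s := []) (F := F) (b := .unit) () () (un s ++ un s, a)
    have e4 := cost_pfP (s := []) (F := F) (b := .unit) () () (un s ++ un s, b)
    have e5 := cost_chunksP (s := []) (F := F) (a := .fld) (b := Po) (c := .unit) () () (x :: y, (un s ++ un s,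
      (p.val () (tb, ((a.map (fit (s + s) 0)).flatten,
        (b.map (fit (s + s) 0)).flatten)) : List F)))
    have e6 := cost_padP (s := []) (F := F) (b := .unit) () () (un s,
      chunks (s + s) (x :: y).length (p.val () (tb, ((a.map (fit (s + s) 0)).flatten,
        (b.map (fit (s + s) 0)).flatten)) : List F))
    simp only [hl, hl', length_chunks, h2] at e1 e2 e3 e4 e5 e6 ⊢
    nlinarith
end MulRAux

open MulRAux in
/- KRONECKER SUBSTITUTION. -/
theorem specMulR (h : SpecMul) (h0 : SpecUnits) : SpecMulR := by
  obtain ⟨p, C, hp⟩ := h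
  obtain ⟨hmono, -, -, -, -, h5, -, h7, -⟩ := h0
  obtain ⟨C2, hC2⟩ := h7 2
  refine ⟨mulRP p, C * C2 + 1000, ?_⟩
  intro F _ _ tb s a b hT hs ha hb
  obtain ⟨q1, q2, q3⟩ := hp F tb (a.map (fit (s + s) 0)).flatten
    (b.map (fit (s + s) 0)).flatten hT
  have q2' : List.length (p.val () (tb, ((a.map (fit (s + s) 0)).flatten,
        (b.map (fit (s + s) 0)).flatten)) : List F) = (s + s) * (a.length + b.length) := by
    rw [q2, length_flatten_fit, length_flatten_fit]; ring
  have hv := val_mulRP p tb s a b
  rw [length_flatten_fit, length_flatten_fit] at q3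
  have hc := cost_mulRP p tb s hs a b _ q3
  intro r
  have hr : r = _ := hv
  have hlen : r.length = a.length + b.length := by
    rw [hr]
    split_ifs with h
    · rw [← List.length_append, h]
    · simp [length_chunks]
  refine ⟨?_, hlen, ?_, ?_⟩
  · rw [hr]
    split_ifs with h
    · intro x hx; simp at hx
    · intro x hx
      simp only [List.mem_map] at hx
      obtain ⟨y, -, rfl⟩ := hx
      simp
  · intro R _ _ τ hτ
    rw [hr]
    split_ifs with h
    · obtain ⟨rfl, rfl⟩ := List.append_eq_nil_iff.mp h
      simp [rp, pol]
    · rw [rp_fit τ s hτ, rp_eq, rp_eq, rp_eq, kron s a b ha hb _ q2' q1, Polynomial.map_mul]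
  · refine hc.trans ?_
    have e1 : mu ((s + s) * a.length + (s + s) * b.length + 1) ≤
        C2 * mu (s * (a.length + b.length) + 1) := by
      refine (hmono _ _ ?_).trans (hC2 _)
      nlinarith
    have e2 := h5 (s * (a.length + b.length) + 1)
    have e3 := Nat.mul_le_mul_left C e1
    calc C * mu ((s + s) * a.length + (s + s) * b.length + 1) +
          1000 * (s * (a.length + b.length) + 1)
        ≤ C * (C2 * mu (s * (a.length + b.length) + 1)) +
          1000 * mu (s * (a.length + b.length) + 1) :=
          Nat.add_le_add e3 (Nat.mul_le_mul_left _ e2)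
      _ = (C * C2 + 1000) * mu (s * (a.length + b.length) + 1) := by ring
end Pool.Agent.H330FB.JA5
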