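import Pool.Agent.H330FB.StmtsR
set_option autoImplicit false
noncomputable section
namespace Pool.Agent.H330FB.JR6
open Polynomial

theorem fewBad_natDegree_det_le {K : Type} [Field K] {ι : Type} [Fintype ι] [DecidableEq ι]
    (M : Matrix ι ι K[X]) (k : ℕ) (h : ∀ i j, (M i j).natDegree ≤ k) :
    M.det.natDegree ≤ Fintype.card ι * k := by
  rw [Matrix.det_apply]
  refine natDegree_sum_le_of_forall_le _ _ fun σ _ => ?_
  refine (natDegree_smul_le _ _).trans ?_
  refine (natDegree_prod_le _ _).trans ?_
  refine (Finset.sum_le_card_nsmul _ _ k fun i _ => h _ _).trans ?_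
  rw [Finset.card_univ, smul_eq_mul]

/- FEW BAD FIBRES. -/
theorem fewBad : StmtFewBad := by
  intro K _ S n hmon hdeg hn hTD hcop
  have hinj : Function.Injective (algebraMap K[X] (RatFunc K)) := RatFunc.algebraMap_injective K
  have hSn : ∀ i, (S.coeff i).natDegree ≤ n := by
    intro i
    rw [natDegree_le_iff_coeff_eq_zero]
    intro j hj
    exact hTD i j (by omega)
  have hS'n : ∀ i, ((derivative S).coeff i).natDegree ≤ n := by
    intro i
    rw [coeff_derivative]
    have : ((i : K[X]) + 1) = C ((i : K) + 1) := by simp
    rw [this]
    exact (natDegree_mul_C_le _ _).trans (hSn _)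
  have hd : (derivative S).natDegree ≤ n - 1 := by
    have := natDegree_derivative_le S
    rwa [hdeg] at this
  have hres : resultant S (derivative S) ≠ 0 := by
    intro h0
    have h1 := resultant_ne_zero _ _ hcop
    apply h1
    rw [derivative_map, natDegree_map_eq_of_injective hinj, natDegree_map_eq_of_injective hinj,
      resultant_map_map, h0, map_zero]
  obtain ⟨p, q, _, _, hpq⟩ := exists_mul_add_mul_eq_C_resultant S (derivative S) le_rfl le_rfl
    (Or.inl (by omega))
  refine ⟨resultant S (derivative S), p, q, hres, ?_, ?_⟩
  · have hdet := fewBad_natDegree_det_le (sylvester S (derivative S) S.natDegree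
      (derivative S).natDegree) n (by
        intro i j
        rw [sylvester, Matrix.of_apply]
        refine j.addCases (fun j₁ => ?_) (fun j₁ => ?_)
        · rw [Fin.addCases_left]
          split_ifs
          · exact hS'n _
          · simp
        · rw [Fin.addCases_right]
          split_ifs
          · exact hSn _
          · simp)
    refine hdet.trans ?_
    rw [Fintype.card_fin, hdeg]
    have h2 : n + (derivative S).natDegree ≤ 2 * n := by omega
    calc (n + (derivative S).natDegree) * n ≤ 2 * n * n := Nat.mul_le_mul_right _ h2
      _ ≤ 2 * n ^ 2 + n := by nlinarith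
  · rw [← hpq]
    ring

end Pool.Agent.H330FB.JR6
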