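import Pool.Agent.H330FB.Spec3

set_option autoImplicit false

/-!
# Exact statements on programs: columns and blocks of the recombination
-/

namespace Pool.Agent.H330FB

open Polynomial

/-- powers of the inverse of `a`, exponents `n, ..., s` (that is `k + 1` for `n - 1 ≤ k < s`) -/
def tcol {L : Type} [Field L] (n s : ℕ) (b : L) : List L :=
  (List.range (s - (n - 1))).map (fun k => b ^ (n - 1 + k + 1))

/-- the two columns of the place `a` -/
def tcols {L : Type} [Field L] (n s Q : ℕ) (a : L) : List (List (List L) × List L) :=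
  [([], tcol n s a⁻¹ ++ tcol n s (a⁻¹ ^ Q)), ([], tcol n s (a⁻¹ ^ Q) ++ tcol n s a⁻¹)]

/-- the columns of the linear system: first two columns for every place (with empty labels), then
one column for every local factor; input as in `SpecRec` -/
def SpecCols : Prop := ∃ (p : Pr [] (.prod TB (.prod (.prod Po Un) (.prod Ma (.prod Ma
    (.prod Po Ma))))) (.list (.prod Ma Po))) (C k : ℕ),
  ∀ (K L : Type) [Field K] [Fintype K] [DecidableEq K] [Field L] [Fintype L] [DecidableEq L]
  [Algebra K L] (q e n : ℕ) (tb : List (List K) × List (List K)) (S hs : List (List K))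
  (R : Type) [CommRing R] (π : K[X] →+* R) (ε : R →+* K) (F : Fin hs.length → R[X])
  (a : Fin (2 * n + 2) → L) (g : Fin (2 * n + 2) → Fin n → L),
  Module.finrank K L = 2 → Fintype.card K = q ^ e → IsTb tb → S.length = n → Sh (n + 1) S →
  LocalFact π ε (12 * n + 20) n hs.length (mbiv S) F → (∀ i, (F i).map ε = mpol (hs.get i)) →
  ∃ (r : Equiv.Perm (Fin hs.length)) (Fs : Fin hs.length → List (List K))
    (zc zc' : Fin hs.length → ℕ → K),
    (∀ i, Sh (12 * n + 20) (Fs i) ∧ 1 ≤ (Fs i).length ∧
      F (r i) = X ^ (Fs i).length + pol ((Fs i).map (fun v => π (pol v)))) ∧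
    (∀ i, lam (F (r i)) (Yp π (12 * n + 20) a g * derivative (F (r i))) =
      π (∑ k ∈ Finset.range (12 * n + 20), Polynomial.C (zc i k) * X ^ k)) ∧
    (∀ i, lam (F (r i)) (Yp π (12 * n + 20) a
        (fun j => gfrob (mbiv S) (Fintype.card K) (a j) (g j)) * derivative (F (r i))) =
      π (∑ k ∈ Finset.range (12 * n + 20), Polynomial.C (zc' i k) * X ^ k)) ∧
    (p.val () (Ty.map (algebraMap K L) TB tb, ((bits L q, un e),
      (Ty.map (algebraMap K L) Ma S, (Ty.map (algebraMap K L) Ma hs, (List.ofFn a, rows g))))) :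
      List (List (List L) × List L)) =
      (List.ofFn a).flatMap (tcols n (12 * n + 20) (q ^ e)) ++
      List.ofFn (fun i => (Ty.map (algebraMap K L) Ma (Fs i),
        (List.range (12 * n + 20 - (n - 1))).map (fun k => algebraMap K L (zc i (n - 1 + k))) ++
        (List.range (12 * n + 20 - (n - 1))).map
          (fun k => algebraMap K L (zc' i (n - 1 + k))))) ∧
    p.cost () () (Ty.map (algebraMap K L) TB tb, ((bits L q, un e),
      (Ty.map (algebraMap K L) Ma S, (Ty.map (algebraMap K L) Ma hs, (List.ofFn a, rows g))))) ≤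
      C * PL e q n ^ k * ww (n + 1)

/-- from the columns to the blocks; input `(table, (s, columns))` -/
def SpecBlk : Prop := ∃ (p : Pr [] (.prod TB (.prod Un (.list (.prod Ma Po)))) (.list Ma))
    (C k : ℕ),
  ∀ (L : Type) [Field L] [DecidableEq L] (tb : List (List L) × List (List L)) (n r m : ℕ)
  (tc : Fin (4 * n + 4) → List L) (As : Fin r → List (List L)) (lc : Fin r → List L)
  (blk : Fin r → ℕ), IsTb tb → 1 ≤ n → m = 2 * (12 * n + 20 - (n - 1)) →
  (∀ j, (tc j).length = m) → (∀ i, (lc i).length = m) → (∀ i, Sh (12 * n + 20) (As i)) →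
  (∀ i, 1 ≤ (As i).length) → ∑ i, (As i).length = n →
  (∀ (t : Fin (4 * n + 4) → L) (l : Fin r → L),
    ∑ j, t j • cvec (tc j) + ∑ i, l i • cvec (lc i) = 0 →
      (∀ i i', blk i = blk i' → l i = l i') ∧ (l = 0 → t = 0)) →
  (∀ i, ∃ t : Fin (4 * n + 4) → L, ∑ j, t j • cvec (tc j) +
    ∑ i', (if blk i' = blk i then (1 : L) else 0) • cvec (lc i') = 0) →
  let out : List (List (List L)) := p.val () (tb, (un (12 * n + 20),
    (List.ofFn (fun j => (([] : List (List L)), tc j)) ++ List.ofFn (fun i => (As i, lc i)))))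
  (∃ bs : List (Fin r), bs.length = out.length ∧ (bs.map blk).Nodup ∧
    (∀ i, ∃ b ∈ bs, blk b = blk i) ∧
    ∀ j (h : j < out.length) (h' : j < bs.length), Sh (12 * n + 20) out[j] ∧
      out[j].length = ∑ i ∈ Finset.univ.filter (fun i => blk i = blk bs[j]), (As i).length ∧
      ∀ (R : Type) [CommRing R] [Algebra L R] (τ : R), τ ^ (12 * n + 20) = 0 →
        mrp τ out[j] = ∏ i ∈ Finset.univ.filter (fun i => blk i = blk bs[j]), mrp τ (As i)) ∧
  p.cost () () (tb, (un (12 * n + 20),
    (List.ofFn (fun j => (([] : List (List L)), tc j)) ++ List.ofFn (fun i => (As i, lc i))))) ≤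
    C * lgc (n + 1) ^ k * ww (n + 1)

end Pool.Agent.H330FB
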