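import Pool.Agent.H330FB.Lib5
import Pool.Agent.H330FB.Spec3b
set_option autoImplicit false
noncomputable section
namespace Pool.Agent.H330FB.JS7
open Polynomial

/-! ### total degree by homogenization -/

/-- `x ↦ x z`, `y ↦ y z` -/
noncomputable def S7hz {K : Type} [Field K] : K[X][X] →+* K[X][X][X] :=
  eval₂RingHom (eval₂RingHom (((C : K[X][X] →+* K[X][X][X]).comp (C : K[X] →+* K[X][X])).comp
    (C : K →+* K[X])) ((C (C X) * X : K[X][X][X]))) (C X * X : K[X][X][X])

theorem S7hz_mono {K : Type} [Field K] (c : K) (i j : ℕ) :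
    S7hz (C (C c * X ^ j) * X ^ i) = C (C (C c * X ^ j) * X ^ i) * X ^ (i + j) := by
  simp only [S7hz, coe_eval₂RingHom, eval₂_mul, eval₂_C, eval₂_pow, eval₂_X, mul_pow, map_mul,
    map_pow, RingHom.comp_apply]
  ring

theorem S7_cc {K : Type} [Field K] (a : K) (m n i j : ℕ) :
    ((C (C a * X ^ m) * X ^ n : K[X][X]).coeff i).coeff j =
      if i = n ∧ j = m then a else 0 := by
  rw [coeff_C_mul, coeff_X_pow]
  by_cases h1 : i = n
  · rw [if_pos h1, mul_one, coeff_C_mul, coeff_X_pow]
    by_cases h2 : j = m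
    · simp [h1, h2]
    · simp [h2]
  · simp [h1]

theorem S7hz_coeff {K : Type} [Field K] (f : K[X][X]) (k i j : ℕ) :
    (((S7hz f).coeff k).coeff i).coeff j = if i + j = k then (f.coeff i).coeff j else 0 := by
  induction f using Polynomial.induction_on' with
  | add p q hp hq =>
    simp only [map_add, coeff_add, hp, hq]
    split_ifs <;> simp
  | monomial n c =>
    induction c using Polynomial.induction_on' with
    | add p q hp hq =>
      have : (monomial n (p + q) : K[X][X]) = monomial n p + monomial n q := by simp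
      rw [this]
      simp only [map_add, coeff_add, hp, hq]
      split_ifs <;> simp
    | monomial m a =>
      have e1 : (monomial n (monomial m a) : K[X][X]) = C (C a * X ^ m) * X ^ n := by
        rw [C_mul_X_pow_eq_monomial, C_mul_X_pow_eq_monomial]
      rw [e1, S7hz_mono, coeff_C_mul, coeff_X_pow]
      by_cases h1 : k = n + m
      · rw [if_pos h1, mul_one, S7_cc]
        by_cases h2 : i = n ∧ j = m
        · rw [if_pos h2, if_pos (by omega)]
        · rw [if_neg h2]; simp
      · rw [if_neg h1, mul_zero, coeff_zero, coeff_zero, S7_cc]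
        by_cases h2 : i = n ∧ j = m
        · rw [if_neg (by omega)]
        · rw [if_neg h2]; simp

theorem S7_TD_iff {K : Type} [Field K] (f : K[X][X]) (n : ℕ) :
    TD f n ↔ (S7hz f).natDegree ≤ n := by
  rw [natDegree_le_iff_coeff_eq_zero]
  constructor
  · intro h k hk
    ext i j
    rw [S7hz_coeff]
    by_cases hij : i + j = k
    · rw [if_pos hij, h i j (by omega)]; simp
    · rw [if_neg hij]; simp
  · intro h i j hij
    have h1 := congrArg (fun g => (Polynomial.coeff (Polynomial.coeff g i) j)) (h (i + j) hij)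
    simp only [S7hz_coeff, if_true, coeff_zero] at h1
    exact h1

theorem S7hz_injective {K : Type} [Field K] : Function.Injective (S7hz : K[X][X] →+* K[X][X][X]) := by
  rw [injective_iff_map_eq_zero]
  intro f hf
  ext i j
  have h1 := S7hz_coeff f (i + j) i j
  rw [hf] at h1
  simpa using h1.symm

/-! ### the substitution -/

theorem S7sub_CC {K : Type} [Field K] (a b c : K) : sub a b (C (C c)) = C (C c) := by
  simp [sub]

theorem S7sub_CX {K : Type} [Field K] (a b : K) : sub a b (C X) = C (X + C b) + C (C a) * X := by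
  simp [sub]

theorem S7sub_X {K : Type} [Field K] (a b : K) : sub a b X = X := by
  simp [sub]

theorem S7ringHom_ext {K R : Type} [Field K] [CommRing R] {f g : K[X][X] →+* R}
    (h1 : ∀ c, f (C (C c)) = g (C (C c))) (h2 : f (C X) = g (C X)) (h3 : f X = g X) : f = g := by
  apply Polynomial.ringHom_ext'
  · apply Polynomial.ringHom_ext'
    · ext c; exact h1 c
    · exact h2
  · exact h3

theorem S7sub_comp {K : Type} [Field K] (a b a' b' : K) (f : K[X][X]) :
    sub a' b' (sub a b f) = sub (a + a') (b + b') f := by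
  have h : (sub a' b').comp (sub a b) = sub (a + a') (b + b') := by
    apply S7ringHom_ext
    · intro c; simp only [RingHom.comp_apply, S7sub_CC]
    · simp only [RingHom.comp_apply, S7sub_CX, map_add, map_mul, S7sub_CC, S7sub_X, C_add]
      ring
    · simp only [RingHom.comp_apply, S7sub_X]
  exact congrArg (fun g : K[X][X] →+* K[X][X] => g f) h

theorem S7sub_zero {K : Type} [Field K] (f : K[X][X]) : sub 0 0 f = f := by
  have h : sub (0 : K) 0 = RingHom.id K[X][X] := by
    apply S7ringHom_ext
    · intro c; simp only [S7sub_CC, RingHom.id_apply]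
    · simp only [S7sub_CX, RingHom.id_apply]; simp
    · simp only [S7sub_X, RingHom.id_apply]
  rw [h]; rfl

/-- `sub a b` as an automorphism -/
noncomputable def S7e {K : Type} [Field K] (a b : K) : K[X][X] ≃+* K[X][X] :=
  { sub a b with
    invFun := sub (-a) (-b)
    left_inv := fun f => by
      show sub (-a) (-b) (sub a b f) = f
      rw [S7sub_comp, add_neg_cancel, add_neg_cancel, S7sub_zero]
    right_inv := fun f => by
      show sub a b (sub (-a) (-b) f) = f
      rw [S7sub_comp, neg_add_cancel, neg_add_cancel, S7sub_zero] }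

theorem S7e_apply {K : Type} [Field K] (a b : K) (f : K[X][X]) : S7e a b f = sub a b f := rfl

theorem S7e_symm_apply {K : Type} [Field K] (a b : K) (f : K[X][X]) :
    (S7e a b).symm f = sub (-a) (-b) f := rfl

/-- homogenization and the substitution for `b = 0` -/
theorem S7hz_sub {K : Type} [Field K] (a : K) (f : K[X][X]) :
    S7hz (sub a 0 f) = (S7hz f).map (sub a 0) := by
  have h : S7hz.comp (sub a 0) = (mapRingHom (sub a 0)).comp (S7hz (K := K)) := by
    refine Polynomial.ringHom_ext' (Polynomial.ringHom_ext' (RingHom.ext fun c => ?_) ?_) ?_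
    · simp [S7hz, S7sub_CC]
    · simp only [RingHom.comp_apply, S7sub_CX]
      simp only [S7hz, coe_eval₂RingHom, coe_mapRingHom, eval₂_mul, eval₂_C, eval₂_add, eval₂_X,
        map_mul, map_add, RingHom.comp_apply, Polynomial.map_mul, Polynomial.map_C, map_X,
        S7sub_CX, map_zero]
      ring
    · simp only [RingHom.comp_apply, S7sub_X]
      simp only [S7hz, coe_eval₂RingHom, coe_mapRingHom, eval₂_X, Polynomial.map_mul,
        Polynomial.map_C, map_X, S7sub_X]
  exact congrArg (fun g : K[X][X] →+* K[X][X][X] => g f) h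

theorem S7_TD_sub {K : Type} [Field K] (a : K) (f : K[X][X]) (n : ℕ) (h : TD f n) :
    TD (sub a 0 f) n := by
  rw [S7_TD_iff] at h ⊢
  rw [S7hz_sub]
  exact natDegree_map_le.trans h

/-- total degree of a monic divisor -/
theorem S7_TD_dvd {K : Type} [Field K] (F T : K[X][X]) (d : ℕ) (hF : F ≠ 0) (hTD : TD F d)
    (hd : F.natDegree = d) (hT : T.Monic) (hTF : T ∣ F) : TD T T.natDegree := by
  obtain ⟨Q, rfl⟩ := hTF
  have hQ : Q ≠ 0 := right_ne_zero_of_mul hF
  have hz : ∀ G : K[X][X], G ≠ 0 → G.natDegree ≤ (S7hz G).natDegree := by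
    intro G hG
    have h1 : G.leadingCoeff ≠ 0 := leadingCoeff_ne_zero.2 hG
    have h2 : ∃ j, (G.coeff G.natDegree).coeff j ≠ 0 := by
      by_contra hcon
      push Not at hcon
      exact h1 (by ext j; simpa using hcon j)
    obtain ⟨j, hj⟩ := h2
    have h3 := S7hz_coeff G (G.natDegree + j) G.natDegree j
    rw [if_pos rfl] at h3
    have h4 : (S7hz G).coeff (G.natDegree + j) ≠ 0 := by
      intro h0
      rw [h0] at h3
      exact hj (by simpa using h3.symm)
    exact (Nat.le_add_right _ _).trans (le_natDegree_of_ne_zero h4)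
  rw [S7_TD_iff] at hTD ⊢
  have hT0 : T ≠ 0 := hT.ne_zero
  have hzT : S7hz T ≠ 0 := (map_ne_zero_iff _ S7hz_injective).2 hT0
  have hzQ : S7hz Q ≠ 0 := (map_ne_zero_iff _ S7hz_injective).2 hQ
  rw [map_mul, natDegree_mul hzT hzQ] at hTD
  rw [natDegree_mul hT0 hQ] at hd
  have h5 := hz Q hQ
  omega

/-! ### the top form -/

/-- the top form at `(1, y)` -/
noncomputable def S7top {K : Type} [Field K] (d : ℕ) (H : List (List K)) : K[X] :=
  ∑ j ∈ Finset.range (d + 1), C ((H.getD d []).getD j 0) * X ^ j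

theorem S7sub_mono {K : Type} [Field K] (a b c : K) (i j : ℕ) :
    sub a b (C (C c * X ^ j) * X ^ i) =
      C (C c) * ((C (X + C b) + C (C a) * X) ^ j * X ^ i) := by
  rw [map_mul, map_mul, map_mul, map_pow, map_pow, map_pow, S7sub_CC, S7sub_CX, S7sub_X, mul_assoc]

theorem S7lin_deg {K : Type} [Field K] (a b : K) :
    (C (X + C b) + C (C a) * X : K[X][X]).natDegree ≤ 1 := by
  refine natDegree_add_le_of_degree_le (by simp) ?_
  exact (natDegree_C_mul_le _ _).trans (by simp)

theorem S7lin_coeff {K : Type} [Field K] (a b : K) :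
    (C (X + C b) + C (C a) * X : K[X][X]).coeff 1 = C a := by
  simp [coeff_C]

theorem S7mono_deg {K : Type} [Field K] (a b : K) (i j : ℕ) :
    ((C (X + C b) + C (C a) * X : K[X][X]) ^ j * X ^ i).natDegree ≤ j + i := by
  refine natDegree_mul_le.trans ?_
  have h1 := natDegree_pow_le_of_le j (S7lin_deg a b)
  have h2 : (X ^ i : K[X][X]).natDegree ≤ i := natDegree_X_pow_le i
  omega

theorem S7mono_top {K : Type} [Field K] (a b : K) (i j : ℕ) :
    ((C (X + C b) + C (C a) * X : K[X][X]) ^ j * X ^ i).coeff (j + i) = C a ^ j := by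
  rw [coeff_mul_X_pow]
  have h1 := coeff_pow_of_natDegree_le (m := j) (S7lin_deg a b)
  rw [mul_one, S7lin_coeff] at h1
  exact h1

theorem S7sub_hom_coeff {K : Type} [Field K] (a b : K) (d : ℕ) (H : List (List K))
    (hH : IsHom d H) : (sub a b (hom H)).coeff d = C ((S7top d H).eval a) := by
  have h0 : (S7top d H).eval a = ∑ j ∈ Finset.range (d + 1), (H.getD d []).getD j 0 * a ^ j := by
    simp only [S7top, eval_finsetSum, eval_mul, eval_C, eval_pow, eval_X]
  rw [h0, hom, hH.1, map_sum, finsetSum_coeff, Finset.sum_range_succ]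
  rw [Finset.sum_eq_zero, zero_add, map_sum, finsetSum_coeff, map_sum]
  · refine Finset.sum_congr rfl fun j hj => ?_
    have hj' : j ≤ d := by simpa [Nat.lt_succ_iff] using hj
    rw [S7sub_mono, coeff_C_mul]
    have h1 := S7mono_top a b (d - j) j
    rw [show j + (d - j) = d by omega] at h1
    rw [h1, C_mul, C_pow]
  · intro k hk
    have hk' : k < d := by simpa using hk
    rw [map_sum, finsetSum_coeff]
    refine Finset.sum_eq_zero fun j hj => ?_
    have hj' : j ≤ k := by simpa [Nat.lt_succ_iff] using hj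
    rw [S7sub_mono, coeff_C_mul, coeff_eq_zero_of_natDegree_lt, mul_zero]
    have h1 := S7mono_deg a b (k - j) j
    omega

theorem S7top_ne {K : Type} [Field K] (d : ℕ) (H : List (List K)) (hH : IsHom d H)
    (hT : TopNe d H) : S7top d H ≠ 0 := by
  obtain ⟨j, hj⟩ := hT
  have hlen := hH.2 d le_rfl
  have hjd : j < d + 1 := by
    by_contra hcon
    apply hj
    rw [List.getD_eq_default]
    omega
  intro h0
  apply hj
  have h1 := congrArg (fun p : K[X] => p.coeff j) h0
  simp only [S7top, finsetSum_coeff, coeff_C_mul, coeff_X_pow, coeff_zero] at h1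
  rw [Finset.sum_eq_single j] at h1
  · simpa using h1
  · intro i _ hij
    rw [if_neg (fun h => hij h.symm), mul_zero]
  · intro h2
    exact absurd (Finset.mem_range.2 hjd) h2

theorem S7top_deg {K : Type} [Field K] (d : ℕ) (H : List (List K)) :
    (S7top d H).natDegree ≤ d := by
  refine natDegree_sum_le_of_forall_le _ _ fun j hj => ?_
  have hj' : j ≤ d := by simpa [Nat.lt_succ_iff] using hj
  exact (natDegree_C_mul_X_pow_le _ _).trans hj'

theorem S7_TD_hom {K : Type} [Field K] (d : ℕ) (H : List (List K)) (hH : IsHom d H) :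
    TD (hom H) d := by
  intro i j hij
  rw [hom, hH.1, finsetSum_coeff, finsetSum_coeff]
  refine Finset.sum_eq_zero fun k hk => ?_
  have hk' : k ≤ d := by simpa [Nat.lt_succ_iff] using hk
  rw [finsetSum_coeff, finsetSum_coeff]
  refine Finset.sum_eq_zero fun l hl => ?_
  have hl' : l ≤ k := by simpa [Nat.lt_succ_iff] using hl
  rw [S7_cc, if_neg (by omega)]

/-! ### powers of the characteristic -/

theorem S7frob {R : Type} [CommRing R] [IsDomain R] (p : ℕ) [Fact p.Prime] [CharP R p] (g : R[X])
    (h1 : derivative g = 0) (h2 : ∀ i, ∃ r : R, g.coeff i = r ^ p) : ∃ w : R[X], g = w ^ p := by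
  have hmem : g ∈ (frobenius R[X] p).range := by
    rw [g.as_sum_support_C_mul_X_pow]
    refine Subring.sum_mem _ fun i hi => ?_
    have hne : g.coeff i ≠ 0 := mem_support_iff.1 hi
    have hpi : p ∣ i := by
      rcases Nat.eq_zero_or_pos i with rfl | hpos
      · exact dvd_zero _
      have h3 := congrArg (fun q : R[X] => q.coeff (i - 1)) h1
      simp only [coeff_derivative, coeff_zero] at h3
      rw [show i - 1 + 1 = i by omega] at h3
      have h4 : ((i - 1 : ℕ) : R) + 1 = (i : R) := by
        have : (((i - 1) + 1 : ℕ) : R) = (i : R) := by rw [show i - 1 + 1 = i by omega]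
        rw [← this]; push_cast; ring
      rw [h4] at h3
      rcases mul_eq_zero.1 h3 with h5 | h5
      · exact absurd h5 hne
      · exact (CharP.cast_eq_zero_iff R p i).1 h5
    obtain ⟨m, rfl⟩ := hpi
    obtain ⟨r, hr⟩ := h2 (p * m)
    refine ⟨C r * X ^ m, ?_⟩
    rw [frobenius_def, hr, mul_pow, ← C_pow, ← pow_mul, mul_comm m p]
  obtain ⟨w, hw⟩ := hmem
  exact ⟨w, by rw [← hw, frobenius_def]⟩

/-- derivative in the inner variable -/
noncomputable def S7dy {K : Type} [Field K] (g : K[X][X]) : K[X][X] :=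
  g.sum fun i c => monomial i (derivative c)

theorem S7dy_coeff {K : Type} [Field K] (g : K[X][X]) (i : ℕ) :
    (S7dy g).coeff i = derivative (g.coeff i) := by
  rw [S7dy, sum_def, finsetSum_coeff]
  simp only [coeff_monomial]
  rw [Finset.sum_ite_eq']
  split_ifs with h
  · rfl
  · rw [notMem_support_iff.1 h, derivative_zero]

theorem S7dy_add {K : Type} [Field K] (f g : K[X][X]) : S7dy (f + g) = S7dy f + S7dy g := by
  ext1 i
  rw [S7dy_coeff, coeff_add, coeff_add, S7dy_coeff, S7dy_coeff, derivative_add]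

theorem S7dy_mono {K : Type} [Field K] (c : K) (i j : ℕ) :
    S7dy (C (C c * X ^ j) * X ^ i) = C (C c * (C (j : K) * X ^ (j - 1))) * X ^ i := by
  ext1 k
  rw [S7dy_coeff, coeff_C_mul, coeff_C_mul, coeff_X_pow]
  by_cases h : k = i
  · rw [if_pos h, mul_one, mul_one, derivative_C_mul, derivative_X_pow]
  · rw [if_neg h, mul_zero, mul_zero, derivative_zero]

theorem S7deriv_sub {K : Type} [Field K] (a : K) (g : K[X][X]) :
    derivative (sub a 0 g) = sub a 0 (derivative g + C (C a) * S7dy g) := by
  induction g using Polynomial.induction_on' with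
  | add p q hp hq =>
    rw [map_add, derivative_add, hp, hq, ← map_add, derivative_add, S7dy_add]
    congr 1
    ring
  | monomial n c =>
    induction c using Polynomial.induction_on' with
    | add p q hp hq =>
      have e : (monomial n (p + q) : K[X][X]) = monomial n p + monomial n q := by simp
      rw [e, map_add, derivative_add, hp, hq, ← map_add, derivative_add, S7dy_add]
      congr 1
      ring
    | monomial m c =>
      have e1 : (monomial n (monomial m c) : K[X][X]) = C (C c * X ^ m) * X ^ n := by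
        rw [C_mul_X_pow_eq_monomial, C_mul_X_pow_eq_monomial]
      rw [e1, S7dy_mono]
      simp only [map_add, map_mul, map_pow, S7sub_CC, S7sub_CX, S7sub_X, derivative_mul,
        derivative_C, derivative_X_pow, derivative_pow, derivative_add, derivative_X]
      simp
      ring

/-! ### bad values of the slope -/

theorem S7pth {K : Type} [Field K] [Fintype K] (g : K[X][X]) (h1 : derivative g = 0)
    (h2 : S7dy g = 0) : ¬ Irreducible g := by
  obtain ⟨p, hp⟩ := CharP.exists K
  have := hp
  have hp1 : p.Prime := (CharP.char_is_prime_or_zero K p).resolve_right (by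
    rintro rfl
    have : CharZero K := CharP.charP_to_charZero K
    exact not_injective_infinite_finite (Nat.cast : ℕ → K) Nat.cast_injective)
  have : Fact p.Prime := ⟨hp1⟩
  have hK : ∀ c : K, ∃ r : K, c = r ^ p := by
    intro c
    have hinj : Function.Injective (frobenius K p) := frobenius_inj K p
    obtain ⟨r, hr⟩ := (Finite.injective_iff_surjective.1 hinj) c
    exact ⟨r, by rw [← hr, frobenius_def]⟩
  have h3 : ∀ i, ∃ r : K[X], g.coeff i = r ^ p := by
    intro i
    refine S7frob p (g.coeff i) ?_ (fun j => hK _)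
    have h4 := congrArg (fun q : K[X][X] => q.coeff i) h2
    simpa [S7dy_coeff] using h4
  obtain ⟨w, rfl⟩ := S7frob p g h1 h3
  exact not_irreducible_pow hp1.ne_one

theorem S7slope {K : Type} [Field K] [Fintype K] (g : K[X][X]) (hg : Irreducible g) (a a' : K)
    (h1 : derivative (sub a 0 g) = 0) (h2 : derivative (sub a' 0 g) = 0) : a = a' := by
  by_contra hne
  rw [S7deriv_sub, ← S7e_apply, EmbeddingLike.map_eq_zero_iff] at h1 h2
  have h3 : C (C (a - a')) * S7dy g = 0 := by
    have : C (C (a - a')) * S7dy g = (derivative g + C (C a) * S7dy g) -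
      (derivative g + C (C a') * S7dy g) := by
      rw [C_sub, C_sub]; ring
    rw [this, h1, h2, sub_zero]
  have h4 : S7dy g = 0 := by
    rcases mul_eq_zero.1 h3 with h | h
    · exact absurd (sub_eq_zero.1 (C_eq_zero.1 (C_eq_zero.1 h))) hne
    · exact h
  rw [h4, mul_zero, add_zero] at h1
  exact S7pth g h1 h4 hg

theorem S7unit {K : Type} [Field K] (u : K[X][X]) (hu : IsUnit u) : ∃ c : K, c ≠ 0 ∧ u = C (C c) := by
  obtain ⟨r, hr, rfl⟩ := Polynomial.isUnit_iff.1 hu
  obtain ⟨c, hc, rfl⟩ := Polynomial.isUnit_iff.1 hr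
  exact ⟨c, hc.ne_zero, rfl⟩

theorem S7assoc {K : Type} [Field K] (a : K) (g q : K[X][X]) (h : Associated g q)
    (h1 : derivative (sub a 0 g) = 0) : derivative (sub a 0 q) = 0 := by
  obtain ⟨u, rfl⟩ := h
  obtain ⟨c, hc, hu⟩ := S7unit (u : K[X][X]) u.isUnit
  rw [hu, map_mul, S7sub_CC, derivative_mul, h1, derivative_C, zero_mul, mul_zero, add_zero]

theorem S7hz_irr {K : Type} [Field K] (q : K[X][X]) (hq : Irreducible q) :
    1 ≤ (S7hz q).natDegree := by
  by_contra hcon
  have h0 : (S7hz q).natDegree ≤ 0 := by omega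
  rw [← S7_TD_iff] at h0
  have h1 : q = C (C ((q.coeff 0).coeff 0)) := by
    ext i j
    rw [coeff_C]
    by_cases hi : i = 0
    · rw [if_pos hi, coeff_C]
      by_cases hj : j = 0
      · rw [if_pos hj, hi, hj]
      · rw [if_neg hj]
        exact h0 i j (by omega)
    · rw [if_neg hi, coeff_zero]
      exact h0 i j (by omega)
  by_cases hc : (q.coeff 0).coeff 0 = 0
  · rw [hc, C_0, C_0] at h1
    exact hq.ne_zero h1
  · apply hq.not_isUnit
    rw [h1]
    exact isUnit_C.2 (isUnit_C.2 (isUnit_iff_ne_zero.2 hc))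

theorem S7card_factors {K : Type} [Field K] (f : K[X][X]) (hf : f ≠ 0) (d : ℕ) (hTD : TD f d) :
    (UniqueFactorizationMonoid.factors f).card ≤ d := by
  have h1 := UniqueFactorizationMonoid.factors_prod hf
  obtain ⟨u, hu⟩ := h1
  rw [S7_TD_iff, ← hu, map_mul, map_multiset_prod] at hTD
  have hne : ∀ q ∈ UniqueFactorizationMonoid.factors f, q ≠ 0 := fun q hq =>
    (UniqueFactorizationMonoid.irreducible_of_factor q hq).ne_zero
  have h0 : (0 : K[X][X][X]) ∉ (UniqueFactorizationMonoid.factors f).map S7hz := by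
    intro hmem
    obtain ⟨q, hq, hq0⟩ := Multiset.mem_map.1 hmem
    exact hne q hq ((map_eq_zero_iff _ S7hz_injective).1 hq0)
  have hP : ((UniqueFactorizationMonoid.factors f).map S7hz).prod ≠ 0 := by
    rw [← map_multiset_prod]
    exact (map_ne_zero_iff _ S7hz_injective).2 (left_ne_zero_of_mul (hu ▸ hf))
  have hU : S7hz (u : K[X][X]) ≠ 0 := (map_ne_zero_iff _ S7hz_injective).2 u.ne_zero
  rw [natDegree_mul hP hU, natDegree_multiset_prod _ h0, Multiset.map_map] at hTD
  have h2 := Multiset.card_nsmul_le_sum (s := (UniqueFactorizationMonoid.factors f).map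
    (natDegree ∘ S7hz)) (a := 1) (by
      intro x hx
      obtain ⟨q, hq, rfl⟩ := Multiset.mem_map.1 hx
      exact S7hz_irr q (UniqueFactorizationMonoid.irreducible_of_factor q hq))
  rw [Multiset.card_map, smul_eq_mul, mul_one] at h2
  omega

/-- the bad slopes -/
theorem S7bad_slopes {K : Type} [Field K] [Fintype K] (f : K[X][X]) (hf : f ≠ 0) (d : ℕ)
    (hTD : TD f d) : ∃ B : Finset K, B.card ≤ d ∧ ∀ a ∉ B, ∀ g, Irreducible g → g ∣ f →
      derivative (sub a 0 g) ≠ 0 := by
  classical
  refine ⟨(UniqueFactorizationMonoid.factors f).toFinset.biUnion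
    (fun q => Finset.univ.filter (fun a => derivative (sub a 0 q) = 0)), ?_, ?_⟩
  · refine (Finset.card_biUnion_le_card_mul _ _ 1 ?_).trans ?_
    · intro q hq
      rw [Finset.card_le_one]
      intro a ha a' ha'
      rw [Finset.mem_filter] at ha ha'
      exact S7slope q (UniqueFactorizationMonoid.irreducible_of_factor q
        (Multiset.mem_toFinset.1 hq)) a a' ha.2 ha'.2
    · rw [mul_one]
      exact (Multiset.toFinset_card_le _).trans (S7card_factors f hf d hTD)
  · intro a ha g hg hgf h0
    apply ha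
    obtain ⟨q, hq, hgq⟩ := UniqueFactorizationMonoid.exists_mem_factors_of_dvd hf hg hgf
    rw [Finset.mem_biUnion]
    refine ⟨q, Multiset.mem_toFinset.2 hq, ?_⟩
    rw [Finset.mem_filter]
    exact ⟨Finset.mem_univ _, S7assoc a g q hgq h0⟩

/-! ### separability -/

theorem S7monic_assoc {K : Type} [Field K] (g T : K[X][X]) (hT : IsUnit T.leadingCoeff)
    (hg : g ∣ T) : ∃ c : K, c ≠ 0 ∧ (C (C c) * g).Monic := by
  obtain ⟨q, rfl⟩ := hg
  rw [leadingCoeff_mul] at hT
  have h1 : IsUnit g.leadingCoeff := isUnit_of_mul_isUnit_left hT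
  obtain ⟨c, hc, hcg⟩ := Polynomial.isUnit_iff.1 h1
  refine ⟨c⁻¹, inv_ne_zero hc.ne_zero, ?_⟩
  rw [Monic, leadingCoeff_mul, leadingCoeff_C, ← hcg, ← C_mul, inv_mul_cancel₀ hc.ne_zero, C_1]

theorem S7sep {K : Type} [Field K] (n : ℕ) : ∀ T : K[X][X], T.Monic → Squarefree T →
    (∀ g, Irreducible g → g ∣ T → derivative g ≠ 0) → T.natDegree ≤ n →
    (T.map (algebraMap K[X] (RatFunc K))).Separable := by
  induction n with
  | zero =>
    intro T hT _ _ hn
    have : T = 1 := hT.natDegree_eq_zero.1 (by omega)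
    rw [this, Polynomial.map_one]
    exact separable_one
  | succ n ih =>
    intro T hT hsq hder hn
    by_cases h1 : T.natDegree = 0
    · have : T = 1 := hT.natDegree_eq_zero.1 h1
      rw [this, Polynomial.map_one]
      exact separable_one
    have hnu : ¬ IsUnit T := by
      intro hu
      exact h1 (natDegree_eq_zero_of_isUnit hu)
    obtain ⟨g, hg, hgT⟩ := WfDvdMonoid.exists_irreducible_factor hnu hT.ne_zero
    obtain ⟨c, hc, hgm⟩ := S7monic_assoc g T (by rw [hT.leadingCoeff]; exact isUnit_one) hgT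
    have huc : IsUnit (C (C c) : K[X][X]) := isUnit_C.2 (isUnit_C.2 (isUnit_iff_ne_zero.2 hc))
    have hg1 : Irreducible (C (C c) * g) := (irreducible_isUnit_mul huc).2 hg
    have hg1T : C (C c) * g ∣ T := (huc.mul_left_dvd).2 hgT
    generalize C (C c) * g = g1 at hgm hg1 hg1T
    obtain ⟨T2, rfl⟩ := hg1T
    have hT2 : T2.Monic := hgm.of_mul_monic_left hT
    have hsq2 : Squarefree T2 := hsq.squarefree_of_dvd (dvd_mul_left _ _)
    have hdeg : 1 ≤ g1.natDegree := by
      by_contra hcon
      have : g1 = 1 := hgm.natDegree_eq_zero.1 (by omega)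
      exact hg1.not_isUnit (this ▸ isUnit_one)
    have hdeg2 : T2.natDegree ≤ n := by
      rw [hgm.natDegree_mul hT2] at hn
      omega
    rw [Polynomial.map_mul]
    have hirr : Irreducible (g1.map (algebraMap K[X] (RatFunc K))) :=
      (hgm.irreducible_iff_irreducible_map_fraction_map (K := RatFunc K)).1 hg1
    refine Separable.mul ?_ (ih T2 hT2 hsq2 (fun q hq hq2 => hder q hq (hq2.mul_left _)) hdeg2) ?_
    · rw [separable_iff_derivative_ne_zero hirr, derivative_map]
      intro h0
      refine hder g1 hg1 (dvd_mul_right _ _) ?_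
      exact (Polynomial.map_eq_zero_iff (IsFractionRing.injective K[X] (RatFunc K))).1 h0
    · rw [hirr.coprime_iff_not_dvd]
      intro hdvd
      have h2 : g1 ∣ T2 := hT2.dvd_of_fraction_map_dvd_fraction_map hgm hdvd
      have h3 : g1 * g1 ∣ g1 * T2 := mul_dvd_mul_left _ h2
      exact hg1.not_isUnit (hsq g1 h3)

/-! ### the squarefree part -/

theorem S7exT {K : Type} [Field K] (F0 : K[X][X]) (hF : IsUnit F0.leadingCoeff)
    (hF0 : F0 ≠ 0) : ∃ (T : K[X][X]) (N : ℕ), T.Monic ∧ T ∣ F0 ∧ F0 ∣ T ^ N ∧ Squarefree T := by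
  classical
  have hR : UniqueFactorizationMonoid.radical F0 ∣ F0 := UniqueFactorizationMonoid.radical_dvd_self
  obtain ⟨N, hN⟩ := UniqueFactorizationMonoid.exists_dvd_radical_self_pow hF0
  have hsq : Squarefree (UniqueFactorizationMonoid.radical F0) :=
    UniqueFactorizationMonoid.squarefree_radical
  generalize UniqueFactorizationMonoid.radical F0 = R at hR hN hsq
  obtain ⟨c, hc, hm⟩ := S7monic_assoc R F0 hF hR
  have huc : IsUnit (C (C c) : K[X][X]) := isUnit_C.2 (isUnit_C.2 (isUnit_iff_ne_zero.2 hc))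
  refine ⟨C (C c) * R, N, hm, (huc.mul_left_dvd).2 hR, ?_, ?_⟩
  · rw [mul_pow]
    exact hN.mul_left _
  · exact hsq.squarefree_of_dvd ((huc.mul_left_dvd).2 dvd_rfl)

theorem S7sub_shift {K : Type} [Field K] (a b : K) (f : K[X][X]) :
    sub a b f = (sub a 0 f).map (compRingHom (X + C b)) := by
  have h : sub a b = (mapRingHom (compRingHom (X + C b))).comp (sub a 0) := by
    refine Polynomial.ringHom_ext' (Polynomial.ringHom_ext' (RingHom.ext fun c => ?_) ?_) ?_
    · simp [S7sub_CC]
    · simp [S7sub_CX]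
    · simp [S7sub_X]
  exact congrArg (fun g : K[X][X] →+* K[X][X] => g f) h

theorem S7shift_eval {K : Type} [Field K] (b : K) :
    (evalRingHom (0 : K)).comp (compRingHom (X + C b)) = evalRingHom b := by
  refine Polynomial.ringHom_ext' (RingHom.ext fun c => ?_) ?_
  · simp
  · simp

theorem S7fib {K : Type} [Field K] (a b : K) (f T : K[X][X]) (d N : ℕ) (u : K)
    (hu : u ≠ 0) (hcoef : (sub a b f).coeff d = C u) (hT : T.Monic) (hTf : T ∣ sub a 0 f)
    (hfT : sub a 0 f ∣ T ^ N) (δ : K[X]) (A B : K[X][X]) (hδ : C δ = A * T + B * derivative T)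
    (hb : δ.eval b ≠ 0) : CoGood a b f d := by
  refine ⟨by rw [hcoef, coeff_C_zero]; exact hu, T.map (compRingHom (X + C b)), N,
    hT.map _, ?_, ?_, ?_⟩
  · rw [S7sub_shift]
    exact Polynomial.map_dvd _ hTf
  · rw [S7sub_shift, ← Polynomial.map_pow]
    exact Polynomial.map_dvd _ hfT
  · rw [Polynomial.map_map, S7shift_eval]
    apply Separable.squarefree
    have h1 := congrArg (fun g : K[X][X] => g.map (evalRingHom b)) hδ
    simp only [Polynomial.map_add, Polynomial.map_mul, map_C, coe_evalRingHom] at h1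
    refine ⟨C (δ.eval b)⁻¹ * A.map (evalRingHom b), C (δ.eval b)⁻¹ * B.map (evalRingHom b), ?_⟩
    rw [derivative_map, mul_assoc, mul_assoc, ← mul_add, ← h1, ← C_mul, inv_mul_cancel₀ hb, C_1]

theorem S7pull {K : Type} [Field K] (a : K) (f g : K[X][X])
    (hg : ∀ g, Irreducible g → g ∣ f → derivative (sub a 0 g) ≠ 0) (hgi : Irreducible g)
    (hgf : g ∣ sub a 0 f) : derivative g ≠ 0 := by
  have h5 : sub a 0 ((S7e a 0).symm g) = g := by
    rw [← S7e_apply, RingEquiv.apply_symm_apply]
  have h1 : Irreducible ((S7e a 0).symm g) := by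
    rw [MulEquiv.irreducible_iff]
    exact hgi
  have h2 : (S7e a 0).symm g ∣ f := by
    obtain ⟨w, hw⟩ := hgf
    refine ⟨(S7e a 0).symm w, ?_⟩
    rw [← map_mul, ← hw, ← S7e_apply, RingEquiv.symm_apply_apply]
  have h4 := hg _ h1 h2
  rwa [h5] at h4

theorem S7good_slope (h : StmtFewBad) {K : Type} [Field K] (a : K) (f : K[X][X]) (d : ℕ) (u : K)
    (hd : 1 ≤ d) (hTD : TD f d) (hu : u ≠ 0) (hcoef : ∀ b, (sub a b f).coeff d = C u)
    (hg : ∀ g, Irreducible g → g ∣ f → derivative (sub a 0 g) ≠ 0) :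
    ∃ δ : K[X], δ ≠ 0 ∧ δ.natDegree ≤ 2 * d ^ 2 + d ∧ ∀ b, δ.eval b ≠ 0 → CoGood a b f d := by
  have hTD0 : TD (sub a 0 f) d := S7_TD_sub a f d hTD
  have hcu : (C u : K[X]) ≠ 0 := C_ne_zero.2 hu
  have hdeg : (sub a 0 f).natDegree = d := by
    refine le_antisymm ?_ (le_natDegree_of_ne_zero (by rw [hcoef 0]; exact hcu))
    rw [natDegree_le_iff_coeff_eq_zero]
    intro N hN
    ext j
    rw [coeff_zero]
    exact hTD0 N j (by omega)
  have hlead : (sub a 0 f).leadingCoeff = C u := by rw [leadingCoeff, hdeg, hcoef 0]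
  have hF0 : sub a 0 f ≠ 0 := by
    intro h0
    rw [h0, leadingCoeff_zero] at hlead
    exact hcu hlead.symm
  have hF : IsUnit (sub a 0 f).leadingCoeff := by
    rw [hlead]; exact isUnit_C.2 (isUnit_iff_ne_zero.2 hu)
  obtain ⟨T, N, hT, hTF, hFT, hsq⟩ := S7exT _ hF hF0
  have hTTD : TD T T.natDegree := S7_TD_dvd _ T d hF0 hTD0 hdeg hT hTF
  have hTn : 1 ≤ T.natDegree := by
    by_contra hcon
    have h1 : T = 1 := hT.natDegree_eq_zero.1 (by omega)
    rw [h1, one_pow] at hFT
    have h2 := natDegree_eq_zero_of_isUnit (isUnit_of_dvd_one hFT)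
    omega
  have hTd : T.natDegree ≤ d := by
    rw [← hdeg]
    exact natDegree_le_of_dvd hTF hF0
  have hsep : (T.map (algebraMap K[X] (RatFunc K))).Separable := by
    refine S7sep T.natDegree T hT hsq ?_ le_rfl
    intro g hgi hgT
    exact S7pull a f g hg hgi (hgT.trans hTF)
  obtain ⟨δ, A, B, hδ0, hδd, hδ⟩ := h K T T.natDegree hT rfl hTn hTTD hsep
  refine ⟨δ, hδ0, hδd.trans ?_, fun b hb => S7fib a b f T d N u hu (hcoef b) hT hTF hFT δ A B hδ hb⟩
  nlinarith [Nat.pow_le_pow_left hTd 2]

theorem S7hom_ne {K : Type} [Field K] (d : ℕ) (H : List (List K)) (hH : IsHom d H)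
    (hT : TopNe d H) : hom H ≠ 0 := by
  obtain ⟨j, hj⟩ := hT
  have hlen := hH.2 d le_rfl
  have hjd : j < d + 1 := by
    by_contra hcon
    apply hj
    rw [List.getD_eq_default]
    omega
  intro h0
  apply hj
  have h1 := congrArg (fun p : K[X][X] => (p.coeff (d - j)).coeff j) h0
  simp only [coeff_zero] at h1
  rw [hom, hH.1, finsetSum_coeff, finsetSum_coeff, Finset.sum_eq_single d, finsetSum_coeff,
    finsetSum_coeff, Finset.sum_eq_single j] at h1
  · rw [S7_cc, if_pos ⟨rfl, rfl⟩] at h1
    exact h1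
  · intro l _ hl
    rw [S7_cc, if_neg (fun h => hl h.2.symm)]
  · intro h2
    exact absurd (Finset.mem_range.2 hjd) h2
  · intro k hk hkd
    have hk' : k < d + 1 := by simpa using hk
    rw [finsetSum_coeff, finsetSum_coeff]
    refine Finset.sum_eq_zero fun l hl => ?_
    have hl' : l < k + 1 := by simpa using hl
    rw [S7_cc, if_neg]
    omega
  · intro h2
    exact absurd (Finset.mem_range.2 (Nat.lt_succ_self d)) h2

theorem S7count {K : Type} [Fintype K] (P : K → K → Prop) (B : Finset K)
    (D E : ℕ) (hB : B.card ≤ E)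
    (h : ∀ a ∉ B, ∃ S : Finset K, S.card ≤ D ∧ ∀ b, ¬ P a b → b ∈ S) :
    Nat.card {x : K × K // ¬ P x.1 x.2} ≤ (E + D) * Fintype.card K := by
  classical
  rw [Nat.card_eq_fintype_card, Fintype.card_subtype]
  rw [Finset.card_eq_sum_card_fiberwise (f := Prod.fst) (t := (Finset.univ : Finset K))
    (fun x _ => Finset.mem_univ _)]
  have key : ∀ a : K, ((Finset.univ.filter (fun x : K × K => ¬ P x.1 x.2)).filter
      (fun x => x.1 = a)).card ≤ (if a ∈ B then Fintype.card K else 0) + D := by
    intro a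
    by_cases ha : a ∈ B
    · rw [if_pos ha]
      refine le_trans ?_ (Nat.le_add_right _ _)
      rw [← Finset.card_univ]
      refine Finset.card_le_card_of_injOn Prod.snd (fun x _ => Finset.mem_univ _) ?_
      intro x hx y hy hxy
      simp only [Finset.coe_filter, Finset.mem_filter, Set.mem_ofPred_eq] at hx hy
      exact Prod.ext (hx.2.trans hy.2.symm) hxy
    · rw [if_neg ha, zero_add]
      obtain ⟨S, hS, hS2⟩ := h a ha
      refine le_trans ?_ hS
      refine Finset.card_le_card_of_injOn Prod.snd ?_ ?_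
      · intro x hx
        simp only [Finset.coe_filter, Finset.mem_filter, Set.mem_ofPred_eq] at hx
        refine hS2 _ ?_
        rw [← hx.2]
        exact hx.1.2
      · intro x hx y hy hxy
        simp only [Finset.coe_filter, Finset.mem_filter, Set.mem_ofPred_eq] at hx hy
        exact Prod.ext (hx.2.trans hy.2.symm) hxy
  refine (Finset.sum_le_sum fun a _ => key a).trans ?_
  rw [Finset.sum_add_distrib, Finset.sum_ite_mem, Finset.univ_inter, Finset.sum_const,
    Finset.sum_const, smul_eq_mul, smul_eq_mul, Finset.card_univ, add_mul, mul_comm D]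
  exact Nat.add_le_add_right (Nat.mul_le_mul_right _ hB) _

theorem stmtCoCount (h : StmtFewBad) : StmtCoCount := by
  classical
  intro K _ _ d H hH hd hTop
  have hTD := S7_TD_hom d H hH
  have hcoef := fun a b : K => S7sub_hom_coeff a b d H hH
  have htne := S7top_ne d H hH hTop
  have htdeg := S7top_deg d H
  have hf := S7hom_ne d H hH hTop
  obtain ⟨B2, hB2, hgood⟩ := S7bad_slopes (hom H) hf d hTD
  have hB : ((S7top d H).roots.toFinset ∪ B2).card ≤ d + d := by
    refine (Finset.card_union_le _ _).trans (Nat.add_le_add ?_ hB2)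
    exact (Multiset.toFinset_card_le _).trans ((card_roots' _).trans htdeg)
  have hc := S7count (fun a b => CoGood a b (hom H) d) _ (2 * d ^ 2 + d) (d + d) hB ?_
  · refine hc.trans (Nat.mul_le_mul_right _ ?_)
    omega
  · intro a ha
    rw [Finset.mem_union, not_or] at ha
    have hu : (S7top d H).eval a ≠ 0 := by
      intro h0
      apply ha.1
      rw [Multiset.mem_toFinset, mem_roots htne]
      exact h0
    obtain ⟨δ, hδ0, hδd, hδ⟩ := S7good_slope h a (hom H) d _ hd hTD hu (hcoef a) (hgood a ha.2)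
    refine ⟨δ.roots.toFinset, (Multiset.toFinset_card_le _).trans ((card_roots' _).trans hδd), ?_⟩
    intro b hb
    rw [Multiset.mem_toFinset, mem_roots hδ0]
    by_contra hcon
    exact hb (hδ b hcon)

end Pool.Agent.H330FB.JS7
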