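import Pool.Agent.H330FB.Lib5
import Pool.Agent.H330FB.Spec1
set_option autoImplicit false
set_option linter.unusedSimpArgs false
noncomputable section
namespace Pool.Agent.H330FB.JA6
open Polynomial

namespace DivR


section alg
variable {R : Type} [CommRing R]

theorem pol_nil : pol ([] : List R) = 0 := rfl
theorem pol_cons (x : R) (l : List R) : pol (x :: l) = C x + X * pol l := rfl

theorem coeff_pol (l : List R) (i : ℕ) : (pol l).coeff i = l.getD i 0 := by
  induction l generalizing i with
  | nil => simp [pol_nil]
  | cons x l ih =>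
    cases i with
    | zero => simp [pol_cons]
    | succ i => simp [pol_cons, ih, coeff_C_succ]

theorem natDegree_pol_le (l : List R) (n : ℕ) (h : l.length ≤ n + 1) :
    (pol l).natDegree ≤ n := by
  rw [natDegree_le_iff_coeff_eq_zero]
  intro N hN
  rw [coeff_pol, List.getD_eq_default]
  omega

theorem pol_append (l m : List R) : pol (l ++ m) = pol l + X ^ l.length * pol m := by
  induction l with
  | nil => simp [pol_nil]
  | cons x l ih => simp only [List.cons_append, pol_cons, ih, List.length_cons]; ring

theorem pol_zp (l m : List R) : pol (zp (fun a b => a + b) l m) = pol l + pol m := by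
  induction l generalizing m with
  | nil => simp [pol_nil, zp]
  | cons x l ih =>
    cases m with
    | nil => simp [pol_nil, zp]
    | cons y m => simp only [zp, pol_cons, ih, map_add]; ring

theorem pol_neg (l : List R) : pol (l.map (fun x => -x)) = - pol l := by
  induction l with
  | nil => simp [pol_nil]
  | cons x l ih => simp only [List.map_cons, pol_cons, ih, map_neg]; ring

theorem pol_reverse (l : List R) : pol l.reverse = (pol l).reflect (l.length - 1) := by
  induction l with
  | nil => simp [pol_nil]
  | cons x l ih =>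
    rw [List.reverse_cons, pol_append, ih, pol_cons x [], pol_cons x l, reflect_add, pol_nil]
    simp only [List.length_reverse, List.length_cons, Nat.add_sub_cancel, reflect_C]
    rcases l with _ | ⟨y, l⟩
    · simp [pol_nil]
    · have h1 : (y :: l).length = 1 + ((y :: l).length - 1) := by simp; omega
      have h2 := reflect_mul (X : R[X]) (pol (y :: l)) (F := 1) (G := (y :: l).length - 1)
        natDegree_X_le (natDegree_pol_le _ _ (by simp))
      rw [← h1] at h2
      rw [h2, reflect_one_X]
      ring

end alg

section rows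
variable {F R : Type} [Field F] [CommRing R] [Algebra F R] (τ : R)

theorem rp_nil : rp τ ([] : List (List F)) = 0 := rfl
theorem rp_cons (r : List F) (l : List (List F)) :
    rp τ (r :: l) = C (aeval τ (pol r)) + X * rp τ l := rfl

theorem rp_append (l m : List (List F)) :
    rp τ (l ++ m) = rp τ l + X ^ l.length * rp τ m := by
  simp [rp, pol_append]

theorem rp_zp (l m : List (List F)) :
    rp τ (zp (fun a b => zp (fun x y => x + y) a b) l m) = rp τ l + rp τ m := by
  induction l generalizing m with
  | nil => simp [rp_nil, zp]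
  | cons x l ih =>
    cases m with
    | nil => simp [rp_nil, zp]
    | cons y m => simp only [zp, rp_cons, ih, pol_zp, map_add]; ring

theorem rp_neg (l : List (List F)) :
    rp τ (l.map (fun r => r.map (fun x => -x))) = - rp τ l := by
  induction l with
  | nil => simp [rp_nil]
  | cons x l ih => simp only [List.map_cons, rp_cons, ih, pol_neg, map_neg]; ring

theorem rp_reverse (l : List (List F)) :
    rp τ l.reverse = (rp τ l).reflect (l.length - 1) := by
  simp only [rp, List.map_reverse, pol_reverse, List.length_map]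

theorem natDegree_rp_le (l : List (List F)) (n : ℕ) (h : l.length ≤ n + 1) :
    (rp τ l).natDegree ≤ n := natDegree_pol_le _ _ (by simpa using h)

theorem coeff_rp_fit (z : List F) (hz : pol z = 0) (l : List (List F)) (k i : ℕ) :
    (rp τ (fit k z l)).coeff i = if i < k then (rp τ l).coeff i else 0 := by
  induction k generalizing l i with
  | zero => simp [fit, rp_nil]
  | succ k ih =>
    cases l with
    | nil =>
      have := ih []
      cases i with
      | zero => simp [fit, rp_nil, rp_cons, hz]
      | succ i => simp [fit, rp_nil, rp_cons, hz, this] 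
    | cons x l =>
      cases i with
      | zero => simp [fit, rp_cons]
      | succ i => simp [fit, rp_cons, ih, coeff_C_succ]

theorem rp_fit_eq (z : List F) (hz : pol z = 0) (l : List (List F)) (k : ℕ)
    (h : l.length ≤ k) : rp τ (fit k z l) = rp τ l := by
  ext i
  rw [coeff_rp_fit τ z hz]
  split
  · rfl
  · rw [rp, coeff_pol, List.getD_eq_default]
    simp; omega

theorem dvd_fit (z : List F) (hz : pol z = 0) (l : List (List F)) (k : ℕ) :
    (X ^ k : R[X]) ∣ rp τ l - rp τ (fit k z l) := by
  rw [X_pow_dvd_iff]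
  intro d hd
  rw [coeff_sub, coeff_rp_fit τ z hz, if_pos hd, sub_self]

end rows

section shapes
variable {F : Type}

theorem Sh_fit (s k : ℕ) (z : List F) (l : List (List F)) (hz : z.length = s) (hl : Sh s l) :
    Sh s (fit k z l) := by
  induction k generalizing l with
  | zero => intro r hr; simp [fit] at hr
  | succ k ih =>
    cases l with
    | nil =>
      intro r hr
      simp only [fit, List.mem_cons] at hr
      rcases hr with rfl | hr
      · exact hz
      · exact ih [] hl r hr
    | cons x l =>
      intro r hr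
      simp only [fit, List.mem_cons] at hr
      rcases hr with rfl | hr
      · exact hl _ (by simp)
      · exact ih l (fun r hr => hl r (by simp [hr])) r hr

theorem length_zp {α : Type} (f : α → α → α) (l m : List α) :
    (zp f l m).length = max l.length m.length := by
  induction l generalizing m with
  | nil => simp [zp]
  | cons x l ih =>
    cases m with
    | nil => simp [zp]
    | cons y m => simp [zp, ih]

theorem Sh_zp (s : ℕ) (f : F → F → F) (l m : List (List F)) (hl : Sh s l) (hm : Sh s m) :
    Sh s (zp (fun a b => zp f a b) l m) := by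
  induction l generalizing m with
  | nil => simpa [zp] using hm
  | cons x l ih =>
    cases m with
    | nil => simpa [zp] using hl
    | cons y m =>
      intro r hr
      simp only [zp, List.mem_cons] at hr
      rcases hr with rfl | hr
      · rw [length_zp, hl x (by simp), hm y (by simp)]; simp
      · exact ih m (fun r hr => hl r (by simp [hr])) (fun r hr => hm r (by simp [hr])) r hr

theorem Sh_neg [Neg F] (s : ℕ) (l : List (List F)) (hl : Sh s l) :
    Sh s (l.map (fun r => r.map (fun x => -x))) := by
  intro r hr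
  simp only [List.mem_map] at hr
  obtain ⟨r', hr', rfl⟩ := hr
  simpa using hl r' hr'

theorem Sh_reverse (s : ℕ) (l : List (List F)) (hl : Sh s l) : Sh s l.reverse :=
  fun r hr => hl r (by simpa using hr)

theorem Sh_append (s : ℕ) (l m : List (List F)) (hl : Sh s l) (hm : Sh s m) : Sh s (l ++ m) := by
  intro r hr
  rcases List.mem_append.mp hr with h | h
  · exact hl r h
  · exact hm r h

theorem Sh_drop (s k : ℕ) (l : List (List F)) (hl : Sh s l) : Sh s (l.drop k) :=
  fun r hr => hl r (List.mem_of_mem_drop hr)

theorem Sh_single (s : ℕ) (r : List F) (hr : r.length = s) : Sh s [r] := by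
  intro r' h
  simp only [List.mem_singleton] at h
  rw [h, hr]

end shapes

/-! ### the algorithm on lists -/

section algo
variable {F : Type} [Field F]

/-- zero row -/
def zrow (F : Type) [Field F] (s : ℕ) : List F := fit s 0 []
/-- the row of a constant -/
def crow {F : Type} [Field F] (s : ℕ) (c : F) : List F := fit s 0 [c]

theorem length_zrow (s : ℕ) : (zrow F s).length = s := by simp [zrow]
theorem length_crow (s : ℕ) (c : F) : (crow s c).length = s := by simp [crow]

theorem pol_zrow (s : ℕ) : pol (zrow F s) = 0 := by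
  induction s with
  | zero => rfl
  | succ s ih =>
    simp only [zrow] at ih ⊢
    simp [fit, pol_cons, ih]

theorem pol_crow (s : ℕ) (hs : 1 ≤ s) (c : F) : pol (crow s c) = C c := by
  obtain ⟨s, rfl⟩ := Nat.exists_eq_succ_of_ne_zero (by omega : s ≠ 0)
  have := pol_zrow (F := F) s
  simp only [zrow] at this
  simp [crow, fit, pol_cons, this]

/-- negation -/
def ngM (l : List (List F)) : List (List F) := l.map (fun r => r.map (fun x => -x))
/-- sum -/
def adM (l m : List (List F)) : List (List F) := zp (fun a b => zp (fun x y => x + y) a b) l m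

/-- one Newton step; `M` is the multiplication -/
def nst (M : List (List F) → List (List F) → List (List F)) (s k : ℕ) (rg g : List (List F)) :
    List (List F) :=
  fit k (zrow F s) (M g (adM [crow s (1 + 1)] (ngM (fit k (zrow F s) (M rg g)))))

/-- the Newton iteration -/
def nit (M : List (List F) → List (List F) → List (List F)) (s k : ℕ) (rg : List (List F)) :
    ℕ → List (List F)
  | 0 => fit k (zrow F s) [crow s 1]
  | n + 1 => nst M s k rg (nit M s k rg n)

/-- properties of the multiplication -/
def GoodM (s : ℕ) (M : List (List F) → List (List F) → List (List F)) : Prop :=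
  ∀ a b, Sh s a → Sh s b → Sh s (M a b) ∧ (M a b).length = a.length + b.length ∧
    ∀ (R : Type) [CommRing R] [Algebra F R] (τ : R), τ ^ s = 0 →
      rp τ (M a b) = rp τ a * rp τ b

theorem length_nit (M : List (List F) → List (List F) → List (List F)) (s k : ℕ)
    (rg : List (List F)) (n : ℕ) : (nit M s k rg n).length = k := by
  cases n with
  | zero => simp [nit]
  | succ n => simp [nit, nst]

theorem Sh_adng {M : List (List F) → List (List F) → List (List F)} {s : ℕ} (hM : GoodM s M)
    (k : ℕ) (rg g : List (List F)) (h1 : Sh s rg) (h2 : Sh s g) :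
    Sh s (adM [crow s (1 + 1)] (ngM (fit k (zrow F s) (M rg g)))) := by
  refine Sh_zp _ _ _ _ (Sh_single _ _ (length_crow _ _)) (Sh_neg _ _ ?_)
  exact Sh_fit _ _ _ _ (length_zrow _) (hM _ _ h1 h2).1

theorem Sh_nst {M : List (List F) → List (List F) → List (List F)} {s : ℕ} (hM : GoodM s M)
    (k : ℕ) (rg g : List (List F)) (h1 : Sh s rg) (h2 : Sh s g) :
    Sh s (nst M s k rg g) := by
  refine Sh_fit _ _ _ _ (length_zrow _) (hM _ _ h2 ?_).1
  exact Sh_adng hM k rg g h1 h2

theorem Sh_nit {M : List (List F) → List (List F) → List (List F)} {s : ℕ} (hM : GoodM s M)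
    (k : ℕ) (rg : List (List F)) (h1 : Sh s rg) (n : ℕ) :
    Sh s (nit M s k rg n) := by
  induction n with
  | zero => exact Sh_fit _ _ _ _ (length_zrow _) (Sh_single _ _ (length_crow _ _))
  | succ n ih => exact Sh_nst hM k rg _ h1 ih

theorem nst_spec {M : List (List F) → List (List F) → List (List F)} {s : ℕ} (hM : GoodM s M)
    (hs : 1 ≤ s) (k : ℕ) (rg g : List (List F)) (h1 : Sh s rg) (h2 : Sh s g)
    (R : Type) [CommRing R] [Algebra F R] (τ : R) (hτ : τ ^ s = 0) :
    (X ^ k : R[X]) ∣ (1 - rp τ rg * rp τ (nst M s k rg g)) - (1 - rp τ rg * rp τ g) ^ 2 := by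
  have e1 := dvd_fit τ (zrow F s) (pol_zrow s) (M rg g) k
  rw [(hM rg g h1 h2).2.2 R τ hτ] at e1
  set e := fit k (zrow F s) (M rg g) with he
  have hS : Sh s (adM [crow s (1 + 1)] (ngM e)) := Sh_adng hM k rg g h1 h2
  have e2 := dvd_fit τ (zrow F s) (pol_zrow s) (M g (adM [crow s (1 + 1)] (ngM e))) k
  rw [(hM _ _ h2 hS).2.2 R τ hτ] at e2
  have e3 : rp τ (adM [crow s (1 + 1)] (ngM e)) = 2 - rp τ e := by
    rw [adM, rp_zp, ngM, rp_neg, rp_cons, rp_nil, pol_crow s hs]
    simp only [map_add, map_one, mul_zero, add_zero, aeval_C]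
    ring
  rw [e3] at e2
  obtain ⟨a, ha⟩ := e1
  obtain ⟨b, hb⟩ := e2
  refine ⟨rp τ rg * b - rp τ rg * rp τ g * a, ?_⟩
  have hb' : rp τ (nst M s k rg g) = rp τ g * (2 - rp τ e) - X ^ k * b := by
    rw [← hb]; simp only [nst, ← he]; ring
  have ha' : rp τ e = rp τ rg * rp τ g - X ^ k * a := by rw [← ha]; ring
  rw [hb', ha']
  ring

theorem nit_spec {M : List (List F) → List (List F) → List (List F)} {s : ℕ} (hM : GoodM s M)
    (hs : 1 ≤ s) (k : ℕ) (hk : 1 ≤ k) (rg : List (List F)) (h1 : Sh s rg)
    (R : Type) [CommRing R] [Algebra F R] (τ : R) (hτ : τ ^ s = 0)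
    (h0 : (X : R[X]) ∣ 1 - rp τ rg) (n : ℕ) (hn : k ≤ 2 ^ n) :
    (X ^ k : R[X]) ∣ 1 - rp τ rg * rp τ (nit M s k rg n) := by
  have e0 : rp τ (nit M s k rg 0) = 1 := by
    rw [nit, rp_fit_eq τ (zrow F s) (pol_zrow s) _ _ (by simpa using hk), rp_cons, rp_nil,
      pol_crow s hs]
    simp
  have key : ∀ n, (X ^ k : R[X]) ∣
      (1 - rp τ rg * rp τ (nit M s k rg n)) - (1 - rp τ rg) ^ (2 ^ n) := by
    intro n
    induction n with
    | zero => rw [e0]; simp
    | succ n ih =>
      have e1 := nst_spec hM hs k rg (nit M s k rg n) h1 (Sh_nit hM k rg h1 n) R τ hτ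
      rw [nit]
      have e2 : (X ^ k : R[X]) ∣ (1 - rp τ rg * rp τ (nit M s k rg n)) ^ 2 -
          ((1 - rp τ rg) ^ (2 ^ n)) ^ 2 := by
        rw [sq_sub_sq]
        exact Dvd.dvd.mul_left ih _
      have e3 := dvd_add e1 e2
      rw [sub_add_sub_cancel] at e3
      rw [pow_succ 2 n, pow_mul]
      exact e3
  have e4 : (X ^ k : R[X]) ∣ (1 - rp τ rg) ^ (2 ^ n) :=
    (pow_dvd_pow X hn).trans (pow_dvd_pow_of_dvd h0 _)
  have := dvd_add (key n) e4
  simpa using this

/-- the quotient -/
def quo (M : List (List F) → List (List F) → List (List F)) (s k : ℕ) (P G : List (List F)) :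
    List (List F) :=
  (fit k (zrow F s) (M (fit k (zrow F s) P.reverse)
    (nit M s k (fit k (zrow F s) (crow s 1 :: G.reverse)) (Nat.clog 2 k)))).reverse

/-- the remainder -/
def rem (M : List (List F) → List (List F) → List (List F)) (s : ℕ) (P G q : List (List F)) :
    List (List F) :=
  fit G.length (zrow F s) (adM P (ngM (M q (G ++ [crow s 1]))))

theorem Sh_rg {s : ℕ} (k : ℕ) (G : List (List F)) (hG : Sh s G) :
    Sh s (fit k (zrow F s) (crow s 1 :: G.reverse)) := by
  refine Sh_fit _ _ _ _ (length_zrow _) ?_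
  have := Sh_append s [crow s 1] G.reverse (Sh_single _ _ (length_crow _ _)) (Sh_reverse _ _ hG)
  simpa using this

theorem Sh_quo {M : List (List F) → List (List F) → List (List F)} {s : ℕ} (hM : GoodM s M)
    (k : ℕ) (P G : List (List F)) (hP : Sh s P) (hG : Sh s G) : Sh s (quo M s k P G) := by
  refine Sh_reverse _ _ (Sh_fit _ _ _ _ (length_zrow _) (hM _ _ ?_ ?_).1)
  · exact Sh_fit _ _ _ _ (length_zrow _) (Sh_reverse _ _ hP)
  · exact Sh_nit hM k _ (Sh_rg k G hG) _

theorem length_quo (M : List (List F) → List (List F) → List (List F)) (s k : ℕ)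
    (P G : List (List F)) : (quo M s k P G).length = k := by
  simp [quo]

theorem Sh_G1 {s : ℕ} (G : List (List F)) (hG : Sh s G) : Sh s (G ++ [crow s 1]) :=
  Sh_append _ _ _ hG (Sh_single _ _ (length_crow _ _))

theorem Sh_rem {M : List (List F) → List (List F) → List (List F)} {s : ℕ} (hM : GoodM s M)
    (P G q : List (List F)) (hP : Sh s P) (hG : Sh s G) (hq : Sh s q) :
    Sh s (rem M s P G q) := by
  refine Sh_fit _ _ _ _ (length_zrow _) (Sh_zp _ _ _ _ hP (Sh_neg _ _ (hM _ _ hq ?_).1))
  exact Sh_G1 G hG

theorem length_rem (M : List (List F) → List (List F) → List (List F)) (s : ℕ)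
    (P G q : List (List F)) : (rem M s P G q).length = G.length := by
  simp [rem]

theorem div_spec {M : List (List F) → List (List F) → List (List F)} {s : ℕ} (hM : GoodM s M)
    (hs : 1 ≤ s) (k : ℕ) (hk : 1 ≤ k) (P G : List (List F)) (hPk : P.length = G.length + k)
    (hP : Sh s P) (hG : Sh s G)
    (R : Type) [CommRing R] [Algebra F R] (τ : R) (hτ : τ ^ s = 0) :
    rp τ P = rp τ (quo M s k P G) * mrp τ G + rp τ (rem M s P G (quo M s k P G)) := by
  obtain ⟨k', rfl⟩ := Nat.exists_eq_succ_of_ne_zero (by omega : k ≠ 0)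
  set k := k' + 1 with hkdef
  set z := zrow F s with hz
  have hz0 : pol z = 0 := pol_zrow s
  set rg := fit k z (crow s 1 :: G.reverse) with hrg
  have hrgS : Sh s rg := Sh_rg k G hG
  set g := nit M s k rg (Nat.clog 2 k) with hg
  have hgS : Sh s g := Sh_nit hM k rg hrgS _
  set Pr := fit k z P.reverse with hPr
  have hPrS : Sh s Pr := Sh_fit _ _ _ _ (length_zrow _) (Sh_reverse _ _ hP)
  set Q' := fit k z (M Pr g) with hQ'
  have hQS : Sh s Q'.reverse := Sh_quo hM k P G hP hG
  have hq : quo M s k P G = Q'.reverse := rfl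
  have hlenQ : Q'.length = k := by simp [hQ']
  -- the monic divisor
  have hG1 : rp τ (G ++ [crow s 1]) = mrp τ G := by
    rw [rp_append, rp_cons, rp_nil, pol_crow s hs, mrp]
    simp; ring
  have hrev : reflect G.length (mrp τ G) = rp τ (crow s 1 :: G.reverse) := by
    have := rp_reverse τ (G ++ [crow s 1])
    rw [hG1] at this
    simp at this
    exact this.symm
  have hdG : (mrp τ G).natDegree ≤ G.length := by
    rw [← hG1]; exact natDegree_rp_le _ _ _ (by simp)
  have hrgd := dvd_fit τ z hz0 (crow s 1 :: G.reverse) k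
  rw [← hrev, ← hrg] at hrgd
  have hX : (X : R[X]) ∣ 1 - rp τ rg := by
    rw [X_dvd_iff, coeff_sub, hrg, coeff_rp_fit τ z hz0, if_pos (by omega), rp_cons, pol_crow s hs]
    simp
  have hinv := nit_spec hM hs k hk rg hrgS R τ hτ hX (Nat.clog 2 k)
    (Nat.le_pow_clog (by norm_num) k)
  rw [← hg] at hinv
  have hPd := dvd_fit τ z hz0 P.reverse k
  rw [rp_reverse, ← hPr, hPk] at hPd
  have hQd := dvd_fit τ z hz0 (M Pr g) k
  rw [(hM _ _ hPrS hgS).2.2 R τ hτ, ← hQ'] at hQd
  have hqr : reflect k' (rp τ Q'.reverse) = rp τ Q' := by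
    rw [rp_reverse, hlenQ, hkdef, Nat.add_sub_cancel]
    ext j
    simp [coeff_reflect, revAt_invol]
  have hdq : (rp τ Q'.reverse).natDegree ≤ k' := natDegree_rp_le _ _ _ (by simp [hlenQ, hkdef])
  -- the difference
  set D := rp τ P - rp τ Q'.reverse * mrp τ G with hD
  have hrD : reflect (k' + G.length) D =
      reflect (G.length + k - 1) (rp τ P) - rp τ Q' * reflect G.length (mrp τ G) := by
    rw [hD, reflect_sub, reflect_mul _ _ hdq hdG, hqr]
    congr 2; omega
  have hdD : D.natDegree ≤ k' + G.length := by
    refine (natDegree_sub_le _ _).trans (max_le ?_ ?_)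
    · exact natDegree_rp_le _ _ _ (by omega)
    · exact natDegree_mul_le_of_le hdq hdG
  have hXD : (X ^ k : R[X]) ∣ reflect (k' + G.length) D := by
    rw [hrD]
    obtain ⟨a, ha⟩ := hrgd
    obtain ⟨b, hb⟩ := hinv
    obtain ⟨c, hc⟩ := hPd
    obtain ⟨d, hd⟩ := hQd
    have ha' : reflect G.length (mrp τ G) = rp τ rg + X ^ k * a := by rw [← ha]; ring
    have hc' : reflect (G.length + k - 1) (rp τ P) = rp τ Pr + X ^ k * c := by rw [← hc]; ring
    have hd' : rp τ Q' = rp τ Pr * rp τ g - X ^ k * d := by rw [← hd]; ring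
    rw [ha', hc', hd']
    refine ⟨c + rp τ Pr * b - rp τ Pr * rp τ g * a + d * (rp τ rg + X ^ k * a), ?_⟩
    linear_combination (rp τ Pr) * hb
  have hDc : ∀ j, G.length ≤ j → D.coeff j = 0 := by
    intro j hj
    by_cases hj2 : k' + G.length < j
    · exact coeff_eq_zero_of_natDegree_lt (by omega)
    · have h1 := X_pow_dvd_iff.mp hXD (k' + G.length - j) (by omega)
      rw [coeff_reflect, revAt_le (by omega)] at h1
      rw [show k' + G.length - (k' + G.length - j) = j by omega] at h1
      exact h1
  have hfin : rp τ (rem M s P G Q'.reverse) = D := by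
    ext j
    rw [rem, coeff_rp_fit τ z hz0]
    have e1 : rp τ (adM P (ngM (M Q'.reverse (G ++ [crow s 1])))) = D := by
      rw [adM, rp_zp, ngM, rp_neg, (hM _ _ hQS (Sh_G1 G hG)).2.2 R τ hτ, hG1, hD]
      ring
    rw [e1]
    split
    · rfl
    · exact (hDc j (by omega)).symm
  rw [hq, hfin, hD]
  ring

end algo



section prog
variable {F : Type} [Field F] [DecidableEq F]

/-- input type -/
abbrev IT : Ty := .prod TB (.prod Un (.prod Ma Ma))
/-- context type: table, precision, zero row, the matrix with one row `2`, list of length `k`, reversed divisor -/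
abbrev CT : Ty := .prod TB (.prod Un (.prod Po (.prod Ma (.prod Ma Ma))))

/-- zero row -/
def zrP : Pr [] Un Po := .comp (.pair .id (.pair .zero .nil)) fitP
/-- row of one -/
def orP : Pr [] Un Po := .comp (.pair .id (.pair .zero (.comp (.pair .one .nil) .cons))) fitP
/-- row of two -/
def twP : Pr [] Un Po :=
  .comp (.pair .id (.pair .zero (.comp (.pair (.comp (.pair .one .one) .add) .nil) .cons))) fitP

theorem length_un (s : ℕ) : (un s).length = s := by simp [un]

theorem val_zrP (v : SV F []) (x : Ty.D F Un) : (zrP.val v x : List F) = zrow F (List.length x) := by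
  simp [zrP, zrow]
theorem val_orP (v : SV F []) (x : Ty.D F Un) : (orP.val v x : List F) = crow (List.length x) 1 := by
  simp [orP, crow]
theorem val_twP (v : SV F []) (x : Ty.D F Un) :
    (twP.val v x : List F) = crow (List.length x) (1 + 1) := by
  simp [twP, crow]

theorem cost_zrP (v : SV F []) (k : SC F []) (x : Ty.D F Un) :
    zrP.cost v k x ≤ 20 * List.length x + 10 := by
  have h := cost_fitP (F := F) (s := []) (a := .fld) (b := .unit) v k (x, ((0 : F), ([] : List F)))
  simp only [zrP, cost_comp, cost_pair, cost_id, cost_zero, cost_nil, val_pair, val_id, val_zero,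
    val_nil] at h ⊢
  omega
theorem cost_orP (v : SV F []) (k : SC F []) (x : Ty.D F Un) :
    orP.cost v k x ≤ 20 * List.length x + 20 := by
  have h := cost_fitP (F := F) (s := []) (a := .fld) (b := .unit) v k (x, ((0 : F), ([1] : List F)))
  simp only [orP, cost_comp, cost_pair, cost_id, cost_zero, cost_nil, val_pair, val_id, val_zero,
    val_nil, cost_one, cost_cons, val_comp, val_one, val_cons] at h ⊢
  omega
theorem cost_twP (v : SV F []) (k : SC F []) (x : Ty.D F Un) :
    twP.cost v k x ≤ 20 * List.length x + 30 := by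
  have h := cost_fitP (F := F) (s := []) (a := .fld) (b := .unit) v k
    (x, ((0 : F), ([1 + 1] : List F)))
  simp only [twP, cost_comp, cost_pair, cost_id, cost_zero, cost_nil, val_pair, val_id, val_zero,
    val_nil, cost_one, cost_cons, cost_add, val_comp, val_one, val_cons, val_add] at h ⊢
  omega

/-- negation -/
def ngP : Pr [] Ma Ma := .comp (.pair .star .id) (mapP (c := .unit)
  (.comp .snd (.comp (.pair .star .id) (mapP (c := .unit) (.comp .snd .neg)))))

theorem val_ngP (v : SV F []) (x : Ty.D F Ma) : (ngP.val v x : List (List F)) = ngM x := by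
  simp [ngP, ngM]

theorem cost_ngP (s : ℕ) (v : SV F []) (k : SC F []) (x : Ty.D F Ma) (hA : Sh s x) :
    ngP.cost v k x ≤ (15 * s + 22) * List.length x + 8 := by
  have h := cost_mapP_le (F := F) (s := []) (c := .unit) (a := Po) (b := Po)
    (.comp .snd (.comp (.pair .star .id) (mapP (c := .unit) (.comp .snd .neg)))) v k
    ((), x) (15 * s + 9) (fun r hr => by
      have h2 := cost_mapP_le (F := F) (s := []) (c := .unit) (a := .fld) (b := .fld)
        (.comp .snd .neg) v k ((), r) 2 (fun _ _ => by simp)
      simp only [cost_comp, cost_snd, cost_pair, cost_star, cost_id, val_snd, val_pair, val_star,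
        val_id] at h2 ⊢
      rw [hA r hr] at h2
      omega)
  rw [show 15 * s + 9 + 13 = 15 * s + 22 by omega] at h
  simp only [ngP]
  rw [cost_comp]
  simp only [cost_pair, cost_star, cost_id, val_pair, val_star, val_id] at h ⊢
  omega

/-- sum -/
def adP : Pr [] (.prod Ma Ma) Ma := zpP (zpP .add)

theorem val_adP (v : SV F []) (x : Ty.D F (.prod Ma Ma)) :
    (adP.val v x : List (List F)) = adM x.1 x.2 := by
  simp [adP, adM]

theorem cost_adP (s : ℕ) (v : SV F []) (k : SC F []) (x : Ty.D F (.prod Ma Ma))
    (hA : Sh s x.1) :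
    adP.cost v k x ≤ (41 * s + 55) * List.length x.1 + 15 := by
  have h := cost_zpP_le (F := F) (s := []) (a := Po) (zpP .add) v k x (41 * s + 15)
    (fun y hy z hz => by
      have h2 := cost_zpP_le (F := F) (s := []) (a := .fld) .add v k (y, z) 1
        (fun _ _ _ _ => by simp)
      simp only at h2 ⊢
      rw [hA y hy] at h2
      omega)
  rw [show 41 * s + 15 + 40 = 41 * s + 55 by omega] at h
  exact h

/-- projections of the context -/
abbrev c1 : Pr [] CT TB := .fst
abbrev c2 : Pr [] CT Un := .comp .snd .fst
abbrev c3 : Pr [] CT Po := .comp .snd (.comp .snd .fst)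
abbrev c4 : Pr [] CT Ma := .comp .snd (.comp .snd (.comp .snd .fst))
abbrev c5 : Pr [] CT Ma := .comp .snd (.comp .snd (.comp .snd (.comp .snd .fst)))
abbrev c6 : Pr [] CT Ma := .comp .snd (.comp .snd (.comp .snd (.comp .snd .snd)))

/-- the first product, cut -/
def st1P (pm : Pr [] IT Ma) : Pr [] (.prod CT (.prod Ma .unit)) Ma :=
  ap3 fitP (.comp .fst c5) (.comp .fst c3)
    (.comp (.pair (.comp .fst c1) (.pair (.comp .fst c2) (.pair (.comp .fst c6)
      (.comp .snd .fst)))) pm)

/-- one Newton step -/
def nstP (pm : Pr [] IT Ma) : Pr [] (.prod CT (.prod Ma .unit)) Ma :=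
  lt (st1P pm)
    (ap3 fitP (.comp (.comp .fst .fst) c5) (.comp (.comp .fst .fst) c3)
    (.comp (.pair (.comp (.comp .fst .fst) c1) (.pair (.comp (.comp .fst .fst) c2)
      (.pair (.comp (.comp .fst .snd) .fst)
        (ap2 adP (.comp (.comp .fst .fst) c4) (.comp .snd ngP))))) pm))

/-- multiplication as a function -/
def mulF (pm : Pr [] IT Ma) (tb : List (List F) × List (List F)) (s : ℕ) (a b : List (List F)) :
    List (List F) := pm.val () (tb, (un s, (a, b)))

theorem val_st1P (pm : Pr [] IT Ma) (v : SV F []) (x : Ty.D F (.prod CT (.prod Ma .unit))) :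
    ((st1P pm).val v x : List (List F)) =
      fit (List.length x.1.2.2.2.2.1) x.1.2.2.1
        (pm.val v (x.1.1, (x.1.2.1, (x.1.2.2.2.2.2, x.2.1))) : List (List F)) := by
  simp [st1P]

theorem val_nstP' (pm : Pr [] IT Ma) (v : SV F []) (x : Ty.D F (.prod CT (.prod Ma .unit))) :
    ((nstP pm).val v x : List (List F)) =
      fit (List.length x.1.2.2.2.2.1) x.1.2.2.1
        (pm.val v (x.1.1, (x.1.2.1, (x.2.1, adM x.1.2.2.2.1 (ngM 
          (fit (List.length x.1.2.2.2.2.1) x.1.2.2.1
        (pm.val v (x.1.1, (x.1.2.1, (x.1.2.2.2.2.2, x.2.1))) : List (List F))))))) : List (List F)) := by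
  simp [nstP, val_st1P, val_ngP, val_adP]

/-- the value of one step -/
theorem val_nstP (pm : Pr [] IT Ma) (tb : List (List F) × List (List F)) (s : ℕ)
    (uk rg g : List (List F)) (u : Unit) :
    ((nstP pm).val (F := F) ()
      ((tb, (un s, (zrow F s, ([crow s (1 + 1)], (uk, rg))))), (g, u)) : List (List F)) =
      nst (mulF pm tb s) s uk.length rg g := by
  rw [val_nstP']
  rfl

/-- the iteration -/
def nitP (pm : Pr [] IT Ma) : Pr [] CT Ma :=
  .comp (.pair .id (.pair (ap3 fitP c5 c3 (.comp (.pair (.comp c2 orP) .nil) .cons))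
    (.comp c5 lgP))) (foldP (nstP pm))

omit [DecidableEq F] in
theorem foldl_nst (M : List (List F) → List (List F) → List (List F)) (s k : ℕ)
    (rg : List (List F)) (l : List Unit) :
    List.foldl (fun g _ => nst M s k rg g) (fit k (zrow F s) [crow s 1]) l
      = nit M s k rg l.length := by
  induction l using List.reverseRecOn with
  | nil => rfl
  | append_singleton l a ih => simp [ih, nit]

theorem val_nitP (pm : Pr [] IT Ma) (tb : List (List F) × List (List F)) (s : ℕ)
    (uk rg : List (List F)) :
    ((nitP pm).val (F := F) ()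
      (tb, (un s, (zrow F s, ([crow s (1 + 1)], (uk, rg))))) : List (List F)) =
      nit (mulF pm tb s) s uk.length rg (Nat.clog 2 uk.length) := by
  have h := val_lgP (F := F) (s := []) (a := Po) () uk
  simp only [nitP, val_comp, val_pair, val_id, val_foldP]
  have h2 := foldl_nst (F := F) (mulF pm tb s) s uk.length rg
    ((lgP : Pr [] Ma _).val () uk)
  rw [h] at h2
  rw [← h2]
  have h3 : ∀ (l : List Unit) (g g' : List (List F)), g = g' →
      List.foldl (fun (y : List (List F)) (z : Unit) => ((nstP pm).val (F := F) ()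
        ((tb, (un s, (zrow F s, ([crow s (1 + 1)], (uk, rg))))), (y, z)) : List (List F))) g l =
      List.foldl (fun g _ => nst (mulF pm tb s) s uk.length rg g) g' l := by
    intro l
    induction l with
    | nil => intro g g' hg; exact hg
    | cons u l ih =>
      intro g g' hg
      simp only [List.foldl_cons]
      apply ih
      rw [hg, val_nstP]
  refine h3 _ _ _ ?_
  simp [val_orP, length_un]


/-- projections of the input -/
abbrev i1 : Pr [] IT TB := .fst
abbrev i2 : Pr [] IT Un := .comp .snd .fst
abbrev i3 : Pr [] IT Ma := .comp .snd (.comp .snd .fst)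
abbrev i4 : Pr [] IT Ma := .comp .snd (.comp .snd .snd)

/-- the context of the Newton iteration, input `(x, (uk, z))` -/
def ctxP : Pr [] (.prod IT (.prod Ma Po)) CT :=
  .pair (.comp .fst i1) (.pair (.comp .fst i2) (.pair (.comp .snd .snd)
    (.pair (.comp (.pair (.comp .fst (.comp i2 twP)) .nil) .cons)
      (.pair (.comp .snd .fst)
        (ap3 fitP (.comp .snd .fst) (.comp .snd .snd)
          (.comp (.pair (.comp .fst (.comp i2 orP)) (.comp .fst (.comp i4 revP))) .cons))))))

/-- the quotient, input `(x, (uk, z))` -/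
def quoP (pm : Pr [] IT Ma) : Pr [] (.prod IT (.prod Ma Po)) Ma :=
  .comp (ap3 fitP (.comp .snd .fst) (.comp .snd .snd)
    (.comp (.pair (.comp .fst i1) (.pair (.comp .fst i2) (.pair
      (ap3 fitP (.comp .snd .fst) (.comp .snd .snd) (.comp .fst (.comp i3 revP)))
      (.comp ctxP (nitP pm))))) pm)) revP

/-- the remainder, input `(x, (z, q))` -/
def remP (pm : Pr [] IT Ma) : Pr [] (.prod IT (.prod Po Ma)) Ma :=
  ap3 fitP (.comp .fst i4) (.comp .snd .fst)
    (ap2 adP (.comp .fst i3)
      (.comp (.comp (.pair (.comp .fst i1) (.pair (.comp .fst i2) (.pair (.comp .snd .snd)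
        (ap2 appP (.comp .fst i4) (.comp (.pair (.comp .fst (.comp i2 orP)) .nil) .cons))))) pm)
        ngP))

/-- the case of a nonempty quotient, input `(x, (uk, z))` -/
def mnP (pm : Pr [] IT Ma) : Pr [] (.prod IT (.prod Ma Po)) (.prod Ma Ma) :=
  lt (quoP pm) (.pair .snd (.comp (.pair (.comp .fst .fst)
    (.pair (.comp .fst (.comp .snd .snd)) .snd)) (remP pm)))

/-- division -/
def divP (pm : Pr [] IT Ma) : Pr [] IT (.prod Ma Ma) :=
  lt (.comp (ap2 splitP i4 i3) .snd)
    (onL .snd
      (onL (.comp .fst i4) (.pair .nil .nil)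
        (.comp (.comp .fst .fst) (.pair .nil (ap3 fitP i4 (.comp i2 zrP) i3))))
      (.comp (.comp .fst (.pair .fst (.pair .snd (.comp .fst (.comp i2 zrP))))) (mnP pm)))

theorem val_ctxP (v : SV F []) (x : Ty.D F (.prod IT (.prod Ma Po))) :
    (ctxP.val v x : Ty.D F CT) = (x.1.1, (x.1.2.1, (x.2.2,
      (([crow (List.length x.1.2.1) (1 + 1)] : List (List F)), (x.2.1,
      (fit (List.length x.2.1) x.2.2 ((crow (List.length x.1.2.1) 1 : List F) :: List.reverse x.1.2.2.2)
        : List (List F))))))) := by
  simp [ctxP, val_twP, val_orP]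

theorem val_quoP (pm : Pr [] IT Ma) (tb : List (List F) × List (List F)) (s : ℕ)
    (P G uk : List (List F)) :
    ((quoP pm).val (F := F) () ((tb, (un s, (P, G))), (uk, zrow F s)) : List (List F)) =
      quo (mulF pm tb s) s uk.length P G := by
  have h1 := val_nitP pm tb s uk (fit uk.length (zrow F s) (crow s 1 :: G.reverse))
  simp only [quoP, val_comp, val_pair, val_fst, val_snd, val_ctxP, length_un, val_revP, val_fitP]
  rw [h1]
  rfl

theorem val_remP (pm : Pr [] IT Ma) (tb : List (List F) × List (List F)) (s : ℕ)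
    (P G q : List (List F)) :
    ((remP pm).val (F := F) () ((tb, (un s, (P, G))), (zrow F s, q)) : List (List F)) =
      rem (mulF pm tb s) s P G q := by
  simp only [remP, val_comp, val_pair, val_fst, val_snd, length_un, val_revP, val_fitP, val_adP,
    val_ngP, val_orP, val_appP, val_nil, val_cons]
  rfl

theorem val_mnP (pm : Pr [] IT Ma) (tb : List (List F) × List (List F)) (s : ℕ)
    (P G uk : List (List F)) :
    ((mnP pm).val (F := F) () ((tb, (un s, (P, G))), (uk, zrow F s)) :
      List (List F) × List (List F)) =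
      (quo (mulF pm tb s) s uk.length P G,
        rem (mulF pm tb s) s P G (quo (mulF pm tb s) s uk.length P G)) := by
  simp only [mnP, val_lt, val_comp, val_pair, val_fst, val_snd]
  rw [val_quoP, val_remP]

theorem val_divP (pm : Pr [] IT Ma) (tb : List (List F) × List (List F)) (s : ℕ)
    (P G : List (List F)) :
    ((divP pm).val (F := F) () (tb, (un s, (P, G))) : List (List F) × List (List F)) =
      if P.length ≤ G.length then ([], fit G.length (zrow F s) P) else
      (quo (mulF pm tb s) s (P.length - G.length) P G,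
        rem (mulF pm tb s) s P G (quo (mulF pm tb s) s (P.length - G.length) P G)) := by
  simp only [divP, val_lt, val_comp, val_pair, val_fst, val_snd, val_onL, val_splitP, val_nil,
    val_fitP, val_zrP, length_un]
  split
  · rename_i h
    rw [List.drop_eq_nil_of_le h]
    cases G with
    | nil => 
      have : P = [] := by simpa using h
      subst this
      rfl
    | cons a G => rfl
  · rename_i h
    have h1 : (List.drop G.length P).length = P.length - G.length := List.length_drop
    obtain ⟨a, l, hl⟩ : ∃ a l, List.drop G.length P = a :: l := by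
      cases hh : List.drop G.length P with
      | nil => rw [hh] at h1; simp at h1; omega
      | cons a l => exact ⟨a, l, rfl⟩
    have h2 := val_mnP pm tb s P G (List.drop G.length P)
    rw [h1] at h2
    rw [hl] at h2 ⊢
    rw [lcase_cons]
    exact h2

end prog



section cost
variable {F : Type} [Field F] [DecidableEq F]

/-- bound of the costs of the multiplications of total length at most `L` -/
def CostM (pm : Pr [] IT Ma) (tb : List (List F) × List (List F)) (s L W : ℕ) : Prop :=
  ∀ a b : List (List F), Sh s a → Sh s b → a.length + b.length ≤ L →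
    pm.cost (F := F) () () (tb, (un s, (a, b))) ≤ W

theorem cost_st1P (pm : Pr [] IT Ma) (tb : List (List F) × List (List F)) (s L W : ℕ)
    (hW : CostM (F := F) pm tb s L W) (z : List F) (tw uk rg g : List (List F)) (u : Unit)
    (h1 : Sh s rg) (h2 : Sh s g) (hL : rg.length + g.length ≤ L) :
    (st1P pm).cost (F := F) () () ((tb, (un s, (z, (tw, (uk, rg))))), (g, u)) ≤
      W + 20 * uk.length + 50 := by
  have e1 := hW rg g h1 h2 hL
  have e2 := cost_fitP (F := F) (s := []) (a := Po) (b := Po) () ()
    (uk, (z, (pm.val (F := F) () (tb, (un s, (rg, g))) : List (List F))))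
  simp only [st1P, cost_comp, cost_pair, cost_fst, cost_snd, val_comp, val_pair, val_fst,
    val_snd] at e1 e2 ⊢
  omega

theorem cost_nstP (pm : Pr [] IT Ma) (tb : List (List F) × List (List F)) (s L W : ℕ)
    (hM : GoodM (F := F) s (mulF pm tb s))
    (hW : CostM (F := F) pm tb s L W) (uk rg g : List (List F)) (u : Unit)
    (h1 : Sh s rg) (h2 : Sh s g) (hk : 1 ≤ uk.length) (hrg : rg.length = uk.length)
    (hg : g.length = uk.length) (hL : 2 * uk.length ≤ L) :
    (nstP pm).cost (F := F) () ()
      ((tb, (un s, (zrow F s, ([crow s (1 + 1)], (uk, rg))))), (g, u)) ≤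
      2 * W + (15 * s + 62) * uk.length + 41 * s + 250 := by
  have e1 := cost_st1P pm tb s L W hW (zrow F s) [crow s (1 + 1)] uk rg g u h1 h2 (by omega)
  have hv := val_st1P (F := F) pm () ((tb, (un s, (zrow F s, ([crow s (1 + 1)], (uk, rg))))), (g, u))
  set e : List (List F) := fit uk.length (zrow F s) (mulF pm tb s rg g) with he
  have hv' : ((st1P pm).val (F := F) ()
    ((tb, (un s, (zrow F s, ([crow s (1 + 1)], (uk, rg))))), (g, u)) : List (List F)) = e := hv
  have heS : Sh s e := Sh_fit _ _ _ _ (length_zrow _) (hM _ _ h1 h2).1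
  have hel : e.length = uk.length := by simp [he]
  have e2 := cost_ngP (F := F) s () () e heS
  rw [hel] at e2
  have e3 := cost_adP (F := F) s () () (([crow s (1 + 1)] : List (List F)), (ngM e : List (List F)))
    (Sh_single _ _ (length_crow _ _))
  have e4 := hW g (adM [crow s (1 + 1)] (ngM e)) h2 (Sh_adng hM _ _ _ h1 h2) (by
    rw [adM, length_zp, ngM, List.length_map, hel]
    simp; omega)
  have e5 := cost_fitP (F := F) (s := []) (a := Po) (b := Po) () ()
    (uk, (zrow F s, (pm.val (F := F) () (tb, (un s, (g, adM [crow s (1 + 1)] (ngM e)))) :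
      List (List F))))
  simp only [nstP, cost_lt, cost_comp, cost_pair, cost_fst, cost_snd, val_comp, val_pair, val_fst,
    val_snd, hv', val_ngP, val_adP] at e1 e2 e3 e4 e5 ⊢
  simp only [List.length_singleton, mul_one] at e3
  nlinarith


theorem cost_nitP (pm : Pr [] IT Ma) (tb : List (List F) × List (List F)) (s L W : ℕ)
    (hM : GoodM (F := F) s (mulF pm tb s))
    (hW : CostM (F := F) pm tb s L W) (uk rg : List (List F))
    (h1 : Sh s rg) (hk : 1 ≤ uk.length) (hrg : rg.length = uk.length)
    (hL : 2 * uk.length ≤ L) :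
    (nitP pm).cost (F := F) () ()
      (tb, (un s, (zrow F s, ([crow s (1 + 1)], (uk, rg))))) ≤
      (2 * W + (15 * s + 62) * uk.length + 41 * s + 280) * Nat.clog 2 uk.length +
        150 * uk.length + 20 * s + 200 := by
  have h := val_lgP (F := F) (s := []) (a := Po) () uk
  have hc := cost_lgP (F := F) (s := []) (a := Po) () () uk
  have ho := cost_orP (F := F) () () (un s)
  have hov := val_orP (F := F) () (un s)
  rw [length_un] at ho hov
  have hf := cost_fitP (F := F) (s := []) (a := Po) (b := Po) () ()
    (uk, (zrow F s, ([crow s 1] : List (List F))))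
  have hfold := cost_foldP_le (F := F) (s := []) (nstP pm) () ()
    ((tb, (un s, (zrow F s, (([crow s (1 + 1)] : List (List F)), (uk, rg))))),
      ((fit uk.length (zrow F s) [crow s 1] : List (List F)), (lgP : Pr [] Ma _).val () uk))
    (2 * W + (15 * s + 62) * uk.length + 41 * s + 250)
    (fun g => Sh s g ∧ List.length g = uk.length)
    ⟨Sh_fit _ _ _ _ (length_zrow _) (Sh_single _ _ (length_crow _ _)), by simp⟩
    (fun g u hg _ => by
      rw [val_nstP]
      exact ⟨Sh_nst hM _ _ _ h1 hg.1, by simp [nst]⟩)
    (fun g u hg _ => cost_nstP pm tb s L W hM hW uk rg g u h1 hg.1 hk hrg hg.2 hL)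
  simp only [h] at hfold
  simp only [nitP, cost_comp, cost_pair, cost_fst, cost_snd, cost_id, val_comp, val_pair, val_fst,
    val_snd, val_id, val_fitP, val_cons, val_nil, cost_cons, cost_nil, hov] at hc hf hfold ⊢
  nlinarith

theorem cost_ctxP (tb : List (List F) × List (List F)) (s : ℕ) (P G uk : List (List F)) :
    ctxP.cost (F := F) () () ((tb, (un s, (P, G))), (uk, zrow F s)) ≤
      40 * s + 33 * G.length + 20 * uk.length + 200 := by
  have ho := cost_orP (F := F) () () (un s)
  have hov := val_orP (F := F) () (un s)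
  have ht := cost_twP (F := F) () () (un s)
  rw [length_un] at ho hov ht
  have hr := cost_revP (F := F) (s := []) (a := Po) () () G
  have hf := cost_fitP (F := F) (s := []) (a := Po) (b := Po) () ()
    (uk, (zrow F s, ((crow s 1 : List F) :: List.reverse G : List (List F))))
  simp only [ctxP, cost_comp, cost_pair, cost_fst, cost_snd, val_comp, val_pair, val_fst,
    val_snd, val_cons, cost_cons, cost_nil, hov, val_revP] at ho ht hr hf ⊢
  omega

theorem cost_quoP (pm : Pr [] IT Ma) (tb : List (List F) × List (List F)) (s L W : ℕ)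
    (hM : GoodM (F := F) s (mulF pm tb s))
    (hW : CostM (F := F) pm tb s L W) (P G uk : List (List F)) (hP : Sh s P)
    (hG : Sh s G) (hk : 1 ≤ uk.length) (hL : 2 * uk.length ≤ L) :
    (quoP pm).cost (F := F) () () ((tb, (un s, (P, G))), (uk, zrow F s)) ≤
      (2 * W + (15 * s + 62) * uk.length + 41 * s + 280) * Nat.clog 2 uk.length + W +
        250 * uk.length + 60 * s + 33 * G.length + 33 * P.length + 600 := by
  have h1 := val_nitP pm tb s uk (fit uk.length (zrow F s) (crow s 1 :: G.reverse))
  have hrgS := Sh_rg (F := F) uk.length G hG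
  have h2 := cost_nitP pm tb s L W hM hW uk (fit uk.length (zrow F s) (crow s 1 :: G.reverse))
    hrgS hk (by simp) hL
  have hc := cost_ctxP tb s P G uk
  have hr := cost_revP (F := F) (s := []) (a := Po) () () P
  have hf := cost_fitP (F := F) (s := []) (a := Po) (b := Po) () ()
    (uk, (zrow F s, (List.reverse P : List (List F))))
  set g := nit (mulF pm tb s) s uk.length (fit uk.length (zrow F s) (crow s 1 :: G.reverse))
    (Nat.clog 2 uk.length) with hg
  have hgS : Sh s g := Sh_nit hM _ _ hrgS _
  have hPS : Sh s (fit uk.length (zrow F s) P.reverse) :=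
    Sh_fit _ _ _ _ (length_zrow _) (Sh_reverse _ _ hP)
  have hp := hW _ _ hPS hgS (by simp [hg, length_nit]; omega)
  have hf2 := cost_fitP (F := F) (s := []) (a := Po) (b := Po) () ()
    (uk, (zrow F s, (pm.val (F := F) () (tb, (un s, (fit uk.length (zrow F s) P.reverse, g))) :
      List (List F))))
  have hr2 := cost_revP (F := F) (s := []) (a := Po) () ()
    (fit uk.length (zrow F s) (pm.val (F := F) ()
      (tb, (un s, (fit uk.length (zrow F s) P.reverse, g))) : List (List F)))
  simp only [length_fit] at hr2
  simp only [quoP, cost_comp, cost_pair, cost_fst, cost_snd, val_comp, val_pair, val_fst,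
    val_snd, val_ctxP, length_un, val_revP, val_fitP] at h1 h2 hc hr hf hp hf2 hr2 ⊢
  rw [h1]
  omega

theorem cost_remP (pm : Pr [] IT Ma) (tb : List (List F) × List (List F)) (s L W : ℕ)
    (hM : GoodM (F := F) s (mulF pm tb s))
    (hW : CostM (F := F) pm tb s L W) (P G q : List (List F)) (hP : Sh s P)
    (hG : Sh s G) (hq : Sh s q) (hL : q.length + G.length + 1 ≤ L) :
    (remP pm).cost (F := F) () () ((tb, (un s, (P, G))), (zrow F s, q)) ≤
      W + (41 * s + 55) * P.length + 40 * G.length + 20 * s +
        (15 * s + 22) * (q.length + G.length + 1) + 300 := by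
  have ho := cost_orP (F := F) () () (un s)
  have hov := val_orP (F := F) () (un s)
  rw [length_un] at ho hov
  have ha := cost_appP (F := F) (s := []) (a := Po) () () (G, ([crow s 1] : List (List F)))
  have hp := hW q (G ++ [crow s 1]) hq (Sh_G1 G hG) (by simp; omega)
  have hR := hM q (G ++ [crow s 1]) hq (Sh_G1 G hG)
  have hn := cost_ngP (F := F) s () () (mulF pm tb s q (G ++ [crow s 1])) hR.1
  have hRl : (mulF pm tb s q (G ++ [crow s 1])).length = q.length + G.length + 1 := by
    rw [hR.2.1]; simp; omega
  rw [hRl] at hn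
  have hd := cost_adP (F := F) s () () ((P : List (List F)),
    (ngM (mulF pm tb s q (G ++ [crow s 1])) : List (List F))) hP
  have hf := cost_fitP (F := F) (s := []) (a := Po) (b := Po) () ()
    (G, (zrow F s, (adM P (ngM (mulF pm tb s q (G ++ [crow s 1]))) : List (List F))))
  simp only [mulF] at hn hd hf
  simp only [remP, cost_comp, cost_pair, cost_fst, cost_snd, val_comp, val_pair, val_fst, cost_nil,
    cost_cons, val_cons, val_nil,
    val_snd, length_un, val_revP, val_fitP, val_appP, val_ngP, val_adP, hov] at ho ha hp hn hd hf ⊢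
  omega

theorem cost_mnP (pm : Pr [] IT Ma) (tb : List (List F) × List (List F)) (s L W : ℕ)
    (hM : GoodM (F := F) s (mulF pm tb s))
    (hW : CostM (F := F) pm tb s L W) (P G uk : List (List F)) (hP : Sh s P)
    (hG : Sh s G) (hk : 1 ≤ uk.length) (hL : 2 * uk.length ≤ L)
    (hL2 : uk.length + G.length + 1 ≤ L) :
    (mnP pm).cost (F := F) () () ((tb, (un s, (P, G))), (uk, zrow F s)) ≤
      (2 * W + (15 * s + 62) * uk.length + 41 * s + 280) * Nat.clog 2 uk.length + 2 * W +
        250 * uk.length + 80 * s + 73 * G.length + (41 * s + 88) * P.length +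
        (15 * s + 22) * (uk.length + G.length + 1) + 950 := by
  have h1 := cost_quoP pm tb s L W hM hW P G uk hP hG hk hL
  have hv := val_quoP pm tb s P G uk
  have h2 := cost_remP pm tb s L W hM hW P G (quo (mulF pm tb s) s uk.length P G) hP hG
    (Sh_quo hM _ _ _ hP hG) (by rw [length_quo]; exact hL2)
  rw [length_quo] at h2
  simp only [mnP, cost_lt, cost_comp, cost_pair, cost_fst, cost_snd, val_comp, val_pair, val_fst,
    val_snd, hv] at h1 h2 ⊢
  nlinarith

theorem cost_divP (pm : Pr [] IT Ma) (tb : List (List F) × List (List F)) (s W : ℕ) (hs : 1 ≤ s)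
    (hM : GoodM (F := F) s (mulF pm tb s)) (P G : List (List F)) (hP : Sh s P)
    (hG : Sh s G) (hW : CostM (F := F) pm tb s (2 * P.length) W) :
    (divP pm).cost (F := F) () () (tb, (un s, (P, G))) ≤
      (2 * W + 2000 * (s * (P.length + G.length) + 1)) * (Nat.clog 2 P.length + 1) := by
  have hz := cost_zrP (F := F) () () (un s)
  have hzv := val_zrP (F := F) () (un s)
  rw [length_un] at hz hzv
  have hsp := cost_splitP (F := F) (s := []) (a := Po) (b := Po) () () (G, P)
  have hspv := val_splitP (F := F) (s := []) (a := Po) (b := Po) () (G, P)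
  simp only [divP, cost_lt, cost_comp, cost_pair, cost_fst, cost_snd, val_comp, val_pair, val_fst,
    val_snd, cost_onL, cost_nil, hspv, hzv] at hz hsp ⊢
  by_cases h : P.length ≤ G.length
  · rw [List.drop_eq_nil_of_le h]
    cases G with
    | nil =>
      simp only [lcase_nil] at hsp ⊢
      simp only [List.length_nil] at hsp h ⊢
      have : (2 * W + 2000 * (s * (P.length + 0) + 1)) * 1 ≤
        (2 * W + 2000 * (s * (P.length + 0) + 1)) * (Nat.clog 2 P.length + 1) :=
        Nat.mul_le_mul_left _ (by omega)
      omega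
    | cons a G =>
      simp only [lcase_nil, lcase_cons] at hsp ⊢
      set G' := a :: G with hG'
      have hG1 : 1 ≤ G'.length := by simp [hG']
      have hf := cost_fitP (F := F) (s := []) (a := Po) (b := Po) () ()
        (G', (zrow F s, P))
      simp only at hf hsp
      have h1 : (2 * W + 2000 * (s * (P.length + G'.length) + 1)) * 1 ≤
        (2 * W + 2000 * (s * (P.length + G'.length) + 1)) * (Nat.clog 2 P.length + 1) :=
        Nat.mul_le_mul_left _ (by omega)
      have h2 : s ≤ s * (P.length + G'.length) := Nat.le_mul_of_pos_right _ (by omega)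
      have h3 : G'.length ≤ s * (P.length + G'.length) := by nlinarith
      omega
  · have h1 : (List.drop G.length P).length = P.length - G.length := List.length_drop
    obtain ⟨a, l, hl⟩ : ∃ a l, List.drop G.length P = a :: l := by
      cases hh : List.drop G.length P with
      | nil => rw [hh] at h1; simp at h1; omega
      | cons a l => exact ⟨a, l, rfl⟩
    have h2 := cost_mnP pm tb s (2 * P.length) W hM hW P G (List.drop G.length P) hP hG
      (by omega) (by omega) (by omega)
    rw [h1] at h2
    rw [hl] at h2 ⊢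
    rw [lcase_cons]
    set n := P.length with hn
    set m := G.length with hm
    set D := s * (n + m) with hD
    set k := n - m with hk
    have g1 : s ≤ D := Nat.le_mul_of_pos_right _ (by omega)
    have g2 : n + m ≤ D := Nat.le_mul_of_pos_left _ (by omega)
    have g3 : s * k ≤ D := Nat.mul_le_mul_left _ (by omega)
    have g4 : s * n ≤ D := Nat.mul_le_mul_left _ (by omega)
    have g5 : s * (k + m + 1) ≤ 2 * D := by
      rw [hD]
      calc s * (k + m + 1) ≤ s * (2 * (n + m)) := Nat.mul_le_mul_left _ (by omega)
        _ = 2 * (s * (n + m)) := by ring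
    have g6 : Nat.clog 2 k ≤ Nat.clog 2 n := Nat.clog_mono_right 2 (by omega)
    have g7 : (2 * W + (15 * s + 62) * k + 41 * s + 280) * Nat.clog 2 k ≤
        (2 * W + 400 * (D + 1)) * Nat.clog 2 n := by
      apply Nat.mul_le_mul _ g6
      have : (15 * s + 62) * k = 15 * (s * k) + 62 * k := by ring
      rw [this]
      omega
    have g8 : (41 * s + 88) * n = 41 * (s * n) + 88 * n := by ring
    have g9 : (15 * s + 22) * (k + m + 1) = 15 * (s * (k + m + 1)) + 22 * (k + m + 1) := by ring
    rw [g8, g9] at h2
    have g10 : (2 * W + 400 * (D + 1)) * Nat.clog 2 n ≤ (2 * W + 2000 * (D + 1)) * Nat.clog 2 n :=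
      Nat.mul_le_mul_right _ (by omega)
    have g11 : (2 * W + 2000 * (D + 1)) * (Nat.clog 2 n + 1) =
      (2 * W + 2000 * (D + 1)) * Nat.clog 2 n + (2 * W + 2000 * (D + 1)) := by ring
    rw [g11]
    omega

end cost

end DivR

open DivR in
/-- division with remainder by a monic polynomial (Newton inversion) -/
theorem specDivR (h : SpecMulR) (h0 : SpecUnits) : SpecDivR := by
  obtain ⟨pm, C, hp⟩ := h
  obtain ⟨C2, hC2⟩ := h0.2.2.2.2.2.2.2.1 2
  have hmono := h0.1
  have hle := h0.2.2.2.2.2.1
  refine ⟨divP pm, 2 * C * C2 + 2000, ?_⟩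
  intro F _ _ tb s P G htb hs hP hG
  have hM : GoodM (F := F) s (mulF pm tb s) := by
    intro a b ha hb
    have := hp F tb s a b htb hs ha hb
    exact ⟨this.1, this.2.1, this.2.2.1⟩
  have hv := val_divP (F := F) pm tb s P G
  set W := C * (C2 * mu (s * (P.length + G.length) + 1)) with hWdef
  have hW : CostM (F := F) pm tb s (2 * P.length) W := by
    intro a b ha hb hab
    have h1 := (hp F tb s a b htb hs ha hb).2.2.2
    refine h1.trans (Nat.mul_le_mul_left _ ?_)
    refine le_trans (hmono _ (2 * (s * (P.length + G.length) + 1)) ?_) (hC2 _)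
    have : s * (a.length + b.length) ≤ s * (2 * (P.length + G.length)) :=
      Nat.mul_le_mul_left _ (by omega)
    have e : s * (2 * (P.length + G.length)) = 2 * (s * (P.length + G.length)) := by ring
    omega
  have hcost := cost_divP (F := F) pm tb s W hs hM P G hP hG hW
  intro r
  have hr : r = if P.length ≤ G.length then ([], fit G.length (zrow F s) P) else
      (quo (mulF pm tb s) s (P.length - G.length) P G,
        rem (mulF pm tb s) s P G (quo (mulF pm tb s) s (P.length - G.length) P G)) := hv
  have hfin : (divP pm).cost (F := F) () () (tb, (un s, (P, G))) ≤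
      (2 * C * C2 + 2000) * lgc (P.length + 1) * mu (s * (P.length + G.length) + 1) := by
    refine hcost.trans ?_
    set T := mu (s * (P.length + G.length) + 1) with hT
    have h1 : s * (P.length + G.length) + 1 ≤ T := hle _
    have h2 : Nat.clog 2 P.length + 1 ≤ lgc (P.length + 1) := by
      have := Nat.clog_mono_right 2 (show P.length ≤ P.length + 1 by omega)
      simp only [lgc]
      omega
    have h3 : 2 * W + 2000 * (s * (P.length + G.length) + 1) ≤ (2 * C * C2 + 2000) * T := by
      rw [hWdef]
      nlinarith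
    calc _ ≤ (2 * C * C2 + 2000) * T * lgc (P.length + 1) := Nat.mul_le_mul h3 h2
      _ = _ := by ring
  by_cases hn : P.length ≤ G.length
  · rw [if_pos hn] at hr
    rw [hr]
    refine ⟨?_, ?_, ?_, ?_, ?_, hfin⟩
    · intro r hr; simp at hr
    · simp; omega
    · exact Sh_fit _ _ _ _ (length_zrow _) hP
    · simp
    · intro R _ _ τ hτ
      rw [rp_fit_eq τ (zrow F s) (pol_zrow s) _ _ hn, rp_nil]
      ring
  · rw [if_neg hn] at hr
    rw [hr]
    refine ⟨Sh_quo hM _ _ _ hP hG, length_quo _ _ _ _ _, ?_, length_rem _ _ _ _ _, ?_, hfin⟩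
    · exact Sh_rem hM _ _ _ hP hG (Sh_quo hM _ _ _ hP hG)
    · intro R _ _ τ hτ
      exact div_spec hM hs _ (by omega) P G (by omega) hP hG R τ hτ

end Pool.Agent.H330FB.JA6
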