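import Pool.Agent.H330FB.Lang

set_option autoImplicit false

/-!
# Definitions used in the statement of the main theorem
-/

namespace Pool.Agent.H330FB

open MvPolynomial

/-- binary digits of a natural number as field elements, least significant digit first -/
def binary (F : Type) [Field F] (n : ℕ) : List F :=
  (Nat.bits n).map (fun b => if b then (1 : F) else 0)

/-- the list of all coefficients of a polynomial `f` in two variables `x = X 0`, `y = X 1` of total
degree at most `d`: row `k` (`k = 0, ..., d`) holds the coefficients of
`x^k, x^(k-1) y, ..., y^k` -/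
noncomputable def coeffRows {F : Type} [Field F] (d : ℕ) (f : MvPolynomial (Fin 2) F) :
    List (List F) :=
  (List.range (d + 1)).map (fun k => (List.range (k + 1)).map (fun j =>
    f.coeff (Finsupp.single 0 (k - j) + Finsupp.single 1 j)))

/-- the polynomial given by such a list of rows -/
noncomputable def ofRows {F : Type} [Field F] (l : List (List F)) : MvPolynomial (Fin 2) F :=
  ∑ k ∈ Finset.range l.length, ∑ j ∈ Finset.range (k + 1),
    C ((l.getD k []).getD j 0) * X 0 ^ (k - j) * X 1 ^ j

/-- `out` is the complete factorization of `f`: a list of pairs (irreducible factor given by its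
rows, multiplicity in unary); `f` is a nonzero constant times the product of the powers of the
factors, the factors are irreducible and pairwise not associated, the multiplicities positive -/
def IsFactorization {F : Type} [Field F] (f : MvPolynomial (Fin 2) F)
    (out : List (List (List F) × List Unit)) : Prop :=
  (∃ u : F, u ≠ 0 ∧ f = C u * (out.map (fun o => ofRows o.1 ^ o.2.length)).prod) ∧
  (∀ o ∈ out, Irreducible (ofRows o.1) ∧ 1 ≤ o.2.length) ∧
  out.Pairwise (fun o o' => ¬ Associated (ofRows o.1) (ofRows o'.1))

/-- half of the degree of the auxiliary extension field is a power of 2 of order `log d` -/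
def extDeg (d : ℕ) : ℕ := 2 ^ (Nat.clog 2 (4 * Nat.clog 2 (40 * (d + 1))) + 1)

/-- number of random field elements -/
def numRandom (d : ℕ) : ℕ :=
  8 * extDeg d * extDeg d +
    extDeg d * (9 + (3 * (Nat.clog 2 d + 1) + 10) * d + (2 * d + 2) + (2 * d + 2) * d)

/-- the main statement -/
def FinalStmt : Prop :=
  ∃ main : Pr [] (.prod (.list .fld) (.prod (.list (.list .fld)) (.list .fld)))
      (.list (.prod (.list (.list .fld)) (.list .unit))),
  ∀ c : ℕ, ∃ C : ℝ, ∀ (F : Type) [Field F] [Fintype F] [DecidableEq F] (d : ℕ)
    (f : MvPolynomial (Fin 2) F), 1 ≤ d → f.totalDegree = d → Fintype.card F ≤ c * d ^ c →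
    2 * Fintype.card F ^ numRandom d ≤
      3 * Nat.card {ω : Fin (numRandom d) → F //
        IsFactorization f
          (main.val () (binary F (Fintype.card F), (coeffRows d f, List.ofFn ω))) ∧
        (main.cost () () (binary F (Fintype.card F), (coeffRows d f, List.ofFn ω)) : ℝ) ≤
          C * (d : ℝ) ^ (3 - 1 / 10 : ℝ)}

end Pool.Agent.H330FB
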