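import Pool.Agent.H330FB.Spec4
import Pool.Agent.H330FB.FinalDefs
set_option autoImplicit false
noncomputable section
namespace Pool.Agent.H330FB.JE9
open Polynomial

section FinalConv

variable {F : Type} [Field F]

/-- auxiliary: outer variable to `X 0`, inner variable to `X 1` -/
noncomputable def finPhi : F[X][X] →+* MvPolynomial (Fin 2) F :=
  Polynomial.eval₂RingHom (Polynomial.eval₂RingHom MvPolynomial.C (MvPolynomial.X 1))
    (MvPolynomial.X 0)

/-- auxiliary: the inverse -/
noncomputable def finPsi : MvPolynomial (Fin 2) F →+* F[X][X] :=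
  MvPolynomial.eval₂Hom (Polynomial.C.comp Polynomial.C)
    ![Polynomial.X, Polynomial.C Polynomial.X]

/-- auxiliary: the isomorphism -/
noncomputable def finE : F[X][X] ≃+* MvPolynomial (Fin 2) F :=
  RingEquiv.ofRingHom finPhi finPsi
    (by
      apply MvPolynomial.ringHom_ext
      · intro r; simp [finPhi, finPsi]
      · intro i; fin_cases i <;> simp [finPhi, finPsi])
    (by
      apply Polynomial.ringHom_ext'
      · apply Polynomial.ringHom_ext
        · intro a; simp [finPhi, finPsi]
        · simp [finPhi, finPsi]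
      · simp [finPhi, finPsi])

theorem finE_apply (p : F[X][X]) : finE p = finPhi p := rfl

theorem finE_CC (a : F) : finE (C (C a)) = MvPolynomial.C a := by
  simp [finE_apply, finPhi]

theorem finE_hom (l : List (List F)) : finE (hom l) = ofRows l := by
  simp only [finE_apply, hom, ofRows, map_sum, map_mul, map_pow]
  refine Finset.sum_congr rfl fun k _ => Finset.sum_congr rfl fun j _ => ?_
  simp [finPhi]
  ring

/-- auxiliary: exponent vector -/
noncomputable def fexp (a b : ℕ) : Fin 2 →₀ ℕ := Finsupp.single 0 a + Finsupp.single 1 b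

theorem fexp_zero (a b : ℕ) : fexp a b 0 = a := by simp [fexp]

theorem fexp_one (a b : ℕ) : fexp a b 1 = b := by simp [fexp]

theorem fexp_eq (m : Fin 2 →₀ ℕ) : m = fexp (m 0) (m 1) := by
  ext i
  fin_cases i
  · simp [fexp]
  · simp [fexp]

theorem coeff_ofRows (l : List (List F)) (a b : ℕ) :
    (ofRows l).coeff (fexp a b) = (l.getD (a + b) []).getD b 0 := by
  have hmon : ∀ k j : ℕ, (MvPolynomial.C ((l.getD k []).getD j 0) * MvPolynomial.X 0 ^ (k - j) *
      MvPolynomial.X 1 ^ j : MvPolynomial (Fin 2) F) =
      MvPolynomial.monomial (fexp (k - j) j) ((l.getD k []).getD j 0) := by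
    intro k j
    rw [MvPolynomial.X_pow_eq_monomial, MvPolynomial.X_pow_eq_monomial,
      MvPolynomial.C_mul_monomial, MvPolynomial.monomial_mul, mul_one, mul_one, fexp]
  unfold ofRows
  simp only [hmon, MvPolynomial.coeff_sum, MvPolynomial.coeff_monomial]
  have hiff : ∀ k j : ℕ, j ≤ k → (fexp (k - j) j = fexp a b ↔ k = a + b ∧ j = b) := by
    intro k j hj
    constructor
    · intro h
      have h0 := congrArg (fun m : Fin 2 →₀ ℕ => m 0) h
      have h1 := congrArg (fun m : Fin 2 →₀ ℕ => m 1) h
      simp only [fexp_zero, fexp_one] at h0 h1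
      omega
    · rintro ⟨rfl, rfl⟩
      simp
  by_cases hab : a + b < l.length
  · rw [Finset.sum_eq_single (a + b), Finset.sum_eq_single b]
    · rw [if_pos ((hiff _ _ (by omega)).2 ⟨rfl, rfl⟩)]
    · intro j hj hne
      rw [Finset.mem_range] at hj
      rw [if_neg]
      rw [hiff _ _ (by omega)]
      exact fun h => hne h.2
    · intro h
      exact absurd (Finset.mem_range.2 (by omega)) h
    · intro k _ hne
      refine Finset.sum_eq_zero fun j hj => ?_
      rw [Finset.mem_range] at hj
      rw [if_neg]
      rw [hiff _ _ (by omega)]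
      exact fun h => hne h.1
    · intro h
      exact absurd (Finset.mem_range.2 hab) h
  · have h1 : l.getD (a + b) [] = [] := List.getD_eq_default _ _ (by omega)
    rw [h1]
    refine Finset.sum_eq_zero fun k hk => Finset.sum_eq_zero fun j hj => ?_
    rw [Finset.mem_range] at hk hj
    rw [if_neg]
    rw [hiff _ _ (by omega)]
    exact fun h => by omega

theorem getD_coeffRows (d : ℕ) (f : MvPolynomial (Fin 2) F) (k : ℕ) (hk : k ≤ d) :
    (coeffRows d f).getD k [] = (List.range (k + 1)).map (fun j => f.coeff (fexp (k - j) j)) := by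
  unfold coeffRows
  rw [List.getD_eq_getElem _ _ (by simpa using by omega)]
  simp [fexp]

theorem isHom_coeffRows (d : ℕ) (f : MvPolynomial (Fin 2) F) : IsHom d (coeffRows d f) := by
  refine ⟨by simp [coeffRows], fun k hk => ?_⟩
  rw [getD_coeffRows d f k hk]
  simp

theorem entry_coeffRows (d : ℕ) (f : MvPolynomial (Fin 2) F) (k j : ℕ) (hk : k ≤ d) (hj : j ≤ k) :
    ((coeffRows d f).getD k []).getD j 0 = f.coeff (fexp (k - j) j) := by
  rw [getD_coeffRows d f k hk, List.getD_eq_getElem _ _ (by simpa using by omega)]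
  simp

theorem fin_sum_two (m : Fin 2 →₀ ℕ) : (m.sum fun _ e => e) = m 0 + m 1 := by
  rw [Finsupp.sum_fintype _ _ (fun _ => rfl), Fin.sum_univ_two]

theorem topNe_coeffRows (d : ℕ) (f : MvPolynomial (Fin 2) F) (hd : 1 ≤ d)
    (hf : f.totalDegree = d) : TopNe d (coeffRows d f) := by
  have hne : f.support.Nonempty := by
    rw [Finset.nonempty_iff_ne_empty]
    intro h
    rw [MvPolynomial.support_eq_empty] at h
    rw [h, MvPolynomial.totalDegree_zero] at hf
    omega
  obtain ⟨m, hm, hms⟩ := Finset.exists_mem_eq_sup f.support hne (fun s => s.sum fun _ e => e)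
  have h1 : f.totalDegree = m.sum fun _ e => e := hms
  rw [hf, fin_sum_two] at h1
  refine ⟨m 1, ?_⟩
  rw [entry_coeffRows d f d (m 1) le_rfl (by omega)]
  have h2 : fexp (d - m 1) (m 1) = m := by
    conv_rhs => rw [fexp_eq m]
    congr 1
    omega
  rw [h2]
  exact MvPolynomial.mem_support_iff.1 hm

theorem ofRows_coeffRows (d : ℕ) (f : MvPolynomial (Fin 2) F) (hf : f.totalDegree = d) :
    ofRows (coeffRows d f) = f := by
  ext m
  rw [fexp_eq m, coeff_ofRows]
  by_cases hm : m 0 + m 1 ≤ d
  · rw [entry_coeffRows d f _ _ hm (by omega)]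
    congr 2
    omega
  · have h1 : (coeffRows d f).getD (m 0 + m 1) [] = [] := by
      apply List.getD_eq_default
      rw [(isHom_coeffRows d f).1]
      omega
    rw [h1]
    symm
    simp only [List.getD_nil]
    apply MvPolynomial.coeff_eq_zero_of_totalDegree_lt
    rw [hf]
    have h2 := fin_sum_two (fexp (m 0) (m 1))
    rw [fexp_zero, fexp_one] at h2
    rw [Finsupp.sum] at h2
    omega

/-- lists in the format `IsHom` are determined by the entries -/
theorem IsHom_ext {m : ℕ} {l l' : List (List F)} (h : IsHom m l) (h' : IsHom m l')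
    (he : ∀ k ≤ m, ∀ j ≤ k, (l.getD k []).getD j 0 = (l'.getD k []).getD j 0) : l = l' := by
  apply List.ext_getElem (by rw [h.1, h'.1])
  intro k hk hk'
  have hkm : k ≤ m := by rw [h.1] at hk; omega
  have e1 : l.getD k [] = l[k] := List.getD_eq_getElem _ _ hk
  have e2 : l'.getD k [] = l'[k] := List.getD_eq_getElem _ _ hk'
  have l1 := h.2 k hkm
  have l2 := h'.2 k hkm
  rw [e1] at l1
  rw [e2] at l2
  apply List.ext_getElem (by rw [l1, l2])
  intro j hj hj'
  have h3 := he k hkm j (by omega)
  rw [e1, e2, List.getD_eq_getElem _ _ hj, List.getD_eq_getElem _ _ hj'] at h3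
  exact h3

/-- normalized lists with associated polynomials are equal -/
theorem eq_of_associated {m i m' i' : ℕ} {l l' : List (List F)} (h : IsHom m l)
    (h' : IsHom m' l') (h1 : (l.getD m []).getD i 0 = 1)
    (h2 : ∀ j < i, (l.getD m []).getD j 0 = 0) (h1' : (l'.getD m' []).getD i' 0 = 1)
    (h2' : ∀ j < i', (l'.getD m' []).getD j 0 = 0) (ha : Associated (ofRows l) (ofRows l')) :
    l = l' := by
  obtain ⟨w, hw⟩ := ha
  obtain ⟨u, hu, hu'⟩ := MvPolynomial.isUnit_iff_eq_C_of_isReduced.1 w.isUnit
  have hu0 : u ≠ 0 := hu.ne_zero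
  rw [hu', mul_comm] at hw
  have hc : ∀ k j, j ≤ k → (l'.getD k []).getD j 0 = u * (l.getD k []).getD j 0 := by
    intro k j hj
    have h3 := coeff_ofRows l' (k - j) j
    rw [← hw, MvPolynomial.coeff_C_mul, coeff_ofRows] at h3
    rw [Nat.sub_add_cancel hj] at h3
    exact h3.symm
  have him : i ≤ m := by
    by_contra hcon
    have : (l.getD m []).getD i 0 = 0 := by
      apply List.getD_eq_default
      rw [h.2 m le_rfl]
      omega
    rw [this] at h1
    exact zero_ne_one h1
  have him' : i' ≤ m' := by
    by_contra hcon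
    have : (l'.getD m' []).getD i' 0 = 0 := by
      apply List.getD_eq_default
      rw [h'.2 m' le_rfl]
      omega
    rw [this] at h1'
    exact zero_ne_one h1'
  have hmm : m ≤ m' := by
    by_contra hcon
    have h3 := hc m i him
    have h4 : l'.getD m [] = [] := by
      apply List.getD_eq_default
      rw [h'.1]
      omega
    rw [h4, h1, mul_one, List.getD_nil] at h3
    exact hu0 h3.symm
  have hmm' : m' ≤ m := by
    by_contra hcon
    have h3 := hc m' i' him'
    have h4 : l.getD m' [] = [] := by
      apply List.getD_eq_default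
      rw [h.1]
      omega
    rw [h4, h1', List.getD_nil, mul_zero] at h3
    exact one_ne_zero h3
  obtain rfl : m = m' := le_antisymm hmm hmm'
  have hii : i = i' := by
    rcases lt_trichotomy i i' with hlt | heq | hlt
    · have h3 := hc m i him
      rw [h2' i hlt, h1, mul_one] at h3
      exact absurd h3.symm hu0
    · exact heq
    · have h3 := hc m i' him'
      rw [h2 i' hlt, h1', mul_zero] at h3
      exact absurd h3 one_ne_zero
  subst hii
  have hu1 : u = 1 := by
    have h3 := hc m i him
    rw [h1, h1', mul_one] at h3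
    exact h3.symm
  refine IsHom_ext h h' fun k _ j hj => ?_
  rw [hc k j hj, hu1, one_mul]

theorem facGood_conv (f : MvPolynomial (Fin 2) F) (H : List (List F))
    (out : List (List (List F) × List Unit)) (hH : ofRows H = f)
    (h : FacGood (hom H) out) : IsFactorization f out := by
  obtain ⟨⟨u, hu, hprod⟩, hirr, hnd⟩ := h
  refine ⟨⟨u, hu, ?_⟩, ?_, ?_⟩
  · have h1 := congrArg finE hprod
    rw [finE_hom, hH, map_mul, finE_CC, map_list_prod, List.map_map] at h1
    rw [h1]
    congr 3
    funext o
    simp only [Function.comp_apply]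
    rw [map_pow, finE_hom]
  · intro o ho
    obtain ⟨m, i, _, _, _, _, hi, hl⟩ := hirr o ho
    refine ⟨?_, hl⟩
    rw [← finE_hom]
    exact (MulEquiv.irreducible_iff finE).2 hi
  · have hnd' : out.Pairwise (fun o o' => o.1 ≠ o'.1) := by
      rw [List.Nodup, List.pairwise_map] at hnd
      exact hnd
    refine (List.Pairwise.imp_of_mem ?_) hnd'
    intro o o' ho ho' hne hass
    obtain ⟨m, i, _, a1, a2, a3, _, _⟩ := hirr o ho
    obtain ⟨m', i', _, b1, b2, b3, _, _⟩ := hirr o' ho'
    exact hne (eq_of_associated a1 b1 a2 a3 b2 b3 hass)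

end FinalConv

/- CONVERSION. Ring isomorphism Φ : F[X][X] -> MvPolynomial (Fin 2) F, outer X -> X 0, inner X -> X 1 (eval₂ both ways, or finSuccEquiv). Φ (hom l) = ofRows l. For f of total degree d, H = coeffRows d f satisfies IsHom d H,
TopNe d H (some coefficient of degree exactly d is nonzero) and Φ (hom H) = f. FacGood (hom H) out implies IsFactorization f out: irreducibility transfers; for out elements o, o': if Φ(hom o.1) and Φ(hom o'.1) are associated then hom o.1 = u hom o'.1
with a unit u in F, total degrees m = m' agree, the first nonzero coefficients of the top rows are both 1 at the same position, so u = 1 and o.1 = o'.1 (IsHom lists are determined by their polynomial), excluded by Nodup.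
binary = bits, numRandom d = RR d (unfold), 29/10 = 3 - 1/10. -/
theorem finalStmt (h : SpecMain) : FinalStmt := by
  obtain ⟨main, hmain⟩ := h
  refine ⟨main, fun c => ?_⟩
  obtain ⟨C, hC⟩ := hmain c
  refine ⟨C, ?_⟩
  intro F _ _ _ d f hd hf hcard
  have h1 := hC F d (coeffRows d f) hd hcard (isHom_coeffRows d f) (topNe_coeffRows d f hd hf)
  refine le_trans h1 (Nat.mul_le_mul_left 3 ?_)
  have himp : ∀ r : Fin (RR d) → F,
      (FacGood (hom (coeffRows d f))
        (main.val () (bits F (Fintype.card F), (coeffRows d f, List.ofFn r))) ∧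
      (main.cost () () (bits F (Fintype.card F), (coeffRows d f, List.ofFn r)) : ℝ) ≤
        C * (d : ℝ) ^ (29 / 10 : ℝ)) →
      (IsFactorization f
          (main.val () (binary F (Fintype.card F), (coeffRows d f, List.ofFn r))) ∧
        (main.cost () () (binary F (Fintype.card F), (coeffRows d f, List.ofFn r)) : ℝ) ≤
          C * (d : ℝ) ^ (3 - 1 / 10 : ℝ)) := by
    intro r hr
    have hexp : (3 - 1 / 10 : ℝ) = 29 / 10 := by norm_num
    rw [hexp]
    exact ⟨facGood_conv f _ _ (ofRows_coeffRows d f hf) hr.1, hr.2⟩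
  exact Nat.card_le_card_of_injective (Subtype.map id himp)
    (Subtype.map_injective himp Function.injective_id)

end Pool.Agent.H330FB.JE9
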