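import Pool.Agent.H330FB.Lib5
import Pool.Agent.H330FB.Spec4
set_option autoImplicit false
noncomputable section
namespace Pool.Agent.H330FB.JE8
open Polynomial


namespace E8

section prog
variable {F : Type} [Field F] [DecidableEq F]
variable {s : List (Ty × Ty)} {a b c d e g σ τ : Ty}

theorem un_eq (l : List Unit) : l = un l.length := by
  induction l with
  | nil => rfl
  | cons h t ih =>
    have : un (t.length + 1) = () :: un t.length := rfl
    rw [List.length_cons, this, ← ih]

theorem length_un (n : ℕ) : (un n).length = n := List.length_replicate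

theorem un_eq' {l : List Unit} {n : ℕ} (h : l.length = n) : l = un n := by
  rw [← h]; exact un_eq l

/-- doubling -/
def dblP : Pr s (.list a) (.list a) := .comp (.pair .id .id) appP

@[simp] theorem val_dblP (v : SV F s) (x : Ty.D F (.list a)) :
    (dblP : Pr s (.list a) _).val v x = ((x : List _) ++ x : List _) := by
  simp [dblP]

theorem cost_dblP (v : SV F s) (k : SC F s) (x : Ty.D F (.list a)) :
    (dblP : Pr s (.list a) _).cost v k x ≤ 20 * List.length x + 8 := by
  have := cost_appP (s := s) v k (x, x)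
  simp [dblP] at this ⊢
  omega

/-- body of `powP` -/
def powB : Pr ((.unit, .list .unit) :: s) .unit (.list .unit) := .comp .self dblP

/-- powers of two -/
def powP : Pr s (.list a) (.list .unit) :=
  .comp (.pair .id .star) (.recD powB (.comp (.pair .star .nil) .cons))

theorem pow_aux (v : SV F s) (n : ℕ) :
    goV (s := s) powB (.comp (.pair .star .nil) .cons) v n () = un (2 ^ n) := by
  induction n with
  | zero => simp [goV, un]
  | succ n ih =>
    simp only [goV, powB, val_comp, val_self, val_dblP] at ih ⊢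
    rw [ih]
    apply un_eq'
    rw [List.length_append, length_un, pow_succ]
    ring

theorem val_powP (v : SV F s) (x : Ty.D F (.list a)) :
    (powP : Pr s (.list a) _).val v x = un (2 ^ List.length x) := by
  simp only [powP, val_comp, val_pair, val_id, val_star, val_recD]
  exact pow_aux v _

theorem pow_auxc (v : SV F s) (k : SC F s) (n : ℕ) :
    goC (s := s) powB (.comp (.pair .star .nil) .cons) v k n () ≤ 20 * 2 ^ n + 12 * n + 5 := by
  induction n with
  | zero => simp [goC]
  | succ n ih =>
    have h1 := cost_dblP (s := (.unit, .list .unit) :: s) (a := .unit)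
      (goV (s := s) powB (.comp (.pair .star .nil) .cons) v n, v)
      (goC (s := s) powB (.comp (.pair .star .nil) .cons) v k n, k) (un (2 ^ n))
    rw [length_un] at h1
    simp only [goC]
    show (powB : Pr ((.unit, .list .unit) :: s) .unit (.list .unit)).cost _ _ _ ≤ _
    unfold powB
    rw [cost_comp, cost_self, val_self]
    show _ + dblP.cost _ _ (goV (s := s) powB (.comp (.pair .star .nil) .cons) v n ()) ≤ _
    rw [pow_aux]
    have h2 : (2 : ℕ) ^ (n + 1) = 2 * 2 ^ n := by ring
    rw [h2]
    change goC (s := s) powB (.comp (.pair .star .nil) .cons) v k n () + 1 + _ ≤ _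
    have h3 := h1
    unfold powB at ih h3 ⊢
    omega

theorem cost_powP (v : SV F s) (k : SC F s) (x : Ty.D F (.list a)) :
    (powP : Pr s (.list a) _).cost v k x ≤
      20 * 2 ^ List.length x + 12 * List.length x + 9 := by
  have h := pow_auxc v k (List.length x)
  simp only [powP, cost_comp, cost_pair, cost_id, cost_star, cost_recD, val_pair, val_id,
    val_star]
  omega

/-- four copies -/
def dbl2P : Pr s (.list a) (.list a) := .comp dblP dblP

theorem length_dbl2P (v : SV F s) (x : Ty.D F (.list a)) :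
    List.length ((dbl2P : Pr s (.list a) _).val v x) = 4 * List.length x := by
  simp only [dbl2P, val_comp, val_dblP, List.length_append]
  ring

theorem cost_dbl2P (v : SV F s) (k : SC F s) (x : Ty.D F (.list a)) :
    (dbl2P : Pr s (.list a) _).cost v k x ≤ 60 * List.length x + 16 := by
  have h1 := cost_dblP (s := s) v k x
  have h2 := cost_dblP (s := s) v k ((x : List _) ++ x : List _)
  rw [List.length_append] at h2
  simp only [dbl2P, cost_comp, val_dblP]
  omega

/-- forty copies -/
def fortyP : Pr s (.list a) (.list a) :=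
  lt (.comp dblP dbl2P) (lt (.comp .snd dbl2P) (.comp (.pair .snd (.comp .fst .snd)) appP))

theorem length_fortyP (v : SV F s) (x : Ty.D F (.list a)) :
    List.length ((fortyP : Pr s (.list a) _).val v x) = 40 * List.length x := by
  simp only [fortyP, val_lt, val_comp, val_pair, val_dblP, val_snd, val_fst, val_appP,
    List.length_append, length_dbl2P]
  ring

theorem cost_fortyP (v : SV F s) (k : SC F s) (x : Ty.D F (.list a)) :
    (fortyP : Pr s (.list a) _).cost v k x ≤ 1300 * List.length x + 100 := by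
  have h1 := cost_dblP (s := s) v k x
  have h2 := cost_dbl2P (s := s) v k ((x : List _) ++ x : List _)
  have h3 := cost_dbl2P (s := s) v k ((dbl2P : Pr s (.list a) _).val v ((x : List _) ++ x : List _))
  have h4 := cost_appP (s := s) v k ((dbl2P : Pr s (.list a) _).val v
    ((dbl2P : Pr s (.list a) _).val v ((x : List _) ++ x : List _)),
    (dbl2P : Pr s (.list a) _).val v ((x : List _) ++ x : List _))
  simp only [length_dbl2P, List.length_append] at h1 h2 h3 h4
  simp only [fortyP, cost_lt, cost_comp, cost_pair, cost_fst, cost_snd, val_comp, val_snd,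
    val_fst, val_pair, val_dblP]
  omega

/-- input: a list of length `d + 1`; output `un (2 ^ jj d)` -/
def eP : Pr s (.list a) (.list .unit) :=
  .comp fortyP (.comp lgP (.comp dbl2P (.comp lgP powP)))

theorem eP_aux (v : SV F s) (x : Ty.D F (.list a)) (n : ℕ) (h : List.length x = n + 1) :
    ∃ (y1 : List (Ty.D F a)) (y2 y3 y4 : List Unit),
      (fortyP : Pr s (.list a) _).val v x = y1 ∧ (lgP : Pr s (.list a) _).val v y1 = y2 ∧
      (dbl2P : Pr s (.list .unit) _).val v y2 = y3 ∧ (lgP : Pr s (.list .unit) _).val v y3 = y4 ∧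
      y1.length = 40 * (n + 1) ∧ y2.length = Nat.clog 2 (40 * (n + 1)) ∧
      y3.length = 4 * Nat.clog 2 (40 * (n + 1)) ∧ y4.length = jj n := by
  have h1 := length_fortyP (s := s) v x
  rw [h] at h1
  have h2 := val_lgP (s := s) v ((fortyP : Pr s (.list a) _).val v x)
  rw [h1] at h2
  have h3 := length_dbl2P (s := s) (a := .unit) v
    ((lgP : Pr s (.list a) _).val v ((fortyP : Pr s (.list a) _).val v x))
  have h3' := h3.trans (congrArg (fun n => 4 * n) h2)
  have h4 := val_lgP (s := s) (a := .unit) v ((dbl2P : Pr s (.list .unit) _).val v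
    ((lgP : Pr s (.list a) _).val v ((fortyP : Pr s (.list a) _).val v x)))
  have h4' := h4.trans (congrArg (Nat.clog 2) h3')
  exact ⟨_, _, _, _, rfl, rfl, rfl, rfl, h1, h2, h3', h4'⟩

theorem val_eP (v : SV F s) (x : Ty.D F (.list a)) (n : ℕ) (h : List.length x = n + 1) :
    (eP : Pr s (.list a) _).val v x = un (2 ^ jj n) := by
  obtain ⟨y1, y2, y3, y4, e1, e2, e3, e4, l1, l2, l3, l4⟩ := eP_aux v x n h
  simp only [eP, val_comp, e1]
  show (powP : Pr s (.list .unit) _).val v (lgP.val v (dbl2P.val v (lgP.val v y1))) = _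
  rw [e2, e3, e4, val_powP]
  show un (2 ^ y4.length) = _
  rw [l4]

theorem clog_le (n : ℕ) : Nat.clog 2 n ≤ n := by
  rcases Nat.eq_zero_or_pos n with h | h
  · subst h; simp
  · exact Nat.clog_le_of_le_pow (Nat.lt_two_pow_self.le)

theorem cost_eP (v : SV F s) (k : SC F s) (x : Ty.D F (.list a)) (n : ℕ)
    (h : List.length x = n + 1) :
    (eP : Pr s (.list a) _).cost v k x ≤ 100000 * (n + 1) + 1000 + 20 * 2 ^ jj n := by
  obtain ⟨y1, y2, y3, y4, e1, e2, e3, e4, l1, l2, l3, l4⟩ := eP_aux v x n h
  have h1 := cost_fortyP (s := s) v k x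
  have h2 := cost_lgP (s := s) (a := a) v k y1
  have h3 := cost_dbl2P (s := s) (a := .unit) v k y2
  have h4 := cost_lgP (s := s) (a := .unit) v k y3
  have h5 := cost_powP (s := s) (a := .unit) v k y4
  have c1 := clog_le (40 * (n + 1))
  have c2 := clog_le (4 * Nat.clog 2 (40 * (n + 1)))
  change (dbl2P : Pr s (.list .unit) _).cost v k y2 ≤ 60 * y2.length + 16 at h3
  change (lgP : Pr s (.list .unit) _).cost v k y3 ≤ 120 * y3.length + 20 at h4
  change (powP : Pr s (.list .unit) _).cost v k y4 ≤ 20 * 2 ^ y4.length + 12 * y4.length + 9 at h5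
  rw [h] at h1
  rw [l1] at h2
  rw [l2] at h3
  rw [l3] at h4
  rw [l4] at h5
  have c3 : jj n ≤ 4 * Nat.clog 2 (40 * (n + 1)) := c2
  simp only [eP, cost_comp, e1]
  change fortyP.cost v k x + ((lgP : Pr s (.list a) _).cost v k y1 +
    ((dbl2P : Pr s (.list .unit) _).cost v k (lgP.val v y1) +
    ((lgP : Pr s (.list .unit) _).cost v k (dbl2P.val v (lgP.val v y1)) +
      (powP : Pr s (.list .unit) _).cost v k (lgP.val v (dbl2P.val v (lgP.val v y1)))))) ≤ _
  rw [e2, e3, e4]
  omega

/-- `un n` goes to `un (8 n n)` -/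
def sqP : Pr s (.list .unit) (.list .unit) :=
  .comp (.comp (.comp (.pair .id .id) (mapP (c := .list .unit) (a := .unit) .fst)) flatP)
    (.comp dblP dbl2P)

theorem sq_aux (n : ℕ) : (List.flatten (List.map (fun _ : Unit => un n) (un n))).length =
    n * n := by
  rw [List.length_flatten, List.map_map]
  have : (List.length ∘ fun _ : Unit => un n) = fun _ => n := by
    funext x; simp [length_un]
  rw [this, un, List.map_const', List.length_replicate, List.sum_replicate, smul_eq_mul]

theorem val_sqP (v : SV F s) (n : ℕ) :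
    (sqP : Pr s (.list .unit) _).val v (un n) = un (8 * n * n) := by
  apply un_eq'
  have h1 : (sqP : Pr s (.list .unit) _).val v (un n) =
      (dbl2P : Pr s (.list .unit) _).val v
        (List.flatten (List.map (fun _ : Unit => un n) (un n)) ++
          List.flatten (List.map (fun _ : Unit => un n) (un n))) := by
    simp [sqP]
  rw [h1]
  refine (length_dbl2P (s := s) (a := .unit) v _).trans ?_
  show 4 * List.length (List.flatten (List.map (fun _ : Unit => un n) (un n)) ++
          List.flatten (List.map (fun _ : Unit => un n) (un n))) = _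
  rw [List.length_append, sq_aux]
  ring

theorem cost_sqP (v : SV F s) (k : SC F s) (n : ℕ) :
    (sqP : Pr s (.list .unit) _).cost v k (un n) ≤ 1000 * ((n + 1) * (n + 1)) := by
  have h1 := cost_mapP_le (s := s) (c := .list .unit) (a := .unit) (b := .list .unit) .fst v k
    (un n, un n) 1 (fun _ _ => by simp)
  have h2 := cost_flatP (s := s) (a := .unit) v k (List.map (fun _ : Unit => un n) (un n)) n
    (fun y hy => by
      obtain ⟨_, _, rfl⟩ := List.mem_map.1 hy
      exact (length_un n).le)
  have h3 := cost_dblP (s := s) (a := .unit) v k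
    (List.flatten (List.map (fun _ : Unit => un n) (un n)))
  have h4 := cost_dbl2P (s := s) (a := .unit) v k
    (List.flatten (List.map (fun _ : Unit => un n) (un n)) ++
      List.flatten (List.map (fun _ : Unit => un n) (un n)))
  change _ ≤ _ * (un n).length + _ at h1
  change _ ≤ _ * (List.map (fun _ : Unit => un n) (un n)).length + _ at h2
  change _ ≤ _ * (List.flatten (List.map (fun _ : Unit => un n) (un n))).length + _ at h3
  change _ ≤ _ * (List.flatten (List.map (fun _ : Unit => un n) (un n)) ++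
      List.flatten (List.map (fun _ : Unit => un n) (un n))).length + _ at h4
  rw [List.length_append, sq_aux] at h4
  rw [sq_aux] at h3
  rw [List.length_map] at h2
  rw [length_un] at h1 h2
  simp only [sqP, cost_comp, cost_pair, cost_id, val_comp, val_pair, val_id, val_mapP, val_fst,
    val_flatP, val_dblP]
  nlinarith [h1, h2, h3, h4]

end prog
end E8


namespace E8

section prog
variable {F : Type} [Field F] [DecidableEq F]
variable {s : List (Ty × Ty)} {a b c d e g σ τ : Ty}

/-! ### all chunks -/

/-- body of `chkP` -/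
def chkB : Pr ((.prod (.list b) (.list a), .list (.list a)) :: s) (.prod (.list b) (.list a))
    (.list (.list a)) :=
  onL .snd .nil (lt (.comp .fst splitP)
    (.comp (.pair (.comp .snd .fst)
      (.comp (.pair (.comp (.comp .fst .fst) .fst) (.comp .snd .snd)) .self)) .cons))

/-- input `(w, l)`: consecutive pieces of length `w.length` of `l` -/
def chkP : Pr s (.prod (.list b) (.list a)) (.list (.list a)) :=
  .comp (.pair .snd .id) (.recD chkB .nil)

theorem chk_aux (v : SV F s) (w : List (Ty.D F b)) (hw : 1 ≤ w.length) (m : ℕ) :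
    ∀ (n : ℕ) (l : List (Ty.D F a)), l.length = w.length * m → m ≤ n →
      goV (s := s) chkB .nil v n (w, l) = chunks w.length m l := by
  induction m with
  | zero =>
    intro n l hl _
    have hl0 : l = [] := List.length_eq_zero_iff.1 (by simpa using hl)
    subst hl0
    cases n <;> simp [goV, chkB, chunks]
  | succ m ih =>
    intro n l hl hn
    obtain ⟨n, rfl⟩ : ∃ n', n = n' + 1 := ⟨n - 1, by omega⟩
    have hl' : 1 ≤ l.length := by rw [hl]; nlinarith
    obtain ⟨h, t, rfl⟩ : ∃ h t, l = h :: t := by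
      cases l with
      | nil => simp at hl'
      | cons h t => exact ⟨h, t, rfl⟩
    have e := ih n ((h :: t).drop w.length) (by
      rw [List.length_drop, hl, Nat.mul_succ]; omega) (by omega)
    simp [goV, chkB, chunks] at e ⊢
    exact e

theorem val_chkP (v : SV F s) (w : List (Ty.D F b)) (l : List (Ty.D F a)) (m : ℕ)
    (hw : 1 ≤ w.length) (hl : l.length = w.length * m) :
    (chkP : Pr s (.prod (.list b) (.list a)) _).val v (w, l) = chunks w.length m l := by
  simp only [chkP, val_comp, val_pair, val_snd, val_id, val_recD]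
  refine chk_aux v w hw m _ l hl ?_
  show m ≤ l.length
  rw [hl]
  nlinarith

theorem chk_auxc (v : SV F s) (k : SC F s) (w : List (Ty.D F b)) (hw : 1 ≤ w.length) (m : ℕ) :
    ∀ (n : ℕ) (l : List (Ty.D F a)), l.length = w.length * m → m ≤ n →
      goC (s := s) chkB .nil v k n (w, l) ≤ (24 * w.length + 60) * m + 20 := by
  induction m with
  | zero =>
    intro n l hl _
    have hl0 : l = [] := List.length_eq_zero_iff.1 (by simpa using hl)
    subst hl0
    cases n <;> simp [goC, chkB]
  | succ m ih =>
    intro n l hl hn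
    obtain ⟨n, rfl⟩ : ∃ n', n = n' + 1 := ⟨n - 1, by omega⟩
    have hl' : 1 ≤ l.length := by rw [hl]; nlinarith
    obtain ⟨h, t, rfl⟩ : ∃ h t, l = h :: t := by
      cases l with
      | nil => simp at hl'
      | cons h t => exact ⟨h, t, rfl⟩
    have e := ih n ((h :: t).drop w.length) (by
      rw [List.length_drop, hl, Nat.mul_succ]; omega) (by omega)
    have e2 := cost_splitP (s := (.prod (.list b) (.list a), .list (.list a)) :: s) (F := F)
      (goV (s := s) chkB .nil v n, v) (goC (s := s) chkB .nil v k n, k) (w, h :: t)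
    simp [goC, chkB] at e e2 ⊢
    nlinarith

theorem cost_chkP (v : SV F s) (k : SC F s) (w : List (Ty.D F b)) (l : List (Ty.D F a)) (m : ℕ)
    (hw : 1 ≤ w.length) (hl : l.length = w.length * m) :
    (chkP : Pr s (.prod (.list b) (.list a)) _).cost v k (w, l) ≤
      (24 * w.length + 60) * m + 24 := by
  have := chk_auxc v k w hw m l.length l hl (by rw [hl]; nlinarith)
  simp only [chkP, cost_comp, cost_pair, cost_snd, cost_id, val_pair, val_snd, val_id, cost_recD]
  show 1 + 1 + 1 + (goC (s := s) chkB .nil v k l.length (w, l) + 1) ≤ _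
  omega

/-! ### map without context -/

/-- map without context -/
def mapQ (f : Pr s a b) : Pr s (.list a) (.list b) :=
  .comp (.pair .star .id) (mapP (c := .unit) (.comp .snd f))

@[simp] theorem val_mapQ (f : Pr s a b) (v : SV F s) (x : Ty.D F (.list a)) :
    (mapQ f).val v x = List.map (f.val v) x := by
  simp [mapQ]

theorem cost_mapQ (f : Pr s a b) (v : SV F s) (k : SC F s) (x : Ty.D F (.list a)) :
    (mapQ f).cost v k x ≤ (List.map (fun y => f.cost v k y + 14) x).sum + 8 := by
  have h := cost_mapP (s := s) (c := .unit) (.comp .snd f) v k ((), x)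
  have e : ∀ x : List (Ty.D F a), (List.map (fun y => (Pr.comp .snd f : Pr s (.prod .unit a) b).cost
      v k ((), y) + 13) x).sum ≤ (List.map (fun y => f.cost v k y + 14) x).sum := by
    intro x
    refine List.sum_le_sum fun y _ => ?_
    simp only [cost_comp, cost_snd, val_snd]
    omega
  have e' := e x
  simp only [mapQ, cost_comp, cost_pair, cost_star, cost_id, val_pair, val_star, val_id]
  change (mapP (s := s) (c := .unit) (.comp .snd f)).cost v k ((), x) ≤
    (List.map (fun y => (Pr.comp .snd f : Pr s (.prod .unit a) b).cost v k ((), y) + 13) x).sum +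
      5 at h
  exact (Nat.add_le_add_left (h.trans (Nat.add_le_add_right e' 5)) (1 + 1 + 1)).trans
    (le_of_eq (by ring))

/-! ### zeros, encoding, decoding -/

/-- `un n` goes to `n - 1` zeros -/
def zP : Pr s (.list a) (.list .fld) :=
  onL .id .nil (.comp (.comp .snd .snd) (mapQ .zero))

theorem val_zP (v : SV F s) (x : Ty.D F (.list a)) :
    (zP : Pr s (.list a) _).val v x = List.replicate (List.length x - 1) (0 : F) := by
  cases x with
  | nil => simp [zP]
  | cons h t =>
    simp only [zP, val_onL, val_id, lcase_cons, val_comp, val_snd, val_mapQ, List.length_cons,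
      Nat.add_sub_cancel]
    exact List.map_const' ..

theorem sum_map_le {α : Type} (f : α → ℕ) (B : ℕ) (l : List α) (h : ∀ x ∈ l, f x ≤ B) :
    (l.map f).sum ≤ B * l.length := by
  induction l with
  | nil => simp
  | cons x l ih =>
    have h1 := h x (by simp)
    have h2 := ih fun y hy => h y (by simp [hy])
    simp only [List.map_cons, List.sum_cons, List.length_cons]
    nlinarith

theorem cost_zP (v : SV F s) (k : SC F s) (x : Ty.D F (.list a)) :
    (zP : Pr s (.list a) _).cost v k x ≤ 15 * List.length x + 20 := by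
  cases x with
  | nil => simp [zP]
  | cons h t =>
    have h1 := cost_mapQ (s := s) (a := a) (.zero) v k t
    have h2 := sum_map_le (fun y : Ty.D F a => (Pr.zero : Pr s a .fld).cost v k y + 14) 15 t
      (fun y _ => by simp)
    simp only [zP, cost_onL, val_id, cost_id, lcase_cons, cost_comp, cost_snd, val_comp, val_snd,
      List.length_cons]
    change (mapQ (.zero : Pr s a .fld)).cost v k t ≤
      (List.map (fun y : Ty.D F a => (Pr.zero : Pr s a .fld).cost v k y + 14) t).sum + 8 at h1
    omega

/-- `(z, c)` goes to `c :: z` -/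
def encC : Pr s (.prod Po .fld) Po := .comp (.pair .snd .fst) .cons

/-- encoding of a list of elements of the small field -/
def enc1 : Pr s (.prod Po Po) Ma := mapP encC

/-- encoding of a matrix over the small field -/
def enc2 : Pr s (.prod Po Ma) (.list Ma) := mapP enc1

theorem val_enc1 (v : SV F s) (x : Ty.D F (.prod Po Po)) :
    (enc1 : Pr s (.prod Po Po) Ma).val v x = List.map (fun c => (c :: x.1 : List _)) x.2 := by
  simp [enc1, encC]

theorem val_enc2 (v : SV F s) (x : Ty.D F (.prod Po Ma)) :
    (enc2 : Pr s (.prod Po Ma) (.list Ma)).val v x =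
      List.map (fun l => List.map (fun c => (c :: x.1 : List _)) l) x.2 := by
  simp only [enc2, val_mapP]
  exact List.map_congr_left fun l _ => val_enc1 v (x.1, l)

theorem cost_enc1 (v : SV F s) (k : SC F s) (z l : List F) :
    (enc1 : Pr s (.prod Po Po) Ma).cost v k (z, l) ≤ 17 * l.length + 5 := by
  exact cost_mapP_le (s := s) encC v k (z, l) 4 (fun _ _ => by simp [encC])

theorem cost_enc2 (v : SV F s) (k : SC F s) (z : List F) (H : List (List F)) (n : ℕ)
    (hn : ∀ l ∈ H, l.length ≤ n) :
    (enc2 : Pr s (.prod Po Ma) (.list Ma)).cost v k (z, H) ≤ (17 * n + 18) * H.length + 5 := by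
  have := cost_mapP_le (s := s) enc1 v k (z, H) (17 * n + 5) (fun l hl => by
    have h1 := cost_enc1 v k z l
    have h2 := hn l hl
    exact h1.trans (by omega))
  exact this

/-- first element -/
def hdP : Pr s Po .fld := onL .id .zero (.comp .snd .fst)

/-- decoding of a row -/
def dec1 : Pr s Ma Po := mapQ hdP

/-- decoding of a matrix -/
def dec2 : Pr s (.list Ma) Ma := mapQ dec1

/-- decoding of a factorization -/
def dec3 : Pr s (.list (.prod (.list Ma) Un)) (.list (.prod Ma Un)) :=
  mapQ (.pair (.comp .fst dec2) .snd)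

/-- size of a factorization -/
def sz {α β : Type} (out : List (List (List α) × β)) : ℕ :=
  (out.map (fun o => (o.1.map (fun r => r.length + 2)).sum + 2)).sum

theorem cost_hdP (v : SV F s) (k : SC F s) (l : List F) :
    (hdP : Pr s Po .fld).cost v k l ≤ 6 := by
  cases l <;> simp [hdP]

theorem cost_dec1 (v : SV F s) (k : SC F s) (l : List (List F)) :
    (dec1 : Pr s Ma Po).cost v k l ≤ 20 * l.length + 8 := by
  refine (cost_mapQ (s := s) hdP v k l).trans ?_
  have := sum_map_le (fun y : List F => (hdP : Pr s Po .fld).cost v k y + 14) 20 l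
      (fun y _ => by have := cost_hdP v k y; omega)
  exact Nat.add_le_add_right this 8

theorem cost_dec2 (v : SV F s) (k : SC F s) (A : List (List (List F))) :
    (dec2 : Pr s (.list Ma) Ma).cost v k A ≤ 20 * (A.map (fun r => r.length + 2)).sum + 8 := by
  refine (cost_mapQ (s := s) dec1 v k A).trans ?_
  have : ∀ A : List (List (List F)),
      (List.map (fun y : List (List F) => (dec1 : Pr s Ma Po).cost v k y + 14) A).sum ≤
        20 * (A.map (fun r => r.length + 2)).sum := by
    intro A
    induction A with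
    | nil => simp
    | cons x A ih =>
      have h1 := cost_dec1 v k x
      simp only [List.map_cons, List.sum_cons]
      omega
  exact Nat.add_le_add_right (this A) 8

theorem cost_dec3 (v : SV F s) (k : SC F s) (A : List (List (List (List F)) × List Unit)) :
    (dec3 : Pr s (.list (.prod (.list Ma) Un)) (.list (.prod Ma Un))).cost v k A ≤
      20 * sz A + 8 := by
  refine (cost_mapQ (s := s) (a := .prod (.list Ma) Un) (b := .prod Ma Un)
    (.pair (.comp .fst dec2) .snd) v k A).trans ?_
  have : ∀ A : List (List (List (List F)) × List Unit),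
      (List.map (fun y : List (List (List F)) × List Unit =>
        (Pr.pair (.comp .fst dec2) .snd : Pr s (.prod (.list Ma) Un) (.prod Ma Un)).cost v k y + 14)
          A).sum ≤ 20 * sz A := by
    intro A
    induction A with
    | nil => simp [sz]
    | cons x A ih =>
      have h1 := cost_dec2 v k x.1
      simp only [sz, List.map_cons, List.sum_cons, cost_pair, cost_comp, cost_fst, cost_snd,
        val_fst] at ih ⊢
      omega
  exact Nat.add_le_add_right (this A) 8

theorem val_dec3 (v : SV F s) (A : List (List (List (List F)) × List Unit)) :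
    (dec3 : Pr s (.list (.prod (.list Ma) Un)) (.list (.prod Ma Un))).val v A =
      A.map (fun o => (o.1.map (fun r => r.map (fun l => (hdP : Pr s Po .fld).val v l)), o.2)) := by
  simp only [dec3, val_mapQ]
  refine List.map_congr_left fun o _ => ?_
  simp only [val_pair, val_comp, val_fst, val_snd, dec2, dec1, val_mapQ]
  exact Prod.ext (List.map_congr_left fun r _ => val_mapQ _ _ _) rfl

theorem val_hdP (v : SV F s) (c : F) (z : List F) : (hdP : Pr s Po .fld).val v (c :: z) = c := by
  simp [hdP]

end prog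
end E8


namespace E8

/-- the last step of the main program; input `(((((bq, (H, rs)), eu), Eu), (rs1, rs2)), P), z)` -/
def lastP (sm : Pr [] (.prod (.prod Po Po) (.prod (.prod Ma Un) (.prod (.list Ma) Ma)))
      (.list (.prod (.list Ma) Un))) :
    Pr [] (.prod (.prod (.prod (.prod (.prod (.prod Po (.prod Ma Po)) Un) Un) (.prod Po Po)) Po) Po)
      (.list (.prod Ma Un)) :=
  .comp (.comp (.pair
    (.pair (.comp .fst (.comp .fst (.comp .fst (.comp .fst (.comp .fst .fst))))) (.comp .fst .snd))
    (.pair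
      (.pair
        (.comp (.pair .snd (.comp .fst (.comp .fst (.comp .fst (.comp .fst (.comp .fst .fst))))))
          enc1)
        (.comp .fst (.comp .fst (.comp .fst (.comp .fst .snd)))))
      (.pair
        (.comp (.pair .snd (.comp .fst (.comp .fst (.comp .fst (.comp .fst (.comp .fst
          (.comp .snd .fst)))))))
          enc2)
        (.comp (.pair (.comp .fst (.comp .fst (.comp .fst .snd)))
          (.comp .fst (.comp .fst (.comp .snd .snd)))) chkP)))) sm) dec3

/-- the main program -/
def mainP (fd : Pr [] (.prod Po (.prod Un Po)) Po)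
    (sm : Pr [] (.prod (.prod Po Po) (.prod (.prod Ma Un) (.prod (.list Ma) Ma)))
      (.list (.prod (.list Ma) Un))) :
    Pr [] (.prod Po (.prod Ma Po)) (.list (.prod Ma Un)) :=
  lt (.comp (.comp .snd .fst) eP) (lt (.comp .snd dblP)
    (lt (.comp (.pair (.comp .snd sqP) (.comp .fst (.comp .fst (.comp .snd .snd)))) splitP)
      (lt (.comp (.pair (.comp .fst (.comp .fst (.comp .fst .fst)))
          (.pair (.comp .fst .snd) (.comp .snd .fst))) fd)
        (lt (.comp (.comp .fst (.comp .fst .snd)) zP) (lastP sm)))))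

section
variable {F : Type} [Field F] [DecidableEq F]
variable (fd : Pr [] (.prod Po (.prod Un Po)) Po)
    (sm : Pr [] (.prod (.prod Po Po) (.prod (.prod Ma Un) (.prod (.list Ma) Ma)))
      (.list (.prod (.list Ma) Un)))

theorem val_lastP (bq : List F) (H : List (List F)) (rs rs1 rs2 P z : List F)
    (eu Eu : List Unit) :
    (lastP sm).val () ((((((bq, (H, rs)), eu), Eu), (rs1, rs2)), P), z) =
      (dec3 : Pr [] _ _).val () (sm.val () ((bq, P), (((bq.map (fun c => c :: z)), eu),
        (H.map (fun l => l.map (fun c => c :: z)),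
          (chkP : Pr [] (.prod Un Po) Ma).val () (Eu, rs2))))) := by
  simp only [lastP, val_comp, val_pair, val_fst, val_snd, val_enc1, val_enc2]

theorem cost_lastP (bq : List F) (H : List (List F)) (rs rs1 rs2 P z : List F)
    (eu Eu : List Unit) :
    (lastP sm).cost () () ((((((bq, (H, rs)), eu), Eu), (rs1, rs2)), P), z) =
      (enc1 : Pr [] _ _).cost () () (z, bq) + (enc2 : Pr [] _ _).cost () () (z, H) +
      (chkP : Pr [] (.prod Un Po) Ma).cost () () (Eu, rs2) +
      sm.cost () () ((bq, P), (((bq.map (fun c => c :: z)), eu),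
        (H.map (fun l => l.map (fun c => c :: z)),
          (chkP : Pr [] (.prod Un Po) Ma).val () (Eu, rs2)))) +
      (dec3 : Pr [] _ _).cost () () (sm.val () ((bq, P), (((bq.map (fun c => c :: z)), eu),
        (H.map (fun l => l.map (fun c => c :: z)),
          (chkP : Pr [] (.prod Un Po) Ma).val () (Eu, rs2))))) + 44 := by
  simp only [lastP, val_comp, val_pair, val_fst, val_snd, val_enc1, val_enc2, cost_comp, cost_pair,
    cost_fst, cost_snd]
  ring

theorem m1 (H : List (List F)) (n : ℕ) (hH : H.length = n + 1) :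
    (eP : Pr [] Ma Un).val () H = un (2 ^ jj n) := val_eP (F := F) (s := []) (a := Po) () H n hH

theorem m2 (n : ℕ) : (dblP : Pr [] Un Un).val (F := F) () (un (2 ^ jj n)) = un (EE n) := by
  rw [val_dblP]
  apply un_eq'
  show (un (2 ^ jj n) ++ un (2 ^ jj n)).length = EE n
  rw [List.length_append, length_un, EE, pow_succ]
  ring

theorem m3 (n : ℕ) : (sqP : Pr [] Un Un).val (F := F) () (un (EE n)) = un (8 * EE n * EE n) :=
  val_sqP (F := F) (s := []) () (EE n)

theorem length_un2 (F : Type) (n : ℕ) : @List.length (Ty.D F .unit) (un n) = n := length_un n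

theorem m5 (m : ℕ) : (zP : Pr [] Un Po).val (F := F) () (un m) =
    List.replicate (m - 1) (0 : F) := by
  have h := val_zP (F := F) (s := []) (a := .unit) () (un m)
  rw [length_un2] at h
  exact h

theorem val_mainP (bq : List F) (H : List (List F)) (rs : List F) (n : ℕ)
    (hH : H.length = n + 1) :
    (mainP fd sm).val () (bq, (H, rs)) =
      (lastP sm).val () ((((((bq, (H, rs)), un (2 ^ jj n)), un (EE n)),
        (rs.take (8 * EE n * EE n), rs.drop (8 * EE n * EE n))),
        fd.val () (bq, (un (EE n), rs.take (8 * EE n * EE n)))),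
        List.replicate (EE n - 1) (0 : F)) := by
  simp only [mainP, val_lt, val_comp, val_pair, val_fst, val_snd, m1 H n hH, m2, m3, m5,
    val_splitP, length_un2 F]

theorem cost_mainP (bq : List F) (H : List (List F)) (rs : List F) (n : ℕ)
    (hH : H.length = n + 1) :
    (mainP fd sm).cost () () (bq, (H, rs)) =
      (eP : Pr [] Ma Un).cost () () H +
      (dblP : Pr [] Un Un).cost (F := F) () () (un (2 ^ jj n)) +
      (sqP : Pr [] Un Un).cost (F := F) () () (un (EE n)) +
      (splitP : Pr [] (.prod Un Po) (.prod Po Po)).cost () () (un (8 * EE n * EE n), rs) +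
      fd.cost () () (bq, (un (EE n), rs.take (8 * EE n * EE n))) +
      (zP : Pr [] Un Po).cost (F := F) () () (un (EE n)) +
      (lastP sm).cost () () ((((((bq, (H, rs)), un (2 ^ jj n)), un (EE n)),
        (rs.take (8 * EE n * EE n), rs.drop (8 * EE n * EE n))),
        fd.val () (bq, (un (EE n), rs.take (8 * EE n * EE n)))),
        List.replicate (EE n - 1) (0 : F)) + 32 := by
  simp only [mainP, cost_lt, cost_comp, cost_pair, cost_fst, cost_snd, val_comp, val_pair,
    val_fst, val_snd, m1 H n hH, m2, m3, m5, val_splitP, length_un2 F]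
  ring

end
end E8


namespace E8

/-! ### the extension field -/

section ext
variable {F : Type} [Field F]

theorem pol_coeff (l : List F) (i : ℕ) : (pol l).coeff i = l.getD i 0 := by
  induction l generalizing i with
  | nil => simp [pol]
  | cons x l ih =>
    cases i with
    | zero => simp [pol]
    | succ i => simp [pol, coeff_C_succ, ih]

theorem pol_degree (l : List F) : (pol l).degree < (l.length : ℕ) := by
  rw [degree_lt_iff_coeff_zero]
  intro m hm
  rw [pol_coeff, List.getD_eq_default _ _ hm]

theorem mpol_monic (l : List F) : (mpol l).Monic := monic_X_pow_add (pol_degree l)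

theorem mpol_natDegree (l : List F) : (mpol l).natDegree = l.length := by
  rw [mpol, natDegree_add_eq_left_of_degree_lt, natDegree_X_pow]
  rw [degree_X_pow]
  exact pol_degree l

/-- coordinates -/
noncomputable def encL (P : List F) (z : AdjoinRoot (mpol P)) : List F :=
  List.ofFn (fun i : Fin P.length => (AdjoinRoot.modByMonicHom (mpol_monic P) z).coeff i)

theorem pol_encL (P : List F) (z : AdjoinRoot (mpol P)) :
    pol (encL P z) = AdjoinRoot.modByMonicHom (mpol_monic P) z := by
  ext i
  rw [pol_coeff, encL]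
  by_cases h : i < P.length
  · rw [List.getD_eq_getElem _ _ (by simpa using h), List.getElem_ofFn]
  · push Not at h
    rw [List.getD_eq_default _ _ (by simpa using h)]
    obtain ⟨f, rfl⟩ := AdjoinRoot.mk_surjective z
    rw [AdjoinRoot.modByMonicHom_mk]
    symm
    apply coeff_eq_zero_of_degree_lt
    refine (degree_modByMonic_lt f (mpol_monic P)).trans_le ?_
    rw [degree_eq_natDegree (mpol_monic P).ne_zero, mpol_natDegree]
    exact_mod_cast h

theorem encOK (P : List F) (hP : 1 ≤ P.length) [Fact (Irreducible (mpol P))] :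
    EncOK F (AdjoinRoot (mpol P)) P (AdjoinRoot.root (mpol P)) (encL P) where
  pos := hP
  root := by rw [AdjoinRoot.aeval_eq, AdjoinRoot.mk_self]
  len z := by simp [encL]
  dec z := by
    rw [AdjoinRoot.aeval_eq, pol_encL]
    exact AdjoinRoot.mk_leftInverse (mpol_monic P) z
  enc_dec l hl := by
    rw [AdjoinRoot.aeval_eq, encL, AdjoinRoot.modByMonicHom_mk]
    have h : pol l %ₘ mpol P = pol l := by
      rw [(modByMonic_eq_self_iff (mpol_monic P)), degree_eq_natDegree (mpol_monic P).ne_zero,
        mpol_natDegree, ← hl]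
      exact pol_degree l
    rw [h]
    apply List.ext_getElem
    · simp [hl]
    · intro i h1 h2
      rw [List.getElem_ofFn, pol_coeff, List.getD_eq_getElem _ _ h2]

theorem card_ext [Fintype F] (P : List F) [Fact (Irreducible (mpol P))]
    [Fintype (AdjoinRoot (mpol P))] :
    Fintype.card (AdjoinRoot (mpol P)) = Fintype.card F ^ P.length := by
  have h := (AdjoinRoot.powerBasis (mpol_monic P).ne_zero).finrank
  rw [AdjoinRoot.powerBasis_dim, mpol_natDegree] at h
  rw [Module.card_eq_pow_finrank (K := F), h]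

theorem pol_replicate (n : ℕ) : pol (List.replicate n (0 : F)) = 0 := by
  induction n with
  | zero => rfl
  | succ n ih => simp [List.replicate_succ, pol, ih]

theorem enc_alg {L : Type} [Field L] [Algebra F L] {P : List F} {θ : L} {enc : L → List F}
    (h : EncOK F L P θ enc) (c : F) :
    enc (algebraMap F L c) = c :: List.replicate (P.length - 1) 0 := by
  have h1 := h.enc_dec (c :: List.replicate (P.length - 1) 0) (by
    rw [List.length_cons, List.length_replicate]
    have := h.pos
    omega)
  rw [pol, pol_replicate, mul_zero, add_zero, aeval_C] at h1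
  exact h1

theorem enc_bits {L : Type} [Field L] [Algebra F L] {P : List F} {θ : L} {enc : L → List F}
    (h : EncOK F L P θ enc) (q : ℕ) :
    List.map enc (bits L q) = (bits F q).map (fun c => c :: List.replicate (P.length - 1) 0) := by
  rw [bits, bits, List.map_map, List.map_map]
  refine List.map_congr_left fun b _ => ?_
  have h0 := enc_alg h 0
  have h1 := enc_alg h 1
  rw [map_zero] at h0
  rw [map_one] at h1
  cases b
  · simpa using h0
  · simpa using h1

end ext

/-! ### chunks -/

theorem length_chunks {α : Type} (n k : ℕ) (l : List α) : (chunks n k l).length = k := by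
  induction k generalizing l with
  | zero => rfl
  | succ k ih => rw [chunks, List.length_cons, ih]

theorem mem_chunks {α : Type} (n k : ℕ) (l : List α) (h : l.length = n * k) :
    ∀ x ∈ chunks n k l, x.length = n := by
  induction k generalizing l with
  | zero => intro x hx; simp [chunks] at hx
  | succ k ih =>
    intro x hx
    rw [chunks, List.mem_cons] at hx
    rcases hx with rfl | hx
    · rw [List.length_take, h, Nat.mul_succ]
      omega
    · refine ih (l.drop n) ?_ x hx
      rw [List.length_drop, h, Nat.mul_succ]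
      omega

theorem flatten_chunks {α : Type} (n k : ℕ) (l : List α) (h : l.length = n * k) :
    (chunks n k l).flatten = l := by
  induction k generalizing l with
  | zero =>
    have : l = [] := List.length_eq_zero_iff.1 (by simpa using h)
    subst this
    rfl
  | succ k ih =>
    rw [chunks, List.flatten_cons, ih (l.drop n) (by
      rw [List.length_drop, h, Nat.mul_succ]; omega), List.take_append_drop]

end E8


namespace E8

/-! ### size of the output -/

section size
variable {K : Type} [Field K]

/-- homogenization -/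
noncomputable def ph : K[X][X] →+* K[X][X][X] :=
  eval₂RingHom (eval₂RingHom ((C.comp C).comp C : K →+* K[X][X][X])
    (C (C X) * X : K[X][X][X])) (C X * X : K[X][X][X])

theorem ph_mono (a : K) (i j : ℕ) :
    ph (C (C a * X ^ j) * X ^ i) = C (C (C a * X ^ j) * X ^ i) * X ^ (i + j) := by
  simp only [ph, coe_eval₂RingHom, eval₂_C, eval₂_X, RingHom.comp_apply,
    map_mul, map_pow]
  ring

/-- homogeneous parts -/
noncomputable def form (l : List (List K)) (k : ℕ) : K[X][X] :=
  ∑ j ∈ Finset.range (k + 1), C (C ((l.getD k []).getD j 0) * X ^ j) * X ^ (k - j)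

theorem ph_hom (l : List (List K)) :
    ph (hom l) = ∑ k ∈ Finset.range l.length, C (form l k) * X ^ k := by
  rw [hom, map_sum]
  refine Finset.sum_congr rfl fun k _ => ?_
  rw [form, map_sum, map_sum, Finset.sum_mul]
  refine Finset.sum_congr rfl fun j hj => ?_
  rw [ph_mono]
  have : k - j + j = k := by
    have := Finset.mem_range.1 hj
    omega
  rw [this]

theorem ph_coeff (l : List (List K)) (m : ℕ) :
    (ph (hom l)).coeff m = if m < l.length then form l m else 0 := by
  rw [ph_hom, finsetSum_coeff]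
  simp only [coeff_C_mul_X_pow]
  rw [Finset.sum_ite_eq]
  simp

theorem ph_natDegree (l : List (List K)) (d : ℕ) (h : l.length = d + 1) :
    (ph (hom l)).natDegree ≤ d := by
  rw [natDegree_le_iff_coeff_eq_zero]
  intro m hm
  rw [ph_coeff, if_neg (by omega)]

theorem form_ne {l : List (List K)} {m i : ℕ} (hm : (l.getD m []).length = m + 1)
    (h : (l.getD m []).getD i 0 ≠ 0) : form l m ≠ 0 := by
  intro h0
  have hi : i < m + 1 := by
    by_contra hcon
    apply h
    exact List.getD_eq_default _ _ (by omega)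
  have h1 : ((form l m).coeff (m - i)).coeff i = (l.getD m []).getD i 0 := by
    rw [form, finsetSum_coeff, finsetSum_coeff, Finset.sum_eq_single i]
    · rw [coeff_C_mul_X_pow, if_pos rfl, coeff_C_mul_X_pow, if_pos rfl]
    · intro j hj hji
      rw [coeff_C_mul_X_pow]
      have := Finset.mem_range.1 hj
      rw [if_neg (by omega), coeff_zero]
    · intro hi'
      exact absurd (Finset.mem_range.2 hi) hi'
  rw [h0, coeff_zero, coeff_zero] at h1
  exact h h1.symm

theorem le_ph_natDegree {l : List (List K)} {m i : ℕ} (hl : IsHom m l)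
    (h : (l.getD m []).getD i 0 ≠ 0) : m ≤ (ph (hom l)).natDegree ∧ ph (hom l) ≠ 0 := by
  have h1 : (ph (hom l)).coeff m ≠ 0 := by
    rw [ph_coeff, if_pos (by rw [hl.1]; omega)]
    exact form_ne (hl.2 m le_rfl) h
  exact ⟨le_natDegree_of_ne_zero h1, fun h0 => h1 (by rw [h0, coeff_zero])⟩

theorem prod_natDegree {α : Type} (out : List (α × List Unit)) (f : α → K[X][X][X])
    (h : ∀ o ∈ out, f o.1 ≠ 0) :
    (out.map (fun o => f o.1 ^ o.2.length)).prod ≠ 0 ∧
    (out.map (fun o => f o.1 ^ o.2.length)).prod.natDegree =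
      (out.map (fun o => o.2.length * (f o.1).natDegree)).sum := by
  induction out with
  | nil => simp
  | cons o out ih =>
    obtain ⟨h1, h2⟩ := ih fun x hx => h x (by simp [hx])
    have h3 : f o.1 ^ o.2.length ≠ 0 := pow_ne_zero _ (h o (by simp))
    simp only [List.map_cons, List.prod_cons, List.sum_cons]
    refine ⟨mul_ne_zero h3 h1, ?_⟩
    rw [natDegree_mul h3 h1, h2, natDegree_pow]

theorem sum_sq {α : Type} (l : List α) (f g : α → ℕ) (h : ∀ x ∈ l, f x ≤ 10 * (g x * g x)) :
    (l.map f).sum ≤ 10 * ((l.map g).sum * (l.map g).sum) := by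
  induction l with
  | nil => simp
  | cons x l ih =>
    have h1 := h x (by simp)
    have h2 := ih fun y hy => h y (by simp [hy])
    simp only [List.map_cons, List.sum_cons]
    generalize (List.map g l).sum = G at *
    generalize (List.map f l).sum = S at *
    have h3 : (g x + G) * (g x + G) = g x * g x + G * G + 2 * (g x * G) := by ring
    rw [h3]
    omega

theorem sz_le {d : ℕ} {H : List (List K)} (hH : IsHom d H) (hT : TopNe d H)
    {out : List (List (List K) × List Unit)} (hf : FacGood (hom H) out) :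
    sz out ≤ 10 * (d * d) := by
  obtain ⟨⟨u, hu, hfac⟩, hout, -⟩ := hf
  have hph : ∀ o ∈ out, ph (hom o.1) ≠ 0 ∧ 1 ≤ o.2.length * (ph (hom o.1)).natDegree ∧
      (o.1.map (fun r => r.length + 2)).sum + 2 ≤
        10 * ((o.2.length * (ph (hom o.1)).natDegree) *
          (o.2.length * (ph (hom o.1)).natDegree)) := by
    intro o ho
    obtain ⟨m, i, hm, hhom, hi, -, -, hlen⟩ := hout o ho
    obtain ⟨h1, h2⟩ := le_ph_natDegree hhom (i := i) (by rw [hi]; exact one_ne_zero)
    have h3 : m ≤ o.2.length * (ph (hom o.1)).natDegree := by nlinarith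
    refine ⟨h2, hm.trans h3, ?_⟩
    have h4 : (o.1.map (fun r => r.length + 2)).sum ≤ (m + 3) * o.1.length := by
      refine sum_map_le _ _ _ fun r hr => ?_
      obtain ⟨k, hk, rfl⟩ := List.getElem_of_mem hr
      have h5 := hhom.2 k (by have := hhom.1; omega)
      rw [List.getD_eq_getElem _ _ hk] at h5
      rw [h5]
      have := hhom.1
      omega
    rw [hhom.1] at h4
    have h5 : m * m ≤ (o.2.length * (ph (hom o.1)).natDegree) *
          (o.2.length * (ph (hom o.1)).natDegree) := Nat.mul_le_mul h3 h3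
    have h6 : (m + 3) * (m + 1) + 2 ≤ 10 * (m * m) := by nlinarith
    omega
  have h1 := congrArg ph hfac
  obtain ⟨i, hi⟩ := hT
  obtain ⟨-, hne⟩ := le_ph_natDegree hH hi
  have hle := ph_natDegree H d hH.1
  have h2 : ph (out.map (fun o => hom o.1 ^ o.2.length)).prod =
      (out.map (fun o => ph (hom o.1) ^ o.2.length)).prod := by
    rw [map_list_prod, List.map_map]
    congr 1
    refine List.map_congr_left fun o _ => ?_
    simp only [Function.comp, map_pow]
  rw [map_mul, h2] at h1
  obtain ⟨h3, h4⟩ := prod_natDegree out (fun l => ph (hom l)) fun o ho => (hph o ho).1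
  have h5 : (out.map (fun o => o.2.length * (ph (hom o.1)).natDegree)).sum ≤ d := by
    rw [← h4]
    have h6 : (ph (C (C u) : K[X][X])) ≠ 0 := by
      intro h0
      rw [h0, zero_mul] at h1
      exact hne h1
    have h7 := congrArg natDegree h1
    rw [natDegree_mul h6 h3] at h7
    omega
  have h8 := sum_sq out (fun o => (o.1.map (fun r => r.length + 2)).sum + 2)
    (fun o => o.2.length * (ph (hom o.1)).natDegree) (fun o ho => (hph o ho).2.2)
  refine h8.trans ?_
  exact Nat.mul_le_mul_left 10 (Nat.mul_le_mul h5 h5)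

end size
end E8


namespace E8

section enc
variable {F L : Type}

theorem enc_in (enc : L → List F) (l : List L) (u : List Unit) (A : List (List L)) (r : List L) :
    Ty.enc enc (.prod (.prod Po Un) (.prod Ma Po)) ((l, u), (A, r)) =
      ((List.map enc l, u), (List.map (List.map enc) A, List.map enc r)) := by
  show ((List.map enc l, List.map (fun x => x) u), (List.map (List.map enc) A, List.map enc r)) = _
  rw [List.map_id']

theorem map_Ma {F' : Type} (φ : F → F') (H : List (List F)) :
    Ty.map φ Ma H = List.map (List.map φ) H := rfl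

theorem map_out {F' : Type} (φ : F → F') (out : List (List (List F) × List Unit)) :
    Ty.map φ (.list (.prod Ma Un)) out =
      List.map (fun o => (List.map (List.map φ) o.1, o.2)) out := by
  show List.map (fun o : List (List F) × List Unit =>
    (List.map (List.map φ) o.1, List.map (fun x => x) o.2)) out = _
  simp only [List.map_id']

theorem enc_out (enc : L → List F) (out : List (List (List L) × List Unit)) :
    Ty.enc enc (.list (.prod Ma Un)) out =
      List.map (fun o => (List.map (List.map enc) o.1, o.2)) out := by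
  show List.map (fun o : List (List L) × List Unit =>
    (List.map (List.map enc) o.1, List.map (fun x => x) o.2)) out = _
  simp only [List.map_id']

end enc

section enc2
variable {F L : Type} [Field F] [Field L] [Algebra F L]

theorem enc_mat {P : List F} {θ : L} {enc : L → List F} (h : EncOK F L P θ enc)
    (H : List (List F)) :
    List.map (List.map enc) (Ty.map (algebraMap F L) Ma H : List (List L)) =
      H.map (fun l => l.map (fun c => c :: List.replicate (P.length - 1) 0)) := by
  rw [map_Ma, List.map_map]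
  refine List.map_congr_left fun l _ => ?_
  simp only [Function.comp, List.map_map]
  exact List.map_congr_left fun c _ => enc_alg h c

theorem enc_fac {P : List F} {θ : L} {enc : L → List F} (h : EncOK F L P θ enc)
    (out : List (List (List F) × List Unit)) :
    (Ty.enc enc (.list (.prod Ma Un)) (Ty.map (algebraMap F L) (.list (.prod Ma Un)) out) :
      List (List (List (List F)) × List Unit)) =
      out.map (fun o => (o.1.map (fun l => l.map
        (fun c => c :: List.replicate (P.length - 1) 0)), o.2)) := by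
  rw [map_out, enc_out, List.map_map]
  refine List.map_congr_left fun o _ => ?_
  have := enc_mat h o.1
  rw [map_Ma] at this
  exact Prod.ext this rfl

theorem dec_fac [DecidableEq F] (z : List F) (out : List (List (List F) × List Unit)) :
    (dec3 : Pr [] (.list (.prod (.list Ma) Un)) (.list (.prod Ma Un))).val ()
      (out.map (fun o => (o.1.map (fun l => l.map (fun c => c :: z)), o.2))) = out := by
  rw [val_dec3, List.map_map]
  refine (List.map_congr_left fun o _ => ?_).trans (List.map_id _)
  simp only [Function.comp, List.map_map, id]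
  refine Prod.ext ?_ rfl
  refine (List.map_congr_left fun l _ => ?_).trans (List.map_id _)
  simp only [Function.comp, List.map_map, id]
  exact (List.map_congr_left (g := fun c => c) fun c _ => val_hdP (s := []) () c z).trans (List.map_id' _)

omit [Field F] in
theorem sz_fac (z : List F) (out : List (List (List F) × List Unit)) :
    sz (out.map (fun o => (o.1.map (fun l => l.map (fun c => c :: z)), o.2))) = sz out := by
  simp only [sz, List.map_map]
  congr 1
  refine List.map_congr_left fun o _ => ?_
  have h : ((fun r : List (List F) => r.length + 2) ∘ fun l => List.map (fun c => c :: z) l) =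
      fun r : List F => r.length + 2 := by
    funext l; simp
  simp only [Function.comp_apply, List.map_map, h]

end enc2

/-! ### numbers -/

theorem lgc_pos (n : ℕ) : 1 ≤ lgc n := by unfold lgc; omega

theorem le_two_clog (n : ℕ) : n ≤ 2 ^ Nat.clog 2 n := Nat.le_pow_clog (by norm_num) n

theorem lgc_q {q c d : ℕ} (hq : q ≤ c * d ^ c) : lgc q ≤ (c + 1) * lgc d := by
  have h1 : q ≤ 2 ^ (c * lgc d) := by
    calc q ≤ c * d ^ c := hq
      _ ≤ 2 ^ c * (2 ^ Nat.clog 2 d) ^ c :=
        Nat.mul_le_mul Nat.lt_two_pow_self.le (Nat.pow_le_pow_left (le_two_clog d) c)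
      _ = 2 ^ (c * lgc d) := by
        rw [← pow_mul, ← pow_add]
        unfold lgc
        congr 1
        ring
  have h2 := Nat.clog_le_of_le_pow h1
  have h3 := lgc_pos d
  unfold lgc at h2 h3 ⊢
  nlinarith

theorem y_le {d : ℕ} (hd : 1 ≤ d) : Nat.clog 2 (40 * (d + 1)) ≤ 7 * lgc d := by
  have h1 : 40 * (d + 1) ≤ 2 ^ (7 + Nat.clog 2 d) := by
    have := le_two_clog d
    rw [pow_add]
    omega
  have h2 := Nat.clog_le_of_le_pow h1
  unfold lgc
  omega

theorem y_pos (d : ℕ) : 1 ≤ Nat.clog 2 (40 * (d + 1)) := by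
  have h : ∀ n, 2 ≤ n → 1 ≤ Nat.clog 2 n := fun n hn => Nat.succ_le_of_lt
    (Nat.clog_pos (by norm_num) hn)
  exact h _ (by omega)

theorem EE_eq (d : ℕ) : EE d = 2 * 2 ^ jj d := by
  rw [EE, pow_succ]; ring

theorem EE_aux (n : ℕ) (hn : 2 ≤ n) : 2 * 2 ^ (Nat.clog 2 n) ≤ 4 * n := by
  have h1 : 1 ≤ Nat.clog 2 n := Nat.succ_le_of_lt (Nat.clog_pos (by norm_num) hn)
  have h2 : 2 ^ (Nat.clog 2 n - 1) < n := Nat.pow_pred_clog_lt_self (by norm_num) (by omega)
  have h3 : 2 ^ Nat.clog 2 n = 2 * 2 ^ (Nat.clog 2 n - 1) := by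
    generalize Nat.clog 2 n = m at *
    obtain ⟨m, rfl⟩ : ∃ m', m = m' + 1 := ⟨m - 1, by omega⟩
    rw [Nat.add_sub_cancel, pow_succ]
    ring
  omega

theorem EE_le {d : ℕ} (hd : 1 ≤ d) : EE d ≤ 112 * lgc d := by
  have h1 := y_le hd
  have h2 := y_pos d
  have h3 := EE_aux (4 * Nat.clog 2 (40 * (d + 1))) (by omega)
  rw [EE_eq, jj]
  refine h3.trans ?_
  omega

theorem EE_pos (d : ℕ) : 2 ≤ EE d := by
  rw [EE_eq]
  have := Nat.one_le_two_pow (n := jj d)
  omega

theorem big_aux (a y e q : ℕ) (h : a ≤ 2 ^ y) (he : 4 * y ≤ e) (hq : 2 ≤ q) : a ^ 4 ≤ q ^ e := by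
  calc a ^ 4 ≤ (2 ^ y) ^ 4 := Nat.pow_le_pow_left h 4
    _ = 2 ^ (4 * y) := by rw [← pow_mul]; congr 1; ring
    _ ≤ 2 ^ e := Nat.pow_le_pow_right (by norm_num) he
    _ ≤ q ^ e := Nat.pow_le_pow_left hq _

theorem big_field {q d : ℕ} (hq : 2 ≤ q) : (40 * (d + 1)) ^ 4 ≤ q ^ (2 ^ jj d) :=
  big_aux _ _ _ _ (le_two_clog _) (le_two_clog _) hq

theorem lgc_succ {d : ℕ} (hd : 1 ≤ d) : lgc (d + 1) ≤ 2 * lgc d := by
  have h1 : d + 1 ≤ 2 ^ (Nat.clog 2 d + 1) := by
    have := le_two_clog d
    rw [pow_succ]
    omega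
  have h2 := Nat.clog_le_of_le_pow h1
  unfold lgc
  omega

theorem Rn_le {d : ℕ} (hd : 1 ≤ d) : Rn d ≤ 40 * (lgc d * (d * d)) := by
  have h1 := lgc_pos d
  have h2 : d ≤ d * d := Nat.le_mul_self d
  have h3 : d * d ≤ lgc d * (d * d) := Nat.le_mul_of_pos_left _ h1
  have h4 : lgc d * d ≤ lgc d * (d * d) := Nat.mul_le_mul_left _ h2
  have h5 : Rn d = 11 + 3 * (lgc d * d) + 14 * d + 2 * (d * d) := by
    unfold Rn; ring
  rw [h5]
  omega

theorem length_bits (F : Type) [Field F] (q : ℕ) : (bits F q).length ≤ lgc q := by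
  rw [bits, List.length_map, Nat.size_eq_bits_len, Nat.size_le]
  have := le_two_clog q
  unfold lgc
  rw [pow_succ]
  have h2 := Nat.one_le_two_pow (n := Nat.clog 2 q)
  omega

end E8


namespace E8

/-- type of the input of the program over the large field -/
abbrev tin : Ty := .prod (.prod Po Un) (.prod Ma Po)

/-- type of the output -/
abbrev tout : Ty := .list (.prod Ma Un)

section un
variable {F : Type} [Field F] [DecidableEq F]

theorem cost_dbl_un (m : ℕ) :
    (dblP : Pr [] Un Un).cost (F := F) () () (un m) ≤ 20 * m + 8 := by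
  have h := cost_dblP (F := F) (s := []) (a := .unit) () () (un m)
  rw [length_un2] at h
  exact h

theorem cost_z_un (m : ℕ) :
    (zP : Pr [] Un Po).cost (F := F) () () (un m) ≤ 15 * m + 20 := by
  have h := cost_zP (F := F) (s := []) (a := .unit) () () (un m)
  rw [length_un2] at h
  exact h

theorem cost_split_un (m : ℕ) (rs : List F) :
    (splitP : Pr [] (.prod Un Po) (.prod Po Po)).cost () () (un m, rs) ≤ 24 * m + 8 := by
  have h := cost_splitP (F := F) (s := []) (b := .unit) (a := .fld) () () (un m, rs)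
  rw [length_un2] at h
  exact h

theorem val_chk_un (m k : ℕ) (hm : 1 ≤ m) (rs : List F) (h : rs.length = m * k) :
    (chkP : Pr [] (.prod Un Po) Ma).val () (un m, rs) = chunks m k rs := by
  have h := val_chkP (F := F) (s := []) (a := .fld) (b := .unit) () (un m) rs k
      (by rw [length_un2]; omega) (by rw [length_un2]; exact h)
  rw [length_un2] at h
  exact h

theorem cost_chk_un (m k : ℕ) (hm : 1 ≤ m) (rs : List F) (h : rs.length = m * k) :
    (chkP : Pr [] (.prod Un Po) Ma).cost () () (un m, rs) ≤ (24 * m + 60) * k + 24 := by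
  have h := cost_chkP (F := F) (s := []) (a := .fld) (b := .unit) () () (un m) rs k
      (by rw [length_un2]; omega) (by rw [length_un2]; exact h)
  rw [length_un2] at h
  exact h

end un

section core
variable {F L : Type} [Field F] [DecidableEq F] [Field L] [DecidableEq L] [Algebra F L]

theorem core (fd : Pr [] (.prod Po (.prod Un Po)) Po) (p : Pr [] tin tout)
    (sm : Pr [] (.prod (.prod Po Po) (Ty.ext tin)) (Ty.ext tout))
    {q d : ℕ} {H : List (List F)} (hH : IsHom d H) {rs1 rs2 : List F}
    (h1 : rs1.length = 8 * EE d * EE d) (h2 : rs2.length = EE d * Rn d) {P : List F}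
    (hP : fd.val () (bits F q, (un (EE d), rs1)) = P) (hPl : P.length = EE d) {θ : L}
    {enc : L → List F} (hE : EncOK F L P θ enc) {r' : List L}
    (hr : List.map enc r' = chunks (EE d) (Rn d) rs2)
    {out : List (List (List F) × List Unit)}
    (hout : p.val () ((bits L q, un (2 ^ jj d)), (Ty.map (algebraMap F L) Ma H, r')) =
      Ty.map (algebraMap F L) tout out)
    (hs : sm.val () ((bits F q, P), Ty.enc enc tin
      ((bits L q, un (2 ^ jj d)), (Ty.map (algebraMap F L) Ma H, r'))) =
      Ty.enc enc tout (p.val () ((bits L q, un (2 ^ jj d)), (Ty.map (algebraMap F L) Ma H, r')))) :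
    (mainP fd sm).val () (bits F q, (H, rs1 ++ rs2)) = out ∧
    (mainP fd sm).cost () () (bits F q, (H, rs1 ++ rs2)) ≤
      (100000 * (d + 1) + 1000 + 20 * 2 ^ jj d) + (20 * 2 ^ jj d + 8) +
      1000 * ((EE d + 1) * (EE d + 1)) + (24 * (8 * EE d * EE d) + 8) +
      fd.cost () () (bits F q, (un (EE d), rs1)) + (15 * EE d + 20) +
      (17 * (bits F q).length + 5) + ((17 * (d + 1) + 18) * (d + 1) + 5) +
      ((24 * EE d + 60) * Rn d + 24) +
      sm.cost () () ((bits F q, P), Ty.enc enc tin
        ((bits L q, un (2 ^ jj d)), (Ty.map (algebraMap F L) Ma H, r'))) +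
      (20 * sz out + 8) + 76 := by
  have hE2 := EE_pos d
  have t1 : (rs1 ++ rs2).take (8 * EE d * EE d) = rs1 := List.take_left' h1
  have t2 : (rs1 ++ rs2).drop (8 * EE d * EE d) = rs2 := List.drop_left' h1
  have hch := val_chk_un (EE d) (Rn d) (by omega) rs2 h2
  have hin : ((bits F q, P), (((bits F q).map (fun c => c :: List.replicate (EE d - 1) 0),
      un (2 ^ jj d)), (H.map (fun l => l.map (fun c => c :: List.replicate (EE d - 1) 0)),
        (chkP : Pr [] (.prod Un Po) Ma).val () (un (EE d), rs2)))) =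
      ((bits F q, P), Ty.enc enc tin
        ((bits L q, un (2 ^ jj d)), (Ty.map (algebraMap F L) Ma H, r'))) := by
    have e1 := enc_in enc (bits L q) (un (2 ^ jj d)) (Ty.map (algebraMap F L) Ma H) r'
    rw [enc_bits hE, enc_mat hE, hr, hPl] at e1
    rw [hch]
    exact congrArg (Prod.mk (bits F q, P)) e1.symm
  have hres : (Ty.enc enc tout (Ty.map (algebraMap F L) tout out) :
      List (List (List (List F)) × List Unit)) =
      out.map (fun o => (o.1.map (fun l => l.map
        (fun c => c :: List.replicate (EE d - 1) 0)), o.2)) := by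
    have := enc_fac hE out
    rw [hPl] at this
    exact this
  generalize hS : sm.cost () () ((bits F q, P), Ty.enc enc tin
        ((bits L q, un (2 ^ jj d)), (Ty.map (algebraMap F L) Ma H, r'))) = S
  obtain ⟨sm', hsm⟩ : ∃ sm' : Pr [] (.prod (.prod Po Po) (.prod (.prod Ma Un) (.prod (.list Ma) Ma)))
    (.list (.prod (.list Ma) Un)), sm' = sm := ⟨sm, rfl⟩
  subst hsm
  have hv : sm'.val () ((bits F q, P), (((bits F q).map (fun c =>
      c :: List.replicate (EE d - 1) 0), un (2 ^ jj d)),
      (H.map (fun l => l.map (fun c => c :: List.replicate (EE d - 1) 0)),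
        (chkP : Pr [] (.prod Un Po) Ma).val () (un (EE d), rs2)))) =
      out.map (fun o => (o.1.map (fun l => l.map
        (fun c => c :: List.replicate (EE d - 1) 0)), o.2)) := by
    rw [hin, ← hres, ← hout]
    exact hs
  have hc : sm'.cost () () ((bits F q, P), (((bits F q).map (fun c =>
      c :: List.replicate (EE d - 1) 0), un (2 ^ jj d)),
      (H.map (fun l => l.map (fun c => c :: List.replicate (EE d - 1) 0)),
        (chkP : Pr [] (.prod Un Po) Ma).val () (un (EE d), rs2)))) =
      S := by
    rw [hin]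
    exact hS
  have hHl := hH.1
  constructor
  · rw [val_mainP fd sm' _ _ _ d hHl, t1, t2, hP, val_lastP, hv, dec_fac]
  · rw [cost_mainP fd sm' _ _ _ d hHl, t1, t2, hP, cost_lastP, hv]
    have c1 := cost_eP (F := F) (s := []) (a := Po) () () H d hHl
    have c2 := cost_dbl_un (F := F) (2 ^ jj d)
    have c3 := cost_sqP (F := F) (s := []) () () (EE d)
    have c4 := cost_split_un (8 * EE d * EE d) (rs1 ++ rs2)
    have c5 := cost_z_un (F := F) (EE d)
    have c6 := cost_enc1 (s := []) () () (List.replicate (EE d - 1) (0 : F)) (bits F q)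
    have c7 := cost_enc2 (s := []) () () (List.replicate (EE d - 1) (0 : F)) H (d + 1) (by
      intro l hl
      obtain ⟨k, hk, rfl⟩ := List.getElem_of_mem hl
      have h5 := hH.2 k (by omega)
      rw [List.getD_eq_getElem _ _ hk] at h5
      rw [h5]
      omega)
    have c8 := cost_chk_un (EE d) (Rn d) (by omega) rs2 h2
    have c9 := cost_dec3 (s := []) () () (out.map (fun o => (o.1.map (fun l => l.map
        (fun c => c :: List.replicate (EE d - 1) (0 : F))), o.2)))
    rw [sz_fac] at c9
    rw [hHl] at c7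
    rw [hc]
    omega

end core
end E8


namespace E8

theorem num_find {lam W a Cf kf E Q cf k : ℕ} (hl : 1 ≤ lam) (hW : 1 ≤ W) (hE : E ≤ 112 * lam)
    (hQ : Q ≤ a * lam) (hcf : cf ≤ Cf * (E * Q) ^ kf) (hk : 2 * kf ≤ k) :
    cf ≤ Cf * (112 * a) ^ kf * (lam ^ k * W) := by
  have h1 : E * Q ≤ 112 * a * (lam ^ 2) := by
    calc E * Q ≤ (112 * lam) * (a * lam) := Nat.mul_le_mul hE hQ
      _ = 112 * a * (lam ^ 2) := by ring
  calc cf ≤ Cf * (E * Q) ^ kf := hcf
    _ ≤ Cf * (112 * a * (lam ^ 2)) ^ kf := Nat.mul_le_mul_left _ (Nat.pow_le_pow_left h1 _)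
    _ = Cf * (112 * a) ^ kf * (lam ^ (2 * kf) * 1) := by rw [mul_pow, ← pow_mul]; ring
    _ ≤ Cf * (112 * a) ^ kf * (lam ^ k * W) :=
      Nat.mul_le_mul_left _ (Nat.mul_le_mul (Nat.pow_le_pow_right hl hk) hW)

theorem num_full {lam W a Cp kp e Q L1 w cp : ℕ} (hl : 1 ≤ lam)
    (he : e ≤ 112 * lam) (hQ : Q ≤ a * lam) (hL1 : L1 ≤ 2 * lam) (hw : w ≤ W)
    (hcp : cp ≤ Cp * ((e + 1) * Q * L1) ^ kp * w) :
    cp ≤ Cp * (226 * a) ^ kp * (lam ^ (3 * kp) * W) := by
  have h1 : (e + 1) * Q * L1 ≤ 226 * a * (lam ^ 3) := by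
    calc (e + 1) * Q * L1 ≤ (113 * lam) * (a * lam) * (2 * lam) :=
          Nat.mul_le_mul (Nat.mul_le_mul (by omega) hQ) hL1
      _ = 226 * a * (lam ^ 3) := by ring
  calc cp ≤ Cp * ((e + 1) * Q * L1) ^ kp * w := hcp
    _ ≤ Cp * (226 * a * (lam ^ 3)) ^ kp * W :=
      Nat.mul_le_mul (Nat.mul_le_mul_left _ (Nat.pow_le_pow_left h1 _)) hw
    _ = _ := by rw [mul_pow, ← pow_mul]; ring

theorem num_sim {lam W a Cs ks Kp kp E Q cs cp k : ℕ} (hl : 1 ≤ lam) (hW : 1 ≤ W)
    (hE : E ≤ 112 * lam) (hQ : Q ≤ a * lam) (hcs : cs ≤ Cs * (E * Q) ^ ks * (cp + 1))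
    (hcp : cp ≤ Kp * (lam ^ (3 * kp) * W)) (hk : 2 * ks + 3 * kp ≤ k) :
    cs ≤ Cs * (112 * a) ^ ks * (Kp + 1) * (lam ^ k * W) := by
  have h1 : E * Q ≤ 112 * a * (lam ^ 2) := by
    calc E * Q ≤ (112 * lam) * (a * lam) := Nat.mul_le_mul hE hQ
      _ = 112 * a * (lam ^ 2) := by ring
  have h2 : cp + 1 ≤ (Kp + 1) * (lam ^ (3 * kp) * W) := by
    have h3 : 1 ≤ lam ^ (3 * kp) * W := Nat.mul_pos (Nat.pow_pos hl) hW
    rw [add_mul, one_mul]
    exact Nat.add_le_add hcp h3
  calc cs ≤ Cs * (E * Q) ^ ks * (cp + 1) := hcs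
    _ ≤ Cs * (112 * a * (lam ^ 2)) ^ ks * ((Kp + 1) * (lam ^ (3 * kp) * W)) :=
      Nat.mul_le_mul (Nat.mul_le_mul_left _ (Nat.pow_le_pow_left h1 _)) h2
    _ = Cs * (112 * a) ^ ks * (Kp + 1) * (lam ^ (2 * ks + 3 * kp) * W) := by
      rw [mul_pow, ← pow_mul, pow_add]; ring
    _ ≤ Cs * (112 * a) ^ ks * (Kp + 1) * (lam ^ k * W) :=
      Nat.mul_le_mul_left _ (Nat.mul_le_mul_right _ (Nat.pow_le_pow_right hl hk))

theorem num_all (h0 : SpecUnits) (c Cf kf Cs ks Cp kp : ℕ) : ∃ K k : ℕ, ∀ q d cf bl cs cp s : ℕ,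
    1 ≤ d → q ≤ c * d ^ c → cf ≤ Cf * (EE d * lgc q) ^ kf → bl ≤ lgc q →
    cs ≤ Cs * (EE d * lgc q) ^ ks * (cp + 1) → cp ≤ Cp * PL (2 ^ jj d) q d ^ kp * ww (d + 1) →
    s ≤ 10 * (d * d) →
    (100000 * (d + 1) + 1000 + 20 * 2 ^ jj d) + (20 * 2 ^ jj d + 8) +
      1000 * ((EE d + 1) * (EE d + 1)) + (24 * (8 * EE d * EE d) + 8) +
      cf + (15 * EE d + 20) +
      (17 * bl + 5) + ((17 * (d + 1) + 18) * (d + 1) + 5) +
      ((24 * EE d + 60) * Rn d + 24) +
      cs + (20 * s + 8) + 76 ≤ K * lgc d ^ k * ww (K * d) := by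
  obtain ⟨-, hwm, -, -, -, -, hww, -⟩ := h0
  refine ⟨Cf * (112 * (c + 1)) ^ kf + Cs * (112 * (c + 1)) ^ ks *
    (Cp * (226 * (c + 1)) ^ kp + 1) + 17 * (c + 1) + 50000000,
    2 + 2 * kf + 2 * ks + 3 * kp, ?_⟩
  intro q d cf bl cs cp s hd hq hcf hbl hcs hcp hs
  have hl := lgc_pos d
  have hQ := lgc_q hq
  have hE := EE_le hd
  have hEe := EE_eq d
  have hL1 := lgc_succ hd
  have hR := Rn_le hd
  have hdd : d * d ≤ ww (2 * d) := le_trans (by nlinarith) (hww (2 * d))
  have hW : 1 ≤ ww (2 * d) := le_trans (Nat.mul_pos hd hd) hdd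
  have hw1 : ww (d + 1) ≤ ww (2 * d) := hwm _ _ (by omega)
  have hPL : PL (2 ^ jj d) q d = (2 ^ jj d + 1) * lgc q * lgc (d + 1) := rfl
  rw [hPL] at hcp
  generalize 2 ^ jj d = e at *
  generalize EE d = E at *
  generalize Rn d = R at *
  generalize lgc q = Q at *
  generalize lgc (d + 1) = L1 at *
  have hKd : ∀ K, 2 ≤ K → ww (2 * d) ≤ ww (K * d) := fun K hK => hwm _ _ (Nat.mul_le_mul_right _ hK)
  generalize hWd : ww (2 * d) = W at *
  generalize lgc d = lam at *
  have t1 := num_find hl hW hE hQ hcf (k := 2 + 2 * kf + 2 * ks + 3 * kp) (by omega)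
  have t2 := num_full hl (e := e) (by omega) hQ hL1 hw1 hcp
  have t3 := num_sim hl hW hE hQ hcs t2 (k := 2 + 2 * kf + 2 * ks + 3 * kp) (by omega)
  have hpw : lam * lam ≤ lam ^ (2 + 2 * kf + 2 * ks + 3 * kp) := by
    rw [← pow_two]
    exact Nat.pow_le_pow_right hl (by omega)
  generalize hΛ : lam ^ (2 + 2 * kf + 2 * ks + 3 * kp) = pw at *
  have u1 : lam * lam * (d * d) ≤ pw * W := Nat.mul_le_mul hpw hdd
  have u2 : d * d ≤ lam * lam * (d * d) := Nat.le_mul_of_pos_left _ (Nat.mul_pos hl hl)
  have u3 : lam * lam ≤ lam * lam * (d * d) := Nat.le_mul_of_pos_right _ (Nat.mul_pos hd hd)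
  have u4 : lam ≤ lam * lam := Nat.le_mul_self _
  have u5 : d ≤ d * d := Nat.le_mul_self _
  have u6 : E * E ≤ (112 * lam) * (112 * lam) := Nat.mul_le_mul hE hE
  have u7 : (24 * E + 60) * R ≤ (2748 * lam) * (40 * (lam * (d * d))) :=
    Nat.mul_le_mul (by omega) hR
  have u8 : (112 * lam) * (112 * lam) = 12544 * (lam * lam) := by ring
  have u9 : (2748 * lam) * (40 * (lam * (d * d))) = 109920 * (lam * lam * (d * d)) := by ring
  have u10 : (E + 1) * (E + 1) = E * E + 2 * E + 1 := by ring
  have u11 : 24 * (8 * E * E) = 192 * (E * E) := by ring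
  have u12 : (17 * (d + 1) + 18) * (d + 1) = 17 * (d * d) + 52 * d + 35 := by ring
  have u13 : bl ≤ (c + 1) * (lam * lam * (d * d)) := by
    refine hbl.trans (hQ.trans (Nat.mul_le_mul_left _ (u4.trans u3)))
  have u14 : (c + 1) * (lam * lam * (d * d)) ≤ (c + 1) * (pw * W) := Nat.mul_le_mul_left _ u1
  rw [u8] at u6
  rw [u9] at u7
  rw [u10, u11, u12]
  have u15 : 1 ≤ lam * lam * (d * d) := Nat.mul_pos (Nat.mul_pos hl hl) (Nat.mul_pos hd hd)
  have key : 100000 * (d + 1) + 1000 + 20 * e + (20 * e + 8) + 1000 * (E * E + 2 * E + 1) +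
      (192 * (E * E) + 8) + cf + (15 * E + 20) + (17 * bl + 5) +
      (17 * (d * d) + 52 * d + 35 + 5) + ((24 * E + 60) * R + 24) + cs + (20 * s + 8) + 76 ≤
      Cf * (112 * (c + 1)) ^ kf * (pw * W) +
      Cs * (112 * (c + 1)) ^ ks * (Cp * (226 * (c + 1)) ^ kp + 1) * (pw * W) +
      17 * ((c + 1) * (pw * W)) + 50000000 * (pw * W) := by
    generalize (24 * E + 60) * R = x1 at *
    generalize E * E = x2 at *
    generalize Cf * (112 * (c + 1)) ^ kf * (pw * W) = x3 at *
    generalize Cs * (112 * (c + 1)) ^ ks * (Cp * (226 * (c + 1)) ^ kp + 1) * (pw * W) = x4 at *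
    generalize (c + 1) * (lam * lam * (d * d)) = x5 at *
    generalize (c + 1) * (pw * W) = x6 at *
    generalize lam * lam * (d * d) = x7 at *
    generalize lam * lam = x8 at *
    generalize d * d = x9 at *
    generalize pw * W = x10 at *
    omega
  refine key.trans ?_
  have hK := hKd (Cf * (112 * (c + 1)) ^ kf + Cs * (112 * (c + 1)) ^ ks *
    (Cp * (226 * (c + 1)) ^ kp + 1) + 17 * (c + 1) + 50000000) (by omega)
  refine le_trans (le_of_eq ?_) (Nat.mul_le_mul_left _ hK)
  ring

end E8


namespace E8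

theorem count {α : Type} [Fintype α] (N1 N2 q : ℕ) (hq : Fintype.card α = q)
    (G : (Fin (N1 + N2) → α) → Prop) (B : (Fin N1 → α) → Prop)
    (h1 : 50 * Nat.card {r1 // ¬ B r1} ≤ q ^ N1)
    (h2 : ∀ r1, B r1 → 9 * Nat.card {r2 : Fin N2 → α // ¬ G (Fin.append r1 r2)} ≤ q ^ N2) :
    2 * q ^ (N1 + N2) ≤ 3 * Nat.card {r // G r} := by
  classical
  have hA : ∀ n : ℕ, Nat.card (Fin n → α) = q ^ n := by
    intro n
    rw [Nat.card_eq_fintype_card, Fintype.card_fun, hq, Fintype.card_fin]
  have e1 : Nat.card {r // G r} + Nat.card {r // ¬ G r} = q ^ (N1 + N2) := by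
    rw [← hA (N1 + N2), Nat.card_eq_fintype_card, Nat.card_eq_fintype_card,
      Nat.card_eq_fintype_card, Fintype.card_subtype_compl, add_comm,
      Nat.sub_add_cancel (Fintype.card_subtype_le _)]
  have e2 : Nat.card {r // ¬ G r} =
      ∑ r1 : Fin N1 → α, Nat.card {r2 : Fin N2 → α // ¬ G (Fin.append r1 r2)} := by
    rw [← Nat.card_sigma]
    apply Nat.card_congr
    refine Equiv.trans ?_ (Equiv.subtypeProdEquivSigmaSubtype
      (fun (r1 : Fin N1 → α) (r2 : Fin N2 → α) => ¬ G (Fin.append r1 r2)))
    exact ((Fin.appendEquiv N1 N2).subtypeEquiv (fun x => Iff.rfl)).symm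
  have e3 : ∀ r1 : Fin N1 → α, 9 * Nat.card {r2 : Fin N2 → α // ¬ G (Fin.append r1 r2)} ≤
      q ^ N2 + if ¬ B r1 then 8 * q ^ N2 else 0 := by
    intro r1
    by_cases hB : B r1
    · rw [if_neg (not_not.2 hB)]
      exact h2 r1 hB
    · rw [if_pos hB]
      have : Nat.card {r2 : Fin N2 → α // ¬ G (Fin.append r1 r2)} ≤ q ^ N2 := by
        rw [← hA N2]
        exact Nat.card_le_card_of_injective _ Subtype.val_injective
      omega
  have e4 : 9 * Nat.card {r // ¬ G r} ≤ q ^ N1 * q ^ N2 + Nat.card {r1 // ¬ B r1} * (8 * q ^ N2) := by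
    rw [e2, Finset.mul_sum]
    refine (Finset.sum_le_sum fun r1 _ => e3 r1).trans ?_
    rw [Finset.sum_add_distrib, Finset.sum_const, Finset.card_univ, ← Nat.card_eq_fintype_card,
      hA N1, smul_eq_mul, ← Finset.sum_filter, Finset.sum_const, smul_eq_mul,
      Nat.card_eq_fintype_card, Fintype.card_subtype]
  have e5 : 450 * Nat.card {r // ¬ G r} ≤ 58 * (q ^ N1 * q ^ N2) := by
    have : 50 * Nat.card {r1 // ¬ B r1} * (8 * q ^ N2) ≤ q ^ N1 * (8 * q ^ N2) :=
      Nat.mul_le_mul_right _ h1
    nlinarith
  rw [pow_add] at e1 ⊢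
  omega

section phi
variable {F L : Type} [Field F] [Field L] [Algebra F L]

/-- from the random elements of the small field to those of the large field -/
noncomputable def Phi (θ : L) (E n : ℕ) (r : Fin (E * n) → F) (i : Fin n) : L :=
  aeval θ (pol ((chunks E n (List.ofFn r)).getD i []))

theorem Phi_chunks {P : List F} {θ : L} {enc : L → List F} (h : EncOK F L P θ enc) {E : ℕ}
    (hE : P.length = E) (n : ℕ) (r : Fin (E * n) → F) :
    List.map enc (List.ofFn (Phi θ E n r)) = chunks E n (List.ofFn r) := by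
  have hlen : (List.ofFn r).length = E * n := List.length_ofFn
  apply List.ext_getElem
  · rw [List.length_map, List.length_ofFn, length_chunks]
  · intro i h1 h2
    rw [List.getElem_map, List.getElem_ofFn, Phi, h.enc_dec]
    · exact List.getD_eq_getElem _ _ h2
    · show ((chunks E n (List.ofFn r)).getD i []).length = P.length
      rw [List.getD_eq_getElem _ _ h2, hE]
      exact mem_chunks E n _ hlen _ (List.getElem_mem _)

theorem Phi_inj {P : List F} {θ : L} {enc : L → List F} (h : EncOK F L P θ enc) {E : ℕ}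
    (hE : P.length = E) (n : ℕ) : Function.Injective (Phi (F := F) θ E n) := by
  intro r r' hr
  have h1 := Phi_chunks h hE n r
  have h2 := Phi_chunks h hE n r'
  rw [hr, h2] at h1
  have h3 := flatten_chunks E n (List.ofFn r) List.length_ofFn
  have h4 := flatten_chunks E n (List.ofFn r') List.length_ofFn
  rw [← h1, h4] at h3
  exact (List.ofFn_injective h3).symm

end phi
end E8

theorem specMain (h1 : SpecFull) (h2 : SpecSim) (h3 : SpecFind) (h4 : SpecCalc) (h0 : SpecUnits) :
    SpecMain := by
  obtain ⟨p, Cp, kp, hp⟩ := h1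
  obtain ⟨sm, Cs, ks, hsm⟩ := h2 E8.tin E8.tout p
  obtain ⟨fd, Cf, kf, hfd⟩ := h3
  refine ⟨E8.mainP fd sm, fun c => ?_⟩
  obtain ⟨K, k, hK⟩ := E8.num_all h0 c Cf kf Cs ks Cp kp
  obtain ⟨C, hC⟩ := h4 k K
  refine ⟨C, ?_⟩
  intro F _ _ _ d H hd hq hH hT
  have hq2 : 2 ≤ Fintype.card F := Fintype.one_lt_card
  obtain ⟨q, hqF⟩ : ∃ q, Fintype.card F = q := ⟨_, rfl⟩
  rw [hqF] at hq hq2 ⊢
  obtain ⟨hf1, hf2⟩ := hfd F q (jj d + 1) hqF (by omega)
  refine E8.count (8 * EE d * EE d) (EE d * Rn d) q hqF _
    (fun r1 => List.length (fd.val () (bits F q, (un (EE d), List.ofFn r1)) : List F) = EE d ∧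
      Irreducible (mpol (fd.val () (bits F q, (un (EE d), List.ofFn r1)) : List F))) hf1 ?_
  rintro r1 ⟨hPl, hirr⟩
  have hcf := hf2 r1
  change fd.cost () () (bits F q, (un (EE d), List.ofFn r1)) ≤ Cf * (EE d * lgc q) ^ kf at hcf
  obtain ⟨P, hP⟩ : ∃ P : List F, fd.val () (bits F q, (un (EE d), List.ofFn r1)) = P := ⟨_, rfl⟩
  rw [hP] at hPl hirr
  have : Fact (Irreducible (mpol P)) := ⟨hirr⟩
  have hE := E8.encOK P (by rw [hPl]; have := E8.EE_pos d; omega)
  have hfin : Module.Finite F (AdjoinRoot (mpol P)) := (E8.mpol_monic P).finite_adjoinRoot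
  have : Finite (AdjoinRoot (mpol P)) := Module.finite_of_finite F
  let _ : Fintype (AdjoinRoot (mpol P)) := Fintype.ofFinite _
  classical
  have hcard := E8.card_ext P
  rw [hqF, hPl] at hcard
  have hmain := hp F (AdjoinRoot (mpol P)) q (2 ^ jj d) d H hqF (by rw [hcard, E8.EE_eq])
    Nat.one_le_two_pow hH hd hT (E8.big_field hq2)
  refine le_trans (Nat.mul_le_mul_left 9 ?_) (hmain.trans (le_of_eq ?_))
  swap
  · rw [hcard, ← pow_mul]
  refine Nat.card_le_card_of_injective (Subtype.map
    (E8.Phi (F := F) (AdjoinRoot.root (mpol P)) (EE d) (Rn d)) ?_)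
    (Subtype.map_injective _ (E8.Phi_inj hE hPl (Rn d)))
  intro r2 hG hex
  apply hG
  obtain ⟨out, hfac, hval, hcost⟩ := hex
  obtain ⟨hs1, hs2⟩ := hsm F (AdjoinRoot (mpol P)) q P (AdjoinRoot.root (mpol P)) (E8.encL P) hqF hE
    ((bits (AdjoinRoot (mpol P)) q, un (2 ^ jj d)), (Ty.map (algebraMap F (AdjoinRoot (mpol P))) Ma H,
      List.ofFn (E8.Phi (F := F) (AdjoinRoot.root (mpol P)) (EE d) (Rn d) r2)))
  obtain ⟨hc1, hc2⟩ := E8.core fd p sm (q := q) (d := d) hH (rs1 := List.ofFn r1)
    (rs2 := List.ofFn r2) List.length_ofFn List.length_ofFn hP hPl hE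
    (E8.Phi_chunks hE hPl (Rn d) r2) hval hs1
  rw [hPl] at hs2
  have hnum := hK q d _ _ _ _ (E8.sz out) hd hq hcf (E8.length_bits F q) hs2 hcost
    (E8.sz_le hH hT hfac)
  have hcc := hc2.trans hnum
  have hreal := hC d hd
  show FacGood (hom H) ((E8.mainP fd sm).val () (bits F q, (H, List.ofFn (Fin.append r1 r2)))) ∧
    ((E8.mainP fd sm).cost () () (bits F q, (H, List.ofFn (Fin.append r1 r2))) : ℝ) ≤
      C * (d : ℝ) ^ (29 / 10 : ℝ)
  rw [List.ofFn_fin_append, hc1]
  exact ⟨hfac, le_trans (by exact_mod_cast hcc) hreal⟩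

end Pool.Agent.H330FB.JE8
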