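import Pool.Agent.H330FB.Spec4
import Pool.Agent.H330FB.FinalDefs

set_option autoImplicit false

/-!
# Exact statements on programs, part 5: a clock
-/

namespace Pool.Agent.H330FB

open Polynomial

/-- every program has a clocked version: it stops after a number of steps proportional to the
given budget, and it returns the result if the budget suffices -/
def SpecClock : Prop := ∀ (a b : Ty) (p : Pr [] a b),
  ∃ (p' : Pr [] (.prod Un a) (.list b)) (D : ℕ),
  ∀ (F : Type) [Field F] [DecidableEq F] (u : List Unit) (x : Ty.D F a),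
    p'.cost () () (u, x) ≤ D * (u.length + 1) ∧
    (p.cost () () x ≤ u.length → p'.val () (u, x) = [p.val () x])

/-- the main statement with an explicit cost bound for all fields -/
def SpecMainA : Prop := ∃ (main : Pr [] (.prod Po (.prod Ma Po)) (.list (.prod Ma Un)))
  (C k : ℕ), ∀ (F : Type) [Field F] [Fintype F] [DecidableEq F] (d : ℕ)
  (H : List (List F)), 1 ≤ d → IsHom d H → TopNe d H →
  2 * Fintype.card F ^ RR d ≤
    3 * Nat.card {r : Fin (RR d) → F //
      FacGood (hom H) (main.val () (bits F (Fintype.card F), (H, List.ofFn r))) ∧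
      main.cost () () (bits F (Fintype.card F), (H, List.ofFn r)) ≤
        C * (lgc (Fintype.card F) * lgc d) ^ k * ww (d + 1)}

/-- computation of a budget; input `(bits q, list of length d + 1)` -/
def SpecBudget : Prop := ∀ C k : ℕ, ∃ (p : Pr [] (.prod Po Ma) Un) (C' k' : ℕ),
  ∀ (F : Type) [Field F] [DecidableEq F] (q d : ℕ) (H : List (List F)), 1 ≤ q → 1 ≤ d →
  H.length = d + 1 →
  C * (lgc q * lgc d) ^ k * ww (d + 1) ≤ List.length (p.val () (bits F q, H)) ∧
  List.length (p.val () (bits F q, H)) ≤ C' * (lgc q * lgc d) ^ k' * ww (d + 1) ∧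
  p.cost () () (bits F q, H) ≤ C' * (lgc q * lgc d) ^ k' * ww (d + 1)

/-- the main statement with a cost bound for all random choices -/
def SpecMainB : Prop := ∃ (main : Pr [] (.prod Po (.prod Ma Po)) (.list (.prod Ma Un)))
  (C k : ℕ), ∀ (F : Type) [Field F] [Fintype F] [DecidableEq F] (d : ℕ)
  (H : List (List F)), 1 ≤ d → IsHom d H → TopNe d H →
  (∀ r : List F, main.cost () () (bits F (Fintype.card F), (H, r)) ≤
    C * (lgc (Fintype.card F) * lgc d) ^ k * ww (d + 1)) ∧
  2 * Fintype.card F ^ RR d ≤
    3 * Nat.card {r : Fin (RR d) → F //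
      FacGood (hom H) (main.val () (bits F (Fintype.card F), (H, List.ofFn r)))}

/-- the final statement: the time bound holds for all random lists -/
def FinalStmt2 : Prop :=
  ∃ main : Pr [] (.prod (.list .fld) (.prod (.list (.list .fld)) (.list .fld)))
      (.list (.prod (.list (.list .fld)) (.list .unit))),
  ∀ c : ℕ, ∃ C : ℝ, ∀ (F : Type) [Field F] [Fintype F] [DecidableEq F] (d : ℕ)
    (f : MvPolynomial (Fin 2) F), 1 ≤ d → f.totalDegree = d → Fintype.card F ≤ c * d ^ c →
    (∀ ω : List F,
      (main.cost () () (binary F (Fintype.card F), (coeffRows d f, ω)) : ℝ) ≤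
        C * (d : ℝ) ^ (3 - 1 / 10 : ℝ)) ∧
    2 * Fintype.card F ^ numRandom d ≤
      3 * Nat.card {ω : Fin (numRandom d) → F //
        IsFactorization f
          (main.val () (binary F (Fintype.card F), (coeffRows d f, List.ofFn ω)))}

end Pool.Agent.H330FB
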