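import Pool.Agent.H330FB.Lib4

set_option autoImplicit false

/-!
# A small library of list programs (continued)
-/

namespace Pool.Agent.H330FB

variable {F : Type} [Field F] [DecidableEq F]
variable {s : List (Ty × Ty)} {a b c d e g σ τ : Ty}

/-! ### closed programs in a context of recursive functions -/

/-- a closed program may be used inside a recursion -/
def liftP : (s : List (Ty × Ty)) → {a b : Ty} → Pr [] a b → Pr s a b
  | [], _, _, p => p
  | _ :: s, _, _, p => .up (liftP s p)

@[simp] theorem val_liftP (s : List (Ty × Ty)) {a b : Ty} (p : Pr [] a b) (v : SV F s)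
    (x : Ty.D F a) : (liftP s p).val v x = p.val () x := by
  induction s with
  | nil => rfl
  | cons h t ih => exact ih v.2

@[simp] theorem cost_liftP (s : List (Ty × Ty)) {a b : Ty} (p : Pr [] a b) (v : SV F s)
    (k : SC F s) (x : Ty.D F a) : (liftP s p).cost v k x = p.cost () () x := by
  induction s with
  | nil => rfl
  | cons h t ih => exact ih v.2 k.2

/-! ### an unfolding: chunks -/

/-- `k` consecutive pieces of length `n` -/
def chunks {α : Type} (n : ℕ) : ℕ → List α → List (List α)
  | 0, _ => []
  | k + 1, l => l.take n :: chunks n k (l.drop n)

/-- input `(u, (w, l))`: `u.length` consecutive pieces of length `w.length` of `l` -/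
def chunksP : Pr s (.prod (.list b) (.prod (.list c) (.list a))) (.list (.list a)) :=
  .recD (lt splitP (.comp (.pair (.comp .snd .fst)
    (.comp (.pair (.comp .fst .fst) (.comp .snd .snd)) .self)) .cons)) .nil

@[simp] theorem val_chunksP (v : SV F s)
    (x : Ty.D F (.prod (.list b) (.prod (.list c) (.list a)))) :
    (chunksP : Pr s (.prod (.list b) (.prod (.list c) (.list a))) _).val v x =
      chunks (List.length x.2.1) (List.length x.1) x.2.2 := by
  obtain ⟨u, w, l⟩ := x
  simp only [chunksP, val_recD]
  generalize List.length u = n
  induction n generalizing l with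
  | zero => simp [goV, chunks]
  | succ n ih => simp [goV, chunks, ih]

theorem cost_chunksP (v : SV F s) (k : SC F s)
    (x : Ty.D F (.prod (.list b) (.prod (.list c) (.list a)))) :
    (chunksP : Pr s (.prod (.list b) (.prod (.list c) (.list a))) _).cost v k x ≤
      (24 * List.length x.2.1 + 30) * List.length x.1 + 2 := by
  obtain ⟨u, w, l⟩ := x
  simp only [chunksP, cost_recD]
  generalize List.length u = n
  induction n generalizing l with
  | zero => simp [goC]
  | succ n ih =>
    have := ih (l.drop w.length)
    simp [goC] at this ⊢
    have h2 := cost_splitP (s := (.prod (.list c) (.list a), .list (.list a)) :: s) (F := F)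
      (goV (lt splitP (.comp (.pair (.comp .snd .fst)
        (.comp (.pair (.comp .fst .fst) (.comp .snd .snd)) .self)) .cons)) .nil v n, v)
      (goC (lt splitP (.comp (.pair (.comp .snd .fst)
        (.comp (.pair (.comp .fst .fst) (.comp .snd .snd)) .self)) .cons)) .nil v k n, k) (w, l)
    simp at h2
    nlinarith

/-! ### transposition -/

/-- transpose of a matrix with `n` columns given by rows -/
def transp {α : Type} (n : ℕ) (A : List (List α)) : List (List α) :=
  A.foldr (fun r acc => List.zipWith (fun x l => x :: l) r acc) (List.replicate n [])

/-- input `(number of columns, rows)` -/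
def transpP : Pr s (.prod (.list b) (.list (.list a))) (.list (.list a)) :=
  .comp (.pair .star (.pair (.comp (.comp (.pair .star .fst) (mapP (c := .unit) .nil)) .id)
    (.comp .snd revP)))
    (foldP (c := .unit) (.comp (.pair .star (.pair (.comp .snd .snd) (.comp .snd .fst)))
      (zipP (c := .unit) (.comp .snd .cons))))

@[simp] theorem val_transpP (v : SV F s) (x : Ty.D F (.prod (.list b) (.list (.list a)))) :
    (transpP : Pr s (.prod (.list b) (.list (.list a))) _).val v x =
      transp (List.length x.1) x.2 := by
  obtain ⟨u, A⟩ := x
  have : List.map (fun _ : Ty.D F b => ([] : List (Ty.D F a))) u = List.replicate u.length [] := by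
    induction u with
    | nil => rfl
    | cons h t ih => simp [List.replicate_succ, ih]
  simp [transpP, transp, this]

theorem length_transp {α : Type} (n : ℕ) (A : List (List α)) (h : ∀ r ∈ A, r.length = n) :
    (transp n A).length = n := by
  induction A with
  | nil => simp [transp]
  | cons r A ih =>
    have h1 := ih (fun r hr => h r (by simp [hr]))
    have h2 := h r (by simp)
    simp only [transp, List.foldr_cons, List.length_zipWith] at h1 ⊢
    omega

theorem cost_transpP (v : SV F s) (k : SC F s) (x : Ty.D F (.prod (.list b) (.list (.list a))))
    (h : ∀ r ∈ x.2, List.length r = List.length x.1) :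
    (transpP : Pr s (.prod (.list b) (.list (.list a))) _).cost v k x ≤
      (51 * List.length x.1 + 90) * (List.length x.2 + 1) := by
  obtain ⟨u, A⟩ := x
  have h1 := cost_mapP_le (s := s) (c := .unit) (a := b) (b := .list a) .nil v k ((), u) 1
    (fun _ _ => by simp)
  have h2 := cost_revP (s := s) v k A
  have h3 := cost_foldP_le (s := s) (c := .unit) (b := .list (.list a)) (a := .list a)
    (.comp (.pair .star (.pair (.comp .snd .snd) (.comp .snd .fst)))
      (zipP (c := .unit) (.comp .snd .cons))) v k
    ((), (List.map (fun _ : Ty.D F b => ([] : List (Ty.D F a))) u, List.reverse A))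
    (51 * u.length + 24) (fun _ => True) trivial (fun _ _ _ _ => trivial)
    (fun y z _ hz => by
      have e := cost_zipP_le (s := s) (c := .unit) (a := a) (b := .list a) (d := .list a)
        (.comp .snd .cons) v k ((), (z, y)) 2 (fun _ _ _ _ => by simp)
      have e2 := h z (by simpa using hz)
      simp at e e2 ⊢
      rw [e2] at e
      omega)
  simp [transpP] at h1 h2 h3 ⊢
  nlinarith

end Pool.Agent.H330FB
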