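import Pool.Agent.H330FB.JE8
import Pool.Agent.H330FB.Lib5
import Pool.Agent.H330FB.Spec5
set_option autoImplicit false
noncomputable section
namespace Pool.Agent.H330FB.JC2
open Polynomial

/-- all costs together, with an explicit bound -/
theorem num_allA (h0 : SpecUnits) (Cf kf Cs ks Cp kp : ℕ) :
    ∃ K k : ℕ, ∀ q d cf bl cs cp s : ℕ,
    1 ≤ d → cf ≤ Cf * (EE d * lgc q) ^ kf → bl ≤ lgc q →
    cs ≤ Cs * (EE d * lgc q) ^ ks * (cp + 1) → cp ≤ Cp * PL (2 ^ jj d) q d ^ kp * ww (d + 1) →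
    s ≤ 10 * (d * d) →
    (100000 * (d + 1) + 1000 + 20 * 2 ^ jj d) + (20 * 2 ^ jj d + 8) +
      1000 * ((EE d + 1) * (EE d + 1)) + (24 * (8 * EE d * EE d) + 8) +
      cf + (15 * EE d + 20) +
      (17 * bl + 5) + ((17 * (d + 1) + 18) * (d + 1) + 5) +
      ((24 * EE d + 60) * Rn d + 24) +
      cs + (20 * s + 8) + 76 ≤ K * (lgc q * lgc d) ^ k * ww (d + 1) := by
  obtain ⟨-, hwm, -, -, -, -, hww, -⟩ := h0
  refine ⟨Cf * (112 * 1) ^ kf + Cs * (112 * 1) ^ ks *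
    (Cp * (226 * 1) ^ kp + 1) + 50000017,
    2 + 2 * kf + 2 * ks + 3 * kp, ?_⟩
  intro q d cf bl cs cp s hd hcf hbl hcs hcp hs
  have hl0 := JE8.E8.lgc_pos d
  have hq0 := JE8.E8.lgc_pos q
  have hl : 1 ≤ lgc q * lgc d := Nat.mul_pos hq0 hl0
  have hd1 : lgc d ≤ lgc q * lgc d := Nat.le_mul_of_pos_left _ hq0
  have hQ : lgc q ≤ 1 * (lgc q * lgc d) := by
    rw [one_mul]; exact Nat.le_mul_of_pos_right _ hl0
  have hE : EE d ≤ 112 * (lgc q * lgc d) := (JE8.E8.EE_le hd).trans (Nat.mul_le_mul_left _ hd1)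
  have hEe := JE8.E8.EE_eq d
  have hL1 : lgc (d + 1) ≤ 2 * (lgc q * lgc d) :=
    (JE8.E8.lgc_succ hd).trans (Nat.mul_le_mul_left _ hd1)
  have hR : Rn d ≤ 40 * (lgc q * lgc d * (d * d)) :=
    (JE8.E8.Rn_le hd).trans (Nat.mul_le_mul_left _ (Nat.mul_le_mul_right _ hd1))
  have hdd : d * d ≤ ww (d + 1) := le_trans (by nlinarith) (hww (d + 1))
  have hW : 1 ≤ ww (d + 1) := le_trans (Nat.mul_pos hd hd) hdd
  have hPL : PL (2 ^ jj d) q d = (2 ^ jj d + 1) * lgc q * lgc (d + 1) := rfl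
  rw [hPL] at hcp
  generalize 2 ^ jj d = e at *
  generalize EE d = E at *
  generalize Rn d = R at *
  generalize lgc (d + 1) = L1 at *
  generalize hWd : ww (d + 1) = W at *
  generalize lgc q * lgc d = lam at *
  generalize lgc q = Q at *
  have t1 := JE8.E8.num_find hl hW hE hQ hcf (k := 2 + 2 * kf + 2 * ks + 3 * kp) (by omega)
  have t2 := JE8.E8.num_full hl (e := e) (by omega) hQ hL1 le_rfl hcp
  have t3 := JE8.E8.num_sim hl hW hE hQ hcs t2 (k := 2 + 2 * kf + 2 * ks + 3 * kp) (by omega)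
  have hpw : lam * lam ≤ lam ^ (2 + 2 * kf + 2 * ks + 3 * kp) := by
    rw [← pow_two]
    exact Nat.pow_le_pow_right hl (by omega)
  generalize hΛ : lam ^ (2 + 2 * kf + 2 * ks + 3 * kp) = pw at *
  have u1 : lam * lam * (d * d) ≤ pw * W := Nat.mul_le_mul hpw hdd
  have u2 : d * d ≤ lam * lam * (d * d) := Nat.le_mul_of_pos_left _ (Nat.mul_pos hl hl)
  have u3 : lam * lam ≤ lam * lam * (d * d) := Nat.le_mul_of_pos_right _ (Nat.mul_pos hd hd)
  have u4 : lam ≤ lam * lam := Nat.le_mul_self _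
  have u5 : d ≤ d * d := Nat.le_mul_self _
  have u6 : E * E ≤ (112 * lam) * (112 * lam) := Nat.mul_le_mul hE hE
  have u7 : (24 * E + 60) * R ≤ (2748 * lam) * (40 * (lam * (d * d))) :=
    Nat.mul_le_mul (by omega) hR
  have u8 : (112 * lam) * (112 * lam) = 12544 * (lam * lam) := by ring
  have u9 : (2748 * lam) * (40 * (lam * (d * d))) = 109920 * (lam * lam * (d * d)) := by ring
  have u10 : (E + 1) * (E + 1) = E * E + 2 * E + 1 := by ring
  have u11 : 24 * (8 * E * E) = 192 * (E * E) := by ring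
  have u12 : (17 * (d + 1) + 18) * (d + 1) = 17 * (d * d) + 52 * d + 35 := by ring
  have u13 : bl ≤ lam * lam * (d * d) := by
    rw [one_mul] at hQ
    exact hbl.trans (hQ.trans (u4.trans u3))
  rw [u8] at u6
  rw [u9] at u7
  rw [u10, u11, u12]
  have u15 : 1 ≤ lam * lam * (d * d) := Nat.mul_pos (Nat.mul_pos hl hl) (Nat.mul_pos hd hd)
  have key : 100000 * (d + 1) + 1000 + 20 * e + (20 * e + 8) + 1000 * (E * E + 2 * E + 1) +
      (192 * (E * E) + 8) + cf + (15 * E + 20) + (17 * bl + 5) +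
      (17 * (d * d) + 52 * d + 35 + 5) + ((24 * E + 60) * R + 24) + cs + (20 * s + 8) + 76 ≤
      Cf * (112 * 1) ^ kf * (pw * W) +
      Cs * (112 * 1) ^ ks * (Cp * (226 * 1) ^ kp + 1) * (pw * W) +
      50000017 * (pw * W) := by
    generalize (24 * E + 60) * R = x1 at *
    generalize E * E = x2 at *
    generalize Cf * (112 * 1) ^ kf * (pw * W) = x3 at *
    generalize Cs * (112 * 1) ^ ks * (Cp * (226 * 1) ^ kp + 1) * (pw * W) = x4 at *
    generalize lam * lam * (d * d) = x7 at *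
    generalize lam * lam = x8 at *
    generalize d * d = x9 at *
    generalize pw * W = x10 at *
    omega
  refine key.trans (le_of_eq ?_)
  ring

/-- This is `SpecMain` with an explicit bound instead of `SpecCalc`. -/
theorem specMainA (h1 : SpecFull) (h2 : SpecSim) (h3 : SpecFind) (h0 : SpecUnits) : SpecMainA := by
  obtain ⟨p, Cp, kp, hp⟩ := h1
  obtain ⟨sm, Cs, ks, hsm⟩ := h2 JE8.E8.tin JE8.E8.tout p
  obtain ⟨fd, Cf, kf, hfd⟩ := h3
  obtain ⟨K, k, hK⟩ := num_allA h0 Cf kf Cs ks Cp kp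
  refine ⟨JE8.E8.mainP fd sm, K, k, ?_⟩
  intro F _ _ _ d H hd hH hT
  have hq2 : 2 ≤ Fintype.card F := Fintype.one_lt_card
  obtain ⟨q, hqF⟩ : ∃ q, Fintype.card F = q := ⟨_, rfl⟩
  rw [hqF] at hq2 ⊢
  obtain ⟨hf1, hf2⟩ := hfd F q (jj d + 1) hqF (by omega)
  refine JE8.E8.count (8 * EE d * EE d) (EE d * Rn d) q hqF _
    (fun r1 => List.length (fd.val () (bits F q, (un (EE d), List.ofFn r1)) : List F) = EE d ∧
      Irreducible (mpol (fd.val () (bits F q, (un (EE d), List.ofFn r1)) : List F))) hf1 ?_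
  rintro r1 ⟨hPl, hirr⟩
  have hcf := hf2 r1
  change fd.cost () () (bits F q, (un (EE d), List.ofFn r1)) ≤ Cf * (EE d * lgc q) ^ kf at hcf
  obtain ⟨P, hP⟩ : ∃ P : List F, fd.val () (bits F q, (un (EE d), List.ofFn r1)) = P := ⟨_, rfl⟩
  rw [hP] at hPl hirr
  have : Fact (Irreducible (mpol P)) := ⟨hirr⟩
  have hE := JE8.E8.encOK P (by rw [hPl]; have := JE8.E8.EE_pos d; omega)
  have hfin : Module.Finite F (AdjoinRoot (mpol P)) := (JE8.E8.mpol_monic P).finite_adjoinRoot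
  have : Finite (AdjoinRoot (mpol P)) := Module.finite_of_finite F
  let _ : Fintype (AdjoinRoot (mpol P)) := Fintype.ofFinite _
  classical
  have hcard := JE8.E8.card_ext P
  rw [hqF, hPl] at hcard
  have hmain := hp F (AdjoinRoot (mpol P)) q (2 ^ jj d) d H hqF (by rw [hcard, JE8.E8.EE_eq])
    Nat.one_le_two_pow hH hd hT (JE8.E8.big_field hq2)
  refine le_trans (Nat.mul_le_mul_left 9 ?_) (hmain.trans (le_of_eq ?_))
  swap
  · rw [hcard, ← pow_mul]
  refine Nat.card_le_card_of_injective (Subtype.map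
    (JE8.E8.Phi (F := F) (AdjoinRoot.root (mpol P)) (EE d) (Rn d)) ?_)
    (Subtype.map_injective _ (JE8.E8.Phi_inj hE hPl (Rn d)))
  intro r2 hG hex
  apply hG
  obtain ⟨out, hfac, hval, hcost⟩ := hex
  obtain ⟨hs1, hs2⟩ := hsm F (AdjoinRoot (mpol P)) q P (AdjoinRoot.root (mpol P))
    (JE8.E8.encL P) hqF hE
    ((bits (AdjoinRoot (mpol P)) q, un (2 ^ jj d)), (Ty.map (algebraMap F (AdjoinRoot (mpol P))) Ma H,
      List.ofFn (JE8.E8.Phi (F := F) (AdjoinRoot.root (mpol P)) (EE d) (Rn d) r2)))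
  obtain ⟨hc1, hc2⟩ := JE8.E8.core fd p sm (q := q) (d := d) hH (rs1 := List.ofFn r1)
    (rs2 := List.ofFn r2) List.length_ofFn List.length_ofFn hP hPl hE
    (JE8.E8.Phi_chunks hE hPl (Rn d) r2) hval hs1
  rw [hPl] at hs2
  have hnum := hK q d _ _ _ _ (JE8.E8.sz out) hd hcf (JE8.E8.length_bits F q) hs2 hcost
    (JE8.E8.sz_le hH hT hfac)
  have hcc := hc2.trans hnum
  show FacGood (hom H) ((JE8.E8.mainP fd sm).val () (bits F q, (H, List.ofFn (Fin.append r1 r2)))) ∧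
    (JE8.E8.mainP fd sm).cost () () (bits F q, (H, List.ofFn (Fin.append r1 r2))) ≤
      K * (lgc q * lgc d) ^ k * ww (d + 1)
  rw [List.ofFn_fin_append, hc1]
  exact ⟨hfac, hcc⟩

end Pool.Agent.H330FB.JC2
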