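import Pool.Agent.H330FB.Lib5
import Pool.Agent.H330FB.Spec5
set_option autoImplicit false
noncomputable section
namespace Pool.Agent.H330FB.JC1
open Polynomial

/-- types of the clocked version of a recursive function -/
abbrev tr (p : Ty × Ty) : Ty × Ty := (.prod Un p.1, .prod Un (.list p.2))

/-- a clocked function: it returns at most the fuel it gets, it gives the result of `f` if the
fuel is at least `c`, and its cost is bounded by `B` plus `D` times the consumed fuel -/
def GoodB {α β : Type} (B D : ℕ) (f : α → β) (c : α → ℕ)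
    (f' : List Unit × α → List Unit × List β) (c' : List Unit × α → ℕ) : Prop :=
  ∀ (u : List Unit) (x : α), (f' (u, x)).1.length ≤ u.length ∧
    (c x ≤ u.length → (f' (u, x)).2 = [f x] ∧ u.length ≤ (f' (u, x)).1.length + c x) ∧
    c' (u, x) ≤ B + D * (u.length - (f' (u, x)).1.length)

/-- the callable functions of the second context are clocked versions of those of the first -/
def Rel (F : Type) (D : ℕ) : (s : List (Ty × Ty)) → SV F s → SC F s →
    SV F (s.map tr) → SC F (s.map tr) → Prop
  | [], _, _, _, _ => True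
  | _ :: s, v, k, v', k' => GoodB D D v.1 k.1 v'.1 k'.1 ∧ Rel F D s v.2 k.2 v'.2 k'.2

/-- take one element from the fuel, then `r` -/
def tick {s : List (Ty × Ty)} {a b : Ty} (r : Pr s (.prod Un a) (.prod Un (.list b))) :
    Pr s (.prod Un a) (.prod Un (.list b)) :=
  .comp (.pair .snd .fst) (.caseL (.pair .nil .nil) (.comp (.pair (.comp .snd .snd) .fst) r))

/-- return the value of `f`, consuming nothing -/
def pur {s : List (Ty × Ty)} {a b : Ty} (f : Pr s a b) :
    Pr s (.prod Un a) (.prod Un (.list b)) :=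
  .pair .fst (.comp (.pair (.comp .snd f) .nil) .cons)

/-- apply `f` to the data, then `r` -/
def pre {s : List (Ty × Ty)} {a b c : Ty} (f : Pr s a b)
    (r : Pr s (.prod Un b) (.prod Un (.list c))) :
    Pr s (.prod Un a) (.prod Un (.list c)) :=
  .comp (.pair .fst (.comp .snd f)) r

/-- run `p`; if it has a result `y`, run `q` on the remaining fuel and on input and `y` -/
def bnd {s : List (Ty × Ty)} {a b c : Ty} (p : Pr s (.prod Un a) (.prod Un (.list b)))
    (q : Pr s (.prod Un (.prod a b)) (.prod Un (.list c))) :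
    Pr s (.prod Un a) (.prod Un (.list c)) :=
  .comp (.pair .snd p) (.comp (.pair (.pair .fst (.comp .snd .fst)) (.comp .snd .snd))
    (.caseL (.pair .nil .nil)
      (.comp (.pair (.comp .fst .snd) (.pair (.comp .fst .fst) (.comp .snd .fst))) q)))

section
variable {F : Type} [Field F] [DecidableEq F] {s : List (Ty × Ty)} {a b c : Ty}

theorem tick_val_nil (r : Pr s (.prod Un a) (.prod Un (.list b))) (v : SV F s) (x : Ty.D F a) :
    (tick r).val v (([], x) : Ty.D F (.prod Un a)) = ([], []) := by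
  simp [tick]

theorem tick_val_cons (r : Pr s (.prod Un a) (.prod Un (.list b))) (v : SV F s) (h : Unit)
    (t : List Unit) (x : Ty.D F a) :
    (tick r).val v ((h :: t, x) : Ty.D F (.prod Un a)) = r.val v (t, x) := by
  simp [tick]

theorem tick_cost_nil (r : Pr s (.prod Un a) (.prod Un (.list b))) (v : SV F s) (k : SC F s)
    (x : Ty.D F a) :
    (tick r).cost v k (([], x) : Ty.D F (.prod Un a)) = 7 := by
  simp [tick]

theorem tick_cost_cons (r : Pr s (.prod Un a) (.prod Un (.list b))) (v : SV F s) (k : SC F s)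
    (h : Unit) (t : List Unit) (x : Ty.D F a) :
    (tick r).cost v k ((h :: t, x) : Ty.D F (.prod Un a)) = r.cost v k (t, x) + 8 := by
  simp [tick]; omega

theorem good_tick' {B D E : ℕ} {r : Pr s (.prod Un a) (.prod Un (.list b))} {v : SV F s}
    {k : SC F s} {f : Ty.D F a → Ty.D F b} {c : Ty.D F a → ℕ}
    (h : GoodB B D f c (r.val v) (r.cost v k)) (hE : 7 ≤ E) (hB : B + 8 ≤ E + D) :
    GoodB E D f (fun x => c x + 1) ((tick r).val v) ((tick r).cost v k) := by
  intro u x
  cases u with
  | nil =>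
    rw [tick_val_nil, tick_cost_nil]
    refine ⟨le_rfl, fun h => ?_, by omega⟩
    simp at h
  | cons e t =>
    rw [tick_val_cons, tick_cost_cons]
    obtain ⟨h1, h2, h3⟩ := h t x
    refine ⟨?_, ?_, ?_⟩
    · simp only [List.length_cons]; omega
    · intro h4
      simp only [List.length_cons] at h4 ⊢
      obtain ⟨h5, h6⟩ := h2 (by omega)
      exact ⟨h5, by omega⟩
    · simp only [List.length_cons]
      have : t.length + 1 - (r.val v (t, x)).1.length = (t.length - (r.val v (t, x)).1.length) + 1 := by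
        omega
      rw [this, Nat.mul_add]
      omega

theorem good_tick {B D : ℕ} {r : Pr s (.prod Un a) (.prod Un (.list b))} {v : SV F s}
    {k : SC F s} {f : Ty.D F a → Ty.D F b} {c : Ty.D F a → ℕ}
    (h : GoodB B D f c (r.val v) (r.cost v k)) (hB : B ≤ D) :
    GoodB 8 D f (fun x => c x + 1) ((tick r).val v) ((tick r).cost v k) :=
  good_tick' h (by omega) (by omega)

theorem good_pur {D : ℕ} {f : Pr s a b} {v : SV F s} {k : SC F s} {g : Ty.D F a → Ty.D F b}
    {K : ℕ} (hg : ∀ x, f.val v x = g x) (hk : ∀ x, f.cost v k x ≤ K) :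
    GoodB (K + 6) D g (fun _ => 0) ((pur f).val v) ((pur f).cost v k) := by
  intro u x
  have h1 : (pur f).val v (u, x) = (u, [g x]) := by simp [pur, hg]
  have h2 : (pur f).cost v k (u, x) ≤ K + 6 := by
    have := hk x
    simp [pur]; omega
  rw [h1]
  exact ⟨le_rfl, fun _ => ⟨rfl, by simp⟩, by omega⟩

theorem good_pre {B D : ℕ} {f : Pr s a b} {r : Pr s (.prod Un b) (.prod Un (.list c))}
    {v : SV F s} {k : SC F s} {g : Ty.D F a → Ty.D F b} {h : Ty.D F b → Ty.D F c}
    {l : Ty.D F b → ℕ}
    {K : ℕ} (hg : ∀ x, f.val v x = g x) (hk : ∀ x, f.cost v k x ≤ K)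
    (hh : GoodB B D h l (r.val v) (r.cost v k)) :
    GoodB (B + K + 3) D (fun x => h (g x)) (fun x => l (g x)) ((pre f r).val v)
      ((pre f r).cost v k) := by
  intro u x
  obtain ⟨h1, h2, h3⟩ := hh u (g x)
  have e1 : (pre f r).val v (u, x) = r.val v (u, g x) := by simp [pre, hg]
  have e2 : (pre f r).cost v k (u, x) ≤ r.cost v k (u, g x) + (K + 3) := by
    have := hk x
    simp [pre, hg]; omega
  rw [e1]
  exact ⟨h1, h2, by omega⟩

theorem good_bnd {B1 B2 D : ℕ} {p : Pr s (.prod Un a) (.prod Un (.list b))}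
    {q : Pr s (.prod Un (.prod a b)) (.prod Un (.list c))}
    {v : SV F s} {k : SC F s} {g : Ty.D F a → Ty.D F b} {l1 : Ty.D F a → ℕ}
    {h : Ty.D F (.prod a b) → Ty.D F c} {l2 : Ty.D F (.prod a b) → ℕ}
    (hp : GoodB B1 D g l1 (p.val v) (p.cost v k))
    (hq : GoodB B2 D h l2 (q.val v) (q.cost v k)) :
    GoodB (B1 + B2 + 30) D (fun x => h (x, g x)) (fun x => l1 x + l2 (x, g x))
      ((bnd p q).val v) ((bnd p q).cost v k) := by
  intro u x
  obtain ⟨h1, h2, h3⟩ := hp u x
  rcases e : p.val v (u, x) with ⟨u', r⟩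
  rw [e] at h1 h2 h3
  cases r with
  | nil =>
    have e1 : (bnd p q).val v (u, x) = ([], []) := by simp [bnd, e]
    have e2 : (bnd p q).cost v k (u, x) ≤ p.cost v k (u, x) + 30 := by
      simp [bnd, e]; omega
    rw [e1]
    refine ⟨by simp, fun h4 => ?_, ?_⟩
    · have h4' : l1 x + l2 (x, g x) ≤ u.length := h4
      have := (h2 (by omega)).1
      simp at this
    · simp only [List.length_nil] at *
      have : D * (u.length - u'.length) ≤ D * (u.length - 0) := Nat.mul_le_mul_left _ (by omega)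
      omega
  | cons y t =>
    have e1 : (bnd p q).val v (u, x) = q.val v (u', (x, y)) := by simp [bnd, e]
    have e2 : (bnd p q).cost v k (u, x) ≤ p.cost v k (u, x) + q.cost v k (u', (x, y)) + 30 := by
      simp [bnd, e]; omega
    obtain ⟨h4, h5, h6⟩ := hq u' (x, y)
    rw [e1]
    simp only at h1 h2 h3
    refine ⟨by omega, fun h7 => ?_, ?_⟩
    · have h7' : l1 x + l2 (x, g x) ≤ u.length := h7
      obtain ⟨h8, h9⟩ := h2 (by omega)
      have hy : y = g x := (List.cons.inj h8).1
      subst hy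
      obtain ⟨h10, h11⟩ := h5 (by omega)
      refine ⟨h10, ?_⟩
      show u.length ≤ (q.val v (u', (x, g x))).1.length + (l1 x + l2 (x, g x))
      omega
    · have : u.length - (q.val v (u', (x, y))).1.length =
        (u.length - u'.length) + (u'.length - (q.val v (u', (x, y))).1.length) := by omega
      rw [this, Nat.mul_add]
      omega

theorem GoodB.mono {α β : Type} {B B' D : ℕ} {f g : α → β} {c l : α → ℕ}
    {f' : List Unit × α → List Unit × List β} {c' : List Unit × α → ℕ}
    (h : GoodB B D f c f' c') (hB : B ≤ B') (hf : ∀ x, f x = g x) (hc : ∀ x, c x ≤ l x) :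
    GoodB B' D g l f' c' := by
  intro u x
  obtain ⟨h1, h2, h3⟩ := h u x
  have := hc x
  refine ⟨h1, fun h4 => ?_, by omega⟩
  obtain ⟨h5, h6⟩ := h2 (by omega)
  exact ⟨by rw [h5, hf], by omega⟩

/-- case distinction on a list, clocked (without the tick) -/
def csL {s : List (Ty × Ty)} {a b c : Ty} (p : Pr s (.prod Un a) (.prod Un (.list c)))
    (q : Pr s (.prod Un (.prod a (.prod b (.list b)))) (.prod Un (.list c))) :
    Pr s (.prod Un (.prod a (.list b))) (.prod Un (.list c)) :=
  .comp (.pair (.pair .fst (.comp .snd .fst)) (.comp .snd .snd))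
    (.caseL p (.comp (.pair (.comp .fst .fst) (.pair (.comp .fst .snd) .snd)) q))

theorem good_csL {B1 B2 D : ℕ} {p : Pr s (.prod Un a) (.prod Un (.list c))}
    {q : Pr s (.prod Un (.prod a (.prod b (.list b)))) (.prod Un (.list c))}
    {v : SV F s} {k : SC F s} {g : Ty.D F a → Ty.D F c} {l1 : Ty.D F a → ℕ}
    {h : Ty.D F (.prod a (.prod b (.list b))) → Ty.D F c}
    {l2 : Ty.D F (.prod a (.prod b (.list b))) → ℕ}
    (hp : GoodB B1 D g l1 (p.val v) (p.cost v k))
    (hq : GoodB B2 D h l2 (q.val v) (q.cost v k)) :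
    GoodB (B1 + B2 + 30) D
      (fun x : Ty.D F (.prod a (.list b)) => lcase x.2 (g x.1) (fun y t => h (x.1, (y, t))))
      (fun x : Ty.D F (.prod a (.list b)) => lcase x.2 (l1 x.1) (fun y t => l2 (x.1, (y, t))))
      ((csL p q).val v) ((csL p q).cost v k) := by
  intro u x
  obtain ⟨x, l⟩ := x
  cases l with
  | nil =>
    obtain ⟨h1, h2, h3⟩ := hp u x
    have e1 : (csL p q).val v (u, (x, [])) = p.val v (u, x) := by simp [csL]
    have e2 : (csL p q).cost v k (u, (x, [])) ≤ p.cost v k (u, x) + 30 := by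
      simp [csL]; omega
    rw [e1]
    exact ⟨h1, h2, by omega⟩
  | cons y t =>
    obtain ⟨h1, h2, h3⟩ := hq u (x, (y, t))
    have e1 : (csL p q).val v (u, (x, y :: t)) = q.val v (u, (x, (y, t))) := by simp [csL]
    have e2 : (csL p q).cost v k (u, (x, y :: t)) ≤ q.cost v k (u, (x, (y, t))) + 30 := by
      simp [csL]; omega
    rw [e1]
    exact ⟨h1, h2, by omega⟩

/-- zero test, clocked (without the tick) -/
def ifZ {s : List (Ty × Ty)} {a c : Ty} (p q : Pr s (.prod Un a) (.prod Un (.list c))) :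
    Pr s (.prod Un (.prod a .fld)) (.prod Un (.list c)) :=
  .comp (.pair (.pair .fst (.comp .snd .fst)) (.comp .snd .snd)) (.ifz p q)

theorem good_ifZ {B1 B2 D : ℕ} {p q : Pr s (.prod Un a) (.prod Un (.list c))}
    {v : SV F s} {k : SC F s} {g h : Ty.D F a → Ty.D F c} {l1 l2 : Ty.D F a → ℕ}
    (hp : GoodB B1 D g l1 (p.val v) (p.cost v k))
    (hq : GoodB B2 D h l2 (q.val v) (q.cost v k)) :
    GoodB (B1 + B2 + 30) D
      (fun x : Ty.D F (.prod a .fld) => if (x.2 : F) = 0 then g x.1 else h x.1)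
      (fun x : Ty.D F (.prod a .fld) => if (x.2 : F) = 0 then l1 x.1 else l2 x.1)
      ((ifZ p q).val v) ((ifZ p q).cost v k) := by
  intro u x
  obtain ⟨x, z⟩ := x
  by_cases hz : (z : F) = 0
  · obtain ⟨h1, h2, h3⟩ := hp u x
    have e1 : (ifZ p q).val v (u, (x, z)) = p.val v (u, x) := by simp [ifZ, hz]
    have e2 : (ifZ p q).cost v k (u, (x, z)) ≤ p.cost v k (u, x) + 30 := by
      simp [ifZ, hz]; omega
    rw [e1]
    simp only [hz, if_true]
    exact ⟨h1, h2, by rw [hz] at e2; omega⟩
  · obtain ⟨h1, h2, h3⟩ := hq u x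
    have e1 : (ifZ p q).val v (u, (x, z)) = q.val v (u, x) := by simp [ifZ, hz]
    have e2 : (ifZ p q).cost v k (u, (x, z)) ≤ q.cost v k (u, x) + 30 := by
      simp [ifZ, hz]; omega
    rw [e1]
    simp only [hz, if_false]
    exact ⟨h1, h2, by omega⟩

end

/-- recursion, clocked (without the tick) -/
def rcD {s : List (Ty × Ty)} {σ τ d : Ty}
    (p : Pr (tr (σ, τ) :: s) (.prod Un σ) (.prod Un (.list τ)))
    (q : Pr s (.prod Un σ) (.prod Un (.list τ))) :
    Pr s (.prod Un (.prod (.list d) σ)) (.prod Un (.list τ)) :=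
  .comp (.pair (.comp .snd .fst) (.pair .fst (.comp .snd .snd))) (.recD p q)

theorem clocked {s : List (Ty × Ty)} {a b : Ty} (p : Pr s a b) :
    ∃ (pc : Pr (s.map tr) (.prod Un a) (.prod Un (.list b))) (A : ℕ), ∀ D : ℕ, A ≤ D →
      ∀ (F : Type) [Field F] [DecidableEq F] (v : SV F s) (k : SC F s)
        (v' : SV F (s.map tr)) (k' : SC F (s.map tr)), Rel F D s v k v' k' →
        GoodB A D (p.val v) (p.cost v k) (pc.val v') (pc.cost v' k') := by
  induction p with
  | @id s a =>
    refine ⟨tick (pur .id), 8, fun D hD F _ _ v k v' k' hR => ?_⟩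
    exact (good_tick (good_pur (g := fun x => x) (K := 1) (fun x => rfl) (fun x => le_rfl))
      (by omega)).mono le_rfl (fun x => rfl) (fun x => le_rfl)
  | @comp s a b c p q ihp ihq =>
    obtain ⟨pc, A1, h1⟩ := ihp
    obtain ⟨qc, A2, h2⟩ := ihq
    refine ⟨bnd pc (pre .snd qc), A1 + A2 + 40, fun D hD F _ _ v k v' k' hR => ?_⟩
    have g1 := h1 D (by omega) F v k v' k' hR
    have g2 := h2 D (by omega) F v k v' k' hR
    exact (good_bnd g1 (good_pre (f := .snd) (g := fun x : Ty.D F (.prod a b) => x.2) (K := 1)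
      (fun x => rfl) (fun x => le_rfl) g2)).mono (by omega) (fun x => rfl) (fun x => le_rfl)
  | @pair s a b c p q ihp ihq =>
    obtain ⟨pc, A1, h1⟩ := ihp
    obtain ⟨qc, A2, h2⟩ := ihq
    refine ⟨tick (bnd pc (bnd (pre .fst qc) (pur (.pair (.comp .fst .snd) .snd)))),
      A1 + A2 + 100, fun D hD F _ _ v k v' k' hR => ?_⟩
    have g1 := h1 D (by omega) F v k v' k' hR
    have g2 := h2 D (by omega) F v k v' k' hR
    exact (good_tick (good_bnd g1 (good_bnd (good_pre (f := .fst)
      (g := fun x : Ty.D F (.prod a b) => x.1) (K := 1) (fun x => rfl) (fun x => le_rfl) g2)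
      (good_pur (g := fun x : Ty.D F (.prod (.prod a b) c) => (x.1.2, x.2)) (K := 4)
        (fun x => rfl) (fun x => le_rfl)))) (by omega)).mono (by omega) (fun x => rfl)
        (fun x => le_rfl)
  | @fst s a b =>
    refine ⟨tick (pur .fst), 8, fun D hD F _ _ v k v' k' hR => ?_⟩
    exact (good_tick (good_pur (g := fun x : Ty.D F (.prod a b) => x.1) (K := 1) (fun x => rfl)
      (fun x => le_rfl)) (by omega)).mono le_rfl (fun x => rfl) (fun x => le_rfl)
  | @snd s a b =>
    refine ⟨tick (pur .snd), 8, fun D hD F _ _ v k v' k' hR => ?_⟩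
    exact (good_tick (good_pur (g := fun x : Ty.D F (.prod a b) => x.2) (K := 1) (fun x => rfl)
      (fun x => le_rfl)) (by omega)).mono le_rfl (fun x => rfl) (fun x => le_rfl)
  | @star s a =>
    refine ⟨tick (pur .star), 8, fun D hD F _ _ v k v' k' hR => ?_⟩
    exact (good_tick (good_pur (g := fun _ => ()) (K := 1) (fun x => rfl)
      (fun x => le_rfl)) (by omega)).mono le_rfl (fun x => rfl) (fun x => le_rfl)
  | @nil s a b =>
    refine ⟨tick (pur .nil), 8, fun D hD F _ _ v k v' k' hR => ?_⟩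
    exact (good_tick (good_pur (g := fun _ => ([] : List (Ty.D F b))) (K := 1) (fun x => rfl)
      (fun x => le_rfl)) (by omega)).mono le_rfl (fun x => rfl) (fun x => le_rfl)
  | @cons s a =>
    refine ⟨tick (pur .cons), 8, fun D hD F _ _ v k v' k' hR => ?_⟩
    exact (good_tick (good_pur (g := fun x : Ty.D F (.prod a (.list a)) => x.1 :: x.2) (K := 1)
      (fun x => rfl)
      (fun x => le_rfl)) (by omega)).mono le_rfl (fun x => rfl) (fun x => le_rfl)
  | @caseL s a b c p q ihp ihq =>
    obtain ⟨pc, A1, h1⟩ := ihp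
    obtain ⟨qc, A2, h2⟩ := ihq
    refine ⟨tick (csL pc qc), A1 + A2 + 100, fun D hD F _ _ v k v' k' hR => ?_⟩
    have g1 := h1 D (by omega) F v k v' k' hR
    have g2 := h2 D (by omega) F v k v' k' hR
    exact (good_tick (good_csL g1 g2) (by omega)).mono (by omega)
      (fun x => (val_caseL p q v x).symm) (fun x => (cost_caseL p q v k x).ge)
  | @zero s a =>
    refine ⟨tick (pur .zero), 8, fun D hD F _ _ v k v' k' hR => ?_⟩
    exact (good_tick (good_pur (f := .zero) (g := fun _ => (0 : F)) (K := 1) (fun x => rfl)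
      (fun x => le_rfl)) (by omega)).mono le_rfl (fun x => rfl) (fun x => le_rfl)
  | @one s a =>
    refine ⟨tick (pur .one), 8, fun D hD F _ _ v k v' k' hR => ?_⟩
    exact (good_tick (good_pur (f := .one) (g := fun _ => (1 : F)) (K := 1) (fun x => rfl)
      (fun x => le_rfl)) (by omega)).mono le_rfl (fun x => rfl) (fun x => le_rfl)
  | @add s =>
    refine ⟨tick (pur .add), 8, fun D hD F _ _ v k v' k' hR => ?_⟩
    exact (good_tick (good_pur (f := .add) (g := fun x : F × F => (x.1 + x.2 : F)) (K := 1)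
      (fun x => rfl)
      (fun x => le_rfl)) (by omega)).mono le_rfl (fun x => rfl) (fun x => le_rfl)
  | @neg s =>
    refine ⟨tick (pur .neg), 8, fun D hD F _ _ v k v' k' hR => ?_⟩
    exact (good_tick (good_pur (f := .neg) (g := fun x : F => (-x : F)) (K := 1)
      (fun x => rfl)
      (fun x => le_rfl)) (by omega)).mono le_rfl (fun x => rfl) (fun x => le_rfl)
  | @mul s =>
    refine ⟨tick (pur .mul), 8, fun D hD F _ _ v k v' k' hR => ?_⟩
    exact (good_tick (good_pur (f := .mul) (g := fun x : F × F => (x.1 * x.2 : F)) (K := 1)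
      (fun x => rfl)
      (fun x => le_rfl)) (by omega)).mono le_rfl (fun x => rfl) (fun x => le_rfl)
  | @inv s =>
    refine ⟨tick (pur .inv), 8, fun D hD F _ _ v k v' k' hR => ?_⟩
    exact (good_tick (good_pur (f := .inv) (g := fun x : F => (x⁻¹ : F)) (K := 1)
      (fun x => rfl)
      (fun x => le_rfl)) (by omega)).mono le_rfl (fun x => rfl) (fun x => le_rfl)
  | @ifz s a b p q ihp ihq =>
    obtain ⟨pc, A1, h1⟩ := ihp
    obtain ⟨qc, A2, h2⟩ := ihq
    refine ⟨tick (ifZ pc qc), A1 + A2 + 100, fun D hD F _ _ v k v' k' hR => ?_⟩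
    have g1 := h1 D (by omega) F v k v' k' hR
    have g2 := h2 D (by omega) F v k v' k' hR
    exact (good_tick (good_ifZ g1 g2) (by omega)).mono (by omega)
      (fun x => rfl) (fun x => le_rfl)
  | @self s σ τ =>
    refine ⟨tick .self, 100, fun D hD F _ _ v k v' k' hR => ?_⟩
    have g1 : GoodB D D v.1 k.1 v'.1 k'.1 := hR.1
    have g2 : GoodB (D + 1) D v.1 k.1
        ((.self : Pr (tr (σ, τ) :: s.map tr) (.prod Un σ) (.prod Un (.list τ))).val v')
        ((.self : Pr (tr (σ, τ) :: s.map tr) (.prod Un σ) (.prod Un (.list τ))).cost v' k') := by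
      intro u x
      obtain ⟨h1, h2, h3⟩ := g1 u x
      refine ⟨h1, h2, ?_⟩
      rw [cost_self, val_self]
      omega
    exact good_tick' g2 (by omega) (by omega)
  | @up s σ τ a b p ihp =>
    obtain ⟨pc, A1, h1⟩ := ihp
    refine ⟨.up pc, A1, fun D hD F _ _ v k v' k' hR => ?_⟩
    exact h1 D hD F v.2 k.2 v'.2 k'.2 hR.2
  | @recD s σ τ d p q ihp ihq =>
    obtain ⟨pc, A1, h1⟩ := ihp
    obtain ⟨qc, A2, h2⟩ := ihq
    refine ⟨tick (rcD pc qc), A1 + A2 + 100, fun D hD F _ _ v k v' k' hR => ?_⟩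
    have g : ∀ n, GoodB D D (goV p q v n) (goC p q v k n) (goV pc qc v' n)
        (goC pc qc v' k' n) := by
      intro n
      induction n with
      | zero =>
        have hq : A2 ≤ D := by omega
        exact (h2 D hq F v k v' k' hR).mono hq (fun _ => rfl) (fun _ => le_rfl)
      | succ n ih =>
        have hp : A1 ≤ D := by omega
        exact (h1 D hp F (goV p q v n, v) (goC p q v k n, k) (goV pc qc v' n, v')
          (goC pc qc v' k' n, k') ⟨ih, hR⟩).mono hp (fun _ => rfl) (fun _ => le_rfl)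
    have g2 : GoodB (D + 20) D (fun x : Ty.D F (.prod (.list d) σ) => goV p q v x.1.length x.2)
        (fun x : Ty.D F (.prod (.list d) σ) => goC p q v k x.1.length x.2)
        ((rcD (d := d) pc qc).val v') ((rcD (d := d) pc qc).cost v' k') := by
      intro u x
      obtain ⟨l, x⟩ := x
      obtain ⟨h1, h2, h3⟩ := g l.length u x
      have e1 : (rcD (d := d) pc qc).val v' (u, (l, x)) = goV pc qc v' l.length (u, x) := by
        simp [rcD, val_recD]
      have e2 : (rcD (d := d) pc qc).cost v' k' (u, (l, x)) ≤ goC pc qc v' k' l.length (u, x) + 20 := by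
        simp [rcD, cost_recD]; omega
      rw [e1]
      exact ⟨h1, h2, by omega⟩
    exact (good_tick' g2 (by omega) (by omega)).mono (Nat.le_add_left _ _)
      (fun x => (val_recD p q v x).symm) (fun x => (cost_recD p q v k x).ge)

theorem specClock : SpecClock := by
  intro a b p
  obtain ⟨pc, A, h⟩ := clocked p
  refine ⟨.comp pc .snd, A + 1, fun F _ _ u x => ?_⟩
  obtain ⟨h1, h2, h3⟩ := h A le_rfl F () () () () trivial u x
  constructor
  · rw [cost_comp, cost_snd]
    have : A * (u.length - (pc.val () (u, x)).1.length) ≤ A * u.length :=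
      Nat.mul_le_mul_left _ (by omega)
    have h4 : (A + 1) * (u.length + 1) = A * u.length + u.length + A + 1 := by ring
    rw [h4]
    omega
  · intro h4
    exact (h2 h4).1

end Pool.Agent.H330FB.JC1
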