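import Pool.Agent.H330FB.Lib5
import Pool.Agent.H330FB.Spec5
set_option autoImplicit false
noncomputable section
namespace Pool.Agent.H330FB.JC3
open Polynomial

variable {F : Type} [Field F] [DecidableEq F]
variable {s : List (Ty × Ty)} {a b c : Ty}

/-- constant list -/
def replP : ℕ → Pr s a Un
  | 0 => .nil
  | n + 1 => .comp (.pair .star (replP n)) .cons

theorem val_replP (n : ℕ) (v : SV F s) (x : Ty.D F a) :
    List.length ((replP n : Pr s a Un).val v x) = n := by
  induction n with
  | zero => simp [replP]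
  | succ n ih => simp [replP, ih]

theorem cost_replP (n : ℕ) (v : SV F s) (k : SC F s) (x : Ty.D F a) :
    (replP n : Pr s a Un).cost v k x = 3 * n + 1 := by
  induction n with
  | zero => simp [replP]
  | succ n ih => simp [replP, ih]; omega

/-- product of two lengths -/
def mulP : Pr s (.prod (.list a) Un) Un :=
  .comp (.pair .snd (.pair .nil .fst))
    (foldP (c := Un) (.comp (.pair .fst (.comp .snd .fst)) appP))

theorem val_mulP (v : SV F s) (x : Ty.D F (.prod (.list a) Un)) :
    List.length ((mulP : Pr s (.prod (.list a) Un) Un).val v x) =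
      List.length x.1 * List.length x.2 := by
  obtain ⟨w, u⟩ := x
  have : ∀ (l : List (Ty.D F a)) (m : List Unit),
      (List.foldl (fun (y : List Unit) (_ : Ty.D F a) => u ++ y) m l).length =
        l.length * u.length + m.length := by
    intro l
    induction l with
    | nil => simp
    | cons h t ih => intro m; simp [ih]; ring
  simpa [mulP] using this w []

theorem cost_mulP (v : SV F s) (k : SC F s) (x : Ty.D F (.prod (.list a) Un)) :
    (mulP : Pr s (.prod (.list a) Un) Un).cost v k x ≤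
      (20 * List.length x.2 + 50) * List.length x.1 + 30 := by
  obtain ⟨w, u⟩ := x
  have h := cost_foldP_le (s := s) (c := Un) (b := Un) (a := a)
    (.comp (.pair .fst (.comp .snd .fst)) appP) v k (u, (([] : List Unit), w))
    (20 * u.length + 10) (fun _ => True) trivial (fun _ _ _ _ => trivial)
    (fun y z _ _ => by
      have e := cost_appP (s := s) v k ((u, y) : Ty.D F (.prod Un Un))
      simp at e ⊢
      omega)
  simp [mulP] at h ⊢
  nlinarith

/-- seven copies, iterated -/
def p7B : Pr ((Un, Un) :: s) Un Un := .comp (.pair (replP 7) .self) mulP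

theorem val_p7B (v : SV F s) (n : ℕ) (u : List Unit) :
    List.length (goV (F := F) (s := s) p7B .id v n u) = 7 ^ n * List.length u := by
  induction n with
  | zero => simp [goV]
  | succ n ih =>
    refine (val_mulP (F := F) (s := (Un, Un) :: s) (a := .unit) (goV p7B .id v n, v)
        ((replP 7 : Pr ((Un, Un) :: s) Un Un).val (goV p7B .id v n, v) u,
          goV p7B .id v n u)).trans ?_
    have e := val_replP (F := F) (s := (Un, Un) :: s) (a := Un) 7 (goV p7B .id v n, v) u
    simp only [Ty.D] at e ih ⊢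
    rw [ih, e]
    ring

/-- input `(l, u)`, output of length `7 ^ l.length * u.length` -/
def p7P : Pr s (.prod (.list a) Un) Un := .recD p7B .id

theorem val_p7P (v : SV F s) (x : Ty.D F (.prod (.list a) Un)) :
    List.length ((p7P : Pr s (.prod (.list a) Un) Un).val v x) =
      7 ^ (List.length x.1) * List.length x.2 := by
  obtain ⟨w, u⟩ := x
  simp only [p7P, val_recD]
  generalize List.length w = n
  exact val_p7B v n u

theorem cost_p7P (v : SV F s) (k : SC F s) (x : Ty.D F (.prod (.list a) Un)) :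
    (p7P : Pr s (.prod (.list a) Un) Un).cost v k x ≤
      100 * 7 ^ (List.length x.1) * (List.length x.2 + 1) + 1 := by
  obtain ⟨w, u⟩ := x
  simp only [p7P, cost_recD]
  have hval := fun n => val_p7B v n u
  generalize List.length w = n
  have : goC (F := F) (s := s) p7B .id v k n u ≤ 100 * 7 ^ n * (List.length u + 1) := by
    induction n with
    | zero => simp [goC]; omega
    | succ n ih =>
      have h2 := cost_mulP (F := F) (s := (Un, Un) :: s) (a := .unit) (goV p7B .id v n, v)
        (goC p7B .id v k n, k)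
        ((replP 7 : Pr ((Un, Un) :: s) Un Un).val (goV p7B .id v n, v) u,
          goV p7B .id v n u)
      rw [val_replP] at h2
      simp only [hval] at h2
      have h1 : 1 ≤ 7 ^ n := Nat.one_le_pow _ _ (by norm_num)
      have e : goC (F := F) (s := s) p7B .id v k (n + 1) u =
          (3 * 7 + 1) + (goC p7B .id v k n u + 1) + 1 +
          (mulP : Pr ((Un, Un) :: s) (.prod Un Un) Un).cost (goV p7B .id v n, v)
            (goC p7B .id v k n, k)
            ((replP 7 : Pr ((Un, Un) :: s) Un Un).val (goV p7B .id v n, v) u,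
              goV p7B .id v n u) := by
        conv_lhs => rw [goC]
        simp only [p7B, cost_comp, cost_pair, cost_self, cost_replP, val_pair, val_self]
      rw [e, pow_succ]
      generalize 7 ^ n = T at *
      nlinarith [Nat.zero_le (List.length u), Nat.zero_le (T * List.length u)]
  omega

/-- `k` times product with the first list -/
def itP : ℕ → Pr s (.prod Un Un) Un
  | 0 => .snd
  | k + 1 => .comp (.pair .fst (itP k)) mulP

theorem val_itP (n : ℕ) (v : SV F s) (x : Ty.D F (.prod Un Un)) :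
    List.length ((itP n : Pr s (.prod Un Un) Un).val v x) =
      (List.length x.1) ^ n * List.length x.2 := by
  induction n with
  | zero => simp [itP]
  | succ n ih =>
    have e := val_mulP (F := F) (s := s) (a := .unit) v (x.1, (itP n : Pr s (.prod Un Un) Un).val v x)
    simp only [itP, val_comp, val_pair, val_fst] at ih e ⊢
    rw [e, ih]; ring

theorem cost_itP (n : ℕ) (v : SV F s) (k : SC F s) (x : Ty.D F (.prod Un Un))
    (hx : 1 ≤ List.length x.1) :
    (itP n : Pr s (.prod Un Un) Un).cost v k x ≤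
      100 * (n + 1) * (List.length x.1) ^ n * (List.length x.2 + 1) := by
  induction n with
  | zero => simp [itP]; omega
  | succ n ih =>
    have h2 := cost_mulP (F := F) (s := s) (a := .unit) v k (x.1, (itP n : Pr s _ _).val v x)
    have h20 := val_itP (F := F) (s := s) n v x
    simp only at h2 h20
    rw [h20] at h2
    simp only [itP, cost_comp, cost_pair, cost_fst, val_pair, val_fst]
    have h3 : 1 ≤ (List.length x.1) ^ n := Nat.one_le_pow _ _ (by omega)
    have h4 : (List.length x.1) ^ n ≤ (List.length x.1) ^ (n + 1) :=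
      Nat.pow_le_pow_right (by omega) (by omega)
    have h5 : (List.length x.1) ≤ (List.length x.1) ^ (n + 1) := by
      rw [pow_succ]; nlinarith
    have h6 : (List.length x.1) ^ n * List.length x.2 * List.length x.1 =
      (List.length x.1) ^ (n + 1) * List.length x.2 := by ring
    have h7 : 100 * (n + 1) * (List.length x.1) ^ n * (List.length x.2 + 1) ≤
        100 * (n + 1) * (List.length x.1) ^ (n + 1) * (List.length x.2 + 1) := by
      gcongr
    have h8 : (20 * ((List.length x.1) ^ n * List.length x.2) + 50) * List.length x.1 + 30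
        = 20 * ((List.length x.1) ^ (n + 1) * List.length x.2) + 50 * List.length x.1 + 30 := by
      ring
    rw [h8] at h2
    have h9 : 100 * (n + 1 + 1) * (List.length x.1) ^ (n + 1) * (List.length x.2 + 1) =
      100 * (n + 1) * (List.length x.1) ^ (n + 1) * (List.length x.2 + 1) +
      100 * (List.length x.1) ^ (n + 1) * List.length x.2 + 100 * (List.length x.1) ^ (n + 1) := by
      ring
    rw [h9]
    have h10 : 20 * ((List.length x.1) ^ (n + 1) * List.length x.2) ≤
      100 * (List.length x.1) ^ (n + 1) * List.length x.2 := by nlinarith [Nat.zero_le ((List.length x.1) ^ (n + 1) * List.length x.2)]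
    omega

/-- the budget -/
def budP (C k : ℕ) : Pr [] (.prod Po Ma) Un :=
  lt (.comp .snd lgP)
    (.comp (.pair
      (.comp (.pair (.comp (.pair .one (.comp .fst .fst)) .cons)
        (.comp (.pair .star .snd) .cons)) mulP)
      (.comp (.pair .snd (replP (2 * C))) p7P)) (itP k))

omit [DecidableEq F] in
theorem len_bits (q : ℕ) (hq : 1 ≤ q) :
    lgc q ≤ (bits F q).length + 1 ∧ (bits F q).length ≤ lgc q := by
  have h1 : (bits F q).length = Nat.log 2 q + 1 := by
    simp only [bits, List.length_map]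
    rw [Nat.size_eq_bits_len]
    have h2 : 2 ^ Nat.log 2 q ≤ q := Nat.pow_log_le_self 2 (by omega)
    have h3 : q < 2 ^ (Nat.log 2 q + 1) := Nat.lt_pow_succ_log_self (by norm_num) q
    apply le_antisymm
    · exact Nat.size_le.mpr h3
    · have := Nat.lt_size.mpr h2
      omega
  rw [h1]
  constructor
  · simp only [lgc]
    have : Nat.clog 2 q ≤ Nat.log 2 q + 1 := by
      rw [Nat.clog_le_iff_le_pow (by norm_num)]
      exact (Nat.lt_pow_succ_log_self (by norm_num) q).le
    omega
  · simp only [lgc]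
    have : Nat.log 2 q ≤ Nat.clog 2 q := Nat.log_le_clog 2 q
    omega

theorem len_clog (d : ℕ) (hd : 1 ≤ d) :
    lgc d ≤ Nat.clog 2 (d + 1) + 1 ∧ Nat.clog 2 (d + 1) ≤ lgc d := by
  constructor
  · simp only [lgc]
    have := Nat.clog_mono_right 2 (show d ≤ d + 1 by omega)
    omega
  · simp only [lgc]
    rw [Nat.clog_le_iff_le_pow (by norm_num)]
    have h1 : d ≤ 2 ^ Nat.clog 2 d := Nat.le_pow_clog (by norm_num) d
    rw [pow_succ]
    omega

theorem ww_le (N : ℕ) : ww N ≤ 2 * 7 ^ (Nat.clog 2 N) := by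
  have h1 : N ≤ 2 ^ Nat.clog 2 N := Nat.le_pow_clog (by norm_num) N
  simp only [ww, vv]
  have h2 : 2 ^ Nat.clog 2 N ≤ 7 ^ Nat.clog 2 N := Nat.pow_le_pow_left (by norm_num) _
  have h3 : 2 ^ Nat.clog 2 N * (7 ^ Nat.clog 2 N / 2 ^ Nat.clog 2 N) ≤ 7 ^ Nat.clog 2 N :=
    Nat.mul_div_le _ _
  calc N * (7 ^ Nat.clog 2 N / 2 ^ Nat.clog 2 N + 1)
      ≤ 2 ^ Nat.clog 2 N * (7 ^ Nat.clog 2 N / 2 ^ Nat.clog 2 N + 1) :=
        Nat.mul_le_mul_right _ h1
    _ = 2 ^ Nat.clog 2 N * (7 ^ Nat.clog 2 N / 2 ^ Nat.clog 2 N) + 2 ^ Nat.clog 2 N := by ring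
    _ ≤ 2 * 7 ^ Nat.clog 2 N := by omega

/-- (NOTE: Lang.lean and Lib1.lean changed today at 11:08: fetch them again.) BUDGET. -/
theorem specBudget (h0 : SpecUnits) : SpecBudget := by
  intro C k
  refine ⟨budP C k, 1000 * (k + 1) * 4 ^ k * (4 * C + 1) + 10000 * (C + 1), k + 1, ?_⟩
  intro F _ _ q d H hq hd hH
  obtain ⟨hb1, hb2⟩ := len_bits (F := F) q hq
  obtain ⟨hc1, hc2⟩ := len_clog d hd
  have hw1 := ww_le (d + 1)
  have hw2 : 7 ^ (Nat.clog 2 (d + 1)) ≤ 2 * ww (d + 1) :=
    h0.2.2.2.2.2.2.2.2.2.2.2.2.2 (d + 1) (by omega)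
  have hw3 : (d + 1) * (d + 1) ≤ ww (d + 1) := h0.2.2.2.2.2.2.1 (d + 1)
  set B : ℕ := (bits F q).length with hB
  set L : ℕ := Nat.clog 2 (d + 1) with hL
  set M : ℕ := ww (d + 1) with hM
  set lq : ℕ := lgc q with hlq
  set ld : ℕ := lgc d with hld
  have hlq1 : 1 ≤ lq := by simp [hlq, lgc]
  have hld1 : 1 ≤ ld := by simp [hld, lgc]
  have hM1 : d + 1 ≤ M := by nlinarith
  have hP1 : 1 ≤ lq * ld := Nat.mul_pos hlq1 hld1
  have hw : (B + 1) * (L + 1) ≤ 4 * (lq * ld) := by
    have e1 : B + 1 ≤ 2 * lq := by omega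
    have e2 : L + 1 ≤ 2 * ld := by omega
    calc (B + 1) * (L + 1) ≤ (2 * lq) * (2 * ld) := Nat.mul_le_mul e1 e2
      _ = 4 * (lq * ld) := by ring
  have hlow : lq * ld ≤ (B + 1) * (L + 1) := Nat.mul_le_mul hb1 hc1
  -- the intermediate results
  obtain ⟨Lv, hLv⟩ : ∃ Lv : List Unit, Lv = (lgP : Pr [] Ma Un).val () H := ⟨_, rfl⟩
  have hLl : Lv.length = L := by
    rw [hLv]
    refine (val_lgP (F := F) (s := []) (a := Po) () H).trans ?_
    rw [hL]
    exact congrArg _ hH
  obtain ⟨Rv, hRv⟩ : ∃ Rv : List Unit,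
    Rv = (replP (2 * C) : Pr [] (.prod (.prod Po Ma) Un) Un).val () ((bits F q, H), Lv) :=
    ⟨_, rfl⟩
  have hRl : Rv.length = 2 * C := by
    rw [hRv]
    exact val_replP (F := F) (s := []) (a := .prod (.prod Po Ma) Un) (2 * C) () _
  obtain ⟨W, hW⟩ : ∃ W : List Unit, W = (mulP : Pr [] (.prod Po Un) Un).val ()
    ((1 :: bits F q : List F), (() :: Lv : List Unit)) := ⟨_, rfl⟩
  have hWl : W.length = (B + 1) * (L + 1) := by
    rw [hW]
    refine (val_mulP (F := F) (s := []) (a := .fld) () _).trans ?_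
    simp only [List.length_cons, hLl, hB]
  obtain ⟨U, hU⟩ : ∃ U : List Unit,
    U = (p7P : Pr [] (.prod Un Un) Un).val (F := F) () (Lv, Rv) := ⟨_, rfl⟩
  have hUl : U.length = 7 ^ L * (2 * C) := by
    rw [hU]
    refine (val_p7P (F := F) (s := []) (a := .unit) () _).trans ?_
    simp only [hLl, hRl]
  -- the length of the result
  have hval : (budP C k).val () (bits F q, H) = (itP k : Pr [] (.prod Un Un) Un).val (F := F) ()
    (W, U) := by
    rw [hW, hU, hRv, hLv]
    rfl
  have hlen : List.length ((budP C k).val () (bits F q, H)) =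
      ((B + 1) * (L + 1)) ^ k * (7 ^ L * (2 * C)) := by
    rw [hval]
    refine (val_itP (F := F) (s := []) k () (W, U)).trans ?_
    simp only [hWl, hUl]
  have hPk : (lq * ld) ^ k ≤ (lq * ld) ^ (k + 1) := Nat.pow_le_pow_right hP1 (by omega)
  have hPk1 : 1 ≤ (lq * ld) ^ (k + 1) := Nat.one_le_pow _ _ hP1
  have hPk2 : lq * ld ≤ (lq * ld) ^ (k + 1) := by
    rw [pow_succ]; nlinarith [Nat.one_le_pow k (lq * ld) hP1]
  have hWk : ((B + 1) * (L + 1)) ^ k ≤ 4 ^ k * (lq * ld) ^ (k + 1) := by
    calc ((B + 1) * (L + 1)) ^ k ≤ (4 * (lq * ld)) ^ k := Nat.pow_le_pow_left hw k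
      _ = 4 ^ k * (lq * ld) ^ k := by rw [mul_pow]
      _ ≤ 4 ^ k * (lq * ld) ^ (k + 1) := Nat.mul_le_mul_left _ hPk
  refine ⟨?_, ?_, ?_⟩
  · rw [hlen]
    calc C * (lq * ld) ^ k * M ≤ C * ((B + 1) * (L + 1)) ^ k * (2 * 7 ^ L) := by
          gcongr
      _ = ((B + 1) * (L + 1)) ^ k * (7 ^ L * (2 * C)) := by ring
  · rw [hlen]
    calc ((B + 1) * (L + 1)) ^ k * (7 ^ L * (2 * C))
        ≤ (4 ^ k * (lq * ld) ^ (k + 1)) * ((2 * M) * (2 * C)) := by gcongr
      _ = (4 ^ k * (4 * C)) * (lq * ld) ^ (k + 1) * M := by ring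
      _ ≤ (1000 * (k + 1) * 4 ^ k * (4 * C + 1) + 10000 * (C + 1)) * (lq * ld) ^ (k + 1) * M := by
          gcongr
          have : 4 ^ k * (4 * C) ≤ 1000 * (k + 1) * 4 ^ k * (4 * C + 1) := by
            calc 4 ^ k * (4 * C) ≤ (1000 * (k + 1) * 4 ^ k) * (4 * C + 1) := by
                  gcongr
                  · nlinarith [Nat.one_le_pow k 4 (by norm_num)]
                  · omega
              _ = _ := by ring
          omega
  · -- the cost
    have c1 := cost_lgP (F := F) (s := []) (a := Po) () () H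
    have hH' : List.length (α := Ty.D F Po) H = d + 1 := hH
    rw [hH'] at c1
    have c2 := cost_mulP (F := F) (s := []) (a := .fld) () ()
      ((1 :: bits F q : List F), (() :: Lv : List Unit))
    have c3 := cost_p7P (F := F) (s := []) (a := .unit) () () (Lv, Rv)
    have c4 := cost_itP (F := F) (s := []) k () () (W, U)
    simp only [List.length_cons, hLl, hRl, hWl, hUl] at c2 c3 c4
    rw [← hB] at c2
    have c4' := c4 (Nat.mul_pos (by omega) (by omega))
    have e : (budP C k).cost () () (bits F q, H) =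
        (1 + (lgP : Pr [] Ma Un).cost (F := F) () () H) +
        ((((1 + (1 + 1) + 1) + 1) + ((1 + 1 + 1) + 1) + 1 +
            (mulP : Pr [] (.prod Po Un) Un).cost () ()
              ((1 :: bits F q : List F), (() :: Lv : List Unit))) +
          ((1 + (3 * (2 * C) + 1) + 1) +
            (p7P : Pr [] (.prod Un Un) Un).cost (F := F) () () (Lv, Rv)) + 1 +
          (itP k : Pr [] (.prod Un Un) Un).cost (F := F) () () (W, U)) + 2 := by
      have e0 : (budP C k).cost () () (bits F q, H) =
        (1 + (lgP : Pr [] Ma Un).cost (F := F) () () H) +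
        ((((1 + (1 + 1) + 1) + 1) + ((1 + 1 + 1) + 1) + 1 +
            (mulP : Pr [] (.prod Po Un) Un).cost () ()
              ((1 :: bits F q : List F), (() :: Lv : List Unit))) +
          ((1 + (replP (2 * C) : Pr [] (.prod (.prod Po Ma) Un) Un).cost () ()
              ((bits F q, H), Lv) + 1) +
            (p7P : Pr [] (.prod Un Un) Un).cost (F := F) () () (Lv, Rv)) + 1 +
          (itP k : Pr [] (.prod Un Un) Un).cost (F := F) () () (W, U)) + 2 := by
        rw [hW, hU, hRv, hLv]
        simp only [budP, cost_lt, cost_comp, cost_pair, cost_one, cost_fst, cost_cons, cost_star,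
          cost_snd, val_comp, val_pair, val_one, val_fst, val_cons, val_star, val_snd]
      rw [e0, cost_replP]
    rw [e]
    have hMT : M ≤ (lq * ld) ^ (k + 1) * M := Nat.le_mul_of_pos_left _ hPk1
    have hPT : lq * ld ≤ (lq * ld) ^ (k + 1) * M :=
      hPk2.trans (Nat.le_mul_of_pos_right _ (by omega))
    have hT1 : 1 ≤ (lq * ld) ^ (k + 1) * M := by omega
    have f2 : (20 * (L + 1) + 50) * (B + 1) + 30 ≤ 310 * ((lq * ld) ^ (k + 1) * M) := by
      have g1 : (20 * (L + 1) + 50) * (B + 1) ≤ (70 * (L + 1)) * (B + 1) :=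
        Nat.mul_le_mul_right _ (by omega)
      have g2 : (70 * (L + 1)) * (B + 1) = 70 * ((B + 1) * (L + 1)) := by ring
      omega
    have f3 : 100 * 7 ^ L * (2 * C + 1) ≤ 400 * (C + 1) * ((lq * ld) ^ (k + 1) * M) := by
      have g1 : 7 ^ L ≤ 2 * ((lq * ld) ^ (k + 1) * M) := by omega
      calc 100 * 7 ^ L * (2 * C + 1) ≤ 100 * (2 * ((lq * ld) ^ (k + 1) * M)) * (2 * (C + 1)) :=
            Nat.mul_le_mul (Nat.mul_le_mul_left _ g1) (by omega)
        _ = _ := by ring
    have f4 : 100 * (k + 1) * ((B + 1) * (L + 1)) ^ k * (7 ^ L * (2 * C) + 1) ≤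
        100 * (k + 1) * 4 ^ k * (4 * C + 1) * ((lq * ld) ^ (k + 1) * M) := by
      have g1 : 7 ^ L * (2 * C) + 1 ≤ (4 * C + 1) * M := by
        have g2 : 7 ^ L * (2 * C) ≤ (2 * M) * (2 * C) := Nat.mul_le_mul_right _ hw2
        have g3 : (4 * C + 1) * M = (2 * M) * (2 * C) + M := by ring
        omega
      calc 100 * (k + 1) * ((B + 1) * (L + 1)) ^ k * (7 ^ L * (2 * C) + 1)
          ≤ 100 * (k + 1) * (4 ^ k * (lq * ld) ^ (k + 1)) * ((4 * C + 1) * M) :=
            Nat.mul_le_mul (Nat.mul_le_mul_left _ hWk) g1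
        _ = _ := by ring
    have f5 : d + 1 ≤ (lq * ld) ^ (k + 1) * M := by omega
    have f6 : (1000 * (k + 1) * 4 ^ k * (4 * C + 1) + 10000 * (C + 1)) * (lq * ld) ^ (k + 1) * M =
      10 * (100 * (k + 1) * 4 ^ k * (4 * C + 1) * ((lq * ld) ^ (k + 1) * M)) +
        10000 * (C + 1) * ((lq * ld) ^ (k + 1) * M) := by ring
    rw [f6]
    have f7 : 10000 * (C + 1) * ((lq * ld) ^ (k + 1) * M) =
      25 * (400 * (C + 1) * ((lq * ld) ^ (k + 1) * M)) := by ring
    have f8 : C + 1 ≤ (C + 1) * ((lq * ld) ^ (k + 1) * M) := Nat.le_mul_of_pos_right _ hT1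
    have f9 : (lq * ld) ^ (k + 1) * M ≤ (C + 1) * ((lq * ld) ^ (k + 1) * M) :=
      Nat.le_mul_of_pos_left _ (by omega)
    have f10 : 400 * (C + 1) * ((lq * ld) ^ (k + 1) * M) =
      400 * ((C + 1) * ((lq * ld) ^ (k + 1) * M)) := by ring
    rw [f7]
    rw [f10] at f3 ⊢
    generalize (lq * ld) ^ (k + 1) * M = T at *
    generalize (C + 1) * T = T2 at *
    omega

end Pool.Agent.H330FB.JC3
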