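import Pool.Agent.H330FB.Lib5
import Pool.Agent.H330FB.Spec5
set_option autoImplicit false
noncomputable section
namespace Pool.Agent.H330FB.JC4
open Polynomial

/-- the input type -/
abbrev In : Ty := .prod Po (.prod Ma Po)
/-- the output type -/
abbrev Out : Ty := .list (.prod Ma Un)

/-- the budget for the input -/
def uP (pb : Pr [] (.prod Po Ma) Un) : Pr [] In Un :=
  .comp (.pair .fst (.comp .snd .fst)) pb

/-- the new program -/
def newP (pb : Pr [] (.prod Po Ma) Un) (p' : Pr [] (.prod Un In) (.list Out)) : Pr [] In Out :=
  onL (.comp (.pair (uP pb) .id) p') .nil (.comp .snd .fst)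

section
variable {F : Type} [Field F] [DecidableEq F]

theorem val_newP (pb : Pr [] (.prod Po Ma) Un) (p' : Pr [] (.prod Un In) (.list Out))
    (a : List F) (H : List (List F)) (r : List F) :
    (newP pb p').val () (a, (H, r)) =
      lcase (p'.val () (pb.val () (a, H), (a, (H, r)))) [] (fun h _ => h) := by
  simp [newP, uP]

theorem cost_newP (pb : Pr [] (.prod Po Ma) Un) (p' : Pr [] (.prod Un In) (.list Out))
    (a : List F) (H : List (List F)) (r : List F) :
    (newP pb p').cost () () (a, (H, r)) ≤ pb.cost () () (a, H) +
      p'.cost () () (pb.val () (a, H), (a, (H, r))) + 12 := by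
  simp only [newP, uP, cost_onL, cost_comp, cost_pair, cost_fst, cost_snd, cost_id, cost_nil,
    val_comp, val_pair, val_fst, val_snd, val_id]
  cases (p'.val () (pb.val () (a, H), (a, (H, r))) : List (Ty.D F Out)) with
  | nil => simp only [lcase_nil]; omega
  | cons h t => simp only [lcase_cons]; omega

end

theorem ww_pos (d : ℕ) : 1 ≤ ww (d + 1) := by
  unfold ww vv
  exact Nat.mul_pos (Nat.succ_pos _) (Nat.succ_pos _)

theorem lg_pos (q d k : ℕ) : 1 ≤ (lgc q * lgc d) ^ k := by
  apply Nat.one_le_pow
  unfold lgc
  positivity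

/- (NOTE: Lang.lean and Lib1.lean changed today at 11:08: fetch them again.) Take main, C, k from SpecMainA, the budget program for C, k and the clocked version of main; new program: u = budget (bits q, H), run the clocked program on (u, input), output the element of
 the resulting list, or [] if it is empty. For r with main.cost <= budget the result is the same, so the good set contains the old one. The cost bound holds for every list r. -/
theorem specMainB (h1 : SpecMainA) (h2 : SpecClock) (h3 : SpecBudget) : SpecMainB := by
  obtain ⟨main, C, k, hmain⟩ := h1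
  obtain ⟨pb, C', k', hb⟩ := h3 C k
  obtain ⟨p', D, hp⟩ := h2 _ _ main
  refine ⟨newP pb p', C' + D * C' + D + 12, k', ?_⟩
  intro F _ _ _ d H hd hH hT
  have hq : 1 ≤ Fintype.card F := Fintype.card_pos
  obtain ⟨b1, b2, b3⟩ := hb F (Fintype.card F) d H hq hd hH.1
  refine ⟨?_, ?_⟩
  · intro r
    have e1 := cost_newP pb p' (bits F (Fintype.card F)) H r
    have e2 := (hp F (pb.val () (bits F (Fintype.card F), H))
      (bits F (Fintype.card F), (H, r))).1
    refine e1.trans ?_
    have w1 : 1 ≤ (lgc (Fintype.card F) * lgc d) ^ k' * ww (d + 1) :=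
      Nat.mul_pos (lg_pos _ _ _) (ww_pos d)
    have a1 : C' * (lgc (Fintype.card F) * lgc d) ^ k' * ww (d + 1) =
        C' * ((lgc (Fintype.card F) * lgc d) ^ k' * ww (d + 1)) := by ring
    have a2 : (C' + D * C' + D + 12) * (lgc (Fintype.card F) * lgc d) ^ k' * ww (d + 1) =
        (C' + D * C' + D + 12) * ((lgc (Fintype.card F) * lgc d) ^ k' * ww (d + 1)) := by ring
    rw [a1] at b2 b3
    rw [a2]
    generalize (lgc (Fintype.card F) * lgc d) ^ k' * ww (d + 1) = W at *
    generalize List.length (pb.val () (bits F (Fintype.card F), H)) = len at *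
    have a3 : D * (len + 1) ≤ D * (C' * W + 1) := Nat.mul_le_mul_left _ (by omega)
    have a4 : (C' + D * C' + D + 12) * W = C' * W + D * (C' * W) + D * W + 12 * W := by ring
    have a5 : D * (C' * W + 1) = D * (C' * W) + D := by ring
    have a6 : D ≤ D * W := Nat.le_mul_of_pos_right _ w1
    rw [a4]
    omega
  · refine (hmain F d H hd hH hT).trans (Nat.mul_le_mul_left _ ?_)
    refine Nat.card_mono (Set.toFinite _) ?_
    rintro r ⟨hr1, hr2⟩
    have e2 := (hp F (pb.val () (bits F (Fintype.card F), H))
      (bits F (Fintype.card F), (H, List.ofFn r))).2 (hr2.trans b1)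
    have e3 := val_newP pb p' (bits F (Fintype.card F)) H (List.ofFn r)
    rw [e2] at e3
    show FacGood (hom H) ((newP pb p').val () (bits F (Fintype.card F), (H, List.ofFn r)))
    rw [e3]
    exact hr1
end Pool.Agent.H330FB.JC4
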