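import Pool.Agent.H330FB.JE9
import Pool.Agent.H330FB.Lib5
import Pool.Agent.H330FB.Spec5
set_option autoImplicit false
noncomputable section
namespace Pool.Agent.H330FB.JC5
open Polynomial

theorem clog_mul_le (a b : ℕ) : Nat.clog 2 (a * b) ≤ Nat.clog 2 a + Nat.clog 2 b := by
  apply Nat.clog_le_of_le_pow
  rw [pow_add]
  exact Nat.mul_le_mul (Nat.le_pow_clog (by norm_num) a) (Nat.le_pow_clog (by norm_num) b)

theorem clog_pow_le (a n : ℕ) : Nat.clog 2 (a ^ n) ≤ n * Nat.clog 2 a := by
  induction n with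
  | zero => simp
  | succ n ih =>
    rw [pow_succ]
    refine (clog_mul_le _ _).trans ?_
    rw [add_mul, one_mul]
    exact Nat.add_le_add_right ih _

theorem lgc_le {c q d : ℕ} (h : q ≤ c * d ^ c) : lgc q ≤ (Nat.clog 2 c + c + 1) * lgc d := by
  have h1 : Nat.clog 2 q ≤ Nat.clog 2 c + c * Nat.clog 2 d :=
    (Nat.clog_mono_right 2 h).trans ((clog_mul_le _ _).trans (Nat.add_le_add_left (clog_pow_le d c) _))
  unfold lgc
  nlinarith [Nat.zero_le (Nat.clog 2 c * Nat.clog 2 d), Nat.zero_le (Nat.clog 2 d)]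

/- As in finalStmt of JE9.lean: conversion to MvPolynomial. The real bound from SpecCalc. -/
theorem finalStmt2 (h : SpecMainB) (h1 : SpecCalc) (h0 : SpecUnits) : FinalStmt2 := by
  obtain ⟨main, C, k, hmain⟩ := h
  refine ⟨main, fun c => ?_⟩
  obtain ⟨C', hC'⟩ := h1 (2 * k) (C * (Nat.clog 2 c + c + 1) ^ k + 2)
  refine ⟨C', ?_⟩
  intro F _ _ _ d f hd hf hcard
  obtain ⟨hcost, hprob⟩ := hmain F d (coeffRows d f) hd (JE9.isHom_coeffRows d f)
    (JE9.topNe_coeffRows d f hd hf)
  have hexp : (3 - 1 / 10 : ℝ) = 29 / 10 := by norm_num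
  refine ⟨fun ω => ?_, ?_⟩
  · rw [hexp]
    refine le_trans ?_ (hC' d hd)
    have h2 : main.cost () () (bits F (Fintype.card F), (coeffRows d f, ω)) ≤
        (C * (Nat.clog 2 c + c + 1) ^ k + 2) * lgc d ^ (2 * k) *
          ww ((C * (Nat.clog 2 c + c + 1) ^ k + 2) * d) := by
      refine (hcost ω).trans ?_
      have h3 : lgc (Fintype.card F) * lgc d ≤ (Nat.clog 2 c + c + 1) * lgc d ^ 2 := by
        rw [pow_two, ← mul_assoc]
        exact Nat.mul_le_mul_right _ (lgc_le hcard)
      have h4 : (lgc (Fintype.card F) * lgc d) ^ k ≤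
          (Nat.clog 2 c + c + 1) ^ k * lgc d ^ (2 * k) := by
        refine (Nat.pow_le_pow_left h3 k).trans (le_of_eq ?_)
        rw [mul_pow, ← pow_mul]
      have h5 : ww (d + 1) ≤ ww ((C * (Nat.clog 2 c + c + 1) ^ k + 2) * d) := by
        apply h0.2.1
        nlinarith [Nat.zero_le (C * (Nat.clog 2 c + c + 1) ^ k * d)]
      refine Nat.mul_le_mul ?_ h5
      calc C * (lgc (Fintype.card F) * lgc d) ^ k
          ≤ C * ((Nat.clog 2 c + c + 1) ^ k * lgc d ^ (2 * k)) := Nat.mul_le_mul_left _ h4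
        _ = C * (Nat.clog 2 c + c + 1) ^ k * lgc d ^ (2 * k) := by ring
        _ ≤ (C * (Nat.clog 2 c + c + 1) ^ k + 2) * lgc d ^ (2 * k) :=
            Nat.mul_le_mul_right _ (Nat.le_add_right _ _)
    exact_mod_cast h2
  · refine le_trans hprob (Nat.mul_le_mul_left 3 ?_)
    have himp : ∀ r : Fin (RR d) → F,
        (FacGood (hom (coeffRows d f))
          (main.val () (bits F (Fintype.card F), (coeffRows d f, List.ofFn r)))) →
        (IsFactorization f
            (main.val () (binary F (Fintype.card F), (coeffRows d f, List.ofFn r)))) := by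
      intro r hr
      exact JE9.facGood_conv f _ _ (JE9.ofRows_coeffRows d f hf) hr
    refine Nat.card_le_card_of_injective
      (fun x => (⟨x.1, himp x.1 x.2⟩ : {ω : Fin (numRandom d) → F //
        IsFactorization f
          (main.val () (binary F (Fintype.card F), (coeffRows d f, List.ofFn ω)))})) ?_
    intro x y hxy
    exact Subtype.ext (Subtype.mk.inj hxy)
end Pool.Agent.H330FB.JC5
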