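import Pool.Agent.H330FB.Assembly
import Pool.Agent.H330FB.Spec5
import Pool.Agent.H330FB.JC1
import Pool.Agent.H330FB.JC2
import Pool.Agent.H330FB.JC3
import Pool.Agent.H330FB.JC4
import Pool.Agent.H330FB.JC5

set_option autoImplicit false

/-!
# Assembly of all parts, clocked version
-/

namespace Pool.Agent.H330FB.Assembly2

open Pool.Agent.H330FB

theorem clock : SpecClock := JC1.specClock
theorem mainA : SpecMainA := JC2.specMainA Assembly.full Assembly.sim Assembly.find Assembly.units
theorem budget : SpecBudget := JC3.specBudget Assembly.units
theorem mainB : SpecMainB := JC4.specMainB mainA clock budget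
theorem final2 : FinalStmt2 := JC5.finalStmt2 mainB Assembly.calc' Assembly.units

end Pool.Agent.H330FB.Assembly2
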