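import Pool.Agent.H330FB.Lib5
import Pool.Agent.H330FB.Spec1
set_option autoImplicit false
noncomputable section
namespace Pool.Agent.H330FB.JA1
open Polynomial

theorem units_uu_mono {a b : ℕ} (h : a ≤ b) : uu a ≤ uu b := by
  induction h with
  | refl => exact le_rfl
  | step _ ih =>
    rename_i m _
    refine le_trans ih ?_
    unfold uu
    apply Nat.add_le_add_right
    rw [← Nat.mul_div_mul_left (7 ^ m) (4 ^ m) (show 0 < 4 by norm_num), pow_succ 4 m, mul_comm (4 ^ m) 4]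
    apply Nat.div_le_div_right
    rw [pow_succ]
    omega

theorem units_vv_mono {a b : ℕ} (h : a ≤ b) : vv a ≤ vv b := by
  induction h with
  | refl => exact le_rfl
  | step _ ih =>
    rename_i m _
    refine le_trans ih ?_
    unfold vv
    apply Nat.add_le_add_right
    rw [← Nat.mul_div_mul_left (7 ^ m) (2 ^ m) (show 0 < 2 by norm_num), pow_succ 2 m, mul_comm (2 ^ m) 2]
    apply Nat.div_le_div_right
    rw [pow_succ]
    omega

theorem units_uu_pos (k : ℕ) : 1 ≤ uu k := Nat.succ_pos _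

theorem units_vv_pos (k : ℕ) : 1 ≤ vv k := Nat.succ_pos _

theorem units_pow_uu (k : ℕ) : 7 ^ k ≤ 4 ^ k * uu k := by
  unfold uu
  exact le_of_lt (Nat.lt_mul_div_succ _ (by positivity))

theorem units_pow_vv (k : ℕ) : 7 ^ k ≤ 2 ^ k * vv k := by
  unfold vv
  exact le_of_lt (Nat.lt_mul_div_succ _ (by positivity))

theorem units_uu_add (k j : ℕ) : uu (k + j) ≤ 2 * 7 ^ j * uu k := by
  have h1 : 7 ^ (k + j) / 4 ^ (k + j) ≤ 7 ^ j * uu k := by
    apply Nat.div_le_of_le_mul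
    calc 7 ^ (k + j) = 7 ^ k * 7 ^ j := pow_add _ _ _
      _ ≤ 4 ^ k * uu k * 7 ^ j := Nat.mul_le_mul_right _ (units_pow_uu k)
      _ = 4 ^ k * (7 ^ j * uu k) := by ring
      _ ≤ 4 ^ (k + j) * (7 ^ j * uu k) :=
        Nat.mul_le_mul_right _ (Nat.pow_le_pow_right (by norm_num) (by omega))
  have h2 : 1 ≤ 7 ^ j * uu k := Nat.mul_pos (by positivity) (units_uu_pos k)
  have h3 : uu (k + j) = 7 ^ (k + j) / 4 ^ (k + j) + 1 := rfl
  rw [h3, mul_assoc]
  omega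

theorem units_vv_add (k j : ℕ) : vv (k + j) ≤ 2 * 7 ^ j * vv k := by
  have h1 : 7 ^ (k + j) / 2 ^ (k + j) ≤ 7 ^ j * vv k := by
    apply Nat.div_le_of_le_mul
    calc 7 ^ (k + j) = 7 ^ k * 7 ^ j := pow_add _ _ _
      _ ≤ 2 ^ k * vv k * 7 ^ j := Nat.mul_le_mul_right _ (units_pow_vv k)
      _ = 2 ^ k * (7 ^ j * vv k) := by ring
      _ ≤ 2 ^ (k + j) * (7 ^ j * vv k) :=
        Nat.mul_le_mul_right _ (Nat.pow_le_pow_right (by norm_num) (by omega))
  have h2 : 1 ≤ 7 ^ j * vv k := Nat.mul_pos (by positivity) (units_vv_pos k)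
  have h3 : vv (k + j) = 7 ^ (k + j) / 2 ^ (k + j) + 1 := rfl
  rw [h3, mul_assoc]
  omega

theorem units_two_pow_le (k : ℕ) : 2 ^ k ≤ 7 ^ k / 2 ^ k := by
  rw [Nat.le_div_iff_mul_le (by positivity), ← mul_pow]
  exact Nat.pow_le_pow_left (by norm_num) k

theorem units_uu_vv (k : ℕ) : 2 ^ k * uu k ≤ 2 * vv k := by
  have h1 : 2 ^ k * (7 ^ k / 4 ^ k) ≤ 7 ^ k / 2 ^ k := by
    rw [Nat.le_div_iff_mul_le (by positivity)]
    calc 2 ^ k * (7 ^ k / 4 ^ k) * 2 ^ k = 4 ^ k * (7 ^ k / 4 ^ k) := by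
          rw [show (4 : ℕ) = 2 * 2 by norm_num, mul_pow]; ring
      _ ≤ 7 ^ k := Nat.mul_div_le _ _
  have h2 := units_two_pow_le k
  unfold uu vv
  rw [mul_add, mul_one]
  omega

theorem units_clog_mul (a b : ℕ) : Nat.clog 2 (a * b) ≤ Nat.clog 2 a + Nat.clog 2 b := by
  rw [Nat.clog_le_iff_le_pow (by norm_num), pow_add]
  exact Nat.mul_le_mul (Nat.le_pow_clog (by norm_num) a) (Nat.le_pow_clog (by norm_num) b)

theorem units_pow_clog {N : ℕ} (h : 1 ≤ N) : 2 ^ Nat.clog 2 N ≤ 2 * N := by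
  rcases Nat.lt_or_ge 1 N with h1 | h1
  · have h2 := Nat.pow_pred_clog_lt_self (b := 2) (by norm_num) h1
    have h3 : 0 < Nat.clog 2 N := Nat.clog_pos (by norm_num) h1
    obtain ⟨m, hm⟩ : ∃ m, Nat.clog 2 N = m + 1 := ⟨Nat.clog 2 N - 1, by omega⟩
    rw [hm] at h2 ⊢
    simp only [Nat.pred_eq_sub_one, Nat.add_sub_cancel] at h2
    rw [pow_succ]
    omega
  · have : N = 1 := by omega
    subst this
    simp

theorem units_mu_mono {a b : ℕ} (h : a ≤ b) : mu a ≤ mu b := by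
  unfold mu
  apply Nat.mul_le_mul h
  apply units_uu_mono
  have := Nat.clog_mono_right 2 h
  omega

theorem units_ww_mono {a b : ℕ} (h : a ≤ b) : ww a ≤ ww b := by
  unfold ww
  apply Nat.mul_le_mul h
  apply units_vv_mono
  exact Nat.clog_mono_right 2 h

theorem units_mu_c (c N : ℕ) : mu (c * (N + 1)) ≤ (c * (2 * 7 ^ Nat.clog 2 c)) * mu (N + 1) := by
  have h1 := units_clog_mul c (N + 1)
  have h2 : uu ((Nat.clog 2 (c * (N + 1)) + 1) / 2) ≤
      2 * 7 ^ Nat.clog 2 c * uu ((Nat.clog 2 (N + 1) + 1) / 2) :=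
    le_trans (units_uu_mono (by omega)) (units_uu_add _ _)
  unfold mu
  calc c * (N + 1) * uu ((Nat.clog 2 (c * (N + 1)) + 1) / 2)
      ≤ c * (N + 1) * (2 * 7 ^ Nat.clog 2 c * uu ((Nat.clog 2 (N + 1) + 1) / 2)) :=
        Nat.mul_le_mul_left _ h2
    _ = _ := by ring

theorem units_vv_c (c N : ℕ) : vv (Nat.clog 2 (c * (N + 1))) ≤
    (2 * 7 ^ Nat.clog 2 c) * vv (Nat.clog 2 (N + 1)) := by
  have h1 := units_clog_mul c (N + 1)
  exact le_trans (units_vv_mono (by omega)) (units_vv_add _ _)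

theorem specUnits : SpecUnits := by
  refine ⟨fun a b h => units_mu_mono h, fun a b h => units_ww_mono h, fun a b h => units_vv_mono h,
    ?_, ?_, ?_, ?_, ?_, ?_, ?_, ?_, ?_, ?_, ?_⟩
  · intro a b
    have h1 : uu ((Nat.clog 2 a + 1) / 2) ≤ uu ((Nat.clog 2 (a + b) + 1) / 2) := by
      apply units_uu_mono
      have := Nat.clog_mono_right 2 (show a ≤ a + b by omega)
      omega
    have h2 : uu ((Nat.clog 2 b + 1) / 2) ≤ uu ((Nat.clog 2 (a + b) + 1) / 2) := by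
      apply units_uu_mono
      have := Nat.clog_mono_right 2 (show b ≤ a + b by omega)
      omega
    unfold mu
    rw [add_mul]
    exact Nat.add_le_add (Nat.mul_le_mul_left _ h1) (Nat.mul_le_mul_left _ h2)
  · intro a b
    have h1 : vv (Nat.clog 2 a) ≤ vv (Nat.clog 2 (a + b)) :=
      units_vv_mono (Nat.clog_mono_right 2 (by omega))
    have h2 : vv (Nat.clog 2 b) ≤ vv (Nat.clog 2 (a + b)) :=
      units_vv_mono (Nat.clog_mono_right 2 (by omega))
    unfold ww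
    rw [add_mul]
    exact Nat.add_le_add (Nat.mul_le_mul_left _ h1) (Nat.mul_le_mul_left _ h2)
  · intro N
    unfold mu
    exact Nat.le_mul_of_pos_right _ (units_uu_pos _)
  · intro N
    unfold ww
    apply Nat.mul_le_mul_left
    refine le_trans (Nat.le_pow_clog (b := 2) (by norm_num) N) ?_
    have := units_two_pow_le (Nat.clog 2 N)
    unfold vv
    omega
  · intro c
    exact ⟨_, fun N => units_mu_c c N⟩
  · intro c
    refine ⟨c * (2 * 7 ^ Nat.clog 2 c), fun N => ?_⟩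
    unfold ww
    calc c * (N + 1) * vv (Nat.clog 2 (c * (N + 1)))
        ≤ c * (N + 1) * ((2 * 7 ^ Nat.clog 2 c) * vv (Nat.clog 2 (N + 1))) :=
          Nat.mul_le_mul_left _ (units_vv_c c N)
      _ = _ := by ring
  · intro c
    exact ⟨_, fun N => units_vv_c c N⟩
  · intro c
    refine ⟨c * (2 * 7 ^ Nat.clog 2 c) * 2, fun N => ?_⟩
    have h1 := units_clog_mul (c * (N + 1)) (N + 1)
    have h2 := units_clog_mul c (N + 1)
    have h3 : uu ((Nat.clog 2 (c * (N + 1) * (N + 1)) + 1) / 2) ≤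
        2 * 7 ^ Nat.clog 2 c * uu (Nat.clog 2 (N + 1)) :=
      le_trans (units_uu_mono (by omega)) (units_uu_add _ _)
    have h4 : (N + 1) * uu (Nat.clog 2 (N + 1)) ≤ 2 * vv (Nat.clog 2 (N + 1)) :=
      le_trans (Nat.mul_le_mul_right _ (Nat.le_pow_clog (by norm_num) (N + 1))) (units_uu_vv _)
    unfold mu ww
    calc c * (N + 1) * (N + 1) * uu ((Nat.clog 2 (c * (N + 1) * (N + 1)) + 1) / 2)
        ≤ c * (N + 1) * (N + 1) * (2 * 7 ^ Nat.clog 2 c * uu (Nat.clog 2 (N + 1))) :=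
          Nat.mul_le_mul_left _ h3
      _ = c * (N + 1) * (2 * 7 ^ Nat.clog 2 c) * ((N + 1) * uu (Nat.clog 2 (N + 1))) := by ring
      _ ≤ c * (N + 1) * (2 * 7 ^ Nat.clog 2 c) * (2 * vv (Nat.clog 2 (N + 1))) :=
          Nat.mul_le_mul_left _ h4
      _ = _ := by ring
  · intro c
    refine ⟨c * (2 * 7 ^ Nat.clog 2 c) * 2, fun N => ?_⟩
    have h1 := units_mu_c c N
    have h3 : uu ((Nat.clog 2 (N + 1) + 1) / 2) ≤ uu (Nat.clog 2 (N + 1)) :=
      units_uu_mono (by omega)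
    have h4 : (N + 1) * uu (Nat.clog 2 (N + 1)) ≤ 2 * vv (Nat.clog 2 (N + 1)) :=
      le_trans (Nat.mul_le_mul_right _ (Nat.le_pow_clog (by norm_num) (N + 1))) (units_uu_vv _)
    have h5 : mu (N + 1) ≤ 2 * vv (Nat.clog 2 (N + 1)) := by
      unfold mu
      exact le_trans (Nat.mul_le_mul_left _ h3) h4
    unfold ww
    calc (N + 1) * mu (c * (N + 1)) ≤ (N + 1) * ((c * (2 * 7 ^ Nat.clog 2 c)) * mu (N + 1)) :=
          Nat.mul_le_mul_left _ h1
      _ ≤ (N + 1) * ((c * (2 * 7 ^ Nat.clog 2 c)) * (2 * vv (Nat.clog 2 (N + 1)))) :=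
          Nat.mul_le_mul_left _ (Nat.mul_le_mul_left _ h5)
      _ = _ := by ring
  · intro N hN
    have h1 := units_pow_uu ((Nat.clog 2 N + 1) / 2)
    have h2 : 4 ^ ((Nat.clog 2 N + 1) / 2) ≤ 4 * N := by
      calc 4 ^ ((Nat.clog 2 N + 1) / 2) = 2 ^ (2 * ((Nat.clog 2 N + 1) / 2)) := by
            rw [pow_mul]; norm_num
        _ ≤ 2 ^ (Nat.clog 2 N + 1) := Nat.pow_le_pow_right (by norm_num) (by omega)
        _ = 2 * 2 ^ Nat.clog 2 N := by rw [pow_succ]; ring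
        _ ≤ 2 * (2 * N) := Nat.mul_le_mul_left _ (units_pow_clog hN)
        _ = 4 * N := by ring
    unfold mu
    calc 7 ^ ((Nat.clog 2 N + 1) / 2) ≤ 4 ^ ((Nat.clog 2 N + 1) / 2) * uu ((Nat.clog 2 N + 1) / 2) := h1
      _ ≤ 4 * N * uu ((Nat.clog 2 N + 1) / 2) := Nat.mul_le_mul_right _ h2
      _ = _ := by ring
  · intro N hN
    unfold ww
    calc 7 ^ Nat.clog 2 N ≤ 2 ^ Nat.clog 2 N * vv (Nat.clog 2 N) := units_pow_vv _
      _ ≤ 2 * N * vv (Nat.clog 2 N) := Nat.mul_le_mul_right _ (units_pow_clog hN)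
      _ = _ := by ring

end Pool.Agent.H330FB.JA1
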