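import Pool.Agent.H330FB.Lib5
import Pool.Agent.H330FB.Spec1
set_option autoImplicit false
set_option linter.unusedSectionVars false
noncomputable section
namespace Pool.Agent.H330FB.JA10
open Polynomial

/-! ### functions on matrices given by rows -/

section fn
variable {F : Type} [Field F] [DecidableEq F]

/-- entry of a matrix given by rows -/
def ment (M : List (List F)) (i j : ℕ) : F := (M.getD i []).getD j 0

/-- exactly `n` rows of length `n` -/
def Sq (n : ℕ) (M : List (List F)) : Prop := M.length = n ∧ Sh n M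

/-- entrywise combination -/
def mz (f : F → F → F) (A B : List (List F)) : List (List F) := List.zipWith (List.zipWith f) A B

/-- quadrants -/
def q00 (A : List (List F)) : List (List F) := (eo A).1.map (fun r => (eo r).1)
/-- quadrants -/
def q01 (A : List (List F)) : List (List F) := (eo A).1.map (fun r => (eo r).2)
/-- quadrants -/
def q10 (A : List (List F)) : List (List F) := (eo A).2.map (fun r => (eo r).1)
/-- quadrants -/
def q11 (A : List (List F)) : List (List F) := (eo A).2.map (fun r => (eo r).2)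

/-- matrix from its quadrants -/
def jn (a b c d : List (List F)) : List (List F) :=
  il [] (List.zipWith (il 0) a b) (List.zipWith (il 0) c d)

/-- entrywise sum -/
def mad (A B : List (List F)) : List (List F) := mz (fun x y => x + y) A B
/-- entrywise difference -/
def msb (A B : List (List F)) : List (List F) := mz (fun x y => x + -y) A B

/-- the recursion of Strassen -/
def strs : ℕ → List (List F) → List (List F) → List (List F)
  | 0, A, B => mz (fun x y => x * y) A B
  | k + 1, A, B =>
    let m1 := strs k (mad (q00 A) (q11 A)) (mad (q00 B) (q11 B))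
    let m2 := strs k (mad (q10 A) (q11 A)) (q00 B)
    let m3 := strs k (q00 A) (msb (q01 B) (q11 B))
    let m4 := strs k (q11 A) (msb (q10 B) (q00 B))
    let m5 := strs k (mad (q00 A) (q01 A)) (q11 B)
    let m6 := strs k (msb (q10 A) (q00 A)) (mad (q00 B) (q01 B))
    let m7 := strs k (msb (q01 A) (q11 A)) (mad (q10 B) (q11 B))
    jn (mad (msb (mad m1 m4) m5) m7) (mad m3 m5) (mad m2 m4) (mad (mad (msb m1 m2) m3) m6)

/-- as a matrix -/
def toMx (n : ℕ) (A : List (List F)) : Matrix (Fin n) (Fin n) F := fun i j => ment A i j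

theorem getD_eo {α : Type} (z : α) (l : List α) (i : ℕ) :
    (eo l).1.getD i z = l.getD (2 * i) z ∧ (eo l).2.getD i z = l.getD (2 * i + 1) z := by
  induction l generalizing i with
  | nil => simp [eo]
  | cons h t ih =>
    constructor
    · cases i with
      | zero => simp [eo]
      | succ i =>
        have := (ih i).2
        simp only [eo, List.getD_cons_succ, this]
        rw [show 2 * (i + 1) = 2 * i + 1 + 1 by ring, List.getD_cons_succ]
    · simp only [eo, List.getD_cons_succ]
      exact (ih i).1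

theorem getD_il {α : Type} (z : α) (l m : List α) (i : ℕ) :
    (il z l m).getD (2 * i) z = l.getD i z ∧ (il z l m).getD (2 * i + 1) z = m.getD i z := by
  induction i generalizing l m with
  | zero => cases l <;> cases m <;> simp [il]
  | succ i ih =>
    rw [show 2 * (i + 1) = 2 * i + 1 + 1 by ring]
    cases l with
    | nil =>
      cases m with
      | nil => simp [il]
      | cons y m =>
        have := ih [] m
        simp only [il, List.getD_cons_succ, this]
        simp
    | cons x l =>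
      cases m with
      | nil =>
        have := ih l []
        simp only [il, List.getD_cons_succ, this]
        simp
      | cons y m =>
        have := ih l m
        simp only [il, List.getD_cons_succ, this]
        simp

theorem length_il {α : Type} (z : α) (l m : List α) (h : l.length = m.length) :
    (il z l m).length = 2 * l.length := by
  induction l generalizing m with
  | nil => cases m with
    | nil => simp [il]
    | cons y m => simp at h
  | cons x l ih => cases m with
    | nil => simp at h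
    | cons y m =>
      have := ih m (by simpa using h)
      simp only [il, List.length_cons, this]
      ring

theorem mem_il {α : Type} (z : α) (l m : List α) (x : α) (h : x ∈ il z l m) (hl : l.length = m.length) :
    x ∈ l ∨ x ∈ m := by
  induction l generalizing m with
  | nil => cases m with
    | nil => simp [il] at h
    | cons y m => simp at hl
  | cons a l ih => cases m with
    | nil => simp at hl
    | cons y m =>
      simp only [il, List.mem_cons] at h
      rcases h with h | h | h
      · left; simp [h]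
      · right; simp [h]
      · rcases ih m h (by simpa using hl) with h | h
        · left; simp [h]
        · right; simp [h]

theorem mem_eo {α : Type} (l : List α) (x : α) (h : x ∈ (eo l).1 ∨ x ∈ (eo l).2) : x ∈ l := by
  induction l with
  | nil => simp [eo] at h
  | cons a l ih =>
    simp only [eo, List.mem_cons] at h ⊢
    rcases h with (h | h) | h
    · exact Or.inl h
    · exact Or.inr (ih (Or.inr h))
    · exact Or.inr (ih (Or.inl h))

theorem sq_q {n : ℕ} {A : List (List F)} (h : Sq (2 * n) A) :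
    Sq n (q00 A) ∧ Sq n (q01 A) ∧ Sq n (q10 A) ∧ Sq n (q11 A) := by
  obtain ⟨h1, h2⟩ := h
  have e := length_eo A
  have key : ∀ r ∈ A, (eo r).1.length = n ∧ (eo r).2.length = n := by
    intro r hr
    have := length_eo r
    have h3 := h2 r hr
    omega
  refine ⟨⟨?_, ?_⟩, ⟨?_, ?_⟩, ⟨?_, ?_⟩, ⟨?_, ?_⟩⟩
  · simp only [q00, List.length_map]; omega
  · intro r hr
    obtain ⟨t, ht, rfl⟩ := List.mem_map.1 hr
    exact (key t (mem_eo A t (Or.inl ht))).1
  · simp only [q01, List.length_map]; omega
  · intro r hr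
    obtain ⟨t, ht, rfl⟩ := List.mem_map.1 hr
    exact (key t (mem_eo A t (Or.inl ht))).2
  · simp only [q10, List.length_map]; omega
  · intro r hr
    obtain ⟨t, ht, rfl⟩ := List.mem_map.1 hr
    exact (key t (mem_eo A t (Or.inr ht))).1
  · simp only [q11, List.length_map]; omega
  · intro r hr
    obtain ⟨t, ht, rfl⟩ := List.mem_map.1 hr
    exact (key t (mem_eo A t (Or.inr ht))).2

theorem ment_q (A : List (List F)) (i j : ℕ) :
    ment (q00 A) i j = ment A (2 * i) (2 * j) ∧ ment (q01 A) i j = ment A (2 * i) (2 * j + 1) ∧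
    ment (q10 A) i j = ment A (2 * i + 1) (2 * j) ∧
    ment (q11 A) i j = ment A (2 * i + 1) (2 * j + 1) := by
  have key : ∀ (f : List F → List F) (_ : f [] = []) (l : List (List F)),
      (l.map f).getD i [] = f (l.getD i []) := by
    intro f hf l
    have := List.getD_map (l := l) (d := ([] : List F)) (n := i) f
    rw [hf] at this
    exact this
  unfold ment q00 q01 q10 q11
  rw [key _ rfl, key _ rfl, key _ rfl, key _ rfl, (getD_eo [] A i).1, (getD_eo [] A i).2,
    (getD_eo 0 _ j).1, (getD_eo 0 _ j).2, (getD_eo 0 _ j).1, (getD_eo 0 _ j).2]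
  exact ⟨rfl, rfl, rfl, rfl⟩

theorem sq_mz {n : ℕ} (f : F → F → F) {A B : List (List F)} (hA : Sq n A) (hB : Sq n B) :
    Sq n (mz f A B) := by
  refine ⟨by simp [mz, hA.1, hB.1], ?_⟩
  intro r hr
  unfold mz at hr
  obtain ⟨i, hi, rfl⟩ := List.mem_iff_getElem.1 hr
  rw [List.length_zipWith] at hi
  have h1 : A[i] ∈ A := List.getElem_mem _
  have h2 : B[i] ∈ B := List.getElem_mem _
  simp [hA.2 _ h1, hB.2 _ h2]

theorem ment_mz {n : ℕ} (f : F → F → F) {A B : List (List F)} (hA : Sq n A) (hB : Sq n B)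
    {i j : ℕ} (hi : i < n) (hj : j < n) : ment (mz f A B) i j = f (ment A i j) (ment B i j) := by
  have hAi : i < A.length := by rw [hA.1]; exact hi
  have hBi : i < B.length := by rw [hB.1]; exact hi
  have h1 : A[i].length = n := hA.2 _ (List.getElem_mem _)
  have h2 : B[i].length = n := hB.2 _ (List.getElem_mem _)
  unfold ment mz
  have e0 : (List.zipWith (List.zipWith f) A B).getD i [] = List.zipWith f A[i] B[i] := by
    rw [List.getD_eq_getElem _ _ (by simp [hA.1, hB.1, hi]), List.getElem_zipWith]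
  rw [e0, List.getD_eq_getElem _ _ hAi, List.getD_eq_getElem _ _ hBi,
    List.getD_eq_getElem _ _ (by simp [h1, h2, hj]), List.getElem_zipWith,
    List.getD_eq_getElem _ _ (by simp [h1, hj]), List.getD_eq_getElem _ _ (by simp [h2, hj])]

theorem sq_jn {n : ℕ} {a b c d : List (List F)} (ha : Sq n a) (hb : Sq n b) (hc : Sq n c)
    (hd : Sq n d) : Sq (2 * n) (jn a b c d) := by
  have hz : ∀ {a b : List (List F)}, Sq n a → Sq n b → (List.zipWith (il 0) a b).length = n ∧
      ∀ r ∈ List.zipWith (il 0) a b, r.length = 2 * n := by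
    intro a b ha hb
    refine ⟨by simp [ha.1, hb.1], ?_⟩
    intro r hr
    obtain ⟨i, hi, rfl⟩ := List.mem_iff_getElem.1 hr
    rw [List.length_zipWith] at hi
    have h1 : a[i].length = n := ha.2 _ (List.getElem_mem _)
    have h2 : b[i].length = n := hb.2 _ (List.getElem_mem _)
    rw [List.getElem_zipWith, length_il _ _ _ (by rw [h1, h2]), h1]
  obtain ⟨h1, h2⟩ := hz ha hb
  obtain ⟨h3, h4⟩ := hz hc hd
  refine ⟨?_, ?_⟩
  · unfold jn
    rw [length_il _ _ _ (by rw [h1, h3]), h1]
  · intro r hr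
    unfold jn at hr
    rcases mem_il _ _ _ r hr (by rw [h1, h3]) with h | h
    · exact h2 r h
    · exact h4 r h

theorem ment_jn {n : ℕ} {a b c d : List (List F)} (ha : Sq n a) (hb : Sq n b) (hc : Sq n c)
    (hd : Sq n d) {i j : ℕ} (hi : i < n) :
    ment (jn a b c d) (2 * i) (2 * j) = ment a i j ∧
    ment (jn a b c d) (2 * i) (2 * j + 1) = ment b i j ∧
    ment (jn a b c d) (2 * i + 1) (2 * j) = ment c i j ∧
    ment (jn a b c d) (2 * i + 1) (2 * j + 1) = ment d i j := by
  have hz : ∀ {a b : List (List F)}, Sq n a → Sq n b →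
      (List.zipWith (il 0) a b).getD i [] = il 0 (a.getD i []) (b.getD i []) := by
    intro a b ha hb
    rw [List.getD_eq_getElem _ _ (by simp [ha.1, hb.1, hi]), List.getElem_zipWith,
      List.getD_eq_getElem _ _ (by rw [ha.1]; exact hi),
      List.getD_eq_getElem _ _ (by rw [hb.1]; exact hi)]
  unfold ment jn
  rw [(getD_il _ _ _ _).1, (getD_il _ _ _ _).2, hz ha hb, hz hc hd, (getD_il _ _ _ _).1,
    (getD_il _ _ _ _).2, (getD_il _ _ _ _).1, (getD_il _ _ _ _).2]
  exact ⟨rfl, rfl, rfl, rfl⟩

theorem toMx_mad {n : ℕ} {A B : List (List F)} (hA : Sq n A) (hB : Sq n B) :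
    toMx n (mad A B) = toMx n A + toMx n B := by
  funext i j
  exact ment_mz _ hA hB i.2 j.2

theorem toMx_msb {n : ℕ} {A B : List (List F)} (hA : Sq n A) (hB : Sq n B) :
    toMx n (msb A B) = toMx n A - toMx n B := by
  funext i j
  rw [Matrix.sub_apply, sub_eq_add_neg]
  exact ment_mz _ hA hB i.2 j.2

theorem sum_even_odd (g : ℕ → F) (n : ℕ) : ∑ k ∈ Finset.range (2 * n), g k =
    ∑ k ∈ Finset.range n, g (2 * k) + ∑ k ∈ Finset.range n, g (2 * k + 1) := by
  induction n with
  | zero => simp
  | succ n ih =>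
    rw [show 2 * (n + 1) = 2 * n + 1 + 1 by ring, Finset.sum_range_succ, Finset.sum_range_succ, ih,
      Finset.sum_range_succ, Finset.sum_range_succ]
    ring

theorem toMx_mul_apply {n : ℕ} (A B : List (List F)) (i j : Fin n) :
    (toMx n A * toMx n B) i j = ∑ k ∈ Finset.range n, ment A i k * ment B k j := by
  rw [Matrix.mul_apply, Finset.sum_range]
  rfl

theorem strs_spec (k : ℕ) : ∀ (A B : List (List F)), Sq (2 ^ k) A → Sq (2 ^ k) B →
    Sq (2 ^ k) (strs k A B) ∧ toMx (2 ^ k) (strs k A B) = toMx (2 ^ k) A * toMx (2 ^ k) B := by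
  induction k with
  | zero =>
    intro A B hA hB
    refine ⟨sq_mz _ hA hB, ?_⟩
    funext i j
    rw [toMx_mul_apply]
    have hi := i.2
    have hj := j.2
    rw [pow_zero] at hA hB
    have h := ment_mz (fun x y => x * y) hA hB (i := i) (j := j) (by omega) (by omega)
    change ment (mz (fun x y => x * y) A B) i j = _
    have hi0 : (i : ℕ) = 0 := by omega
    have hj0 : (j : ℕ) = 0 := by omega
    have hr : Finset.range (2 ^ 0) = Finset.range 1 := rfl
    rw [h, hr, Finset.sum_range_one, hi0, hj0]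
  | succ k ih =>
    intro A B hA hB
    rw [pow_succ, mul_comm] at hA hB
    obtain ⟨a0, a1, a2, a3⟩ := sq_q hA
    obtain ⟨b0, b1, b2, b3⟩ := sq_q hB
    obtain ⟨s1, t1⟩ := ih _ _ (sq_mz (fun x y => x + y) a0 a3) (sq_mz (fun x y => x + y) b0 b3)
    obtain ⟨s2, t2⟩ := ih _ _ (sq_mz (fun x y => x + y) a2 a3) b0
    obtain ⟨s3, t3⟩ := ih _ _ a0 (sq_mz (fun x y => x + -y) b1 b3)
    obtain ⟨s4, t4⟩ := ih _ _ a3 (sq_mz (fun x y => x + -y) b2 b0)
    obtain ⟨s5, t5⟩ := ih _ _ (sq_mz (fun x y => x + y) a0 a1) b3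
    obtain ⟨s6, t6⟩ := ih _ _ (sq_mz (fun x y => x + -y) a2 a0) (sq_mz (fun x y => x + y) b0 b1)
    obtain ⟨s7, t7⟩ := ih _ _ (sq_mz (fun x y => x + -y) a1 a3) (sq_mz (fun x y => x + y) b2 b3)
    change toMx _ (strs k (mad (q00 A) (q11 A)) (mad (q00 B) (q11 B))) =
      toMx _ (mad _ _) * toMx _ (mad _ _) at t1
    change toMx _ (strs k (mad (q10 A) (q11 A)) (q00 B)) = toMx _ (mad _ _) * _ at t2
    change toMx _ (strs k (q00 A) (msb (q01 B) (q11 B))) = _ * toMx _ (msb _ _) at t3
    change toMx _ (strs k (q11 A) (msb (q10 B) (q00 B))) = _ * toMx _ (msb _ _) at t4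
    change toMx _ (strs k (mad (q00 A) (q01 A)) (q11 B)) = toMx _ (mad _ _) * _ at t5
    change toMx _ (strs k (msb (q10 A) (q00 A)) (mad (q00 B) (q01 B))) =
      toMx _ (msb _ _) * toMx _ (mad _ _) at t6
    change toMx _ (strs k (msb (q01 A) (q11 A)) (mad (q10 B) (q11 B))) =
      toMx _ (msb _ _) * toMx _ (mad _ _) at t7
    rw [toMx_mad a0 a3, toMx_mad b0 b3] at t1
    rw [toMx_mad a2 a3] at t2
    rw [toMx_msb b1 b3] at t3
    rw [toMx_msb b2 b0] at t4
    rw [toMx_mad a0 a1] at t5
    rw [toMx_msb a2 a0, toMx_mad b0 b1] at t6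
    rw [toMx_msb a1 a3, toMx_mad b2 b3] at t7
    change Sq _ (strs k (mad (q00 A) (q11 A)) (mad (q00 B) (q11 B))) at s1
    change Sq _ (strs k (mad (q10 A) (q11 A)) (q00 B)) at s2
    change Sq _ (strs k (q00 A) (msb (q01 B) (q11 B))) at s3
    change Sq _ (strs k (q11 A) (msb (q10 B) (q00 B))) at s4
    change Sq _ (strs k (mad (q00 A) (q01 A)) (q11 B)) at s5
    change Sq _ (strs k (msb (q10 A) (q00 A)) (mad (q00 B) (q01 B))) at s6
    change Sq _ (strs k (msb (q01 A) (q11 A)) (mad (q10 B) (q11 B))) at s7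
    have hstr : strs (k + 1) A B = jn
      (mad (msb (mad (strs k (mad (q00 A) (q11 A)) (mad (q00 B) (q11 B)))
        (strs k (q11 A) (msb (q10 B) (q00 B)))) (strs k (mad (q00 A) (q01 A)) (q11 B)))
        (strs k (msb (q01 A) (q11 A)) (mad (q10 B) (q11 B))))
      (mad (strs k (q00 A) (msb (q01 B) (q11 B))) (strs k (mad (q00 A) (q01 A)) (q11 B)))
      (mad (strs k (mad (q10 A) (q11 A)) (q00 B)) (strs k (q11 A) (msb (q10 B) (q00 B))))
      (mad (mad (msb (strs k (mad (q00 A) (q11 A)) (mad (q00 B) (q11 B)))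
        (strs k (mad (q10 A) (q11 A)) (q00 B))) (strs k (q00 A) (msb (q01 B) (q11 B))))
        (strs k (msb (q10 A) (q00 A)) (mad (q00 B) (q01 B)))) := rfl
    generalize strs k (mad (q00 A) (q11 A)) (mad (q00 B) (q11 B)) = m1 at *
    generalize strs k (mad (q10 A) (q11 A)) (q00 B) = m2 at *
    generalize strs k (q00 A) (msb (q01 B) (q11 B)) = m3 at *
    generalize strs k (q11 A) (msb (q10 B) (q00 B)) = m4 at *
    generalize strs k (mad (q00 A) (q01 A)) (q11 B) = m5 at *
    generalize strs k (msb (q10 A) (q00 A)) (mad (q00 B) (q01 B)) = m6 at *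
    generalize strs k (msb (q01 A) (q11 A)) (mad (q10 B) (q11 B)) = m7 at *
    have c14 : Sq (2 ^ k) (mad m1 m4) := sq_mz _ s1 s4
    have c145 : Sq (2 ^ k) (msb (mad m1 m4) m5) := sq_mz _ c14 s5
    have c0 : Sq (2 ^ k) (mad (msb (mad m1 m4) m5) m7) := sq_mz _ c145 s7
    have c1 : Sq (2 ^ k) (mad m3 m5) := sq_mz _ s3 s5
    have c2 : Sq (2 ^ k) (mad m2 m4) := sq_mz _ s2 s4
    have c12 : Sq (2 ^ k) (msb m1 m2) := sq_mz _ s1 s2
    have c123 : Sq (2 ^ k) (mad (msb m1 m2) m3) := sq_mz _ c12 s3
    have c3 : Sq (2 ^ k) (mad (mad (msb m1 m2) m3) m6) := sq_mz _ c123 s6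
    have e0 : toMx (2 ^ k) (mad (msb (mad m1 m4) m5) m7) =
        toMx (2 ^ k) (q00 A) * toMx (2 ^ k) (q00 B) +
          toMx (2 ^ k) (q01 A) * toMx (2 ^ k) (q10 B) := by
      rw [toMx_mad c145 s7, toMx_msb c14 s5, toMx_mad s1 s4, t1, t4, t5, t7]
      noncomm_ring
    have e1 : toMx (2 ^ k) (mad m3 m5) =
        toMx (2 ^ k) (q00 A) * toMx (2 ^ k) (q01 B) +
          toMx (2 ^ k) (q01 A) * toMx (2 ^ k) (q11 B) := by
      rw [toMx_mad s3 s5, t3, t5]
      noncomm_ring
    have e2 : toMx (2 ^ k) (mad m2 m4) =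
        toMx (2 ^ k) (q10 A) * toMx (2 ^ k) (q00 B) +
          toMx (2 ^ k) (q11 A) * toMx (2 ^ k) (q10 B) := by
      rw [toMx_mad s2 s4, t2, t4]
      noncomm_ring
    have e3 : toMx (2 ^ k) (mad (mad (msb m1 m2) m3) m6) =
        toMx (2 ^ k) (q10 A) * toMx (2 ^ k) (q01 B) +
          toMx (2 ^ k) (q11 A) * toMx (2 ^ k) (q11 B) := by
      rw [toMx_mad c123 s6, toMx_mad c12 s3, toMx_msb s1 s2, t1, t2, t3, t6]
      noncomm_ring
    rw [hstr]
    have hpow : 2 ^ (k + 1) = 2 * 2 ^ k := by ring
    refine ⟨by rw [hpow]; exact sq_jn c0 c1 c2 c3, ?_⟩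
    funext i j
    have hr : Finset.range (2 ^ (k + 1)) = Finset.range (2 * 2 ^ k) := by rw [hpow]
    rw [toMx_mul_apply, hr, sum_even_odd]
    have hi := i.2
    have hj := j.2
    have hi2 : (i : ℕ) / 2 < 2 ^ k := by omega
    have hj2 : (j : ℕ) / 2 < 2 ^ k := by omega
    obtain ⟨g0, g1, g2, g3⟩ := ment_jn c0 c1 c2 c3 (j := (j : ℕ) / 2) hi2
    have f0 := congrFun (congrFun e0 ⟨(i : ℕ) / 2, hi2⟩) ⟨(j : ℕ) / 2, hj2⟩
    have f1 := congrFun (congrFun e1 ⟨(i : ℕ) / 2, hi2⟩) ⟨(j : ℕ) / 2, hj2⟩
    have f2 := congrFun (congrFun e2 ⟨(i : ℕ) / 2, hi2⟩) ⟨(j : ℕ) / 2, hj2⟩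
    have f3 := congrFun (congrFun e3 ⟨(i : ℕ) / 2, hi2⟩) ⟨(j : ℕ) / 2, hj2⟩
    rw [Matrix.add_apply, toMx_mul_apply, toMx_mul_apply] at f0 f1 f2 f3
    simp only [(ment_q A _ _).1, (ment_q A _ _).2.1, (ment_q A _ _).2.2.1, (ment_q A _ _).2.2.2,
      (ment_q B _ _).1, (ment_q B _ _).2.1, (ment_q B _ _).2.2.1, (ment_q B _ _).2.2.2] at f0 f1 f2 f3
    change ment (mad (msb (mad m1 m4) m5) m7) ((i : ℕ) / 2) ((j : ℕ) / 2) = _ at f0
    change ment (mad m3 m5) ((i : ℕ) / 2) ((j : ℕ) / 2) = _ at f1
    change ment (mad m2 m4) ((i : ℕ) / 2) ((j : ℕ) / 2) = _ at f2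
    change ment (mad (mad (msb m1 m2) m3) m6) ((i : ℕ) / 2) ((j : ℕ) / 2) = _ at f3
    change ment (jn _ _ _ _) (i : ℕ) (j : ℕ) = _
    rcases Nat.even_or_odd' (i : ℕ) with ⟨i', hi' | hi'⟩ <;>
      rcases Nat.even_or_odd' (j : ℕ) with ⟨j', hj' | hj'⟩
    · have hi3 : (i : ℕ) / 2 = i' := by omega
      have hj3 : (j : ℕ) / 2 = j' := by omega
      rw [hi3, hj3] at f0 g0
      rw [hi', hj', g0, f0]
    · have hi3 : (i : ℕ) / 2 = i' := by omega
      have hj3 : (j : ℕ) / 2 = j' := by omega
      rw [hi3, hj3] at f1 g1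
      rw [hi', hj', g1, f1]
    · have hi3 : (i : ℕ) / 2 = i' := by omega
      have hj3 : (j : ℕ) / 2 = j' := by omega
      rw [hi3, hj3] at f2 g2
      rw [hi', hj', g2, f2]
    · have hi3 : (i : ℕ) / 2 = i' := by omega
      have hj3 : (j : ℕ) / 2 = j' := by omega
      rw [hi3, hj3] at f3 g3
      rw [hi', hj', g3, f3]

end fn

/-! ### the programs -/

section prog
variable {F : Type} [Field F] [DecidableEq F]
variable {s : List (Ty × Ty)} {d : Ty}

/-- entrywise combination of matrices -/
def mzP (f : Pr s (.prod .fld .fld) .fld) : Pr s (.prod Ma Ma) Ma :=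
  .comp (.pair .star .id) (zipP (c := .unit) (zipP (c := .unit) (.comp .snd f)))

@[simp] theorem val_mzP (f : Pr s (.prod .fld .fld) .fld) (v : SV F s) (x : Ty.D F (.prod Ma Ma)) :
    (mzP f).val v x = mz (fun y z => f.val v (y, z)) x.1 x.2 := by
  simp only [mzP, mz, val_comp, val_pair, val_star, val_id, val_zipP, val_snd]

theorem cost_mzP (f : Pr s (.prod .fld .fld) .fld) (v : SV F s) (k : SC F s)
    (x : Ty.D F (.prod Ma Ma)) (n : ℕ) (hn : 1 ≤ n) (h : Sq n (x.1 : List (List F)))
    (hf : ∀ y, f.cost v k y ≤ 10) : (mzP f).cost v k x ≤ 250 * (n * n) := by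
  obtain ⟨A, B⟩ := x
  have h1 := cost_zipP_le (s := s) (c := .unit) (a := Po) (b := Po)
    (zipP (c := .unit) (.comp .snd f)) v k ((), (A, B)) (60 * n + 15) (by
      intro y hy z _
      have h2 := cost_zipP_le (s := s) (c := .unit) (a := .fld) (b := .fld)
        (.comp .snd f) v k ((), (y, z)) 11 (by
          intro y' _ z' _
          have := hf (y', z')
          simp only [cost_comp, cost_snd, val_snd]
          omega)
      have h3 : List.length y = n := h.2 y hy
      simp only [h3] at h2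
      omega)
  have h4 : List.length A = n := h.1
  simp only [h4] at h1
  simp only [mzP, cost_comp, cost_pair, cost_star, cost_id, val_pair, val_star, val_id]
  nlinarith

/-- sum of matrices -/
def madP : Pr s (.prod Ma Ma) Ma := mzP .add
/-- difference of matrices -/
def msbP : Pr s (.prod Ma Ma) Ma := mzP (.comp (.pair .fst (.comp .snd .neg)) .add)
/-- entrywise product of matrices -/
def mmlP : Pr s (.prod Ma Ma) Ma := mzP .mul

@[simp] theorem val_madP (v : SV F s) (x : Ty.D F (.prod Ma Ma)) :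
    (madP : Pr s (.prod Ma Ma) Ma).val v x = mad x.1 x.2 := by
  simp [madP, mad]
@[simp] theorem val_msbP (v : SV F s) (x : Ty.D F (.prod Ma Ma)) :
    (msbP : Pr s (.prod Ma Ma) Ma).val v x = msb x.1 x.2 := by
  simp [msbP, msb]
@[simp] theorem val_mmlP (v : SV F s) (x : Ty.D F (.prod Ma Ma)) :
    (mmlP : Pr s (.prod Ma Ma) Ma).val v x = mz (fun y z => y * z) x.1 x.2 := by
  simp [mmlP]

theorem cost_madP (v : SV F s) (k : SC F s) (A B : List (List F)) (n : ℕ) (hn : 1 ≤ n)
    (h : Sq n A) : (madP : Pr s (.prod Ma Ma) Ma).cost v k (A, B) ≤ 250 * (n * n) :=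
  cost_mzP _ v k (A, B) n hn h (fun _ => by simp)
theorem cost_msbP (v : SV F s) (k : SC F s) (A B : List (List F)) (n : ℕ) (hn : 1 ≤ n)
    (h : Sq n A) : (msbP : Pr s (.prod Ma Ma) Ma).cost v k (A, B) ≤ 250 * (n * n) :=
  cost_mzP _ v k (A, B) n hn h (fun _ => by simp)
theorem cost_mmlP (v : SV F s) (k : SC F s) (A B : List (List F)) (n : ℕ) (hn : 1 ≤ n)
    (h : Sq n A) : (mmlP : Pr s (.prod Ma Ma) Ma).cost v k (A, B) ≤ 250 * (n * n) :=
  cost_mzP _ v k (A, B) n hn h (fun _ => by simp)

/-- even columns -/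
def ceP : Pr s Ma Ma := .comp (.pair .star .id) (mapP (c := .unit) (.comp .snd (.comp eoP .fst)))
/-- odd columns -/
def coP : Pr s Ma Ma := .comp (.pair .star .id) (mapP (c := .unit) (.comp .snd (.comp eoP .snd)))

/-- quadrant -/
def q00P : Pr s Ma Ma := .comp (.comp eoP .fst) ceP
/-- quadrant -/
def q01P : Pr s Ma Ma := .comp (.comp eoP .fst) coP
/-- quadrant -/
def q10P : Pr s Ma Ma := .comp (.comp eoP .snd) ceP
/-- quadrant -/
def q11P : Pr s Ma Ma := .comp (.comp eoP .snd) coP

@[simp] theorem val_q00P (v : SV F s) (A : Ty.D F Ma) :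
    (q00P : Pr s Ma Ma).val v A = q00 (A : List (List F)) := by
  simp [q00P, ceP, q00]
@[simp] theorem val_q01P (v : SV F s) (A : Ty.D F Ma) :
    (q01P : Pr s Ma Ma).val v A = q01 (A : List (List F)) := by
  simp [q01P, coP, q01]
@[simp] theorem val_q10P (v : SV F s) (A : Ty.D F Ma) :
    (q10P : Pr s Ma Ma).val v A = q10 (A : List (List F)) := by
  simp [q10P, ceP, q10]
@[simp] theorem val_q11P (v : SV F s) (A : Ty.D F Ma) :
    (q11P : Pr s Ma Ma).val v A = q11 (A : List (List F)) := by
  simp [q11P, coP, q11]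

theorem cost_ceP (v : SV F s) (k : SC F s) (A : List (List F)) (n : ℕ)
    (h : ∀ r ∈ A, r.length = 2 * n) (h1 : A.length = n) (hn : 1 ≤ n) :
    (ceP : Pr s Ma Ma).cost v k A ≤ 100 * (n * n) ∧ (coP : Pr s Ma Ma).cost v k A ≤ 100 * (n * n) := by
  have e1 := cost_mapP_le (s := s) (c := .unit) (a := Po) (b := Po) (.comp .snd (.comp eoP .fst))
    v k ((), A) (48 * n + 12) (by
      intro y hy
      have e := cost_eoP (s := s) (F := F) (a := .fld) v k y
      have h3 : List.length y = 2 * n := h y hy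
      simp only [cost_comp, cost_snd, val_snd, cost_fst]
      rw [h3] at e
      omega)
  have e2 := cost_mapP_le (s := s) (c := .unit) (a := Po) (b := Po) (.comp .snd (.comp eoP .snd))
    v k ((), A) (48 * n + 12) (by
      intro y hy
      have e := cost_eoP (s := s) (F := F) (a := .fld) v k y
      have h3 : List.length y = 2 * n := h y hy
      simp only [cost_comp, cost_snd, val_snd]
      rw [h3] at e
      omega)
  simp only [h1] at e1 e2
  constructor
  · simp only [ceP, cost_comp, cost_pair, cost_star, cost_id, val_pair, val_star, val_id]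
    nlinarith
  · simp only [coP, cost_comp, cost_pair, cost_star, cost_id, val_pair, val_star, val_id]
    nlinarith

theorem cost_qP (v : SV F s) (k : SC F s) (A : List (List F)) (n : ℕ) (hn : 1 ≤ n)
    (h : Sq (2 * n) A) :
    (q00P : Pr s Ma Ma).cost v k A ≤ 160 * (n * n) ∧ (q01P : Pr s Ma Ma).cost v k A ≤ 160 * (n * n) ∧
    (q10P : Pr s Ma Ma).cost v k A ≤ 160 * (n * n) ∧ (q11P : Pr s Ma Ma).cost v k A ≤ 160 * (n * n) := by
  have e0 := cost_eoP (s := s) (F := F) (a := Po) v k A
  have hl := length_eo A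
  have h1 := cost_ceP (s := s) v k (eo A).1 n (fun r hr => h.2 r (mem_eo A r (Or.inl hr)))
    (by have := h.1; omega) hn
  have h2 := cost_ceP (s := s) v k (eo A).2 n (fun r hr => h.2 r (mem_eo A r (Or.inr hr)))
    (by have := h.1; omega) hn
  have hA : List.length A = 2 * n := h.1
  rw [hA] at e0
  have hnn : n ≤ n * n := by nlinarith
  simp only [q00P, q01P, q10P, q11P, cost_comp, cost_fst, cost_snd, val_comp, val_eoP, val_fst, val_snd]
  refine ⟨?_, ?_, ?_, ?_⟩ <;> omega

/-- seven matrices -/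
abbrev M7 : Ty := .prod Ma (.prod Ma (.prod Ma (.prod Ma (.prod Ma (.prod Ma Ma)))))

/-- four quadrants to one matrix, input `((a, b), (c, d))` -/
def jnP : Pr s (.prod (.prod Ma Ma) (.prod Ma Ma)) Ma :=
  .comp (.pair .nil (.pair
    (.comp (.pair .star .fst) (zipP (c := .unit) (.comp (.pair .zero .snd) ilP)))
    (.comp (.pair .star .snd) (zipP (c := .unit) (.comp (.pair .zero .snd) ilP))))) ilP

@[simp] theorem val_jnP (v : SV F s) (x : Ty.D F (.prod (.prod Ma Ma) (.prod Ma Ma))) :
    (jnP : Pr s (.prod (.prod Ma Ma) (.prod Ma Ma)) Ma).val v x = jn x.1.1 x.1.2 x.2.1 x.2.2 := by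
  simp [jnP, jn]

theorem cost_jnP (v : SV F s) (k : SC F s) (a b c d : List (List F)) (n : ℕ) (hn : 1 ≤ n)
    (ha : Sq n a) (hb : Sq n b) (hc : Sq n c) (hd : Sq n d) :
    (jnP : Pr s (.prod (.prod Ma Ma) (.prod Ma Ma)) Ma).cost v k ((a, b), (c, d)) ≤
      1000 * (n * n) := by
  have key : ∀ a b : List (List F), Sq n a → Sq n b →
      (zipP (s := s) (c := .unit) (.comp (.pair .zero .snd) ilP) : Pr s (.prod .unit (.prod Ma Ma)) Ma).cost
        v k ((), (a, b)) ≤ (120 * n + 92) * n + 15 := by
    intro a b ha hb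
    have h1 := cost_zipP_le (s := s) (c := .unit) (a := Po) (b := Po)
      (.comp (.pair .zero .snd) ilP) v k ((), (a, b)) (120 * n + 43) (by
        intro y hy z hz
        have e := cost_ilP (s := s) (F := F) (a := .fld) v k ((0 : F), (y, z))
        have h3 : List.length y = n := ha.2 y hy
        have h4 : List.length z = n := hb.2 z hz
        simp only [h3, h4] at e
        simp only [cost_comp, cost_pair, cost_zero, cost_snd, val_pair, val_zero, val_snd]
        omega)
    have h3 : List.length a = n := ha.1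
    simp only [h3] at h1
    linarith
  have k1 := key a b ha hb
  have k2 := key c d hc hd
  have e := cost_ilP (s := s) (F := F) (a := Po) v k
    (([] : List F), (List.zipWith (il 0) a b, List.zipWith (il 0) c d))
  have l1 : List.length (List.zipWith (il 0) a b) = n := by simp [ha.1, hb.1]
  have l2 : List.length (List.zipWith (il 0) c d) = n := by simp [hc.1, hd.1]
  simp only [l1, l2] at e
  simp only [jnP, cost_comp, cost_pair, cost_nil, cost_star, cost_fst, cost_snd, val_pair, val_nil,
    val_comp, val_star, val_fst, val_snd, val_zipP, val_ilP, val_zero]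
  nlinarith

/-- recombination of the seven products -/
def cmbP : Pr s M7 Ma :=
  .comp
    (.pair
      (.pair
        (ap2 madP (ap2 msbP (ap2 madP .fst (.comp .snd (.comp .snd (.comp .snd .fst))))
          (.comp .snd (.comp .snd (.comp .snd (.comp .snd .fst)))))
          (.comp .snd (.comp .snd (.comp .snd (.comp .snd (.comp .snd .snd))))))
        (ap2 madP (.comp .snd (.comp .snd .fst)) (.comp .snd (.comp .snd (.comp .snd (.comp .snd .fst))))))
      (.pair
        (ap2 madP (.comp .snd .fst) (.comp .snd (.comp .snd (.comp .snd .fst))))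
        (ap2 madP (ap2 madP (ap2 msbP .fst (.comp .snd .fst)) (.comp .snd (.comp .snd .fst)))
          (.comp .snd (.comp .snd (.comp .snd (.comp .snd (.comp .snd .fst))))))))
    jnP

/-- the function of `cmbP` -/
def cmb (m1 m2 m3 m4 m5 m6 m7 : List (List F)) : List (List F) :=
  jn (mad (msb (mad m1 m4) m5) m7) (mad m3 m5) (mad m2 m4) (mad (mad (msb m1 m2) m3) m6)

@[simp] theorem val_cmbP (v : SV F s) (x : Ty.D F M7) :
    (cmbP : Pr s M7 Ma).val v x =
      cmb x.1 x.2.1 x.2.2.1 x.2.2.2.1 x.2.2.2.2.1 x.2.2.2.2.2.1 x.2.2.2.2.2.2 := by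
  simp [cmbP, cmb]

theorem cost_cmbP (v : SV F s) (k : SC F s) (m1 m2 m3 m4 m5 m6 m7 : List (List F)) (n : ℕ)
    (hn : 1 ≤ n) (s1 : Sq n m1) (s2 : Sq n m2) (s3 : Sq n m3) (s4 : Sq n m4) (s5 : Sq n m5)
    (s6 : Sq n m6) (s7 : Sq n m7) :
    (cmbP : Pr s M7 Ma).cost v k (m1, (m2, (m3, (m4, (m5, (m6, m7)))))) ≤ 4000 * (n * n) := by
  have c14 : Sq n (mad m1 m4) := sq_mz _ s1 s4
  have c145 : Sq n (msb (mad m1 m4) m5) := sq_mz _ c14 s5
  have c0 : Sq n (mad (msb (mad m1 m4) m5) m7) := sq_mz _ c145 s7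
  have c1 : Sq n (mad m3 m5) := sq_mz _ s3 s5
  have c2 : Sq n (mad m2 m4) := sq_mz _ s2 s4
  have c12 : Sq n (msb m1 m2) := sq_mz _ s1 s2
  have c123 : Sq n (mad (msb m1 m2) m3) := sq_mz _ c12 s3
  have c3 : Sq n (mad (mad (msb m1 m2) m3) m6) := sq_mz _ c123 s6
  have e1 := cost_madP (s := s) v k m1 m4 n hn s1
  have e2 := cost_msbP (s := s) v k (mad m1 m4) m5 n hn c14
  have e3 := cost_madP (s := s) v k (msb (mad m1 m4) m5) m7 n hn c145
  have e4 := cost_madP (s := s) v k m3 m5 n hn s3
  have e5 := cost_madP (s := s) v k m2 m4 n hn s2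
  have e6 := cost_msbP (s := s) v k m1 m2 n hn s1
  have e7 := cost_madP (s := s) v k (msb m1 m2) m3 n hn c12
  have e8 := cost_madP (s := s) v k (mad (msb m1 m2) m3) m6 n hn c123
  have e9 := cost_jnP (s := s) v k _ _ _ _ n hn c0 c1 c2 c3
  have hnn : 1 ≤ n * n := by nlinarith
  simp only [cmbP, ap2, cost_comp, cost_pair, cost_fst, cost_snd, val_comp, val_pair, val_fst,
    val_snd, val_madP, val_msbP]
  omega

/-- body of the recursion of Strassen -/
def strsB : Pr ((.prod Ma Ma, Ma) :: s) (.prod Ma Ma) Ma :=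
  .comp
    (.pair (ap2 .self (ap2 madP (.comp .fst q00P) (.comp .fst q11P))
        (ap2 madP (.comp .snd q00P) (.comp .snd q11P)))
    (.pair (ap2 .self (ap2 madP (.comp .fst q10P) (.comp .fst q11P)) (.comp .snd q00P))
    (.pair (ap2 .self (.comp .fst q00P) (ap2 msbP (.comp .snd q01P) (.comp .snd q11P)))
    (.pair (ap2 .self (.comp .fst q11P) (ap2 msbP (.comp .snd q10P) (.comp .snd q00P)))
    (.pair (ap2 .self (ap2 madP (.comp .fst q00P) (.comp .fst q01P)) (.comp .snd q11P))
    (.pair (ap2 .self (ap2 msbP (.comp .fst q10P) (.comp .fst q00P))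
        (ap2 madP (.comp .snd q00P) (.comp .snd q01P)))
    (ap2 .self (ap2 msbP (.comp .fst q01P) (.comp .fst q11P))
        (ap2 madP (.comp .snd q10P) (.comp .snd q11P)))))))))
    cmbP

/-- Strassen multiplication, input `(u, (A, B))`, `A` and `B` of size `2 ^ u.length` -/
def strsP : Pr s (.prod (.list d) (.prod Ma Ma)) Ma := .recD strsB mmlP

theorem goV_strs (v : SV F s) (n : ℕ) (A B : List (List F)) :
    goV (s := s) (F := F) strsB mmlP v n (A, B) = strs n A B := by
  induction n generalizing A B with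
  | zero => simp [goV, strs]
  | succ n ih =>
    have hgo : goV (s := s) (F := F) strsB mmlP v (n + 1) (A, B) =
        (strsB : Pr ((.prod Ma Ma, Ma) :: s) (.prod Ma Ma) Ma).val
          (goV (s := s) (F := F) strsB mmlP v n, v) (A, B) := rfl
    rw [hgo]
    generalize goV (s := s) (F := F) strsB mmlP v n = w at ih ⊢
    simp only [strsB, ap2, val_comp, val_pair, val_self, val_fst, val_snd, val_madP, val_msbP,
      val_q00P, val_q01P, val_q10P, val_q11P, val_cmbP, ih]
    rfl

@[simp] theorem val_strsP (v : SV F s) (x : Ty.D F (.prod (.list d) (.prod Ma Ma))) :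
    (strsP : Pr s (.prod (.list d) (.prod Ma Ma)) Ma).val v x = strs (List.length x.1) x.2.1 x.2.2 := by
  obtain ⟨u, A, B⟩ := x
  simp only [strsP, val_recD]
  exact goV_strs v _ A B

theorem goC_strs (v : SV F s) (k : SC F s) (n : ℕ) : ∀ (A B : List (List F)),
    Sq (2 ^ n) A → Sq (2 ^ n) B →
    goC (s := s) (F := F) strsB mmlP v k n (A, B) + 20000 * 4 ^ n ≤ 21000 * 7 ^ n := by
  induction n with
  | zero =>
    intro A B hA hB
    have := cost_mmlP (s := s) v k A B (2 ^ 0) (by norm_num) hA
    simp only [goC]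
    norm_num at this ⊢
    omega
  | succ n ih =>
    intro A B hA hB
    rw [pow_succ, mul_comm] at hA hB
    obtain ⟨a0, a1, a2, a3⟩ := sq_q hA
    obtain ⟨b0, b1, b2, b3⟩ := sq_q hB
    have hn : 1 ≤ 2 ^ n := Nat.one_le_two_pow
    generalize hv' : (goV (s := s) (F := F) strsB mmlP v n, v) = v'
    generalize hk' : (goC (s := s) (F := F) strsB mmlP v k n, k) = k'
    have hv1 : ∀ A B, v'.1 (A, B) = strs n A B := by
      intro A B; rw [← hv']; exact goV_strs v n A B
    have hk1 : ∀ A B, Sq (2 ^ n) A → Sq (2 ^ n) B → k'.1 (A, B) + 20000 * 4 ^ n ≤ 21000 * 7 ^ n := by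
      intro A B h1 h2; rw [← hk']; exact ih A B h1 h2
    have hq := cost_qP (s := (.prod Ma Ma, Ma) :: s) (F := F) v' k' A (2 ^ n) hn hA
    have hr := cost_qP (s := (.prod Ma Ma, Ma) :: s) (F := F) v' k' B (2 ^ n) hn hB
    obtain ⟨hq0, hq1, hq2, hq3⟩ := hq
    obtain ⟨hr0, hr1, hr2, hr3⟩ := hr
    have ad : ∀ {x y : List (List F)}, Sq (2 ^ n) x → Sq (2 ^ n) y → Sq (2 ^ n) (mad x y) :=
      fun h1 h2 => sq_mz _ h1 h2
    have sb : ∀ {x y : List (List F)}, Sq (2 ^ n) x → Sq (2 ^ n) y → Sq (2 ^ n) (msb x y) :=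
      fun h1 h2 => sq_mz _ h1 h2
    have k1 := hk1 _ _ (ad a0 a3) (ad b0 b3)
    have k2 := hk1 _ _ (ad a2 a3) b0
    have k3 := hk1 _ _ a0 (sb b1 b3)
    have k4 := hk1 _ _ a3 (sb b2 b0)
    have k5 := hk1 _ _ (ad a0 a1) b3
    have k6 := hk1 _ _ (sb a2 a0) (ad b0 b1)
    have k7 := hk1 _ _ (sb a1 a3) (ad b2 b3)
    have s1 := (strs_spec n _ _ (ad a0 a3) (ad b0 b3)).1
    have s2 := (strs_spec n _ _ (ad a2 a3) b0).1
    have s3 := (strs_spec n _ _ a0 (sb b1 b3)).1
    have s4 := (strs_spec n _ _ a3 (sb b2 b0)).1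
    have s5 := (strs_spec n _ _ (ad a0 a1) b3).1
    have s6 := (strs_spec n _ _ (sb a2 a0) (ad b0 b1)).1
    have s7 := (strs_spec n _ _ (sb a1 a3) (ad b2 b3)).1
    have hc := cost_cmbP (s := (.prod Ma Ma, Ma) :: s) (F := F) v' k' _ _ _ _ _ _ _ (2 ^ n) hn
      s1 s2 s3 s4 s5 s6 s7
    have u1 := cost_madP (s := (.prod Ma Ma, Ma) :: s) v' k' (q00 A) (q11 A) _ hn a0
    have u2 := cost_madP (s := (.prod Ma Ma, Ma) :: s) v' k' (q00 B) (q11 B) _ hn b0
    have u3 := cost_madP (s := (.prod Ma Ma, Ma) :: s) v' k' (q10 A) (q11 A) _ hn a2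
    have u4 := cost_msbP (s := (.prod Ma Ma, Ma) :: s) v' k' (q01 B) (q11 B) _ hn b1
    have u5 := cost_msbP (s := (.prod Ma Ma, Ma) :: s) v' k' (q10 B) (q00 B) _ hn b2
    have u6 := cost_madP (s := (.prod Ma Ma, Ma) :: s) v' k' (q00 A) (q01 A) _ hn a0
    have u7 := cost_msbP (s := (.prod Ma Ma, Ma) :: s) v' k' (q10 A) (q00 A) _ hn a2
    have u8 := cost_madP (s := (.prod Ma Ma, Ma) :: s) v' k' (q00 B) (q01 B) _ hn b0
    have u9 := cost_msbP (s := (.prod Ma Ma, Ma) :: s) v' k' (q01 A) (q11 A) _ hn a1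
    have u10 := cost_madP (s := (.prod Ma Ma, Ma) :: s) v' k' (q10 B) (q11 B) _ hn b2
    have h4 : 2 ^ n * 2 ^ n = 4 ^ n := by rw [← mul_pow]; norm_num
    have h41 : 1 ≤ 4 ^ n := Nat.one_le_pow _ _ (by norm_num)
    rw [h4] at hq0 hq1 hq2 hq3 hr0 hr1 hr2 hr3 hc u1 u2 u3 u4 u5 u6 u7 u8 u9 u10
    have hgo : goC (s := s) (F := F) strsB mmlP v k (n + 1) (A, B) =
        (strsB : Pr ((.prod Ma Ma, Ma) :: s) (.prod Ma Ma) Ma).cost v' k' (A, B) := by
      rw [← hv', ← hk']; rfl
    rw [hgo, pow_succ 4 n, pow_succ 7 n]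
    simp only [strsB, ap2, cost_comp, cost_pair, cost_self, cost_fst, cost_snd, val_comp, val_pair,
      val_self, val_fst, val_snd, val_madP, val_msbP, val_q00P, val_q01P, val_q10P, val_q11P, hv1]
    omega

theorem cost_strsP (v : SV F s) (k : SC F s) (u : Ty.D F (.list d)) (A B : List (List F))
    (hA : Sq (2 ^ List.length u) A) (hB : Sq (2 ^ List.length u) B) :
    (strsP : Pr s (.prod (.list d) (.prod Ma Ma)) Ma).cost v k (u, (A, B)) ≤
      21001 * 7 ^ List.length u := by
  simp only [strsP, cost_recD]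
  have := goC_strs (s := s) v k _ A B hA hB
  have h7 : 1 ≤ 7 ^ List.length u := Nat.one_le_pow _ _ (by norm_num)
  have e : goC (s := s) (F := F) strsB mmlP v k (List.length u) (A, B) ≤ 21000 * 7 ^ List.length u := by
    omega
  omega

end prog


/-! ### rectangular matrices -/

section rect
variable {F : Type} [Field F] [DecidableEq F]

theorem getD_fit {α : Type} (n : ℕ) (z : α) (l : List α) (i : ℕ) (h : i < n) :
    (fit n z l).getD i z = l.getD i z := by
  induction n generalizing l i with
  | zero => omega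
  | succ n ih =>
    cases l with
    | nil =>
      cases i with
      | zero => simp [fit]
      | succ i =>
        have := ih [] i (by omega)
        simp only [fit, List.getD_cons_succ, this]
        simp
    | cons x l =>
      cases i with
      | zero => simp [fit]
      | succ i =>
        have := ih l i (by omega)
        simp only [fit, List.getD_cons_succ, this]

/-- padding to a square matrix -/
def padM (N : ℕ) (M : List (List F)) : List (List F) := (fit N [] M).map (fit N 0)

theorem sq_padM (N : ℕ) (M : List (List F)) : Sq N (padM N M) := by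
  refine ⟨by simp [padM], ?_⟩
  intro r hr
  obtain ⟨t, _, rfl⟩ := List.mem_map.1 hr
  simp

theorem ment_padM (N : ℕ) (M : List (List F)) {i j : ℕ} (hi : i < N) (hj : j < N) :
    ment (padM N M) i j = ment M i j := by
  have h1 : (padM N M).getD i [] = fit N 0 (M.getD i []) := by
    rw [List.getD_eq_getElem _ _ (by simp [padM, hi])]
    unfold padM
    rw [List.getElem_map, ← getD_fit N [] M i hi, List.getD_eq_getElem _ _ (by simp [hi])]
  unfold ment
  rw [h1, getD_fit _ _ _ _ hj]

theorem rowdot (r : List F) (B : List (List F)) (j N : ℕ) (h : r.length ≤ N) :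
    (List.zipWith (fun x y => x * y.getD j 0) r B).sum =
      ∑ k ∈ Finset.range N, r.getD k 0 * ment B k j := by
  induction r generalizing B N with
  | nil => simp
  | cons x r ih =>
    obtain ⟨N, rfl⟩ : ∃ N', N = N' + 1 := ⟨N - 1, by simp at h; omega⟩
    cases B with
    | nil => simp [ment]
    | cons y B =>
      rw [Finset.sum_range_succ', List.zipWith_cons_cons, List.sum_cons,
        ih B N (by simpa using h), add_comm]
      rfl

theorem chunk_eq (K c : ℕ) (T B : List (List F)) (hT : T.length ≤ 2 ^ K) (hTm : Sh B.length T)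
    (hB : B.length ≤ 2 ^ K) (hc : c ≤ 2 ^ K) :
    List.zipWith (fun _ r => fit c 0 r) T (strs K (padM (2 ^ K) T) (padM (2 ^ K) B)) =
      mmul c T B := by
  obtain ⟨h1, h2⟩ := strs_spec K (padM (2 ^ K) T) (padM (2 ^ K) B) (sq_padM _ _) (sq_padM _ _)
  generalize strs K (padM (2 ^ K) T) (padM (2 ^ K) B) = R at h1 h2
  apply List.ext_getElem
  · simp [mmul, h1.1, hT]
  · intro i hi1 hi2
    have hiT : i < T.length := by simp at hi1; omega
    have hiN : i < 2 ^ K := by omega
    have hiR : i < R.length := by rw [h1.1]; exact hiN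
    have hlR : R[i].length = 2 ^ K := h1.2 _ (List.getElem_mem _)
    have hlT : T[i].length = B.length := hTm _ (List.getElem_mem _)
    have e0 : (mmul c T B)[i] = (List.range c).map (fun j =>
        (List.zipWith (fun x y => x * y.getD j 0) T[i] B).sum) := by
      simp only [mmul, List.getElem_map]
    rw [List.getElem_zipWith, e0]
    apply List.ext_getElem
    · simp
    · intro j hj1 hj2
      have hjc : j < c := by simpa using hj1
      have hjN : j < 2 ^ K := by omega
      have e1 : (fit c 0 R[i])[j] = ment R i j := by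
        rw [← List.getD_eq_getElem _ 0 hj1, getD_fit _ _ _ _ hjc]
        unfold ment
        rw [List.getD_eq_getElem R _ hiR]
      have e2 := congrFun (congrFun h2 ⟨i, hiN⟩) ⟨j, hjN⟩
      rw [toMx_mul_apply] at e2
      change ment R i j = ∑ k ∈ Finset.range (2 ^ K), ment (padM (2 ^ K) T) i k *
        ment (padM (2 ^ K) B) k j at e2
      rw [e1, e2, List.getElem_map, List.getElem_range, rowdot _ _ _ (2 ^ K) (by omega)]
      apply Finset.sum_congr rfl
      intro k hk
      have hk' : k < 2 ^ K := Finset.mem_range.1 hk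
      rw [ment_padM _ _ hiN hk', ment_padM _ _ hk' hjN]
      congr 1
      unfold ment
      rw [List.getD_eq_getElem T _ hiT]

variable {s : List (Ty × Ty)} {d : Ty}

/-- a list of length `B.length + c + 1` -/
def szP : Pr s (.prod Un (.prod Ma Ma)) Un :=
  .comp (.pair .star (.comp (.pair (.comp (.pair .star (.comp .snd .snd)) (mapP (c := .unit) .star))
    .fst) appP)) .cons

theorem val_szP (v : SV F s) (u : List Unit) (A B : List (List F)) :
    List.length ((szP : Pr s (.prod Un (.prod Ma Ma)) Un).val v (u, (A, B))) =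
      B.length + u.length + 1 := by
  simp [szP]

theorem cost_szP (v : SV F s) (k : SC F s) (u : List Unit) (A B : List (List F)) :
    (szP : Pr s (.prod Un (.prod Ma Ma)) Un).cost v k (u, (A, B)) ≤ 34 * B.length + 30 := by
  have h1 := cost_mapP_le (s := s) (c := .unit) (a := Po) (b := .unit) .star v k ((), B) 1
    (fun _ _ => by simp)
  have h2 := cost_appP (s := s) (F := F) (a := .unit) v k
    (List.map (fun _ : Ty.D F Po => (() : Ty.D F .unit)) B, u)
  simp only [List.length_map] at h1 h2
  simp only [szP, cost_comp, cost_pair, cost_star, cost_snd, cost_fst, cost_cons, val_comp,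
    val_pair, val_star, val_snd, val_fst, val_mapP]
  omega

/-- a list of length `2 ^ u.length` -/
def dblP : Pr s (.prod (.list d) .unit) Un :=
  .recD (lt .self (.comp (.pair .snd .snd) appP)) (.comp (.pair .star .nil) .cons)

theorem dbl_aux (v : SV F s) (k : SC F s) (n : ℕ) :
    List.length (goV (s := s) (F := F) (σ := .unit) (τ := Un) (lt .self (.comp (.pair .snd .snd) appP))
      (.comp (.pair .star .nil) .cons) v n ()) = 2 ^ n ∧
    goC (s := s) (F := F) (σ := .unit) (τ := Un) (lt .self (.comp (.pair .snd .snd) appP))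
      (.comp (.pair .star .nil) .cons) v k n () ≤ 40 * 2 ^ n := by
  induction n with
  | zero => simp [goV, goC]
  | succ n ih =>
    obtain ⟨h1, h2⟩ := ih
    have hp : 1 ≤ 2 ^ n := Nat.one_le_two_pow
    generalize hv' : (goV (s := s) (F := F) (σ := .unit) (τ := Un)
      (lt .self (.comp (.pair .snd .snd) appP)) (.comp (.pair .star .nil) .cons) v n, v) = v'
    generalize hk' : (goC (s := s) (F := F) (σ := .unit) (τ := Un)
      (lt .self (.comp (.pair .snd .snd) appP)) (.comp (.pair .star .nil) .cons) v k n, k) = k'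
    have hv1 : List.length (v'.1 ()) = 2 ^ n := by rw [← hv']; exact h1
    have hk1 : k'.1 () ≤ 40 * 2 ^ n := by rw [← hk']; exact h2
    have g1 : goV (s := s) (F := F) (σ := .unit) (τ := Un) (lt .self (.comp (.pair .snd .snd) appP))
      (.comp (.pair .star .nil) .cons) v (n + 1) () = (lt .self (.comp (.pair .snd .snd) appP) :
        Pr ((.unit, Un) :: s) .unit Un).val v' () := by rw [← hv']; rfl
    have g2 : goC (s := s) (F := F) (σ := .unit) (τ := Un) (lt .self (.comp (.pair .snd .snd) appP))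
      (.comp (.pair .star .nil) .cons) v k (n + 1) () = (lt .self (.comp (.pair .snd .snd) appP) :
        Pr ((.unit, Un) :: s) .unit Un).cost v' k' () := by rw [← hv', ← hk']; rfl
    have e := cost_appP (s := (.unit, Un) :: s) (F := F) (a := .unit) v' k' (v'.1 (), v'.1 ())
    simp only [hv1] at e
    rw [g1, g2]
    constructor
    · simp only [val_lt, val_comp, val_pair, val_self, val_snd, val_appP, List.length_append, hv1]
      ring
    · simp only [cost_lt, cost_comp, cost_pair, cost_self, cost_snd, val_pair, val_self, val_snd]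
      rw [pow_succ]
      omega

/-- padding -/
def padP : Pr s (.prod Un Ma) Ma :=
  .comp (.pair .fst (.comp (.pair .fst (.pair .nil .snd)) fitP))
    (mapP (c := Un) (.comp (.pair .fst (.pair .zero .snd)) fitP))

@[simp] theorem val_padP (v : SV F s) (x : Ty.D F (.prod Un Ma)) :
    (padP : Pr s (.prod Un Ma) Ma).val v x = padM (List.length x.1) x.2 := by
  simp [padP, padM]

theorem cost_padP (v : SV F s) (k : SC F s) (w : List Unit) (M : List (List F)) (N : ℕ)
    (hw : w.length = N) (hN : 1 ≤ N) :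
    (padP : Pr s (.prod Un Ma) Ma).cost v k (w, M) ≤ 100 * (N * N) := by
  have h1 := cost_fitP (s := s) (F := F) (a := Po) (b := .unit) v k (w, (([] : List F), M))
  have h2 := cost_mapP_le (s := s) (F := F) (c := Un) (a := Po) (b := Po)
    (.comp (.pair .fst (.pair .zero .snd)) fitP) v k (w, fit w.length [] M) (20 * N + 7) (by
      intro y _
      have h3 := cost_fitP (s := s) (F := F) (a := .fld) (b := .unit) v k (w, ((0 : F), y))
      simp only [hw] at h3
      simp only [cost_comp, cost_pair, cost_fst, cost_zero, cost_snd, val_pair, val_fst, val_zero,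
        val_snd]
      omega)
  simp only [hw, length_fit] at h1 h2
  simp only [padP, cost_comp, cost_pair, cost_fst, cost_snd, cost_nil, val_comp, val_pair, val_fst,
    val_snd, val_nil, val_fitP, hw]
  nlinarith

/-- context of the main recursion: a list of length `2 ^ K`, one of length `K`, one of length `c`
and the padded second matrix -/
abbrev EE : Ty := .prod Un (.prod Un (.prod Un Ma))

/-- product of one chunk -/
def chkP : Pr s (.prod EE Ma) Ma :=
  .comp (.pair (.comp .fst (.comp .snd (.comp .snd .fst)))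
     (.pair .snd
        (.comp (.pair (.comp .fst (.comp .snd .fst))
           (.pair (.comp (.pair (.comp .fst .fst) .snd) padP)
             (.comp .fst (.comp .snd (.comp .snd .snd))))) strsP)))
   (zipP (c := Un) (.comp (.pair .fst (.pair .zero (.comp .snd .snd))) fitP))

@[simp] theorem val_chkP (v : SV F s) (x : Ty.D F (.prod EE Ma)) :
    (chkP : Pr s (.prod EE Ma) Ma).val v x =
      List.zipWith (fun _ r => fit (List.length x.1.2.2.1) 0 r) x.2
        (strs (List.length x.1.2.1) (padM (List.length x.1.1) x.2) x.1.2.2.2) := by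
  simp [chkP]

theorem cost_chkP (v : SV F s) (k : SC F s) (w fu uc : List Unit) (Q T : List (List F)) (K : ℕ)
    (hw : w.length = 2 ^ K) (hf : fu.length = K) (hc : uc.length ≤ 2 ^ K) (hQ : Sq (2 ^ K) Q)
    (hT : T.length ≤ 2 ^ K) :
    (chkP : Pr s (.prod EE Ma) Ma).cost v k ((w, (fu, (uc, Q))), T) ≤ 22000 * 7 ^ K := by
  have hN : 1 ≤ 2 ^ K := Nat.one_le_two_pow
  have h1 := cost_padP (s := s) v k w T (2 ^ K) hw hN
  have h2 := cost_strsP (s := s) (d := .unit) v k fu (padM w.length T) Q
    (by rw [hw]; change Sq (2 ^ List.length fu) _; rw [hf]; exact sq_padM _ _)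
    (by change Sq (2 ^ List.length fu) _; rw [hf]; exact hQ)
  have h3 := cost_zipP_le (s := s) (F := F) (c := Un) (a := Po) (b := Po) (d := Po)
    (.comp (.pair .fst (.pair .zero (.comp .snd .snd))) fitP) v k
    (uc, (T, strs fu.length (padM w.length T) Q)) (20 * 2 ^ K + 8) (by
      intro y _ z _
      have h4 := cost_fitP (s := s) (F := F) (a := .fld) (b := .unit) v k (uc, ((0 : F), z))
      simp only [cost_comp, cost_pair, cost_fst, cost_zero, cost_snd, val_pair, val_fst, val_zero,
        val_snd, val_comp]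
      have h5 : 20 * List.length uc ≤ 20 * 2 ^ K := Nat.mul_le_mul_left _ hc
      simp only at h4
      omega)
  have h4 : 2 ^ K * 2 ^ K = 4 ^ K := by rw [← mul_pow]; norm_num
  have h5 : 4 ^ K ≤ 7 ^ K := Nat.pow_le_pow_left (by norm_num) K
  have h6 : 2 ^ K ≤ 4 ^ K := Nat.pow_le_pow_left (by norm_num) K
  rw [h4] at h1
  simp only [hf, hw] at h2 h3
  have h7 : (20 * 2 ^ K + 8 + 49) * List.length T ≤ (20 * 2 ^ K + 8 + 49) * 2 ^ K :=
    Nat.mul_le_mul_left _ hT
  have h8 : (20 * 2 ^ K + 8 + 49) * 2 ^ K = 20 * 4 ^ K + 57 * 2 ^ K := by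
    rw [← h4]; ring
  rw [h8] at h7
  simp only [chkP, cost_comp, cost_pair, cost_fst, cost_snd, val_comp, val_pair, val_fst, val_snd,
    val_padP, val_strsP, hf, hw]
  omega

/-- body of the main recursion -/
def mainB : Pr ((.prod EE Ma, Ma) :: s) (.prod EE Ma) Ma :=
  onL .snd .nil
    (lt (ap2 splitP (.comp .fst (.comp .fst .fst)) (.comp .fst .snd))
      (ap2 appP (ap2 chkP (.comp (.comp .fst .fst) .fst) (.comp .snd .fst))
        (ap2 .self (.comp (.comp .fst .fst) .fst) (.comp .snd .snd))))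

theorem mmul_append (c : ℕ) (A A' B : List (List F)) :
    mmul c (A ++ A') B = mmul c A B ++ mmul c A' B := by
  simp [mmul]

theorem goV_main (v : SV F s) (w fu uc : List Unit) (B : List (List F)) (K : ℕ)
    (hw : w.length = 2 ^ K) (hf : fu.length = K) (hc : uc.length ≤ 2 ^ K) (hB : B.length ≤ 2 ^ K)
    (n : ℕ) : ∀ l : List (List F), l.length ≤ n → Sh B.length l →
    goV (s := s) (F := F) mainB .nil v n ((w, (fu, (uc, padM (2 ^ K) B))), l) =
      mmul uc.length l B := by
  have hN : 1 ≤ 2 ^ K := Nat.one_le_two_pow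
  induction n with
  | zero =>
    intro l hl _
    have : l = [] := List.length_eq_zero_iff.mp (by omega)
    subst this
    simp [goV, mmul]
  | succ n ih =>
    intro l hl hS
    generalize hv' : (goV (s := s) (F := F) mainB .nil v n, v) = v'
    have hgo : goV (s := s) (F := F) mainB .nil v (n + 1)
        ((w, (fu, (uc, padM (2 ^ K) B))), l) =
        (mainB : Pr ((.prod EE Ma, Ma) :: s) (.prod EE Ma) Ma).val v'
          ((w, (fu, (uc, padM (2 ^ K) B))), l) := by rw [← hv']; rfl
    have hv1 : ∀ l : List (List F), l.length ≤ n → Sh B.length l →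
      v'.1 ((w, (fu, (uc, padM (2 ^ K) B))), l) = mmul uc.length l B := by
      intro l h1 h2; rw [← hv']; exact ih l h1 h2
    rw [hgo]
    cases l with
    | nil => simp [mainB, mmul]
    | cons h t =>
      have h1 := hv1 ((h :: t).drop (2 ^ K)) (by
          simp only [List.length_drop, List.length_cons] at hl ⊢; omega)
        (fun r hr => hS r (List.mem_of_mem_drop hr))
      have h2 := chunk_eq K uc.length ((h :: t).take (2 ^ K)) B
        (by simp) (fun r hr => hS r (List.mem_of_mem_take hr)) hB hc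
      simp only [mainB, ap2, val_onL, val_snd, lcase_cons, val_lt, val_comp, val_pair, val_fst,
        val_splitP, val_appP, val_chkP, val_self, hw, hf]
      rw [h1]
      change List.zipWith (fun x r => fit (List.length uc) 0 r) (List.take (2 ^ K) (h :: t))
        (strs K (padM (2 ^ K) (List.take (2 ^ K) (h :: t))) (padM (2 ^ K) B)) ++ _ = _
      rw [h2, ← mmul_append, List.take_append_drop]

theorem goC_main_nil (v : SV F s) (k : SC F s) (E : Ty.D F EE) (n : ℕ) :
    goC (s := s) (F := F) mainB .nil v k n (E, ([] : List (List F))) ≤ 5 := by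
  cases n with
  | zero => simp [goC]
  | succ n =>
    generalize hv' : (goV (s := s) (F := F) mainB .nil v n, v) = v'
    generalize hk' : (goC (s := s) (F := F) mainB .nil v k n, k) = k'
    have hgo : goC (s := s) (F := F) mainB .nil v k (n + 1) (E, ([] : List (List F))) =
        (mainB : Pr ((.prod EE Ma, Ma) :: s) (.prod EE Ma) Ma).cost v' k'
          (E, ([] : List (List F))) := by rw [← hv', ← hk']; rfl
    rw [hgo]
    simp [mainB]

theorem goC_main (v : SV F s) (k : SC F s) (w fu uc : List Unit) (Q : List (List F)) (K : ℕ)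
    (hw : w.length = 2 ^ K) (hf : fu.length = K) (hc : uc.length ≤ 2 ^ K) (hQ : Sq (2 ^ K) Q)
    (n : ℕ) : ∀ l : List (List F),
    2 ^ K * goC (s := s) (F := F) mainB .nil v k n ((w, (fu, (uc, Q))), l) ≤
      23000 * 7 ^ K * (l.length + 2 ^ K) := by
  have hN : 1 ≤ 2 ^ K := Nat.one_le_two_pow
  have h7 : 1 ≤ 7 ^ K := Nat.one_le_pow _ _ (by norm_num)
  have h4 : 2 ^ K * 2 ^ K = 4 ^ K := by rw [← mul_pow]; norm_num
  have h5 : 4 ^ K ≤ 7 ^ K := Nat.pow_le_pow_left (by norm_num) K
  have h6 : 2 ^ K ≤ 4 ^ K := Nat.pow_le_pow_left (by norm_num) K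
  induction n with
  | zero =>
    intro l
    simp only [goC, cost_nil, mul_one]
    nlinarith
  | succ n ih =>
    intro l
    generalize hv' : (goV (s := s) (F := F) mainB .nil v n, v) = v'
    generalize hk' : (goC (s := s) (F := F) mainB .nil v k n, k) = k'
    have hgo : goC (s := s) (F := F) mainB .nil v k (n + 1) ((w, (fu, (uc, Q))), l) =
        (mainB : Pr ((.prod EE Ma, Ma) :: s) (.prod EE Ma) Ma).cost v' k'
          ((w, (fu, (uc, Q))), l) := by rw [← hv', ← hk']; rfl
    have hk1 : ∀ l : List (List F), 2 ^ K * k'.1 ((w, (fu, (uc, Q))), l) ≤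
        23000 * 7 ^ K * (l.length + 2 ^ K) := by
      intro l; rw [← hk']; exact ih l
    have hk2 : k'.1 ((w, (fu, (uc, Q))), ([] : List (List F))) ≤ 5 := by
      rw [← hk']; exact goC_main_nil v k _ n
    rw [hgo]
    cases l with
    | nil =>
      have : (mainB : Pr ((.prod EE Ma, Ma) :: s) (.prod EE Ma) Ma).cost v' k'
          ((w, (fu, (uc, Q))), ([] : List (List F))) = 5 := by simp [mainB]
      rw [this]
      simp only [List.length_nil, zero_add]
      nlinarith
    | cons h t =>
      have e1 := cost_splitP (s := (.prod EE Ma, Ma) :: s) (F := F) (a := Po) (b := .unit)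
        v' k' (w, (h :: t))
      have e2 := cost_chkP (s := (.prod EE Ma, Ma) :: s) v' k' w fu uc Q
        ((h :: t).take (2 ^ K)) K hw hf hc hQ (by simp)
      have e3 := cost_appP (s := (.prod EE Ma, Ma) :: s) (F := F) (a := Po) v' k'
        ((chkP : Pr ((.prod EE Ma, Ma) :: s) (.prod EE Ma) Ma).val v'
          ((w, (fu, (uc, Q))), (h :: t).take (2 ^ K)),
          v'.1 ((w, (fu, (uc, Q))), (h :: t).drop (2 ^ K)))
      have e4 : List.length ((chkP : Pr ((.prod EE Ma, Ma) :: s) (.prod EE Ma) Ma).val v'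
          ((w, (fu, (uc, Q))), (h :: t).take (2 ^ K))) ≤ 2 ^ K := by
        rw [val_chkP]
        simp only [List.length_zipWith, List.length_take]
        omega
      have hcost : (mainB : Pr ((.prod EE Ma, Ma) :: s) (.prod EE Ma) Ma).cost v' k'
          ((w, (fu, (uc, Q))), (h :: t : List (List F))) ≤
          22990 * 7 ^ K + k'.1 ((w, (fu, (uc, Q))), (h :: t).drop (2 ^ K)) := by
        simp only [hw] at e1 e3
        simp only [mainB, ap2, cost_onL, cost_snd, val_snd, lcase_cons, cost_lt, cost_comp, cost_pair,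
          cost_fst, cost_self, val_comp, val_pair, val_fst, val_splitP, val_self, hw]
        generalize (chkP : Pr ((.prod EE Ma, Ma) :: s) (.prod EE Ma) Ma).val v'
          ((w, (fu, (uc, Q))), (h :: t).take (2 ^ K)) = X at e3 e4 ⊢
        omega
      by_cases hl : (h :: t).length ≤ 2 ^ K
      · have hd : (h :: t).drop (2 ^ K) = [] := List.drop_eq_nil_of_le hl
        rw [hd] at hcost
        have : (mainB : Pr ((.prod EE Ma, Ma) :: s) (.prod EE Ma) Ma).cost v' k'
          ((w, (fu, (uc, Q))), (h :: t : List (List F))) ≤ 23000 * 7 ^ K := by omega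
        calc 2 ^ K * _ ≤ 2 ^ K * (23000 * 7 ^ K) := Nat.mul_le_mul_left _ this
          _ ≤ _ := by nlinarith
      · have hd := hk1 ((h :: t).drop (2 ^ K))
        rw [List.length_drop] at hd
        have hd2 : (h :: t).length - 2 ^ K + 2 ^ K = (h :: t).length := by omega
        rw [hd2] at hd
        calc 2 ^ K * _ ≤ 2 ^ K * (22990 * 7 ^ K + k'.1 ((w, (fu, (uc, Q))), (h :: t).drop (2 ^ K))) :=
              Nat.mul_le_mul_left _ hcost
          _ = 22990 * 7 ^ K * 2 ^ K + 2 ^ K * k'.1 ((w, (fu, (uc, Q))), (h :: t).drop (2 ^ K)) := by ring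
          _ ≤ 22990 * 7 ^ K * 2 ^ K + 23000 * 7 ^ K * (h :: t).length := by omega
          _ ≤ _ := by nlinarith [Nat.zero_le (7 ^ K * 2 ^ K)]

/-- the program -/
def mmP : Pr s (.prod Un (.prod Ma Ma)) Ma :=
  lt (.comp szP lgP)
    (lt (.comp (.pair .snd .star) dblP)
      (.comp (.pair (.comp .fst (.comp .fst (.comp .snd .fst)))
        (.pair (.pair .snd
          (.pair (.comp .fst .snd)
            (.pair (.comp (.comp .fst .fst) .fst)
              (.comp (.pair .snd (.comp (.comp .fst .fst) (.comp .snd .snd))) padP))))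
          (.comp .fst (.comp .fst (.comp .snd .fst)))))
        (.recD mainB .nil)))

theorem le_vv (K : ℕ) : 2 ^ K ≤ vv K := by
  have h4 : 2 ^ K * 2 ^ K = 4 ^ K := by rw [← mul_pow]; norm_num
  have h5 : 4 ^ K ≤ 7 ^ K := Nat.pow_le_pow_left (by norm_num) K
  have : 2 ^ K ≤ 7 ^ K / 2 ^ K := by
    rw [Nat.le_div_iff_mul_le (by positivity)]
    omega
  unfold vv
  omega

theorem pow_le_vv (K : ℕ) : 7 ^ K ≤ 2 ^ K * vv K := by
  unfold vv
  exact (Nat.lt_mul_div_succ _ (by positivity)).le

theorem two_pow_clog_le (S : ℕ) (hS : 1 ≤ S) : 2 ^ Nat.clog 2 S ≤ 2 * S := by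
  by_cases h : 1 < S
  · have h1 := Nat.pow_pred_clog_lt_self (b := 2) (by norm_num) h
    have h2 : 0 < Nat.clog 2 S := Nat.clog_pos (by norm_num) h
    obtain ⟨m, hm⟩ : ∃ m, Nat.clog 2 S = m + 1 := ⟨Nat.clog 2 S - 1, by omega⟩
    rw [hm] at h1 ⊢
    rw [pow_succ]
    simp only [Nat.pred_succ] at h1
    omega
  · have : S = 1 := by omega
    subst this
    simp

end rect

theorem specMM (_h : SpecUnits) : SpecMM := by
  refine ⟨mmP, 60000, ?_⟩
  intro F _ _ c A B hA hB
  have hlu : (un c).length = c := by simp [un]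
  have hsz := val_szP (F := F) (s := []) () (un c) A B
  rw [hlu] at hsz
  have hcs := cost_szP (F := F) (s := []) () () (un c) A B
  generalize hS : B.length + c + 1 = S at *
  have hS1 : 1 ≤ S := by omega
  have hlg := val_lgP (F := F) (s := []) (a := .unit) () ((szP : Pr [] (.prod Un (.prod Ma Ma)) Un).val () (un c, (A, B)))
  have hclg := cost_lgP (F := F) (s := []) (a := .unit) () () ((szP : Pr [] (.prod Un (.prod Ma Ma)) Un).val () (un c, (A, B)))
  rw [hsz] at hlg hclg
  generalize hK : Nat.clog 2 S = K at *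
  have hSN : S ≤ 2 ^ K := by rw [← hK]; exact Nat.le_pow_clog (by norm_num) S
  have hNS : 2 ^ K ≤ 2 * S := by rw [← hK]; exact two_pow_clog_le S hS1
  generalize hfu : (lgP : Pr [] Un Un).val () ((szP : Pr [] (.prod Un (.prod Ma Ma)) Un).val () (un c, (A, B))) = fu at *
  obtain ⟨hd1, hd2⟩ := dbl_aux (F := F) (s := []) () () K
  generalize hw : goV (s := []) (F := F) (σ := .unit) (τ := Un) (lt .self (.comp (.pair .snd .snd) appP))
      (.comp (.pair .star .nil) .cons) () K () = w at *
  have hvd : (dblP : Pr [] (.prod Un .unit) Un).val (F := F) () (fu, ()) = w := by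
    rw [← hw]
    simp only [dblP, val_recD]
    rw [hlg]
  have hcd : (dblP : Pr [] (.prod Un .unit) Un).cost (F := F) () () (fu, ()) ≤ 40 * 2 ^ K + 1 := by
    simp only [dblP, cost_recD]
    rw [hlg]
    omega
  have hc : (un c).length ≤ 2 ^ K := by rw [hlu]; omega
  have hBl : B.length ≤ 2 ^ K := by omega
  have hval := goV_main (F := F) (s := []) () w fu (un c) B K hd1 hlg hc hBl A.length A le_rfl hA
  have hcost := goC_main (F := F) (s := []) () () w fu (un c) (padM (2 ^ K) B) K hd1 hlg hc
    (sq_padM _ _) A.length A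
  have hpad := cost_padP (F := F) (s := []) () () w B (2 ^ K) hd1 Nat.one_le_two_pow
  constructor
  · simp only [mmP, val_lt, val_comp, val_pair, val_snd, val_fst, val_star, hfu, hvd, val_padP,
      val_recD, hd1]
    rw [hlu] at hval
    exact hval
  · have hvv := le_vv K
    have hpv := pow_le_vv K
    have hN : 1 ≤ 2 ^ K := Nat.one_le_two_pow
    have hcost2 : goC (s := []) (F := F) mainB .nil () () A.length
        ((w, (fu, (un c, padM (2 ^ K) B))), A) ≤ 23000 * vv K * (A.length + 2 ^ K) := by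
      have h1 : 2 ^ K * goC (s := []) (F := F) mainB .nil () () A.length
        ((w, (fu, (un c, padM (2 ^ K) B))), A) ≤ 2 ^ K * (23000 * vv K * (A.length + 2 ^ K)) := by
        calc _ ≤ 23000 * 7 ^ K * (A.length + 2 ^ K) := hcost
          _ ≤ 23000 * (2 ^ K * vv K) * (A.length + 2 ^ K) := by gcongr
          _ = _ := by ring
      exact Nat.le_of_mul_le_mul_left h1 (by omega)
    simp only [mmP, cost_lt, cost_comp, cost_pair, cost_snd, cost_fst, cost_star, val_comp,
      val_pair, val_snd, val_fst, val_star, hfu, hvd, val_padP, cost_recD, hd1]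
    have hX : A.length + B.length + c + 1 = A.length + S := by omega
    rw [hX]
    have hm : 23000 * vv K * (A.length + 2 ^ K) ≤ 46000 * ((A.length + S) * vv K) := by
      have : A.length + 2 ^ K ≤ 2 * (A.length + S) := by omega
      calc 23000 * vv K * (A.length + 2 ^ K) ≤ 23000 * vv K * (2 * (A.length + S)) := by gcongr
        _ = _ := by ring
    have hp2 : 100 * (2 ^ K * 2 ^ K) ≤ 200 * ((A.length + S) * vv K) := by
      have : 2 ^ K * 2 ^ K ≤ 2 * (A.length + S) * vv K := by
        apply Nat.mul_le_mul _ hvv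
        omega
      calc 100 * (2 ^ K * 2 ^ K) ≤ 100 * (2 * (A.length + S) * vv K) := by gcongr
        _ = _ := by ring
    have hSv : A.length + S ≤ (A.length + S) * vv K := Nat.le_mul_of_pos_right _ (by omega)
    have hfin : 60000 * (A.length + S) * vv K = 60000 * ((A.length + S) * vv K) := by ring
    rw [hfin]
    omega

end Pool.Agent.H330FB.JA10
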