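import Pool.Agent.H330FB.Lib5
import Pool.Agent.H330FB.Spec1
set_option autoImplicit false
noncomputable section
namespace Pool.Agent.H330FB.JA11
open Polynomial

section kerMath

variable {F : Type} [Field F]

/-- linear combination of a list of vectors -/
def lc {V : Type} [AddCommGroup V] [Module F V] (r : List F) (L : List V) : V :=
  (List.zipWith (fun x v => x • v) r L).sum

section
variable {V W : Type} [AddCommGroup V] [Module F V] [AddCommGroup W] [Module F W]

@[simp] theorem lc_nil_left (L : List V) : lc ([] : List F) L = 0 := by simp [lc]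
@[simp] theorem lc_nil_right (r : List F) : lc r ([] : List V) = 0 := by simp [lc]
@[simp] theorem lc_cons (x : F) (r : List F) (v : V) (L : List V) :
    lc (x :: r) (v :: L) = x • v + lc r L := by simp [lc]

theorem lc_append (r₁ r₂ : List F) (L₁ L₂ : List V) (h : r₁.length = L₁.length) :
    lc (r₁ ++ r₂) (L₁ ++ L₂) = lc r₁ L₁ + lc r₂ L₂ := by
  simp only [lc]
  rw [List.zipWith_append h, List.sum_append]

theorem lc_map (T : V →ₗ[F] W) (r : List F) (L : List V) : T (lc r L) = lc r (L.map T) := by
  induction r generalizing L with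
  | nil => simp
  | cons x r ih => cases L with
    | nil => simp
    | cons v L => simp [ih]

theorem lc_map_add {ι : Type} (r : List F) (L : List ι) (f g : ι → V) :
    lc r (L.map (fun v => f v + g v)) = lc r (L.map f) + lc r (L.map g) := by
  induction r generalizing L with
  | nil => simp
  | cons x r ih => cases L with
    | nil => simp
    | cons v L => simp [ih]; abel

theorem lc_zip_sub (r r' : List F) (L : List V) (h : r.length = r'.length) :
    lc (List.zipWith (fun x y => x - y) r r') L = lc r L - lc r' L := by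
  induction r generalizing L r' with
  | nil =>
    have : r' = [] := List.length_eq_zero_iff.mp h.symm
    subst this; simp
  | cons x r ih =>
    cases r' with
    | nil => simp at h
    | cons y r' =>
      cases L with
      | nil => simp
      | cons v L =>
        simp only [List.zipWith_cons_cons, lc_cons]
        rw [ih r' L (by simpa using h), sub_smul]
        abel

theorem lc_zip_add (r r' : List F) (L : List V) (h : r.length = r'.length) :
    lc (List.zipWith (fun x y => x + y) r r') L = lc r L + lc r' L := by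
  induction r generalizing L r' with
  | nil =>
    have : r' = [] := List.length_eq_zero_iff.mp h.symm
    subst this; simp
  | cons x r ih =>
    cases r' with
    | nil => simp at h
    | cons y r' =>
      cases L with
      | nil => simp
      | cons v L =>
        simp only [List.zipWith_cons_cons, lc_cons]
        rw [ih r' L (by simpa using h), add_smul]
        abel

theorem lc_smul (x : F) (r : List F) (L : List V) :
    lc (r.map (fun y => x * y)) L = x • lc r L := by
  induction r generalizing L with
  | nil => simp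
  | cons y r ih => cases L with
    | nil => simp
    | cons v L => simp [ih, mul_smul]

theorem lc_zero (r : List F) (L : List V) (h : ∀ x ∈ r, x = 0) : lc r L = 0 := by
  induction r generalizing L with
  | nil => simp
  | cons x r ih => cases L with
    | nil => simp
    | cons v L => simp [h x (by simp), ih L (fun x hx => h x (by simp [hx]))]

theorem lc_zero' (r : List F) (L : List V) (h : ∀ v ∈ L, v = 0) : lc r L = 0 := by
  induction r generalizing L with
  | nil => simp
  | cons x r ih => cases L with
    | nil => simp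
    | cons v L => simp [h v (by simp), ih L (fun x hx => h x (by simp [hx]))]

theorem sum_fin_eq_lc {γ : Type} (v : γ → V) (r : List F) (L : List γ) :
    ∑ k : Fin L.length, r.getD k 0 • v (L.get k) = lc r (L.map v) := by
  induction L generalizing r with
  | nil => simp
  | cons y L ih =>
    have e : ∑ k : Fin (y :: L).length, r.getD k 0 • v ((y :: L).get k) =
        r.getD 0 0 • v y + ∑ k : Fin L.length, r.getD (k + 1) 0 • v (L.get k) :=
      Fin.sum_univ_succ (fun k : Fin (L.length + 1) => r.getD k 0 • v ((y :: L).get k))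
    rw [e]
    cases r with
    | nil => simp
    | cons x r =>
      rw [List.map_cons, lc_cons, ← ih r]
      simp

end

/-- one row of a product -/
def rowM (c : ℕ) (r : List F) (B : List (List F)) : List F :=
  (List.range c).map (fun j => (List.zipWith (fun x y => x * y.getD j 0) r B).sum)

theorem mmul_eq (c : ℕ) (A B : List (List F)) : mmul c A B = A.map (fun r => rowM c r B) := rfl

@[simp] theorem length_rowM (c : ℕ) (r : List F) (B : List (List F)) :
    (rowM c r B).length = c := by simp [rowM]

theorem rowM_cons (c : ℕ) (x : F) (r y : List F) (B : List (List F)) (hy : y.length = c) :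
    rowM c (x :: r) (y :: B) =
      List.zipWith (fun x y => x + y) (y.map (fun y => x * y)) (rowM c r B) := by
  apply List.ext_getElem
  · simp [hy]
  · intro i h1 h2
    simp only [length_rowM] at h1
    simp [rowM, List.getElem?_eq_getElem (show i < y.length by omega)]

theorem lc_rowM {V : Type} [AddCommGroup V] [Module F V] (r : List F) (X : List (List F))
    (L : List V) (c : ℕ) (hX : ∀ x ∈ X, x.length = c) :
    lc (rowM c r X) L = lc r (X.map (fun x => lc x L)) := by
  induction r generalizing X with
  | nil =>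
    rw [lc_nil_left]
    apply lc_zero
    intro x hx
    simp [rowM] at hx
    exact hx.2
  | cons x r ih =>
    cases X with
    | nil =>
      rw [List.map_nil, lc_nil_right]
      apply lc_zero
      intro x hx
      simp [rowM] at hx
      exact hx.2
    | cons y X =>
      rw [rowM_cons _ _ _ _ _ (hX y (by simp)), lc_zip_add _ _ _ (by simp [hX y (by simp)]),
        lc_smul, ih X (fun x hx => hX x (by simp [hx]))]
      simp

theorem lc_apply {ι : Type} (r : List F) (L : List (ι → F)) (j : ι) :
    lc r L j = lc r (L.map (fun v => v j)) := by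
  have := lc_map (LinearMap.proj (R := F) (φ := fun _ : ι => F) j) r L
  simpa using this

theorem lc_field (r : List F) (L : List (List F)) (j : ℕ) :
    lc r (L.map (fun y => y.getD j 0)) = (List.zipWith (fun x y => x * y.getD j 0) r L).sum := by
  simp [lc, List.zipWith_map_right]

theorem cvec_rowM (c : ℕ) (r : List F) (B : List (List F)) (hB : ∀ y ∈ B, y.length = c) :
    cvec (rowM c r B) = lc r (B.map cvec) := by
  funext j
  rw [lc_apply, List.map_map]
  have e1 : ((fun v : ℕ → F => v j) ∘ cvec) = fun y : List F => y.getD j 0 := rfl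
  rw [e1]
  by_cases hj : j < c
  · rw [lc_field]
    simp only [cvec, rowM]
    rw [List.getD_eq_getElem _ _ (by simpa using hj)]
    simp
  · rw [lc_zero' (V := F) r _ (by
      intro v hv
      obtain ⟨y, hy, rfl⟩ := List.mem_map.mp hv
      exact List.getD_eq_default _ _ (by rw [hB y hy]; omega))]
    simp only [cvec]
    exact List.getD_eq_default _ _ (by simp; omega)

theorem cvec_sub (a b : List F) (h : a.length = b.length) :
    cvec (List.zipWith (fun x y => x - y) a b) = cvec a - cvec b := by
  funext j
  simp only [cvec, Pi.sub_apply]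
  by_cases hj : j < a.length
  · rw [List.getD_eq_getElem _ _ (by simp; omega), List.getD_eq_getElem _ _ hj,
      List.getD_eq_getElem _ _ (by omega)]
    simp
  · rw [List.getD_eq_default _ _ (by simp; omega), List.getD_eq_default _ _ (by omega),
      List.getD_eq_default _ _ (by omega)]
    simp

theorem cvec_inj (a b : List F) (h : a.length = b.length) (h2 : cvec a = cvec b) : a = b := by
  apply List.ext_getElem h
  intro i h1 h3
  have := congrFun h2 i
  simp only [cvec] at this
  rwa [List.getD_eq_getElem _ _ h1, List.getD_eq_getElem _ _ h3] at this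

/-- even part -/
def evL : (ℕ → F) →ₗ[F] (ℕ → F) := LinearMap.funLeft F F (fun i => 2 * i)
/-- odd part -/
def odL : (ℕ → F) →ₗ[F] (ℕ → F) := LinearMap.funLeft F F (fun i => 2 * i + 1)

theorem evL_apply (v : ℕ → F) (i : ℕ) : evL v i = v (2 * i) := rfl
theorem odL_apply (v : ℕ → F) (i : ℕ) : odL v i = v (2 * i + 1) := rfl

theorem ev_od_zero (v : ℕ → F) (h1 : evL v = 0) (h2 : odL v = 0) : v = 0 := by
  funext i
  rcases Nat.even_or_odd' i with ⟨k, rfl | rfl⟩
  · exact congrFun h1 k
  · exact congrFun h2 k

theorem getD_eo {α : Type} (l : List α) (z : α) (i : ℕ) :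
    (eo l).1.getD i z = l.getD (2 * i) z ∧ (eo l).2.getD i z = l.getD (2 * i + 1) z := by
  induction l generalizing i with
  | nil => simp [eo]
  | cons x l ih =>
    constructor
    · cases i with
      | zero => simp [eo]
      | succ i =>
        have := (ih i).2
        rw [show 2 * (i + 1) = (2 * i + 1) + 1 by ring]
        simpa [eo] using this
    · have := (ih i).1
      simpa [eo] using this

theorem cvec_eo (l : List F) : cvec (eo l).1 = evL (cvec l) ∧ cvec (eo l).2 = odL (cvec l) := by
  constructor
  · funext i; exact (getD_eo l 0 i).1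
  · funext i; exact (getD_eo l 0 i).2

theorem eo_inj {α : Type} (l m : List α) (h : eo l = eo m) : l = m := by
  induction l generalizing m with
  | nil =>
    cases m with
    | nil => rfl
    | cons y m => simp [eo] at h
  | cons x l ih =>
    cases m with
    | nil => simp [eo] at h
    | cons y m =>
      simp only [eo, Prod.mk.injEq, List.cons.injEq] at h
      rw [ih m (Prod.ext h.2 h.1.2), h.1.1]

/-- the elimination statement in terms of lists -/
def KerL {γ V : Type} [AddCommGroup V] [Module F V] (v : γ → V) (us : List γ) (Pu : List γ)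
    (Fu : List (γ × List F)) : Prop :=
  (Pu ++ Fu.map Prod.fst).Perm us ∧ (Fu.map Prod.fst).Sublist us ∧
  (∀ r : List F, r.length = Pu.length → lc r (Pu.map v) = 0 → ∀ x ∈ r, x = 0) ∧
  (∀ x ∈ Fu, x.2.length = Pu.length ∧ v x.1 = lc x.2 (Pu.map v)) ∧
  (∀ ρ : γ → ℕ, us.Pairwise (fun x y => ρ x ≤ ρ y) → ∀ x ∈ Fu, ∀ k : Fin Pu.length,
    x.2.getD k 0 ≠ 0 → ρ (Pu.get k) ≤ ρ x.1)

theorem indep_iff {γ V : Type} [AddCommGroup V] [Module F V] (v : γ → V) (L : List γ) :
    LinearIndependent F (fun k : Fin L.length => v (L.get k)) ↔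
      ∀ r : List F, r.length = L.length → lc r (L.map v) = 0 → ∀ x ∈ r, x = 0 := by
  rw [Fintype.linearIndependent_iff]
  constructor
  · intro h r hr h0 x hx
    rw [← sum_fin_eq_lc] at h0
    have := h _ h0
    obtain ⟨i, hi, rfl⟩ := List.getElem_of_mem hx
    have e := this ⟨i, by omega⟩
    simp only at e
    rwa [List.getD_eq_getElem _ _ hi] at e
  · intro h g h0 i
    have e : ∀ k : Fin L.length, (List.ofFn g).getD k 0 = g k := by
      intro k
      rw [List.getD_eq_getElem _ _ (by simp)]
      simp
    have := h (List.ofFn g) (by simp) (by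
      rw [← sum_fin_eq_lc]
      simpa only [e] using h0)
    exact this _ (by simp)

theorem kerSpec_iff {α : Type} (cs : List (α × List F)) (P : List α) (Fr : List (α × List F)) :
    KerSpec cs P Fr ↔ ∃ (P' : List (α × List F)) (Fr' : List ((α × List F) × List F)),
      P = P'.map Prod.fst ∧ Fr = Fr'.map (fun x => (x.1.1, x.2)) ∧
      KerL (fun x => cvec x.2) cs P' Fr' := by
  unfold KerSpec KerL
  constructor
  · rintro ⟨P', Fr', h1, h2, h3, h4, h5, h6, h7⟩
    refine ⟨P', Fr', h1, h2, h3, h4, ?_, ?_, h7⟩
    · exact (indep_iff (fun x : α × List F => cvec x.2) P').mp h5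
    · intro x hx
      exact ⟨(h6 x hx).1, (h6 x hx).2.trans
        (sum_fin_eq_lc (fun x : α × List F => cvec x.2) x.2 P')⟩
  · rintro ⟨P', Fr', h1, h2, h3, h4, h5, h6, h7⟩
    refine ⟨P', Fr', h1, h2, h3, h4, ?_, ?_, h7⟩
    · exact (indep_iff (fun x : α × List F => cvec x.2) P').mpr h5
    · intro x hx
      exact ⟨(h6 x hx).1, (h6 x hx).2.trans
        (sum_fin_eq_lc (fun x : α × List F => cvec x.2) x.2 P').symm⟩

theorem kerL_lift {γ δ V : Type} [AddCommGroup V] [Module F V] (v : δ → V) (g : γ → δ)
    (us : List γ) (hg : ∀ x ∈ us, ∀ y ∈ us, g x = g y → x = y) (P : List δ)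
    (Fr : List (δ × List F)) (h : KerL v (us.map g) P Fr) :
    ∃ (Pu : List γ) (Fu : List (γ × List F)), P = Pu.map g ∧
      Fr = Fu.map (fun x => (g x.1, x.2)) ∧ KerL (fun x => v (g x)) us Pu Fu := by
  obtain ⟨h1, h2, h3, h4, h5⟩ := h
  rcases us with _ | ⟨u0, us0⟩
  · have e := List.Perm.eq_nil h1
    simp only [List.append_eq_nil_iff, List.map_eq_nil_iff] at e
    refine ⟨[], [], by simp [e.1], by simp [e.2], ?_⟩
    refine ⟨by simp, by simp, ?_, by simp, by simp⟩
    intro r hr _ x hx
    rw [List.length_eq_zero_iff.mp hr] at hx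
    simp at hx
  generalize hus : u0 :: us0 = us at *
  have : Nonempty γ := ⟨u0⟩
  obtain ⟨u, hu⟩ : ∃ u : δ → γ, ∀ x ∈ us, u (g x) = x := by
    refine ⟨Function.invFunOn g {x | x ∈ us}, fun x hx => ?_⟩
    have e : g x ∈ g '' {x | x ∈ us} := ⟨x, hx, rfl⟩
    exact hg _ (Function.invFunOn_mem e) _ hx (Function.invFunOn_eq e)
  have hgu : ∀ y ∈ us.map g, g (u y) = y := by
    intro y hy
    obtain ⟨x, hx, rfl⟩ := List.mem_map.mp hy
    rw [hu x hx]
  have hP : ∀ y ∈ P, g (u y) = y := fun y hy => hgu y (h1.subset (by simp [hy]))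
  have hF : ∀ y ∈ Fr, g (u y.1) = y.1 := fun y hy => hgu y.1 (h2.subset (by
    simp only [List.mem_map]; exact ⟨y, hy, rfl⟩))
  have eP : P = (P.map u).map g := by
    rw [List.map_map]
    nth_rewrite 1 [← List.map_id P]
    exact List.map_congr_left (fun y hy => (hP y hy).symm)
  have eF : Fr = (Fr.map (fun x => (u x.1, x.2))).map (fun x => (g x.1, x.2)) := by
    rw [List.map_map]
    nth_rewrite 1 [← List.map_id Fr]
    exact List.map_congr_left (fun y hy => by simp [hF y hy])
  have eus : (us.map g).map u = us := by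
    rw [List.map_map]
    nth_rewrite 2 [← List.map_id us]
    exact List.map_congr_left (fun y hy => by simp [hu y hy])
  have eFu : (Fr.map (fun x => (u x.1, x.2))).map Prod.fst = (Fr.map Prod.fst).map u := by
    simp [List.map_map, Function.comp_def]
  have ePv : (P.map u).map (fun x => v (g x)) = P.map v := by
    rw [List.map_map]
    exact List.map_congr_left (fun y hy => by simp [hP y hy])
  refine ⟨P.map u, Fr.map (fun x => (u x.1, x.2)), eP, eF, ?_, ?_, ?_, ?_, ?_⟩
  · rw [eFu, ← List.map_append]
    have := h1.map u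
    rwa [eus] at this
  · rw [eFu]
    have := h2.map u
    rwa [eus] at this
  · rw [ePv]
    simpa using h3
  · intro x hx
    obtain ⟨y, hy, rfl⟩ := List.mem_map.mp hx
    rw [ePv]
    simp only [hF y hy, List.length_map]
    exact h4 y hy
  · intro ρ hρ x hx k hk
    obtain ⟨y, hy, rfl⟩ := List.mem_map.mp hx
    have e1 : (us.map g).Pairwise (fun x y => ρ (u x) ≤ ρ (u y)) := by
      rw [List.pairwise_map]
      refine hρ.imp_of_mem ?_
      intro a b ha hb hab
      rw [hu a ha, hu b hb]
      exact hab
    have := h5 (fun x => ρ (u x)) e1 y hy ⟨k, by simpa using k.2⟩ hk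
    simpa using this

theorem getD_rowM_ne (c : ℕ) (r : List F) (X : List (List F)) (k : ℕ)
    (h : (rowM c r X).getD k 0 ≠ 0) :
    ∃ j : Fin X.length, r.getD j 0 ≠ 0 ∧ (X.get j).getD k 0 ≠ 0 := by
  by_cases hk : k < c
  · rw [List.getD_eq_getElem _ _ (by simpa using hk)] at h
    simp only [rowM, List.getElem_map, List.getElem_range] at h
    rw [← lc_field, ← sum_fin_eq_lc] at h
    obtain ⟨j, _, hj⟩ := Finset.exists_ne_zero_of_sum_ne_zero h
    refine ⟨j, fun h0 => hj (by rw [h0, zero_smul]), fun h0 => hj (by rw [h0, smul_zero])⟩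
  · exact absurd (List.getD_eq_default _ _ (by simp; omega)) h

/-- the combination step -/
theorem kerL_comb {γ V W₁ W₂ : Type} [AddCommGroup V] [Module F V] [AddCommGroup W₁]
    [Module F W₁] [AddCommGroup W₂] [Module F W₂] (E : V →ₗ[F] W₁) (O : V →ₗ[F] W₂)
    (hEO : ∀ v, E v = 0 → O v = 0 → v = 0) (v : γ → V) (cs Pu : List γ)
    (Fu : List (γ × List F)) (h1 : KerL (fun x => E (v x)) cs Pu Fu)
    (Pv : List (γ × List F)) (Fv : List ((γ × List F) × List F))
    (h2 : KerL (fun x : γ × List F => O (v x.1) - lc x.2 (Pu.map (fun y => O (v y)))) Fu Pv Fv) :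
    KerL v cs (Pu ++ Pv.map Prod.fst)
      (Fv.map (fun y => (y.1.1, List.zipWith (fun a b => a - b) y.1.2
        (rowM Pu.length y.2 (Pv.map Prod.snd)) ++ y.2))) := by
  obtain ⟨a1, a2, a3, a4, a5⟩ := h1
  obtain ⟨b1, b2, b3, b4, b5⟩ := h2
  have hPvFu : ∀ x ∈ Pv, x ∈ Fu := fun x hx => b1.subset (by simp [hx])
  have hFvFu : ∀ y ∈ Fv, y.1 ∈ Fu := fun y hy => b2.subset (List.mem_map.mpr ⟨y, hy, rfl⟩)
  set w : γ × List F → V := fun x => v x.1 - lc x.2 (Pu.map v) with hw
  have hmapO : ∀ r : List F, O (lc r (Pu.map v)) = lc r (Pu.map (fun y => O (v y))) := by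
    intro r; rw [lc_map, List.map_map]; rfl
  have hmapE : ∀ r : List F, E (lc r (Pu.map v)) = lc r (Pu.map (fun y => E (v y))) := by
    intro r; rw [lc_map, List.map_map]; rfl
  have hEw : ∀ x ∈ Fu, E (w x) = 0 := by
    intro x hx
    simp only [hw, map_sub, hmapE]
    rw [← (a4 x hx).2, sub_self]
  have hOw : ∀ x, O (w x) = O (v x.1) - lc x.2 (Pu.map (fun y => O (v y))) := by
    intro x
    simp only [hw, map_sub, hmapO]
  have hXlen : ∀ x ∈ Pv.map Prod.snd, x.length = Pu.length := by
    intro x hx
    obtain ⟨y, hy, rfl⟩ := List.mem_map.mp hx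
    exact (a4 y (hPvFu y hy)).1
  -- vectors of Pv in terms of w
  have hPvw : ∀ r : List F, lc r ((Pv.map Prod.fst).map v) =
      lc r (Pv.map w) + lc (rowM Pu.length r (Pv.map Prod.snd)) (Pu.map v) := by
    intro r
    rw [lc_rowM _ _ _ _ hXlen, List.map_map, List.map_map, ← lc_map_add]
    congr 1
    apply List.map_congr_left
    intro x _
    simp [hw]
  have hEPv : ∀ r : List F, E (lc r (Pv.map w)) = 0 := by
    intro r
    rw [lc_map, List.map_map]
    apply lc_zero'
    intro z hz
    obtain ⟨x, hx, rfl⟩ := List.mem_map.mp hz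
    exact hEw x (hPvFu x hx)
  have hOPv : ∀ r : List F, O (lc r (Pv.map w)) =
      lc r (Pv.map (fun x : γ × List F => O (v x.1) - lc x.2 (Pu.map (fun y => O (v y))))) := by
    intro r
    rw [lc_map, List.map_map]
    congr 1
    apply List.map_congr_left
    intro x _
    exact hOw x
  refine ⟨?_, ?_, ?_, ?_, ?_⟩
  · rw [List.map_map]
    have e1 : (Prod.fst ∘ fun y : (γ × List F) × List F => (y.1.1, List.zipWith (fun a b => a - b)
        y.1.2 (rowM Pu.length y.2 (Pv.map Prod.snd)) ++ y.2)) = fun y => y.1.1 := rfl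
    rw [e1, List.append_assoc]
    have e2 := (b1.map Prod.fst)
    rw [List.map_append, List.map_map] at e2
    exact (List.Perm.append_left Pu e2).trans a1
  · rw [List.map_map]
    have e1 : (Prod.fst ∘ fun y : (γ × List F) × List F => (y.1.1, List.zipWith (fun a b => a - b)
        y.1.2 (rowM Pu.length y.2 (Pv.map Prod.snd)) ++ y.2)) = fun y => y.1.1 := rfl
    rw [e1]
    have e2 := (b2.map Prod.fst)
    rw [List.map_map] at e2
    exact e2.trans a2
  · intro r hr h0 x hx
    obtain ⟨r₁, r₂, rfl, hr₁⟩ : ∃ r₁ r₂, r = r₁ ++ r₂ ∧ r₁.length = Pu.length := by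
      refine ⟨r.take Pu.length, r.drop Pu.length, by simp, ?_⟩
      rw [List.length_append] at hr
      rw [List.length_take]
      omega
    have hr₂ : r₂.length = Pv.length := by simp at hr; omega
    rw [List.map_append, lc_append _ _ _ _ (by simpa using hr₁), hPvw, add_comm (lc r₂ _),
      ← add_assoc, ← lc_zip_add _ _ _ (by simp [hr₁])] at h0
    have hE := congrArg E h0
    rw [map_add, hEPv, hmapE, add_zero, map_zero] at hE
    have hz := a3 _ (by simp [hr₁]) hE
    rw [lc_zero _ _ hz, zero_add] at h0
    have hO := congrArg O h0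
    rw [hOPv, map_zero] at hO
    have hz2 := b3 _ hr₂ hO
    have hrow : ∀ z ∈ rowM Pu.length r₂ (Pv.map Prod.snd), z = 0 := by
      intro z hz'
      by_contra hne
      obtain ⟨i, hi, rfl⟩ := List.getElem_of_mem hz'
      obtain ⟨j, hj1, _⟩ := getD_rowM_ne Pu.length r₂ (Pv.map Prod.snd) i (by
        rw [List.getD_eq_getElem _ _ hi]; exact hne)
      have hj : (j : ℕ) < r₂.length := by
        by_contra hcon
        exact hj1 (List.getD_eq_default _ _ (by omega))
      exact hj1 (by rw [List.getD_eq_getElem _ _ hj]; exact hz2 _ (List.getElem_mem hj))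
    rcases List.mem_append.mp hx with hx | hx
    · obtain ⟨i, hi, rfl⟩ := List.getElem_of_mem hx
      have e := hz (r₁[i] + (rowM Pu.length r₂ (Pv.map Prod.snd))[i]'(by simp; omega)) (by
        rw [List.mem_iff_getElem]
        exact ⟨i, by simp; omega, by simp⟩)
      rw [hrow _ (List.getElem_mem _), add_zero] at e
      exact e
    · exact hz2 x hx
  · intro x hx
    obtain ⟨y, hy, rfl⟩ := List.mem_map.mp hx
    have hlen1 := (a4 y.1 (hFvFu y hy)).1
    have hlen2 := (b4 y hy).1
    refine ⟨by simp [hlen1, hlen2], ?_⟩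
    simp only
    rw [List.map_append, lc_append _ _ _ _ (by simp [hlen1]), hPvw,
      lc_zip_sub _ _ _ (by simp [hlen1])]
    have hwy : w y.1 = lc y.2 (Pv.map w) := by
      rw [← sub_eq_zero]
      apply hEO
      · rw [map_sub, hEPv, hEw _ (hFvFu y hy), sub_zero]
      · rw [map_sub, hOPv, hOw, ← (b4 y hy).2, sub_self]
    rw [← hwy]
    simp only [hw]
    abel
  · intro ρ hρ x hx k hk
    obtain ⟨y, hy, rfl⟩ := List.mem_map.mp hx
    simp only at hk ⊢
    have hlen1 := (a4 y.1 (hFvFu y hy)).1
    have hlen2 := (b4 y hy).1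
    have hρ2 : Fu.Pairwise (fun x y => ρ x.1 ≤ ρ y.1) := by
      have := hρ.sublist a2
      rwa [List.pairwise_map] at this
    have hkl := k.2
    simp only [List.length_append, List.length_map] at hkl
    by_cases hk1 : (k : ℕ) < Pu.length
    · have ek : (Pu ++ Pv.map Prod.fst).get k = Pu.get ⟨k, hk1⟩ := by
        simp [List.getElem_append_left hk1]
      rw [ek]
      rw [List.getD_append _ _ _ _ (by simp [hlen1, hk1]),
        List.getD_eq_getElem _ _ (by simp [hlen1, hk1])] at hk
      simp only [List.getElem_zipWith] at hk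
      by_cases hy1 : y.1.2.getD k 0 = 0
      · rw [List.getD_eq_getElem _ _ (by omega)] at hy1
        rw [hy1, zero_sub, neg_ne_zero] at hk
        obtain ⟨j, hj1, hj2⟩ := getD_rowM_ne Pu.length y.2 (Pv.map Prod.snd) k (by
          rw [List.getD_eq_getElem _ _ (by simp [hk1])]; exact hk)
        have hjl : (j : ℕ) < Pv.length := by simpa using j.2
        have e1 := b5 (fun x => ρ x.1) hρ2 y hy ⟨j, hjl⟩ hj1
        have e2 := a5 ρ hρ (Pv.get ⟨j, hjl⟩) (hPvFu _ (List.get_mem _ _)) ⟨k, hk1⟩ (by
          simpa using hj2)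
        exact e2.trans e1
      · exact a5 ρ hρ y.1 (hFvFu y hy) ⟨k, hk1⟩ hy1
    · have hk2 : (k : ℕ) - Pu.length < Pv.length := by omega
      have ek : (Pu ++ Pv.map Prod.fst).get k = (Pv.get ⟨k - Pu.length, hk2⟩).1 := by
        simp [List.getElem_append_right (show Pu.length ≤ (k : ℕ) by omega)]
      rw [ek]
      rw [List.getD_append_right _ _ _ _ (by simp [hlen1]; omega)] at hk
      have el : (List.zipWith (fun a b => a - b) y.1.2
        (rowM Pu.length y.2 (List.map Prod.snd Pv))).length = Pu.length := by simp [hlen1]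
      rw [el] at hk
      exact b5 (fun x => ρ x.1) hρ2 y hy ⟨k - Pu.length, hk2⟩ hk

theorem indep_card {γ : Type} (v : γ → List F) (L : List γ) (m : ℕ)
    (hm : ∀ x ∈ L, (v x).length = m)
    (h : ∀ r : List F, r.length = L.length → lc r (L.map (fun x => cvec (v x))) = 0 →
      ∀ x ∈ r, x = 0) : L.length ≤ m := by
  have h2 : LinearIndependent F (fun k : Fin L.length =>
      (fun x => LinearMap.funLeft F F (fun i : Fin m => (i : ℕ)) (cvec (v x))) (L.get k)) := by
    rw [indep_iff (fun x => LinearMap.funLeft F F (fun i : Fin m => (i : ℕ)) (cvec (v x))) L]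
    intro r hr h0
    apply h r hr
    funext j
    rw [Pi.zero_apply]
    by_cases hj : j < m
    · have e := congrFun h0 ⟨j, hj⟩
      rw [lc_apply, List.map_map] at e
      rw [lc_apply, List.map_map]
      exact e
    · rw [lc_apply, List.map_map]
      apply lc_zero'
      intro z hz
      obtain ⟨x, hx, rfl⟩ := List.mem_map.mp hz
      exact List.getD_eq_default _ _ (by rw [hm x hx]; omega)
  have := h2.fintype_card_le_finrank
  simpa using this

/-- a zero column in front -/
theorem kerL_zero {γ V : Type} [AddCommGroup V] [Module F V] (v : γ → V) (us Pu : List γ)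
    (Fu : List (γ × List F)) (h : KerL v us Pu Fu) (e : γ) (he : v e = 0) :
    KerL v (e :: us) Pu ((e, List.replicate Pu.length 0) :: Fu) := by
  obtain ⟨a1, a2, a3, a4, a5⟩ := h
  refine ⟨?_, ?_, a3, ?_, ?_⟩
  · simp only [List.map_cons]
    exact (List.perm_middle).trans (List.Perm.cons e a1)
  · simp only [List.map_cons]
    exact a2.cons_cons e
  · intro x hx
    rcases List.mem_cons.mp hx with rfl | hx
    · refine ⟨by simp, ?_⟩
      simp only
      rw [he, lc_zero]
      intro x hx
      exact List.eq_of_mem_replicate hx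
    · exact a4 x hx
  · intro ρ hρ x hx k hk
    rcases List.mem_cons.mp hx with rfl | hx
    · exfalso
      apply hk
      simp only
      rw [List.getD_eq_getElem _ _ (by simp)]
      simp
    · exact a5 ρ (List.Pairwise.of_cons hρ) x hx k hk

/-- one row: the first column is the pivot -/
theorem kerL_one {γ V : Type} [AddCommGroup V] [Module F V] (v : γ → V) (us : List γ) (e : γ)
    (he : v e ≠ 0) (t : γ → F) (ht : ∀ x ∈ us, v x = t x • v e) :
    KerL v (e :: us) [e] (us.map (fun x => (x, [t x]))) := by
  refine ⟨?_, ?_, ?_, ?_, ?_⟩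
  · rw [List.map_map]
    have : (Prod.fst ∘ fun x : γ => (x, [t x])) = id := rfl
    rw [this, List.map_id]
    simp
  · rw [List.map_map]
    have : (Prod.fst ∘ fun x : γ => (x, [t x])) = id := rfl
    rw [this, List.map_id]
    simp
  · intro r hr h0 x hx
    obtain ⟨y, rfl⟩ : ∃ y, r = [y] := by
      rcases r with _ | ⟨y, _ | ⟨z, r⟩⟩
      · simp at hr
      · exact ⟨y, rfl⟩
      · simp at hr
    simp only [List.mem_singleton] at hx
    subst hx
    simp at h0
    exact h0.resolve_right he
  · intro x hx
    obtain ⟨y, hy, rfl⟩ := List.mem_map.mp hx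
    refine ⟨rfl, ?_⟩
    simp [ht y hy]
  · intro ρ hρ x hx k hk
    obtain ⟨y, hy, rfl⟩ := List.mem_map.mp hx
    have : (k : ℕ) = 0 := by
      have := k.2
      simp only [List.length_singleton] at this
      omega
    simp only [List.get_eq_getElem, this, List.getElem_cons_zero]
    exact List.rel_of_pairwise_cons hρ hy

/-- vectors which are all zero -/
theorem kerL_nil {γ V : Type} [AddCommGroup V] [Module F V] (v : γ → V) :
    KerL (F := F) v [] [] [] := by
  refine ⟨by simp, by simp, ?_, by simp, by simp⟩
  intro r hr _ x hx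
  rw [List.length_eq_zero_iff.mp hr] at hx
  simp at hx

end kerMath

section kerProg

variable {F : Type} [Field F] [DecidableEq F]
variable {s : List (Ty × Ty)} {lab a b : Ty}

/-- label with a stack of rows -/
abbrev LSt (lab : Ty) : Ty := .prod lab Ma
/-- column with a label and a stack of rows -/
abbrev Elt (lab : Ty) : Ty := .prod (LSt lab) Po
/-- output of the elimination -/
abbrev KOt (lab : Ty) : Ty := .prod (.list (LSt lab)) (.list (Elt lab))

/-- first element of a row -/
def hdZ : Pr s Po .fld := onL .id .zero (.comp .snd .fst)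
@[simp] theorem val_hdZ (v : SV F s) (x : List F) : (hdZ : Pr s Po .fld).val v x = x.headD 0 := by
  cases x <;> simp [hdZ]
theorem cost_hdZ (v : SV F s) (k : SC F s) (x : List F) :
    (hdZ : Pr s Po .fld).cost v k x ≤ 6 := by
  cases x <;> simp [hdZ]

/-- first row -/
def hdN : Pr s Ma Po := onL .id .nil (.comp .snd .fst)
@[simp] theorem val_hdN (v : SV F s) (x : List (List F)) :
    (hdN : Pr s Ma Po).val v x = x.headD [] := by
  cases x <;> simp [hdN]
theorem cost_hdN (v : SV F s) (k : SC F s) (x : List (List F)) :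
    (hdN : Pr s Ma Po).cost v k x ≤ 6 := by
  cases x <;> simp [hdN]

/-- all but the first element -/
def tlP : Pr s (.list a) (.list a) := onL .id .nil (.comp .snd .snd)
@[simp] theorem val_tlP (v : SV F s) (x : List (Ty.D F a)) :
    (tlP : Pr s (.list a) (.list a)).val v x = x.tail := by
  cases x <;> simp [tlP]
theorem cost_tlP (v : SV F s) (k : SC F s) (x : List (Ty.D F a)) :
    (tlP : Pr s (.list a) (.list a)).cost v k x ≤ 6 := by
  cases x <;> simp [tlP]

/-- length in unary -/
def unP : Pr s (.list a) Un := .comp (.pair .star .id) (mapP (c := .unit) .star)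
@[simp] theorem val_unP (v : SV F s) (x : List (Ty.D F a)) :
    (unP : Pr s (.list a) Un).val v x = un x.length := by
  simp [unP, un]
theorem cost_unP (v : SV F s) (k : SC F s) (x : List (Ty.D F a)) :
    (unP : Pr s (.list a) Un).cost v k x ≤ 14 * x.length + 10 := by
  have := cost_mapP_le (s := s) (c := .unit) (a := a) (b := .unit) .star v k ((), x) 1
    (fun _ _ => by simp)
  simp [unP] at this ⊢
  omega

/-- difference of rows -/
def sbP : Pr s (.prod Po Po) Po := .comp (.pair .star .id)
  (zipP (c := .unit) (.comp (.pair (.comp .snd .fst) (.comp (.comp .snd .snd) .neg)) .add))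
@[simp] theorem val_sbP (v : SV F s) (x : List F × List F) :
    (sbP : Pr s (.prod Po Po) Po).val v x = List.zipWith (fun a b => a - b) x.1 x.2 := by
  simp [sbP, sub_eq_add_neg]
theorem cost_sbP (v : SV F s) (k : SC F s) (x : List F × List F) :
    (sbP : Pr s (.prod Po Po) Po).cost v k x ≤ 60 * x.1.length + 20 := by
  have := cost_zipP_le (s := s) (c := .unit) (a := .fld) (b := .fld) (d := .fld)
    (.comp (.pair (.comp .snd .fst) (.comp (.comp .snd .snd) .neg)) .add) v k ((), x) 7
    (fun _ _ _ _ => by simp)
  simp [sbP] at this ⊢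
  omega

/-! ### at most one row -/

/-- elimination for columns of length at most one -/
def bsF {α : Type} : List (α × List F) → List α × List (α × List F)
  | [] => ([], [])
  | e :: l => if e.2.headD 0 = 0 then
      ((bsF l).1, (e.1, lcase (bsF l).1 [] (fun _ _ => [0])) :: (bsF l).2)
    else ([e.1], l.map (fun f => (f.1, [f.2.headD 0 * (e.2.headD 0)⁻¹])))

/-- division of the first entry -/
def bsQ : Pr s (.prod .fld (.prod a Po)) (.prod a Po) :=
  .pair (.comp .snd .fst) (.comp (.pair (.comp (.pair (.comp (.comp .snd .snd) hdZ) .fst) .mul)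
    .nil) .cons)

/-- body of the elimination for columns of length at most one -/
def bsB : Pr ((.list (.prod a Po), .prod (.list a) (.list (.prod a Po))) :: s)
    (.list (.prod a Po)) (.prod (.list a) (.list (.prod a Po))) :=
  onL .id (.pair .nil .nil)
    (onZ (.comp (.comp (.comp .snd .fst) .snd) hdZ)
      (lt (.comp (.comp .snd .snd) .self)
        (.pair (.comp .snd .fst)
          (.comp (.pair (.pair (.comp (.comp (.comp .fst .snd) .fst) .fst)
            (onL (.comp .snd .fst) .nil (.comp (.pair .zero .nil) .cons)))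
              (.comp .snd .snd)) .cons)))
      (.pair (.comp (.pair (.comp (.comp .snd .fst) .fst) .nil) .cons)
        (.comp (.pair (.comp (.comp (.comp (.comp .snd .fst) .snd) hdZ) .inv) (.comp .snd .snd))
          (mapP bsQ))))

/-- elimination for columns of length at most one -/
def bsP : Pr s (.list (.prod a Po)) (.prod (.list a) (.list (.prod a Po))) :=
  .comp (.pair .id .id) (.recD bsB (.pair .nil .nil))

theorem val_bsP (v : SV F s) (x : List (Ty.D F a × List F)) :
    (bsP : Pr s (.list (.prod a Po)) _).val v x = bsF x := by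
  simp only [bsP, val_comp, val_pair, val_id, val_recD]
  induction x with
  | nil => simp [goV, bsF]
  | cons h t ih =>
    simp [goV, bsF, bsB, bsQ] at ih ⊢
    simp only [ih]

theorem cost_bsP (v : SV F s) (k : SC F s) (x : List (Ty.D F a × List F)) :
    (bsP : Pr s (.list (.prod a Po)) _).cost v k x ≤ 100 * x.length + 100 := by
  simp only [bsP, cost_comp, cost_pair, val_pair, val_id, cost_id, cost_recD]
  have hQ : ∀ (s' : List (Ty × Ty)) (v : SV F s') (k : SC F s') (y : F)
      (l : List (Ty.D F a × List F)),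
      (mapP (c := .fld) (bsQ (s := s') (a := a))).cost v k (y, l) ≤ 35 * l.length + 5 := by
    intro s' v k y l
    have := cost_mapP_le (s := s') (c := .fld) (a := .prod a Po) (b := .prod a Po) bsQ v k (y, l) 22
      (fun z _ => by
        have e := cost_hdZ (s := s') v k z.2
        simp [bsQ] at e ⊢
        omega)
    simpa using this
  have : ∀ l : List (Ty.D F a × List F), goC (bsB (s := s) (a := a)) (.pair .nil .nil) v k
      l.length l ≤ 100 * l.length + 50 := by
    intro l
    induction l with
    | nil => simp [goC]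
    | cons h t ih =>
      simp only [List.length_cons, goC]
      set V := (goV (bsB (s := s) (a := a)) (.pair .nil .nil) v t.length, v) with hV
      set K := (goC (bsB (s := s) (a := a)) (.pair .nil .nil) v k t.length, k) with hK
      have e1 := cost_hdZ (s := (.list (.prod a Po), .prod (.list a) (.list (.prod a Po))) :: s)
        V K h.2
      have e2 := hQ ((.list (.prod a Po), .prod (.list a) (.list (.prod a Po))) :: s) V K
        (h.2.headD 0)⁻¹ t
      have e3 : K.1 t ≤ 100 * t.length + 50 := ih
      have e4 : ∀ l : List (Ty.D F a), lcase l 1 (fun _ _ => (4 : ℕ)) ≤ 4 := by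
        intro l; cases l <;> simp
      have e5 := e4 (V.1 t).1
      simp [bsB] at e1 e2 e3 e5 ⊢
      split_ifs
      · omega
      · omega
  have := this x
  omega

theorem bsF_pos {α : Type} (e : α × List F) (l : List (α × List F)) (h : e.2.headD 0 = 0) :
    bsF (e :: l) = ((bsF l).1, (e.1, lcase (bsF l).1 [] (fun _ _ => [0])) :: (bsF l).2) := by
  rw [bsF, if_pos h]

theorem bsF_neg {α : Type} (e : α × List F) (l : List (α × List F)) (h : ¬ e.2.headD 0 = 0) :
    bsF (e :: l) = ([e.1], l.map (fun f => (f.1, [f.2.headD 0 * (e.2.headD 0)⁻¹]))) := by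
  rw [bsF, if_neg h]

theorem bsF_spec {α : Type} (m : ℕ) (hm : m ≤ 1) (cs : List (α × List F))
    (hcs : ∀ x ∈ cs, x.2.length = m) :
    ∃ (P' : List (α × List F)) (Fr' : List ((α × List F) × List F)),
      (bsF cs).1 = P'.map Prod.fst ∧ (bsF cs).2 = Fr'.map (fun x => (x.1.1, x.2)) ∧
      KerL (fun x => cvec x.2) cs P' Fr' := by
  induction cs with
  | nil => exact ⟨[], [], by simp [bsF], by simp [bsF], kerL_nil _⟩
  | cons e l ih =>
    obtain ⟨P', Fr', h1, h2, h3⟩ := ih (fun x hx => hcs x (by simp [hx]))
    have hlen : P'.length ≤ m := by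
      apply indep_card (F := F) (fun x : α × List F => x.2) P' m _ h3.2.2.1
      intro x hx
      exact hcs x (by simp [h3.1.subset (show x ∈ P' ++ _ by simp [hx])])
    have he := hcs e (by simp)
    by_cases h0 : e.2.headD 0 = 0
    · have hz : cvec e.2 = 0 := by
        funext i
        simp only [cvec, Pi.zero_apply]
        rcases he2 : e.2 with _ | ⟨y, _ | ⟨z, r⟩⟩
        · simp
        · rw [he2] at h0
          simp at h0
          cases i <;> simp [h0]
        · rw [he2] at he
          simp at he
          omega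
      refine ⟨P', (e, List.replicate P'.length 0) :: Fr', by rw [bsF_pos _ _ h0]; exact h1, ?_,
        kerL_zero _ _ _ _ h3 e hz⟩
      rw [bsF_pos _ _ h0]
      simp only [List.map_cons, h2, List.cons.injEq, and_true]
      rw [h1]
      rcases P' with _ | ⟨p, _ | ⟨p', P'⟩⟩
      · simp
      · simp
      · simp at hlen; omega
    · obtain ⟨y, hy⟩ : ∃ y, e.2 = [y] := by
        rcases he2 : e.2 with _ | ⟨y, _ | ⟨z, r⟩⟩
        · rw [he2] at h0; simp at h0
        · exact ⟨y, rfl⟩
        · rw [he2] at he; simp at he; omega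
      have hm1 : m = 1 := by rw [hy] at he; simpa using he.symm
      have hy0 : y ≠ 0 := by rw [hy] at h0; simpa using h0
      refine ⟨[e], l.map (fun x => (x, [x.2.headD 0 * (e.2.headD 0)⁻¹])), by rw [bsF_neg _ _ h0]; simp, ?_,
        kerL_one (F := F) (fun x : α × List F => cvec x.2) l e ?_
          (fun x => x.2.headD 0 * (e.2.headD 0)⁻¹) ?_⟩
      · rw [bsF_neg _ _ h0]; simp
      · intro hcon
        have := congrFun hcon 0
        rw [hy] at this
        simp [cvec] at this
        exact hy0 this
      · intro x hx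
        obtain ⟨z, hz⟩ : ∃ z, x.2 = [z] := by
          have e1 := hcs x (by simp [hx])
          rw [hm1] at e1
          exact List.length_eq_one_iff.mp e1
        funext i
        simp only [Pi.smul_apply, cvec, hz, hy, smul_eq_mul]
        cases i with
        | zero => simp; field_simp
        | succ i => simp

end kerProg

section kerStep

variable {F : Type} [Field F]

/-- tops, with the bottoms on the stack -/
def spF {α : Type} (cs : List ((α × List (List F)) × List F)) :
    List ((α × List (List F)) × List F) :=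
  cs.map (fun x => ((x.1.1, (eo x.2).2 :: x.1.2), (eo x.2).1))

/-- residuals -/
def mkF {α : Type} (c : ℕ)
    (r : List (α × List (List F)) × List ((α × List (List F)) × List F)) :
    List ((α × List (List F)) × List F) :=
  List.zipWith (fun y z => ((y.1.1, y.2 :: y.1.2.tail),
    List.zipWith (fun a b => a - b) (y.1.2.headD []) z)) r.2
    (mmul c (r.2.map (fun y => y.2)) (r.1.map (fun y => y.2.headD [])))

/-- output -/
def ouF {α : Type} (P : List (α × List (List F)))
    (r : List (α × List (List F)) × List ((α × List (List F)) × List F)) :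
    List (α × List (List F)) × List ((α × List (List F)) × List F) :=
  (P.map (fun y => (y.1, y.2.tail)) ++ r.1.map (fun y => (y.1, y.2.tail)),
    List.zipWith (fun y z => ((y.1.1, y.1.2.tail),
      List.zipWith (fun a b => a - b) (y.1.2.headD []) z ++ y.2)) r.2
      (mmul P.length (r.2.map (fun y => y.2)) (r.1.map (fun y => y.2.headD []))))

theorem zipWith_map_self {α β γ : Type} (f : α → β → γ) (g : α → β) (l : List α) :
    List.zipWith f l (l.map g) = l.map (fun x => f x (g x)) := by
  induction l with
  | nil => rfl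
  | cons x l ih => simp [ih]

theorem mkF_eq {α : Type} (c : ℕ)
    (r : List (α × List (List F)) × List ((α × List (List F)) × List F)) :
    mkF c r = r.2.map (fun y => ((y.1.1, y.2 :: y.1.2.tail),
      List.zipWith (fun a b => a - b) (y.1.2.headD [])
        (rowM c y.2 (r.1.map (fun y => y.2.headD []))))) := by
  rw [mkF, mmul_eq, List.map_map, zipWith_map_self]
  rfl

theorem ouF_eq {α : Type} (P : List (α × List (List F)))
    (r : List (α × List (List F)) × List ((α × List (List F)) × List F)) :
    (ouF P r).2 = r.2.map (fun y => ((y.1.1, y.1.2.tail),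
      List.zipWith (fun a b => a - b) (y.1.2.headD [])
        (rowM P.length y.2 (r.1.map (fun y => y.2.headD []))) ++ y.2)) := by
  rw [ouF, mmul_eq, List.map_map, zipWith_map_self]
  rfl

theorem step_data1 {α : Type} (cs : List ((α × List (List F)) × List F))
    (r : List (α × List (List F)) × List ((α × List (List F)) × List F))
    (h : KerSpec (spF cs) r.1 r.2) :
    ∃ (Pu : List ((α × List (List F)) × List F))
      (Fu : List (((α × List (List F)) × List F) × List F)),
      r.1 = Pu.map (fun u => (u.1.1, (eo u.2).2 :: u.1.2)) ∧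
      r.2 = Fu.map (fun x => ((x.1.1.1, (eo x.1.2).2 :: x.1.1.2), x.2)) ∧
      KerL (fun x => evL (cvec x.2)) cs Pu Fu := by
  obtain ⟨P', Fr', h1, h2, h3⟩ := (kerSpec_iff _ _ _).mp h
  obtain ⟨Pu, Fu, e1, e2, e3⟩ := kerL_lift (fun x : (α × List (List F)) × List F => cvec x.2)
    (fun x : (α × List (List F)) × List F =>
      (((x.1.1, (eo x.2).2 :: x.1.2), (eo x.2).1) : (α × List (List F)) × List F)) cs
    (by
      rintro ⟨⟨a, s⟩, l⟩ _ ⟨⟨a', s'⟩, l'⟩ _ hxy
      simp only [Prod.mk.injEq, List.cons.injEq] at hxy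
      have := eo_inj l l' (Prod.ext hxy.2 hxy.1.2.1)
      rw [this, hxy.1.1, hxy.1.2.2]) P' Fr' h3
  refine ⟨Pu, Fu, ?_, ?_, ?_⟩
  · rw [h1, e1, List.map_map]; rfl
  · rw [h2, e2, List.map_map]; rfl
  · simpa only [(cvec_eo _).1] using e3

theorem step_data2 {α : Type} (m : ℕ) (cs : List ((α × List (List F)) × List F))
    (hcs : ∀ x ∈ cs, x.2.length = m)
    (r r' : List (α × List (List F)) × List ((α × List (List F)) × List F))
    (Pu : List ((α × List (List F)) × List F))
    (Fu : List (((α × List (List F)) × List F) × List F))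
    (h1 : r.1 = Pu.map (fun u => (u.1.1, (eo u.2).2 :: u.1.2)))
    (h2 : r.2 = Fu.map (fun x => ((x.1.1.1, (eo x.1.2).2 :: x.1.1.2), x.2)))
    (h3 : KerL (fun x => evL (cvec x.2)) cs Pu Fu)
    (h : KerSpec (mkF (m / 2) r) r'.1 r'.2) :
    ∃ (Pv : List (((α × List (List F)) × List F) × List F))
      (Fv : List ((((α × List (List F)) × List F) × List F) × List F)),
      r'.1 = Pv.map (fun v => (v.1.1.1, v.2 :: v.1.1.2)) ∧
      r'.2 = Fv.map (fun y => ((y.1.1.1.1, y.1.2 :: y.1.1.1.2), y.2)) ∧
      KerL (fun x => odL (cvec x.1.2) - lc x.2 (Pu.map (fun y => odL (cvec y.2)))) Fu Pv Fv := by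
  have hPu : ∀ x ∈ Pu, x.2.length = m := fun x hx => hcs x (h3.1.subset (by simp [hx]))
  have hFu : ∀ x ∈ Fu, x.1.2.length = m := fun x hx => hcs x.1 (h3.1.subset (by
    simp only [List.mem_append, List.mem_map]
    exact Or.inr ⟨x, hx, rfl⟩))
  -- the columns of the residual list
  have hB : ∀ y ∈ Pu.map (fun u => (eo u.2).2), y.length = m / 2 := by
    intro y hy
    obtain ⟨u, hu, rfl⟩ := List.mem_map.mp hy
    rw [(length_eo _).2, hPu u hu]
  have hcol : ∀ x ∈ Fu, cvec (List.zipWith (fun a b => a - b) (eo x.1.2).2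
      (rowM (m / 2) x.2 (Pu.map (fun u => (eo u.2).2)))) =
      odL (cvec x.1.2) - lc x.2 (Pu.map (fun y => odL (cvec y.2))) := by
    intro x hx
    rw [cvec_sub _ _ (by rw [(length_eo _).2, hFu x hx, length_rowM]), cvec_rowM _ _ _ hB,
      (cvec_eo _).2, List.map_map]
    congr 2
    apply List.map_congr_left
    intro y _
    exact (cvec_eo _).2
  have hmk : mkF (m / 2) r = Fu.map (fun x => ((x.1.1.1, x.2 :: x.1.1.2),
      List.zipWith (fun a b => a - b) (eo x.1.2).2
      (rowM (m / 2) x.2 (Pu.map (fun u => (eo u.2).2))))) := by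
    rw [mkF_eq, h1, h2, List.map_map, List.map_map]
    rfl
  rw [hmk] at h
  obtain ⟨P', Fr', g1, g2, g3⟩ := (kerSpec_iff _ _ _).mp h
  obtain ⟨Pv, Fv, e1, e2, e3⟩ := kerL_lift (fun x : (α × List (List F)) × List F => cvec x.2)
    (fun x : ((α × List (List F)) × List F) × List F =>
      (((x.1.1.1, x.2 :: x.1.1.2), List.zipWith (fun a b => a - b) (eo x.1.2).2
      (rowM (m / 2) x.2 (Pu.map (fun u => (eo u.2).2)))) : (α × List (List F)) × List F)) Fu
    (by
      intro x hx y hy hxy
      have hcx := hcol x hx
      have hcy := hcol y hy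
      have hlx := hFu x hx
      have hly := hFu y hy
      have hex := (h3.2.2.2.1 x hx).2
      have hey := (h3.2.2.2.1 y hy).2
      obtain ⟨⟨⟨a, s⟩, l⟩, X⟩ := x
      obtain ⟨⟨⟨a', s'⟩, l'⟩, X'⟩ := y
      simp only [Prod.mk.injEq, List.cons.injEq] at hxy hcx hcy hlx hly hex hey
      obtain ⟨⟨rfl, rfl, rfl⟩, hcc⟩ := hxy
      have : l = l' := by
        apply cvec_inj _ _ (by rw [hlx, hly])
        rw [← sub_eq_zero]
        apply ev_od_zero
        · rw [map_sub, hex, hey, sub_self]
        · rw [hcc, hcy] at hcx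
          rw [map_sub, sub_eq_zero]
          exact (sub_left_injective hcx).symm
      rw [this]) P' Fr' g3
  refine ⟨Pv, Fv, ?_, ?_, ?_⟩
  · rw [g1, e1, List.map_map]; rfl
  · rw [g2, e2, List.map_map]; rfl
  · have hsub1 : ∀ x ∈ Pv, x ∈ Fu := fun x hx => e3.1.subset (by simp [hx])
    have hsub2 : ∀ x ∈ Fv, x.1 ∈ Fu := fun x hx => e3.1.subset (by
      simp only [List.mem_append, List.mem_map]
      exact Or.inr ⟨x, hx, rfl⟩)
    obtain ⟨f1, f2, f3, f4, f5⟩ := e3
    have hPv : Pv.map (fun x => cvec (List.zipWith (fun a b => a - b) (eo x.1.2).2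
      (rowM (m / 2) x.2 (Pu.map (fun u => (eo u.2).2))))) = Pv.map (fun x =>
        odL (cvec x.1.2) - lc x.2 (Pu.map (fun y => odL (cvec y.2)))) :=
      List.map_congr_left (fun x hx => hcol x (hsub1 x hx))
    refine ⟨f1, f2, ?_, ?_, f5⟩
    · rw [← hPv]; exact f3
    · intro x hx
      refine ⟨(f4 x hx).1, ?_⟩
      rw [← hPv]
      exact (hcol x.1 (hsub2 x hx)).symm.trans (f4 x hx).2

theorem step_spec {α : Type} (m : ℕ) (cs : List ((α × List (List F)) × List F))
    (hcs : ∀ x ∈ cs, x.2.length = m)
    (r r' : List (α × List (List F)) × List ((α × List (List F)) × List F))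
    (h : KerSpec (spF cs) r.1 r.2) (h' : KerSpec (mkF (m / 2) r) r'.1 r'.2) :
    KerSpec cs (ouF r.1 r').1 (ouF r.1 r').2 ∧
    (∀ y ∈ spF cs, y.2.length = (m + 1) / 2) ∧ (∀ y ∈ mkF (m / 2) r, y.2.length = m / 2) ∧
    (∀ y ∈ r.1, (y.2.headD []).length = m / 2) ∧ (∀ y ∈ r.2, y.2.length = r.1.length) ∧
    (∀ y ∈ r.2, (y.1.2.headD []).length = m / 2) ∧
    (∀ y ∈ r'.1, (y.2.headD []).length = r.1.length) ∧ (∀ y ∈ r'.2, y.2.length = r'.1.length) ∧
    (∀ y ∈ r'.2, (y.1.2.headD []).length = r.1.length) ∧
    r.1.length ≤ (m + 1) / 2 ∧ r'.1.length ≤ m / 2 ∧ r.1.length + r.2.length = cs.length ∧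
    r'.1.length + r'.2.length = r.2.length := by
  obtain ⟨Pu, Fu, a1, a2, a3⟩ := step_data1 cs r h
  obtain ⟨Pv, Fv, b1, b2, b3⟩ := step_data2 m cs hcs r r' Pu Fu a1 a2 a3 h'
  have hPu : ∀ x ∈ Pu, x.2.length = m := fun x hx => hcs x (a3.1.subset (by simp [hx]))
  have hFu : ∀ x ∈ Fu, x.1.2.length = m := fun x hx => hcs x.1 (a3.1.subset (by
    simp only [List.mem_append, List.mem_map]
    exact Or.inr ⟨x, hx, rfl⟩))
  have hsub1 : ∀ x ∈ Pv, x ∈ Fu := fun x hx => b3.1.subset (by simp [hx])
  have hsub2 : ∀ x ∈ Fv, x.1 ∈ Fu := fun x hx => b3.1.subset (by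
    simp only [List.mem_append, List.mem_map]
    exact Or.inr ⟨x, hx, rfl⟩)
  have hcomb := kerL_comb (F := F) evL odL ev_od_zero
    (fun x : (α × List (List F)) × List F => cvec x.2) cs Pu Fu a3 Pv Fv b3
  have hlP : r.1.length = Pu.length := by rw [a1, List.length_map]
  have hlP' : r'.1.length = Pv.length := by rw [b1, List.length_map]
  have hmk : ∀ y ∈ mkF (m / 2) r, y.2.length = m / 2 := by
    intro y hy
    rw [mkF_eq, a2] at hy
    simp only [List.mem_map] at hy
    obtain ⟨z, ⟨x, hx, rfl⟩, rfl⟩ := hy
    simp [(length_eo _).2, hFu x hx]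
  have hsp : ∀ y ∈ spF cs, y.2.length = (m + 1) / 2 := by
    intro y hy
    obtain ⟨x, hx, rfl⟩ := List.mem_map.mp hy
    simp only
    rw [(length_eo _).1, hcs x hx]
  refine ⟨?_, hsp, hmk, ?_, ?_, ?_, ?_, ?_, ?_, ?_, ?_, ?_, ?_⟩
  · rw [kerSpec_iff]
    refine ⟨_, _, ?_, ?_, hcomb⟩
    · simp only [ouF, a1, b1, List.map_map, List.map_append]
      rfl
    · rw [ouF_eq, a1, b1, b2]
      simp only [List.map_map, List.length_map]
      rfl
  · intro y hy
    rw [a1] at hy
    obtain ⟨x, hx, rfl⟩ := List.mem_map.mp hy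
    simp [(length_eo _).2, hPu x hx]
  · intro y hy
    rw [a2] at hy
    obtain ⟨x, hx, rfl⟩ := List.mem_map.mp hy
    rw [hlP]
    exact (a3.2.2.2.1 x hx).1
  · intro y hy
    rw [a2] at hy
    obtain ⟨x, hx, rfl⟩ := List.mem_map.mp hy
    simp [(length_eo _).2, hFu x hx]
  · intro y hy
    rw [b1] at hy
    obtain ⟨x, hx, rfl⟩ := List.mem_map.mp hy
    rw [hlP]
    exact (a3.2.2.2.1 x (hsub1 x hx)).1
  · intro y hy
    rw [b2] at hy
    obtain ⟨x, hx, rfl⟩ := List.mem_map.mp hy
    rw [hlP']
    exact (b3.2.2.2.1 x hx).1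
  · intro y hy
    rw [b2] at hy
    obtain ⟨x, hx, rfl⟩ := List.mem_map.mp hy
    rw [hlP]
    exact (a3.2.2.2.1 x.1 (hsub2 x hx)).1
  · obtain ⟨P', Fr', h1, h2, h3⟩ := (kerSpec_iff _ _ _).mp h
    rw [h1, List.length_map]
    apply indep_card (F := F) (fun x : (α × List (List F)) × List F => x.2) P' _ _ h3.2.2.1
    intro x hx
    exact hsp x (h3.1.subset (by simp [hx]))
  · obtain ⟨P', Fr', h1, h2, h3⟩ := (kerSpec_iff _ _ _).mp h'
    rw [h1, List.length_map]
    apply indep_card (F := F) (fun x : (α × List (List F)) × List F => x.2) P' _ _ h3.2.2.1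
    intro x hx
    exact hmk x (h3.1.subset (by simp [hx]))
  · have := a3.1.length_eq
    simp only [List.length_append, List.length_map] at this
    rw [hlP, a2, List.length_map]
    exact this
  · have := b3.1.length_eq
    simp only [List.length_append, List.length_map] at this
    rw [hlP', a2, b2, List.length_map, List.length_map]
    exact this

end kerStep

section kerRun

variable {F : Type} [Field F] [DecidableEq F]
variable {s : List (Ty × Ty)} {lab a b : Ty}

/-- tops, with the bottoms on the stack -/
def spP : Pr s (.list (Elt lab)) (.list (Elt lab)) :=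
  .comp (.pair .star .id) (mapP (c := .unit) (lt (.comp (.comp .snd .snd) eoP)
    (.pair (.pair (.comp (.comp (.comp .fst .snd) .fst) .fst)
      (.comp (.pair (.comp .snd .snd) (.comp (.comp (.comp .fst .snd) .fst) .snd)) .cons))
      (.comp .snd .fst))))

@[simp] theorem val_spP (v : SV F s) (x : List ((Ty.D F lab × List (List F)) × List F)) :
    (spP : Pr s (.list (Elt lab)) _).val v x = spF x := by
  simp [spP, spF]

theorem cost_spP (v : SV F s) (k : SC F s) (x : List ((Ty.D F lab × List (List F)) × List F))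
    (m : ℕ) (hm : ∀ y ∈ x, y.2.length = m) :
    (spP : Pr s (.list (Elt lab)) _).cost v k x ≤ (24 * m + 60) * x.length + 20 := by
  have := cost_mapP_le (s := s) (c := .unit) (a := Elt lab) (b := Elt lab)
    (lt (.comp (.comp .snd .snd) eoP)
    (.pair (.pair (.comp (.comp (.comp .fst .snd) .fst) .fst)
      (.comp (.pair (.comp .snd .snd) (.comp (.comp (.comp .fst .snd) .fst) .snd)) .cons))
      (.comp .snd .fst))) v k ((), x) (24 * m + 40)
    (fun y hy => by
      have e := cost_eoP (s := s) v k y.2
      rw [hm y hy] at e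
      simp at e ⊢
      omega)
  simp [spP] at this ⊢
  nlinarith

/-- half of the number of rows -/
def clP : Pr s (.list (Elt lab)) Un :=
  onL .id .nil (.comp (.comp (.comp (.comp (.comp .snd .fst) .snd) eoP) .snd) unP)

@[simp] theorem val_clP (v : SV F s) (x : List ((Ty.D F lab × List (List F)) × List F)) :
    (clP : Pr s (.list (Elt lab)) _).val v x = lcase x [] (fun y _ => un (eo y.2).2.length) := by
  simp [clP]

theorem cost_clP (v : SV F s) (k : SC F s) (x : List ((Ty.D F lab × List (List F)) × List F))
    (m : ℕ) (hm : ∀ y ∈ x, y.2.length = m) :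
    (clP : Pr s (.list (Elt lab)) _).cost v k x ≤ 40 * m + 40 := by
  cases x with
  | nil => simp [clP]
  | cons y x =>
    have e := cost_eoP (s := s) (a := .fld) v k y.2
    have e2 := cost_unP (s := s) (a := .fld) v k (eo y.2).2
    rw [hm y (by simp)] at e
    rw [(length_eo _).2, hm y (by simp)] at e2
    simp [clP] at e e2 ⊢
    omega

/-- heads of the stacks -/
def hsP : Pr s (.list (LSt a)) Ma :=
  .comp (.pair .star .id) (mapP (c := .unit) (.comp (.comp .snd .snd) hdN))
@[simp] theorem val_hsP (v : SV F s) (x : List (Ty.D F a × List (List F))) :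
    (hsP : Pr s (.list (LSt a)) _).val v x = x.map (fun y => y.2.headD []) := by
  simp [hsP]
theorem cost_hsP (v : SV F s) (k : SC F s) (x : List (Ty.D F a × List (List F))) :
    (hsP : Pr s (.list (LSt a)) _).cost v k x ≤ 22 * x.length + 10 := by
  have := cost_mapP_le (s := s) (c := .unit) (a := LSt a) (b := Po)
    (.comp (.comp .snd .snd) hdN) v k ((), x) 9
    (fun y hy => by
      have e := cost_hdN (s := s) v k y.2
      simp at e ⊢
      omega)
  simp [hsP] at this ⊢
  omega

/-- the columns -/
def coP : Pr s (.list (.prod a b)) (.list b) :=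
  .comp (.pair .star .id) (mapP (c := .unit) (.comp .snd .snd))
@[simp] theorem val_coP (v : SV F s) (x : List (Ty.D F a × Ty.D F b)) :
    (coP : Pr s (.list (.prod a b)) _).val v x = x.map (fun y => y.2) := by
  simp [coP]
theorem cost_coP (v : SV F s) (k : SC F s) (x : List (Ty.D F a × Ty.D F b)) :
    (coP : Pr s (.list (.prod a b)) _).cost v k x ≤ 16 * x.length + 10 := by
  have := cost_mapP_le (s := s) (c := .unit) (a := .prod a b) (b := b)
    (.comp .snd .snd) v k ((), x) 3
    (fun y hy => by simp)
  simp [coP] at this ⊢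
  omega

/-- forget the heads of the stacks -/
def poP : Pr s (.list (LSt a)) (.list (LSt a)) :=
  .comp (.pair .star .id) (mapP (c := .unit) (.pair (.comp .snd .fst)
    (.comp (.comp .snd .snd) tlP)))
@[simp] theorem val_poP (v : SV F s) (x : List (Ty.D F a × List (List F))) :
    (poP : Pr s (.list (LSt a)) _).val v x = x.map (fun y => (y.1, y.2.tail)) := by
  simp [poP]
theorem cost_poP (v : SV F s) (k : SC F s) (x : List (Ty.D F a × List (List F))) :
    (poP : Pr s (.list (LSt a)) _).cost v k x ≤ 28 * x.length + 10 := by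
  have := cost_mapP_le (s := s) (c := .unit) (a := LSt a) (b := LSt a)
    (.pair (.comp .snd .fst) (.comp (.comp .snd .snd) tlP)) v k ((), x) 13
    (fun y hy => by
      have e := cost_tlP (s := s) (a := Po) v k y.2
      simp at e ⊢
      omega)
  simp [poP] at this ⊢
  omega

/-- residuals -/
def mkP (pm : Pr [] (.prod Un (.prod Ma Ma)) Ma) : Pr s (.prod Un (KOt lab)) (.list (Elt lab)) :=
  .comp (.pair .star (.pair (.comp .snd .snd)
    (.comp (.pair .fst (.pair (.comp (.comp .snd .snd) coP) (.comp (.comp .snd .fst) hsP)))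
      (liftP s pm))))
    (zipP (c := .unit) (.pair (.pair (.comp (.comp (.comp .snd .fst) .fst) .fst)
      (.comp (.pair (.comp (.comp .snd .fst) .snd)
        (.comp (.comp (.comp (.comp .snd .fst) .fst) .snd) tlP)) .cons))
      (.comp (.pair (.comp (.comp (.comp (.comp .snd .fst) .fst) .snd) hdN) (.comp .snd .snd))
        sbP)))

theorem val_mkP (pm : Pr [] (.prod Un (.prod Ma Ma)) Ma) (v : SV F s) (c : ℕ)
    (r : List (Ty.D F lab × List (List F)) ×
      List ((Ty.D F lab × List (List F)) × List F))
    (hm : (pm.val () (un c, (r.2.map (fun y => y.2), r.1.map (fun y => y.2.headD []))) :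
      List (List F)) = mmul c (r.2.map (fun y => y.2)) (r.1.map (fun y => y.2.headD []))) :
    (mkP (s := s) (lab := lab) pm).val v (un c, r) = mkF c r := by
  simp only [mkP, val_comp, val_pair, val_star, val_fst, val_snd, val_coP, val_hsP, val_liftP,
    val_zipP, val_tlP, val_hdN, val_cons, val_sbP, hm]
  rfl

theorem cost_mkP (pm : Pr [] (.prod Un (.prod Ma Ma)) Ma) (v : SV F s) (k : SC F s) (c T : ℕ)
    (r : List (Ty.D F lab × List (List F)) ×
      List ((Ty.D F lab × List (List F)) × List F))
    (hm : (pm.val () (un c, (r.2.map (fun y => y.2), r.1.map (fun y => y.2.headD []))) :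
      List (List F)) = mmul c (r.2.map (fun y => y.2)) (r.1.map (fun y => y.2.headD [])))
    (hT : pm.cost () () ((un c, (r.2.map (fun y => y.2), r.1.map (fun y => y.2.headD []))) :
      List Unit × (List (List F) × List (List F))) ≤ T)
    (hc : ∀ y ∈ r.2, (y.1.2.headD []).length = c) :
    (mkP (s := s) (lab := lab) pm).cost v k (un c, r) ≤
      (60 * c + 140) * r.2.length + 22 * r.1.length + T + 80 := by
  have h1 := cost_coP (s := s) (a := LSt lab) (b := Po) v k r.2
  have h2 := cost_hsP (s := s) (a := lab) v k r.1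
  have h3 := cost_zipP_le (s := s) (c := .unit) (a := Elt lab) (b := Po) (d := Elt lab)
    (.pair (.pair (.comp (.comp (.comp .snd .fst) .fst) .fst)
      (.comp (.pair (.comp (.comp .snd .fst) .snd)
        (.comp (.comp (.comp (.comp .snd .fst) .fst) .snd) tlP)) .cons))
      (.comp (.pair (.comp (.comp (.comp (.comp .snd .fst) .fst) .snd) hdN) (.comp .snd .snd))
        sbP)) v k ((), (r.2, mmul c (r.2.map (fun y => y.2)) (r.1.map (fun y => y.2.headD []))))
    (60 * c + 70) (fun y hy z _ => by
      have e1 := cost_tlP (s := s) (a := Po) v k y.1.2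
      have e2 := cost_hdN (s := s) v k y.1.2
      have e3 := cost_sbP (s := s) v k (y.1.2.headD [], z)
      simp only [hc y hy] at e3
      simp only [cost_pair, cost_comp, cost_fst, cost_snd, cost_cons, val_comp, val_pair, val_fst,
        val_snd, val_hdN, val_tlP] at e1 e2 e3 ⊢
      omega)
  simp only [mkP, cost_comp, cost_pair, cost_star, cost_fst, cost_snd, cost_liftP, val_comp,
    val_pair, val_star, val_fst, val_snd, val_coP, val_hsP, val_liftP, hm] at h1 h2 h3 ⊢
  nlinarith

/-- output -/
def ouP (pm : Pr [] (.prod Un (.prod Ma Ma)) Ma) :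
    Pr s (.prod (.list (LSt lab)) (KOt lab)) (KOt lab) :=
  .pair (.comp (.pair (.comp .fst poP) (.comp (.comp .snd .fst) poP)) appP)
    (.comp (.pair .star (.pair (.comp .snd .snd)
      (.comp (.pair (.comp .fst unP) (.pair (.comp (.comp .snd .snd) coP)
        (.comp (.comp .snd .fst) hsP))) (liftP s pm))))
      (zipP (c := .unit) (.pair (.pair (.comp (.comp (.comp .snd .fst) .fst) .fst)
          (.comp (.comp (.comp (.comp .snd .fst) .fst) .snd) tlP))
        (.comp (.pair
          (.comp (.pair (.comp (.comp (.comp (.comp .snd .fst) .fst) .snd) hdN) (.comp .snd .snd))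
            sbP)
          (.comp (.comp .snd .fst) .snd)) appP))))

theorem val_ouP (pm : Pr [] (.prod Un (.prod Ma Ma)) Ma) (v : SV F s)
    (P : List (Ty.D F lab × List (List F)))
    (r : List (Ty.D F lab × List (List F)) ×
      List ((Ty.D F lab × List (List F)) × List F))
    (hm : (pm.val () (un P.length, (r.2.map (fun y => y.2), r.1.map (fun y => y.2.headD []))) :
      List (List F)) =
        mmul P.length (r.2.map (fun y => y.2)) (r.1.map (fun y => y.2.headD []))) :
    (ouP (s := s) (lab := lab) pm).val v (P, r) = ouF P r := by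
  simp only [ouP, val_comp, val_pair, val_star, val_fst, val_snd, val_coP, val_hsP, val_liftP,
    val_zipP, val_tlP, val_hdN, val_sbP, val_unP, val_poP, val_appP, hm]
  rfl

theorem cost_ouP (pm : Pr [] (.prod Un (.prod Ma Ma)) Ma) (v : SV F s) (k : SC F s) (T : ℕ)
    (P : List (Ty.D F lab × List (List F)))
    (r : List (Ty.D F lab × List (List F)) ×
      List ((Ty.D F lab × List (List F)) × List F))
    (hm : (pm.val () (un P.length, (r.2.map (fun y => y.2), r.1.map (fun y => y.2.headD []))) :
      List (List F)) =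
        mmul P.length (r.2.map (fun y => y.2)) (r.1.map (fun y => y.2.headD [])))
    (hT : pm.cost () () ((un P.length, (r.2.map (fun y => y.2), r.1.map (fun y => y.2.headD []))) :
      List Unit × (List (List F) × List (List F))) ≤ T)
    (hc : ∀ y ∈ r.2, (y.1.2.headD []).length = P.length) :
    (ouP (s := s) (lab := lab) pm).cost v k (P, r) ≤
      (80 * P.length + 180) * r.2.length + 100 * P.length + 100 * r.1.length + T + 150 := by
  have h1 := cost_coP (s := s) (a := LSt lab) (b := Po) v k r.2
  have h2 := cost_hsP (s := s) (a := lab) v k r.1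
  have h4 := cost_poP (s := s) (a := lab) v k P
  have h5 := cost_poP (s := s) (a := lab) v k r.1
  have h6 := cost_unP (s := s) (a := LSt lab) v k P
  have h7 := cost_appP (s := s) (a := LSt lab) v k (P.map (fun y => (y.1, y.2.tail)),
    r.1.map (fun y => (y.1, y.2.tail)))
  have h3 := cost_zipP_le (s := s) (c := .unit) (a := Elt lab) (b := Po) (d := Elt lab)
    (.pair (.pair (.comp (.comp (.comp .snd .fst) .fst) .fst)
          (.comp (.comp (.comp (.comp .snd .fst) .fst) .snd) tlP))
        (.comp (.pair
          (.comp (.pair (.comp (.comp (.comp (.comp .snd .fst) .fst) .snd) hdN) (.comp .snd .snd))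
            sbP)
          (.comp (.comp .snd .fst) .snd)) appP)) v k
    ((), (r.2, mmul P.length (r.2.map (fun y => y.2)) (r.1.map (fun y => y.2.headD []))))
    (80 * P.length + 90) (fun y hy z _ => by
      have e1 := cost_tlP (s := s) (a := Po) v k y.1.2
      have e2 := cost_hdN (s := s) v k y.1.2
      have e3 := cost_sbP (s := s) v k (y.1.2.headD [], z)
      have e4 : (appP : Pr s (.prod Po Po) Po).cost v k
        ((sbP : Pr s (.prod Po Po) Po).val v (y.1.2.headD [], z), y.2) ≤ 20 * P.length + 5 := by
        refine (cost_appP (s := s) (a := .fld) v k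
          ((sbP : Pr s (.prod Po Po) Po).val v (y.1.2.headD [], z), y.2)).trans ?_
        rw [val_sbP]
        simp only [List.length_zipWith, hc y hy]
        omega
      simp only [hc y hy] at e3
      simp only [cost_pair, cost_comp, cost_fst, cost_snd, val_comp, val_pair, val_fst,
        val_snd, val_hdN, val_sbP] at e1 e2 e3 e4 ⊢
      omega)
  simp only [List.length_map] at h7
  simp only [ouP, cost_comp, cost_pair, cost_star, cost_fst, cost_snd, cost_liftP, val_comp,
    val_pair, val_star, val_fst, val_snd, val_coP, val_hsP, val_liftP, val_unP, val_poP, hm]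
    at h1 h2 h3 h4 h5 h6 h7 ⊢
  nlinarith

/-- the recursive step -/
def stP (pm : Pr [] (.prod Un (.prod Ma Ma)) Ma) :
    Pr ((.list (Elt lab), KOt lab) :: s) (.list (Elt lab)) (KOt lab) :=
  lt (.pair clP (.comp spP .self))
    (lt (.comp (.comp .snd (mkP pm)) .self)
      (.comp (.pair (.comp (.comp (.comp .fst .snd) .snd) .fst) .snd) (ouP pm)))

/-- the body of the elimination -/
def kbP (pm : Pr [] (.prod Un (.prod Ma Ma)) Ma) :
    Pr ((.list (Elt lab), KOt lab) :: s) (.list (Elt lab)) (KOt lab) :=
  onL .id bsP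
    (onL (.comp (.comp .snd .fst) .snd) (.comp .fst bsP)
      (onL (.comp .snd .snd) (.comp (.comp .fst .fst) bsP)
        (.comp (.comp (.comp .fst .fst) .fst) (stP pm))))

theorem val_stP (pm : Pr [] (.prod Un (.prod Ma Ma)) Ma) (v : SV F ((.list (Elt lab), KOt lab) :: s))
    (e : (Ty.D F lab × List (List F)) × List F)
    (l : List ((Ty.D F lab × List (List F)) × List F)) (m : ℕ) (hm : e.2.length = m) :
    (stP (s := s) (lab := lab) pm).val v (e :: l) =
      (ouP pm).val v ((v.1 (spF (e :: l))).1,
        v.1 ((mkP pm).val v (un (m / 2), v.1 (spF (e :: l))))) := by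
  simp only [stP, val_lt, val_pair, val_clP, val_comp, val_spP, val_self, val_snd, val_fst,
    lcase_cons, (length_eo _).2, hm]

theorem cost_stP (pm : Pr [] (.prod Un (.prod Ma Ma)) Ma)
    (v : SV F ((.list (Elt lab), KOt lab) :: s)) (k : SC F ((.list (Elt lab), KOt lab) :: s))
    (e : (Ty.D F lab × List (List F)) × List F)
    (l : List ((Ty.D F lab × List (List F)) × List F)) (m : ℕ) (hm : e.2.length = m) :
    (stP (s := s) (lab := lab) pm).cost v k (e :: l) =
      (clP (lab := lab)).cost v k (e :: l) + (spP (lab := lab)).cost v k (e :: l) +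
        k.1 (spF (e :: l)) + (mkP pm).cost v k (un (m / 2), v.1 (spF (e :: l))) +
        k.1 ((mkP pm).val v (un (m / 2), v.1 (spF (e :: l)))) +
        (ouP pm).cost v k ((v.1 (spF (e :: l))).1,
        v.1 ((mkP pm).val v (un (m / 2), v.1 (spF (e :: l))))) + 14 := by
  simp only [stP, cost_lt, cost_pair, cost_comp, cost_self, cost_snd, cost_fst, val_pair, val_clP,
    val_comp, val_spP, val_self, val_snd, val_fst, lcase_cons, (length_eo _).2, hm]
  omega

end kerRun

section kerEnd

variable {F : Type} [Field F] [DecidableEq F]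
variable {s : List (Ty × Ty)} {lab a b : Ty}

theorem two_vv (L : ℕ) : 2 ^ L * vv (L + 1) ≤ 7 * 7 ^ L := by
  unfold vv
  have h1 : 2 ^ (L + 1) * (7 ^ (L + 1) / 2 ^ (L + 1)) ≤ 7 ^ (L + 1) := Nat.mul_div_le _ _
  have h2 : 2 ^ L ≤ 7 ^ L := Nat.pow_le_pow_left (by norm_num) L
  generalize 7 ^ (L + 1) / 2 ^ (L + 1) = q at *
  have h3 : 2 ^ (L + 1) = 2 * 2 ^ L := by ring
  have h4 : 7 ^ (L + 1) = 7 * 7 ^ L := by ring
  rw [h3, h4] at h1
  have h5 : 0 < 7 ^ L := by positivity
  nlinarith

theorem seven_le (L : ℕ) : 7 ^ L ≤ 2 ^ L * vv L := by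
  unfold vv
  have h1 := Nat.lt_mul_div_succ (7 ^ L) (show 0 < 2 ^ L by positivity)
  exact h1.le

theorem val_kbP_base (pm : Pr [] (.prod Un (.prod Ma Ma)) Ma)
    (v : SV F ((.list (Elt lab), KOt lab) :: s)) (k : SC F ((.list (Elt lab), KOt lab) :: s))
    (m : ℕ) (hm : m ≤ 1) (cs : List ((Ty.D F lab × List (List F)) × List F))
    (hcs : ∀ x ∈ cs, x.2.length = m) :
    (kbP (s := s) (lab := lab) pm).val v cs = bsF cs ∧
    (kbP (s := s) (lab := lab) pm).cost v k cs ≤ 100 * cs.length + 120 := by
  have hb := cost_bsP (s := (.list (Elt lab), KOt lab) :: s) (a := LSt lab) v k cs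
  rcases cs with _ | ⟨e, l⟩
  · constructor
    · simp [kbP, val_bsP]
    · simp [kbP] at hb ⊢
      omega
  · have he := hcs e (by simp)
    rcases he2 : e.2 with _ | ⟨y, _ | ⟨z, t⟩⟩
    · constructor
      · simp [kbP, val_bsP, he2]
      · simp [kbP, he2] at hb ⊢
        omega
    · constructor
      · simp [kbP, val_bsP, he2]
      · simp [kbP, he2] at hb ⊢
        omega
    · rw [he2] at he
      simp at he
      omega

theorem val_kbP_step (pm : Pr [] (.prod Un (.prod Ma Ma)) Ma)
    (v : SV F ((.list (Elt lab), KOt lab) :: s)) (k : SC F ((.list (Elt lab), KOt lab) :: s))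
    (m : ℕ) (hm : 2 ≤ m) (cs : List ((Ty.D F lab × List (List F)) × List F)) (hne : cs ≠ [])
    (hcs : ∀ x ∈ cs, x.2.length = m) :
    (kbP (s := s) (lab := lab) pm).val v cs = (stP pm).val v cs ∧
    (kbP (s := s) (lab := lab) pm).cost v k cs ≤ (stP pm).cost v k cs + 20 := by
  rcases cs with _ | ⟨e, l⟩
  · exact absurd rfl hne
  · have he := hcs e (by simp)
    rcases he2 : e.2 with _ | ⟨y, _ | ⟨z, t⟩⟩
    · rw [he2] at he
      simp at he
      omega
    · rw [he2] at he
      simp at he
      omega
    · constructor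
      · simp [kbP, he2]
      · simp [kbP, he2]
        omega

theorem main_rec (pm : Pr [] (.prod Un (.prod Ma Ma)) Ma) (Cm : ℕ)
    (hpm : ∀ (c : ℕ) (A B : List (List F)), Sh B.length A → Sh c B →
      (pm.val () (un c, (A, B)) : List (List F)) = mmul c A B ∧
      pm.cost () () ((un c, (A, B)) : List Unit × (List (List F) × List (List F))) ≤
        Cm * (A.length + B.length + c + 1) * vv (Nat.clog 2 (B.length + c + 1)))
    (hvv : ∀ a b, a ≤ b → vv a ≤ vv b) (n L m : ℕ)
    (cs : List ((Ty.D F lab × List (List F)) × List F)) (hL : L ≤ n) (hm : m ≤ 2 ^ L)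
    (hcs : ∀ x ∈ cs, x.2.length = m) :
    KerSpec cs (goV (s := []) (kbP (lab := lab) pm) bsP () n cs).1
      (goV (s := []) (kbP (lab := lab) pm) bsP () n cs).2 ∧
    2 ^ L * goC (s := []) (kbP (lab := lab) pm) bsP () () n cs ≤
      (7000 + 98 * Cm) * (cs.length + m + 1) * 7 ^ L := by
  have hbase : ∀ (m : ℕ) (cs : List ((Ty.D F lab × List (List F)) × List F)), m ≤ 1 →
      (∀ x ∈ cs, x.2.length = m) → KerSpec cs (bsF cs).1 (bsF cs).2 := by
    intro m cs hm hcs
    obtain ⟨P', Fr', h1, h2, h3⟩ := bsF_spec m hm cs hcs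
    exact (kerSpec_iff _ _ _).mpr ⟨P', Fr', h1, h2, h3⟩
  have h27 : ∀ L : ℕ, 2 ^ L ≤ 7 ^ L := fun L => Nat.pow_le_pow_left (by norm_num) L
  have hbc : ∀ (L m T : ℕ) (cs : List ((Ty.D F lab × List (List F)) × List F)),
      T ≤ 100 * cs.length + 120 →
      2 ^ L * T ≤ (7000 + 98 * Cm) * (cs.length + m + 1) * 7 ^ L := by
    intro L m T cs hT
    calc 2 ^ L * T ≤ 7 ^ L * (100 * cs.length + 120) := Nat.mul_le_mul (h27 L) hT
      _ ≤ 7 ^ L * (7000 * (cs.length + m + 1)) := by
        apply Nat.mul_le_mul_left; omega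
      _ ≤ 7 ^ L * ((7000 + 98 * Cm) * (cs.length + m + 1)) := by
        apply Nat.mul_le_mul_left
        apply Nat.mul_le_mul_right
        omega
      _ = (7000 + 98 * Cm) * (cs.length + m + 1) * 7 ^ L := by ring
  induction n generalizing L m cs with
  | zero =>
    have : L = 0 := by omega
    subst this
    simp only [pow_zero] at hm
    constructor
    · simp only [goV, val_bsP]
      exact hbase m cs hm hcs
    · simp only [goC]
      apply hbc
      exact (cost_bsP (s := []) (a := LSt lab) () () cs).trans (by omega)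
  | succ n ih =>
    by_cases hm1 : m ≤ 1
    · obtain ⟨e1, e2⟩ := val_kbP_base (s := []) pm (goV (s := []) (kbP (lab := lab) pm) bsP () n, ())
        (goC (s := []) (kbP (lab := lab) pm) bsP () () n, ()) m hm1 cs hcs
      constructor
      · simp only [goV]
        rw [e1]
        exact hbase m cs hm1 hcs
      · simp only [goC]
        exact hbc _ _ _ _ e2
    · by_cases hne : cs = []
      · subst hne
        obtain ⟨e1, e2⟩ := val_kbP_base (s := []) (F := F) (lab := lab) pm
          (goV (s := []) (kbP (lab := lab) pm) bsP () n, ())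
          (goC (s := []) (kbP (lab := lab) pm) bsP () () n, ()) 0 (by norm_num) [] (by simp)
        constructor
        · simp only [goV]
          rw [e1]
          exact hbase 0 [] (by norm_num) (by simp)
        · simp only [goC]
          exact hbc _ _ _ _ e2
      · obtain ⟨L, rfl⟩ : ∃ L', L = L' + 1 := by
          rcases L with _ | L
          · simp at hm; omega
          · exact ⟨L, rfl⟩
        obtain ⟨e1, e2⟩ := val_kbP_step (s := []) pm
          (goV (s := []) (kbP (lab := lab) pm) bsP () n, ())
          (goC (s := []) (kbP (lab := lab) pm) bsP () () n, ()) m (by omega) cs hne hcs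
        simp only [goV, goC]
        rw [e1]
        obtain ⟨e, l, rfl⟩ : ∃ e l, cs = e :: l := List.exists_cons_of_ne_nil hne
        have hem : e.2.length = m := hcs e (by simp)
        rw [cost_stP (s := []) pm _ _ e l m hem] at e2
        rw [val_stP (s := []) pm _ e l m hem]
        simp only at e2 ⊢
        generalize hcs' : e :: l = cs at *
        set G := goV (s := []) (F := F) (kbP (lab := lab) pm) bsP () n with hG
        set K := goC (s := []) (F := F) (kbP (lab := lab) pm) bsP () () n with hK
        have hm' : m ≤ 2 * 2 ^ L := by rw [pow_succ] at hm; omega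
        -- first call
        have hsplen : (spF cs).length = cs.length := by simp [spF]
        have hspcol : ∀ y ∈ spF cs, y.2.length = (m + 1) / 2 := by
          intro y hy
          obtain ⟨x, hx, rfl⟩ := List.mem_map.mp hy
          simp only
          rw [(length_eo _).1, hcs x hx]
        obtain ⟨c1, c2⟩ := ih L ((m + 1) / 2) (spF cs) (by omega) (by omega) hspcol
        -- shapes after the first call
        obtain ⟨Pu, Fu, a1, a2, a3⟩ := step_data1 cs (G (spF cs)) c1
        have hPu : ∀ x ∈ Pu, x.2.length = m := fun x hx => hcs x (a3.1.subset (by simp [hx]))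
        have hFu : ∀ x ∈ Fu, x.1.2.length = m := fun x hx => hcs x.1 (a3.1.subset (by
          simp only [List.mem_append, List.mem_map]
          exact Or.inr ⟨x, hx, rfl⟩))
        have hlP : (G (spF cs)).1.length = Pu.length := by rw [a1, List.length_map]
        have hA1 : Sh ((G (spF cs)).1.map (fun y => y.2.headD [])).length
            ((G (spF cs)).2.map (fun y => y.2)) := by
          intro y hy
          rw [a2] at hy
          simp only [List.mem_map] at hy
          obtain ⟨z, ⟨x, hx, rfl⟩, rfl⟩ := hy
          rw [List.length_map, hlP]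
          exact (a3.2.2.2.1 x hx).1
        have hB1 : Sh (m / 2) ((G (spF cs)).1.map (fun y => y.2.headD [])) := by
          intro y hy
          rw [a1] at hy
          simp only [List.mem_map] at hy
          obtain ⟨z, ⟨x, hx, rfl⟩, rfl⟩ := hy
          simp [(length_eo _).2, hPu x hx]
        obtain ⟨p1, p2⟩ := hpm (m / 2) ((G (spF cs)).2.map (fun y => y.2))
          ((G (spF cs)).1.map (fun y => y.2.headD [])) hA1 hB1
        have hmk : (mkP (s := [(.list (Elt lab), KOt lab)]) (lab := lab) pm).val (G, ())
            (un (m / 2), G (spF cs)) = mkF (m / 2) (G (spF cs)) :=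
          val_mkP pm _ _ _ p1
        rw [hmk] at e2 ⊢
        have hmkcol : ∀ y ∈ mkF (m / 2) (G (spF cs)), y.2.length = m / 2 := by
          intro y hy
          rw [mkF_eq, a2] at hy
          simp only [List.mem_map] at hy
          obtain ⟨z, ⟨x, hx, rfl⟩, rfl⟩ := hy
          simp [(length_eo _).2, hFu x hx]
        have hmklen : (mkF (m / 2) (G (spF cs))).length = (G (spF cs)).2.length := by
          rw [mkF_eq, List.length_map]
        obtain ⟨d1, d2⟩ := ih L (m / 2) (mkF (m / 2) (G (spF cs))) (by omega) (by omega) hmkcol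
        obtain ⟨f1, -, -, f4, f5, f6, f7, f8, f9, f10, f11, f12, f13⟩ := step_spec m cs hcs
          (G (spF cs)) (G (mkF (m / 2) (G (spF cs)))) c1 d1
        set r := G (spF cs) with hr
        set r' := G (mkF (m / 2) r) with hr'
        obtain ⟨q1, q2⟩ := hpm r.1.length (r'.2.map (fun y => y.2))
          (r'.1.map (fun y => y.2.headD [])) (by
            intro y hy
            simp only [List.mem_map] at hy
            obtain ⟨x, hx, rfl⟩ := hy
            rw [List.length_map]
            exact f8 x hx) (by
            intro y hy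
            simp only [List.mem_map] at hy
            obtain ⟨x, hx, rfl⟩ := hy
            exact f7 x hx)
        rw [val_ouP pm _ _ _ q1]
        refine ⟨f1, ?_⟩
        have g1 := cost_clP (s := [(.list (Elt lab), KOt lab)]) (lab := lab) (G, ()) (K, ()) cs m hcs
        have g2 := cost_spP (s := [(.list (Elt lab), KOt lab)]) (lab := lab) (G, ()) (K, ()) cs m hcs
        have g3 := cost_mkP (s := [(.list (Elt lab), KOt lab)]) (lab := lab) pm (G, ()) (K, ())
          (m / 2) _ r p1 p2 f6
        have g4 := cost_ouP (s := [(.list (Elt lab), KOt lab)]) (lab := lab) pm (G, ()) (K, ())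
          _ r.1 r' q1 q2 f9
        simp only [List.length_map] at g3 g4
        -- the cost of the products
        have hvL : ∀ x : ℕ, x ≤ m + 1 → vv (Nat.clog 2 x) ≤ vv (L + 1 + 1) := by
          intro x hx
          apply hvv
          apply Nat.clog_le_of_le_pow
          calc x ≤ m + 1 := hx
            _ ≤ 2 ^ (L + 1) + 1 := by omega
            _ ≤ 2 ^ (L + 1) + 2 ^ (L + 1) := by
              have : 1 ≤ 2 ^ (L + 1) := Nat.one_le_two_pow
              omega
            _ = 2 ^ (L + 1 + 1) := by ring
        set N := cs.length with hN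
        have t1 : Cm * (r.2.length + r.1.length + m / 2 + 1) *
            vv (Nat.clog 2 (r.1.length + m / 2 + 1)) ≤ Cm * (N + m + 1) * vv (L + 1 + 1) := by
          apply Nat.mul_le_mul
          · apply Nat.mul_le_mul_left; omega
          · apply hvL; omega
        have t2 : Cm * (r'.2.length + r'.1.length + r.1.length + 1) *
            vv (Nat.clog 2 (r'.1.length + r.1.length + 1)) ≤
            Cm * (N + m + 1) * vv (L + 1 + 1) := by
          apply Nat.mul_le_mul
          · apply Nat.mul_le_mul_left; omega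
          · apply hvL; omega
        have t3 := two_vv (L + 1)
        -- the other costs
        have o1 : (24 * m + 60) * N + 20 + ((60 * (m / 2) + 140) * r.2.length + 22 * r.1.length + 80)
            + ((80 * r.1.length + 180) * r'.2.length + 100 * r.1.length + 100 * r'.1.length + 150)
            + (40 * m + 40) + 40 ≤ 600 * ((m + 1) * (N + m + 1)) := by
          have i1 : (60 * (m / 2) + 140) * r.2.length ≤ (60 * m + 140) * N :=
            Nat.mul_le_mul (by omega) (by omega)
          have i2 : (80 * r.1.length + 180) * r'.2.length ≤ (80 * m + 180) * N :=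
            Nat.mul_le_mul (by omega) (by omega)
          have i3 : r.1.length ≤ m := by omega
          have i4 : r'.1.length ≤ m := by omega
          nlinarith
        have o2 : 2 ^ (L + 1) * (600 * ((m + 1) * (N + m + 1))) ≤
            1200 * (N + m + 1) * 7 ^ (L + 1) := by
          have j1 : m + 1 ≤ 2 * 2 ^ (L + 1) := by
            have : 1 ≤ 2 ^ (L + 1) := Nat.one_le_two_pow
            omega
          have j2 : 2 ^ (L + 1) * 2 ^ (L + 1) ≤ 7 ^ (L + 1) := by
            rw [← mul_pow]
            exact Nat.pow_le_pow_left (by norm_num) _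
          calc 2 ^ (L + 1) * (600 * ((m + 1) * (N + m + 1)))
              = 600 * (N + m + 1) * (2 ^ (L + 1) * (m + 1)) := by ring
            _ ≤ 600 * (N + m + 1) * (2 ^ (L + 1) * (2 * 2 ^ (L + 1))) := by
              apply Nat.mul_le_mul_left
              exact Nat.mul_le_mul_left _ j1
            _ = 1200 * (N + m + 1) * (2 ^ (L + 1) * 2 ^ (L + 1)) := by ring
            _ ≤ 1200 * (N + m + 1) * 7 ^ (L + 1) := Nat.mul_le_mul_left _ j2
        have o3 : 2 ^ (L + 1) * (Cm * (N + m + 1) * vv (L + 1 + 1)) ≤
            Cm * (N + m + 1) * (7 * 7 ^ (L + 1)) := by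
          calc 2 ^ (L + 1) * (Cm * (N + m + 1) * vv (L + 1 + 1))
              = Cm * (N + m + 1) * (2 ^ (L + 1) * vv (L + 1 + 1)) := by ring
            _ ≤ Cm * (N + m + 1) * (7 * 7 ^ (L + 1)) := Nat.mul_le_mul_left _ t3
        have c2' : 2 ^ L * K (spF cs) ≤ (7000 + 98 * Cm) * (N + m + 1) * 7 ^ L := by
          refine c2.trans ?_
          apply Nat.mul_le_mul_right
          apply Nat.mul_le_mul_left
          rw [hsplen]
          omega
        have d2' : 2 ^ L * K (mkF (m / 2) r) ≤ (7000 + 98 * Cm) * (N + m + 1) * 7 ^ L := by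
          refine d2.trans ?_
          apply Nat.mul_le_mul_right
          apply Nat.mul_le_mul_left
          rw [hmklen]
          omega
        -- total
        generalize hT1 : Cm * (r.2.length + r.1.length + m / 2 + 1) *
            vv (Nat.clog 2 (r.1.length + m / 2 + 1)) = T1 at *
        generalize hT2 : Cm * (r'.2.length + r'.1.length + r.1.length + 1) *
            vv (Nat.clog 2 (r'.1.length + r.1.length + 1)) = T2 at *
        generalize hW : Cm * (N + m + 1) * vv (L + 1 + 1) = W at *
        have tot : (kbP (s := []) (lab := lab) pm).cost (G, ()) (K, ()) cs ≤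
            600 * ((m + 1) * (N + m + 1)) + 2 * W + K (spF cs) + K (mkF (m / 2) r) := by
          omega
        generalize (kbP (s := []) (lab := lab) pm).cost (G, ()) (K, ()) cs = TT at *
        calc 2 ^ (L + 1) * TT ≤ 2 ^ (L + 1) * (600 * ((m + 1) * (N + m + 1)) + 2 * W +
              K (spF cs) + K (mkF (m / 2) r)) := Nat.mul_le_mul_left _ tot
          _ = 2 ^ (L + 1) * (600 * ((m + 1) * (N + m + 1))) + 2 * (2 ^ (L + 1) * W) +
              2 * (2 ^ L * K (spF cs)) + 2 * (2 ^ L * K (mkF (m / 2) r)) := by ring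
          _ ≤ 1200 * (N + m + 1) * 7 ^ (L + 1) + 2 * (Cm * (N + m + 1) * (7 * 7 ^ (L + 1))) +
              2 * ((7000 + 98 * Cm) * (N + m + 1) * 7 ^ L) +
              2 * ((7000 + 98 * Cm) * (N + m + 1) * 7 ^ L) := by
            gcongr
          _ = ((1200 * 7 + 98 * Cm) + 4 * (7000 + 98 * Cm)) * (N + m + 1) * 7 ^ L := by ring
          _ ≤ (7 * (7000 + 98 * Cm)) * (N + m + 1) * 7 ^ L := by
            apply Nat.mul_le_mul_right
            apply Nat.mul_le_mul_right
            omega
          _ = (7000 + 98 * Cm) * (N + m + 1) * 7 ^ (L + 1) := by ring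

/-- the elimination program -/
def kerP (lab : Ty) (pm : Pr [] (.prod Un (.prod Ma Ma)) Ma) : Pr [] (.list (.prod lab Po))
    (.prod (.list lab) (.list (.prod lab Po))) :=
  lt (.comp (.pair (onL .id (.nil (b := .fld)) (.comp (.comp .snd .fst) .snd))
      (.comp (.pair .star .id) (mapP (c := .unit)
        (.pair (.pair (.comp .snd .fst) .nil) (.comp .snd .snd)))))
      (.recD (kbP (lab := lab) pm) bsP))
    (.pair (.comp (.pair .star (.comp .snd .fst)) (mapP (c := .unit) (.comp .snd .fst)))
      (.comp (.pair .star (.comp .snd .snd)) (mapP (c := .unit)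
        (.pair (.comp (.comp .snd .fst) .fst) (.comp .snd .snd)))))

omit [DecidableEq F] in
theorem kerSpec_wrap {α : Type} (cs : List (α × List F))
    (r : List (α × List (List F)) × List ((α × List (List F)) × List F))
    (h : KerSpec (cs.map (fun x => (((x.1, []), x.2) : (α × List (List F)) × List F))) r.1 r.2) :
    KerSpec cs (r.1.map Prod.fst) (r.2.map (fun y => (y.1.1, y.2))) := by
  obtain ⟨P', Fr', h1, h2, h3⟩ := (kerSpec_iff _ _ _).mp h
  obtain ⟨Pu, Fu, e1, e2, e3⟩ := kerL_lift (fun x : (α × List (List F)) × List F => cvec x.2)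
    (fun x : α × List F => (((x.1, []), x.2) : (α × List (List F)) × List F)) cs
    (by
      rintro ⟨a, l⟩ _ ⟨a', l'⟩ _ hxy
      simp only [Prod.mk.injEq, and_true] at hxy
      rw [hxy.1, hxy.2]) P' Fr' h3
  refine (kerSpec_iff _ _ _).mpr ⟨Pu, Fu, ?_, ?_, e3⟩
  · rw [h1, e1, List.map_map, List.map_map]; rfl
  · rw [h2, e2, List.map_map, List.map_map]; rfl

theorem specKer (h : SpecMM) (h0 : SpecUnits) : SpecKer := by
  intro lab
  obtain ⟨pm, Cm, hpm⟩ := h
  refine ⟨kerP lab pm, 7200 + 98 * Cm, ?_⟩
  intro F _ _ m cs hcs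
  have hvv := h0.2.2.1
  have hmain := main_rec (F := F) (lab := lab) pm Cm (hpm F) hvv
  set cs' : List ((Ty.D F lab × List (List F)) × List F) :=
    cs.map (fun x => ((x.1, []), x.2)) with hcs'
  have hlen' : cs'.length = cs.length := by simp [hcs']
  set fuel : List F := lcase cs [] (fun x _ => x.2) with hfuel
  set r := goV (s := []) (kbP (lab := lab) pm) bsP () fuel.length cs' with hr
  have hval : (kerP lab pm).val () cs = (r.1.map Prod.fst, r.2.map (fun y => (y.1.1, y.2))) := by
    simp [kerP, val_recD, hr, hfuel, hcs']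
  obtain ⟨L, m', hL, hm', hcs2, hmm⟩ : ∃ L m', L ≤ fuel.length ∧ m' ≤ 2 ^ L ∧
      (∀ x ∈ cs', x.2.length = m') ∧ m' ≤ m ∧ vv L ≤ vv (Nat.clog 2 (m + 1)) := by
    rcases cs with _ | ⟨e, l⟩
    · exact ⟨0, 0, by simp, by simp, by simp [hcs'], by omega, hvv _ _ (by omega)⟩
    · refine ⟨Nat.clog 2 m, m, ?_, Nat.le_pow_clog (by norm_num) m, ?_, le_rfl, hvv _ _ ?_⟩
      · have : fuel.length = m := by simp [hfuel, hcs e (by simp)]
        rw [this]
        apply Nat.clog_le_of_le_pow
        exact Nat.lt_two_pow_self.le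
      · intro x hx
        obtain ⟨y, hy, rfl⟩ := List.mem_map.mp hx
        exact hcs y hy
      · exact Nat.clog_mono_right 2 (by omega)
  obtain ⟨k1, k2⟩ := hmain fuel.length L m' cs' hL hm' hcs2
  rw [hval]
  refine ⟨kerSpec_wrap cs r k1, ?_⟩
  obtain ⟨P', Fr', h1, h2, h3⟩ := (kerSpec_iff _ _ _).mp k1
  have hl := h3.1.length_eq
  simp only [List.length_append, List.length_map] at hl
  have hr1 : r.1.length ≤ cs.length := by
    rw [hr, h1, List.length_map]; omega
  have hr2 : r.2.length ≤ cs.length := by
    rw [hr, h2, List.length_map]; omega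
  have hK : goC (s := []) (kbP (lab := lab) pm) bsP () () fuel.length cs' ≤
      (7000 + 98 * Cm) * (cs.length + m + 1) * vv (Nat.clog 2 (m + 1)) := by
    have e1 : 2 ^ L * goC (s := []) (kbP (lab := lab) pm) bsP () () fuel.length cs' ≤
        2 ^ L * ((7000 + 98 * Cm) * (cs.length + m + 1) * vv (Nat.clog 2 (m + 1))) := by
      calc _ ≤ _ := k2
        _ ≤ (7000 + 98 * Cm) * (cs.length + m + 1) * (2 ^ L * vv (Nat.clog 2 (m + 1))) := by
          apply Nat.mul_le_mul
          · apply Nat.mul_le_mul_left
            rw [hlen']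
            omega
          · exact (seven_le L).trans (Nat.mul_le_mul_left _ hmm.2)
        _ = _ := by ring
    exact Nat.le_of_mul_le_mul_left e1 (by positivity)
  have m1 := cost_mapP_le (s := []) (F := F) (c := .unit) (a := .prod lab Po) (b := Elt lab)
    (.pair (.pair (.comp .snd .fst) .nil) (.comp .snd .snd)) () () ((), cs) 8
    (fun _ _ => by simp)
  have m2 := cost_mapP_le (s := []) (F := F) (c := .unit) (a := LSt lab) (b := lab)
    (.comp .snd .fst) () () ((), r.1) 3 (fun _ _ => by simp)
  have m3 := cost_mapP_le (s := []) (F := F) (c := .unit) (a := Elt lab) (b := .prod lab Po)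
    (.pair (.comp (.comp .snd .fst) .fst) (.comp .snd .snd)) () () ((), r.2) 9
    (fun _ _ => by simp)
  have hc : (kerP lab pm).cost () () cs ≤
      goC (s := []) (kbP (lab := lab) pm) bsP () () fuel.length cs' + 100 * cs.length + 100 := by
    simp only [kerP, cost_lt, cost_comp, cost_pair, cost_onL, cost_id, cost_nil, cost_snd, cost_fst,
      cost_star, cost_recD, val_pair, val_star, val_id, val_onL, val_nil, val_comp, val_snd,
      val_fst, val_mapP, val_recD] at m1 m2 m3 ⊢
    change (1 + 3 + lcase cs 1 (fun _ _ => 1 + 1 + 1)) + (1 + 1 + 1 +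
      (mapP (s := []) (c := .unit) (a := .prod lab Po) (b := Elt lab)
        (.pair (.pair (.comp .snd .fst) .nil) (.comp .snd .snd))).cost (F := F) () () ((), cs)) +
        1 + (goC (s := []) (kbP (lab := lab) pm) bsP () () fuel.length cs' + 1) + (1 + (1 + 1) + 1 +
        (mapP (s := []) (c := .unit) (a := LSt lab) (b := lab)
          (.comp .snd .fst)).cost (F := F) () () ((), r.1) + (1 + (1 + 1) + 1 +
        (mapP (s := []) (c := .unit) (a := Elt lab) (b := .prod lab Po)
          (.pair (.comp (.comp .snd .fst) .fst) (.comp .snd .snd))).cost (F := F) () ()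
          ((), r.2)) + 1) + 2 ≤ _
    have hlc : lcase cs 1 (fun _ _ => 1 + 1 + 1) ≤ 3 := by cases cs <;> simp
    omega
  have hv1 : 1 ≤ vv (Nat.clog 2 (m + 1)) := Nat.le_add_left 1 _
  calc (kerP lab pm).cost () () cs ≤ _ := hc
    _ ≤ (7000 + 98 * Cm) * (cs.length + m + 1) * vv (Nat.clog 2 (m + 1)) +
        200 * (cs.length + m + 1) * vv (Nat.clog 2 (m + 1)) := by
      have : 100 * cs.length + 100 ≤ 200 * (cs.length + m + 1) * vv (Nat.clog 2 (m + 1)) := by
        calc 100 * cs.length + 100 ≤ 200 * (cs.length + m + 1) * 1 := by omega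
          _ ≤ _ := Nat.mul_le_mul_left _ hv1
      omega
    _ = _ := by ring

end kerEnd

end Pool.Agent.H330FB.JA11
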