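import Pool.Agent.H330FB.Lib5
import Pool.Agent.H330FB.Spec1
set_option autoImplicit false
noncomputable section
namespace Pool.Agent.H330FB.JA12
open Polynomial

namespace A12
variable {F : Type} [Field F] [DecidableEq F] {s : List (Ty × Ty)}

/-! ### multiplication by the variable -/

/-- multiplication by the variable modulo a monic polynomial -/
def xmul (c G : List F) : List F :=
  List.zipWith (fun y z => y + -(List.foldl (fun _ z => z) 0 c * z)) (fit G.length 0 (0 :: c)) G

/-- program for `xmul` -/
def xmulP : Pr s (.prod Po Po) Po :=
  .comp (.pair (.comp (.pair .star (.pair .zero .fst)) (foldP (c := .unit) (.comp .snd .snd)))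
    (.pair (.comp (.pair .snd (.pair .zero (.comp (.pair .zero .fst) .cons))) fitP) .snd))
    (zipP (c := .fld) (.comp (.pair (.comp .snd .fst)
      (.comp (.comp (.pair .fst (.comp .snd .snd)) .mul) .neg)) .add))

@[simp] theorem val_xmulP (v : SV F s) (x : Ty.D F (.prod Po Po)) :
    (xmulP : Pr s (.prod Po Po) Po).val v x = xmul (x.1 : List F) (x.2 : List F) := by
  simp [xmulP, xmul]

@[simp] theorem length_xmul (c G : List F) : (xmul c G).length = G.length := by
  simp [xmul]

theorem cost_xmulP (v : SV F s) (k : SC F s) (x : Ty.D F (.prod Po Po)) :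
    (xmulP : Pr s (.prod Po Po) Po).cost v k x ≤
      40 * List.length x.1 + 100 * List.length x.2 + 60 := by
  obtain ⟨c, G⟩ := x
  have h1 := cost_foldP_le (s := s) (c := .unit) (b := .fld) (a := .fld) (.comp .snd .snd) v k
    ((), ((0 : F), c)) 2 (fun _ => True) trivial (fun _ _ _ _ => trivial)
    (fun _ _ _ _ => by simp)
  have h2 := cost_fitP (s := s) (b := .fld) (a := .fld) v k (G, ((0 : F), ((0 : F) :: c : List F)))
  have h3 := cost_zipP_le (s := s) (c := .fld) (a := .fld) (b := .fld) (d := .fld)
    (.comp (.pair (.comp .snd .fst)
      (.comp (.comp (.pair .fst (.comp .snd .snd)) .mul) .neg)) .add) v k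
    (List.foldl (fun _ z => z) (0 : F) c, (fit G.length (0 : F) (0 :: c), G)) 10
    (fun _ _ _ _ => by simp)
  simp [xmulP] at h1 h2 h3 ⊢
  omega

theorem pol_zipWith_sub (t : F) : ∀ (a G : List F), a.length = G.length →
    pol (List.zipWith (fun y z => y + -(t * z)) a G) = pol a - C t * pol G := by
  intro a
  induction a with
  | nil => intro G h; cases G with
    | nil => simp [pol]
    | cons _ _ => simp at h
  | cons y a ih => intro G h; cases G with
    | nil => simp at h
    | cons z G =>
      simp only [List.length_cons, Nat.add_right_cancel_iff] at h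
      simp only [List.zipWith_cons_cons, pol, ih G h, C_add, C_neg, C_mul]
      ring

theorem pol_zipWith_add (t : F) : ∀ (a G : List F), a.length = G.length →
    pol (List.zipWith (fun y z => y + t * z) a G) = pol a + C t * pol G := by
  intro a
  induction a with
  | nil => intro G h; cases G with
    | nil => simp [pol]
    | cons _ _ => simp at h
  | cons y a ih => intro G h; cases G with
    | nil => simp at h
    | cons z G =>
      simp only [List.length_cons, Nat.add_right_cancel_iff] at h
      simp only [List.zipWith_cons_cons, pol, ih G h, C_add, C_mul]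
      ring

theorem pol_fit_last (z : F) : ∀ (n : ℕ) (l : List F) (w : F), l.length = n →
    pol (w :: l) = pol (fit n z (w :: l)) + X ^ n * C (List.foldl (fun _ z => z) w l) := by
  intro n
  induction n with
  | zero => intro l w h
            have : l = [] := List.length_eq_zero_iff.mp h
            subst this
            simp [pol, fit]
  | succ n ih =>
    intro l w h
    cases l with
    | nil => simp at h
    | cons y l =>
      simp only [List.length_cons, Nat.add_right_cancel_iff] at h
      have := ih l y h
      rw [pol, this]
      simp only [fit, pol, List.foldl_cons]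
      ring

theorem pol_fit (z : F) (hz : z = 0) : ∀ (n : ℕ) (l : List F), l.length ≤ n →
    pol (fit n z l) = pol l := by
  intro n
  induction n with
  | zero => intro l h
            have : l = [] := List.length_eq_zero_iff.mp (by omega)
            subst this
            simp [pol, fit]
  | succ n ih =>
    intro l h
    cases l with
    | nil => subst hz; have := ih [] (by simp); simp only [pol] at this; simp [fit, pol, this]
    | cons y l =>
      simp only [List.length_cons] at h
      simp only [fit, pol, ih l (by omega)]

theorem dvd_xmul (c G : List F) (h : c.length = G.length) :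
    mpol G ∣ X * pol c - pol (xmul c G) := by
  have h1 := pol_fit_last (0 : F) G.length c 0 h
  have h2 := pol_zipWith_sub (List.foldl (fun _ z => z) 0 c) (fit G.length 0 (0 :: c)) G (by simp)
  refine ⟨C (List.foldl (fun _ z => z) 0 c), ?_⟩
  unfold xmul
  rw [h2]
  rw [pol, C_0, zero_add] at h1
  rw [h1, mpol]
  ring

/-! ### the list of columns -/

/-- the labels: coefficients of the monomials -/
def labf (F : Type) [Field F] : ℕ → List F
  | 0 => [1]
  | n + 1 => 0 :: labf F n

/-- the columns -/
def colf (h G : List F) : ℕ → List F
  | 0 => h
  | n + 1 => xmul (colf h G n) G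

/-- the last column -/
def lastc (G : List F) : List F := fit G.length 0 [1]

/-- all columns with their labels -/
def cols (h G : List F) : List (List F × List F) :=
  (List.range G.length).map (fun i => (labf F i, colf h G i)) ++ [([], lastc G)]

/-- body -/
def colsB : Pr ((.prod Po (.prod Po Po), .list (.prod Po Po)) :: s) (.prod Po (.prod Po Po))
    (.list (.prod Po Po)) :=
  .comp (.pair .snd (.comp (.pair .fst (.pair (.comp (.pair .zero (.comp .snd .fst)) .cons)
    (.comp (.pair (.comp .snd .snd) .fst) xmulP))) .self)) .cons

/-- base -/
def colsQ : Pr s (.prod Po (.prod Po Po)) (.list (.prod Po Po)) :=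
  .comp (.pair (.pair .nil (.comp (.pair .fst (.pair .zero (.comp (.pair .one .nil) .cons))) fitP))
    .nil) .cons

/-- program for the list of columns -/
def colsP : Pr s (.prod Po Po) (.list (.prod Po Po)) :=
  .comp (.pair .snd (.pair .snd (.pair (.comp (.pair .one .nil) .cons) .fst))) (.recD colsB colsQ)

theorem val_colsB (v : SV F ((.prod Po (.prod Po Po), .list (.prod Po Po)) :: s))
    (G l c : List F) :
    (colsB (s := s)).val v (G, (l, c)) = (l, c) :: v.1 (G, ((0 : F) :: l, xmul c G)) := by
  simp [colsB]

theorem cost_colsB (v : SV F ((.prod Po (.prod Po Po), .list (.prod Po Po)) :: s))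
    (k : SC F ((.prod Po (.prod Po Po), .list (.prod Po Po)) :: s)) (G l c : List F) :
    (colsB (s := s)).cost v k (G, (l, c)) ≤
      k.1 (G, ((0 : F) :: l, xmul c G)) +
        (xmulP (s := (.prod Po (.prod Po Po), .list (.prod Po Po)) :: s)).cost v k (c, G)
        + 30 := by
  simp [colsB]
  omega

theorem goV_cols (v : SV F s) (h G : List F) : ∀ (n j : ℕ),
    goV (colsB (s := s)) colsQ v n (G, (labf F j, colf h G j)) =
      (List.range n).map (fun i => (labf F (j + i), colf h G (j + i))) ++ [([], lastc G)] := by
  intro n
  induction n with
  | zero => intro j; simp [goV, colsQ, lastc]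
  | succ n ih =>
    intro j
    have := ih (j + 1)
    simp only [labf, colf] at this
    have e := val_colsB (F := F) (s := s) (goV colsB colsQ v n, v) G (labf F j) (colf h G j)
    refine e.trans ?_
    simp only
    rw [List.range_succ_eq_map, this]
    simp [Function.comp_def, Nat.add_assoc, Nat.add_comm 1]

theorem val_colsP (v : SV F s) (h G : List F) :
    (colsP : Pr s (.prod Po Po) (.list (.prod Po Po))).val v (h, G) = cols h G := by
  have := goV_cols (s := s) v h G G.length 0
  simp only [labf, colf] at this
  simp [colsP, val_recD, cols, this]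

theorem length_colf (h G : List F) (hl : h.length = G.length) (n : ℕ) :
    (colf h G n).length = G.length := by
  cases n <;> simp [colf, hl]

theorem cost_colsP (v : SV F s) (k : SC F s) (h G : List F) (hl : h.length = G.length) :
    (colsP : Pr s (.prod Po Po) (.list (.prod Po Po))).cost v k (h, G) ≤
      (140 * G.length + 100) * G.length + 20 * G.length + 40 := by
  have key : ∀ (n j : ℕ), goC (colsB (s := s)) colsQ v k n (G, (labf F j, colf h G j)) ≤
      (140 * G.length + 100) * n + 20 * G.length + 20 := by
    intro n
    induction n with
    | zero =>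
      intro j
      have h2 := cost_fitP (s := s) (b := .fld) (a := .fld) v k (G, ((0 : F), ([(1 : F)] : List F)))
      simp [goC, colsQ] at h2 ⊢
      omega
    | succ n ih =>
      intro j
      have e1 := ih (j + 1)
      have e2 := cost_xmulP (F := F) (s := (.prod Po (.prod Po Po), .list (.prod Po Po)) :: s)
        (goV colsB colsQ v n, v) (goC colsB colsQ v k n, k) (colf h G j, G)
      rw [length_colf h G hl] at e2
      simp only [labf, colf] at e1
      have e3 := cost_colsB (F := F) (s := s) (goV colsB colsQ v n, v) (goC colsB colsQ v k n, k)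
        G (labf F j) (colf h G j)
      refine e3.trans ?_
      simp only at e2 ⊢
      nlinarith
  have := key G.length 0
  simp only [labf, colf] at this
  simp [colsP, cost_recD]
  omega

/-! ### combination of labels -/

/-- one step of the combination -/
def combF (G : List F) (acc : List F) (z : F × List F) : List F :=
  List.zipWith (fun y w => y + z.1 * w) acc (fit G.length 0 z.2)

/-- sum of multiples of the labels -/
def comb (G : List F) (coef : List F) (labs : List (List F)) : List F :=
  List.foldl (combF G) (fit G.length 0 []) (List.zipWith (fun y z => (y, z)) coef labs)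

/-- body of the combination -/
def combB : Pr s (.prod Po (.prod Po (.prod .fld Po))) Po :=
  .comp (.pair (.comp (.comp .snd .snd) .fst)
    (.pair (.comp .snd .fst)
      (.comp (.pair .fst (.pair .zero (.comp (.comp .snd .snd) .snd))) fitP)))
    (zipP (c := .fld) (.comp (.pair (.comp .snd .fst)
      (.comp (.pair .fst (.comp .snd .snd)) .mul)) .add))

/-- input `(G, (coef, labs))` -/
def combP : Pr s (.prod Po (.prod Po (.list Po))) Po :=
  .comp (.pair .fst (.pair (.comp (.pair .fst (.pair .zero .nil)) fitP)
    (.comp (.pair .star .snd) (zipP (c := .unit) .snd)))) (foldP combB)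

theorem val_combB (v : SV F s) (G acc : List F) (z : F × List F) :
    (combB : Pr s (.prod Po (.prod Po (.prod .fld Po))) Po).val v (G, (acc, z)) =
      combF G acc z := by
  simp [combB, combF]

theorem cost_combB (v : SV F s) (k : SC F s) (G acc : List F) (z : F × List F)
    (h : acc.length = G.length) :
    (combB : Pr s (.prod Po (.prod Po (.prod .fld Po))) Po).cost v k (G, (acc, z)) ≤
      80 * G.length + 40 := by
  have h2 := cost_fitP (s := s) (b := .fld) (a := .fld) v k (G, ((0 : F), (z.2 : List F)))
  have h3 := cost_zipP_le (s := s) (c := .fld) (a := .fld) (b := .fld) (d := .fld)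
    (.comp (.pair (.comp .snd .fst)
      (.comp (.pair .fst (.comp .snd .snd)) .mul)) .add) v k
    (z.1, (acc, fit G.length (0 : F) z.2)) 9
    (fun _ _ _ _ => by simp)
  simp [combB] at h2 h3 ⊢
  rw [h] at h3
  omega

theorem val_combP (v : SV F s) (G coef : List F) (labs : List (List F)) :
    (combP : Pr s (.prod Po (.prod Po (.list Po))) Po).val v (G, (coef, labs)) =
      comb G coef labs := by
  have : ∀ (acc : List F) (z : F × List F),
    (combB : Pr s (.prod Po (.prod Po (.prod .fld Po))) Po).val v (G, (acc, z)) =
      combF G acc z := fun acc z => val_combB v G acc z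
  simp [combP, comb, this]

theorem length_combF (G acc : List F) (z : F × List F) (h : acc.length = G.length) :
    (combF G acc z).length = G.length := by
  simp [combF, h]

theorem cost_combP (v : SV F s) (k : SC F s) (G coef : List F) (labs : List (List F)) :
    (combP : Pr s (.prod Po (.prod Po (.list Po))) Po).cost v k (G, (coef, labs)) ≤
      (80 * G.length + 120) * coef.length + 20 * G.length + 60 := by
  have h2 := cost_fitP (s := s) (b := .fld) (a := .fld) v k (G, ((0 : F), ([] : List F)))
  have h3 := cost_zipP_le (s := s) (c := .unit) (a := .fld) (b := Po) (d := .prod .fld Po)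
    .snd v k ((), (coef, labs)) 1 (fun _ _ _ _ => by simp)
  have h4 := cost_foldP_le (s := s) (c := Po) (b := Po) (a := .prod .fld Po) combB v k
    (G, (fit G.length (0 : F) [], List.zipWith (fun y z => (y, z)) coef labs))
    (80 * G.length + 40) (fun acc : List F => acc.length = G.length) (by simp)
    (fun acc z hacc _ => by
      have e := val_combB (s := s) v G acc z
      have e2 := length_combF G acc z hacc
      rw [← e] at e2
      exact e2)
    (fun acc z hacc _ => cost_combB v k G acc z hacc)
  simp [combP] at h2 h3 h4 ⊢
  have h5 : min coef.length labs.length ≤ coef.length := min_le_left _ _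
  nlinarith

theorem pol_foldl_combF (G : List F) : ∀ (L : List (F × List F)) (acc : List F),
    acc.length = G.length → (∀ z ∈ L, z.2.length ≤ G.length) →
    pol (List.foldl (combF G) acc L) = pol acc + (L.map (fun z => C z.1 * pol z.2)).sum := by
  intro L
  induction L with
  | nil => intro acc _ _; simp
  | cons z L ih =>
    intro acc h hz
    rw [List.foldl_cons, ih _ (length_combF G acc z h) (fun w hw => hz w (by simp [hw]))]
    unfold combF
    rw [pol_zipWith_add _ _ _ (by simp [h]), pol_fit _ rfl _ _ (hz z (by simp))]
    simp [add_assoc]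

theorem length_foldl_combF (G : List F) : ∀ (L : List (F × List F)) (acc : List F),
    acc.length = G.length → (List.foldl (combF G) acc L).length = G.length := by
  intro L
  induction L with
  | nil => intro acc h; simpa using h
  | cons z L ih =>
    intro acc h
    rw [List.foldl_cons, ih _ (length_combF G acc z h)]

theorem length_comb (G coef : List F) (labs : List (List F)) :
    (comb G coef labs).length = G.length :=
  length_foldl_combF G _ _ (by simp)

theorem sum_zip {α M : Type} [AddCommMonoid M] (f : F → α → M) : ∀ (P : List α) (coef : List F),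
    coef.length = P.length →
    (List.zipWith f coef P).sum = ∑ k : Fin P.length, f (coef.getD k 0) (P.get k) := by
  intro P
  induction P with
  | nil => intro coef h; simp
  | cons a P ih =>
    intro coef h
    cases coef with
    | nil => simp at h
    | cons x coef =>
      simp only [List.length_cons, Nat.add_right_cancel_iff] at h
      rw [List.zipWith_cons_cons, List.sum_cons, ih coef h]
      simp only [List.length_cons]
      rw [Fin.sum_univ_succ]
      simp

theorem pol_comb (G coef : List F) (labs : List (List F)) (h : ∀ l ∈ labs, l.length ≤ G.length)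
    (hl : coef.length = labs.length) :
    pol (comb G coef labs) =
      ∑ k : Fin labs.length, C (coef.getD k 0) * pol (labs.get k) := by
  unfold comb
  rw [pol_foldl_combF G _ _ (by simp), pol_fit _ rfl _ _ (by simp)]
  · rw [← sum_zip (fun x l => C x * pol l) labs coef hl, pol, zero_add, List.map_zipWith]
  · intro z hz
    rw [List.mem_iff_get] at hz
    obtain ⟨n, hn⟩ := hz
    simp only [List.get_eq_getElem, List.getElem_zipWith] at hn
    rw [← hn]
    exact h _ (List.getElem_mem _)

/-! ### correctness -/

theorem pol_labf : ∀ n : ℕ, pol (labf F n) = X ^ n := by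
  intro n
  induction n with
  | zero => simp [labf, pol]
  | succ n ih => simp [labf, pol, ih, pow_succ']

theorem length_labf : ∀ n : ℕ, (labf F n).length = n + 1 := by
  intro n
  induction n with
  | zero => simp [labf]
  | succ n ih => simp [labf, ih]

theorem dvd_colf (h G : List F) (hl : h.length = G.length) : ∀ n : ℕ,
    mpol G ∣ X ^ n * pol h - pol (colf h G n) := by
  intro n
  induction n with
  | zero => simp [colf]
  | succ n ih =>
    have h1 := dvd_xmul (colf h G n) G (length_colf h G hl n)
    have h2 := dvd_add (Dvd.dvd.mul_left ih X) h1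
    rw [colf]
    convert h2 using 1
    ring

theorem degree_pol (l : List F) : (pol l).degree < l.length := by
  induction l with
  | nil => simp [pol]
  | cons x l ih =>
    rw [pol]
    refine lt_of_le_of_lt (degree_add_le _ _) ?_
    rw [max_lt_iff]
    constructor
    · refine lt_of_le_of_lt degree_C_le ?_
      rw [List.length_cons]
      exact_mod_cast Nat.succ_pos _
    · rw [degree_mul, degree_X, List.length_cons]
      by_cases h0 : pol l = 0
      · rw [h0, degree_zero]
        simp
      · rw [degree_eq_natDegree h0] at ih ⊢
        have h2 : (pol l).natDegree < l.length := by exact_mod_cast ih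
        have h3 : 1 + (pol l).natDegree < l.length + 1 := by omega
        exact_mod_cast h3

theorem degree_mpol (G : List F) : (mpol G).degree = G.length := by
  rw [mpol, degree_add_eq_left_of_degree_lt]
  · simp
  · simpa using degree_pol G

/-- the polynomial of a vector -/
noncomputable def TT (m : ℕ) : (ℕ → F) →ₗ[F] F[X] where
  toFun v := ∑ i ∈ Finset.range m, C (v i) * X ^ i
  map_add' v w := by simp [Finset.sum_add_distrib, add_mul]
  map_smul' c v := by simp [Finset.smul_sum, smul_eq_C_mul, mul_assoc]

theorem TT_cvec : ∀ (m : ℕ) (l : List F), l.length = m → TT m (cvec l) = pol l := by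
  intro m
  induction m with
  | zero => intro l h
            have : l = [] := List.length_eq_zero_iff.mp h
            subst this
            simp [TT, pol]
  | succ m ih => intro l h; cases l with
    | nil => simp at h
    | cons x l =>
      simp only [List.length_cons, Nat.add_right_cancel_iff] at h
      have := ih l h
      simp only [TT, LinearMap.coe_mk, AddHom.coe_mk] at this ⊢
      rw [Finset.sum_range_succ', pol, ← this, Finset.mul_sum]
      simp only [cvec, List.getD_cons_succ, List.getD_cons_zero, pow_zero, mul_one]
      rw [add_comm]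
      congr 1
      refine Finset.sum_congr rfl fun i _ => ?_
      ring

theorem linIndep_colf (h G : List F) (hl : h.length = G.length)
    (hc : IsCoprime (pol h) (mpol G)) :
    LinearIndependent F (fun i : Fin G.length => cvec (colf h G i)) := by
  rw [Fintype.linearIndependent_iff]
  intro g hg i
  have h1 := congrArg (TT G.length) hg
  rw [map_sum, map_zero] at h1
  simp only [map_smul] at h1
  have h2 : ∀ i : Fin G.length, TT G.length (cvec (colf h G i)) = pol (colf h G i) :=
    fun i => TT_cvec _ _ (length_colf h G hl i)
  simp only [h2, smul_eq_C_mul] at h1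
  have h3 : mpol G ∣ (∑ i : Fin G.length, C (g i) * X ^ (i : ℕ)) * pol h := by
    have : (∑ i : Fin G.length, C (g i) * X ^ (i : ℕ)) * pol h =
        ∑ i : Fin G.length, C (g i) * (X ^ (i : ℕ) * pol h - pol (colf h G i)) := by
      simp only [mul_sub]
      rw [Finset.sum_sub_distrib, h1, sub_zero, Finset.sum_mul]
      refine Finset.sum_congr rfl fun i _ => ?_
      ring
    rw [this]
    exact Finset.dvd_sum fun i _ => Dvd.dvd.mul_left (dvd_colf h G hl i) _
  have h4 : mpol G ∣ ∑ i : Fin G.length, C (g i) * X ^ (i : ℕ) :=
    hc.symm.dvd_of_dvd_mul_right h3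
  have h5 : (∑ i : Fin G.length, C (g i) * X ^ (i : ℕ)) = 0 := by
    refine eq_zero_of_dvd_of_degree_lt h4 ?_
    rw [degree_mpol]
    exact degree_sum_fin_lt g
  have h6 := congrArg (fun p => coeff p (i : ℕ)) h5
  simp only [finset_sum_coeff, coeff_C_mul, coeff_X_pow, coeff_zero] at h6
  rw [Finset.sum_eq_single i] at h6
  · simpa using h6
  · intro b _ hb
    rw [if_neg, mul_zero]
    intro h
    exact hb (Fin.ext h.symm)
  · intro h; exact absurd (Finset.mem_univ _) h

theorem mem_cols (h G : List F) (x : List F × List F) :
    x ∈ cols h G ↔ (∃ i < G.length, x = (labf F i, colf h G i)) ∨ x = ([], lastc G) := by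
  simp only [cols, List.mem_append, List.mem_map, List.mem_range, List.mem_singleton]
  constructor
  · rintro (⟨i, hi, rfl⟩ | rfl)
    · exact Or.inl ⟨i, hi, rfl⟩
    · exact Or.inr rfl
  · rintro (⟨i, hi, rfl⟩ | rfl)
    · exact Or.inl ⟨i, hi, rfl⟩
    · exact Or.inr rfl

theorem length_cols (h G : List F) : (cols h G).length = G.length + 1 := by
  simp [cols]

theorem length_lastc (G : List F) : (lastc G).length = G.length := by
  simp [lastc]

theorem length_col (h G : List F) (hl : h.length = G.length) (x : List F × List F)
    (hx : x ∈ cols h G) : x.2.length = G.length := by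
  rw [mem_cols] at hx
  rcases hx with ⟨i, _, rfl⟩ | rfl
  · exact length_colf h G hl i
  · exact length_lastc G

theorem labf_ne (n : ℕ) : labf F n ≠ [] := by
  cases n <;> simp [labf]

/-- the number of independent vectors of length `m` is at most `m` -/
theorem card_le {n m : ℕ} (v : Fin n → List F) (hv : ∀ i, (v i).length = m)
    (hli : LinearIndependent F (fun i => cvec (v i))) : n ≤ m := by
  classical
  have h1 := linearIndependent_le_span_aux' (fun i => cvec (v i)) hli
    (((Finset.range m).image (fun j => (Pi.single j (1 : F) : ℕ → F)) : Finset (ℕ → F)) : Set _)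
    (by
      rintro _ ⟨i, rfl⟩
      have : cvec (v i) = ∑ j ∈ Finset.range m, ((v i).getD j 0) • (Pi.single j (1 : F) : ℕ → F) := by
        funext t
        simp only [cvec, Finset.sum_apply, Pi.smul_apply, Pi.single_apply, smul_eq_mul, mul_ite,
          mul_one, mul_zero]
        rw [Finset.sum_ite_eq]
        split_ifs with h
        · rfl
        · rw [List.getD_eq_default]
          rw [hv i]
          simpa using h
      change cvec (v i) ∈ Submodule.span F _
      rw [this]
      refine Submodule.sum_mem _ fun j hj => Submodule.smul_mem _ _ (Submodule.subset_span ?_)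
      simp only [Finset.coe_image, Set.mem_image, Finset.coe_range, Set.mem_Iio]
      exact ⟨j, by simpa using hj, rfl⟩)
  rw [Fintype.card_fin] at h1
  refine h1.trans ?_
  simp only [Finset.coe_sort_coe, Fintype.card_coe]
  exact Finset.card_image_le.trans (by simp)

theorem last_mem {α : Type} : ∀ (l : List α) (a : α), l ≠ [] → List.foldl (fun _ z => z) a l ∈ l := by
  intro l
  induction l with
  | nil => intro a h; exact absurd rfl h
  | cons x l ih =>
    intro a _
    rw [List.foldl_cons]
    by_cases h : l = []
    · subst h; simp
    · exact List.mem_cons_of_mem _ (ih x h)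

theorem correct (h G : List F) (hl : h.length = G.length) (P : List (List F))
    (Fr : List (List F × List F)) (hk : KerSpec (cols h G) P Fr) :
    P.length ≤ G.length ∧ Fr.length ≤ G.length + 1 ∧ (∀ x ∈ Fr, x.2.length = P.length) ∧
    (IsCoprime (pol h) (mpol G) → mpol G ∣
      pol (comb G (List.foldl (fun _ z => z) ([], []) Fr).2 P) * pol h - 1) := by
  classical
  obtain ⟨P', Fr', hP, hFr, hperm, hsub, hli, hcomb, hρ⟩ := hk
  have hlen := hperm.length_eq
  rw [List.length_append, List.length_map, length_cols] at hlen
  have hPl : P.length = P'.length := by rw [hP, List.length_map]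
  have hFl : Fr.length = Fr'.length := by rw [hFr, List.length_map]
  have hmemP : ∀ x ∈ P', x ∈ cols h G := fun x hx => hperm.subset (List.mem_append_left _ hx)
  have hmemF : ∀ x ∈ Fr', x.1 ∈ cols h G := fun x hx =>
    hperm.subset (List.mem_append_right _ (List.mem_map_of_mem hx))
  have hle : P'.length ≤ G.length :=
    card_le (fun k : Fin P'.length => (P'.get k).2)
      (fun k => length_col h G hl _ (hmemP _ (List.get_mem _ _))) hli
  refine ⟨by omega, by omega, ?_, ?_⟩
  · intro x hx
    rw [hFr, List.mem_map] at hx
    obtain ⟨y, hy, rfl⟩ := hx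
    rw [hPl]
    exact (hcomb y hy).1
  intro hc
  -- the rank function
  let ρ : List F × List F → ℕ := fun x => if x.1 = [] then 1 else 0
  have hρ' := hρ ρ (by
    unfold cols
    rw [List.pairwise_append]
    refine ⟨?_, by simp, ?_⟩
    · rw [List.pairwise_map]
      refine List.pairwise_of_forall ?_
      intro a b
      simp [ρ, labf_ne]
    · intro a ha b hb
      rw [List.mem_singleton] at hb
      subst hb
      simp only [ρ, if_true]
      split_ifs <;> omega)
  let p : List F × List F → Bool := fun x => decide (x.1 ≠ [])
  have hcount : (P'.countP p) + ((Fr'.map Prod.fst).countP p) = G.length := by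
    rw [← List.countP_append, hperm.countP_eq]
    unfold cols
    rw [List.countP_append, List.countP_map]
    have e1 : List.countP (p ∘ fun i => (labf F i, colf h G i)) (List.range G.length) =
        (List.range G.length).length := by
      rw [List.countP_eq_length]
      intro a _
      simp [p, labf_ne]
    rw [e1]
    simp [p]
  have hzero : (Fr'.map Prod.fst).countP p = 0 := by
    by_contra hne
    have hlt : P'.countP p < G.length := by omega
    have h1 := linearIndependent_le_span_aux' _ (linIndep_colf h G hl hc)
      ((((P'.filter p).map (fun x => cvec x.2)).toFinset : Finset (ℕ → F)) : Set _)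
      (by
        have hin : ∀ x ∈ P', x.1 ≠ [] → cvec x.2 ∈ Submodule.span F
            ((((P'.filter p).map (fun x => cvec x.2)).toFinset : Finset (ℕ → F)) : Set (ℕ → F)) := by
          intro x hx hx1
          refine Submodule.subset_span ?_
          rw [Finset.mem_coe, List.mem_toFinset, List.mem_map]
          exact ⟨x, List.mem_filter.mpr ⟨hx, by simpa [p] using hx1⟩, rfl⟩
        rintro _ ⟨i, rfl⟩
        have hi : (labf F i, colf h G i) ∈ cols h G := (mem_cols h G _).mpr (Or.inl ⟨i, i.2, rfl⟩)
        have hi2 := hperm.symm.subset hi
        rw [List.mem_append] at hi2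
        rcases hi2 with hi2 | hi2
        · exact hin _ hi2 (labf_ne _)
        · rw [List.mem_map] at hi2
          obtain ⟨x, hx, hx1⟩ := hi2
          have e := (hcomb x hx).2
          rw [hx1] at e
          simp only at e ⊢
          rw [e]
          refine Submodule.sum_mem _ fun k _ => ?_
          by_cases hk0 : x.2.getD k 0 = 0
          · rw [hk0, zero_smul]
            exact Submodule.zero_mem _
          · refine Submodule.smul_mem _ _ (hin _ (List.get_mem _ _) ?_)
            have := hρ' x hx k hk0
            rw [hx1] at this
            simp only [ρ, labf_ne, if_false] at this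
            intro h0
            simp only [h0, if_true] at this
            omega)
    simp only [Finset.coe_sort_coe, Fintype.card_coe, Fintype.card_fin] at h1
    have h2 := (List.toFinset_card_le ((P'.filter p).map (fun x => cvec x.2)))
    rw [List.length_map, ← List.countP_eq_length_filter] at h2
    omega
  have hall : ∀ x ∈ P', x.1 ≠ [] := by
    have : P'.countP p = P'.length := by
      have := List.countP_le_length (p := p) (l := P')
      omega
    rw [List.countP_eq_length] at this
    intro x hx
    simpa [p] using this x hx
  have hFne : Fr ≠ [] := by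
    intro h0
    rw [h0, List.length_nil] at hFl
    omega
  have hlast := last_mem Fr ([], []) hFne
  generalize List.foldl (fun _ z => z) ([], []) Fr = y at hlast ⊢
  rw [hFr, List.mem_map] at hlast
  obtain ⟨x, hx, rfl⟩ := hlast
  have hx1 : x.1.1 = [] := by
    rw [List.countP_eq_zero] at hzero
    have := hzero x.1 (List.mem_map_of_mem hx)
    simpa [p] using this
  have hx2 : x.1 = ([], lastc G) := by
    rcases (mem_cols h G _).mp (hmemF x hx) with ⟨i, _, h3⟩ | h3
    · rw [h3] at hx1
      exact absurd hx1 (labf_ne _)
    · exact h3
  obtain ⟨hl2, hcx⟩ := hcomb x hx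
  rw [hx2] at hcx
  have hT := congrArg (TT G.length) hcx
  rw [TT_cvec _ _ (length_lastc G), map_sum] at hT
  simp only [map_smul, smul_eq_C_mul] at hT
  have hT2 : ∀ k : Fin P'.length, TT G.length (cvec (P'.get k).2) = pol (P'.get k).2 :=
    fun k => TT_cvec _ _ (length_col h G hl _ (hmemP _ (List.get_mem _ _)))
  simp only [hT2] at hT
  have hlab : ∀ x ∈ P', ∃ i < G.length, x = (labf F i, colf h G i) := by
    intro x hx
    rcases (mem_cols h G _).mp (hmemP x hx) with h3 | h3
    · exact h3
    · exact absurd (by rw [h3]) (hall x hx)
  have hd : ∀ x ∈ P', mpol G ∣ pol x.1 * pol h - pol x.2 := by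
    intro x hx
    obtain ⟨i, _, rfl⟩ := hlab x hx
    simp only [pol_labf]
    exact dvd_colf h G hl i
  have hll : ∀ l ∈ P'.map Prod.fst, l.length ≤ G.length := by
    intro l hl3
    rw [List.mem_map] at hl3
    obtain ⟨z, hz, rfl⟩ := hl3
    obtain ⟨i, hi, rfl⟩ := hlab z hz
    simp only [length_labf]
    omega
  have hcombine : pol (comb G x.2 P) = ∑ k : Fin P'.length, C (x.2.getD k 0) * pol (P'.get k).1 := by
    rw [hP]
    unfold comb
    rw [pol_foldl_combF G _ _ (by simp), pol_fit _ rfl _ _ (by simp)]
    · rw [pol, zero_add, List.zipWith_map_right, List.map_zipWith]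
      exact sum_zip (fun y (z : List F × List F) => C y * pol z.1) P' x.2 hl2
    · intro z hz
      rw [List.mem_iff_get] at hz
      obtain ⟨n, hn⟩ := hz
      simp only [List.get_eq_getElem, List.getElem_zipWith] at hn
      rw [← hn]
      exact hll _ (List.getElem_mem _)
  simp only
  rw [hcombine]
  by_cases hm : G.length = 0
  · have : G = [] := List.length_eq_zero_iff.mp hm
    rw [this]
    simp [mpol, pol]
  have hone : pol (lastc G) = 1 := by
    unfold lastc
    rw [pol_fit _ rfl _ _ (by simp; omega)]
    simp [pol]
  rw [hone] at hT
  rw [hT, Finset.sum_mul, ← Finset.sum_sub_distrib]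
  refine Finset.dvd_sum fun k _ => ?_
  have := Dvd.dvd.mul_left (hd _ (List.get_mem P' k)) (C (x.2.getD k 0))
  convert this using 1
  ring

/-- the whole program, given the elimination routine -/
def invP (ker : Pr [] (.list (.prod Po Po)) (.prod (.list Po) (.list (.prod Po Po)))) :
    Pr [] (.prod Po Po) Po :=
  lt (.comp colsP ker)
    (.comp (.pair (.comp .fst .snd)
      (.pair (.comp (.comp (.pair .star (.pair (.pair .nil .nil) (.comp .snd .snd)))
        (foldP (c := .unit) (.comp .snd .snd))) .snd)
        (.comp .snd .fst))) combP)

theorem val_invP (ker : Pr [] (.list (.prod Po Po)) (.prod (.list Po) (.list (.prod Po Po))))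
    (h G : List F) :
    (invP ker).val () (h, G) = comb G
      (List.foldl (fun _ z => z) (([] : List F), ([] : List F)) (ker.val () (cols h G)).2).2
      (ker.val () (cols h G)).1 := by
  have e1 := val_colsP (F := F) (s := []) () h G
  simp only [invP, val_lt, val_comp, e1, val_pair, val_fst, val_snd, val_foldP, val_nil]
  exact val_combP (s := []) () G _ _

theorem cost_invP (ker : Pr [] (.list (.prod Po Po)) (.prod (.list Po) (.list (.prod Po Po))))
    (h G : List F) (hl : h.length = G.length) (K : ℕ)
    (hK : ker.cost () () (cols h G) ≤ K)
    (hF : List.length (ker.val () (cols h G)).2 ≤ G.length + 1)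
    (hc : List.length (List.foldl (fun _ z => z) (([] : List F), ([] : List F))
      (ker.val () (cols h G)).2).2 ≤ G.length + 1) :
    (invP ker).cost () () (h, G) ≤ K + 1000 * ((G.length + 1) * (G.length + 1)) := by
  have e1 := val_colsP (F := F) (s := []) () h G
  have e2 := cost_colsP (F := F) (s := []) () () h G hl
  have e3 := cost_combP (F := F) (s := []) () () G
    (List.foldl (fun _ z => z) (([] : List F), ([] : List F)) (ker.val () (cols h G)).2).2
    (ker.val () (cols h G)).1
  have e4 := cost_foldP_le (F := F) (s := []) (c := .unit) (b := .prod Po Po) (a := .prod Po Po)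
    (.comp .snd .snd) () ()
    ((), ((([] : List F), ([] : List F)), (ker.val () (cols h G)).2)) 2 (fun _ => True) trivial
    (fun _ _ _ _ => trivial) (fun _ _ _ _ => by simp)
  have e4' := e4.trans (show (2 + 27) * List.length (ker.val () (cols h G)).2 + 14 ≤
    29 * (G.length + 1) + 14 by omega)
  have e3' := e3.trans (show (80 * G.length + 120) *
    List.length (List.foldl (fun _ z => z) (([] : List F), ([] : List F))
      (ker.val () (cols h G)).2).2 + 20 * G.length + 60 ≤
      (80 * G.length + 120) * (G.length + 1) + 20 * G.length + 60 by gcongr)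
  clear e3 e4
  simp only [invP, cost_lt, cost_comp, val_comp, e1, val_pair, val_fst, val_snd, val_foldP,
    val_nil, cost_pair, cost_fst, cost_snd, cost_star, val_star, cost_nil]
  have hfin : ∀ c1 c2 c3 c4 n : ℕ, c1 ≤ (140 * n + 100) * n + 20 * n + 40 → c2 ≤ K →
      c3 ≤ (80 * n + 120) * (n + 1) + 20 * n + 60 → c4 ≤ 29 * (n + 1) + 14 →
      c1 + c2 + (1 + 1 + (1 + (1 + 1 + 1 + (1 + 1) + 1) + 1 + c4 + 1 + (1 + 1) + 1) + 1 + c3) + 2 ≤
        K + 1000 * ((n + 1) * (n + 1)) := by
    intro c1 c2 c3 c4 n h1 h2 h3 h4
    nlinarith
  exact hfin _ _ _ _ _ e2 hK e3' e4'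

end A12

theorem specInv (h : SpecKer) (h0 : SpecUnits) : SpecInv := by
  obtain ⟨ker, C, hker⟩ := h Po
  refine ⟨A12.invP ker, 2 * C + 1000, ?_⟩
  intro F _ _ h G hl
  obtain ⟨hk, hcost⟩ := hker F G.length (A12.cols h G) (A12.length_col h G hl)
  obtain ⟨k1, k2, k3, k4⟩ := A12.correct h G hl _ _ hk
  rw [A12.val_invP]
  refine ⟨k4, A12.length_comb _ _ _, ?_⟩
  have hc : List.length (List.foldl (fun _ z => z) (([] : List F), ([] : List F))
      (ker.val () (A12.cols h G)).2).2 ≤ G.length + 1 := by
    by_cases he : (ker.val () (A12.cols h G)).2 = []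
    · rw [he]; simp
    · have := k3 _ (A12.last_mem _ (([] : List F), ([] : List F)) he)
      omega
  have e := A12.cost_invP ker h G hl _ hcost k2 hc
  refine e.trans ?_
  have hw := h0.2.2.2.2.2.2.1 (G.length + 1)
  rw [A12.length_cols]
  have e1 : C * (G.length + 1 + G.length + 1) * vv (Nat.clog 2 (G.length + 1)) =
      2 * C * ww (G.length + 1) := by
    unfold ww
    ring
  rw [e1]
  nlinarith

end Pool.Agent.H330FB.JA12
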