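import Pool.Agent.H330FB.Lib5
import Pool.Agent.H330FB.Spec1
set_option autoImplicit false
noncomputable section
namespace Pool.Agent.H330FB.JA13
open Polynomial

section annihilator

variable {F : Type} [Field F] [DecidableEq F]

theorem ann_coeff_pol (l : List F) (i : ℕ) : (pol l).coeff i = l.getD i 0 := by
  induction l generalizing i with
  | nil => simp [pol]
  | cons x l ih =>
    cases i with
    | zero => simp [pol]
    | succ i => simp [pol, ih, coeff_C]

theorem ann_pol_ext (l m : List F) (h : ∀ i, l.getD i 0 = m.getD i 0) : pol l = pol m := by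
  ext i
  rw [ann_coeff_pol, ann_coeff_pol, h]

theorem ann_degree_pol (l : List F) : (pol l).degree < (l.length : ℕ) := by
  rw [degree_lt_iff_coeff_zero]
  intro i hi
  rw [ann_coeff_pol, List.getD_eq_getElem?_getD, List.getElem?_eq_none hi]
  rfl

theorem ann_monic (l : List F) : (mpol l).Monic := monic_X_pow_add (ann_degree_pol l)

theorem ann_degree_mpol (l : List F) : (mpol l).degree = (l.length : ℕ) := by
  unfold mpol
  rw [degree_add_eq_left_of_degree_lt]
  · simp
  · simpa using ann_degree_pol l

theorem ann_pol_zp (l m : List F) : pol (zp (fun y z => y + z) l m) = pol l + pol m := by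
  induction l generalizing m with
  | nil => simp [zp, pol]
  | cons x l ih =>
    cases m with
    | nil => simp [zp, pol]
    | cons y m => simp [zp, pol, ih]; ring

theorem ann_length_zp (l m : List F) :
    (zp (fun y z => y + z) l m).length = max l.length m.length := by
  induction l generalizing m with
  | nil => simp [zp]
  | cons x l ih =>
    cases m with
    | nil => simp [zp]
    | cons y m => simp [zp, ih]

theorem ann_pol_map (c : F) (l : List F) :
    pol (l.map (fun y => -(c * y))) = -(C c * pol l) := by
  ext i
  simp only [ann_coeff_pol, coeff_neg, coeff_C_mul, List.getD_eq_getElem?_getD, List.getElem?_map]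
  cases l[i]? <;> simp

theorem ann_getD_fit (n : ℕ) (l : List F) (i : ℕ) :
    (fit n 0 l).getD i 0 = if i < n then l.getD i 0 else 0 := by
  induction n generalizing l i with
  | zero => simp [fit]
  | succ n ih =>
    cases l with
    | nil =>
      cases i with
      | zero => simp [fit]
      | succ i => simp only [fit, List.getD_cons_succ, ih]; simp
    | cons x l =>
      cases i with
      | zero => simp [fit]
      | succ i => simp only [fit, List.getD_cons_succ, ih]; simp

theorem ann_pol_fit (n : ℕ) (l : List F) (h : (pol l).degree < n) : pol (fit n 0 l) = pol l := by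
  refine ann_pol_ext _ _ (fun i => ?_)
  rw [ann_getD_fit]
  split_ifs with hi
  · rfl
  · rw [← ann_coeff_pol]
    exact ((degree_lt_iff_coeff_zero _ _).mp h i (by omega)).symm

theorem ann_pol_lab (j : ℕ) : pol (List.replicate j (0 : F) ++ [1]) = X ^ j := by
  induction j with
  | zero => simp [pol]
  | succ j ih => simp [List.replicate_succ, pol, ih, pow_succ']

/-! ### the columns -/

/-- the labelled columns -/
def annCols (mm : List F → List F) : ℕ → List F → List F → List (List F × List F)
  | 0, lab, col => [(lab, col)]
  | n + 1, lab, col => (lab, col) :: annCols mm n (0 :: lab) (mm col)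

theorem annCols_eq (mm : List F → List F) (n : ℕ) (lab col : List F) :
    annCols mm n lab col =
      (List.range (n + 1)).map (fun k => (List.replicate k 0 ++ lab, mm^[k] col)) := by
  induction n generalizing lab col with
  | zero => simp [annCols]
  | succ n ih =>
    rw [annCols, ih, List.range_succ_eq_map (n := n + 1), List.map_cons, List.map_map]
    congr 1
    refine List.map_congr_left (fun k _ => ?_)
    simp [List.replicate_succ']

/-- the negative of a linear combination -/
def annComb (X : List F) (P : List (List F)) : List F :=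
  List.foldl (fun y z => zp (fun y z => y + z) y z) []
    (List.zipWith (fun x r => List.map (fun y => -(x * y)) r) X P)

theorem ann_pol_foldl (L : List (List F)) (y : List F) :
    pol (List.foldl (fun y z => zp (fun y z => y + z) y z) y L) = pol y + (L.map pol).sum := by
  induction L generalizing y with
  | nil => simp
  | cons h t ih => simp [ih, ann_pol_zp]; ring

theorem ann_pol_comb (X : List F) (P : List (List F)) (hX : X.length = P.length) :
    pol (annComb X P) = - ∑ k : Fin P.length, C (X.getD k 0) * pol (P.get k) := by
  unfold annComb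
  rw [ann_pol_foldl]
  simp only [pol, zero_add]
  induction P generalizing X with
  | nil =>
    cases X with
    | nil => simp
    | cons x X => simp at hX
  | cons r P ih =>
    cases X with
    | nil => simp at hX
    | cons x X =>
      have h1 := ih X (by simpa using hX)
      simp only [List.zipWith_cons_cons, List.map_cons, List.sum_cons, h1, ann_pol_map]
      have h2 : (∑ k : Fin (r :: P).length, C ((x :: X).getD k 0) * pol ((r :: P).get k)) =
          C x * pol r + ∑ k : Fin P.length, C (X.getD k 0) * pol (P.get k) :=
        Fin.sum_univ_succ (n := P.length) _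
      rw [h2]
      ring

end annihilator

/-! ### the algebra -/

section algebra

variable {F : Type} [Field F] [DecidableEq F]

theorem ann_cvec (l : List F) (i : ℕ) : cvec l i = (pol l).coeff i := by
  rw [ann_coeff_pol]; rfl

theorem ann_card_le (m : ℕ) (P : List (List F × List F)) (hP : ∀ x ∈ P, x.2.length = m)
    (hli : LinearIndependent F (fun k : Fin P.length => cvec (P.get k).2)) : P.length ≤ m := by
  have h1 : LinearIndependent F (fun k : Fin P.length =>
      (fun i : Fin m => cvec (P.get k).2 (i : ℕ))) := by
    rw [Fintype.linearIndependent_iff] at hli ⊢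
    intro g hg
    refine hli g ?_
    funext i
    by_cases hi : i < m
    · have := congrFun hg ⟨i, hi⟩
      simpa [Finset.sum_apply] using this
    · simp only [Finset.sum_apply, Pi.smul_apply, Pi.zero_apply]
      refine Finset.sum_eq_zero (fun k _ => ?_)
      have h2 : (P.get k).2.length = m := hP _ (List.get_mem _ _)
      have h3 : cvec (P.get k).2 i = 0 := by
        unfold cvec
        rw [List.getD_eq_getElem?_getD, List.getElem?_eq_none (by omega)]
        rfl
      rw [h3, smul_zero]
  have h2 := h1.fintype_card_le_finrank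
  simpa using h2

theorem ann_main (m : ℕ) (y e H : List F) (c : ℕ → List F) (hH : H.length = m)
    (hc : ∀ j, (c j).length = m) (hc' : ∀ j, mpol H ∣ pol e * pol y ^ j - pol (c j))
    (P : List (List F)) (Fr : List (List F × List F))
    (hK : KerSpec ((List.range (m + 1)).map (fun k => (List.replicate k (0 : F) ++ [1], c k)))
      P Fr) :
    P.length ≤ m ∧ (∀ r ∈ P, r.length ≤ m + 1) ∧
    ∃ (l X : List F) (rest : List (List F × List F)), Fr = (l, X) :: rest ∧ l.length ≤ m + 1 ∧
      l ≠ [] ∧ X.length = P.length ∧
      ∀ B : F[X], mpol H ∣ B.comp (pol y) * pol e ↔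
        mpol (fit l.tail.length 0 (annComb X P)) ∣ B := by
  obtain ⟨P', Fr', rfl, rfl, hperm, hsub, hli, hx, hρ⟩ := hK
  set cs : List (List F × List F) :=
    (List.range (m + 1)).map (fun k => (List.replicate k (0 : F) ++ [1], c k)) with hcs
  have hpw : cs.Pairwise (fun x y => x.1.length < y.1.length) := by
    rw [hcs, List.pairwise_map]
    refine List.Pairwise.imp ?_ (List.pairwise_lt_range)
    intro a b hab
    simpa using hab
  have hpw' : cs.Pairwise (fun x y => x.1.length ≤ y.1.length) :=
    hpw.imp (fun h => h.le)
  have hmem : ∀ x ∈ cs, ∃ k ≤ m, x = (List.replicate k (0 : F) ++ [1], c k) := by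
    intro x hx
    rw [hcs, List.mem_map] at hx
    obtain ⟨k, hk, rfl⟩ := hx
    exact ⟨k, by simpa [Nat.lt_succ_iff] using hk, rfl⟩
  have hmemP : ∀ x ∈ P', ∃ k ≤ m, x = (List.replicate k (0 : F) ++ [1], c k) := by
    intro x hx
    exact hmem x (hperm.subset (by simp [hx]))
  have hPlen : P'.length ≤ m := by
    refine ann_card_le m P' (fun x hx => ?_) hli
    obtain ⟨k, -, rfl⟩ := hmemP x hx
    exact hc k
  have hlen := hperm.length_eq
  simp only [List.length_append, List.length_map, hcs, List.length_range] at hlen
  refine ⟨by simpa using hPlen, ?_, ?_⟩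
  · intro r hr
    rw [List.mem_map] at hr
    obtain ⟨x, hx, rfl⟩ := hr
    obtain ⟨k, hk, rfl⟩ := hmemP x hx
    simpa using hk
  obtain _ | ⟨x0, rest⟩ := Fr'
  · simp at hlen; omega
  have hx0 : x0.1 ∈ cs := hsub.subset (by simp)
  obtain ⟨k0, hk0, hx0e⟩ := hmem _ hx0
  obtain ⟨hXlen, hXeq⟩ := hx x0 (by simp)
  have hρ0 := hρ (fun x => x.1.length) hpw' x0 (by simp)
  have hnod : (P' ++ (x0 :: rest).map Prod.fst).Nodup := by
    rw [hperm.nodup_iff]
    exact hpw.imp (fun h h' => by rw [h'] at h; exact lt_irrefl _ h)
  have hdisj : x0.1 ∉ P' := by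
    intro h
    have := (List.nodup_append'.mp hnod).2.2 h
    simp at this
  -- all earlier columns are pivots
  have hearly : ∀ j < k0, (List.replicate j (0 : F) ++ [1], c j) ∈ P' := by
    intro j hj
    have h1 : (List.replicate j (0 : F) ++ [1], c j) ∈ cs := by
      rw [hcs, List.mem_map]
      exact ⟨j, by simp; omega, rfl⟩
    have h2 := hperm.symm.subset h1
    rw [List.mem_append] at h2
    rcases h2 with h2 | h2
    · exact h2
    exfalso
    rw [List.map_cons, List.mem_cons] at h2
    rcases h2 with h2 | h2
    · rw [hx0e] at h2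
      have := congrArg (fun x => x.1.length) h2
      simp at this
      omega
    · have h3 := hpw.sublist hsub
      rw [List.map_cons, List.pairwise_cons] at h3
      have h4 := h3.1 _ h2
      rw [hx0e] at h4
      simp at h4
      omega
  -- no nonzero polynomial of small degree annihilates
  have hmin : ∀ R : F[X], R.degree < k0 → mpol H ∣ R.comp (pol y) * pol e → R = 0 := by
    intro R hR hdiv
    have hsum : R = ∑ j : Fin k0, C (R.coeff j) * X ^ (j : ℕ) := by
      ext i
      simp only [finset_sum_coeff, coeff_C_mul, coeff_X_pow]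
      by_cases hi : i < k0
      · rw [Finset.sum_eq_single (⟨i, hi⟩ : Fin k0)]
        · simp
        · intro b _ hb
          rw [if_neg]
          · simp
          · intro h; exact hb (Fin.ext h.symm)
        · simp
      · rw [(degree_lt_iff_coeff_zero _ _).mp hR i (by omega)]
        symm
        refine Finset.sum_eq_zero (fun b _ => ?_)
        rw [if_neg (by have := b.2; omega)]
        simp
    have h1 : mpol H ∣ ∑ j : Fin k0, C (R.coeff j) * pol (c j) := by
      have h2 : R.comp (pol y) * pol e - ∑ j : Fin k0, C (R.coeff j) * pol (c j)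
          = ∑ j : Fin k0, C (R.coeff j) * (pol e * pol y ^ (j : ℕ) - pol (c j)) := by
        conv_lhs => rw [hsum]
        simp only [mul_sub, Finset.sum_sub_distrib]
        congr 1
        · simp only [sum_comp, mul_comp, C_comp, pow_comp, X_comp, Finset.sum_mul]
          refine Finset.sum_congr rfl (fun j _ => ?_)
          ring
        · rw [← hsum]
      have h3 : mpol H ∣ R.comp (pol y) * pol e - ∑ j : Fin k0, C (R.coeff j) * pol (c j) := by
        rw [h2]
        exact Finset.dvd_sum (fun j _ => Dvd.dvd.mul_left (hc' j) _)
      exact (dvd_sub_right hdiv).mp h3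
    have h4 : ∑ j : Fin k0, C (R.coeff j) * pol (c j) = 0 := by
      refine Polynomial.eq_zero_of_dvd_of_degree_lt h1 ?_
      rw [ann_degree_mpol, hH, degree_lt_iff_coeff_zero]
      intro i hi
      rw [finset_sum_coeff]
      refine Finset.sum_eq_zero (fun j _ => ?_)
      rw [coeff_C_mul]
      have := (degree_lt_iff_coeff_zero _ _).mp (ann_degree_pol (c j)) i (by rw [hc]; exact hi)
      rw [this, mul_zero]
    choose κ hκ using fun j : Fin k0 => List.get_of_mem (hearly j j.2)
    have hκi : Function.Injective κ := by
      intro i j hij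
      have h5 := hκ i
      rw [hij, hκ j] at h5
      have := congrArg (fun x => x.1.length) h5
      simp at this
      exact Fin.ext this.symm
    have h6 := hli.comp κ hκi
    rw [Fintype.linearIndependent_iff] at h6
    have h7 := h6 (fun j => R.coeff j) (by
      funext i
      have := congrArg (fun p => p.coeff i) h4
      simp only [finset_sum_coeff, coeff_C_mul, coeff_zero] at this
      simp only [Finset.sum_apply, Pi.smul_apply, Pi.zero_apply, Function.comp_apply, smul_eq_mul]
      rw [← this]
      refine Finset.sum_congr rfl (fun j _ => ?_)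
      rw [hκ j, ann_cvec])
    rw [hsum]
    refine Finset.sum_eq_zero (fun j _ => ?_)
    rw [h7 j]
    simp
  -- the candidate
  obtain ⟨⟨l, c0⟩, X⟩ := x0
  simp only [Prod.mk.injEq] at hx0e
  obtain ⟨rfl, rfl⟩ := hx0e
  simp only at hXlen hXeq hρ0 hdisj
  refine ⟨List.replicate k0 (0 : F) ++ [1], X, rest.map (fun x => (x.1.1, x.2)), by simp,
    by simpa using hk0, by simp, by simpa using hXlen, ?_⟩
  have htail : (List.replicate k0 (0 : F) ++ [1]).tail.length = k0 := by simp
  rw [htail]
  have hPk : ∀ k : Fin P'.length, ∃ j ≤ m, P'.get k = (List.replicate j (0 : F) ++ [1], c j) :=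
    fun k => hmemP _ (List.get_mem _ _)
  choose j hjm hj using hPk
  have hcomb : pol (annComb X (P'.map Prod.fst)) =
      - ∑ k : Fin P'.length, C (X.getD k 0) * Polynomial.X ^ j k := by
    rw [ann_pol_comb X _ (by simpa using hXlen)]
    congr 1
    refine Finset.sum_equiv (finCongr (by simp)) (by simp) (fun k _ => ?_)
    have h8 := hj (finCongr (by simp) k)
    simp only [List.get_eq_getElem, finCongr_apply, Fin.val_cast] at h8 ⊢
    rw [List.getElem_map, h8]
    simp only [ann_pol_lab]
  have hlt : ∀ k : Fin P'.length, X.getD k 0 ≠ 0 → j k < k0 := by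
    intro k hk
    have h9 := hρ0 k hk
    rw [hj k] at h9
    simp at h9
    rcases lt_or_eq_of_le h9 with h | h
    · exact h
    · exfalso
      apply hdisj
      have h10 := hj k
      rw [h] at h10
      rw [← h10]
      exact List.get_mem _ _
  have hdeg : (pol (annComb X (P'.map Prod.fst))).degree < k0 := by
    rw [hcomb, degree_neg, degree_lt_iff_coeff_zero]
    intro i hi
    rw [finset_sum_coeff]
    refine Finset.sum_eq_zero (fun k _ => ?_)
    rw [coeff_C_mul, coeff_X_pow]
    by_cases hk : X.getD k 0 = 0
    · rw [hk, zero_mul]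
    · have := hlt k hk
      rw [if_neg (by omega), mul_zero]
  have hfit := ann_pol_fit k0 (annComb X (P'.map Prod.fst)) hdeg
  set A : List F := fit k0 0 (annComb X (P'.map Prod.fst)) with hA
  have hAlen : A.length = k0 := by rw [hA, length_fit]
  have hmA : mpol A = Polynomial.X ^ k0 - ∑ k : Fin P'.length, C (X.getD k 0) * Polynomial.X ^ j k := by
    unfold mpol
    rw [hAlen, hfit, hcomb, sub_eq_add_neg]
  have hann : mpol H ∣ (mpol A).comp (pol y) * pol e := by
    have h11 : pol (c k0) = ∑ k : Fin P'.length, C (X.getD k 0) * pol (c (j k)) := by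
      ext i
      rw [← ann_cvec, hXeq, finset_sum_coeff]
      simp only [Finset.sum_apply, Pi.smul_apply, smul_eq_mul, coeff_C_mul]
      refine Finset.sum_congr rfl (fun k _ => ?_)
      rw [hj k, ann_cvec]
    have h12 : (mpol A).comp (pol y) * pol e = (pol e * pol y ^ k0 - pol (c k0)) -
        ∑ k : Fin P'.length, C (X.getD k 0) * (pol e * pol y ^ (j k) - pol (c (j k))) := by
      rw [hmA, h11]
      simp only [sub_comp, pow_comp, X_comp, sum_comp, mul_comp, C_comp, mul_sub,
        Finset.sum_sub_distrib, sub_mul, Finset.sum_mul]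
      have : ∀ k : Fin P'.length, C (X.getD k 0) * pol y ^ j k * pol e =
        C (X.getD k 0) * (pol e * pol y ^ j k) := fun k => by ring
      simp only [this]
      ring
    rw [h12]
    exact dvd_sub (hc' k0) (Finset.dvd_sum (fun k _ => Dvd.dvd.mul_left (hc' (j k)) _))
  have hmon : (mpol A).Monic := ann_monic A
  intro B
  constructor
  · intro hB
    have h13 := modByMonic_add_div B (mpol A)
    have h14 : (B %ₘ mpol A) = 0 := by
      refine hmin _ ?_ ?_
      · have := degree_modByMonic_lt B hmon
        rwa [ann_degree_mpol, hAlen] at this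
      · have h15 : (B %ₘ mpol A).comp (pol y) * pol e = B.comp (pol y) * pol e -
            (B /ₘ mpol A).comp (pol y) * ((mpol A).comp (pol y) * pol e) := by
          have h16 : B.comp (pol y) = (B %ₘ mpol A).comp (pol y) +
              (mpol A).comp (pol y) * (B /ₘ mpol A).comp (pol y) := by
            rw [← mul_comp, ← add_comp, h13]
          rw [h16]
          ring
        rw [h15]
        exact dvd_sub hB (Dvd.dvd.mul_left hann _)
    exact (modByMonic_eq_zero_iff_dvd hmon).mp h14
  · rintro ⟨Q, rfl⟩
    rw [mul_comp]
    have : (mpol A).comp (pol y) * Q.comp (pol y) * pol e =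
      Q.comp (pol y) * ((mpol A).comp (pol y) * pol e) := by ring
    rw [this]
    exact Dvd.dvd.mul_left hann _

end algebra

/-! ### the program -/

/-- context of the iteration: table, `y`, `H` -/
abbrev AnnCtx : Ty := .prod TB (.prod Po Po)
/-- state of the iteration: context, label, column -/
abbrev AnnSt : Ty := .prod AnnCtx (.prod Po Po)
/-- labelled columns -/
abbrev AnnOut : Ty := .list (.prod Po Po)

/-- the next column -/
def annStep (s : List (Ty × Ty)) (q : Pr [] (.prod TB (.prod (.prod Po Po) Po)) Po) :
    Pr s AnnSt Po :=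
  .comp (.pair (.comp .fst .fst) (.pair (.pair (.comp .snd .snd) (.comp (.comp .fst .snd) .fst))
    (.comp (.comp .fst .snd) .snd))) (liftP s q)

/-- body of the recursion which lists the columns -/
def annBody (q : Pr [] (.prod TB (.prod (.prod Po Po) Po)) Po) :
    Pr [(AnnSt, AnnOut)] AnnSt AnnOut :=
  .comp (.pair .snd (.comp (.pair .fst (.pair (.comp (.pair .zero (.comp .snd .fst)) .cons)
    (annStep _ q))) .self)) .cons

/-- end of the recursion which lists the columns -/
def annEnd : Pr [] AnnSt AnnOut := .comp (.pair .snd .nil) .cons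

/-- the list of the columns -/
def annGen (q : Pr [] (.prod TB (.prod (.prod Po Po) Po)) Po) :
    Pr [] (.prod Po AnnSt) AnnOut := .recD (annBody q) annEnd

/-- the negative of a linear combination, input `(X, P)` -/
def annCombP : Pr [] (.prod Po Ma) Po :=
  .comp (.pair .star (.pair .nil (.comp (.pair .star .id)
    (zipP (c := .unit) (.comp .snd (mapP (c := .fld) (.comp .mul .neg)))))))
    (foldP (c := .unit) (.comp .snd (zpP .add)))

/-- the last step, input `(labels of the pivots, free columns)` -/
def annFin : Pr [] (.prod Ma AnnOut) Po :=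
  onL .snd .nil
    (onL (.comp (.comp .snd .fst) .fst) .nil
      (.comp (.pair (.comp .snd .snd) (.pair .zero
        (.comp (.pair (.comp (.comp (.comp .fst .snd) .fst) .snd) (.comp (.comp .fst .fst) .fst))
          annCombP))) fitP))

/-- the whole program -/
def annP (q : Pr [] (.prod TB (.prod (.prod Po Po) Po)) Po)
    (r : Pr [] AnnOut (.prod Ma AnnOut)) : Pr [] (.prod TB (.prod (.prod Po Po) Po)) Po :=
  .comp (.comp (.comp (.pair (.comp .snd .snd)
    (.pair (.pair .fst (.pair (.comp (.comp .snd .fst) .fst) (.comp .snd .snd)))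
      (.pair (.comp (.pair .one .nil) .cons) (.comp (.comp .snd .fst) .snd)))) (annGen q)) r)
    annFin

section program

variable {F : Type} [Field F] [DecidableEq F]

theorem annGen_val (q : Pr [] (.prod TB (.prod (.prod Po Po) Po)) Po) (n : ℕ)
    (tb : List (List F) × List (List F)) (y H lab col : List F) :
    goV (annBody q) annEnd () n ((tb, (y, H)), (lab, col)) =
      annCols (fun c => (q.val () (tb, ((c, y), H)) : List F)) n lab col := by
  induction n generalizing lab col with
  | zero => simp [goV, annEnd, annCols]
  | succ n ih =>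
    simp only [goV, annCols, annBody, annStep, val_comp, val_pair, val_snd, val_fst, val_cons,
      val_self, val_zero, val_liftP]
    exact congrArg _ (ih _ _)

theorem annGen_cost (q : Pr [] (.prod TB (.prod (.prod Po Po) Po)) Po) (n B m : ℕ)
    (tb : List (List F) × List (List F)) (y H lab col : List F)
    (hB : ∀ c : List F, c.length = m → q.cost () () (tb, ((c, y), H)) ≤ B ∧
      List.length (q.val () (tb, ((c, y), H)) : List F) = m) (hc : col.length = m) :
    goC (annBody q) annEnd () () n ((tb, (y, H)), (lab, col)) ≤ (B + 40) * n + 4 := by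
  induction n generalizing lab col with
  | zero => simp [goC, annEnd]
  | succ n ih =>
    have h1 := ih (0 :: lab) (q.val () (tb, ((col, y), H))) (hB col hc).2
    have h2 := (hB col hc).1
    simp only [goC, annBody, annStep, val_comp, val_pair, val_snd, val_fst, val_cons,
      val_zero, val_liftP, cost_comp, cost_pair, cost_snd, cost_fst, cost_cons,
      cost_self, cost_zero, cost_liftP] at h1 ⊢
    nlinarith

theorem annCombP_val (X : List F) (P : List (List F)) :
    annCombP.val () (X, P) = annComb X P := by
  simp only [annCombP, annComb, val_comp, val_pair, val_star, val_nil, val_id, val_zipP, val_snd,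
    val_mapP, val_foldP, val_zpP, val_add, val_neg, val_mul]

theorem annCombP_cost (X : List F) (P : List (List F)) (m : ℕ) (hP : ∀ r ∈ P, r.length ≤ m + 1)
    (hX : X.length ≤ m + 1) :
    annCombP.cost () () (X, P) ≤ 400 * ((m + 1) * (m + 1)) := by
  have e1 := cost_zipP_le (F := F) (s := []) (c := .unit) (a := .fld) (b := Po) (d := Po)
    (.comp .snd (mapP (c := .fld) (.comp .mul .neg))) () () ((), (X, P)) (15 * (m + 1) + 6)
    (fun x _ r hr => by
      have h1 := cost_mapP_le (F := F) (s := []) (c := .fld) (a := .fld) (b := .fld)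
        (.comp .mul .neg) () () (x, r) 2 (fun _ _ => by simp)
      have h2 := hP r hr
      simp only [cost_comp, cost_snd, val_snd] at h1 ⊢
      nlinarith)
  have e2 := cost_foldP_le (F := F) (s := []) (c := .unit) (b := Po) (a := Po)
    (.comp .snd (zpP .add)) () ()
    ((), (([] : List F), List.zipWith (fun x r => List.map (fun y => -(x * y)) r) X P))
    (41 * (m + 1) + 16) (fun l => List.length l ≤ m + 1) (by simp)
    (fun y z hy hz => by
      simp only [val_comp, val_snd, val_zpP, val_add]
      rw [ann_length_zp]
      have hz' : List.length z ≤ m + 1 := by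
        rw [List.mem_iff_get] at hz
        obtain ⟨i, rfl⟩ := hz
        simp only [List.get_eq_getElem, List.getElem_zipWith, List.length_map]
        exact hP _ (List.getElem_mem _)
      exact max_le hy hz')
    (fun y z hy _ => by
      have h1 := cost_zpP_le (F := F) (s := []) (a := .fld) .add () () (y, z) 1
        (fun _ _ _ _ => by simp)
      simp only [cost_comp, cost_snd, val_snd] at h1 hy ⊢
      nlinarith)
  have e3 : List.length (List.zipWith (fun x r => List.map (fun y => -(x * y)) r) X P) ≤
      m + 1 := by
    rw [List.length_zipWith]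
    exact (min_le_left _ _).trans hX
  simp only [annCombP, val_comp, val_pair, val_star, val_nil, val_id, val_zipP, val_snd,
    val_mapP, val_neg, val_mul, cost_comp, cost_pair, cost_star, cost_nil, cost_id] at e1 e2 ⊢
  nlinarith

theorem annFin_val (P : List (List F)) (l X : List F) (hl : l ≠ []) (rest : List (List F × List F)) :
    annFin.val () (P, (l, X) :: rest) = fit l.tail.length 0 (annComb X P) := by
  cases l with
  | nil => exact absurd rfl hl
  | cons x l =>
    simp only [annFin, val_onL, val_comp, val_snd, val_fst, lcase_cons, val_pair, val_zero,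
      val_fitP, List.tail_cons]
    exact congrArg _ (annCombP_val X P)

theorem annFin_cost (P : List (List F)) (l X : List F) (hl : l ≠ []) (rest : List (List F × List F))
    (m : ℕ) (hP : ∀ r ∈ P, r.length ≤ m + 1) (hX : X.length ≤ m + 1) (hlm : l.length ≤ m + 1) :
    annFin.cost () () (P, (l, X) :: rest) ≤ 500 * ((m + 1) * (m + 1)) := by
  have e1 := annCombP_cost X P m hP hX
  cases l with
  | nil => exact absurd rfl hl
  | cons x l =>
    have e2 := cost_fitP (F := F) (s := []) (a := .fld) (b := .fld) () ()
      (l, ((0 : F), annCombP.val () (X, P)))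
    simp only [annFin, cost_onL, cost_comp, cost_snd, cost_fst, cost_pair, cost_zero,
      val_comp, val_snd, val_fst, lcase_cons, val_pair, val_zero,
      List.length_cons] at e1 e2 hlm ⊢
    nlinarith

end program

theorem specAnn (h : SpecKer) (h1 : SpecMulMod) (h0 : SpecUnits) : SpecAnn := by
  obtain ⟨q, C1, hq⟩ := h1
  obtain ⟨r, C2, hr⟩ := h Po
  obtain ⟨hmu, hww, hvv, -, -, -, hNN, -, -, -, -, hNmu, -, -⟩ := h0
  obtain ⟨C3, hC3⟩ := hNmu 3
  refine ⟨annP q r, 2 * C1 * C3 + 2 * C2 + 1000, ?_⟩
  intro F _ _ tb y e H htb hy he
  set m : ℕ := H.length with hm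
  set mm : List F → List F := fun c => (q.val () (tb, ((c, y), H)) : List F) with hmm
  have hmmlen : ∀ c : List F, (mm c).length = m := fun c => (hq F tb c y H htb).1
  set c : ℕ → List F := fun k => mm^[k] e with hc
  have hclen : ∀ j, (c j).length = m := by
    intro j
    cases j with
    | zero => exact he
    | succ j => rw [hc]; simp only [Function.iterate_succ_apply']; exact hmmlen _
  have hcdvd : ∀ j, mpol H ∣ pol e * pol y ^ j - pol (c j) := by
    intro j
    induction j with
    | zero => simp [hc]
    | succ j ih =>
      have h2 : pol e * pol y ^ (j + 1) - pol (c (j + 1)) =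
          (pol e * pol y ^ j - pol (c j)) * pol y + (pol (c j) * pol y - pol (mm (c j))) := by
        simp only [hc, Function.iterate_succ_apply']
        ring
      rw [h2]
      exact dvd_add (Dvd.dvd.mul_right ih _) (hq F tb (c j) y H htb).2.1
  set cs : List (List F × List F) :=
    (List.range (m + 1)).map (fun k => (List.replicate k (0 : F) ++ [1], c k)) with hcs
  have hgen : goV (annBody q) annEnd () m ((tb, (y, H)), (([1] : List F), e)) = cs := by
    rw [annGen_val, annCols_eq]
  have hcslen : cs.length = m + 1 := by simp [hcs]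
  obtain ⟨hK, hKc⟩ := hr F m cs (by
    intro x hx
    rw [hcs, List.mem_map] at hx
    obtain ⟨k, -, rfl⟩ := hx
    exact hclen k)
  obtain ⟨hPm, hPl, l, X, rest, hFr, hlm, hl, hX, hB⟩ :=
    ann_main m y e H c hm.symm hclen hcdvd _ _ hK
  have hres : (r.val () cs : List (List F) × List (List F × List F)) =
      ((r.val () cs : List (List F) × List (List F × List F)).1, (l, X) :: rest) :=
    Prod.ext rfl hFr
  have hval : ((annP q r).val () (tb, ((y, e), H)) : List F) =
      fit l.tail.length 0 (annComb X (r.val () cs : List (List F) × List (List F × List F)).1) := by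
    simp only [annP, val_comp, val_pair, val_snd, val_fst, val_one, val_nil, val_cons, annGen,
      val_recD]
    rw [← hm, hgen, hres, annFin_val _ _ _ hl]
  refine ⟨?_, ?_, ?_⟩
  · rw [hval, length_fit, List.length_tail]
    omega
  · rw [hval]
    exact hB
  · have c1 := annGen_cost q m (C1 * lgc (m + m + 1) * mu (m + m + m + 1)) m tb y H
      ([1] : List F) e (fun c hc' => by
        have h3 := (hq F tb c y H htb).2.2
        rw [hc', hy, ← hm] at h3
        exact ⟨h3, hmmlen c⟩) he
    have c2 := annFin_cost (r.val () cs : List (List F) × List (List F × List F)).1 l X hl rest m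
      hPl (by omega) hlm
    have hcost : (annP q r).cost () () (tb, ((y, e), H)) ≤
        (goC (annBody q) annEnd () () m ((tb, (y, H)), (([1] : List F), e)) + 1) +
        r.cost () () cs + annFin.cost () () (r.val () cs) + 40 := by
      simp only [annP, val_comp, val_pair, val_snd, val_fst, val_one, val_nil, val_cons, annGen,
        val_recD, cost_comp, cost_pair, cost_snd, cost_fst, cost_one, cost_nil, cost_cons,
        cost_recD]
      rw [← hm, hgen]
      omega
    rw [hres] at hcost
    have hlg : lgc (m + m + 1) ≤ 2 * lgc (m + 1) := by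
      unfold lgc
      have h4 : Nat.clog 2 (m + m + 1) ≤ Nat.clog 2 (m + 1) + 1 := by
        rw [Nat.clog_le_iff_le_pow (by norm_num), pow_succ]
        have := Nat.le_pow_clog (b := 2) (by norm_num) (m + 1)
        omega
      omega
    have hmu3 : m * mu (m + m + m + 1) ≤ C3 * ww (m + 1) := by
      have h5 := hC3 m
      have h6 := hmu (m + m + m + 1) (3 * (m + 1)) (by omega)
      calc m * mu (m + m + m + 1) ≤ (m + 1) * mu (3 * (m + 1)) := Nat.mul_le_mul (by omega) h6
        _ ≤ _ := h5
    have hNN' := hNN (m + 1)
    have hlg1 : 1 ≤ lgc (m + 1) := by unfold lgc; omega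
    have hww1 : ww (m + 1) ≤ lgc (m + 1) * ww (m + 1) := Nat.le_mul_of_pos_left _ hlg1
    have k1 : m * (C1 * lgc (m + m + 1) * mu (m + m + m + 1)) ≤
        2 * C1 * C3 * (lgc (m + 1) * ww (m + 1)) := by
      calc m * (C1 * lgc (m + m + 1) * mu (m + m + m + 1))
          = C1 * (lgc (m + m + 1) * (m * mu (m + m + m + 1))) := by ring
        _ ≤ C1 * (2 * lgc (m + 1) * (C3 * ww (m + 1))) :=
            Nat.mul_le_mul le_rfl (Nat.mul_le_mul hlg hmu3)
        _ = _ := by ring
    have k2 : r.cost () () cs ≤ 2 * C2 * (lgc (m + 1) * ww (m + 1)) := by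
      calc r.cost () () cs ≤ C2 * (cs.length + m + 1) * vv (Nat.clog 2 (m + 1)) := hKc
        _ = C2 * (2 * (m + 1)) * vv (Nat.clog 2 (m + 1)) := by rw [hcslen]; ring
        _ = 2 * C2 * ww (m + 1) := by unfold ww; ring
        _ ≤ _ := Nat.mul_le_mul le_rfl hww1
    have k3 : 1 ≤ (m + 1) * (m + 1) := Nat.one_le_iff_ne_zero.mpr (by positivity)
    have k4 : m ≤ (m + 1) * (m + 1) := by nlinarith
    have k5 : (m + 1) * (m + 1) ≤ lgc (m + 1) * ww (m + 1) := hNN'.trans hww1
    have hfinal : (annP q r).cost () () (tb, ((y, e), H)) ≤
      (2 * C1 * C3 + 2 * C2 + 1000) * (lgc (m + 1) * ww (m + 1)) := by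
      have e5 : (C1 * lgc (m + m + 1) * mu (m + m + m + 1) + 40) * m =
        m * (C1 * lgc (m + m + 1) * mu (m + m + m + 1)) + 40 * m := by ring
      rw [e5] at c1
      have e6 : (2 * C1 * C3 + 2 * C2 + 1000) * (lgc (m + 1) * ww (m + 1)) =
        2 * C1 * C3 * (lgc (m + 1) * ww (m + 1)) + 2 * C2 * (lgc (m + 1) * ww (m + 1)) +
        1000 * (lgc (m + 1) * ww (m + 1)) := by ring
      rw [e6]
      omega
    rw [mul_assoc]
    exact hfinal

end Pool.Agent.H330FB.JA13
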