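import Pool.Agent.H330FB.Lib5
import Pool.Agent.H330FB.Spec1
set_option autoImplicit false
noncomputable section
namespace Pool.Agent.H330FB.JA14
open Polynomial

/-- contexts of recursive functions which are related by the map of data -/
def A14RV {F F' : Type} (φ : F → F') : (s : List (Ty × Ty)) → SV F s → SV F' s → Prop
  | [], _, _ => True
  | p :: s, v, v' => (∀ x : Ty.D F p.1, v'.1 (Ty.map φ p.1 x) = Ty.map φ p.2 (v.1 x)) ∧
      A14RV φ s v.2 v'.2

/-- contexts of running times which are equal along the map of data -/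
def A14RC {F F' : Type} (φ : F → F') : (s : List (Ty × Ty)) → SC F s → SC F' s → Prop
  | [], _, _ => True
  | p :: s, c, c' => (∀ x : Ty.D F p.1, c'.1 (Ty.map φ p.1 x) = c.1 x) ∧
      A14RC φ s c.2 c'.2

theorem A14_val {F F' : Type} [Field F] [DecidableEq F] [Field F'] [DecidableEq F']
    (φ : F →+* F') {s : List (Ty × Ty)} {a b : Ty} (p : Pr s a b) :
    ∀ (v : SV F s) (v' : SV F' s), A14RV φ s v v' → ∀ x : Ty.D F a,
      p.val v' (Ty.map φ a x) = Ty.map φ b (p.val v x) := by
  induction p with
  | id => intro v v' _ x; rfl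
  | comp p q ihp ihq =>
    intro v v' h x
    change q.val v' (p.val v' _) = _
    rw [ihp v v' h x, ihq v v' h]
    rfl
  | pair p q ihp ihq =>
    intro v v' h x
    change (p.val v' _, q.val v' _) = _
    rw [ihp v v' h x, ihq v v' h]
    rfl
  | fst => intro v v' _ x; rfl
  | snd => intro v v' _ x; rfl
  | star => intro v v' _ x; rfl
  | nil => intro v v' _ x; rfl
  | cons => intro v v' _ x; rfl
  | @caseL s a b c p q ihp ihq =>
    intro v v' h x
    obtain ⟨x1, x2⟩ := x
    cases x2 with
    | nil => exact ihp v v' h x1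
    | cons y t => exact ihq v v' h (x1, (y, t))
  | zero => intro v v' _ x; exact (map_zero φ).symm
  | one => intro v v' _ x; exact (map_one φ).symm
  | add => intro v v' _ x; exact (map_add φ _ _).symm
  | neg => intro v v' _ x; exact (map_neg φ _).symm
  | mul => intro v v' _ x; exact (map_mul φ _ _).symm
  | inv => intro v v' _ x; exact (map_inv₀ φ _).symm
  | @ifz s a b p q ihp ihq =>
    intro v v' h x
    obtain ⟨x1, x2⟩ := x
    change (if φ x2 = 0 then p.val v' (Ty.map φ a x1) else q.val v' (Ty.map φ a x1)) =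
      Ty.map φ b (if (x2 : F) = 0 then p.val v x1 else q.val v x1)
    by_cases hx : x2 = 0
    · rw [if_pos hx, if_pos (by rw [hx, map_zero]), ihp v v' h]
    · rw [if_neg hx, if_neg (by rwa [map_eq_zero φ]), ihq v v' h]
  | self => intro v v' h x; exact h.1 x
  | up p ih => intro v v' h x; exact ih v.2 v'.2 h.2 x
  | @recD s σ τ d p q ihp ihq =>
    intro v v' h x
    obtain ⟨x1, x2⟩ := x
    have key : ∀ (n : ℕ) (y : Ty.D F σ),
        (Nat.rec (motive := fun _ => Ty.D F' σ → Ty.D F' τ) (q.val v')
          (fun _ r => p.val (r, v')) n : Ty.D F' σ → Ty.D F' τ) (Ty.map φ σ y) =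
        Ty.map φ τ ((Nat.rec (motive := fun _ => Ty.D F σ → Ty.D F τ) (q.val v)
          (fun _ r => p.val (r, v)) n : Ty.D F σ → Ty.D F τ) y) := by
      intro n
      induction n with
      | zero => intro y; exact ihq v v' h y
      | succ n ih => intro y; exact ihp (_, v) (_, v') ⟨ih, h⟩ y
    have h2 := key (List.length x1) x2
    change (Nat.rec (motive := fun _ => Ty.D F' σ → Ty.D F' τ) (q.val v')
          (fun _ r => p.val (r, v')) (List.length (List.map (Ty.map φ d) x1)) :
            Ty.D F' σ → Ty.D F' τ) (Ty.map φ σ x2) = _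
    rw [List.length_map]
    exact h2

theorem A14_cost {F F' : Type} [Field F] [DecidableEq F] [Field F'] [DecidableEq F']
    (φ : F →+* F') {s : List (Ty × Ty)} {a b : Ty} (p : Pr s a b) :
    ∀ (v : SV F s) (v' : SV F' s) (c : SC F s) (c' : SC F' s), A14RV φ s v v' →
      A14RC φ s c c' → ∀ x : Ty.D F a,
      p.cost v' c' (Ty.map φ a x) = p.cost v c x := by
  induction p with
  | id => intro v v' c c' _ _ x; rfl
  | comp p q ihp ihq =>
    intro v v' c c' h hc x
    change p.cost v' c' _ + q.cost v' c' (p.val v' _) = _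
    rw [A14_val φ p v v' h x, ihp v v' c c' h hc x, ihq v v' c c' h hc]
    rfl
  | pair p q ihp ihq =>
    intro v v' c c' h hc x
    change p.cost v' c' _ + q.cost v' c' _ + 1 = _
    rw [ihp v v' c c' h hc x, ihq v v' c c' h hc]
    rfl
  | fst => intro v v' c c' _ _ x; rfl
  | snd => intro v v' c c' _ _ x; rfl
  | star => intro v v' c c' _ _ x; rfl
  | nil => intro v v' c c' _ _ x; rfl
  | cons => intro v v' c c' _ _ x; rfl
  | @caseL s a b c p q ihp ihq =>
    intro v v' c c' h hc x
    obtain ⟨x1, x2⟩ := x
    cases x2 with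
    | nil => exact congrArg (· + 1) (ihp v v' c c' h hc x1)
    | cons y t => exact congrArg (· + 1) (ihq v v' c c' h hc (x1, (y, t)))
  | zero => intro v v' c c' _ _ x; rfl
  | one => intro v v' c c' _ _ x; rfl
  | add => intro v v' c c' _ _ x; rfl
  | neg => intro v v' c c' _ _ x; rfl
  | mul => intro v v' c c' _ _ x; rfl
  | inv => intro v v' c c' _ _ x; rfl
  | @ifz s a b p q ihp ihq =>
    intro v v' c c' h hc x
    obtain ⟨x1, x2⟩ := x
    change (if φ x2 = 0 then p.cost v' c' (Ty.map φ a x1) else q.cost v' c' (Ty.map φ a x1)) + 1 =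
      (if (x2 : F) = 0 then p.cost v c x1 else q.cost v c x1) + 1
    by_cases hx : x2 = 0
    · rw [if_pos hx, if_pos (by rw [hx, map_zero]), ihp v v' c c' h hc]
    · rw [if_neg hx, if_neg (by rwa [map_eq_zero φ]), ihq v v' c c' h hc]
  | self => intro v v' c c' h hc x; exact congrArg (· + 1) (hc.1 x)
  | up p ih => intro v v' c c' h hc x; exact ih v.2 v'.2 c.2 c'.2 h.2 hc.2 x
  | @recD s σ τ d p q ihp ihq =>
    intro v v' c c' h hc x
    obtain ⟨x1, x2⟩ := x
    have key : ∀ (n : ℕ) (y : Ty.D F σ),
        (Nat.rec (motive := fun _ => Ty.D F' σ → Ty.D F' τ) (q.val v')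
          (fun _ r => p.val (r, v')) n : Ty.D F' σ → Ty.D F' τ) (Ty.map φ σ y) =
        Ty.map φ τ ((Nat.rec (motive := fun _ => Ty.D F σ → Ty.D F τ) (q.val v)
          (fun _ r => p.val (r, v)) n : Ty.D F σ → Ty.D F τ) y) := by
      intro n
      induction n with
      | zero => intro y; exact A14_val φ q v v' h y
      | succ n ih => intro y; exact A14_val φ p (_, v) (_, v') ⟨ih, h⟩ y
    have keyc : ∀ (n : ℕ) (y : Ty.D F σ),
        (Nat.rec (motive := fun _ => Ty.D F' σ → ℕ) (q.cost v' c')
          (fun n r => p.cost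
            (Nat.rec (motive := fun _ => Ty.D F' σ → Ty.D F' τ) (q.val v')
              (fun _ r' => p.val (r', v')) n, v') (r, c')) n : Ty.D F' σ → ℕ) (Ty.map φ σ y) =
        (Nat.rec (motive := fun _ => Ty.D F σ → ℕ) (q.cost v c)
          (fun n r => p.cost
            (Nat.rec (motive := fun _ => Ty.D F σ → Ty.D F τ) (q.val v)
              (fun _ r' => p.val (r', v)) n, v) (r, c)) n : Ty.D F σ → ℕ) y := by
      intro n
      induction n with
      | zero => intro y; exact ihq v v' c c' h hc y
      | succ n ih => intro y; exact ihp (_, v) (_, v') (_, c) (_, c') ⟨key n, h⟩ ⟨ih, hc⟩ y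
    have h2 := keyc (List.length x1) x2
    change (Nat.rec (motive := fun _ => Ty.D F' σ → ℕ) (q.cost v' c')
          (fun n r => p.cost
            (Nat.rec (motive := fun _ => Ty.D F' σ → Ty.D F' τ) (q.val v')
              (fun _ r' => p.val (r', v')) n, v') (r, c'))
            (List.length (List.map (Ty.map φ d) x1)) : Ty.D F' σ → ℕ) (Ty.map φ σ x2) + 1 = _
    rw [List.length_map]
    exact congrArg (· + 1) h2

/- Induction on the program; generalize to Pr s a b with contexts v, v' of recursive functions that are related by Ty.map (and equal cost functions along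
the map), induction also on the fuel length for recD. Zero tests: φ x = 0 iff x = 0. map_inv₀ for inv. -/
theorem specNat : SpecNat := by
  intro a b p F F' _ _ _ _ φ x
  exact ⟨A14_val φ p () () trivial x, A14_cost φ p () () () () trivial trivial x⟩
end Pool.Agent.H330FB.JA14
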