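import Pool.Agent.H330FB.Lib5
import Pool.Agent.H330FB.Spec1
set_option autoImplicit false
noncomputable section
namespace Pool.Agent.H330FB.JA2
open Polynomial

theorem calc_clog (N : ℕ) (hN : 1 ≤ N) : (2 : ℝ) ^ (Nat.clog 2 N) ≤ 2 * N := by
  have h : 2 ^ (Nat.clog 2 N) ≤ 2 * N := by
    rcases Nat.lt_or_ge N 2 with h | h
    · obtain rfl : N = 1 := by omega
      simp
    · have h1 := Nat.pow_pred_clog_lt_self (b := 2) (by norm_num) h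
      have h2 : 0 < Nat.clog 2 N := Nat.clog_pos (by norm_num) h
      obtain ⟨m, hm⟩ : ∃ m, Nat.clog 2 N = m + 1 := ⟨Nat.clog 2 N - 1, by omega⟩
      rw [hm] at h1 ⊢
      rw [Nat.pred_succ] at h1
      rw [pow_succ]
      omega
  exact_mod_cast h

theorem calc_rpow {r s : ℝ} (hr : 1 ≤ r) (hs : r ^ 20 ≤ s) (m : ℕ) :
    r ^ m ≤ (s ^ m) ^ (1 / 20 : ℝ) := by
  have h0 : 0 ≤ r ^ m := by positivity
  have hs0 : 0 ≤ s := le_trans (by positivity) hs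
  calc r ^ m = ((r ^ m) ^ (20 : ℝ)) ^ (1 / 20 : ℝ) := by
        rw [← Real.rpow_mul h0]
        norm_num
    _ ≤ (s ^ m) ^ (1 / 20 : ℝ) := by
        refine Real.rpow_le_rpow (by positivity) ?_ (by norm_num)
        have h1 : (r ^ m) ^ (20 : ℝ) = (r ^ 20) ^ m := by
          rw [← pow_mul, mul_comm 20 m, pow_mul]
          exact_mod_cast Real.rpow_natCast (r ^ m) 20
        rw [h1]
        exact pow_le_pow_left₀ (by positivity) hs m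

theorem calc_ww (M : ℕ) (hM : 1 ≤ M) : (ww M : ℝ) ≤ 16 * (M : ℝ) ^ (57 / 20 : ℝ) := by
  have hM1 : (1 : ℝ) ≤ M := by exact_mod_cast hM
  have h1 : ((7 ^ (Nat.clog 2 M) / 2 ^ (Nat.clog 2 M) : ℕ) : ℝ) ≤ (7 / 2 : ℝ) ^ (Nat.clog 2 M) := by
    refine Nat.cast_div_le.trans ?_
    push_cast
    rw [div_pow]
  have h2 : (7 / 2 : ℝ) ^ (Nat.clog 2 M) ≤ ((2 ^ 37 : ℝ) ^ (Nat.clog 2 M)) ^ (1 / 20 : ℝ) :=
    calc_rpow (by norm_num) (by norm_num) _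
  have h3 : ((2 ^ 37 : ℝ) ^ (Nat.clog 2 M)) ^ (1 / 20 : ℝ) ≤ (2 * M : ℝ) ^ (37 / 20 : ℝ) := by
    have h4 : ((2 ^ 37 : ℝ) ^ (Nat.clog 2 M)) = ((2 : ℝ) ^ (Nat.clog 2 M)) ^ (37 : ℝ) := by
      rw [← pow_mul, mul_comm 37, pow_mul]
      exact_mod_cast (Real.rpow_natCast ((2 : ℝ) ^ (Nat.clog 2 M)) 37).symm
    rw [h4, ← Real.rpow_mul (by positivity)]
    norm_num
    exact Real.rpow_le_rpow (by positivity) (calc_clog M hM) (by norm_num)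
  have h5 : (2 * M : ℝ) ^ (37 / 20 : ℝ) ≤ 4 * (M : ℝ) ^ (37 / 20 : ℝ) := by
    rw [Real.mul_rpow (by norm_num) (by positivity)]
    refine mul_le_mul_of_nonneg_right ?_ (by positivity)
    calc (2 : ℝ) ^ (37 / 20 : ℝ) ≤ (2 : ℝ) ^ (2 : ℝ) :=
          Real.rpow_le_rpow_of_exponent_le (by norm_num) (by norm_num)
      _ = 4 := by norm_num
  have h6 : (1 : ℝ) ≤ (M : ℝ) ^ (37 / 20 : ℝ) := Real.one_le_rpow hM1 (by norm_num)
  have h7 : (vv (Nat.clog 2 M) : ℝ) ≤ 16 * (M : ℝ) ^ (37 / 20 : ℝ) := by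
    rw [vv]
    push_cast at h1 ⊢
    linarith
  have h8 : (M : ℝ) ^ (57 / 20 : ℝ) = M * (M : ℝ) ^ (37 / 20 : ℝ) := by
    rw [show (57 / 20 : ℝ) = 1 + 37 / 20 by norm_num, Real.rpow_add (by linarith), Real.rpow_one]
  rw [ww, h8]
  push_cast
  calc (M : ℝ) * vv (Nat.clog 2 M) ≤ M * (16 * (M : ℝ) ^ (37 / 20 : ℝ)) :=
        mul_le_mul_of_nonneg_left h7 (by linarith)
    _ = _ := by ring

theorem calc_lgc (k : ℕ) : ∃ B : ℝ, 0 ≤ B ∧ ∀ N : ℕ, 1 ≤ N →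
    (lgc N : ℝ) ^ k ≤ B * (N : ℝ) ^ (1 / 20 : ℝ) := by
  obtain ⟨r, hr, hr2⟩ : ∃ r : ℝ, 1 < r ∧ r ^ 20 ≤ 2 := ⟨1 + 1 / 40, by norm_num, by norm_num⟩
  obtain ⟨B, hB⟩ := (tendsto_pow_const_div_const_pow_of_one_lt k hr).bddAbove_range
  have hB' : ∀ n : ℕ, (n : ℝ) ^ k ≤ B * r ^ n := fun n => by
    have h := hB ⟨n, rfl⟩
    simp only at h
    rwa [div_le_iff₀ (by positivity)] at h
  have hB0 : 0 ≤ B := by
    have := hB' 1
    have h2 : 0 < B * r ^ 1 := lt_of_lt_of_le (by simp) this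
    rw [pow_one] at h2
    exact (pos_of_mul_pos_left h2 (by linarith)).le
  refine ⟨B * (r * 2), by positivity, fun N hN => ?_⟩
  have h1 := hB' (lgc N)
  have h2 : r ^ (Nat.clog 2 N) ≤ 2 * (N : ℝ) ^ (1 / 20 : ℝ) := by
    refine (calc_rpow hr.le hr2 _).trans ?_
    calc ((2 : ℝ) ^ (Nat.clog 2 N)) ^ (1 / 20 : ℝ) ≤ (2 * N : ℝ) ^ (1 / 20 : ℝ) :=
          Real.rpow_le_rpow (by positivity) (calc_clog N hN) (by norm_num)
      _ = (2 : ℝ) ^ (1 / 20 : ℝ) * (N : ℝ) ^ (1 / 20 : ℝ) :=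
          Real.mul_rpow (by norm_num) (by positivity)
      _ ≤ 2 * (N : ℝ) ^ (1 / 20 : ℝ) := by
          refine mul_le_mul_of_nonneg_right ?_ (by positivity)
          calc (2 : ℝ) ^ (1 / 20 : ℝ) ≤ (2 : ℝ) ^ (1 : ℝ) :=
                Real.rpow_le_rpow_of_exponent_le (by norm_num) (by norm_num)
            _ = 2 := Real.rpow_one 2
  refine h1.trans ?_
  rw [lgc, pow_succ]
  calc B * (r ^ (Nat.clog 2 N) * r) ≤ B * (2 * (N : ℝ) ^ (1 / 20 : ℝ) * r) :=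
        mul_le_mul_of_nonneg_left (mul_le_mul_of_nonneg_right h2 (by linarith)) hB0
    _ = _ := by ring

/- ww (c N) <= C N (7/2)^(log_2 N) = C N^(log_2 7), log_2 7 < 2.808 < 2.85 (7^20 < 2^57), and lgc N ^ k <= C N^(1/20). -/
theorem specCalc : SpecCalc := by
  intro k c
  obtain ⟨B, hB0, hB⟩ := calc_lgc k
  refine ⟨c * B * (16 * (c : ℝ) ^ (57 / 20 : ℝ)), fun N hN => ?_⟩
  have hN1 : (1 : ℝ) ≤ N := by exact_mod_cast hN
  rcases Nat.eq_zero_or_pos c with rfl | hc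
  · simp
  have h1 := hB N hN
  have h2 := calc_ww (c * N) (Nat.mul_pos hc hN)
  rw [Nat.cast_mul, Real.mul_rpow (by positivity) (by positivity)] at h2
  have h3 : (N : ℝ) ^ (29 / 10 : ℝ) = (N : ℝ) ^ (1 / 20 : ℝ) * (N : ℝ) ^ (57 / 20 : ℝ) := by
    rw [← Real.rpow_add (by linarith)]
    norm_num
  rw [h3]
  push_cast
  calc (c : ℝ) * (lgc N : ℝ) ^ k * (ww (c * N) : ℝ) ≤
        (c : ℝ) * (B * (N : ℝ) ^ (1 / 20 : ℝ)) *
          (16 * ((c : ℝ) ^ (57 / 20 : ℝ) * (N : ℝ) ^ (57 / 20 : ℝ))) :=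
        mul_le_mul (mul_le_mul_of_nonneg_left h1 (by positivity)) h2 (by positivity)
          (by positivity)
    _ = _ := by ring
end Pool.Agent.H330FB.JA2
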