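import Pool.Agent.H330FB.Lib5
import Pool.Agent.H330FB.Spec1
set_option autoImplicit false
noncomputable section
namespace Pool.Agent.H330FB.JA3
open Polynomial

namespace TbAux

section
variable {F : Type} [Field F] [DecidableEq F]
variable {s : List (Ty × Ty)} {a b c d e g σ τ : Ty}

theorem cost_foldP_idx (f : Pr s (.prod c (.prod b a)) b) (v : SV F s) (k : SC F s)
    (x : Ty.D F (.prod c (.prod b (.list a)))) (B : ℕ) (I : ℕ → Ty.D F b → Prop)
    (h0 : I (List.length x.2.2) x.2.1)
    (hI : ∀ n y z, I (n + 1) y → z ∈ x.2.2 → I n (f.val v (x.1, (y, z))))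
    (hB : ∀ n y z, I (n + 1) y → z ∈ x.2.2 → f.cost v k (x.1, (y, z)) ≤ B) :
    (foldP f).cost v k x ≤ (B + 27) * List.length x.2.2 + 14 := by
  obtain ⟨x, y, l⟩ := x
  simp only [foldP, cost_comp, cost_pair, cost_snd, cost_id, cost_recD, val_pair, val_snd,
    val_id, val_comp] at h0 hI hB ⊢
  have : ∀ (l : List (Ty.D F a)) (y : Ty.D F b), I l.length y →
      (∀ n y z, I (n + 1) y → z ∈ l → I n (f.val v (x, (y, z)))) →
      (∀ n y z, I (n + 1) y → z ∈ l → f.cost v k (x, (y, z)) ≤ B) →
      goC (foldB f) (.comp .snd .fst) v k l.length (x, (y, l)) ≤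
      (B + 27) * List.length l + 7 := by
    intro l
    induction l with
    | nil => intro y _ _ _; simp [goC]
    | cons h t ih =>
      intro y hy h1 h2
      have e1 := ih (f.val v (x, (y, h))) (h1 _ y h hy (by simp))
        (fun n y z hy hz => h1 n y z hy (by simp [hz]))
        (fun n y z hy hz => h2 n y z hy (by simp [hz]))
      have e2 := h2 _ y h hy (by simp)
      simp [goC, foldB] at e1 ⊢
      nlinarith
  have := this l y h0 hI hB
  omega

/-- row of powers, input `((), x)` -/
def rowE : Pr s (.prod .unit .fld) Po :=
  ap2 .cons .one (ap2 .cons .snd (ap2 .cons (ap2 .mul .snd .snd)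
    (ap2 .cons (ap2 .mul .snd (ap2 .mul .snd .snd)) .nil)))

/-- input `((s, c), (y, z))`, output `(y - s z) c` -/
def linP : Pr s (.prod (.prod .fld .fld) (.prod .fld .fld)) .fld :=
  ap2 .mul (ap2 .add (.comp .snd .fst)
    (.comp (ap2 .mul (.comp .fst .fst) (.comp .snd .snd)) .neg)) (.comp .fst .snd)

/-- input `(x, (acc, t))` : one more factor of the Lagrange polynomial -/
def stepP : Pr s (.prod .fld (.prod Po .fld)) Po :=
  onZ (ap2 .add .fst (.comp (.comp .snd .snd) .neg)) (.comp .snd .fst)
    (ap3 (zipP linP)
      (.pair (.comp .snd .snd) (.comp (ap2 .add .fst (.comp (.comp .snd .snd) .neg)) .inv))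
      (ap2 .cons .zero (.comp .snd .fst))
      (ap2 appP (.comp .snd .fst) (ap2 .cons .zero .nil)))

/-- one more factor of the Lagrange polynomial -/
def stepI (x : F) (acc : List F) (t : F) : List F :=
  if x + -t = 0 then acc else
    List.zipWith (fun y z => (y + -(t * z)) * (x + -t)⁻¹) (0 :: acc) (acc ++ [0])

@[simp] theorem val_stepP (v : SV F s) (x : Ty.D F (.prod .fld (.prod Po .fld))) :
    (stepP : Pr s (.prod .fld (.prod Po .fld)) Po).val v x =
      (stepI (x.1 : F) (x.2.1 : List F) (x.2.2 : F) : List F) := by
  simp [stepP, stepI, linP]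

theorem length_stepI (x : F) (acc : List F) (t : F) :
    (stepI x acc t).length = if x + -t = 0 then acc.length else acc.length + 1 := by
  unfold stepI
  split_ifs <;> simp

theorem cost_stepP (v : SV F s) (k : SC F s) (x : F) (acc : List F) (t : F)
    (h : acc.length ≤ 8) :
    (stepP : Pr s (.prod .fld (.prod Po .fld)) Po).cost v k (x, (acc, t)) ≤ 2000 := by
  have h1 := cost_appP (s := s) (a := .fld) v k (acc, ([(0 : F)] : List F))
  have h2 := cost_zipP_le (s := s) linP v k
    (((t, (x + -t)⁻¹) : F × F), (((0 : F) :: acc : List F), (acc ++ [(0 : F)] : List F))) 40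
    (fun _ _ _ _ => by simp [linP])
  simp [stepP] at h1 h2 ⊢
  split_ifs
  · omega
  · nlinarith

/-- the coefficients of a Lagrange polynomial, input `(l, x)` -/
def rowI : Pr s (.prod Po .fld) Po :=
  ap3 (foldP stepP) .snd (ap2 .cons .one .nil) .fst

@[simp] theorem val_rowI (v : SV F s) (x : Ty.D F (.prod Po .fld)) :
    (rowI : Pr s (.prod Po .fld) Po).val v x =
      (List.foldl (stepI (x.2 : F)) [1] (x.1 : List F) : List F) := by
  simp [rowI]

theorem cost_rowI (v : SV F s) (k : SC F s) (l : List F) (x : F) (h : l.length = 7) :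
    (rowI : Pr s (.prod Po .fld) Po).cost v k (l, x) ≤ 20000 := by
  have h1 := cost_foldP_idx (s := s) stepP v k ((x, (([1] : List F), l)) : F × (List F × List F))
    2000 (fun n acc => List.length (acc : List F) + n ≤ 8) (by simp [h])
    (fun n y z hy _ => by
      have h2 := length_stepI x (y : List F) z
      rw [val_stepP]
      simp only [h2]
      split_ifs <;> omega)
    (fun n y z hy _ => cost_stepP v k x y z (by omega))
  simp [rowI] at h1 ⊢
  rw [h] at h1
  omega

/-- the program -/
def tbP : Pr s Po TB :=
  .pair (ap2 (mapP (c := .unit) rowE) .star .id)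
    (ap2 transpP .id (ap2 (mapP rowI) .id .id))

theorem val_tbP (v : SV F s) (l : List F) :
    (tbP : Pr s Po TB).val v l = (l.map (fun x => [1, x, x * x, x * (x * x)]),
      transp l.length (l.map (fun x => l.foldl (stepI x) [1]))) := by
  simp [tbP, rowE]

theorem length_foldI (x : F) (l : List F) (acc : List F) :
    (l.foldl (stepI x) acc).length = acc.length + (l.filter (fun t => ¬ (t = x))).length := by
  induction l generalizing acc with
  | nil => simp
  | cons t l ih =>
    rw [List.foldl_cons, ih, length_stepI, List.filter_cons]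
    by_cases h : t = x
    · subst h
      simp
    · have h1 : x + -t ≠ 0 := fun h2 => h (by
        rw [← sub_eq_add_neg, sub_eq_zero] at h2; exact h2.symm)
      simp [h, h1]
      omega

theorem length_filter_ne (l : List F) (hn : l.Nodup) (x : F) (hx : x ∈ l) :
    (l.filter (fun t => ¬ (t = x))).length + 1 = l.length := by
  have h1 : l.filter (fun t => ¬ (t = x)) = l.erase x := by
    rw [hn.erase_eq_filter]
    congr 1
    ext t
    by_cases ht : t = x <;> simp [ht]
  rw [h1, List.length_erase_of_mem hx]
  have := List.length_pos_of_mem hx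
  omega

theorem length_row (l : List F) (hn : l.Nodup) (x : F) (hx : x ∈ l) :
    (l.foldl (stepI x) [1]).length = l.length := by
  have e1 := length_foldI x l [1]
  have e2 := length_filter_ne l hn x hx
  simp only [List.length_cons, List.length_nil] at e1
  omega

theorem cost_tbP (v : SV F s) (k : SC F s) (l : List F) (h : l.length = 7) (hn : l.Nodup) :
    (tbP : Pr s Po TB).cost v k l ≤ 200000 := by
  have h1 := cost_mapP_le (s := s) (c := .unit) rowE v k (((), l) : Unit × List F) 50
    (fun _ _ => by simp [rowE])
  have h2 := cost_mapP_le (s := s) rowI v k ((l, l) : List F × List F) 20000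
    (fun y _ => cost_rowI v k l y h)
  have h3 := cost_transpP (s := s) (a := .fld) (b := .fld) v k
    (l, (mapP rowI).val v ((l, l) : List F × List F))
    (fun r hr => by
      rw [val_mapP] at hr
      simp only [val_rowI, List.mem_map] at hr
      obtain ⟨x, hx, rfl⟩ := hr
      exact length_row l hn x hx)
  simp [tbP] at h1 h2 h3 ⊢
  rw [h] at h1 h2 h3
  omega

theorem pol_append_zero (l : List F) : pol (l ++ [0]) = pol l := by
  induction l with
  | nil => simp [pol]
  | cons x l ih => simp [pol, ih]

theorem pol_zip (t q : F) (u w : List F) (h : u.length = w.length) :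
    pol (List.zipWith (fun y z => (y + -(t * z)) * q) u w) = C q * (pol u - C t * pol w) := by
  induction u generalizing w with
  | nil =>
    cases w with
    | nil => simp [pol]
    | cons _ _ => simp at h
  | cons x u ih =>
    cases w with
    | nil => simp at h
    | cons y w =>
      simp only [List.zipWith_cons_cons, pol]
      rw [ih w (by simpa using h)]
      simp only [map_mul, map_add, map_neg]
      ring

theorem pol_stepI (x : F) (acc : List F) (t : F) :
    pol (stepI x acc t) = (if t = x then 1 else Lagrange.basisDivisor x t) * pol acc := by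
  unfold stepI
  by_cases h : t = x
  · subst h
    simp
  · have h1 : x + -t ≠ 0 := fun h2 => h (by
      rw [← sub_eq_add_neg, sub_eq_zero] at h2; exact h2.symm)
    rw [if_neg h1, if_neg h, pol_zip _ _ _ _ (by simp), pol_append_zero, pol,
      Lagrange.basisDivisor, sub_eq_add_neg x t]
    simp only [map_zero]
    ring

theorem pol_foldI (x : F) (l : List F) (acc : List F) :
    pol (l.foldl (stepI x) acc) =
      (l.map (fun t => if t = x then 1 else Lagrange.basisDivisor x t)).prod * pol acc := by
  induction l generalizing acc with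
  | nil => simp
  | cons t l ih =>
    rw [List.foldl_cons, ih, pol_stepI, List.map_cons, List.prod_cons]
    ring

theorem coeff_pol (l : List F) (j : ℕ) : (pol l).coeff j = l.getD j 0 := by
  induction l generalizing j with
  | nil => simp [pol]
  | cons x l ih =>
    cases j with
    | zero => simp [pol]
    | succ j => simp [pol, ih]

theorem transp_eq (n : ℕ) (A : List (List F)) (h : ∀ r ∈ A, r.length = n) :
    transp n A = (List.range n).map (fun j => A.map (fun r => r.getD j 0)) := by
  induction A with
  | nil =>
    simp only [transp, List.foldr_nil, List.map_nil]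
    rw [List.map_const', List.length_range]
  | cons r A ih =>
    have h1 := ih (fun r hr => h r (by simp [hr]))
    have h2 := h r (by simp)
    have h3 : transp n (r :: A) = List.zipWith (fun x l => x :: l) r (transp n A) := rfl
    rw [h3, h1]
    apply List.ext_getElem
    · simp [h2]
    · intro j hj1 hj2
      simp only [List.length_zipWith, List.length_map, List.length_range] at hj1
      simp [List.getElem_zipWith, List.getD_eq_getElem?_getD,
        List.getElem?_eq_getElem (show j < r.length by omega)]

theorem lagr (l : List F) (h : l.length = 7) (hn : l.Nodup) (m j : ℕ) (hm : m < 7) :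
    ∑ r ∈ Finset.range 7, (pol (l.foldl (stepI (l.getD r 0)) [1])).coeff j * (l.getD r 0) ^ m
      = if m = j then 1 else 0 := by
  have hinj : Set.InjOn (fun r => l.getD r 0) (Finset.range 7 : Finset ℕ) := by
    intro r hr r' hr' he
    simp only [Finset.coe_range, Set.mem_Iio] at hr hr'
    simp only at he
    rw [List.getD_eq_getElem _ _ (by omega), List.getD_eq_getElem _ _ (by omega)] at he
    exact (List.Nodup.getElem_inj_iff hn).1 he
  have hX : (X ^ m : F[X]) = Lagrange.interpolate (Finset.range 7) (fun r => l.getD r 0)
      (fun i => (X ^ m : F[X]).eval (l.getD i 0)) := by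
    apply Lagrange.eq_interpolate hinj
    rw [degree_X_pow, Finset.card_range]
    exact_mod_cast hm
  have hc := congrArg (fun p => coeff p j) hX
  simp only [Lagrange.interpolate_apply, finsetSum_coeff, coeff_C_mul, eval_pow, eval_X,
    coeff_X_pow] at hc
  rw [show (if m = j then (1 : F) else 0) = if j = m then 1 else 0 by simp only [eq_comm], hc]
  refine Finset.sum_congr rfl fun r hr => ?_
  rw [Finset.mem_range] at hr
  rw [mul_comm]
  congr 2
  rw [pol_foldI, Lagrange.basis]
  simp only [pol, map_one, mul_zero, add_zero, mul_one]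
  have hl : l = (List.range 7).map (fun r => l.getD r 0) := by
    apply List.ext_getElem
    · simp [h]
    · intro i h1 h2
      simp [List.getElem?_eq_getElem h1]
  conv_lhs => rw [hl]
  rw [List.map_map]
  have h5 : (List.map ((fun t => if t = l.getD r 0 then 1 else Lagrange.basisDivisor (l.getD r 0) t)
      ∘ fun r => l.getD r 0) (List.range 7)).prod
      = ∏ i ∈ Finset.range 7, if l.getD i 0 = l.getD r 0 then 1 else
        Lagrange.basisDivisor (l.getD r 0) (l.getD i 0) := by
    rw [Finset.prod_range]
    rw [← List.prod_ofFn]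
    congr 1
  have hlr : (List.map (fun r => l.getD r 0) (List.range 7)).getD r 0 = l.getD r 0 := by
    rw [← hl]
  rw [hlr, h5, ← Finset.mul_prod_erase _ _ (Finset.mem_range.2 hr), if_pos rfl, one_mul]
  refine Finset.prod_congr rfl fun i hi => ?_
  rw [Finset.mem_erase] at hi
  rw [if_neg]
  intro he
  exact hi.1 (hinj (by simpa using hi.2) (by simpa using hr) he)

end

end TbAux

open TbAux in
theorem specTb : SpecTb := by
  refine ⟨tbP, 200000, ?_⟩
  intro F _ _ l h hn
  refine ⟨?_, cost_tbP (s := []) () () l h hn⟩
  rw [val_tbP]
  have hrow : ∀ r ∈ l.map (fun x => l.foldl (stepI x) [1]), r.length = l.length := by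
    intro r hr
    simp only [List.mem_map] at hr
    obtain ⟨x, hx, rfl⟩ := hr
    exact length_row l hn x hx
  rw [transp_eq _ _ hrow]
  refine ⟨by simp [h], ?_, by simp [h], ?_, ?_⟩
  · intro r hr
    simp only [List.mem_map] at hr
    obtain ⟨x, hx, rfl⟩ := hr
    rfl
  · intro r hr
    simp only [List.mem_map] at hr
    obtain ⟨x, hx, rfl⟩ := hr
    simp [h]
  · intro i hi i' hi' j hj
    rw [← lagr l h hn (i + i') j (by omega)]
    refine Finset.sum_congr rfl fun r hr => ?_
    rw [Finset.mem_range] at hr
    have e1 : ((l.map (fun x => [1, x, x * x, x * (x * x)])).getD r []) =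
        (fun x => [1, x, x * x, x * (x * x)]) (l.getD r 0) := by
      rw [List.getD_eq_getElem _ _ (by simp [h, hr]), List.getD_eq_getElem _ _ (by omega)]
      simp
    have e2 : ∀ (x : F) (i : ℕ), i < 4 → ([1, x, x * x, x * (x * x)] : List F).getD i 0 = x ^ i := by
      intro x i hi
      interval_cases i <;> simp <;> ring
    have e3 : (((List.range l.length).map (fun j => List.map (fun r => r.getD j 0)
        (l.map (fun x => l.foldl (stepI x) [1])))).getD j []).getD r 0
        = (pol (l.foldl (stepI (l.getD r 0)) [1])).coeff j := by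
      have e4 : ((List.range l.length).map (fun j => List.map (fun r => r.getD j 0)
        (l.map (fun x => l.foldl (stepI x) [1])))).getD j [] = List.map (fun r => r.getD j 0)
        (l.map (fun x => l.foldl (stepI x) [1])) := by
        rw [List.getD_eq_getElem _ _ (by simp [h, hj])]
        simp
      rw [e4, List.map_map, List.getD_eq_getElem _ _ (by simp [h, hr]), List.getElem_map,
        coeff_pol, List.getD_eq_getElem l _ (by omega)]
      rfl
    simp only []
    rw [e1, e3]
    simp only []
    rw [e2 _ _ hi, e2 _ _ hi', pow_add]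
    ring

end Pool.Agent.H330FB.JA3
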