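import Pool.Agent.H330FB.Lib5
import Pool.Agent.H330FB.Spec1
set_option autoImplicit false

/-!
# Toom-Cook multiplication (job FB A4)
-/

noncomputable section
namespace Pool.Agent.H330FB.JA4
open Polynomial

/-! ### polynomials of lists -/

section polys
variable {R : Type} [CommRing R]

theorem tc_pol_zp (l m : List R) : pol (zp (fun x y => x + y) l m) = pol l + pol m := by
  induction l generalizing m with
  | nil => simp [zp, pol]
  | cons x l ih =>
    cases m with
    | nil => simp [zp, pol]
    | cons y m =>
      simp only [zp, pol, ih, map_add]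
      ring

theorem tc_length_zp {α : Type} (f : α → α → α) (l m : List α) :
    (zp f l m).length = max l.length m.length := by
  induction l generalizing m with
  | nil => simp [zp]
  | cons x l ih =>
    cases m with
    | nil => simp [zp]
    | cons y m => simp only [zp, List.length_cons, ih]; omega

theorem tc_pol_map (c : R) (l : List R) : pol (l.map (fun y => c * y)) = C c * pol l := by
  induction l with
  | nil => simp [pol]
  | cons x l ih => simp only [List.map_cons, pol, ih, C_mul]; ring

theorem tc_pol_eo (l : List R) :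
    pol l = expand R 2 (pol (eo l).1) + X * expand R 2 (pol (eo l).2) := by
  induction l with
  | nil => simp [eo, pol]
  | cons x l ih =>
    simp only [eo, pol, map_add, map_mul, expand_C, expand_X]
    rw [ih]
    ring

theorem tc_pol_il (l m : List R) :
    pol (il 0 l m) = expand R 2 (pol l) + X * expand R 2 (pol m) := by
  have key : ∀ (n : ℕ) (l m : List R), l.length + m.length ≤ n →
      pol (il 0 l m) = expand R 2 (pol l) + X * expand R 2 (pol m) := by
    intro n
    induction n with
    | zero =>
      intro l m h
      have h1 : l = [] := List.length_eq_zero_iff.mp (by omega)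
      have h2 : m = [] := List.length_eq_zero_iff.mp (by omega)
      subst h1 h2
      simp [il, pol]
    | succ n ih =>
      intro l m h
      cases l with
      | nil =>
        cases m with
        | nil => simp [il, pol]
        | cons y m =>
          have := ih [] m (by simp at h ⊢; omega)
          simp only [il, pol, this, map_add, map_mul, expand_C, expand_X, map_zero]
          ring
      | cons x l =>
        cases m with
        | nil =>
          have := ih l [] (by simp at h ⊢; omega)
          simp only [il, pol, this, map_add, map_mul, expand_C, expand_X, map_zero]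
          ring
        | cons y m =>
          have := ih l m (by simp at h ⊢; omega)
          simp only [il, pol, this, map_add, map_mul, expand_C, expand_X]
          ring
  exact key _ l m le_rfl

theorem tc_length_il {α : Type} (z : α) (l m : List α) :
    (il z l m).length = 2 * max l.length m.length := by
  have key : ∀ (n : ℕ) (l m : List α), l.length + m.length ≤ n →
      (il z l m).length = 2 * max l.length m.length := by
    intro n
    induction n with
    | zero =>
      intro l m h
      have h1 : l = [] := List.length_eq_zero_iff.mp (by omega)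
      have h2 : m = [] := List.length_eq_zero_iff.mp (by omega)
      subst h1 h2
      simp [il]
    | succ n ih =>
      intro l m h
      cases l with
      | nil =>
        cases m with
        | nil => simp [il]
        | cons y m =>
          have := ih [] m (by simp at h ⊢; omega)
          simp only [il, List.length_cons, this, List.length_nil]
          omega
      | cons x l =>
        cases m with
        | nil =>
          have := ih l [] (by simp at h ⊢; omega)
          simp only [il, List.length_cons, this, List.length_nil]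
          omega
        | cons y m =>
          have := ih l m (by simp at h ⊢; omega)
          simp only [il, List.length_cons, this]
          omega
  exact key _ l m le_rfl

theorem tc_coeff_pol (l : List R) (i : ℕ) : (pol l).coeff i = l.getD i 0 := by
  induction l generalizing i with
  | nil => simp [pol]
  | cons x l ih =>
    cases i with
    | zero => simp [pol]
    | succ i => simp [pol, ih]

theorem tc_getD_fit {α : Type} (n : ℕ) (z : α) (l : List α) (i : ℕ) :
    (fit n z l).getD i z = if i < n then l.getD i z else z := by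
  induction n generalizing l i with
  | zero => simp [fit]
  | succ n ih =>
    cases l with
    | nil =>
      cases i with
      | zero => simp [fit]
      | succ i =>
        simp only [fit, List.getD_cons_succ, ih]
        simp
    | cons x l =>
      cases i with
      | zero => simp [fit]
      | succ i =>
        simp only [fit, List.getD_cons_succ, ih]
        simp

theorem tc_pol_fit (n : ℕ) (l : List R) (h : ∀ i, n ≤ i → (pol l).coeff i = 0) :
    pol (fit n 0 l) = pol l := by
  ext i
  rw [tc_coeff_pol, tc_getD_fit]
  split_ifs with h1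
  · rw [tc_coeff_pol]
  · rw [h i (not_lt.1 h1)]

theorem tc_coeff_mul (a b : List R) (i : ℕ) (hi : a.length + b.length ≤ i) :
    (pol a * pol b).coeff i = 0 := by
  rw [coeff_mul]
  refine Finset.sum_eq_zero fun x hx => ?_
  rw [Finset.HasAntidiagonal.mem_antidiagonal] at hx
  rw [tc_coeff_pol, tc_coeff_pol]
  rcases Nat.lt_or_ge x.1 a.length with h | h
  · rw [List.getD_eq_default b 0 (by omega), mul_zero]
  · rw [List.getD_eq_default a 0 h, zero_mul]

/-! ### residue classes modulo four -/

/-- the four residue classes -/
def tcSp {α : Type} (a : List α) : List (List α) :=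
  [(eo (eo a).1).1, (eo (eo a).2).1, (eo (eo a).1).2, (eo (eo a).2).2]

theorem tc_pol_sp (a : List R) :
    pol a = ∑ i ∈ Finset.range 4, X ^ i * expand R 4 (pol ((tcSp a).getD i [])) := by
  have h4 : ∀ p : R[X], expand R 2 (expand R 2 p) = expand R 4 p := by
    intro p; rw [expand_expand]
  rw [tc_pol_eo a, tc_pol_eo (eo a).1, tc_pol_eo (eo a).2]
  simp only [Finset.sum_range_succ, Finset.sum_range_zero, tcSp, map_add, map_mul, h4, expand_X,
    List.getD_cons_zero, List.getD_cons_succ]
  ring

theorem tc_length_sp {α : Type} (a : List α) (n : ℕ) (h : a.length ≤ 4 * n) :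
    ∀ l ∈ tcSp a, l.length ≤ n := by
  intro l hl
  have e0 := length_eo a
  have e1 := length_eo (eo a).1
  have e2 := length_eo (eo a).2
  simp only [tcSp, List.mem_cons, List.not_mem_nil, or_false] at hl
  rcases hl with rfl | rfl | rfl | rfl <;> omega

/-! ### linear combinations -/

/-- linear combination of lists -/
def tcLc (cs : List R) (ls : List (List R)) : List R :=
  List.foldl (fun y z => zp (fun x y => x + y) y z) []
    (List.zipWith (fun c l => l.map (fun y => c * y)) cs ls)

theorem tc_pol_fold (ls : List (List R)) (y : List R) :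
    pol (List.foldl (fun y z => zp (fun x y => x + y) y z) y ls) =
      pol y + (ls.map pol).sum := by
  induction ls generalizing y with
  | nil => simp
  | cons l ls ih => simp only [List.foldl_cons, ih, tc_pol_zp, List.map_cons, List.sum_cons]; ring

theorem tc_sum_zip (cs : List R) (ls : List (List R)) (n : ℕ) (hn : cs.length ≤ n) :
    ((List.zipWith (fun c l => l.map (fun y => c * y)) cs ls).map pol).sum =
      ∑ i ∈ Finset.range n, C (cs.getD i 0) * pol (ls.getD i []) := by
  induction cs generalizing ls n with
  | nil => simp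
  | cons c cs ih =>
    cases n with
    | zero => simp at hn
    | succ n =>
      cases ls with
      | nil => simp [pol]
      | cons l ls =>
        rw [Finset.sum_range_succ']
        simp only [List.zipWith_cons_cons, List.map_cons, List.sum_cons, List.getD_cons_succ,
          List.getD_cons_zero, tc_pol_map]
        rw [ih ls n (by simpa using hn)]
        ring

theorem tc_pol_lc (cs : List R) (ls : List (List R)) (n : ℕ) (hn : cs.length ≤ n) :
    pol (tcLc cs ls) = ∑ i ∈ Finset.range n, C (cs.getD i 0) * pol (ls.getD i []) := by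
  rw [tcLc, tc_pol_fold, tc_sum_zip cs ls n hn]
  simp [pol]

theorem tc_length_fold (ls : List (List R)) (y : List R) (B : ℕ) (hy : y.length ≤ B)
    (h : ∀ l ∈ ls, l.length ≤ B) :
    (List.foldl (fun y z => zp (fun x y => x + y) y z) y ls).length ≤ B := by
  induction ls generalizing y with
  | nil => exact hy
  | cons l ls ih =>
    simp only [List.foldl_cons]
    refine ih _ ?_ (fun l hl => h l (by simp [hl]))
    rw [tc_length_zp]
    have := h l (by simp)
    omega

theorem tc_mem_zip (cs : List R) (ls : List (List R)) (B : ℕ) (h : ∀ l ∈ ls, l.length ≤ B) :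
    ∀ l ∈ List.zipWith (fun c l => l.map (fun y => c * y)) cs ls, l.length ≤ B := by
  induction cs generalizing ls with
  | nil => simp
  | cons c cs ih =>
    cases ls with
    | nil => simp
    | cons l ls =>
      intro m hm
      simp only [List.zipWith_cons_cons, List.mem_cons] at hm
      rcases hm with rfl | hm
      · rw [List.length_map]; exact h l (by simp)
      · exact ih ls (fun l hl => h l (by simp [hl])) m hm

theorem tc_length_lc (cs : List R) (ls : List (List R)) (B : ℕ) (h : ∀ l ∈ ls, l.length ≤ B) :
    (tcLc cs ls).length ≤ B :=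
  tc_length_fold _ _ B (by simp) (tc_mem_zip cs ls B h)

/-! ### assembly -/

/-- the list of `p(X^4)` -/
def tcEx (c : List R) : List R := il 0 (il 0 c []) []

theorem tc_pol_ex (c : List R) : pol (tcEx c) = expand R 4 (pol c) := by
  rw [tcEx, tc_pol_il, tc_pol_il, map_add, expand_expand]
  simp [pol]

theorem tc_length_ex (c : List R) : (tcEx c).length = 4 * c.length := by
  rw [tcEx, tc_length_il, tc_length_il]
  simp only [List.length_nil]
  omega

/-- `∑ X^j c_j(X^4)` for the reversed list -/
def tcAsm (cs : List (List R)) : List R :=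
  List.foldl (fun y c => zp (fun x y => x + y) (tcEx c) (0 :: y)) [] cs.reverse

theorem tc_asm_cons (c : List R) (cs : List (List R)) :
    tcAsm (c :: cs) = zp (fun x y => x + y) (tcEx c) (0 :: tcAsm cs) := by
  rw [tcAsm, List.reverse_cons, List.foldl_append]
  rfl

theorem tc_pol_asm (cs : List (List R)) (n : ℕ) (hn : cs.length ≤ n) :
    pol (tcAsm cs) = ∑ j ∈ Finset.range n, X ^ j * expand R 4 (pol (cs.getD j [])) := by
  induction cs generalizing n with
  | nil => simp [tcAsm, pol]
  | cons c cs ih =>
    cases n with
    | zero => simp at hn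
    | succ n =>
      rw [tc_asm_cons, tc_pol_zp, Finset.sum_range_succ', tc_pol_ex]
      simp only [pol, List.getD_cons_succ, List.getD_cons_zero, map_zero, zero_add]
      rw [ih n (by simpa using hn), Finset.mul_sum]
      simp only [pow_zero, one_mul, pow_succ]
      rw [add_comm]
      congr 1
      refine Finset.sum_congr rfl fun j _ => ?_
      ring

theorem tc_length_asm (cs : List (List R)) (B : ℕ) (h : ∀ l ∈ cs, l.length ≤ B) :
    (tcAsm cs).length ≤ 4 * B + cs.length := by
  induction cs with
  | nil => simp [tcAsm]
  | cons c cs ih =>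
    rw [tc_asm_cons, tc_length_zp, tc_length_ex]
    have h1 := ih (fun l hl => h l (by simp [hl]))
    have h2 := h c (by simp)
    simp only [List.length_cons]
    omega

/-- one level of the recursion -/
def tcStep (rec : List R → List R → List R) (tb : List (List R) × List (List R))
    (a b : List R) : List R :=
  fit (a ++ b).length 0 (tcAsm (tb.2.map (fun row => tcLc row
    (tb.1.map (fun row => rec (tcLc row (tcSp a)) (tcLc row (tcSp b)))))))

theorem tc_getD_map {α β : Type} (f : α → β) (l : List α) (i : ℕ) (x : α) (y : β)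
    (h : i < l.length) : (l.map f).getD i y = f (l.getD i x) := by
  rw [List.getD_eq_getElem _ _ (by simpa using h), List.getD_eq_getElem _ _ h, List.getElem_map]

end polys

theorem tc_pol_step {F : Type} [Field F] (rec : List F → List F → List F)
    (tb : List (List F) × List (List F)) (htb : IsTb tb) (a b : List F) (n : ℕ)
    (ha : a.length ≤ 4 * n) (hb : b.length ≤ 4 * n)
    (hrec : ∀ x y : List F, x.length ≤ n → y.length ≤ n → pol (rec x y) = pol x * pol y) :
    pol (tcStep rec tb a b) = pol a * pol b := by
  obtain ⟨h1, h2, h3, h4, h5⟩ := htb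
  set A : ℕ → F[X] := fun i => pol ((tcSp a).getD i []) with hA
  set B : ℕ → F[X] := fun i => pol ((tcSp b).getD i []) with hB
  set ws : List (List F) :=
    tb.1.map (fun row => rec (tcLc row (tcSp a)) (tcLc row (tcSp b))) with hws
  -- the products
  have hw : ∀ r < 7, pol (ws.getD r []) =
      (∑ i ∈ Finset.range 4, C ((tb.1.getD r []).getD i 0) * A i) *
        ∑ i ∈ Finset.range 4, C ((tb.1.getD r []).getD i 0) * B i := by
    intro r hr
    have hr1 : r < tb.1.length := by omega
    have hmem : tb.1.getD r [] ∈ tb.1 := by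
      rw [List.getD_eq_getElem _ _ hr1]; exact List.getElem_mem hr1
    rw [hws, tc_getD_map _ _ r [] [] hr1,
      hrec _ _ (tc_length_lc _ _ n (tc_length_sp a n ha)) (tc_length_lc _ _ n (tc_length_sp b n hb)),
      tc_pol_lc _ _ 4 (h2 _ hmem).le, tc_pol_lc _ _ 4 (h2 _ hmem).le]
  -- the coefficients
  set cs : List (List F) := tb.2.map (fun row => tcLc row ws) with hcs
  have hc : ∀ j < 7, pol (cs.getD j []) =
      ∑ i ∈ Finset.range 4, ∑ i' ∈ Finset.range 4, (if i + i' = j then A i * B i' else 0) := by
    intro j hj
    have hj1 : j < tb.2.length := by omega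
    have hmem : tb.2.getD j [] ∈ tb.2 := by
      rw [List.getD_eq_getElem _ _ hj1]; exact List.getElem_mem hj1
    rw [hcs, tc_getD_map _ _ j [] [] hj1, tc_pol_lc _ _ 7 (h4 _ hmem).le]
    have e1 : ∀ r ∈ Finset.range 7, C ((tb.2.getD j []).getD r 0) * pol (ws.getD r []) =
        ∑ i ∈ Finset.range 4, ∑ i' ∈ Finset.range 4,
          C ((tb.2.getD j []).getD r 0 * (tb.1.getD r []).getD i 0 *
            (tb.1.getD r []).getD i' 0) * (A i * B i') := by
      intro r hr
      rw [hw r (Finset.mem_range.1 hr), Finset.sum_mul_sum, Finset.mul_sum]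
      refine Finset.sum_congr rfl fun i _ => ?_
      rw [Finset.mul_sum]
      refine Finset.sum_congr rfl fun i' _ => ?_
      rw [C_mul, C_mul]
      ring
    rw [Finset.sum_congr rfl e1, Finset.sum_comm]
    refine Finset.sum_congr rfl fun i hi => ?_
    rw [Finset.sum_comm]
    refine Finset.sum_congr rfl fun i' hi' => ?_
    rw [← Finset.sum_mul, ← map_sum, h5 i (Finset.mem_range.1 hi) i' (Finset.mem_range.1 hi') j hj]
    split_ifs
    · rw [C_1, one_mul]
    · rw [C_0, zero_mul]
  have hasm : pol (tcAsm cs) = pol a * pol b := by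
    rw [tc_pol_asm cs 7 (by rw [hcs, List.length_map, h3]), tc_pol_sp a, tc_pol_sp b]
    have e2 : ∀ j ∈ Finset.range 7, X ^ j * expand F 4 (pol (cs.getD j [])) =
        ∑ i ∈ Finset.range 4, ∑ i' ∈ Finset.range 4,
          (if i + i' = j then X ^ i * expand F 4 (A i) * (X ^ i' * expand F 4 (B i')) else 0) := by
      intro j hj
      rw [hc j (Finset.mem_range.1 hj), map_sum, Finset.mul_sum]
      refine Finset.sum_congr rfl fun i _ => ?_
      rw [map_sum, Finset.mul_sum]
      refine Finset.sum_congr rfl fun i' _ => ?_
      split_ifs with h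
      · rw [map_mul, ← h, pow_add]; ring
      · rw [map_zero, mul_zero]
    rw [Finset.sum_congr rfl e2, Finset.sum_comm, Finset.sum_mul_sum]
    refine Finset.sum_congr rfl fun i hi => ?_
    rw [Finset.sum_comm]
    refine Finset.sum_congr rfl fun i' hi' => ?_
    have hi1 := Finset.mem_range.1 hi
    have hi2 := Finset.mem_range.1 hi'
    rw [Finset.sum_ite_eq, if_pos (Finset.mem_range.2 (by omega))]
  have hfin : tcStep rec tb a b = fit (a ++ b).length 0 (tcAsm cs) := rfl
  rw [hfin, tc_pol_fit _ _ (fun i hi => ?_), hasm]
  rw [hasm]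
  exact tc_coeff_mul a b i (by simpa using hi)

/-! ### programs -/

section progs
variable {F : Type} [Field F] [DecidableEq F]
variable {s : List (Ty × Ty)} {a b : Ty}

/-- residue classes modulo four -/
def tcSpP : Pr s (.list a) (.list (.list a)) :=
  .comp (.pair (.comp (.comp eoP .fst) eoP) (.comp (.comp eoP .snd) eoP))
    (ap2 .cons (.comp .fst .fst) (ap2 .cons (.comp .snd .fst)
      (ap2 .cons (.comp .fst .snd) (ap2 .cons (.comp .snd .snd) .nil))))

@[simp] theorem val_tcSpP (v : SV F s) (x : Ty.D F (.list a)) :
    (tcSpP : Pr s (.list a) _).val v x = tcSp (x : List _) := by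
  simp [tcSpP, tcSp]

theorem cost_tcSpP (v : SV F s) (k : SC F s) (x : Ty.D F (.list a)) :
    (tcSpP : Pr s (.list a) _).cost v k x ≤ 96 * List.length x + 80 := by
  have h0 := cost_eoP (s := s) v k x
  have h1 := cost_eoP (s := s) v k (eo (x : List _)).1
  have h2 := cost_eoP (s := s) v k (eo (x : List _)).2
  have e := length_eo (x : List (Ty.D F a))
  simp [tcSpP] at h0 h1 h2 ⊢
  omega

/-- scalar multiplication -/
def tcSc : Pr s (.prod .unit (.prod .fld Po)) Po := .comp .snd (mapP .mul)

@[simp] theorem val_tcSc (v : SV F s) (x : Ty.D F (.prod .unit (.prod .fld Po))) :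
    (tcSc : Pr s _ _).val v x = List.map (fun y => x.2.1 * y) x.2.2 := by
  simp [tcSc]

theorem cost_tcSc (v : SV F s) (k : SC F s) (x : Ty.D F (.prod .unit (.prod .fld Po))) :
    (tcSc : Pr s _ _).cost v k x ≤ 14 * List.length x.2.2 + 6 := by
  have h := cost_mapP_le (s := s) (c := .fld) (a := .fld) .mul v k x.2 1 (fun _ _ => by simp)
  simp [tcSc] at h ⊢
  omega

/-- linear combination -/
def tcLcP : Pr s (.prod Po Ma) Po :=
  .comp (.pair .star (.pair .nil (.comp (.pair .star .id) (zipP tcSc))))
    (foldP (c := .unit) (.comp .snd (zpP .add)))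

@[simp] theorem val_tcLcP (v : SV F s) (x : Ty.D F (.prod Po Ma)) :
    (tcLcP : Pr s _ _).val v x = tcLc (x.1 : List F) x.2 := by
  simp [tcLcP, tcLc]

theorem cost_tcLcP (v : SV F s) (k : SC F s) (x : Ty.D F (.prod Po Ma)) (B : ℕ)
    (h7 : List.length x.1 ≤ 7) (hB : ∀ l ∈ x.2, List.length l ≤ B) :
    (tcLcP : Pr s _ _).cost v k x ≤ 400 * B + 800 := by
  have h1 := cost_zipP_le (s := s) (c := .unit) tcSc v k ((), x) (14 * B + 6)
    (fun y _ z hz => by
      have e := cost_tcSc (s := s) v k ((), (y, z))
      have e2 := hB z hz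
      simp only at e ⊢
      omega)
  have hz := tc_mem_zip (x.1 : List F) x.2 B hB
  have hl : (List.zipWith (fun c l => l.map (fun y => c * y)) (x.1 : List F) x.2).length ≤ 7 := by
    rw [List.length_zipWith]; omega
  have h2 := cost_foldP_le (s := s) (c := .unit) (b := Po) (a := Po) (.comp .snd (zpP .add)) v k
    ((), (([] : List F), List.zipWith (fun c l => l.map (fun y => c * y)) (x.1 : List F) x.2))
    (41 * B + 16) (fun y => List.length y ≤ B) (by simp)
    (fun y z hy hz' => by
      have e2 := hz z hz'
      simp only [val_comp, val_snd, val_zpP, val_add]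
      rw [tc_length_zp]
      omega)
    (fun y z hy _ => by
      have e := cost_zpP_le (s := s) .add v k (y, z) 1 (fun _ _ _ _ => by simp)
      simp at e ⊢
      omega)
  have m1 := Nat.mul_le_mul_left (14 * B + 6 + 49) h7
  have m2 := Nat.mul_le_mul_left (41 * B + 16 + 27)
    ((min_le_left (List.length x.1) (List.length x.2)).trans h7)
  simp [tcLcP] at h1 h2 ⊢
  omega

/-- substitution of the fourth power -/
def tcExP : Pr s Po Po := ap3 ilP .zero (ap3 ilP .zero .id .nil) .nil

@[simp] theorem val_tcExP (v : SV F s) (x : Ty.D F Po) :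
    (tcExP : Pr s _ _).val v x = tcEx (x : List F) := by
  simp [tcExP, tcEx]

theorem cost_tcExP (v : SV F s) (k : SC F s) (x : Ty.D F Po) :
    (tcExP : Pr s _ _).cost v k x ≤ 180 * List.length x + 100 := by
  have h1 := cost_ilP (s := s) v k ((0 : F), ((x : List F), ([] : List F)))
  have h2 := cost_ilP (s := s) v k ((0 : F), (il 0 (x : List F) [], ([] : List F)))
  have e := tc_length_il (0 : F) (x : List F) []
  simp [tcExP] at h1 h2 e ⊢
  omega

/-- assembly -/
def tcAsmP : Pr s Ma Po :=
  .comp (.pair .star (.pair .nil revP))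
    (foldP (c := .unit) (ap2 (zpP .add) (.comp (.comp .snd .snd) tcExP)
      (ap2 .cons .zero (.comp .snd .fst))))

@[simp] theorem val_tcAsmP (v : SV F s) (x : Ty.D F Ma) :
    (tcAsmP : Pr s _ _).val v x = tcAsm (x : List (List F)) := by
  simp [tcAsmP, tcAsm]

theorem cost_tcAsmP (v : SV F s) (k : SC F s) (x : Ty.D F Ma) (B : ℕ)
    (h7 : List.length x ≤ 7) (hB : ∀ l ∈ x, List.length l ≤ B) :
    (tcAsmP : Pr s _ _).cost v k x ≤ 3000 * B + 3000 := by
  have h0 := cost_revP (s := s) v k x
  have h2 := cost_foldP_le (s := s) (c := .unit) (b := Po) (a := Po)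
    (ap2 (zpP .add) (.comp (.comp .snd .snd) tcExP)
      (ap2 .cons .zero (.comp .snd .fst))) v k
    ((), (([] : List F), List.reverse (x : List (List F))))
    (344 * B + 140) (fun _ => True) trivial (fun _ _ _ _ => trivial)
    (fun y z _ hz => by
      have hz2 := hB z (by simpa using hz)
      have e := cost_zpP_le (s := s) .add v k (tcEx (z : List F), (0 :: (y : List F)))
        1 (fun _ _ _ _ => by simp)
      have e2 := cost_tcExP (s := s) v k z
      have e3 := tc_length_ex (z : List F)
      simp at e e2 ⊢
      omega)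
  have m1 := Nat.mul_le_mul_left (344 * B + 140 + 27) h7
  simp [tcAsmP] at h0 h2 ⊢
  omega

/-- one row of the first table -/
def tcRow : Pr ((.prod TB (.prod Po Po), Po) :: s)
    (.prod (.prod (.prod TB (.prod Po Po)) (.prod Ma Ma)) Po) Po :=
  .comp (.pair (.comp (.comp .fst .fst) .fst)
    (.pair (ap2 tcLcP .snd (.comp (.comp .fst .snd) .fst))
      (ap2 tcLcP .snd (.comp (.comp .fst .snd) .snd)))) .self

/-- body of the recursion -/
def tcB : Pr ((.prod TB (.prod Po Po), Po) :: s) (.prod TB (.prod Po Po)) Po :=
  lt (.pair (.comp (.comp .snd .fst) tcSpP) (.comp (.comp .snd .snd) tcSpP))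
    (lt (ap2 (mapP tcRow) .id (.comp (.comp .fst .fst) .fst))
      (lt (ap2 (mapP (ap2 tcLcP .snd .fst)) .snd (.comp (.comp (.comp .fst .fst) .fst) .snd))
        (ap3 fitP (.comp (.comp (.comp (.comp .fst .fst) .fst) .snd) appP) .zero
          (.comp .snd tcAsmP))))

theorem val_tcB (v : SV F ((.prod TB (.prod Po Po), Po) :: s))
    (x : Ty.D F (.prod TB (.prod Po Po))) :
    (tcB : Pr ((.prod TB (.prod Po Po), Po) :: s) _ _).val v x =
      tcStep (fun y z => v.1 (x.1, (y, z))) x.1 x.2.1 x.2.2 := by
  simp [tcB, tcRow, tcStep]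

theorem cost_tcB (v : SV F ((.prod TB (.prod Po Po), Po) :: s))
    (k : SC F ((.prod TB (.prod Po Po), Po) :: s)) (tb : Ty.D F TB) (a b : Ty.D F Po) (m T : ℕ)
    (hm : 1 ≤ m) (h1 : List.length tb.1 = 7) (h2 : ∀ r ∈ tb.1, List.length r = 4)
    (h3 : List.length tb.2 = 7) (h4 : ∀ r ∈ tb.2, List.length r = 7)
    (ha : List.length a ≤ 4 * m) (hb : List.length b ≤ 4 * m)
    (hv : ∀ x y : Ty.D F Po, List.length (v.1 (tb, (x, y)) : List F) =
      List.length x + List.length y)
    (hk : ∀ x y : Ty.D F Po, List.length x ≤ m → List.length y ≤ m → k.1 (tb, (x, y)) ≤ T) :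
    (tcB : Pr ((.prod TB (.prod Po Po), Po) :: s) _ _).cost v k (tb, (a, b)) ≤
      7 * T + 100000 * m := by
  have ea := cost_tcSpP (s := (.prod TB (.prod Po Po), Po) :: s) v k a
  have eb := cost_tcSpP (s := (.prod TB (.prod Po Po), Po) :: s) v k b
  have la := tc_length_sp (a : List F) m ha
  have lb := tc_length_sp (b : List F) m hb
  -- the rows
  have er := cost_mapP_le (s := (.prod TB (.prod Po Po), Po) :: s) tcRow v k
    (((tb, (a, b)), (tcSp (a : List F), tcSp (b : List F))), tb.1) (T + 800 * m + 1700)
    (fun row hrow => by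
      have hr := h2 row hrow
      have c1 := cost_tcLcP (s := (.prod TB (.prod Po Po), Po) :: s) v k
        (row, tcSp (a : List F)) m (by simp only; omega) la
      have c2 := cost_tcLcP (s := (.prod TB (.prod Po Po), Po) :: s) v k
        (row, tcSp (b : List F)) m (by simp only; omega) lb
      have c3 := hk (tcLc (row : List F) (tcSp (a : List F)))
        (tcLc (row : List F) (tcSp (b : List F))) (tc_length_lc _ _ m la) (tc_length_lc _ _ m lb)
      simp [tcRow] at c1 c2 c3 ⊢
      omega)
  -- the products
  set ws : List (List F) := tb.1.map (fun row => (v.1 (tb, (tcLc row (tcSp (a : List F)),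
    tcLc row (tcSp (b : List F)))) : List F)) with hws
  have lw : ∀ l ∈ ws, l.length ≤ 2 * m := by
    intro l hl
    rw [hws, List.mem_map] at hl
    obtain ⟨row, _, rfl⟩ := hl
    rw [hv]
    have c1 := tc_length_lc (row : List F) (tcSp (a : List F)) m la
    have c2 := tc_length_lc (row : List F) (tcSp (b : List F)) m lb
    omega
  have ec := cost_mapP_le (s := (.prod TB (.prod Po Po), Po) :: s)
    (ap2 tcLcP .snd .fst) v k (ws, tb.2) (800 * m + 810)
    (fun row hrow => by
      have hr := h4 row hrow
      have c1 := cost_tcLcP (s := (.prod TB (.prod Po Po), Po) :: s) v k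
        (row, ws) (2 * m) (by simp only; omega) lw
      simp at c1 ⊢
      omega)
  set cs : List (List F) := tb.2.map (fun row => tcLc row ws) with hcs
  have lc : ∀ l ∈ cs, l.length ≤ 2 * m := by
    intro l hl
    rw [hcs, List.mem_map] at hl
    obtain ⟨row, _, rfl⟩ := hl
    exact tc_length_lc _ _ _ lw
  have eas := cost_tcAsmP (s := (.prod TB (.prod Po Po), Po) :: s) v k cs (2 * m)
    (by rw [hcs, List.length_map]; exact h3.le) lc
  have eap := cost_appP (s := (.prod TB (.prod Po Po), Po) :: s) v k ((a : List F), (b : List F))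
  have ef := cost_fitP (s := (.prod TB (.prod Po Po), Po) :: s) (b := .fld) (a := .fld) v k
    ((a ++ b : List F), ((0 : F), tcAsm cs))
  simp only [List.length_append] at ef
  simp only [h1] at er
  simp only [h3] at ec
  simp [tcB, tcRow] at ea eb er ec eas eap ef ⊢
  rw [← hws, ← hcs]
  omega

end progs

section progs2
variable {F : Type} [Field F] [DecidableEq F]
variable {s : List (Ty × Ty)}

/-- head of a list -/
def tcHd : Pr s Po .fld := onL .id .zero (.comp .snd .fst)

@[simp] theorem val_tcHd (v : SV F s) (x : Ty.D F Po) :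
    (tcHd : Pr s _ _).val v x = List.headD (x : List F) 0 := by
  cases x with
  | nil => simp [tcHd]
  | cons h t => simp [tcHd]

theorem cost_tcHd (v : SV F s) (k : SC F s) (x : Ty.D F Po) :
    (tcHd : Pr s _ _).cost v k x ≤ 6 := by
  cases x with
  | nil => simp [tcHd]
  | cons h t => simp [tcHd]

/-- the answer at depth zero -/
def tcQ : Pr s (.prod TB (.prod Po Po)) Po :=
  ap3 fitP (.comp .snd appP) .zero
    (ap2 .cons (ap2 .mul (.comp (.comp .snd .fst) tcHd) (.comp (.comp .snd .snd) tcHd)) .nil)

/-- value at depth zero -/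
def tcBase (a b : List F) : List F := fit (a ++ b).length 0 [a.headD 0 * b.headD 0]

theorem val_tcQ (v : SV F s) (tb : Ty.D F TB) (a b : Ty.D F Po) :
    (tcQ : Pr s _ _).val v (tb, (a, b)) = tcBase (a : List F) b := by
  simp [tcQ, tcBase]

theorem cost_tcQ (v : SV F s) (k : SC F s) (tb : Ty.D F TB) (a b : Ty.D F Po)
    (ha : List.length a ≤ 1) (hb : List.length b ≤ 1) :
    (tcQ : Pr s _ _).cost v k (tb, (a, b)) ≤ 200 := by
  have h1 := cost_appP (s := s) v k ((a : List F), (b : List F))
  have h2 := cost_tcHd (s := s) v k a
  have h3 := cost_tcHd (s := s) v k b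
  have h4 := cost_fitP (s := s) (b := .fld) (a := .fld) v k
    ((a ++ b : List F), ((0 : F), [List.headD (a : List F) 0 * List.headD (b : List F) 0]))
  simp only [List.length_append] at h4
  simp [tcQ] at h1 h2 h3 h4 ⊢
  omega

omit [DecidableEq F] in
theorem tc_pol_base (a b : List F) (ha : a.length ≤ 1) (hb : b.length ≤ 1) :
    pol (tcBase a b) = pol a * pol b := by
  have h : ∀ l : List F, l.length ≤ 1 → pol l = C (l.headD 0) := by
    intro l hl
    rcases l with _ | ⟨x, _ | ⟨y, l⟩⟩
    · simp [pol]
    · simp [pol]
    · simp at hl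
  have e : pol [a.headD 0 * b.headD 0] = pol a * pol b := by
    rw [h a ha, h b hb, h _ (by simp), ← C_mul]
    rfl
  rw [tcBase, tc_pol_fit, e]
  intro i hi
  rw [e]
  exact tc_coeff_mul a b i (by simpa using hi)

/-- the recursion -/
def tcF (tb : List (List F) × List (List F)) : ℕ → List F → List F → List F
  | 0, a, b => tcBase a b
  | n + 1, a, b => tcStep (tcF tb n) tb a b

omit [DecidableEq F] in
theorem tc_length_F (tb : List (List F) × List (List F)) (n : ℕ) (a b : List F) :
    (tcF tb n a b).length = a.length + b.length := by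
  cases n with
  | zero => simp [tcF, tcBase]
  | succ n => simp [tcF, tcStep]

omit [DecidableEq F] in
theorem tc_pol_F (tb : List (List F) × List (List F)) (htb : IsTb tb) (n : ℕ) (a b : List F)
    (ha : a.length ≤ 4 ^ n) (hb : b.length ≤ 4 ^ n) : pol (tcF tb n a b) = pol a * pol b := by
  induction n generalizing a b with
  | zero => exact tc_pol_base a b (by simpa using ha) (by simpa using hb)
  | succ n ih =>
    exact tc_pol_step (tcF tb n) tb htb a b (4 ^ n) (by rw [pow_succ] at ha; omega)
      (by rw [pow_succ] at hb; omega) (fun x y hx hy => ih x y hx hy)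

theorem val_goV (v : SV F s) (tb : Ty.D F TB) (n : ℕ) (a b : Ty.D F Po) :
    goV tcB tcQ v n (tb, (a, b)) = tcF (tb : List (List F) × List (List F)) n a b := by
  induction n generalizing a b with
  | zero => exact val_tcQ v tb a b
  | succ n ih =>
    simp only [goV, val_tcB]
    have e : (fun y z => goV tcB tcQ v n (tb, (y, z))) =
        tcF (tb : List (List F) × List (List F)) n := by
      funext y z; exact ih y z
    rw [tcF]
    exact congrArg (fun f => tcStep f (tb : List (List F) × List (List F)) a b) e

theorem cost_goC (v : SV F s) (k : SC F s) (tb : Ty.D F TB) (htb : IsTb (F := F) tb) (n : ℕ)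
    (a b : Ty.D F Po) (ha : List.length a ≤ 4 ^ n) (hb : List.length b ≤ 4 ^ n) :
    goC tcB tcQ v k n (tb, (a, b)) + 100000 * 4 ^ n ≤ 100200 * 7 ^ n := by
  induction n generalizing a b with
  | zero =>
    have := cost_tcQ (s := s) v k tb a b (by simpa using ha) (by simpa using hb)
    simp only [goC, pow_zero]
    omega
  | succ n ih =>
    obtain ⟨h1, h2, h3, h4, _⟩ := htb
    have hp : 1 ≤ 4 ^ n := Nat.one_le_pow _ _ (by norm_num)
    have h7 : (100000 * 4 ^ n : ℕ) ≤ 100200 * 7 ^ n := (Nat.le_add_left _ _).trans (ih [] []
      (by simp) (by simp))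
    have key := cost_tcB (s := s) (goV tcB tcQ v n, v) (goC tcB tcQ v k n, k) tb a b (4 ^ n)
      (100200 * 7 ^ n - 100000 * 4 ^ n) hp h1 h2 h3 h4 (by rw [pow_succ] at ha; omega)
      (by rw [pow_succ] at hb; omega)
      (fun x y => (congrArg List.length (val_goV v tb n x y)).trans (tc_length_F _ _ _ _))
      (fun x y hx hy => by
        have := ih x y hx hy
        simp only
        omega)
    simp only [goC]
    rw [pow_succ, pow_succ]
    omega

/-- the program -/
def tcP : Pr [] (.prod TB (.prod Po Po)) Po :=
  .comp (.pair (.comp (.comp (.comp (.comp .snd appP) lgP) eoP) .fst) .id) (.recD tcB tcQ)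

end progs2

/- TOOM-COOK 4. Recursion on fuel u (a list), toom u a b. -/
theorem specMul (h : SpecUnits) : SpecMul := by
  obtain ⟨u1, _, _, _, _, u6, _, _, _, _, _, _, u13, _⟩ := h
  refine ⟨tcP, 1000000, ?_⟩
  intro F _ _ tb a b htb
  set N := a.length + b.length with hN
  set n := (Nat.clog 2 N + 1) / 2 with hn
  have hfuel : List.length ((Pr.comp (.comp (.comp (.comp .snd appP) lgP) eoP) .fst :
      Pr [] (.prod TB (.prod Po Po)) (.list .unit)).val () (tb, (a, b)) : List Unit) = n := by
    have e1 := val_lgP (F := F) (s := []) (a := .fld) () (a ++ b : List F)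
    have e2 := (length_eo ((lgP : Pr [] Po (.list .unit)).val () (a ++ b : List F) :
      List Unit)).1
    simp only [val_comp, val_snd, val_appP, val_eoP, val_fst]
    rw [e2, e1, List.length_append]
  have hval : (tcP.val () (tb, (a, b)) : List F) = tcF tb n a b := by
    rw [tcP, val_comp, val_recD]
    simp only [val_pair, val_id]
    rw [hfuel]
    exact val_goV (s := []) () tb n a b
  have hpow : N ≤ 4 ^ n := by
    have h1 : N ≤ 2 ^ Nat.clog 2 N := Nat.le_pow_clog (by norm_num) _
    have h2 : (4 : ℕ) ^ n = 2 ^ (2 * n) := by rw [pow_mul]; norm_num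
    rw [h2]
    exact h1.trans (Nat.pow_le_pow_right (by norm_num) (by omega))
  have ha : a.length ≤ 4 ^ n := by omega
  have hb : b.length ≤ 4 ^ n := by omega
  refine ⟨?_, ?_, ?_⟩
  · rw [hval]
    exact tc_pol_F tb htb n a b ha hb
  · rw [hval]
    exact tc_length_F tb n a b
  · have c1 := cost_goC (s := []) (F := F) () () tb htb n a b ha hb
    have c2 := cost_appP (s := []) (F := F) (a := .fld) () () ((a : List F), (b : List F))
    have c3 := cost_lgP (s := []) (F := F) (a := .fld) () () (a ++ b : List F)
    have c4 := cost_eoP (s := []) (F := F) (a := .unit) () () ((lgP : Pr [] Po (.list .unit)).val ()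
      (a ++ b : List F))
    have e1 := val_lgP (F := F) (s := []) (a := .fld) () (a ++ b : List F)
    have hclog : Nat.clog 2 N ≤ N := by
      have : N ≤ 2 ^ N := Nat.lt_two_pow_self.le
      exact Nat.clog_le_of_le_pow this
    have hmu : 7 ^ n ≤ 4 * mu (N + 1) := by
      rcases Nat.eq_zero_or_pos N with h0 | h0
      · have : n = 0 := by rw [hn, h0]; simp
        rw [this, pow_zero]
        have := u6 (N + 1)
        omega
      · exact (u13 N h0).trans (Nat.mul_le_mul_left 4 (u1 _ _ (Nat.le_succ N)))
    have hN1 : N + 1 ≤ mu (N + 1) := u6 (N + 1)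
    rw [e1] at c4
    simp only [List.length_append] at c3 c4
    rw [← hN] at c3 c4
    rw [tcP, cost_comp, cost_recD]
    simp only [val_pair, val_id]
    rw [hfuel]
    simp only [cost_pair, cost_comp, cost_snd, cost_fst, cost_id, val_comp, val_snd, val_appP]
    simp only at c2
    have hal : a.length ≤ N := by omega
    omega

end Pool.Agent.H330FB.JA4
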