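import Pool.Agent.H330FB.Lib5
import Pool.Agent.H330FB.Spec1
set_option autoImplicit false
noncomputable section
namespace Pool.Agent.H330FB.JA7
open Polynomial

section
variable {F : Type} [Field F] [DecidableEq F]
variable {s : List (Ty × Ty)} {g : Ty}

/-- field elements to rows of length one -/
def mmRows : Pr s Po Ma :=
  .comp (.pair .star .id) (mapP (c := .unit) (.comp (.pair .snd .nil) .cons))

theorem val_mmRows (v : SV F s) (x : List F) :
    ((mmRows : Pr s Po Ma).val v x : List (List F)) = List.map (fun y => [y]) x := by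
  simp [mmRows]

theorem cost_mmRows (v : SV F s) (k : SC F s) (x : List F) :
    (mmRows : Pr s Po Ma).cost v k x ≤ 17 * x.length + 8 := by
  have h := cost_mapP_le (s := s) (c := .unit) (a := .fld) (b := Po)
    (.comp (.pair .snd .nil) .cons) v k ((), x) 4 (fun _ _ => by simp)
  simp [mmRows] at h ⊢
  omega

/-- first elements of rows -/
def mmHead : Pr s Ma Po :=
  .comp (.pair .star .id) (mapP (c := .unit) (onL .snd .zero (.comp .snd .fst)))

theorem val_mmHead (v : SV F s) (x : List (List F)) :
    ((mmHead : Pr s Ma Po).val v x : List F) =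
      List.map (fun y => lcase y (0 : F) (fun h _ => h)) x := by
  simp [mmHead]

theorem cost_mmHead (v : SV F s) (k : SC F s) (x : List (List F)) :
    (mmHead : Pr s Ma Po).cost v k x ≤ 19 * x.length + 8 := by
  have h := cost_mapP_le (s := s) (c := .unit) (a := Po) (b := .fld)
    (onL .snd .zero (.comp .snd .fst)) v k ((), x) 6 (fun y _ => by
      cases y with
      | nil => simp
      | cons h t => simp)
  simp [mmHead] at h ⊢
  omega

/-- the number one in unary -/
def mmOne : Pr s g Un := .comp (.pair .star .nil) .cons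

theorem val_mmOne (v : SV F s) (x : Ty.D F g) : (mmOne : Pr s g Un).val v x = un 1 := rfl
theorem cost_mmOne (v : SV F s) (k : SC F s) (x : Ty.D F g) :
    (mmOne : Pr s g Un).cost v k x = 4 := rfl

end

/-- the program for the multiplication modulo a monic polynomial -/
def mmProg (p1 : Pr [] (.prod TB (.prod Un (.prod Ma Ma))) Ma)
    (p2 : Pr [] (.prod TB (.prod Un (.prod Ma Ma))) (.prod Ma Ma)) :
    Pr [] (.prod TB (.prod (.prod Po Po) Po)) Po :=
  .comp (.pair .fst (.pair mmOne (.pair
    (.comp (.pair .fst (.pair mmOne (.pair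
      (.comp (.comp (.comp .snd .fst) .fst) mmRows)
      (.comp (.comp (.comp .snd .fst) .snd) mmRows)))) p1)
    (.comp (.comp .snd .snd) mmRows)))) (.comp (.comp p2 .snd) mmHead)

theorem mm_rp_rows {F : Type} [Field F] (l : List F) :
    rp (0 : F) (List.map (fun y => [y]) l) = pol l := by
  unfold rp
  rw [List.map_map]
  congr 1
  have : ((fun r : List F => aeval (0 : F) (pol r)) ∘ fun y => [y]) = fun y => y := by
    funext y
    simp [pol]
  rw [this]
  simp

theorem mm_rp_head {F : Type} [Field F] (l : List (List F)) (h : Sh 1 l) :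
    pol (List.map (fun y => lcase y (0 : F) (fun h _ => h)) l) = rp (0 : F) l := by
  unfold rp
  congr 1
  refine List.map_congr_left ?_
  intro y hy
  have h1 := h y hy
  rcases y with _ | ⟨x, _ | ⟨z, t⟩⟩
  · simp at h1
  · simp [pol]
  · simp at h1

theorem mm_sh_rows {F : Type} (l : List F) : Sh 1 (List.map (fun y => [y]) l) := by
  intro r hr
  rw [List.mem_map] at hr
  obtain ⟨y, -, rfl⟩ := hr
  rfl

/- s = 1: rows of length 1 are field elements. Convert lists of field elements to lists of rows of length 1 (mapP), use the programs of SpecMulR and SpecDivR with un 1,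
convert back (head with default 0). For R = F, τ = 0 (τ^1 = 0): rp 0 (map singleton l) = pol l, mrp 0 = mpol. -/
theorem specMulMod (h1 : SpecMulR) (h2 : SpecDivR) (h0 : SpecUnits) : SpecMulMod := by
  obtain ⟨p1, C1, h1⟩ := h1
  obtain ⟨p2, C2, h2⟩ := h2
  obtain ⟨hmono, -, -, -, -, hN, -⟩ := h0
  refine ⟨mmProg p1 p2, C1 + C2 + 200, ?_⟩
  intro F _ _ tb a b G htb
  obtain ⟨m1, m2, m3, m4⟩ := h1 F tb 1 (List.map (fun y => [y]) a) (List.map (fun y => [y]) b)
    htb le_rfl (mm_sh_rows a) (mm_sh_rows b)
  obtain ⟨M, hM⟩ : ∃ M : List (List F), M = p1.val () (tb, (un 1, (List.map (fun y => [y]) a,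
    List.map (fun y => [y]) b))) := ⟨_, rfl⟩
  rw [← hM] at m1 m2 m3
  obtain ⟨d1, d2, d3, d4, d5, d6⟩ := h2 F tb 1 M (List.map (fun y => [y]) G) htb le_rfl m1
    (mm_sh_rows G)
  obtain ⟨QR, hQR⟩ : ∃ QR : List (List F) × List (List F), QR = p2.val () (tb, (un 1, (M,
    List.map (fun y => [y]) G))) := ⟨_, rfl⟩
  rw [← hQR] at d1 d2 d3 d4 d5
  have hval : ((mmProg p1 p2).val () (tb, ((a, b), G)) : List F) =
      List.map (fun y => lcase y (0 : F) (fun h _ => h)) QR.2 := by
    simp only [mmProg, val_comp, val_pair, val_fst, val_snd, val_mmRows, val_mmOne, val_mmHead,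
      ← hM, ← hQR]
  refine ⟨?_, ?_, ?_⟩
  · rw [hval, List.length_map, d4, List.length_map]
  · rw [hval, mm_rp_head _ d3]
    have e1 := m3 F (0 : F) (by simp)
    have e2 := d5 F (0 : F) (by simp)
    rw [mm_rp_rows, mm_rp_rows] at e1
    have e3 : mrp (0 : F) (List.map (fun y => [y]) G) = mpol G := by
      unfold mrp mpol
      rw [mm_rp_rows, List.length_map]
    rw [e3] at e2
    rw [← e1, e2, add_sub_cancel_right]
    exact Dvd.intro_left _ rfl
  · have c1 := cost_mmRows (s := []) (F := F) () () a
    have c2 := cost_mmRows (s := []) (F := F) () () b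
    have c3 := cost_mmRows (s := []) (F := F) () () G
    have c4 := cost_mmHead (s := []) (F := F) () () QR.2
    rw [d4, List.length_map] at c4
    obtain ⟨K1, hK1⟩ : ∃ K1 : ℕ, K1 = p1.cost () ()
      (tb, (un 1, (List.map (fun y => [y]) a, List.map (fun y => [y]) b))) := ⟨_, rfl⟩
    obtain ⟨K2, hK2⟩ : ∃ K2 : ℕ, K2 = p2.cost () ()
      (tb, (un 1, (M, List.map (fun y => [y]) G))) := ⟨_, rfl⟩
    rw [← hK1] at m4
    rw [← hK2] at d6
    have hcost : (mmProg p1 p2).cost () () (tb, ((a, b), G)) =
        (mmRows : Pr [] Po Ma).cost () () a + (mmRows : Pr [] Po Ma).cost () () b +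
        (mmRows : Pr [] Po Ma).cost () () G + (mmHead : Pr [] Ma Po).cost () () QR.2 +
        K1 + K2 + 25 := by
      rw [hK1, hK2]
      simp only [mmProg, cost_comp, cost_pair, cost_fst, cost_snd, cost_mmOne, val_comp, val_pair,
        val_fst, val_snd, val_mmRows, val_mmOne, ← hM, ← hQR]
      ring
    rw [hcost]
    clear hcost hK1 hK2
    simp only [List.length_map, one_mul] at m2 m4 d6
    rw [m2] at d6
    have hL : 1 ≤ lgc (a.length + b.length + 1) := by unfold lgc; omega
    have hmu : a.length + b.length + G.length + 1 ≤ mu (a.length + b.length + G.length + 1) := hN _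
    have hmm : mu (a.length + b.length + 1) ≤ mu (a.length + b.length + G.length + 1) :=
      hmono _ _ (by omega)
    generalize mu (a.length + b.length + G.length + 1) = Y at *
    generalize mu (a.length + b.length + 1) = X at *
    generalize lgc (a.length + b.length + 1) = L at *
    have f1 : C1 * X ≤ C1 * L * Y := by
      calc C1 * X ≤ C1 * Y := Nat.mul_le_mul_left _ hmm
        _ ≤ C1 * L * Y := by
          refine Nat.mul_le_mul_right _ ?_
          exact Nat.le_mul_of_pos_right _ hL
    have f2 : Y ≤ L * Y := Nat.le_mul_of_pos_left _ hL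
    have f3 : (C1 + C2 + 200) * L * Y = C1 * L * Y + C2 * L * Y + 200 * (L * Y) := by ring
    rw [f3]
    omega

end Pool.Agent.H330FB.JA7
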