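import Pool.Agent.H330FB.Lib5
import Pool.Agent.H330FB.Spec1
set_option autoImplicit false
noncomputable section
namespace Pool.Agent.H330FB.JA8
open Polynomial

/-- value of a list of bits, least significant first -/
def vbits : List Bool → ℕ
  | [] => 0
  | b :: l => Nat.bit b (vbits l)

theorem vbits_bits (n : ℕ) : vbits (Nat.bits n) = n := by
  induction n using Nat.binaryRec' with
  | zero => simp [vbits]
  | bit b n hn ih =>
    rw [Nat.bits_append_bit n b hn]
    simp only [vbits, ih]

theorem length_bits_le (n : ℕ) : (Nat.bits n).length ≤ lgc n := by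
  rw [Nat.size_eq_bits_len, Nat.size_le]
  unfold lgc
  have h1 : n ≤ 2 ^ (Nat.clog 2 n) := Nat.le_pow_clog (by norm_num) n
  have h2 : 2 ^ (Nat.clog 2 n) < 2 ^ (Nat.clog 2 n + 1) :=
    Nat.pow_lt_pow_right (by norm_num) (by omega)
  omega

theorem lgc_two (L : ℕ) : lgc (L + L + 1) ≤ 2 * lgc (L + 1) := by
  unfold lgc
  have h1 : Nat.clog 2 (L + L + 1) ≤ Nat.clog 2 (L + 1) + 1 := by
    rw [Nat.clog_le_iff_le_pow (by norm_num)]
    have h2 : L + 1 ≤ 2 ^ (Nat.clog 2 (L + 1)) := Nat.le_pow_clog (by norm_num) _
    rw [pow_succ]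
    omega
  omega

section pow
variable {F : Type} [Field F] [DecidableEq F]

/-- one step of the power routine, on lists -/
def powSt (q : Pr [] (.prod TB (.prod (.prod Po Po) Po)) Po)
    (tb : List (List F) × List (List F)) (G : List F) (y : List F × List F) (z : F) :
    List F × List F :=
  ((q.val () (tb, ((y.1, y.1), G)) : List F),
    if z = 0 then y.2 else (q.val () (tb, ((y.2, y.1), G)) : List F))

theorem powSt_spec (q : Pr [] (.prod TB (.prod (.prod Po Po) Po)) Po)
    (tb : List (List F) × List (List F)) (G : List F)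
    (hq : ∀ a b : List F, List.length (q.val () (tb, ((a, b), G)) : List F) = G.length ∧
      mpol G ∣ pol a * pol b - pol (q.val () (tb, ((a, b), G)) : List F))
    (bs : List Bool) (sq acc : List F) (A B : F[X]) (h1 : sq.length = G.length)
    (h2 : acc.length = G.length) (hA : mpol G ∣ A - pol sq) (hB : mpol G ∣ B - pol acc) :
    (List.foldl (powSt q tb G) (sq, acc)
      (bs.map (fun b => if b then (1 : F) else 0))).2.length = G.length ∧
    mpol G ∣ B * A ^ (vbits bs) - pol (List.foldl (powSt q tb G) (sq, acc)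
      (bs.map (fun b => if b then (1 : F) else 0))).2 := by
  induction bs generalizing sq acc A B with
  | nil =>
    refine ⟨h2, ?_⟩
    simpa [vbits] using hB
  | cons b bs ih =>
    rw [List.map_cons, List.foldl_cons]
    obtain ⟨q1, q2⟩ := hq sq sq
    obtain ⟨q3, q4⟩ := hq acc sq
    have hA2 : mpol G ∣ A * A - pol (q.val () (tb, ((sq, sq), G)) : List F) := by
      have e : A * A - pol (q.val () (tb, ((sq, sq), G)) : List F) =
          (A - pol sq) * (A + pol sq) +
            (pol sq * pol sq - pol (q.val () (tb, ((sq, sq), G)) : List F)) := by ring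
      rw [e]
      exact dvd_add (Dvd.dvd.mul_right hA _) q2
    cases b with
    | false =>
      have e := ih (q.val () (tb, ((sq, sq), G)) : List F) acc (A * A) B q1 h2 hA2 hB
      have e2 : powSt q tb G (sq, acc) (if false = true then (1 : F) else 0) =
          ((q.val () (tb, ((sq, sq), G)) : List F), acc) := by
        simp [powSt]
      rw [e2]
      refine ⟨e.1, ?_⟩
      have e3 : A ^ (vbits (false :: bs)) = (A * A) ^ (vbits bs) := by
        simp only [vbits, Nat.bit_false]
        rw [pow_mul, pow_two]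
      rw [e3]
      exact e.2
    | true =>
      have hB2 : mpol G ∣ B * A - pol (q.val () (tb, ((acc, sq), G)) : List F) := by
        have e : B * A - pol (q.val () (tb, ((acc, sq), G)) : List F) =
            (B - pol acc) * A + pol acc * (A - pol sq) +
              (pol acc * pol sq - pol (q.val () (tb, ((acc, sq), G)) : List F)) := by ring
        rw [e]
        exact dvd_add (dvd_add (Dvd.dvd.mul_right hB _) (Dvd.dvd.mul_left hA _)) q4
      have e := ih (q.val () (tb, ((sq, sq), G)) : List F)
        (q.val () (tb, ((acc, sq), G)) : List F) (A * A) (B * A) q1 q3 hA2 hB2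
      have e2 : powSt q tb G (sq, acc) (if true = true then (1 : F) else 0) =
          ((q.val () (tb, ((sq, sq), G)) : List F),
            (q.val () (tb, ((acc, sq), G)) : List F)) := by
        simp [powSt]
      rw [e2]
      refine ⟨e.1, ?_⟩
      have e3 : B * A ^ (vbits (true :: bs)) = B * A * (A * A) ^ (vbits bs) := by
        simp only [vbits, Nat.bit_true]
        rw [pow_succ, pow_mul, pow_two]
        ring
      rw [e3]
      exact e.2

end pow

/-- one step of the power routine -/
def powStP (q : Pr [] (.prod TB (.prod (.prod Po Po) Po)) Po) :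
    Pr [] (.prod (.prod TB Po) (.prod (.prod Po Po) .fld)) (.prod Po Po) :=
  .pair
    (.comp (.pair (.comp .fst .fst) (.pair (.pair (.comp (.comp .snd .fst) .fst)
      (.comp (.comp .snd .fst) .fst)) (.comp .fst .snd))) q)
    (onZ (.comp .snd .snd) (.comp (.comp .snd .fst) .snd)
      (.comp (.pair (.comp .fst .fst) (.pair (.pair (.comp (.comp .snd .fst) .snd)
        (.comp (.comp .snd .fst) .fst)) (.comp .fst .snd))) q))

/-- the power routine -/
def powP (q : Pr [] (.prod TB (.prod (.prod Po Po) Po)) Po) :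
    Pr [] (.prod TB (.prod (.prod Po Po) Po)) Po :=
  .comp (.comp (.pair (.pair .fst (.comp .snd .snd))
    (.pair (.pair (.comp (.comp .snd .fst) .fst)
      (.comp (.pair (.comp .snd .snd) (.pair .zero (.comp (.pair .one .nil) .cons))) fitP))
      (.comp (.comp .snd .fst) .snd))) (foldP (powStP q))) .snd

section pow2
variable {F : Type} [Field F] [DecidableEq F]

theorem val_powStP (q : Pr [] (.prod TB (.prod (.prod Po Po) Po)) Po)
    (tb : List (List F) × List (List F)) (G : List F) (y : List F × List F) (z : F) :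
    (powStP q).val () ((tb, G), (y, z)) = powSt q tb G y z := by
  by_cases hz : z = 0
  · simp only [powStP, powSt, val_pair, val_comp, val_fst, val_snd, val_onZ, hz, if_true]
  · simp only [powStP, powSt, val_pair, val_comp, val_fst, val_snd, val_onZ, hz, if_false]

theorem cost_powStP (q : Pr [] (.prod TB (.prod (.prod Po Po) Po)) Po)
    (tb : List (List F) × List (List F)) (G : List F) (y : List F × List F) (z : F) (B : ℕ)
    (hB : ∀ a b : List F, a.length = G.length → b.length = G.length →
      q.cost () () (tb, ((a, b), G)) ≤ B) (h1 : y.1.length = G.length)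
    (h2 : y.2.length = G.length) :
    (powStP q).cost () () ((tb, G), (y, z)) ≤ 2 * B + 50 := by
  have e1 := hB y.1 y.1 h1 h1
  have e2 := hB y.2 y.1 h2 h1
  by_cases hz : z = 0
  · simp [powStP, hz] at e1 e2 ⊢
    omega
  · simp [powStP, hz] at e1 e2 ⊢
    omega

theorem val_powP (q : Pr [] (.prod TB (.prod (.prod Po Po) Po)) Po)
    (tb : List (List F) × List (List F)) (a l G : List F) :
    (powP q).val () (tb, ((a, l), G)) =
      (List.foldl (powSt q tb G) (a, fit G.length 0 [1]) l).2 := by
  have e : (fun (y : List F × List F) (z : F) => (powStP q).val () ((tb, G), (y, z))) =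
      powSt q tb G := by
    funext y z
    exact val_powStP q tb G y z
  rw [← e]
  simp [powP]

theorem cost_powP (q : Pr [] (.prod TB (.prod (.prod Po Po) Po)) Po)
    (tb : List (List F) × List (List F)) (a l G : List F) (B : ℕ)
    (hl : ∀ a b : List F, List.length (q.val () (tb, ((a, b), G)) : List F) = G.length)
    (hB : ∀ a b : List F, a.length = G.length → b.length = G.length →
      q.cost () () (tb, ((a, b), G)) ≤ B) (ha : a.length = G.length) :
    (powP q).cost () () (tb, ((a, l), G)) ≤ (2 * B + 77) * l.length + 20 * G.length + 60 := by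
  have h1 := cost_fitP (s := []) (F := F) (a := .fld) (b := .fld) () () (G, ((0 : F), [(1 : F)]))
  have h2 := cost_foldP_le (s := []) (F := F) (powStP q) () ()
    ((tb, G), ((a, fit G.length 0 [1]), l)) (2 * B + 50)
    (fun y => y.1.length = G.length ∧ y.2.length = G.length)
    ⟨ha, by simp⟩
    (fun y z hy _ => by
      rw [val_powStP]
      unfold powSt
      refine ⟨hl _ _, ?_⟩
      split_ifs
      · exact hy.2
      · exact hl _ _)
    (fun y z hy _ => cost_powStP q tb G y z B hB hy.1 hy.2)
  simp only [powP, cost_comp, cost_pair, cost_fst, cost_snd, cost_zero, cost_one, cost_nil,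
    cost_cons, val_comp, val_pair, val_fst, val_snd, val_zero, val_one, val_nil, val_cons,
    val_fitP] at h1 h2 ⊢
  have e3 : 2 * B + 50 + 27 = 2 * B + 77 := by omega
  rw [e3] at h2
  omega

end pow2

theorem pol_fit_one {F : Type} [Field F] (n : ℕ) :
    pol (fit (n + 1) (0 : F) [1]) = 1 := by
  have h : ∀ m : ℕ, pol (fit m (0 : F) []) = 0 := by
    intro m
    induction m with
    | zero => simp [fit, pol]
    | succ m ih => simp [fit, pol, ih]
  simp [fit, pol, h]

/- POWERS. Left fold over the bits with state (current square, accumulated product). -/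
theorem specPow (h : SpecMulMod) (h0 : SpecUnits) : SpecPow := by
  obtain ⟨q, Cq, hq⟩ := h
  obtain ⟨mono, -, -, -, -, hN, -, hc, -⟩ := h0
  obtain ⟨C3, hC3⟩ := hc 3
  refine ⟨powP q, 4 * Cq * C3 + 200, ?_⟩
  intro F _ _ tb a G n htb ha
  have hv := val_powP q tb a (bits F n) G
  have hl : ∀ a b : List F, List.length (q.val () (tb, ((a, b), G)) : List F) = G.length :=
    fun a b => (hq F tb a b G htb).1
  have hd : ∀ a b : List F, mpol G ∣ pol a * pol b - pol (q.val () (tb, ((a, b), G)) : List F) :=
    fun a b => (hq F tb a b G htb).2.1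
  have hone : mpol G ∣ 1 - pol (fit G.length (0 : F) [1]) := by
    rcases G with _ | ⟨g, G⟩
    · have : mpol ([] : List F) = 1 := by simp [mpol, pol]
      rw [this]
      exact one_dvd _
    · rw [List.length_cons, pol_fit_one]
      simp
  obtain ⟨s1, s2⟩ := powSt_spec q tb G (fun a b => ⟨hl a b, hd a b⟩) (Nat.bits n) a
    (fit G.length 0 [1]) (pol a) 1 ha (by simp) (by simp) hone
  rw [vbits_bits, one_mul] at s2
  simp only
  rw [hv]
  refine ⟨s1, s2, ?_⟩
  obtain ⟨L, hL⟩ : ∃ L, L = G.length := ⟨_, rfl⟩
  obtain ⟨M, hM⟩ : ∃ M, M = mu (L + 1) := ⟨_, rfl⟩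
  obtain ⟨K, hK⟩ : ∃ K, K = lgc (L + 1) := ⟨_, rfl⟩
  have hB : ∀ a b : List F, a.length = G.length → b.length = G.length →
      q.cost () () (tb, ((a, b), G)) ≤ Cq * (2 * K) * (C3 * M) := by
    intro a b ha hb
    refine ((hq F tb a b G htb).2.2).trans ?_
    rw [ha, hb, ← hL]
    have e1 : lgc (L + L + 1) ≤ 2 * K := by rw [hK]; exact lgc_two L
    have e2 : mu (L + L + L + 1) ≤ C3 * M := by
      rw [hM]
      exact (mono _ _ (by omega)).trans (hC3 L)
    gcongr
  have hc := cost_powP q tb a (bits F n) G _ hl hB ha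
  have hbl : (bits F n).length ≤ lgc n := by
    unfold bits
    rw [List.length_map]
    exact length_bits_le n
  obtain ⟨N, hNN⟩ : ∃ N, N = lgc n := ⟨_, rfl⟩
  rw [← hNN] at hbl ⊢
  rw [← hL] at hc ⊢
  rw [← hM, ← hK]
  have hM1 : L + 1 ≤ M := by rw [hM]; exact hN _
  have hK1 : 1 ≤ K := by rw [hK]; unfold lgc; omega
  have hN1 : 1 ≤ N := by rw [hNN]; unfold lgc; omega
  have hKM : L + 1 ≤ K * M := by nlinarith
  have hNKM : L + 1 ≤ N * (K * M) := by nlinarith
  have hNKM2 : N ≤ N * (K * M) := by nlinarith
  calc (powP q).cost () () (tb, ((a, bits F n), G))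
      ≤ (2 * (Cq * (2 * K) * (C3 * M)) + 77) * (bits F n).length + 20 * L + 60 := hc
    _ ≤ (2 * (Cq * (2 * K) * (C3 * M)) + 77) * N + 20 * L + 60 := by gcongr
    _ = 4 * Cq * C3 * (N * (K * M)) + 77 * N + 20 * L + 60 := by ring
    _ ≤ 4 * Cq * C3 * (N * (K * M)) + 200 * (N * (K * M)) := by omega
    _ = (4 * Cq * C3 + 200) * N * K * M := by ring

/-- iteration of the power routine -/
def frobP (p : Pr [] (.prod TB (.prod (.prod Po Po) Po)) Po) :
    Pr [] (.prod TB (.prod (.prod Po (.prod Po Un)) Po)) Po :=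
  .comp (.pair (.pair .fst (.pair (.comp (.comp (.comp .snd .fst) .snd) .fst) (.comp .snd .snd)))
    (.pair (.comp (.comp .snd .fst) .fst) (.comp (.comp (.comp .snd .fst) .snd) .snd)))
    (foldP (a := .unit) (b := Po) (c := .prod TB (.prod Po Po))
      (.comp (.pair (.comp .fst .fst) (.pair (.pair (.comp .snd .fst)
        (.comp (.comp .fst .snd) .fst)) (.comp (.comp .fst .snd) .snd))) p))

/- e-fold iteration of the q-th power (fold over the unary number e) -/
theorem specFrob (h : SpecPow) (h0 : SpecUnits) : SpecFrob := by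
  obtain ⟨p, Cp, hp⟩ := h
  obtain ⟨-, -, -, -, -, hN, -⟩ := h0
  refine ⟨frobP p, Cp + 100, ?_⟩
  intro F _ _ tb a G q e htb ha
  have hv : (frobP p).val () (tb, ((a, (bits F q, un e)), G)) =
      List.foldl (fun (y : List F) (_ : Unit) =>
        (p.val () (tb, ((y, bits F q), G)) : List F)) a (un e) := by
    simp [frobP]
  have hs : ∀ e : ℕ, (List.foldl (fun (y : List F) (_ : Unit) =>
        (p.val () (tb, ((y, bits F q), G)) : List F)) a (un e)).length = G.length ∧
      mpol G ∣ pol a ^ (q ^ e) - pol (List.foldl (fun (y : List F) (_ : Unit) =>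
        (p.val () (tb, ((y, bits F q), G)) : List F)) a (un e)) := by
    intro e
    induction e with
    | zero =>
      simp only [un, List.replicate_zero, List.foldl_nil, pow_zero, pow_one, sub_self, dvd_zero,
        and_true]
      exact ha
    | succ e ih =>
      have e1 : un (e + 1) = un e ++ [()] := by
        simp only [un, List.replicate_succ']
      rw [e1, List.foldl_append, List.foldl_cons, List.foldl_nil]
      obtain ⟨r, hr⟩ : ∃ r, r = List.foldl (fun (y : List F) (_ : Unit) =>
        (p.val () (tb, ((y, bits F q), G)) : List F)) a (un e) := ⟨_, rfl⟩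
      rw [← hr] at ih ⊢
      obtain ⟨p1, p2, -⟩ := hp F tb r G q htb ih.1
      refine ⟨p1, ?_⟩
      have e2 : pol a ^ (q ^ (e + 1)) - pol (p.val () (tb, ((r, bits F q), G)) : List F) =
          ((pol a ^ (q ^ e)) ^ q - pol r ^ q) +
            (pol r ^ q - pol (p.val () (tb, ((r, bits F q), G)) : List F)) := by
        rw [pow_succ, pow_mul]
        ring
      rw [e2]
      exact dvd_add (ih.2.trans (sub_dvd_pow_sub_pow _ _ _)) p2
  simp only
  rw [hv]
  refine ⟨(hs e).1, (hs e).2, ?_⟩
  obtain ⟨L, hL⟩ : ∃ L, L = G.length := ⟨_, rfl⟩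
  obtain ⟨M, hM⟩ : ∃ M, M = mu (L + 1) := ⟨_, rfl⟩
  obtain ⟨K, hK⟩ : ∃ K, K = lgc (L + 1) := ⟨_, rfl⟩
  obtain ⟨N, hNN⟩ : ∃ N, N = lgc q := ⟨_, rfl⟩
  have hM1 : L + 1 ≤ M := by rw [hM]; exact hN _
  have hK1 : 1 ≤ K := by rw [hK]; unfold lgc; omega
  have hN1 : 1 ≤ N := by rw [hNN]; unfold lgc; omega
  have hKM : 1 ≤ K * M := by nlinarith
  have hNKM : 1 ≤ N * (K * M) := by nlinarith
  have h2 := cost_foldP_le (s := []) (F := F) (a := .unit) (b := Po) (c := .prod TB (.prod Po Po))
      (.comp (.pair (.comp .fst .fst) (.pair (.pair (.comp .snd .fst)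
        (.comp (.comp .fst .snd) .fst)) (.comp (.comp .fst .snd) .snd))) p) () ()
    ((tb, (bits F q, G)), (a, un e)) (Cp * N * K * M + 20)
    (fun y => List.length y = G.length)
    ha
    (fun y z hy _ => (hp F tb y G q htb hy).1)
    (fun y z hy _ => by
      have e1 := (hp F tb y G q htb hy).2.2
      rw [← hL, ← hM, ← hK, ← hNN] at e1
      simp at e1 ⊢
      omega)
  have hle : List.length (un e) = e := by simp [un]
  simp only [hle] at h2
  rw [← hL, ← hM, ← hK, ← hNN]
  have h3 : (frobP p).cost () () (tb, ((a, (bits F q, un e)), G)) ≤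
      (Cp * N * K * M + 20 + 27) * e + 14 + 30 := by
    simp only [frobP, cost_comp, cost_pair, cost_fst, cost_snd, val_comp, val_pair, val_fst,
      val_snd] at h2 ⊢
    omega
  refine h3.trans ?_
  have e5 : 47 * e + 44 ≤ 100 * ((e + 1) * (N * (K * M))) := by nlinarith
  calc (Cp * N * K * M + 20 + 27) * e + 14 + 30
      = Cp * (e * (N * (K * M))) + (47 * e + 44) := by ring
    _ ≤ Cp * ((e + 1) * (N * (K * M))) + 100 * ((e + 1) * (N * (K * M))) := by
        gcongr
        omega
    _ = (Cp + 100) * (e + 1) * N * K * M := by ring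

end Pool.Agent.H330FB.JA8
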