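import Mathlib

set_option autoImplicit false

/-!
# The recombination theorem: definitions and exact statements

`K` is a finite field with `Q` elements, `L` its quadratic extension, `S` a polynomial in
`K[t][x]` (outer variable `x`, inner variable `t`), `R = K[t]/t^s`, given as a ring `R` with a
surjective ring homomorphism `π : K[t] → R` with kernel `(t^s)`.
-/

namespace Pool.Agent.H330FB

open Polynomial

/-- total degree at most `n` (outer variable `x`, inner variable `t`) -/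
def TD {A : Type} [CommRing A] (f : A[X][X]) (n : ℕ) : Prop :=
  ∀ i j, n < i + j → (f.coeff i).coeff j = 0

/-- coefficient of `x^(m-1)` of `c mod F`, where `m` is the degree of the monic polynomial `F` -/
noncomputable def lam {R : Type} [CommRing R] (F c : R[X]) : R :=
  (c %ₘ F).coeff (F.natDegree - 1)

/-! ### statements on `lam` and on the total degree -/

/-- expansion of a polynomial by the values of `lam` -/
def StmtLamExpand : Prop := ∀ (R : Type) [CommRing R] (F V : R[X]), F.Monic → V.degree < F.degree →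
  V = ∑ k ∈ Finset.range F.natDegree, C (lam F (X ^ k * V)) *
    ∑ j ∈ Finset.range (F.natDegree - k), C (F.coeff (k + 1 + j)) * X ^ j

/-- `lam` of a product modulus -/
def StmtLamMul : Prop := ∀ (R : Type) [CommRing R] (F G c : R[X]), F.Monic → G.Monic →
  lam (F * G) (c * G) = lam F c

/-- `lam F (c F')` is a trace, so it commutes with powers of the Frobenius map -/
def StmtLamFrob : Prop := ∀ (L : Type) [Field L] (p : ℕ) [Fact p.Prime] [CharP L p] (k : ℕ)
  (f c : L[X]), f.Monic →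
  lam f (c ^ p ^ k * derivative f) = (lam f (c * derivative f)) ^ p ^ k

/-- `lam` is nondegenerate over a field -/
def StmtLamNondeg : Prop := ∀ (L : Type) [Field L] (F d : L[X]), F.Monic → d %ₘ F ≠ 0 →
  ∃ c : L[X], c.degree < F.degree ∧ lam F (c * d) ≠ 0

/-- reduction modulo a monic polynomial whose total degree is its `x`-degree -/
def StmtTDMod : Prop := ∀ (A : Type) [CommRing A] [Nontrivial A] (S f : A[X][X]) (k : ℕ),
  S.Monic → TD S S.natDegree → TD f k → TD (f %ₘ S) k ∧ TD (f /ₘ S) (k - S.natDegree)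

/-! ### Lemma E -/

/-- polynomial with the coefficients `G` -/
noncomputable def bpol {K : Type} [Field K] {n M : ℕ} (G : Fin n → Fin M → K) : K[X][X] :=
  ∑ i : Fin n, C (∑ j : Fin M, C (G i j) * X ^ (j : ℕ)) * X ^ (i : ℕ)

/-- Lemma E of the paper -/
def StmtLemmaE : Prop := ∀ (K : Type) [Field K] (R : Type) [CommRing R] (π : K[X] →+* R) (s : ℕ),
  (∀ f : K[X], π f = 0 ↔ X ^ s ∣ f) →
  ∀ (S : K[X][X]) (n : ℕ), S.Monic → S.natDegree = n → 1 ≤ n → TD S n →
  ∀ (V : R[X]), V.degree < n →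
  ∀ (M m r : ℕ), 1 ≤ r → r ≤ M → r ≤ s →
  ∀ (W : Submodule K (Fin n → Fin M → K)),
  (∀ G ∈ W, ∃ T : K[X], T.natDegree ≤ m ∧
    lam (S.map π) ((bpol G).map π * V) = π T) →
  n * M < Module.finrank K W + r →
  ∃ (δ : K[X]) (U : K[X][X]), δ ≠ 0 ∧ δ.natDegree < r ∧ U.degree < n ∧ TD U (m + r + n) ∧
    C (π δ) * V = U.map π

/-! ### few bad fibres -/

/-- the discriminant of `S` divides (in the weak sense needed) a polynomial of small degree -/
def StmtFewBad : Prop := ∀ (K : Type) [Field K] (S : K[X][X]) (n : ℕ), S.Monic →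
  S.natDegree = n → 1 ≤ n → TD S n →
  IsCoprime (S.map (algebraMap K[X] (RatFunc K))) (derivative (S.map (algebraMap K[X] (RatFunc K)))) →
  ∃ (δ : K[X]) (A B : K[X][X]), δ ≠ 0 ∧ δ.natDegree ≤ 2 * n ^ 2 + n ∧
    C δ = A * S + B * derivative S

/-! ### The recombination theorem -/

section
variable {K L : Type} [Field K] [Field L] [Algebra K L]

/-- evaluation of `t` at `a` -/
noncomputable def evt (a : L) : K[X] →+* L := eval₂RingHom (algebraMap K L) a

/-- the fibre `S(x, a)` -/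
noncomputable def fib (S : K[X][X]) (a : L) : L[X] := S.map (evt a)

/-- the polynomial of degree less than `n` with coefficients `g` -/
noncomputable def gp {n : ℕ} (g : Fin n → L) : L[X] := ∑ i : Fin n, C (g i) * X ^ (i : ℕ)

/-- coefficients of `g^Q` modulo the fibre -/
noncomputable def gfrob (S : K[X][X]) {n : ℕ} (Q : ℕ) (a : L) (g : Fin n → L) : Fin n → L :=
  fun i => ((gp g) ^ Q %ₘ fib S a).coeff i

/-- truncation of the sum of the traces of `τ_j / (t - a_j)` -/
noncomputable def Pser (K : Type) {L : Type} [Field K] [Field L] [Algebra K L] (s : ℕ) {N : ℕ}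
    (a τ : Fin N → L) : K[X] :=
  -∑ k ∈ Finset.range s, C (∑ j, Algebra.trace K L (τ j * (a j)⁻¹ ^ (k + 1))) * X ^ k

variable {R : Type} [CommRing R]

/-- the test series -/
noncomputable def Yp (π : K[X] →+* R) (s : ℕ) {n N : ℕ} (a : Fin N → L) (g : Fin N → Fin n → L) :
    R[X] :=
  ∑ i : Fin n, C (π (Pser K s a (fun j => g j i))) * X ^ (i : ℕ)

/-- the system of linear equations for `(l, τ)` -/
def Sys (π : K[X] →+* R) (s : ℕ) {n N r : ℕ} (S : K[X][X]) (F : Fin r → R[X]) (Q : ℕ)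
    (a : Fin N → L) (g : Fin N → Fin n → L) (l : Fin r → K) (τ : Fin N → L) : Prop :=
  (∃ T : K[X], T.degree < ((n - 1 : ℕ) : WithBot ℕ) ∧
    ∑ i, π (C (l i)) * lam (F i) (Yp π s a g * derivative (F i)) = π (T + Pser K s a τ)) ∧
  (∃ T : K[X], T.degree < ((n - 1 : ℕ) : WithBot ℕ) ∧
    ∑ i, π (C (l i)) * lam (F i)
      (Yp π s a (fun j => gfrob S Q (a j) (g j)) * derivative (F i)) =
        π (T + Pser K s a (fun j => τ j ^ Q)))

/-- `F i` and `F j` belong to the same irreducible factor of `S` -/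
def SameBlock (π : K[X] →+* R) {r : ℕ} (S : K[X][X]) (F : Fin r → R[X]) (i j : Fin r) : Prop :=
  ∃ g : K[X][X], g.Monic ∧ Irreducible g ∧ g ∣ S ∧ F i ∣ g.map π ∧ F j ∣ g.map π

/-- the choice of the `a_j` and `g_j` is good -/
def GoodR (π : K[X] →+* R) (s : ℕ) {n N r : ℕ} (S : K[X][X]) (F : Fin r → R[X]) (Q : ℕ)
    (a : Fin N → L) (g : Fin N → Fin n → L) : Prop :=
  (∀ j, a j ≠ 0) ∧
  (∀ (l : Fin r → K) (τ : Fin N → L), Sys π s S F Q a g l τ →
    ∀ i j, SameBlock π S F i j → l i = l j) ∧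
  (∀ (l : Fin r → K), (∀ i j, SameBlock π S F i j → l i = l j) →
    ∃ τ : Fin N → L, Sys π s S F Q a g l τ) ∧
  (∀ τ : Fin N → L, Sys π s S F Q a g 0 τ → τ = 0)

/-- the assumptions on `S` and its local factors -/
structure LocalFact (π : K[X] →+* R) (ε : R →+* K) (s n r : ℕ) (S : K[X][X])
    (F : Fin r → R[X]) : Prop where
  surj : Function.Surjective π
  ker : ∀ f : K[X], π f = 0 ↔ X ^ s ∣ f
  eps : ∀ f : K[X], ε (π f) = f.eval 0
  monic : S.Monic
  deg : S.natDegree = n
  pos : 1 ≤ n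
  td : TD S n
  Fmonic : ∀ i, (F i).Monic
  prod : ∏ i, F i = S.map π
  irr : ∀ i, Irreducible ((F i).map ε)
  inj : Function.Injective (fun i => (F i).map ε)

end

/-- the recombination theorem -/
def StmtR : Prop := ∀ (K L : Type) [Field K] [Field L] [Fintype K] [Fintype L] [Algebra K L]
  (R : Type) [CommRing R] (π : K[X] →+* R) (ε : R →+* K) (s n r : ℕ) (S : K[X][X])
  (F : Fin r → R[X]), Module.finrank K L = 2 → LocalFact π ε s n r S F →
  12 * n + 20 ≤ s → (40 * n) ^ 4 ≤ Fintype.card K →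
  Nat.card {ω : (Fin (2 * n + 2) → L) × (Fin (2 * n + 2) → Fin n → L) //
      ¬ GoodR π s S F (Fintype.card K) ω.1 ω.2} * Fintype.card K ≤
    7 * n * (Fintype.card L) ^ ((2 * n + 2) * (n + 1))

/-- the linear system over `L` in terms of coefficients (`zc`, `zc'` coefficients of the traces),
rows `k` with `n - 1 ≤ k < s` -/
def SysL {K L : Type} [Field K] [Field L] [Algebra K L] (n s Q : ℕ) {N r : ℕ}
    (zc zc' : Fin r → ℕ → K) (a : Fin N → L) (l : Fin r → L) (τ τ' : Fin N → L) : Prop :=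
  ∀ k, n - 1 ≤ k → k < s →
    (∑ i, l i * algebraMap K L (zc i k) +
      ∑ j, (τ j * (a j)⁻¹ ^ (k + 1) + τ' j * ((a j)⁻¹ ^ Q) ^ (k + 1)) = 0) ∧
    (∑ i, l i * algebraMap K L (zc' i k) +
      ∑ j, (τ' j * (a j)⁻¹ ^ (k + 1) + τ j * ((a j)⁻¹ ^ Q) ^ (k + 1)) = 0)

/-- from the system over `K` to the system over `L` -/
def StmtRL : Prop := ∀ (K L : Type) [Field K] [Field L] [Fintype K] [Fintype L] [Algebra K L]
  (R : Type) [CommRing R] (π : K[X] →+* R) (ε : R →+* K) (s n r N : ℕ) (S : K[X][X])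
  (F : Fin r → R[X]), Module.finrank K L = 2 → LocalFact π ε s n r S F →
  n ≤ s →
  ∀ (a : Fin N → L) (g : Fin N → Fin n → L), GoodR π s S F (Fintype.card K) a g →
  ∀ (zc zc' : Fin r → ℕ → K),
  (∀ i, lam (F i) (Yp π s a g * derivative (F i)) =
    π (∑ k ∈ Finset.range s, C (zc i k) * X ^ k)) →
  (∀ i, lam (F i) (Yp π s a (fun j => gfrob S (Fintype.card K) (a j) (g j)) *
      derivative (F i)) = π (∑ k ∈ Finset.range s, C (zc' i k) * X ^ k)) →
  (∀ (l : Fin r → L) (τ τ' : Fin N → L), SysL n s (Fintype.card K) zc zc' a l τ τ' →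
    ∀ i j, SameBlock π S F i j → l i = l j) ∧
  (∀ (l : Fin r → K), (∀ i j, SameBlock π S F i j → l i = l j) →
    ∃ τ τ' : Fin N → L,
      SysL n s (Fintype.card K) zc zc' a (fun i => algebraMap K L (l i)) τ τ') ∧
  (∀ (τ τ' : Fin N → L), SysL n s (Fintype.card K) zc zc' a 0 τ τ' → τ = 0 ∧ τ' = 0)

end Pool.Agent.H330FB
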