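import Pool.Agent.H330FB.Spec1
import Pool.Agent.H330FB.StmtsR

set_option autoImplicit false

/-!
# Exact statements on programs, part 2
-/

namespace Pool.Agent.H330FB

open Polynomial

/-- polylogarithmic factor -/
def PL (e q N : ℕ) : ℕ := (e + 1) * lgc q * lgc (N + 1)

/-- bivariate polynomial with the coefficients `l` (rows: coefficients of the powers of `x`) -/
noncomputable def biv {F : Type} [Field F] (l : List (List F)) : F[X][X] := pol (l.map pol)

/-- bivariate polynomial, monic in `x`, with the lower coefficients `l` -/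
noncomputable def mbiv {F : Type} [Field F] (l : List (List F)) : F[X][X] :=
  X ^ l.length + biv l

/-- values at `t = 0` -/
def hd0 {F : Type} [Field F] (l : List (List F)) : List F := l.map (fun r => r.getD 0 0)

/-! ### Factorization of polynomials in one variable -/

/-- the idempotent attached to `v`, input `(table, ((v, (bits q, e)), H))` -/
def SpecIdem : Prop := ∃ (p : Pr [] (.prod TB (.prod (.prod Po (.prod Po Un)) Po)) Po) (C k : ℕ),
  ∀ (K : Type) [Field K] [Fintype K] [DecidableEq K] (q e : ℕ), Fintype.card K = q ^ e →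
  ∃ ι : K → K, (∀ c, ι c = 0 ∨ ι c = 1) ∧
    4 * (Fintype.card K) ^ 2 ≤ 9 * Nat.card {x : K × K // ι x.1 ≠ ι x.2} ∧
  ∀ (tb : List (List K) × List (List K)) (v H : List K), IsTb tb → v.length = H.length →
  let E : List K := p.val () (tb, ((v, (bits K q, un e)), H))
  E.length = H.length ∧
  (∀ (c : K) (D : K[X]), D ∣ mpol H → D ∣ pol v - Polynomial.C c →
    D ∣ pol E - Polynomial.C (ι c)) ∧
  p.cost () () (tb, ((v, (bits K q, un e)), H)) ≤
    C * PL e q H.length ^ k * mu (H.length + 1)

/-- elements of the Berlekamp algebra; input `(table, ((bits q, e), (H, samples)))` -/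
def SpecBer : Prop := ∃ (p : Pr [] (.prod TB (.prod (.prod Po Un) (.prod Po Ma))) Ma) (C k : ℕ),
  ∀ (K : Type) [Field K] [Fintype K] [DecidableEq K] (q e : ℕ)
  (tb : List (List K) × List (List K)) (H : List K), Fintype.card K = q ^ e → IsTb tb →
  ∃ f : List K → List K,
  (∀ rs : List (List K), Sh H.length rs →
    (p.val () (tb, ((bits K q, un e), (H, rs))) : List (List K)) = rs.map f ∧
    p.cost () () (tb, ((bits K q, un e), (H, rs))) ≤
      C * PL e q H.length ^ k * ((rs.length + 1) * ww (H.length + 1))) ∧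
  (∀ r : List K, r.length = H.length → (f r).length = H.length ∧
    mpol H ∣ pol (f r) ^ (q ^ e) - pol (f r)) ∧
  (∀ b : List K, b.length = H.length → mpol H ∣ pol b ^ (q ^ e) - pol b →
    Nat.card {r : List K // r.length = H.length ∧ f r = b} *
      Nat.card {b : List K // b.length = H.length ∧ mpol H ∣ pol b ^ (q ^ e) - pol b} =
      Fintype.card K ^ H.length)

/-- splitting by idempotents; input `(table, (H, idempotents))` -/
def SpecRefine : Prop := ∃ (p : Pr [] (.prod TB (.prod Po Ma)) Ma) (C k : ℕ),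
  ∀ (F : Type) [Field F] [DecidableEq F] (tb : List (List F) × List (List F)) (H : List F)
  (Es : List (List F)), IsTb tb → 1 ≤ H.length → Sh H.length Es →
  (∀ E ∈ Es, mpol H ∣ pol E * pol E - pol E) →
  let Hs : List (List F) := p.val () (tb, (H, Es))
  (Hs.map mpol).prod = mpol H ∧ (∀ G ∈ Hs, 1 ≤ G.length) ∧
  (Hs.Pairwise (fun G G' => IsCoprime (mpol G) (mpol G'))) ∧
  (∀ G ∈ Hs, ∀ E ∈ Es, mpol G ∣ pol E ∨ mpol G ∣ pol E - 1) ∧
  p.cost () () (tb, (H, Es)) ≤
    C * lgc (H.length + 1) ^ k * ((Es.length + 1) * ww (H.length + 1))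

/-- radical of a primary polynomial; input `(table, ((bits q, e), H))` -/
def SpecPrim : Prop := ∃ (p : Pr [] (.prod TB (.prod (.prod Po Un) Po)) (.prod Po Un)) (C k : ℕ),
  ∀ (K : Type) [Field K] [Fintype K] [DecidableEq K] (q e : ℕ)
  (tb : List (List K) × List (List K)) (H : List K) (c : ℕ) (P : K[X]),
  Fintype.card K = q ^ e → IsTb tb → H.length ≤ q ^ e → Irreducible P → P.Monic → 1 ≤ c →
  mpol H = P ^ c →
  let r : List K × List Unit := p.val () (tb, ((bits K q, un e), H))
  mpol r.1 = P ∧ r.2 = un c ∧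
  p.cost () () (tb, ((bits K q, un e), H)) ≤ C * PL e q H.length ^ k * ww (H.length + 1)

/-- complete factorization of a monic polynomial in one variable -/
def UniGood {K : Type} [Field K] (h : List K) (out : List (List K × List Unit)) : Prop :=
  (out.map (fun x => mpol x.1 ^ x.2.length)).prod = mpol h ∧
  (∀ x ∈ out, Irreducible (mpol x.1) ∧ 1 ≤ x.2.length) ∧ (out.map Prod.fst).Nodup

/-- a matrix as a list of rows -/
def rows {F : Type} {m n : ℕ} (g : Fin m → Fin n → F) : List (List F) :=
  List.ofFn (fun i => List.ofFn (g i))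

/-- factorization in one variable; input `(table, ((bits q, e), (h, random rows)))` -/
def SpecUni : Prop := ∃ (p : Pr [] (.prod TB (.prod (.prod Po Un) (.prod Po Ma)))
    (.list (.prod Po Un))) (C k : ℕ),
  ∀ (K : Type) [Field K] [Fintype K] [DecidableEq K] (q e n : ℕ)
  (tb : List (List K) × List (List K)) (h : List K), Fintype.card K = q ^ e → IsTb tb →
  h.length = n → 1 ≤ n → n ≤ q ^ e →
  100 * Nat.card {r : Fin (3 * lgc n + 10) → Fin n → K //
      ¬ (UniGood h (p.val () (tb, ((bits K q, un e), (h, rows r)))) ∧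
        p.cost () () (tb, ((bits K q, un e), (h, rows r))) ≤
          C * PL e q n ^ k * ww (n + 1))} ≤
    Fintype.card K ^ ((3 * lgc n + 10) * n)

/-! ### Hensel lifting -/

/-- lifting of two factors; input `(table, (s, (F, (g0, h0))))` -/
def SpecHStep : Prop := ∃ (p : Pr [] (.prod TB (.prod Un (.prod Ma (.prod Po Po))))
    (.prod Ma Ma)) (C k : ℕ),
  ∀ (F : Type) [Field F] [DecidableEq F] (tb : List (List F) × List (List F)) (s : ℕ)
  (A : List (List F)) (g0 h0 : List F), IsTb tb → 1 ≤ s → Sh s A →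
  A.length = g0.length + h0.length → IsCoprime (mpol g0) (mpol h0) →
  mpol (hd0 A) = mpol g0 * mpol h0 →
  let r : List (List F) × List (List F) := p.val () (tb, (un s, (A, (g0, h0))))
  Sh s r.1 ∧ Sh s r.2 ∧ hd0 r.1 = g0 ∧ hd0 r.2 = h0 ∧
  (∀ (R : Type) [CommRing R] [Algebra F R] (τ : R), τ ^ s = 0 →
    mrp τ r.1 * mrp τ r.2 = mrp τ A) ∧
  p.cost () () (tb, (un s, (A, (g0, h0)))) ≤
    C * lgc (s + A.length) ^ k * (mu (s * A.length + 1) + ww (A.length + 1))

/-- lifting of a factorization, with reduction of two more polynomials modulo the factors; the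
factors carry labels. Input `(table, (s, (factors, (A, (Y, Y')))))` -/
def SpecTree : Prop := ∀ lab : Ty, ∃ (p : Pr [] (.prod TB (.prod Un (.prod (.list (.prod lab Po))
    (.prod Ma (.prod Ma Ma))))) (.list (.prod lab (.prod Ma (.prod Ma Ma))))) (C k : ℕ),
  ∀ (F : Type) [Field F] [DecidableEq F] (tb : List (List F) × List (List F)) (s : ℕ)
  (gs : List (Ty.D F lab × List F)) (A Y Y' : List (List F)), IsTb tb → 1 ≤ s → gs ≠ [] →
  (∀ g ∈ gs, 1 ≤ g.2.length) →
  gs.Pairwise (fun g g' => IsCoprime (mpol g.2) (mpol g'.2)) →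
  (gs.map (fun g => mpol g.2)).prod = mpol (hd0 A) → Sh s A → Sh s Y → Sh s Y' →
  Y.length = A.length → Y'.length = A.length →
  let out : List (Ty.D F lab × (List (List F) × (List (List F) × List (List F)))) :=
    p.val () (tb, (un s, (gs, (A, (Y, Y')))))
  (out.map (fun o => (o.1, hd0 o.2.1))).Perm gs ∧
  (∀ o ∈ out, Sh s o.2.1 ∧ Sh s o.2.2.1 ∧ Sh s o.2.2.2 ∧ o.2.2.1.length = o.2.1.length ∧
    o.2.2.2.length = o.2.1.length) ∧
  (∀ (R : Type) [CommRing R] [Algebra F R] (τ : R), τ ^ s = 0 →
    (out.map (fun o => mrp τ o.2.1)).prod = mrp τ A ∧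
    ∀ o ∈ out, mrp τ o.2.1 ∣ rp τ Y - rp τ o.2.2.1 ∧ mrp τ o.2.1 ∣ rp τ Y' - rp τ o.2.2.2) ∧
  p.cost () () (tb, (un s, (gs, (A, (Y, Y'))))) ≤
    C * lgc (s + A.length) ^ k * (mu (s * A.length + 1) + ww (A.length + 1))

/-- product of a list of monic polynomials; input `(table, (s, factors))` -/
def SpecProd : Prop := ∃ (p : Pr [] (.prod TB (.prod Un (.list Ma))) Ma) (C k : ℕ),
  ∀ (F : Type) [Field F] [DecidableEq F] (tb : List (List F) × List (List F)) (s : ℕ)
  (l : List (List (List F))), IsTb tb → 1 ≤ s → (∀ A ∈ l, Sh s A) →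
  let r : List (List F) := p.val () (tb, (un s, l))
  Sh s r ∧ r.length = (l.map List.length).sum ∧
  (∀ (R : Type) [CommRing R] [Algebra F R] (τ : R), τ ^ s = 0 →
    mrp τ r = (l.map (fun A => mrp τ A)).prod) ∧
  p.cost () () (tb, (un s, l)) ≤
    C * lgc (s + r.length + l.length) ^ k * mu (s * r.length + l.length + 1)

/-! ### Data for the recombination -/

/-- fibres: input `(A, places)` -/
def SpecFib : Prop := ∃ (p : Pr [] (.prod Ma Po) Ma) (C : ℕ),
  ∀ (F : Type) [Field F] [DecidableEq F] (w : ℕ) (A : List (List F)) (as : List F), Sh w A →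
  (p.val () (A, as) : List (List F)) = as.map (fun a => A.map (fun r => (pol r).eval a)) ∧
  p.cost () () (A, as) ≤ C * ww (A.length + w + as.length + 1)

/-- test series; input `((bits q, e), (s, (n, (places, rows of the g_j))))`; entry `(i, k)` of the
result is `-(m + m ^ (q ^ e))` with `m = sum_j g_{ji} a_j^(-k-1)` -/
def SpecY : Prop := ∃ (p : Pr [] (.prod (.prod Po Un) (.prod Un (.prod Un (.prod Po Ma)))) Ma)
    (C k : ℕ),
  ∀ (F : Type) [Field F] [DecidableEq F] (q e s n : ℕ) (as : List F) (gs : List (List F)),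
  Sh n gs → gs.length = as.length →
  (p.val () ((bits F q, un e), (un s, (un n, (as, gs)))) : List (List F)) =
    (List.range n).map (fun i => (List.range s).map (fun k =>
      -(((List.zipWith (fun a g => g.getD i 0 * a⁻¹ ^ (k + 1)) as gs).sum) +
        ((List.zipWith (fun a g => g.getD i 0 * a⁻¹ ^ (k + 1)) as gs).sum) ^ (q ^ e)))) ∧
  p.cost () () ((bits F q, un e), (un s, (un n, (as, gs)))) ≤
    C * PL e q (n + s) ^ k * ww (n + s + as.length + 1)

/-- the trace `lam F (Y F')`; input `(table, (s, (A, Y)))` -/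
def SpecLam : Prop := ∃ (p : Pr [] (.prod TB (.prod Un (.prod Ma Ma))) Po) (C k : ℕ),
  ∀ (F : Type) [Field F] [DecidableEq F] (tb : List (List F) × List (List F)) (s : ℕ)
  (A Y : List (List F)), IsTb tb → 1 ≤ s → Sh s A → Sh s Y → 1 ≤ A.length →
  Y.length = A.length →
  List.length (p.val () (tb, (un s, (A, Y))) : List F) = s ∧
  (∀ (R : Type) [CommRing R] [Algebra F R] (τ : R), τ ^ s = 0 →
    aeval τ (pol (p.val () (tb, (un s, (A, Y))) : List F)) =
      lam (mrp τ A) (rp τ Y * derivative (mrp τ A))) ∧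
  p.cost () () (tb, (un s, (A, Y))) ≤ C * lgc (A.length + 1) ^ k * mu (s * A.length + 1)

end Pool.Agent.H330FB
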