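import Pool.Agent.H330FB.Lib5
import Pool.Agent.H330FB.Spec2
set_option autoImplicit false
noncomputable section
namespace Pool.Agent.H330FB.JB1
open Polynomial

namespace Idem

/-! ### the function on the field -/

section count
variable {K : Type} [Field K] [Fintype K] [DecidableEq K]

lemma card_pairs (ι : K → K) (h : ∀ c, ι c = 0 ∨ ι c = 1) :
    Nat.card {x : K × K // ι x.1 ≠ ι x.2} =
      2 * ((Finset.univ.filter fun c => ι c = 1).card *
        (Finset.univ.filter fun c => ι c = 0).card) := by
  rw [Nat.card_eq_fintype_card, Fintype.card_subtype]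
  set S1 := Finset.univ.filter fun c => ι c = 1 with hS1
  set S0 := Finset.univ.filter fun c => ι c = 0 with hS0
  have h1 : (Finset.univ.filter fun x : K × K => ι x.1 ≠ ι x.2) = S1 ×ˢ S0 ∪ S0 ×ˢ S1 := by
    ext ⟨x, y⟩
    simp only [Finset.mem_filter, Finset.mem_univ, true_and, Finset.mem_union,
      Finset.mem_product, hS1, hS0]
    rcases h x with hx | hx <;> rcases h y with hy | hy <;> simp [hx, hy]
  have h2 : Disjoint (S1 ×ˢ S0) (S0 ×ˢ S1) := by
    rw [Finset.disjoint_left]
    rintro ⟨x, y⟩ hx hy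
    simp only [Finset.mem_filter, Finset.mem_univ, true_and,
      Finset.mem_product, hS1, hS0] at hx hy
    rw [hx.1] at hy
    exact one_ne_zero hy.1
  rw [h1, Finset.card_union_of_disjoint h2, Finset.card_product, Finset.card_product]
  ring

lemma card_split (ι : K → K) (h : ∀ c, ι c = 0 ∨ ι c = 1) :
    (Finset.univ.filter fun c => ι c = 1).card + (Finset.univ.filter fun c => ι c = 0).card =
      Fintype.card K := by
  have h1 : (Finset.univ.filter fun c => ι c = 0) = (Finset.univ.filter fun c => ¬ ι c = 1) := by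
    ext c
    simp only [Finset.mem_filter, Finset.mem_univ, true_and]
    rcases h c with hc | hc <;> simp [hc]
  rw [h1, Finset.card_filter_add_card_filter_not, Finset.card_univ]

/-- odd case -/
def io (c : K) : K :=
  ((1 : K) + 1)⁻¹ * (c ^ (Fintype.card K / 2) * c ^ (Fintype.card K / 2) +
    c ^ (Fintype.card K / 2))

lemma io_spec (h2 : (1 : K) + 1 ≠ 0) : (∀ c : K, io c = 0 ∨ io c = 1) ∧
    4 * (Fintype.card K) ^ 2 ≤ 9 * Nat.card {x : K × K // io x.1 ≠ io x.2} := by
  have hr : ringChar K ≠ 2 := by
    intro h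
    have h3 : ((2 : ℕ) : K) = 0 := by
      rw [← h]; exact ringChar.Nat.cast_ringChar
    apply h2
    rw [one_add_one_eq_two]
    exact_mod_cast h3
  have hQ : 2 < Fintype.card K := by
    have h1 := Fintype.one_lt_card (α := K)
    have h3 := FiniteField.odd_card_of_char_ne_two hr
    omega
  set m := Fintype.card K / 2 with hm
  have hm0 : m ≠ 0 := by omega
  have hval : ∀ c : K, (c = 0 ∧ io c = 0) ∨ (c ≠ 0 ∧ c ^ m = 1 ∧ io c = 1) ∨
      (c ≠ 0 ∧ c ^ m = -1 ∧ io c = 0) := by
    intro c
    by_cases hc : c = 0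
    · left
      refine ⟨hc, ?_⟩
      rw [hc, io, ← hm, zero_pow hm0]; ring
    · right
      rcases FiniteField.pow_dichotomy hr hc with h | h
      · left
        refine ⟨hc, h, ?_⟩
        rw [io, h, mul_one]
        exact inv_mul_cancel₀ h2
      · right
        refine ⟨hc, h, ?_⟩
        rw [io, h]; ring
  have h01 : ∀ c : K, io c = 0 ∨ io c = 1 := by
    intro c
    rcases hval c with h | h | h
    · exact Or.inl h.2
    · exact Or.inr h.2.2
    · exact Or.inl h.2.2
  refine ⟨h01, ?_⟩
  rw [card_pairs io h01]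
  have hs := card_split (K := K) io h01
  set A := (Finset.univ.filter fun c : K => io c = 1).card with hA
  set B := (Finset.univ.filter fun c : K => io c = 0).card with hB
  obtain ⟨u, hu⟩ := FiniteField.exists_nonsquare hr
  have hu0 : u ≠ 0 := by
    rintro rfl
    exact hu ⟨0, by ring⟩
  have hum : u ^ m = -1 := by
    rcases FiniteField.pow_dichotomy hr hu0 with h | h
    · exact absurd ((FiniteField.isSquare_iff hr hu0).2 h) hu
    · exact h
  have hne : (1 : K) ≠ -1 := by
    intro h
    apply h2
    nth_rewrite 2 [h]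
    ring
  have hAB : A = (Finset.univ.filter fun c : K => c ^ m = -1).card := by
    refine Finset.card_bijective (fun c => u * c) (mulLeft_bijective₀ u hu0) ?_
    intro c
    simp only [Finset.mem_filter, Finset.mem_univ, true_and]
    rw [mul_pow, hum]
    rcases hval c with h | h | h
    · rw [h.2, h.1, zero_pow hm0]
      simp
    · rw [h.2.2, h.2.1]
      simp
    · rw [h.2.2, h.2.1]
      simp only [zero_ne_one, false_iff]
      intro h3
      apply hne
      rw [← h3]; ring
  have hB' : B = (Finset.univ.filter fun c : K => c ^ m = -1).card + 1 := by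
    rw [hB, ← Finset.card_insert_of_notMem (a := (0 : K))]
    · congr 1
      ext c
      simp only [Finset.mem_filter, Finset.mem_univ, true_and, Finset.mem_insert]
      rcases hval c with h | h | h
      · exact ⟨fun _ => Or.inl h.1, fun _ => h.2⟩
      · rw [h.2.2, h.2.1]
        simp [h.1, hne]
      · simp [h.2.2, h.2.1]
    · simp only [Finset.mem_filter, Finset.mem_univ, true_and]
      rw [zero_pow hm0]
      intro h
      have := neg_eq_zero.1 h.symm
      exact one_ne_zero this
  have hA1 : 1 ≤ A := by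
    rw [hA, Nat.one_le_iff_ne_zero, ← Nat.pos_iff_ne_zero, Finset.card_pos]
    refine ⟨1, ?_⟩
    simp only [Finset.mem_filter, Finset.mem_univ, true_and]
    rcases hval 1 with h | h | h
    · exact absurd h.1 one_ne_zero
    · exact h.2.2
    · rw [one_pow] at h
      exact absurd h.2.1 hne
  rw [← hAB] at hB'
  rw [← hs, hB']
  nlinarith

/-- even case -/
def ie (k : ℕ) (c : K) : K := ∑ i ∈ Finset.range k, c ^ (2 ^ i)

lemma ie_spec (h2 : (1 : K) + 1 = 0) (k : ℕ) (hk : Fintype.card K = 2 ^ k) :
    (∀ c : K, ie k c = 0 ∨ ie k c = 1) ∧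
    4 * (Fintype.card K) ^ 2 ≤ 9 * Nat.card {x : K × K // ie k x.1 ≠ ie k x.2} := by
  have hch : CharP K 2 := by
    apply CharTwo.of_one_ne_zero_of_two_eq_zero one_ne_zero
    rw [← one_add_one_eq_two]; exact h2
  have hf : Fact (Nat.Prime 2) := ⟨Nat.prime_two⟩
  have hk1 : 1 ≤ k := by
    rcases Nat.eq_zero_or_pos k with h | h
    · rw [h, pow_zero] at hk
      have := Fintype.one_lt_card (α := K)
      omega
    · exact h
  have hadd : ∀ c d : K, ie k (c + d) = ie k c + ie k d := by
    intro c d
    rw [ie, ie, ie, ← Finset.sum_add_distrib]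
    refine Finset.sum_congr rfl fun i _ => ?_
    exact add_pow_char_pow c d 2 i
  have hsq : ∀ c : K, ie k c ^ 2 = ie k c := by
    intro c
    have h1 : ie k c ^ 2 = ∑ i ∈ Finset.range k, c ^ (2 ^ (i + 1)) := by
      rw [ie, sum_pow_char]
      refine Finset.sum_congr rfl fun i _ => ?_
      rw [← pow_mul, pow_succ]
    have h3 := Finset.sum_range_succ' (fun i => c ^ (2 ^ i)) k
    have h4 := Finset.sum_range_succ (fun i => c ^ (2 ^ i)) k
    rw [h3, ← h1, ← hk, FiniteField.pow_card, pow_zero, pow_one] at h4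
    exact add_right_cancel h4
  have h01 : ∀ c : K, ie k c = 0 ∨ ie k c = 1 := by
    intro c
    have h1 : ie k c * (ie k c - 1) = 0 := by
      have := hsq c
      linear_combination this
    rcases mul_eq_zero.1 h1 with h | h
    · exact Or.inl h
    · exact Or.inr (sub_eq_zero.1 h)
  refine ⟨h01, ?_⟩
  obtain ⟨c0, hc0⟩ : ∃ c0 : K, ie k c0 = 1 := by
    by_contra hcon
    push Not at hcon
    have hz : ∀ c : K, ie k c = 0 := fun c => (h01 c).resolve_right (hcon c)
    let P : K[X] := ∑ i ∈ Finset.range k, X ^ (2 ^ i)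
    have hP0 : P ≠ 0 := by
      intro h
      have h1 : P.coeff 1 = 0 := by rw [h]; simp
      have h3 : P.coeff 1 = 1 := by
        simp only [P, Polynomial.finsetSum_coeff, Polynomial.coeff_X_pow]
        rw [Finset.sum_eq_single 0]
        · simp
        · intro i _ hi
          rw [if_neg]
          intro h4
          have : 1 < 2 ^ i := Nat.one_lt_two_pow hi
          omega
        · intro h4
          exact absurd (Finset.mem_range.2 hk1) h4
      rw [h3] at h1
      exact one_ne_zero h1
    have hdeg : P.natDegree < (Finset.univ : Finset K).card := by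
      rw [Finset.card_univ, hk]
      have h1 : P.natDegree ≤ 2 ^ (k - 1) := by
        apply Polynomial.natDegree_sum_le_of_forall_le
        intro i hi
        rw [Polynomial.natDegree_X_pow]
        apply Nat.pow_le_pow_right (by norm_num)
        have := Finset.mem_range.1 hi
        omega
      refine lt_of_le_of_lt h1 ?_
      exact Nat.pow_lt_pow_right (by norm_num) (by omega)
    apply hP0
    refine Polynomial.eq_zero_of_natDegree_lt_card_of_eval_eq_zero' P Finset.univ ?_ hdeg
    intro c _
    rw [Polynomial.eval_finsetSum]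
    simp only [Polynomial.eval_pow, Polynomial.eval_X]
    exact hz c
  rw [card_pairs (ie k) h01]
  have hs := card_split (K := K) (ie k) h01
  set A := (Finset.univ.filter fun c : K => ie k c = 1).card with hA
  set B := (Finset.univ.filter fun c : K => ie k c = 0).card with hB
  have hAB : A = B := by
    refine Finset.card_bijective (fun c => c + c0) (Equiv.addRight c0).bijective ?_
    intro c
    simp only [Finset.mem_filter, Finset.mem_univ, true_and]
    rw [hadd, hc0]
    rcases h01 c with h | h
    · rw [h]; simp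
    · rw [h, h2]; simp
  rw [← hs, ← hAB]
  nlinarith

end count


/-! ### representatives -/

section rep
variable {K : Type} [Field K]

/-- `r` represents `f` modulo `mpol H` -/
def Rep (H r : List K) (f : K[X]) : Prop := r.length = H.length ∧ mpol H ∣ f - pol r

lemma pol_zip (c : K) (a b : List K) (h : a.length = b.length) :
    pol (List.zipWith (fun x y => c * (x + y)) a b) = Polynomial.C c * (pol a + pol b) := by
  induction a generalizing b with
  | nil =>
    cases b with
    | nil => simp [pol]
    | cons y b => simp at h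
  | cons x a ih =>
    cases b with
    | nil => simp at h
    | cons y b =>
      simp only [List.zipWith_cons_cons, pol, ih b (by simpa using h), map_add, map_mul]
      ring

lemma pol_zero (a : List K) : pol (a.map (fun _ => (0 : K))) = 0 := by
  induction a with
  | nil => rfl
  | cons x a ih => simp only [List.map_cons, pol, ih, map_zero, mul_zero, add_zero]

lemma Rep.zip {H a b : List K} {f g : K[X]} (c : K) (ha : Rep H a f) (hb : Rep H b g) :
    Rep H (List.zipWith (fun x y => c * (x + y)) a b) (Polynomial.C c * (f + g)) := by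
  refine ⟨?_, ?_⟩
  · rw [List.length_zipWith, ha.1, hb.1, min_self]
  · rw [pol_zip c a b (ha.1.trans hb.1.symm)]
    have : Polynomial.C c * (f + g) - Polynomial.C c * (pol a + pol b) =
        Polynomial.C c * ((f - pol a) + (g - pol b)) := by ring
    rw [this]
    exact Dvd.dvd.mul_left (dvd_add ha.2 hb.2) _

lemma Rep.mul {H a b r : List K} {f g : K[X]} (ha : Rep H a f) (hb : Rep H b g)
    (h1 : r.length = H.length) (h2 : mpol H ∣ pol a * pol b - pol r) : Rep H r (f * g) := by
  refine ⟨h1, ?_⟩
  have : f * g - pol r = (f - pol a) * g + pol a * (g - pol b) + (pol a * pol b - pol r) := by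
    ring
  rw [this]
  exact dvd_add (dvd_add (Dvd.dvd.mul_right ha.2 _) (Dvd.dvd.mul_left hb.2 _)) h2

lemma Rep.pow {H a r : List K} {f : K[X]} (ha : Rep H a f) (n : ℕ)
    (h1 : r.length = H.length) (h2 : mpol H ∣ pol a ^ n - pol r) : Rep H r (f ^ n) := by
  refine ⟨h1, ?_⟩
  have : f ^ n - pol r = (f ^ n - pol a ^ n) + (pol a ^ n - pol r) := by ring
  rw [this]
  exact dvd_add (ha.2.trans (sub_dvd_pow_sub_pow _ _ n)) h2

lemma Rep.cong {H r : List K} {f g : K[X]} (h : Rep H r f) (e : f = g) : Rep H r g := e ▸ h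

lemma Rep.fin {H r : List K} {f D : K[X]} {c : K} (h : Rep H r f) (hD : D ∣ mpol H)
    (h1 : D ∣ f - Polynomial.C c) : D ∣ pol r - Polynomial.C c := by
  have : pol r - Polynomial.C c = (f - Polynomial.C c) - (f - pol r) := by ring
  rw [this]
  exact dvd_sub h1 (hD.trans h.2)

/-- the elements of the two folds: iteration of the step in the even case -/
lemma iterE {H : List K} (st : List K × List K → List K × List K)
    (hst : ∀ y f g, Rep H y.1 f → Rep H y.2 g → Rep H (st y).1 (f + g) ∧ Rep H (st y).2 (g * g))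
    (n : ℕ) : ∀ y f g, Rep H y.1 f → Rep H y.2 g →
      Rep H (st^[n] y).1 (f + ∑ i ∈ Finset.range n, g ^ (2 ^ i)) ∧
        Rep H (st^[n] y).2 (g ^ (2 ^ n)) := by
  induction n with
  | zero =>
    intro y f g hf hg
    simp only [Function.iterate_zero, id, Finset.range_zero, Finset.sum_empty, add_zero,
      pow_zero, pow_one]
    exact ⟨hf, hg⟩
  | succ n ih =>
    intro y f g hf hg
    obtain ⟨h1, h2⟩ := hst y f g hf hg
    obtain ⟨h3, h4⟩ := ih _ _ _ h1 h2
    rw [Function.iterate_succ_apply]
    refine ⟨h3.cong ?_, h4.cong ?_⟩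
    · rw [Finset.sum_range_succ', pow_zero, pow_one]
      have : ∀ i, (g * g) ^ 2 ^ i = g ^ 2 ^ (i + 1) := by
        intro i
        rw [← pow_two, ← pow_mul, pow_succ']
      simp only [this]
      ring
    · rw [← pow_two, ← pow_mul, pow_succ']

lemma iterO {H : List K} (q : ℕ) (st : List K × List K → List K × List K)
    (hst : ∀ y f g, Rep H y.1 f → Rep H y.2 g → Rep H (st y).1 (f * g) ∧ Rep H (st y).2 (g ^ q))
    (n : ℕ) : ∀ y f g, Rep H y.1 f → Rep H y.2 g →
      Rep H (st^[n] y).1 (f * g ^ (∑ i ∈ Finset.range n, q ^ i)) ∧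
        Rep H (st^[n] y).2 (g ^ (q ^ n)) := by
  induction n with
  | zero =>
    intro y f g hf hg
    simp only [Function.iterate_zero, id, Finset.range_zero, Finset.sum_empty, mul_one,
      pow_zero, pow_one]
    exact ⟨hf, hg⟩
  | succ n ih =>
    intro y f g hf hg
    obtain ⟨h1, h2⟩ := hst y f g hf hg
    obtain ⟨h3, h4⟩ := ih _ _ _ h1 h2
    rw [Function.iterate_succ_apply]
    refine ⟨h3.cong ?_, h4.cong ?_⟩
    · rw [geom_sum_succ, ← pow_mul, pow_succ]
      ring
    · rw [← pow_mul, pow_succ']

end rep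


/-! ### programs -/

/-- type of the programs for products and powers -/
abbrev TM : Type := Pr [] (.prod TB (.prod (.prod Po Po) Po)) Po

/-- context: table, bits, modulus -/
abbrev Cx : Ty := .prod TB (.prod Po Po)

/-- type of the input -/
abbrev Ix : Ty := .prod TB (.prod (.prod Po (.prod Po Un)) Po)

/-- `c * (x + y)` -/
def zc : Pr [] (.prod .fld (.prod .fld .fld)) .fld := .comp (.pair .fst (.comp .snd .add)) .mul

/-- one step, odd case -/
def stO (MM PW : TM) : Pr [] (.prod Cx (.prod (.prod Po Po) .unit)) (.prod Po Po) :=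
  .pair
    (.comp (.pair (.comp .fst .fst) (.pair (.comp .snd .fst) (.comp (.comp .fst .snd) .snd))) MM)
    (.comp (.pair (.comp .fst .fst) (.pair (.pair (.comp (.comp .snd .fst) .snd)
      (.comp (.comp .fst .snd) .fst)) (.comp (.comp .fst .snd) .snd))) PW)

/-- one step, even case -/
def stE (MM : TM) : Pr [] (.prod Cx (.prod (.prod Po Po) .fld)) (.prod Po Po) :=
  .pair
    (.comp (.pair .one (.comp .snd .fst)) (zipP zc))
    (.comp (.pair (.comp .fst .fst) (.pair (.pair (.comp (.comp .snd .fst) .snd)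
      (.comp (.comp .snd .fst) .snd)) (.comp (.comp .fst .snd) .snd))) MM)

/-- inner fold, even case -/
def inE (MM : TM) : Pr [] (.prod Cx (.prod (.prod Po Po) .unit)) (.prod Po Po) :=
  .comp (.pair .fst (.pair (.comp .snd .fst) (.comp (.comp .fst .snd) .fst))) (foldP (stE MM))

/-- components of the input -/
def iV : Pr [] Ix Po := .comp (.comp .snd .fst) .fst
/-- components of the input -/
def iQ : Pr [] Ix Po := .comp (.comp (.comp .snd .fst) .snd) .fst
/-- components of the input -/
def iU : Pr [] Ix Un := .comp (.comp (.comp .snd .fst) .snd) .snd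
/-- components of the input -/
def iH : Pr [] Ix Po := .comp .snd .snd
/-- tail of the bits -/
def iT : Pr [] Ix Po := onL iQ .nil (.comp .snd .snd)

/-- zero, of the length of the modulus -/
def zerP : Pr [] Ix Po := .comp (.pair .star iH) (mapP (c := .unit) .zero)

/-- data for the outer fold, even case -/
def dE : Pr [] Ix (.prod Cx (.prod (.prod Po Po) Un)) :=
  .pair (.pair .fst (.pair iT iH)) (.pair (.pair zerP iV) iU)

/-- even case -/
def pE (MM : TM) : Pr [] Ix Po := .comp (.comp dE (foldP (inE MM))) .fst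

/-- one, modulo the modulus -/
def oneP (MM : TM) : Pr [] Ix Po :=
  .comp (.pair .fst (.pair (.pair (.comp (.pair .one .nil) .cons) (.comp (.pair .one .nil) .cons))
    iH)) MM

/-- data for the fold, odd case -/
def dO (MM : TM) : Pr [] Ix (.prod Cx (.prod (.prod Po Po) Un)) :=
  .pair (.pair .fst (.pair iQ iH)) (.pair (.pair (oneP MM) iV) iU)

/-- odd case, the norm-like product -/
def pO1 (MM PW : TM) : Pr [] Ix Po := .comp (.comp (dO MM) (foldP (stO MM PW))) .fst

/-- odd case, the power -/
def pO2 (PW : TM) : Pr [] (.prod Ix Po) Po :=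
  .comp (.pair (.comp .fst .fst) (.pair (.pair .snd (.comp .fst iT)) (.comp .fst iH))) PW

/-- the square -/
def sqP (MM : TM) : Pr [] (.prod (.prod Ix Po) Po) Po :=
  .comp (.pair (.comp (.comp .fst .fst) .fst) (.pair (.pair .snd .snd)
      (.comp (.comp .fst .fst) iH))) MM

/-- data for the last step -/
def d3 (MM : TM) : Pr [] (.prod (.prod Ix Po) Po) (.prod .fld (.prod Po Po)) :=
  .pair (.comp (.comp (.pair .one .one) .add) .inv) (.pair (sqP MM) .snd)

/-- odd case, the last step -/
def pO3 (MM : TM) : Pr [] (.prod (.prod Ix Po) Po) Po := .comp (d3 MM) (zipP zc)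

/-- odd case -/
def pO (MM PW : TM) : Pr [] Ix Po := lt (pO1 MM PW) (lt (pO2 PW) (pO3 MM))

/-- the program -/
def pI (MM PW : TM) : Pr [] Ix Po := onZ (.comp (.pair .one .one) .add) (pE MM) (pO MM PW)

section vals
variable {F : Type} [Field F] [DecidableEq F]

/-- input of the product program -/
abbrev mmv (MM : TM) (tb : List (List F) × List (List F)) (H a b : List F) : List F :=
  MM.val () (tb, ((a, b), H))

lemma val_stE (MM : TM) (tb : List (List F) × List (List F)) (t H : List F)
    (y : List F × List F) (z : F) :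
    (stE MM).val () ((tb, (t, H)), (y, z)) =
      (List.zipWith (fun a b => (1 : F) * (a + b)) y.1 y.2, mmv MM tb H y.2 y.2) := by
  simp [stE, zc]

lemma val_inE (MM : TM) (tb : List (List F) × List (List F)) (t H : List F)
    (y : List F × List F) (z : Unit) :
    (inE MM).val () ((tb, (t, H)), (y, z)) =
      (fun y : List F × List F => (List.zipWith (fun a b => (1 : F) * (a + b)) y.1 y.2,
        mmv MM tb H y.2 y.2))^[t.length] y := by
  rw [← List.foldl_const]
  simp only [inE, val_comp, val_pair, val_fst, val_snd, val_foldP]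
  exact congrArg (fun f => List.foldl f y t) (funext fun y => funext fun z => val_stE MM tb t H y z)

lemma val_stO (MM PW : TM) (tb : List (List F) × List (List F)) (t H : List F)
    (y : List F × List F) (z : Unit) :
    (stO MM PW).val () ((tb, (t, H)), (y, z)) =
      (mmv MM tb H y.1 y.2, mmv PW tb H y.2 t) := by
  simp [stO]

lemma val_iT (tb : List (List F) × List (List F)) (v t H : List F) (u : List Unit) :
    iT.val () (tb, ((v, (t, u)), H)) = t.tail := by
  cases t <;> simp [iT, iQ]

lemma val_dE (tb : List (List F) × List (List F)) (v t H : List F) (u : List Unit) :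
    dE.val () (tb, ((v, (t, u)), H)) =
      ((tb, (t.tail, H)), ((H.map (fun _ => (0 : F)), v), u)) := by
  have h1 := val_iT tb v t H u
  have h2 : zerP.val () (tb, ((v, (t, u)), H)) = H.map (fun _ => (0 : F)) := by
    simp only [zerP, val_comp, val_pair, val_mapP, val_zero, val_snd, iH]
  exact Prod.ext (Prod.ext rfl (Prod.ext h1 rfl)) (Prod.ext (Prod.ext h2 rfl) rfl)

lemma val_pE (MM : TM) (tb : List (List F) × List (List F)) (v t H : List F) (u : List Unit) :
    (pE MM).val () (tb, ((v, (t, u)), H)) =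
      ((fun y : List F × List F => (List.zipWith (fun a b => (1 : F) * (a + b)) y.1 y.2,
        mmv MM tb H y.2 y.2))^[t.tail.length * u.length] (H.map (fun _ => (0 : F)), v)).1 := by
  rw [Function.iterate_mul, ← List.foldl_const]
  have h0 : (pE MM).val () (tb, ((v, (t, u)), H)) =
    ((foldP (inE MM)).val () (dE.val () (tb, ((v, (t, u)), H)))).1 := rfl
  rw [h0, val_dE, val_foldP]
  have h2 : (fun (y : List F × List F) (z : Unit) =>
      (inE MM).val () ((tb, (t.tail, H)), (y, z))) =
      fun y _ => (fun y : List F × List F => (List.zipWith (fun a b => (1 : F) * (a + b)) y.1 y.2,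
        mmv MM tb H y.2 y.2))^[t.tail.length] y := by
    funext y z
    exact val_inE MM tb _ H y z
  exact congrArg (fun f => (List.foldl f (H.map (fun _ => (0 : F)), v) u).1) h2

lemma val_dO (MM : TM) (tb : List (List F) × List (List F)) (v t H : List F) (u : List Unit) :
    (dO MM).val () (tb, ((v, (t, u)), H)) =
      ((tb, (t, H)), ((mmv MM tb H [1] [1], v), u)) := rfl

lemma val_pO1 (MM PW : TM) (tb : List (List F) × List (List F)) (v t H : List F)
    (u : List Unit) :
    (pO1 MM PW).val () (tb, ((v, (t, u)), H)) =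
      ((fun y : List F × List F => (mmv MM tb H y.1 y.2, mmv PW tb H y.2 t))^[u.length]
        (mmv MM tb H [1] [1], v)).1 := by
  rw [← List.foldl_const]
  have h0 : (pO1 MM PW).val () (tb, ((v, (t, u)), H)) =
    ((foldP (stO MM PW)).val () ((dO MM).val () (tb, ((v, (t, u)), H)))).1 := rfl
  rw [h0, val_dO, val_foldP]
  exact congrArg (fun f => (List.foldl f (mmv MM tb H [1] [1], v) u).1)
    (funext fun y => funext fun z => val_stO MM PW tb t H y z)

lemma val_pO2 (PW : TM) (tb : List (List F) × List (List F)) (v t H : List F)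
    (u : List Unit) (w : List F) :
    (pO2 PW).val () ((tb, ((v, (t, u)), H)), w) = mmv PW tb H w t.tail := by
  have h1 := val_iT tb v t H u
  simp only [pO2, val_comp, val_pair, val_fst, val_snd, iH]
  exact congrArg (fun s => PW.val () (tb, ((w, s), H))) h1

lemma val_d3 (MM : TM) (tb : List (List F) × List (List F)) (v t H : List F)
    (u : List Unit) (w w' : List F) :
    (d3 MM).val () (((tb, ((v, (t, u)), H)), w), w') =
      (((1 : F) + 1)⁻¹, (mmv MM tb H w' w', w')) := rfl

lemma val_pO3 (MM : TM) (tb : List (List F) × List (List F)) (v t H : List F)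
    (u : List Unit) (w w' : List F) :
    (pO3 MM).val () (((tb, ((v, (t, u)), H)), w), w') =
      List.zipWith (fun a b => ((1 : F) + 1)⁻¹ * (a + b)) (mmv MM tb H w' w') w' := by
  have h0 : (pO3 MM).val () (((tb, ((v, (t, u)), H)), w), w') =
    (zipP zc).val () ((d3 MM).val () (((tb, ((v, (t, u)), H)), w), w')) := rfl
  rw [h0, val_d3, val_zipP]
  rfl

end vals


/-! ### costs -/

/-- the bound for one product -/
def BM (MM : TM) (F : Type) [Field F] [DecidableEq F] (K1 : ℕ) (tb : List (List F) × List (List F))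
    (H : List F) (M : ℕ) : Prop :=
  ∀ a b : List F, a.length ≤ H.length + 1 → b.length ≤ H.length + 1 →
    List.length (MM.val () (tb, ((a, b), H)) : List F) = H.length ∧
    MM.cost () () (tb, ((a, b), H)) ≤ K1 * M

section costs
variable {F : Type} [Field F] [DecidableEq F]

lemma cost_stE (MM : TM) (K1 : ℕ) (tb : List (List F) × List (List F)) (t H : List F) (M : ℕ)
    (hM : 1 ≤ M) (hN : H.length ≤ M) (hMM : BM MM F K1 tb H M)
    (y : List F × List F) (z : F) (h1 : y.1.length = H.length) (h2 : y.2.length = H.length) :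
    (stE MM).cost () () ((tb, (t, H)), (y, z)) ≤ (K1 + 100) * M := by
  have e1 := cost_zipP_le (F := F) zc () () ((1 : F), (y.1, y.2)) 5 (by
    intro a _ b _
    simp only [zc, cost_comp, cost_pair, cost_fst, cost_snd, cost_add, cost_mul]
    omega)
  have e2 := (hMM y.2 y.2 (by omega) (by omega)).2
  simp only [stE, cost_pair, cost_comp, cost_fst, cost_snd, cost_one, val_pair, val_comp, val_fst,
    val_snd, val_one]
  simp only [h1] at e1
  have e3 : (K1 + 100) * M = K1 * M + 100 * M := by ring
  rw [e3]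
  have e4 : (zipP zc).cost () () ((1 : F), y) ≤ (5 + 49) * H.length + 15 := e1
  omega

lemma cost_inE (MM : TM) (K1 : ℕ) (tb : List (List F) × List (List F)) (t H : List F) (M L : ℕ)
    (hM : 1 ≤ M) (hN : H.length ≤ M) (hMM : BM MM F K1 tb H M) (hL : 1 ≤ L) (ht : t.length ≤ L)
    (y : List F × List F) (z : Unit) (h1 : y.1.length = H.length) (h2 : y.2.length = H.length) :
    (inE MM).cost () () ((tb, (t, H)), (y, z)) ≤ (K1 + 150) * (L * M) := by
  have e1 := cost_foldP_le (F := F) (stE MM) () () ((tb, (t, H)), (y, t)) ((K1 + 100) * M)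
    (fun y => List.length y.1 = H.length ∧ List.length y.2 = H.length) ⟨h1, h2⟩
    (by
      intro y z hy _
      have := val_stE MM tb t H y z
      change List.length ((stE MM).val () ((tb, (t, H)), (y, z))).1 = H.length ∧
        List.length ((stE MM).val () ((tb, (t, H)), (y, z))).2 = H.length
      rw [this]
      refine ⟨?_, ?_⟩
      · rw [List.length_zipWith, hy.1, hy.2, min_self]
      · exact (hMM _ _ (by omega) (by omega)).1)
    (by
      intro y z hy _
      exact cost_stE MM K1 tb t H M hM hN hMM y z hy.1 hy.2)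
  simp only [inE, cost_pair, cost_comp, cost_fst, cost_snd, val_pair, val_comp, val_fst, val_snd]
  have e4 : (foldP (stE MM)).cost () () ((tb, (t, H)), (y, t)) ≤
    ((K1 + 100) * M + 27) * t.length + 14 := e1
  have e5 : ((K1 + 100) * M + 27) * t.length ≤ ((K1 + 100) * M + 27) * L :=
    Nat.mul_le_mul_left _ ht
  have e6 : ((K1 + 100) * M + 27) * L = (K1 + 100) * (L * M) + 27 * L := by ring
  have e7 : L ≤ L * M := Nat.le_mul_of_pos_right _ hM
  have e8 : (K1 + 150) * (L * M) = (K1 + 100) * (L * M) + 50 * (L * M) := by ring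
  rw [e8]
  omega

lemma len_iE (MM : TM) (K1 : ℕ) (tb : List (List F) × List (List F)) (H : List F) (M : ℕ)
    (hMM : BM MM F K1 tb H M) (n : ℕ) : ∀ (y : List F × List F),
    y.1.length = H.length → y.2.length = H.length →
    ((fun y : List F × List F => (List.zipWith (fun a b => (1 : F) * (a + b)) y.1 y.2,
        mmv MM tb H y.2 y.2))^[n] y).1.length = H.length ∧
    ((fun y : List F × List F => (List.zipWith (fun a b => (1 : F) * (a + b)) y.1 y.2,
        mmv MM tb H y.2 y.2))^[n] y).2.length = H.length := by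
  induction n with
  | zero => intro y h1 h2; exact ⟨h1, h2⟩
  | succ n ih =>
    intro y h1 h2
    rw [Function.iterate_succ_apply]
    refine ih _ ?_ ?_
    · rw [List.length_zipWith, h1, h2, min_self]
    · exact (hMM _ _ (by omega) (by omega)).1

lemma cost_iT (tb : List (List F) × List (List F)) (v t H : List F) (u : List Unit) :
    iT.cost () () (tb, ((v, (t, u)), H)) ≤ 20 := by
  cases t <;> simp [iT, iQ]

lemma cost_pE (MM : TM) (K1 : ℕ) (tb : List (List F) × List (List F)) (v t H : List F)
    (u : List Unit) (M L : ℕ)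
    (hM : 1 ≤ M) (hN : H.length ≤ M) (hMM : BM MM F K1 tb H M) (hL : 1 ≤ L)
    (ht : t.tail.length ≤ L) (h2 : v.length = H.length) :
    (pE MM).cost () () (tb, ((v, (t, u)), H)) ≤ (K1 + 300) * ((u.length + 1) * L * M) := by
  have e1 := cost_foldP_le (F := F) (inE MM) () ()
    ((tb, (t.tail, H)), ((H.map (fun _ => (0 : F)), v), u)) ((K1 + 150) * (L * M))
    (fun y => List.length y.1 = H.length ∧ List.length y.2 = H.length)
    ⟨by simp, h2⟩
    (by
      intro y z hy _
      have := val_inE MM tb t.tail H y z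
      change List.length ((inE MM).val () ((tb, (t.tail, H)), (y, z))).1 = H.length ∧
        List.length ((inE MM).val () ((tb, (t.tail, H)), (y, z))).2 = H.length
      rw [this]
      exact len_iE MM K1 tb H M hMM _ y hy.1 hy.2)
    (by
      intro y z hy _
      exact cost_inE MM K1 tb t.tail H M L hM hN hMM hL ht y z hy.1 hy.2)
  have e2 := cost_mapP_le (F := F) (s := []) (c := .unit) (a := .fld) (b := .fld) .zero () () ((), H) 1
    (by intro y _; simp)
  have e3 := cost_iT tb v t H u
  have e10 : (pE MM).cost () () (tb, ((v, (t, u)), H)) =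
      dE.cost () () (tb, ((v, (t, u)), H)) +
      (foldP (inE MM)).cost () () (dE.val () (tb, ((v, (t, u)), H))) + 1 := rfl
  rw [e10, val_dE]
  have e4 : (foldP (inE MM)).cost () ()
      ((tb, (t.tail, H)), ((H.map (fun _ => (0 : F)), v), u)) ≤
      ((K1 + 150) * (L * M) + 27) * u.length + 14 := e1
  have e14 : dE.cost () () (tb, ((v, (t, u)), H)) ≤
      iT.cost () () (tb, ((v, (t, u)), H)) + zerP.cost () () (tb, ((v, (t, u)), H)) + 30 := by
    simp only [dE, cost_pair, cost_comp, cost_fst, cost_snd, iH, iV, iU]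
    omega
  have e15 : zerP.cost () () (tb, ((v, (t, u)), H)) =
      4 + (mapP (c := .unit) .zero : Pr [] (.prod .unit (.list .fld)) (.list .fld)).cost () ()
        ((), H) := rfl
  have e5 : (mapP (c := .unit) .zero : Pr [] (.prod .unit (.list .fld)) (.list .fld)).cost () ()
      ((), H) ≤ (1 + 13) * H.length + 5 := e2
  have e6 : 1 ≤ L * M := Nat.mul_pos hL hM
  have e7 : M ≤ L * M := Nat.le_mul_of_pos_left _ hL
  have e8 : (K1 + 300) * ((u.length + 1) * L * M) =
    ((K1 + 150) * (L * M)) * u.length + K1 * (L * M) + 150 * (L * M * u.length) + 300 * (L * M) := by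
    ring
  have e11 : ((K1 + 150) * (L * M) + 27) * u.length =
    ((K1 + 150) * (L * M)) * u.length + 27 * u.length := by ring
  have e12 : u.length ≤ L * M * u.length := Nat.le_mul_of_pos_left _ e6
  rw [e8]
  rw [e11] at e4
  omega

end costs


section costs2
variable {F : Type} [Field F] [DecidableEq F]

/-- the bound for one power -/
def BP (PW : TM) (F : Type) [Field F] [DecidableEq F] (K2 : ℕ) (tb : List (List F) × List (List F))
    (t H : List F) (M L : ℕ) : Prop :=
  ∀ a : List F, a.length = H.length →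
    List.length (PW.val () (tb, ((a, t), H)) : List F) = H.length ∧
    PW.cost () () (tb, ((a, t), H)) ≤ K2 * (L * M)

lemma cost_stO (MM PW : TM) (K1 K2 : ℕ) (tb : List (List F) × List (List F)) (t H : List F)
    (M L : ℕ) (hM : 1 ≤ M) (hL : 1 ≤ L) (hMM : BM MM F K1 tb H M) (hPW : BP PW F K2 tb t H M L)
    (y : List F × List F) (z : Unit) (h1 : y.1.length = H.length) (h2 : y.2.length = H.length) :
    (stO MM PW).cost () () ((tb, (t, H)), (y, z)) ≤ (K1 + K2 + 50) * (L * M) := by
  have e2 : MM.cost () () (tb, (y, H)) ≤ K1 * M := (hMM y.1 y.2 (by omega) (by omega)).2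
  have e3 := (hPW y.2 h2).2
  simp only [stO, cost_pair, cost_comp, cost_fst, cost_snd, val_pair, val_comp, val_fst,
    val_snd]
  have e7 : M ≤ L * M := Nat.le_mul_of_pos_left _ hL
  have e8 : K1 * M ≤ K1 * (L * M) := Nat.mul_le_mul_left _ e7
  have e4 : (K1 + K2 + 50) * (L * M) = K1 * (L * M) + K2 * (L * M) + 50 * (L * M) := by ring
  rw [e4]
  omega

lemma len_iO (MM PW : TM) (K1 K2 : ℕ) (tb : List (List F) × List (List F)) (t H : List F)
    (M L : ℕ) (hMM : BM MM F K1 tb H M) (hPW : BP PW F K2 tb t H M L) (n : ℕ) :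
    ∀ (y : List F × List F), y.1.length = H.length → y.2.length = H.length →
    ((fun y : List F × List F => (mmv MM tb H y.1 y.2, mmv PW tb H y.2 t))^[n] y).1.length
      = H.length := by
  induction n with
  | zero => intro y h1 h2; exact h1
  | succ n ih =>
    intro y h1 h2
    rw [Function.iterate_succ_apply]
    refine ih _ ?_ ?_
    · exact (hMM _ _ (by omega) (by omega)).1
    · exact (hPW _ h2).1

lemma cost_pO1 (MM PW : TM) (K1 K2 : ℕ) (tb : List (List F) × List (List F)) (v t H : List F)
    (u : List Unit) (M L : ℕ)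
    (hM : 1 ≤ M) (hMM : BM MM F K1 tb H M) (hL : 1 ≤ L)
    (hPW : BP PW F K2 tb t H M L) (h2 : v.length = H.length) :
    (pO1 MM PW).cost () () (tb, ((v, (t, u)), H)) ≤
      (K1 + K2 + 200) * ((u.length + 1) * L * M) := by
  have h1 := hMM [1] [1] (by simp) (by simp)
  have e1 := cost_foldP_le (F := F) (stO MM PW) () ()
    ((tb, (t, H)), ((mmv MM tb H [1] [1], v), u)) ((K1 + K2 + 50) * (L * M))
    (fun y => List.length y.1 = H.length ∧ List.length y.2 = H.length)
    ⟨h1.1, h2⟩
    (by
      intro y z hy _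
      have := val_stO MM PW tb t H y z
      change List.length ((stO MM PW).val () ((tb, (t, H)), (y, z))).1 = H.length ∧
        List.length ((stO MM PW).val () ((tb, (t, H)), (y, z))).2 = H.length
      rw [this]
      exact ⟨(hMM _ _ (by omega) (by omega)).1, (hPW _ hy.2).1⟩)
    (by
      intro y z hy _
      exact cost_stO MM PW K1 K2 tb t H M L hM hL hMM hPW y z hy.1 hy.2)
  have e10 : (pO1 MM PW).cost () () (tb, ((v, (t, u)), H)) =
      (dO MM).cost () () (tb, ((v, (t, u)), H)) +
      (foldP (stO MM PW)).cost () () ((dO MM).val () (tb, ((v, (t, u)), H))) + 1 := rfl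
  have e14 : (dO MM).cost () () (tb, ((v, (t, u)), H)) ≤
      MM.cost () () (tb, (([1], [1]), H)) + 60 := by
    simp only [dO, cost_pair, cost_comp, cost_fst, cost_snd, cost_one, cost_nil, cost_cons,
      val_pair, val_comp, val_fst, val_snd, val_one, val_nil, val_cons, iH, iV, iU, iQ, oneP]
    omega
  rw [e10, val_dO]
  have e4 : (foldP (stO MM PW)).cost () () ((tb, (t, H)), ((mmv MM tb H [1] [1], v), u)) ≤
      ((K1 + K2 + 50) * (L * M) + 27) * u.length + 14 := e1
  have e6 : 1 ≤ L * M := Nat.mul_pos hL hM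
  have e7 : M ≤ L * M := Nat.le_mul_of_pos_left _ hL
  have e5 : K1 * M ≤ K1 * (L * M) := Nat.mul_le_mul_left _ e7
  have e8 : (K1 + K2 + 200) * ((u.length + 1) * L * M) =
    ((K1 + K2 + 50) * (L * M)) * u.length + K1 * (L * M) + K2 * (L * M) +
      150 * (L * M * u.length) + 200 * (L * M) := by
    ring
  have e11 : ((K1 + K2 + 50) * (L * M) + 27) * u.length =
    ((K1 + K2 + 50) * (L * M)) * u.length + 27 * u.length := by ring
  have e12 : u.length ≤ L * M * u.length := Nat.le_mul_of_pos_left _ e6
  have e13 := h1.2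
  rw [e8]
  rw [e11] at e4
  omega

lemma cost_pO (MM PW : TM) (K1 K2 : ℕ) (tb : List (List F) × List (List F)) (v t H : List F)
    (u : List Unit) (M L : ℕ)
    (hM : 1 ≤ M) (hN : H.length ≤ M) (hMM : BM MM F K1 tb H M) (hL : 1 ≤ L)
    (hPW : BP PW F K2 tb t H M L) (hPW' : BP PW F K2 tb t.tail H M L)
    (h2 : v.length = H.length) :
    (pO MM PW).cost () () (tb, ((v, (t, u)), H)) ≤
      (2 * K1 + 2 * K2 + 500) * ((u.length + 1) * L * M) := by
  have h1 := hMM [1] [1] (by simp) (by simp)
  have e1 := cost_pO1 MM PW K1 K2 tb v t H u M L hM hMM hL hPW h2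
  have v1 := val_pO1 MM PW tb v t H u
  have l1 := len_iO MM PW K1 K2 tb t H M L hMM hPW u.length (mmv MM tb H [1] [1], v) h1.1 h2
  rw [← v1] at l1
  set w : List F := (pO1 MM PW).val () (tb, ((v, (t, u)), H)) with hw
  have v2 := val_pO2 PW tb v t H u w
  have l2 := hPW' w l1
  set w' : List F := (pO2 PW).val () ((tb, ((v, (t, u)), H)), w) with hw'
  have l3 : w'.length = H.length := by rw [v2]; exact l2.1
  have l4 := hMM w' w' (by omega) (by omega)
  have e2 : (pO2 PW).cost () () ((tb, ((v, (t, u)), H)), w) ≤ K2 * (L * M) + 40 := by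
    have e3 := cost_iT tb v t H u
    have e9 := val_iT tb v t H u
    have e10 : (pO2 PW).cost () () ((tb, ((v, (t, u)), H)), w) =
      iT.cost () () (tb, ((v, (t, u)), H)) +
      PW.cost () () (tb, ((w, iT.val () (tb, ((v, (t, u)), H))), H)) + 10 := by
      simp only [pO2, cost_pair, cost_comp, cost_fst, cost_snd,
        val_pair, val_comp, val_fst, val_snd, iH]
      omega
    rw [e10, e9]
    have := l2.2
    omega
  have e3 : (pO3 MM).cost () () (((tb, ((v, (t, u)), H)), w), w') ≤
      K1 * M + 54 * H.length + 60 := by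
    have e4 := cost_zipP_le (F := F) zc () () (((1 : F) + 1)⁻¹,
        ((mmv MM tb H w' w' : List F), w')) 5 (by
      intro a _ b _
      simp only [zc, cost_comp, cost_pair, cost_fst, cost_snd, cost_add, cost_mul]
      omega)
    have e5 : (pO3 MM).cost () () (((tb, ((v, (t, u)), H)), w), w') =
      (d3 MM).cost () () (((tb, ((v, (t, u)), H)), w), w') +
      (zipP zc).cost () () ((d3 MM).val () (((tb, ((v, (t, u)), H)), w), w')) := rfl
    have e10 : (d3 MM).cost () () (((tb, ((v, (t, u)), H)), w), w') ≤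
      MM.cost () () (tb, ((w', w'), H)) + 45 := by
      simp only [d3, sqP, cost_pair, cost_comp, cost_fst, cost_snd, cost_one, cost_inv, cost_add,
        val_pair, val_comp, val_fst, val_snd, iH]
      omega
    rw [e5, val_d3]
    have e6 : (zipP zc).cost () () (((1 : F) + 1)⁻¹, ((mmv MM tb H w' w' : List F), w')) ≤
      (5 + 49) * (mmv MM tb H w' w').length + 15 := e4
    have e7 : (mmv MM tb H w' w').length = H.length := l4.1
    have e8 := l4.2
    rw [e7] at e6
    omega
  have e4 : (pO MM PW).cost () () (tb, ((v, (t, u)), H)) =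
      (pO1 MM PW).cost () () (tb, ((v, (t, u)), H)) +
      ((pO2 PW).cost () () ((tb, ((v, (t, u)), H)), w) +
      (pO3 MM).cost () () (((tb, ((v, (t, u)), H)), w), w') + 2) + 2 := by
    simp only [pO, cost_lt, hw, hw']
  rw [e4]
  have e6 : 1 ≤ L * M := Nat.mul_pos hL hM
  have e7 : M ≤ L * M := Nat.le_mul_of_pos_left _ hL
  have e5 : K1 * M ≤ K1 * (L * M) := Nat.mul_le_mul_left _ e7
  have e8 : (2 * K1 + 2 * K2 + 500) * ((u.length + 1) * L * M) =
    (K1 + K2 + 200) * ((u.length + 1) * L * M) + (K1 + K2 + 300) * (u.length * (L * M)) +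
      K1 * (L * M) + K2 * (L * M) + 300 * (L * M) := by
    ring
  rw [e8]
  omega

end costs2


/-! ### units -/

lemma lgc_mono {a b : ℕ} (h : a ≤ b) : lgc a ≤ lgc b :=
  Nat.succ_le_succ (Nat.clog_mono_right 2 h)

lemma lgc_four (N : ℕ) : lgc (4 * (N + 1)) ≤ 3 * lgc (N + 1) := by
  have h1 : Nat.clog 2 (4 * (N + 1)) ≤ Nat.clog 2 (N + 1) + 2 := by
    apply Nat.clog_le_of_le_pow
    rw [pow_add]
    have := Nat.le_pow_clog (b := 2) (by norm_num) (N + 1)
    omega
  unfold lgc
  omega

lemma bits_tail (K : Type) [Field K] (q : ℕ) : (bits K q).tail = bits K (q / 2) := by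
  unfold bits
  rw [← List.map_tail, ← Nat.div2_bits_eq_tail, Nat.div2_val]

lemma bits_len (K : Type) [Field K] (q : ℕ) : (bits K q).tail.length = q.size - 1 := by
  unfold bits
  rw [List.length_tail, List.length_map, Nat.size_eq_bits_len]

lemma bits_len_le (K : Type) [Field K] (q : ℕ) : (bits K q).tail.length ≤ lgc q := by
  rw [bits_len]
  have h : q.size ≤ lgc q := by
    rw [Nat.size_le]
    unfold lgc
    refine lt_of_le_of_lt (Nat.le_pow_clog (b := 2) (by norm_num) q) ?_
    exact Nat.pow_lt_pow_right (by norm_num) (Nat.lt_succ_self _)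
  omega

lemma un_length (n : ℕ) : (un n).length = n := List.length_replicate

lemma le_unit {e L M : ℕ} (hL : 1 ≤ L) (hM : 1 ≤ M) : 1 ≤ (e + 1) * L * M :=
  Nat.mul_pos (Nat.mul_pos (Nat.succ_pos e) hL) hM

lemma bound_MM {F : Type} [Field F] [DecidableEq F] (MM : TM) (C1 C3 : ℕ)
    (hmono : ∀ a b, a ≤ b → mu a ≤ mu b) (hC3 : ∀ N, mu (3 * (N + 1)) ≤ C3 * mu (N + 1))
    (tb : List (List F) × List (List F)) (H : List F)
    (h : ∀ a b : List F, List.length (MM.val () (tb, ((a, b), H)) : List F) = H.length ∧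
      MM.cost () () (tb, ((a, b), H)) ≤
        C1 * lgc (a.length + b.length + 1) * mu (a.length + b.length + H.length + 1)) :
    BM MM F (3 * C1 * C3) tb H (lgc (H.length + 1) * mu (H.length + 1)) := by
  intro a b ha hb
  refine ⟨(h a b).1, (h a b).2.trans ?_⟩
  have h1 : lgc (a.length + b.length + 1) ≤ 3 * lgc (H.length + 1) :=
    (lgc_mono (by omega)).trans (lgc_four _)
  have h2 : mu (a.length + b.length + H.length + 1) ≤ C3 * mu (H.length + 1) :=
    (hmono _ _ (by omega)).trans (hC3 _)
  calc C1 * lgc (a.length + b.length + 1) * mu (a.length + b.length + H.length + 1)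
      ≤ C1 * (3 * lgc (H.length + 1)) * (C3 * mu (H.length + 1)) :=
        Nat.mul_le_mul (Nat.mul_le_mul_left _ h1) h2
    _ = 3 * C1 * C3 * (lgc (H.length + 1) * mu (H.length + 1)) := by ring

lemma bound_PW {F : Type} [Field F] [DecidableEq F] (PW : TM) (C2 n q : ℕ) (hn : n ≤ q)
    (tb : List (List F) × List (List F)) (H : List F)
    (h : ∀ a : List F, a.length = H.length →
      List.length (PW.val () (tb, ((a, bits F n), H)) : List F) = H.length ∧
      PW.cost () () (tb, ((a, bits F n), H)) ≤
        C2 * lgc n * lgc (H.length + 1) * mu (H.length + 1)) :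
    BP PW F C2 tb (bits F n) H (lgc (H.length + 1) * mu (H.length + 1)) (lgc q) := by
  intro a ha
  refine ⟨(h a ha).1, (h a ha).2.trans ?_⟩
  calc C2 * lgc n * lgc (H.length + 1) * mu (H.length + 1)
      ≤ C2 * lgc q * lgc (H.length + 1) * mu (H.length + 1) :=
        Nat.mul_le_mul_right _ (Nat.mul_le_mul_right _ (Nat.mul_le_mul_left _ (lgc_mono hn)))
    _ = C2 * (lgc q * (lgc (H.length + 1) * mu (H.length + 1))) := by ring

section final
variable {K : Type} [Field K] [Fintype K] [DecidableEq K]

lemma even_exp (q e : ℕ) (h2 : (1 : K) + 1 = 0) (hq : Fintype.card K = q ^ e) :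
    Fintype.card K = 2 ^ ((bits K q).tail.length * e) := by
  have hch : CharP K 2 := by
    apply CharTwo.of_one_ne_zero_of_two_eq_zero one_ne_zero
    rw [← one_add_one_eq_two]; exact h2
  obtain ⟨n, -, hn⟩ := FiniteField.card K 2
  have he : e ≠ 0 := by
    rintro rfl
    rw [pow_zero] at hq
    have := Fintype.one_lt_card (α := K)
    omega
  have hd : q ∣ 2 ^ (n : ℕ) := by
    rw [← hn, hq]
    exact dvd_pow_self q he
  obtain ⟨a, -, rfl⟩ := (Nat.dvd_prime_pow Nat.prime_two).1 hd
  rw [bits_len, Nat.size_pow, hq, Nat.add_sub_cancel, pow_mul]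

lemma odd_exp (q e : ℕ) (h2 : (1 : K) + 1 ≠ 0) (hq : Fintype.card K = q ^ e) :
    (∑ i ∈ Finset.range e, q ^ i) * (q / 2) = Fintype.card K / 2 := by
  have hr : ringChar K ≠ 2 := by
    intro h
    have h3 : ((2 : ℕ) : K) = 0 := by
      rw [← h]; exact ringChar.Nat.cast_ringChar
    apply h2
    rw [one_add_one_eq_two]
    exact_mod_cast h3
  have h1 := Fintype.one_lt_card (α := K)
  have h3 := FiniteField.odd_card_of_char_ne_two hr
  have he : e ≠ 0 := by
    rintro rfl
    rw [pow_zero] at hq
    omega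
  have hqo : q % 2 = 1 := by
    rw [hq] at h3
    by_contra hcon
    have h4 : q % 2 = 0 := by omega
    have h5 : Even q := Nat.even_iff.2 h4
    have h6 : Even (q ^ e) := (Nat.even_pow.2 ⟨h5, he⟩)
    have h7 := Nat.even_iff.1 h6
    omega
  obtain ⟨r, hr'⟩ : ∃ r, q = 2 * r + 1 := ⟨q / 2, by omega⟩
  have h4 := geom_sum_mul_add (2 * r) e
  rw [← hr', ← hq] at h4
  have h5 : q / 2 = r := by omega
  rw [h5]
  have h6 : (∑ i ∈ Finset.range e, q ^ i) * (2 * r) =
      2 * ((∑ i ∈ Finset.range e, q ^ i) * r) := by ring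
  rw [h6] at h4
  omega

omit [Fintype K] [DecidableEq K] in
lemma pol_one_list : pol ([1] : List K) = 1 := by
  simp [pol]

end final

end Idem

theorem specIdem (h1 : SpecMulMod) (h2 : SpecPow) (h3 : SpecFrob) (h0 : SpecUnits) : SpecIdem := by
  obtain ⟨MM, C1, hMM⟩ := h1
  obtain ⟨PW, C2, hPW⟩ := h2
  obtain ⟨hmono, -, -, -, -, hle, -, hc, -⟩ := h0
  obtain ⟨C3, hC3⟩ := hc 3
  refine ⟨Idem.pI MM PW, 6 * C1 * C3 + 2 * C2 + 600, 1, ?_⟩
  intro K _ _ _ q e hq
  by_cases h2 : (1 : K) + 1 = 0
  · -- even case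
    set k := (bits K q).tail.length * e with hk
    have hcard := Idem.even_exp q e h2 hq
    rw [← hk] at hcard
    obtain ⟨g1, g2⟩ := Idem.ie_spec h2 k hcard
    refine ⟨Idem.ie k, g1, g2, ?_⟩
    intro tb v H htb hv
    have hB := Idem.bound_MM MM C1 C3 hmono hC3 tb H
      (fun a b => ⟨(hMM K tb a b H htb).1, (hMM K tb a b H htb).2.2⟩)
    have hval : (Idem.pI MM PW).val () (tb, ((v, (bits K q, un e)), H)) =
        (Idem.pE MM).val () (tb, ((v, (bits K q, un e)), H)) := by
      have : (Idem.pI MM PW).val () (tb, ((v, (bits K q, un e)), H)) =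
        if (1 : K) + 1 = 0 then (Idem.pE MM).val () (tb, ((v, (bits K q, un e)), H)) else
          (Idem.pO MM PW).val () (tb, ((v, (bits K q, un e)), H)) := rfl
      rw [this, if_pos h2]
    have hcost : (Idem.pI MM PW).cost () () (tb, ((v, (bits K q, un e)), H)) =
        (Idem.pE MM).cost () () (tb, ((v, (bits K q, un e)), H)) + 7 := by
      have : (Idem.pI MM PW).cost () () (tb, ((v, (bits K q, un e)), H)) =
        1 + (1 + 1 + 1 + 1) + 1 + (if (1 : K) + 1 = 0 then
          (Idem.pE MM).cost () () (tb, ((v, (bits K q, un e)), H)) else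
          (Idem.pO MM PW).cost () () (tb, ((v, (bits K q, un e)), H))) + 1 := rfl
      rw [this, if_pos h2]
      omega
    have hR : Idem.Rep H ((Idem.pE MM).val () (tb, ((v, (bits K q, un e)), H)))
        (0 + ∑ i ∈ Finset.range k, pol v ^ (2 ^ i)) := by
      rw [Idem.val_pE, Idem.un_length, ← hk]
      refine (Idem.iterE _ ?_ k (H.map (fun _ => (0 : K)), v) 0 (pol v) ?_ ?_).1
      · intro y f g hf hg
        refine ⟨(Idem.Rep.zip 1 hf hg).cong (by simp), ?_⟩
        have := hMM K tb y.2 y.2 H htb
        exact hg.mul hg this.1 this.2.1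
      · exact ⟨by simp, by rw [Idem.pol_zero]; simp⟩
      · exact ⟨hv, by simp⟩
    simp only
    rw [hval, hcost]
    refine ⟨hR.1, ?_, ?_⟩
    · intro c D hD hc
      refine hR.fin hD ?_
      have : (0 + ∑ i ∈ Finset.range k, pol v ^ (2 ^ i)) - Polynomial.C (Idem.ie k c) =
          ∑ i ∈ Finset.range k, (pol v ^ (2 ^ i) - Polynomial.C c ^ (2 ^ i)) := by
        rw [Finset.sum_sub_distrib, Idem.ie, map_sum, zero_add]
        simp only [map_pow]
      rw [this]
      exact Finset.dvd_sum fun i _ => hc.trans (sub_dvd_pow_sub_pow _ _ _)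
    · have hM : 1 ≤ lgc (H.length + 1) * mu (H.length + 1) :=
        Nat.mul_pos (Nat.succ_pos _) ((Nat.succ_pos _).trans_le (hle _))
      have hN : H.length ≤ lgc (H.length + 1) * mu (H.length + 1) :=
        (Nat.le_succ _).trans ((hle _).trans (Nat.le_mul_of_pos_left _ (Nat.succ_pos _)))
      have hL : 1 ≤ lgc q := Nat.succ_pos _
      have := Idem.cost_pE MM (3 * C1 * C3) tb v (bits K q) H (un e)
        (lgc (H.length + 1) * mu (H.length + 1)) (lgc q) hM hN hB hL (Idem.bits_len_le K q) hv
      rw [Idem.un_length] at this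
      have hu := Idem.le_unit (e := e) hL hM
      set U := (e + 1) * lgc q * (lgc (H.length + 1) * mu (H.length + 1)) with hU
      have e1 : (6 * C1 * C3 + 2 * C2 + 600) * PL e q H.length ^ 1 * mu (H.length + 1) =
          (3 * C1 * C3 + 300) * U + 3 * C1 * C3 * U + 2 * C2 * U + 300 * U := by
        rw [hU, PL]; ring
      rw [e1]
      have e2 : 7 ≤ 300 * U := by omega
      calc (Idem.pE MM).cost () () (tb, ((v, (bits K q, un e)), H)) + 7
          ≤ (3 * C1 * C3 + 300) * U + 300 * U := Nat.add_le_add this e2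
        _ ≤ _ := by
            have : (3 * C1 * C3 + 300) * U ≤
              (3 * C1 * C3 + 300) * U + 3 * C1 * C3 * U + 2 * C2 * U := by
              rw [Nat.add_assoc]; exact Nat.le_add_right _ _
            exact Nat.add_le_add_right this _
  · -- odd case
    obtain ⟨g1, g2⟩ := Idem.io_spec (K := K) h2
    refine ⟨Idem.io, g1, g2, ?_⟩
    intro tb v H htb hv
    have hB := Idem.bound_MM MM C1 C3 hmono hC3 tb H
      (fun a b => ⟨(hMM K tb a b H htb).1, (hMM K tb a b H htb).2.2⟩)
    have hP := Idem.bound_PW PW C2 q q le_rfl tb H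
      (fun a ha => ⟨(hPW K tb a H q htb ha).1, (hPW K tb a H q htb ha).2.2⟩)
    have hP' := Idem.bound_PW PW C2 (q / 2) q (Nat.div_le_self _ _) tb H
      (fun a ha => ⟨(hPW K tb a H (q / 2) htb ha).1, (hPW K tb a H (q / 2) htb ha).2.2⟩)
    rw [← Idem.bits_tail] at hP'
    have hval : (Idem.pI MM PW).val () (tb, ((v, (bits K q, un e)), H)) =
        (Idem.pO MM PW).val () (tb, ((v, (bits K q, un e)), H)) := by
      have : (Idem.pI MM PW).val () (tb, ((v, (bits K q, un e)), H)) =
        if (1 : K) + 1 = 0 then (Idem.pE MM).val () (tb, ((v, (bits K q, un e)), H)) else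
          (Idem.pO MM PW).val () (tb, ((v, (bits K q, un e)), H)) := rfl
      rw [this, if_neg h2]
    have hcost : (Idem.pI MM PW).cost () () (tb, ((v, (bits K q, un e)), H)) =
        (Idem.pO MM PW).cost () () (tb, ((v, (bits K q, un e)), H)) + 7 := by
      have : (Idem.pI MM PW).cost () () (tb, ((v, (bits K q, un e)), H)) =
        1 + (1 + 1 + 1 + 1) + 1 + (if (1 : K) + 1 = 0 then
          (Idem.pE MM).cost () () (tb, ((v, (bits K q, un e)), H)) else
          (Idem.pO MM PW).cost () () (tb, ((v, (bits K q, un e)), H))) + 1 := rfl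
      rw [this, if_neg h2]
      omega
    have hone : Idem.Rep H (Idem.mmv MM tb H [1] [1]) 1 := by
      have := hMM K tb [1] [1] H htb
      refine ⟨this.1, ?_⟩
      have e1 := this.2.1
      rw [Idem.pol_one_list, mul_one] at e1
      exact e1
    set S := ∑ i ∈ Finset.range e, q ^ i with hS
    have hw : Idem.Rep H ((Idem.pO1 MM PW).val () (tb, ((v, (bits K q, un e)), H)))
        (1 * pol v ^ S) := by
      rw [Idem.val_pO1, Idem.un_length]
      refine (Idem.iterO q _ ?_ e (Idem.mmv MM tb H [1] [1], v) 1 (pol v) hone ?_).1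
      · intro y f g hf hg
        have e1 := hMM K tb y.1 y.2 H htb
        have e2 := hPW K tb y.2 H q htb hg.1
        exact ⟨hf.mul hg e1.1 e1.2.1, hg.pow q e2.1 e2.2.1⟩
      · exact ⟨hv, by simp⟩
    set w : List K := (Idem.pO1 MM PW).val () (tb, ((v, (bits K q, un e)), H)) with hwdef
    have hw2 : Idem.Rep H ((Idem.pO2 PW).val () ((tb, ((v, (bits K q, un e)), H)), w))
        ((1 * pol v ^ S) ^ (q / 2)) := by
      rw [Idem.val_pO2, Idem.bits_tail]
      have e2 := hPW K tb w H (q / 2) htb hw.1
      exact hw.pow (q / 2) e2.1 e2.2.1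
    set w' : List K := (Idem.pO2 PW).val () ((tb, ((v, (bits K q, un e)), H)), w) with hw'def
    have hw3 : (1 * pol v ^ S) ^ (q / 2) = pol v ^ (Fintype.card K / 2) := by
      rw [one_mul, ← pow_mul, hS, Idem.odd_exp q e h2 hq]
    rw [hw3] at hw2
    set m := Fintype.card K / 2 with hm
    have hR : Idem.Rep H ((Idem.pO MM PW).val () (tb, ((v, (bits K q, un e)), H)))
        (Polynomial.C ((1 : K) + 1)⁻¹ * (pol v ^ m * pol v ^ m + pol v ^ m)) := by
      have e0 : (Idem.pO MM PW).val () (tb, ((v, (bits K q, un e)), H)) =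
        (Idem.pO3 MM).val () (((tb, ((v, (bits K q, un e)), H)), w), w') := rfl
      rw [e0, Idem.val_pO3]
      have e1 := hMM K tb w' w' H htb
      exact Idem.Rep.zip _ (hw2.mul hw2 e1.1 e1.2.1) hw2
    simp only
    rw [hval, hcost]
    refine ⟨hR.1, ?_, ?_⟩
    · intro c D hD hc
      refine hR.fin hD ?_
      have : (Polynomial.C ((1 : K) + 1)⁻¹ * (pol v ^ m * pol v ^ m + pol v ^ m)) -
          Polynomial.C (Idem.io c) =
          (pol v ^ m - Polynomial.C c ^ m) *
            (Polynomial.C ((1 : K) + 1)⁻¹ * (pol v ^ m + Polynomial.C c ^ m + 1)) := by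
        rw [Idem.io, map_mul, map_add, map_mul, map_pow]
        ring
      rw [this]
      exact Dvd.dvd.mul_right (hc.trans (sub_dvd_pow_sub_pow _ _ _)) _
    · have hM : 1 ≤ lgc (H.length + 1) * mu (H.length + 1) :=
        Nat.mul_pos (Nat.succ_pos _) ((Nat.succ_pos _).trans_le (hle _))
      have hN : H.length ≤ lgc (H.length + 1) * mu (H.length + 1) :=
        (Nat.le_succ _).trans ((hle _).trans (Nat.le_mul_of_pos_left _ (Nat.succ_pos _)))
      have hL : 1 ≤ lgc q := Nat.succ_pos _
      have := Idem.cost_pO MM PW (3 * C1 * C3) C2 tb v (bits K q) H (un e)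
        (lgc (H.length + 1) * mu (H.length + 1)) (lgc q) hM hN hB hL hP hP' hv
      rw [Idem.un_length] at this
      have hu := Idem.le_unit (e := e) hL hM
      set U := (e + 1) * lgc q * (lgc (H.length + 1) * mu (H.length + 1)) with hU
      have e1 : (6 * C1 * C3 + 2 * C2 + 600) * PL e q H.length ^ 1 * mu (H.length + 1) =
          (2 * (3 * C1 * C3) + 2 * C2 + 500) * U + 100 * U := by
        rw [hU, PL]; ring
      rw [e1]
      have e2 : 7 ≤ 100 * U := by omega
      exact Nat.add_le_add this e2

end Pool.Agent.H330FB.JB1
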