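import Pool.Agent.H330FB.Lib5
import Pool.Agent.H330FB.Spec2
set_option autoImplicit false
noncomputable section
namespace Pool.Agent.H330FB.JB2
open Polynomial

namespace Ber

section progs
variable {F : Type} [Field F] [DecidableEq F]
variable {s : List (Ty × Ty)}

/-! ### subtraction of lists -/

/-- difference of two lists -/
def sub {F : Type} [Field F] (l m : List F) : List F := List.zipWith (fun y z => y + -z) l m

/-- difference of two lists -/
def subP : Pr s (.prod Po Po) Po :=
  .comp (.pair .star .id) (zipP (c := .unit)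
    (ap2 .add (.comp .snd .fst) (.comp (.comp .snd .snd) .neg)))

@[simp] theorem val_subP (v : SV F s) (x : Ty.D F (.prod Po Po)) :
    (subP : Pr s (.prod Po Po) Po).val v x = sub x.1 x.2 := by
  simp [subP, sub]

theorem cost_subP (v : SV F s) (k : SC F s) (x : Ty.D F (.prod Po Po)) :
    (subP : Pr s (.prod Po Po) Po).cost v k x ≤ 56 * List.length x.1 + 18 := by
  have h := cost_zipP_le (s := s) (c := .unit) (a := .fld) (b := .fld) (d := .fld)
    (ap2 .add (.comp .snd .fst) (.comp (.comp .snd .snd) .neg)) v k ((), x) 7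
    (fun _ _ _ _ => by simp)
  simp [subP] at h ⊢
  omega

/-! ### linear combinations -/

/-- one step of a linear combination -/
def axpy {F : Type} [Field F] (acc : List F) (cv : F × List F) : List F :=
  List.zipWith (fun y z => y + cv.1 * z) acc cv.2

/-- linear combination `st + sum_i cf_i L_i` -/
def lin {F : Type} [Field F] (st cf : List F) (L : List (List F)) : List F :=
  List.foldl axpy st (List.zipWith (fun x y => (x, y)) cf L)

/-- one step of a linear combination; input `(u, (acc, (c, v)))` -/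
def axpyP : Pr s (.prod .unit (.prod Po (.prod .fld Po))) Po :=
  .comp (.pair (.comp (.comp .snd .snd) .fst) (.pair (.comp .snd .fst)
    (.comp (.comp .snd .snd) .snd)))
    (zipP (c := .fld) (ap2 .add (.comp .snd .fst) (ap2 .mul .fst (.comp .snd .snd))))

@[simp] theorem val_axpyP (v : SV F s) (x : Ty.D F (.prod .unit (.prod Po (.prod .fld Po)))) :
    (axpyP : Pr s (.prod .unit (.prod Po (.prod .fld Po))) Po).val v x = axpy x.2.1 x.2.2 := by
  simp [axpyP, axpy]

theorem cost_axpyP (v : SV F s) (k : SC F s)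
    (x : Ty.D F (.prod .unit (.prod Po (.prod .fld Po)))) :
    (axpyP : Pr s (.prod .unit (.prod Po (.prod .fld Po))) Po).cost v k x ≤
      58 * List.length x.2.1 + 25 := by
  have h := cost_zipP_le (s := s) (c := .fld) (a := .fld) (b := .fld) (d := .fld)
    (ap2 .add (.comp .snd .fst) (ap2 .mul .fst (.comp .snd .snd))) v k
    (x.2.2.1, (x.2.1, x.2.2.2)) 9 (fun _ _ _ _ => by simp)
  simp [axpyP] at h ⊢
  omega

/-- linear combination; input `(st, (cf, L))` -/
def linP : Pr s (.prod Po (.prod Po Ma)) Po :=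
  .comp (.pair .star (.pair .fst (.comp (.comp (.pair .star .snd) (zipP (c := .unit) .snd)) .id)))
    (foldP (c := .unit) axpyP)

@[simp] theorem val_linP (v : SV F s) (x : Ty.D F (.prod Po (.prod Po Ma))) :
    (linP : Pr s (.prod Po (.prod Po Ma)) Po).val v x = lin x.1 x.2.1 x.2.2 := by
  simp [linP, lin]

omit [DecidableEq F] in
theorem length_axpy (acc : List F) (cv : F × List F) (n : ℕ) (h : acc.length = n)
    (h2 : cv.2.length = n) : (axpy acc cv).length = n := by
  simp [axpy, h, h2]

theorem cost_linP (v : SV F s) (k : SC F s) (x : Ty.D F (.prod Po (.prod Po Ma))) (n : ℕ)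
    (h : List.length x.1 = n) (h2 : ∀ y ∈ x.2.2, List.length y = n) :
    (linP : Pr s (.prod Po (.prod Po Ma)) Po).cost v k x ≤
      (58 * n + 110) * List.length x.2.1 + 60 := by
  obtain ⟨st, cf, L⟩ := x
  have e1 := cost_zipP_le (s := s) (c := .unit) (a := .fld) (b := Po) (d := .prod .fld Po)
    .snd v k ((), (cf, L)) 1 (fun _ _ _ _ => by simp)
  have e2 := cost_foldP_le (s := s) (c := .unit) (b := Po) (a := .prod .fld Po)
    axpyP v k ((), (st, List.zipWith (fun x y => (x, y)) cf L)) (58 * n + 25)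
    (fun y => List.length y = n) h
    (fun y z hy hz => by
      simp only [val_axpyP]
      refine length_axpy _ _ n hy ?_
      simp only [List.mem_iff_getElem, List.length_zipWith, List.getElem_zipWith] at hz
      obtain ⟨i, hi, rfl⟩ := hz
      exact h2 _ (List.getElem_mem _))
    (fun y z hy hz => by
      have := cost_axpyP (s := s) v k ((), (y, z))
      simp only at this hy
      rw [hy] at this
      exact this)
  have e3 : (58 * n + 25 + 27) * min (List.length cf) (List.length L) ≤
      (58 * n + 25 + 27) * (List.length cf) := Nat.mul_le_mul_left _ (Nat.min_le_left _ _)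
  simp [linP] at e1 e2 ⊢
  nlinarith

/-! ### the columns -/

/-- context `(tb, (X, (XQ, H)))` -/
abbrev Ga : Ty := .prod TB (.prod Po (.prod Po Po))

/-- body of the recursion for the columns -/
def genB (q1 : Pr [] (.prod TB (.prod (.prod Po Po) Po)) Po) :
    Pr ((.prod Ga (.prod Po Po), .list (.prod Po Po)) :: s) (.prod Ga (.prod Po Po))
      (.list (.prod Po Po)) :=
  ap2 .cons (.pair (.comp .snd .fst) (ap2 subP (.comp .snd .snd) (.comp .snd .fst)))
    (.comp (.pair .fst (.pair
      (.comp (.pair (.comp .fst .fst) (.pair (.pair (.comp .snd .fst) (.comp (.comp .fst .snd) .fst))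
        (.comp (.comp (.comp .fst .snd) .snd) .snd))) (liftP _ q1))
      (.comp (.pair (.comp .fst .fst) (.pair (.pair (.comp .snd .snd)
        (.comp (.comp (.comp .fst .snd) .snd) .fst))
        (.comp (.comp (.comp .fst .snd) .snd) .snd))) (liftP _ q1)))) .self)

/-- the columns; input `(fuel, (context, (lab, pw)))` -/
def genP (q1 : Pr [] (.prod TB (.prod (.prod Po Po) Po)) Po) :
    Pr s (.prod Po (.prod Ga (.prod Po Po))) (.list (.prod Po Po)) :=
  .recD (genB q1) .nil

/-- the columns -/
def gen {F : Type} [Field F] (m : List F → List F → List F) (X XQ : List F) :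
    ℕ → List F → List F → List (List F × List F)
  | 0, _, _ => []
  | n + 1, lab, pw => (lab, sub pw lab) :: gen m X XQ n (m lab X) (m pw XQ)

@[simp] theorem val_genP (q1 : Pr [] (.prod TB (.prod (.prod Po Po) Po)) Po) (v : SV F s)
    (x : Ty.D F (.prod Po (.prod Ga (.prod Po Po)))) :
    (genP q1 : Pr s (.prod Po (.prod Ga (.prod Po Po))) _).val v x =
      gen (fun a b => q1.val () (x.2.1.1, ((a, b), x.2.1.2.2.2))) x.2.1.2.1 x.2.1.2.2.1
        (List.length x.1) x.2.2.1 x.2.2.2 := by
  obtain ⟨u, ⟨tb, X, XQ, H⟩, lab, pw⟩ := x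
  simp only [genP, val_recD]
  generalize List.length u = n
  induction n generalizing lab pw with
  | zero => simp [goV, gen]
  | succ n ih =>
    simp [goV, gen, genB]
    exact ih _ _

theorem cost_genP (q1 : Pr [] (.prod TB (.prod (.prod Po Po) Po)) Po) (v : SV F s) (k : SC F s)
    (u : List F) (tb : List (List F) × List (List F)) (X XQ H lab pw : List F) (n B : ℕ)
    (hl : ∀ a b, List.length (q1.val () (tb, ((a, b), H)) : List F) = n)
    (hB : ∀ a b, a.length = n → b.length = n → q1.cost () () (tb, ((a, b), H)) ≤ B)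
    (hX : X.length = n) (hXQ : XQ.length = n) (h1 : lab.length = n) (h2 : pw.length = n) :
    (genP q1 : Pr s (.prod Po (.prod Ga (.prod Po Po))) _).cost v k
      (u, ((tb, (X, (XQ, H))), (lab, pw))) ≤ (2 * B + 56 * n + 80) * u.length + 2 := by
  simp only [genP, cost_recD]
  generalize List.length u = m
  induction m generalizing lab pw with
  | zero => simp [goC]
  | succ m ih =>
    have e := ih (q1.val () (tb, ((lab, X), H))) (q1.val () (tb, ((pw, XQ), H))) (hl _ _) (hl _ _)
    have e1 := hB lab X h1 hX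
    have e2 := hB pw XQ h2 hXQ
    have e3 := fun v k => cost_subP (s := (.prod Ga (.prod Po Po), .list (.prod Po Po)) :: s)
      (F := F) v k (pw, lab)
    simp only at e3
    rw [h2] at e3
    have e4 := e3 (goV (genB q1) .nil v m, v) (goC (genB q1) .nil v k m, k)
    simp [goC, genB] at e4 e ⊢
    nlinarith

/-! ### one sample -/

/-- context `(zeros, (zeros, (P, Fr)))` of the map over the samples -/
abbrev De : Ty := .prod Po (.prod Po (.prod Ma (.prod Ma Ma)))

/-- input `((Z0, (Z1, (P, (FL, FX)))), r)` -/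
def smpP : Pr s (.prod De Po) Po :=
  ap2 subP
    (.comp (.pair (.comp .fst .fst) (.pair .snd (.comp (.comp (.comp (.comp .fst .snd) .snd) .snd) .fst)))
      linP)
    (.comp (.pair (.comp .fst .fst) (.pair
      (.comp (.pair (.comp (.comp .fst .snd) .fst) (.pair .snd
        (.comp (.comp (.comp (.comp .fst .snd) .snd) .snd) .snd))) linP)
      (.comp (.comp (.comp .fst .snd) .snd) .fst))) linP)

/-- one sample -/
def smp {F : Type} [Field F] (Z0 Z1 : List F) (P FL FX : List (List F)) (r : List F) : List F :=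
  sub (lin Z0 r FL) (lin Z0 (lin Z1 r FX) P)

@[simp] theorem val_smpP (v : SV F s) (x : Ty.D F (.prod De Po)) :
    (smpP : Pr s (.prod De Po) Po).val v x =
      smp x.1.1 x.1.2.1 x.1.2.2.1 x.1.2.2.2.1 x.1.2.2.2.2 x.2 := by
  simp [smpP, smp]

omit [DecidableEq F] in
theorem length_lin (st cf : List F) (L : List (List F)) (n : ℕ) (h : st.length = n)
    (h2 : ∀ y ∈ L, y.length = n) : (lin st cf L).length = n := by
  induction L generalizing st cf with
  | nil => simp [lin, h]
  | cons y L ih =>
    cases cf with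
    | nil => simp [lin, h]
    | cons c cf =>
      simp only [lin, List.zipWith_cons_cons, List.foldl_cons]
      exact ih _ cf (length_axpy _ _ n h (h2 y (by simp))) (fun y hy => h2 y (by simp [hy]))

theorem cost_smpP (v : SV F s) (k : SC F s) (Z0 Z1 : List F) (P FL FX : List (List F))
    (r : List F) (n m : ℕ) (h0 : Z0.length = n) (h1 : Z1.length = m)
    (hP : ∀ y ∈ P, y.length = n) (hFL : ∀ y ∈ FL, y.length = n) (hFX : ∀ y ∈ FX, y.length = m)
    (hr : r.length = n) (hm : m ≤ n) :
    (smpP : Pr s (.prod De Po) Po).cost v k ((Z0, (Z1, (P, (FL, FX)))), r) ≤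
      500 * ((n + 1) * (n + 1)) := by
  have e1 := cost_linP (s := s) v k (Z0, (r, FL)) n h0 hFL
  have e2 := cost_linP (s := s) v k (Z1, (r, FX)) m h1 hFX
  have e3 := cost_linP (s := s) v k (Z0, (lin Z1 r FX, P)) n h0 hP
  have l1 : (lin Z0 r FL).length = n := length_lin _ _ _ _ h0 hFL
  have l2 : (lin Z1 r FX).length = m := length_lin _ _ _ _ h1 hFX
  have e4 := cost_subP (s := s) v k (lin Z0 r FL, lin Z0 (lin Z1 r FX) P)
  simp only at e1 e2 e3 e4
  rw [l1] at e4
  rw [l2] at e3
  rw [hr] at e1 e2
  simp [smpP] at e1 e2 e3 e4 ⊢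
  nlinarith [Nat.mul_le_mul hm hm, Nat.mul_le_mul_left n hm]

end progs

section math

variable {K : Type} [Field K]

theorem coeff_pol (l : List K) (i : ℕ) : (pol l).coeff i = l.getD i 0 := by
  induction l generalizing i with
  | nil => simp [pol]
  | cons x l ih =>
    cases i with
    | zero => simp [pol]
    | succ i => simp [pol, ih]

theorem degree_pol_lt (l : List K) (n : ℕ) (h : l.length ≤ n) : (pol l).degree < n := by
  rw [degree_lt_iff_coeff_zero]
  intro i hi
  rw [coeff_pol, List.getD_eq_default _ _ (by omega)]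

theorem pol_inj (a b : List K) (h : a.length = b.length) (e : pol a = pol b) : a = b := by
  refine List.ext_getElem h fun i h1 h2 => ?_
  have := congrArg (fun p => p.coeff i) e
  simp only [coeff_pol] at this
  rwa [List.getD_eq_getElem _ _ h1, List.getD_eq_getElem _ _ h2] at this

theorem mpol_monic (l : List K) : (mpol l).Monic :=
  monic_X_pow_add (degree_pol_lt l _ le_rfl)

theorem degree_mpol (l : List K) : (mpol l).degree = l.length := by
  unfold mpol
  rw [degree_add_eq_left_of_degree_lt] <;> rw [degree_X_pow]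
  exact degree_pol_lt l _ le_rfl

theorem eq_zero_of_dvd (H : List K) (p : K[X]) (h : mpol H ∣ p) (hp : p.degree < H.length) :
    p = 0 := by
  by_contra h0
  have := degree_le_of_dvd h h0
  rw [degree_mpol] at this
  exact absurd hp (not_lt.mpr this)

theorem pol_sub (a b : List K) (h : a.length = b.length) : pol (sub a b) = pol a - pol b := by
  induction a generalizing b with
  | nil =>
    cases b with
    | nil => simp [sub, pol]
    | cons y b => simp at h
  | cons x a ih =>
    cases b with
    | nil => simp at h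
    | cons y b =>
      have := ih b (by simpa using h)
      simp only [sub, List.zipWith_cons_cons, pol] at this ⊢
      rw [this]
      simp
      ring

theorem length_sub (a b : List K) (n : ℕ) (h : a.length = n) (h' : b.length = n) :
    (sub a b).length = n := by simp [sub, h, h']

theorem pol_axpy (a : List K) (cv : K × List K) (h : a.length = cv.2.length) :
    pol (axpy a cv) = pol a + C cv.1 * pol cv.2 := by
  obtain ⟨c, b⟩ := cv
  simp only at h
  induction a generalizing b with
  | nil =>
    cases b with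
    | nil => simp [axpy, pol]
    | cons y b => simp at h
  | cons x a ih =>
    cases b with
    | nil => simp at h
    | cons y b =>
      have := ih b (by simpa using h)
      simp only [axpy, List.zipWith_cons_cons, pol] at this ⊢
      rw [this]
      simp
      ring

theorem pol_lin (st cf : List K) (L : List (List K)) (n : ℕ) (h : st.length = n)
    (h2 : ∀ y ∈ L, y.length = n) :
    pol (lin st cf L) = pol st + ∑ i ∈ Finset.range L.length, C (cf.getD i 0) * pol (L.getD i []) := by
  induction L generalizing st cf with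
  | nil => simp [lin]
  | cons y L ih =>
    cases cf with
    | nil => simp [lin]
    | cons c cf =>
      have e1 := ih (axpy st (c, y)) cf (length_axpy _ _ n h (h2 y (by simp)))
        (fun y hy => h2 y (by simp [hy]))
      rw [pol_axpy _ _ (by rw [h, h2 y (by simp)])] at e1
      simp only [lin, List.zipWith_cons_cons, List.foldl_cons] at e1 ⊢
      rw [e1, List.length_cons, Finset.sum_range_succ']
      simp
      ring

theorem pol_zero (n : ℕ) : pol (List.replicate n (0 : K)) = 0 := by
  induction n with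
  | zero => simp [pol]
  | succ n ih => simp [List.replicate_succ, pol, ih]

/-- properties of the columns -/
theorem gen_spec (m : List K → List K → List K) (H X0 XQ : List K) (Q : ℕ)
    (hm : ∀ a b, (m a b).length = H.length ∧ mpol H ∣ pol a * pol b - pol (m a b))
    (hX : mpol H ∣ X - pol X0) (hXQ : mpol H ∣ X ^ Q - pol XQ) (k j : ℕ) (lab pw : List K)
    (h1 : lab.length = H.length) (h2 : pw.length = H.length)
    (h3 : mpol H ∣ X ^ j - pol lab) (h4 : mpol H ∣ X ^ (j * Q) - pol pw) :
    (gen m X0 XQ k lab pw).length = k ∧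
    (∀ x ∈ gen m X0 XQ k lab pw, x.1.length = H.length ∧ x.2.length = H.length) ∧
    (∀ x ∈ gen m X0 XQ k lab pw, ∃ i, j ≤ i ∧ i < j + k ∧ mpol H ∣ X ^ i - pol x.1 ∧
      mpol H ∣ X ^ (i * Q) - X ^ i - pol x.2) ∧
    (∀ i, j ≤ i → i < j + k → ∃ x ∈ gen m X0 XQ k lab pw, mpol H ∣ X ^ i - pol x.1) := by
  induction k generalizing j lab pw with
  | zero =>
    refine ⟨rfl, by simp [gen], by simp [gen], fun i h h' => by omega⟩
  | succ k ih =>
    have e1 : mpol H ∣ X ^ (j + 1) - pol (m lab X0) := by
      have : X ^ (j + 1) - pol (m lab X0) = (pol lab * pol X0 - pol (m lab X0)) +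
        X ^ j * (X - pol X0) + pol X0 * (X ^ j - pol lab) := by ring
      rw [this]
      exact dvd_add (dvd_add (hm _ _).2 (hX.mul_left _)) (h3.mul_left _)
    have e2 : mpol H ∣ X ^ ((j + 1) * Q) - pol (m pw XQ) := by
      have : X ^ ((j + 1) * Q) - pol (m pw XQ) = (pol pw * pol XQ - pol (m pw XQ)) +
        X ^ (j * Q) * (X ^ Q - pol XQ) + pol XQ * (X ^ (j * Q) - pol pw) := by ring
      rw [this]
      exact dvd_add (dvd_add (hm _ _).2 (hXQ.mul_left _)) (h4.mul_left _)
    obtain ⟨f1, f2, f3, f4⟩ := ih (j + 1) (m lab X0) (m pw XQ) (hm _ _).1 (hm _ _).1 e1 e2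
    refine ⟨by simp [gen, f1], ?_, ?_, ?_⟩
    · intro x hx
      simp only [gen, List.mem_cons] at hx
      rcases hx with rfl | hx
      · exact ⟨h1, length_sub _ _ _ h2 h1⟩
      · exact f2 x hx
    · intro x hx
      simp only [gen, List.mem_cons] at hx
      rcases hx with rfl | hx
      · refine ⟨j, le_rfl, by omega, h3, ?_⟩
        rw [pol_sub _ _ (by rw [h1, h2])]
        have : X ^ (j * Q) - X ^ j - (pol pw - pol lab) = (X ^ (j * Q) - pol pw) -
          (X ^ j - pol lab) := by ring
        rw [this]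
        exact dvd_sub h4 h3
      · obtain ⟨i, g1, g2, g3, g4⟩ := f3 x hx
        exact ⟨i, by omega, by omega, g3, g4⟩
    · intro i g1 g2
      rcases Nat.eq_or_lt_of_le g1 with rfl | g1
      · exact ⟨(lab, sub pw lab), by simp [gen], h3⟩
      · obtain ⟨x, hx, hx'⟩ := f4 i g1 (by omega)
        exact ⟨x, by simp [gen, hx], hx'⟩

/-- the linear algebra behind the sampling -/
theorem core [Fintype K] (H : List K) (Q : ℕ) (hQ : Fintype.card K = Q)
    (cs : List (List K × List K)) (P : List (List K)) (Fr : List (List K × List K))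
    (hlen : cs.length = H.length)
    (hcs : ∀ x ∈ cs, x.1.length = H.length ∧ x.2.length = H.length)
    (hcs1 : ∀ x ∈ cs, ∃ i, i < H.length ∧ mpol H ∣ X ^ i - pol x.1 ∧
      mpol H ∣ X ^ (i * Q) - X ^ i - pol x.2)
    (hcs2 : ∀ i, i < H.length → ∃ x ∈ cs, mpol H ∣ X ^ i - pol x.1)
    (hk : KerSpec cs P Fr) (Z0 Z1 : List K) (hZ0 : Z0 = List.replicate H.length 0)
    (hZ1 : Z1 = List.replicate P.length 0) (f : List K → List K)
    (hf : ∀ r, f r = smp Z0 Z1 P (Fr.map Prod.fst) (Fr.map Prod.snd) r) :
    P.length ≤ H.length ∧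
    (∀ y ∈ P, y.length = H.length) ∧ (∀ y ∈ Fr.map Prod.fst, y.length = H.length) ∧
    (∀ y ∈ Fr.map Prod.snd, y.length = P.length) ∧
    (∀ r, (f r).length = H.length ∧ mpol H ∣ pol (f r) ^ Q - pol (f r)) ∧
    (∀ b : List K, b.length = H.length → mpol H ∣ pol b ^ Q - pol b →
      Nat.card {r : List K // r.length = H.length ∧ f r = b} *
      Nat.card {b : List K // b.length = H.length ∧ mpol H ∣ pol b ^ Q - pol b} =
      Fintype.card K ^ H.length) := by
  classical
  obtain ⟨P', Fr', hP, hFr, hperm, hsub, hli, hX, -⟩ := hk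
  set n := H.length with hn
  -- lengths
  have hmem : ∀ x, x ∈ cs ↔ x ∈ P' ∨ x ∈ Fr'.map Prod.fst := by
    intro x
    rw [← hperm.mem_iff, List.mem_append]
  have hlen2 : P'.length + Fr'.length = n := by
    have := hperm.length_eq
    rw [List.length_append, List.length_map] at this
    omega
  have hPl : P.length = P'.length := by rw [hP, List.length_map]
  have hFl : Fr.length = Fr'.length := by rw [hFr, List.length_map]
  have lP : ∀ y ∈ P, y.length = n := by
    intro y hy
    rw [hP, List.mem_map] at hy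
    obtain ⟨x, hx, rfl⟩ := hy
    exact (hcs x ((hmem x).2 (Or.inl hx))).1
  have lFL : ∀ y ∈ Fr.map Prod.fst, y.length = n := by
    intro y hy
    rw [hFr, List.map_map, List.mem_map] at hy
    obtain ⟨x, hx, rfl⟩ := hy
    exact (hcs x.1 ((hmem x.1).2 (Or.inr (List.mem_map.2 ⟨x, hx, rfl⟩)))).1
  have lFX : ∀ y ∈ Fr.map Prod.snd, y.length = P.length := by
    intro y hy
    rw [hFr, List.map_map, List.mem_map] at hy
    obtain ⟨x, hx, rfl⟩ := hy
    rw [hPl]
    exact (hX x hx).1
  -- the linear map v ↦ v^Q - v modulo H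
  let I : Ideal K[X] := Ideal.span {mpol H}
  let T : K[X] →ₗ[K] K[X] ⧸ I :=
    (Ideal.Quotient.mkₐ K I).toLinearMap ∘ₗ
      ((FiniteField.frobeniusAlgHom K K[X]).toLinearMap - LinearMap.id)
  have hT : ∀ p : K[X], T p = Ideal.Quotient.mk I (p ^ Q - p) := by
    intro p
    simp [T, hQ]
  have hT0 : ∀ p : K[X], T p = 0 ↔ mpol H ∣ p ^ Q - p := by
    intro p
    rw [hT, Ideal.Quotient.eq_zero_iff_mem, Ideal.mem_span_singleton]
  have hlab : ∀ x ∈ cs, ∃ i, i < n ∧ pol x.1 = X ^ i ∧
      T (pol x.1) = Ideal.Quotient.mk I (pol x.2) := by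
    intro x hx
    obtain ⟨i, h1, h2, h3⟩ := hcs1 x hx
    have e1 : X ^ i - pol x.1 = 0 := by
      refine eq_zero_of_dvd H _ h2 ?_
      refine (degree_sub_le _ _).trans_lt (max_lt ?_ ?_)
      · rw [degree_X_pow]; exact_mod_cast h1
      · exact degree_pol_lt _ _ (hcs x hx).1.le
    have e2 : pol x.1 = X ^ i := (sub_eq_zero.1 e1).symm
    refine ⟨i, h1, e2, ?_⟩
    rw [hT, Ideal.Quotient.eq, Ideal.mem_span_singleton, e2, ← pow_mul]
    exact h3
  -- the elements
  let dP : ℕ → List K × List K := fun k => P'.getD k ([], [])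
  let dF : ℕ → (List K × List K) × List K := fun i => Fr'.getD i (([], []), [])
  have dPm : ∀ k, k < P'.length → dP k ∈ P' := by
    intro k hk
    simp only [dP]
    rw [List.getD_eq_getElem _ _ hk]
    exact List.getElem_mem _
  have dFm : ∀ i, i < Fr'.length → dF i ∈ Fr' := by
    intro i hi
    simp only [dF]
    rw [List.getD_eq_getElem _ _ hi]
    exact List.getElem_mem _
  have gP : ∀ k, P.getD k [] = (dP k).1 := by
    intro k
    simp only [dP, hP]
    exact List.getD_map (f := Prod.fst) (d := (([] : List K), ([] : List K))) ..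
  have gFL : ∀ i, (Fr.map Prod.fst).getD i [] = (dF i).1.1 := by
    intro i
    simp only [dF, hFr, List.map_map]
    exact List.getD_map (f := Prod.fst ∘ fun x : (List K × List K) × List K => (x.1.1, x.2))
      (d := (([], []), [])) ..
  have gFX : ∀ i, (Fr.map Prod.snd).getD i [] = (dF i).2 := by
    intro i
    simp only [dF, hFr, List.map_map]
    exact List.getD_map (f := Prod.snd ∘ fun x : (List K × List K) × List K => (x.1.1, x.2))
      (d := (([], []), [])) ..
  let bb : ℕ → K[X] := fun i => pol (dF i).1.1 -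
    ∑ k ∈ Finset.range P'.length, C ((dF i).2.getD k 0) * pol (dP k).1
  -- value of f
  have hlenf : ∀ r, (f r).length = n := by
    intro r
    rw [hf]
    refine length_sub _ _ _ (length_lin _ _ _ _ (by simp [hZ0]) lFL)
      (length_lin _ _ _ _ (by simp [hZ0]) lP)
  have hpolf : ∀ r, pol (f r) = ∑ i ∈ Finset.range Fr'.length, C (r.getD i 0) * bb i := by
    intro r
    have hz0 : Z0.length = n := by simp [hZ0]
    have hz1 : Z1.length = P.length := by simp [hZ1]
    rw [hf, smp, pol_sub _ _ (by
      rw [length_lin _ _ _ _ hz0 lFL, length_lin _ _ _ _ hz0 lP]),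
      pol_lin _ _ _ _ hz0 lFL, pol_lin _ _ _ _ hz0 lP, hZ0, pol_zero, List.length_map, hFl, hPl]
    have e : ∀ k, (lin Z1 r (Fr.map Prod.snd)).getD k 0 =
        ∑ i ∈ Finset.range Fr'.length, r.getD i 0 * (dF i).2.getD k 0 := by
      intro k
      rw [← coeff_pol, pol_lin _ _ _ _ hz1 lFX, hZ1, pol_zero, List.length_map, hFl, zero_add,
        finsetSum_coeff]
      refine Finset.sum_congr rfl fun i _ => ?_
      rw [coeff_C_mul, coeff_pol, gFX]
    simp only [e, gFL, gP, bb, mul_sub, Finset.sum_sub_distrib, zero_add, Finset.mul_sum,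
      map_sum, Finset.sum_mul, C_mul]
    rw [Finset.sum_comm]
    congr 1
    refine Finset.sum_congr rfl fun i _ => Finset.sum_congr rfl fun k _ => ?_
    ring
  -- columns as polynomials
  have hcol : ∀ i, i < Fr'.length → pol (dF i).1.2 =
      ∑ k ∈ Finset.range P'.length, C ((dF i).2.getD k 0) * pol (dP k).2 := by
    intro i hi
    have h := (hX _ (dFm i hi)).2
    ext j
    have h2 := congrFun h j
    simp only [cvec, Finset.sum_apply, Pi.smul_apply, smul_eq_mul] at h2
    rw [coeff_pol, h2, finsetSum_coeff, Finset.sum_range]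
    refine Finset.sum_congr rfl fun k _ => ?_
    rw [coeff_C_mul, coeff_pol]
    simp only [dP]
    rw [List.getD_eq_getElem _ _ k.2, List.get_eq_getElem]
  have hTsum : ∀ (m : ℕ) (c : ℕ → K) (p : ℕ → K[X]),
      T (∑ k ∈ Finset.range m, C (c k) * p k) = ∑ k ∈ Finset.range m, c k • T (p k) := by
    intro m c p
    rw [map_sum]
    refine Finset.sum_congr rfl fun k _ => ?_
    rw [← smul_eq_C_mul, map_smul]
  have hmk : ∀ (m : ℕ) (c : ℕ → K) (p : ℕ → K[X]),
      Ideal.Quotient.mk I (∑ k ∈ Finset.range m, C (c k) * p k) =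
        ∑ k ∈ Finset.range m, c k • Ideal.Quotient.mk I (p k) := by
    intro m c p
    rw [map_sum]
    refine Finset.sum_congr rfl fun k _ => ?_
    rw [← smul_eq_C_mul]
    exact map_smul (Ideal.Quotient.mkₐ K I) _ _
  have hTP : ∀ k, k < P'.length → T (pol (dP k).1) = Ideal.Quotient.mk I (pol (dP k).2) := by
    intro k hk
    obtain ⟨_, _, _, h⟩ := hlab _ ((hmem _).2 (Or.inl (dPm k hk)))
    exact h
  have hTF : ∀ i, i < Fr'.length →
      T (pol (dF i).1.1) = Ideal.Quotient.mk I (pol (dF i).1.2) := by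
    intro i hi
    obtain ⟨_, _, _, h⟩ := hlab _ ((hmem _).2 (Or.inr (List.mem_map.2 ⟨_, dFm i hi, rfl⟩)))
    exact h
  have hTb : ∀ i, i < Fr'.length → T (bb i) = 0 := by
    intro i hi
    simp only [bb]
    rw [map_sub, hTsum, hTF i hi, hcol i hi, hmk, sub_eq_zero]
    refine Finset.sum_congr rfl fun k hk => ?_
    rw [hTP k (Finset.mem_range.1 hk)]
  -- the parametrisation
  let ev : (Fin n → K) → ℕ → K := fun v i => if h : i < n then v ⟨i, h⟩ else 0
  let G : (Fin n → K) →ₗ[K] K[X] :=
    { toFun := fun v => ∑ i ∈ Finset.range Fr'.length, C (ev v i) * bb i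
      map_add' := by
        intro v w
        rw [← Finset.sum_add_distrib]
        refine Finset.sum_congr rfl fun i _ => ?_
        rw [← add_mul, ← C_add]
        congr 2
        simp only [ev]
        split_ifs <;> simp
      map_smul' := by
        intro c v
        rw [RingHom.id_apply, Finset.smul_sum]
        refine Finset.sum_congr rfl fun i _ => ?_
        rw [smul_eq_C_mul, ← mul_assoc, ← C_mul]
        congr 2
        simp only [ev]
        split_ifs <;> simp }
  have hG : ∀ v, G v = ∑ i ∈ Finset.range Fr'.length, C (ev v i) * bb i := fun v => rfl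
  have hGf : ∀ v, pol (f (List.ofFn v)) = G v := by
    intro v
    rw [hpolf, hG]
    refine Finset.sum_congr rfl fun i hi => ?_
    have hi' : i < n := by have := Finset.mem_range.1 hi; omega
    congr 2
    simp only [ev, dif_pos hi']
    rw [List.getD_eq_getElem _ _ (by simpa using hi'), List.getElem_ofFn]
  have hTG : ∀ v, T (G v) = 0 := by
    intro v
    rw [hG, hTsum]
    refine Finset.sum_eq_zero fun i hi => ?_
    rw [hTb i (Finset.mem_range.1 hi), smul_zero]
  have hofFn : ∀ r : List K, r.length = n → ∃ v : Fin n → K, List.ofFn v = r := by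
    intro r hr
    refine ⟨fun i => r.getD i 0, List.ext_getElem (by simp [hr]) fun i h1 h2 => ?_⟩
    rw [List.getElem_ofFn]
    exact List.getD_eq_getElem _ _ h2
  have hfT : ∀ r, T (pol (f r)) = 0 := by
    intro r
    rw [hpolf, hTsum]
    refine Finset.sum_eq_zero fun i hi => ?_
    rw [hTb i (Finset.mem_range.1 hi), smul_zero]
  -- surjectivity
  have hsurj : ∀ b : List K, b.length = n → T (pol b) = 0 → ∃ v, G v = pol b := by
    intro b hb hTb0
    have hspan : pol b ∈ Submodule.span K (Set.range (fun k : Fin P'.length => pol (dP k).1)) ⊔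
        Submodule.span K (Set.range (fun i : Fin Fr'.length => pol (dF i).1.1)) := by
      have e : pol b = ∑ i ∈ Finset.range n, (b.getD i 0) • (X ^ i : K[X]) := by
        ext j
        rw [coeff_pol, finsetSum_coeff]
        simp only [coeff_smul, coeff_X_pow, smul_eq_mul, mul_ite, mul_one, mul_zero]
        rw [Finset.sum_ite_eq]
        split_ifs with h
        · rfl
        · rw [List.getD_eq_default _ _ (by simpa [hb] using h)]
      rw [e]
      refine Submodule.sum_mem _ fun i hi => Submodule.smul_mem _ _ ?_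
      obtain ⟨x, hx, hx2⟩ := hcs2 i (Finset.mem_range.1 hi)
      have e1 : X ^ i - pol x.1 = 0 := by
        refine eq_zero_of_dvd H _ hx2 ?_
        refine (degree_sub_le _ _).trans_lt (max_lt ?_ ?_)
        · rw [degree_X_pow]; exact_mod_cast Finset.mem_range.1 hi
        · exact degree_pol_lt _ _ (hcs x hx).1.le
      rw [sub_eq_zero.1 e1]
      rcases (hmem x).1 hx with h | h
      · obtain ⟨k, hk, rfl⟩ := List.mem_iff_getElem.1 h
        refine Submodule.mem_sup_left (Submodule.subset_span ⟨⟨k, hk⟩, ?_⟩)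
        simp only [dP]
        rw [List.getD_eq_getElem _ _ hk]
      · rw [List.mem_map] at h
        obtain ⟨y, hy, rfl⟩ := h
        obtain ⟨k, hk, rfl⟩ := List.mem_iff_getElem.1 hy
        refine Submodule.mem_sup_right (Submodule.subset_span ⟨⟨k, hk⟩, ?_⟩)
        simp only [dF]
        rw [List.getD_eq_getElem _ _ hk]
    obtain ⟨u, hu, w, hw, huw⟩ := Submodule.mem_sup.1 hspan
    obtain ⟨z, hz⟩ := (Submodule.mem_span_range_iff_exists_fun K).1 hu
    obtain ⟨t, ht⟩ := (Submodule.mem_span_range_iff_exists_fun K).1 hw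
    let t' : ℕ → K := fun i => if h : i < Fr'.length then t ⟨i, h⟩ else 0
    let z' : ℕ → K := fun i => if h : i < P'.length then z ⟨i, h⟩ else 0
    let v : Fin n → K := fun i => t' i
    have hGv : G v = ∑ i ∈ Finset.range Fr'.length, C (t' i) * bb i := by
      rw [hG]
      refine Finset.sum_congr rfl fun i hi => ?_
      have hi' : i < n := by have := Finset.mem_range.1 hi; omega
      simp only [ev, dif_pos hi', v]
    have hz2 : u = ∑ k ∈ Finset.range P'.length, C (z' k) * pol (dP k).1 := by
      rw [← hz, Finset.sum_range]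
      refine Finset.sum_congr rfl fun k _ => ?_
      rw [smul_eq_C_mul]
      simp only [z', dif_pos k.2]
    have ht2 : w = ∑ i ∈ Finset.range Fr'.length, C (t' i) * pol (dF i).1.1 := by
      rw [← ht, Finset.sum_range]
      refine Finset.sum_congr rfl fun k _ => ?_
      rw [smul_eq_C_mul]
      simp only [t', dif_pos k.2]
    let zz : ℕ → K := fun k => z' k + ∑ i ∈ Finset.range Fr'.length, t' i * (dF i).2.getD k 0
    have hdiff : pol b - G v = ∑ k ∈ Finset.range P'.length, C (zz k) * pol (dP k).1 := by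
      rw [← huw, hz2, ht2, hGv]
      simp only [zz, bb, mul_sub, Finset.sum_sub_distrib, Finset.mul_sum, map_sum, Finset.sum_mul,
        C_mul, C_add, add_mul, Finset.sum_add_distrib]
      rw [Finset.sum_comm (s := Finset.range P'.length)]
      have : ∀ i ∈ Finset.range Fr'.length, ∀ k ∈ Finset.range P'.length,
          C (t' i) * (C ((dF i).2.getD k 0) * pol (dP k).1) =
          C (t' i) * C ((dF i).2.getD k 0) * pol (dP k).1 := fun _ _ _ _ => by ring
      rw [Finset.sum_congr rfl fun i hi => Finset.sum_congr rfl (this i hi)]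
      ring
    have h0 : T (pol b - G v) = 0 := by rw [map_sub, hTb0, hTG, sub_zero]
    have h1 : Ideal.Quotient.mk I (∑ k ∈ Finset.range P'.length, C (zz k) * pol (dP k).2) = 0 := by
      rw [hmk, ← h0, hdiff, hTsum]
      refine Finset.sum_congr rfl fun k hk => ?_
      rw [hTP k (Finset.mem_range.1 hk)]
    have h2 : ∑ k ∈ Finset.range P'.length, C (zz k) * pol (dP k).2 = 0 := by
      rw [Ideal.Quotient.eq_zero_iff_mem, Ideal.mem_span_singleton] at h1
      refine eq_zero_of_dvd H _ h1 ?_
      refine (degree_sum_le _ _).trans_lt ?_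
      rw [Finset.sup_lt_iff (WithBot.bot_lt_coe _)]
      intro k hk
      rw [← smul_eq_C_mul]
      refine (degree_smul_le _ _).trans_lt (degree_pol_lt _ _ ?_)
      exact (hcs _ ((hmem _).2 (Or.inl (dPm k (Finset.mem_range.1 hk))))).2.le
    have h3 : ∀ k : Fin P'.length, zz k = 0 := by
      have := Fintype.linearIndependent_iff.1 hli (fun k => zz k) ?_
      · exact this
      · funext j
        have := congrArg (fun p => p.coeff j) h2
        simp only [finsetSum_coeff, coeff_C_mul, coeff_pol, coeff_zero, Finset.sum_range] at this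
        simp only [Finset.sum_apply, Pi.smul_apply, smul_eq_mul, Pi.zero_apply, cvec]
        refine Eq.trans (Finset.sum_congr rfl fun k _ => ?_) this
        simp only [dP]
        rw [List.getD_eq_getElem _ _ k.2, List.get_eq_getElem]
    refine ⟨v, ?_⟩
    have h4 : pol b - G v = 0 := by
      rw [hdiff]
      refine Finset.sum_eq_zero fun k hk => ?_
      rw [h3 ⟨k, Finset.mem_range.1 hk⟩]
      simp
    exact (sub_eq_zero.1 h4).symm
  refine ⟨by omega, lP, lFL, lFX, fun r => ⟨hlenf r, (hT0 _).1 (hfT r)⟩, ?_⟩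
  intro b hb hdb
  obtain ⟨v0, hv0⟩ := hsurj b hb ((hT0 _).2 hdb)
  -- the fibre
  have c1 : Nat.card {r : List K // r.length = n ∧ f r = b} = Nat.card (LinearMap.ker G) := by
    refine (Nat.card_congr (Equiv.ofBijective (fun w : LinearMap.ker G =>
      (⟨List.ofFn (v0 + w.1), by simp, ?_⟩ : {r : List K // r.length = n ∧ f r = b})) ⟨?_, ?_⟩)).symm
    · refine pol_inj _ _ (by rw [hlenf, hb]) ?_
      rw [hGf, map_add, LinearMap.mem_ker.1 w.2, add_zero, hv0]
    · intro w w' h
      have := List.ofFn_injective (Subtype.ext_iff.1 h)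
      exact Subtype.ext (add_left_cancel this)
    · rintro ⟨r, hr, hfr⟩
      obtain ⟨v, rfl⟩ := hofFn r hr
      refine ⟨⟨v - v0, ?_⟩, ?_⟩
      · rw [LinearMap.mem_ker, map_sub, ← hGf v, hfr, hv0, sub_self]
      · refine Subtype.ext ?_
        simp
  have c2 : Nat.card {b : List K // b.length = n ∧ mpol H ∣ pol b ^ Q - pol b} =
      Nat.card (LinearMap.range G) := by
    refine Nat.card_congr (Equiv.ofBijective (fun b : {b : List K // b.length = n ∧
      mpol H ∣ pol b ^ Q - pol b} => (⟨pol b.1, ?_⟩ : LinearMap.range G)) ⟨?_, ?_⟩)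
    · obtain ⟨v, hv⟩ := hsurj b.1 b.2.1 ((hT0 _).2 b.2.2)
      exact ⟨v, hv⟩
    · intro b b' h
      exact Subtype.ext (pol_inj _ _ (by rw [b.2.1, b'.2.1]) (Subtype.ext_iff.1 h))
    · rintro ⟨_, v, rfl⟩
      refine ⟨⟨f (List.ofFn v), hlenf _, (hT0 _).1 (hfT _)⟩, Subtype.ext (hGf v)⟩
  have c3 : Nat.card (LinearMap.range G) = Nat.card ((Fin n → K) ⧸ LinearMap.ker G) :=
    (Nat.card_congr G.quotKerEquivRange.toEquiv).symm
  rw [c1, c2, c3]
  have := (LinearMap.ker G).toAddSubgroup.card_eq_card_quotient_mul_card_addSubgroup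
  have h5 : Nat.card (Fin n → K) = Fintype.card K ^ n := by simp
  rw [← h5, this, mul_comm]
  rfl

end math

section main
variable {F : Type} [Field F] [DecidableEq F]

/-- input type -/
abbrev In : Ty := .prod TB (.prod (.prod Po Un) (.prod Po Ma))
/-- type of the programs for products -/
abbrev T1 : Type := Pr [] (.prod TB (.prod (.prod Po Po) Po)) Po
/-- type of the programs for the Frobenius map -/
abbrev T2 : Type := Pr [] (.prod TB (.prod (.prod Po (.prod Po Un)) Po)) Po
/-- type of the programs for the elimination -/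
abbrev T3 : Type := Pr [] (.list (.prod Po Po)) (.prod (.list Po) (.list (.prod Po Po)))

/-- zeros -/
def zeroP {s : List (Ty × Ty)} {a : Ty} : Pr s (.list a) Po :=
  .comp (.pair .star .id) (mapP (c := .unit) .zero)

@[simp] theorem val_zeroP {s : List (Ty × Ty)} {a : Ty} (v : SV F s) (x : Ty.D F (.list a)) :
    (zeroP : Pr s (.list a) Po).val v x = List.replicate (List.length x) (0 : F) := by
  simp [zeroP]

theorem cost_zeroP {s : List (Ty × Ty)} {a : Ty} (v : SV F s) (k : SC F s)
    (x : Ty.D F (.list a)) :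
    (zeroP : Pr s (.list a) Po).cost v k x ≤ 14 * List.length x + 8 := by
  have h := cost_mapP_le (s := s) (c := .unit) (a := a) (b := .fld) .zero v k ((), x) 1
    (fun _ _ => by simp)
  simp [zeroP] at h ⊢
  omega

/-- first components -/
def mfstP {s : List (Ty × Ty)} {a b : Ty} : Pr s (.list (.prod a b)) (.list a) :=
  .comp (.pair .star .id) (mapP (c := .unit) (.comp .snd .fst))

@[simp] theorem val_mfstP {s : List (Ty × Ty)} {a b : Ty} (v : SV F s)
    (x : Ty.D F (.list (.prod a b))) :
    (mfstP : Pr s (.list (.prod a b)) _).val v x = List.map Prod.fst (x : List _) := by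
  simp [mfstP]

theorem cost_mfstP {s : List (Ty × Ty)} {a b : Ty} (v : SV F s) (k : SC F s)
    (x : Ty.D F (.list (.prod a b))) :
    (mfstP : Pr s (.list (.prod a b)) _).cost v k x ≤ 15 * List.length x + 8 := by
  have h := cost_mapP_le (s := s) (c := .unit) (a := .prod a b) (b := a) (.comp .snd .fst) v k
    ((), x) 2 (fun _ _ => by simp)
  simp [mfstP] at h ⊢
  omega

/-- second components -/
def msndP {s : List (Ty × Ty)} {a b : Ty} : Pr s (.list (.prod a b)) (.list b) :=
  .comp (.pair .star .id) (mapP (c := .unit) (.comp .snd .snd))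

@[simp] theorem val_msndP {s : List (Ty × Ty)} {a b : Ty} (v : SV F s)
    (x : Ty.D F (.list (.prod a b))) :
    (msndP : Pr s (.list (.prod a b)) _).val v x = List.map Prod.snd (x : List _) := by
  simp [msndP]

theorem cost_msndP {s : List (Ty × Ty)} {a b : Ty} (v : SV F s) (k : SC F s)
    (x : Ty.D F (.list (.prod a b))) :
    (msndP : Pr s (.list (.prod a b)) _).cost v k x ≤ 15 * List.length x + 8 := by
  have h := cost_mapP_le (s := s) (c := .unit) (a := .prod a b) (b := b) (.comp .snd .snd) v k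
    ((), x) 2 (fun _ _ => by simp)
  simp [msndP] at h ⊢
  omega

/-- the class of `X` -/
def XP (q1 : T1) : Pr [] In Po :=
  .comp (.pair .fst (.pair (.pair (ap2 .cons .zero (ap2 .cons .one .nil)) (ap2 .cons .one .nil))
    (.comp (.comp .snd .snd) .fst))) q1

/-- the class of `X ^ Q` -/
def XQP (q2 : T2) : Pr [] (.prod In Po) Po :=
  .comp (.pair (.comp .fst .fst) (.pair (.pair .snd (.comp (.comp .fst .snd) .fst))
    (.comp (.comp (.comp .fst .snd) .snd) .fst))) q2

/-- the class of `1` -/
def oneP (q1 : T1) : Pr [] In Po :=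
  .comp (.pair .fst (.pair (.pair (ap2 .cons .one .nil) (ap2 .cons .one .nil))
    (.comp (.comp .snd .snd) .fst))) q1

/-- the columns -/
def colP (q1 : T1) (q2 : T2) : Pr [] In (.list (.prod Po Po)) :=
  lt (XP q1) (lt (XQP q2) (lt (.comp (.comp .fst .fst) (oneP q1))
    (.comp (.pair (.comp (.comp (.comp .fst .fst) .fst) (.comp (.comp .snd .snd) .fst))
      (.pair (.pair (.comp (.comp (.comp .fst .fst) .fst) .fst)
        (.pair (.comp (.comp .fst .fst) .snd) (.pair (.comp .fst .snd)
          (.comp (.comp (.comp .fst .fst) .fst) (.comp (.comp .snd .snd) .fst)))))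
        (.pair .snd .snd))) (genP q1))))

/-- value of `XP` -/
def vX (q1 : T1) (tb : List (List F) × List (List F)) (H : List F) : List F :=
  q1.val () (tb, (([0, 1], [1]), H))
/-- value of `oneP` -/
def vone (q1 : T1) (tb : List (List F) × List (List F)) (H : List F) : List F :=
  q1.val () (tb, (([1], [1]), H))
/-- value of `XQP` -/
def vXQ (q1 : T1) (q2 : T2) (tb : List (List F) × List (List F)) (qe : List F × List Unit)
    (H : List F) : List F :=
  q2.val () (tb, ((vX q1 tb H, qe), H))
/-- value of `colP` -/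
def vcol (q1 : T1) (q2 : T2) (tb : List (List F) × List (List F)) (qe : List F × List Unit)
    (H : List F) : List (List F × List F) :=
  gen (fun a b => q1.val () (tb, ((a, b), H))) (vX q1 tb H) (vXQ q1 q2 tb qe H) H.length
    (vone q1 tb H) (vone q1 tb H)

theorem val_colP (q1 : T1) (q2 : T2) (tb : List (List F) × List (List F))
    (qe : List F × List Unit) (H : List F) (rs : List (List F)) :
    (colP q1 q2).val () (tb, (qe, (H, rs))) = vcol q1 q2 tb qe H := by
  simp [colP, XP, XQP, oneP, vcol, vX, vXQ, vone]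

theorem cost_colP (q1 : T1) (q2 : T2) (tb : List (List F) × List (List F))
    (qe : List F × List Unit) (H : List F) (rs : List (List F)) (B B0 B1 B2 : ℕ)
    (hl : ∀ a b, List.length (q1.val () (tb, ((a, b), H)) : List F) = H.length)
    (hl2 : List.length (q2.val () (tb, ((vX q1 tb H, qe), H)) : List F) = H.length)
    (hB : ∀ a b, a.length = H.length → b.length = H.length → q1.cost () () (tb, ((a, b), H)) ≤ B)
    (hB0 : q1.cost () () (tb, (([0, 1], [1]), H)) ≤ B0)
    (hB1 : q1.cost () () (tb, (([1], [1]), H)) ≤ B1)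
    (hB2 : q2.cost () () (tb, ((vX q1 tb H, qe), H)) ≤ B2) :
    (colP q1 q2).cost () () (tb, (qe, (H, rs))) ≤
      (2 * B + 56 * H.length + 80) * H.length + B0 + B1 + B2 + 150 := by
  have e := cost_genP (s := []) q1 () () H tb (vX q1 tb H) (vXQ q1 q2 tb qe H) H (vone q1 tb H)
    (vone q1 tb H) H.length B hl hB (hl _ _) hl2 (hl _ _) (hl _ _)
  simp [colP, XP, XQP, oneP, vX, vXQ, vone] at e hB0 hB1 hB2 ⊢
  omega

/-- the context for the samples -/
def deP : Pr [] (.prod Po (.prod (.list Po) (.list (.prod Po Po)))) De :=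
  .pair (.comp .fst zeroP) (.pair (.comp (.comp .snd .fst) zeroP) (.pair (.comp .snd .fst)
    (.pair (.comp (.comp .snd .snd) mfstP) (.comp (.comp .snd .snd) msndP))))

theorem val_deP (H : List F) (P : List (List F)) (Fr : List (List F × List F)) :
    deP.val () (H, (P, Fr)) = (List.replicate H.length (0 : F), (List.replicate P.length (0 : F),
      (P, (Fr.map Prod.fst, Fr.map Prod.snd)))) := by
  simp [deP]

theorem cost_deP (H : List F) (P : List (List F)) (Fr : List (List F × List F)) :
    deP.cost () () (H, (P, Fr)) ≤ 14 * H.length + 14 * P.length + 30 * Fr.length + 60 := by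
  have h1 := cost_zeroP (F := F) (s := []) (a := .fld) () () H
  have h2 := cost_zeroP (F := F) (s := []) (a := Po) () () P
  have h3 := cost_mfstP (F := F) (s := []) (a := Po) (b := Po) () () Fr
  have h4 := cost_msndP (F := F) (s := []) (a := Po) (b := Po) () () Fr
  simp [deP] at h1 h2 h3 h4 ⊢
  omega

/-- the whole program -/
def mainP (q1 : T1) (q2 : T2) (q3 : T3) : Pr [] In Ma :=
  ap2 (mapP smpP) (.comp (.pair (.comp (.comp .snd .snd) .fst) (.comp (colP q1 q2) q3)) deP)
    (.comp (.comp .snd .snd) .snd)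

theorem val_mainP (q1 : T1) (q2 : T2) (q3 : T3) (tb : List (List F) × List (List F))
    (qe : List F × List Unit) (H : List F) (rs : List (List F)) (P : List (List F))
    (Fr : List (List F × List F)) (h : q3.val () (vcol q1 q2 tb qe H) = (P, Fr)) :
    ((mainP q1 q2 q3).val () (tb, (qe, (H, rs))) : List (List F)) =
      rs.map (smp (List.replicate H.length 0) (List.replicate P.length 0) P (Fr.map Prod.fst)
        (Fr.map Prod.snd)) := by
  have e1 : deP.val () (H, q3.val () ((colP q1 q2).val () (tb, (qe, (H, rs))))) =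
      (List.replicate H.length (0 : F), (List.replicate P.length (0 : F),
        (P, (Fr.map Prod.fst, Fr.map Prod.snd)))) :=
    (congrArg (fun z => deP.val () (H, q3.val () z)) (val_colP q1 q2 tb qe H rs)).trans
      ((congrArg (fun z => deP.val () (H, z)) h).trans (val_deP H P Fr))
  have e2 : (mainP q1 q2 q3).val () (tb, (qe, (H, rs))) = (mapP (s := []) smpP).val ()
      (deP.val () (H, q3.val () ((colP q1 q2).val () (tb, (qe, (H, rs))))), rs) := rfl
  rw [e2, e1, val_mapP]
  simp only [val_smpP]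

theorem cost_mainP (q1 : T1) (q2 : T2) (q3 : T3) (tb : List (List F) × List (List F))
    (qe : List F × List Unit) (H : List F) (rs : List (List F)) (P : List (List F))
    (Fr : List (List F × List F)) (h : q3.val () (vcol q1 q2 tb qe H) = (P, Fr)) (B B3 : ℕ)
    (hB : ∀ r ∈ rs, (smpP : Pr [] (.prod De Po) Po).cost () ()
      ((List.replicate H.length (0 : F), (List.replicate P.length (0 : F),
        (P, (Fr.map Prod.fst, Fr.map Prod.snd)))), r) ≤ B)
    (hB3 : (colP q1 q2).cost () () (tb, (qe, (H, rs))) ≤ B3) :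
    (mainP q1 q2 q3).cost () () (tb, (qe, (H, rs))) ≤
      (B + 13) * rs.length + B3 + q3.cost () () (vcol q1 q2 tb qe H) +
        (14 * H.length + 14 * P.length + 30 * Fr.length) + 90 := by
  have e1 : deP.val () (H, q3.val () ((colP q1 q2).val () (tb, (qe, (H, rs))))) =
      (List.replicate H.length (0 : F), (List.replicate P.length (0 : F),
        (P, (Fr.map Prod.fst, Fr.map Prod.snd)))) :=
    (congrArg (fun z => deP.val () (H, q3.val () z)) (val_colP q1 q2 tb qe H rs)).trans
      ((congrArg (fun z => deP.val () (H, z)) h).trans (val_deP H P Fr))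
  have e4 : deP.cost () () (H, q3.val () ((colP q1 q2).val () (tb, (qe, (H, rs))))) =
      deP.cost () () (H, (P, Fr)) :=
    (congrArg (fun z => deP.cost () () (H, q3.val () z)) (val_colP q1 q2 tb qe H rs)).trans
      (congrArg (fun z => deP.cost () () (H, z)) h)
  have e5 : q3.cost () () ((colP q1 q2).val () (tb, (qe, (H, rs)))) =
      q3.cost () () (vcol q1 q2 tb qe H) :=
    congrArg (fun z => q3.cost () () z) (val_colP q1 q2 tb qe H rs)
  have e6 : (mapP (s := []) smpP).cost () () (deP.val () (H, q3.val () ((colP q1 q2).val () (tb,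
      (qe, (H, rs))))), rs) = (mapP (s := []) smpP).cost () () ((List.replicate H.length (0 : F),
      (List.replicate P.length (0 : F), (P, (Fr.map Prod.fst, Fr.map Prod.snd)))), rs) :=
    congrArg (fun z => (mapP (s := []) smpP).cost () () (z, rs)) e1
  have e2 := cost_deP H P Fr
  have e3 := cost_mapP_le (F := F) (s := []) smpP () () ((List.replicate H.length (0 : F),
    (List.replicate P.length (0 : F), (P, (Fr.map Prod.fst, Fr.map Prod.snd)))), rs) B hB
  have e7 : (mainP q1 q2 q3).cost () () (tb, (qe, (H, rs))) =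
      ((((((1 + 1) + 1) + ((colP q1 q2).cost () () (tb, (qe, (H, rs))) +
        q3.cost () () ((colP q1 q2).val () (tb, (qe, (H, rs))))) + 1) +
        deP.cost () () (H, q3.val () ((colP q1 q2).val () (tb, (qe, (H, rs)))))) +
        ((1 + 1) + 1) + 1) +
        (mapP (s := []) smpP).cost () () (deP.val () (H, q3.val () ((colP q1 q2).val () (tb,
      (qe, (H, rs))))), rs)) := rfl
  rw [e7, e4, e5, e6]
  simp only at e3
  omega

end main

/-- arithmetic of the running time -/
theorem arith (n m L w D M C1 C2 C3 c3 pl fl : ℕ) (hPL1 : 1 ≤ L) (sq : (n + 1) * (n + 1) ≤ w)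
    (hpl : pl ≤ n) (hfl : fl ≤ n) (k3 : c3 ≤ 2 * C3 * w)
    (k4 : 2 * (C1 * (2 * L) * M) * n ≤ 4 * C1 * (L * (D * w))) :
    (500 * ((n + 1) * (n + 1)) + 13) * m +
      ((2 * (C1 * (2 * L) * M) + 56 * n + 80) * n + 3 * C1 * (D * w) +
      3 * C1 * (D * w) + C2 * (L * (D * w)) + 150) + c3 +
      (14 * n + 14 * pl + 30 * fl) + 90 ≤
      (1000 + 20 * C1 * D + C2 * D + 2 * C3) * L ^ 1 * ((m + 1) * w) := by
  have t1 : w ≤ L * w := Nat.le_mul_of_pos_left _ hPL1
  have t2 : D * w ≤ L * (D * w) := Nat.le_mul_of_pos_left _ hPL1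
  have t3 : (n + 1) * (n + 1) ≤ L * w := sq.trans t1
  have t4 : n ≤ L * w := by nlinarith
  have t5 : 1 ≤ L * w := by nlinarith
  have t6 : n * n ≤ L * w := by nlinarith
  have t7 : 3 * C1 * (D * w) ≤ 3 * C1 * (L * (D * w)) := Nat.mul_le_mul_left _ t2
  have t8 : 2 * C3 * w ≤ 2 * C3 * (L * w) := Nat.mul_le_mul_left _ t1
  have e1 : (2 * (C1 * (2 * L) * M) + 56 * n + 80) * n =
    2 * (C1 * (2 * L) * M) * n + 56 * (n * n) + 80 * n := by ring
  have e2 : (500 * ((n + 1) * (n + 1)) + 13) * m ≤ 513 * (L * w) * m :=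
    Nat.mul_le_mul_right _ (by omega)
  have e3 : (2 * (C1 * (2 * L) * M) + 56 * n + 80) * n + 3 * C1 * (D * w) +
      3 * C1 * (D * w) + C2 * (L * (D * w)) + 150 + c3 +
      (14 * n + 14 * pl + 30 * fl) + 90 ≤
      (487 + 10 * C1 * D + C2 * D + 2 * C3) * (L * w) := by
    have e4 : (487 + 10 * C1 * D + C2 * D + 2 * C3) * (L * w) = 487 * (L * w) +
      4 * C1 * (L * (D * w)) + 3 * C1 * (L * (D * w)) + 3 * C1 * (L * (D * w)) +
      C2 * (L * (D * w)) + 2 * C3 * (L * w) := by ring
    rw [e4, e1]
    omega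
  have e5 : (1000 + 20 * C1 * D + C2 * D + 2 * C3) * L ^ 1 * ((m + 1) * w) =
      (487 + 10 * C1 * D + C2 * D + 2 * C3) * (L * w) + 513 * (L * w) * m +
      (513 * (L * w) + 10 * C1 * D * (L * w) +
      (487 + 20 * C1 * D + C2 * D + 2 * C3) * (L * w) * m) := by ring
  rw [e5]
  omega


end Ber

open Ber in
theorem specBer (h1 : SpecMulMod) (h2 : SpecFrob) (h3 : SpecKer) (h0 : SpecUnits) : SpecBer := by
  obtain ⟨q1, C1, h1⟩ := h1
  obtain ⟨q2, C2, h2⟩ := h2
  obtain ⟨q3, C3, h3⟩ := h3 Po
  obtain ⟨mono_mu, -, -, -, -, -, sq_ww, -, -, -, -, hD, -, -⟩ := h0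
  obtain ⟨D, hD⟩ := hD 4
  refine ⟨mainP q1 q2 q3, 1000 + 20 * C1 * D + C2 * D + 2 * C3, 1, ?_⟩
  intro K _ _ _ q e tb H hK htb
  have g1 := fun a b => h1 K tb a b H htb
  have lX : (vX q1 tb H).length = H.length := (g1 _ _).1
  have g2 := h2 K tb (vX q1 tb H) H q e htb lX
  have pX : mpol H ∣ X - pol (vX q1 tb H) := by
    have := (g1 [0, 1] [1]).2.1
    simpa [pol, vX] using this
  have pone : mpol H ∣ 1 - pol (vone q1 tb H) := by
    have := (g1 [1] [1]).2.1
    simpa [pol, vone] using this
  have lone : (vone q1 tb H).length = H.length := (g1 _ _).1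
  have pXQ : mpol H ∣ X ^ (q ^ e) - pol (vXQ q1 q2 tb (bits K q, un e) H) := by
    have e1 : mpol H ∣ X ^ (q ^ e) - pol (vX q1 tb H) ^ (q ^ e) :=
      pX.trans (sub_dvd_pow_sub_pow _ _ _)
    have := dvd_add e1 g2.2.1
    rw [sub_add_sub_cancel] at this
    exact this
  obtain ⟨c1, c2, c3, c4⟩ := gen_spec (fun a b => q1.val () (tb, ((a, b), H))) H
    (vX q1 tb H) (vXQ q1 q2 tb (bits K q, un e) H) (q ^ e)
    (fun a b => ⟨(g1 a b).1, (g1 a b).2.1⟩) pX pXQ H.length 0 (vone q1 tb H) (vone q1 tb H)
    lone lone (by simpa using pone) (by simpa using pone)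
  have hc : gen (fun a b => q1.val () (tb, ((a, b), H))) (vX q1 tb H)
    (vXQ q1 q2 tb (bits K q, un e) H) H.length (vone q1 tb H) (vone q1 tb H) =
    vcol q1 q2 tb (bits K q, un e) H := rfl
  rw [hc] at c1 c2 c3 c4
  obtain ⟨k1, k2⟩ := h3 K H.length (vcol q1 q2 tb (bits K q, un e) H) (fun x hx => (c2 x hx).2)
  rcases hPF : q3.val () (vcol q1 q2 tb (bits K q, un e) H) with ⟨P, Fr⟩
  rw [hPF] at k1
  obtain ⟨r1, r2, r3, r4, r5, r6⟩ := core H (q ^ e) hK (vcol q1 q2 tb (bits K q, un e) H) P Fr
    c1 c2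
    (fun x hx => by
      obtain ⟨i, _, hi, a1, a2⟩ := c3 x hx
      exact ⟨i, by omega, a1, a2⟩)
    (fun i hi => c4 i (Nat.zero_le _) (by omega)) k1
    (List.replicate H.length 0) (List.replicate P.length 0) rfl rfl
    (smp (List.replicate H.length 0) (List.replicate P.length 0) P (Fr.map Prod.fst)
        (Fr.map Prod.snd)) (fun _ => rfl)
  refine ⟨smp (List.replicate H.length 0) (List.replicate P.length 0) P (Fr.map Prod.fst)
        (Fr.map Prod.snd), fun rs hrs => ⟨val_mainP q1 q2 q3 tb _ H rs P Fr hPF, ?_⟩,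
    fun r _ => r5 r, r6⟩
  -- running time
  have hFl : Fr.length ≤ H.length := by
    obtain ⟨P', Fr', -, hFr, hperm, -⟩ := k1
    have := hperm.length_eq
    rw [List.length_append, List.length_map, c1] at this
    have hFr2 : Fr = Fr'.map (fun x => (x.1.1, x.2)) := hFr
    rw [hFr2, List.length_map]
    omega
  set n := H.length with hn
  have b0 : mu (4 * (n + 1)) ≤ D * ww (n + 1) :=
    (Nat.le_mul_of_pos_left _ (Nat.succ_pos n)).trans (hD n)
  have b1 : q1.cost () () (tb, (([0, 1], [1]), H)) ≤ 3 * C1 * (D * ww (n + 1)) := by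
    refine (g1 [0, 1] [1]).2.2.trans ?_
    have e1 : lgc ([0, 1].length + [1].length + 1) = 3 := by
      show Nat.clog 2 4 + 1 = 3
      norm_num
    have e2 : mu (List.length ([0, 1] : List K) + List.length ([1] : List K) + H.length + 1) ≤
        mu (4 * (n + 1)) := mono_mu _ _ (by simp; omega)
    have e3 : lgc (List.length ([0, 1] : List K) + List.length ([1] : List K) + 1) = 3 := e1
    rw [e3]
    calc _ ≤ C1 * 3 * mu (4 * (n + 1)) := Nat.mul_le_mul_left _ e2
      _ ≤ C1 * 3 * (D * ww (n + 1)) := Nat.mul_le_mul_left _ b0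
      _ = _ := by ring
  have b2 : q1.cost () () (tb, (([1], [1]), H)) ≤ 3 * C1 * (D * ww (n + 1)) := by
    refine (g1 [1] [1]).2.2.trans ?_
    have e1 : Nat.clog 2 3 + 1 = 3 := by norm_num
    have e2 : mu (List.length ([1] : List K) + List.length ([1] : List K) + H.length + 1) ≤
        mu (4 * (n + 1)) := mono_mu _ _ (by simp; omega)
    have e3 : lgc (List.length ([1] : List K) + List.length ([1] : List K) + 1) = 3 := e1
    rw [e3]
    calc _ ≤ C1 * 3 * mu (4 * (n + 1)) := Nat.mul_le_mul_left _ e2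
      _ ≤ C1 * 3 * (D * ww (n + 1)) := Nat.mul_le_mul_left _ b0
      _ = _ := by ring
  have hlg : 1 ≤ lgc (n + 1) := by simp [lgc]
  have hlgq : 1 ≤ lgc q := by simp [lgc]
  have hlg2 : lgc (n + n + 1) ≤ 2 * lgc (n + 1) := by
    have e1 : Nat.clog 2 (n + n + 1) ≤ Nat.clog 2 (n + 1) + 1 := by
      rcases Nat.eq_zero_or_pos n with h | h
      · rw [h]; simp
      · rw [Nat.clog_of_one_lt (n := n + n + 1) (by norm_num) (by omega)]
        have : (n + n + 1 + 2 - 1) / 2 = n + 1 := by omega
        rw [this]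
    simp only [lgc] at hlg ⊢
    omega
  have hPL : lgc (n + 1) ≤ PL e q n := by
    unfold PL
    exact Nat.le_mul_of_pos_left _ (Nat.mul_pos (Nat.succ_pos e) hlgq)
  have hPL1 : 1 ≤ PL e q n := hlg.trans hPL
  have b3 : q2.cost () () (tb, ((vX q1 tb H, (bits K q, un e)), H)) ≤
      C2 * (PL e q n * (D * ww (n + 1))) := by
    refine g2.2.2.trans ?_
    have e2 : mu (H.length + 1) ≤ D * ww (n + 1) := (mono_mu _ _ (by omega)).trans b0
    calc _ = C2 * (PL e q n * mu (H.length + 1)) := by unfold PL; ring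
      _ ≤ _ := Nat.mul_le_mul_left _ (Nat.mul_le_mul_left _ e2)
  have b4 : ∀ a b, a.length = H.length → b.length = H.length →
      q1.cost () () (tb, ((a, b), H)) ≤ C1 * (2 * PL e q n) * mu (4 * (n + 1)) := by
    intro a b ha hb
    refine (g1 a b).2.2.trans ?_
    rw [ha, hb]
    refine Nat.mul_le_mul (Nat.mul_le_mul_left _ ?_) (mono_mu _ _ (by omega))
    exact hlg2.trans (Nat.mul_le_mul_left _ hPL)
  have b5 := cost_colP q1 q2 tb (bits K q, un e) H rs _ _ _ _ (fun a b => (g1 a b).1) g2.1 b4
    b1 b2 b3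
  have b6 := cost_mainP q1 q2 q3 tb (bits K q, un e) H rs P Fr hPF (500 * ((n + 1) * (n + 1))) _
    (fun r hr => cost_smpP (s := []) () () _ _ P _ _ r n P.length (by simp; rfl) (by simp)
      r2 r3 r4 (hrs r hr) r1) b5
  refine b6.trans ?_
  rw [c1] at k2
  have sq := sq_ww (n + 1)
  have hDn := hD n
  have k3 : q3.cost () () (vcol q1 q2 tb (bits K q, un e) H) ≤ 2 * C3 * ww (n + 1) := by
    refine k2.trans ?_
    unfold ww
    calc C3 * (n + n + 1) * vv (Nat.clog 2 (n + 1)) ≤
        C3 * (2 * (n + 1)) * vv (Nat.clog 2 (n + 1)) :=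
          Nat.mul_le_mul_right _ (Nat.mul_le_mul_left _ (by omega))
      _ = _ := by ring
  have k4 : 2 * (C1 * (2 * PL e q n) * mu (4 * (n + 1))) * n ≤
      4 * C1 * (PL e q n * (D * ww (n + 1))) := by
    calc 2 * (C1 * (2 * PL e q n) * mu (4 * (n + 1))) * n
        ≤ 2 * (C1 * (2 * PL e q n) * mu (4 * (n + 1))) * (n + 1) :=
          Nat.mul_le_mul_left _ (by omega)
      _ = 4 * C1 * (PL e q n * ((n + 1) * mu (4 * (n + 1)))) := by ring
      _ ≤ _ := Nat.mul_le_mul_left _ (Nat.mul_le_mul_left _ hDn)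
  exact arith n rs.length (PL e q n) (ww (n + 1)) D (mu (4 * (n + 1))) C1 C2 C3 _ P.length
    Fr.length hPL1 sq r1 hFl k3 k4

end Pool.Agent.H330FB.JB2
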