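import Pool.Agent.H330FB.Lib5
import Pool.Agent.H330FB.Spec2
set_option autoImplicit false
set_option linter.unusedSectionVars false
noncomputable section
namespace Pool.Agent.H330FB.JB3
open Polynomial

section algebra
variable {F : Type} [Field F]

theorem b3_degree_pol (l : List F) : (pol l).degree < (l.length : WithBot ℕ) := by
  induction l with
  | nil => simp [pol]
  | cons x t ih =>
    simp only [pol, List.length_cons]
    refine lt_of_le_of_lt (degree_add_le _ _) (max_lt ?_ ?_)
    · refine lt_of_le_of_lt degree_C_le ?_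
      exact_mod_cast Nat.succ_pos _
    · rw [degree_mul, degree_X]
      rcases eq_or_ne (pol t) 0 with h | h
      · rw [h, degree_zero]
        simp
      · rw [degree_eq_natDegree h] at ih ⊢
        have : (pol t).natDegree < t.length := by exact_mod_cast ih
        have h2 : 1 + (pol t).natDegree < t.length + 1 := by omega
        exact_mod_cast h2

theorem b3_monic (l : List F) : (mpol l).Monic := by
  unfold mpol
  exact monic_X_pow_add (b3_degree_pol l)

theorem b3_natDegree (l : List F) : (mpol l).natDegree = l.length := by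
  unfold mpol
  have h : (pol l).degree < (X ^ l.length : F[X]).degree := by
    rw [degree_X_pow]; exact b3_degree_pol l
  rw [natDegree_add_eq_left_of_degree_lt h, natDegree_X_pow]

/-- splitting by an idempotent -/
theorem b3_split (G A A' e : F[X]) (hG : G.Monic) (hA : A.Monic) (hA' : A'.Monic)
    (he : G ∣ e * e - e) (h1 : ∀ B : F[X], G ∣ B * e ↔ A ∣ B)
    (h2 : ∀ B : F[X], G ∣ B * (1 - e) ↔ A' ∣ B) :
    A * A' = G ∧ IsCoprime A A' ∧ A ∣ e - 1 ∧ A' ∣ e := by
  have a1 : A ∣ e - 1 := (h1 _).1 (by
    have : (e - 1) * e = e * e - e := by ring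
    rw [this]; exact he)
  have a2 : A' ∣ e := (h2 _).1 (by
    have : e * (1 - e) = -(e * e - e) := by ring
    rw [this]; exact (dvd_neg).2 he)
  have hc : IsCoprime A A' := by
    obtain ⟨u, hu⟩ := a1
    obtain ⟨w, hw⟩ := a2
    refine ⟨-u, w, ?_⟩
    have : w * A' = e := by rw [hw]; ring
    rw [this]
    have : -u * A = 1 - e := by
      have : -u * A = -(A * u) := by ring
      rw [this, ← hu]; ring
    rw [this]; ring
  have a3 : A ∣ G := (h1 _).1 (dvd_mul_right _ _)
  have a4 : A' ∣ G := (h2 _).1 (dvd_mul_right _ _)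
  have a5 : A * A' ∣ G := hc.mul_dvd a3 a4
  have a6 : G ∣ A * A' := by
    have e1 : G ∣ A * A' * e := by
      have := (h1 A).2 dvd_rfl
      have e2 : A * A' * e = (A * e) * A' := by ring
      rw [e2]; exact this.mul_right _
    have e3 : G ∣ A * A' * (1 - e) := by
      have := (h2 A').2 dvd_rfl
      have e2 : A * A' * (1 - e) = (A' * (1 - e)) * A := by ring
      rw [e2]; exact this.mul_right _
    have e4 : A * A' = A * A' * e + A * A' * (1 - e) := by ring
    rw [e4]; exact dvd_add e1 e3
  exact ⟨eq_of_monic_of_associated (hA.mul hA') hG (associated_of_dvd_dvd a5 a6), hc, a1, a2⟩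

/-- congruence of compositions -/
theorem b3_comp (G y B : F[X]) (h : G ∣ X - y) : G ∣ B - B.comp y := by
  have h1 : X - y ∣ B.comp X - B.comp y := by
    simpa [Polynomial.eval₂_eq_eval_map, Polynomial.comp] using
      (Polynomial.sub_dvd_eval_sub (X : F[X]) y (B.map C))
  rw [comp_X] at h1
  exact h.trans h1

end algebra

/-! ### the program for one factor -/

section prog
variable {s : List (Ty × Ty)} {g : Ty}

/-- the list `[1]` -/
def b3one : Pr s g Po := .comp (.pair .one .nil) .cons
/-- the list `[0, 1]` -/
def b3x : Pr s g Po := .comp (.pair .zero b3one) .cons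
/-- prepend a list if it is not empty -/
def b3c (p : Pr s g Po) (q : Pr s g Ma) : Pr s g Ma :=
  onL p q (.comp (.pair (.comp .snd .cons) (.comp .fst q)) .cons)

/-- `1 - E` -/
def b3neg : Pr s Po Po :=
  onL .id b3one
    (.comp (.pair
      (.comp (.pair .one (.comp (.comp .snd .fst) .neg)) .add)
      (.comp (.pair .star (.comp .snd .snd)) (mapP (c := .unit) (.comp .snd .neg)))) .cons)

/-- reduction modulo `G` of one of the polynomials -/
def b3m (pm : Pr [] (.prod TB (.prod (.prod Po Po) Po)) Po)
    (p : Pr [] (.prod (.prod TB (.prod Po Po)) Po) Po) :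
    Pr [] (.prod (.prod TB (.prod Po Po)) Po) Po :=
  .comp (.pair (.comp .fst .fst) (.pair (.pair p b3one) .snd)) pm

/-- annihilator -/
def b3a (pm pa : Pr [] (.prod TB (.prod (.prod Po Po) Po)) Po)
    (p : Pr [] (.prod (.prod TB (.prod Po Po)) Po) Po) :
    Pr [] (.prod (.prod TB (.prod Po Po)) Po) Po :=
  .comp (.pair (.comp .fst .fst) (.pair (.pair (b3m pm b3x) (b3m pm p)) .snd)) pa

/-- the new factors -/
def b3g (pm pa : Pr [] (.prod TB (.prod (.prod Po Po) Po)) Po) :
    Pr [] (.prod (.prod TB (.prod Po Po)) Po) Ma :=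
  b3c (b3a pm pa (.comp (.comp .fst .snd) .fst))
    (b3c (b3a pm pa (.comp (.comp .fst .snd) .snd)) .nil)

/-- one step, input `(table, (factors, E))` -/
def b3s (pm pa : Pr [] (.prod TB (.prod (.prod Po Po) Po)) Po) :
    Pr [] (.prod TB (.prod Ma Po)) Ma :=
  .comp (.comp (.pair
    (.pair .fst (.pair (.comp .snd .snd) (.comp (.comp .snd .snd) b3neg)))
    (.comp .snd .fst)) (mapP (b3g pm pa))) flatP

/-- the program -/
def b3p (pm pa : Pr [] (.prod TB (.prod (.prod Po Po) Po)) Po) :
    Pr [] (.prod TB (.prod Po Ma)) Ma :=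
  .comp (.pair .fst (.pair (.comp (.pair (.comp .snd .fst) .nil) .cons) (.comp .snd .snd)))
    (foldP (b3s pm pa))

end prog

section values
variable {F : Type} [Field F] [DecidableEq F] {s : List (Ty × Ty)} {g : Ty}

@[simp] theorem val_b3one (v : SV F s) (x : Ty.D F g) :
    (b3one : Pr s g Po).val v x = ([1] : List F) := rfl
@[simp] theorem val_b3x (v : SV F s) (x : Ty.D F g) :
    (b3x : Pr s g Po).val v x = ([0, 1] : List F) := rfl
@[simp] theorem cost_b3one (v : SV F s) (k : SC F s) (x : Ty.D F g) :
    (b3one : Pr s g Po).cost v k x = 4 := rfl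
@[simp] theorem cost_b3x (v : SV F s) (k : SC F s) (x : Ty.D F g) :
    (b3x : Pr s g Po).cost v k x = 7 := rfl

/-- prepend a list if it is not empty -/
def cne (A : List F) (L : List (List F)) : List (List F) :=
  lcase A L (fun h t => (h :: t) :: L)

@[simp] theorem val_b3c (p : Pr s g Po) (q : Pr s g Ma) (v : SV F s) (x : Ty.D F g) :
    (b3c p q).val v x = cne (p.val v x) (q.val v x) := by
  simp [b3c, cne]

theorem cost_b3c (p : Pr s g Po) (q : Pr s g Ma) (v : SV F s) (k : SC F s) (x : Ty.D F g) :
    (b3c p q).cost v k x ≤ p.cost v k x + q.cost v k x + 20 := by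
  simp only [b3c, cost_onL]
  generalize hA : p.val v x = A
  cases A with
  | nil => simp; omega
  | cons h t => simp; omega

/-- `1 - E` -/
def omE (E : List F) : List F := lcase E [1] (fun h t => (1 + -h) :: t.map (fun y => -y))

@[simp] theorem val_b3neg (v : SV F s) (E : List F) :
    (b3neg : Pr s Po Po).val v E = omE E := by
  simp [b3neg, omE]

theorem cost_b3neg (v : SV F s) (k : SC F s) (E : List F) :
    (b3neg : Pr s Po Po).cost v k E ≤ 15 * E.length + 30 := by
  simp only [b3neg, cost_onL]
  cases E with
  | nil => simp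
  | cons h t =>
    have := cost_mapP_le (s := s) (c := .unit) (a := .fld) (b := .fld) (F := F)
      (.comp .snd .neg) v k ((), t) 2 (fun _ _ => by simp)
    simp at this ⊢
    omega

theorem length_omE (E : List F) (h : 1 ≤ E.length) : (omE E).length = E.length := by
  cases E with
  | nil => simp at h
  | cons h t => simp [omE]

theorem pol_omE (E : List F) : pol (omE E) = 1 - pol E := by
  have h : ∀ t : List F, pol (t.map (fun y => -y)) = - pol t := by
    intro t
    induction t with
    | nil => simp [pol]
    | cons h t ih => simp only [List.map_cons, pol, ih, C_neg]; ring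
  cases E with
  | nil => simp [omE, pol]
  | cons x t => simp only [omE, lcase_cons, pol, h, C_add, C_neg, C_1]; ring

end values


section main
variable {F : Type} [Field F] [DecidableEq F]

/-- what is needed on the reduction -/
def MMok (mm : (List F × List F) → List F → List F) : Prop :=
  ∀ (a b G : List F), (mm (a, b) G).length = G.length ∧ mpol G ∣ pol a * pol b - pol (mm (a, b) G)

/-- what is needed on the annihilator -/
def ANok (an : (List F × List F) → List F → List F) : Prop :=
  ∀ (y e H : List F), y.length = H.length → e.length = H.length →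
    (an (y, e) H).length ≤ H.length ∧
    (∀ B : F[X], mpol H ∣ B.comp (pol y) * pol e ↔ mpol (an (y, e) H) ∣ B)

/-- the annihilator of `E` -/
def b3A (mm an : (List F × List F) → List F → List F) (E G : List F) : List F :=
  an (mm ([0, 1], [1]) G, mm (E, [1]) G) G

/-- the new factors -/
def b3G (mm an : (List F × List F) → List F → List F) (E E' G : List F) : List (List F) :=
  cne (b3A mm an E G) (cne (b3A mm an E' G) [])

theorem pol_one : pol ([1] : List F) = 1 := by simp [pol]
theorem pol_X : pol ([0, 1] : List F) = X := by simp [pol]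
theorem mpol_nil : mpol ([] : List F) = 1 := by simp [mpol, pol]

theorem b3A_spec {mm an : (List F × List F) → List F → List F} (hm : MMok mm) (ha : ANok an)
    (E G : List F) (B : F[X]) : mpol G ∣ B * pol E ↔ mpol (b3A mm an E G) ∣ B := by
  obtain ⟨l1, d1⟩ := hm [0, 1] [1] G
  obtain ⟨l2, d2⟩ := hm E [1] G
  obtain ⟨-, h⟩ := ha _ _ G l1 l2
  unfold b3A
  rw [← h B]
  rw [pol_one, mul_one, pol_X] at d1
  rw [pol_one, mul_one] at d2
  have c := b3_comp _ _ B d1
  set y := pol (mm ([0, 1], [1]) G)
  set e := pol (mm (E, [1]) G)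
  have key : mpol G ∣ B * pol E - B.comp y * e := by
    have : B * pol E - B.comp y * e = (B - B.comp y) * pol E + B.comp y * (pol E - e) := by ring
    rw [this]
    exact dvd_add (c.mul_right _) (d2.mul_left _)
  exact (dvd_iff_dvd_of_dvd_sub key)

theorem cne_prod (A : List F) (L : List (List F)) :
    ((cne A L).map mpol).prod = mpol A * (L.map mpol).prod := by
  cases A with
  | nil => simp [cne, mpol_nil]
  | cons h t => simp [cne]

theorem mem_cne {A B : List F} {L : List (List F)} (h : B ∈ cne A L) :
    (B = A ∧ 1 ≤ B.length) ∨ B ∈ L := by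
  cases A with
  | nil => exact Or.inr h
  | cons x t =>
    simp only [cne, lcase_cons, List.mem_cons] at h
    rcases h with h | h
    · left; subst h; simp
    · right; exact h

theorem length_cne (A : List F) (L : List (List F)) : (cne A L).length ≤ L.length + 1 := by
  cases A with
  | nil => simp [cne]
  | cons h t => simp [cne]

theorem b3G_length (mm an : (List F × List F) → List F → List F) (E E' G : List F) :
    (b3G mm an E E' G).length ≤ 2 := by
  have h1 := length_cne (b3A mm an E G) (cne (b3A mm an E' G) [])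
  have h2 := length_cne (b3A mm an E' G) []
  simp only [List.length_nil] at h2
  unfold b3G
  omega

theorem b3G_spec {mm an : (List F × List F) → List F → List F} (hm : MMok mm) (ha : ANok an)
    (E G : List F) (he : mpol G ∣ pol E * pol E - pol E) :
    ((b3G mm an E (omE E) G).map mpol).prod = mpol G ∧
    (∀ A ∈ b3G mm an E (omE E) G, 1 ≤ A.length) ∧
    ((b3G mm an E (omE E) G).Pairwise (fun A A' => IsCoprime (mpol A) (mpol A'))) ∧
    (∀ A ∈ b3G mm an E (omE E) G, mpol A ∣ mpol G) ∧
    (∀ A ∈ b3G mm an E (omE E) G, mpol A ∣ pol E ∨ mpol A ∣ pol E - 1) := by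
  obtain ⟨h1, h2, h3, h4⟩ := b3_split (mpol G) (mpol (b3A mm an E G))
    (mpol (b3A mm an (omE E) G)) (pol E) (b3_monic _) (b3_monic _) (b3_monic _) he
    (b3A_spec hm ha E G) (fun B => by
      have := b3A_spec hm ha (omE E) G B
      rw [pol_omE] at this
      exact this)
  have hmem : ∀ A ∈ b3G mm an E (omE E) G,
      (A = b3A mm an E G ∨ A = b3A mm an (omE E) G) ∧ 1 ≤ A.length := by
    intro A hA
    rcases mem_cne hA with h | h
    · exact ⟨Or.inl h.1, h.2⟩
    · rcases mem_cne h with h | h
      · exact ⟨Or.inr h.1, h.2⟩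
      · simp at h
  refine ⟨?_, fun A hA => (hmem A hA).2, ?_, ?_, ?_⟩
  · unfold b3G
    rw [cne_prod, cne_prod]
    simp [h1]
  · unfold b3G
    generalize b3A mm an E G = A at *
    generalize b3A mm an (omE E) G = A' at *
    cases A with
    | nil => cases A' with
      | nil => simp [cne]
      | cons x t => simp [cne]
    | cons x t => cases A' with
      | nil => simp [cne]
      | cons x t => simpa [cne] using h2
  · intro A hA
    rcases (hmem A hA).1 with h | h
    · rw [h, ← h1]; exact dvd_mul_right _ _
    · rw [h, ← h1]; exact dvd_mul_left _ _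
  · intro A hA
    rcases (hmem A hA).1 with h | h
    · right; rw [h]; exact h3
    · left; rw [h]; exact h4

/-- one step -/
def b3S (mm an : (List F × List F) → List F → List F) (St : List (List F)) (E : List F) :
    List (List F) := (St.map (b3G mm an E (omE E))).flatten

/-- the invariant for the cost -/
def B3I (H : List F) (St : List (List F)) : Prop :=
  (St.map mpol).prod = mpol H ∧ (∀ G ∈ St, 1 ≤ G.length)

theorem b3_dvd_of_mem {H : List F} {St : List (List F)} (h : (St.map mpol).prod = mpol H)
    {G : List F} (hG : G ∈ St) : mpol G ∣ mpol H := by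
  rw [← h]
  exact List.dvd_prod (List.mem_map_of_mem hG)

theorem b3_prod_flatten (f : List F → List (List F)) (St : List (List F))
    (h : ∀ G ∈ St, ((f G).map mpol).prod = mpol G) :
    ((St.map f).flatten.map mpol).prod = (St.map mpol).prod := by
  induction St with
  | nil => simp
  | cons G t ih =>
    simp only [List.map_cons, List.flatten_cons, List.map_append, List.prod_append,
      List.prod_cons]
    rw [h G (by simp), ih (fun G hG => h G (by simp [hG]))]

theorem b3S_inv {mm an : (List F × List F) → List F → List F} (hm : MMok mm) (ha : ANok an)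
    (H E : List F) (St : List (List F)) (he : mpol H ∣ pol E * pol E - pol E)
    (hI : B3I H St) : B3I H (b3S mm an St E) := by
  refine ⟨?_, ?_⟩
  · unfold b3S
    rw [b3_prod_flatten _ _ (fun G hG =>
      (b3G_spec hm ha E G ((b3_dvd_of_mem hI.1 hG).trans he)).1)]
    exact hI.1
  · intro A hA
    unfold b3S at hA
    rw [List.mem_flatten] at hA
    obtain ⟨l, hl, hAl⟩ := hA
    rw [List.mem_map] at hl
    obtain ⟨G, hG, rfl⟩ := hl
    exact (b3G_spec hm ha E G ((b3_dvd_of_mem hI.1 hG).trans he)).2.1 A hAl

/-- all that is known on the state -/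
def B3J (H : List F) (done : List (List F)) (St : List (List F)) : Prop :=
  B3I H St ∧ St.Pairwise (fun G G' => IsCoprime (mpol G) (mpol G')) ∧
  ∀ G ∈ St, ∀ E ∈ done, mpol G ∣ pol E ∨ mpol G ∣ pol E - 1

theorem b3S_invJ {mm an : (List F × List F) → List F → List F} (hm : MMok mm) (ha : ANok an)
    (H E : List F) (done St : List (List F)) (he : mpol H ∣ pol E * pol E - pol E)
    (hI : B3J H done St) : B3J H (E :: done) (b3S mm an St E) := by
  have sp := fun G hG => b3G_spec hm ha E G ((b3_dvd_of_mem hI.1.1 (G := G) hG).trans he)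
  refine ⟨b3S_inv hm ha H E St he hI.1, ?_, ?_⟩
  · unfold b3S
    rw [List.pairwise_flatten]
    refine ⟨?_, ?_⟩
    · intro l hl
      rw [List.mem_map] at hl
      obtain ⟨G, hG, rfl⟩ := hl
      exact (sp G hG).2.2.1
    · rw [List.pairwise_map]
      refine List.Pairwise.imp_of_mem ?_ hI.2.1
      intro G G' hG hG' hc A hA A' hA'
      exact hc.of_isCoprime_of_dvd_left ((sp G hG).2.2.2.1 A hA) |>.of_isCoprime_of_dvd_right
        ((sp G' hG').2.2.2.1 A' hA')
  · intro A hA D hD
    unfold b3S at hA
    rw [List.mem_flatten] at hA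
    obtain ⟨l, hl, hAl⟩ := hA
    rw [List.mem_map] at hl
    obtain ⟨G, hG, rfl⟩ := hl
    rcases List.mem_cons.1 hD with rfl | hD
    · exact (sp G hG).2.2.2.2 A hAl
    · have h1 := (sp G hG).2.2.2.1 A hAl
      rcases hI.2.2 G hG D hD with h | h
      · exact Or.inl (h1.trans h)
      · exact Or.inr (h1.trans h)

theorem b3_fold {mm an : (List F × List F) → List F → List F} (hm : MMok mm) (ha : ANok an)
    (H : List F) (Es done St : List (List F))
    (he : ∀ E ∈ Es, mpol H ∣ pol E * pol E - pol E)
    (hI : B3J H done St) : B3J H (Es ++ done) (List.foldl (b3S mm an) St Es) := by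
  induction Es generalizing done St with
  | nil => exact hI
  | cons E t ih =>
    have h1 := b3S_invJ hm ha H E done St (he E (by simp)) hI
    have h2 := ih (E :: done) (b3S mm an St E) (fun D hD => he D (by simp [hD])) h1
    refine ⟨h2.1, h2.2.1, ?_⟩
    intro G hG D hD
    refine h2.2.2 G hG D ?_
    simp only [List.cons_append, List.mem_cons, List.mem_append] at hD ⊢
    tauto

/-! ### lengths -/

theorem b3_sum_length {H : List F} {St : List (List F)} (h : (St.map mpol).prod = mpol H) :
    (St.map List.length).sum = H.length := by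
  have : ∀ l : List (List F), ((l.map mpol).prod).natDegree = (l.map List.length).sum ∧
      ((l.map mpol).prod).Monic := by
    intro l
    induction l with
    | nil => simp
    | cons G t ih =>
      simp only [List.map_cons, List.prod_cons, List.sum_cons]
      refine ⟨?_, (b3_monic G).mul ih.2⟩
      rw [(b3_monic G).natDegree_mul ih.2, b3_natDegree, ih.1]
  rw [← (this St).1, h, b3_natDegree]

theorem b3_card_le {St : List (List F)} (h : ∀ G ∈ St, 1 ≤ G.length) :
    St.length ≤ (St.map List.length).sum := by
  induction St with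
  | nil => simp
  | cons G t ih =>
    have h1 := h G (by simp)
    have h2 := ih (fun G hG => h G (by simp [hG]))
    simp only [List.length_cons, List.map_cons, List.sum_cons]
    omega

theorem b3_len_le {St : List (List F)} {G : List F} (hG : G ∈ St) :
    G.length ≤ (St.map List.length).sum :=
  List.le_sum_of_mem (List.mem_map_of_mem hG)

theorem b3_ww_sum (hs : ∀ a b, ww a + ww b ≤ ww (a + b)) (St : List (List F)) :
    (St.map (fun G => ww (G.length + 1))).sum ≤ ww ((St.map List.length).sum + St.length) := by
  induction St with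
  | nil => simp
  | cons G t ih =>
    simp only [List.map_cons, List.sum_cons, List.length_cons]
    have h1 := hs (G.length + 1) ((t.map List.length).sum + t.length)
    have e : G.length + 1 + ((t.map List.length).sum + t.length) =
      G.length + (t.map List.length).sum + (t.length + 1) := by ring
    rw [e] at h1
    omega

end main


theorem b3_lgc1 (n : ℕ) : lgc (n + 1 + 1) ≤ 3 * lgc (n + 1) := by
  unfold lgc
  rw [Nat.clog_of_one_lt (n := n + 1 + 1) (by norm_num) (by omega)]
  have h1 : Nat.clog 2 ((n + 1 + 1 + 2 - 1) / 2) ≤ Nat.clog 2 (n + 1) :=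
    Nat.clog_mono_right 2 (by omega)
  omega

theorem b3_lgc2 (n : ℕ) : lgc (2 + 1 + 1) ≤ 3 * lgc (n + 1) := by
  unfold lgc
  have : Nat.clog 2 (2 + 1 + 1) = 2 := by decide
  omega

theorem b3_lgc3 {m n : ℕ} (h : m ≤ n) : lgc m ≤ lgc n := by
  unfold lgc
  have := Nat.clog_mono_right 2 h
  omega

section cost
variable {F : Type} [Field F] [DecidableEq F]

theorem cost_b3m (pm : Pr [] (.prod TB (.prod (.prod Po Po) Po)) Po)
    (p : Pr [] (.prod (.prod TB (.prod Po Po)) Po) Po)
    (tb : List (List F) × List (List F)) (E E' G : List F) :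
    (b3m pm p).cost () () ((tb, (E, E')), G) =
      p.cost () () ((tb, (E, E')), G) +
      pm.cost () () (tb, ((p.val () ((tb, (E, E')), G), [1]), G)) + 10 := by
  simp [b3m]
  omega

theorem cost_b3a (pm pa : Pr [] (.prod TB (.prod (.prod Po Po) Po)) Po)
    (p : Pr [] (.prod (.prod TB (.prod Po Po)) Po) Po)
    (tb : List (List F) × List (List F)) (E E' G : List F) :
    (b3a pm pa p).cost () () ((tb, (E, E')), G) =
      p.cost () () ((tb, (E, E')), G) +
      pm.cost () () (tb, (([0, 1], [1]), G)) +
      pm.cost () () (tb, ((p.val () ((tb, (E, E')), G), [1]), G)) +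
      pa.cost () () (tb, ((pm.val () (tb, (([0, 1], [1]), G)),
        pm.val () (tb, ((p.val () ((tb, (E, E')), G), [1]), G))), G)) + 33 := by
  simp [b3a]
  simp [b3m]
  omega

end cost


section final
variable {F : Type} [Field F] [DecidableEq F]

/-- cost of the new factors -/
theorem cost_b3g (pm pa : Pr [] (.prod TB (.prod (.prod Po Po) Po)) Po)
    (tb : List (List F) × List (List F)) (E E' G : List F) (X1 X2 : ℕ)
    (h1 : pm.cost () () (tb, (([0, 1], [1]), G)) ≤ X1)
    (h2 : pm.cost () () (tb, ((E, [1]), G)) ≤ X1)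
    (h3 : pm.cost () () (tb, ((E', [1]), G)) ≤ X1)
    (h4 : pa.cost () () (tb, ((pm.val () (tb, (([0, 1], [1]), G)),
        pm.val () (tb, ((E, [1]), G))), G)) ≤ X2)
    (h5 : pa.cost () () (tb, ((pm.val () (tb, (([0, 1], [1]), G)),
        pm.val () (tb, ((E', [1]), G))), G)) ≤ X2) :
    (b3g pm pa).cost () () ((tb, (E, E')), G) ≤ 4 * X1 + 2 * X2 + 120 := by
  unfold b3g
  refine (cost_b3c _ _ _ _ _).trans ?_
  have e1 := cost_b3c (F := F) (b3a pm pa (.comp (.comp .fst .snd) .snd)) .nil () ()
    ((tb, (E, E')), G)
  have e2 := cost_b3a pm pa (.comp (.comp .fst .snd) .fst) tb E E' G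
  have e3 := cost_b3a pm pa (.comp (.comp .fst .snd) .snd) tb E E' G
  simp only [cost_comp, cost_fst, cost_snd, val_comp, val_fst, val_snd, cost_nil] at e1 e2 e3
  omega


theorem val_b3g (pm pa : Pr [] (.prod TB (.prod (.prod Po Po) Po)) Po)
    (tb : List (List F) × List (List F)) (E E' G : List F) :
    (b3g pm pa).val () ((tb, (E, E')), G) =
      b3G (fun x G => pm.val () (tb, (x, G))) (fun x G => pa.val () (tb, (x, G))) E E' G := by
  simp [b3g, b3a, b3m, b3G, b3A]

theorem val_b3s (pm pa : Pr [] (.prod TB (.prod (.prod Po Po) Po)) Po)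
    (tb : List (List F) × List (List F)) (St : List (List F)) (E : List F) :
    (b3s pm pa).val () (tb, (St, E)) =
      b3S (fun x G => pm.val () (tb, (x, G))) (fun x G => pa.val () (tb, (x, G))) St E := by
  simp only [b3s, val_comp, val_pair, val_fst, val_snd, val_mapP, val_flatP, val_b3neg, b3S]
  congr 1
  all_goals
    refine List.map_congr_left ?_
    intro G _
    exact val_b3g pm pa tb E (omE E) G

theorem cost_b3s (pm pa : Pr [] (.prod TB (.prod (.prod Po Po) Po)) Po)
    (tb : List (List F) × List (List F)) (St : List (List F)) (E : List F)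
    (X1 : ℕ) (X2 : List F → ℕ)
    (hg : ∀ G ∈ St, (b3g pm pa).cost () () ((tb, (E, omE E)), G) ≤ X1 + X2 G) :
    (b3s pm pa).cost () () (tb, (St, E)) ≤
      15 * E.length + (X1 + 124) * St.length + (St.map X2).sum + 100 := by
  have c1 := cost_b3neg (F := F) (s := []) () () E
  have c2 := cost_mapP (F := F) (b3g pm pa) () () ((tb, (E, omE E)), St)
  have c3 := cost_flatP (F := F) (s := []) (a := Po) () ()
    (St.map (b3G (fun x G => pm.val () (tb, (x, G))) (fun x G => pa.val () (tb, (x, G)))
      E (omE E))) 2 (by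
      intro y hy
      rw [List.mem_map] at hy
      obtain ⟨G, _, rfl⟩ := hy
      have := b3G_length (fun x G => pm.val () (tb, (x, G))) (fun x G => pa.val () (tb, (x, G)))
        E (omE E) G
      exact this)
  have hv : List.map (fun y => (b3g pm pa).val () ((tb, (E, omE E)), y)) St =
      St.map (b3G (fun x G => pm.val () (tb, (x, G))) (fun x G => pa.val () (tb, (x, G)))
      E (omE E)) := by
    refine List.map_congr_left ?_
    intro G _
    exact val_b3g pm pa tb E (omE E) G
  have c4 : (List.map (fun y => (b3g pm pa).cost () () ((tb, (E, omE E)), y) + 13) St).sum ≤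
      (X1 + 13) * St.length + (St.map X2).sum := by
    clear c2 c3 hv
    induction St with
    | nil => simp
    | cons G t ih =>
      have e1 := hg G (by simp)
      have e2 := ih (fun G hG => hg G (by simp [hG]))
      simp only [List.map_cons, List.sum_cons, List.length_cons]
      nlinarith
  simp only [b3s, cost_comp, cost_pair, cost_fst, cost_snd, val_comp, val_pair, val_fst, val_snd,
    val_mapP, val_b3neg]
  rw [hv]
  simp only [List.length_map] at c2 c3
  have e : (X1 + 124) * St.length = (X1 + 13) * St.length + 111 * St.length := by ring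
  rw [e]
  omega

end final

/-- splitting by idempotents -/
theorem specRefine (h1 : SpecMulMod) (h2 : SpecAnn) (h0 : SpecUnits) : SpecRefine := by
  obtain ⟨pm, C1, hm⟩ := h1
  obtain ⟨pa, C2, ha⟩ := h2
  obtain ⟨mu_mono, ww_mono, -, -, ww_add, mu_ge, ww_ge, -, ww_c, -, -, mu_ww, -, -⟩ := h0
  obtain ⟨C3, h3⟩ := mu_ww 4
  obtain ⟨C4, h4⟩ := ww_c 2
  refine ⟨b3p pm pa, 12 * C1 * C3 + 2 * C2 * C4 + 244 * C3 + 5000, 1, ?_⟩
  intro F _ _ tb H Es htb hH hSh hE
  have hMM : MMok (F := F) (fun x G => pm.val () (tb, (x, G))) := fun a b G =>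
    ⟨(hm F tb a b G htb).1, (hm F tb a b G htb).2.1⟩
  have hAN : ANok (F := F) (fun x G => pa.val () (tb, (x, G))) := fun y e G hy he =>
    ⟨(ha F tb y e G htb hy he).1, (ha F tb y e G htb hy he).2.1⟩
  have hval : ((b3p pm pa).val () (tb, (H, Es)) : List (List F)) =
      List.foldl (b3S (fun x G => pm.val () (tb, (x, G))) (fun x G => pa.val () (tb, (x, G))))
        [H] Es := by
    simp only [b3p, val_comp, val_pair, val_fst, val_snd, val_foldP, val_cons, val_nil]
    congr 1
    funext St E
    exact val_b3s pm pa tb St E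
  have hJ0 : B3J H [] [H] := by
    refine ⟨⟨by simp, by simpa using hH⟩, by simp, by simp⟩
  have hJ := b3_fold hMM hAN H Es [] [H] hE hJ0
  intro Hs
  have hHs : Hs = List.foldl (b3S (fun x G => pm.val () (tb, (x, G)))
    (fun x G => pa.val () (tb, (x, G)))) [H] Es := hval
  rw [← hHs] at hJ
  refine ⟨hJ.1.1, hJ.1.2, hJ.2.1, fun G hG E hE => hJ.2.2 G hG E (by simp [hE]), ?_⟩
  -- the cost
  set n := H.length with hn
  set L := lgc (n + 1) with hL
  set W := ww (n + 1) with hW
  have L1 : 1 ≤ L := by rw [hL]; unfold lgc; omega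
  have W1 : (n + 1) * (n + 1) ≤ W := ww_ge (n + 1)
  have step : ∀ (St : List (List F)) (E : List F), B3I H St → E ∈ Es →
      (b3s pm pa).cost () () (tb, (St, E)) ≤
        (12 * C1 * C3 + 2 * C2 * C4 + 244 * C3 + 200) * (L * W) := by
    intro St E hI hEs
    have hEn : E.length = n := hSh E hEs
    have s1 := b3_sum_length hI.1
    have s2 := b3_card_le hI.2
    have s3 : ∀ G ∈ St, G.length ≤ n := fun G hG => by
      have := b3_len_le hG; omega
    set M := mu (4 * (n + 1)) with hM
    have M1 : 1 ≤ M := by
      have := mu_ge (4 * (n + 1)); omega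
    have s4 := b3_ww_sum ww_add St
    have s5 : ww ((St.map List.length).sum + St.length) ≤ C4 * W :=
      (ww_mono _ _ (by omega)).trans (h4 n)
    have mm : ∀ (a b G : List F), G ∈ St → lgc (a.length + b.length + 1) ≤ 3 * L →
        a.length + b.length + G.length + 1 ≤ 4 * (n + 1) →
        pm.cost () () (tb, ((a, b), G)) ≤ 3 * C1 * (L * M) := by
      intro a b G hG hl hlen
      refine ((hm F tb a b G htb).2.2).trans ?_
      have e1 := mu_mono _ _ hlen
      calc C1 * lgc (a.length + b.length + 1) * mu (a.length + b.length + G.length + 1)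
          ≤ C1 * (3 * L) * M := Nat.mul_le_mul (Nat.mul_le_mul_left _ hl) e1
        _ = 3 * C1 * (L * M) := by ring
    have aa : ∀ (y e G : List F), G ∈ St → y.length = G.length → e.length = G.length →
        pa.cost () () (tb, ((y, e), G)) ≤ C2 * (L * ww (G.length + 1)) := by
      intro y e G hG hy he
      refine ((ha F tb y e G htb hy he).2.2).trans ?_
      have e1 : lgc (G.length + 1) ≤ L := b3_lgc3 (by have := s3 G hG; omega)
      calc C2 * lgc (G.length + 1) * ww (G.length + 1) ≤ C2 * L * ww (G.length + 1) :=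
            Nat.mul_le_mul_right _ (Nat.mul_le_mul_left _ e1)
        _ = C2 * (L * ww (G.length + 1)) := by ring
    have hg : ∀ G ∈ St, (b3g pm pa).cost () () ((tb, (E, omE E)), G) ≤
        (12 * C1 * (L * M) + 120) + 2 * C2 * (L * ww (G.length + 1)) := by
      intro G hG
      have g1 := s3 G hG
      have g0 := hI.2 G hG
      have hEn' : (omE E).length = n := by rw [length_omE E (by omega)]; exact hEn
      have l1 := (hMM [0, 1] [1] G).1
      have l2 := (hMM E [1] G).1
      have l3 := (hMM (omE E) [1] G).1
      have := cost_b3g pm pa tb E (omE E) G (3 * C1 * (L * M)) (C2 * (L * ww (G.length + 1)))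
        (mm [0, 1] [1] G hG (b3_lgc2 n) (by simp; omega))
        (mm E [1] G hG (by rw [hEn]; exact b3_lgc1 n) (by simp [hEn]; omega))
        (mm (omE E) [1] G hG (by rw [hEn']; exact b3_lgc1 n) (by simp [hEn']; omega))
        (aa _ _ G hG l1 l2) (aa _ _ G hG l1 l3)
      refine this.trans (le_of_eq ?_)
      ring
    have c := cost_b3s pm pa tb St E _ (fun G => 2 * C2 * (L * ww (G.length + 1))) hg
    have s6 : (St.map (fun G => 2 * C2 * (L * ww (G.length + 1)))).sum =
        2 * C2 * L * (St.map (fun G => ww (G.length + 1))).sum := by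
      rw [← List.sum_map_mul_left]
      congr 1
      refine List.map_congr_left ?_
      intro G _
      ring
    rw [s6, hEn] at c
    have s7 : 2 * C2 * L * (St.map (fun G => ww (G.length + 1))).sum ≤
        2 * C2 * C4 * (L * W) := by
      calc 2 * C2 * L * (St.map (fun G => ww (G.length + 1))).sum ≤ 2 * C2 * L * (C4 * W) :=
            Nat.mul_le_mul_left _ (s4.trans s5)
        _ = 2 * C2 * C4 * (L * W) := by ring
    have s8 : St.length ≤ n + 1 := by omega
    have s9 : (n + 1) * M ≤ C3 * W := h3 n
    have s10 : (12 * C1 * (L * M) + 120 + 124) * St.length ≤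
        (12 * C1 * C3 + 244 * C3) * (L * W) := by
      calc (12 * C1 * (L * M) + 120 + 124) * St.length
          ≤ (12 * C1 * (L * M) + 244 * (L * M)) * (n + 1) := by
            refine Nat.mul_le_mul ?_ s8
            have : 1 ≤ L * M := Nat.one_le_iff_ne_zero.2 (by positivity)
            omega
        _ = (12 * C1 + 244) * L * ((n + 1) * M) := by ring
        _ ≤ (12 * C1 + 244) * L * (C3 * W) := Nat.mul_le_mul_left _ s9
        _ = (12 * C1 * C3 + 244 * C3) * (L * W) := by ring
    have s11 : 15 * n + 100 ≤ 200 * (L * W) := by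
      have : W ≤ L * W := by nlinarith
      nlinarith
    have s12 : (12 * C1 * C3 + 2 * C2 * C4 + 244 * C3 + 200) * (L * W) =
        (12 * C1 * C3 + 244 * C3) * (L * W) + 2 * C2 * C4 * (L * W) + 200 * (L * W) := by ring
    rw [s12]
    omega
  have fc := cost_foldP_le (F := F) (b3s pm pa) () () (tb, (([H] : List (List F)), Es))
    ((12 * C1 * C3 + 2 * C2 * C4 + 244 * C3 + 200) * (L * W)) (fun St => B3I H St) hJ0.1
    (fun St E hI hEs => by
      rw [val_b3s]
      exact b3S_inv hMM hAN H E St (hE E hEs) hI)
    (fun St E hI hEs => step St E hI hEs)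
  have total : (b3p pm pa).cost () () (tb, (H, Es)) =
      (foldP (b3s pm pa)).cost () () (tb, (([H] : List (List F)), Es)) + 10 := by
    simp only [b3p, cost_comp, cost_pair, cost_fst, cost_snd, val_comp, val_pair, val_fst,
      val_snd, cost_cons, cost_nil, val_cons, val_nil]
    omega
  rw [total, pow_one]
  set B := (12 * C1 * C3 + 2 * C2 * C4 + 244 * C3 + 200) with hB
  have LW : 1 ≤ L * W := Nat.one_le_iff_ne_zero.2 (by
    have : 0 < W := by nlinarith
    positivity)
  have e1 : (B * (L * W) + 27) * Es.length + 14 + 14 ≤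
      (B * (L * W) + 28 * (L * W)) * (Es.length + 1) := by nlinarith
  have e2 : (B * (L * W) + 28 * (L * W)) * (Es.length + 1) =
      (B + 28) * L * ((Es.length + 1) * W) := by ring
  have e3 : (B + 28) * L * ((Es.length + 1) * W) ≤
      (12 * C1 * C3 + 2 * C2 * C4 + 244 * C3 + 5000) * L * ((Es.length + 1) * W) := by
    refine Nat.mul_le_mul_right _ (Nat.mul_le_mul_right _ ?_)
    omega
  refine le_trans ?_ e3
  rw [← e2]
  refine le_trans ?_ e1
  exact (Nat.add_le_add_right fc 10).trans (Nat.add_le_add_left (by norm_num) _)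

end Pool.Agent.H330FB.JB3
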