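import Pool.Agent.H330FB.Lib5
import Pool.Agent.H330FB.Spec2
set_option autoImplicit false
noncomputable section
namespace Pool.Agent.H330FB.JB4
open Polynomial
/- RADICAL OF A PRIMARY POLYNOMIAL. y = x^(q^e) mod H (SpecFrob applied to x mod H), h = annihilator (y, e := 1; modulus H = P^c). Claim mpol h = P: P(y) = P(x^Q) = P(x)^Q (coefficients in K,
Q = card K) is divisible by P^c since Q >= H.length >= c. Conversely if P^c | B(x^Q) then P | B(x^Q); in the field K[x]/P the element x^Q is a root of P, so it has minimal polynomial P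
and P | B. c = H.length / h.length: repeatedly drop h.length elements from H (fuel H) and count. -/

namespace PrimJob

variable {F : Type} [Field F] [DecidableEq F]
variable {s : List (Ty × Ty)}

/-- body of the counting routine -/
def cntB : Pr ((.prod Po Po, Un) :: s) (.prod Po Po) Un :=
  onL .snd .nil (.comp (.pair .star (.comp (.pair (.comp .fst .fst)
    (.comp (.comp .fst splitP) .snd)) .self)) .cons)

/-- number of pieces of length `h.length` in `l`, input `(h, l)` -/
def cntP : Pr s (.prod Po Po) Un := .comp (.pair .snd .id) (.recD cntB .nil)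

theorem val_cntP (v : SV F s) (h l : List F) (c : ℕ) (hh : 1 ≤ h.length)
    (hl : l.length = c * h.length) :
    (cntP : Pr s (.prod Po Po) Un).val v (h, l) = un c := by
  have key : ∀ (n c : ℕ) (l : List F), l.length = c * h.length → l.length ≤ n →
      goV (s := s) cntB .nil v n (h, l) = un c := by
    intro n
    induction n with
    | zero =>
      intro c l h1 h2
      have h3 : c = 0 := by
        rcases Nat.eq_zero_or_pos c with h | h
        · exact h
        · have := Nat.mul_pos h hh
          omega
      subst h3
      simp [goV, un]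
    | succ n ih =>
      intro c l h1 h2
      cases l with
      | nil =>
        have h3 : c = 0 := by
          rcases Nat.eq_zero_or_pos c with h | h
          · exact h
          · have := Nat.mul_pos h hh
            rw [← h1] at this
            simp at this
        subst h3
        simp [goV, cntB, un]
      | cons x l =>
        cases c with
        | zero => simp at h1
        | succ c =>
          have e := ih c ((x :: l).drop h.length) (by
            rw [List.length_drop, h1]; rw [Nat.succ_mul]; omega) (by
            rw [List.length_drop]; omega)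
          simp only [goV, cntB, val_onL, val_snd, lcase_cons, val_comp, val_pair, val_star,
            val_fst, val_splitP, val_self, val_cons, un, List.replicate_succ]
          rw [cntB] at e
          rw [e]
          rfl
  simp only [cntP, val_comp, val_pair, val_snd, val_id, val_recD]
  exact key _ _ _ hl le_rfl

theorem cost_cntP (v : SV F s) (k : SC F s) (h l : List F) (c : ℕ) (hh : 1 ≤ h.length)
    (hl : l.length = c * h.length) :
    (cntP : Pr s (.prod Po Po) Un).cost v k (h, l) ≤ 60 * l.length + 20 := by
  have key : ∀ (n c : ℕ) (l : List F), l.length = c * h.length → l.length ≤ n →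
      goC (s := s) cntB .nil v k n (h, l) ≤ 60 * l.length + 10 := by
    intro n
    induction n with
    | zero =>
      intro c l h1 h2
      simp [goC]
    | succ n ih =>
      intro c l h1 h2
      cases l with
      | nil => simp [goC, cntB]
      | cons x l =>
        cases c with
        | zero => simp at h1
        | succ c =>
          have h4 : ((x :: l).drop h.length).length = (x :: l).length - h.length :=
            List.length_drop
          have h5 : h.length ≤ (x :: l).length := by
            rw [h1, Nat.succ_mul]; omega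
          have e := ih c ((x :: l).drop h.length) (by
            rw [List.length_drop, h1]; rw [Nat.succ_mul]; omega) (by
            rw [List.length_drop]; omega)
          have e2 := cost_splitP (s := (.prod Po Po, Un) :: s) (F := F)
            (b := .fld) (a := .fld) (goV cntB .nil v n, v) (goC cntB .nil v k n, k) (h, (x :: l : List F))
          rw [h4] at e
          simp only [goC, cntB, cost_onL, val_snd, cost_snd, lcase_cons, cost_comp, cost_pair,
            cost_star, cost_fst, val_comp, val_fst, val_splitP, cost_self, cost_cons, val_pair] at e2 ⊢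
          rw [cntB] at e
          omega
  have := key _ _ _ hl le_rfl
  simp only [cntP, cost_comp, cost_pair, cost_snd, cost_id, cost_recD, val_pair, val_snd, val_id]
  omega

/-- the list `[1]` -/
def l1 {a : Ty} : Pr s a Po := .comp (.pair .one .nil) .cons
/-- the list `[0, 1]` -/
def l01 {a : Ty} : Pr s a Po := .comp (.pair .zero l1) .cons

/-- context -/
abbrev Cx : Ty := .prod TB (.prod (.prod Po Un) Po)

/-- `x` modulo `H` -/
def pX (pm : Pr [] (.prod TB (.prod (.prod Po Po) Po)) Po) : Pr [] Cx Po :=
  ap2 pm .fst (.pair (.pair l01 l1) (.comp .snd .snd))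
/-- `1` modulo `H` -/
def pE (pm : Pr [] (.prod TB (.prod (.prod Po Po) Po)) Po) : Pr [] Cx Po :=
  ap2 pm .fst (.pair (.pair l1 l1) (.comp .snd .snd))
/-- `x ^ Q` modulo `H` -/
def pY (pm : Pr [] (.prod TB (.prod (.prod Po Po) Po)) Po)
    (pf : Pr [] (.prod TB (.prod (.prod Po (.prod Po Un)) Po)) Po) : Pr [] Cx Po :=
  ap2 pf .fst (.pair (.pair (pX pm) (.comp .snd .fst)) (.comp .snd .snd))
/-- the radical -/
def pH (pm : Pr [] (.prod TB (.prod (.prod Po Po) Po)) Po)
    (pf : Pr [] (.prod TB (.prod (.prod Po (.prod Po Un)) Po)) Po)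
    (pa : Pr [] (.prod TB (.prod (.prod Po Po) Po)) Po) : Pr [] Cx Po :=
  ap2 pa .fst (.pair (.pair (pY pm pf) (pE pm)) (.comp .snd .snd))
/-- the radical and the exponent -/
def pR (pm : Pr [] (.prod TB (.prod (.prod Po Po) Po)) Po)
    (pf : Pr [] (.prod TB (.prod (.prod Po (.prod Po Un)) Po)) Po)
    (pa : Pr [] (.prod TB (.prod (.prod Po Po) Po)) Po) : Pr [] Cx (.prod Po Un) :=
  lt (pH pm pf pa) (.pair .snd (.comp (.pair .snd (.comp (.comp .fst .snd) .snd)) cntP))

theorem pol_deg {R : Type} [CommRing R] [Nontrivial R] (l : List R) :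
    (pol l).degree < l.length := by
  induction l with
  | nil => simp [pol]
  | cons x l ih =>
    simp only [pol, List.length_cons]
    refine lt_of_le_of_lt (degree_add_le _ _) (max_lt ?_ ?_)
    · refine lt_of_le_of_lt degree_C_le ?_
      exact_mod_cast Nat.succ_pos _
    · rcases eq_or_ne (pol l) 0 with h | h
      · rw [h, mul_zero, degree_zero]; exact WithBot.bot_lt_coe _
      · have h1 := natDegree_X_mul h
        have h2 : X * pol l ≠ 0 := by
          intro h3
          rw [h3] at h1
          simp at h1
        rw [degree_eq_natDegree h2, h1]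
        rw [degree_eq_natDegree h] at ih
        have : (pol l).natDegree < l.length := by exact_mod_cast ih
        exact_mod_cast Nat.succ_lt_succ this

theorem mpol_monic {R : Type} [CommRing R] [Nontrivial R] (l : List R) : (mpol l).Monic := by
  unfold mpol
  exact monic_X_pow_add (pol_deg l)

theorem mpol_natDegree {R : Type} [CommRing R] [Nontrivial R] (l : List R) :
    (mpol l).natDegree = l.length := by
  unfold mpol
  rw [natDegree_add_eq_left_of_degree_lt (by rw [degree_X_pow]; exact pol_deg l)]
  simp

end PrimJob

open PrimJob in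
theorem specPrim (h1 : SpecMulMod) (h2 : SpecFrob) (h3 : SpecAnn) (h0 : SpecUnits) : SpecPrim := by
  obtain ⟨pm, C1, hm⟩ := h1
  obtain ⟨pf, C2, hf⟩ := h2
  obtain ⟨pa, C3, ha⟩ := h3
  obtain ⟨mu_mono, ww_mono, -, -, -, mu_ge, ww_ge, mu_c, -, -, mu_ww, -, -, -⟩ := h0
  obtain ⟨D1, hD1⟩ := mu_ww 4
  refine ⟨pR pm pf pa, 2 * (C1 * lgc 4 * D1) + C2 * D1 + C3 + 200, 1, ?_⟩
  intro K _ _ _ q e tb H c P hcard htb hHq hP hPm hc hH
  -- the values
  set Q := q ^ e with hQ
  have hx := hm K tb [0, 1] [1] H htb
  have he := hm K tb [1] [1] H htb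
  set x : List K := pm.val () (tb, (([0, 1], [1]), H)) with hxdef
  set e1 : List K := pm.val () (tb, (([1], [1]), H)) with he1def
  obtain ⟨hx1, hx2, hx3⟩ := hx
  obtain ⟨he1, he2, he3⟩ := he
  obtain ⟨hy1, hy2, hy3⟩ := hf K tb x H q e htb hx1
  set y : List K := pf.val () (tb, ((x, (bits K q, un e)), H)) with hydef
  obtain ⟨hh1, hh2, hh3⟩ := ha K tb y e1 H htb hy1 he1
  set h : List K := pa.val () (tb, ((y, e1), H)) with hhdef
  -- degrees
  have hPd : P.natDegree ≥ 1 := hP.natDegree_pos
  have hHl : H.length = c * P.natDegree := by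
    rw [← mpol_natDegree H, hH, natDegree_pow]
  have hcQ : c ≤ Q := by
    have : c * 1 ≤ c * P.natDegree := Nat.mul_le_mul_left _ hPd
    omega
  have hpolx : mpol H ∣ X - pol x := by
    have : (pol ([0, 1] : List K)) * pol ([1] : List K) = X := by simp [pol]
    rw [← this]; exact hx2
  have hpole : mpol H ∣ 1 - pol e1 := by
    have : (pol ([1] : List K)) * pol ([1] : List K) = 1 := by simp [pol]
    rw [← this]; exact he2
  have hpoly : mpol H ∣ X ^ Q - pol y := by
    have h5 : mpol H ∣ X ^ Q - pol x ^ Q := hpolx.trans (sub_dvd_pow_sub_pow _ _ _)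
    have h6 := dvd_add h5 hy2
    rw [← hQ] at h6
    have h7 : X ^ Q - pol x ^ Q + (pol x ^ Q - pol y) = X ^ Q - pol y := by ring
    rwa [h7] at h6
  have hiff : ∀ B : K[X], mpol H ∣ B.comp (pol y) * pol e1 ↔ P ∣ B := by
    intro B
    have h6 : mpol H ∣ B.comp (X ^ Q) - B.comp (pol y) := by
      have := hpoly.trans (sub_dvd_eval_sub (X ^ Q : K[X]) (pol y) (B.map C))
      rw [eval_map, eval_map] at this
      exact this
    have h7 : B.comp (X ^ Q) = B ^ Q := by
      rw [← expand_eq_comp_X_pow, ← hcard, FiniteField.expand_card]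
    have h8 : mpol H ∣ B.comp (pol y) * pol e1 ↔ mpol H ∣ B.comp (pol y) := by
      constructor
      · intro h9
        have h10 : mpol H ∣ B.comp (pol y) * (1 - pol e1) := Dvd.dvd.mul_left hpole _
        have := dvd_add h9 h10
        have h11 : B.comp (pol y) * pol e1 + B.comp (pol y) * (1 - pol e1) = B.comp (pol y) := by
          ring
        rwa [h11] at this
      · intro h9
        exact Dvd.dvd.mul_right h9 _
    rw [h8]
    have h9 : mpol H ∣ B.comp (pol y) ↔ mpol H ∣ B ^ Q := by
      rw [← h7]
      constructor
      · intro h10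
        have := dvd_add h6 h10
        simpa using this
      · intro h10
        have := dvd_sub h10 h6
        simpa using this
    rw [h9, hH]
    constructor
    · intro h10
      exact hP.prime.dvd_of_dvd_pow ((dvd_pow_self P (by omega)).trans h10)
    · intro h10
      exact (pow_dvd_pow P hcQ).trans (pow_dvd_pow_of_dvd h10 Q)
  have hhP : mpol h = P := by
    have h5 : mpol h ∣ P := (hh2 P).mp ((hiff P).mpr dvd_rfl)
    have h6 : P ∣ mpol h := (hiff _).mp ((hh2 _).mpr dvd_rfl)
    exact eq_of_monic_of_associated (mpol_monic h) hPm (associated_of_dvd_dvd h5 h6)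
  have hhl : h.length = P.natDegree := by rw [← mpol_natDegree h, hhP]
  have hval : (pR pm pf pa).val () (tb, ((bits K q, un e), H)) = (h, un c) := by
    have h5 := val_cntP (F := K) (s := []) () h H c (by omega) (by rw [hhl]; exact hHl)
    simp only [pR, pH, pY, pE, pX, l1, l01, val_lt, val_comp, val_pair, val_fst, val_snd,
      val_cons, val_nil, val_one, val_zero]
    rw [← hxdef, ← he1def, ← hydef, ← hhdef, h5]
  refine ⟨?_, ?_, ?_⟩
  · rw [hval]; exact hhP
  · rw [hval]
  · have h5 := cost_cntP (F := K) (s := []) () () h H c (by omega) (by rw [hhl]; exact hHl)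
    simp only [pR, pH, pY, pE, pX, l1, l01, cost_lt, cost_comp, cost_pair, cost_fst, cost_snd,
      cost_cons, cost_nil, cost_one, cost_zero, val_comp, val_pair, val_fst, val_snd, 
      val_cons, val_nil, val_one, val_zero]
    rw [← hxdef, ← he1def, ← hydef, ← hhdef]
    have a1 : mu (2 + 1 + H.length + 1) ≤ D1 * ww (H.length + 1) :=
      (mu_mono _ _ (by nlinarith)).trans (hD1 H.length)
    have a2 : mu (1 + 1 + H.length + 1) ≤ D1 * ww (H.length + 1) :=
      (mu_mono _ _ (by omega)).trans a1
    have a3 : mu (H.length + 1) ≤ D1 * ww (H.length + 1) :=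
      (mu_mono _ _ (by omega)).trans a1
    have a4 : H.length + 1 ≤ ww (H.length + 1) := by
      have := ww_ge (H.length + 1)
      nlinarith
    have p1 : 1 ≤ lgc (H.length + 1) := by unfold lgc; omega
    have p2 : 1 ≤ lgc q := by unfold lgc; omega
    have p3 : lgc (H.length + 1) ≤ PL e q H.length := by
      unfold PL
      calc lgc (H.length + 1) = 1 * 1 * lgc (H.length + 1) := by ring
        _ ≤ (e + 1) * lgc q * lgc (H.length + 1) :=
          Nat.mul_le_mul_right _ (Nat.mul_le_mul (by omega) p2)
    have p4 : 1 ≤ PL e q H.length := p1.trans p3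
    have b1 : lgc (1 + 1 + 1) ≤ lgc 4 := by
      unfold lgc
      have : Nat.clog 2 (1 + 1 + 1) ≤ Nat.clog 2 4 := Nat.clog_mono_right 2 (by norm_num)
      omega
    have b2 : lgc (2 + 1 + 1) = lgc 4 := rfl
    have c1 : pm.cost () () (tb, (([0, 1], [1]), H)) ≤ C1 * lgc 4 * D1 * ww (H.length + 1) := by
      refine hx3.trans ?_
      change C1 * lgc (2 + 1 + 1) * mu (2 + 1 + H.length + 1) ≤ _
      rw [b2, mul_assoc _ D1]
      exact Nat.mul_le_mul_left _ a1
    have c2 : pm.cost () () (tb, (([1], [1]), H)) ≤ C1 * lgc 4 * D1 * ww (H.length + 1) := by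
      refine he3.trans ?_
      change C1 * lgc (1 + 1 + 1) * mu (1 + 1 + H.length + 1) ≤ _
      rw [mul_assoc _ D1]
      exact Nat.mul_le_mul (Nat.mul_le_mul_left _ b1) a2
    have c3 : pf.cost () () (tb, ((x, (bits K q, un e)), H)) ≤
        C2 * D1 * PL e q H.length * ww (H.length + 1) := by
      refine hy3.trans ?_
      calc C2 * (e + 1) * lgc q * lgc (H.length + 1) * mu (H.length + 1)
          = C2 * PL e q H.length * mu (H.length + 1) := by unfold PL; ring
        _ ≤ C2 * PL e q H.length * (D1 * ww (H.length + 1)) := Nat.mul_le_mul_left _ a3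
        _ = _ := by ring
    have c4 : pa.cost () () (tb, ((y, e1), H)) ≤ C3 * PL e q H.length * ww (H.length + 1) := by
      refine hh3.trans ?_
      exact Nat.mul_le_mul_right _ (Nat.mul_le_mul_left _ p3)
    have d0 : ww (H.length + 1) ≤ PL e q H.length * ww (H.length + 1) :=
      Nat.le_mul_of_pos_left _ p4
    have d1 : C1 * lgc 4 * D1 * ww (H.length + 1) ≤
        C1 * lgc 4 * D1 * (PL e q H.length * ww (H.length + 1)) := Nat.mul_le_mul_left _ d0
    rw [pow_one]
    have d2 : (2 * (C1 * lgc 4 * D1) + C2 * D1 + C3 + 200) * PL e q H.length * ww (H.length + 1) =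
        2 * (C1 * lgc 4 * D1 * (PL e q H.length * ww (H.length + 1))) +
        C2 * D1 * PL e q H.length * ww (H.length + 1) + C3 * PL e q H.length * ww (H.length + 1) +
        200 * (PL e q H.length * ww (H.length + 1)) := by ring
    rw [d2]
    omega
end Pool.Agent.H330FB.JB4
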