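import Pool.Agent.H330FB.Lib5
import Pool.Agent.H330FB.Spec2
set_option autoImplicit false

noncomputable section
namespace Pool.Agent.H330FB.JB5
open Polynomial


namespace UniAux

section poly
variable {R : Type} [CommRing R]

theorem coeff_pol (l : List R) (j : ℕ) : (pol l).coeff j = l.getD j 0 := by
  induction l generalizing j with
  | nil => simp [pol]
  | cons x l ih =>
    cases j with
    | zero => simp [pol]
    | succ j => simp [pol, ih]

theorem degree_pol_lt (l : List R) : (pol l).degree < (l.length : WithBot ℕ) := by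
  rw [degree_lt_iff_coeff_zero]
  intro m hm
  rw [coeff_pol, List.getD_eq_default _ _ hm]

theorem monic_mpol (l : List R) : (mpol l).Monic := monic_X_pow_add (degree_pol_lt l)

theorem natDegree_mpol [Nontrivial R] (l : List R) : (mpol l).natDegree = l.length := by
  apply natDegree_eq_of_degree_eq_some
  rw [mpol, degree_add_eq_left_of_degree_lt, degree_X_pow]
  rw [degree_X_pow]
  exact degree_pol_lt l

/-- the polynomial of a vector -/
noncomputable def pv {n : ℕ} (x : Fin n → R) : R[X] := pol (List.ofFn x)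

theorem coeff_pv {n : ℕ} (x : Fin n → R) (j : ℕ) :
    (pv x).coeff j = if h : j < n then x ⟨j, h⟩ else 0 := by
  rw [pv, coeff_pol]
  split_ifs with h
  · rw [List.getD_eq_getElem _ _ (by simpa using h)]
    simp
  · rw [List.getD_eq_default _ _ (by simpa using h)]

theorem pv_add {n : ℕ} (x y : Fin n → R) : pv (x + y) = pv x + pv y := by
  ext j
  simp only [coeff_add, coeff_pv]
  split_ifs <;> simp

theorem pv_neg {n : ℕ} (x : Fin n → R) : pv (-x) = -pv x := by
  ext j
  simp only [coeff_neg, coeff_pv]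
  split_ifs <;> simp

theorem pv_zero {n : ℕ} : pv (0 : Fin n → R) = 0 := by
  ext j
  simp only [coeff_zero, coeff_pv]
  split_ifs <;> simp

theorem exists_pv {n : ℕ} (f : R[X]) (hf : f.degree < (n : WithBot ℕ)) :
    ∃ x : Fin n → R, pv x = f := by
  refine ⟨fun i => f.coeff i, ?_⟩
  ext j
  rw [coeff_pv]
  split_ifs with h
  · rfl
  · exact (coeff_eq_zero_of_degree_lt (lt_of_lt_of_le hf (by exact_mod_cast not_lt.1 h))).symm

end poly

section alg
variable {K : Type} [Field K] [Fintype K]

theorem pow_card_eq (v : K[X]) : v ^ (Fintype.card K) - v = ∏ c : K, (v - C c) := by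
  classical
  have h1 : (X ^ (Fintype.card K) - X : K[X]) = ∏ c : K, (X - C c) := by
    have h2 := FiniteField.roots_X_pow_card_sub_X K
    have h3 := FiniteField.X_pow_card_sub_X_natDegree_eq K (p := Fintype.card K)
      Fintype.one_lt_card
    have hm : (X ^ (Fintype.card K) - X : K[X]).Monic := by
      apply monic_X_pow_sub
      rw [degree_X]
      exact_mod_cast Fintype.one_lt_card
    have h4 := prod_multiset_X_sub_C_of_monic_of_roots_card_eq hm
      (by rw [h2, h3]; rfl)
    rw [← h4, h2]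
    rfl
  have h5 := congrArg (fun p => p.comp v) h1
  simp only [sub_comp, X_pow_comp, X_comp, prod_comp] at h5
  rw [h5]
  refine Finset.prod_congr rfl fun c _ => ?_
  simp

theorem frob_add (v w : K[X]) :
    (v + w) ^ (Fintype.card K) = v ^ (Fintype.card K) + w ^ (Fintype.card K) := by
  simp only [← FiniteField.expand_card, map_add]

theorem frob_neg (v : K[X]) : (-v) ^ (Fintype.card K) = -(v ^ (Fintype.card K)) := by
  simp only [← FiniteField.expand_card, map_neg]

/-- the Berlekamp algebra as a group of vectors -/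
def Ber (n : ℕ) (h : K[X]) : AddSubgroup (Fin n → K) where
  carrier := {x | h ∣ pv x ^ (Fintype.card K) - pv x}
  zero_mem' := by
    simp only [Set.mem_ofPred_eq, pv_zero]
    rw [zero_pow Fintype.card_ne_zero, sub_zero]
    exact dvd_zero _
  add_mem' := by
    intro x y hx hy
    simp only [Set.mem_ofPred_eq] at hx hy ⊢
    rw [pv_add, frob_add]
    have := dvd_add hx hy
    convert this using 1
    ring
  neg_mem' := by
    intro x hx
    simp only [Set.mem_ofPred_eq] at hx ⊢
    rw [pv_neg, frob_neg]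
    have := (dvd_neg).2 hx
    convert this using 1
    ring

theorem mem_Ber {n : ℕ} {h : K[X]} {x : Fin n → K} :
    x ∈ Ber n h ↔ h ∣ pv x ^ (Fintype.card K) - pv x := Iff.rfl

/-- residues modulo a primary polynomial -/
theorem exists_res (P : K[X]) (hP : Irreducible P) (k : ℕ) (v : K[X])
    (hv : P ^ k ∣ v ^ (Fintype.card K) - v) : ∃ c : K, P ^ k ∣ v - C c := by
  classical
  rcases Nat.eq_zero_or_pos k with rfl | hk
  · exact ⟨0, by simp⟩
  rw [pow_card_eq] at hv
  have h1 : P ∣ ∏ c : K, (v - C c) := (dvd_pow_self P hk.ne').trans hv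
  obtain ⟨c, _, hc⟩ := (Prime.dvd_finsetProd_iff hP.prime _).1 h1
  refine ⟨c, ?_⟩
  rw [← Finset.mul_prod_erase _ _ (Finset.mem_univ c)] at hv
  refine IsCoprime.dvd_of_dvd_mul_right ?_ hv
  apply IsCoprime.pow_left
  apply IsCoprime.prod_right
  intro c' hc'
  rw [Finset.mem_erase] at hc'
  have h2 : IsCoprime (v - C c) (v - C c') := by
    have h3 : (v - C c') - (v - C c) = C (c - c') := by
      rw [C_sub]; ring
    have h4 : c - c' ≠ 0 := sub_ne_zero.2 (Ne.symm hc'.1)
    refine ⟨-C (c - c')⁻¹, C (c - c')⁻¹, ?_⟩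
    have : -C (c - c')⁻¹ * (v - C c) + C (c - c')⁻¹ * (v - C c')
        = C (c - c')⁻¹ * ((v - C c') - (v - C c)) := by ring
    rw [this, h3, ← C_mul, inv_mul_cancel₀ h4, C_1]
  exact h2.of_isCoprime_of_dvd_left hc

theorem res_unique (D v : K[X]) (hD : ¬ IsUnit D) (c c' : K) (h : D ∣ v - C c)
    (h' : D ∣ v - C c') : c = c' := by
  by_contra hne
  have h3 : D ∣ C (c - c') := by
    have := dvd_sub h' h
    have h4 : (v - C c') - (v - C c) = C (c - c') := by
      rw [C_sub]; ring
    rwa [h4] at this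
  exact hD (isUnit_of_dvd_unit h3 (isUnit_C.2 (sub_ne_zero.2 hne).isUnit))

/-- an idempotent -/
theorem exists_idem (h D M : K[X]) (n : ℕ) (hm : h.Monic) (hn : h.natDegree = n)
    (hDM : D * M = h) (hc : IsCoprime D M) :
    ∃ x ∈ Ber n h, D ∣ pv x - 1 ∧ M ∣ pv x := by
  obtain ⟨u, w, huw⟩ := hc
  obtain ⟨x, hx⟩ := exists_pv (n := n) ((w * M) %ₘ h) (by
    have := degree_modByMonic_lt (w * M) hm
    rwa [degree_eq_natDegree hm.ne_zero, hn] at this)
  have h1 : h ∣ w * M - pv x := by
    rw [hx]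
    have := modByMonic_add_div (w * M) h
    exact ⟨(w * M) /ₘ h, by linear_combination -this⟩
  have hD1 : D ∣ pv x - 1 := by
    have e1 : D ∣ w * M - pv x := (Dvd.intro _ hDM).trans h1
    have e2 : D ∣ w * M - 1 := ⟨-u, by linear_combination huw⟩
    have := dvd_sub e2 e1
    convert this using 1
    ring
  have hM1 : M ∣ pv x := by
    have e1 : M ∣ w * M - pv x := (Dvd.intro_left _ hDM).trans h1
    have e2 : M ∣ w * M := dvd_mul_left _ _
    have := dvd_sub e2 e1
    convert this using 1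
    ring
  refine ⟨x, ?_, hD1, hM1⟩
  rw [mem_Ber, ← hDM]
  refine IsCoprime.mul_dvd ⟨u, w, huw⟩ ?_ ?_
  · have e1 : D ∣ pv x ^ (Fintype.card K) - 1 := by
      have := sub_dvd_pow_sub_pow (pv x) 1 (Fintype.card K)
      rw [one_pow] at this
      exact hD1.trans this
    have := dvd_sub e1 hD1
    convert this using 1
    ring
  · exact dvd_sub (hM1.trans (dvd_pow_self _ Fintype.card_ne_zero)) hM1

end alg

end UniAux


namespace UniAux

section count

open Finset in
/-- equidistribution of two coordinates -/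
theorem fiber_card {V K : Type} [AddCommGroup V] [Fintype V] [DecidableEq V]
    [AddCommGroup K] [Fintype K] [DecidableEq K]
    (B : AddSubgroup V) (G : V → V) (hG : ∀ x, G x ∈ B)
    (hGc : ∀ b ∈ B, Nat.card {x : V // G x = b} * Nat.card B = Fintype.card V)
    (c c' : V → K)
    (hadd : ∀ x ∈ B, ∀ y ∈ B, c (x + y) = c x + c y)
    (hadd' : ∀ x ∈ B, ∀ y ∈ B, c' (x + y) = c' x + c' y)
    (hsurj : ∀ a a' : K, ∃ x ∈ B, c x = a ∧ c' x = a') (y : K × K) :
    #{x : V | (c (G x), c' (G x)) = y} * (Fintype.card K) ^ 2 = Fintype.card V := by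
  classical
  -- the homomorphism
  let φ : B →+ K × K :=
    { toFun := fun b => (c b, c' b)
      map_zero' := by
        have h1 := hadd 0 B.zero_mem 0 B.zero_mem
        have h2 := hadd' 0 B.zero_mem 0 B.zero_mem
        rw [add_zero] at h1 h2
        have e1 : c 0 = 0 := by simpa using h1
        have e2 : c' 0 = 0 := by simpa using h2
        simp [e1, e2]
      map_add' := fun a b => by
        simp [hadd a a.2 b b.2, hadd' a a.2 b b.2] }
  have hφ : Function.Surjective φ := by
    rintro ⟨a, a'⟩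
    obtain ⟨x, hx, h1, h2⟩ := hsurj a a'
    exact ⟨⟨x, hx⟩, by simp [φ, h1, h2]⟩
  have hfib : ∀ z : K × K, #{g : B | φ g = z} * (Fintype.card K) ^ 2 = Fintype.card B := by
    intro z
    have h1 : ∀ z' : K × K, #{g : B | φ g = z'} = #{g : B | φ g = z} := fun z' =>
      AddMonoidHom.card_fiber_eq_of_mem_range φ (hφ z') (hφ z)
    have h2 : Fintype.card B = ∑ z' : K × K, #{g : B | φ g = z'} := by
      rw [← Finset.card_univ, Finset.card_eq_sum_card_fiberwise (f := φ) (t := Finset.univ)]
      intro x _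
      simp
    rw [h2, Finset.sum_congr rfl (fun z' _ => h1 z'), Finset.sum_const, Finset.card_univ,
      Fintype.card_prod, smul_eq_mul]
    ring
  have hcB : Nat.card B = Fintype.card B := Nat.card_eq_fintype_card
  have hGc' : ∀ b : B, #{x : V | G x = b} * Fintype.card B = Fintype.card V := by
    intro b
    rw [← hGc b b.2, hcB, Nat.card_eq_fintype_card, Fintype.card_subtype (fun x => G x = b)]
  have h3 : #{x : V | (c (G x), c' (G x)) = y} = ∑ b ∈ {g : B | φ g = y}, #{x : V | G x = b} := by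
    rw [Finset.card_eq_sum_card_fiberwise (f := fun x => (⟨G x, hG x⟩ : B))
      (t := {g : B | φ g = y})]
    · refine Finset.sum_congr rfl fun b hb => ?_
      rw [Finset.mem_filter] at hb
      congr 1
      ext x
      simp only [Finset.mem_filter, Finset.mem_univ, true_and]
      constructor
      · rintro ⟨_, h⟩
        rw [← h]
      · intro h
        refine ⟨?_, Subtype.ext h⟩
        rw [h]
        exact hb.2
    · intro x hx
      simp only [Finset.coe_filter, Finset.mem_univ, true_and, Set.mem_ofPred_eq] at hx ⊢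
      exact hx
  have h4 : #{x : V | (c (G x), c' (G x)) = y} * Fintype.card B
      = #{g : B | φ g = y} * Fintype.card V := by
    rw [h3, Finset.sum_mul, Finset.sum_congr rfl (fun b _ => hGc' b), Finset.sum_const,
      smul_eq_mul]
  have h5 := hfib y
  have hpos : 0 < Fintype.card B := Fintype.card_pos
  have h6 : Fintype.card B * (#{x : V | (c (G x), c' (G x)) = y} * (Fintype.card K) ^ 2)
      = Fintype.card B * Fintype.card V := by
    calc Fintype.card B * (#{x : V | (c (G x), c' (G x)) = y} * (Fintype.card K) ^ 2)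
        = (#{x : V | (c (G x), c' (G x)) = y} * Fintype.card B) * (Fintype.card K) ^ 2 := by ring
      _ = (#{g : B | φ g = y} * (Fintype.card K) ^ 2) * Fintype.card V := by rw [h4]; ring
      _ = Fintype.card B * Fintype.card V := by rw [h5]
  exact Nat.eq_of_mul_eq_mul_left hpos h6

open Finset in
theorem nonsep_card {V K : Type} [AddCommGroup V] [Fintype V] [DecidableEq V]
    [AddCommGroup K] [Fintype K] [DecidableEq K]
    (B : AddSubgroup V) (G : V → V) (hG : ∀ x, G x ∈ B)
    (hGc : ∀ b ∈ B, Nat.card {x : V // G x = b} * Nat.card B = Fintype.card V)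
    (c c' : V → K)
    (hadd : ∀ x ∈ B, ∀ y ∈ B, c (x + y) = c x + c y)
    (hadd' : ∀ x ∈ B, ∀ y ∈ B, c' (x + y) = c' x + c' y)
    (hsurj : ∀ a a' : K, ∃ x ∈ B, c x = a ∧ c' x = a') (ι : K → K)
    (hι : 4 * (Fintype.card K) ^ 2 ≤ 9 * Nat.card {x : K × K // ι x.1 ≠ ι x.2}) :
    9 * #{x : V | ι (c (G x)) = ι (c' (G x))} ≤ 5 * Fintype.card V := by
  classical
  have h1 := fiber_card B G hG hGc c c' hadd hadd' hsurj
  have h2 : #{x : V | ι (c (G x)) ≠ ι (c' (G x))} * (Fintype.card K) ^ 2
      = #{y : K × K | ι y.1 ≠ ι y.2} * Fintype.card V := by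
    rw [Finset.card_eq_sum_card_fiberwise (f := fun x => (c (G x), c' (G x)))
      (t := {y : K × K | ι y.1 ≠ ι y.2}), Finset.sum_mul]
    · have h3 : ∀ y ∈ ({y : K × K | ι y.1 ≠ ι y.2} : Finset (K × K)),
          #{x ∈ ({x : V | ι (c (G x)) ≠ ι (c' (G x))} : Finset V) | (c (G x), c' (G x)) = y}
            * (Fintype.card K) ^ 2 = Fintype.card V := by
        intro y hy
        rw [← h1 y]
        congr 2
        ext x
        simp only [Finset.mem_filter, Finset.mem_univ, true_and] at hy ⊢
        constructor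
        · exact fun h => h.2
        · intro h
          refine ⟨?_, h⟩
          rw [← h] at hy
          exact hy
      rw [Finset.sum_congr rfl h3, Finset.sum_const, smul_eq_mul]
    · intro x hx
      simp only [Finset.coe_filter, Finset.mem_univ, true_and, Set.mem_ofPred_eq] at hx ⊢
      exact hx
  have h3 : #{x : V | ι (c (G x)) = ι (c' (G x))} + #{x : V | ι (c (G x)) ≠ ι (c' (G x))}
      = Fintype.card V := by
    rw [Finset.card_filter_add_card_filter_not, Finset.card_univ]
  rw [Nat.card_eq_fintype_card, Fintype.card_subtype] at hι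
  have hpos : 0 < (Fintype.card K) ^ 2 := pow_pos Fintype.card_pos 2
  have h4 : (Fintype.card K) ^ 2 * (4 * Fintype.card V) ≤
      (Fintype.card K) ^ 2 * (9 * #{x : V | ι (c (G x)) ≠ ι (c' (G x))}) := by
    calc (Fintype.card K) ^ 2 * (4 * Fintype.card V)
        = (4 * (Fintype.card K) ^ 2) * Fintype.card V := by ring
      _ ≤ (9 * #{y : K × K | ι y.1 ≠ ι y.2}) * Fintype.card V := Nat.mul_le_mul_right _ hι
      _ = 9 * (#{x : V | ι (c (G x)) ≠ ι (c' (G x))} * (Fintype.card K) ^ 2) := by
          rw [h2]; ring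
      _ = _ := by ring
  have h5 := Nat.le_of_mul_le_mul_left h4 hpos
  omega

/-- numerical estimate -/
theorem num_est (n L : ℕ) (h : n ≤ 2 ^ L) :
    100 * n ^ 2 * 5 ^ (3 * (L + 1) + 10) ≤ 9 ^ (3 * (L + 1) + 10) := by
  have h1 : n ^ 2 ≤ 4 ^ L := by
    calc n ^ 2 ≤ (2 ^ L) ^ 2 := Nat.pow_le_pow_left h 2
      _ = 4 ^ L := by rw [← pow_mul, mul_comm, pow_mul]; norm_num
  have h2 : 4 ^ L * 5 ^ (3 * L) ≤ 9 ^ (3 * L) := by
    rw [pow_mul, pow_mul, ← mul_pow]
    exact Nat.pow_le_pow_left (by norm_num) L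
  calc 100 * n ^ 2 * 5 ^ (3 * (L + 1) + 10) = (n ^ 2 * 5 ^ (3 * L)) * (100 * 5 ^ 13) := by ring
    _ ≤ (4 ^ L * 5 ^ (3 * L)) * (100 * 5 ^ 13) :=
        Nat.mul_le_mul_right _ (Nat.mul_le_mul_right _ h1)
    _ ≤ 9 ^ (3 * L) * 9 ^ 13 := Nat.mul_le_mul h2 (by norm_num)
    _ = 9 ^ (3 * (L + 1) + 10) := by ring

open Finset in
/-- union bound -/
theorem union_bound {V I : Type} [Fintype V] [DecidableEq V] [DecidableEq I] (S n : ℕ)
    (T : Finset I) (N : I → Finset V)
    (hT : #T ≤ n ^ 2) (hN : ∀ i ∈ T, 9 * #(N i) ≤ 5 * Fintype.card V)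
    (hS : 100 * n ^ 2 * 5 ^ S ≤ 9 ^ S) :
    100 * #{r : Fin S → V | ∃ i ∈ T, ∀ s, r s ∈ N i} ≤ (Fintype.card V) ^ S := by
  classical
  have h1 : #{r : Fin S → V | ∃ i ∈ T, ∀ s, r s ∈ N i} ≤ ∑ i ∈ T, #(N i) ^ S := by
    have e1 : ({r : Fin S → V | ∃ i ∈ T, ∀ s, r s ∈ N i} : Finset (Fin S → V))
        ⊆ T.biUnion (fun i => Fintype.piFinset (fun _ : Fin S => N i)) := by
      intro r hr
      simp only [Finset.mem_filter, Finset.mem_univ, true_and] at hr
      obtain ⟨i, hi, h⟩ := hr
      rw [Finset.mem_biUnion]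
      exact ⟨i, hi, by rw [Fintype.mem_piFinset]; exact h⟩
    calc _ ≤ #(T.biUnion (fun i => Fintype.piFinset (fun _ : Fin S => N i))) :=
          Finset.card_le_card e1
      _ ≤ ∑ i ∈ T, #(Fintype.piFinset (fun _ : Fin S => N i)) := Finset.card_biUnion_le
      _ = ∑ i ∈ T, #(N i) ^ S := by
          refine Finset.sum_congr rfl fun i _ => ?_
          rw [Fintype.card_piFinset]
          simp
  have h2 : 9 ^ S * ∑ i ∈ T, #(N i) ^ S ≤ n ^ 2 * (5 ^ S * (Fintype.card V) ^ S) := by
    rw [Finset.mul_sum]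
    calc ∑ i ∈ T, 9 ^ S * #(N i) ^ S ≤ ∑ i ∈ T, 5 ^ S * (Fintype.card V) ^ S := by
          refine Finset.sum_le_sum fun i hi => ?_
          rw [← mul_pow, ← mul_pow]
          exact Nat.pow_le_pow_left (hN i hi) S
      _ = #T * (5 ^ S * (Fintype.card V) ^ S) := by rw [Finset.sum_const, smul_eq_mul]
      _ ≤ _ := Nat.mul_le_mul_right _ hT
  have h3 : 9 ^ S * (100 * #{r : Fin S → V | ∃ i ∈ T, ∀ s, r s ∈ N i})
      ≤ 9 ^ S * (Fintype.card V) ^ S := by
    calc 9 ^ S * (100 * #{r : Fin S → V | ∃ i ∈ T, ∀ s, r s ∈ N i})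
        ≤ 9 ^ S * (100 * ∑ i ∈ T, #(N i) ^ S) := by gcongr
      _ = 100 * (9 ^ S * ∑ i ∈ T, #(N i) ^ S) := by ring
      _ ≤ 100 * (n ^ 2 * (5 ^ S * (Fintype.card V) ^ S)) := Nat.mul_le_mul_left _ h2
      _ = (100 * n ^ 2 * 5 ^ S) * (Fintype.card V) ^ S := by ring
      _ ≤ 9 ^ S * (Fintype.card V) ^ S := Nat.mul_le_mul_right _ hS
  exact Nat.le_of_mul_le_mul_left h3 (by positivity)

end count

end UniAux


namespace UniAux

section fac
variable {K : Type} [Field K] [DecidableEq K]

/-- the set of monic irreducible factors -/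
noncomputable def PS (h : K[X]) : Finset K[X] :=
  (UniqueFactorizationMonoid.normalizedFactors h).toFinset

/-- the primary factor -/
noncomputable def DP (h P : K[X]) : K[X] :=
  P ^ (UniqueFactorizationMonoid.normalizedFactors h).count P

theorem irr_PS {h P : K[X]} (hP : P ∈ PS h) : Irreducible P := by
  rw [PS, Multiset.mem_toFinset] at hP
  exact UniqueFactorizationMonoid.irreducible_of_normalized_factor P hP

theorem monic_PS {h P : K[X]} (hP : P ∈ PS h) : P.Monic := by
  rw [PS, Multiset.mem_toFinset] at hP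
  rw [← UniqueFactorizationMonoid.normalize_normalized_factor P hP]
  exact monic_normalize (UniqueFactorizationMonoid.irreducible_of_normalized_factor P hP).ne_zero

theorem mem_PS {h P : K[X]} (hh : h ≠ 0) (h1 : Irreducible P) (h2 : P.Monic) (h3 : P ∣ h) :
    P ∈ PS h := by
  rw [PS, Multiset.mem_toFinset]
  obtain ⟨q, hq, hPq⟩ := UniqueFactorizationMonoid.exists_mem_normalizedFactors_of_dvd hh h1 h3
  have h4 : q.Monic := monic_PS (h := h) (by rw [PS, Multiset.mem_toFinset]; exact hq)
  rw [eq_of_monic_of_associated h2 h4 hPq]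
  exact hq

theorem dvd_of_mem_PS {h P : K[X]} (hP : P ∈ PS h) : P ∣ h := by
  rw [PS, Multiset.mem_toFinset] at hP
  exact UniqueFactorizationMonoid.dvd_of_mem_normalizedFactors hP

theorem coprime_PS {h P P' : K[X]} (hP : P ∈ PS h) (hP' : P' ∈ PS h) (hne : P ≠ P') :
    IsCoprime P P' := by
  rw [(irr_PS hP).coprime_iff_not_dvd]
  intro hd
  exact hne (eq_of_monic_of_associated (monic_PS hP) (monic_PS hP')
    ((irr_PS hP).associated_of_dvd (irr_PS hP') hd))

theorem prod_DP {h : K[X]} (hm : h.Monic) : ∏ P ∈ PS h, DP h P = h := by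
  have h1 := UniqueFactorizationMonoid.prod_normalizedFactors_eq (a := h) hm.ne_zero
  rw [hm.normalize_eq_self] at h1
  conv_rhs => rw [← h1, Finset.prod_multiset_count]
  rfl

theorem dvd_DP {h P : K[X]} (hP : P ∈ PS h) : P ∣ DP h P := by
  rw [PS, Multiset.mem_toFinset, ← Multiset.count_pos] at hP
  exact dvd_pow_self P hP.ne'

theorem not_isUnit_DP {h P : K[X]} (hP : P ∈ PS h) : ¬ IsUnit (DP h P) := fun hu =>
  (irr_PS hP).not_isUnit (isUnit_of_dvd_unit (dvd_DP hP) hu)

theorem DP_split {h P : K[X]} (hm : h.Monic) (hP : P ∈ PS h) :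
    DP h P * (∏ P' ∈ (PS h).erase P, DP h P') = h := by
  rw [Finset.mul_prod_erase _ _ hP, prod_DP hm]

theorem coprime_DP {h P P' : K[X]} (hP : P ∈ PS h) (hP' : P' ∈ PS h) (hne : P ≠ P') :
    IsCoprime (DP h P) (DP h P') := (coprime_PS hP hP' hne).pow

theorem coprime_DP_prod {h P : K[X]} (hP : P ∈ PS h) :
    IsCoprime (DP h P) (∏ P' ∈ (PS h).erase P, DP h P') := by
  apply IsCoprime.prod_right
  intro P' hP'
  rw [Finset.mem_erase] at hP'
  exact coprime_DP hP hP'.2 (Ne.symm hP'.1)

theorem DP_dvd {h P : K[X]} (hm : h.Monic) (hP : P ∈ PS h) : DP h P ∣ h :=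
  Dvd.intro _ (DP_split hm hP)

theorem dvd_of_DP {h g : K[X]} (hm : h.Monic) (hg : ∀ P ∈ PS h, DP h P ∣ g) : h ∣ g := by
  conv_lhs => rw [← prod_DP hm]
  apply Finset.prod_dvd_of_coprime
  · intro P hP P' hP' hne
    exact coprime_DP hP hP' hne
  · exact hg

theorem card_PS_le {h : K[X]} (hm : h.Monic) : (PS h).card ≤ h.natDegree := by
  have h1 : ∑ P ∈ PS h, (DP h P).natDegree = h.natDegree := by
    conv_rhs => rw [← prod_DP hm]
    rw [natDegree_prod_of_monic]
    intro P hP
    exact (monic_PS hP).pow _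
  rw [← h1, Finset.card_eq_sum_ones]
  refine Finset.sum_le_sum fun P hP => ?_
  have h2 : P.natDegree ≤ (DP h P).natDegree :=
    natDegree_le_of_dvd (dvd_DP hP) ((monic_PS hP).pow _).ne_zero
  have h3 := (irr_PS hP).natDegree_pos
  omega

/-- from separation to a primary factor -/
theorem primary_of_sep {h g : K[X]} (hm : h.Monic) (hg : g.Monic) (hgh : g ∣ h)
    (hd : 1 ≤ g.natDegree)
    (hsep : ∀ P ∈ PS h, ∀ P' ∈ PS h, P ∣ g → P' ∣ g → P = P') :
    ∃ (P : K[X]) (k : ℕ), Irreducible P ∧ P.Monic ∧ 1 ≤ k ∧ g = P ^ k := by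
  have hu : ¬ IsUnit g := by
    intro hu
    have := natDegree_eq_zero_of_isUnit hu
    omega
  obtain ⟨P, hP⟩ := UniqueFactorizationMonoid.exists_mem_normalizedFactors hg.ne_zero hu
  have hsub : ∀ P', P' ∈ UniqueFactorizationMonoid.normalizedFactors g → P' ∈ PS h ∧ P' ∣ g := by
    intro P' hP'
    have h1 : P' ∈ PS g := by rw [PS, Multiset.mem_toFinset]; exact hP'
    have h2 := dvd_of_mem_PS h1
    exact ⟨mem_PS hm.ne_zero (irr_PS h1) (monic_PS h1) (h2.trans hgh), h2⟩
  have hPg : P ∈ PS g := by rw [PS, Multiset.mem_toFinset]; exact hP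
  refine ⟨P, Multiset.card (UniqueFactorizationMonoid.normalizedFactors g), irr_PS hPg,
    monic_PS hPg, Multiset.card_pos_iff_exists_mem.2 ⟨P, hP⟩, ?_⟩
  have h1 := UniqueFactorizationMonoid.prod_normalizedFactors_eq (a := g) hg.ne_zero
  rw [hg.normalize_eq_self] at h1
  have h2 : UniqueFactorizationMonoid.normalizedFactors g = Multiset.replicate
      (Multiset.card (UniqueFactorizationMonoid.normalizedFactors g)) P := by
    rw [Multiset.eq_replicate]
    refine ⟨rfl, fun P' hP' => ?_⟩
    exact hsep P' (hsub P' hP').1 P (hsub P hP).1 (hsub P' hP').2 (hsub P hP).2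
  conv_lhs => rw [← h1, h2]
  rw [Multiset.prod_replicate]

end fac

section sep
variable {K : Type} [Field K] [Fintype K] [DecidableEq K]

/-- solution of two congruences in the Berlekamp algebra -/
theorem exists_crt (h D M : K[X]) (n : ℕ) (hm : h.Monic) (hn : h.natDegree = n)
    (hDM : D * M = h) (hc : IsCoprime D M) (a : K) :
    ∃ x ∈ Ber n h, D ∣ pv x - C a ∧ M ∣ pv x := by
  obtain ⟨u, w, huw⟩ := hc
  obtain ⟨x, hx⟩ := exists_pv (n := n) ((w * M * C a) %ₘ h) (by
    have := degree_modByMonic_lt (w * M * C a) hm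
    rwa [degree_eq_natDegree hm.ne_zero, hn] at this)
  have h1 : h ∣ w * M * C a - pv x := by
    rw [hx]
    have := modByMonic_add_div (w * M * C a) h
    exact ⟨(w * M * C a) /ₘ h, by linear_combination -this⟩
  have hD1 : D ∣ pv x - C a := by
    have e1 : D ∣ w * M * C a - pv x := (Dvd.intro _ hDM).trans h1
    have e2 : D ∣ w * M * C a - C a := ⟨-u * C a, by linear_combination (C a) * huw⟩
    have := dvd_sub e2 e1
    convert this using 1
    ring
  have hM1 : M ∣ pv x := by
    have e1 : M ∣ w * M * C a - pv x := (Dvd.intro_left _ hDM).trans h1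
    have e2 : M ∣ w * M * C a := Dvd.dvd.mul_right (dvd_mul_left _ _) _
    have := dvd_sub e2 e1
    convert this using 1
    ring
  refine ⟨x, ?_, hD1, hM1⟩
  rw [mem_Ber, ← hDM]
  refine IsCoprime.mul_dvd ⟨u, w, huw⟩ ?_ ?_
  · have e1 : D ∣ pv x ^ (Fintype.card K) - C a := by
      have := sub_dvd_pow_sub_pow (pv x) (C a) (Fintype.card K)
      rw [← C_pow, FiniteField.pow_card] at this
      exact hD1.trans this
    have := dvd_sub e1 hD1
    convert this using 1
    ring
  · exact dvd_sub (hM1.trans (dvd_pow_self _ Fintype.card_ne_zero)) hM1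

open Finset in
theorem nonsep_pair (n : ℕ) (h : K[X]) (hm : h.Monic) (hn : h.natDegree = n)
    (G : (Fin n → K) → (Fin n → K)) (hG : ∀ x, G x ∈ Ber n h)
    (hGc : ∀ b ∈ Ber n h, Nat.card {x : Fin n → K // G x = b} * Nat.card (Ber n h)
      = (Fintype.card K) ^ n)
    (ι : K → K)
    (hι : 4 * (Fintype.card K) ^ 2 ≤ 9 * Nat.card {x : K × K // ι x.1 ≠ ι x.2})
    (c : K[X] → (Fin n → K) → K)
    (hcP : ∀ P ∈ PS h, ∀ x ∈ Ber n h, DP h P ∣ pv x - C (c P x))
    (P P' : K[X]) (hP : P ∈ PS h) (hP' : P' ∈ PS h) (hne : P ≠ P') :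
    9 * #{x : Fin n → K | ι (c P (G x)) = ι (c P' (G x))} ≤ 5 * (Fintype.card K) ^ n := by
  have hadd : ∀ Q ∈ PS h, ∀ x ∈ Ber n h, ∀ y ∈ Ber n h, c Q (x + y) = c Q x + c Q y := by
    intro Q hQ x hx y hy
    apply res_unique (DP h Q) (pv (x + y)) (not_isUnit_DP hQ)
    · exact hcP Q hQ (x + y) ((Ber n h).add_mem hx hy)
    · have := dvd_add (hcP Q hQ x hx) (hcP Q hQ y hy)
      rw [pv_add, C_add]
      convert this using 1
      ring
  have hsurj : ∀ a a' : K, ∃ x ∈ Ber n h, c P x = a ∧ c P' x = a' := by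
    intro a a'
    obtain ⟨x, hx, h1, h2⟩ := exists_crt h _ _ n hm hn (DP_split hm hP) (coprime_DP_prod hP) a
    obtain ⟨y, hy, h3, h4⟩ := exists_crt h _ _ n hm hn (DP_split hm hP') (coprime_DP_prod hP') a'
    have h5 : DP h P' ∣ pv x := (Finset.dvd_prod_of_mem _
      (Finset.mem_erase.2 ⟨Ne.symm hne, hP'⟩)).trans h2
    have h6 : DP h P ∣ pv y := (Finset.dvd_prod_of_mem _
      (Finset.mem_erase.2 ⟨hne, hP⟩)).trans h4
    refine ⟨x + y, (Ber n h).add_mem hx hy, ?_, ?_⟩
    · apply res_unique (DP h P) (pv (x + y)) (not_isUnit_DP hP)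
      · exact hcP P hP (x + y) ((Ber n h).add_mem hx hy)
      · rw [pv_add]
        have := dvd_add h1 h6
        convert this using 1
        ring
    · apply res_unique (DP h P') (pv (x + y)) (not_isUnit_DP hP')
      · exact hcP P' hP' (x + y) ((Ber n h).add_mem hx hy)
      · rw [pv_add]
        have := dvd_add h3 h5
        convert this using 1
        ring
  have hV : Fintype.card (Fin n → K) = (Fintype.card K) ^ n := by simp
  have := nonsep_card (Ber n h) G hG (by rw [hV]; exact hGc) (c P) (c P') (hadd P hP)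
    (hadd P' hP') hsurj ι hι
  rw [hV] at this
  convert this

open Finset in
theorem bad_card (n : ℕ) (h : K[X]) (hm : h.Monic) (hn : h.natDegree = n) (S : ℕ)
    (hS : 100 * n ^ 2 * 5 ^ S ≤ 9 ^ S)
    (G : (Fin n → K) → (Fin n → K)) (hG : ∀ x, G x ∈ Ber n h)
    (hGc : ∀ b ∈ Ber n h, Nat.card {x : Fin n → K // G x = b} * Nat.card (Ber n h)
      = (Fintype.card K) ^ n)
    (ι : K → K)
    (hι : 4 * (Fintype.card K) ^ 2 ≤ 9 * Nat.card {x : K × K // ι x.1 ≠ ι x.2})
    (c : K[X] → (Fin n → K) → K)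
    (hcP : ∀ P ∈ PS h, ∀ x ∈ Ber n h, DP h P ∣ pv x - C (c P x)) :
    100 * Nat.card {r : Fin S → Fin n → K // ∃ P ∈ PS h, ∃ P' ∈ PS h, P ≠ P' ∧
      ∀ s, ι (c P (G (r s))) = ι (c P' (G (r s)))} ≤ (Fintype.card K) ^ (S * n) := by
  classical
  have h1 := union_bound (V := Fin n → K) S n
    ((PS h ×ˢ PS h).filter (fun p => p.1 ≠ p.2))
    (fun p => ({x : Fin n → K | ι (c p.1 (G x)) = ι (c p.2 (G x))} : Finset (Fin n → K)))
    (by
      refine (Finset.card_filter_le _ _).trans ?_
      rw [Finset.card_product, ← sq]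
      exact Nat.pow_le_pow_left (hn ▸ card_PS_le hm) 2)
    (by
      intro p hp
      rw [Finset.mem_filter, Finset.mem_product] at hp
      have := nonsep_pair n h hm hn G hG hGc ι hι c hcP p.1 p.2 hp.1.1 hp.1.2 hp.2
      simpa using this)
    hS
  have hV : Fintype.card (Fin n → K) ^ S = (Fintype.card K) ^ (S * n) := by
    rw [Fintype.card_fun, Fintype.card_fin, ← pow_mul, mul_comm n S]
  rw [hV] at h1
  refine le_trans (Nat.mul_le_mul_left 100 ?_) h1
  rw [Nat.card_eq_fintype_card, Fintype.card_subtype]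
  apply Finset.card_le_card
  intro r hr
  simp only [Finset.mem_filter, Finset.mem_univ, true_and] at hr ⊢
  obtain ⟨P, hP, P', hP', hne, hs⟩ := hr
  exact ⟨(P, P'), ⟨Finset.mem_product.2 ⟨hP, hP'⟩, hne⟩, hs⟩

end sep

end UniAux


namespace UniAux

section prog

/-- type of the input -/
abbrev XT : Ty := .prod TB (.prod (.prod Po Un) (.prod Po Ma))

/-- the idempotent of `v`, input `(x, v)` -/
def idemB (pI : Pr [] (.prod TB (.prod (.prod Po (.prod Po Un)) Po)) Po) :
    Pr [] (.prod XT Po) Po :=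
  .comp (.pair (.comp .fst .fst) (.pair (.pair .snd (.comp (.comp .fst .snd) .fst))
    (.comp (.comp (.comp .fst .snd) .snd) .fst))) pI

/-- radical of a factor, input `(x, G)` -/
def primB (pP : Pr [] (.prod TB (.prod (.prod Po Un) Po)) (.prod Po Un)) :
    Pr [] (.prod XT Po) (.prod Po Un) :=
  .comp (.pair (.comp .fst .fst) (.pair (.comp (.comp .fst .snd) .fst) .snd)) pP

/-- refinement, input `(x, Es)` -/
def refB (pR : Pr [] (.prod TB (.prod Po Ma)) Ma) : Pr [] (.prod XT Ma) Ma :=
  .comp (.pair (.comp .fst .fst) (.pair (.comp (.comp (.comp .fst .snd) .snd) .fst) .snd)) pR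

/-- the program -/
def uniP (pI : Pr [] (.prod TB (.prod (.prod Po (.prod Po Un)) Po)) Po)
    (pB : Pr [] XT Ma) (pR : Pr [] (.prod TB (.prod Po Ma)) Ma)
    (pP : Pr [] (.prod TB (.prod (.prod Po Un) Po)) (.prod Po Un)) :
    Pr [] XT (.list (.prod Po Un)) :=
  .comp (.pair .id pB) (.comp (.pair .fst (mapP (idemB pI)))
    (.comp (.pair .fst (refB pR)) (mapP (primB pP))))

variable {F : Type} [Field F] [DecidableEq F]

theorem val_idemB (pI : Pr [] (.prod TB (.prod (.prod Po (.prod Po Un)) Po)) Po)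
    (tb : List (List F) × List (List F)) (bq : List F) (e : List Unit) (h : List F)
    (rs : List (List F)) (v : List F) :
    (idemB pI).val () ((tb, ((bq, e), (h, rs))), v) = pI.val () (tb, ((v, (bq, e)), h)) := rfl

theorem cost_idemB (pI : Pr [] (.prod TB (.prod (.prod Po (.prod Po Un)) Po)) Po)
    (tb : List (List F) × List (List F)) (bq : List F) (e : List Unit) (h : List F)
    (rs : List (List F)) (v : List F) :
    (idemB pI).cost () () ((tb, ((bq, e), (h, rs))), v) =
      pI.cost () () (tb, ((v, (bq, e)), h)) + 13 := by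
  simp [idemB]
  ring

theorem val_primB (pP : Pr [] (.prod TB (.prod (.prod Po Un) Po)) (.prod Po Un))
    (tb : List (List F) × List (List F)) (bq : List F) (e : List Unit) (h : List F)
    (rs : List (List F)) (v : List F) :
    (primB pP).val () ((tb, ((bq, e), (h, rs))), v) = pP.val () (tb, ((bq, e), v)) := rfl

theorem cost_primB (pP : Pr [] (.prod TB (.prod (.prod Po Un) Po)) (.prod Po Un))
    (tb : List (List F) × List (List F)) (bq : List F) (e : List Unit) (h : List F)
    (rs : List (List F)) (v : List F) :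
    (primB pP).cost () () ((tb, ((bq, e), (h, rs))), v) =
      pP.cost () () (tb, ((bq, e), v)) + 8 := by
  simp [primB]
  ring

theorem val_refB (pR : Pr [] (.prod TB (.prod Po Ma)) Ma)
    (tb : List (List F) × List (List F)) (bq : List F) (e : List Unit) (h : List F)
    (rs : List (List F)) (v : List (List F)) :
    (refB pR).val () ((tb, ((bq, e), (h, rs))), v) = pR.val () (tb, (h, v)) := rfl

theorem cost_refB (pR : Pr [] (.prod TB (.prod Po Ma)) Ma)
    (tb : List (List F) × List (List F)) (bq : List F) (e : List Unit) (h : List F)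
    (rs : List (List F)) (v : List (List F)) :
    (refB pR).cost () () ((tb, ((bq, e), (h, rs))), v) =
      pR.cost () () (tb, (h, v)) + 9 := by
  simp [refB]
  ring

/-- value of the list of idempotents -/
def esOf (pI : Pr [] (.prod TB (.prod (.prod Po (.prod Po Un)) Po)) Po)
    (tb : List (List F) × List (List F)) (bq : List F) (e : List Unit) (h : List F)
    (vs : List (List F)) : List (List F) :=
  vs.map (fun v => (pI.val () (tb, ((v, (bq, e)), h)) : List F))

theorem val_uniP (pI : Pr [] (.prod TB (.prod (.prod Po (.prod Po Un)) Po)) Po)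
    (pB : Pr [] XT Ma) (pR : Pr [] (.prod TB (.prod Po Ma)) Ma)
    (pP : Pr [] (.prod TB (.prod (.prod Po Un) Po)) (.prod Po Un))
    (tb : List (List F) × List (List F)) (bq : List F) (e : List Unit) (h : List F)
    (rs vs Es Hs : List (List F)) (h1 : pB.val () (tb, ((bq, e), (h, rs))) = vs)
    (h2 : esOf pI tb bq e h vs = Es) (h3 : pR.val () (tb, (h, Es)) = Hs) :
    (uniP pI pB pR pP).val () (tb, ((bq, e), (h, rs))) =
      (Hs.map (fun G => (pP.val () (tb, ((bq, e), G)) : List F × List Unit)) : List _) := by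
  subst h3 h2 h1
  unfold uniP
  rw [val_comp, val_pair, val_id, val_comp, val_pair, val_fst, val_comp, val_pair, val_fst,
    val_mapP, val_mapP]
  rfl

theorem cost_uniP (pI : Pr [] (.prod TB (.prod (.prod Po (.prod Po Un)) Po)) Po)
    (pB : Pr [] XT Ma) (pR : Pr [] (.prod TB (.prod Po Ma)) Ma)
    (pP : Pr [] (.prod TB (.prod (.prod Po Un) Po)) (.prod Po Un))
    (tb : List (List F) × List (List F)) (bq : List F) (e : List Unit) (h : List F)
    (rs vs Es Hs : List (List F)) (h1 : pB.val () (tb, ((bq, e), (h, rs))) = vs)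
    (h2 : esOf pI tb bq e h vs = Es) (h3 : pR.val () (tb, (h, Es)) = Hs) :
    (uniP pI pB pR pP).cost () () (tb, ((bq, e), (h, rs))) ≤
      pB.cost () () (tb, ((bq, e), (h, rs))) +
      (vs.map (fun v => pI.cost () () (tb, ((v, (bq, e)), h)) + 26)).sum +
      pR.cost () () (tb, (h, Es)) +
      (Hs.map (fun G => pP.cost () () (tb, ((bq, e), G)) + 21)).sum + 40 := by
  have c1 := cost_mapP (idemB pI) () () ((tb, ((bq, e), (h, rs))), vs)
  have c2 := cost_mapP (primB pP) () () ((tb, ((bq, e), (h, rs))), Hs)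
  have v1 : (mapP (idemB pI)).val () ((tb, ((bq, e), (h, rs))), vs) = Es := by
    rw [val_mapP, ← h2]
    rfl
  have e1 : (List.map (fun y : List F => (idemB pI).cost () () ((tb, ((bq, e), (h, rs))), y) + 13)
      vs).sum = (vs.map (fun v => pI.cost () () (tb, ((v, (bq, e)), h)) + 26)).sum := by
    congr 1
    apply List.map_congr_left
    intro y _
    rw [cost_idemB]
  have e2 : (List.map (fun y : List F => (primB pP).cost () () ((tb, ((bq, e), (h, rs))), y) + 13)
      Hs).sum = (Hs.map (fun v => pP.cost () () (tb, ((bq, e), v)) + 21)).sum := by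
    congr 1
    apply List.map_congr_left
    intro y _
    rw [cost_primB]
  unfold uniP
  rw [cost_comp, cost_pair, cost_id, val_pair, val_id, h1, cost_comp, cost_pair, cost_fst,
    val_pair, val_fst, v1, cost_comp, cost_pair, cost_fst, val_pair, val_fst, val_refB, h3,
    cost_refB]
  have c1' := c1.trans (Nat.add_le_add_right (le_of_eq e1) 5)
  have c2' := c2.trans (Nat.add_le_add_right (le_of_eq e2) 5)
  simp only [] at c1' c2' ⊢
  omega

end prog

section lists
variable {K : Type} [Field K]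

theorem card_lists (n : ℕ) (p : List K → Prop) :
    Nat.card {r : List K // r.length = n ∧ p r} = Nat.card {x : Fin n → K // p (List.ofFn x)} := by
  symm
  apply Nat.card_eq_of_bijective
    (fun x : {x : Fin n → K // p (List.ofFn x)} =>
      (⟨List.ofFn x.1, by simp, x.2⟩ : {r : List K // r.length = n ∧ p r}))
  constructor
  · intro x y hxy
    simp only [Subtype.mk.injEq] at hxy
    exact Subtype.ext (List.ofFn_injective hxy)
  · rintro ⟨r, hr, hp⟩
    subst hr
    have h1 : List.ofFn r.get = r := List.ofFn_get r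
    exact ⟨⟨r.get, by rw [h1]; exact hp⟩, by simp⟩

theorem ofFn_getD (n : ℕ) (l : List K) (hl : l.length = n) :
    List.ofFn (fun i : Fin n => l.getD i 0) = l := by
  subst hl
  apply List.ext_getElem
  · simp
  · intro i h1 h2
    simp [List.getElem?_eq_getElem h2]

end lists

section deg
variable {K : Type} [Field K]

theorem natDegree_prod_mpol (l : List (List K)) :
    ((l.map mpol).prod).Monic ∧ ((l.map mpol).prod).natDegree = (l.map List.length).sum := by
  induction l with
  | nil => simp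
  | cons a l ih =>
    simp only [List.map_cons, List.prod_cons, List.sum_cons]
    refine ⟨(monic_mpol a).mul ih.1, ?_⟩
    rw [(monic_mpol a).natDegree_mul ih.1, natDegree_mpol, ih.2]

theorem sum_aff (l : List (List K)) (g : List K → ℕ) (a b : ℕ) :
    (l.map (fun G => a * g G + b)).sum = a * (l.map g).sum + b * l.length := by
  induction l with
  | nil => simp
  | cons x l ih =>
    simp only [List.map_cons, List.sum_cons, List.length_cons, ih]
    ring

theorem length_le_sum (l : List (List K)) (h : ∀ G ∈ l, 1 ≤ G.length) :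
    l.length ≤ (l.map List.length).sum := by
  induction l with
  | nil => simp
  | cons a l ih =>
    simp only [List.map_cons, List.sum_cons, List.length_cons]
    have := ih (fun G' hG' => h G' (List.mem_cons_of_mem _ hG'))
    have := h a (List.mem_cons_self ..)
    omega

theorem ww_sum (hww : ∀ a b, ww a + ww b ≤ ww (a + b)) (l : List (List K)) :
    (l.map (fun G => ww (G.length + 1))).sum ≤ ww ((l.map (fun G => G.length + 1)).sum) := by
  induction l with
  | nil => simp
  | cons a l ih =>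
    simp only [List.map_cons, List.sum_cons]
    exact (Nat.add_le_add_left ih _).trans (hww _ _)

end deg

theorem term_bound (c A W s j k : ℕ) (hA : 1 ≤ A) (hs : s ≤ 14 * A) (hj : j + 1 ≤ k) :
    c * A ^ j * (s * W) ≤ 14 * c * (A ^ k * W) := by
  calc c * A ^ j * (s * W) ≤ c * A ^ j * ((14 * A) * W) := by gcongr
    _ = 14 * c * (A ^ (j + 1) * W) := by ring
    _ ≤ 14 * c * (A ^ k * W) := by
        gcongr

theorem lgc_mono {a b : ℕ} (h : a ≤ b) : lgc a ≤ lgc b :=
  Nat.add_le_add_right (Nat.clog_mono_right 2 h) 1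

theorem lgc_le_PL (e q n m : ℕ) (h : m ≤ n + 1) : lgc m ≤ PL e q n := by
  unfold PL
  have h1 : 1 ≤ lgc q := Nat.le_add_left 1 _
  calc lgc m ≤ lgc (n + 1) := lgc_mono h
    _ = 1 * 1 * lgc (n + 1) := by ring
    _ ≤ (e + 1) * lgc q * lgc (n + 1) := by
        gcongr
        · omega

theorem PL_mono (e q : ℕ) {m n : ℕ} (h : m ≤ n) : PL e q m ≤ PL e q n := by
  unfold PL
  gcongr
  exact lgc_mono (by omega)

end UniAux

open UniAux in
theorem specUni (h1 : SpecIdem) (h2 : SpecBer) (h3 : SpecRefine) (h4 : SpecPrim) (h0 : SpecUnits) :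
    SpecUni := by
  obtain ⟨pI, CI, kI, hI⟩ := h1
  obtain ⟨pB, CB, kB, hB⟩ := h2
  obtain ⟨pR, CR, kR, hR⟩ := h3
  obtain ⟨pP, CP, kP, hP⟩ := h4
  obtain ⟨hmu, hww, hvv, hmua, hwwa, hmuN, hwwN, u1, u2, u3, u4, u5, u6, u7⟩ := h0
  obtain ⟨C5, hC5⟩ := u4 1
  obtain ⟨C6, hC6⟩ := u2 2
  refine ⟨uniP pI pB pR pP, 14 * CB + 14 * (CI * C5) + 14 * 26 + 14 * CR + CP * C6 + 21 + 40,
    kB + kI + kR + kP + 1, ?_⟩
  intro K _ _ _ q e n tb h hq htb hn h1n hnq
  obtain ⟨ι, hι01, hιc, hI'⟩ := hI K q e hq
  obtain ⟨f, hf1, hf2, hf3⟩ := hB K q e tb h hq htb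
  have hm : (mpol h).Monic := monic_mpol h
  have hdeg : (mpol h).natDegree = n := by rw [natDegree_mpol, hn]
  -- residues
  have hres : ∀ P ∈ PS (mpol h), ∀ x ∈ Ber n (mpol h), ∃ c : K, DP (mpol h) P ∣ pv x - C c :=
    fun P hPm x hx => exists_res P (irr_PS hPm) _ _ ((DP_dvd hm hPm).trans hx)
  classical
  let c : K[X] → (Fin n → K) → K := fun P x =>
    if hh : ∃ c : K, DP (mpol h) P ∣ pv x - C c then hh.choose else 0
  have hcP : ∀ P ∈ PS (mpol h), ∀ x ∈ Ber n (mpol h), DP (mpol h) P ∣ pv x - C (c P x) := by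
    intro P hPm x hx
    have hh := hres P hPm x hx
    simp only [c, dif_pos hh]
    exact hh.choose_spec
  -- the map on vectors
  let G : (Fin n → K) → (Fin n → K) := fun x i => (f (List.ofFn x)).getD i 0
  have hGf : ∀ x, List.ofFn (G x) = f (List.ofFn x) := by
    intro x
    apply ofFn_getD
    rw [(hf2 (List.ofFn x) (by simp [hn])).1, hn]
  have hG : ∀ x, G x ∈ Ber n (mpol h) := by
    intro x
    rw [mem_Ber, pv, hGf, hq]
    exact (hf2 (List.ofFn x) (by simp [hn])).2
  have hGc : ∀ b ∈ Ber n (mpol h), Nat.card {x : Fin n → K // G x = b} *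
      Nat.card (Ber n (mpol h)) = (Fintype.card K) ^ n := by
    intro b hb
    have e1 := hf3 (List.ofFn b) (by simp [hn]) (by
      rw [mem_Ber, pv, hq] at hb
      exact hb)
    rw [hn] at e1
    rw [← e1, card_lists n (fun r => f r = List.ofFn b),
      card_lists n (fun b => mpol h ∣ pol b ^ (q ^ e) - pol b)]
    congr 1
    · apply Nat.card_congr
      apply Equiv.subtypeEquivRight
      intro x
      rw [← hGf]
      exact List.ofFn_injective.eq_iff.symm
    · apply Nat.card_congr
      apply Equiv.subtypeEquivRight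
      intro x
      rw [mem_Ber, pv, hq]
  -- counting
  have hbad := bad_card n (mpol h) hm hdeg (3 * lgc n + 10)
    (num_est n (Nat.clog 2 n) (Nat.le_pow_clog (by norm_num) n)) G hG hGc ι hιc c hcP
  refine le_trans (Nat.mul_le_mul_left 100 ?_) hbad
  refine Nat.card_le_card_of_injective (Subtype.map id ?_)
    (Subtype.map_injective _ Function.injective_id)
  intro r hr
  by_contra hcon
  push Not at hcon
  apply hr
  clear hr
  simp only [id] at hcon
  -- the lists
  have hrows : Sh h.length (rows r) := by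
    intro x hx
    simp only [rows, List.mem_ofFn] at hx
    obtain ⟨i, rfl⟩ := hx
    simp [hn]
  obtain ⟨hBval, hBcost⟩ := hf1 (rows r) hrows
  have hrl : (rows r).length = 3 * lgc n + 10 := by simp [rows]
  have hvs : (rows r).map f = List.ofFn (fun s => List.ofFn (G (r s))) := by
    rw [rows, List.map_ofFn]
    congr 1
    funext s
    simp [hGf]
  set vs : List (List K) := (rows r).map f with hvsdef
  set Es : List (List K) := esOf pI tb (bits K q) (un e) h vs with hEs
  set Hs : List (List K) := pR.val () (tb, (h, Es)) with hHs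
  have hvlen : ∀ v ∈ vs, v.length = h.length := by
    intro v hv
    rw [hvs, List.mem_ofFn] at hv
    obtain ⟨s, rfl⟩ := hv
    simp [hn]
  have hEsS : Sh h.length Es := by
    intro E hE
    rw [hEs, esOf, List.mem_map] at hE
    obtain ⟨v, hv, rfl⟩ := hE
    exact (hI' tb v h htb (hvlen v hv)).1
  -- congruences of the idempotents
  have hEcong : ∀ (s : Fin (3 * lgc n + 10)), ∃ E ∈ Es, ∀ P ∈ PS (mpol h),
      DP (mpol h) P ∣ pol E - C (ι (c P (G (r s)))) := by
    intro s
    have hv : List.ofFn (G (r s)) ∈ vs := by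
      rw [hvs, List.mem_ofFn]
      exact ⟨s, rfl⟩
    refine ⟨pI.val () (tb, ((List.ofFn (G (r s)), (bits K q, un e)), h)), ?_, ?_⟩
    · rw [hEs, esOf, List.mem_map]
      exact ⟨_, hv, rfl⟩
    · intro P hPm
      exact (hI' tb _ h htb (hvlen _ hv)).2.1 (c P (G (r s))) (DP (mpol h) P) (DP_dvd hm hPm)
        (hcP P hPm (G (r s)) (hG _))
  have hEidem : ∀ E ∈ Es, mpol h ∣ pol E * pol E - pol E := by
    intro E hE
    rw [hEs, esOf, List.mem_map] at hE
    obtain ⟨v, hv, rfl⟩ := hE
    have hv' := hv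
    rw [hvs, List.mem_ofFn] at hv
    obtain ⟨s, rfl⟩ := hv
    apply dvd_of_DP hm
    intro P hPm
    have h5 := (hI' tb _ h htb (hvlen _ hv')).2.1 (c P (G (r s))) (DP (mpol h) P) (DP_dvd hm hPm)
        (hcP P hPm (G (r s)) (hG _))
    rcases hι01 (c P (G (r s))) with h6 | h6
    · rw [h6, C_0, sub_zero] at h5
      exact dvd_sub (Dvd.dvd.mul_right h5 _) h5
    · rw [h6, C_1] at h5
      have := Dvd.dvd.mul_left h5 (pol (pI.val () (tb, ((List.ofFn (G (r s)),
        (bits K q, un e)), h)) : List K))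
      convert this using 1
      ring
  obtain ⟨hR1, hR2, hR3, hR4, hR5⟩ := hR K tb h Es htb (by omega) hEsS hEidem
  rw [← hHs] at hR1 hR2 hR3 hR4
  -- every factor is primary
  have hprim : ∀ Gf ∈ Hs, ∃ (P : K[X]) (k : ℕ), Irreducible P ∧ P.Monic ∧ 1 ≤ k ∧
      mpol Gf = P ^ k := by
    intro Gf hGf'
    have hdvd : mpol Gf ∣ mpol h := by
      rw [← hR1]
      exact List.dvd_prod (List.mem_map_of_mem hGf')
    refine primary_of_sep hm (monic_mpol Gf) hdvd (by rw [natDegree_mpol]; exact hR2 Gf hGf') ?_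
    intro P hPm P' hPm' hd hd'
    by_contra hne
    obtain ⟨s, hs⟩ := hcon P hPm P' hPm' hne
    obtain ⟨E, hE, hEc⟩ := hEcong s
    have k1 := (dvd_DP hPm).trans (hEc P hPm)
    have k2 := (dvd_DP hPm').trans (hEc P' hPm')
    have key : ∀ (Q : K[X]) (a b : K), Q ∈ PS (mpol h) → Q ∣ pol E - C a → Q ∣ pol E - C b →
        a = b := by
      intro Q a b hQ ha hb
      exact res_unique Q (pol E) (irr_PS hQ).not_isUnit a b ha hb
    rcases hR4 Gf hGf' E hE with h7 | h7
    · have m1 := key P _ 0 hPm k1 (by rw [C_0, sub_zero]; exact hd.trans h7)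
      have m2 := key P' _ 0 hPm' k2 (by rw [C_0, sub_zero]; exact hd'.trans h7)
      exact hs (m1.trans m2.symm)
    · have m1 := key P _ 1 hPm k1 (by rw [C_1]; exact hd.trans h7)
      have m2 := key P' _ 1 hPm' k2 (by rw [C_1]; exact hd'.trans h7)
      exact hs (m1.trans m2.symm)
  -- degrees
  have hsum : (Hs.map List.length).sum = n := by
    rw [← (natDegree_prod_mpol Hs).2, hR1, hdeg]
  have hlen : ∀ Gf ∈ Hs, Gf.length ≤ n := by
    intro Gf hGf'
    rw [← hsum]
    exact List.le_sum_of_mem (List.mem_map_of_mem hGf')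
  have hPr : ∀ Gf ∈ Hs, ∃ (P : K[X]) (k : ℕ), Irreducible P ∧ 1 ≤ k ∧ mpol Gf = P ^ k ∧
      mpol (pP.val () (tb, ((bits K q, un e), Gf)) : List K × List Unit).1 = P ∧
      (pP.val () (tb, ((bits K q, un e), Gf)) : List K × List Unit).2 = un k ∧
      pP.cost () () (tb, ((bits K q, un e), Gf)) ≤
        CP * PL e q Gf.length ^ kP * ww (Gf.length + 1) := by
    intro Gf hGf'
    obtain ⟨P, k, hi, hmo, hk, hpk⟩ := hprim Gf hGf'
    have := hP K q e tb Gf k P hq htb ((hlen Gf hGf').trans hnq) hi hmo hk hpk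
    exact ⟨P, k, hi, hk, hpk, this.1, this.2.1, this.2.2⟩
  have hval := val_uniP pI pB pR pP tb (bits K q) (un e) h (rows r) vs Es Hs hBval hEs.symm
    hHs.symm
  refine ⟨?_, ?_⟩
  · rw [hval]
    refine ⟨?_, ?_, ?_⟩
    · rw [← hR1, List.map_map]
      congr 1
      apply List.map_congr_left
      intro Gf hGf'
      obtain ⟨P, k, hi, hk, hpk, r1, r2, _⟩ := hPr Gf hGf'
      simp only [Function.comp_apply]
      rw [r1, r2, hpk, un, List.length_replicate]
    · intro x hx
      rw [List.mem_map] at hx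
      obtain ⟨Gf, hGf', rfl⟩ := hx
      obtain ⟨P, k, hi, hk, hpk, r1, r2, _⟩ := hPr Gf hGf'
      rw [r1, r2, un, List.length_replicate]
      exact ⟨hi, hk⟩
    · rw [List.map_map, List.Nodup, List.pairwise_map]
      refine List.Pairwise.imp_of_mem ?_ hR3
      intro Gf Gf' hGf' hGf'' hcop heq
      obtain ⟨P, k, hi, hk, hpk, r1, r2, _⟩ := hPr Gf hGf'
      obtain ⟨P', k', hi', hk', hpk', r1', r2', _⟩ := hPr Gf' hGf''
      simp only [Function.comp_apply] at heq
      have hPP : P = P' := by rw [← r1, ← r1', heq]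
      rw [hpk, hpk', hPP] at hcop
      have h8 : IsCoprime P' P' :=
        (IsCoprime.pow_left_iff (by omega)).1 ((IsCoprime.pow_right_iff (by omega)).1 hcop)
      exact hi'.not_isUnit (isCoprime_self.1 h8)
  · have hcost := cost_uniP pI pB pR pP tb (bits K q) (un e) h (rows r) vs Es Hs hBval hEs.symm
      hHs.symm
    refine hcost.trans ?_
    set A := PL e q n with hA
    set W := ww (n + 1) with hW
    have hA1 : 1 ≤ A := (Nat.le_add_left 1 _).trans (lgc_le_PL e q n 0 (by omega))
    have hW1 : n + 1 ≤ W := by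
      have := hwwN (n + 1)
      nlinarith
    set k := kB + kI + kR + kP + 1 with hk
    have hT : A ≤ A ^ k := Nat.le_self_pow (by omega) A
    have hT1 : 1 ≤ A ^ k := Nat.one_le_pow _ _ hA1
    have hTW : W ≤ A ^ k * W := Nat.le_mul_of_pos_left W (by omega)
    have hTA : A ≤ A ^ k * W := hT.trans (Nat.le_mul_of_pos_right _ (by omega))
    have hTn : n + 1 ≤ A ^ k * W := hW1.trans hTW
    have hlg : lgc n ≤ A := lgc_le_PL e q n n (by omega)
    have hlg1 : lgc (n + 1) ≤ A := lgc_le_PL e q n (n + 1) le_rfl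
    have hS1 : 3 * lgc n + 10 + 1 ≤ 14 * A := by omega
    have hS0 : 3 * lgc n + 10 ≤ 14 * A := by omega
    -- first term
    have t1 : pB.cost () () (tb, ((bits K q, un e), (h, rows r))) ≤ 14 * CB * (A ^ k * W) := by
      rw [hrl, hn] at hBcost
      exact hBcost.trans (term_bound CB A W _ kB k hA1 hS1 (by omega))
    -- second term
    have t2 : (vs.map (fun v => pI.cost () () (tb, ((v, (bits K q, un e)), h)) + 26)).sum ≤
        14 * (CI * C5) * (A ^ k * W) + 14 * 26 * (A ^ k * W) := by
      have hmu5 : mu (n + 1) ≤ C5 * W := by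
        refine le_trans (hmu _ _ ?_) (hC5 n)
        nlinarith
      have e1 : ∀ x ∈ vs.map (fun v => pI.cost () () (tb, ((v, (bits K q, un e)), h)) + 26),
          x ≤ CI * C5 * A ^ kI * W + 26 := by
        intro x hx
        rw [List.mem_map] at hx
        obtain ⟨v, hv, rfl⟩ := hx
        have := (hI' tb v h htb (hvlen v hv)).2.2
        rw [hn] at this
        refine Nat.add_le_add_right (this.trans ?_) 26
        calc CI * A ^ kI * mu (n + 1) ≤ CI * A ^ kI * (C5 * W) := by gcongr
          _ = CI * C5 * A ^ kI * W := by ring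
      have e2 := List.sum_le_card_nsmul _ _ e1
      rw [List.length_map, hvsdef, List.length_map, hrl, smul_eq_mul] at e2
      refine e2.trans ?_
      calc (3 * lgc n + 10) * (CI * C5 * A ^ kI * W + 26)
          = CI * C5 * A ^ kI * ((3 * lgc n + 10) * W) + 26 * (3 * lgc n + 10) := by ring
        _ ≤ 14 * (CI * C5) * (A ^ k * W) + 26 * (14 * A) := by
            exact Nat.add_le_add (term_bound (CI * C5) A W _ kI k hA1 hS0 (by omega))
              (Nat.mul_le_mul_left 26 hS0)
        _ ≤ 14 * (CI * C5) * (A ^ k * W) + 14 * 26 * (A ^ k * W) := by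
            have : 26 * (14 * A) ≤ 14 * 26 * (A ^ k * W) := by
              calc 26 * (14 * A) = 14 * 26 * A := by ring
                _ ≤ _ := by gcongr
            omega
    -- third term
    have t3 : pR.cost () () (tb, (h, Es)) ≤ 14 * CR * (A ^ k * W) := by
      have hEl : Es.length = 3 * lgc n + 10 := by
        rw [hEs, esOf, List.length_map, hvsdef, List.length_map, hrl]
      rw [hEl, hn] at hR5
      refine hR5.trans ?_
      calc CR * lgc (n + 1) ^ kR * ((3 * lgc n + 10 + 1) * ww (n + 1))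
          ≤ CR * A ^ kR * ((3 * lgc n + 10 + 1) * W) := by gcongr
        _ ≤ _ := term_bound CR A W _ kR k hA1 hS1 (by omega)
    -- fourth term
    have t4 : (Hs.map (fun Gf => pP.cost () () (tb, ((bits K q, un e), Gf)) + 21)).sum ≤
        CP * C6 * (A ^ k * W) + 21 * (A ^ k * W) := by
      have e1 : (Hs.map (fun Gf => pP.cost () () (tb, ((bits K q, un e), Gf)) + 21)).sum ≤
          (Hs.map (fun Gf => CP * A ^ kP * ww (Gf.length + 1) + 21)).sum := by
        apply List.sum_le_sum
        intro Gf hGf'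
        obtain ⟨P, k', hi, hk', hpk, r1, r2, r3⟩ := hPr Gf hGf'
        refine Nat.add_le_add_right (r3.trans ?_) 21
        have := PL_mono e q (hlen Gf hGf')
        gcongr
      have e2 : (Hs.map (fun Gf => CP * A ^ kP * ww (Gf.length + 1) + 21)).sum
          = CP * A ^ kP * (Hs.map (fun Gf => ww (Gf.length + 1))).sum + 21 * Hs.length := by
        exact sum_aff Hs (fun Gf => ww (Gf.length + 1)) (CP * A ^ kP) 21
      have e3 : Hs.length ≤ n := by
        rw [← hsum]
        exact length_le_sum Hs hR2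
      have e4 : (Hs.map (fun Gf => Gf.length + 1)).sum = n + Hs.length := by
        rw [← hsum]
        have := sum_aff Hs (fun Gf => Gf.length) 1 1
        simpa using this
      have e5 : (Hs.map (fun Gf => ww (Gf.length + 1))).sum ≤ C6 * W := by
        refine (ww_sum hwwa Hs).trans ?_
        rw [e4]
        exact (hww _ _ (by omega)).trans (hC6 n)
      have e6 : A ^ kP ≤ A ^ k := Nat.pow_le_pow_right hA1 (by omega)
      calc _ ≤ _ := e1
        _ = CP * A ^ kP * (Hs.map (fun Gf => ww (Gf.length + 1))).sum + 21 * Hs.length := e2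
        _ ≤ CP * A ^ k * (C6 * W) + 21 * n := by gcongr
        _ ≤ CP * C6 * (A ^ k * W) + 21 * (A ^ k * W) := by
            have : 21 * n ≤ 21 * (A ^ k * W) := by omega
            have e7 : CP * A ^ k * (C6 * W) = CP * C6 * (A ^ k * W) := by ring
            omega
    calc _ ≤ 14 * CB * (A ^ k * W) + (14 * (CI * C5) * (A ^ k * W) + 14 * 26 * (A ^ k * W)) +
          14 * CR * (A ^ k * W) + (CP * C6 * (A ^ k * W) + 21 * (A ^ k * W)) +
          40 * (A ^ k * W) := by omega
      _ = _ := by ring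


end Pool.Agent.H330FB.JB5
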