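import Pool.Agent.H330FB.Lib5
import Pool.Agent.H330FB.Spec4
set_option autoImplicit false
set_option linter.unusedSectionVars false
noncomputable section
namespace Pool.Agent.H330FB.JE1
open Polynomial

namespace Naive

/-- `((x, c), (y, z))` goes to `x y - c z` -/
def gP : Pr [] (.prod (.prod .fld .fld) (.prod .fld .fld)) .fld :=
  .comp (.pair (.comp (.pair (.comp .fst .fst) (.comp .snd .fst)) .mul)
    (.comp (.comp (.pair (.comp .fst .snd) (.comp .snd .snd)) .mul) .neg)) .add

/-- last element or zero -/
def lastP : Pr [] (.prod (.prod Po Po) (.prod Po .fld)) .fld :=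
  .comp (.pair .star (.pair .zero (.comp .snd .fst))) (foldP (c := .unit) (.comp .snd .snd))

/-- one step of Horner's scheme, input `((b, P), (acc, x))` -/
def stepP : Pr [] (.prod (.prod Po Po) (.prod Po .fld)) Po :=
  lt lastP (.comp (.pair .star (.pair
    (.comp (.pair .zero (.comp (.comp .fst .snd) .fst)) .cons)
    (.comp (.pair (.pair (.comp (.comp .fst .snd) .snd) .snd)
      (.pair (.comp (.comp .fst .fst) .fst) (.comp (.comp .fst .fst) .snd))) (zipP gP))))
    (zipP (c := .unit) (.comp .snd .add)))

/-- the program -/
def mainP : Pr [] (.prod (.prod Po Po) Po) Po :=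
  .comp (.pair (.pair (.comp .fst .snd) .snd)
    (.pair (.comp (.pair .star .snd) (mapP (c := .unit) .zero))
      (.comp (.comp .fst .fst) revP))) (foldP stepP)

section
variable {F : Type} [Field F] [DecidableEq F]

/-- last element or `z` -/
def la (z : F) (l : List F) : F := List.foldl (fun _ y => y) z l

/-- the step -/
def st (b P acc : List F) (x : F) : List F :=
  List.zipWith (fun y z => y + z) (0 :: acc)
    (List.zipWith (fun y z => x * y + -(la 0 acc * z)) b P)

theorem val_lastP (v : SV F []) (x : Ty.D F (.prod (.prod Po Po) (.prod Po .fld))) :
    lastP.val v x = la 0 x.2.1 := by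
  simp [lastP, la]

theorem val_gP (v : SV F []) (x : Ty.D F (.prod (.prod .fld .fld) (.prod .fld .fld))) :
    gP.val v x = (x.1.1 * x.2.1 + -(x.1.2 * x.2.2) : F) := by
  simp [gP]

theorem cost_lastP (b P acc : List F) (x : F) :
    lastP.cost () () ((b, P), (acc, x)) ≤ 29 * acc.length + 30 := by
  have h1 := cost_foldP_le (s := []) (c := .unit) (b := .fld) (a := .fld) (F := F)
    (.comp .snd .snd) () () ((), (0, acc)) 2 (fun _ => True) trivial (fun _ _ _ _ => trivial)
    (fun _ _ _ _ => by simp)
  simp [lastP] at h1 ⊢
  omega

theorem val_stepP (b P acc : List F) (x : F) :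
    (stepP.val () ((b, P), (acc, x)) : List F) = st b P acc x := by
  simp [stepP, val_lastP, val_gP, st]

theorem length_st (b P acc : List F) (x : F) (hb : b.length = P.length)
    (ha : acc.length = P.length) : (st b P acc x).length = P.length := by
  simp [st, hb, ha]

theorem cost_stepP (b P acc : List F) (x : F) (hb : b.length = P.length)
    (ha : acc.length = P.length) :
    stepP.cost () () ((b, P), (acc, x)) ≤ 300 * P.length + 200 := by
  have h1 := cost_lastP b P acc x
  have h2 := cost_zipP_le (s := []) (F := F) gP () () ((x, la 0 acc), (b, P)) 20
    (fun _ _ _ _ => by simp [gP])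
  have h3 := cost_zipP_le (s := []) (c := .unit) (a := .fld) (b := .fld) (d := .fld) (F := F)
    (.comp .snd .add) () () ((), (0 :: acc,
      List.zipWith (fun y z => x * y + -(la 0 acc * z)) b P)) 2 (fun _ _ _ _ => by simp)
  simp [stepP, val_lastP, val_gP] at h1 h2 h3 ⊢
  rw [ha] at h1 h3
  rw [hb] at h2
  omega

theorem pol_zip (x c : F) (b P : List F) (h : b.length = P.length) :
    pol (List.zipWith (fun y z => x * y + -(c * z)) b P) = C x * pol b - C c * pol P := by
  induction b generalizing P with
  | nil =>
    have : P = [] := List.length_eq_zero_iff.mp (by simpa using h.symm)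
    subst this
    simp [pol]
  | cons y b ih =>
    cases P with
    | nil => simp at h
    | cons z P =>
      simp only [List.length_cons, Nat.add_right_cancel_iff] at h
      simp only [List.zipWith_cons_cons, pol, ih P h, C_add, C_mul, C_neg]
      ring

theorem pol_shift (z : F) (acc l : List F) (h : l.length = acc.length) :
    pol (List.zipWith (fun y z => y + z) (z :: acc) l) =
      C z + X * pol acc - C (la z acc) * X ^ l.length + pol l := by
  induction acc generalizing z l with
  | nil =>
    have : l = [] := List.length_eq_zero_iff.mp (by simpa using h)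
    subst this
    simp [pol, la]
  | cons y acc ih =>
    cases l with
    | nil => simp at h
    | cons w l =>
      simp only [List.length_cons, Nat.add_right_cancel_iff] at h
      have e : la z (y :: acc) = la y acc := rfl
      rw [List.zipWith_cons_cons, pol, ih y l h, e]
      simp only [pol, C_add, List.length_cons, pow_succ]
      ring

theorem pol_st (b P acc : List F) (x : F) (hb : b.length = P.length)
    (ha : acc.length = P.length) :
    pol (st b P acc x) = X * pol acc + C x * pol b - C (la 0 acc) * mpol P := by
  unfold st
  rw [pol_shift _ _ _ (by simp [hb, ha]), pol_zip _ _ _ _ hb]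
  simp only [List.length_zipWith, hb, min_self, mpol, C_0]
  ring

/-- the result -/
def res (b P : List F) : List F → List F
  | [] => List.replicate P.length 0
  | x :: a => st b P (res b P a) x

theorem length_res (b P a : List F) (hb : b.length = P.length) :
    (res b P a).length = P.length := by
  induction a with
  | nil => simp [res]
  | cons x a ih => exact length_st b P _ x hb ih

theorem pol_zeros (n : ℕ) : pol (List.replicate n (0 : F)) = 0 := by
  induction n with
  | zero => simp [pol]
  | succ n ih => simp [List.replicate_succ, pol, ih]

theorem dvd_res (b P a : List F) (hb : b.length = P.length) :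
    mpol P ∣ pol a * pol b - pol (res b P a) := by
  induction a with
  | nil => simp [res, pol, pol_zeros]
  | cons x a ih =>
    have e : pol (x :: a) * pol b - pol (res b P (x :: a)) =
        X * (pol a * pol b - pol (res b P a)) + C (la 0 (res b P a)) * mpol P := by
      rw [res, pol_st b P _ x hb (length_res b P a hb), pol]
      ring
    rw [e]
    exact dvd_add (ih.mul_left _) (dvd_mul_left _ _)

theorem val_mainP (a b P : List F) :
    (mainP.val () ((a, b), P) : List F) = res b P a := by
  have h1 : (mainP.val () ((a, b), P) : List F) =
      List.foldl (fun y z => st b P y z) (List.map (fun _ => (0 : F)) P) (List.reverse a) := by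
    simp only [mainP, val_comp, val_pair, val_fst, val_snd, val_star, val_mapP, val_revP,
      val_foldP, val_zero]
    congr 1
    funext y z
    exact val_stepP b P y z
  have h2 : List.map (fun _ => (0 : F)) P = List.replicate P.length 0 := by
    induction P with
    | nil => rfl
    | cons z P ih => simp [List.replicate_succ]
  rw [h1, List.foldl_reverse, h2]
  clear h1
  induction a with
  | nil => rfl
  | cons x a ih => simp only [List.foldr_cons, res]; rw [← ih]

theorem cost_mainP (a b P : List F) (ha : a.length = P.length) (hb : b.length = P.length) :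
    mainP.cost () () ((a, b), P) ≤ 1000 * (P.length + 1) ^ 2 := by
  have h1 := cost_mapP_le (s := []) (c := .unit) (a := .fld) (b := .fld) (F := F) .zero () ()
    ((), P) 1 (fun _ _ => by simp)
  have h2 := cost_revP (s := []) (F := F) (a := .fld) () () a
  have h3 := cost_foldP_le (s := []) (F := F) stepP () () ((b, P),
    (List.map (fun _ => (0 : F)) P, List.reverse a)) (300 * P.length + 200)
    (fun y => List.length y = P.length) (by simp)
    (fun y z hy _ => by
      show List.length (stepP.val () ((b, P), (y, z)) : List F) = P.length
      rw [val_stepP]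
      exact length_st b P y z hb hy)
    (fun y z hy _ => cost_stepP b P y z hb hy)
  simp [mainP] at h1 h2 h3 ⊢
  rw [ha] at h2 h3
  nlinarith

end

end Naive

/- SCHOOLBOOK: Horner over the coefficients of a (reversed): acc := x * acc mod P + a_i * b, where x * acc mod P = (shift acc by one, keep the last coefficient c aside) - c * P. -/
theorem specNaive : SpecNaive := by
  refine ⟨Naive.mainP, 1000, fun F _ _ a b P ha hb => ?_⟩
  intro r
  have hr : r = Naive.res b P a := Naive.val_mainP a b P
  refine ⟨?_, ?_, Naive.cost_mainP a b P ha hb⟩
  · rw [hr]; exact Naive.length_res b P a hb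
  · rw [hr]; exact Naive.dvd_res b P a hb
end Pool.Agent.H330FB.JE1
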