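import Pool.Agent.H330FB.Lib5
import Pool.Agent.H330FB.Spec4
set_option autoImplicit false
noncomputable section
namespace Pool.Agent.H330FB
open Polynomial

/-! ### the encoding -/

section enc
variable {F L : Type} [Field F] [Field L] [Algebra F L] {P : List F} {θ : L} {enc : L → List F}

theorem sim_pol_zipWith (l m : List F) (h : l.length = m.length) :
    pol (List.zipWith (fun y z => y + z) l m) = pol l + pol m := by
  induction l generalizing m with
  | nil =>
    cases m with
    | nil => simp [pol]
    | cons y m => simp at h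
  | cons x l ih =>
    cases m with
    | nil => simp at h
    | cons y m =>
      simp only [List.length_cons, add_left_inj] at h
      simp only [List.zipWith_cons_cons, pol, ih m h, map_add]
      ring

theorem sim_pol_mul (c : F) (l : List F) :
    pol (List.map (fun y => c * y) l) = C c * pol l := by
  induction l with
  | nil => simp [pol]
  | cons x l ih => simp only [List.map_cons, pol, ih, map_mul]; ring

theorem sim_pol_neg (l : List F) :
    pol (List.map (fun y => -y) l) = - pol l := by
  induction l with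
  | nil => simp [pol]
  | cons x l ih => simp only [List.map_cons, pol, ih, map_neg]; ring

theorem sim_pol_zero {α : Type} (l : List α) :
    pol (List.map (fun _ => (0 : F)) l) = 0 := by
  induction l with
  | nil => simp [pol]
  | cons x l ih => rw [List.map_cons, pol, ih]; simp

theorem EncOK.sim_inj (h : EncOK F L P θ enc) {x y : L} (hxy : enc x = enc y) : x = y := by
  rw [← h.dec x, ← h.dec y, hxy]

theorem EncOK.sim_add (h : EncOK F L P θ enc) (x y : L) :
    List.zipWith (fun y z => y + z) (enc x) (enc y) = enc (x + y) := by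
  have h1 := h.enc_dec (List.zipWith (fun y z => y + z) (enc x) (enc y))
    (by simp [h.len])
  rw [sim_pol_zipWith _ _ (by rw [h.len, h.len]), map_add, h.dec, h.dec] at h1
  exact h1.symm

theorem EncOK.sim_neg (h : EncOK F L P θ enc) (x : L) :
    List.map (fun y => -y) (enc x) = enc (-x) := by
  have h1 := h.enc_dec (List.map (fun y => -y) (enc x)) (by simp [h.len])
  rw [sim_pol_neg, map_neg, h.dec] at h1
  exact h1.symm

theorem EncOK.sim_zero (h : EncOK F L P θ enc) :
    List.map (fun _ => (0 : F)) P = enc 0 := by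
  have h1 := h.enc_dec (List.map (fun _ => (0 : F)) P) (by simp)
  rw [sim_pol_zero, map_zero] at h1
  exact h1.symm

theorem EncOK.sim_alg (h : EncOK F L P θ enc) (c : F) {x : F} {l : List F} (hP : P = x :: l) :
    enc (algebraMap F L c) = c :: List.map (fun _ => (0 : F)) l := by
  have h1 := h.enc_dec (c :: List.map (fun _ => (0 : F)) l) (by simp [hP])
  simp only [pol, sim_pol_zero, mul_zero, add_zero, aeval_C] at h1
  exact h1

theorem EncOK.sim_smul (h : EncOK F L P θ enc) (c : F) (z : L) :
    List.map (fun y => c * y) (enc z) = enc (algebraMap F L c * z) := by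
  have h1 := h.enc_dec (List.map (fun y => c * y) (enc z)) (by simp [h.len])
  rw [sim_pol_mul, map_mul, h.dec, aeval_C] at h1
  exact h1.symm

theorem EncOK.sim_card [Fintype F] (h : EncOK F L P θ enc) :
    Finite L ∧ Nat.card L = Fintype.card F ^ P.length := by
  let e : L ≃ List.Vector F P.length :=
    ⟨fun z => ⟨enc z, h.len z⟩, fun l => aeval θ (pol l.1), h.dec,
      fun l => Subtype.ext (h.enc_dec l.1 l.2)⟩
  refine ⟨Finite.of_equiv _ e.symm, ?_⟩
  rw [Nat.card_congr e, Nat.card_eq_fintype_card, card_vector]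

theorem EncOK.sim_norm [Fintype F] (h : EncOK F L P θ enc) (z : L) :
    ∃ c : F, algebraMap F L c = z ^ ∑ i ∈ Finset.range P.length, Fintype.card F ^ i := by
  obtain ⟨hL, hc⟩ := h.sim_card
  have := Fintype.ofFinite L
  refine ⟨Algebra.norm F z, ?_⟩
  rw [FiniteField.algebraMap_norm_eq_pow_sum, Nat.card_eq_fintype_card (α := F)]
  have h1 : Module.finrank F L = P.length := by
    have h2 := Module.card_eq_pow_finrank (K := F) (V := L)
    rw [← Nat.card_eq_fintype_card, hc] at h2
    exact (Nat.pow_right_injective Fintype.one_lt_card h2).symm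
  rw [h1]

end enc

/-- properties of the product program -/
def SimMulOK (pm : Pr [] (.prod (.prod Po Po) Po) Po) (C0 : ℕ) : Prop :=
  ∀ (F : Type) [Field F] [DecidableEq F] (a b P : List F), a.length = P.length →
  b.length = P.length →
  let r : List F := pm.val () ((a, b), P)
  r.length = P.length ∧ mpol P ∣ pol a * pol b - pol r ∧
  pm.cost () () ((a, b), P) ≤ C0 * (P.length + 1) ^ 2

theorem EncOK.sim_mul {F L : Type} [Field F] [DecidableEq F] [Field L] [Algebra F L] {P : List F}
    {θ : L} {enc : L → List F} (h : EncOK F L P θ enc)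
    {pm : Pr [] (.prod (.prod Po Po) Po) Po} {C0 : ℕ} (hpm : SimMulOK pm C0) (x y : L) :
    (pm.val () ((enc x, enc y), P) : List F) = enc (x * y) := by
  obtain ⟨h1, h2, -⟩ := hpm F (enc x) (enc y) P (h.len x) (h.len y)
  have h3 := h.enc_dec _ h1
  obtain ⟨w, hw⟩ := h2
  have h4 := congrArg (aeval θ) hw
  rw [map_sub, map_mul, map_mul, h.dec, h.dec, h.root, zero_mul, sub_eq_zero] at h4
  rw [← h4] at h3
  exact h3.symm

/-- context: bits of `q` and modulus -/
abbrev SimCx : Ty := .prod Po Po

section progs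
variable (pm : Pr [] (.prod (.prod Po Po) Po) Po)

/-- product; input `(cx, (x, y))` -/
def simMul : Pr [] (.prod SimCx (.prod Po Po)) Po := .comp (.pair .snd (.comp .fst .snd)) pm

/-- zero -/
def simZero {s : List (Ty × Ty)} {a : Ty} : Pr s (.prod SimCx a) Po :=
  .comp (.pair .star (.comp .fst .snd)) (mapP (c := .unit) .zero)

/-- one -/
def simOne {s : List (Ty × Ty)} {a : Ty} : Pr s (.prod SimCx a) Po :=
  onL (.comp .fst .snd) .nil
    (.comp (.pair .one (.comp (.pair .star (.comp .snd .snd)) (mapP (c := .unit) .zero))) .cons)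

/-- one step of the computation of `y ^ q`; input `(cx, ((acc, sq), b))` -/
def simPowB : Pr [] (.prod SimCx (.prod (.prod Po Po) .fld)) (.prod Po Po) :=
  .pair (onZ (.comp .snd .snd) (.comp (.comp .snd .fst) .fst)
      (.comp (.pair .fst (.comp .snd .fst)) (simMul pm)))
    (.comp (.pair .fst (.pair (.comp (.comp .snd .fst) .snd) (.comp (.comp .snd .fst) .snd)))
      (simMul pm))

/-- `y ^ q`; input `(cx, y)` -/
def simPow : Pr [] (.prod SimCx Po) Po :=
  .comp (.comp (.pair .fst (.pair (.pair simOne .snd) (.comp .fst .fst))) (foldP (simPowB pm))) .fst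

/-- one step of the computation of the inverse; input `(cx, ((y, r), _))` -/
def simInvB : Pr [] (.prod SimCx (.prod (.prod Po Po) .fld)) (.prod Po Po) :=
  .pair (.comp (.pair .fst (.comp (.comp .snd .fst) .fst)) (simPow pm))
    (.comp (.pair .fst (.pair (.comp (.comp .snd .fst) .snd)
      (.comp (.pair .fst (.comp (.comp .snd .fst) .fst)) (simPow pm)))) (simMul pm))

/-- the product of the conjugates of `z`; input `(cx, z)` -/
def simConj : Pr [] (.prod SimCx Po) Po :=
  onL (.comp .fst .snd) .nil
    (.comp (.comp (.pair (.comp .fst .fst) (.pair (.pair (.comp .fst .snd) (.comp .fst simOne))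
      (.comp .snd .snd))) (foldP (simInvB pm))) .snd)

/-- inverse; input `(cx, z)` -/
def simInv : Pr [] (.prod SimCx Po) Po :=
  lt (simConj pm) (onL (.comp (.pair (.comp .fst .fst) (.pair (.comp .fst .snd) .snd)) (simMul pm))
    .nil (.comp (.pair (.comp (.comp .snd .fst) .inv) (.comp .fst .snd))
      (mapP (c := .fld) .mul)))

/-- zero if all entries are zero, otherwise one -/
def simAllZ {s : List (Ty × Ty)} : Pr s Po .fld :=
  .comp (.pair .star (.pair .zero .id))
    (foldP (c := .unit) (onZ (.comp .snd .snd) (.comp .snd .fst) .one))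

end progs

section vals
variable {F L : Type} [Field F] [DecidableEq F] [Field L] [Algebra F L] {P : List F}
    {θ : L} {enc : L → List F}
    {pm : Pr [] (.prod (.prod Po Po) Po) Po} {C0 : ℕ}

theorem val_simMul (h : EncOK F L P θ enc) (hpm : SimMulOK pm C0) (l : List F) (x y : L) :
    (simMul pm).val () ((l, P), (enc x, enc y)) = enc (x * y) := by
  simp only [simMul, val_comp, val_pair, val_fst, val_snd]
  exact h.sim_mul hpm x y

theorem cost_simMul (h : EncOK F L P θ enc) (hpm : SimMulOK pm C0) (l : List F) (x y : L) :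
    (simMul pm).cost () () ((l, P), (enc x, enc y)) ≤ C0 * (P.length + 1) ^ 2 + 4 := by
  have := (hpm F (enc x) (enc y) P (h.len x) (h.len y)).2.2
  simp only [simMul, cost_comp, cost_pair, cost_fst, cost_snd, val_pair, val_comp, val_fst, val_snd]
  omega

theorem val_simZero {s : List (Ty × Ty)} {a : Ty} (h : EncOK F L P θ enc) (l : List F)
    (v : SV F s) (x : Ty.D F a) :
    (simZero : Pr s (.prod SimCx a) Po).val v ((l, P), x) = enc 0 := by
  rw [← h.sim_zero]
  simp [simZero]

theorem cost_simZero {s : List (Ty × Ty)} {a : Ty} (l P : List F)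
    (v : SV F s) (k : SC F s) (x : Ty.D F a) :
    (simZero : Pr s (.prod SimCx a) Po).cost v k ((l, P), x) ≤ 14 * P.length + 9 := by
  have := cost_mapP_le (s := s) (c := .unit) (a := .fld) .zero v k ((), P) 1 (fun _ _ => le_rfl)
  simp only [simZero, cost_comp, cost_pair, cost_fst, cost_snd, cost_star, val_pair, val_comp,
    val_fst, val_snd, val_star] at this ⊢
  omega

theorem val_simOne {s : List (Ty × Ty)} {a : Ty} (h : EncOK F L P θ enc) (l : List F)
    (v : SV F s) (x : Ty.D F a) :
    (simOne : Pr s (.prod SimCx a) Po).val v ((l, P), x) = enc 1 := by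
  rcases hP : P with _ | ⟨y, t⟩
  · have := h.pos; rw [hP] at this; simp at this
  · have := h.sim_alg 1 hP
    rw [map_one] at this
    rw [this]
    simp [simOne]

theorem cost_simOne {s : List (Ty × Ty)} {a : Ty} (l P : List F)
    (v : SV F s) (k : SC F s) (x : Ty.D F a) :
    (simOne : Pr s (.prod SimCx a) Po).cost v k ((l, P), x) ≤ 14 * P.length + 17 := by
  rcases P with _ | ⟨y, t⟩
  · simp [simOne]
  · have := cost_mapP_le (s := s) (c := .unit) (a := .fld) .zero v k ((), t) 1
      (fun _ _ => le_rfl)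
    simp only [simOne, cost_comp, cost_pair, cost_fst, cost_snd, cost_star, val_pair, val_comp,
      val_fst, val_snd, val_star, cost_onL, cost_cons, cost_one, lcase_cons,
      List.length_cons] at this ⊢
    omega

theorem val_simPowB (h : EncOK F L P θ enc) (hpm : SimMulOK pm C0) (l : List F) (x y : L) (b : Bool) :
    (simPowB pm).val () ((l, P), ((enc x, enc y), (if b then (1 : F) else 0))) =
      (enc (x * y ^ (cond b 1 0)), enc (y ^ 2)) := by
  have h1 := val_simMul h hpm l x y
  have h2 := val_simMul h hpm l y y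
  simp only [simPowB, val_comp, val_pair, val_fst, val_snd, val_onZ, h1, h2]
  cases b <;> simp [pow_two]

theorem sim_cost_onZ_le {s : List (Ty × Ty)} {g b : Ty} (e : Pr s g .fld) (p q : Pr s g b)
    (v : SV F s) (k : SC F s) (x : Ty.D F g) (B : ℕ) (hp : p.cost v k x ≤ B)
    (hq : q.cost v k x ≤ B) : (onZ e p q).cost v k x ≤ e.cost v k x + 3 + B := by
  rw [cost_onZ]
  split_ifs <;> omega

theorem cost_simPowB (h : EncOK F L P θ enc) (hpm : SimMulOK pm C0) (l : List F) (x y : L) (b : F) :
    (simPowB pm).cost () () ((l, P), ((enc x, enc y), b)) ≤ 2 * C0 * (P.length + 1) ^ 2 + 40 := by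
  have h1 := cost_simMul h hpm l x y
  have h2 := cost_simMul h hpm l y y
  have h3 := sim_cost_onZ_le (s := []) (.comp .snd .snd) (.comp (.comp .snd .fst) .fst)
      (.comp (.pair .fst (.comp .snd .fst)) (simMul pm)) () () ((l, P), ((enc x, enc y), b))
      (C0 * (P.length + 1) ^ 2 + 9) (by simp) (by simp; omega)
  simp only [simPowB, cost_pair, cost_comp, cost_fst, cost_snd, val_comp, val_pair,
    val_fst, val_snd] at h3 ⊢
  nlinarith

theorem sim_fold (h : EncOK F L P θ enc) (hpm : SimMulOK pm C0) (l : List F) (x y : L)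
    (bs : List Bool) :
    List.foldl (fun (u : List F × List F) z => (simPowB pm).val () ((l, P), (u, z))) (enc x, enc y)
      (bs.map (fun b => if b then (1 : F) else 0)) =
      (enc (x * y ^ (Nat.ofDigits 2 (bs.map fun b => cond b 1 0))), enc (y ^ 2 ^ bs.length)) := by
  induction bs generalizing x y with
  | nil => simp
  | cons b bs ih =>
    simp only [List.map_cons, List.foldl_cons]
    rw [val_simPowB h hpm, ih, Nat.ofDigits_cons]
    congr 2
    · rw [mul_assoc, ← pow_mul, ← pow_add]
    · rw [← pow_mul, List.length_cons, pow_succ, mul_comm]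

theorem val_simPow (h : EncOK F L P θ enc) (hpm : SimMulOK pm C0) (q : ℕ) (y : L) :
    (simPow pm).val () ((bits F q, P), enc y) = enc (y ^ q) := by
  have h1 := sim_fold h hpm (bits F q) 1 y (Nat.bits q)
  rw [← Nat.digits_two_eq_bits, Nat.ofDigits_digits, one_mul] at h1
  have h2 := val_simOne (s := []) (a := Po) h (bits F q) () (enc y)
  simp only [simPow, val_comp, val_pair, val_fst, val_snd, val_foldP, h2]
  have h3 : (bits F q) = (Nat.bits q).map (fun b => if b then (1 : F) else 0) := rfl
  exact congrArg Prod.fst h1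

theorem sim_len_bits (q : ℕ) : (bits F q).length ≤ lgc q := by
  rw [bits, List.length_map, Nat.size_eq_bits_len, Nat.size_le, lgc, pow_succ]
  have := Nat.le_pow_clog (b := 2) (by norm_num) q
  have h2 : 0 < 2 ^ Nat.clog 2 q := by positivity
  omega

theorem cost_simPow (h : EncOK F L P θ enc) (hpm : SimMulOK pm C0) (q : ℕ) (y : L) :
    (simPow pm).cost () () ((bits F q, P), enc y) ≤
      (2 * C0 * (P.length + 1) ^ 2 + 67) * lgc q + 14 * P.length + 40 := by
  have h1 := cost_foldP_le (simPowB pm) () () ((bits F q, P), ((enc (1 : L), enc y), bits F q))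
    (2 * C0 * (P.length + 1) ^ 2 + 40) (fun u => ∃ x y : L, u = (enc x, enc y)) ⟨1, y, rfl⟩
    (by
      rintro _ z ⟨x, y, rfl⟩ hz
      simp only [bits, List.mem_map] at hz
      obtain ⟨b, -, rfl⟩ := hz
      exact ⟨_, _, val_simPowB h hpm _ x y b⟩)
    (by
      rintro _ z ⟨x, y, rfl⟩ hz
      exact cost_simPowB h hpm _ x y z)
  have h2 := val_simOne (s := []) (a := Po) h (bits F q) () (enc y)
  have h3 := cost_simOne (s := []) (a := Po) (bits F q) P () () (enc y)
  have h4 := sim_len_bits (F := F) q
  simp only [simPow, cost_comp, cost_pair, cost_fst, cost_snd, val_comp, val_pair, val_fst,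
    val_snd, h2] at h1 h3 ⊢
  have h5 : (2 * C0 * (P.length + 1) ^ 2 + 40 + 27) * (bits F q).length ≤
    (2 * C0 * (P.length + 1) ^ 2 + 67) * lgc q := Nat.mul_le_mul_left _ h4
  omega

/-- bound for the computation of `y ^ q` -/
def simPwc (C0 q n : ℕ) : ℕ := (2 * C0 * (n + 1) ^ 2 + 67) * lgc q + 14 * n + 40

theorem val_simInvB (h : EncOK F L P θ enc) (hpm : SimMulOK pm C0) (q : ℕ) (y r : L) (z : F) :
    (simInvB pm).val () ((bits F q, P), ((enc y, enc r), z)) =
      (enc (y ^ q), enc (r * y ^ q)) := by
  have h1 := val_simPow h hpm q y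
  have h2 := val_simMul h hpm (bits F q) r (y ^ q)
  simp only [simInvB, val_comp, val_pair, val_fst, val_snd, h1, h2]

theorem cost_simInvB (h : EncOK F L P θ enc) (hpm : SimMulOK pm C0) (q : ℕ) (y r : L) (z : F) :
    (simInvB pm).cost () () ((bits F q, P), ((enc y, enc r), z)) ≤
      2 * simPwc C0 q P.length + C0 * (P.length + 1) ^ 2 + 21 := by
  have h1 := val_simPow h hpm q y
  have h2 := cost_simMul h hpm (bits F q) r (y ^ q)
  have h3 := cost_simPow h hpm q y
  rw [← simPwc] at h3
  simp only [simInvB, cost_comp, cost_pair, cost_fst, cost_snd, val_comp, val_pair, val_fst,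
    val_snd, h1]
  omega

theorem sim_fold2 (h : EncOK F L P θ enc) (hpm : SimMulOK pm C0) (q : ℕ) (y r : L) (t : List F) :
    List.foldl (fun (u : List F × List F) z => (simInvB pm).val () ((bits F q, P), (u, z)))
      (enc y, enc r) t =
      (enc (y ^ q ^ t.length), enc (r * y ^ ∑ j ∈ Finset.range t.length, q ^ (j + 1))) := by
  induction t generalizing y r with
  | nil => simp
  | cons z t ih =>
    simp only [List.foldl_cons]
    rw [val_simInvB h hpm, ih]
    congr 2
    · rw [← pow_mul, List.length_cons, pow_succ, mul_comm]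
    · rw [mul_assoc, ← pow_mul, ← pow_add, List.length_cons, Finset.sum_range_succ', zero_add,
        pow_one, add_comm, Finset.mul_sum]
      congr 3
      apply Finset.sum_congr rfl
      intro j _
      ring

theorem val_simConj (h : EncOK F L P θ enc) (hpm : SimMulOK pm C0) (q : ℕ) (z : L) :
    (simConj pm).val () ((bits F q, P), enc z) =
      enc (z ^ ∑ j ∈ Finset.range (P.length - 1), q ^ (j + 1)) := by
  rcases hP : P with _ | ⟨x, t⟩
  · have := h.pos; rw [hP] at this; simp at this
  · rw [← hP]
    have h1 := sim_fold2 h hpm q z 1 t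
    rw [one_mul] at h1
    have h2 := val_simOne (s := []) (a := Po) h (bits F q) () (enc z)
    simp only [simConj, val_onL, val_comp, val_pair, val_fst, val_snd, val_foldP, h2]
    have h3 : t.length = P.length - 1 := by rw [hP]; simp
    rw [← h3]
    have h4 : ∀ (n : Ty.D F Po) (f : F → List F → Ty.D F Po), lcase P n f = f x t := by
      intro n f; rw [hP]; rfl
    rw [h4]
    exact congrArg Prod.snd h1

theorem cost_simConj (h : EncOK F L P θ enc) (hpm : SimMulOK pm C0) (q : ℕ) (z : L) :
    (simConj pm).cost () () ((bits F q, P), enc z) ≤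
      (2 * simPwc C0 q P.length + C0 * (P.length + 1) ^ 2 + 48) * P.length + 14 * P.length + 60 := by
  rcases hP : P with _ | ⟨x, t⟩
  · have := h.pos; rw [hP] at this; simp at this
  · rw [← hP]
    have h1 := cost_foldP_le (simInvB pm) () () ((bits F q, P), ((enc z, enc (1 : L)), t))
      (2 * simPwc C0 q P.length + C0 * (P.length + 1) ^ 2 + 21)
      (fun u => ∃ x y : L, u = (enc x, enc y)) ⟨z, 1, rfl⟩
      (by
        rintro _ z ⟨x, y, rfl⟩ hz
        exact ⟨_, _, val_simInvB h hpm q x y z⟩)
      (by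
        rintro _ z ⟨x, y, rfl⟩ hz
        exact cost_simInvB h hpm _ x y z)
    have h2 := val_simOne (s := []) (a := Po) h (bits F q) () (enc z)
    have h3 := cost_simOne (s := []) (a := Po) (bits F q) P () () (enc z)
    have h4 : ∀ (n : ℕ) (f : F → List F → ℕ), lcase P n f = f x t := by
      intro n f; rw [hP]; rfl
    have h5 : (2 * simPwc C0 q P.length + C0 * (P.length + 1) ^ 2 + 21 + 27) * t.length ≤
        (2 * simPwc C0 q P.length + C0 * (P.length + 1) ^ 2 + 48) * P.length :=
      Nat.mul_le_mul_left _ (by rw [hP]; simp)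
    simp only [simConj, cost_onL, cost_comp, cost_pair, cost_fst, cost_snd, val_comp, val_pair,
      val_fst, val_snd, h2] at h1 h3 ⊢
    rw [h4]
    omega

theorem val_simInv [Fintype F] (h : EncOK F L P θ enc) (hpm : SimMulOK pm C0) (q : ℕ)
    (hq : Fintype.card F = q) (z : L) :
    (simInv pm).val () ((bits F q, P), enc z) = enc z⁻¹ := by
  obtain ⟨c, hc⟩ := h.sim_norm z
  rw [hq] at hc
  set r : L := z ^ ∑ j ∈ Finset.range (P.length - 1), q ^ (j + 1) with hr
  have hr' : z * r = algebraMap F L c := by
    rw [hc, hr, ← pow_succ']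
    congr 1
    obtain ⟨n, hn⟩ : ∃ n, P.length = n + 1 := ⟨P.length - 1, by have := h.pos; omega⟩
    rw [hn, Finset.sum_range_succ' (fun i => q ^ i)]
    simp
  have h1 := val_simConj h hpm q z
  have h2 := val_simMul h hpm (bits F q) z r
  rcases hP : P with _ | ⟨x, t⟩
  · have := h.pos; rw [hP] at this; simp at this
  rw [← hP]
  rw [hr', h.sim_alg c hP] at h2
  simp only [simInv, val_lt, val_onL, val_comp, val_pair, val_fst, val_snd, h1]
  rw [h2]
  simp only [lcase_cons, val_inv, val_mapP, val_mul]
  have h3 := h.sim_smul c⁻¹ r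
  refine h3.trans ?_
  congr 1
  by_cases hz : z = 0
  · have hc0 : c = 0 := by
      rw [hz, zero_mul] at hr'
      exact (map_eq_zero (algebraMap F L)).1 hr'.symm
    rw [hz, hc0]; simp
  · have hr0 : r ≠ 0 := pow_ne_zero _ hz
    rw [map_inv₀, ← hr']
    field_simp

theorem cost_simInv [Fintype F] (h : EncOK F L P θ enc) (hpm : SimMulOK pm C0) (q : ℕ)
    (hq : Fintype.card F = q) (z : L) :
    (simInv pm).cost () () ((bits F q, P), enc z) ≤
      (2 * simPwc C0 q P.length + C0 * (P.length + 1) ^ 2 + 48) * P.length +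
        C0 * (P.length + 1) ^ 2 + 28 * P.length + 120 := by
  obtain ⟨c, hc⟩ := h.sim_norm z
  rw [hq] at hc
  obtain ⟨r, hr⟩ : ∃ r : L, r = z ^ ∑ j ∈ Finset.range (P.length - 1), q ^ (j + 1) := ⟨_, rfl⟩
  have hr' : z * r = algebraMap F L c := by
    rw [hc, hr, ← pow_succ']
    congr 1
    obtain ⟨n, hn⟩ : ∃ n, P.length = n + 1 := ⟨P.length - 1, by have := h.pos; omega⟩
    rw [hn, Finset.sum_range_succ' (fun i => q ^ i)]
    simp
  have h1 := val_simConj h hpm q z
  rw [← hr] at h1
  have h2 := val_simMul h hpm (bits F q) z r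
  have h1' := cost_simConj h hpm q z
  have h2' := cost_simMul h hpm (bits F q) z r
  rcases hP : P with _ | ⟨x, t⟩
  · have := h.pos; rw [hP] at this; simp at this
  rw [← hP]
  rw [hr', h.sim_alg c hP] at h2
  have h3 := cost_mapP_le (s := []) (c := .fld) .mul () () (c⁻¹, enc r) 1
    (fun _ _ => by simp)
  have h4 : List.length (enc r) = P.length := h.len r
  simp only [simInv, cost_lt, cost_onL, cost_comp, cost_pair, cost_fst, cost_snd, val_comp,
    val_pair, val_fst, val_snd, h1]
  rw [h2]
  simp only [lcase_cons, cost_inv, val_inv] at h3 ⊢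
  rw [h4] at h3
  omega

end vals

section tst
variable {F L : Type} [Field F] [DecidableEq F] [Field L] [Algebra F L] {P : List F}
    {θ : L} {enc : L → List F} {s : List (Ty × Ty)}

theorem sim_simAllZ_aux (l : List F) (a : F) :
    List.foldl (fun y z => if z = 0 then y else (1 : F)) a l = 0 ↔ a = 0 ∧ ∀ x ∈ l, x = 0 := by
  induction l generalizing a with
  | nil => simp
  | cons x l ih =>
    rw [List.foldl_cons, ih]
    by_cases hx : x = 0
    · simp [hx]
    · simp [hx]

theorem val_simAllZ (v : SV F s) (l : List F) :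
    ((simAllZ : Pr s Po .fld).val v l : F) = 0 ↔ ∀ x ∈ l, x = 0 := by
  have h1 := sim_simAllZ_aux l (0 : F)
  have h2 : ((simAllZ : Pr s Po .fld).val v l : F) =
      List.foldl (fun y z => if z = 0 then y else (1 : F)) 0 l := by
    simp only [simAllZ, val_comp, val_pair, val_foldP, val_zero, val_id]
    rfl
  rw [h2, h1]
  simp

theorem cost_simAllZ (v : SV F s) (k : SC F s) (l : List F) :
    (simAllZ : Pr s Po .fld).cost v k l ≤ 34 * List.length l + 19 := by
  have := cost_foldP_le (s := s) (c := .unit) (b := .fld) (a := .fld)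
    (onZ (.comp .snd .snd) (.comp .snd .fst) .one) v k ((), ((0 : F), l)) 7 (fun _ => True)
    trivial (fun _ _ _ _ => trivial)
    (fun y z _ _ => by
      have := sim_cost_onZ_le (s := s) (g := .prod .unit (.prod .fld .fld)) (b := .fld)
        (.comp .snd .snd) (.comp .snd .fst) .one v k ((), (y, z)) 2
        (by simp) (by simp)
      simp only [cost_comp, cost_snd] at this
      omega)
  simp only [simAllZ, cost_comp, cost_pair, cost_star, cost_zero, cost_id, val_pair, val_star,
    val_zero, val_id] at this ⊢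
  omega

theorem EncOK.sim_all_zero (h : EncOK F L P θ enc) (z : L) :
    (∀ x ∈ enc z, x = 0) ↔ z = 0 := by
  constructor
  · intro h1
    apply h.sim_inj
    have h2 := List.eq_replicate_of_mem h1
    rw [h2, ← h.sim_zero, h.len, List.map_const']
  · rintro rfl x hx
    rw [← h.sim_zero] at hx
    simp only [List.mem_map] at hx
    obtain ⟨_, _, rfl⟩ := hx
    rfl

end tst

/-! ### the translation -/

/-- types of the recursive functions -/
abbrev simTy (p : Ty × Ty) : Ty × Ty := (.prod SimCx (Ty.ext p.1), Ty.ext p.2)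

/-- translation of programs -/
def simTr (pm : Pr [] (.prod (.prod Po Po) Po) Po) : {s : List (Ty × Ty)} → {a b : Ty} → Pr s a b →
    Pr (s.map simTy) (.prod SimCx (Ty.ext a)) (Ty.ext b)
  | _, _, _, .id => .snd
  | _, _, _, .comp p q => .comp (.pair .fst (simTr pm p)) (simTr pm q)
  | _, _, _, .pair p q => .pair (simTr pm p) (simTr pm q)
  | _, _, _, .fst => .comp .snd .fst
  | _, _, _, .snd => .comp .snd .snd
  | _, _, _, .star => .star
  | _, _, _, .nil => .nil
  | _, _, _, .cons => .comp .snd .cons
  | _, _, _, .caseL p q => .comp (.pair (.pair .fst (.comp .snd .fst)) (.comp .snd .snd))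
      (.caseL (simTr pm p) (.comp (.pair (.comp .fst .fst) (.pair (.comp .fst .snd) .snd))
        (simTr pm q)))
  | _, _, _, .zero => simZero
  | _, _, _, .one => simOne
  | _, _, _, .add => zipP (.comp .snd .add)
  | _, _, _, .neg => mapP (.comp .snd .neg)
  | _, _, _, .mul => liftP _ (simMul pm)
  | _, _, _, .inv => liftP _ (simInv pm)
  | _, _, _, .ifz p q => .comp (.pair (.pair .fst (.comp .snd .fst))
      (.comp (.comp .snd .snd) simAllZ)) (.ifz (simTr pm p) (simTr pm q))
  | _, _, _, .self => .self
  | _, _, _, .up p => .up (simTr pm p)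
  | _, _, _, .recD p q => .comp (.pair (.comp .snd .fst) (.pair .fst (.comp .snd .snd)))
      (.recD (simTr pm p) (simTr pm q))

section tr
variable {F L : Type} [Field F] [Fintype F] [DecidableEq F] [Field L] [DecidableEq L]
  [Algebra F L]

/-- related values of the recursive functions -/
def SimRelV (enc : L → List F) (cx : List F × List F) :
    (s : List (Ty × Ty)) → SV L s → SV F (s.map simTy) → Prop
  | [], _, _ => True
  | (σ, τ) :: s, v, v' =>
      (∀ x : Ty.D L σ, v'.1 (cx, Ty.enc enc σ x) = Ty.enc enc τ (v.1 x)) ∧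
        SimRelV enc cx s v.2 v'.2

/-- related costs of the recursive functions -/
def SimRelC (enc : L → List F) (cx : List F × List F) (B : ℕ) :
    (s : List (Ty × Ty)) → SC L s → SC F (s.map simTy) → Prop
  | [], _, _ => True
  | (σ, _) :: s, k, k' =>
      (∀ x : Ty.D L σ, k'.1 (cx, Ty.enc enc σ x) ≤ B * k.1 x) ∧ SimRelC enc cx B s k.2 k'.2

variable {P : List F} {θ : L} {enc : L → List F} {qn : ℕ}
    {pm : Pr [] (.prod (.prod Po Po) Po) Po} {C0 : ℕ}

theorem val_simTr (h : EncOK F L P θ enc) (hpm : SimMulOK pm C0) (hq : Fintype.card F = qn)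
    {s : List (Ty × Ty)} {a b : Ty} (p : Pr s a b) (v : SV L s) (v' : SV F (s.map simTy))
    (hv : SimRelV enc (bits F qn, P) s v v') (x : Ty.D L a) :
    (simTr pm p).val v' ((bits F qn, P), Ty.enc enc a x) = Ty.enc enc b (p.val v x) := by
  induction p with
  | id => rfl
  | comp p q ih1 ih2 =>
    simp only [simTr, val_comp, val_pair, val_fst]
    rw [ih1 v v' hv x, ih2 v v' hv _]
  | pair p q ih1 ih2 =>
    exact congrArg₂ Prod.mk (ih1 v v' hv x) (ih2 v v' hv x)
  | fst => rfl
  | snd => rfl
  | star => rfl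
  | nil => rfl
  | cons => rfl
  | caseL p q ih1 ih2 =>
    obtain ⟨x, l⟩ := x
    simp only [simTr, val_caseL]
    cases l with
    | nil => exact ih1 v v' hv x
    | cons y l => exact ih2 v v' hv (x, (y, l))
  | zero => exact val_simZero h _ _ _
  | one => exact val_simOne h _ _ _
  | add =>
    obtain ⟨x, y⟩ := x
    exact (val_zipP (c := SimCx) (a := .fld) (b := .fld) (d := .fld) (.comp .snd .add) v'
      ((bits F qn, P), (enc x, enc y))).trans (h.sim_add x y)
  | neg =>
    exact (val_mapP (c := SimCx) (a := .fld) (b := .fld) (.comp .snd .neg) v'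
      ((bits F qn, P), enc x)).trans (h.sim_neg x)
  | mul =>
    obtain ⟨x, y⟩ := x
    exact (val_liftP _ (simMul pm) v' ((bits F qn, P), (enc x, enc y))).trans
      (val_simMul h hpm _ x y)
  | inv =>
    exact (val_liftP _ (simInv pm) v' ((bits F qn, P), enc x)).trans
      (val_simInv h hpm _ hq x)
  | ifz p q ih1 ih2 =>
    obtain ⟨x, z⟩ := x
    simp only [simTr, val_ifz]
    have h1 := val_simAllZ v' (enc z)
    rw [h.sim_all_zero z] at h1
    by_cases hz : z = 0
    · rw [if_pos hz]
      refine (if_pos (h1.2 hz)).trans ?_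
      exact ih1 v v' hv x
    · rw [if_neg hz]
      refine (if_neg (fun h2 => hz (h1.1 h2))).trans ?_
      exact ih2 v v' hv x
  | self => exact hv.1 x
  | up p ih => exact ih v.2 v'.2 hv.2 x
  | @recD s σ τ δ p q ih1 ih2 =>
    obtain ⟨d, x⟩ := x
    have key : ∀ (n : ℕ) (x : Ty.D L _),
        goV (simTr pm p) (simTr pm q) v' n ((bits F qn, P), Ty.enc enc _ x) =
          Ty.enc enc _ (goV p q v n x) := by
      intro n
      induction n with
      | zero => exact fun x => ih2 v v' hv x
      | succ n ih =>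
        exact fun x => ih1 (goV p q v n, v) (goV (simTr pm p) (simTr pm q) v' n, v') ⟨ih, hv⟩ x
    have hl : List.length (List.map (Ty.enc enc δ) d) = List.length d := List.length_map _
    have e := val_recD (d := Ty.ext δ) (simTr pm p) (simTr pm q) v'
      (List.map (Ty.enc enc δ) d, ((bits F qn, P), Ty.enc enc σ x))
    refine e.trans ?_
    rw [val_recD]
    simp only [hl]
    exact key _ _

theorem goV_simTr (h : EncOK F L P θ enc) (hpm : SimMulOK pm C0) (hq : Fintype.card F = qn)
    {s : List (Ty × Ty)} {σ τ : Ty} (p : Pr ((σ, τ) :: s) σ τ) (r : Pr s σ τ)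
    (v : SV L s) (v' : SV F (s.map simTy))
    (hv : SimRelV enc (bits F qn, P) s v v') (n : ℕ) (x : Ty.D L σ) :
    goV (simTr pm p) (simTr pm r) v' n ((bits F qn, P), Ty.enc enc σ x) =
      Ty.enc enc τ (goV p r v n x) := by
  induction n generalizing x with
  | zero => exact val_simTr h hpm hq r v v' hv x
  | succ n ih =>
    exact val_simTr h hpm hq p (goV p r v n, v) (goV (simTr pm p) (simTr pm r) v' n, v') ⟨ih, hv⟩ x

theorem cost_simTr (h : EncOK F L P θ enc) (hpm : SimMulOK pm C0) (hq : Fintype.card F = qn)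
    (B : ℕ) (hB1 : 100 * P.length + 100 ≤ B) (hB2 : C0 * (P.length + 1) ^ 2 + 6 ≤ B)
    (hB3 : (2 * simPwc C0 qn P.length + C0 * (P.length + 1) ^ 2 + 48) * P.length +
        C0 * (P.length + 1) ^ 2 + 28 * P.length + 122 ≤ B)
    {s : List (Ty × Ty)} {a b : Ty} (p : Pr s a b) (v : SV L s) (v' : SV F (s.map simTy))
    (hv : SimRelV enc (bits F qn, P) s v v') (k : SC L s) (k' : SC F (s.map simTy))
    (hk : SimRelC enc (bits F qn, P) B s k k') (x : Ty.D L a) :
    (simTr pm p).cost v' k' ((bits F qn, P), Ty.enc enc a x) + 2 ≤ B * p.cost v k x := by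
  induction p with
  | id => simp only [simTr, cost_snd, cost_id]; omega
  | comp p r ih1 ih2 =>
    have h1 := ih1 v v' hv k k' hk x
    have h2 := ih2 v v' hv k k' hk (p.val v x)
    have h3 := val_simTr h hpm hq p v v' hv x
    simp only [simTr, cost_comp, cost_pair, cost_fst, val_pair, val_fst]
    rw [h3, mul_add]
    omega
  | @pair s a b c p r ih1 ih2 =>
    have h1 := ih1 v v' hv k k' hk x
    have h2 := ih2 v v' hv k k' hk x
    have e := cost_pair (simTr pm p) (simTr pm r) v' k' ((bits F qn, P), Ty.enc enc a x)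
    have e2 : B * (Pr.pair p r).cost v k x = B * p.cost v k x + B * r.cost v k x + B := by
      rw [cost_pair]; ring
    rw [e2]
    have e3 : (simTr pm (Pr.pair p r)).cost v' k' ((bits F qn, P), Ty.enc enc a x) =
      (simTr pm p).cost v' k' ((bits F qn, P), Ty.enc enc a x) +
      (simTr pm r).cost v' k' ((bits F qn, P), Ty.enc enc a x) + 1 := e
    omega
  | fst => exact le_trans (show 4 ≤ B by omega) (Nat.le_mul_of_pos_right _ (by simp))
  | snd => exact le_trans (show 4 ≤ B by omega) (Nat.le_mul_of_pos_right _ (by simp))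
  | star => exact le_trans (show 3 ≤ B by omega) (Nat.le_mul_of_pos_right _ (by simp))
  | nil => exact le_trans (show 3 ≤ B by omega) (Nat.le_mul_of_pos_right _ (by simp))
  | cons => exact le_trans (show 4 ≤ B by omega) (Nat.le_mul_of_pos_right _ (by simp))
  | @caseL s a b c p r ih1 ih2 =>
    obtain ⟨x, l⟩ := x
    cases l with
    | nil =>
      have h1 := ih1 v v' hv k k' hk x
      have e2 : B * (Pr.caseL p r).cost v k (x, []) = B * p.cost v k x + B := by
        rw [cost_caseL]; simp only [lcase_nil]; ring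
      have e3 : (simTr pm (Pr.caseL p r)).cost v' k' ((bits F qn, P),
          Ty.enc enc (.prod a (.list b)) (x, [])) =
        ((1 + (1 + 1) + 1) + (1 + 1) + 1) +
          ((simTr pm p).cost v' k' ((bits F qn, P), Ty.enc enc a x) + 1) := rfl
      rw [e2, e3]
      omega
    | cons y l =>
      have h2 := ih2 v v' hv k k' hk (x, (y, l))
      have e2 : B * (Pr.caseL p r).cost v k (x, (y :: l)) = B * r.cost v k (x, (y, l)) + B := by
        rw [cost_caseL]; simp only [lcase_cons]; ring
      have e3 : (simTr pm (Pr.caseL p r)).cost v' k' ((bits F qn, P),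
          Ty.enc enc (.prod a (.list b)) (x, (y :: l))) =
        ((1 + (1 + 1) + 1) + (1 + 1) + 1) +
          (((1 + 1) + ((1 + 1) + 1 + 1) + 1) + (simTr pm r).cost v' k' ((bits F qn, P),
            Ty.enc enc (.prod a (.prod b (.list b))) (x, (y, l))) + 1) := rfl
      rw [e2, e3]
      omega
  | zero =>
    have := cost_simZero (bits F qn) P v' k' (Ty.enc enc _ x)
    refine le_trans ?_ (Nat.le_mul_of_pos_right B (by simp))
    simp only [simTr]
    refine le_trans (Nat.add_le_add_right this 2) ?_
    omega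
  | one =>
    have := cost_simOne (bits F qn) P v' k' (Ty.enc enc _ x)
    refine le_trans ?_ (Nat.le_mul_of_pos_right B (by simp))
    simp only [simTr]
    refine le_trans (Nat.add_le_add_right this 2) ?_
    omega
  | add =>
    obtain ⟨x, y⟩ := x
    have := cost_zipP_le (c := SimCx) (a := .fld) (b := .fld) (d := .fld) (.comp .snd .add) v' k'
      ((bits F qn, P), (enc x, enc y)) 2 (fun _ _ _ _ => by simp)
    have h1 : List.length (enc x) = P.length := h.len x
    simp only [h1] at this
    refine le_trans ?_ (Nat.le_mul_of_pos_right B (by simp))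
    refine le_trans (Nat.add_le_add_right this 2) ?_
    omega
  | neg =>
    have := cost_mapP_le (c := SimCx) (a := .fld) (b := .fld) (.comp .snd .neg) v' k'
      ((bits F qn, P), enc x) 2 (fun _ _ => by simp)
    have h1 : List.length (enc x) = P.length := h.len x
    simp only [h1] at this
    refine le_trans ?_ (Nat.le_mul_of_pos_right B (by simp))
    refine le_trans (Nat.add_le_add_right this 2) ?_
    omega
  | mul =>
    obtain ⟨x, y⟩ := x
    have h1 := cost_simMul h hpm (bits F qn) x y
    have h2 := cost_liftP _ (simMul pm) v' k' ((bits F qn, P), (enc x, enc y))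
    rw [← h2] at h1
    refine le_trans ?_ (Nat.le_mul_of_pos_right B (by simp))
    refine le_trans (Nat.add_le_add_right h1 2) ?_
    omega
  | inv =>
    have h1 := cost_simInv h hpm qn hq x
    have h2 := cost_liftP _ (simInv pm) v' k' ((bits F qn, P), enc x)
    rw [← h2] at h1
    refine le_trans ?_ (Nat.le_mul_of_pos_right B (by simp))
    refine le_trans (Nat.add_le_add_right h1 2) ?_
    omega
  | @ifz s a b p r ih1 ih2 =>
    obtain ⟨x, z⟩ := x
    have h1 := val_simAllZ v' (enc z)
    have h3 := cost_simAllZ v' k' (enc z)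
    rw [h.sim_all_zero z] at h1
    have h4 : List.length (enc z) = P.length := h.len z
    rw [h4] at h3
    have e3 : (simTr pm (Pr.ifz p r)).cost v' k' ((bits F qn, P),
          Ty.enc enc (.prod a .fld) (x, z)) =
        ((1 + (1 + 1) + 1) + ((1 + 1) + (simAllZ : Pr (s.map simTy) Po .fld).cost v' k' (enc z)) + 1) +
          ((if ((simAllZ : Pr (s.map simTy) Po .fld).val v' (enc z) : F) = 0 then
            (simTr pm p).cost v' k' ((bits F qn, P), Ty.enc enc a x) else
            (simTr pm r).cost v' k' ((bits F qn, P), Ty.enc enc a x)) + 1) := rfl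
    rw [e3]
    by_cases hz : z = 0
    · have h5 := ih1 v v' hv k k' hk x
      have e2 : B * (Pr.ifz p r).cost v k (x, z) = B * p.cost v k x + B := by
        rw [cost_ifz, if_pos hz]; ring
      rw [e2, if_pos (h1.2 hz)]
      omega
    · have h5 := ih2 v v' hv k k' hk x
      have e2 : B * (Pr.ifz p r).cost v k (x, z) = B * r.cost v k x + B := by
        rw [cost_ifz, if_neg hz]; ring
      rw [e2, if_neg (fun h2 => hz (h1.1 h2))]
      omega
  | @self s σ τ =>
    have h1 : k'.1 ((bits F qn, P), Ty.enc enc σ x) ≤ B * k.1 x := hk.1 x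
    have e2 : B * (Pr.self : Pr ((σ, τ) :: s) σ τ).cost v k x = B * k.1 x + B := by
      rw [cost_self]; ring
    have e3 : (simTr pm (Pr.self : Pr ((σ, τ) :: s) σ τ)).cost v' k'
        ((bits F qn, P), Ty.enc enc σ x) = k'.1 ((bits F qn, P), Ty.enc enc σ x) + 1 := rfl
    rw [e2, e3]
    omega
  | up p ih => exact ih v.2 v'.2 hv.2 k.2 k'.2 hk.2 x
  | @recD s σ τ δ p r ih1 ih2 =>
    obtain ⟨d, x⟩ := x
    have key : ∀ (n : ℕ) (x : Ty.D L σ),
        goC (simTr pm p) (simTr pm r) v' k' n ((bits F qn, P), Ty.enc enc σ x) + 2 ≤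
          B * (goC p r v k n x) := by
      intro n
      induction n with
      | zero => exact fun x => ih2 v v' hv k k' hk x
      | succ n ih =>
        exact fun x => ih1 (goV p r v n, v) (goV (simTr pm p) (simTr pm r) v' n, v')
          ⟨goV_simTr h hpm hq p r v v' hv n, hv⟩ (goC p r v k n, k)
          (goC (simTr pm p) (simTr pm r) v' k' n, k') ⟨fun x => (Nat.le_add_right _ 2).trans (ih x), hk⟩ x
    have hl : List.length (List.map (Ty.enc enc δ) d) = List.length d := List.length_map _
    have e := cost_recD (d := Ty.ext δ) (simTr pm p) (simTr pm r) v' k'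
      (List.map (Ty.enc enc δ) d, ((bits F qn, P), Ty.enc enc σ x))
    simp only [hl] at e
    have e2 : B * (Pr.recD p r : Pr s (.prod (.list δ) σ) τ).cost v k (d, x) =
        B * goC p r v k (List.length d) x + B := by
      rw [cost_recD]; ring
    have e3 : (simTr pm (Pr.recD p r : Pr s (.prod (.list δ) σ) τ)).cost v' k'
        ((bits F qn, P), Ty.enc enc (.prod (.list δ) σ) (d, x)) =
        ((1 + 1) + (1 + (1 + 1) + 1) + 1) +
        (Pr.recD (simTr pm p) (simTr pm r) : Pr _ (.prod (.list (Ty.ext δ)) _) _).cost v' k'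
          (List.map (Ty.enc enc δ) d, ((bits F qn, P), Ty.enc enc σ x)) := rfl
    rw [e2, e3, e]
    have := key (List.length d) x
    omega

end tr

theorem sim_num (C0 n l : ℕ) (hn : 1 ≤ n) (hl : 1 ≤ l) :
    100 * n + 100 ≤ (24 * C0 + 440) * (n * l) ^ 4 ∧
    C0 * (n + 1) ^ 2 + 6 ≤ (24 * C0 + 440) * (n * l) ^ 4 ∧
    (2 * ((2 * C0 * (n + 1) ^ 2 + 67) * l + 14 * n + 40) + C0 * (n + 1) ^ 2 + 48) * n +
        C0 * (n + 1) ^ 2 + 28 * n + 122 ≤ (24 * C0 + 440) * (n * l) ^ 4 := by
  obtain ⟨N, hN⟩ : ∃ N, N = n * l := ⟨_, rfl⟩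
  have h1 : n ≤ N := by rw [hN]; exact Nat.le_mul_of_pos_right _ (by omega)
  have h2 : l ≤ N := by rw [hN]; exact Nat.le_mul_of_pos_left _ (by omega)
  have h0 : 1 ≤ N := hn.trans h1
  rw [← hN]
  have hp : ∀ i j : ℕ, i ≤ j → N ^ i ≤ N ^ j := fun i j hij => Nat.pow_le_pow_right h0 hij
  have p1 : 1 ≤ N ^ 4 := Nat.one_le_pow _ _ h0
  have p2 : N ≤ N ^ 4 := by simpa using hp 1 4 (by norm_num)
  have p3 : N ^ 2 ≤ N ^ 4 := hp 2 4 (by norm_num)
  have p4 : N ^ 3 ≤ N ^ 4 := hp 3 4 (by norm_num)
  have p5 : (n + 1) ^ 2 ≤ 4 * N ^ 2 := by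
    calc (n + 1) ^ 2 ≤ (2 * N) ^ 2 := Nat.pow_le_pow_left (by omega) 2
      _ = 4 * N ^ 2 := by ring
  have p6 : C0 * (n + 1) ^ 2 ≤ 4 * C0 * N ^ 2 := by
    calc C0 * (n + 1) ^ 2 ≤ C0 * (4 * N ^ 2) := Nat.mul_le_mul_left _ p5
      _ = _ := by ring
  have p7 : C0 * N ^ 2 ≤ C0 * N ^ 4 := Nat.mul_le_mul_left _ p3
  have p8 : C0 * N ^ 3 ≤ C0 * N ^ 4 := Nat.mul_le_mul_left _ p4
  refine ⟨by nlinarith, by nlinarith, ?_⟩
  have p9 : (2 * C0 * (n + 1) ^ 2 + 67) * l + 14 * n + 40 ≤ (8 * C0 + 121) * N ^ 3 := by
    have q1 : (2 * C0 * (n + 1) ^ 2 + 67) * l ≤ (8 * C0 * N ^ 2 + 67) * N := by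
      apply Nat.mul_le_mul _ h2
      nlinarith
    have q2 : N ≤ N ^ 3 := by simpa using hp 1 3 (by norm_num)
    have q3 : 1 ≤ N ^ 3 := Nat.one_le_pow _ _ h0
    nlinarith
  have p10 : (2 * ((2 * C0 * (n + 1) ^ 2 + 67) * l + 14 * n + 40) + C0 * (n + 1) ^ 2 + 48) * n ≤
      (2 * ((8 * C0 + 121) * N ^ 3) + 4 * C0 * N ^ 2 + 48) * N := by
    apply Nat.mul_le_mul _ h1
    omega
  have p11 : (2 * ((8 * C0 + 121) * N ^ 3) + 4 * C0 * N ^ 2 + 48) * N =
      (16 * C0 + 242) * N ^ 4 + 4 * (C0 * N ^ 3) + 48 * N := by ring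
  have p12 : (24 * C0 + 440) * N ^ 4 = 24 * (C0 * N ^ 4) + 440 * N ^ 4 := by ring
  have p13 : (16 * C0 + 242) * N ^ 4 = 16 * (C0 * N ^ 4) + 242 * N ^ 4 := by ring
  have p14 : 4 * C0 * N ^ 2 = 4 * (C0 * N ^ 2) := by ring
  rw [p11, p13] at p10
  rw [p12]
  rw [p14] at p6
  omega

/- SIMULATION. Translate programs: recursive types (σ, τ) become (.prod SimCx σ.ext, τ.ext), SimCx = .prod Po Po (context: bits of q, modulus P). A program p : Pr s a b becomes p' : Pr (s.map ..) (.prod SimCx a.ext) b.ext:
 id -> snd; comp p q -> comp (pair fst p') q'; pair p q -> pair p' q'; fst -> comp snd fst; caseL, recD rearrange the context; self -> self, up p -> up p'; zero -> list of P.length zeros (mapP over P),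
 one -> 1 :: zeros, add -> zipP add, neg -> mapP neg, mul -> program of SpecNaive, inv z -> r = product of z^(q^i), 0 < i < P.length (powers by repeated squaring with the bits of q, schoolbook products mod P),
 N = constant coefficient of z*r (the norm, an element of F), result r scaled by N⁻¹ (z = 0: N = 0, 0⁻¹ = 0, fine); L has q^(P.length) elements by EncOK, z^(q^P.length) = z, z * r is fixed by Frobenius hence in F and
 enc of it is (N, 0, ..., 0); ifz: test whether all entries of enc z are zero (fold with onZ giving a flag).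
 Cost: cost' <= C U cost - 2 by induction, with one absolute constant C (U = (P.length * lgc q)^k, every elementary step costs at least 1, contexts: cost of recursive calls k' <= C U k); the slack 2 pays for the extra
 pairing in comp. Values: p'.val v' (cx, enc x) = enc (p.val v x) for related contexts v' (v'.1 (cx, enc x) = enc (v.1 x)). The list d in recD keeps its length. -/
theorem specSim (h : SpecNaive) : SpecSim := by
  obtain ⟨pm, C0, hpm⟩ := h
  intro a b p
  refine ⟨simTr pm p, 24 * C0 + 440, 4, ?_⟩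
  intro F L _ _ _ _ _ _ q P θ enc hq hE x
  refine ⟨val_simTr hE hpm hq p () () trivial x, ?_⟩
  obtain ⟨n1, n2, n3⟩ := sim_num C0 P.length (lgc q) hE.pos (by simp [lgc])
  have := cost_simTr hE hpm hq ((24 * C0 + 440) * (P.length * lgc q) ^ 4) n1 n2 n3 p () () trivial
    () () trivial x
  rw [mul_add, mul_one]
  omega
end Pool.Agent.H330FB

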