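import Pool.Agent.H330FB.Lib5
import Pool.Agent.H330FB.Spec4
set_option autoImplicit false
noncomputable section
namespace Pool.Agent.H330FB.JE3
open Polynomial

lemma irrc_coeff_pol {R : Type} [CommRing R] (l : List R) (i : ℕ) :
    (pol l).coeff i = l.getD i 0 := by
  induction l generalizing i with
  | nil => simp [pol]
  | cons x l ih =>
    rcases i with _ | i
    · simp [pol]
    · simp [pol, ih, coeff_C_succ]

lemma irrc_exists {R : Type} [CommRing R] (f : R[X]) (n : ℕ) (hm : f.Monic)
    (hn : f.natDegree = n) : ∃ l : List R, l.length = n ∧ mpol l = f := by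
  refine ⟨List.ofFn (fun i : Fin n => f.coeff i), List.length_ofFn, ?_⟩
  ext i
  unfold mpol
  rw [coeff_add, irrc_coeff_pol, List.length_ofFn, coeff_X_pow]
  by_cases hi : i < n
  · rw [if_neg (by omega), zero_add, List.getD_eq_getElem _ _ (by simpa using hi)]
    simp
  · rw [List.getD_eq_default _ _ (by simpa using hi), add_zero]
    by_cases hi2 : i = n
    · rw [if_pos hi2, hi2, ← hn]
      exact hm.symm
    · rw [if_neg hi2, coeff_eq_zero_of_natDegree_lt (by omega)]

theorem stmtIrrCount : StmtIrrCount := by
  classical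
  intro F _ _ j hj
  obtain ⟨p, hp⟩ := CharP.exists F
  haveI : Fact p.Prime := ⟨CharP.char_is_prime F p⟩
  set q := Fintype.card F with hq
  have hq2 : 2 ≤ q := Fintype.one_lt_card
  set E := 2 ^ j with hE
  haveI : NeZero E := ⟨by positivity⟩
  let L := FiniteField.Extension F p E
  haveI : Fintype L := Fintype.ofFinite L
  have hL : Fintype.card L = q ^ E := by
    have := FiniteField.natCard_extension F p E
    rw [Nat.card_eq_fintype_card, Nat.card_eq_fintype_card] at this
    exact this
  have hfr : Module.finrank F L = E := FiniteField.finrank_extension F p E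
  have hE2 : E = E / 2 + E / 2 := by
    obtain ⟨i, rfl⟩ : ∃ i, j = i + 1 := ⟨j - 1, by omega⟩
    rw [hE, pow_succ]
    omega
  have hEpos : 1 ≤ E / 2 := by
    have : 0 < E := by positivity
    omega
  -- degree
  have hdeg : ∀ z : L, z ^ (q ^ (E / 2)) ≠ z → (minpoly F z).natDegree = E := by
    intro z hz
    have hd : (minpoly F z).natDegree ∣ E := by
      have h1 : Module.finrank F (IntermediateField.adjoin F {z}) = (minpoly F z).natDegree :=
        IntermediateField.adjoin.finrank (Algebra.IsIntegral.isIntegral z)
      have h2 := Module.finrank_mul_finrank F (IntermediateField.adjoin F {z}) L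
      rw [h1, hfr] at h2
      exact ⟨_, h2.symm⟩
    by_contra hne
    apply hz
    have hd2 : (minpoly F z).natDegree ∣ E / 2 := by
      obtain ⟨i, hi, hi2⟩ := (Nat.dvd_prime_pow Nat.prime_two).1 hd
      rw [hi2]
      have hij : i < j := by
        rcases lt_or_eq_of_le hi with h | h
        · exact h
        · exact absurd (by rw [hi2, h]) hne
      have : E / 2 = 2 ^ (j - 1) := by
        obtain ⟨s, rfl⟩ : ∃ s, j = s + 1 := ⟨j - 1, by omega⟩
        rw [hE, pow_succ]
        simp
      rw [this]
      exact pow_dvd_pow 2 (by omega)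
    obtain ⟨t, ht⟩ := hd2
    let K := IntermediateField.adjoin F {z}
    haveI : Fintype K := Fintype.ofFinite K
    have hK : Fintype.card K = q ^ (minpoly F z).natDegree := by
      have h1 : Module.finrank F K = (minpoly F z).natDegree :=
        IntermediateField.adjoin.finrank (Algebra.IsIntegral.isIntegral z)
      rw [← h1]
      have := Module.card_eq_pow_finrank (K := F) (V := K)
      exact this
    have h2 : (⟨z, IntermediateField.mem_adjoin_simple_self F z⟩ : K) ^ (Fintype.card K) ^ t =
        ⟨z, IntermediateField.mem_adjoin_simple_self F z⟩ := FiniteField.pow_card_pow t _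
    have h3 := congrArg (fun y : K => (y : L)) h2
    rw [hK, ← pow_mul, ← ht] at h3
    exact h3
  -- the elements of the subfield
  have hbad : (Finset.univ.filter (fun z : L => z ^ (q ^ (E / 2)) = z)).card ≤ q ^ (E / 2) := by
    have h1 : 1 < q ^ (E / 2) := Nat.one_lt_pow (by omega) (by omega)
    have hne : (X ^ (q ^ (E / 2)) - X : L[X]) ≠ 0 := FiniteField.X_pow_card_sub_X_ne_zero L h1
    have hsub : (Finset.univ.filter (fun z : L => z ^ (q ^ (E / 2)) = z)) ⊆
        (X ^ (q ^ (E / 2)) - X : L[X]).roots.toFinset := by
      intro z hz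
      rw [Finset.mem_filter] at hz
      rw [Multiset.mem_toFinset, mem_roots hne, IsRoot.def, eval_sub, eval_pow, eval_X, hz.2,
        sub_self]
    calc _ ≤ _ := Finset.card_le_card hsub
      _ ≤ _ := Multiset.toFinset_card_le _
      _ ≤ _ := card_roots' _
      _ = _ := FiniteField.X_pow_card_sub_X_natDegree_eq L h1
  -- the target
  haveI hfin : Finite {l : List F // l.length = 2 ^ j ∧ Irreducible (mpol l)} := by
    have h1 : {l : List F | l.length = 2 ^ j}.Finite := List.finite_length_eq F (2 ^ j)
    have h2 : {l : List F | l.length = 2 ^ j ∧ Irreducible (mpol l)}.Finite :=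
      h1.subset (fun l hl => hl.1)
    exact h2.to_subtype
  haveI : Fintype {l : List F // l.length = 2 ^ j ∧ Irreducible (mpol l)} := Fintype.ofFinite _
  have hex : ∀ z : L, z ^ (q ^ (E / 2)) ≠ z →
      ∃ l : {l : List F // l.length = 2 ^ j ∧ Irreducible (mpol l)},
        mpol (l : List F) = minpoly F z := by
    intro z hz
    have hint : IsIntegral F z := Algebra.IsIntegral.isIntegral z
    obtain ⟨l, hl1, hl2⟩ := irrc_exists (minpoly F z) E (minpoly.monic hint) (hdeg z hz)
    refine ⟨⟨l, hl1, ?_⟩, hl2⟩
    rw [hl2]
    exact minpoly.irreducible hint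
  let g : L → {l : List F // l.length = 2 ^ j ∧ Irreducible (mpol l)} → Prop := fun z l =>
    mpol (l : List F) = minpoly F z
  have hgood : (Finset.univ.filter (fun z : L => ¬ z ^ (q ^ (E / 2)) = z)).card ≤
      Fintype.card {l : List F // l.length = 2 ^ j ∧ Irreducible (mpol l)} * E := by
    have hsub : (Finset.univ.filter (fun z : L => ¬ z ^ (q ^ (E / 2)) = z)) ⊆
        (Finset.univ : Finset {l : List F // l.length = 2 ^ j ∧ Irreducible (mpol l)}).biUnion
          (fun l => ((mpol (l : List F)).aroots L).toFinset) := by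
      intro z hz
      rw [Finset.mem_filter] at hz
      obtain ⟨l, hl⟩ := hex z hz.2
      rw [Finset.mem_biUnion]
      refine ⟨l, Finset.mem_univ _, ?_⟩
      rw [Multiset.mem_toFinset, mem_aroots]
      refine ⟨l.2.2.ne_zero, ?_⟩
      rw [hl]
      exact minpoly.aeval F z
    refine (Finset.card_le_card hsub).trans ?_
    refine (Finset.card_biUnion_le_card_mul _ _ E ?_).trans (le_of_eq ?_)
    · intro l _
      refine (Multiset.toFinset_card_le _).trans ?_
      refine (card_roots' _).trans ?_
      refine natDegree_map_le.trans ?_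
      unfold mpol
      refine (natDegree_add_le _ _).trans ?_
      rw [natDegree_X_pow, l.2.1]
      refine max_le le_rfl ?_
      rw [natDegree_le_iff_coeff_eq_zero]
      intro i hi
      rw [irrc_coeff_pol, List.getD_eq_default]
      rw [l.2.1]
      exact hi.le
    · rw [Finset.card_univ]
  have htot : q ^ E ≤ q ^ (E / 2) +
      Fintype.card {l : List F // l.length = 2 ^ j ∧ Irreducible (mpol l)} * E := by
    rw [← hL, ← Finset.card_univ,
      ← Finset.card_filter_add_card_filter_not (s := (Finset.univ : Finset L))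
        (fun z : L => z ^ (q ^ (E / 2)) = z)]
    exact Nat.add_le_add hbad hgood
  have hsq : q ^ E = q ^ (E / 2) * q ^ (E / 2) := by
    rw [← pow_add, ← hE2]
  have h2q : 2 ≤ q ^ (E / 2) := hq2.trans (Nat.le_self_pow (by omega) q)
  rw [Nat.card_eq_fintype_card]
  have h5 : 2 * q ^ (E / 2) ≤ q ^ E := by
    rw [hsq]
    exact Nat.mul_le_mul_right _ h2q
  nlinarith [htot, h5]
end Pool.Agent.H330FB.JE3
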