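import Pool.Agent.H330FB.Lib5
import Pool.Agent.H330FB.Spec4
set_option autoImplicit false
noncomputable section
namespace Pool.Agent.H330FB.JE4
open Polynomial

/-! ### E4: polynomials given by lists -/

theorem E4_coeff_pol {R : Type} [CommRing R] (l : List R) (i : ℕ) :
    (pol l).coeff i = l.getD i 0 := by
  induction l generalizing i with
  | nil => simp [pol]
  | cons x l ih =>
    cases i with
    | zero => simp [pol]
    | succ i => simp [pol, coeff_C_succ, ih]

theorem E4_degree_pol {R : Type} [CommRing R] (l : List R) : (pol l).degree < l.length := by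
  rw [degree_lt_iff_coeff_zero]
  intro m hm
  rw [E4_coeff_pol, List.getD_eq_default _ _ hm]

theorem E4_pol_inj {R : Type} [CommRing R] {a b : List R} (h : a.length = b.length)
    (hp : pol a = pol b) : a = b := by
  apply List.ext_getElem h
  intro i h1 h2
  have h3 : a.getD i 0 = b.getD i 0 := by rw [← E4_coeff_pol, ← E4_coeff_pol, hp]
  rwa [List.getD_eq_getElem _ _ h1, List.getD_eq_getElem _ _ h2] at h3

section alg
variable {F : Type} [Field F]

theorem E4_monic (P : List F) : (mpol P).Monic := monic_X_pow_add (E4_degree_pol P)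

theorem E4_natDegree (P : List F) : (mpol P).natDegree = P.length := by
  have h : (mpol P).degree = P.length := by
    unfold mpol
    rw [degree_add_eq_left_of_degree_lt]
    · rw [degree_X_pow]
    · rw [degree_X_pow]
      exact E4_degree_pol P
  exact natDegree_eq_of_degree_eq_some h

theorem E4_eq_of_dvd {P a b : List F} (ha : a.length = P.length) (hb : b.length = P.length)
    (h : mpol P ∣ pol a - pol b) : a = b := by
  apply E4_pol_inj (ha.trans hb.symm)
  rw [← sub_eq_zero]
  apply eq_zero_of_dvd_of_degree_lt h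
  have hd : (mpol P).degree = P.length := by
    rw [degree_eq_natDegree (E4_monic P).ne_zero, E4_natDegree]
  rw [hd]
  refine lt_of_le_of_lt (degree_sub_le _ _) (max_lt ?_ ?_)
  · rw [← ha]; exact E4_degree_pol a
  · rw [← hb]; exact E4_degree_pol b

theorem E4_pol_zeros (n : ℕ) : pol (List.replicate n (0 : F)) = 0 := by
  induction n with
  | zero => rfl
  | succ n ih => simp [List.replicate_succ, pol, ih]

/-- the test of irreducibility, algebraic form -/
theorem E4_irr_iff [Fintype F] (q j : ℕ) (hq : Fintype.card F = q) (hj : 1 ≤ j) (M : F[X])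
    (hM : M.Monic) (hd : M.natDegree = 2 ^ j) :
    Irreducible M ↔ (M ∣ X ^ (q ^ (2 ^ j)) - X ∧
      IsCoprime (X ^ (q ^ (2 ^ (j - 1))) - X) M) := by
  have hq' : Nat.card F = q := by rw [Nat.card_eq_fintype_card, hq]
  constructor
  · intro hi
    have h1 : M ∣ X ^ (q ^ (2 ^ j)) - X := by
      rw [← hq']
      exact (hi.natDegree_dvd_iff_dvd_X_pow_card_pow_sub_X).1 (by rw [hd])
    refine ⟨h1, ?_⟩
    rw [isCoprime_comm]
    rcases EuclideanDomain.dvd_or_coprime M (X ^ (q ^ (2 ^ (j - 1))) - X) hi with h2 | h2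
    · exfalso
      rw [← hq'] at h2
      have h3 := (hi.natDegree_dvd_iff_dvd_X_pow_card_pow_sub_X).2 h2
      rw [hd] at h3
      have h4 := (Nat.pow_dvd_pow_iff_le_right (by norm_num : 1 < 2)).1 h3
      omega
    · exact h2
  · rintro ⟨h1, h2⟩
    have hdpos : 0 < M.natDegree := by rw [hd]; positivity
    have hnu : ¬ IsUnit M := fun hu => by
      have := natDegree_eq_zero_of_isUnit hu
      omega
    obtain ⟨g, hg, hgM⟩ := WfDvdMonoid.exists_irreducible_factor hnu hM.ne_zero
    have h3 : g.natDegree ∣ 2 ^ j := by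
      apply (hg.natDegree_dvd_iff_dvd_X_pow_card_pow_sub_X).2
      rw [hq']
      exact hgM.trans h1
    obtain ⟨i, hi, hgi⟩ := (Nat.dvd_prime_pow Nat.prime_two).1 h3
    rcases hi.lt_or_eq with hlt | heq
    · exfalso
      have h4 : g ∣ X ^ (q ^ (2 ^ (j - 1))) - X := by
        rw [← hq']
        apply (hg.natDegree_dvd_iff_dvd_X_pow_card_pow_sub_X).1
        rw [hgi]
        exact pow_dvd_pow 2 (by omega)
      exact hg.not_isUnit (h2.isUnit_of_dvd' h4 hgM)
    · have h5 : M.natDegree ≤ g.natDegree := by rw [hd, hgi, heq]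
      exact (associated_of_dvd_of_natDegree_le hgM hM.ne_zero h5).irreducible hg

end alg


/-! ### E4: programs -/

/-- a list of zeros -/
def E4zeros : Pr [] Po Po := .comp (.pair .star .id) (mapP (c := .unit) .zero)

/-- the list of one -/
def E4one : Pr [] Po Po :=
  onL .id .nil (.comp (.pair .one (.comp (.comp .snd .snd) E4zeros)) .cons)

/-- the list of the variable -/
def E4x : Pr [] Po Po :=
  onL .id .nil (onL (.comp .snd .snd) .nil
    (.comp (.pair .zero (.comp (.pair .one (.comp (.comp .snd .snd) E4zeros)) .cons)) .cons))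

/-- one step of the repeated squaring; input `((y, P), (acc, bit))` -/
def E4step (pN : Pr [] (.prod (.prod Po Po) Po) Po) :
    Pr [] (.prod (.prod Po Po) (.prod Po .fld)) Po :=
  lt (.comp (.pair (.pair (.comp .snd .fst) (.comp .snd .fst)) (.comp .fst .snd)) pN)
    (onZ (.comp .fst (.comp .snd .snd)) .snd
      (.comp (.pair (.pair .snd (.comp .fst (.comp .fst .fst)))
        (.comp .fst (.comp .fst .snd))) pN))

/-- powers; input `((y, P), bits)` -/
def E4pow (pN : Pr [] (.prod (.prod Po Po) Po) Po) : Pr [] (.prod (.prod Po Po) Po) Po :=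
  .comp (.pair .fst (.pair (.comp (.comp .fst .snd) E4one) (.comp .snd revP)))
    (foldP (E4step pN))

/-- iterated powers; input `((bits, P), (start, list))` -/
def E4iter (pN : Pr [] (.prod (.prod Po Po) Po) Po) :
    Pr [] (.prod (.prod Po Po) (.prod Po Po)) Po :=
  foldP (.comp (.pair (.pair (.comp .snd .fst) (.comp .fst .snd)) (.comp .fst .fst)) (E4pow pN))

/-- difference -/
def E4sub : Pr [] (.prod Po Po) Po :=
  .comp (.pair .star .id)
    (zipP (c := .unit) (.comp (.pair (.comp .snd .fst) (.comp (.comp .snd .snd) .neg)) .add))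

/-- are all elements zero? -/
def E4allz : Pr [] Po Un :=
  .comp (.pair .star (.pair (.comp (.pair .star .nil) .cons) .id))
    (foldP (c := .unit) (onZ (.comp .snd .snd) (.comp .snd .fst) .nil))

/-- the program -/
def E4main (pN : Pr [] (.prod (.prod Po Po) Po) Po) (pI : Pr [] (.prod Po Po) Po) :
    Pr [] (.prod Po Po) Un :=
  lt (.comp (.pair .id (.pair (.comp .snd E4x) .snd)) (E4iter pN))
    (lt (.comp (.pair .fst (.pair (.comp (.comp .fst .snd) E4x)
        (.comp (.comp (.comp .fst .snd) eoP) .fst))) (E4iter pN))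
      (lt (.comp (.pair .snd (.comp (.comp (.comp .fst .fst) .snd) E4x)) E4sub)
        (lt (.comp (.pair (.pair
            (.comp (.pair .snd (.comp (.comp (.comp .fst .fst) .fst) .snd)) pI) .snd)
              (.comp (.comp (.comp .fst .fst) .fst) .snd)) pN)
          (.comp (.comp (.pair
            (.comp (.pair (.comp (.comp (.comp .fst .fst) .fst) .snd)
              (.comp (.comp (.comp (.comp (.comp .fst .fst) .fst) .fst) .snd) E4x)) E4sub)
            (.comp (.pair .snd
              (.comp (.comp (.comp (.comp (.comp .fst .fst) .fst) .fst) .snd) E4one)) E4sub))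
            appP) E4allz))))

section sem
variable {F : Type} [Field F] [DecidableEq F]

theorem E4_val_zeros (x : List F) : (E4zeros.val () x : List F) = List.replicate x.length 0 := by
  simp [E4zeros]

theorem E4_cost_zeros (x : List F) : E4zeros.cost () () x ≤ 14 * x.length + 8 := by
  have h := cost_mapP_le (s := []) (c := .unit) (a := .fld) (b := .fld) .zero () () ((), x) 1
    (fun _ _ => by simp)
  simp [E4zeros] at h ⊢
  omega

theorem E4_val_one (h : F) (t : List F) :
    (E4one.val () (h :: t) : List F) = 1 :: List.replicate t.length 0 := by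
  simp [E4one, E4_val_zeros]

theorem E4_cost_one (x : List F) : E4one.cost () () x ≤ 14 * x.length + 30 := by
  rcases x with _ | ⟨h, t⟩
  · simp [E4one]
  · have := E4_cost_zeros t
    simp [E4one] at this ⊢
    omega

theorem E4_val_x (h h' : F) (t : List F) :
    (E4x.val () (h :: h' :: t) : List F) = 0 :: 1 :: List.replicate t.length 0 := by
  simp [E4x, E4_val_zeros]

theorem E4_cost_x (x : List F) : E4x.cost () () x ≤ 14 * x.length + 50 := by
  rcases x with _ | ⟨h, _ | ⟨h', t⟩⟩
  · simp [E4x]
  · simp [E4x]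
  · have := E4_cost_zeros t
    simp [E4x] at this ⊢
    omega

theorem E4_val_sub (x y : List F) :
    (E4sub.val () (x, y) : List F) = List.zipWith (fun a b => a - b) x y := by
  simp [E4sub, sub_eq_add_neg]

theorem E4_cost_sub (x y : List F) : E4sub.cost () () (x, y) ≤ 70 * x.length + 30 := by
  have h := cost_zipP_le (s := []) (c := .unit) (a := .fld) (b := .fld) (d := .fld)
    (.comp (.pair (.comp .snd .fst) (.comp (.comp .snd .snd) .neg)) .add) () () ((), (x, y)) 7
    (fun _ _ _ _ => by simp)
  simp [E4sub] at h ⊢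
  omega

theorem E4_val_allz (x : List F) : (E4allz.val () x : List Unit) =
    if ∀ z ∈ x, z = 0 then un 1 else un 0 := by
  have key : ∀ (x : List F) (fl : List Unit), List.foldl (fun fl z => if z = 0 then fl else [])
      fl x = if ∀ z ∈ x, z = 0 then fl else [] := by
    intro x
    induction x with
    | nil => intro fl; simp
    | cons h t ih =>
      intro fl
      rw [List.foldl_cons, ih]
      by_cases hh : h = 0
      · simp [hh]
      · simp [hh]
  simp [E4allz, key, un]

theorem E4_cost_allz (x : List F) : E4allz.cost () () x ≤ 50 * x.length + 40 := by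
  have h := cost_foldP_le (s := []) (c := .unit) (b := Un) (a := .fld)
    (onZ (.comp .snd .snd) (.comp .snd .fst) .nil) () () ((), ([()], x)) 8 (fun _ => True) trivial
    (fun _ _ _ _ => trivial) (fun y z _ _ => by
      by_cases hz : z = 0
      · simp [hz]
      · simp [hz])
  simp [E4allz] at h ⊢
  omega


/-- the value of a list of bits -/
def E4num (bs : List Bool) : ℕ := Nat.ofDigits 2 (bs.map (fun b => cond b 1 0))

theorem E4num_bits (n : ℕ) : E4num (Nat.bits n) = n := by
  unfold E4num
  rw [← Nat.digits_two_eq_bits, Nat.ofDigits_digits]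

variable {pN : Pr [] (.prod (.prod Po Po) Po) Po} {CN : ℕ} {P : List F}
  (hN : ∀ a b : List F, a.length = P.length → b.length = P.length →
    List.length (pN.val () ((a, b), P) : List F) = P.length ∧
    AdjoinRoot.mk (mpol P) (pol (pN.val () ((a, b), P) : List F)) =
      AdjoinRoot.mk (mpol P) (pol a) * AdjoinRoot.mk (mpol P) (pol b) ∧
    pN.cost () () ((a, b), P) ≤ CN * (P.length + 1) ^ 2)

include hN

theorem E4_step (y acc : List F) (b : F) (hy : y.length = P.length)
    (ha : acc.length = P.length) :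
    List.length ((E4step pN).val () ((y, P), (acc, b)) : List F) = P.length ∧
    AdjoinRoot.mk (mpol P) (pol ((E4step pN).val () ((y, P), (acc, b)) : List F)) =
      AdjoinRoot.mk (mpol P) (pol acc) ^ 2 *
        (if b = 0 then 1 else AdjoinRoot.mk (mpol P) (pol y)) ∧
    (E4step pN).cost () () ((y, P), (acc, b)) ≤ 2 * (CN * (P.length + 1) ^ 2) + 50 := by
  obtain ⟨h1, h2, h3⟩ := hN acc acc ha ha
  obtain ⟨h4, h5, h6⟩ := hN (pN.val () ((acc, acc), P)) y h1 hy
  by_cases hb : b = 0
  · subst hb
    simp [E4step] at h1 h2 h3 ⊢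
    refine ⟨h1, ?_, ?_⟩
    · rw [h2]; ring
    · omega
  · simp [E4step, hb] at h1 h2 h3 h4 h5 h6 ⊢
    refine ⟨h4, ?_, ?_⟩
    · rw [h5, h2]; ring
    · omega

theorem E4_pow (y : List F) (hP : 1 ≤ P.length) (hy : y.length = P.length) (bs : List Bool) :
    List.length ((E4pow pN).val () ((y, P), bs.map (fun b => if b then (1 : F) else 0)) : List F)
      = P.length ∧
    AdjoinRoot.mk (mpol P)
      (pol ((E4pow pN).val () ((y, P), bs.map (fun b => if b then (1 : F) else 0)) : List F)) =
      AdjoinRoot.mk (mpol P) (pol y) ^ E4num bs ∧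
    (E4pow pN).cost () () ((y, P), bs.map (fun b => if b then (1 : F) else 0)) ≤
      (2 * (CN * (P.length + 1) ^ 2) + 110) * (bs.length + 1) + 14 * P.length := by
  obtain ⟨p0, P', rfl⟩ : ∃ p0 P', P = p0 :: P' := by
    rcases P with _ | ⟨p0, P'⟩
    · simp at hP
    · exact ⟨p0, P', rfl⟩
  set P := p0 :: P' with hPdef
  have hone : (E4one.val () P : List F) = 1 :: List.replicate P'.length 0 := E4_val_one p0 P'
  have hval : ((E4pow pN).val () ((y, P), bs.map (fun b => if b then (1 : F) else 0)) : List F) =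
      List.foldr (fun z acc => (E4step pN).val () ((y, P), (acc, z))) (E4one.val () P)
        (bs.map (fun b => if b then (1 : F) else 0)) := by
    simp [E4pow, List.foldl_reverse]
  have key : ∀ bs : List Bool, List.length (List.foldr (fun z acc => (E4step pN).val () ((y, P),
        (acc, z))) (E4one.val () P) (bs.map (fun b => if b then (1 : F) else 0)) : List F)
        = P.length ∧
      AdjoinRoot.mk (mpol P) (pol (List.foldr (fun z acc => (E4step pN).val () ((y, P),
        (acc, z))) (E4one.val () P) (bs.map (fun b => if b then (1 : F) else 0)) : List F)) =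
      AdjoinRoot.mk (mpol P) (pol y) ^ E4num bs := by
    intro bs
    induction bs with
    | nil =>
      simp only [List.map_nil, List.foldr_nil]
      rw [hone]
      refine ⟨by simp [hPdef], ?_⟩
      simp [pol, E4_pol_zeros, E4num]
    | cons b bs ih =>
      obtain ⟨i1, i2⟩ := ih
      obtain ⟨j1, j2, _⟩ := E4_step hN y _ (if b then (1 : F) else 0) hy i1
      simp only [List.map_cons, List.foldr_cons]
      refine ⟨j1, ?_⟩
      rw [j2, i2]
      have hnum : E4num (b :: bs) = cond b 1 0 + 2 * E4num bs := by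
        simp [E4num, Nat.ofDigits_cons]
      rw [hnum]
      cases b
      · simp
        ring
      · simp
        ring
  rw [hval]
  refine ⟨(key bs).1, (key bs).2, ?_⟩
  have hc := cost_foldP_le (s := []) (c := .prod Po Po) (b := Po) (a := .fld) (E4step pN) () ()
    ((y, P), (E4one.val () P, (bs.map (fun b => if b then (1 : F) else 0)).reverse))
    (2 * (CN * (P.length + 1) ^ 2) + 50) (fun acc => List.length acc = P.length)
    (by show List.length (E4one.val () P : List F) = P.length
        rw [hone]; simp [hPdef])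
    (fun acc z ha _ => (E4_step hN y acc z hy ha).1)
    (fun acc z ha _ => (E4_step hN y acc z hy ha).2.2)
  have hr := cost_revP (s := []) (F := F) (a := .fld) () () (bs.map (fun b => if b then (1 : F) else 0))
  have ho := E4_cost_one P
  simp only [E4pow, cost_comp, cost_pair, val_comp, val_pair, cost_fst, cost_snd, val_fst,
    val_snd, val_revP, List.length_reverse, List.length_map] at hc hr ⊢
  nlinarith

theorem E4_iter (q : ℕ) (hP : 1 ≤ P.length) (x : List F) (hx : x.length = P.length)
    (l : List F) :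
    List.length ((E4iter pN).val () ((bits F q, P), (x, l)) : List F) = P.length ∧
    AdjoinRoot.mk (mpol P) (pol ((E4iter pN).val () ((bits F q, P), (x, l)) : List F)) =
      AdjoinRoot.mk (mpol P) (pol x) ^ (q ^ l.length) ∧
    (E4iter pN).cost () () ((bits F q, P), (x, l)) ≤
      ((2 * (CN * (P.length + 1) ^ 2) + 110) * ((Nat.bits q).length + 1) + 14 * P.length + 50) *
        l.length + 14 := by
  have hstep : ∀ acc : List F, acc.length = P.length → ∀ z : F,
      List.length ((.comp (.pair (.pair (.comp .snd .fst) (.comp .fst .snd)) (.comp .fst .fst))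
        (E4pow pN) : Pr [] (.prod (.prod Po Po) (.prod Po .fld)) Po).val ()
        ((bits F q, P), (acc, z)) : List F) = P.length ∧
      AdjoinRoot.mk (mpol P) (pol ((.comp (.pair (.pair (.comp .snd .fst) (.comp .fst .snd))
        (.comp .fst .fst)) (E4pow pN) : Pr [] (.prod (.prod Po Po) (.prod Po .fld)) Po).val ()
        ((bits F q, P), (acc, z)) : List F)) = AdjoinRoot.mk (mpol P) (pol acc) ^ q ∧
      (.comp (.pair (.pair (.comp .snd .fst) (.comp .fst .snd))
        (.comp .fst .fst)) (E4pow pN) : Pr [] (.prod (.prod Po Po) (.prod Po .fld)) Po).cost () ()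
        ((bits F q, P), (acc, z)) ≤
        (2 * (CN * (P.length + 1) ^ 2) + 110) * ((Nat.bits q).length + 1) + 14 * P.length + 20 := by
    intro acc ha z
    obtain ⟨h1, h2, h3⟩ := E4_pow hN acc hP ha (Nat.bits q)
    rw [E4num_bits] at h2
    simp only [val_comp, val_pair, val_fst, val_snd, cost_comp, cost_pair, cost_fst, cost_snd]
    unfold bits
    refine ⟨h1, h2, ?_⟩
    omega
  have key : ∀ (l : List F) (x : List F), x.length = P.length →
      List.length ((E4iter pN).val () ((bits F q, P), (x, l)) : List F) = P.length ∧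
      AdjoinRoot.mk (mpol P) (pol ((E4iter pN).val () ((bits F q, P), (x, l)) : List F)) =
        AdjoinRoot.mk (mpol P) (pol x) ^ (q ^ l.length) := by
    intro l
    induction l with
    | nil =>
      intro x hx
      simp only [E4iter, val_foldP, List.foldl_nil]
      exact ⟨hx, by simp⟩
    | cons z l ih =>
      intro x hx
      obtain ⟨g1, g2, _⟩ := hstep x hx z
      obtain ⟨i1, i2⟩ := ih _ g1
      simp only [E4iter, val_foldP, List.foldl_cons] at i1 i2 ⊢
      refine ⟨i1, ?_⟩
      rw [i2, g2, ← pow_mul, List.length_cons, pow_succ']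
  refine ⟨(key l x hx).1, (key l x hx).2, ?_⟩
  have hc := cost_foldP_le (s := []) (c := .prod Po Po) (b := Po) (a := .fld)
    (.comp (.pair (.pair (.comp .snd .fst) (.comp .fst .snd)) (.comp .fst .fst)) (E4pow pN)) () ()
    ((bits F q, P), (x, l))
    ((2 * (CN * (P.length + 1) ^ 2) + 110) * ((Nat.bits q).length + 1) + 14 * P.length + 20)
    (fun acc => List.length acc = P.length) hx
    (fun acc z ha _ => (hstep acc ha z).1)
    (fun acc z ha _ => (hstep acc ha z).2.2)
  refine hc.trans ?_
  nlinarith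


omit hN in
theorem E4_zip_zero {l m : List F} (h : l.length = m.length) :
    (∀ z ∈ List.zipWith (fun a b => a - b) l m, z = 0) ↔ l = m := by
  induction l generalizing m with
  | nil =>
    cases m with
    | nil => simp
    | cons y m => simp at h
  | cons x l ih =>
    cases m with
    | nil => simp at h
    | cons y m =>
      simp only [List.length_cons, Nat.add_right_cancel_iff] at h
      simp only [List.zipWith_cons_cons, List.mem_cons, forall_eq_or_imp, List.cons.injEq]
      rw [ih h, sub_eq_zero]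

omit hN [DecidableEq F] in
theorem E4_pol_sub {l m : List F} (h : l.length = m.length) :
    pol (List.zipWith (fun a b => a - b) l m) = pol l - pol m := by
  induction l generalizing m with
  | nil =>
    cases m with
    | nil => simp [pol]
    | cons y m => simp at h
  | cons x l ih =>
    cases m with
    | nil => simp at h
    | cons y m =>
      simp only [List.length_cons, Nat.add_right_cancel_iff] at h
      simp only [List.zipWith_cons_cons, pol, ih h, C_sub]
      ring

end sem

theorem E4_ww (E : ℕ) (hE : 1 ≤ E) : ww (E + 1) ≤ 34 * E ^ 3 := by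
  have h1 : 2 ^ Nat.clog 2 (E + 1) ≤ 2 * (E + 1) := by
    have h2 := Nat.pow_pred_clog_lt_self (b := 2) (by norm_num) (x := E + 1) (by omega)
    have h3 : 0 < Nat.clog 2 (E + 1) := Nat.clog_pos (by norm_num) (by omega)
    have h4 : 2 ^ Nat.clog 2 (E + 1) = 2 * 2 ^ (Nat.clog 2 (E + 1)).pred := by
      conv_lhs => rw [← Nat.succ_pred_eq_of_pos h3]
      rw [pow_succ']
    omega
  have h5 : vv (Nat.clog 2 (E + 1)) ≤ (2 * (E + 1)) ^ 2 + 1 := by
    unfold vv
    apply Nat.add_le_add_right
    apply Nat.div_le_of_le_mul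
    calc 7 ^ Nat.clog 2 (E + 1) ≤ 8 ^ Nat.clog 2 (E + 1) := Nat.pow_le_pow_left (by norm_num) _
      _ = 2 ^ Nat.clog 2 (E + 1) * (2 ^ Nat.clog 2 (E + 1)) ^ 2 := by
        rw [← pow_succ', ← pow_mul, mul_comm, pow_mul]
        norm_num
      _ ≤ 2 ^ Nat.clog 2 (E + 1) * (2 * (E + 1)) ^ 2 :=
        Nat.mul_le_mul_left _ (Nat.pow_le_pow_left h1 2)
  unfold ww
  have h6 : E + 1 ≤ 2 * E := by omega
  calc (E + 1) * vv (Nat.clog 2 (E + 1)) ≤ (2 * E) * ((2 * (2 * E)) ^ 2 + 1) := by
        apply Nat.mul_le_mul h6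
        refine h5.trans ?_
        have := Nat.pow_le_pow_left (Nat.mul_le_mul_left 2 h6) 2
        omega
    _ ≤ 34 * E ^ 3 := by nlinarith [Nat.mul_le_mul hE hE, Nat.mul_le_mul (Nat.mul_le_mul hE hE) hE]

theorem specIrr (h1 : SpecNaive) (h2 : SpecInv) : SpecIrr := by
  obtain ⟨pN, CN, hN0⟩ := h1
  obtain ⟨pI, CI, hI⟩ := h2
  refine ⟨E4main pN pI, 40 * CN + 34 * CI + 3000, 3, ?_⟩
  intro F _ _ _ q j P hq hj hP
  have hE2 : 2 ≤ P.length := by
    rw [hP]
    calc 2 = 2 ^ 1 := rfl
      _ ≤ 2 ^ j := Nat.pow_le_pow_right (by norm_num) hj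
  have hN : ∀ a b : List F, a.length = P.length → b.length = P.length →
    List.length (pN.val () ((a, b), P) : List F) = P.length ∧
    AdjoinRoot.mk (mpol P) (pol (pN.val () ((a, b), P) : List F)) =
      AdjoinRoot.mk (mpol P) (pol a) * AdjoinRoot.mk (mpol P) (pol b) ∧
    pN.cost () () ((a, b), P) ≤ CN * (P.length + 1) ^ 2 := by
    intro a b ha hb
    obtain ⟨e1, e2, e3⟩ := hN0 F a b P ha hb
    refine ⟨e1, ?_, e3⟩
    rw [← map_mul, eq_comm, AdjoinRoot.mk_eq_mk]
    exact e2
  obtain ⟨p0, p1, t, hPt⟩ : ∃ p0 p1 t, P = p0 :: p1 :: t := by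
    rcases P with _ | ⟨p0, _ | ⟨p1, t⟩⟩
    · simp at hE2
    · simp at hE2
    · exact ⟨p0, p1, t, rfl⟩
  -- the list of `x`
  obtain ⟨xl, hxl⟩ : ∃ xl : List F, xl = (E4x.val () P : List F) := ⟨_, rfl⟩
  have hxl2 : xl = 0 :: 1 :: List.replicate t.length 0 := by rw [hxl, hPt, E4_val_x]
  have hxlen : xl.length = P.length := by rw [hxl2, hPt]; simp
  have hxpol : pol xl = X := by rw [hxl2]; simp [pol, E4_pol_zeros]
  obtain ⟨ol, hol⟩ : ∃ ol : List F, ol = (E4one.val () P : List F) := ⟨_, rfl⟩
  have hol2 : ol = 1 :: List.replicate (t.length + 1) 0 := by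
    rw [hol, hPt, E4_val_one]; simp
  have holen : ol.length = P.length := by rw [hol2, hPt]; simp
  have hopol : pol ol = 1 := by rw [hol2]; simp [pol, E4_pol_zeros]
  obtain ⟨half, hhalf⟩ : ∃ half : List F, half = (eo P).1 := ⟨_, rfl⟩
  have hhlen : half.length = 2 ^ (j - 1) := by
    rw [hhalf, (length_eo P).1, hP]
    obtain ⟨i, rfl⟩ : ∃ i, j = i + 1 := ⟨j - 1, by omega⟩
    rw [pow_succ, Nat.add_sub_cancel]
    omega
  have hP1 : 1 ≤ P.length := by omega
  obtain ⟨A, hA⟩ : ∃ A : List F, A = ((E4iter pN).val () ((bits F q, P), (xl, P)) : List F) :=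
    ⟨_, rfl⟩
  obtain ⟨B, hB⟩ : ∃ B : List F, B = ((E4iter pN).val () ((bits F q, P), (xl, half)) : List F) :=
    ⟨_, rfl⟩
  obtain ⟨a1, a2, a3⟩ := E4_iter hN q hP1 xl hxlen P
  obtain ⟨b1, b2, b3⟩ := E4_iter hN q hP1 xl hxlen half
  rw [← hA] at a1 a2
  rw [← hB] at b1 b2
  rw [hxpol] at a2 b2
  rw [hP] at a2
  rw [hhlen] at b2
  obtain ⟨w, hw⟩ : ∃ w : List F, w = (E4sub.val () (B, xl) : List F) := ⟨_, rfl⟩
  have hw2 : w = List.zipWith (fun a b => a - b) B xl := by rw [hw, E4_val_sub]
  have hwlen : w.length = P.length := by rw [hw2, List.length_zipWith, b1, hxlen, min_self]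
  have hwpol : pol w = pol B - X := by rw [hw2, E4_pol_sub (b1.trans hxlen.symm), hxpol]
  obtain ⟨u, hu⟩ : ∃ u : List F, u = (pI.val () (w, P) : List F) := ⟨_, rfl⟩
  obtain ⟨i1, i2, i3⟩ := hI F w P hwlen
  rw [← hu] at i1 i2
  obtain ⟨v, hv⟩ : ∃ v : List F, v = (pN.val () ((u, w), P) : List F) := ⟨_, rfl⟩
  obtain ⟨n1, n2, n3⟩ := hN u w i2 hwlen
  rw [← hv] at n1 n2
  have hval : ((E4main pN pI).val () (bits F q, P) : List Unit) =
      (E4allz.val () ((E4sub.val () (A, xl) : List F) ++ (E4sub.val () (v, ol) : List F)) :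
        List Unit) := by
    rw [hv, hu, hw, hB, hA, hhalf, hxl, hol]
    simp [E4main]
  -- the two tests
  have hmk : ∀ f g : F[X], AdjoinRoot.mk (mpol P) f = AdjoinRoot.mk (mpol P) g ↔
      mpol P ∣ f - g := fun f g => AdjoinRoot.mk_eq_mk
  have t1 : A = xl ↔ mpol P ∣ X ^ (q ^ (2 ^ j)) - X := by
    rw [← hmk, map_pow, ← a2, hmk]
    constructor
    · intro h
      rw [h, hxpol, sub_self]
      exact dvd_zero _
    · intro h
      rw [← hxpol] at h
      exact E4_eq_of_dvd a1 hxlen h
  have t2a : IsCoprime (pol w) (mpol P) ↔ IsCoprime (X ^ (q ^ (2 ^ (j - 1))) - X) (mpol P) := by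
    have h3 : mpol P ∣ pol w - (X ^ (q ^ (2 ^ (j - 1))) - X) := by
      rw [← hmk, hwpol, map_sub, map_sub, map_pow, b2]
    obtain ⟨r, hr⟩ := h3
    have h4 : pol w = (X ^ (q ^ (2 ^ (j - 1))) - X) + mpol P * r := by rw [← hr]; ring
    rw [h4]
    exact IsCoprime.add_mul_left_left_iff
  have t2 : v = ol ↔ IsCoprime (pol w) (mpol P) := by
    constructor
    · intro h
      rw [h, hopol, ← map_mul, eq_comm, hmk] at n2
      obtain ⟨r, hr⟩ := n2
      exact ⟨pol u, -r, by linear_combination hr⟩
    · intro h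
      have h5 := i1 h
      rw [← hmk, map_mul, ← n2, hmk, ← hopol] at h5
      exact E4_eq_of_dvd n1 holen h5
  have htest : (∀ z ∈ (E4sub.val () (A, xl) : List F) ++ (E4sub.val () (v, ol) : List F), z = 0) ↔
      Irreducible (mpol P) := by
    rw [List.forall_mem_append, E4_val_sub, E4_val_sub, E4_zip_zero (a1.trans hxlen.symm),
      E4_zip_zero (n1.trans holen.symm), t1, t2, t2a]
    exact (E4_irr_iff q j hq hj (mpol P) (E4_monic P) (by rw [E4_natDegree, hP])).symm
  refine ⟨fun hirr => ?_, fun hirr => ?_, ?_⟩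
  · rw [hval, E4_val_allz, if_pos (htest.2 hirr)]
  · rw [hval, E4_val_allz, if_neg (fun h => hirr (htest.1 h))]
  · simp only [E4main, cost_lt, cost_comp, cost_pair, cost_fst, cost_snd, cost_id, val_lt,
      val_comp, val_pair, val_fst, val_snd, val_id, val_appP, val_eoP]
    rw [← hxl, ← hol, ← hhalf, ← hA, ← hB, ← hw, ← hu, ← hv]
    have hbits : (Nat.bits q).length ≤ lgc q := by
      rw [Nat.size_eq_bits_len, Nat.size_le]
      unfold lgc
      rw [pow_succ]
      have := Nat.le_pow_clog (b := 2) (by norm_num) q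
      have h0 : 0 < 2 ^ Nat.clog 2 q := by positivity
      omega
    have hg1 : 1 ≤ lgc q := by unfold lgc; omega
    have c1 := E4_cost_x P
    have c2 := cost_eoP (s := []) (F := F) (a := .fld) () () P
    have c3 := E4_cost_sub B xl
    have c4 := E4_cost_sub A xl
    have c5 := E4_cost_sub v ol
    have c6 := E4_cost_one P
    have c7 := cost_appP (s := []) (F := F) (a := .fld) () ()
      ((E4sub.val () (A, xl) : List F), (E4sub.val () (v, ol) : List F))
    have c8 := E4_cost_allz ((E4sub.val () (A, xl) : List F) ++ (E4sub.val () (v, ol) : List F))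
    have l1 : (E4sub.val () (A, xl) : List F).length = P.length := by
      rw [E4_val_sub, List.length_zipWith, a1, hxlen, min_self]
    have l2 : (E4sub.val () (v, ol) : List F).length = P.length := by
      rw [E4_val_sub, List.length_zipWith, n1, holen, min_self]
    rw [List.length_append, l1, l2] at c8
    simp only at c7
    rw [l1] at c7
    rw [b1] at c3
    rw [a1] at c4
    rw [n1] at c5
    have hhalfE : half.length ≤ P.length := by
      rw [hhalf, (length_eo P).1]; omega
    have c9 := E4_ww P.length hP1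
    have c10 : CI * ww (P.length + 1) ≤ CI * (34 * P.length ^ 3) := Nat.mul_le_mul_left _ c9
    generalize P.length = E at *
    generalize lgc q = g at *
    have q1 : (E + 1) ^ 2 ≤ 4 * E ^ 2 := by nlinarith
    have q2 : E ^ 2 ≤ E ^ 3 := Nat.pow_le_pow_right hP1 (by norm_num)
    have q3 : E ≤ E ^ 3 := Nat.le_self_pow (by norm_num) E
    have q4 : E ^ 3 ≤ E ^ 3 * g := Nat.le_mul_of_pos_right _ hg1
    have q5 : E ^ 3 * g ≤ (E * g) ^ 3 := by
      rw [mul_pow]
      exact Nat.mul_le_mul_left _ (Nat.le_self_pow (by norm_num) g)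
    have q6 : 1 ≤ E ^ 3 := Nat.one_le_pow _ _ hP1
    -- one iteration
    have r1 : (2 * (CN * (E + 1) ^ 2) + 110) * ((Nat.bits q).length + 1) + 14 * E + 50 ≤
        (16 * CN + 284) * (E ^ 2 * g) := by
      have s1 : 2 * (CN * (E + 1) ^ 2) + 110 ≤ (8 * CN + 110) * E ^ 2 := by
        have := Nat.mul_le_mul_left CN q1
        have h4 : 1 ≤ E ^ 2 := Nat.one_le_pow _ _ hP1
        nlinarith
      have s2 : (Nat.bits q).length + 1 ≤ 2 * g := by omega
      have s3 := Nat.mul_le_mul s1 s2
      have s4 : E ≤ E ^ 2 * g := (Nat.le_self_pow (by norm_num) E).trans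
        (Nat.le_mul_of_pos_right _ hg1)
      have s5 : 1 ≤ E ^ 2 * g := hP1.trans s4
      calc (2 * (CN * (E + 1) ^ 2) + 110) * ((Nat.bits q).length + 1) + 14 * E + 50
          ≤ (8 * CN + 110) * E ^ 2 * (2 * g) + 14 * (E ^ 2 * g) + 50 * (E ^ 2 * g) := by omega
        _ = (16 * CN + 284) * (E ^ 2 * g) := by ring
    have r2 : ((2 * (CN * (E + 1) ^ 2) + 110) * ((Nat.bits q).length + 1) + 14 * E + 50) * E ≤
        (16 * CN + 284) * (E ^ 3 * g) := by
      calc _ ≤ (16 * CN + 284) * (E ^ 2 * g) * E := Nat.mul_le_mul_right _ r1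
        _ = _ := by ring
    have r3 : ((2 * (CN * (E + 1) ^ 2) + 110) * ((Nat.bits q).length + 1) + 14 * E + 50) *
        half.length ≤ (16 * CN + 284) * (E ^ 3 * g) :=
      (Nat.mul_le_mul_left _ hhalfE).trans r2
    have r4 : CN * (E + 1) ^ 2 ≤ 4 * (CN * (E ^ 3 * g)) := by
      calc CN * (E + 1) ^ 2 ≤ CN * (4 * (E ^ 3 * g)) := Nat.mul_le_mul_left _ (by omega)
        _ = _ := by ring
    have r5 : CI * (34 * E ^ 3) ≤ 34 * (CI * (E ^ 3 * g)) := by
      calc CI * (34 * E ^ 3) ≤ CI * (34 * (E ^ 3 * g)) := Nat.mul_le_mul_left _ (by omega)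
        _ = _ := by ring
    have fin : (36 * CN + 34 * CI + 3000) * (E ^ 3 * g) ≤
        (40 * CN + 34 * CI + 3000) * (E * g) ^ 3 :=
      Nat.mul_le_mul (by omega) q5
    refine le_trans ?_ fin
    have e1 : (36 * CN + 34 * CI + 3000) * (E ^ 3 * g) = 36 * (CN * (E ^ 3 * g)) +
      34 * (CI * (E ^ 3 * g)) + 3000 * (E ^ 3 * g) := by ring
    have e2 : (16 * CN + 284) * (E ^ 3 * g) = 16 * (CN * (E ^ 3 * g)) + 284 * (E ^ 3 * g) := by
      ring
    rw [e1]
    rw [e2] at r2 r3
    omega

end Pool.Agent.H330FB.JE4
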