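import Pool.Agent.H330FB.Lib5
import Pool.Agent.H330FB.Spec4
set_option autoImplicit false
noncomputable section
namespace Pool.Agent.H330FB.JE5
open Polynomial

/-! ### chunks -/

theorem specFind_length_chunks {α : Type} (n k : ℕ) (l : List α) :
    (chunks n k l).length = k := by
  induction k generalizing l with
  | zero => rfl
  | succ k ih => simp [chunks, ih]

theorem specFind_chunks_len {α : Type} (n k : ℕ) (l : List α) (h : l.length = k * n) :
    ∀ z ∈ chunks n k l, z.length = n := by
  induction k generalizing l with
  | zero => intro z hz; simp [chunks] at hz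
  | succ k ih =>
    intro z hz
    have h' : l.length = k * n + n := by rw [h]; ring
    simp only [chunks, List.mem_cons] at hz
    rcases hz with rfl | hz
    · rw [List.length_take]; omega
    · exact ih (l.drop n) (by rw [List.length_drop]; omega) z hz

theorem specFind_chunks_mem {α : Type} (n k i : ℕ) (l : List α) (hi : i < k) :
    (l.drop (i * n)).take n ∈ chunks n k l := by
  induction k generalizing l i with
  | zero => omega
  | succ k ih =>
    rcases Nat.eq_zero_or_pos i with rfl | hpos
    · simp [chunks]
    · obtain ⟨i', rfl⟩ : ∃ i', i = i' + 1 := ⟨i - 1, by omega⟩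
      have h1 := ih i' (l.drop n) (by omega)
      rw [List.drop_drop] at h1
      simp only [chunks, List.mem_cons]
      right
      have h2 : (i' + 1) * n = n + i' * n := by ring
      rw [h2]
      exact h1

theorem specFind_ofFn {α : Type} (k n i : ℕ) (hi : i < k) (r : Fin (k * n) → α) :
    ((List.ofFn r).drop (i * n)).take n =
      List.ofFn (fun t : Fin n => r (finProdFinEquiv (⟨i, hi⟩, t))) := by
  have hle : i * n + n ≤ k * n := by
    have : (i + 1) * n ≤ k * n := Nat.mul_le_mul_right _ hi
    linarith [this, Nat.succ_mul i n]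
  apply List.ext_getElem
  · simp only [List.length_take, List.length_drop, List.length_ofFn]
    omega
  · intro t h1 h2
    rw [List.length_ofFn] at h2
    simp only [List.getElem_take, List.getElem_drop, List.getElem_ofFn]
    congr 1
    apply Fin.ext
    simp only [finProdFinEquiv_apply_val]
    ring

/-! ### the program -/

/-- body of the search: context `bits q`, state, chunk -/
def specFind_f (irr : Pr [] (.prod Po Po) Un) : Pr [] (.prod Po (.prod Po Po)) Po :=
  onL (.comp .snd .fst)
    (onL (.comp (.pair .fst (.comp .snd .snd)) irr) .nil (.comp .fst (.comp .snd .snd)))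
    (.comp .fst (.comp .snd .fst))

/-- doubling of a unary number -/
def specFind_d {g : Ty} (p : Pr [] g Un) : Pr [] g Un := ap2 appP p p

/-- the search program -/
def specFind_p (irr : Pr [] (.prod Po Po) Un) : Pr [] (.prod Po (.prod Un Po)) Po :=
  ap3 (foldP (specFind_f irr)) .fst .nil
    (ap3 chunksP (specFind_d (specFind_d (specFind_d (.comp .snd .fst))))
      (.comp .snd .fst) (.comp .snd .snd))

/-- the step of the search as a function -/
def specFind_g {F : Type} (T : List F → List Unit) (y z : List F) : List F :=
  lcase y (lcase (T z) [] (fun _ _ => z)) (fun _ _ => y)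

theorem specFind_fold_keep {F : Type} (T : List F → List Unit) (l : List (List F))
    (y : List F) (hy : y ≠ []) : List.foldl (specFind_g T) y l = y := by
  induction l with
  | nil => rfl
  | cons z l ih =>
    rw [List.foldl_cons]
    have : specFind_g T y z = y := by
      cases y with
      | nil => exact absurd rfl hy
      | cons h t => rfl
    rw [this]
    exact ih

theorem specFind_fold {F : Type} (T : List F → List Unit) (Q : List F → Prop)
    (l : List (List F)) (hl : ∀ z ∈ l, z ≠ []) (h1 : ∀ z ∈ l, Q z → T z ≠ [])
    (h2 : ∀ z ∈ l, ¬ Q z → T z = []) (hex : ∃ z ∈ l, Q z) :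
    Q (List.foldl (specFind_g T) [] l) := by
  induction l with
  | nil => obtain ⟨z, hz, _⟩ := hex; simp at hz
  | cons z l ih =>
    rw [List.foldl_cons]
    by_cases hQ : Q z
    · have hT := h1 z (by simp) hQ
      have : specFind_g T [] z = z := by
        unfold specFind_g
        rw [lcase_nil]
        cases hTz : T z with
        | nil => exact absurd hTz hT
        | cons h t => rfl
      rw [this, specFind_fold_keep T l z (hl z (by simp))]
      exact hQ
    · have hT := h2 z (by simp) hQ
      have : specFind_g T [] z = [] := by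
        unfold specFind_g
        rw [lcase_nil, hT, lcase_nil]
      rw [this]
      apply ih
      · intro w hw; exact hl w (by simp [hw])
      · intro w hw; exact h1 w (by simp [hw])
      · intro w hw; exact h2 w (by simp [hw])
      · obtain ⟨w, hw, hQw⟩ := hex
        rcases List.mem_cons.mp hw with rfl | hw
        · exact absurd hQw hQ
        · exact ⟨w, hw, hQw⟩

theorem specFind_val (irr : Pr [] (.prod Po Po) Un) {F : Type} [Field F] [DecidableEq F]
    (b r : List F) (E : List Unit) :
    ((specFind_p irr).val () (b, (E, r)) : List F) =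
      List.foldl (specFind_g (fun z => irr.val () (b, z))) []
        (chunks E.length (8 * E.length) r) := by
  have hlen : ∀ (x : Ty.D F (.prod Po (.prod Un Po))),
      List.length ((specFind_d (specFind_d (specFind_d (.comp .snd .fst))) :
        Pr [] (.prod Po (.prod Un Po)) Un).val () x) = 8 * List.length x.2.1 := by
    intro x
    simp [specFind_d]
    ring
  simp only [specFind_p, val_comp, val_pair, val_fst, val_snd, val_nil, val_foldP, val_chunksP]
  rw [hlen]
  congr 1
  all_goals
    funext y z
    simp [specFind_f, specFind_g]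

theorem specFind_cost (irr : Pr [] (.prod Po Po) Un) {F : Type} [Field F] [DecidableEq F]
    (b r : List F) (E : List Unit) (B : ℕ) (hr : r.length = 8 * E.length * E.length)
    (hB : ∀ z : List F, z.length = E.length → irr.cost () () (b, z) ≤ B) :
    (specFind_p irr).cost () () (b, (E, r)) ≤
      (B + 400) * (E.length + 1) ^ 2 * 8 := by
  have hlen : ∀ (x : Ty.D F (.prod Po (.prod Un Po))),
      List.length ((specFind_d (specFind_d (specFind_d (.comp .snd .fst))) :
        Pr [] (.prod Po (.prod Un Po)) Un).val () x) = 8 * List.length x.2.1 := by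
    intro x
    simp [specFind_d]
    ring
  set u : List Unit := (specFind_d (specFind_d (specFind_d (.comp .snd .fst))) :
        Pr [] (.prod Po (.prod Un Po)) Un).val () (b, (E, r)) with hu
  have hul : u.length = 8 * E.length := hlen (b, (E, r))
  -- cost of the doublings
  have hd : (specFind_d (specFind_d (specFind_d (.comp .snd .fst))) :
        Pr [] (.prod Po (.prod Un Po)) Un).cost () () (b, (E, r)) ≤ 240 * E.length + 60 := by
    have a1 := cost_appP (s := []) (a := .unit) (F := F) () () (E, E)
    have a2 := cost_appP (s := []) (a := .unit) (F := F) () () ((E ++ E : List Unit), (E ++ E : List Unit))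
    have a3 := cost_appP (s := []) (a := .unit) (F := F) () ()
      ((E ++ E ++ (E ++ E) : List Unit), (E ++ E ++ (E ++ E) : List Unit))
    simp [specFind_d] at a1 a2 a3 ⊢
    omega
  have hc := cost_chunksP (s := []) (b := .unit) (c := .unit) (a := .fld) (F := F) () () (u, (E, r))
  have hf := cost_foldP_le (specFind_f irr) (F := F) () ()
    (b, (([] : List F), chunks E.length u.length r)) (B + 60) (fun _ => True) trivial
    (fun _ _ _ _ => trivial) (by
      intro y z _ hz
      have hz' : z.length = E.length := by
        apply specFind_chunks_len E.length u.length r _ z hz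
        rw [hr, hul]
      have h1 := hB z hz'
      cases y with
      | nil =>
        simp only [specFind_f, cost_onL, cost_comp, cost_pair, cost_fst, cost_snd, val_comp,
          val_pair, val_fst, val_snd, lcase_nil, cost_nil]
        cases irr.val () (b, z) with
        | nil => simp only [lcase_nil]; omega
        | cons h t => simp only [lcase_cons]; omega
      | cons h t =>
        simp only [specFind_f, cost_onL, cost_comp, cost_pair, cost_fst, cost_snd, val_comp,
          val_pair, val_fst, val_snd, lcase_cons]
        omega)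
  simp only [specFind_length_chunks] at hf
  rw [hul] at hf
  simp only [hul] at hc
  have hu' : (specFind_d (specFind_d (specFind_d (.comp .snd .fst))) :
        Pr [] (.prod Po (.prod Un Po)) Un).val () (b, (E, r)) = u := rfl
  simp only [specFind_p, cost_comp, cost_pair, cost_fst, cost_snd, cost_nil, val_comp, val_pair,
    val_fst, val_snd, val_nil, val_chunksP, hu', hul]
  nlinarith

/-! ### counting -/

theorem specFind_exp (E : ℕ) (hE : 1 ≤ E) : (50 : ℝ) * (1 - 1 / (2 * (E : ℝ))) ^ (8 * E) ≤ 1 := by
  have hE' : (1 : ℝ) ≤ E := by exact_mod_cast hE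
  have h1 : (1 - 1 / (2 * (E : ℝ))) ≤ Real.exp (-(1 / (2 * (E : ℝ)))) := Real.one_sub_le_exp_neg _
  have h0 : 0 ≤ 1 - 1 / (2 * (E : ℝ)) := by
    rw [sub_nonneg, div_le_one (by positivity)]
    linarith
  have h2 : (1 - 1 / (2 * (E : ℝ))) ^ (8 * E) ≤ Real.exp (-4) := by
    calc (1 - 1 / (2 * (E : ℝ))) ^ (8 * E) ≤ (Real.exp (-(1 / (2 * (E : ℝ))))) ^ (8 * E) :=
          pow_le_pow_left₀ h0 h1 _
      _ = Real.exp (-4) := by
        rw [← Real.exp_nat_mul]
        congr 1
        push_cast
        field_simp
        ring
  have h3 : (50 : ℝ) ≤ Real.exp 4 := by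
    have h4 : Real.exp 4 = Real.exp 1 ^ 4 := by rw [← Real.exp_nat_mul]; norm_num
    rw [h4]
    have h5 : (2.7182818283 : ℝ) < Real.exp 1 := Real.exp_one_gt_d9
    calc (50 : ℝ) ≤ 2.7182818283 ^ 4 := by norm_num
      _ ≤ Real.exp 1 ^ 4 := pow_le_pow_left₀ (by norm_num) h5.le 4
  calc (50 : ℝ) * (1 - 1 / (2 * (E : ℝ))) ^ (8 * E) ≤ Real.exp 4 * Real.exp (-4) :=
        mul_le_mul h3 h2 (pow_nonneg h0 _) (Real.exp_pos _).le
    _ = 1 := by rw [← Real.exp_add]; norm_num

theorem specFind_count (F : Type) [Field F] [Fintype F] (h2 : StmtIrrCount) (j : ℕ) (hj : 1 ≤ j) :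
    50 * Nat.card {r : Fin (8 * 2 ^ j * 2 ^ j) → F //
      ∀ i : Fin (8 * 2 ^ j), ¬ Irreducible (mpol (List.ofFn
        (fun t : Fin (2 ^ j) => r (finProdFinEquiv (i, t)))))} ≤
      Fintype.card F ^ (8 * 2 ^ j * 2 ^ j) := by
  classical
  set E := 2 ^ j with hE
  have hE1 : 1 ≤ E := Nat.one_le_two_pow
  -- the set of bad chunks
  let Bad : Type := {w : Fin E → F // ¬ Irreducible (mpol (List.ofFn w))}
  have e1 : {r : Fin (8 * E * E) → F //
      ∀ i : Fin (8 * E), ¬ Irreducible (mpol (List.ofFn
        (fun t : Fin E => r (finProdFinEquiv (i, t)))))} ≃ (Fin (8 * E) → Bad) :=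
    { toFun := fun r i => ⟨fun t => r.1 (finProdFinEquiv (i, t)), r.2 i⟩
      invFun := fun g => ⟨fun x => (g (finProdFinEquiv.symm x).1).1 (finProdFinEquiv.symm x).2, by
        intro i
        simp only [Equiv.symm_apply_apply]
        exact (g i).2⟩
      left_inv := by
        intro r
        apply Subtype.ext
        funext x
        show r.1 (finProdFinEquiv ((finProdFinEquiv.symm x).1, (finProdFinEquiv.symm x).2)) = r.1 x
        rw [Prod.mk.eta, Equiv.apply_symm_apply]
      right_inv := by
        intro g
        funext i
        apply Subtype.ext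
        funext t
        simp }
  have hcardBad : Nat.card Bad + Nat.card {l : List F // l.length = E ∧ Irreducible (mpol l)} =
      Fintype.card F ^ E := by
    have e2 : {l : List F // l.length = E ∧ Irreducible (mpol l)} ≃
        {w : Fin E → F // Irreducible (mpol (List.ofFn w))} :=
      { toFun := fun l => ⟨fun t => l.1.get (t.cast l.2.1.symm), by
          have : List.ofFn (fun t : Fin E => l.1.get (t.cast l.2.1.symm)) = l.1 := by
            apply List.ext_getElem
            · simp [l.2.1]
            · intro t h1 h2; simp
          rw [this]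
          exact l.2.2⟩
        invFun := fun w => ⟨List.ofFn w.1, by simp, w.2⟩
        left_inv := by
          intro l
          apply Subtype.ext
          apply List.ext_getElem
          · simp [l.2.1]
          · intro t h1 h2; simp
        right_inv := by
          intro w
          apply Subtype.ext
          funext t
          simp }
    rw [Nat.card_congr e2, Nat.card_eq_fintype_card, Nat.card_eq_fintype_card]
    have h3 : Fintype.card (Fin E → F) = Fintype.card F ^ E := by simp
    rw [← h3]
    have h4 := Fintype.card_subtype_compl (fun w : Fin E → F => Irreducible (mpol (List.ofFn w)))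
    have h5 := Fintype.card_subtype_le (fun w : Fin E → F => Irreducible (mpol (List.ofFn w)))
    have h6 : Fintype.card Bad = Fintype.card {w : Fin E → F // ¬ Irreducible (mpol (List.ofFn w))} := rfl
    rw [h6]
    omega
  have hirr := h2 F j hj
  rw [← hE] at hirr
  have hcard : Nat.card {r : Fin (8 * E * E) → F //
      ∀ i : Fin (8 * E), ¬ Irreducible (mpol (List.ofFn
        (fun t : Fin E => r (finProdFinEquiv (i, t)))))} = Nat.card Bad ^ (8 * E) := by
    rw [Nat.card_congr e1, Nat.card_fun]
    simp
  rw [hcard]
  set q := Fintype.card F with hq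
  set I := Nat.card {l : List F // l.length = E ∧ Irreducible (mpol l)} with hI
  -- real numbers
  have hE' : (1 : ℝ) ≤ E := by exact_mod_cast hE1
  have hb : (Nat.card Bad : ℝ) ≤ (q : ℝ) ^ E * (1 - 1 / (2 * (E : ℝ))) := by
    have r1 : (Nat.card Bad : ℝ) + I = (q : ℝ) ^ E := by exact_mod_cast hcardBad
    have r2 : (q : ℝ) ^ E ≤ 2 * E * I := by exact_mod_cast hirr
    have r3 : (q : ℝ) ^ E * (1 / (2 * (E : ℝ))) ≤ I := by
      rw [mul_one_div, div_le_iff₀ (by positivity)]
      linarith
    linarith
  have hfin : (50 : ℝ) * (Nat.card Bad : ℝ) ^ (8 * E) ≤ (q : ℝ) ^ (8 * E * E) := by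
    have hx := specFind_exp E hE1
    have h0 : 0 ≤ 1 - 1 / (2 * (E : ℝ)) := by
      rw [sub_nonneg, div_le_one (by positivity)]
      linarith
    calc (50 : ℝ) * (Nat.card Bad : ℝ) ^ (8 * E)
        ≤ 50 * ((q : ℝ) ^ E * (1 - 1 / (2 * (E : ℝ)))) ^ (8 * E) := by
          apply mul_le_mul_of_nonneg_left _ (by norm_num)
          exact pow_le_pow_left₀ (Nat.cast_nonneg _) hb _
      _ = (q : ℝ) ^ (8 * E * E) * (50 * (1 - 1 / (2 * (E : ℝ))) ^ (8 * E)) := by
          rw [mul_pow, ← pow_mul]
          have : E * (8 * E) = 8 * E * E := by ring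
          rw [this]; ring
      _ ≤ (q : ℝ) ^ (8 * E * E) * 1 := by
          apply mul_le_mul_of_nonneg_left hx (by positivity)
      _ = _ := mul_one _
  exact_mod_cast hfin

/- SEARCH. Cut the random list into 8*E chunks of length E (E unary; fuel un E appended 8 times), output the first chunk whose test is positive (fold with a state: found list or empty), else []. The chunks of a uniform vector are
 independent and uniform; a chunk is irreducible with probability >= 1/(2E) (StmtIrrCount); (1 - 1/(2E))^(8E) <= exp(-4) <= 1/50. -/
theorem specFind (h1 : SpecIrr) (h2 : StmtIrrCount) : SpecFind := by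
  classical
  obtain ⟨irr, C, k, hirr⟩ := h1
  refine ⟨specFind_p irr, (C + 400) * 32, k + 2, ?_⟩
  intro F _ _ _ q j hq hj
  have hun : (un (2 ^ j)).length = 2 ^ j := by simp [un]
  have hE1 : 1 ≤ 2 ^ j := Nat.one_le_two_pow
  constructor
  · refine le_trans (Nat.mul_le_mul_left 50 ?_) (hq ▸ specFind_count F h2 j hj)
    apply Nat.card_le_card_of_injective
      (fun r : {r : Fin (8 * 2 ^ j * 2 ^ j) → F //
        ¬ (List.length ((specFind_p irr).val () (bits F q, (un (2 ^ j), List.ofFn r)) : List F) = 2 ^ j ∧
          Irreducible (mpol ((specFind_p irr).val () (bits F q, (un (2 ^ j), List.ofFn r)) : List F)))} =>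
        (⟨r.1, by
          intro i hcon
          apply r.2
          rw [specFind_val, hun]
          have hlen : (List.ofFn r.1).length = 8 * 2 ^ j * 2 ^ j := List.length_ofFn
          have hcl := specFind_chunks_len (2 ^ j) (8 * 2 ^ j) (List.ofFn r.1) hlen
          refine specFind_fold (fun z => irr.val () (bits F q, z))
            (fun z => z.length = 2 ^ j ∧ Irreducible (mpol z)) _ ?_ ?_ ?_ ?_
          · intro z hz
            have := hcl z hz
            rintro rfl
            simp at this
            omega
          · rintro z hz ⟨hz1, hz2⟩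
            have h3 := (hirr F q j z hq hj hz1).1 hz2
            rw [h3]
            simp [un]
          · intro z hz hnot
            have hz1 := hcl z hz
            have h3 := (hirr F q j z hq hj hz1).2.1 (fun h => hnot ⟨hz1, h⟩)
            rw [h3]
            simp [un]
          · refine ⟨_, specFind_chunks_mem (2 ^ j) (8 * 2 ^ j) i.1 (List.ofFn r.1) i.2, ?_⟩
            rw [specFind_ofFn (8 * 2 ^ j) (2 ^ j) i.1 i.2 r.1]
            exact ⟨List.length_ofFn, hcon⟩⟩ :
          {r : Fin (8 * 2 ^ j * 2 ^ j) → F //
            ∀ i : Fin (8 * 2 ^ j), ¬ Irreducible (mpol (List.ofFn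
              (fun t : Fin (2 ^ j) => r (finProdFinEquiv (i, t)))))}))
    intro r r' h
    have := congrArg Subtype.val h
    exact Subtype.ext this
  · intro r
    have h3 := specFind_cost irr (bits F q) (List.ofFn r) (un (2 ^ j)) (C * (2 ^ j * lgc q) ^ k)
      (by rw [hun]; exact List.length_ofFn) (by
        intro z hz
        rw [hun] at hz
        have := (hirr F q j z hq hj hz).2.2
        rw [hz] at this
        exact this)
    rw [hun] at h3
    refine le_trans h3 ?_
    have hl : 1 ≤ lgc q := by unfold lgc; omega
    have hx : 1 ≤ 2 ^ j * lgc q := Nat.one_le_iff_ne_zero.mpr (by positivity)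
    have hE2 : 2 ^ j + 1 ≤ 2 * (2 ^ j * lgc q) := by nlinarith
    set x := 2 ^ j * lgc q with hxdef
    have hxk : 1 ≤ x ^ k := Nat.one_le_pow _ _ hx
    calc (C * x ^ k + 400) * (2 ^ j + 1) ^ 2 * 8
        ≤ (C * x ^ k + 400 * x ^ k) * (2 * x) ^ 2 * 8 := by gcongr; omega
      _ = (C + 400) * 32 * x ^ (k + 2) := by ring

end Pool.Agent.H330FB.JE5
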