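/- JOB E6 (descent) for project FB (MP_8d07ed_lc, owner helper330), by helper851. All auxiliaries are in the namespace Desc. -/
import Pool.Agent.H330FB.Lib5
import Pool.Agent.H330FB.Spec4
set_option autoImplicit false

noncomputable section
namespace Pool.Agent.H330FB.JE6
open Polynomial

namespace Desc

/-! ### polynomials given by lists -/

theorem coeff_pol {R : Type} [CommRing R] (l : List R) (m : ℕ) :
    (pol l).coeff m = l.getD m 0 := by
  induction l generalizing m with
  | nil => simp [pol]
  | cons x l ih =>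
    cases m with
    | zero => simp [pol]
    | succ m => simp [pol, ih]

theorem pol_map {R S : Type} [CommRing R] [CommRing S] (f : R →+* S) (l : List R) :
    pol (l.map f) = (pol l).map f := by
  induction l with
  | nil => simp [pol]
  | cons x l ih => simp [pol, ih]

section
variable {K : Type} [Field K]

theorem coeff_biv (l : List (List K)) (m : ℕ) : (biv l).coeff m = pol (l.getD m []) := by
  rw [biv, coeff_pol]
  rcases lt_or_ge m l.length with h | h
  · simp [List.getD_eq_getElem?_getD, h]
  · rw [List.getD_eq_default _ _ (by simpa using h), List.getD_eq_default _ _ h]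
    rfl

theorem coeff_biv2 (l : List (List K)) (m j : ℕ) :
    ((biv l).coeff m).coeff j = (l.getD m []).getD j 0 := by
  rw [coeff_biv, coeff_pol]

theorem coeff_hom (l : List (List K)) (i j : ℕ) :
    ((hom l).coeff i).coeff j = (l.getD (i + j) []).getD j 0 := by
  unfold hom
  rw [finsetSum_coeff, finsetSum_coeff]
  have key : ∀ k, ((∑ j ∈ Finset.range (k + 1),
      C (C ((l.getD k []).getD j 0) * X ^ j) * X ^ (k - j) : K[X][X]).coeff i).coeff j =
      if k = i + j then (l.getD k []).getD j 0 else 0 := by
    intro k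
    rw [finsetSum_coeff, finsetSum_coeff]
    simp only [coeff_C_mul_X_pow, apply_ite (fun p : K[X] => p.coeff j), coeff_zero]
    by_cases h : k = i + j
    · rw [if_pos h, Finset.sum_eq_single j]
      · rw [if_pos (by omega), if_pos rfl]
      · intro b _ hb
        rw [if_neg hb.symm]
        simp
      · intro hb
        exfalso
        apply hb
        rw [Finset.mem_range]
        omega
    · rw [if_neg h]
      apply Finset.sum_eq_zero
      intro b hb
      rw [Finset.mem_range] at hb
      by_cases hb2 : j = b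
      · rw [if_neg (by omega)]
      · rw [if_neg hb2]
        simp
  rw [Finset.sum_congr rfl (fun k _ => key k)]
  rcases lt_or_ge (i + j) l.length with h | h
  · rw [Finset.sum_eq_single (i + j)]
    · rw [if_pos rfl]
    · intro b _ hb
      rw [if_neg hb]
    · intro hb
      rw [Finset.mem_range] at hb
      exact absurd h hb
  · rw [List.getD_eq_default _ _ h]
    rw [Finset.sum_eq_zero]
    · simp
    · intro b hb
      rw [Finset.mem_range] at hb
      rw [if_neg (by omega)]

/-- the substitution `y = z x` -/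
noncomputable def Psi (K : Type) [Field K] : K[X][X] →+* K[X][X] :=
  eval₂RingHom (eval₂RingHom (C.comp C : K →+* K[X][X]) (C X * X)) X

theorem coeff_Psi (f : K[X][X]) (n j : ℕ) :
    ((Psi K f).coeff n).coeff j = if j ≤ n then (f.coeff (n - j)).coeff j else 0 := by
  induction f using Polynomial.induction_on' with
  | add p q hp hq =>
    rw [map_add, coeff_add, coeff_add, hp, hq, coeff_add, coeff_add]
    split_ifs <;> simp
  | monomial i p =>
    induction p using Polynomial.induction_on' with
    | add p q hp hq =>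
      rw [map_add, map_add, coeff_add, coeff_add, hp, hq, coeff_add, coeff_add]
      split_ifs <;> simp
    | monomial j0 a =>
      have e : Psi K (monomial i (monomial j0 a)) = C (C a * X ^ j0) * X ^ (j0 + i) := by
        unfold Psi
        rw [coe_eval₂RingHom, eval₂_monomial, coe_eval₂RingHom, eval₂_monomial]
        simp only [RingHom.comp_apply, mul_pow, C_mul, C_pow, pow_add]
        ring
      rw [e, coeff_C_mul_X_pow, coeff_monomial]
      simp only [apply_ite (fun p : K[X] => p.coeff j), coeff_zero, coeff_C_mul_X_pow,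
        coeff_monomial]
      by_cases h1 : j ≤ n <;> by_cases h2 : j = j0 <;> by_cases h3 : n = j0 + i
      all_goals (try simp [h1, h2, h3])
      all_goals (try omega)

theorem Psi_injective : Function.Injective (Psi K) := by
  intro f g h
  ext i j
  have h1 := coeff_Psi f (i + j) j
  have h2 := coeff_Psi g (i + j) j
  rw [if_pos (by omega), show i + j - j = i by omega] at h1 h2
  rw [← h1, ← h2, h]

theorem IsHom.row {m : ℕ} {l : List (List K)} (h : IsHom m l) (k : ℕ) :
    (l.getD k []).length ≤ k + 1 := by
  rcases le_or_gt k m with h1 | h1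
  · exact (h.2 k h1).le
  · rw [List.getD_eq_default _ _ (by rw [h.1]; omega)]
    simp

theorem Psi_hom {m : ℕ} {l : List (List K)} (h : IsHom m l) : Psi K (hom l) = biv l := by
  ext n j
  rw [coeff_Psi, coeff_biv2]
  split_ifs with h1
  · rw [coeff_hom, show n - j + j = n by omega]
  · rw [List.getD_eq_default _ _]
    have := IsHom.row h n
    omega

theorem ext_biv {m : ℕ} {l l' : List (List K)} (h : IsHom m l) (h' : IsHom m l')
    (e : biv l = biv l') : l = l' := by
  apply List.ext_getElem (by rw [h.1, h'.1])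
  intro k hk hk'
  have hkm : k ≤ m := by rw [h.1] at hk; omega
  have e1 := h.2 k hkm
  have e2 := h'.2 k hkm
  rw [List.getD_eq_getElem _ _ hk] at e1
  rw [List.getD_eq_getElem _ _ hk'] at e2
  apply List.ext_getElem (by rw [e1, e2])
  intro j hj hj'
  have e3 := coeff_biv2 l k j
  have e4 := coeff_biv2 l' k j
  rw [List.getD_eq_getElem _ _ hk, List.getD_eq_getElem _ _ hj] at e3
  rw [List.getD_eq_getElem _ _ hk', List.getD_eq_getElem _ _ hj'] at e4
  rw [← e3, ← e4, e]

theorem ext_hom {m : ℕ} {l l' : List (List K)} (h : IsHom m l) (h' : IsHom m l')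
    (e : hom l = hom l') : l = l' := by
  apply ext_biv h h'
  rw [← Psi_hom h, ← Psi_hom h', e]

/-- normalized -/
def Nrm (m : ℕ) (l : List (List K)) : Prop :=
  ∃ i, (l.getD m []).getD i 0 = 1 ∧ ∀ j < i, (l.getD m []).getD j 0 = 0

theorem nrm_iff (m : ℕ) (l : List (List K)) :
    Nrm m l ↔ (pol (l.getD m [])).trailingCoeff = 1 := by
  unfold Nrm
  constructor
  · rintro ⟨i, h1, h2⟩
    rw [← coeff_pol] at h1
    have h3 : (pol (l.getD m [])).natTrailingDegree = i := by
      apply le_antisymm
      · apply natTrailingDegree_le_of_ne_zero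
        rw [h1]
        exact one_ne_zero
      · by_contra hcon
        have hlt : (pol (l.getD m [])).natTrailingDegree < i := by omega
        have h4 := h2 _ hlt
        rw [← coeff_pol, ← trailingCoeff, trailingCoeff_eq_zero] at h4
        rw [h4] at h1
        simp at h1
    unfold trailingCoeff
    rw [h3, h1]
  · intro h
    refine ⟨(pol (l.getD m [])).natTrailingDegree, ?_, ?_⟩
    · rw [← coeff_pol]
      exact h
    · intro j hj
      rw [← coeff_pol]
      exact coeff_eq_zero_of_lt_natTrailingDegree hj

theorem natDegree_biv_le {m : ℕ} {l : List (List K)} (h : l.length ≤ m + 1) :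
    (biv l).natDegree ≤ m := by
  rw [natDegree_le_iff_coeff_eq_zero]
  intro N hN
  rw [coeff_biv, List.getD_eq_default _ _ (by omega)]
  rfl

theorem natDegree_biv {m : ℕ} {l : List (List K)} (h : IsHom m l)
    (hne : pol (l.getD m []) ≠ 0) : (biv l).natDegree = m := by
  apply le_antisymm (natDegree_biv_le h.1.le)
  apply le_natDegree_of_ne_zero
  rw [coeff_biv]
  exact hne

theorem Nrm.ne {m : ℕ} {l : List (List K)} (h : Nrm m l) : pol (l.getD m []) ≠ 0 := by
  rw [nrm_iff] at h
  intro h0
  rw [h0] at h
  simp at h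

theorem leadingCoeff_biv {m : ℕ} {l : List (List K)} (h : IsHom m l) (hn : Nrm m l) :
    (biv l).leadingCoeff = pol (l.getD m []) := by
  rw [leadingCoeff, natDegree_biv h hn.ne, coeff_biv]

theorem eq_of_assoc {m m' : ℕ} {l l' : List (List K)} (h : IsHom m l) (hn : Nrm m l)
    (h' : IsHom m' l') (hn' : Nrm m' l') (ha : Associated (hom l) (hom l')) :
    m = m' ∧ l = l' := by
  obtain ⟨u, hu⟩ := ha
  obtain ⟨c, hc, hcu⟩ := Polynomial.isUnit_iff.mp u.isUnit
  obtain ⟨c', hc', hcc⟩ := Polynomial.isUnit_iff.mp hc
  rw [← hcu, ← hcc] at hu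
  have e := congrArg (Psi K) hu
  rw [map_mul, Psi_hom h, Psi_hom h'] at e
  have e2 : Psi K (C (C c')) = C (C c') := by
    unfold Psi
    simp
  rw [e2] at e
  have hc0 : c' ≠ 0 := hc'.ne_zero
  have e3 : (biv l').leadingCoeff = (biv l).leadingCoeff * C c' := by
    rw [← e, leadingCoeff_mul, leadingCoeff_C]
  rw [leadingCoeff_biv h hn, leadingCoeff_biv h' hn'] at e3
  have e4 := congrArg trailingCoeff e3
  rw [trailingCoeff_mul, (nrm_iff _ _).mp hn, (nrm_iff _ _).mp hn', one_mul] at e4
  have e5 : (C c' : K[X]).trailingCoeff = c' := by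
    rw [trailingCoeff, natTrailingDegree_C, coeff_C_zero]
  rw [e5] at e4
  rw [← e4, C_1, C_1, mul_one] at hu e
  have e6 : m = m' := by
    rw [← natDegree_biv h hn.ne, ← natDegree_biv h' hn'.ne, e]
  refine ⟨e6, ?_⟩
  subst e6
  exact ext_biv h h' e

theorem getD_map_map {K' : Type} [Field K'] (φ : K → K') (l : List (List K)) (k : ℕ) :
    (l.map (List.map φ)).getD k [] = (l.getD k []).map φ := by
  rcases lt_or_ge k l.length with h | h
  · simp [List.getD_eq_getElem?_getD, h]
  · rw [List.getD_eq_default _ _ (by simpa using h), List.getD_eq_default _ _ h]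
    rfl

theorem hom_map {K' : Type} [Field K'] (φ : K →+* K') (l : List (List K)) :
    hom (l.map (List.map φ)) = (hom l).map (mapRingHom φ) := by
  ext i j
  rw [coeff_hom, getD_map_map, coeff_map, coe_mapRingHom, coeff_map, coeff_hom]
  rcases lt_or_ge j (l.getD (i + j) []).length with h | h
  · rw [List.getD_eq_getElem _ _ (by simpa using h), List.getD_eq_getElem _ _ h]
    simp
  · rw [List.getD_eq_default _ _ (by simpa using h), List.getD_eq_default _ _ h]
    simp

theorem isHom_map {K' : Type} [Field K'] (φ : K → K') (m : ℕ) (l : List (List K)) :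
    IsHom m (l.map (List.map φ)) ↔ IsHom m l := by
  unfold IsHom
  simp only [getD_map_map, List.length_map]

end

/-! ### the Frobenius map -/

section
variable (F : Type) {K : Type} [Field F] [Fintype F] [Field K] [Fintype K] [Algebra F K]

/-- the Frobenius map -/
noncomputable def fr : K ≃+* K := (FiniteField.frobeniusAlgEquivOfAlgebraic F K).toRingEquiv

theorem fr_apply (z : K) : fr F z = z ^ Fintype.card F := by
  unfold fr
  have := FiniteField.coe_frobeniusAlgEquivOfAlgebraic F K
  exact congrFun this z

theorem fixed (z : K) (h : z ^ Fintype.card F = z) : ∃ w : F, algebraMap F K w = z := by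
  classical
  set q := Fintype.card F with hq
  have hq1 : 1 < q := Fintype.one_lt_card
  have hne : (X ^ q - X : K[X]) ≠ 0 := FiniteField.X_pow_card_sub_X_ne_zero K hq1
  have hsub : (Finset.univ.image (algebraMap F K)) ⊆ (X ^ q - X : K[X]).roots.toFinset := by
    intro x hx
    rw [Finset.mem_image] at hx
    obtain ⟨w, _, rfl⟩ := hx
    rw [Multiset.mem_toFinset, mem_roots hne, IsRoot.def, eval_sub, eval_pow, eval_X, ← map_pow,
      FiniteField.pow_card, sub_self]
  have hcard : (X ^ q - X : K[X]).roots.toFinset.card ≤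
      (Finset.univ.image (algebraMap F K)).card := by
    rw [Finset.card_image_of_injective _ (algebraMap F K).injective, Finset.card_univ]
    calc _ ≤ (X ^ q - X : K[X]).roots.card := Multiset.toFinset_card_le _
      _ ≤ (X ^ q - X : K[X]).natDegree := card_roots' _
      _ = q := FiniteField.X_pow_card_sub_X_natDegree_eq K hq1
  have heq := Finset.eq_of_subset_of_card_le hsub hcard
  have hz : z ∈ (X ^ q - X : K[X]).roots.toFinset := by
    rw [Multiset.mem_toFinset, mem_roots hne, IsRoot.def, eval_sub, eval_pow, eval_X, h, sub_self]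
  rw [← heq, Finset.mem_image] at hz
  obtain ⟨w, _, hw⟩ := hz
  exact ⟨w, hw⟩

/-- the Frobenius map on bivariate polynomials -/
noncomputable def Fr : K[X][X] ≃+* K[X][X] := mapEquiv (mapEquiv (fr F))

/-- the Frobenius map as a homomorphism -/
noncomputable def frh : K →+* K := (fr F (K := K)).toRingHom

theorem frh_apply (z : K) : frh F z = z ^ Fintype.card F := fr_apply F z

theorem Fr_apply (f : K[X][X]) : Fr F f = f.map (mapRingHom (frh F)) := by
  ext i j
  simp [Fr, frh]

/-- the Frobenius map on lists -/
def frl (q : ℕ) (l : List (List K)) : List (List K) := l.map (List.map (fun z => z ^ q))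

theorem hom_frl (l : List (List K)) : hom (frl (Fintype.card F) l) = Fr F (hom l) := by
  rw [Fr_apply, ← hom_map]
  unfold frl
  have : (fun z : K => z ^ Fintype.card F) = frh F := by
    funext z
    exact (frh_apply F z).symm
  rw [this]

/-- the inclusion -/
noncomputable def io (F K : Type) [Field F] [Field K] [Algebra F K] : F[X][X] →+* K[X][X] :=
  mapRingHom (mapRingHom (algebraMap F K))

theorem io_inj : Function.Injective (io F K) := by
  unfold io
  rw [coe_mapRingHom]
  apply map_injective
  rw [coe_mapRingHom]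
  exact map_injective _ (algebraMap F K).injective

theorem Fr_io (f : F[X][X]) : Fr F (io F K f) = io F K f := by
  rw [Fr_apply]
  ext i j
  simp only [io, coe_mapRingHom, coeff_map]
  rw [frh_apply, ← map_pow, FiniteField.pow_card]

theorem Fr_fixed (f : K[X][X]) (h : Fr F f = f) : ∃ g : F[X][X], io F K g = f := by
  have h1 : ∀ i j, ∃ w : F, algebraMap F K w = (f.coeff i).coeff j := by
    intro i j
    apply fixed F
    rw [Fr_apply] at h
    have := congrArg (fun p : K[X][X] => (p.coeff i).coeff j) h
    simp only [coeff_map, coe_mapRingHom] at this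
    rw [frh_apply] at this
    exact this
  choose w hw using h1
  have h2 : ∀ i, ∃ g : F[X], g.map (algebraMap F K) = f.coeff i := by
    intro i
    refine ⟨∑ j ∈ Finset.range ((f.coeff i).natDegree + 1), C (w i j) * X ^ j, ?_⟩
    rw [Polynomial.map_sum]
    conv_rhs => rw [(f.coeff i).as_sum_range_C_mul_X_pow]
    apply Finset.sum_congr rfl
    intro j _
    rw [Polynomial.map_mul, map_C, Polynomial.map_pow, map_X, hw]
  choose g hg using h2
  refine ⟨∑ i ∈ Finset.range (f.natDegree + 1), C (g i) * X ^ i, ?_⟩
  unfold io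
  rw [map_sum]
  conv_rhs => rw [f.as_sum_range_C_mul_X_pow]
  apply Finset.sum_congr rfl
  intro i _
  rw [map_mul, map_pow, coe_mapRingHom, map_C, map_X, coe_mapRingHom, hg]

end

end Desc

end Pool.Agent.H330FB.JE6

noncomputable section
namespace Pool.Agent.H330FB.JE6
open Polynomial

namespace Desc

/-! ### norms -/

section
variable (F : Type) {K : Type} [Field F] [Fintype F] [Field K] [Fintype K] [Algebra F K]

/-- normalized irreducible polynomial, given by homogeneous parts -/
def NI {K : Type} [Field K] (m : ℕ) (l : List (List K)) : Prop :=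
  1 ≤ m ∧ IsHom m l ∧ Nrm m l ∧ Irreducible (hom l)

omit [Fintype F] [Fintype K] [Field F] [Algebra F K] in
theorem getD_map_zero {K K' : Type} [Field K] [Field K'] (φ : K → K') (h0 : φ 0 = 0) (r : List K)
    (j : ℕ) : (r.map φ).getD j 0 = φ (r.getD j 0) := by
  rcases lt_or_ge j r.length with h | h
  · rw [List.getD_eq_getElem _ _ (by simpa using h), List.getD_eq_getElem _ _ h]
    simp
  · rw [List.getD_eq_default _ _ (by simpa using h), List.getD_eq_default _ _ h, h0]

omit [Fintype F] [Fintype K] [Field F] [Algebra F K] in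
theorem nrm_frl (q m : ℕ) (hq : 1 ≤ q) (l : List (List K)) (h : Nrm m l) : Nrm m (frl q l) := by
  obtain ⟨i, h1, h2⟩ := h
  refine ⟨i, ?_, ?_⟩
  · rw [frl, getD_map_map, getD_map_zero _ (by simp; omega), h1, one_pow]
  · intro j hj
    rw [frl, getD_map_map, getD_map_zero _ (by simp; omega), h2 j hj, zero_pow (by omega)]

theorem ni_frl (m : ℕ) (l : List (List K)) (h : NI m l) : NI m (frl (Fintype.card F) l) := by
  obtain ⟨h1, h2, h3, h4⟩ := h
  refine ⟨h1, (isHom_map _ _ _).mpr h2, nrm_frl _ _ Fintype.card_pos _ h3, ?_⟩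
  rw [hom_frl]
  exact (MulEquiv.irreducible_iff (Fr F (K := K))).mpr h4

theorem ni_frl_iter (m n : ℕ) (l : List (List K)) (h : NI m l) :
    NI m ((frl (Fintype.card F))^[n] l) := by
  induction n with
  | zero => exact h
  | succ n ih =>
    rw [Function.iterate_succ_apply']
    exact ni_frl F m _ ih

omit [Fintype F] [Fintype K] [Field F] [Algebra F K] in
theorem frl_iter (q n : ℕ) (l : List (List K)) :
    (frl q)^[n] l = frl (q ^ n) l := by
  induction n with
  | zero => simp [frl]
  | succ n ih =>
    rw [Function.iterate_succ_apply', ih]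
    simp only [frl, List.map_map, pow_succ]
    apply List.map_congr_left
    intro r _
    simp only [Function.comp_apply, List.map_map]
    apply List.map_congr_left
    intro z _
    simp only [Function.comp_apply, pow_mul]

omit [Fintype F] [Field F] [Algebra F K] in
theorem frl_card (l : List (List K)) : frl (Fintype.card K) l = l := by
  unfold frl
  have : (fun z : K => z ^ Fintype.card K) = id := by
    funext z
    exact FiniteField.pow_card z
  rw [this]
  simp

theorem frl_period {e : ℕ} (he : Fintype.card K = Fintype.card F ^ e) (l : List (List K)) :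
    Function.IsPeriodicPt (frl (Fintype.card F)) e l := by
  unfold Function.IsPeriodicPt Function.IsFixedPt
  rw [frl_iter, ← he, frl_card]

/-- the period -/
noncomputable def per (l : List (List K)) : ℕ := Function.minimalPeriod (frl (Fintype.card F)) l

theorem per_pos {e : ℕ} (he : Fintype.card K = Fintype.card F ^ e) (he1 : 1 ≤ e)
    (l : List (List K)) : 0 < per F l :=
  (frl_period F he l).minimalPeriod_pos he1

theorem per_le {e : ℕ} (he : Fintype.card K = Fintype.card F ^ e) (he1 : 1 ≤ e)
    (l : List (List K)) : per F l ≤ e :=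
  (frl_period F he l).minimalPeriod_le he1

omit [Fintype K] [Algebra F K] in
theorem frl_per (l : List (List K)) : (frl (Fintype.card F))^[per F l] l = l :=
  Function.iterate_minimalPeriod

/-- the norm -/
noncomputable def NP (l : List (List K)) : K[X][X] :=
  ∏ i ∈ Finset.range (per F l), hom ((frl (Fintype.card F))^[i] l)

theorem Fr_prod (l : List (List K)) (n : ℕ) :
    Fr F (∏ i ∈ Finset.range n, hom ((frl (Fintype.card F))^[i] l)) =
      ∏ i ∈ Finset.range n, hom ((frl (Fintype.card F))^[i + 1] l) := by
  rw [map_prod]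
  apply Finset.prod_congr rfl
  intro i _
  rw [Function.iterate_succ_apply', hom_frl]

theorem Fr_NP {e : ℕ} (he : Fintype.card K = Fintype.card F ^ e) (he1 : 1 ≤ e)
    (l : List (List K)) : Fr F (NP F l) = NP F l := by
  unfold NP
  rw [Fr_prod]
  obtain ⟨n, hn⟩ : ∃ n, per F l = n + 1 := ⟨per F l - 1, by have := per_pos F he he1 l; omega⟩
  rw [hn, Finset.prod_range_succ, Finset.prod_range_succ', ← hn, frl_per]
  rfl

theorem NP_frl {e : ℕ} (he : Fintype.card K = Fintype.card F ^ e) (he1 : 1 ≤ e)
    (l : List (List K)) : NP F (frl (Fintype.card F) l) = NP F l := by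
  have h1 : per F (frl (Fintype.card F) l) = per F l :=
    Function.minimalPeriod_apply ⟨e, he1, frl_period F he l⟩
  have h2 : NP F (frl (Fintype.card F) l) = Fr F (NP F l) := by
    unfold NP
    rw [Fr_prod, h1]
    rfl
  rw [h2, Fr_NP F he he1]

theorem NP_frl_iter {e : ℕ} (he : Fintype.card K = Fintype.card F ^ e) (he1 : 1 ≤ e)
    (l : List (List K)) (n : ℕ) : NP F ((frl (Fintype.card F))^[n] l) = NP F l ∧
      per F ((frl (Fintype.card F))^[n] l) = per F l := by
  constructor
  · induction n with
    | zero => rfl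
    | succ n ih => rw [Function.iterate_succ_apply', NP_frl F he he1, ih]
  · exact Function.minimalPeriod_apply_iterate ⟨e, he1, frl_period F he l⟩ n

omit [Fintype F] [Fintype K] [Field F] [Algebra F K] in
theorem eq_of_dvd {m m' : ℕ} {l l' : List (List K)} (h : NI m l) (h' : NI m' l')
    (hd : hom l ∣ hom l') : m = m' ∧ l = l' :=
  eq_of_assoc h.2.1 h.2.2.1 h'.2.1 h'.2.2.1 (h.2.2.2.associated_of_dvd h'.2.2.2 hd)

omit [Fintype F] [Fintype K] [Field F] [Algebra F K] in
theorem prime_hom {m : ℕ} {l : List (List K)} (h : NI m l) : Prime (hom l) :=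
  h.2.2.2.prime

/-- if one conjugate divides a polynomial fixed by Frobenius, then so does the norm -/
theorem NP_dvd {m : ℕ} {l : List (List K)} (h : NI m l) (f : K[X][X]) (hf : Fr F f = f)
    (hd : hom l ∣ f) : NP F l ∣ f := by
  have hd' : ∀ n, hom ((frl (Fintype.card F))^[n] l) ∣ f := by
    intro n
    induction n with
    | zero => exact hd
    | succ n ih =>
      rw [Function.iterate_succ_apply', hom_frl]
      obtain ⟨c, hc⟩ := ih
      refine ⟨Fr F c, ?_⟩
      rw [← map_mul, ← hc, hf]
  unfold NP
  apply Finset.prod_dvd_of_isRelPrime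
  · intro i hi j hj hij
    have hi' : i < per F l := by simpa using hi
    have hj' : j < per F l := by simpa using hj
    show IsRelPrime _ _
    rw [(ni_frl_iter F m i l h).2.2.2.isRelPrime_iff_not_dvd]
    intro hdv
    have e1 := (eq_of_dvd (ni_frl_iter F m i l h) (ni_frl_iter F m j l h) hdv).2
    exact hij (Function.iterate_injOn_Iio_minimalPeriod (Set.mem_Iio.mpr hi')
      (Set.mem_Iio.mpr hj') e1)
  · intro i _
    exact hd' i

omit [Fintype K] in
theorem io_unit (b : F[X][X]) [Fintype K] (h : IsUnit (io F K b)) : IsUnit b := by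
  obtain ⟨c, hc⟩ := isUnit_iff_exists_inv.mp h
  have hb0 : io F K b ≠ 0 := by
    intro h0
    rw [h0, zero_mul] at hc
    exact zero_ne_one hc
  have h1 : Fr F c = c := by
    have h2 : Fr F (io F K b * c) = 1 := by rw [hc, map_one]
    rw [map_mul, Fr_io] at h2
    exact mul_left_cancel₀ hb0 (h2.trans hc.symm)
  obtain ⟨g, hg⟩ := Fr_fixed F c h1
  rw [← hg, ← map_mul, ← map_one (io F K)] at hc
  exact IsUnit.of_mul_eq_one _ (io_inj F hc)

theorem norm_irr {e : ℕ} (he : Fintype.card K = Fintype.card F ^ e) (he1 : 1 ≤ e)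
    {m : ℕ} {l : List (List K)} (h : NI m l) (N : F[X][X]) (hN : io F K N = NP F l) :
    Irreducible N := by
  have hdN : hom l ∣ NP F l := by
    have h0 : 0 ∈ Finset.range (per F l) := Finset.mem_range.mpr (per_pos F he he1 l)
    have h1 := Finset.dvd_prod_of_mem (fun i => hom ((frl (Fintype.card F))^[i] l)) h0
    simp only [Function.iterate_zero, id_eq] at h1
    exact h1
  have hN0 : NP F l ≠ 0 := by
    unfold NP
    rw [Finset.prod_ne_zero_iff]
    intro i _
    exact (ni_frl_iter F m i l h).2.2.2.ne_zero
  have key : ∀ a b : F[X][X], N = a * b → hom l ∣ io F K a → IsUnit b := by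
    intro a b hab hd
    have h1 := NP_dvd F h (io F K a) (Fr_io F a) hd
    rw [← hN, hab, map_mul] at h1
    obtain ⟨c, hc⟩ := h1
    have ha0 : io F K a ≠ 0 := by
      intro h0
      rw [← hN, hab, map_mul, h0, zero_mul] at hN0
      exact hN0 rfl
    apply io_unit F (K := K) b
    apply IsUnit.of_mul_eq_one c
    apply mul_left_cancel₀ ha0
    rw [mul_one, ← mul_assoc]
    exact hc.symm
  constructor
  · intro hu
    have h1 : IsUnit (NP F l) := by
      rw [← hN]
      exact hu.map (io F K)
    exact h.2.2.2.not_isUnit (isUnit_of_dvd_unit hdN h1)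
  · intro a b hab
    have h1 : hom l ∣ io F K a * io F K b := by
      rw [← map_mul, ← hab, hN]
      exact hdN
    rcases (prime_hom h).dvd_or_dvd h1 with h2 | h2
    · right
      exact key a b hab h2
    · left
      exact key b a (by rw [hab, mul_comm]) h2

/-- `R` is the matrix of the norm of `l` -/
def IsNorm (l R : List (List K)) : Prop :=
  ∃ m, NI m l ∧ IsHom (per F l * m) R ∧ hom R = NP F l

theorem IsNorm.fixed {e : ℕ} (he : Fintype.card K = Fintype.card F ^ e) (he1 : 1 ≤ e)
    {l R : List (List K)} (h : IsNorm F l R) : frl (Fintype.card F) R = R := by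
  obtain ⟨m, h1, h2, h3⟩ := h
  apply ext_hom ((isHom_map _ _ _).mpr h2) h2
  have h4 : hom (frl (Fintype.card F) R) = hom R := by
    rw [hom_frl, h3, Fr_NP F he he1]
  exact h4

theorem exists_descent (R : List (List K)) (h : frl (Fintype.card F) R = R) :
    ∃ R' : List (List F), R'.map (List.map (algebraMap F K)) = R := by
  have h1 : ∀ r ∈ R, ∃ r' : List F, r'.map (algebraMap F K) = r := by
    intro r hr
    have h2 : r.map (fun z => z ^ Fintype.card F) = r := by
      obtain ⟨k, hk, rfl⟩ := List.getElem_of_mem hr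
      have h3 := List.getElem_of_eq h.symm hk
      unfold frl at h3
      rw [List.getElem_map] at h3
      exact h3.symm
    have h4 : ∀ z ∈ r, ∃ w : F, algebraMap F K w = z := by
      intro z hz
      apply fixed F
      obtain ⟨k, hk, rfl⟩ := List.getElem_of_mem hz
      have h3 := List.getElem_of_eq h2.symm hk
      rw [List.getElem_map] at h3
      exact h3.symm
    have h5 : r ∈ Set.range (List.map (algebraMap F K)) := by
      rw [Set.range_list_map]
      exact h4
    exact h5
  have h5 : R ∈ Set.range (List.map (List.map (algebraMap F K))) := by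
    rw [Set.range_list_map]
    exact h1
  exact h5

theorem IsNorm.of_iter {e : ℕ} (he : Fintype.card K = Fintype.card F ^ e) (he1 : 1 ≤ e)
    {l R : List (List K)} (h : IsNorm F l R) (n : ℕ) :
    IsNorm F ((frl (Fintype.card F))^[n] l) R := by
  obtain ⟨m, h1, h2, h3⟩ := h
  obtain ⟨h4, h5⟩ := NP_frl_iter F he he1 l n
  exact ⟨m, ni_frl_iter F m n l h1, by rw [h5]; exact h2, by rw [h4]; exact h3⟩

/-- the degree and the normalization of the norm -/
theorem IsNorm.nrm {e : ℕ} (he : Fintype.card K = Fintype.card F ^ e) (he1 : 1 ≤ e)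
    {l R : List (List K)} {m : ℕ} (h1 : NI m l) (h2 : IsHom (per F l * m) R)
    (h3 : hom R = NP F l) : Nrm (per F l * m) R := by
  have e1 : biv R = ∏ i ∈ Finset.range (per F l), biv ((frl (Fintype.card F))^[i] l) := by
    rw [← Psi_hom h2, h3, NP, map_prod]
    apply Finset.prod_congr rfl
    intro i _
    exact Psi_hom (ni_frl_iter F m i l h1).2.1
  have e2 : (biv R).leadingCoeff = ∏ i ∈ Finset.range (per F l),
      pol (((frl (Fintype.card F))^[i] l).getD m []) := by
    rw [e1, leadingCoeff_prod]
    apply Finset.prod_congr rfl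
    intro i _
    have := ni_frl_iter F m i l h1
    exact leadingCoeff_biv this.2.1 this.2.2.1
  have e3 : (biv R).natDegree = per F l * m := by
    rw [e1, natDegree_prod]
    · rw [Finset.sum_congr rfl (g := fun _ => m)]
      · simp
      · intro i _
        have := ni_frl_iter F m i l h1
        exact natDegree_biv this.2.1 this.2.2.1.ne
    · intro i _ h0
      have := ni_frl_iter F m i l h1
      have h4 := leadingCoeff_biv this.2.1 this.2.2.1
      rw [h0, leadingCoeff_zero] at h4
      exact this.2.2.1.ne h4.symm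
  rw [nrm_iff, ← coeff_biv, ← e3]
  show (biv R).leadingCoeff.trailingCoeff = 1
  rw [e2]
  have key : ∀ n, (∏ i ∈ Finset.range n,
      pol (((frl (Fintype.card F))^[i] l).getD m [])).trailingCoeff = 1 := by
    intro n
    induction n with
    | zero =>
      rw [Finset.prod_range_zero, ← C_1, trailingCoeff, natTrailingDegree_C, coeff_C_zero]
    | succ n ih =>
      rw [Finset.prod_range_succ, trailingCoeff_mul, ih, one_mul]
      exact (nrm_iff _ _).mp (ni_frl_iter F m n l h1).2.2.1
  exact key _

theorem IsNorm.unique {e : ℕ} (he : Fintype.card K = Fintype.card F ^ e) (he1 : 1 ≤ e)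
    {l R R' : List (List K)} (h : IsNorm F l R) (h' : IsNorm F l R') : R = R' := by
  obtain ⟨m, h1, h2, h3⟩ := h
  obtain ⟨m', h1', h2', h3'⟩ := h'
  exact (eq_of_assoc h2 (IsNorm.nrm F he he1 h1 h2 h3) h2' (IsNorm.nrm F he he1 h1' h2' h3')
    (by rw [h3, h3'])).2

theorem IsNorm.conj {l l' R : List (List K)} (h : IsNorm F l R) (h' : IsNorm F l' R) {e : ℕ}
    (he : Fintype.card K = Fintype.card F ^ e) (he1 : 1 ≤ e) :
    ∃ i < per F l, l' = (frl (Fintype.card F))^[i] l := by
  obtain ⟨m, h1, h2, h3⟩ := h
  obtain ⟨m', h1', h2', h3'⟩ := h'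
  have h4 : hom l' ∣ NP F l := by
    rw [← h3, h3']
    have h0 : 0 ∈ Finset.range (per F l') := Finset.mem_range.mpr (per_pos F he he1 l')
    have h1 := Finset.dvd_prod_of_mem (fun i => hom ((frl (Fintype.card F))^[i] l')) h0
    simp only [Function.iterate_zero, id_eq] at h1
    exact h1
  unfold NP at h4
  rw [(prime_hom h1').dvd_finset_prod_iff] at h4
  obtain ⟨i, hi, hd⟩ := h4
  exact ⟨i, Finset.mem_range.mp hi, (eq_of_dvd h1' (ni_frl_iter F m i l h1) hd).2⟩

end

end Desc

end Pool.Agent.H330FB.JE6

noncomputable section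
namespace Pool.Agent.H330FB.JE6
open Polynomial

namespace Desc

/-! ### the descent of the factorization -/

section
variable (F : Type) {K : Type} [Field F] [Fintype F] [Field K] [Fintype K] [Algebra F K]

/-- the hypotheses on a factorization -/
def Fac (f : K[X][X]) (out : List (List (List K) × List Unit)) : Prop :=
  (∃ u : K, u ≠ 0 ∧ f = C (C u) * (out.map (fun o => hom o.1 ^ o.2.length)).prod) ∧
  (∀ o ∈ out, (∃ m, NI m o.1) ∧ 1 ≤ o.2.length) ∧ (out.map Prod.fst).Nodup

omit [Fintype F] [Fintype K] [Field F] [Algebra F K] in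
theorem fac_iff (f : K[X][X]) (out : List (List (List K) × List Unit)) :
    FacGood f out ↔ Fac f out := by
  unfold FacGood Fac NI Nrm
  constructor
  · rintro ⟨h1, h2, h3⟩
    refine ⟨h1, ?_, h3⟩
    intro o ho
    obtain ⟨m, i, a, b, c, d, e, g⟩ := h2 o ho
    exact ⟨⟨m, a, b, ⟨i, c, d⟩, e⟩, g⟩
  · rintro ⟨h1, h2, h3⟩
    refine ⟨h1, ?_, h3⟩
    intro o ho
    obtain ⟨⟨m, a, b, ⟨i, c, d⟩, e⟩, g⟩ := h2 o ho
    exact ⟨m, i, a, b, c, d, e, g⟩

omit [Fintype F] [Fintype K] [Field F] [Algebra F K] in
theorem fst_inj {α β : Type} {L : List (α × β)} (h : (L.map Prod.fst).Nodup) {x y : α × β}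
    (hx : x ∈ L) (hy : y ∈ L) (e : x.1 = y.1) : x = y :=
  List.inj_on_of_nodup_map h hx hy e

/-- multiplicities do not decrease under Frobenius -/
theorem mult_le (f : F[X][X]) (out : List (List (List K) × List Unit))
    (h : Fac (io F K f) out) (o : List (List K) × List Unit) (ho : o ∈ out) :
    ∃ o' ∈ out, o'.1 = frl (Fintype.card F) o.1 ∧ o.2.length ≤ o'.2.length := by
  classical
  obtain ⟨⟨u, hu, hf⟩, h2, h3⟩ := h
  obtain ⟨⟨m, hm⟩, hc⟩ := h2 o ho
  have hP := ni_frl F m o.1 hm
  set P := hom (frl (Fintype.card F) o.1) with hPdef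
  have hprime : Prime P := prime_hom hP
  -- the power of P divides the polynomial
  have hd1 : hom o.1 ^ o.2.length ∣ io F K f := by
    rw [hf]
    apply Dvd.dvd.mul_left
    exact List.dvd_prod (List.mem_map.mpr ⟨o, ho, rfl⟩)
  have hd2 : P ^ o.2.length ∣ io F K f := by
    obtain ⟨c, hc⟩ := hd1
    refine ⟨Fr F c, ?_⟩
    rw [hPdef, hom_frl, ← map_pow, ← map_mul, ← hc, Fr_io]
  have hunit : ¬ P ∣ C (C u) := by
    intro hd
    apply hprime.not_isUnit
    apply isUnit_of_dvd_unit hd
    exact (isUnit_C.mpr (isUnit_C.mpr (isUnit_iff_ne_zero.mpr hu)))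
  have hd3 : P ^ o.2.length ∣ (out.map (fun o => hom o.1 ^ o.2.length)).prod := by
    rw [hf] at hd2
    exact hprime.pow_dvd_of_dvd_mul_left _ hunit hd2
  have hd4 : P ∣ (out.map (fun o => hom o.1 ^ o.2.length)).prod :=
    (dvd_pow_self P (by omega)).trans hd3
  rw [hprime.dvd_prod_iff] at hd4
  obtain ⟨a, ha, hPa⟩ := hd4
  obtain ⟨o', ho', rfl⟩ := List.mem_map.mp ha
  obtain ⟨⟨m', hm'⟩, hc'⟩ := h2 o' ho'
  have e1 := (eq_of_dvd hP hm' (hprime.dvd_of_dvd_pow hPa)).2
  refine ⟨o', ho', e1.symm, ?_⟩
  -- split off the factor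
  have hperm : out.Perm (o' :: out.erase o') := List.perm_cons_erase ho'
  have hnd : out.Nodup := List.Nodup.of_map _ h3
  rw [(hperm.map _).prod_eq, List.map_cons, List.prod_cons] at hd3
  have hrest : ¬ P ∣ ((out.erase o').map (fun o => hom o.1 ^ o.2.length)).prod := by
    intro hd
    rw [hprime.dvd_prod_iff] at hd
    obtain ⟨b, hb, hPb⟩ := hd
    obtain ⟨o'', ho'', rfl⟩ := List.mem_map.mp hb
    rw [hnd.mem_erase_iff] at ho''
    obtain ⟨⟨m'', hm''⟩, _⟩ := h2 o'' ho''.2
    have e2 := (eq_of_dvd hP hm'' (hprime.dvd_of_dvd_pow hPb)).2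
    exact ho''.1 (fst_inj h3 ho''.2 ho' (by rw [← e2, ← e1]))
  have hd5 := hprime.pow_dvd_of_dvd_mul_right _ hrest hd3
  rw [← e1, ← hPdef] at hd5
  exact (pow_dvd_pow_iff hprime.ne_zero hprime.not_isUnit).mp hd5

theorem mult_iter (f : F[X][X]) (out : List (List (List K) × List Unit))
    (h : Fac (io F K f) out) (o : List (List K) × List Unit) (ho : o ∈ out) (n : ℕ) :
    ∃ o' ∈ out, o'.1 = (frl (Fintype.card F))^[n] o.1 ∧ o.2.length ≤ o'.2.length := by
  induction n with
  | zero => exact ⟨o, ho, rfl, le_rfl⟩
  | succ n ih =>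
    obtain ⟨o', ho', h1, h2⟩ := ih
    obtain ⟨o'', ho'', h3, h4⟩ := mult_le F f out h o' ho'
    refine ⟨o'', ho'', ?_, h2.trans h4⟩
    rw [Function.iterate_succ_apply', h3, h1]

theorem mult_eq {e : ℕ} (he : Fintype.card K = Fintype.card F ^ e) (he1 : 1 ≤ e) (f : F[X][X])
    (out : List (List (List K) × List Unit))
    (h : Fac (io F K f) out) (o : List (List K) × List Unit) (ho : o ∈ out) (n : ℕ) :
    ∃ o' ∈ out, o'.1 = (frl (Fintype.card F))^[n] o.1 ∧ o'.2 = o.2 := by
  obtain ⟨o', ho', h1, h2⟩ := mult_iter F f out h o ho n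
  refine ⟨o', ho', h1, ?_⟩
  obtain ⟨o'', ho'', h3, h4⟩ := mult_iter F f out h o' ho' (n * (e - 1))
  have h5 : o''.1 = o.1 := by
    rw [h3, h1, ← Function.iterate_add_apply]
    have : n * (e - 1) + n = e * n := by
      obtain ⟨e', rfl⟩ : ∃ e', e = e' + 1 := ⟨e - 1, by omega⟩
      simp only [Nat.add_sub_cancel]
      ring
    rw [this]
    exact (frl_period F he o.1).mul_const n
  have h6 := fst_inj h.2.2 ho'' ho h5
  rw [h6] at h4
  have h7 : o'.2.length = o.2.length := le_antisymm h4 h2
  apply List.ext_getElem h7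
  intro i _ _
  rfl

theorem descend {e : ℕ} (he : Fintype.card K = Fintype.card F ^ e) (he1 : 1 ≤ e)
    (f : F[X][X]) (out res : List (List (List K) × List Unit)) (h : Fac (io F K f) out)
    (hr1 : (res.map Prod.fst).Nodup)
    (hr2 : ∀ x ∈ res, ∃ o ∈ out, x.2 = o.2 ∧ IsNorm F o.1 x.1)
    (hr3 : ∀ o ∈ out, ∃ x ∈ res, IsNorm F o.1 x.1) :
    ∃ outF : List (List (List F) × List Unit), FacGood f outF ∧
      res = outF.map (fun x => (x.1.map (List.map (algebraMap F K)), x.2)) := by
  classical
  have hout : out.Nodup := List.Nodup.of_map _ h.2.2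
  have hres : res.Nodup := List.Nodup.of_map _ hr1
  -- descent of the matrices
  have hdes : ∀ x ∈ res, ∃ y : List (List F) × List Unit,
      (y.1.map (List.map (algebraMap F K)), y.2) = x := by
    intro x hx
    obtain ⟨o, ho, h1, h2⟩ := hr2 x hx
    obtain ⟨R', hR'⟩ := exists_descent F x.1 (IsNorm.fixed F he he1 h2)
    exact ⟨(R', x.2), by rw [hR']⟩
  have hex : res ∈ Set.range (List.map
      (fun y : List (List F) × List Unit => (y.1.map (List.map (algebraMap F K)), y.2))) := by
    rw [Set.range_list_map]
    exact hdes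
  obtain ⟨outF, houtF⟩ := hex
  refine ⟨outF, ?_, houtF.symm⟩
  -- the product of the result
  have hprod : (out.map (fun o => hom o.1 ^ o.2.length)).prod =
      (res.map (fun o => hom o.1 ^ o.2.length)).prod := by
    rw [← List.prod_toFinset _ hout, ← List.prod_toFinset _ hres]
    choose! g hg1 hg2 using hr3
    rw [← Finset.prod_fiberwise_of_maps_to (s := out.toFinset) (t := res.toFinset) (g := g)
      (fun o ho => by
        rw [List.mem_toFinset] at ho ⊢
        exact hg1 o ho)]
    apply Finset.prod_congr rfl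
    intro x hx
    rw [List.mem_toFinset] at hx
    obtain ⟨o0, ho0, hx2, hN⟩ := hr2 x hx
    obtain ⟨m, hm1, hm2, hm3⟩ := id hN
    have hmul := mult_eq F he he1 f out h o0 ho0
    choose w hw1 hw2 hw3 using hmul
    rw [hm3, NP, ← Finset.prod_pow]
    symm
    apply Finset.prod_bij (fun i _ => w i)
    · intro i hi
      rw [Finset.mem_filter, List.mem_toFinset]
      refine ⟨hw1 i, ?_⟩
      apply fst_inj hr1 (hg1 _ (hw1 i)) hx
      apply IsNorm.unique F he he1 (hg2 _ (hw1 i))
      rw [hw2]
      exact IsNorm.of_iter F he he1 hN i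
    · intro i hi j hj hij
      have e1 : (frl (Fintype.card F))^[i] o0.1 = (frl (Fintype.card F))^[j] o0.1 := by
        rw [← hw2, ← hw2, hij]
      exact Function.iterate_injOn_Iio_minimalPeriod
        (Set.mem_Iio.mpr (Finset.mem_range.mp hi)) (Set.mem_Iio.mpr (Finset.mem_range.mp hj)) e1
    · intro o ho
      rw [Finset.mem_filter, List.mem_toFinset] at ho
      have h1 := hg2 o ho.1
      rw [ho.2] at h1
      obtain ⟨i, hi, hi2⟩ := IsNorm.conj F hN h1 he he1
      refine ⟨i, Finset.mem_range.mpr hi, ?_⟩
      exact fst_inj h.2.2 (hw1 i) ho.1 (by rw [hw2, hi2])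
    · intro i hi
      rw [hw2, hw3, hx2]
  have hhom : ∀ y : List (List F), hom (y.map (List.map (algebraMap F K))) = io F K (hom y) := by
    intro y
    rw [hom_map]
    rfl
  have hprod2 : (res.map (fun o => hom o.1 ^ o.2.length)).prod =
      io F K ((outF.map (fun o => hom o.1 ^ o.2.length)).prod) := by
    rw [← houtF, map_list_prod, List.map_map, List.map_map]
    congr 1
    apply List.map_congr_left
    intro y _
    simp only [Function.comp_apply, map_pow]
    rw [hhom]
  -- properties of the factors
  have hfac : ∀ y ∈ outF, (∃ m, NI m y.1) ∧ 1 ≤ y.2.length := by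
    intro y hy
    have hx : (y.1.map (List.map (algebraMap F K)), y.2) ∈ res := by
      rw [← houtF]
      exact List.mem_map.mpr ⟨y, hy, rfl⟩
    obtain ⟨o, ho, h1, h2⟩ := hr2 _ hx
    obtain ⟨m, hm1, hm2, hm3⟩ := id h2
    simp only at h1 hm2 hm3
    have hn := IsNorm.nrm F he he1 hm1 hm2 hm3
    refine ⟨⟨per F o.1 * m, ?_, ?_, ?_, ?_⟩, ?_⟩
    · exact Nat.mul_pos (per_pos F he he1 o.1) hm1.1
    · exact (isHom_map _ _ _).mp hm2
    · obtain ⟨i, hi1, hi2⟩ := hn
      refine ⟨i, ?_, ?_⟩
      · rw [getD_map_map, getD_map_zero _ (map_zero _)] at hi1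
        apply (algebraMap F K).injective
        rw [hi1, map_one]
      · intro j hj
        have := hi2 j hj
        rw [getD_map_map, getD_map_zero _ (map_zero _)] at this
        apply (algebraMap F K).injective
        rw [this, map_zero]
    · exact norm_irr F he he1 hm1 _ (by rw [← hhom, hm3])
    · rw [h1]
      exact (h.2.1 o ho).2
  rw [fac_iff]
  refine ⟨?_, hfac, ?_⟩
  · obtain ⟨u, hu, hf⟩ := h.1
    rw [hprod, hprod2] at hf
    set P := (outF.map (fun o => hom o.1 ^ o.2.length)).prod with hP
    have hP0 : io F K P ≠ 0 := by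
      rw [← hprod2, ← hprod]
      intro h0
      rw [List.prod_eq_zero_iff] at h0
      obtain ⟨o, ho, h0⟩ := List.mem_map.mp h0
      obtain ⟨⟨m, hm⟩, _⟩ := h.2.1 o ho
      have hl := (h.2.1 o ho).2
      exact hm.2.2.2.ne_zero ((pow_eq_zero_iff (by omega)).mp h0)
    have h1 : (C (C (u ^ Fintype.card F)) : K[X][X]) * io F K P = C (C u) * io F K P := by
      have h2 := congrArg (Fr F) hf
      rw [Fr_io, map_mul, Fr_io, hf] at h2
      rw [h2]
      congr 1
      rw [Fr_apply]
      simp [frh_apply]
    have h3 := mul_right_cancel₀ hP0 h1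
    have h4 : u ^ Fintype.card F = u := C_injective (C_injective h3)
    obtain ⟨w, hw⟩ := fixed F u h4
    refine ⟨w, ?_, ?_⟩
    · rintro rfl
      rw [map_zero] at hw
      exact hu hw.symm
    · apply io_inj F (K := K)
      rw [hf, map_mul]
      congr 1
      unfold io
      simp [hw]
  · have h1 : (outF.map Prod.fst).map (List.map (List.map (algebraMap F K))) =
        res.map Prod.fst := by
      rw [← houtF, List.map_map, List.map_map]
      rfl
    rw [← h1] at hr1
    exact List.Nodup.of_map _ hr1

end

end Desc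

end Pool.Agent.H330FB.JE6

noncomputable section
namespace Pool.Agent.H330FB.JE6
open Polynomial

namespace Desc

/-! ### programs -/

section
variable {F : Type} [Field F] [DecidableEq F]
variable {s : List (Ty × Ty)} {a b c d e g σ τ : Ty}

/-- value of a list of bits, least significant first -/
def vbits : List Bool → ℕ
  | [] => 0
  | b :: l => Nat.bit b (vbits l)

omit [DecidableEq F] [Field F] in
theorem vbits_bits (n : ℕ) : vbits (Nat.bits n) = n := by
  induction n using Nat.binaryRec' with
  | zero => simp [vbits]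
  | bit b n hn ih =>
    rw [Nat.bits_append_bit n b hn]
    simp only [vbits, ih]

omit [DecidableEq F] [Field F] in
theorem length_bits_le (n : ℕ) : (Nat.bits n).length ≤ lgc n := by
  rw [Nat.size_eq_bits_len, Nat.size_le]
  unfold lgc
  have h1 : n ≤ 2 ^ (Nat.clog 2 n) := Nat.le_pow_clog (by norm_num) n
  have h2 : 2 ^ (Nat.clog 2 n) < 2 ^ (Nat.clog 2 n + 1) :=
    Nat.pow_lt_pow_right (by norm_num) (by omega)
  omega

/-! #### powers of field elements -/

/-- one step of the power routine; input `(_, ((acc, base), bit))` -/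
def stepP : Pr s (.prod .unit (.prod (.prod .fld .fld) .fld)) (.prod .fld .fld) :=
  onZ (.comp .snd .snd)
    (.pair (.comp (.comp .snd .fst) .fst)
      (ap2 .mul (.comp (.comp .snd .fst) .snd) (.comp (.comp .snd .fst) .snd)))
    (.pair (ap2 .mul (.comp (.comp .snd .fst) .fst) (.comp (.comp .snd .fst) .snd))
      (ap2 .mul (.comp (.comp .snd .fst) .snd) (.comp (.comp .snd .fst) .snd)))

/-- powers; input `(bits of the exponent, z)` -/
def powP : Pr s (.prod Po .fld) .fld :=
  .comp (.comp (.pair .star (.pair (.pair .one .snd) .fst)) (foldP (c := .unit) stepP)) .fst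

theorem fold_bits (v : SV F s) (L : List Bool) (x y : F) :
    List.foldl (fun (z : F × F) (b : F) => (stepP.val v ((), (z, b)) : F × F)) (x, y)
      (L.map (fun b => if b then (1 : F) else 0)) = (x * y ^ vbits L, y ^ 2 ^ L.length) := by
  induction L generalizing x y with
  | nil => simp [vbits]
  | cons b L ih =>
    simp only [List.map_cons, List.foldl_cons, List.length_cons, vbits]
    cases b
    · have : (stepP.val v ((), ((x, y), (if false = true then (1 : F) else 0))) : F × F) =
          (x, y * y) := by
        simp [stepP]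
      rw [this, ih, Nat.bit_false_apply]
      apply Prod.ext
      · simp only
        ring
      · simp only
        ring
    · have : (stepP.val v ((), ((x, y), (if true = true then (1 : F) else 0))) : F × F) =
          (x * y, y * y) := by
        simp [stepP]
      rw [this, ih, Nat.bit_true_apply]
      apply Prod.ext
      · simp only
        ring
      · simp only
        ring

theorem val_powP (v : SV F s) (n : ℕ) (z : F) :
    (powP : Pr s (.prod Po .fld) .fld).val v (bits F n, z) = z ^ n := by
  simp only [powP, val_comp, val_pair, val_star, val_one, val_snd, val_fst, val_foldP]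
  have := fold_bits v (Nat.bits n) 1 z
  unfold bits
  rw [vbits_bits, one_mul] at this
  rw [this]

theorem cost_powP (v : SV F s) (k : SC F s) (n : ℕ) (z : F) :
    (powP : Pr s (.prod Po .fld) .fld).cost v k (bits F n, z) ≤ 100 * lgc n := by
  simp only [powP, cost_comp, cost_pair, cost_star, cost_one, cost_snd, cost_fst, val_comp,
    val_pair, val_star, val_one, val_snd, val_fst]
  have h := cost_foldP_le (s := s) (c := .unit) (b := .prod .fld .fld) (a := .fld) stepP v k
    ((), (((1 : F), z), bits F n)) 50 (fun _ => True) trivial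
    (fun _ _ _ _ => trivial)
    (fun y z _ _ => by
      simp only [stepP, cost_onZ, cost_comp, cost_snd, cost_pair, cost_fst, cost_mul]
      split_ifs <;> norm_num)
  have h2 : (bits F n).length ≤ lgc n := by
    unfold bits
    rw [List.length_map]
    exact length_bits_le n
  simp only at h
  have h3 : 1 ≤ lgc n := by unfold lgc; omega
  omega

/-- the Frobenius map on matrices; input `(bits q, matrix)` -/
def phP : Pr s (.prod Po Ma) Ma := mapP (mapP powP)

theorem val_phP (v : SV F s) (n : ℕ) (l : List (List F)) :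
    (phP : Pr s (.prod Po Ma) Ma).val v (bits F n, l) = frl n l := by
  unfold phP frl
  rw [val_mapP]
  apply List.map_congr_left
  intro r _
  rw [val_mapP]
  apply List.map_congr_left
  intro z _
  exact val_powP v n z

theorem cost_phP (v : SV F s) (k : SC F s) (n w : ℕ) (l : List (List F))
    (h : ∀ r ∈ l, r.length ≤ w) :
    (phP : Pr s (.prod Po Ma) Ma).cost v k (bits F n, l) ≤
      (113 * lgc n * w + 18) * l.length + 5 := by
  have h1 := cost_mapP_le (s := s) (c := Po) (mapP powP) v k (bits F n, l) (113 * lgc n * w + 5)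
    (fun r hr => by
      have h2 := cost_mapP_le (s := s) (c := Po) powP v k (bits F n, r) (100 * lgc n)
        (fun z _ => cost_powP v k n z)
      have h3 := h r hr
      have h4 : 1 ≤ lgc n := by unfold lgc; omega
      simp only at h2 ⊢
      calc _ ≤ _ := h2
        _ ≤ (100 * lgc n + 13 * lgc n) * w + 5 := by
          apply Nat.add_le_add_right
          apply Nat.mul_le_mul _ h3
          omega
        _ = _ := by ring)
  unfold phP
  simp only at h1
  exact h1

/-! #### equality tests -/

open Classical in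
/-- truth value as a list -/
noncomputable def flg (p : Prop) : List Unit := if p then [()] else []

omit [DecidableEq F] [Field F] in
theorem flg_true {p : Prop} (h : p) : flg p = [()] := by simp [flg, h]
omit [DecidableEq F] [Field F] in
theorem flg_false {p : Prop} (h : ¬ p) : flg p = [] := by simp [flg, h]

/-- true -/
def tt : Pr s a Un := .comp (.pair .star .nil) .cons

@[simp] theorem val_tt (v : SV F s) (x : Ty.D F a) : (tt : Pr s a Un).val v x = [()] := rfl
@[simp] theorem cost_tt (v : SV F s) (k : SC F s) (x : Ty.D F a) :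
    (tt : Pr s a Un).cost v k x = 4 := rfl

/-- equality of field elements -/
def eqF : Pr s (.prod .fld .fld) Un := onZ (ap2 .add .fst (.comp .snd .neg)) tt .nil

theorem val_eqF (v : SV F s) (x y : F) :
    (eqF : Pr s (.prod .fld .fld) Un).val v (x, y) = flg (x = y) := by
  simp only [eqF, val_onZ, val_comp, val_pair, val_fst, val_snd, val_neg, val_add, val_tt, val_nil]
  by_cases h0 : x + -y = 0
  · have h1 : x = y := by
      have h2 : x = x + -y + y := by ring
      rw [h0, zero_add] at h2
      exact h2
    exact (if_pos h0).trans (flg_true h1).symm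
  · have h1 : ¬ x = y := by
      intro h
      apply h0
      rw [h]
      ring
    exact (if_neg h0).trans (flg_false h1).symm

theorem cost_eqF (v : SV F s) (k : SC F s) (x : F × F) :
    (eqF : Pr s (.prod .fld .fld) Un).cost v k x ≤ 20 := by
  simp only [eqF, cost_onZ, cost_comp, cost_pair, cost_fst, cost_snd, cost_neg, cost_add, cost_tt,
    cost_nil]
  split_ifs <;> norm_num

/-- body of the equality test of lists -/
def eqLB (f : Pr s (.prod a a) Un) :
    Pr ((.prod (.list a) (.list a), Un) :: s) (.prod (.list a) (.list a)) Un :=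
  onL .fst (onL .snd tt .nil)
    (onL (.comp .fst .snd) .nil
      (onL (.comp (.pair (.comp (.comp .fst .snd) .fst) (.comp .snd .fst)) (.up f)) .nil
        (.comp (.pair (.comp (.comp (.comp .fst .fst) .snd) .snd)
          (.comp (.comp .fst .snd) .snd)) .self)))

/-- equality of lists -/
def eqL (f : Pr s (.prod a a) Un) : Pr s (.prod (.list a) (.list a)) Un :=
  .comp (.pair .fst .id) (.recD (eqLB f) (onL .snd tt .nil))

theorem val_eqLB (f : Pr s (.prod a a) Un)
    (w : SV F ((.prod (.list a) (.list a), Un) :: s)) (x y : Ty.D F a) (l m : List (Ty.D F a)) :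
    (eqLB f).val w (x :: l, y :: m) =
      lcase (f.val w.2 (x, y)) [] (fun _ _ => (w.1 (l, m) : List Unit)) := by
  simp [eqLB]

theorem cost_eqLB (f : Pr s (.prod a a) Un)
    (w : SV F ((.prod (.list a) (.list a), Un) :: s))
    (k : SC F ((.prod (.list a) (.list a), Un) :: s)) (x y : Ty.D F a) (l m : List (Ty.D F a)) :
    (eqLB f).cost w k (x :: l, y :: m) ≤ f.cost w.2 k.2 (x, y) + k.1 (l, m) + 40 := by
  simp only [eqLB, cost_onL, cost_fst, cost_snd, val_fst, lcase_cons, cost_comp, val_comp,
    val_snd, cost_pair, val_pair, cost_up, val_up, cost_nil, cost_self]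
  rcases (f.val w.2 (x, y) : List Unit) with _ | ⟨z, zs⟩
  · rw [lcase_nil]
    omega
  · rw [lcase_cons]
    omega

theorem val_eqL (f : Pr s (.prod a a) Un) (v : SV F s)
    (hf : ∀ x y, f.val v (x, y) = flg (x = y)) (l m : List (Ty.D F a)) :
    (eqL f).val v (l, m) = flg (l = m) := by
  simp only [eqL, val_comp, val_pair, val_fst, val_id, val_recD]
  induction l generalizing m with
  | nil =>
    cases m with
    | nil => simp [goV, flg]
    | cons y m => simp [goV, flg]
  | cons x l ih =>
    cases m with
    | nil => simp [goV, eqLB, flg]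
    | cons y m =>
      have := ih m
      simp only [List.length_cons, goV]
      rw [val_eqLB, hf]
      by_cases h : x = y
      · rw [flg_true h, lcase_cons]
        refine this.trans ?_
        simp [h]
      · rw [flg_false h, lcase_nil, flg_false]
        simp [h]

theorem cost_eqL (f : Pr s (.prod a a) Un) (v : SV F s) (k : SC F s)
    (l m : List (Ty.D F a)) :
    (eqL f).cost v k (l, m) ≤
      (List.zipWith (fun x y => f.cost v k (x, y) + 40) l m).sum + 20 := by
  simp only [eqL, cost_comp, cost_pair, cost_fst, cost_id, val_comp, val_pair, val_fst, val_id,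
    cost_recD]
  have : ∀ (l m : List (Ty.D F a)), goC (eqLB f) (onL .snd tt .nil) v k l.length (l, m) ≤
      (List.zipWith (fun x y => f.cost v k (x, y) + 40) l m).sum + 10 := by
    intro l
    induction l with
    | nil =>
      intro m
      cases m with
      | nil => simp [goC]
      | cons y m => simp [goC]
    | cons x l ih =>
      intro m
      cases m with
      | nil => simp [goC, eqLB]
      | cons y m =>
        have := ih m
        simp only [List.length_cons, goC, List.zipWith_cons_cons, List.sum_cons]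
        have h2 := cost_eqLB f (goV (eqLB f) (onL .snd tt .nil) v l.length, v)
          (goC (eqLB f) (onL .snd tt .nil) v k l.length, k) x y l m
        simp only at h2
        omega
  have := this l m
  omega

/-- equality of matrices -/
def eqMP : Pr s (.prod Ma Ma) Un := eqL (eqL eqF)

theorem val_eqMP (v : SV F s) (l m : List (List F)) :
    (eqMP : Pr s (.prod Ma Ma) Un).val v (l, m) = flg (l = m) := by
  unfold eqMP
  exact val_eqL (F := F) (a := Po) _ v (fun x y => val_eqL (F := F) (a := .fld) _ v
    (fun x y => val_eqF v x y) x y) l m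

theorem cost_eqR (v : SV F s) (k : SC F s) (l m : List F) :
    (eqL eqF : Pr s (.prod Po Po) Un).cost v k (l, m) ≤ 60 * min l.length m.length + 20 := by
  have h := cost_eqL (F := F) (a := .fld) eqF v k l m
  refine h.trans (Nat.add_le_add_right ?_ _)
  have h2 : (List.zipWith (fun x y => eqF.cost v k (x, y) + 40) l m).sum ≤
      (List.zipWith (fun x y => eqF.cost v k (x, y) + 40) l m).length • 60 := by
    apply List.sum_le_card_nsmul
    intro x hx
    rw [List.mem_iff_getElem] at hx
    obtain ⟨i, hi, rfl⟩ := hx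
    rw [List.getElem_zipWith]
    have := cost_eqF v k (l[i]'(by simp at hi; omega), m[i]'(by simp at hi; omega))
    omega
  rw [List.length_zipWith, smul_eq_mul, mul_comm] at h2
  exact h2

/-- cost of the comparison of two matrices of polynomials -/
theorem cost_eqMP {m m' : ℕ} (v : SV F s) (k : SC F s) (l l' : List (List F))
    (h : IsHom m l) (h' : IsHom m' l') :
    (eqMP : Pr s (.prod Ma Ma) Un).cost v k (l, l') ≤ 140 * ((m + 1) * (m' + 1)) := by
  have h1 := cost_eqL (F := F) (a := Po) (eqL eqF) v k l l'
  unfold eqMP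
  have h2 : (List.zipWith (fun x y => (eqL eqF).cost v k (x, y) + 40) l l').sum ≤
      (List.zipWith (fun x y => (eqL eqF).cost v k (x, y) + 40) l l').length •
        (60 * min (m + 1) (m' + 1) + 60) := by
    apply List.sum_le_card_nsmul
    intro x hx
    rw [List.mem_iff_getElem] at hx
    obtain ⟨i, hi, rfl⟩ := hx
    have hi1 : i < l.length := by simp at hi; omega
    have hi2 : i < l'.length := by simp at hi; omega
    rw [List.getElem_zipWith]
    have e1 := cost_eqR v k (l[i]) (l'[i])
    have e2 : l[i].length = i + 1 := by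
      have := h.2 i (by rw [h.1] at hi1; omega)
      rwa [List.getD_eq_getElem _ _ hi1] at this
    have e3 : l'[i].length = i + 1 := by
      have := h'.2 i (by rw [h'.1] at hi2; omega)
      rwa [List.getD_eq_getElem _ _ hi2] at this
    rw [e2, e3] at e1
    have e4 := h.1
    have e5 := h'.1
    have e6 : min (i + 1) (i + 1) ≤ min (m + 1) (m' + 1) := by
      rw [min_self]
      omega
    omega
  rw [List.length_zipWith, h.1, h'.1, smul_eq_mul] at h2
  have h3 : min (m + 1) (m' + 1) * (60 * min (m + 1) (m' + 1) + 60) ≤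
      120 * ((m + 1) * (m' + 1)) := by
    rcases le_total (m + 1) (m' + 1) with h4 | h4
    · rw [min_eq_left h4]
      nlinarith
    · rw [min_eq_right h4]
      nlinarith
  have h5 : 1 ≤ (m + 1) * (m' + 1) := Nat.mul_pos (by omega) (by omega)
  exact (h1.trans (Nat.add_le_add_right (h2.trans h3) 20)).trans (by omega)

end

end Desc

end Pool.Agent.H330FB.JE6

noncomputable section
namespace Pool.Agent.H330FB.JE6
open Polynomial

namespace Desc

/-! ### multiplication of homogeneous parts -/

section
variable {F : Type} [Field F] [DecidableEq F]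
variable {s : List (Ty × Ty)}

/-- rows of growing length -/
def stairs {α : Type} (z : α) : ℕ → ℕ → List (List α) → List (List α)
  | 0, _, _ => []
  | _ + 1, _, [] => []
  | n + 1, k, r :: l => fit k z r :: stairs z n (k + 1) l

omit [DecidableEq F] in
theorem getD_fit (n : ℕ) (l : List F) (j : ℕ) :
    (fit n 0 l).getD j 0 = if j < n then l.getD j 0 else 0 := by
  induction n generalizing l j with
  | zero => simp [fit]
  | succ n ih =>
    cases l with
    | nil =>
      cases j with
      | zero => simp [fit]
      | succ j =>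
        have := ih [] j
        simp [fit] at this ⊢
        exact this
    | cons x l =>
      cases j with
      | zero => simp [fit]
      | succ j =>
        have := ih l j
        simp only [fit, List.getD_cons_succ, this]
        by_cases h : j < n
        · rw [if_pos h, if_pos (by omega)]
        · rw [if_neg h, if_neg (by omega)]

omit [DecidableEq F] in
theorem length_stairs (n k : ℕ) (l : List (List F)) (h : n ≤ l.length) :
    (stairs 0 n k l).length = n := by
  induction n generalizing k l with
  | zero => rfl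
  | succ n ih =>
    cases l with
    | nil => simp at h
    | cons r l => simp [stairs, ih (k + 1) l (by simpa using h)]

omit [DecidableEq F] in
theorem getD_stairs (n k : ℕ) (l : List (List F)) (h : n ≤ l.length) (i : ℕ) (hi : i < n) :
    (stairs 0 n k l).getD i [] = fit (k + i) 0 (l.getD i []) := by
  induction n generalizing k l i with
  | zero => omega
  | succ n ih =>
    cases l with
    | nil => simp at h
    | cons r l =>
      cases i with
      | zero => simp [stairs]
      | succ i =>
        simp only [stairs, List.getD_cons_succ]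
        rw [ih (k + 1) l (by simpa using h) i (by omega)]
        congr 1
        omega

/-- program for `stairs`; input `(fuel, (k, rows))` -/
def stairP : Pr s (.prod Un (.prod Un Ma)) Ma :=
  .recD (onL .snd .nil (.comp (.pair
      (.comp (.pair (.comp .fst .fst) (.pair .zero (.comp .snd .fst))) fitP)
      (.comp (.pair (.comp (.pair .star (.comp .fst .fst)) .cons) (.comp .snd .snd)) .self))
      .cons)) .nil

theorem val_stairP (v : SV F s) (u k : List Unit) (R : List (List F)) :
    (stairP : Pr s (.prod Un (.prod Un Ma)) Ma).val v (u, (k, R)) =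
      stairs 0 u.length k.length R := by
  simp only [stairP, val_recD]
  generalize List.length u = n
  induction n generalizing k R with
  | zero => simp [goV, stairs]
  | succ n ih =>
    cases R with
    | nil => simp [goV, stairs]
    | cons r R =>
      have := ih (() :: k) R
      simp [goV, stairs] at this ⊢
      exact this

theorem cost_stairP (v : SV F s) (c : SC F s) (u k : List Unit) (R : List (List F)) :
    (stairP : Pr s (.prod Un (.prod Un Ma)) Ma).cost v c (u, (k, R)) ≤
      (20 * (k.length + u.length) + 40) * u.length + 2 := by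
  simp only [stairP, cost_recD]
  generalize List.length u = n
  have : ∀ (N n : ℕ) (k : List Unit) (R : List (List F)), k.length + n ≤ N →
      goC (s := s) (onL .snd .nil (.comp (.pair
      (.comp (.pair (.comp .fst .fst) (.pair .zero (.comp .snd .fst))) fitP)
      (.comp (.pair (.comp (.pair .star (.comp .fst .fst)) .cons) (.comp .snd .snd)) .self))
      .cons)) .nil v c n (k, R) ≤ (20 * N + 40) * n + 1 := by
    intro N n
    induction n with
    | zero => intro k R _; simp [goC]
    | succ n ih =>
      intro k R hk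
      cases R with
      | nil =>
        simp [goC]
        nlinarith
      | cons r R =>
        have e1 := ih (() :: k) R (by simp; omega)
        have e2 := cost_fitP (s := (.prod Un Ma, Ma) :: s) (F := F) (b := .unit) (a := .fld)
          (goV (onL .snd .nil (.comp (.pair
            (.comp (.pair (.comp .fst .fst) (.pair .zero (.comp .snd .fst))) fitP)
            (.comp (.pair (.comp (.pair .star (.comp .fst .fst)) .cons) (.comp .snd .snd)) .self))
            .cons)) .nil v n, v)
          (goC (onL .snd .nil (.comp (.pair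
            (.comp (.pair (.comp .fst .fst) (.pair .zero (.comp .snd .fst))) fitP)
            (.comp (.pair (.comp (.pair .star (.comp .fst .fst)) .cons) (.comp .snd .snd)) .self))
            .cons)) .nil v c n, c) (k, ((0 : F), r))
        simp [goC] at e1 e2 ⊢
        nlinarith
  have := this (k.length + n) n k R le_rfl
  omega

/-- product of two bivariate polynomials, given by homogeneous parts; input
`(table, (A, B))` -/
def mulH (mr : Pr [] (.prod TB (.prod Un (.prod Ma Ma))) Ma) :
    Pr s (.prod TB (.prod Ma Ma)) Ma :=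
  lt (.comp (.pair .star (.comp .snd appP)) (mapP (c := .unit) .star))
    (.comp (.pair (onL .snd .nil (.comp .snd .snd))
      (.pair (.comp (.pair .star .nil) .cons)
        (.comp (.pair (.comp .fst .fst) (.pair .snd (.pair
          (.comp (.pair .snd (.comp (.comp .fst .snd) .fst))
            (mapP (.comp (.pair .fst (.pair .zero .snd)) fitP)))
          (.comp (.pair .snd (.comp (.comp .fst .snd) .snd))
            (mapP (.comp (.pair .fst (.pair .zero .snd)) fitP))))))
          (liftP _ mr)))) stairP)

omit [DecidableEq F] in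
theorem map_star {α : Type} (l : List α) : l.map (fun _ => ()) = un l.length := by
  induction l with
  | nil => rfl
  | cons x l ih => simp only [List.map_cons, ih, un, List.length_cons, List.replicate_succ]

omit [DecidableEq F] [Field F] in
theorem length_un (n : ℕ) : (un n).length = n := by simp [un]

omit [DecidableEq F] [Field F] in
theorem tail_un (n : ℕ) : (lcase (un n) [] fun _ t => t) = un (n - 1) := by
  cases n with
  | zero => rfl
  | succ n => rfl

theorem val_mulH (mr : Pr [] (.prod TB (.prod Un (.prod Ma Ma))) Ma) (v : SV F s)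
    (tb : List (List F) × List (List F)) (A B : List (List F)) :
    (mulH mr).val v (tb, (A, B)) =
      stairs 0 (A.length + B.length - 1) 1
        (mr.val () (tb, (un (A.length + B.length), (A.map (fit (A.length + B.length) 0),
          B.map (fit (A.length + B.length) 0))))) := by
  unfold mulH
  simp only [val_lt, val_comp, val_pair, val_star, val_snd, val_appP, val_mapP, val_fst,
    val_onL, val_zero, val_fitP, val_liftP, val_nil, val_cons]
  have h1 : List.map (fun _ : Ty.D F Po => ()) (A ++ B) = un (A.length + B.length) := by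
    rw [map_star, List.length_append]
  rw [h1]
  have h2 := tail_un (A.length + B.length)
  have h3 := val_stairP v (un (A.length + B.length - 1)) [()]
    (mr.val ()
          (tb, un (A.length + B.length), List.map (fun y => fit (un (A.length + B.length)).length 0 y) A,
            List.map (fun y => fit (un (A.length + B.length)).length 0 y) B))
  rw [length_un, length_un] at h3
  rw [← h2] at h3
  rw [length_un]
  exact h3

omit [DecidableEq F] in
theorem pad_row (n : ℕ) (l : List (List F)) (h : ∀ r ∈ l, r.length ≤ n) :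
    biv (l.map (fit n 0)) = biv l := by
  ext m j
  rw [coeff_biv2, coeff_biv2]
  rcases lt_or_ge m l.length with h1 | h1
  · rw [List.getD_eq_getElem (l.map (fit n 0)) [] (by simpa using h1),
      List.getD_eq_getElem l [] h1, List.getElem_map, getD_fit]
    split_ifs with h2
    · rfl
    · rw [List.getD_eq_default]
      have := h _ (List.getElem_mem h1)
      omega
  · rw [List.getD_eq_default (l.map (fit n 0)) [] (by simpa using h1),
      List.getD_eq_default l [] h1]

omit [DecidableEq F] in
/-- the inner degree of a product -/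
theorem inner_mul (U V : F[X][X]) (a b : ℕ) (hU : ∀ m j, a < j → (U.coeff m).coeff j = 0)
    (hV : ∀ m j, b < j → (V.coeff m).coeff j = 0) (m j : ℕ) (hj : a + b < j) :
    ((U * V).coeff m).coeff j = 0 := by
  rw [coeff_mul, finsetSum_coeff]
  apply Finset.sum_eq_zero
  rintro ⟨i, i'⟩ _
  rw [coeff_mul]
  apply Finset.sum_eq_zero
  rintro ⟨k, k'⟩ hk
  rw [Finset.HasAntidiagonal.mem_antidiagonal] at hk
  dsimp only at hk ⊢
  rcases lt_or_ge a k with h | h
  · rw [hU i k h, zero_mul]
  · rw [hV i' k' (by omega), mul_zero]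

omit [DecidableEq F] in
theorem inner_isHom {m : ℕ} {l : List (List F)} (h : IsHom m l) (k j : ℕ) (hj : m < j) :
    ((biv l).coeff k).coeff j = 0 := by
  rw [coeff_biv2, List.getD_eq_default]
  rcases le_or_gt k m with h1 | h1
  · have := h.2 k h1
    omega
  · rw [List.getD_eq_default _ _ (by rw [h.1]; omega)]
    simp

omit [DecidableEq F] in
theorem rp_eq {R : Type} [CommRing R] [Algebra F R] (τ : R) (l : List (List F)) :
    rp τ l = (biv l).map (aeval τ : F[X] →ₐ[F] R).toRingHom := by
  unfold rp biv
  rw [← pol_map, List.map_map]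
  rfl

omit [DecidableEq F] in
theorem biv_of_rp (n : ℕ) (r a b : List (List F))
    (hr : ∀ m j, n ≤ j → ((biv r).coeff m).coeff j = 0)
    (hab : ∀ m j, n ≤ j → ((biv a * biv b).coeff m).coeff j = 0)
    (h : ∀ (R : Type) [CommRing R] [Algebra F R] (τ : R), τ ^ n = 0 →
      rp τ r = rp τ a * rp τ b) : biv r = biv a * biv b := by
  have h1 := h (AdjoinRoot (X ^ n : F[X])) (AdjoinRoot.root (X ^ n : F[X])) (by
    have := AdjoinRoot.eval₂_root (X ^ n : F[X])
    simpa using this)
  rw [rp_eq, rp_eq, rp_eq, ← Polynomial.map_mul] at h1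
  ext m j
  rcases le_or_gt n j with hj | hj
  · rw [hr m j hj, hab m j hj]
  · have h2 := congrArg (fun p => coeff p m) h1
    simp only [coeff_map] at h2
    have h3 : ∀ p : F[X], (aeval (AdjoinRoot.root (X ^ n : F[X])) : F[X] →ₐ[F] _).toRingHom p =
        AdjoinRoot.mk (X ^ n : F[X]) p := by
      intro p
      exact AdjoinRoot.aeval_eq p
    rw [h3, h3, AdjoinRoot.mk_eq_mk, X_pow_dvd_iff] at h2
    have h4 := h2 j hj
    rw [coeff_sub, sub_eq_zero] at h4
    exact h4

/-- the product of two polynomials given by homogeneous parts -/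
theorem mulH_spec (mr : Pr [] (.prod TB (.prod Un (.prod Ma Ma))) Ma) (v : SV F s)
    (tb : List (List F) × List (List F)) (A B : List (List F)) (a b : ℕ) (hA : IsHom a A)
    (hB : IsHom b B)
    (hr : let r : List (List F) := mr.val () (tb, (un (A.length + B.length),
        (A.map (fit (A.length + B.length) 0), B.map (fit (A.length + B.length) 0))))
      Sh (A.length + B.length) r ∧ r.length = A.length + B.length ∧
      (∀ (R : Type) [CommRing R] [Algebra F R] (τ : R), τ ^ (A.length + B.length) = 0 →
        rp τ r = rp τ (A.map (fit (A.length + B.length) 0)) *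
          rp τ (B.map (fit (A.length + B.length) 0)))) :
    IsHom (a + b) ((mulH mr).val v (tb, (A, B)) : List (List F)) ∧
      hom ((mulH mr).val v (tb, (A, B)) : List (List F)) = hom A * hom B := by
  rw [val_mulH]
  obtain ⟨h1, h2, h3⟩ := hr
  set n := A.length + B.length with hn
  set r : List (List F) := mr.val () (tb, (un n, (A.map (fit n 0), B.map (fit n 0)))) with hrdef
  have hn' : n = a + b + 2 := by rw [hn, hA.1, hB.1]; omega
  have hA' : biv (A.map (fit n 0)) = biv A := by
    apply pad_row
    intro x hx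
    obtain ⟨k, hk, rfl⟩ := List.getElem_of_mem hx
    have := hA.2 k (by rw [hA.1] at hk; omega)
    rw [List.getD_eq_getElem _ _ hk] at this
    rw [hA.1] at hk
    omega
  have hB' : biv (B.map (fit n 0)) = biv B := by
    apply pad_row
    intro x hx
    obtain ⟨k, hk, rfl⟩ := List.getElem_of_mem hx
    have := hB.2 k (by rw [hB.1] at hk; omega)
    rw [List.getD_eq_getElem _ _ hk] at this
    rw [hB.1] at hk
    omega
  have hprod : biv r = biv A * biv B := by
    rw [← hA', ← hB']
    apply biv_of_rp n
    · intro m j hj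
      rw [coeff_biv2, List.getD_eq_default]
      rcases lt_or_ge m r.length with h4 | h4
      · rw [List.getD_eq_getElem _ _ h4, h1 _ (List.getElem_mem h4)]
        exact hj
      · rw [List.getD_eq_default _ _ h4]
        simp
    · intro m j hj
      rw [hA', hB']
      exact inner_mul _ _ a b (fun m j h => inner_isHom hA m j h)
        (fun m j h => inner_isHom hB m j h) m j (by omega)
    · exact h3
  have hlen : n - 1 ≤ r.length := by rw [h2]; omega
  have hst : IsHom (a + b) (stairs 0 (n - 1) 1 r) := by
    constructor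
    · rw [length_stairs _ _ _ hlen]
      omega
    · intro k hk
      rw [getD_stairs _ _ _ hlen k (by omega), length_fit]
      omega
  refine ⟨hst, ?_⟩
  apply Psi_injective
  rw [map_mul, Psi_hom hst, Psi_hom hA, Psi_hom hB, ← hprod]
  ext m j
  rw [coeff_biv2]
  rcases lt_or_ge m (n - 1) with h4 | h4
  · rw [getD_stairs _ _ _ hlen m h4, getD_fit]
    split_ifs with h5
    · rw [coeff_biv2]
    · rw [hprod, ← Psi_hom hA, ← Psi_hom hB, ← map_mul, coeff_Psi, if_neg (by omega)]
  · rw [List.getD_eq_default (stairs 0 (n - 1) 1 r) _ (by rw [length_stairs _ _ _ hlen]; exact h4)]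
    rw [hprod]
    have h5 : (biv A * biv B).coeff m = 0 := by
      apply coeff_eq_zero_of_natDegree_lt
      calc (biv A * biv B).natDegree ≤ (biv A).natDegree + (biv B).natDegree := natDegree_mul_le
        _ ≤ a + b := Nat.add_le_add (natDegree_biv_le hA.1.le) (natDegree_biv_le hB.1.le)
        _ < m := by omega
    rw [h5]
    simp

theorem cost_mulH (mr : Pr [] (.prod TB (.prod Un (.prod Ma Ma))) Ma) (v : SV F s) (k : SC F s)
    (tb : List (List F) × List (List F)) (A B : List (List F)) (a b c : ℕ) (hA : IsHom a A)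
    (hB : IsHom b B)
    (hc : mr.cost () () (tb, (un (A.length + B.length),
        (A.map (fit (A.length + B.length) 0), B.map (fit (A.length + B.length) 0)))) ≤ c) :
    (mulH mr).cost v k (tb, (A, B)) ≤ c + 200 * (a + b + 2) ^ 2 := by
  unfold mulH
  simp only [cost_lt, cost_comp, cost_pair, cost_star, cost_snd, val_comp, val_pair,
    val_star, val_snd, val_appP, val_mapP, val_fst, cost_fst, cost_onL, cost_nil,
    val_onL, val_zero, val_fitP, val_liftP, cost_liftP, val_nil, val_cons, cost_cons]
  have h1 : List.map (fun _ : Ty.D F Po => ()) (A ++ B) = un (A.length + B.length) := by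
    rw [map_star, List.length_append]
  rw [h1]
  have h2 := tail_un (A.length + B.length)
  set n := A.length + B.length with hn
  have hn' : n = a + b + 2 := by rw [hn, hA.1, hB.1]; omega
  have c1 := cost_appP (s := s) (F := F) (a := Po) v k (A, B)
  have c2 := cost_mapP_le (s := s) (F := F) (c := .unit) (a := Po) (b := .unit) .star v k
    ((), A ++ B) 1 (fun _ _ => by simp)
  have c3 : ∀ A : List (List F), (mapP (s := s) (c := Un) (a := Po) (b := Po)
      (.comp (.pair .fst (.pair .zero .snd)) fitP)).cost v k
        (un n, A) ≤ (20 * n + 20) * A.length + 5 := by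
    intro A
    exact cost_mapP_le (s := s) (F := F) (c := Un) (a := Po) (b := Po)
      (.comp (.pair .fst (.pair .zero .snd)) fitP) v k (un n, A) (20 * n + 7)
      (fun r _ => by
        have h := cost_fitP (s := s) (F := F) (b := .unit) (a := .fld) v k (un n, ((0 : F), r))
        simp only [cost_comp, cost_pair, cost_fst, cost_snd, cost_zero, val_pair, val_fst,
          val_zero, val_snd]
        simp only [length_un] at h ⊢
        omega)
  have c4 := cost_stairP v k (un (n - 1)) [()]
    (mr.val ()
          (tb, un n, List.map (fun y => fit (un n).length 0 y) A,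
            List.map (fun y => fit (un n).length 0 y) B))
  rw [← h2] at c4
  have c3A := c3 A
  have c3B := c3 B
  have hfit : (fun y : List F => fit (un n).length 0 y) = fit n 0 := by
    funext y
    rw [length_un]
  have h3 : (lcase (un n) 1 fun _ _ => 1 + 1) ≤ 2 := by
    cases (un n) <;> simp [lcase]
  have c5 : mr.cost () () (tb, (un n, (A.map (fun y => fit (un n).length 0 y),
      B.map (fun y => fit (un n).length 0 y)))) ≤ c := by
    rw [hfit]
    exact hc
  have h4 : (lcase (un n) ([] : List Unit) fun _ t => t).length = n - 1 := by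
    rw [h2, length_un]
  rw [h4] at c4
  simp only [List.length_append] at c1 c2
  simp only [List.length_cons, List.length_nil] at c4
  have h5 : (20 * (0 + 1 + (n - 1)) + 40) * (n - 1) ≤ (20 * n + 40) * n :=
    Nat.mul_le_mul (by omega) (by omega)
  have h6 : (20 * n + 20) * A.length + (20 * n + 20) * B.length = (20 * n + 20) * n := by
    rw [← Nat.mul_add]
  have h7 : A.length ≤ n := by omega
  have h8 : 2 ≤ n := by omega
  have h9 : (20 * n + 40) * n + (20 * n + 20) * n + 100 * n ≤ 120 * (n * n) := by nlinarith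
  have h10 : 100 ≤ 50 * (n * n) := by nlinarith
  rw [← hn', pow_two]
  have key : ∀ x1 x2 x3 x4 x5 x6 x7 : ℕ, x1 ≤ 20 * A.length + 5 →
      x2 ≤ (1 + 13) * (A.length + B.length) + 5 → x3 ≤ 2 →
      x4 ≤ (20 * n + 20) * A.length + 5 → x5 ≤ (20 * n + 20) * B.length + 5 → x6 ≤ c →
      x7 ≤ (20 * (0 + 1 + (n - 1)) + 40) * (n - 1) + 2 →
      1 + (1 + x1) + 1 + x2 +
        ((1 + 3 + x3) +
              (1 + 1 + 1 + 1 +
                  (1 + 1 +
                        (1 +
                            (1 + (1 + 1 + 1) + 1 + x4 +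
                                (1 + (1 + 1 + 1) + 1 + x5) +
                              1) +
                          1) +
                      1 + x6) +
                1) +
            1 + x7) +
      2 ≤ c + 200 * (n * n) := by
    intro x1 x2 x3 x4 x5 x6 x7 e1 e2 e3 e4 e5 e6 e7
    omega
  exact key _ _ _ _ _ _ _ c1 c2 h3 c3A c3B c5 c4

end

end Desc

end Pool.Agent.H330FB.JE6

noncomputable section
namespace Pool.Agent.H330FB.JE6
open Polynomial

namespace Desc

/-! ### membership and removal of duplicates -/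

section
variable {F : Type} [Field F] [DecidableEq F]
variable {s : List (Ty × Ty)}

/-- body of the membership test -/
def memB : Pr ((.prod Ma (.list (.prod Ma Un)), Un) :: s) (.prod Ma (.list (.prod Ma Un))) Un :=
  onL .snd .nil (onL (.comp (.pair (.comp .fst .fst) (.comp (.comp .snd .fst) .fst)) eqMP)
    (.comp (.pair (.comp .fst .fst) (.comp .snd .snd)) .self) tt)

/-- membership test; input `(matrix, list)` -/
def memP : Pr s (.prod Ma (.list (.prod Ma Un))) Un :=
  .comp (.pair .snd .id) (.recD memB .nil)

theorem val_memB (w : SV F ((.prod Ma (.list (.prod Ma Un)), Un) :: s)) (x : List (List F))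
    (y : List (List F) × List Unit) (L : List (List (List F) × List Unit)) :
    memB.val w (x, y :: L) =
      lcase (flg (x = y.1)) (w.1 (x, L) : List Unit) (fun _ _ => [()]) := by
  simp only [memB, val_onL, val_comp, val_pair, val_fst, val_snd, lcase_cons, val_self, val_tt]
  rw [val_eqMP]

theorem cost_memB (w : SV F ((.prod Ma (.list (.prod Ma Un)), Un) :: s))
    (k : SC F ((.prod Ma (.list (.prod Ma Un)), Un) :: s)) (x : List (List F))
    (y : List (List F) × List Unit) (L : List (List (List F) × List Unit)) (c : ℕ)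
    (hc : (eqMP : Pr ((.prod Ma (.list (.prod Ma Un)), Un) :: s) (.prod Ma Ma) Un).cost w k
      (x, y.1) ≤ c) :
    memB.cost w k (x, y :: L) ≤ c + k.1 (x, L) + 40 := by
  simp only [memB, cost_onL, cost_comp, cost_pair, cost_fst, cost_snd, val_snd, val_comp,
    val_pair, val_fst, lcase_cons, cost_self, cost_tt]
  rcases (eqMP.val w (x, y.1) : List Unit) with _ | ⟨z, zs⟩
  · rw [lcase_nil]
    omega
  · rw [lcase_cons]
    omega

theorem val_memP (v : SV F s) (x : List (List F)) (L : List (List (List F) × List Unit)) :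
    (memP : Pr s (.prod Ma (.list (.prod Ma Un))) Un).val v (x, L) =
      flg (x ∈ L.map Prod.fst) := by
  simp only [memP, val_comp, val_pair, val_snd, val_id, val_recD]
  induction L with
  | nil => simp [goV, flg]
  | cons y L ih =>
    simp only [List.length_cons, goV]
    rw [val_memB]
    by_cases h : x = y.1
    · rw [flg_true h, lcase_cons, flg_true]
      simp [h]
    · rw [flg_false h, lcase_nil]
      refine Eq.trans ih ?_
      by_cases h2 : x ∈ L.map Prod.fst
      · rw [flg_true h2, flg_true]
        simp only [List.map_cons, List.mem_cons]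
        exact Or.inr h2
      · rw [flg_false h2, flg_false]
        simp only [List.map_cons, List.mem_cons]
        rintro (h3 | h3)
        · exact h h3
        · exact h2 h3

theorem cost_memP (v : SV F s) (k : SC F s) (x : List (List F))
    (L : List (List (List F) × List Unit)) (m : ℕ) (hx : IsHom m x)
    (hL : ∀ y ∈ L, ∃ m', IsHom m' y.1) :
    (memP : Pr s (.prod Ma (.list (.prod Ma Un))) Un).cost v k (x, L) ≤
      180 * (m + 1) * (L.map (fun y => y.1.length)).sum + 20 := by
  simp only [memP, cost_comp, cost_pair, cost_snd, cost_id, val_pair, val_snd, val_id, cost_recD]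
  have : ∀ L : List (List (List F) × List Unit), (∀ y ∈ L, ∃ m', IsHom m' y.1) →
      goC (memB (s := s)) .nil v k L.length (x, L) ≤
        180 * (m + 1) * (L.map (fun y => y.1.length)).sum + 10 := by
    intro L
    induction L with
    | nil => intro _; simp [goC]
    | cons y L ih =>
      intro hL
      have h1 := ih (fun y hy => hL y (by simp [hy]))
      obtain ⟨m', hm'⟩ := hL y (by simp)
      simp only [List.length_cons, goC, List.map_cons, List.sum_cons]
      have h2 := cost_eqMP (s := (.prod Ma (.list (.prod Ma Un)), Un) :: s)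
        (goV (memB (s := s)) .nil v L.length, v) (goC (memB (s := s)) .nil v k L.length, k)
        x y.1 hx hm'
      have h3 := cost_memB (goV (memB (s := s)) .nil v L.length, v)
        (goC (memB (s := s)) .nil v k L.length, k) x y L _ h2
      refine h3.trans ?_
      simp only
      rw [hm'.1]
      have h4 : 1 ≤ (m + 1) * (m' + 1) := Nat.mul_pos (by omega) (by omega)
      nlinarith
  have := this L hL
  omega

/-- one step of the removal of duplicates -/
def ddS : Pr s (.prod .unit (.prod (.list (.prod Ma Un)) (.prod Ma Un))) (.list (.prod Ma Un)) :=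
  onL (.comp (.pair (.comp (.comp .snd .snd) .fst) (.comp .snd .fst)) memP)
    (.comp (.pair (.comp .snd .snd) (.comp .snd .fst)) .cons)
    (.comp (.comp .fst .snd) .fst)

/-- removal of duplicates -/
def ddP : Pr s (.list (.prod Ma Un)) (.list (.prod Ma Un)) :=
  .comp (.pair .star (.pair .nil .id)) (foldP (c := .unit) ddS)

theorem val_ddS (v : SV F s) (acc : List (List (List F) × List Unit))
    (x : List (List F) × List Unit) :
    (ddS.val v ((), (acc, x)) : List (List (List F) × List Unit)) =
      lcase (flg (x.1 ∈ acc.map Prod.fst)) (x :: acc) (fun _ _ => acc) := by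
  simp only [ddS, val_onL, val_comp, val_pair, val_fst, val_snd, val_cons]
  rw [val_memP]

theorem val_ddP (v : SV F s) (L : List (List (List F) × List Unit)) :
    let r : List (List (List F) × List Unit) := ddP.val v L
    (r.map Prod.fst).Nodup ∧ (∀ x ∈ r, x ∈ L) ∧ (∀ x ∈ L, ∃ y ∈ r, y.1 = x.1) := by
  intro r
  have key : ∀ (L acc : List (List (List F) × List Unit)), (acc.map Prod.fst).Nodup →
      let r := List.foldl (fun y z => (ddS.val v ((), (y, z)) :
        List (List (List F) × List Unit))) acc L
      (r.map Prod.fst).Nodup ∧ (∀ x ∈ r, x ∈ acc ∨ x ∈ L) ∧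
        (∀ x, x ∈ acc ∨ x ∈ L → ∃ y ∈ r, y.1 = x.1) := by
    intro L
    induction L with
    | nil =>
      intro acc h
      refine ⟨h, ?_, ?_⟩
      · intro x hx; exact Or.inl hx
      · intro x hx
        rcases hx with hx | hx
        · exact ⟨x, hx, rfl⟩
        · simp at hx
    | cons z L ih =>
      intro acc h
      simp only [List.foldl_cons]
      rw [val_ddS]
      by_cases hz : z.1 ∈ acc.map Prod.fst
      · rw [flg_true hz, lcase_cons]
        obtain ⟨h1, h2, h3⟩ := ih acc h
        refine ⟨h1, ?_, ?_⟩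
        · intro x hx
          rcases h2 x hx with h4 | h4
          · exact Or.inl h4
          · exact Or.inr (by simp [h4])
        · intro x hx
          rw [List.mem_cons] at hx
          rcases hx with hx | hx | hx
          · exact h3 x (Or.inl hx)
          · obtain ⟨y, hy, hyz⟩ := List.mem_map.mp hz
            obtain ⟨y', hy', hyy⟩ := h3 y (Or.inl hy)
            exact ⟨y', hy', by rw [hyy, hyz, hx]⟩
          · exact h3 x (Or.inr hx)
      · rw [flg_false hz, lcase_nil]
        obtain ⟨h1, h2, h3⟩ := ih (z :: acc) (by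
          rw [List.map_cons, List.nodup_cons]
          exact ⟨hz, h⟩)
        refine ⟨h1, ?_, ?_⟩
        · intro x hx
          rcases h2 x hx with h4 | h4
          · rw [List.mem_cons] at h4
            rcases h4 with h4 | h4
            · exact Or.inr (by simp [h4])
            · exact Or.inl h4
          · exact Or.inr (by simp [h4])
        · intro x hx
          rw [List.mem_cons] at hx
          apply h3
          rcases hx with hx | hx | hx
          · exact Or.inl (by simp [hx])
          · exact Or.inl (by simp [hx])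
          · exact Or.inr hx
  have h1 := key L [] (by simp)
  have h2 : r = List.foldl (fun y z => (ddS.val v ((), (y, z)) :
        List (List (List F) × List Unit))) [] L := by
    show (ddP.val v L : List (List (List F) × List Unit)) = _
    simp only [ddP, val_comp, val_pair, val_star, val_nil, val_id, val_foldP]
  rw [h2]
  obtain ⟨h3, h4, h5⟩ := h1
  refine ⟨h3, ?_, ?_⟩
  · intro x hx
    rcases h4 x hx with h6 | h6
    · simp at h6
    · exact h6
  · intro x hx
    exact h5 x (Or.inr hx)

/-- cost of a fold, sum version -/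
theorem cost_foldP_sum {a b c : Ty} (f : Pr s (.prod c (.prod b a)) b) (v : SV F s) (k : SC F s)
    (x : Ty.D F (.prod c (.prod b (.list a)))) (B : Ty.D F a → ℕ) (I : Ty.D F b → Prop)
    (h0 : I x.2.1) (hI : ∀ y z, I y → z ∈ x.2.2 → I (f.val v (x.1, (y, z))))
    (hB : ∀ y z, I y → z ∈ x.2.2 → f.cost v k (x.1, (y, z)) ≤ B z) :
    (foldP f).cost v k x ≤ (List.map (fun z => B z + 27) x.2.2).sum + 14 := by
  obtain ⟨x, y, l⟩ := x
  simp only [foldP, cost_comp, cost_pair, cost_snd, cost_id, cost_recD, val_pair, val_snd,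
    val_id, val_comp] at h0 hI hB ⊢
  have : ∀ (l : List (Ty.D F a)) (y : Ty.D F b), I y →
      (∀ y z, I y → z ∈ l → I (f.val v (x, (y, z)))) →
      (∀ y z, I y → z ∈ l → f.cost v k (x, (y, z)) ≤ B z) →
      goC (foldB f) (.comp .snd .fst) v k l.length (x, (y, l)) ≤
      (List.map (fun z => B z + 27) l).sum + 7 := by
    intro l
    induction l with
    | nil => intro y _ _ _; simp [goC]
    | cons h t ih =>
      intro y hy h1 h2
      have e1 := ih (f.val v (x, (y, h))) (h1 y h hy (by simp))
        (fun y z hy hz => h1 y z hy (by simp [hz])) (fun y z hy hz => h2 y z hy (by simp [hz]))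
      have e2 := h2 y h hy (by simp)
      simp [goC, foldB] at e1 ⊢
      omega
  have := this l y h0 hI hB
  omega

theorem sum_le_of_nodup {α : Type} (w : α → ℕ) (l L : List α) (h1 : l.Nodup)
    (h2 : ∀ x ∈ l, x ∈ L) : (l.map w).sum ≤ (L.map w).sum := by
  have h3 : l.Subperm L := h1.subperm h2
  obtain ⟨l', hl', hs⟩ := h3
  rw [← (hl'.map w).sum_eq]
  exact (hs.map w).sum_le_sum (fun _ _ => Nat.zero_le _)

theorem cost_ddP (v : SV F s) (k : SC F s) (L : List (List (List F) × List Unit))
    (hL : ∀ y ∈ L, ∃ m', IsHom m' y.1) :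
    (ddP : Pr s (.list (.prod Ma Un)) (.list (.prod Ma Un))).cost v k L ≤
      (180 * (L.map (fun y => y.1.length)).sum + 100) * ((L.map (fun y => y.1.length)).sum) +
      50 := by
  set S := (L.map (fun y => y.1.length)).sum with hS
  have h1 := cost_foldP_sum (s := s) (F := F) (c := .unit) (b := .list (.prod Ma Un))
    (a := .prod Ma Un) ddS v k ((), (([] : List (List (List F) × List Unit)), L))
    (fun z => 180 * List.length z.1 * S + 50)
    (fun acc => ((acc : List (List (List F) × List Unit)).map Prod.fst).Nodup ∧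
      ∀ x ∈ (acc : List (List (List F) × List Unit)), x ∈ L)
    (by simp)
    (by
      rintro acc z ⟨h1, h2⟩ hz
      rw [val_ddS]
      by_cases hz2 : z.1 ∈ List.map Prod.fst (acc : List (List (List F) × List Unit))
      · rw [flg_true hz2, lcase_cons]
        exact ⟨h1, h2⟩
      · rw [flg_false hz2, lcase_nil]
        constructor
        · rw [List.map_cons, List.nodup_cons]
          exact ⟨hz2, h1⟩
        · intro x hx
          rw [List.mem_cons] at hx
          rcases hx with hx | hx
          · rw [hx]; exact hz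
          · exact h2 x hx)
    (by
      rintro acc z ⟨h1, h2⟩ hz
      obtain ⟨m, hm⟩ := hL z hz
      have h3 := cost_memP v k z.1 acc m hm (fun y hy => hL y (h2 y hy))
      have h4 := sum_le_of_nodup (fun y : List (List F) × List Unit => y.1.length) acc L
        (List.Nodup.of_map _ h1) h2
      rw [← hS] at h4
      simp only [ddS, cost_onL, cost_comp, cost_pair, cost_fst, cost_snd, val_comp, val_pair,
        val_fst, val_snd, cost_cons]
      have h5 : 180 * (m + 1) * (List.map (fun y : List (List F) × List Unit => y.1.length)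
          acc).sum ≤ 180 * List.length z.1 * S := by
        rw [hm.1]
        exact Nat.mul_le_mul_left _ h4
      rcases (memP.val v (z.1, acc) : List Unit) with _ | ⟨w, ws⟩
      · rw [lcase_nil]
        omega
      · rw [lcase_cons]
        omega)
  simp only [ddP, cost_comp, cost_pair, cost_star, cost_nil, cost_id, val_pair, val_star, val_nil,
    val_id]
  have h2 : (List.map (fun z : List (List F) × List Unit => 180 * List.length z.1 * S + 50 + 27)
      L).sum ≤ (180 * S + 77) * S := by
    have h3 : (List.map (fun z : List (List F) × List Unit =>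
        180 * List.length z.1 * S + 50 + 27) L).sum ≤
        (List.map (fun z : List (List F) × List Unit => (180 * S + 77) * List.length z.1)
          L).sum := by
      apply List.sum_le_sum
      intro z hz
      obtain ⟨m, hm⟩ := hL z hz
      rw [hm.1]
      nlinarith
    rw [List.sum_map_mul_left] at h3
    exact h3
  have h4 : (180 * S + 77) * S + 14 + (1 + (1 + 1 + 1) + 1) ≤ (180 * S + 100) * S + 50 := by
    nlinarith
  refine le_trans ?_ h4
  refine le_trans (Nat.add_le_add_left (h1.trans (Nat.add_le_add_right h2 14)) _) ?_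
  omega

end

end Desc

end Pool.Agent.H330FB.JE6

noncomputable section
namespace Pool.Agent.H330FB.JE6
open Polynomial

namespace Desc

/-! ### the norm -/

section
variable {s : List (Ty × Ty)}

/-- type of the data of the norm routine -/
abbrev NT : Ty := .prod (.prod TB Po) (.prod Ma (.prod Ma Ma))

/-- body of the norm routine; input `((table, bits), (G, (conjugate, product)))` -/
def nrB (mr : Pr [] (.prod TB (.prod Un (.prod Ma Ma))) Ma) : Pr ((NT, Ma) :: s) NT Ma :=
  onL (.comp (.pair (.comp (.comp .snd .snd) .fst) (.comp .snd .fst)) eqMP)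
    (.comp (.pair .fst (.pair (.comp .snd .fst) (.pair
        (.comp (.pair (.comp .fst .snd) (.comp (.comp .snd .snd) .fst)) phP)
        (.comp (.pair (.comp .fst .fst) (.pair (.comp (.comp .snd .snd) .snd)
          (.comp (.comp .snd .snd) .fst))) (mulH mr))))) .self)
    (.comp (.comp (.comp .fst .snd) .snd) .snd)

/-- the norm routine; input `(fuel, ((table, bits), (G, (conjugate, product))))` -/
def nrP (mr : Pr [] (.prod TB (.prod Un (.prod Ma Ma))) Ma) : Pr s (.prod Un NT) Ma :=
  .recD (nrB mr) (.comp (.comp .snd .snd) .snd)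

section
variable {K : Type} [Field K] [DecidableEq K]

theorem val_nrB (mr : Pr [] (.prod TB (.prod Un (.prod Ma Ma))) Ma)
    (w : SV K ((NT, Ma) :: s)) (tb : List (List K) × List (List K)) (q : ℕ)
    (G cur prod : List (List K)) :
    (nrB mr).val w ((tb, bits K q), (G, (cur, prod))) =
      lcase (flg (cur = G))
        (w.1 ((tb, bits K q), (G, (frl q cur, (mulH mr).val w (tb, (prod, cur))))) :
          List (List K)) (fun _ _ => prod) := by
  simp only [nrB, val_onL, val_comp, val_pair, val_fst, val_snd, val_self]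
  rw [val_eqMP, val_phP]

theorem cost_nrB (mr : Pr [] (.prod TB (.prod Un (.prod Ma Ma))) Ma)
    (w : SV K ((NT, Ma) :: s)) (k : SC K ((NT, Ma) :: s))
    (tb : List (List K) × List (List K)) (q : ℕ)
    (G cur prod : List (List K)) (c1 c2 c3 : ℕ)
    (h1 : (eqMP : Pr ((NT, Ma) :: s) (.prod Ma Ma) Un).cost w k (cur, G) ≤ c1)
    (h2 : (phP : Pr ((NT, Ma) :: s) (.prod Po Ma) Ma).cost w k (bits K q, cur) ≤ c2)
    (h3 : (mulH mr : Pr ((NT, Ma) :: s) (.prod TB (.prod Ma Ma)) Ma).cost w k
      (tb, (prod, cur)) ≤ c3)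
    (c4 : ℕ) (h4 : cur ≠ G → k.1 ((tb, bits K q), (G, (frl q cur,
      (mulH mr : Pr ((NT, Ma) :: s) (.prod TB (.prod Ma Ma)) Ma).val w
      (tb, (prod, cur))))) ≤ c4) :
    (nrB mr).cost w k ((tb, bits K q), (G, (cur, prod))) ≤ c1 + c2 + c3 + 60 + c4 := by
  simp only [nrB, cost_onL, cost_comp, cost_pair, cost_fst, cost_snd, val_snd, val_comp,
    val_pair, val_fst, cost_self]
  rw [val_eqMP, val_phP]
  by_cases h : cur = G
  · rw [flg_true h, lcase_cons]
    omega
  · rw [flg_false h, lcase_nil]
    have h5 := h4 h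
    have key : ∀ x1 x2 x3 x4 : ℕ, x1 ≤ c1 → x2 ≤ c2 → x3 ≤ c3 → x4 ≤ c4 →
      1 + 1 + 1 + (1 + 1) + 1 + x1 + 3 + (1 + (1 + 1 + (1 + 1 + (1 + 1 + 1) + 1 + x2 +
        (1 + 1 + (1 + 1 + 1 + (1 + 1 + 1) + 1) + 1 + x3) + 1) + 1) + 1 + (x4 + 1)) ≤
        c1 + c2 + c3 + 60 + c4 := by
      intro x1 x2 x3 x4 e1 e2 e3 e4
      omega
    exact key _ _ _ _ h1 h2 h3 h5

end

section
variable (F : Type) {K : Type} [Field F] [Fintype F] [Field K] [Fintype K] [DecidableEq K]
  [Algebra F K]

/-- correctness and cost of the loop -/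
theorem loop (mr : Pr [] (.prod TB (.prod Un (.prod Ma Ma))) Ma)
    {e : ℕ} (he : Fintype.card K = Fintype.card F ^ e) (he1 : 1 ≤ e)
    (tb : List (List K) × List (List K))
    (hmr : ∀ (s : ℕ) (a b : List (List K)), 1 ≤ s → Sh s a → Sh s b →
      let r : List (List K) := mr.val () (tb, (un s, (a, b)))
      Sh s r ∧ r.length = a.length + b.length ∧
      (∀ (R : Type) [CommRing R] [Algebra K R] (τ : R), τ ^ s = 0 → rp τ r = rp τ a * rp τ b))
    (v : SV K s) (k : SC K s)
    (m : ℕ) (G : List (List K)) (hG : NI m G) (B : ℕ)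
    (hB : ∀ (w : SV K ((NT, Ma) :: s)) (k' : SC K ((NT, Ma) :: s)) (i : ℕ)
      (cur prod : List (List K)), i ≤ e → IsHom m cur → IsHom (i * m) prod →
      (eqMP : Pr ((NT, Ma) :: s) (.prod Ma Ma) Un).cost w k' (cur, G) +
      (phP : Pr ((NT, Ma) :: s) (.prod Po Ma) Ma).cost w k' (bits K (Fintype.card F), cur) +
      (mulH mr : Pr ((NT, Ma) :: s) (.prod TB (.prod Ma Ma)) Ma).cost w k'
        (tb, (prod, cur)) ≤ B) (n : ℕ) :
    ∀ (i : ℕ) (prod : List (List K)), 1 ≤ i → i ≤ per F G → per F G ≤ i + n →
      IsHom (i * m) prod →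
      hom prod = ∏ j ∈ Finset.range i, hom ((frl (Fintype.card F))^[j] G) →
      IsNorm F G (goV (nrB mr) (.comp (.comp .snd .snd) .snd) v n
        ((tb, bits K (Fintype.card F)), (G, ((frl (Fintype.card F))^[i] G, prod)))) ∧
      goC (nrB mr) (.comp (.comp .snd .snd) .snd) v k n
        ((tb, bits K (Fintype.card F)), (G, ((frl (Fintype.card F))^[i] G, prod))) ≤
        (B + 60) * n + 10 := by
  induction n with
  | zero =>
    intro i prod hi1 hi2 hi3 hp1 hp2
    have hi : i = per F G := by omega
    constructor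
    · refine ⟨m, hG, ?_, ?_⟩
      · rw [← hi]
        exact hp1
      · unfold NP
        rw [← hi]
        exact hp2
    · simp [goC]
  | succ n ih =>
    intro i prod hi1 hi2 hi3 hp1 hp2
    have hper := per_le F he he1 G
    have hcur := (ni_frl_iter F m i G hG).2.1
    simp only [goV, goC]
    rw [val_nrB]
    have hc := cost_nrB mr (goV (nrB mr) (.comp (.comp .snd .snd) .snd) v n, v)
      (goC (nrB mr) (.comp (.comp .snd .snd) .snd) v k n, k) tb (Fintype.card F) G
      ((frl (Fintype.card F))^[i] G) prod _ _ _ le_rfl le_rfl le_rfl ((B + 60) * n + 10)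
    have hB' := hB (goV (nrB mr) (.comp (.comp .snd .snd) .snd) v n, v)
      (goC (nrB mr) (.comp (.comp .snd .snd) .snd) v k n, k) i
      ((frl (Fintype.card F))^[i] G) prod (by omega) hcur hp1
    by_cases h : (frl (Fintype.card F))^[i] G = G
    · have h2 : per F G ≤ i :=
        Function.IsPeriodicPt.minimalPeriod_le (by omega) h
      have hi : i = per F G := by omega
      constructor
      · rw [flg_true h, lcase_cons]
        refine ⟨m, hG, ?_, ?_⟩
        · rw [← hi]
          exact hp1
        · unfold NP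
          rw [← hi]
          exact hp2
      · have := hc (fun h' => absurd h h')
        rw [show (B + 60) * (n + 1) + 10 = B + 60 + ((B + 60) * n + 10) by ring]
        exact this.trans (Nat.add_le_add_right (Nat.add_le_add_right hB' 60) _)
    · have hlt : i < per F G := by
        rcases lt_or_eq_of_le hi2 with h3 | h3
        · exact h3
        · exfalso
          apply h
          rw [h3]
          exact frl_per F G
      have hmul := mulH_spec (s := (NT, Ma) :: s) mr (goV (nrB mr) (.comp (.comp .snd .snd) .snd) v n, v) tb prod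
        ((frl (Fintype.card F))^[i] G) (i * m) m hp1 hcur (by
          have := hmr (prod.length + ((frl (Fintype.card F))^[i] G).length)
            (prod.map (fit (prod.length + ((frl (Fintype.card F))^[i] G).length) 0))
            (((frl (Fintype.card F))^[i] G).map
              (fit (prod.length + ((frl (Fintype.card F))^[i] G).length) 0))
            (by rw [hp1.1]; omega)
            (by
              intro r hr
              obtain ⟨r', _, rfl⟩ := List.mem_map.mp hr
              exact length_fit _ _ _)
            (by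
              intro r hr
              obtain ⟨r', _, rfl⟩ := List.mem_map.mp hr
              exact length_fit _ _ _)
          simp only [List.length_map] at this
          exact this)
      obtain ⟨hm1, hm2⟩ := hmul
      have hih := ih (i + 1) _ (by omega) (by omega) (by omega)
        (by rw [Nat.succ_mul]; exact hm1)
        (by rw [hm2, hp2, Finset.prod_range_succ])
      rw [Function.iterate_succ_apply'] at hih
      constructor
      · rw [flg_false h, lcase_nil]
        exact hih.1
      · have := hc (fun _ => hih.2)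
        rw [show (B + 60) * (n + 1) + 10 = B + 60 + ((B + 60) * n + 10) by ring]
        exact this.trans (Nat.add_le_add_right (Nat.add_le_add_right hB' 60) _)

end

end

end Desc

end Pool.Agent.H330FB.JE6

noncomputable section
namespace Pool.Agent.H330FB.JE6
open Polynomial

namespace Desc

/-! ### cost units -/

theorem vv_mul (i j : ℕ) : vv (i + j) ≤ vv i * vv j := by
  unfold vv
  have h1 : 7 ^ i < 2 ^ i * (7 ^ i / 2 ^ i + 1) := Nat.lt_mul_div_succ _ (by positivity)
  have h2 : 7 ^ j < 2 ^ j * (7 ^ j / 2 ^ j + 1) := Nat.lt_mul_div_succ _ (by positivity)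
  have h3 : 7 ^ (i + j) < 2 ^ (i + j) * ((7 ^ i / 2 ^ i + 1) * (7 ^ j / 2 ^ j + 1)) := by
    rw [pow_add, pow_add]
    calc 7 ^ i * 7 ^ j < (2 ^ i * (7 ^ i / 2 ^ i + 1)) * (2 ^ j * (7 ^ j / 2 ^ j + 1)) :=
          Nat.mul_lt_mul'' h1 h2
      _ = _ := by ring
  have h4 : 7 ^ (i + j) / 2 ^ (i + j) < (7 ^ i / 2 ^ i + 1) * (7 ^ j / 2 ^ j + 1) :=
    Nat.div_lt_of_lt_mul h3
  omega

theorem vv_mono {i j : ℕ} (h : i ≤ j) : vv i ≤ vv j := by
  obtain ⟨k, rfl⟩ := Nat.exists_eq_add_of_le h
  unfold vv
  apply Nat.add_le_add_right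
  rw [Nat.le_div_iff_mul_le (by positivity), pow_add, pow_add]
  have h1 : 7 ^ i / 2 ^ i * 2 ^ i ≤ 7 ^ i := Nat.div_mul_le_self _ _
  have h2 : 2 ^ k ≤ 7 ^ k := Nat.pow_le_pow_left (by norm_num) k
  calc 7 ^ i / 2 ^ i * (2 ^ i * 2 ^ k) = (7 ^ i / 2 ^ i * 2 ^ i) * 2 ^ k := by ring
    _ ≤ 7 ^ i * 7 ^ k := Nat.mul_le_mul h1 h2

theorem vv_clog (a : ℕ) (ha : 1 ≤ a) : vv (Nat.clog 2 a) ≤ 8 * a ^ 2 := by
  unfold vv
  set k := Nat.clog 2 a with hk
  have h1 : 2 ^ k ≤ 2 * a := by
    rcases Nat.eq_zero_or_pos k with h0 | h0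
    · rw [h0]; omega
    · have h2 : 2 ^ (k - 1) < a := Nat.pow_pred_clog_lt_self (by norm_num) (by
        by_contra hcon
        have : a = 1 := by omega
        rw [this, Nat.clog_one_right] at hk
        omega)
      have h3 : 2 ^ k = 2 * 2 ^ (k - 1) := by
        obtain ⟨k', hk'⟩ : ∃ k', k = k' + 1 := ⟨k - 1, by omega⟩
        rw [hk', Nat.add_sub_cancel, pow_succ]
        ring
      omega
  have h4 : 7 ^ k / 2 ^ k ≤ 4 ^ k := by
    apply Nat.div_le_of_le_mul
    rw [← Nat.mul_pow]
    exact Nat.pow_le_pow_left (by norm_num) k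
  have h5 : 4 ^ k = 2 ^ k * 2 ^ k := by rw [← Nat.mul_pow]
  have h6 : 2 ^ k * 2 ^ k ≤ (2 * a) * (2 * a) := Nat.mul_le_mul h1 h1
  have h7 : 1 ≤ a * a := Nat.mul_pos ha ha
  nlinarith

theorem ww_mul (a b : ℕ) (ha : 1 ≤ a) : ww (a * b) ≤ 8 * a ^ 3 * ww b := by
  unfold ww
  have h1 : Nat.clog 2 (a * b) ≤ Nat.clog 2 a + Nat.clog 2 b := by
    rw [Nat.clog_le_iff_le_pow (by norm_num), pow_add]
    exact Nat.mul_le_mul (Nat.le_pow_clog (by norm_num) a) (Nat.le_pow_clog (by norm_num) b)
  have h2 := (vv_mono h1).trans (vv_mul _ _)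
  have h3 := vv_clog a ha
  calc a * b * vv (Nat.clog 2 (a * b)) ≤
      a * b * (8 * a ^ 2 * vv (Nat.clog 2 b)) :=
        Nat.mul_le_mul_left _ (h2.trans (Nat.mul_le_mul_right _ h3))
    _ = _ := by ring

/-! ### the degrees of the factors -/

section
variable {K : Type} [Field K]

theorem deg_sum (L : List (List (List K) × List Unit))
    (h : ∀ o ∈ L, (∃ m, NI m o.1) ∧ 1 ≤ o.2.length) :
    Psi K ((L.map (fun o => hom o.1 ^ o.2.length)).prod) ≠ 0 ∧
      (L.map (fun o => o.1.length - 1)).sum ≤
        (Psi K ((L.map (fun o => hom o.1 ^ o.2.length)).prod)).natDegree := by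
  induction L with
  | nil => simp
  | cons o L ih =>
    obtain ⟨h1, h2⟩ := ih (fun o ho => h o (by simp [ho]))
    obtain ⟨⟨m, hm⟩, hc⟩ := h o (by simp)
    simp only [List.map_cons, List.prod_cons, List.sum_cons, map_mul, map_pow]
    rw [Psi_hom hm.2.1]
    have h3 : biv o.1 ≠ 0 := by
      intro h0
      have h4 := leadingCoeff_biv hm.2.1 hm.2.2.1
      rw [h0, leadingCoeff_zero] at h4
      exact hm.2.2.1.ne h4.symm
    refine ⟨mul_ne_zero (pow_ne_zero _ h3) h1, ?_⟩
    rw [natDegree_mul (pow_ne_zero _ h3) h1, natDegree_pow, natDegree_biv hm.2.1 hm.2.2.1.ne,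
      hm.2.1.1]
    have h5 : m + 1 - 1 ≤ o.2.length * m := by
      simp only [Nat.add_sub_cancel]
      nlinarith
    omega

theorem deg_le {d : ℕ} {H : List (List K)} (hH : IsHom d H) (ht : TopNe d H)
    {out : List (List (List K) × List Unit)} (h : Fac (hom H) out) :
    (out.map (fun o => o.1.length - 1)).sum ≤ d := by
  obtain ⟨⟨u, hu, hf⟩, h2, _⟩ := h
  obtain ⟨h3, h4⟩ := deg_sum out h2
  have h5 : (biv H).natDegree = d := by
    apply natDegree_biv hH
    obtain ⟨j, hj⟩ := ht
    intro h0
    rw [← coeff_pol, h0] at hj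
    exact hj (by simp)
  have h6 : biv H = C (C u) * Psi K ((out.map (fun o => hom o.1 ^ o.2.length)).prod) := by
    rw [← Psi_hom hH, hf, map_mul]
    congr 1
    unfold Psi
    simp
  have h7 : (C (C u) : K[X][X]) ≠ 0 := by
    simp [hu]
  rw [h6, natDegree_mul h7 h3, natDegree_C, zero_add] at h5
  rw [← h5]
  exact h4

theorem ww_sum (h0 : SpecUnits) (L : List ℕ) : (L.map ww).sum ≤ ww L.sum := by
  obtain ⟨_, _, _, _, hww, _⟩ := h0
  induction L with
  | nil => simp [ww]
  | cons x L ih =>
    simp only [List.map_cons, List.sum_cons]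
    exact (Nat.add_le_add_left ih _).trans (hww _ _)

end

/-! ### the program -/

section
variable {s : List (Ty × Ty)}

/-- the norm of one factor; input `((table, (bits, e)), (G, c))` -/
def elP (mr : Pr [] (.prod TB (.prod Un (.prod Ma Ma))) Ma) :
    Pr s (.prod (.prod TB (.prod Po Un)) (.prod Ma Un)) (.prod Ma Un) :=
  .pair (.comp (.pair (.comp (.comp .fst .snd) .snd)
      (.pair (.pair (.comp .fst .fst) (.comp (.comp .fst .snd) .fst))
        (.pair (.comp .snd .fst) (.pair
          (.comp (.pair (.comp (.comp .fst .snd) .fst) (.comp .snd .fst)) phP)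
          (.comp .snd .fst)))))
      (nrP mr)) (.comp .snd .snd)

/-- the whole program; input `(table, ((bits, e), factorization))` -/
def mainP (mr : Pr [] (.prod TB (.prod Un (.prod Ma Ma))) Ma) :
    Pr [] (.prod TB (.prod (.prod Po Un) (.list (.prod Ma Un)))) (.list (.prod Ma Un)) :=
  .comp (.comp (.pair (.pair .fst (.comp .snd .fst)) (.comp .snd .snd)) (mapP (elP mr))) ddP

theorem elP_spec (F : Type) {K : Type} [Field F] [Fintype F] [Field K] [Fintype K]
    [DecidableEq K] [Algebra F K]
    (mr : Pr [] (.prod TB (.prod Un (.prod Ma Ma))) Ma)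
    {e : ℕ} (he : Fintype.card K = Fintype.card F ^ e) (he1 : 1 ≤ e)
    (tb : List (List K) × List (List K))
    (hmr : ∀ (s : ℕ) (a b : List (List K)), 1 ≤ s → Sh s a → Sh s b →
      let r : List (List K) := mr.val () (tb, (un s, (a, b)))
      Sh s r ∧ r.length = a.length + b.length ∧
      (∀ (R : Type) [CommRing R] [Algebra K R] (τ : R), τ ^ s = 0 → rp τ r = rp τ a * rp τ b))
    (C1 : ℕ)
    (hcmr : ∀ (s : ℕ) (a b : List (List K)), 1 ≤ s → Sh s a → Sh s b →
      mr.cost () () (tb, (un s, (a, b))) ≤ C1 * mu (s * (a.length + b.length) + 1))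
    (hmu : ∀ a b, a ≤ b → mu a ≤ mu b)
    (v : SV K s) (k : SC K s) (m : ℕ) (G : List (List K)) (hG : NI m G) (c : List Unit) (B : ℕ)
    (hB : 140 * ((m + 1) * (m + 1)) + ((113 * lgc (Fintype.card F) * (m + 1) + 18) * (m + 1) + 5)
      + (C1 * mu (((e + 1) * (m + 1)) * ((e + 1) * (m + 1)) + 1) +
        200 * ((e + 1) * (m + 1)) ^ 2) ≤ B) :
    IsNorm F G ((elP mr).val v ((tb, (bits K (Fintype.card F), un e)), (G, c))).1 ∧
    ((elP mr).val v ((tb, (bits K (Fintype.card F), un e)), (G, c))).2 = c ∧
    (elP mr).cost v k ((tb, (bits K (Fintype.card F), un e)), (G, c)) ≤ (B + 100) * (e + 1) := by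
  have hB' : ∀ (w : SV K ((NT, Ma) :: s)) (k' : SC K ((NT, Ma) :: s)) (i : ℕ)
      (cur prod : List (List K)), i ≤ e → IsHom m cur → IsHom (i * m) prod →
      (eqMP : Pr ((NT, Ma) :: s) (.prod Ma Ma) Un).cost w k' (cur, G) +
      (phP : Pr ((NT, Ma) :: s) (.prod Po Ma) Ma).cost w k' (bits K (Fintype.card F), cur) +
      (mulH mr : Pr ((NT, Ma) :: s) (.prod TB (.prod Ma Ma)) Ma).cost w k'
        (tb, (prod, cur)) ≤ B := by
    intro w k' i cur prod hi hcur hprod
    have c1 := cost_eqMP (s := (NT, Ma) :: s) w k' cur G hcur hG.2.1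
    have c2 := cost_phP (s := (NT, Ma) :: s) w k' (Fintype.card F) (m + 1) cur (by
      intro r hr
      obtain ⟨j, hj, rfl⟩ := List.getElem_of_mem hr
      have := hcur.2 j (by rw [hcur.1] at hj; omega)
      rw [List.getD_eq_getElem _ _ hj] at this
      rw [hcur.1] at hj
      omega)
    rw [hcur.1] at c2
    have hn : prod.length + cur.length ≤ (e + 1) * (m + 1) := by
      rw [hprod.1, hcur.1]
      have : i * m ≤ e * m := Nat.mul_le_mul_right _ hi
      nlinarith
    have c3 := cost_mulH (s := (NT, Ma) :: s) mr w k' tb prod cur (i * m) m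
      (C1 * mu (((e + 1) * (m + 1)) * ((e + 1) * (m + 1)) + 1)) hprod hcur (by
        have h1 := hcmr (prod.length + cur.length)
          (prod.map (fit (prod.length + cur.length) 0))
          (cur.map (fit (prod.length + cur.length) 0)) (by rw [hprod.1]; omega)
          (by
            intro r hr
            obtain ⟨r', _, rfl⟩ := List.mem_map.mp hr
            exact length_fit _ _ _)
          (by
            intro r hr
            obtain ⟨r', _, rfl⟩ := List.mem_map.mp hr
            exact length_fit _ _ _)
        refine h1.trans (Nat.mul_le_mul_left _ (hmu _ _ ?_))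
        rw [List.length_map, List.length_map]
        exact Nat.add_le_add_right (Nat.mul_le_mul hn hn) 1)
    have h4 : i * m + m + 2 ≤ (e + 1) * (m + 1) := by
      rw [hprod.1, hcur.1] at hn
      omega
    have h5 : (i * m + m + 2) ^ 2 ≤ ((e + 1) * (m + 1)) ^ 2 := Nat.pow_le_pow_left h4 2
    refine le_trans (Nat.add_le_add (Nat.add_le_add c1 c2) c3) ?_
    omega
  have hG1 : IsHom (1 * m) G := by rw [one_mul]; exact hG.2.1
  have hl := loop F mr he he1 tb hmr v k m G hG B hB' e 1 G le_rfl (per_pos F he he1 G)
    (by have := per_le F he he1 G; omega) hG1 (by simp)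
  have hval : (elP mr).val v ((tb, (bits K (Fintype.card F), un e)), (G, c)) =
      (goV (nrB mr) (.comp (.comp .snd .snd) .snd) v e
        ((tb, bits K (Fintype.card F)), (G, ((frl (Fintype.card F))^[1] G, G))), c) := by
    simp only [elP, nrP, val_comp, val_pair, val_fst, val_snd, val_recD]
    rw [val_phP, length_un]
    rfl
  have hcost : (elP mr).cost v k ((tb, (bits K (Fintype.card F), un e)), (G, c)) ≤
      (goC (nrB mr) (.comp (.comp .snd .snd) .snd) v k e
        ((tb, bits K (Fintype.card F)), (G, ((frl (Fintype.card F))^[1] G, G)))) +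
      (phP : Pr s (.prod Po Ma) Ma).cost v k (bits K (Fintype.card F), G) + 60 := by
    simp only [elP, nrP, cost_comp, cost_pair, cost_fst, cost_snd, cost_recD, val_comp, val_pair,
      val_fst, val_snd]
    rw [val_phP, length_un]
    have key : ∀ x y : ℕ, 1 + 1 + 1 + (1 + 1 + (1 + 1 + 1) + 1 + (1 + 1 + (1 + 1 + 1 + (1 + 1) +
        1 + y + (1 + 1) + 1) + 1) + 1) + 1 + (x + 1) + (1 + 1) + 1 ≤ x + y + 60 := by
      intro x y
      omega
    exact key _ _
  rw [hval]
  refine ⟨hl.1, rfl, ?_⟩
  have c2 := cost_phP (s := s) v k (Fintype.card F) (m + 1) G (by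
      intro r hr
      obtain ⟨j, hj, rfl⟩ := List.getElem_of_mem hr
      have := hG.2.1.2 j (by rw [hG.2.1.1] at hj; omega)
      rw [List.getD_eq_getElem _ _ hj] at this
      rw [hG.2.1.1] at hj
      omega)
  rw [hG.2.1.1] at c2
  have h6 : (113 * lgc (Fintype.card F) * (m + 1) + 18) * (m + 1) + 5 ≤ B := by omega
  refine hcost.trans ?_
  refine le_trans (Nat.add_le_add_right (Nat.add_le_add hl.2 (c2.trans h6)) 60) ?_
  nlinarith

end

end Desc

end Pool.Agent.H330FB.JE6

noncomputable section
namespace Pool.Agent.H330FB.JE6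
open Polynomial

namespace Desc

theorem tymap_Ma {F K : Type} (φ : F → K) (l : List (List F)) :
    (Ty.map φ Ma l : List (List K)) = l.map (List.map φ) := by
  simp only [Ty.map]

theorem tymap_out {F K : Type} (φ : F → K) (l : List (List (List F) × List Unit)) :
    (Ty.map φ (.list (.prod Ma Un)) l : List (List (List K) × List Unit)) =
      l.map (fun x => (x.1.map (List.map φ), x.2)) := by
  simp only [Ty.map]
  apply List.map_congr_left
  intro x _
  simp

/-- the estimate for one factor -/
theorem unit_bound (E L w m C1 Cm : ℕ) (hE : 1 ≤ E) (hL : 1 ≤ L) (hw : (m + 1) * (m + 1) ≤ w)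
    (x y : ℕ) (hx : x ≤ Cm * y) (hy : y ≤ 8 * E ^ 3 * w) (hy2 : (E * (m + 1)) ^ 2 ≤ y) :
    140 * ((m + 1) * (m + 1)) + ((113 * L * (m + 1) + 18) * (m + 1) + 5) +
      (C1 * x + 200 * (E * (m + 1)) ^ 2) ≤ (1900 + 8 * C1 * Cm) * (E ^ 3 * L * w) := by
  have hE3 : 1 ≤ E ^ 3 := Nat.one_le_pow _ _ hE
  have hm : m + 1 ≤ (m + 1) * (m + 1) := by nlinarith
  have a0 : w ≤ E ^ 3 * L * w := by
    have : 1 ≤ E ^ 3 * L := Nat.mul_pos hE3 hL
    nlinarith
  have a1 : L * w ≤ E ^ 3 * L * w := by
    rw [Nat.mul_assoc]
    exact Nat.le_mul_of_pos_left _ hE3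
  have a2 : E ^ 3 * w ≤ E ^ 3 * L * w := by
    have : E ^ 3 ≤ E ^ 3 * L := Nat.le_mul_of_pos_right _ hL
    exact Nat.mul_le_mul_right _ this
  have a3 : L * ((m + 1) * (m + 1)) ≤ L * w := Nat.mul_le_mul_left _ hw
  have a4 : (113 * L * (m + 1) + 18) * (m + 1) = 113 * (L * ((m + 1) * (m + 1))) +
      18 * (m + 1) := by ring
  have a5 : C1 * x ≤ 8 * C1 * Cm * (E ^ 3 * w) := by
    calc C1 * x ≤ C1 * (Cm * (8 * E ^ 3 * w)) :=
          Nat.mul_le_mul_left _ (hx.trans (Nat.mul_le_mul_left _ hy))
      _ = _ := by ring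
  have a6 : 8 * C1 * Cm * (E ^ 3 * w) ≤ 8 * C1 * Cm * (E ^ 3 * L * w) :=
    Nat.mul_le_mul_left _ a2
  have a7 : (E * (m + 1)) ^ 2 ≤ 8 * (E ^ 3 * w) := by
    refine (hy2.trans hy).trans (le_of_eq ?_)
    ring
  have a8 : 1 ≤ (m + 1) * (m + 1) := Nat.mul_pos (by omega) (by omega)
  have a9 : (1900 + 8 * C1 * Cm) * (E ^ 3 * L * w) =
      1900 * (E ^ 3 * L * w) + 8 * C1 * Cm * (E ^ 3 * L * w) := by ring
  rw [a4, a9]
  omega

theorem dd_bound (S E d L w : ℕ) (hE : 1 ≤ E) (hL : 1 ≤ L) (hS : S ≤ E * d)
    (hw : (d + 1) * (d + 1) ≤ w) : (180 * S + 100) * S + 50 ≤ 330 * (E ^ 4 * L * w) := by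
  have h3 : d * d ≤ w := by nlinarith
  have h5 : d ≤ w := by nlinarith
  have hw1 : 1 ≤ w := by nlinarith
  have h1 : S * S ≤ E ^ 4 * L * w := by
    have h2 : S * S ≤ (E * d) * (E * d) := Nat.mul_le_mul hS hS
    calc S * S ≤ E ^ 2 * (d * d) := by
          refine h2.trans (le_of_eq ?_)
          ring
      _ ≤ E ^ 4 * w :=
          Nat.mul_le_mul (Nat.pow_le_pow_right (by omega) (by norm_num)) h3
      _ ≤ E ^ 4 * L * w :=
          Nat.mul_le_mul_right _ (Nat.le_mul_of_pos_right _ hL)
  have h4 : S ≤ E ^ 4 * L * w := by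
    calc S ≤ E ^ 1 * d := by rw [pow_one]; exact hS
      _ ≤ E ^ 4 * w :=
          Nat.mul_le_mul (Nat.pow_le_pow_right (by omega) (by norm_num)) h5
      _ ≤ E ^ 4 * L * w :=
          Nat.mul_le_mul_right _ (Nat.le_mul_of_pos_right _ hL)
  have h6 : 1 ≤ E ^ 4 * L * w :=
    Nat.mul_pos (Nat.mul_pos (Nat.pow_pos hE) hL) hw1
  have h7 : (180 * S + 100) * S + 50 = 180 * (S * S) + 100 * S + 50 := by ring
  rw [h7]
  omega

theorem PL_bound (e q d : ℕ) : (e + 1) ^ 4 * lgc q ≤ PL e q d ^ 4 := by
  unfold PL
  rw [Nat.mul_pow, Nat.mul_pow, Nat.mul_assoc]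
  apply Nat.mul_le_mul_left
  have hL1 : 1 ≤ lgc q := by unfold lgc; omega
  have h1 : lgc q ≤ lgc q ^ 4 := by
    calc lgc q = lgc q ^ 1 := (pow_one _).symm
      _ ≤ lgc q ^ 4 := Nat.pow_le_pow_right hL1 (by norm_num)
  have h2 : 1 ≤ lgc (d + 1) ^ 4 := Nat.one_le_pow _ _ (by unfold lgc; omega)
  calc lgc q = lgc q * 1 := (mul_one _).symm
    _ ≤ lgc q ^ 4 * lgc (d + 1) ^ 4 := Nat.mul_le_mul h1 h2

theorem final_bound (A C4 E L w P c1 c2 : ℕ) (hE : 1 ≤ E) (hL : 1 ≤ L) (hw : 1 ≤ w)
    (hP : E ^ 4 * L ≤ P ^ 4) (h1 : c1 ≤ A * (E ^ 4 * L) * (C4 * w) + 13 * w + 5)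
    (h2 : c2 ≤ 330 * (E ^ 4 * L * w)) :
    c1 + c2 + 20 ≤ (A * C4 + 500) * P ^ 4 * w := by
  have h4 : 1 ≤ E ^ 4 * L := Nat.mul_pos (Nat.pow_pos hE) hL
  have h7 : 1 ≤ E ^ 4 * L * w := Nat.mul_pos h4 hw
  have h8 : w ≤ E ^ 4 * L * w := Nat.le_mul_of_pos_left _ h4
  have h9 : A * (E ^ 4 * L) * (C4 * w) = A * C4 * (E ^ 4 * L * w) := by ring
  calc c1 + c2 + 20 ≤ A * C4 * (E ^ 4 * L * w) + 500 * (E ^ 4 * L * w) := by omega
    _ = (A * C4 + 500) * (E ^ 4 * L) * w := by ring
    _ ≤ (A * C4 + 500) * P ^ 4 * w := Nat.mul_le_mul_right _ (Nat.mul_le_mul_left _ hP)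

end Desc

theorem specDesc (h1 : SpecMulR) (h0 : SpecUnits) : SpecDesc := by
  obtain ⟨mr, C1, hmr⟩ := h1
  obtain ⟨hmu, hww, -, -, -, -, hwwN, -, hwwC, -, hmusq, -⟩ := id h0
  obtain ⟨Cm, hCm⟩ := hmusq 2
  obtain ⟨C4, hC4⟩ := hwwC 2
  refine ⟨Desc.mainP mr, (2000 + 8 * C1 * Cm) * C4 + 500, 4, ?_⟩
  intro F K _ _ _ _ _ _ _ q e d tb H out hq hK htb hH hd ht hfac
  subst hq
  have he1 : 1 ≤ e := by
    by_contra hcon
    have he0 : e = 0 := by omega
    rw [he0, pow_zero] at hK
    have : 1 < Fintype.card K := Fintype.one_lt_card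
    omega
  -- the factorization over K
  set Hm : List (List K) := H.map (List.map (algebraMap F K)) with hHm
  have hHm1 : IsHom d Hm := (Desc.isHom_map _ _ _).mpr hH
  have hHm2 : TopNe d Hm := by
    obtain ⟨j, hj⟩ := ht
    refine ⟨j, ?_⟩
    rw [hHm, Desc.getD_map_map, Desc.getD_map_zero _ (map_zero _)]
    intro h
    exact hj ((map_eq_zero (algebraMap F K)).mp h)
  have hfac2 : Desc.Fac (Desc.io F K (hom H)) out := by
    rw [Desc.tymap_Ma, Desc.fac_iff, Desc.hom_map] at hfac
    exact hfac
  have hfac3 : Desc.Fac (hom Hm) out := by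
    rw [hHm, Desc.hom_map]
    exact hfac2
  have hdeg := Desc.deg_le hHm1 hHm2 hfac3
  have hmr1 : ∀ (s : ℕ) (a b : List (List K)), 1 ≤ s → Sh s a → Sh s b →
      let r : List (List K) := mr.val () (tb, (un s, (a, b)))
      Sh s r ∧ r.length = a.length + b.length ∧
      (∀ (R : Type) [CommRing R] [Algebra K R] (τ : R), τ ^ s = 0 →
        rp τ r = rp τ a * rp τ b) := by
    intro s a b hs ha hb
    obtain ⟨h1, h2, h3, _⟩ := hmr K tb s a b htb hs ha hb
    exact ⟨h1, h2, h3⟩
  have hmr2 : ∀ (s : ℕ) (a b : List (List K)), 1 ≤ s → Sh s a → Sh s b →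
      mr.cost () () (tb, (un s, (a, b))) ≤ C1 * mu (s * (a.length + b.length) + 1) := by
    intro s a b hs ha hb
    exact (hmr K tb s a b htb hs ha hb).2.2.2
  set L := lgc (Fintype.card F) with hL
  have hL1 : 1 ≤ L := by rw [hL]; unfold lgc; omega
  -- every factor
  have hel : ∀ o ∈ out, Desc.IsNorm F o.1 ((Desc.elP mr).val (F := K) (s := []) ()
        ((tb, (bits K (Fintype.card F), un e)), (o.1, o.2))).1 ∧
      ((Desc.elP mr).val (F := K) (s := []) ()
        ((tb, (bits K (Fintype.card F), un e)), (o.1, o.2))).2 = o.2 ∧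
      (Desc.elP mr).cost (F := K) (s := []) () ()
        ((tb, (bits K (Fintype.card F), un e)), (o.1, o.2)) ≤
          (2000 + 8 * C1 * Cm) * ((e + 1) ^ 4 * L) * ww o.1.length := by
    intro o ho
    obtain ⟨⟨m, hm⟩, hc⟩ := hfac2.2.1 o ho
    have hW : ∃ N, (e + 1) * (m + 1) = N + 1 :=
      ⟨(e + 1) * (m + 1) - 1, by
        have : 1 ≤ (e + 1) * (m + 1) := Nat.mul_pos (by omega) (by omega)
        omega⟩
    obtain ⟨N, hN⟩ := hW
    have hb := Desc.unit_bound (e + 1) L (ww (m + 1)) m C1 Cm (by omega) hL1 (hwwN (m + 1))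
      (mu (((e + 1) * (m + 1)) * ((e + 1) * (m + 1)) + 1)) (ww ((e + 1) * (m + 1)))
      (by
        rw [hN]
        refine le_trans (hmu _ _ ?_) (hCm N)
        nlinarith)
      (Desc.ww_mul _ _ (by omega))
      (by rw [pow_two]; exact hwwN _)
    have hs := Desc.elP_spec (s := []) F mr hK he1 tb hmr1 C1 hmr2 hmu () () m o.1 hm o.2 _ hb
    refine ⟨hs.1, hs.2.1, hs.2.2.trans ?_⟩
    rw [hm.2.1.1]
    have h2 : 1 ≤ (e + 1) ^ 3 * L * ww (m + 1) := by
      apply Nat.mul_pos (Nat.mul_pos (Nat.pos_of_ne_zero (by positivity)) hL1)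
      have := hwwN (m + 1)
      have h3 : 1 ≤ (m + 1) * (m + 1) := Nat.mul_pos (by omega) (by omega)
      omega
    calc ((1900 + 8 * C1 * Cm) * ((e + 1) ^ 3 * L * ww (m + 1)) + 100) * (e + 1) ≤
        ((1900 + 8 * C1 * Cm) * ((e + 1) ^ 3 * L * ww (m + 1)) +
          100 * ((e + 1) ^ 3 * L * ww (m + 1))) * (e + 1) := by
          apply Nat.mul_le_mul_right
          omega
      _ = _ := by ring
  set f : List (List K) × List Unit → List (List K) × List Unit := fun o =>
    (Desc.elP mr).val (F := K) (s := []) ()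
        ((tb, (bits K (Fintype.card F), un e)), o) with hf
  have hmain : (Desc.mainP mr).val (F := K) () (tb, ((bits K (Fintype.card F), un e), out)) =
      (Desc.ddP (s := [])).val (F := K) () (out.map f) := by
    unfold Desc.mainP
    simp only [val_comp, val_pair, val_fst, val_snd, val_mapP]
    rfl
  obtain ⟨r1, r2, r3⟩ := Desc.val_ddP (F := K) (s := []) () (out.map f)
  obtain ⟨outF, hg, hres⟩ := Desc.descend F hK he1 (hom H) out
    ((Desc.ddP (s := [])).val (F := K) () (out.map f)) hfac2 r1
    (by
      intro x hx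
      obtain ⟨o, ho, rfl⟩ := List.mem_map.mp (r2 x hx)
      exact ⟨o, ho, (hel o ho).2.1, (hel o ho).1⟩)
    (by
      intro o ho
      obtain ⟨y, hy, hyo⟩ := r3 (f o) (List.mem_map.mpr ⟨o, ho, rfl⟩)
      refine ⟨y, hy, ?_⟩
      rw [hyo]
      exact (hel o ho).1)
  refine ⟨outF, hg, ?_, ?_⟩
  · rw [hmain, Desc.tymap_out]
    exact hres
  · -- the cost
    have hlen : ∀ o ∈ out, 2 ≤ o.1.length := by
      intro o ho
      obtain ⟨⟨m, hm⟩, _⟩ := hfac2.2.1 o ho
      rw [hm.2.1.1]
      have := hm.1
      omega
    have hcount : out.length ≤ d := by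
      have h1 : (out.map (fun _ => 1)).sum ≤ (out.map (fun o => o.1.length - 1)).sum := by
        apply List.sum_le_sum
        intro o ho
        have := hlen o ho
        omega
      simp only [List.map_const', List.sum_replicate, smul_eq_mul, mul_one] at h1
      omega
    have hlensum : (out.map (fun o => o.1.length)).sum ≤ 2 * (d + 1) := by
      have h1 : (out.map (fun o => o.1.length)).sum ≤
          (out.map (fun o => 2 * (o.1.length - 1))).sum := by
        apply List.sum_le_sum
        intro o ho
        have := hlen o ho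
        omega
      rw [List.sum_map_mul_left] at h1
      omega
    -- the map
    have c1 := cost_mapP (F := K) (s := []) (Desc.elP mr) () ()
      ((tb, (bits K (Fintype.card F), un e)), out)
    have c2 : (List.map (fun y => (Desc.elP mr).cost (F := K) (s := []) () ()
        ((tb, (bits K (Fintype.card F), un e)), y) + 13) out).sum ≤
        (2000 + 8 * C1 * Cm) * ((e + 1) ^ 4 * L) * (C4 * ww (d + 1)) + 13 * ww (d + 1) := by
      have h1 : (List.map (fun y => (Desc.elP mr).cost (F := K) (s := []) () ()
          ((tb, (bits K (Fintype.card F), un e)), y) + 13) out).sum ≤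
          (List.map (fun y : List (List K) × List Unit =>
            (2000 + 8 * C1 * Cm) * ((e + 1) ^ 4 * L) * ww y.1.length + 13) out).sum := by
        apply List.sum_le_sum
        intro o ho
        exact Nat.add_le_add_right (hel o ho).2.2 13
      have h1' : (List.map (fun y : List (List K) × List Unit =>
            (2000 + 8 * C1 * Cm) * ((e + 1) ^ 4 * L) * ww y.1.length + 13) out).sum =
            (2000 + 8 * C1 * Cm) * ((e + 1) ^ 4 * L) *
            (List.map (fun y : List (List K) × List Unit => ww y.1.length) out).sum +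
            out.length * 13 := by
        rw [List.sum_map_add, List.sum_map_mul_left]
        simp only [List.map_const', List.sum_replicate, smul_eq_mul]
      rw [h1'] at h1
      have h2 := Desc.ww_sum h0 (out.map (fun o => o.1.length))
      rw [List.map_map] at h2
      have h3 : ww (out.map (fun o => o.1.length)).sum ≤ C4 * ww (d + 1) :=
        (hww _ _ hlensum).trans (hC4 d)
      have h4 := h2.trans h3
      have h5 : out.length ≤ ww (d + 1) :=
        (hcount.trans (Nat.le_succ d)).trans ((Nat.le_mul_self (d + 1)).trans (hwwN (d + 1)))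
      have h6 : (2000 + 8 * C1 * Cm) * ((e + 1) ^ 4 * L) *
          (List.map (fun y : List (List K) × List Unit => ww y.1.length) out).sum ≤
          (2000 + 8 * C1 * Cm) * ((e + 1) ^ 4 * L) * (C4 * ww (d + 1)) :=
        Nat.mul_le_mul_left _ h4
      omega
    -- removal of duplicates
    set S := ((out.map f).map (fun y => y.1.length)).sum with hS
    have hSle : S ≤ (e + 1) * d := by
      have h1 : S ≤ (out.map (fun o => (e + 1) * (o.1.length - 1))).sum := by
        rw [hS, List.map_map]
        apply List.sum_le_sum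
        intro o ho
        obtain ⟨m, hm1, hm2, hm3⟩ := (hel o ho).1
        have hp := Desc.per_le F hK he1 o.1
        simp only [Function.comp_apply, hf]
        rw [hm2.1, hm1.2.1.1]
        have h2 : Desc.per F o.1 * m ≤ e * m := Nat.mul_le_mul_right _ hp
        have h3 := hm1.1
        simp only [Nat.add_sub_cancel]
        exact (Nat.add_le_add h2 h3).trans (le_of_eq (Nat.succ_mul e m).symm)
      rw [List.sum_map_mul_left] at h1
      exact h1.trans (Nat.mul_le_mul_left _ hdeg)
    have c3 := Desc.cost_ddP (F := K) (s := []) () () (out.map f) (by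
      intro y hy
      obtain ⟨o, ho, rfl⟩ := List.mem_map.mp hy
      obtain ⟨m, hm1, hm2, hm3⟩ := (hel o ho).1
      exact ⟨_, hm2⟩)
    rw [← hS] at c3
    have c4 := Desc.dd_bound S (e + 1) d L (ww (d + 1)) (by omega) hL1 hSle (hwwN (d + 1))
    have hw1 : 1 ≤ ww (d + 1) :=
      le_trans (Nat.mul_pos (Nat.succ_pos d) (Nat.succ_pos d)) (hwwN (d + 1))
    have hcost : (Desc.mainP mr).cost (F := K) () ()
        (tb, ((bits K (Fintype.card F), un e), out)) ≤
        ((mapP (s := []) (Desc.elP mr)).cost (F := K) () ()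
          ((tb, (bits K (Fintype.card F), un e)), out)) +
        ((Desc.ddP (s := [])).cost (F := K) () () (out.map f)) + 20 := by
      unfold Desc.mainP
      simp only [cost_comp, cost_pair, cost_fst, cost_snd, val_comp, val_pair, val_fst, val_snd,
        val_mapP]
      have key : ∀ x y : ℕ, 1 + (1 + 1) + 1 + (1 + 1) + 1 + x + y ≤ x + y + 20 := by
        intro x y
        omega
      exact key _ _
    exact hcost.trans (Desc.final_bound (2000 + 8 * C1 * Cm) C4 (e + 1) L (ww (d + 1))
      (PL e (Fintype.card F) d) _ _ (by omega) hL1 hw1 (Desc.PL_bound e (Fintype.card F) d)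
      (c1.trans (Nat.add_le_add_right c2 5)) (c3.trans c4))

end Pool.Agent.H330FB.JE6
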