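import Pool.Agent.H330FB.Lib5
import Pool.Agent.H330FB.Spec4
set_option autoImplicit false
noncomputable section
namespace Pool.Agent.H330FB.JE7
open Polynomial

/-! ### programs -/

section progs
variable {F : Type} [Field F] [DecidableEq F] {s : List (Ty × Ty)}

/-- one step of powering; state `(product, square)` -/
def e7stepP : Pr s (.prod .unit (.prod (.prod .fld .fld) .fld)) (.prod .fld .fld) :=
  .pair (onZ (.comp .snd .snd) (.comp (.comp .snd .fst) .fst) (.comp (.comp .snd .fst) .mul))
    (.comp (.pair (.comp (.comp .snd .fst) .snd) (.comp (.comp .snd .fst) .snd)) .mul)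

theorem val_e7stepP (v : SV F s) (x : Ty.D F (.prod .unit (.prod (.prod .fld .fld) .fld))) :
    (e7stepP : Pr s _ _).val v x =
      (if (x.2.2 : F) = 0 then x.2.1.1 else x.2.1.1 * x.2.1.2, x.2.1.2 * x.2.1.2) := by
  obtain ⟨x, ⟨y, z⟩, w⟩ := x
  simp only [e7stepP, val_pair, val_onZ, val_comp, val_snd, val_fst, val_mul] <;> rfl

theorem cost_e7stepP (v : SV F s) (k : SC F s)
    (x : Ty.D F (.prod .unit (.prod (.prod .fld .fld) .fld))) :
    (e7stepP : Pr s _ _).cost v k x ≤ 30 := by
  obtain ⟨x, ⟨y, z⟩, w⟩ := x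
  by_cases hw : (w : F) = 0 <;> simp [e7stepP, hw]

/-- power; input `(bits, z)` -/
def e7powP : Pr s (.prod Po .fld) .fld :=
  .comp (.comp (.pair .star (.pair (.pair .one .snd) .fst)) (foldP (c := .unit) e7stepP)) .fst

theorem e7pow_aux (n : ℕ) : ∀ (a z : F),
    (List.foldl (fun (st : F × F) (b : F) =>
      ((if b = 0 then st.1 else st.1 * st.2 : F), (st.2 * st.2 : F))) (a, z)
      (bits F n)).1 = a * z ^ n := by
  induction n using Nat.binaryRec' with
  | zero => intro a z; simp [bits]
  | bit b n h ih =>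
    intro a z
    have hb : bits F (Nat.bit b n) = (if b then (1 : F) else 0) :: bits F n := by
      simp [bits, Nat.bits_append_bit n b h]
    rw [hb, List.foldl_cons, ih]
    cases b with
    | false => simp [Nat.bit_val, pow_mul, pow_two]
    | true => simp [Nat.bit_val, pow_mul, pow_succ]; ring

theorem val_e7powP (v : SV F s) (n : ℕ) (z : F) :
    ((e7powP : Pr s (.prod Po .fld) .fld).val v (bits F n, z) : F) = z ^ n := by
  simp only [e7powP, val_comp, val_pair, val_star, val_one, val_snd, val_fst, val_foldP,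
    val_e7stepP]
  have := e7pow_aux n 1 z
  rw [one_mul] at this
  exact this

omit [DecidableEq F] in
theorem e7_length_bits_le (n : ℕ) : (bits F n).length ≤ lgc n := by
  rw [bits, List.length_map, Nat.size_eq_bits_len, lgc, Nat.size_le]
  calc n ≤ 2 ^ Nat.clog 2 n := Nat.le_pow_clog (by norm_num) n
    _ < 2 ^ (Nat.clog 2 n + 1) := by
      rw [pow_succ]; have : 0 < 2 ^ Nat.clog 2 n := by positivity
      omega

theorem cost_e7powP (v : SV F s) (k : SC F s) (n : ℕ) (z : F) :
    (e7powP : Pr s (.prod Po .fld) .fld).cost v k (bits F n, z) ≤ 80 * lgc n := by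
  have h1 := e7_length_bits_le (F := F) n
  have h3 : 1 ≤ lgc n := by simp [lgc]
  have h2 := cost_foldP_le (s := s) (c := .unit) (b := .prod .fld .fld) (a := .fld) e7stepP v k
    ((), (((1 : F), z), bits F n)) 30 (fun _ => True) trivial (fun _ _ _ _ => trivial)
    (fun y w _ _ => cost_e7stepP v k _)
  simp only [e7powP, cost_comp, cost_pair, cost_star, cost_one, cost_snd, cost_fst, val_pair,
    val_star, val_one, val_snd, val_fst] at h2 ⊢
  nlinarith

/-- iterated power; input `((bits, e), z)` -/
def e7frobP : Pr s (.prod (.prod Po Un) .fld) .fld :=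
  .comp (.pair (.comp .fst .fst) (.pair .snd (.comp .fst .snd)))
    (foldP (c := Po) (b := .fld) (a := .unit) (.comp (.pair .fst (.comp .snd .fst)) e7powP))

theorem val_e7frobP (v : SV F s) (q e : ℕ) (z : F) :
    ((e7frobP : Pr s (.prod (.prod Po Un) .fld) .fld).val v ((bits F q, un e), z) : F) =
      z ^ (q ^ e) := by
  simp only [e7frobP, val_comp, val_pair, val_snd, val_fst, val_foldP]
  induction e generalizing z with
  | zero => simp [un]
  | succ e ih =>
    simp only [un, List.replicate_succ, List.foldl_cons] at ih ⊢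
    rw [val_e7powP, ih, ← pow_mul, pow_succ, mul_comm]

theorem cost_e7frobP (v : SV F s) (k : SC F s) (q e : ℕ) (z : F) :
    (e7frobP : Pr s (.prod (.prod Po Un) .fld) .fld).cost v k ((bits F q, un e), z) ≤
      120 * ((e + 1) * lgc q) := by
  have h3 : 1 ≤ lgc q := by simp [lgc]
  have h2 := cost_foldP_le (s := s) (c := Po) (b := .fld) (a := .unit)
    (.comp (.pair .fst (.comp .snd .fst)) e7powP) v k
    (bits F q, (z, un e)) (80 * lgc q + 5) (fun _ => True) trivial (fun _ _ _ _ => trivial)
    (fun y w _ _ => by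
      have h1 := cost_e7powP (s := s) v k q y
      simp only [cost_comp, cost_pair, cost_fst, cost_snd, val_pair, val_fst, val_comp, val_snd]
        at h1 ⊢
      omega)
  have h4 : List.length (un e) = e := by simp [un]
  simp only [e7frobP, cost_comp, cost_pair, cost_snd, cost_fst, val_pair, val_comp,
    val_snd, val_fst] at h2 ⊢
  rw [h4] at h2
  nlinarith

/-- `z + z ^ (q ^ e)`; input `((bits, e), z)` -/
def e7trP : Pr s (.prod (.prod Po Un) .fld) .fld := .comp (.pair .snd e7frobP) .add

theorem val_e7trP (v : SV F s) (q e : ℕ) (z : F) :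
    ((e7trP : Pr s (.prod (.prod Po Un) .fld) .fld).val v ((bits F q, un e), z) : F) =
      z + z ^ (q ^ e) := by
  have h := val_e7frobP (s := s) v q e z
  simp only [e7trP, val_comp, val_pair, val_snd, val_add]
  rw [h]

theorem cost_e7trP (v : SV F s) (k : SC F s) (q e : ℕ) (z : F) :
    (e7trP : Pr s (.prod (.prod Po Un) .fld) .fld).cost v k ((bits F q, un e), z) ≤
      130 * ((e + 1) * lgc q) := by
  have h3 : 1 ≤ lgc q := by simp [lgc]
  have h1 := cost_e7frobP (s := s) v k q e z
  simp only [e7trP, cost_comp, cost_pair, cost_snd, cost_add] at h1 ⊢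
  nlinarith

/-- the number seven in unary -/
def e7u : Pr s (.prod (.prod Po Un) (.prod Ma Po)) Un :=
  .comp (.pair .star (.comp (.pair .star (.comp (.pair .star (.comp (.pair .star
    (.comp (.pair .star (.comp (.pair .star (.comp (.pair .star .nil) .cons)) .cons)) .cons))
      .cons)) .cons)) .cons)) .cons

theorem val_e7u (v : SV F s) (x : Ty.D F (.prod (.prod Po Un) (.prod Ma Po))) :
    (e7u : Pr s (.prod (.prod Po Un) (.prod Ma Po)) Un).val v x =
      [(), (), (), (), (), (), ()] := by
  simp only [e7u, val_comp, val_pair, val_star, val_nil, val_cons]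

theorem cost_e7u (v : SV F s) (k : SC F s) (x : Ty.D F (.prod (.prod Po Un) (.prod Ma Po))) :
    (e7u : Pr s (.prod (.prod Po Un) (.prod Ma Po)) Un).cost v k x ≤ 30 := by
  simp only [e7u, cost_comp, cost_pair, cost_star, cost_nil, cost_cons]
  omega

/-- the seven elements -/
def e7sevP : Pr s (.prod (.prod Po Un) (.prod Ma Po)) Po :=
  .comp (.pair .fst (.comp (.comp (.pair e7u (.comp .snd .snd)) splitP) .fst))
    (mapP (c := .prod Po Un) (a := .fld) (b := .fld) e7trP)

theorem val_e7sevP (v : SV F s) (q e : ℕ) (H : List (List F)) (r : List F) :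
    ((e7sevP : Pr s (.prod (.prod Po Un) (.prod Ma Po)) Po).val v ((bits F q, un e), (H, r)) :
      List F) = (r.take 7).map (fun z => z + z ^ (q ^ e)) := by
  simp only [e7sevP, val_comp, val_pair, val_fst, val_snd, val_e7u, val_splitP, val_mapP]
  exact List.map_congr_left (fun z _ => val_e7trP v q e z)

theorem cost_e7sevP (v : SV F s) (k : SC F s) (q e : ℕ) (H : List (List F)) (r : List F) :
    (e7sevP : Pr s (.prod (.prod Po Un) (.prod Ma Po)) Po).cost v k
      ((bits F q, un e), (H, r)) ≤ 2000 * ((e + 1) * lgc q) := by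
  have h3 : 1 ≤ lgc q := by simp [lgc]
  have h6 : 1 ≤ (e + 1) * lgc q := Nat.one_le_iff_ne_zero.mpr (by positivity)
  have h1 := cost_mapP_le (s := s) (c := .prod Po Un) (a := .fld) (b := .fld) e7trP v k
    ((bits F q, un e), r.take 7) (130 * ((e + 1) * lgc q)) (fun y _ => cost_e7trP v k q e y)
  have h2 := cost_e7u (F := F) (s := s) v k ((bits F q, un e), (H, r))
  have h4 := cost_splitP (F := F) (s := s) (b := .unit) (a := .fld) v k
    ([(), (), (), (), (), (), ()], r)
  have h5 : (r.take 7).length ≤ 7 := by simp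
  simp only [e7sevP, cost_comp, cost_pair, cost_snd, cost_fst, val_pair, val_comp, val_snd,
    val_fst, val_e7u, val_splitP, List.length_cons, List.length_nil] at h1 h2 h4 ⊢
  simp only [Nat.zero_add, Nat.reduceAdd] at h1 h2 h4 h5 ⊢
  nlinarith

end progs

/-! ### the intermediate field -/

theorem e7_field (F L : Type) [Field F] [Fintype F] [Field L] [Fintype L] [Algebra F L]
    (q e : ℕ) (hq : Fintype.card F = q) (hL : Fintype.card L = q ^ (2 * e)) (he : 1 ≤ e) :
    ∃ K : IntermediateField F L, Module.finrank K L = 2 ∧ Nat.card K = q ^ e ∧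
      ∀ z : L, z + z ^ (q ^ e) ∈ K := by
  have hq1 : 1 < q := hq ▸ Fintype.one_lt_card
  have hfr : Module.finrank F L = 2 * e := by
    have h := Module.card_eq_pow_finrank (K := F) (V := L)
    rw [hq, hL] at h
    exact (Nat.pow_right_injective (by omega : 2 ≤ q) h).symm
  let φ : Gal(L/F) := FiniteField.frobeniusAlgEquivOfAlgebraic F L
  have hφ : orderOf φ = 2 * e := by
    rw [← hfr]; exact FiniteField.orderOf_frobeniusAlgEquivOfAlgebraic F L
  have hφe : ∀ z : L, (φ ^ e) z = z ^ (q ^ e) := by
    intro z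
    have := congrFun (FiniteField.coe_frobeniusAlgEquivOfAlgebraic_iterate F L e) z
    rw [AlgEquiv.coe_pow]
    rw [hq] at this
    exact this
  have ho : orderOf (φ ^ e) = 2 := by
    rw [orderOf_pow' _ (by omega), hφ, Nat.gcd_mul_left_left]
    exact Nat.mul_div_cancel _ (by omega)
  have hfin : Module.finrank (IntermediateField.fixedField (Subgroup.zpowers (φ ^ e))) L = 2 := by
    rw [IntermediateField.finrank_fixedField_eq_card, Nat.card_zpowers, ho]
  refine ⟨IntermediateField.fixedField (Subgroup.zpowers (φ ^ e)), hfin, ?_, ?_⟩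
  · have h := Module.natCard_eq_pow_finrank
      (K := IntermediateField.fixedField (Subgroup.zpowers (φ ^ e))) (V := L)
    rw [hfin, Nat.card_eq_fintype_card (α := L), hL, mul_comm 2 e, pow_mul] at h
    exact (Nat.pow_left_injective (n := 2) (by norm_num) h).symm
  · intro z
    have hz : (φ ^ e) (z + z ^ (q ^ e)) = z + z ^ (q ^ e) := by
      have h2 : (φ ^ e) ((φ ^ e) z) = z := by
        have : (φ ^ e * φ ^ e) z = z := by
          rw [← pow_two, ← ho, pow_orderOf_eq_one]; rfl
        exact this
      rw [map_add, ← hφe, h2, add_comm]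
    rw [IntermediateField.mem_fixedField_iff]
    intro g hg
    obtain ⟨n, rfl⟩ := Subgroup.mem_zpowers_iff.mp hg
    have hs : φ ^ e ∈ MulAction.stabilizer Gal(L/F) (z + z ^ (q ^ e)) := by
      rw [MulAction.mem_stabilizer_iff]; exact hz
    have := (MulAction.stabilizer Gal(L/F) (z + z ^ (q ^ e))).zpow_mem hs n
    rw [MulAction.mem_stabilizer_iff] at this
    exact this

/-! ### counting -/

theorem e7_pair (L : Type) [Field L] [Fintype L] (Q N : ℕ) (hQ : 2 ≤ Q)
    (hL : Fintype.card L = Q ^ 2) (i j : Fin N) (hij : j ≠ i) :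
    Nat.card {r : Fin N → L // r i + r i ^ Q = r j + r j ^ Q} * Q ≤ Fintype.card L ^ N := by
  classical
  rw [Nat.card_eq_fintype_card, Fintype.card_subtype]
  set s := Finset.univ.filter (fun r : Fin N → L => r i + r i ^ Q = r j + r j ^ Q) with hs
  let f : (Fin N → L) → ({k : Fin N // k ≠ i} → L) := fun r k => r k
  have h1 : s.card ≤ Q * (s.image f).card := by
    apply Finset.card_le_mul_card_image
    intro a ha
    let P : L[X] := X ^ Q + (X - C (a ⟨j, hij⟩ + a ⟨j, hij⟩ ^ Q))
    have hlt : (X - C (a ⟨j, hij⟩ + a ⟨j, hij⟩ ^ Q) : L[X]).degree < (X ^ Q : L[X]).degree := by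
      rw [degree_X_sub_C, degree_X_pow]; exact_mod_cast (by omega : 1 < Q)
    have hP : P.natDegree = Q := by
      have : P.degree = Q := by
        show (X ^ Q + (X - C (a ⟨j, hij⟩ + a ⟨j, hij⟩ ^ Q)) : L[X]).degree = Q
        rw [degree_add_eq_left_of_degree_lt hlt, degree_X_pow]
      exact natDegree_eq_of_degree_eq_some this
    have hP0 : P ≠ 0 := by
      intro h; rw [h, natDegree_zero] at hP; omega
    calc (s.filter (fun x => f x = a)).card ≤ (P.roots.toFinset).card := by
          apply Finset.card_le_card_of_injOn (fun x => x i)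
          · intro x hx
            simp only [Finset.coe_filter, Set.mem_ofPred_eq, hs, Finset.mem_filter,
              Finset.mem_univ, true_and] at hx
            obtain ⟨hx1, hx2⟩ := hx
            have hxj : a ⟨j, hij⟩ = x j := by rw [← hx2]
            rw [Finset.mem_coe, Multiset.mem_toFinset, mem_roots hP0, IsRoot.def]
            show (X ^ Q + (X - C (a ⟨j, hij⟩ + a ⟨j, hij⟩ ^ Q)) : L[X]).eval (x i) = 0
            simp only [eval_add, eval_sub, eval_pow, eval_X, eval_C, hxj, ← hx1]
            ring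
          · intro x hx y hy hxy
            simp only [Finset.coe_filter, Set.mem_ofPred_eq] at hx hy
            funext k
            by_cases hk : k = i
            · rw [hk]; exact hxy
            · have := congrFun (hx.2.trans hy.2.symm) ⟨k, hk⟩
              exact this
      _ ≤ P.roots.card := Multiset.toFinset_card_le _
      _ ≤ Q := hP ▸ P.card_roots'
  have h2 : (s.image f).card ≤ Fintype.card L ^ (N - 1) := by
    calc (s.image f).card ≤ Fintype.card ({k : Fin N // k ≠ i} → L) := Finset.card_le_univ _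
      _ = _ := by
        rw [Fintype.card_fun]; congr 1
        rw [Fintype.card_subtype_compl, Fintype.card_fin, Fintype.card_subtype_eq]
  have hN : 1 ≤ N := i.pos
  calc s.card * Q ≤ (Q * Fintype.card L ^ (N - 1)) * Q :=
        Nat.mul_le_mul_right _ (h1.trans (Nat.mul_le_mul_left _ h2))
    _ = Fintype.card L ^ N := by
        obtain ⟨M, rfl⟩ : ∃ M, N = M + 1 := ⟨N - 1, by omega⟩
        rw [hL, Nat.add_sub_cancel, pow_succ (Q ^ 2)]; ring

theorem e7_inj (L : Type) [Field L] [Fintype L] (Q N : ℕ) (hQ : 2 ≤ Q)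
    (hL : Fintype.card L = Q ^ 2) (hN : 7 ≤ N) :
    Nat.card {r : Fin N → L // ¬ Function.Injective
      (fun i : Fin 7 => r (Fin.castLE hN i) + r (Fin.castLE hN i) ^ Q)} * Q ≤
        49 * Fintype.card L ^ N := by
  classical
  rw [Nat.card_eq_fintype_card, Fintype.card_subtype]
  have hsub : (Finset.univ.filter (fun r : Fin N → L => ¬ Function.Injective
      (fun i : Fin 7 => r (Fin.castLE hN i) + r (Fin.castLE hN i) ^ Q))) ⊆
      (Finset.univ.filter (fun x : Fin 7 × Fin 7 => x.2 ≠ x.1)).biUnion (fun x =>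
        Finset.univ.filter (fun r : Fin N → L => r (Fin.castLE hN x.1) +
          r (Fin.castLE hN x.1) ^ Q = r (Fin.castLE hN x.2) + r (Fin.castLE hN x.2) ^ Q)) := by
    intro r hr
    have hr' := (Finset.mem_filter.mp hr).2
    unfold Function.Injective at hr'
    push Not at hr'
    obtain ⟨i, j, h, hij⟩ := hr'
    simp only [Finset.mem_biUnion, Finset.mem_filter, Finset.mem_univ, true_and]
    exact ⟨(i, j), fun hh => hij hh.symm, h⟩
  calc _ ≤ ((Finset.univ.filter (fun x : Fin 7 × Fin 7 => x.2 ≠ x.1)).biUnion (fun x =>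
        Finset.univ.filter (fun r : Fin N → L => r (Fin.castLE hN x.1) +
          r (Fin.castLE hN x.1) ^ Q = r (Fin.castLE hN x.2) + r (Fin.castLE hN x.2) ^ Q))).card
            * Q := Nat.mul_le_mul_right _ (Finset.card_le_card hsub)
    _ ≤ (∑ x ∈ Finset.univ.filter (fun x : Fin 7 × Fin 7 => x.2 ≠ x.1),
        (Finset.univ.filter (fun r : Fin N → L => r (Fin.castLE hN x.1) +
          r (Fin.castLE hN x.1) ^ Q = r (Fin.castLE hN x.2) +
            r (Fin.castLE hN x.2) ^ Q)).card) * Q :=
          Nat.mul_le_mul_right _ Finset.card_biUnion_le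
    _ = ∑ x ∈ Finset.univ.filter (fun x : Fin 7 × Fin 7 => x.2 ≠ x.1),
        (Finset.univ.filter (fun r : Fin N → L => r (Fin.castLE hN x.1) +
          r (Fin.castLE hN x.1) ^ Q = r (Fin.castLE hN x.2) +
            r (Fin.castLE hN x.2) ^ Q)).card * Q := Finset.sum_mul _ _ _
    _ ≤ ∑ x ∈ Finset.univ.filter (fun x : Fin 7 × Fin 7 => x.2 ≠ x.1), Fintype.card L ^ N := by
        apply Finset.sum_le_sum
        intro x hx
        simp only [Finset.mem_filter, Finset.mem_univ, true_and] at hx
        have := e7_pair L Q N hQ hL (Fin.castLE hN x.1) (Fin.castLE hN x.2)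
          (fun h => hx (Fin.castLE_injective hN h))
        rw [Nat.card_eq_fintype_card, Fintype.card_subtype] at this
        exact this
    _ ≤ 49 * Fintype.card L ^ N := by
        rw [Finset.sum_const, smul_eq_mul]
        apply Nat.mul_le_mul_right
        calc _ ≤ (Finset.univ : Finset (Fin 7 × Fin 7)).card := Finset.card_filter_le _ _
          _ = 49 := by simp

/-! ### maps of data -/

theorem e7_map_map {F K L : Type} (φ : F → K) (ψ : K → L) : (a : Ty) → (x : Ty.D F a) →
    Ty.map ψ a (Ty.map φ a x) = Ty.map (fun z => ψ (φ z)) a x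
  | .fld, _ => rfl
  | .unit, _ => rfl
  | .prod a b, x => by
    simp only [Ty.map]
    rw [e7_map_map φ ψ a, e7_map_map φ ψ b]
  | .list a, x => by
    simp only [Ty.map, List.map_map]
    apply List.map_congr_left
    intro y _
    exact e7_map_map φ ψ a y

theorem e7_map_un {F K : Type} (φ : F → K) (n : ℕ) :
    (Ty.map φ Un (un n) : List Unit) = un n := by
  simp [Ty.map, un]

theorem e7_map_bits {F K : Type} [Field F] [Field K] (φ : F →+* K) (n : ℕ) :
    (Ty.map φ Po (bits F n) : List K) = bits K n := by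
  simp only [Ty.map, bits, List.map_map]
  apply List.map_congr_left
  intro b _
  cases b <;> simp

theorem e7_getD_map {α β : Type} (f : α → β) (l : List α) (n : ℕ) (d : α) :
    (l.map f).getD n (f d) = f (l.getD n d) := by
  rw [List.getD_eq_getElem?_getD, List.getD_eq_getElem?_getD, List.getElem?_map]
  cases l[n]? <;> rfl

theorem e7_map_ma {F K : Type} (φ : F → K) (H : List (List F)) :
    (Ty.map φ Ma H : List (List K)) = H.map (List.map φ) := rfl

theorem e7_getD_ma {F K : Type} (φ : F → K) (H : List (List F)) (k : ℕ) :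
    (Ty.map φ Ma H : List (List K)).getD k [] = (H.getD k []).map φ := by
  rw [e7_map_ma]; exact e7_getD_map (List.map φ) H k []

theorem e7_isHom {F K : Type} (φ : F → K) (d : ℕ) (H : List (List F)) (h : IsHom d H) :
    IsHom d (Ty.map φ Ma H : List (List K)) := by
  refine ⟨?_, fun k hk => ?_⟩
  · rw [e7_map_ma, List.length_map]; exact h.1
  · rw [e7_getD_ma, List.length_map]; exact h.2 k hk

theorem e7_topNe {F K : Type} [Field F] [Field K] (φ : F →+* K) (d : ℕ) (H : List (List F))
    (h : TopNe d H) : TopNe d (Ty.map φ Ma H : List (List K)) := by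
  obtain ⟨j, hj⟩ := h
  refine ⟨j, ?_⟩
  rw [e7_getD_ma]
  have := e7_getD_map φ (H.getD d []) j 0
  rw [map_zero] at this
  rw [this]
  exact (map_ne_zero φ).mpr hj

theorem e7_take (L : Type) (N : ℕ) (hN : 7 ≤ N) (r : Fin N → L) :
    (List.ofFn r).take 7 = List.ofFn (fun i : Fin 7 => r (Fin.castLE hN i)) := by
  apply List.ext_getElem
  · simp [hN]
  · intro n h1 h2
    simp only [List.getElem_take, List.getElem_ofFn]
    rfl

/-! ### the program -/

/-- the whole program -/
def e7P (pF : Pr [] (.prod (.prod Po Un) (.prod Ma Po)) (.list (.prod Ma Un)))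
    (pD : Pr [] (.prod TB (.prod (.prod Po Un) (.list (.prod Ma Un)))) (.list (.prod Ma Un)))
    (pT : Pr [] Po TB) : Pr [] (.prod (.prod Po Un) (.prod Ma Po)) (.list (.prod Ma Un)) :=
  .comp (.pair (.comp e7sevP pT) (.pair .fst pF)) pD

theorem e7_good (pF : Pr [] (.prod (.prod Po Un) (.prod Ma Po)) (.list (.prod Ma Un)))
    (pD : Pr [] (.prod TB (.prod (.prod Po Un) (.list (.prod Ma Un)))) (.list (.prod Ma Un)))
    (pT : Pr [] Po TB) (CF kF CD kD CT : ℕ)
    (hD : ∀ (F K : Type) [Field F] [Fintype F] [DecidableEq F] [Field K] [Fintype K]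
      [DecidableEq K] [Algebra F K] (q e d : ℕ) (tb : List (List K) × List (List K))
      (H : List (List F)) (out : List (List (List K) × List Unit)), Fintype.card F = q →
      Fintype.card K = q ^ e → IsTb tb → IsHom d H → 1 ≤ d → TopNe d H →
      FacGood (hom (Ty.map (algebraMap F K) Ma H : List (List K))) out →
      ∃ outF : List (List (List F) × List Unit), FacGood (hom H) outF ∧
        (pD.val () (tb, ((bits K q, un e), out)) : List (List (List K) × List Unit)) =
          Ty.map (algebraMap F K) (.list (.prod Ma Un)) outF ∧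
        pD.cost () () (tb, ((bits K q, un e), out)) ≤ CD * PL e q d ^ kD * ww (d + 1))
    (hT : ∀ (F : Type) [Field F] [DecidableEq F] (l : List F), l.length = 7 → l.Nodup →
      IsTb (pT.val () l) ∧ pT.cost () () l ≤ CT)
    (h4 : SpecNat) (h0 : SpecUnits)
    (F L : Type) [Field F] [Fintype F] [DecidableEq F] [Field L] [Fintype L] [DecidableEq L]
    [Algebra F L] (K : IntermediateField F L) [Fintype K] [DecidableEq K]
    (q e d : ℕ) (H : List (List F)) (hF : Fintype.card F = q) (hK : Fintype.card K = q ^ e)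
    (hH : IsHom d H) (hd : 1 ≤ d) (hTop : TopNe d H) (hN : 7 ≤ Rn d)
    (htr : ∀ z : L, z + z ^ (q ^ e) ∈ K)
    (r : Fin (Rn d) → L)
    (out : List (List (List K) × List Unit))
    (ho : FacGood (hom (Ty.map (algebraMap F K) Ma H : List (List K))) out)
    (hv : (pF.val () ((bits L q, un e), (Ty.map (algebraMap F L) Ma H, List.ofFn r)) :
        List (List (List L) × List Unit)) =
        Ty.map (algebraMap K L) (.list (.prod Ma Un)) out)
    (hc : pF.cost () () ((bits L q, un e), (Ty.map (algebraMap F L) Ma H, List.ofFn r)) ≤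
        CF * PL e q d ^ kF * ww (d + 1))
    (hinj : Function.Injective
      (fun i : Fin 7 => r (Fin.castLE hN i) + r (Fin.castLE hN i) ^ (q ^ e))) :
    ∃ out : List (List (List F) × List Unit), FacGood (hom H) out ∧
      ((e7P pF pD pT).val () ((bits L q, un e), (Ty.map (algebraMap F L) Ma H, List.ofFn r)) :
        List (List (List L) × List Unit)) =
        Ty.map (algebraMap F L) (.list (.prod Ma Un)) out ∧
      (e7P pF pD pT).cost () () ((bits L q, un e), (Ty.map (algebraMap F L) Ma H, List.ofFn r)) ≤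
        (2003 + CT + CF + CD) * PL e q d ^ (1 + kF + kD) * ww (d + 1) := by
  -- the seven elements over `K`
  let z7 : List K := List.ofFn (fun i : Fin 7 =>
    (⟨r (Fin.castLE hN i) + r (Fin.castLE hN i) ^ (q ^ e), htr _⟩ : K))
  have hz7l : z7.length = 7 := by simp [z7]
  have hz7n : z7.Nodup := by
    rw [List.nodup_ofFn]
    intro i j hij
    exact hinj (congrArg Subtype.val hij)
  obtain ⟨hTb, hTc⟩ := hT K z7 hz7l hz7n
  have hsev : (e7sevP : Pr [] _ _).val () ((bits L q, un e),
      (Ty.map (algebraMap F L) Ma H, List.ofFn r)) = Ty.map (algebraMap K L) Po z7 := by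
    rw [val_e7sevP, e7_take L (Rn d) hN r]
    show _ = List.map (algebraMap K L) (List.ofFn _)
    rw [List.map_ofFn, List.map_ofFn]
    rfl
  have hTnat := h4 Po TB pT K L (algebraMap K L) z7
  obtain ⟨outF, hG, hDv, hDc⟩ := hD F K q e d (pT.val () z7) H out hF hK hTb hH hd hTop ho
  have hDnat := h4 _ _ pD K L (algebraMap K L) (pT.val () z7, ((bits K q, un e), out))
  have hin : Ty.map (algebraMap K L) (.prod TB (.prod (.prod Po Un) (.list (.prod Ma Un))))
      (pT.val () z7, ((bits K q, un e), out)) =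
      (Ty.map (algebraMap K L) TB (pT.val () z7), ((bits L q, un e),
        Ty.map (algebraMap K L) (.list (.prod Ma Un)) out)) := by
    show (Ty.map (algebraMap K L) TB (pT.val () z7),
      ((Ty.map (algebraMap K L) Po (bits K q), Ty.map (algebraMap K L) Un (un e)),
        Ty.map (algebraMap K L) (.list (.prod Ma Un)) out)) = _
    rw [e7_map_bits, e7_map_un]
  refine ⟨outF, hG, ?_, ?_⟩
  · show pD.val () (pT.val () ((e7sevP : Pr [] _ _).val () ((bits L q, un e),
      (Ty.map (algebraMap F L) Ma H, List.ofFn r))), ((bits L q, un e),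
        pF.val () ((bits L q, un e), (Ty.map (algebraMap F L) Ma H, List.ofFn r)))) = _
    rw [hsev, hTnat.1, hv, ← hin, hDnat.1, hDv]
    exact e7_map_map _ _ _ _
  · have e1 := cost_e7sevP (F := L) (s := []) () () q e (Ty.map (algebraMap F L) Ma H)
      (List.ofFn r)
    have e2 := hTnat.2
    have e3 := hDnat.2
    rw [hin] at e3
    show (((e7sevP : Pr [] _ _).cost () () ((bits L q, un e),
      (Ty.map (algebraMap F L) Ma H, List.ofFn r)) + pT.cost () () ((e7sevP : Pr [] _ _).val ()
        ((bits L q, un e), (Ty.map (algebraMap F L) Ma H, List.ofFn r)))) +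
      (1 + pF.cost () () ((bits L q, un e), (Ty.map (algebraMap F L) Ma H, List.ofFn r)) + 1) + 1)
      + pD.cost () () (pT.val () ((e7sevP : Pr [] _ _).val () ((bits L q, un e),
      (Ty.map (algebraMap F L) Ma H, List.ofFn r))), ((bits L q, un e),
        pF.val () ((bits L q, un e), (Ty.map (algebraMap F L) Ma H, List.ofFn r)))) ≤ _
    rw [hsev, hTnat.1, hv, e2, e3]
    have f1 : 1 ≤ lgc q := by simp [lgc]
    have f2 : 1 ≤ lgc (d + 1) := by simp [lgc]
    have f3 : (e + 1) * lgc q ≤ PL e q d := Nat.le_mul_of_pos_right _ f2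
    have f4 : 1 ≤ PL e q d := le_trans (Nat.one_le_iff_ne_zero.mpr (by positivity)) f3
    have f5 : 1 ≤ ww (d + 1) := by
      have := h0.2.2.2.2.2.2.1 (d + 1)
      nlinarith
    set P := PL e q d with hP
    set W := ww (d + 1) with hW
    have g0 : 1 ≤ P ^ (1 + kF + kD) * W := Nat.one_le_iff_ne_zero.mpr (by positivity)
    have g1 : P ≤ P ^ (1 + kF + kD) * W := by
      calc P = P ^ 1 * 1 := by ring
        _ ≤ P ^ (1 + kF + kD) * W :=
          Nat.mul_le_mul (Nat.pow_le_pow_right f4 (by omega)) f5
    have g2 : P ^ kF * W ≤ P ^ (1 + kF + kD) * W :=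
      Nat.mul_le_mul_right _ (Nat.pow_le_pow_right f4 (by omega))
    have g3 : P ^ kD * W ≤ P ^ (1 + kF + kD) * W :=
      Nat.mul_le_mul_right _ (Nat.pow_le_pow_right f4 (by omega))
    have c1 : 2000 * ((e + 1) * lgc q) ≤ 2000 * (P ^ (1 + kF + kD) * W) :=
      Nat.mul_le_mul_left _ (f3.trans g1)
    have c2 : CT ≤ CT * (P ^ (1 + kF + kD) * W) := Nat.le_mul_of_pos_right _ g0
    have c3 : CF * P ^ kF * W ≤ CF * (P ^ (1 + kF + kD) * W) := by
      rw [mul_assoc]; exact Nat.mul_le_mul_left _ g2
    have c4 : CD * P ^ kD * W ≤ CD * (P ^ (1 + kF + kD) * W) := by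
      rw [mul_assoc]; exact Nat.mul_le_mul_left _ g3
    have c5 : (2003 + CT + CF + CD) * P ^ (1 + kF + kD) * W =
      2000 * (P ^ (1 + kF + kD) * W) + 3 * (P ^ (1 + kF + kD) * W) +
        CT * (P ^ (1 + kF + kD) * W) + CF * (P ^ (1 + kF + kD) * W) +
          CD * (P ^ (1 + kF + kD) * W) := by ring
    rw [c5]
    omega

theorem e7_union {α : Type} [Finite α] (A B G : α → Prop) (h : ∀ x, A x → B x → G x) :
    Nat.card {x // ¬ G x} ≤ Nat.card {x // ¬ A x} + Nat.card {x // ¬ B x} := by
  classical
  haveI : Fintype α := Fintype.ofFinite α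
  rw [Nat.card_eq_fintype_card, Nat.card_eq_fintype_card, Nat.card_eq_fintype_card,
    Fintype.card_subtype, Fintype.card_subtype, Fintype.card_subtype]
  refine le_trans (Finset.card_le_card ?_) (Finset.card_union_le _ _)
  intro x hx
  have hx' := (Finset.mem_filter.mp hx).2
  rw [Finset.mem_union, Finset.mem_filter, Finset.mem_filter]
  by_cases hA : A x
  · by_cases hB : B x
    · exact absurd (h x hA hB) hx'
    · exact Or.inr ⟨Finset.mem_univ _, hB⟩
  · exact Or.inl ⟨Finset.mem_univ _, hA⟩

theorem specFull (h1 : SpecFac) (h2 : SpecDesc) (h3 : SpecTb) (h4 : SpecNat) (h0 : SpecUnits) :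
    SpecFull := by
  obtain ⟨pF, CF, kF, hFac⟩ := h1
  obtain ⟨pD, CD, kD, hDesc⟩ := h2
  obtain ⟨pT, CT, hT⟩ := h3
  refine ⟨e7P pF pD pT, 2003 + CT + CF + CD, 1 + kF + kD, ?_⟩
  intro F L _ _ _ _ _ _ _ q e d H hF hL he hH hd hTop hbig
  obtain ⟨K, hfin, hK, htr⟩ := e7_field F L q e hF hL he
  letI : Fintype K := Fintype.ofFinite K
  letI : DecidableEq K := Classical.decEq K
  rw [Nat.card_eq_fintype_card] at hK
  have hN : 7 ≤ Rn d := by
    unfold Rn
    have : 9 ≤ 9 + (3 * lgc d + 10) * d := Nat.le_add_right _ _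
    omega
  have hmap : (Ty.map (algebraMap K L) Ma (Ty.map (algebraMap F K) Ma H)) =
      Ty.map (algebraMap F L) Ma H := e7_map_map _ _ _ _
  have hFac' := hFac K L q e d (Ty.map (algebraMap F K) Ma H) hfin hK (e7_isHom _ _ _ hH) hd
    (e7_topNe (algebraMap F K) _ _ hTop) hbig
  rw [hmap] at hFac'
  have hQ : 4410 ≤ q ^ e := by
    refine le_trans ?_ hbig
    calc 4410 ≤ 80 ^ 4 := by norm_num
      _ ≤ (40 * (d + 1)) ^ 4 := Nat.pow_le_pow_left (by omega) 4
  have hinj := e7_inj L (q ^ e) (Rn d) (by omega) (hL.trans (by rw [mul_comm, pow_mul])) hN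
  have key := e7_union
    (fun r : Fin (Rn d) → L => ∃ out : List (List (List K) × List Unit),
      FacGood (hom (Ty.map (algebraMap F K) Ma H : List (List K))) out ∧
      (pF.val () ((bits L q, un e), (Ty.map (algebraMap F L) Ma H, List.ofFn r)) :
        List (List (List L) × List Unit)) =
        Ty.map (algebraMap K L) (.list (.prod Ma Un)) out ∧
      pF.cost () () ((bits L q, un e), (Ty.map (algebraMap F L) Ma H, List.ofFn r)) ≤
        CF * PL e q d ^ kF * ww (d + 1))
    (fun r : Fin (Rn d) → L => Function.Injective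
      (fun i : Fin 7 => r (Fin.castLE hN i) + r (Fin.castLE hN i) ^ (q ^ e)))
    (fun r : Fin (Rn d) → L => ∃ out : List (List (List F) × List Unit), FacGood (hom H) out ∧
      ((e7P pF pD pT).val () ((bits L q, un e), (Ty.map (algebraMap F L) Ma H, List.ofFn r)) :
        List (List (List L) × List Unit)) =
        Ty.map (algebraMap F L) (.list (.prod Ma Un)) out ∧
      (e7P pF pD pT).cost () () ((bits L q, un e), (Ty.map (algebraMap F L) Ma H, List.ofFn r)) ≤
        (2003 + CT + CF + CD) * PL e q d ^ (1 + kF + kD) * ww (d + 1))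
    (fun r ⟨out, ho, hv, hc⟩ hi =>
      e7_good pF pD pT CF kF CD kD CT hDesc hT h4 h0 F L K q e d H hF hK hH hd hTop hN htr r out
        ho hv hc hi)
  refine le_trans (Nat.mul_le_mul_left 9 key) ?_
  generalize Nat.card {r : Fin (Rn d) → L // ¬ ∃ out : List (List (List K) × List Unit),
      FacGood (hom (Ty.map (algebraMap F K) Ma H : List (List K))) out ∧
      (pF.val () ((bits L q, un e), (Ty.map (algebraMap F L) Ma H, List.ofFn r)) :
        List (List (List L) × List Unit)) =
        Ty.map (algebraMap K L) (.list (.prod Ma Un)) out ∧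
      pF.cost () () ((bits L q, un e), (Ty.map (algebraMap F L) Ma H, List.ofFn r)) ≤
        CF * PL e q d ^ kF * ww (d + 1)} = a at hFac' ⊢
  generalize Nat.card {r : Fin (Rn d) → L // ¬ Function.Injective
      (fun i : Fin 7 => r (Fin.castLE hN i) + r (Fin.castLE hN i) ^ (q ^ e))} = b at hinj ⊢
  generalize Fintype.card L ^ Rn d = T at hFac' hinj ⊢
  have h5 : b * 4410 ≤ 49 * T := le_trans (Nat.mul_le_mul_left b hQ) hinj
  omega

end Pool.Agent.H330FB.JE7
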