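import Pool.Agent.H330FB.Lib5
import Pool.Agent.H330FB.Spec2
set_option autoImplicit false
noncomputable section
namespace Pool.Agent.H330FB.JH1
open Polynomial

namespace HStepAux

section alg
variable {R : Type} [CommRing R]

/-- uniqueness of the division with remainder -/
theorem uniq {G q q' r r' : R[X]} (hG : G.Monic) (h : G * q + r = G * q' + r')
    (hr : r.degree < G.degree) (hr' : r'.degree < G.degree) : q = q' ∧ r = r' := by
  have h1 := div_modByMonic_unique (f := G * q + r) q r hG ⟨add_comm _ _, hr⟩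
  have h2 := div_modByMonic_unique (f := G * q + r) q' r' hG ⟨by rw [h, add_comm], hr'⟩
  exact ⟨h1.1.symm.trans h2.1, h1.2.symm.trans h2.2⟩

theorem degree_C_mul_le' (a : R) (p : R[X]) : (C a * p).degree ≤ p.degree := by
  rw [← smul_eq_C_mul]
  exact degree_smul_le a p

/-- quotient and remainder of a polynomial known modulo a power of `t` -/
theorem key [Nontrivial R] {G P q w q0 r0 : R[X]} (t : R) (k : ℕ) (hG : G.Monic)
    (h1 : P = G * q + C t ^ k * w) (h2 : P = G * q0 + r0) (h3 : r0.degree < G.degree) :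
    ∃ w1 w0, q0 = q + C t ^ k * w1 ∧ r0 = C t ^ k * w0 := by
  have e1 := modByMonic_add_div w G
  refine ⟨w /ₘ G, w %ₘ G, ?_⟩
  refine uniq hG ?_ h3 ?_
  · rw [← h2, h1]
    linear_combination (-(C t ^ k)) * e1
  · rw [← C_pow]
    exact (degree_C_mul_le' _ _).trans_lt (degree_modByMonic_lt w hG)

theorem step_alg [Nontrivial R] (t : R) (k : ℕ)
    {P G U q w a b q0 r0 e d G' q' r' V e2 Z e3 U' : R[X]}
    (hG : G.Monic) (hG' : G'.Monic)
    (h1 : P = G * q + C t ^ k * w) (h2 : U * q = 1 + G * a + C t ^ k * b)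
    (h3 : P = G * q0 + r0) (h3d : r0.degree < G.degree)
    (h4 : r0 * U = G * e + d) (h4d : d.degree < G.degree)
    (h5 : G' = G + d)
    (h6 : P = G' * q' + r') (h6d : r'.degree < G'.degree)
    (h7 : U * q' = G' * e2 + V)
    (h8 : U * V = G' * e3 + Z)
    (h9 : U' = 2 * U - Z) :
    (∃ q w a b, P = G' * q + C t ^ (2 * k) * w ∧ U' * q = 1 + G' * a + C t ^ (2 * k) * b) ∧
      ∃ w, d = C t ^ k * w := by
  obtain ⟨w1, w0, e10, e11⟩ := key t k hG h1 h3 h3d
  obtain ⟨e', d', e12, e13⟩ := key (P := r0 * U) (q := 0) (w := w0 * U) t k hG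
    (by rw [e11]; ring) h4 h4d
  rw [zero_add] at e12
  have hT : C t ^ (2 * k) = C t ^ k * C t ^ k := by rw [two_mul, pow_add]
  -- replace `b`
  have h2' : U * q0 = 1 + G * a + C t ^ k * (b + U * w1) := by
    rw [e10]; linear_combination h2
  set b0 := b + U * w1 with hb0
  set x' := e' * q0 - w0 * a with hx'
  have h20 : P = G' * (q0 + C t ^ k * x') + C t ^ (2 * k) * (-(w0 * b0) - d' * x') := by
    rw [hT, h5, h3]
    have e14 : d * q0 = r0 * (1 + G * a + C t ^ k * b0) - G * e * q0 := by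
      linear_combination (-q0) * h4 + r0 * h2'
    subst e12 e13 e11
    linear_combination (-1 : R[X]) * e14
  obtain ⟨y1, y0, e15, e16⟩ := key t (2 * k) hG' h20 h6 h6d
  have h21 : U * q' = 1 + G' * a + C t ^ k * (b0 - d' * a + U * x' + C t ^ k * U * y1) := by
    rw [e15, hT, h5, e13]
    linear_combination h2'
  set b2 := b0 - d' * a + U * x' + C t ^ k * U * y1 with hb2
  refine ⟨⟨q', y0, e2 * (U * q') + e3 * q' - G' * a ^ 2 - 2 * C t ^ k * a * b2, -b2 ^ 2, ?_, ?_⟩,
    d', e13⟩
  · rw [h6, e16]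
  · have hy : (1 - U * q') ^ 2 = (G' * a + C t ^ k * b2) ^ 2 := by rw [h21]; ring
    rw [h9, hT]
    linear_combination q' * h8 + (U * q') * h7 - hy
end alg

section lists
variable {F : Type} [Field F]

theorem coeff_pol {R : Type} [CommRing R] (l : List R) (m : ℕ) :
    (pol l).coeff m = l.getD m 0 := by
  induction l generalizing m with
  | nil => simp [pol]
  | cons x l ih =>
    cases m with
    | zero => simp [pol]
    | succ m => simp [pol, ih]

theorem pol_append {R : Type} [CommRing R] (l m : List R) :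
    pol (l ++ m) = pol l + X ^ l.length * pol m := by
  induction l with
  | nil => simp [pol]
  | cons x l ih => simp [pol, ih, pow_succ]; ring

theorem pol_map {R S : Type} [CommRing R] [CommRing S] (f : R →+* S) (l : List R) :
    pol (l.map f) = (pol l).map f := by
  induction l with
  | nil => simp [pol]
  | cons x l ih => simp [pol, ih]

theorem degree_pol_lt {R : Type} [CommRing R] (l : List R) : (pol l).degree < l.length := by
  rw [degree_lt_iff_coeff_zero]
  intro m hm
  rw [coeff_pol]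
  exact List.getD_eq_default _ _ hm

theorem pol_inj {l l' : List F} (hl : l.length = l'.length) (h : pol l = pol l') : l = l' := by
  apply List.ext_getElem hl
  intro i h1 h2
  have h3 := congrArg (fun p => p.coeff i) h
  simp only [coeff_pol] at h3
  rwa [List.getD_eq_getElem _ _ h1, List.getD_eq_getElem _ _ h2] at h3

theorem mpol_inj {l l' : List F} (hl : l.length = l'.length) (h : mpol l = mpol l') : l = l' := by
  unfold mpol at h
  rw [hl] at h
  exact pol_inj hl (add_left_cancel h)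

variable {R : Type} [CommRing R] [Algebra F R]

theorem rp_lt (τ : R) (l : List (List F)) : (rp τ l).degree < l.length := by
  have := degree_pol_lt (l.map (fun r => aeval τ (pol r)))
  rwa [List.length_map] at this

theorem mrp_monic (τ : R) (l : List (List F)) : (mrp τ l).Monic := monic_X_pow_add (rp_lt τ l)

theorem mrp_degree [Nontrivial R] (τ : R) (l : List (List F)) : (mrp τ l).degree = l.length := by
  unfold mrp
  rw [degree_add_eq_left_of_degree_lt (by rw [degree_X_pow]; exact rp_lt τ l), degree_X_pow]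

theorem rp_lt_mrp [Nontrivial R] (τ : R) (l m : List (List F)) (h : l.length = m.length) :
    (rp τ l).degree < (mrp τ m).degree := by
  rw [mrp_degree, ← h]
  exact rp_lt τ l

theorem rp_append (τ : R) (l m : List (List F)) :
    rp τ (l ++ m) = rp τ l + X ^ l.length * rp τ m := by
  unfold rp
  rw [List.map_append, pol_append, List.length_map]

theorem pol_fit_nil (n : ℕ) : pol (fit n (0 : F) []) = 0 := by
  induction n with
  | zero => simp [fit, pol]
  | succ n ih => simp [fit, pol, ih]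

theorem pol_fit_one (s : ℕ) (hs : 1 ≤ s) (c : F) : pol (fit s 0 [c]) = C c := by
  obtain ⟨n, rfl⟩ : ∃ n, s = n + 1 := ⟨s - 1, by omega⟩
  simp [fit, pol, pol_fit_nil]

theorem rp_top (τ : R) (s : ℕ) (hs : 1 ≤ s) (A : List (List F)) :
    rp τ (A ++ [fit s 0 [1]]) = mrp τ A := by
  rw [rp_append]
  unfold mrp
  rw [add_comm]
  congr 1
  simp [rp, pol, pol_fit_one s hs]

/-- lists of constants -/
def lft (s : ℕ) (l : List F) : List (List F) := l.map (fun c => fit s 0 [c])

theorem sh_lft (s : ℕ) (l : List F) : Sh s (lft s l) := by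
  intro r hr
  unfold lft at hr
  rw [List.mem_map] at hr
  obtain ⟨c, -, rfl⟩ := hr
  exact length_fit _ _ _

theorem length_lft (s : ℕ) (l : List F) : (lft s l).length = l.length := List.length_map _

theorem rp_lft (τ : R) (s : ℕ) (hs : 1 ≤ s) (l : List F) :
    rp τ (lft s l) = (pol l).map (algebraMap F R) := by
  unfold rp lft
  rw [List.map_map, ← pol_map]
  congr 1
  apply List.map_congr_left
  intro c _
  simp [pol_fit_one s hs]

theorem mrp_lft (τ : R) (s : ℕ) (hs : 1 ≤ s) (l : List F) :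
    mrp τ (lft s l) = (mpol l).map (algebraMap F R) := by
  unfold mrp mpol
  rw [rp_lft τ s hs, length_lft]
  simp

theorem rp_hd0 (τ : R) (s : ℕ) (hs : 1 ≤ s) (l : List (List F)) (hl : Sh s l) :
    ∃ w, rp τ l = (pol (hd0 l)).map (algebraMap F R) + C τ * w := by
  induction l with
  | nil => exact ⟨0, by simp [rp, hd0, pol]⟩
  | cons r l ih =>
    obtain ⟨w, hw⟩ := ih (fun r hr => hl r (by simp [hr]))
    have h1 := hl r (by simp)
    unfold rp hd0 at hw ⊢
    rcases r with _ | ⟨x, r⟩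
    · simp at h1; omega
    · refine ⟨C (aeval τ (pol r)) + X * w, ?_⟩
      simp only [List.map_cons, pol, hw, List.getD_cons_zero, map_add, map_mul, aeval_C, aeval_X,
        Polynomial.map_add, Polynomial.map_mul, map_C, map_X]
      ring

theorem mrp_hd0 (τ : R) (s : ℕ) (hs : 1 ≤ s) (l : List (List F)) (hl : Sh s l) :
    ∃ w, mrp τ l = (mpol (hd0 l)).map (algebraMap F R) + C τ * w := by
  obtain ⟨w, hw⟩ := rp_hd0 τ s hs l hl
  refine ⟨w, ?_⟩
  unfold mrp mpol
  rw [hw]
  simp [hd0]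
  ring

theorem mrp_zero (s : ℕ) (hs : 1 ≤ s) (l : List (List F)) (hl : Sh s l) :
    mrp (0 : F) l = mpol (hd0 l) := by
  obtain ⟨w, hw⟩ := mrp_hd0 (0 : F) s hs l hl
  rw [hw]
  simp

/-- linear combination of matrices -/
def lc (f : F → F → F) (g d : List (List F)) : List (List F) :=
  List.zipWith (fun r r' => List.zipWith f r r') g d

theorem sh_lc (f : F → F → F) (s : ℕ) (g d : List (List F)) (hg : Sh s g) (hd : Sh s d) :
    Sh s (lc f g d) := by
  intro r hr
  unfold lc at hr
  rw [List.mem_iff_getElem] at hr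
  obtain ⟨i, hi, rfl⟩ := hr
  rw [List.length_zipWith] at hi
  rw [List.getElem_zipWith, List.length_zipWith, hg _ (List.getElem_mem (by omega)),
    hd _ (List.getElem_mem (by omega)), min_self]

theorem length_lc (f : F → F → F) (g d : List (List F)) (h : g.length = d.length) :
    (lc f g d).length = g.length := by
  unfold lc
  rw [List.length_zipWith, h, min_self]

theorem pol_zip (α β : F) (f : F → F → F) (hf : ∀ x y, f x y = α * x + β * y) (r r' : List F)
    (h : r.length = r'.length) :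
    pol (List.zipWith f r r') = C α * pol r + C β * pol r' := by
  induction r generalizing r' with
  | nil =>
    have : r' = [] := List.length_eq_zero_iff.mp h.symm
    subst this
    simp [pol]
  | cons x r ih =>
    rcases r' with _ | ⟨x', r'⟩
    · simp at h
    · simp only [List.zipWith_cons_cons, pol, hf, ih r' (by simpa using h), map_add, map_mul]
      ring

theorem rp_lc (τ : R) (α β : F) (f : F → F → F) (hf : ∀ x y, f x y = α * x + β * y) (s : ℕ)
    (g d : List (List F)) (hg : Sh s g) (hd : Sh s d) (h : g.length = d.length) :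
    rp τ (lc f g d) = C (algebraMap F R α) * rp τ g + C (algebraMap F R β) * rp τ d := by
  induction g generalizing d with
  | nil =>
    have : d = [] := List.length_eq_zero_iff.mp h.symm
    subst this
    simp [rp, lc, pol]
  | cons r g ih =>
    rcases d with _ | ⟨r', d⟩
    · simp at h
    · have e1 := ih d (fun r hr => hg r (by simp [hr])) (fun r hr => hd r (by simp [hr]))
        (by simpa using h)
      unfold rp lc at e1 ⊢
      simp only [List.zipWith_cons_cons, List.map_cons, pol, e1,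
        pol_zip α β f hf r r' (by rw [hg r (by simp), hd r' (by simp)]), map_add, map_mul, aeval_C]
      ring

end lists

section func
variable {F : Type} [Field F]

/-- properties of the multiplication modulo a monic polynomial -/
def PM (s : ℕ) (M : List (List F) → List (List F) → List (List F) → List (List F)) : Prop :=
  ∀ a b G, Sh s a → Sh s b → Sh s G → Sh s (M a b G) ∧ (M a b G).length = G.length ∧
    ∀ (R : Type) [CommRing R] [Algebra F R] (τ : R), τ ^ s = 0 →
      ∃ e, rp τ a * rp τ b = mrp τ G * e + rp τ (M a b G)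

/-- properties of the division -/
def PD (s : ℕ) (D : List (List F) → List (List F) → List (List F) × List (List F)) : Prop :=
  ∀ P G, Sh s P → Sh s G → Sh s (D P G).1 ∧ (D P G).1.length = P.length - G.length ∧
    Sh s (D P G).2 ∧ (D P G).2.length = G.length ∧
    ∀ (R : Type) [CommRing R] [Algebra F R] (τ : R), τ ^ s = 0 →
      rp τ P = mrp τ G * rp τ (D P G).1 + rp τ (D P G).2

variable (s : ℕ) (M : List (List F) → List (List F) → List (List F) → List (List F))
  (D : List (List F) → List (List F) → List (List F) × List (List F))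
  (Ah A : List (List F)) (g0 : List F)

/-- first half of the Newton step -/
def f1 (g u : List (List F)) : List (List F) :=
  lc (fun x y => x + y) g (M (D Ah g).2 u g)

/-- second half of the Newton step -/
def f2 (g u : List (List F)) : List (List F) :=
  lc (fun x y => x + x + -y) u (M u (M u (D Ah g).1 g) g)

/-- Newton step -/
def fs (x : List (List F) × List (List F)) : List (List F) × List (List F) :=
  (f1 M D Ah x.1 x.2, f2 M D Ah (f1 M D Ah x.1 x.2) x.2)

/-- the invariant -/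
def Inv (k : ℕ) (x : List (List F) × List (List F)) : Prop :=
  Sh s x.1 ∧ Sh s x.2 ∧ x.1.length = g0.length ∧ x.2.length = g0.length ∧
    ∀ (R : Type) [CommRing R] [Algebra F R] (τ : R), τ ^ s = 0 →
      (∃ q w a b, mrp τ A = mrp τ x.1 * q + C τ ^ k * w ∧
        rp τ x.2 * q = 1 + mrp τ x.1 * a + C τ ^ k * b) ∧
      ∃ w, mrp τ x.1 = (mpol g0).map (algebraMap F R) + C τ * w

theorem f1_shape (hM : PM s M) (hD : PD s D) (hA : Sh s Ah) (g u : List (List F)) (hg : Sh s g)
    (hu : Sh s u) (hl : u.length = g.length) :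
    Sh s (f1 M D Ah g u) ∧ (f1 M D Ah g u).length = g.length := by
  obtain ⟨-, -, d1, d2, -⟩ := hD Ah g hA hg
  obtain ⟨m1, m2, -⟩ := hM (D Ah g).2 u g d1 hu hg
  exact ⟨sh_lc _ s _ _ hg m1, length_lc _ _ _ m2.symm⟩

theorem f2_shape (hM : PM s M) (hD : PD s D) (hA : Sh s Ah) (g u : List (List F)) (hg : Sh s g)
    (hu : Sh s u) (hl : u.length = g.length) :
    Sh s (f2 M D Ah g u) ∧ (f2 M D Ah g u).length = g.length := by
  obtain ⟨d1, -, -, -, -⟩ := hD Ah g hA hg
  obtain ⟨m1, m2, -⟩ := hM u (D Ah g).1 g hu d1 hg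
  obtain ⟨m3, m4, -⟩ := hM u (M u (D Ah g).1 g) g hu m1 hg
  exact ⟨sh_lc _ s _ _ hu m3, (length_lc _ _ _ (hl.trans m4.symm)).trans hl⟩

theorem inv_step (hM : PM s M) (hD : PD s D) (hAs : Sh s Ah)
    (hA : ∀ (R : Type) [CommRing R] [Algebra F R] (τ : R), rp τ Ah = mrp τ A)
    (k : ℕ) (hk : 1 ≤ k) (x : List (List F) × List (List F)) (hx : Inv s A g0 k x) :
    Inv s A g0 (2 * k) (fs M D Ah x) := by
  obtain ⟨g, u⟩ := x
  obtain ⟨hg, hu, lg, lu, hr⟩ := hx
  simp only at hg hu lg lu hr
  obtain ⟨s1, s2⟩ := f1_shape s M D Ah hM hD hAs g u hg hu (lu.trans lg.symm)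
  obtain ⟨s3, s4⟩ := f2_shape s M D Ah hM hD hAs (f1 M D Ah g u) u s1 hu
    (lu.trans (lg.symm.trans s2.symm))
  unfold fs
  refine ⟨s1, s3, s2.trans lg, s4.trans (s2.trans lg), ?_⟩
  intro R _ _ τ hτ
  simp only
  rcases subsingleton_or_nontrivial R with hR | hR
  · exact ⟨⟨0, 0, 0, 0, Subsingleton.elim _ _, Subsingleton.elim _ _⟩, 0, Subsingleton.elim _ _⟩
  obtain ⟨⟨q, w, a, b, e1, e2⟩, w0, e3⟩ := hr R τ hτ
  -- division by g
  obtain ⟨-, -, d1, d2, d3⟩ := hD Ah g hAs hg
  obtain ⟨m1, m2, m3⟩ := hM (D Ah g).2 u g d1 hu hg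
  obtain ⟨e, e4⟩ := m3 R τ hτ
  have hg' : mrp τ (f1 M D Ah g u) = mrp τ g + rp τ (M (D Ah g).2 u g) := by
    unfold mrp
    rw [s2]
    unfold f1
    rw [rp_lc τ 1 1 _ (by intro x y; ring) s _ _ hg m1 m2.symm]
    simp
    ring
  set g' := f1 M D Ah g u with hg'def
  obtain ⟨d4, -, -, d6, d5⟩ := hD Ah g' hAs s1
  obtain ⟨m4, m5, m6⟩ := hM u (D Ah g').1 g' hu d4 s1
  obtain ⟨E2, e7⟩ := m6 R τ hτ
  obtain ⟨m7, m8, m9⟩ := hM u (M u (D Ah g').1 g') g' hu m4 s1
  obtain ⟨E3, e8⟩ := m9 R τ hτ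
  have hu' : rp τ (f2 M D Ah g' u) = 2 * rp τ u - rp τ (M u (M u (D Ah g').1 g') g') := by
    unfold f2
    rw [rp_lc τ (1 + 1) (-1) _ (by intro x y; ring) s _ _ hu m7 (lu.trans (lg.symm.trans
      (s2.symm.trans m8.symm)))]
    simp only [map_add, map_one, map_neg]
    ring
  have key := step_alg τ k (P := mrp τ A) (mrp_monic τ g) (mrp_monic τ g') e1 e2
    ((hA R τ).symm.trans (d3 R τ hτ)) (rp_lt_mrp τ _ _ d2) e4 (rp_lt_mrp τ _ _ m2) hg'
    ((hA R τ).symm.trans (d5 R τ hτ)) (rp_lt_mrp τ _ _ d6) e7 e8 hu'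
  obtain ⟨h1, W, hW⟩ := key
  refine ⟨h1, w0 + C τ ^ (k - 1) * W, ?_⟩
  rw [hg', e3, hW]
  have : C τ ^ k = C τ * C τ ^ (k - 1) := by
    rw [← pow_succ']
    congr 1
    omega
  rw [this]
  ring

theorem inv_fold (hM : PM s M) (hD : PD s D) (hAs : Sh s Ah)
    (hA : ∀ (R : Type) [CommRing R] [Algebra F R] (τ : R), rp τ Ah = mrp τ A)
    (l : List Unit) (k : ℕ) (hk : 1 ≤ k) (x : List (List F) × List (List F))
    (hx : Inv s A g0 k x) :
    Inv s A g0 (2 ^ l.length * k) (List.foldl (fun y _ => fs M D Ah y) x l) := by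
  induction l generalizing k x with
  | nil => simpa using hx
  | cons h l ih =>
    have := ih (2 * k) (by omega) (fs M D Ah x) (inv_step s M D Ah A g0 hM hD hAs hA k hk x hx)
    rw [List.foldl_cons, List.length_cons, pow_succ, mul_assoc]
    exact this

/-- the start -/
theorem inv_start (hs : 1 ≤ s) (hAs : Sh s A) (h0 u0 : List F) (hu : u0.length = g0.length)
    (h : mpol (hd0 A) = mpol g0 * mpol h0) (hi : mpol g0 ∣ pol u0 * mpol h0 - 1) :
    Inv s A g0 1 (lft s g0, lft s u0) := by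
  refine ⟨sh_lft s _, sh_lft s _, length_lft s _, (length_lft s _).trans hu, ?_⟩
  intro R _ _ τ hτ
  simp only
  rw [mrp_lft τ s hs, rp_lft τ s hs]
  obtain ⟨w, hw⟩ := mrp_hd0 τ s hs A hAs
  obtain ⟨a, ha⟩ := hi
  refine ⟨⟨(mpol h0).map (algebraMap F R), w, a.map (algebraMap F R), 0, ?_, ?_⟩, 0, ?_⟩
  · rw [hw, h]
    simp
  · rw [← Polynomial.map_mul, ← Polynomial.map_mul, ← ha]
    simp
  · simp

/-- the end -/
theorem inv_end (hs : 1 ≤ s) (hD : PD s D) (hAs : Sh s Ah) (hAs' : Sh s A)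
    (hA : ∀ (R : Type) [CommRing R] [Algebra F R] (τ : R), rp τ Ah = mrp τ A)
    (h0 : List F) (hl : A.length = g0.length + h0.length) (hl' : Ah.length = A.length + 1)
    (h : mpol (hd0 A) = mpol g0 * mpol h0)
    (k : ℕ) (hk : s ≤ k) (x : List (List F) × List (List F)) (hx : Inv s A g0 k x) :
    Sh s x.1 ∧ Sh s ((D Ah x.1).1.take h0.length) ∧ hd0 x.1 = g0 ∧
      hd0 ((D Ah x.1).1.take h0.length) = h0 ∧
      ∀ (R : Type) [CommRing R] [Algebra F R] (τ : R), τ ^ s = 0 →
        mrp τ x.1 * mrp τ ((D Ah x.1).1.take h0.length) = mrp τ A := by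
  obtain ⟨g, u⟩ := x
  obtain ⟨hg, hu, lg, lu, hr⟩ := hx
  simp only at hg hu lg lu hr ⊢
  obtain ⟨d1, d2, d3, d4, d5⟩ := hD Ah g hAs hg
  set Q := (D Ah g).1 with hQ
  have hQl : Q.length = h0.length + 1 := by rw [d2]; omega
  have hmul : ∀ (R : Type) [CommRing R] [Algebra F R] (τ : R), τ ^ s = 0 →
        mrp τ g * mrp τ (Q.take h0.length) = mrp τ A := by
    intro R _ _ τ hτ
    rcases subsingleton_or_nontrivial R with hR | hR
    · exact Subsingleton.elim _ _
    obtain ⟨⟨q, w, a, b, e1, e2⟩, -⟩ := hr R τ hτ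
    have hT : C τ ^ k = 0 := by
      rw [← C_pow, show k = s + (k - s) by omega, pow_add, hτ]
      simp
    rw [hT, zero_mul] at e1
    have e3 := d5 R τ hτ
    rw [hA, e1] at e3
    obtain ⟨e4, e5⟩ := uniq (mrp_monic τ g) e3 (by
      rw [mrp_degree]; simp) (rp_lt_mrp τ _ _ d4)
    rw [add_zero] at e1
    rw [e4] at e1
    rw [e1]
    congr 1
    -- top coefficient
    obtain ⟨c, hc⟩ : ∃ c, Q = Q.take h0.length ++ [c] := by
      have h1 : (Q.drop h0.length).length = 1 := by rw [List.length_drop]; omega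
      obtain ⟨c, hc⟩ := List.length_eq_one_iff.mp h1
      exact ⟨c, by rw [← hc, List.take_append_drop]⟩
    have hlt : (Q.take h0.length).length = h0.length := by
      rw [List.length_take]; omega
    have h2 : rp τ Q = rp τ (Q.take h0.length) + X ^ h0.length * C (aeval τ (pol c)) := by
      conv_lhs => rw [hc]
      rw [rp_append, hlt]
      simp [rp, pol]
    have h3 : (rp τ (Q.take h0.length)).coeff h0.length = 0 := by
      have := rp_lt τ (Q.take h0.length)
      rw [hlt] at this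
      exact coeff_eq_zero_of_degree_lt this
    have h4 : (rp τ Q).coeff h0.length = aeval τ (pol c) := by
      rw [h2, coeff_add, h3]
      simp
    have h5 : (rp τ Q).natDegree ≤ h0.length := by
      have := rp_lt τ Q
      rw [hQl] at this
      exact natDegree_le_of_degree_le (by
        rw [degree_le_iff_coeff_zero]
        intro m hm
        apply coeff_eq_zero_of_degree_lt
        refine this.trans_le ?_
        exact_mod_cast hm)
    have h6 : (mrp τ g).natDegree = g0.length := by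
      rw [natDegree_eq_of_degree_eq_some (mrp_degree τ g), lg]
    have h7 := coeff_mul_add_eq_of_natDegree_le (f := mrp τ g) (g := rp τ Q) h6.le h5
    rw [← e1, h4] at h7
    have h8 : (mrp τ g).coeff g0.length = 1 := by
      rw [← h6]; exact (mrp_monic τ g).coeff_natDegree
    have h9 : (mrp τ A).coeff (g0.length + h0.length) = 1 := by
      have : (mrp τ A).natDegree = g0.length + h0.length := by
        rw [natDegree_eq_of_degree_eq_some (mrp_degree τ A), hl]
      rw [← this]; exact (mrp_monic τ A).coeff_natDegree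
    rw [h8, h9, one_mul] at h7
    rw [h2, ← h7]
    unfold mrp
    rw [hlt]
    simp
    ring
  have hQs : Sh s (Q.take h0.length) := fun r hr => d1 r (List.mem_of_mem_take hr)
  have hg0 : hd0 g = g0 := by
    apply mpol_inj
    · simp [hd0, lg]
    · rw [← mrp_zero s hs g hg]
      obtain ⟨-, w, hw⟩ := hr F 0 (zero_pow (by omega))
      rw [hw]
      simp
  refine ⟨hg, hQs, hg0, ?_, hmul⟩
  apply mpol_inj
  · simp [hd0]; omega
  · have h1 := hmul F 0 (zero_pow (by omega))
    rw [mrp_zero s hs g hg, mrp_zero s hs _ hQs, mrp_zero s hs A hAs', hg0, h] at h1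
    have hne : mpol g0 ≠ 0 := by
      have : (mpol g0).Monic := monic_X_pow_add (degree_pol_lt g0)
      exact this.ne_zero
    exact mul_left_cancel₀ hne h1
end func

section prog
variable {s : List (Ty × Ty)} {g : Ty}

/-- rows of constants: input `(u, l)` -/
def lfP : Pr s (.prod Un Po) Ma :=
  mapP (.comp (.pair .fst (.pair .zero (.comp (.pair .snd .nil) .cons))) fitP)

/-- entrywise operation on two matrices -/
def zzP (f : Pr s (.prod .unit (.prod .fld .fld)) .fld) : Pr s (.prod Ma Ma) Ma :=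
  .comp (.pair .star .id) (zipP (c := .unit) (zipP (c := .unit) f))

/-- sum -/
def addF : Pr s (.prod .unit (.prod .fld .fld)) .fld := .comp .snd .add

/-- `x + x - y` -/
def linF : Pr s (.prod .unit (.prod .fld .fld)) .fld :=
  .comp (.pair (.comp (.pair (.comp .snd .fst) (.comp .snd .fst)) .add)
    (.comp (.comp .snd .snd) .neg)) .add

section
variable {F : Type} [Field F] [DecidableEq F]

theorem val_lfP (v : SV F s) (u : List Unit) (l : List F) :
    (lfP : Pr s (.prod Un Po) Ma).val v (u, l) = lft u.length l := by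
  simp [lfP, lft]

theorem cost_lfP (v : SV F s) (k : SC F s) (u : List Unit) (l : List F) :
    (lfP : Pr s (.prod Un Po) Ma).cost v k (u, l) ≤ (20 * u.length + 30) * l.length + 5 := by
  have h := cost_mapP_le (s := s) (c := Un) (a := .fld) (b := Po)
    (.comp (.pair .fst (.pair .zero (.comp (.pair .snd .nil) .cons))) fitP) v k (u, l)
    (20 * u.length + 12) (fun y _ => by
      have h1 := cost_fitP (s := s) (F := F) (a := .fld) (b := .unit) v k (u, ((0 : F), [y]))
      simp at h1 ⊢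
      omega)
  unfold lfP
  refine h.trans ?_
  simp only
  nlinarith

theorem val_addF (v : SV F s) (x y : F) :
    (addF : Pr s (.prod .unit (.prod .fld .fld)) .fld).val v ((), (x, y)) = x + y := rfl

theorem val_linF (v : SV F s) (x y : F) :
    (linF : Pr s (.prod .unit (.prod .fld .fld)) .fld).val v ((), (x, y)) = x + x + -y := rfl

theorem val_zzP (f : Pr s (.prod .unit (.prod .fld .fld)) .fld) (v : SV F s)
    (x y : List (List F)) : (zzP f).val v (x, y) = lc (fun a b => f.val v ((), (a, b))) x y := by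
  simp [zzP, lc]

theorem cost_zzP (f : Pr s (.prod .unit (.prod .fld .fld)) .fld) (v : SV F s) (k : SC F s)
    (x y : List (List F)) (n B : ℕ) (hx : Sh n x)
    (hB : ∀ a b : F, f.cost v k ((), (a, b)) ≤ B) :
    (zzP f).cost v k (x, y) ≤ ((B + 49) * n + 64) * x.length + 18 := by
  have h := cost_zipP_le (s := s) (c := .unit) (a := Po) (b := Po) (d := Po)
    (zipP (c := .unit) f) v k ((), (x, y)) ((B + 49) * n + 15) (fun r hr r' _ => by
      have h1 := cost_zipP_le (s := s) (c := .unit) (a := .fld) (b := .fld) (d := .fld)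
        f v k ((), (r, r')) B (fun a _ b _ => hB a b)
      simp only at h1
      rw [hx r hr] at h1
      exact h1)
  have e : (B + 49) * n + 15 + 49 = (B + 49) * n + 64 := by omega
  simp only [zzP, cost_comp, cost_pair, cost_star, cost_id, val_pair, val_star, val_id, e] at h ⊢
  omega

end
end prog

/-- multiplication modulo a monic polynomial; input `(tb, (s, ((a, b), G)))` -/
def mmP (pm : Pr [] (.prod TB (.prod Un (.prod Ma Ma))) Ma)
    (pd : Pr [] (.prod TB (.prod Un (.prod Ma Ma))) (.prod Ma Ma)) :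
    Pr [] (.prod TB (.prod Un (.prod (.prod Ma Ma) Ma))) Ma :=
  .comp (.pair .fst (.pair (.comp .snd .fst) (.pair
    (.comp (.pair .fst (.pair (.comp .snd .fst) (.comp (.comp .snd .snd) .fst))) pm)
    (.comp (.comp .snd .snd) .snd)))) (.comp pd .snd)

/-- input of the two halves of the step -/
abbrev XT : Ty := .prod TB (.prod Un (.prod Ma (.prod Ma Ma)))

/-- access -/
def aS : Pr [] XT Un := .comp .snd .fst
/-- access -/
def aA : Pr [] XT Ma := .comp (.comp .snd .snd) .fst
/-- access -/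
def aG : Pr [] XT Ma := .comp (.comp (.comp .snd .snd) .snd) .fst
/-- access -/
def aU : Pr [] XT Ma := .comp (.comp (.comp .snd .snd) .snd) .snd

/-- division of `Ah` by `g` -/
def dvP (pd : Pr [] (.prod TB (.prod Un (.prod Ma Ma))) (.prod Ma Ma)) : Pr [] XT (.prod Ma Ma) :=
  .comp (.pair .fst (.pair aS (.pair aA aG))) pd

/-- first half -/
def f1P (pm : Pr [] (.prod TB (.prod Un (.prod Ma Ma))) Ma)
    (pd : Pr [] (.prod TB (.prod Un (.prod Ma Ma))) (.prod Ma Ma)) : Pr [] XT Ma :=
  .comp (.pair aG (.comp (.pair .fst (.pair aS (.pair (.pair (.comp (dvP pd) .snd) aU) aG)))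
    (mmP pm pd))) (zzP addF)

/-- second half -/
def f2P (pm : Pr [] (.prod TB (.prod Un (.prod Ma Ma))) Ma)
    (pd : Pr [] (.prod TB (.prod Un (.prod Ma Ma))) (.prod Ma Ma)) : Pr [] XT Ma :=
  .comp (.pair aU (.comp (.pair .fst (.pair aS (.pair (.pair aU
    (.comp (.pair .fst (.pair aS (.pair (.pair aU (.comp (dvP pd) .fst)) aG))) (mmP pm pd))) aG)))
    (mmP pm pd))) (zzP linF)

/-- the step -/
def fsP (pm : Pr [] (.prod TB (.prod Un (.prod Ma Ma))) Ma)
    (pd : Pr [] (.prod TB (.prod Un (.prod Ma Ma))) (.prod Ma Ma)) : Pr [] XT (.prod Ma Ma) :=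
  lt (f1P pm pd) (.pair .snd (.comp (.pair (.comp .fst .fst) (.pair (.comp .fst aS)
    (.pair (.comp .fst aA) (.pair .snd (.comp .fst aU))))) (f2P pm pd)))

/-- the step in a fold -/
def stP (pm : Pr [] (.prod TB (.prod Un (.prod Ma Ma))) Ma)
    (pd : Pr [] (.prod TB (.prod Un (.prod Ma Ma))) (.prod Ma Ma)) :
    Pr [] (.prod (.prod TB (.prod Un Ma)) (.prod (.prod Ma Ma) .unit)) (.prod Ma Ma) :=
  .comp (.pair (.comp .fst .fst) (.pair (.comp (.comp .fst .snd) .fst)
    (.pair (.comp (.comp .fst .snd) .snd) (.comp .snd .fst)))) (fsP pm pd)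

section
variable {F : Type} [Field F] [DecidableEq F]
variable (pm : Pr [] (.prod TB (.prod Un (.prod Ma Ma))) Ma)
    (pd : Pr [] (.prod TB (.prod Un (.prod Ma Ma))) (.prod Ma Ma))
variable (tb : List (List F) × List (List F)) (s : ℕ)

/-- the function computed by the division -/
def dF (P G : List (List F)) : List (List F) × List (List F) := pd.val () (tb, (un s, (P, G)))

/-- the function computed by the multiplication -/
def pF (a b : List (List F)) : List (List F) := pm.val () (tb, (un s, (a, b)))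

/-- the function computed by the modular multiplication -/
def mF (a b G : List (List F)) : List (List F) := (dF pd tb s (pF pm tb s a b) G).2

theorem val_mmP (a b G : List (List F)) :
    (mmP pm pd).val () (tb, (un s, ((a, b), G))) = mF pm pd tb s a b G := rfl

theorem val_dvP (Ah g u : List (List F)) :
    (dvP pd).val () (tb, (un s, (Ah, (g, u)))) = dF pd tb s Ah g := rfl

theorem val_f1P (Ah g u : List (List F)) :
    (f1P pm pd).val () (tb, (un s, (Ah, (g, u)))) =
      f1 (mF pm pd tb s) (dF pd tb s) Ah g u := by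
  have h := val_zzP (s := []) addF () g (mF pm pd tb s (dF pd tb s Ah g).2 u g)
  exact h

theorem val_f2P (Ah g u : List (List F)) :
    (f2P pm pd).val () (tb, (un s, (Ah, (g, u)))) =
      f2 (mF pm pd tb s) (dF pd tb s) Ah g u := by
  have h := val_zzP (s := []) linF () u (mF pm pd tb s u (mF pm pd tb s u (dF pd tb s Ah g).1 g) g)
  exact h

theorem val_fsP (Ah g u : List (List F)) :
    (fsP pm pd).val () (tb, (un s, (Ah, (g, u)))) =
      fs (mF pm pd tb s) (dF pd tb s) Ah (g, u) := by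
  have h1 := val_f1P pm pd tb s Ah g u
  have h2 := val_f2P pm pd tb s Ah (f1 (mF pm pd tb s) (dF pd tb s) Ah g u) u
  unfold fsP fs
  rw [val_lt, h1]
  exact congrArg _ h2

theorem val_stP (Ah g u : List (List F)) (z : Unit) :
    (stP pm pd).val () ((tb, (un s, Ah)), ((g, u), z)) =
      fs (mF pm pd tb s) (dF pd tb s) Ah (g, u) := val_fsP pm pd tb s Ah g u

end

section
variable {F : Type} [Field F] [DecidableEq F]
variable (pm : Pr [] (.prod TB (.prod Un (.prod Ma Ma))) Ma)
    (pd : Pr [] (.prod TB (.prod Un (.prod Ma Ma))) (.prod Ma Ma))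
variable (tb : List (List F) × List (List F)) (s : ℕ)

/-- shapes and costs -/
structure Cb (N K : ℕ) : Prop where
  c1 : ∀ a b : List (List F), Sh s a → Sh s b → a.length ≤ N → b.length ≤ N →
    pm.cost () () (tb, (un s, (a, b))) ≤ K ∧ Sh s (pF pm tb s a b) ∧
      (pF pm tb s a b).length ≤ N + N
  c2 : ∀ P G : List (List F), Sh s P → Sh s G → P.length ≤ N + N → G.length ≤ N →
    pd.cost () () (tb, (un s, (P, G))) ≤ K ∧ Sh s (dF pd tb s P G).1 ∧ Sh s (dF pd tb s P G).2 ∧
      (dF pd tb s P G).2.length = G.length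
  c3 : ∀ P G : List (List F), Sh s P → Sh s G → P.length ≤ N → G.length ≤ N →
      (dF pd tb s P G).1.length ≤ N

variable {N K : ℕ}

theorem cost_mmP (H : Cb pm pd tb s N K) (a b G : List (List F)) (ha : Sh s a) (hb : Sh s b)
    (hG : Sh s G) (la : a.length ≤ N) (lb : b.length ≤ N) (lG : G.length ≤ N) :
    (mmP pm pd).cost () () (tb, (un s, ((a, b), G))) ≤ 2 * K + 40 := by
  obtain ⟨h1, h2, h3⟩ := H.c1 a b ha hb la lb
  obtain ⟨h4, -⟩ := H.c2 _ G h2 hG h3 lG
  simp only [mmP, cost_comp, cost_pair, cost_fst, cost_snd, val_comp, val_pair, val_fst, val_snd]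
  unfold pF at h4
  omega

theorem shape_mF (H : Cb pm pd tb s N K) (a b G : List (List F)) (ha : Sh s a) (hb : Sh s b)
    (hG : Sh s G) (la : a.length ≤ N) (lb : b.length ≤ N) (lG : G.length ≤ N) :
    Sh s (mF pm pd tb s a b G) ∧ (mF pm pd tb s a b G).length = G.length := by
  obtain ⟨h1, h2, h3⟩ := H.c1 a b ha hb la lb
  obtain ⟨-, -, h4, h5⟩ := H.c2 _ G h2 hG h3 lG
  exact ⟨h4, h5⟩

theorem cost_dvP (H : Cb pm pd tb s N K) (Ah g u : List (List F)) (hA : Sh s Ah) (hg : Sh s g)
    (lA : Ah.length ≤ N) (lg : g.length ≤ N) :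
    (dvP pd).cost () () (tb, (un s, (Ah, (g, u)))) ≤ K + 40 := by
  obtain ⟨h1, -⟩ := H.c2 Ah g hA hg (by omega) lg
  simp only [dvP, aS, aA, aG, cost_comp, cost_pair, cost_fst, cost_snd, val_comp, val_pair,
    val_fst, val_snd]
  omega

theorem cost_f1P (H : Cb pm pd tb s N K) (Ah g u : List (List F)) (hA : Sh s Ah) (hg : Sh s g)
    (hu : Sh s u) (lA : Ah.length ≤ N) (lg : g.length ≤ N) (lu : u.length ≤ N) :
    (f1P pm pd).cost () () (tb, (un s, (Ah, (g, u)))) ≤ 3 * K + (51 * s + 64) * N + 200 := by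
  obtain ⟨-, -, h2, h3⟩ := H.c2 Ah g hA hg (by omega) lg
  have h3' : (dF pd tb s Ah g).2.length ≤ N := by omega
  have h4 := cost_mmP pm pd tb s H ((dvP pd).val () (tb, (un s, (Ah, (g, u))))).2 u g h2 hu hg
    h3' lu lg
  have h5 := cost_dvP pm pd tb s H Ah g u hA hg lA lg
  have h6 := cost_zzP (s := []) addF () () g ((mmP pm pd).val () (tb, (un s,
    ((((dvP pd).val () (tb, (un s, (Ah, (g, u))))).2, u), g)))) s 2 hg
    (fun _ _ => le_rfl)
  have h7 : ((2 + 49) * s + 64) * g.length ≤ (51 * s + 64) * N := Nat.mul_le_mul_left _ lg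
  simp only [f1P, aS, aA, aG, aU, cost_comp, cost_pair, cost_fst, cost_snd, val_comp, val_pair,
    val_fst, val_snd]
  omega

theorem cost_f2P (H : Cb pm pd tb s N K) (Ah g u : List (List F)) (hA : Sh s Ah) (hg : Sh s g)
    (hu : Sh s u) (lA : Ah.length ≤ N) (lg : g.length ≤ N) (lu : u.length ≤ N) :
    (f2P pm pd).cost () () (tb, (un s, (Ah, (g, u)))) ≤ 5 * K + (60 * s + 64) * N + 300 := by
  obtain ⟨-, h2, -, -⟩ := H.c2 Ah g hA hg (by omega) lg
  have h3 := H.c3 Ah g hA hg lA lg
  obtain ⟨s1, s2⟩ := shape_mF pm pd tb s H u (dF pd tb s Ah g).1 g hu h2 hg lu h3 lg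
  have s3 : (mF pm pd tb s u (dF pd tb s Ah g).1 g).length ≤ N := by omega
  have h4 := cost_mmP pm pd tb s H u ((dvP pd).val () (tb, (un s, (Ah, (g, u))))).1 g hu h2 hg lu
    h3 lg
  have h4' := cost_mmP pm pd tb s H u ((mmP pm pd).val () (tb, (un s,
    ((u, ((dvP pd).val () (tb, (un s, (Ah, (g, u))))).1), g)))) g hu s1 hg lu s3 lg
  have h5 := cost_dvP pm pd tb s H Ah g u hA hg lA lg
  have h6 := cost_zzP (s := []) linF () () u ((mmP pm pd).val () (tb, (un s,
    ((u, ((mmP pm pd).val () (tb, (un s,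
    ((u, ((dvP pd).val () (tb, (un s, (Ah, (g, u))))).1), g))))), g)))) s 11 hu
    (fun _ _ => le_rfl)
  have h7 : ((11 + 49) * s + 64) * u.length ≤ (60 * s + 64) * N := Nat.mul_le_mul_left _ lu
  simp only [f2P, aS, aA, aG, aU, cost_comp, cost_pair, cost_fst, cost_snd, val_comp, val_pair,
    val_fst, val_snd]
  omega

theorem cost_stP (H : Cb pm pd tb s N K) (Ah g u : List (List F)) (hA : Sh s Ah) (hg : Sh s g)
    (hu : Sh s u) (lA : Ah.length ≤ N) (lg : g.length ≤ N) (lu : u.length = g.length) (z : Unit) :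
    (stP pm pd).cost () () ((tb, (un s, Ah)), ((g, u), z)) ≤
      8 * K + (111 * s + 128) * N + 600 := by
  obtain ⟨-, -, h2, h3⟩ := H.c2 Ah g hA hg (by omega) lg
  obtain ⟨m1, m2⟩ := shape_mF pm pd tb s H (dF pd tb s Ah g).2 u g h2 hu hg (by omega) (by omega) lg
  have s1 : Sh s (f1 (mF pm pd tb s) (dF pd tb s) Ah g u) := sh_lc _ s _ _ hg m1
  have s2 : (f1 (mF pm pd tb s) (dF pd tb s) Ah g u).length = g.length := length_lc _ _ _ m2.symm
  have h4 := cost_f1P pm pd tb s H Ah g u hA hg hu lA lg (by omega)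
  have s3 : (f1 (mF pm pd tb s) (dF pd tb s) Ah g u).length ≤ N := by omega
  have e1 := val_f1P pm pd tb s Ah g u
  have s1' : Sh s ((f1P pm pd).val () (tb, (un s, (Ah, (g, u))))) := by rw [e1]; exact s1
  have s3' : List.length ((f1P pm pd).val () (tb, (un s, (Ah, (g, u)))) : List (List F)) ≤ N := by
    rw [e1]; exact s3
  have h5 := cost_f2P pm pd tb s H Ah ((f1P pm pd).val () (tb, (un s, (Ah, (g, u))))) u hA s1' hu lA
    s3' (by omega)
  simp only [stP, fsP, aS, aA, aG, aU, cost_lt, cost_comp, cost_pair, cost_fst, cost_snd, val_comp,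
    val_pair, val_fst, val_snd]
  have e2 : (51 * s + 64) * N + (60 * s + 64) * N = (111 * s + 128) * N := by ring
  omega

end

/-- input of the whole program -/
abbrev YT : Ty := .prod TB (.prod Un (.prod Ma (.prod Po Po)))

/-- access -/
def bS : Pr [] YT Un := .comp .snd .fst
/-- access -/
def bA : Pr [] YT Ma := .comp (.comp .snd .snd) .fst
/-- access -/
def bG : Pr [] YT Po := .comp (.comp (.comp .snd .snd) .snd) .fst
/-- access -/
def bH : Pr [] YT Po := .comp (.comp (.comp .snd .snd) .snd) .snd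
/-- the list with the entry one -/
def o1 : Pr [] YT Po := .comp (.pair .one .nil) .cons

/-- the polynomial with its leading coefficient -/
def ahP : Pr [] YT Ma :=
  .comp (.pair bA (.comp (.pair (.comp (.pair bS (.pair .zero o1)) fitP) .nil) .cons)) appP

/-- inverse of `h0` modulo `g0` -/
def u0P (p3 : Pr [] (.prod TB (.prod (.prod Po Po) Po)) Po) (p4 : Pr [] (.prod Po Po) Po) :
    Pr [] YT Po :=
  .comp (.pair (.comp (.pair .fst (.pair (.pair (.comp (.pair bH o1) appP) o1) bG)) p3) bG) p4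

/-- lifted `g0` -/
def g1P : Pr [] YT Ma := .comp (.pair bS bG) lfP

/-- lifted inverse -/
def u1P (p3 : Pr [] (.prod TB (.prod (.prod Po Po) Po)) Po) (p4 : Pr [] (.prod Po Po) Po) :
    Pr [] YT Ma := .comp (.pair bS (u0P p3 p4)) lfP

section
variable (pm : Pr [] (.prod TB (.prod Un (.prod Ma Ma))) Ma)
    (pd : Pr [] (.prod TB (.prod Un (.prod Ma Ma))) (.prod Ma Ma))
    (p3 : Pr [] (.prod TB (.prod (.prod Po Po) Po)) Po) (p4 : Pr [] (.prod Po Po) Po)

/-- the iteration -/
def foP : Pr [] (.prod YT Ma) (.prod Ma Ma) :=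
  .comp (.pair (.pair (.comp .fst .fst) (.pair (.comp .fst bS) .snd))
    (.pair (.pair (.comp .fst g1P) (.comp .fst (u1P p3 p4))) (.comp .fst (.comp bS lgP))))
    (foldP (stP pm pd))

/-- the last division -/
def fiP : Pr [] (.prod (.prod YT Ma) (.prod Ma Ma)) (.prod Ma Ma) :=
  .pair (.comp .snd .fst) (.comp (.pair (.comp (.comp .fst .fst) bH)
    (.comp (.comp (.pair (.comp (.comp .fst .fst) .fst) (.pair (.comp (.comp .fst .fst) bS)
      (.pair (.comp .fst .snd) (.comp .snd .fst)))) pd) .fst)) (.comp splitP .fst))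

/-- the whole program for nonempty `A` -/
def maP : Pr [] YT (.prod Ma Ma) := lt ahP (lt (foP pm pd p3 p4) (fiP pd))

/-- the whole program -/
def hsP : Pr [] YT (.prod Ma Ma) := onL bA (.pair .nil .nil) (.comp .fst (maP pm pd p3 p4))

variable {F : Type} [Field F] [DecidableEq F]
variable (tb : List (List F) × List (List F)) (s : ℕ) (A : List (List F)) (g0 h0 : List F)

/-- the inverse computed -/
def u0F : List F := p4.val () ((p3.val () (tb, ((h0 ++ [1], [1]), g0)) : List F), g0)

/-- result of the iteration -/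
def itF (l : List Unit) : List (List F) × List (List F) :=
  List.foldl (fun y _ => fs (mF pm pd tb s) (dF pd tb s) (A ++ [fit s 0 [1]]) y)
    (lft s g0, lft s (u0F p3 p4 tb g0 h0)) l

theorem length_un (n : ℕ) : (un n).length = n := by simp [un]

theorem val_ahP : ahP.val () (tb, (un s, (A, (g0, h0)))) = A ++ [fit s 0 [1]] := by
  have h1 := val_fitP (s := []) (F := F) (a := .fld) (b := .unit) () (un s, ((0 : F), [(1 : F)]))
  have h2 := val_appP (s := []) (F := F) (a := Po) () (A, [fit (un s).length 0 [(1 : F)]])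
  simp only [ahP, bA, bS, o1, val_comp, val_pair, val_fst, val_snd, val_zero, val_one, val_nil,
    val_cons, val_appP, val_fitP]
  simp [un]

theorem val_u0P : (u0P p3 p4).val () (tb, (un s, (A, (g0, h0)))) = u0F p3 p4 tb g0 h0 := by
  have h2 := val_appP (s := []) (F := F) (a := .fld) () (h0, [(1 : F)])
  unfold u0F
  simp only [u0P, bG, bH, o1, val_comp, val_pair, val_fst, val_snd, val_one,
    val_nil, val_cons, val_appP]

theorem val_g1P : g1P.val () (tb, (un s, (A, (g0, h0)))) = lft s g0 := by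
  have h := val_lfP (s := []) (F := F) () (un s) g0
  rw [length_un] at h
  exact h

theorem val_u1P : (u1P p3 p4).val () (tb, (un s, (A, (g0, h0)))) =
    lft s (u0F p3 p4 tb g0 h0) := by
  have h := val_lfP (s := []) (F := F) () (un s) (u0F p3 p4 tb g0 h0)
  rw [length_un] at h
  have h2 := val_u0P p3 p4 tb s A g0 h0
  rw [← h, ← h2]
  rfl

/-- fuel -/
def fuF (F : Type) [Field F] [DecidableEq F] (s : ℕ) : List Unit :=
  (lgP : Pr [] Un (.list .unit)).val (F := F) () (un s)

theorem length_fuF : (fuF F s).length = Nat.clog 2 s := by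
  have h := val_lgP (s := []) (F := F) (a := .unit) () (un s)
  rw [length_un] at h
  exact h

theorem val_foP : (foP pm pd p3 p4).val () ((tb, (un s, (A, (g0, h0)))), A ++ [fit s 0 [1]]) =
    itF pm pd p3 p4 tb s A g0 h0 (fuF F s) := by
  have h := val_foldP (s := []) (F := F) (stP pm pd) ()
    ((tb, (un s, A ++ [fit s 0 [1]])), ((g1P.val () (tb, (un s, (A, (g0, h0)))),
      (u1P p3 p4).val () (tb, (un s, (A, (g0, h0))))), fuF F s))
  unfold itF
  rw [val_g1P, val_u1P] at h
  refine Eq.trans ?_ (h.trans ?_)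
  · have e1 := val_g1P tb s A g0 h0
    have e2 := val_u1P p3 p4 tb s A g0 h0
    rw [← e1, ← e2]
    rfl
  · congr 1
    funext y z
    obtain ⟨g, u⟩ := y
    exact val_stP pm pd tb s (A ++ [fit s 0 [1]]) g u z

theorem val_maP : (maP pm pd p3 p4).val () (tb, (un s, (A, (g0, h0)))) =
    ((itF pm pd p3 p4 tb s A g0 h0 (fuF F s)).1,
      (dF pd tb s (A ++ [fit s 0 [1]]) (itF pm pd p3 p4 tb s A g0 h0 (fuF F s)).1).1.take
        h0.length) := by
  have h1 := val_ahP tb s A g0 h0
  have h2 := val_foP pm pd p3 p4 tb s A g0 h0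
  unfold maP
  rw [val_lt, h1, val_lt, h2]
  have h3 := val_splitP (s := []) (F := F) (a := Po) (b := .fld) () (h0,
    (dF pd tb s (A ++ [fit s 0 [1]]) (itF pm pd p3 p4 tb s A g0 h0 (fuF F s)).1).1)
  have h4 := congrArg Prod.fst h3
  exact congrArg (Prod.mk (itF pm pd p3 p4 tb s A g0 h0 (fuF F s)).1) h4

theorem val_hsP_cons (hA : A ≠ []) : (hsP pm pd p3 p4).val () (tb, (un s, (A, (g0, h0)))) =
    ((itF pm pd p3 p4 tb s A g0 h0 (fuF F s)).1,
      (dF pd tb s (A ++ [fit s 0 [1]]) (itF pm pd p3 p4 tb s A g0 h0 (fuF F s)).1).1.take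
        h0.length) := by
  rw [← val_maP]
  unfold hsP
  rw [val_onL]
  have e : bA.val () (tb, (un s, (A, (g0, h0)))) = A := rfl
  rw [e]
  cases A with
  | nil => exact absurd rfl hA
  | cons r A => rfl

theorem val_hsP_nil : (hsP pm pd p3 p4).val () (tb, (un s, (([] : List (List F)), (g0, h0)))) =
    ([], []) := rfl

end

section
variable (pm : Pr [] (.prod TB (.prod Un (.prod Ma Ma))) Ma)
    (pd : Pr [] (.prod TB (.prod Un (.prod Ma Ma))) (.prod Ma Ma))
    (p3 : Pr [] (.prod TB (.prod (.prod Po Po) Po)) Po) (p4 : Pr [] (.prod Po Po) Po)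
variable {F : Type} [Field F] [DecidableEq F]
variable (tb : List (List F) × List (List F)) (s : ℕ) (A : List (List F)) (g0 h0 : List F)

theorem cost_ahP : ahP.cost () () (tb, (un s, (A, (g0, h0)))) ≤ 20 * A.length + 20 * s + 60 := by
  have h1 := cost_fitP (s := []) (F := F) (a := .fld) (b := .unit) () () (un s, ((0 : F), [(1 : F)]))
  have h2 := cost_appP (s := []) (F := F) (a := Po) () () (A, [(fitP : Pr [] (.prod Un
    (.prod .fld (.list .fld))) (.list .fld)).val () (un s, ((0 : F), [(1 : F)]))])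
  simp only [length_un] at h1 h2
  simp only [ahP, bA, bS, o1, cost_comp, cost_pair, cost_fst, cost_snd, cost_zero, cost_one,
    cost_nil, cost_cons, val_comp, val_pair, val_fst, val_snd, val_zero, val_one, val_nil,
    val_cons] at h1 h2 ⊢
  omega

theorem cost_u0P (K3 K4 : ℕ) (h3 : p3.cost () () (tb, ((h0 ++ [1], [1]), g0)) ≤ K3)
    (h4 : p4.cost () () ((p3.val () (tb, ((h0 ++ [1], [1]), g0)) : List F), g0) ≤ K4) :
    (u0P p3 p4).cost () () (tb, (un s, (A, (g0, h0)))) ≤ K3 + K4 + 20 * h0.length + 60 := by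
  have h2 := cost_appP (s := []) (F := F) (a := .fld) () () (h0, [(1 : F)])
  have e := val_appP (s := []) (F := F) (a := .fld) () (h0, [(1 : F)])
  simp only at e h2
  rw [← e] at h3 h4
  simp only [u0P, bG, bH, o1, cost_comp, cost_pair, cost_fst, cost_snd, cost_one,
    cost_nil, cost_cons, val_comp, val_pair, val_fst, val_snd, val_one, val_nil,
    val_cons]
  omega

theorem cost_g1P : g1P.cost () () (tb, (un s, (A, (g0, h0)))) ≤
    (20 * s + 30) * g0.length + 30 := by
  have h := cost_lfP (s := []) (F := F) () () (un s) g0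
  simp only [length_un] at h
  simp only [g1P, bS, bG, cost_comp, cost_pair, cost_fst, cost_snd, val_comp, val_pair, val_fst,
    val_snd]
  omega

theorem cost_u1P (K3 K4 : ℕ) (h3 : p3.cost () () (tb, ((h0 ++ [1], [1]), g0)) ≤ K3)
    (h4 : p4.cost () () ((p3.val () (tb, ((h0 ++ [1], [1]), g0)) : List F), g0) ≤ K4)
    (hl : (u0F p3 p4 tb g0 h0).length = g0.length) :
    (u1P p3 p4).cost () () (tb, (un s, (A, (g0, h0)))) ≤
      K3 + K4 + 20 * h0.length + (20 * s + 30) * g0.length + 100 := by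
  have h := cost_lfP (s := []) (F := F) () () (un s)
    ((u0P p3 p4).val () (tb, (un s, (A, (g0, h0)))))
  have e := val_u0P p3 p4 tb s A g0 h0
  have h5 := cost_u0P p3 p4 tb s A g0 h0 K3 K4 h3 h4
  rw [← e] at hl
  rw [hl] at h
  simp only [length_un] at h
  simp only [u1P, bS, cost_comp, cost_pair, cost_fst, cost_snd, val_comp, val_pair, val_fst,
    val_snd]
  omega

theorem cost_foP {N K : ℕ} (H : Cb pm pd tb s N K) (hN : A.length + 1 ≤ N) (hA : Sh s A)
    (hM : PM s (mF pm pd tb s)) (hD : PD s (dF pd tb s))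
    (K3 K4 : ℕ) (h3 : p3.cost () () (tb, ((h0 ++ [1], [1]), g0)) ≤ K3)
    (h4 : p4.cost () () ((p3.val () (tb, ((h0 ++ [1], [1]), g0)) : List F), g0) ≤ K4)
    (hl : (u0F p3 p4 tb g0 h0).length = g0.length) (hAl : A.length = g0.length + h0.length) :
    (foP pm pd p3 p4).cost () () ((tb, (un s, (A, (g0, h0)))), A ++ [fit s 0 [1]]) ≤
      (8 * K + (111 * s + 128) * N + 627) * Nat.clog 2 s +
        (K3 + K4 + 20 * h0.length + 2 * ((20 * s + 30) * g0.length) + 120 * s + 300) := by
  have e1 := val_g1P tb s A g0 h0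
  have e2 := val_u1P p3 p4 tb s A g0 h0
  have hAh : Sh s (A ++ [fit s 0 [1]]) := by
    intro r hr
    rw [List.mem_append, List.mem_singleton] at hr
    rcases hr with hr | rfl
    · exact hA r hr
    · exact length_fit _ _ _
  have lAh : (A ++ [fit s 0 [1]]).length ≤ N := by simp; omega
  have h := cost_foldP_le (s := []) (F := F) (stP pm pd) () ()
    ((tb, (un s, A ++ [fit s 0 [1]])), ((g1P.val () (tb, (un s, (A, (g0, h0)))),
      (u1P p3 p4).val () (tb, (un s, (A, (g0, h0))))), fuF F s))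
    (8 * K + (111 * s + 128) * N + 600)
    (fun y => Sh s y.1 ∧ Sh s y.2 ∧ y.1.length = g0.length ∧ y.2.length = g0.length)
    (by
      simp only
      rw [e1, e2]
      exact ⟨sh_lft s _, sh_lft s _, length_lft s _, (length_lft s _).trans hl⟩)
    (by
      rintro ⟨g, u⟩ z ⟨y1, y2, y3, y4⟩ _
      have e3 := val_stP pm pd tb s (A ++ [fit s 0 [1]]) g u z
      simp only at e3 y1 y2 y3 y4 ⊢
      rw [e3]
      obtain ⟨s1, s2⟩ := f1_shape s _ _ (A ++ [fit s 0 [1]]) hM hD hAh g u y1 y2
        (y4.trans y3.symm)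
      obtain ⟨s3, s4⟩ := f2_shape s _ _ (A ++ [fit s 0 [1]]) hM hD hAh _ u s1 y2
        (y4.trans (y3.symm.trans s2.symm))
      exact ⟨s1, s3, s2.trans y3, s4.trans (s2.trans y3)⟩)
    (by
      rintro ⟨g, u⟩ z ⟨y1, y2, y3, y4⟩ _
      simp only at y1 y2 y3 y4
      exact cost_stP pm pd tb s H _ g u hAh y1 y2 lAh (by omega) (by omega) z)
  have l1 := length_fuF (F := F) s
  simp only at h
  rw [l1] at h
  have e4 : 8 * K + (111 * s + 128) * N + 600 + 27 = 8 * K + (111 * s + 128) * N + 627 := by omega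
  rw [e4] at h
  have h5 := cost_g1P tb s A g0 h0
  have h6 := cost_u1P p3 p4 tb s A g0 h0 K3 K4 h3 h4 hl
  have h7 := cost_lgP (s := []) (F := F) (a := .unit) () () (un s)
  rw [length_un] at h7
  unfold fuF at h
  simp only [foP, bS, cost_comp, cost_pair, cost_fst, cost_snd, val_comp, val_pair, val_fst,
    val_snd]
  omega

theorem cost_maP {N K : ℕ} (H : Cb pm pd tb s N K) (hN : A.length + 1 ≤ N) (hA : Sh s A)
    (hM : PM s (mF pm pd tb s)) (hD : PD s (dF pd tb s))
    (K3 K4 : ℕ) (h3 : p3.cost () () (tb, ((h0 ++ [1], [1]), g0)) ≤ K3)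
    (h4 : p4.cost () () ((p3.val () (tb, ((h0 ++ [1], [1]), g0)) : List F), g0) ≤ K4)
    (hl : (u0F p3 p4 tb g0 h0).length = g0.length) (hAl : A.length = g0.length + h0.length)
    (hx : Sh s (itF pm pd p3 p4 tb s A g0 h0 (fuF F s)).1)
    (hx2 : (itF pm pd p3 p4 tb s A g0 h0 (fuF F s)).1.length = g0.length) :
    (maP pm pd p3 p4).cost () () (tb, (un s, (A, (g0, h0)))) ≤
      (8 * K + (111 * s + 128) * N + 627) * Nat.clog 2 s +
        (K + K3 + K4 + 20 * h0.length + 2 * ((20 * s + 30) * g0.length) + 120 * s + 300) +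
        (20 * A.length + 20 * s + 60) + (24 * h0.length + 100) := by
  have e1 := val_ahP tb s A g0 h0
  have e2 := val_foP pm pd p3 p4 tb s A g0 h0
  have c1 := cost_ahP tb s A g0 h0
  have c2 := cost_foP pm pd p3 p4 tb s A g0 h0 H hN hA hM hD K3 K4 h3 h4 hl hAl
  have hAh : Sh s (A ++ [fit s 0 [1]]) := by
    intro r hr
    rw [List.mem_append, List.mem_singleton] at hr
    rcases hr with hr | rfl
    · exact hA r hr
    · exact length_fit _ _ _
  have lAh : (A ++ [fit s 0 [1]]).length ≤ N := by simp; omega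
  obtain ⟨c3, -⟩ := H.c2 (A ++ [fit s 0 [1]]) (itF pm pd p3 p4 tb s A g0 h0 (fuF F s)).1 hAh hx
    (by omega) (by omega)
  have c4 := cost_splitP (s := []) (F := F) (a := Po) (b := .fld) () () (h0,
    (pd.val () (tb, (un s, ((A ++ [fit s 0 [1]]),
      (itF pm pd p3 p4 tb s A g0 h0 (fuF F s)).1)))).1)
  unfold maP
  rw [cost_lt, e1, cost_lt, e2]
  simp only at c4
  simp only [fiP, bS, bH, cost_comp, cost_pair, cost_fst, cost_snd, val_comp, val_pair, val_fst,
    val_snd]
  omega

theorem cost_hsP_cons (hA : A ≠ []) : (hsP pm pd p3 p4).cost () () (tb, (un s, (A, (g0, h0)))) ≤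
    (maP pm pd p3 p4).cost () () (tb, (un s, (A, (g0, h0)))) + 20 := by
  unfold hsP
  rw [cost_onL]
  have e : bA.val () (tb, (un s, (A, (g0, h0)))) = A := rfl
  have e2 : bA.cost () () (tb, (un s, (A, (g0, h0)))) = 3 := rfl
  rw [e, e2]
  cases A with
  | nil => exact absurd rfl hA
  | cons r A =>
    simp only [lcase_cons, cost_comp, cost_fst, val_fst]
    omega

theorem cost_hsP_nil : (hsP pm pd p3 p4).cost () ()
    (tb, (un s, (([] : List (List F)), (g0, h0)))) = 9 := rfl

end

theorem lgc_mono {a b : ℕ} (h : a ≤ b) : lgc a ≤ lgc b := by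
  unfold lgc
  have := Nat.clog_mono_right 2 h
  omega

theorem lgc_eight (x : ℕ) : lgc (8 * x) ≤ 4 * lgc x := by
  unfold lgc
  have h1 : Nat.clog 2 (8 * x) ≤ Nat.clog 2 x + 3 := by
    rw [Nat.clog_le_iff_le_pow (by norm_num)]
    have h2 : x ≤ 2 ^ (Nat.clog 2 x) := Nat.le_pow_clog (by norm_num) _
    rw [pow_add]
    omega
  omega

end HStepAux

open HStepAux in
theorem specHStep (h1 : SpecMulR) (h2 : SpecDivR) (h3 : SpecMulMod) (h4 : SpecInv) (h0 : SpecUnits) : SpecHStep := by
  obtain ⟨pm, C1, hm⟩ := h1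
  obtain ⟨pd, C2, hd⟩ := h2
  obtain ⟨p3, C3, h3⟩ := h3
  obtain ⟨p4, C4, h4⟩ := h4
  obtain ⟨mmono, wmono, -, -, -, hN, -, hc, -⟩ := h0
  obtain ⟨Cm, hCm⟩ := hc 6
  refine ⟨hsP pm pd p3 p4, 36 * (C1 + C2) * Cm + 4 * C3 * Cm + C4 + 10000, 2, ?_⟩
  intro F _ _ tb s A g0 h0 htb hs hA hl hco hmul
  rcases eq_or_ne A [] with hA0 | hA0
  · subst hA0
    have e1 : g0 = [] := List.length_eq_zero_iff.mp (by simp at hl; omega)
    have e2 : h0 = [] := List.length_eq_zero_iff.mp (by simp at hl; omega)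
    subst e1 e2
    have hv := val_hsP_nil pm pd p3 p4 tb s ([] : List F) []
    have hcst := cost_hsP_nil pm pd p3 p4 tb s ([] : List F) []
    intro r
    have hr : r = ([], []) := hv
    rw [hr]
    refine ⟨by intro r hr; simp at hr, by intro r hr; simp at hr, rfl, rfl, ?_, ?_⟩
    · intro R _ _ τ _
      simp [mrp, rp, pol]
    · rw [hcst]
      have a1 := hN (s * ([] : List (List F)).length + 1)
      have a2 : 1 ≤ lgc (s + ([] : List (List F)).length) := by unfold lgc; omega
      have a3 : 1 ≤ lgc (s + ([] : List (List F)).length) ^ 2 := Nat.one_le_pow _ _ a2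
      generalize lgc (s + ([] : List (List F)).length) ^ 2 = L at *
      have a4 : 1 ≤ mu (s * ([] : List (List F)).length + 1) +
        ww (([] : List (List F)).length + 1) := by omega
      generalize mu (s * ([] : List (List F)).length + 1) +
        ww (([] : List (List F)).length + 1) = M at *
      have a5 : 1 ≤ L * M := Nat.mul_pos a3 a4
      calc 9 ≤ 10000 * (L * M) := by omega
        _ ≤ (36 * (C1 + C2) * Cm + 4 * C3 * Cm + C4 + 10000) * (L * M) :=
          Nat.mul_le_mul_right _ (by omega)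
        _ = _ := by ring
  -- the nonempty case
  have hn : 1 ≤ A.length := by
    rcases A with _ | ⟨a, A⟩
    · exact absurd rfl hA0
    · simp
  have hPD : PD s (dF pd tb s) := by
    intro P G hP hG
    obtain ⟨d1, d2, d3, d4, d5, -⟩ := hd F tb s P G htb hs hP hG
    refine ⟨d1, d2, d3, d4, ?_⟩
    intro R _ _ τ hτ
    have := d5 R τ hτ
    unfold dF
    rw [this]
    ring
  have hPM : PM s (mF pm pd tb s) := by
    intro a b G ha hb hG
    obtain ⟨m1, m2, m3, -⟩ := hm F tb s a b htb hs ha hb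
    obtain ⟨d1, d2, d3, d4, d5⟩ := hPD (pF pm tb s a b) G m1 hG
    refine ⟨d3, d4, ?_⟩
    intro R _ _ τ hτ
    refine ⟨rp τ (dF pd tb s (pF pm tb s a b) G).1, ?_⟩
    have e1 := m3 R τ hτ
    have e2 := d5 R τ hτ
    unfold mF
    rw [← e2, ← e1]
    rfl
  obtain ⟨N, hNd⟩ : ∃ N, N = A.length + 1 := ⟨_, rfl⟩
  obtain ⟨K, hK⟩ : ∃ K, K = (C1 + C2) * lgc (2 * N + 1) * mu (s * (3 * N) + 1) := ⟨_, rfl⟩
  have hL1 : 1 ≤ lgc (2 * N + 1) := by unfold lgc; omega
  have hCb : Cb pm pd tb s N K := by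
    refine ⟨?_, ?_, ?_⟩
    · intro a b ha hb la lb
      obtain ⟨m1, m2, -, m4⟩ := hm F tb s a b htb hs ha hb
      refine ⟨?_, m1, ?_⟩
      · refine m4.trans ?_
        rw [hK]
        have e1 : mu (s * (a.length + b.length) + 1) ≤ mu (s * (3 * N) + 1) :=
          mmono _ _ (Nat.add_le_add_right (Nat.mul_le_mul_left _ (by omega)) _)
        have e2 : C1 ≤ (C1 + C2) * lgc (2 * N + 1) :=
          (Nat.le_add_right _ _).trans (Nat.le_mul_of_pos_right _ hL1)
        exact Nat.mul_le_mul e2 e1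
      · have m2' : (pF pm tb s a b).length = a.length + b.length := m2
        omega
    · intro P G hP hG lP lG
      obtain ⟨d1, d2, d3, d4, d5, d6⟩ := hd F tb s P G htb hs hP hG
      refine ⟨?_, d1, d3, d4⟩
      refine d6.trans ?_
      rw [hK]
      have e1 : mu (s * (P.length + G.length) + 1) ≤ mu (s * (3 * N) + 1) :=
        mmono _ _ (Nat.add_le_add_right (Nat.mul_le_mul_left _ (by omega)) _)
      have e2 : lgc (P.length + 1) ≤ lgc (2 * N + 1) := lgc_mono (by omega)
      exact Nat.mul_le_mul (Nat.mul_le_mul (by omega) e2) e1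
    · intro P G hP hG lP lG
      obtain ⟨d1, d2, -⟩ := hd F tb s P G htb hs hP hG
      have d2' : (dF pd tb s P G).1.length = P.length - G.length := d2
      omega
  -- the inverse
  obtain ⟨q1, q2, q3⟩ := h3 F tb (h0 ++ [1]) [1] g0 htb
  obtain ⟨r3, hr3⟩ : ∃ r3 : List F, r3 = p3.val () (tb, ((h0 ++ [1], [1]), g0)) := ⟨_, rfl⟩
  rw [← hr3] at q1 q2
  have ht : pol (h0 ++ [1]) * pol [1] = mpol h0 := by
    rw [HStepAux.pol_append]
    unfold mpol
    simp [pol]
    ring
  rw [ht] at q2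
  obtain ⟨c, hc⟩ := q2
  have hh : mpol h0 = pol r3 + mpol g0 * c := by rw [← hc]; ring
  have hco2 : IsCoprime (pol r3) (mpol g0) := by
    rw [hh] at hco
    exact (IsCoprime.add_mul_left_right_iff.mp hco).symm
  obtain ⟨i1, i2, i3⟩ := h4 F r3 g0 q1
  have i1 := i1 hco2
  have hu0 : u0F p3 p4 tb g0 h0 = p4.val () (r3, g0) := by
    unfold u0F
    rw [hr3]
  rw [← hu0] at i1 i2
  have i2' : (u0F p3 p4 tb g0 h0).length = g0.length := i2
  have i4 : mpol g0 ∣ pol (u0F p3 p4 tb g0 h0) * mpol h0 - 1 := by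
    have e : pol (u0F p3 p4 tb g0 h0) * mpol h0 - 1 =
        (pol (u0F p3 p4 tb g0 h0) * pol r3 - 1) + mpol g0 * (c * pol (u0F p3 p4 tb g0 h0)) := by
      rw [hh]; ring
    rw [e]
    exact dvd_add i1 (dvd_mul_right _ _)
  -- correctness
  have hAh : Sh s (A ++ [fit s 0 [1]]) := by
    intro r hr
    rw [List.mem_append, List.mem_singleton] at hr
    rcases hr with hr | rfl
    · exact hA r hr
    · exact length_fit _ _ _
  have hAt : ∀ (R : Type) [CommRing R] [Algebra F R] (τ : R),
      rp τ (A ++ [fit s 0 [1]]) = mrp τ A := fun R _ _ τ => rp_top τ s hs A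
  have hst := inv_start s A g0 hs hA h0 (u0F p3 p4 tb g0 h0) i2' hmul i4
  have hfo := inv_fold s _ _ (A ++ [fit s 0 [1]]) A g0 hPM hPD hAh hAt (fuF F s) 1 le_rfl _ hst
  have hfo' : Inv s A g0 (2 ^ (fuF F s).length * 1) (itF pm pd p3 p4 tb s A g0 h0 (fuF F s)) := hfo
  have hk : s ≤ 2 ^ (fuF F s).length * 1 := by
    rw [length_fuF, mul_one]
    exact Nat.le_pow_clog (by norm_num) s
  obtain ⟨z1, z2, z3, z4, z5⟩ := inv_end s _ (A ++ [fit s 0 [1]]) A g0 hs hPD hAh hA hAt h0 hl
    (by simp) hmul _ hk _ hfo'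
  have hv := val_hsP_cons pm pd p3 p4 tb s A g0 h0 hA0
  intro r
  have hr : r = _ := hv
  rw [hr]
  refine ⟨z1, z2, z3, z4, z5, ?_⟩
  -- cost
  have c1 := cost_hsP_cons pm pd p3 p4 tb s A g0 h0 hA0
  obtain ⟨K3, hK3⟩ : ∃ K3, K3 = C3 * lgc ((h0 ++ [(1 : F)]).length + [(1 : F)].length + 1) *
      mu ((h0 ++ [(1 : F)]).length + [(1 : F)].length + g0.length + 1) := ⟨_, rfl⟩
  obtain ⟨K4, hK4⟩ : ∃ K4, K4 = C4 * ww (g0.length + 1) := ⟨_, rfl⟩
  have c2 := cost_maP pm pd p3 p4 tb s A g0 h0 hCb (by omega) hA hPM hPD K3 K4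
    (by rw [hK3]; exact q3) (by rw [hK4, ← hr3]; exact i3) i2' hl z1 hfo'.2.2.1
  obtain ⟨n, hnn⟩ : ∃ n, n = A.length := ⟨_, rfl⟩
  obtain ⟨L, hL⟩ : ∃ L, L = lgc (s + n) := ⟨_, rfl⟩
  obtain ⟨M, hM⟩ : ∃ M, M = mu (s * n + 1) := ⟨_, rfl⟩
  obtain ⟨W, hW⟩ : ∃ W, W = ww (n + 1) := ⟨_, rfl⟩
  rw [← hnn] at hn hNd hl c2 ⊢
  rw [← hL, ← hM, ← hW]
  have hsn : 1 ≤ s * n := Nat.mul_pos hs hn
  have b1 : mu (s * (3 * N) + 1) ≤ Cm * M := by
    rw [hM]
    refine (mmono _ _ ?_).trans (hCm (s * n))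
    have e0 : s ≤ s * n := Nat.le_mul_of_pos_right _ hn
    have e1 : s * (3 * N) = 3 * (s * n) + 3 * s := by rw [hNd]; ring
    omega
  have b2 : lgc (2 * N + 1) ≤ 4 * L := by
    rw [hL]
    exact (lgc_mono (by omega)).trans (lgc_eight _)
  have b3 : s * n + 1 ≤ M := by rw [hM]; exact hN _
  have b4 : 1 ≤ L := by rw [hL]; unfold lgc; omega
  have b5 : Nat.clog 2 s ≤ L := by
    rw [hL]; unfold lgc
    have := Nat.clog_mono_right 2 (show s ≤ s + n by omega)
    omega
  have b6 : K ≤ 4 * (C1 + C2) * Cm * (L * M) := by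
    rw [hK]
    calc (C1 + C2) * lgc (2 * N + 1) * mu (s * (3 * N) + 1)
        ≤ (C1 + C2) * (4 * L) * (Cm * M) := by gcongr
      _ = _ := by ring
  have b7 : K3 ≤ 4 * C3 * Cm * (L * M) := by
    rw [hK3]
    have e1 : lgc ((h0 ++ [(1 : F)]).length + [(1 : F)].length + 1) ≤ 4 * L := by
      refine (lgc_mono ?_).trans b2
      simp
      omega
    have e2 : mu ((h0 ++ [(1 : F)]).length + [(1 : F)].length + g0.length + 1) ≤ Cm * M := by
      refine (mmono _ _ ?_).trans b1
      have e3 : 3 * N ≤ s * (3 * N) := Nat.le_mul_of_pos_left _ hs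
      simp only [List.length_append, List.length_cons, List.length_nil]
      omega
    calc C3 * lgc ((h0 ++ [(1 : F)]).length + [(1 : F)].length + 1) *
          mu ((h0 ++ [(1 : F)]).length + [(1 : F)].length + g0.length + 1)
        ≤ C3 * (4 * L) * (Cm * M) := by gcongr
      _ = _ := by ring
  have b8 : K4 ≤ C4 * W := by
    rw [hK4, hW]
    exact Nat.mul_le_mul_left _ (wmono _ _ (by omega))
  have b9 : (8 * K + (111 * s + 128) * N + 627) * Nat.clog 2 s ≤
      32 * (C1 + C2) * Cm * (L * L * M) + 1732 * (L * M) := by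
    have e1 : (111 * s + 128) * N + 627 ≤ 1732 * M := by
      have e0 : s ≤ s * n := Nat.le_mul_of_pos_right _ hn
      have e1 : n ≤ s * n := Nat.le_mul_of_pos_left _ hs
      have e2 : (111 * s + 128) * N = 111 * (s * n) + 111 * s + 128 * n + 128 := by
        rw [hNd]; ring
      omega
    calc (8 * K + (111 * s + 128) * N + 627) * Nat.clog 2 s
        ≤ (8 * (4 * (C1 + C2) * Cm * (L * M)) + 1732 * M) * L :=
          Nat.mul_le_mul (by omega) b5
      _ = _ := by ring
  have b10 : 20 * h0.length + 2 * ((20 * s + 30) * g0.length) + 120 * s + 300 +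
      (20 * n + 20 * s + 60) + (24 * h0.length + 100) + 20 ≤ 1000 * M := by
    have e0 : n ≤ s * n := Nat.le_mul_of_pos_left _ hs
    have e1 : h0.length ≤ s * n := by omega
    have e2 : (20 * s + 30) * g0.length ≤ 50 * (s * n) := by
      calc (20 * s + 30) * g0.length ≤ (50 * s) * n := Nat.mul_le_mul (by omega) (by omega)
        _ = _ := by ring
    have e3 : s ≤ s * n := Nat.le_mul_of_pos_right _ hn
    have e4 : n ≤ s * n := Nat.le_mul_of_pos_left _ hs
    omega
  have b11 : M ≤ L * M := Nat.le_mul_of_pos_left _ b4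
  have b12 : L * M ≤ L * L * M := by
    rw [mul_assoc]
    exact Nat.le_mul_of_pos_left _ b4
  have b13 : W ≤ L * L * W := Nat.le_mul_of_pos_left _ (Nat.mul_pos b4 b4)
  have b14 : 4 * (C1 + C2) * Cm * (L * M) ≤ 4 * (C1 + C2) * Cm * (L * L * M) :=
    Nat.mul_le_mul_left _ b12
  have b15 : 4 * C3 * Cm * (L * M) ≤ 4 * C3 * Cm * (L * L * M) := Nat.mul_le_mul_left _ b12
  have b16 : C4 * W ≤ C4 * (L * L * W) := Nat.mul_le_mul_left _ b13
  have b17 : (hsP pm pd p3 p4).cost () () (tb, (un s, (A, (g0, h0)))) ≤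
      32 * (C1 + C2) * Cm * (L * L * M) + 4 * (C1 + C2) * Cm * (L * L * M) +
      4 * C3 * Cm * (L * L * M) + C4 * (L * L * W) + 2732 * (L * L * M) := by omega
  refine b17.trans ?_
  have b18 : (36 * (C1 + C2) * Cm + 4 * C3 * Cm + C4 + 10000) * L ^ 2 * (M + W) =
    (32 * (C1 + C2) * Cm * (L * L * M) + 4 * (C1 + C2) * Cm * (L * L * M) +
      4 * C3 * Cm * (L * L * M) + C4 * (L * L * W) + 2732 * (L * L * M)) +
    ((36 * (C1 + C2) * Cm + 4 * C3 * Cm + 10000) * (L * L * W) +
      (C4 + 7268) * (L * L * M)) := by ring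
  rw [b18]
  exact Nat.le_add_right _ _

end Pool.Agent.H330FB.JH1
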