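import Pool.Agent.H330FB.Lib5
import Pool.Agent.H330FB.Spec2
set_option autoImplicit false
noncomputable section
namespace Pool.Agent.H330FB.JH2
open Polynomial

/-! ### lists and polynomials -/

theorem specTree_coeff_pol {R : Type} [CommRing R] (l : List R) (i : ℕ) :
    (pol l).coeff i = l.getD i 0 := by
  induction l generalizing i with
  | nil => simp [pol]
  | cons x l ih =>
    cases i with
    | zero => simp [pol]
    | succ i => simp [pol, ih, Polynomial.coeff_C_succ]

theorem specTree_degree_pol {R : Type} [CommRing R] (l : List R) :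
    (pol l).degree < (l.length : WithBot ℕ) := by
  rw [Polynomial.degree_lt_iff_coeff_zero]
  intro m hm
  rw [specTree_coeff_pol, List.getD_eq_default _ _ hm]

theorem specTree_natDegree_mpol {R : Type} [CommRing R] [Nontrivial R] (l : List R) :
    (mpol l).natDegree = l.length := by
  rw [mpol]
  refine Polynomial.natDegree_eq_of_degree_eq_some ?_
  rw [Polynomial.degree_add_eq_left_of_degree_lt, Polynomial.degree_X_pow]
  rw [Polynomial.degree_X_pow]
  exact specTree_degree_pol l

theorem specTree_monic_mpol {R : Type} [CommRing R] (l : List R) : (mpol l).Monic :=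
  Polynomial.monic_X_pow_add (specTree_degree_pol l)

theorem specTree_mpol_inj {R : Type} [CommRing R] [Nontrivial R] {l l' : List R}
    (h : mpol l = mpol l') : l = l' := by
  have h1 : l.length = l'.length := by
    rw [← specTree_natDegree_mpol l, ← specTree_natDegree_mpol l', h]
  rw [mpol, mpol, h1, add_right_inj] at h
  refine List.ext_getElem h1 fun i hi hi' => ?_
  have h2 := congrArg (fun p => Polynomial.coeff p i) h
  simp only [specTree_coeff_pol] at h2
  rwa [List.getD_eq_getElem _ _ hi, List.getD_eq_getElem _ _ hi'] at h2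

theorem specTree_length_hd0 {F : Type} [Field F] (l : List (List F)) :
    (hd0 l).length = l.length := by simp [hd0]

theorem specTree_mrp_zero {F : Type} [Field F] (l : List (List F)) :
    mrp (0 : F) l = mpol (hd0 l) := by
  rw [mrp, mpol, specTree_length_hd0, rp, hd0]
  congr 2
  refine List.map_congr_left fun r _ => ?_
  rw [Polynomial.coe_aeval_eq_eval, ← Polynomial.coeff_zero_eq_eval_zero, specTree_coeff_pol]

theorem specTree_eo_perm {α : Type} (l : List α) : ((eo l).1 ++ (eo l).2).Perm l := by
  induction l with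
  | nil => simp [eo]
  | cons x l ih =>
    simp only [eo, List.cons_append]
    exact List.Perm.cons x (List.perm_append_comm.trans ih)

theorem specTree_coprime_prod {R : Type} [CommRing R] (a : R) (l : List R)
    (h : ∀ b ∈ l, IsCoprime a b) : IsCoprime a l.prod := by
  induction l with
  | nil => simpa using isCoprime_one_right
  | cons b l ih =>
    rw [List.prod_cons]
    exact (h b (by simp)).mul_right (ih fun c hc => h c (by simp [hc]))

theorem specTree_coprime_prods {R : Type} [CommRing R] (l m : List R)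
    (h : ∀ a ∈ l, ∀ b ∈ m, IsCoprime a b) : IsCoprime l.prod m.prod := by
  refine (specTree_coprime_prod _ l fun a ha => ?_).symm
  exact (specTree_coprime_prod a m fun b hb => h a ha b hb).symm

/-! ### programs -/

section progs

variable {F : Type} [Field F] [DecidableEq F]

/-- a row of singletons -/
def specTree_sing : Pr [] Po Ma :=
  .comp (.pair .star .id) (mapP (c := .unit) (.comp (.pair .snd .nil) .cons))

theorem val_specTree_sing (x : List F) :
    (specTree_sing.val () x : List (List F)) = x.map (fun y => [y]) := by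
  simp [specTree_sing]

theorem cost_specTree_sing (x : List F) :
    specTree_sing.cost () () x ≤ 20 * (List.length x) + 10 := by
  have h := cost_mapP_le (s := []) (c := .unit) (a := .fld) (b := Po)
    (.comp (.pair .snd .nil) .cons) () () ((), x) 4 (fun y _ => by simp)
  simp only [specTree_sing, cost_comp, cost_pair, cost_star, cost_id, val_pair, val_star,
    val_id] at h ⊢
  omega

/-- head coefficients -/
def specTree_hd : Pr [] Ma Po :=
  .comp (.pair .star .id) (mapP (c := .unit) (onL .snd .zero (.comp .snd .fst)))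

theorem val_specTree_hd (x : List (List F)) :
    (specTree_hd.val () x : List F) = hd0 x := by
  simp only [specTree_hd, val_comp, val_pair, val_star, val_id, val_mapP, hd0]
  refine List.map_congr_left fun r _ => ?_
  cases r <;> simp

theorem cost_specTree_hd (x : List (List F)) :
    specTree_hd.cost () () x ≤ 20 * (List.length x) + 10 := by
  have h := cost_mapP_le (s := []) (F := F) (c := .unit) (a := Po) (b := .fld)
    (onL .snd .zero (.comp .snd .fst)) () () ((), x) 7 (fun y _ => by
      cases (y : List F) <;> simp)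
  simp only [specTree_hd, cost_comp, cost_pair, cost_star, cost_id, val_pair, val_star,
    val_id] at h ⊢
  omega

variable {lab : Ty}

/-- product of the polynomials in a labelled list -/
def specTree_prod (pP : Pr [] (.prod TB (.prod Un (.list Ma))) Ma) :
    Pr [] (.prod TB (.list (.prod lab Po))) Po :=
  .comp (.comp (.pair .fst (.pair (.comp (.pair .star .nil) .cons)
    (.comp (.pair .star .snd) (mapP (c := .unit) (.comp (.comp .snd .snd) specTree_sing)))))
    pP) specTree_hd

theorem val_specTree_prod (pP : Pr [] (.prod TB (.prod Un (.list Ma))) Ma)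
    (tb : List (List F) × List (List F)) (gs : List (Ty.D F lab × List F)) :
    ((specTree_prod pP).val () (tb, gs) : List F) =
      hd0 (pP.val () (tb, (un 1, gs.map (fun g => g.2.map (fun y => [y]))))) := by
  simp only [specTree_prod, val_comp, val_pair, val_star, val_nil, val_cons, val_mapP, val_fst,
    val_snd, val_specTree_hd, val_specTree_sing]
  rfl

theorem cost_specTree_prod (pP : Pr [] (.prod TB (.prod Un (.list Ma))) Ma)
    (tb : List (List F) × List (List F)) (gs : List (Ty.D F lab × List F)) :
    (specTree_prod pP).cost () () (tb, gs) ≤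
      pP.cost () () (tb, (un 1, gs.map (fun g => g.2.map (fun y => [y])))) +
      20 * (gs.map (fun g => g.2.length)).sum + 30 * gs.length + 50 +
      20 * List.length (pP.val () (tb, (un 1, gs.map (fun g => g.2.map (fun y => [y]))))
        : List (List F)) := by
  have h := cost_mapP (s := []) (F := F) (c := .unit) (a := .prod lab Po) (b := Ma)
    (.comp (.comp .snd .snd) specTree_sing) () () ((), gs)
  have h2 := cost_specTree_hd (F := F)
    (pP.val () (tb, (un 1, gs.map (fun g => g.2.map (fun y => [y])))))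
  have h3 : (List.map (fun y : Ty.D F lab × List F => (Pr.comp (.comp .snd .snd) specTree_sing :
      Pr [] (.prod .unit (.prod lab Po)) Ma).cost () () ((), y) + 13) gs).sum ≤
      20 * (gs.map (fun g => g.2.length)).sum + 26 * gs.length := by
    clear h h2
    induction gs with
    | nil => simp
    | cons g t ih =>
      have h4 := cost_specTree_sing (F := F) g.2
      simp only [List.map_cons, List.sum_cons, List.length_cons, cost_comp, cost_snd, val_comp,
        val_snd] at ih ⊢
      omega
  simp only [specTree_prod, val_comp, val_pair, val_star, val_nil, val_cons, val_mapP, val_fst,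
    val_snd, val_specTree_hd, val_specTree_sing, cost_comp, cost_pair, cost_star, cost_nil,
    cost_cons, cost_fst, cost_snd] at h h2 h3 ⊢
  have h5 : (un 1 : List Unit) = [()] := rfl
  rw [h5] at h2 ⊢
  generalize (mapP (s := []) (c := .unit) (a := .prod lab Po)
    ((Pr.snd.comp Pr.snd).comp specTree_sing)).cost () () ((), gs) = X1 at *
  generalize pP.cost () () (tb, [()], List.map (fun g => List.map (fun y => [y]) g.2) gs) = X2 at *
  generalize specTree_hd.cost () ()
    (pP.val () (tb, [()], List.map (fun g => List.map (fun y => [y]) g.2) gs)) = X3 at *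
  generalize (List.map (fun y : Ty.D F lab × List F =>
    1 + 1 + specTree_sing.cost () () y.2 + 13) gs).sum = X4 at *
  omega

/-- type of the inputs -/
abbrev specTree_S (lab : Ty) : Ty :=
  .prod TB (.prod Un (.prod (.list (.prod lab Po)) (.prod Ma (.prod Ma Ma))))
/-- type of the outputs -/
abbrev specTree_T (lab : Ty) : Ty := .list (.prod lab (.prod Ma (.prod Ma Ma)))

/-- the two children of a node -/
def specTree_node (pG : Pr [] (.prod TB (.list (.prod lab Po))) Po)
    (pH : Pr [] (.prod TB (.prod Un (.prod Ma (.prod Po Po)))) (.prod Ma Ma))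
    (pD : Pr [] (.prod TB (.prod Un (.prod Ma Ma))) (.prod Ma Ma)) :
    Pr [] (specTree_S lab) (.prod (specTree_S lab) (specTree_S lab)) :=
  lt (.comp (.comp .snd (.comp .snd .fst)) eoP)
    (lt (.comp (.pair (.comp .fst .fst) (.comp .snd .fst)) pG)
      (lt (.comp (.pair (.comp (.comp .fst .fst) .fst) (.comp (.comp .fst .snd) .snd)) pG)
        (lt (.comp (.pair (.comp (.comp (.comp .fst .fst) .fst) .fst)
            (.pair (.comp (.comp (.comp .fst .fst) .fst) (.comp .snd .fst))
            (.pair (.comp (.comp (.comp .fst .fst) .fst) (.comp .snd (.comp .snd (.comp .snd .fst))))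
            (.pair (.comp .fst .snd) .snd)))) pH)
          (.pair
            (.pair (.comp (.comp (.comp (.comp .fst .fst) .fst) .fst) .fst)
              (.pair (.comp (.comp (.comp (.comp .fst .fst) .fst) .fst) (.comp .snd .fst))
              (.pair (.comp (.comp (.comp (.comp .fst .fst) .fst) .snd) .fst)
              (.pair (.comp .snd .fst)
              (.pair
                (.comp (.comp (.pair (.comp (.comp (.comp (.comp .fst .fst) .fst) .fst) .fst)
                  (.pair (.comp (.comp (.comp (.comp .fst .fst) .fst) .fst) (.comp .snd .fst))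
                  (.pair (.comp (.comp (.comp (.comp .fst .fst) .fst) .fst)
                    (.comp .snd (.comp .snd (.comp .snd (.comp .snd .fst)))))
                  (.comp .snd .fst)))) pD) .snd)
                (.comp (.comp (.pair (.comp (.comp (.comp (.comp .fst .fst) .fst) .fst) .fst)
                  (.pair (.comp (.comp (.comp (.comp .fst .fst) .fst) .fst) (.comp .snd .fst))
                  (.pair (.comp (.comp (.comp (.comp .fst .fst) .fst) .fst)
                    (.comp .snd (.comp .snd (.comp .snd (.comp .snd .snd)))))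
                  (.comp .snd .fst)))) pD) .snd))))))
            (.pair (.comp (.comp (.comp (.comp .fst .fst) .fst) .fst) .fst)
              (.pair (.comp (.comp (.comp (.comp .fst .fst) .fst) .fst) (.comp .snd .fst))
              (.pair (.comp (.comp (.comp (.comp .fst .fst) .fst) .snd) .snd)
              (.pair (.comp .snd .snd)
              (.pair
                (.comp (.comp (.pair (.comp (.comp (.comp (.comp .fst .fst) .fst) .fst) .fst)
                  (.pair (.comp (.comp (.comp (.comp .fst .fst) .fst) .fst) (.comp .snd .fst))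
                  (.pair (.comp (.comp (.comp (.comp .fst .fst) .fst) .fst)
                    (.comp .snd (.comp .snd (.comp .snd (.comp .snd .fst)))))
                  (.comp .snd .snd)))) pD) .snd)
                (.comp (.comp (.pair (.comp (.comp (.comp (.comp .fst .fst) .fst) .fst) .fst)
                  (.pair (.comp (.comp (.comp (.comp .fst .fst) .fst) .fst) (.comp .snd .fst))
                  (.pair (.comp (.comp (.comp (.comp .fst .fst) .fst) .fst)
                    (.comp .snd (.comp .snd (.comp .snd (.comp .snd .snd)))))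
                  (.comp .snd .snd)))) pD) .snd))))))))))

theorem val_specTree_node (pG : Pr [] (.prod TB (.list (.prod lab Po))) Po)
    (pH : Pr [] (.prod TB (.prod Un (.prod Ma (.prod Po Po)))) (.prod Ma Ma))
    (pD : Pr [] (.prod TB (.prod Un (.prod Ma Ma))) (.prod Ma Ma))
    (tb : List (List F) × List (List F)) (us : List Unit) (gs : List (Ty.D F lab × List F))
    (A Y Y' : List (List F)) :
    (specTree_node pG pH pD).val () (tb, (us, (gs, (A, (Y, Y'))))) =
      (let g0 : List F := pG.val () (tb, (eo gs).1)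
       let h0 : List F := pG.val () (tb, (eo gs).2)
       let GH : List (List F) × List (List F) := pH.val () (tb, (us, (A, (g0, h0))))
       ((tb, (us, ((eo gs).1, (GH.1, ((pD.val () (tb, (us, (Y, GH.1)))).2,
          (pD.val () (tb, (us, (Y', GH.1)))).2))))),
        (tb, (us, ((eo gs).2, (GH.2, ((pD.val () (tb, (us, (Y, GH.2)))).2,
          (pD.val () (tb, (us, (Y', GH.2)))).2))))))) := by
  simp only [specTree_node, val_lt, val_comp, val_pair, val_fst, val_snd, val_eoP]

theorem cost_specTree_node (pG : Pr [] (.prod TB (.list (.prod lab Po))) Po)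
    (pH : Pr [] (.prod TB (.prod Un (.prod Ma (.prod Po Po)))) (.prod Ma Ma))
    (pD : Pr [] (.prod TB (.prod Un (.prod Ma Ma))) (.prod Ma Ma))
    (tb : List (List F) × List (List F)) (us : List Unit) (gs : List (Ty.D F lab × List F))
    (A Y Y' : List (List F)) (g0 h0 : List F) (GH : List (List F) × List (List F))
    (hg : g0 = pG.val () (tb, (eo gs).1)) (hh : h0 = pG.val () (tb, (eo gs).2))
    (hGH : GH = pH.val () (tb, (us, (A, (g0, h0))))) :
    (specTree_node pG pH pD).cost () () (tb, (us, (gs, (A, (Y, Y'))))) ≤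
      24 * gs.length + 400 + pG.cost () () (tb, (eo gs).1) + pG.cost () () (tb, (eo gs).2) +
      pH.cost () () (tb, (us, (A, (g0, h0)))) + pD.cost () () (tb, (us, (Y, GH.1))) +
      pD.cost () () (tb, (us, (Y', GH.1))) + pD.cost () () (tb, (us, (Y, GH.2))) +
      pD.cost () () (tb, (us, (Y', GH.2))) := by
  subst hGH hg hh
  have h := cost_eoP (s := []) (F := F) (a := .prod lab Po) () () gs
  simp only [specTree_node, val_lt, val_comp, val_pair, val_fst, val_snd, val_eoP, cost_lt,
    cost_comp, cost_pair, cost_fst, cost_snd] at h ⊢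
  omega

/-- body of the recursion -/
def specTree_body (pN : Pr [] (specTree_S lab) (.prod (specTree_S lab) (specTree_S lab))) :
    Pr [(specTree_S lab, specTree_T lab)] (specTree_S lab) (specTree_T lab) :=
  onL (.comp .snd (.comp .snd .fst)) .nil
    (onL (.comp .snd .snd)
      (.comp (.pair (.pair (.comp .snd (.comp .fst .fst))
        (.comp .fst (.comp .snd (.comp .snd .snd)))) .nil) .cons)
      (lt (.comp (.comp .fst .fst) (.up pN))
        (.comp (.pair (.comp (.comp .snd .fst) .self) (.comp (.comp .snd .snd) .self)) appP)))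

theorem val_specTree_body (pN : Pr [] (specTree_S lab) (.prod (specTree_S lab) (specTree_S lab)))
    (r : Ty.D F (specTree_S lab) → Ty.D F (specTree_T lab))
    (tb : List (List F) × List (List F)) (us : List Unit) (gs : List (Ty.D F lab × List F))
    (B : List (List F) × (List (List F) × List (List F))) :
    (specTree_body pN).val (r, ()) (tb, (us, (gs, B))) =
      lcase gs [] (fun g t => lcase t [(g.1, B)] (fun _ _ =>
        ((r (pN.val () (tb, (us, (gs, B)))).1 : List _) ++
          (r (pN.val () (tb, (us, (gs, B)))).2 : List _) : List _))) := by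
  simp only [specTree_body, val_onL, val_comp, val_pair, val_fst, val_snd, val_nil, val_cons,
    val_lt, val_up, val_self, val_appP]

theorem cost_specTree_body (pN : Pr [] (specTree_S lab) (.prod (specTree_S lab) (specTree_S lab)))
    (r : Ty.D F (specTree_S lab) → Ty.D F (specTree_T lab))
    (k : Ty.D F (specTree_S lab) → ℕ)
    (tb : List (List F) × List (List F)) (us : List Unit) (gs : List (Ty.D F lab × List F))
    (B : List (List F) × (List (List F) × List (List F))) :
    (specTree_body pN).cost (r, ()) (k, ()) (tb, (us, (gs, B))) ≤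
      lcase gs 50 (fun _ t => lcase t 50 (fun _ _ =>
        80 + pN.cost () () (tb, (us, (gs, B))) +
        k (pN.val () (tb, (us, (gs, B)))).1 + k (pN.val () (tb, (us, (gs, B)))).2 +
        20 * List.length (r (pN.val () (tb, (us, (gs, B)))).1))) := by
  rcases gs with _ | ⟨g, _ | ⟨g', t⟩⟩
  · simp [specTree_body]
  · simp [specTree_body]
  · have h := cost_appP (s := [(specTree_S lab, specTree_T lab)]) (F := F)
      (a := .prod lab (.prod Ma (.prod Ma Ma))) (r, ()) (k, ())
      (r (pN.val () (tb, (us, (g :: g' :: t, B)))).1, r (pN.val () (tb, (us, (g :: g' :: t, B)))).2)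
    simp only [specTree_body, cost_onL, val_comp, val_fst, val_snd, cost_comp, cost_fst, cost_snd,
      lcase_cons, cost_lt, cost_up, cost_self, cost_pair, val_up, val_self, val_pair] at h ⊢
    omega

/-- the recursion -/
def specTree_rec (pN : Pr [] (specTree_S lab) (.prod (specTree_S lab) (specTree_S lab))) :
    Pr [] (specTree_S lab) (specTree_T lab) :=
  .comp (.pair (.comp .snd (.comp .snd .fst)) .id) (.recD (specTree_body pN) .nil)

theorem val_specTree_rec (pN : Pr [] (specTree_S lab) (.prod (specTree_S lab) (specTree_S lab)))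
    (tb : List (List F) × List (List F)) (us : List Unit) (gs : List (Ty.D F lab × List F))
    (B : List (List F) × (List (List F) × List (List F))) :
    (specTree_rec pN).val () (tb, (us, (gs, B))) =
      goV (specTree_body pN) .nil () gs.length (tb, (us, (gs, B))) := by
  simp only [specTree_rec, val_comp, val_pair, val_snd, val_fst, val_id, val_recD]

theorem cost_specTree_rec (pN : Pr [] (specTree_S lab) (.prod (specTree_S lab) (specTree_S lab)))
    (tb : List (List F) × List (List F)) (us : List Unit) (gs : List (Ty.D F lab × List F))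
    (B : List (List F) × (List (List F) × List (List F))) :
    (specTree_rec pN).cost () () (tb, (us, (gs, B))) =
      goC (specTree_body pN) .nil () () gs.length (tb, (us, (gs, B))) + 6 := by
  simp only [specTree_rec, val_comp, val_pair, val_snd, val_fst, val_id, cost_recD, cost_comp,
    cost_pair, cost_snd, cost_fst, cost_id]
  omega

end progs

/-! ### correctness -/

section corr

variable {F α : Type} [Field F]

/-- assumptions -/
structure specTree_Hyp (s : ℕ) (gs : List (α × List F)) (A Y Y' : List (List F)) : Prop where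
  ne : gs ≠ []
  pos : ∀ g ∈ gs, 1 ≤ g.2.length
  cop : gs.Pairwise (fun g g' => IsCoprime (mpol g.2) (mpol g'.2))
  prod : (gs.map (fun g => mpol g.2)).prod = mpol (hd0 A)
  shA : Sh s A
  shY : Sh s Y
  shY' : Sh s Y'
  lY : Y.length = A.length
  lY' : Y'.length = A.length

/-- conclusions -/
structure specTree_Out (s : ℕ) (gs : List (α × List F)) (A Y Y' : List (List F))
    (out : List (α × (List (List F) × (List (List F) × List (List F))))) : Prop where
  perm : (out.map (fun o => (o.1, hd0 o.2.1))).Perm gs
  sh : ∀ o ∈ out, Sh s o.2.1 ∧ Sh s o.2.2.1 ∧ Sh s o.2.2.2 ∧ o.2.2.1.length = o.2.1.length ∧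
    o.2.2.2.length = o.2.1.length
  alg : ∀ (R : Type) [CommRing R] [Algebra F R] (τ : R), τ ^ s = 0 →
    (out.map (fun o => mrp τ o.2.1)).prod = mrp τ A ∧
    ∀ o ∈ out, mrp τ o.2.1 ∣ rp τ Y - rp τ o.2.2.1 ∧ mrp τ o.2.1 ∣ rp τ Y' - rp τ o.2.2.2

theorem specTree_deg_prod (gs : List (α × List F)) :
    (gs.map (fun g => mpol g.2)).prod.Monic ∧ (gs.map (fun g => mpol g.2)).prod.natDegree =
      (gs.map (fun g => g.2.length)).sum := by
  induction gs with
  | nil => simp
  | cons g gs ih =>
    simp only [List.map_cons, List.prod_cons, List.sum_cons]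
    refine ⟨(specTree_monic_mpol _).mul ih.1, ?_⟩
    rw [(specTree_monic_mpol g.2).natDegree_mul ih.1, ih.2, specTree_natDegree_mpol]

theorem specTree_len_of_prod {gs : List (α × List F)} {l : List F}
    (h : (gs.map (fun g => mpol g.2)).prod = mpol l) :
    l.length = (gs.map (fun g => g.2.length)).sum := by
  rw [← specTree_natDegree_mpol l, ← h, (specTree_deg_prod gs).2]

theorem specTree_Hyp.length {s : ℕ} {gs : List (α × List F)} {A Y Y' : List (List F)}
    (h : specTree_Hyp s gs A Y Y') : A.length = (gs.map (fun g => g.2.length)).sum := by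
  rw [← specTree_length_hd0, specTree_len_of_prod h.prod]

theorem specTree_le_sum {gs : List (α × List F)} (h : ∀ g ∈ gs, 1 ≤ g.2.length) :
    gs.length ≤ (gs.map (fun g => g.2.length)).sum := by
  induction gs with
  | nil => simp
  | cons g gs ih =>
    have h1 := h g (by simp)
    have h2 := ih fun g hg => h g (by simp [hg])
    simp only [List.map_cons, List.sum_cons, List.length_cons]
    omega

theorem specTree_leaf {s : ℕ} {g : α × List F} {A Y Y' : List (List F)}
    (h : specTree_Hyp s [g] A Y Y') : specTree_Out s [g] A Y Y' [(g.1, (A, (Y, Y')))] := by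
  have h1 : hd0 A = g.2 := by
    have h2 := h.prod
    simp only [List.map_cons, List.map_nil, List.prod_cons, List.prod_nil, mul_one] at h2
    exact (specTree_mpol_inj h2).symm
  refine ⟨?_, ?_, ?_⟩
  · simp [h1]
  · intro o ho
    rw [List.mem_singleton] at ho
    subst ho
    exact ⟨h.shA, h.shY, h.shY', h.lY, h.lY'⟩
  · intro R _ _ τ hτ
    refine ⟨by simp, ?_⟩
    intro o ho
    rw [List.mem_singleton] at ho
    subst ho
    simp

theorem specTree_child {s : ℕ} {gs e o : List (α × List F)} {A Y Y' G YG YG' : List (List F)}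
    (h : specTree_Hyp s gs A Y Y') (hp : (e ++ o).Perm gs) (he : e ≠ [])
    (hG : (e.map (fun g => mpol g.2)).prod = mpol (hd0 G)) (hsG : Sh s G) (hsY : Sh s YG)
    (hsY' : Sh s YG') (hlY : YG.length = G.length) (hlY' : YG'.length = G.length) :
    specTree_Hyp s e G YG YG' := by
  refine ⟨he, fun g hg => h.pos g (hp.mem_iff.1 (by simp [hg])), ?_, hG, hsG, hsY, hsY', hlY,
    hlY'⟩
  have h1 : (e ++ o).Pairwise (fun g g' => IsCoprime (mpol g.2) (mpol g'.2)) :=
    hp.symm.pairwise h.cop fun hh => hh.symm
  exact (List.pairwise_append.1 h1).1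

theorem specTree_join {s : ℕ} {gs e o : List (α × List F)}
    {A Y Y' G YG YG' H YH YH' : List (List F)}
    {outG outH : List (α × (List (List F) × (List (List F) × List (List F))))}
    (hp : (e ++ o).Perm gs)
    (hoG : specTree_Out s e G YG YG' outG) (hoH : specTree_Out s o H YH YH' outH)
    (hA : ∀ (R : Type) [CommRing R] [Algebra F R] (τ : R), τ ^ s = 0 →
      mrp τ G * mrp τ H = mrp τ A)
    (hYG : ∀ (R : Type) [CommRing R] [Algebra F R] (τ : R), τ ^ s = 0 →
      mrp τ G ∣ rp τ Y - rp τ YG)
    (hYG' : ∀ (R : Type) [CommRing R] [Algebra F R] (τ : R), τ ^ s = 0 →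
      mrp τ G ∣ rp τ Y' - rp τ YG')
    (hYH : ∀ (R : Type) [CommRing R] [Algebra F R] (τ : R), τ ^ s = 0 →
      mrp τ H ∣ rp τ Y - rp τ YH)
    (hYH' : ∀ (R : Type) [CommRing R] [Algebra F R] (τ : R), τ ^ s = 0 →
      mrp τ H ∣ rp τ Y' - rp τ YH') :
    specTree_Out s gs A Y Y' (outG ++ outH) := by
  refine ⟨?_, ?_, ?_⟩
  · rw [List.map_append]
    exact (hoG.perm.append hoH.perm).trans hp
  · intro x hx
    rcases List.mem_append.1 hx with hx | hx
    · exact hoG.sh x hx
    · exact hoH.sh x hx
  · intro R _ _ τ hτ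
    obtain ⟨g1, g2⟩ := hoG.alg R τ hτ
    obtain ⟨k1, k2⟩ := hoH.alg R τ hτ
    refine ⟨by rw [List.map_append, List.prod_append, g1, k1, hA R τ hτ], fun x hx => ?_⟩
    rcases List.mem_append.1 hx with hx | hx
    · have hd : mrp τ x.2.1 ∣ mrp τ G := by
        rw [← g1]
        exact List.dvd_prod (List.mem_map.2 ⟨x, hx, rfl⟩)
      obtain ⟨g3, g4⟩ := g2 x hx
      constructor
      · have := dvd_add (hd.trans (hYG R τ hτ)) g3
        rwa [sub_add_sub_cancel] at this
      · have := dvd_add (hd.trans (hYG' R τ hτ)) g4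
        rwa [sub_add_sub_cancel] at this
    · have hd : mrp τ x.2.1 ∣ mrp τ H := by
        rw [← k1]
        exact List.dvd_prod (List.mem_map.2 ⟨x, hx, rfl⟩)
      obtain ⟨g3, g4⟩ := k2 x hx
      constructor
      · have := dvd_add (hd.trans (hYH R τ hτ)) g3
        rwa [sub_add_sub_cancel] at this
      · have := dvd_add (hd.trans (hYH' R τ hτ)) g4
        rwa [sub_add_sub_cancel] at this

end corr

/-! ### cost -/

section cost

theorem specTree_lgc_mono {a b : ℕ} (h : a ≤ b) : lgc a ≤ lgc b :=
  Nat.add_le_add_right (Nat.clog_mono_right 2 h) 1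

theorem specTree_lgc_pos (a : ℕ) : 1 ≤ lgc a := Nat.le_add_left 1 _

theorem specTree_lgc_two (a : ℕ) : lgc (2 * (a + 1)) ≤ 2 * lgc (a + 1) := by
  have h : Nat.clog 2 (2 * (a + 1)) = Nat.clog 2 (a + 1) + 1 := by
    rw [Nat.clog_of_one_lt (by norm_num) (by omega)]
    congr 2
    omega
  unfold lgc
  omega

/-- total cost unit of a node -/
def specTree_W (k1 s M m : ℕ) : ℕ := lgc (s + M) ^ k1 * (mu (2 * (s * m)) + ww (2 * m))

theorem specTree_W_ge (h0 : SpecUnits) {k1 s M m : ℕ} (hm : 1 ≤ m) : m ≤ specTree_W k1 s M m := by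
  obtain ⟨-, -, -, -, -, -, hNN, -⟩ := h0
  have h1 := hNN (2 * m)
  have h2 : m ≤ mu (2 * (s * m)) + ww (2 * m) := by nlinarith
  have h3 : 1 ≤ lgc (s + M) ^ k1 := Nat.one_le_pow _ _ (specTree_lgc_pos _)
  unfold specTree_W
  nlinarith

theorem specTree_W_add (h0 : SpecUnits) (k1 s M m1 m2 : ℕ) :
    specTree_W k1 s M m1 + specTree_W k1 s M m2 ≤ specTree_W k1 s M (m1 + m2) := by
  obtain ⟨-, -, -, hmu, hww, -⟩ := h0
  unfold specTree_W
  rw [← Nat.mul_add]
  refine Nat.mul_le_mul_left _ ?_
  have h1 := hmu (2 * (s * m1)) (2 * (s * m2))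
  have h2 := hww (2 * m1) (2 * m2)
  have h3 : 2 * (s * m1) + 2 * (s * m2) = 2 * (s * (m1 + m2)) := by ring
  have h4 : 2 * m1 + 2 * m2 = 2 * (m1 + m2) := by ring
  rw [h3] at h1
  rw [h4] at h2
  omega

/-- bounds for the pieces -/
theorem specTree_pieces (h0 : SpecUnits) (kP kH : ℕ) : ∃ c : ℕ, ∀ s M m : ℕ, 1 ≤ s → 1 ≤ m →
    m ≤ M →
    (∀ a b, a ≤ 2 * m + 1 → b ≤ 2 * m + 1 →
      lgc a ^ kP * mu b ≤ c * specTree_W (kP + kH + 1) s M m) ∧
    lgc (s + m) ^ kH * (mu (s * m + 1) + ww (m + 1)) ≤ specTree_W (kP + kH + 1) s M m ∧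
    (∀ b, b ≤ 2 * m → lgc (m + 1) * mu (s * b + 1) ≤ c * specTree_W (kP + kH + 1) s M m) := by
  obtain ⟨hmu, hww, -, -, -, -, -, hc, -⟩ := h0
  obtain ⟨C, hC⟩ := hc 2
  refine ⟨2 ^ kP * C, fun s M m hs hm hM => ?_⟩
  have hsm : 1 ≤ s * m := Nat.mul_pos hs hm
  have hmsm : m ≤ s * m := Nat.le_mul_of_pos_left m hs
  have hΛ : 1 ≤ lgc (s + M) := specTree_lgc_pos _
  have hC2 : mu (2 * (2 * (s * m))) ≤ C * mu (2 * (s * m)) := by
    have := hC (2 * (s * m) - 1)
    have e : 2 * (s * m) - 1 + 1 = 2 * (s * m) := by omega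
    rwa [e] at this
  refine ⟨fun a b ha hb => ?_, ?_, fun b hb => ?_⟩
  · have h1 : lgc a ≤ 2 * lgc (s + M) := by
      refine (specTree_lgc_mono (b := 2 * (m + 1)) (by omega)).trans ?_
      refine (specTree_lgc_two m).trans ?_
      exact Nat.mul_le_mul_left _ (specTree_lgc_mono (by omega))
    have h2 : mu b ≤ C * mu (2 * (s * m)) := (hmu _ _ (by omega)).trans hC2
    calc lgc a ^ kP * mu b ≤ (2 * lgc (s + M)) ^ kP * (C * mu (2 * (s * m))) :=
          Nat.mul_le_mul (Nat.pow_le_pow_left h1 _) h2
      _ = (2 ^ kP * C) * (lgc (s + M) ^ kP * mu (2 * (s * m))) := by rw [Nat.mul_pow]; ring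
      _ ≤ (2 ^ kP * C) * specTree_W (kP + kH + 1) s M m := by
          refine Nat.mul_le_mul_left _ ?_
          unfold specTree_W
          exact Nat.mul_le_mul (Nat.pow_le_pow_right hΛ (by omega)) (Nat.le_add_right _ _)
  · unfold specTree_W
    refine Nat.mul_le_mul ?_ (Nat.add_le_add (hmu _ _ (by omega)) (hww _ _ (by omega)))
    exact (Nat.pow_le_pow_left (specTree_lgc_mono (by omega)) _).trans
      (Nat.pow_le_pow_right hΛ (by omega))
  · have h1 : lgc (m + 1) ≤ lgc (s + M) ^ 1 := by
      rw [pow_one]
      exact specTree_lgc_mono (by omega)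
    have h2 : mu (s * b + 1) ≤ C * mu (2 * (s * m)) := by
      refine (hmu _ _ ?_).trans hC2
      have : s * b ≤ s * (2 * m) := Nat.mul_le_mul_left _ hb
      have e : s * (2 * m) = 2 * (s * m) := by ring
      omega
    calc lgc (m + 1) * mu (s * b + 1) ≤ lgc (s + M) ^ 1 * (C * mu (2 * (s * m))) :=
          Nat.mul_le_mul h1 h2
      _ = C * (lgc (s + M) ^ 1 * mu (2 * (s * m))) := by ring
      _ ≤ C * specTree_W (kP + kH + 1) s M m := by
          refine Nat.mul_le_mul_left _ ?_
          unfold specTree_W
          exact Nat.mul_le_mul (Nat.pow_le_pow_right hΛ (by omega)) (Nat.le_add_right _ _)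
      _ ≤ (2 ^ kP * C) * specTree_W (kP + kH + 1) s M m := by
          refine Nat.mul_le_mul_right _ ?_
          exact Nat.le_mul_of_pos_left C (by positivity)

end cost

/-! ### assembly -/

section assembly

variable {F : Type} [Field F] [DecidableEq F] {lab : Ty}

/-- the properties of the product program which are used -/
def specTree_PP (F : Type) [Field F] [DecidableEq F]
    (pP : Pr [] (.prod TB (.prod Un (.list Ma))) Ma) (CP kP : ℕ) : Prop :=
  ∀ (tb : List (List F) × List (List F)) (s : ℕ)
  (l : List (List (List F))), IsTb tb → 1 ≤ s → (∀ A ∈ l, Sh s A) →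
  let r : List (List F) := pP.val () (tb, (un s, l))
  Sh s r ∧ r.length = (l.map List.length).sum ∧
  (∀ (R : Type) [CommRing R] [Algebra F R] (τ : R), τ ^ s = 0 →
    mrp τ r = (l.map (fun A => mrp τ A)).prod) ∧
  pP.cost () () (tb, (un s, l)) ≤
    CP * lgc (s + r.length + l.length) ^ kP * mu (s * r.length + l.length + 1)

theorem specTree_prod_spec {pP : Pr [] (.prod TB (.prod Un (.list Ma))) Ma} {CP kP : ℕ}
    (hP : specTree_PP F pP CP kP) (tb : List (List F) × List (List F)) (htb : IsTb tb)
    (gs : List (Ty.D F lab × List F)) (hpos : ∀ g ∈ gs, 1 ≤ g.2.length) :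
    mpol ((specTree_prod (lab := lab) pP).val () (tb, gs) : List F) =
      (gs.map (fun g => mpol g.2)).prod ∧
    ∀ m, (gs.map (fun g => g.2.length)).sum ≤ m → 1 ≤ m →
      ∃ a b, a ≤ 2 * m + 1 ∧ b ≤ 2 * m + 1 ∧
      (specTree_prod (lab := lab) pP).cost () () (tb, gs) ≤ CP * (lgc a ^ kP * mu b) + 120 * m := by
  obtain ⟨h1, h2, h3, h4⟩ := hP tb 1 (gs.map (fun g => g.2.map (fun y => [y]))) htb le_rfl (by
    intro A hA
    obtain ⟨g, -, rfl⟩ := List.mem_map.1 hA
    intro r hr
    obtain ⟨y, -, rfl⟩ := List.mem_map.1 hr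
    rfl)
  have h5 : (List.map List.length (gs.map (fun g => g.2.map (fun y => [y])))).sum =
      (gs.map (fun g => g.2.length)).sum := by
    rw [List.map_map]
    congr 1
    refine List.map_congr_left fun g _ => ?_
    simp
  constructor
  · rw [val_specTree_prod, ← specTree_mrp_zero, h3 F 0 (by simp), List.map_map]
    congr 1
    refine List.map_congr_left fun g _ => ?_
    simp only [Function.comp_apply]
    rw [specTree_mrp_zero]
    congr 1
    rw [hd0, List.map_map]
    exact List.map_id _
  · intro m hm hm1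
    have h6 := specTree_le_sum hpos
    have h7 := cost_specTree_prod pP tb gs
    rw [h5] at h2
    rw [List.length_map] at h4
    rw [h2, mul_assoc] at h4
    refine ⟨1 + (gs.map (fun g => g.2.length)).sum + gs.length,
      1 * (gs.map (fun g => g.2.length)).sum + gs.length + 1, by omega, by omega, ?_⟩
    clear h1 h3
    generalize List.length (pP.val () (tb, un 1, List.map (fun g => List.map (fun y => [y]) g.2) gs)
      : List (List F)) = Z at *
    generalize pP.cost () () (tb, un 1, List.map (fun g => List.map (fun y => [y]) g.2) gs) = X at *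
    generalize (lgc (1 + (List.map (fun g => g.2.length) gs).sum + gs.length) ^ kP *
      mu (1 * (List.map (fun g => g.2.length) gs).sum + gs.length + 1)) = V at *
    omega

/-- the properties of the lifting program which are used -/
def specTree_PH (F : Type) [Field F] [DecidableEq F]
    (pH : Pr [] (.prod TB (.prod Un (.prod Ma (.prod Po Po)))) (.prod Ma Ma)) (CH kH : ℕ) : Prop :=
  ∀ (tb : List (List F) × List (List F)) (s : ℕ)
  (A : List (List F)) (g0 h0 : List F), IsTb tb → 1 ≤ s → Sh s A →
  A.length = g0.length + h0.length → IsCoprime (mpol g0) (mpol h0) →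
  mpol (hd0 A) = mpol g0 * mpol h0 →
  let r : List (List F) × List (List F) := pH.val () (tb, (un s, (A, (g0, h0))))
  Sh s r.1 ∧ Sh s r.2 ∧ hd0 r.1 = g0 ∧ hd0 r.2 = h0 ∧
  (∀ (R : Type) [CommRing R] [Algebra F R] (τ : R), τ ^ s = 0 →
    mrp τ r.1 * mrp τ r.2 = mrp τ A) ∧
  pH.cost () () (tb, (un s, (A, (g0, h0)))) ≤
    CH * lgc (s + A.length) ^ kH * (mu (s * A.length + 1) + ww (A.length + 1))

/-- the properties of the division program which are used -/
def specTree_PD (F : Type) [Field F] [DecidableEq F]
    (pD : Pr [] (.prod TB (.prod Un (.prod Ma Ma))) (.prod Ma Ma)) (CD : ℕ) : Prop :=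
  ∀ (tb : List (List F) × List (List F)) (s : ℕ)
  (P G : List (List F)), IsTb tb → 1 ≤ s → Sh s P → Sh s G →
  let r : List (List F) × List (List F) := pD.val () (tb, (un s, (P, G)))
  Sh s r.1 ∧ r.1.length = P.length - G.length ∧ Sh s r.2 ∧ r.2.length = G.length ∧
  (∀ (R : Type) [CommRing R] [Algebra F R] (τ : R), τ ^ s = 0 →
    rp τ P = rp τ r.1 * mrp τ G + rp τ r.2) ∧
  pD.cost () () (tb, (un s, (P, G))) ≤
    CD * lgc (P.length + 1) * mu (s * (P.length + G.length) + 1)

theorem specTree_step (h0 : SpecUnits) (kP kH CP CH CD : ℕ) : ∃ K : ℕ,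
    ∀ (F : Type) [Field F] [DecidableEq F]
    (pP : Pr [] (.prod TB (.prod Un (.list Ma))) Ma)
    (pH : Pr [] (.prod TB (.prod Un (.prod Ma (.prod Po Po)))) (.prod Ma Ma))
    (pD : Pr [] (.prod TB (.prod Un (.prod Ma Ma))) (.prod Ma Ma)),
    specTree_PP F pP CP kP → specTree_PH F pH CH kH → specTree_PD F pD CD →
    ∀ (tb : List (List F) × List (List F)) (s : ℕ), IsTb tb → 1 ≤ s →
    ∀ (gs : List (Ty.D F lab × List F)) (A Y Y' : List (List F)), 2 ≤ gs.length →
    specTree_Hyp s gs A Y Y' →
    ∃ G YG YG' H YH YH' : List (List F),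
      (specTree_node (specTree_prod pP) pH pD).val () (tb, (un s, (gs, (A, (Y, Y'))))) =
        ((tb, (un s, ((eo gs).1, (G, (YG, YG'))))), (tb, (un s, ((eo gs).2, (H, (YH, YH')))))) ∧
      specTree_Hyp s (eo gs).1 G YG YG' ∧ specTree_Hyp s (eo gs).2 H YH YH' ∧
      G.length + H.length = A.length ∧
      (∀ outG outH, specTree_Out s (eo gs).1 G YG YG' outG →
        specTree_Out s (eo gs).2 H YH YH' outH → specTree_Out s gs A Y Y' (outG ++ outH)) ∧
      ∀ M, A.length ≤ M →
        (specTree_node (specTree_prod pP) pH pD).cost () () (tb, (un s, (gs, (A, (Y, Y'))))) ≤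
          K * specTree_W (kP + kH + 1) s M A.length := by
  obtain ⟨c, hc⟩ := specTree_pieces h0 kP kH
  refine ⟨2 * (CP * c) + CH + 4 * (CD * c) + 1000, ?_⟩
  intro F _ _ pP pH pD hP hH hD tb s htb hs gs A Y Y' hgs hyp
  have hperm := specTree_eo_perm gs
  have hlen := length_eo gs
  have hpe : ∀ g ∈ (eo gs).1, 1 ≤ g.2.length := fun g hg =>
    hyp.pos g (hperm.mem_iff.1 (List.mem_append_left _ hg))
  have hpo : ∀ g ∈ (eo gs).2, 1 ≤ g.2.length := fun g hg =>
    hyp.pos g (hperm.mem_iff.1 (List.mem_append_right _ hg))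
  obtain ⟨hg1, hg2⟩ := specTree_prod_spec (lab := lab) hP tb htb (eo gs).1 hpe
  obtain ⟨hh1, hh2⟩ := specTree_prod_spec (lab := lab) hP tb htb (eo gs).2 hpo
  obtain ⟨g0, hg0⟩ : ∃ g0 : List F, g0 = (specTree_prod (lab := lab) pP).val () (tb, (eo gs).1) :=
    ⟨_, rfl⟩
  obtain ⟨k0, hk0⟩ : ∃ k0 : List F, k0 = (specTree_prod (lab := lab) pP).val () (tb, (eo gs).2) :=
    ⟨_, rfl⟩
  rw [← hg0] at hg1
  rw [← hk0] at hh1
  obtain ⟨GH, hGH⟩ : ∃ GH : List (List F) × List (List F),
    GH = pH.val () (tb, (un s, (A, (g0, k0)))) := ⟨_, rfl⟩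
  have hlg := specTree_len_of_prod hg1.symm
  have hlk := specTree_len_of_prod hh1.symm
  have hsum : (gs.map (fun g => g.2.length)).sum =
      ((eo gs).1.map (fun g => g.2.length)).sum + ((eo gs).2.map (fun g => g.2.length)).sum := by
    rw [← List.sum_append, ← List.map_append]
    exact ((hperm.map _).sum_eq).symm
  have hA := hyp.length
  have hprod : (gs.map (fun g => mpol g.2)).prod =
      ((eo gs).1.map (fun g => mpol g.2)).prod * ((eo gs).2.map (fun g => mpol g.2)).prod := by
    rw [← List.prod_append, ← List.map_append]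
    exact ((hperm.map _).prod_eq).symm
  have hcop : IsCoprime (mpol g0) (mpol k0) := by
    rw [hg1, hh1]
    have h1 : ((eo gs).1 ++ (eo gs).2).Pairwise (fun g g' => IsCoprime (mpol g.2) (mpol g'.2)) :=
      hperm.symm.pairwise hyp.cop fun hh => hh.symm
    refine specTree_coprime_prods _ _ ?_
    intro a ha b hb
    obtain ⟨x, hx, rfl⟩ := List.mem_map.1 ha
    obtain ⟨y, hy, rfl⟩ := List.mem_map.1 hb
    exact (List.pairwise_append.1 h1).2.2 x hx y hy
  obtain ⟨k1, k2, k3, k4, k5, k6⟩ := hH tb s A g0 k0 htb hs hyp.shA (by omega) hcop (by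
    rw [← hyp.prod, hprod, hg1, hh1])
  rw [← hGH] at k1 k2 k3 k4 k5
  have hlG : GH.1.length = g0.length := by rw [← k3, specTree_length_hd0]
  have hlH : GH.2.length = k0.length := by rw [← k4, specTree_length_hd0]
  obtain ⟨-, -, a3, a4, a5, a6⟩ := hD tb s Y GH.1 htb hs hyp.shY k1
  obtain ⟨-, -, b3, b4, b5, b6⟩ := hD tb s Y' GH.1 htb hs hyp.shY' k1
  obtain ⟨-, -, c3, c4, c5, c6⟩ := hD tb s Y GH.2 htb hs hyp.shY k2
  obtain ⟨-, -, d3, d4, d5, d6⟩ := hD tb s Y' GH.2 htb hs hyp.shY' k2
  refine ⟨GH.1, (pD.val () (tb, (un s, (Y, GH.1)))).2, (pD.val () (tb, (un s, (Y', GH.1)))).2,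
    GH.2, (pD.val () (tb, (un s, (Y, GH.2)))).2, (pD.val () (tb, (un s, (Y', GH.2)))).2,
    ?_, ?_, ?_, ?_, ?_, ?_⟩
  · rw [val_specTree_node]
    simp only [← hg0, ← hk0, ← hGH]
  · refine specTree_child hyp hperm ?_ ?_ k1 a3 b3 a4 b4
    · intro h
      rw [h] at hlen
      simp at hlen
      omega
    · rw [k3, hg1]
  · refine specTree_child hyp (List.perm_append_comm.trans hperm) ?_ ?_ k2 c3 d3 c4 d4
    · intro h
      rw [h] at hlen
      simp at hlen
      omega
    · rw [k4, hh1]
  · omega
  · intro outG outH hoG hoH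
    refine specTree_join hperm hoG hoH k5 ?_ ?_ ?_ ?_
    · intro R _ _ τ hτ
      exact ⟨_, by rw [a5 R τ hτ]; ring⟩
    · intro R _ _ τ hτ
      exact ⟨_, by rw [b5 R τ hτ]; ring⟩
    · intro R _ _ τ hτ
      exact ⟨_, by rw [c5 R τ hτ]; ring⟩
    · intro R _ _ τ hτ
      exact ⟨_, by rw [d5 R τ hτ]; ring⟩
  · intro M hM
    have hm1 : 1 ≤ A.length := by
      have := specTree_le_sum hyp.pos
      omega
    have hle := specTree_le_sum hyp.pos
    obtain ⟨e1, e2, e3⟩ := hc s M A.length hs hm1 hM
    have hW := specTree_W_ge (k1 := kP + kH + 1) (s := s) (M := M) h0 hm1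
    have hcost := cost_specTree_node (specTree_prod pP) pH pD tb (un s) gs A Y Y' g0 k0 GH hg0
      hk0 hGH
    obtain ⟨x1, x2, hx1, hx2, hx3⟩ := hg2 A.length (by omega) hm1
    obtain ⟨y1, y2, hy1, hy2, hy3⟩ := hh2 A.length (by omega) hm1
    have u1 := e1 x1 x2 hx1 hx2
    have u2 := e1 y1 y2 hy1 hy2
    rw [mul_assoc] at k6 a6 b6 c6 d6
    rw [hyp.lY] at a6 c6
    rw [hyp.lY'] at b6 d6
    have v1 := e3 (A.length + GH.1.length) (by omega)
    have v2 := e3 (A.length + GH.2.length) (by omega)
    generalize hWW : specTree_W (kP + kH + 1) s M A.length = W at *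
    have w1 : CP * (lgc x1 ^ kP * mu x2) ≤ CP * (c * W) := Nat.mul_le_mul_left _ u1
    have w2 : CP * (lgc y1 ^ kP * mu y2) ≤ CP * (c * W) := Nat.mul_le_mul_left _ u2
    have w3 := Nat.mul_le_mul_left CH e2
    have w4 := Nat.mul_le_mul_left CD v1
    have w5 := Nat.mul_le_mul_left CD v2
    have w6 : (2 * (CP * c) + CH + 4 * (CD * c) + 1000) * W =
      2 * (CP * (c * W)) + CH * W + 4 * (CD * (c * W)) + 1000 * W := by ring
    rw [w6]
    omega

theorem specTree_ind (h0 : SpecUnits) (kP kH CP CH CD : ℕ) : ∃ K : ℕ,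
    ∀ (F : Type) [Field F] [DecidableEq F]
    (pP : Pr [] (.prod TB (.prod Un (.list Ma))) Ma)
    (pH : Pr [] (.prod TB (.prod Un (.prod Ma (.prod Po Po)))) (.prod Ma Ma))
    (pD : Pr [] (.prod TB (.prod Un (.prod Ma Ma))) (.prod Ma Ma)),
    specTree_PP F pP CP kP → specTree_PH F pH CH kH → specTree_PD F pD CD →
    ∀ (tb : List (List F) × List (List F)) (s : ℕ), IsTb tb → 1 ≤ s →
    ∀ (n : ℕ) (gs : List (Ty.D F lab × List F)) (A Y Y' : List (List F)), gs.length ≤ n →
    specTree_Hyp s gs A Y Y' →
    specTree_Out s gs A Y Y' (goV (specTree_body (specTree_node (specTree_prod pP) pH pD)) .nil ()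
      n (tb, (un s, (gs, (A, (Y, Y'))))) :
        List (Ty.D F lab × (List (List F) × (List (List F) × List (List F))))) ∧
    ∀ L, gs.length ≤ 2 ^ L → ∀ M, A.length ≤ M →
      goC (specTree_body (specTree_node (specTree_prod pP) pH pD)) .nil () () n
        (tb, (un s, (gs, (A, (Y, Y'))))) ≤
        (L + 1) * (K * specTree_W (kP + kH + 1) s M A.length) := by
  obtain ⟨K, hK⟩ := specTree_step (lab := lab) h0 kP kH CP CH CD
  refine ⟨K + 200, ?_⟩
  intro F _ _ pP pH pD hP hH hD tb s htb hs n
  have hK' := hK F pP pH pD hP hH hD tb s htb hs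
  induction n with
  | zero =>
    intro gs A Y Y' hn hyp
    exact absurd (List.length_eq_zero_iff.1 (Nat.le_zero.1 hn)) hyp.ne
  | succ n ih =>
    intro gs A Y Y' hn hyp
    have hm1 : 1 ≤ A.length := by
      have h1 := specTree_le_sum hyp.pos
      have h2 := hyp.length
      have h3 := List.length_pos_iff.2 hyp.ne
      omega
    rcases gs with _ | ⟨g, _ | ⟨g', t⟩⟩
    · exact absurd rfl hyp.ne
    · constructor
      · simp only [goV]
        rw [val_specTree_body]
        exact specTree_leaf hyp
      · intro L hL M hM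
        simp only [goC]
        refine (cost_specTree_body _ _ _ _ _ _ _).trans ?_
        simp only [lcase_cons, lcase_nil]
        have hW := specTree_W_ge (k1 := kP + kH + 1) (s := s) (M := M) h0 hm1
        have h1 : 50 ≤ (K + 200) * specTree_W (kP + kH + 1) s M A.length := by nlinarith
        nlinarith
    · obtain ⟨G, YG, YG', H, YH, YH', q1, q2, q3, q4, q5, q6⟩ :=
        hK' (g :: g' :: t) A Y Y' (by simp) hyp
      have hlen := length_eo (g :: g' :: t)
      obtain ⟨r1, r2⟩ := ih (eo (g :: g' :: t)).1 G YG YG' (by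
        rw [hlen.1]
        simp only [List.length_cons] at hn ⊢
        omega) q2
      obtain ⟨r3, r4⟩ := ih (eo (g :: g' :: t)).2 H YH YH' (by
        rw [hlen.2]
        simp only [List.length_cons] at hn ⊢
        omega) q3
      constructor
      · simp only [goV]
        rw [val_specTree_body]
        simp only [lcase_cons]
        rw [q1]
        exact q5 _ _ r1 r3
      · intro L hL M hM
        simp only [goC]
        refine (cost_specTree_body _ _ _ _ _ _ _).trans ?_
        simp only [lcase_cons]
        rw [q1]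
        dsimp only
        have q7 := q6 M hM
        obtain ⟨L', rfl⟩ : ∃ L', L = L' + 1 := by
          cases L with
          | zero =>
            simp only [List.length_cons, pow_zero] at hL
            omega
          | succ L' => exact ⟨L', rfl⟩
        have r5 := r2 L' (by
          rw [hlen.1, pow_succ] at *
          omega) M (by omega)
        have r6 := r4 L' (by
          rw [hlen.2, pow_succ] at *
          omega) M (by omega)
        have hWa := specTree_W_add h0 (kP + kH + 1) s M G.length H.length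
        rw [q4] at hWa
        have hW := specTree_W_ge (k1 := kP + kH + 1) (s := s) (M := M) h0 hm1
        have hout : List.length (goV (specTree_body (specTree_node (specTree_prod pP) pH pD)) .nil ()
            n (tb, (un s, ((eo (g :: g' :: t)).1, (G, (YG, YG'))))) :
            List (Ty.D F lab × (List (List F) × (List (List F) × List (List F))))) ≤ A.length := by
          have e1 := r1.perm.length_eq
          rw [List.length_map] at e1
          rw [e1]
          have e2 := specTree_le_sum q2.pos
          have e3 := q2.length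
          omega
        generalize specTree_W (kP + kH + 1) s M A.length = W at *
        generalize specTree_W (kP + kH + 1) s M G.length = W1 at *
        generalize specTree_W (kP + kH + 1) s M H.length = W2 at *
        have r7 : (L' + 1) * ((K + 200) * W1) + (L' + 1) * ((K + 200) * W2) ≤
            (L' + 1) * ((K + 200) * W) := by
          rw [← Nat.mul_add, ← Nat.mul_add]
          exact Nat.mul_le_mul_left _ (Nat.mul_le_mul_left _ hWa)
        have r8 : (L' + 1 + 1) * ((K + 200) * W) = (L' + 1) * ((K + 200) * W) + K * W + 200 * W := by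
          ring
        rw [r8]
        omega

end assembly

theorem specTree (h1 : SpecHStep) (h2 : SpecDivR) (h3 : SpecMul) (h4 : SpecProd) (h0 : SpecUnits) : SpecTree := by
  intro lab
  obtain ⟨pH, CH, kH, hH⟩ := h1
  obtain ⟨pD, CD, hD⟩ := h2
  obtain ⟨pP, CP, kP, hP⟩ := h4
  obtain ⟨K, hK⟩ := specTree_ind (lab := lab) h0 kP kH CP CH CD
  have h0' := h0
  obtain ⟨-, -, -, -, -, -, -, hcmu, hcww, -⟩ := h0'
  obtain ⟨C1, hC1⟩ := hcmu 2
  obtain ⟨C2, hC2⟩ := hcww 2
  refine ⟨specTree_rec (specTree_node (specTree_prod pP) pH pD), K * (C1 + C2) + 6,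
    kP + kH + 1 + 1, ?_⟩
  intro F _ _ tb s gs A Y Y' htb hs hne hpos hcop hprod hsA hsY hsY' hlY hlY'
  have hyp : specTree_Hyp s gs A Y Y' := ⟨hne, hpos, hcop, hprod, hsA, hsY, hsY', hlY, hlY'⟩
  obtain ⟨r1, r2⟩ := hK F pP pH pD (hP F) (hH F) (hD F) tb s htb hs gs.length gs A Y Y' le_rfl hyp
  intro out
  have hout : out = (goV (specTree_body (specTree_node (specTree_prod pP) pH pD)) .nil ()
      gs.length (tb, (un s, (gs, (A, (Y, Y'))))) :
        List (Ty.D F lab × (List (List F) × (List (List F) × List (List F))))) :=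
    val_specTree_rec _ _ _ _ _
  rw [← hout] at r1
  refine ⟨r1.perm, r1.sh, r1.alg, ?_⟩
  rw [cost_specTree_rec]
  have r3 := r2 (Nat.clog 2 gs.length) (Nat.le_pow_clog (by norm_num) _) A.length le_rfl
  have hle : gs.length ≤ A.length := by
    have e1 := specTree_le_sum hyp.pos
    have e2 := hyp.length
    omega
  have hL : Nat.clog 2 gs.length + 1 ≤ lgc (s + A.length) := specTree_lgc_mono (a := gs.length)
    (by omega)
  have hf : specTree_W (kP + kH + 1) s A.length A.length ≤ lgc (s + A.length) ^ (kP + kH + 1) *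
      ((C1 + C2) * (mu (s * A.length + 1) + ww (A.length + 1))) := by
    unfold specTree_W
    refine Nat.mul_le_mul_left _ ?_
    have e1 := hC1 (s * A.length)
    have e2 := hC2 A.length
    obtain ⟨hmu, hww, -⟩ := h0
    have e3 := hmu (2 * (s * A.length)) (2 * (s * A.length + 1)) (by omega)
    have e4 := hww (2 * A.length) (2 * (A.length + 1)) (by omega)
    nlinarith [Nat.zero_le (C1 * ww (A.length + 1)), Nat.zero_le (C2 * mu (s * A.length + 1))]
  have hΛ := specTree_lgc_pos (s + A.length)
  generalize hΛΛ : lgc (s + A.length) = Λ at *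
  have hU : 1 ≤ mu (s * A.length + 1) + ww (A.length + 1) := by
    obtain ⟨-, -, -, -, -, hN, -⟩ := h0
    have := hN (s * A.length + 1)
    omega
  generalize mu (s * A.length + 1) + ww (A.length + 1) = U at *
  calc goC (specTree_body (specTree_node (specTree_prod pP) pH pD)) .nil () () gs.length
        (tb, (un s, (gs, (A, (Y, Y'))))) + 6
      ≤ (Nat.clog 2 gs.length + 1) * (K * specTree_W (kP + kH + 1) s A.length A.length) + 6 :=
        Nat.add_le_add_right r3 _
    _ ≤ Λ * (K * (Λ ^ (kP + kH + 1) * ((C1 + C2) * U))) + 6 := by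
        refine Nat.add_le_add_right ?_ _
        exact Nat.mul_le_mul hL (Nat.mul_le_mul_left _ hf)
    _ = (K * (C1 + C2)) * (Λ ^ (kP + kH + 1 + 1) * U) + 6 := by ring
    _ ≤ (K * (C1 + C2)) * (Λ ^ (kP + kH + 1 + 1) * U) + 6 * (Λ ^ (kP + kH + 1 + 1) * U) := by
        have h5 : 1 ≤ Λ ^ (kP + kH + 1 + 1) * U :=
          Nat.mul_pos (Nat.pow_pos hΛ) hU
        omega
    _ = (K * (C1 + C2) + 6) * Λ ^ (kP + kH + 1 + 1) * U := by ring

end Pool.Agent.H330FB.JH2
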