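import Pool.Agent.H330FB.Lib5
import Pool.Agent.H330FB.Spec2
set_option autoImplicit false
noncomputable section
namespace Pool.Agent.H330FB.JH3
open Polynomial

namespace PT

variable {s : List (Ty × Ty)}

/-! ### values of polynomials -/

theorem coeff_pol {R : Type} [CommRing R] (l : List R) (i : ℕ) :
    (pol l).coeff i = l.getD i 0 := by
  induction l generalizing i with
  | nil => simp [pol]
  | cons x l ih =>
    cases i with
    | zero => simp [pol]
    | succ i => simp [pol, ih]

theorem pol_append {R : Type} [CommRing R] (l m : List R) :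
    pol (l ++ m) = pol l + X ^ l.length * pol m := by
  induction l with
  | nil => simp [pol]
  | cons x l ih => simp [pol, ih, pow_succ]; ring

theorem degree_pol_lt {R : Type} [CommRing R] (l : List R) : (pol l).degree < l.length := by
  rw [degree_lt_iff_coeff_zero]
  intro m hm
  rw [coeff_pol]
  exact List.getD_eq_default _ _ hm

theorem rp_append {F R : Type} [Field F] [CommRing R] [Algebra F R] (τ : R)
    (l m : List (List F)) : rp τ (l ++ m) = rp τ l + X ^ l.length * rp τ m := by
  simp [rp, pol_append]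

theorem mrp_monic {F R : Type} [Field F] [CommRing R] [Algebra F R] (τ : R)
    (l : List (List F)) : (mrp τ l).Monic := by
  have := degree_pol_lt (l.map (fun r => aeval τ (pol r)))
  rw [List.length_map] at this
  exact monic_X_pow_add this

theorem mrp_natDegree {F R : Type} [Field F] [CommRing R] [Nontrivial R] [Algebra F R] (τ : R)
    (l : List (List F)) : (mrp τ l).natDegree = l.length := by
  have := degree_pol_lt (l.map (fun r => aeval τ (pol r)))
  rw [List.length_map] at this
  unfold mrp rp
  rw [add_comm, natDegree_add_eq_right_of_degree_lt (by rwa [degree_X_pow]), natDegree_X_pow]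

theorem fit_nil_pol {F : Type} [Field F] (n : ℕ) : pol (fit n (0 : F) []) = 0 := by
  induction n with
  | zero => simp [fit, pol]
  | succ n ih => simp [fit, pol, ih]

/-- the row of the number one -/
theorem pol_row1 {F : Type} [Field F] (s : ℕ) (hs : 1 ≤ s) : pol (fit s (0 : F) [1]) = 1 := by
  obtain ⟨n, rfl⟩ := Nat.exists_eq_add_of_le' hs
  simp [fit, pol, fit_nil_pol]

theorem rp_app_row1 {F R : Type} [Field F] [CommRing R] [Algebra F R] (τ : R) (s : ℕ)
    (hs : 1 ≤ s) (l : List (List F)) : rp τ (l ++ [fit s (0 : F) [1]]) = mrp τ l := by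
  rw [rp_append, mrp]
  have : rp τ [fit s (0 : F) [1]] = 1 := by
    simp [rp, pol, pol_row1 s hs]
  rw [this, mul_one, add_comm]

theorem fit_eq_take {α : Type} (n : ℕ) (z : α) (l : List α) (h : n ≤ l.length) :
    fit n z l = l.take n := by
  induction n generalizing l with
  | zero => simp [fit]
  | succ n ih =>
    cases l with
    | nil => simp at h
    | cons x l => simp [fit, ih l (by simpa using h)]

theorem mrp_fit {F R : Type} [Field F] [CommRing R] [Algebra F R] (τ : R)
    (A B P : List (List F)) (hP : P.length = A.length + 1 + (B.length + 1))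
    (h : rp τ P = mrp τ A * mrp τ B) :
    mrp τ (fit (A.length + B.length) [] P) = mrp τ A * mrp τ B := by
  rcases subsingleton_or_nontrivial R with hR | hR
  · exact Subsingleton.elim _ _
  rw [fit_eq_take _ _ _ (by omega)]
  have hm : (mrp τ A * mrp τ B).Monic := (mrp_monic τ A).mul (mrp_monic τ B)
  have hd : (mrp τ A * mrp τ B).natDegree = A.length + B.length := by
    rw [(mrp_monic τ A).natDegree_mul (mrp_monic τ B), mrp_natDegree, mrp_natDegree]
  have hcoef : ∀ i, (rp τ P).coeff i = (P.map (fun r => aeval τ (pol r))).getD i 0 := fun i =>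
    coeff_pol _ _
  have hlen : (P.take (A.length + B.length)).length = A.length + B.length := by
    rw [List.length_take]; omega
  ext i
  unfold mrp
  rw [coeff_add, hlen, coeff_X_pow]
  have h2 : (rp τ (P.take (A.length + B.length))).coeff i =
      if i < A.length + B.length then (rp τ P).coeff i else 0 := by
    rw [hcoef, rp, coeff_pol, List.map_take, List.getD_eq_getElem?_getD, List.getD_eq_getElem?_getD,
      List.getElem?_take]
    split_ifs <;> simp
  rw [h2]
  rw [h]
  change _ = (mrp τ A * mrp τ B).coeff i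
  rcases lt_trichotomy i (A.length + B.length) with hi | hi | hi
  · rw [if_pos hi, if_neg (by omega), zero_add]
  · subst hi
    rw [if_pos rfl, if_neg (lt_irrefl _), add_zero]
    have := hm.coeff_natDegree
    rw [hd] at this
    exact this.symm
  · rw [if_neg (by omega), if_neg (by omega), add_zero]
    exact (coeff_eq_zero_of_natDegree_lt (by omega)).symm

/-! ### even and odd positions -/

theorem eo_perm {α : Type} (l : List α) : ((eo l).1 ++ (eo l).2).Perm l := by
  induction l with
  | nil => simp [eo]
  | cons x l ih =>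
    simp only [eo, List.cons_append, List.perm_cons]
    exact List.perm_append_comm.trans ih

/-! ### the combination of two products -/

/-- the row of one; input `s` -/
def row1P : Pr s Un Po :=
  .comp (.pair .id (.pair .zero (.comp (.pair .one .nil) .cons))) fitP

theorem val_row1P {F : Type} [Field F] [DecidableEq F] (v : SV F s) (n : ℕ) :
    (row1P : Pr s Un Po).val v (un n) = fit n (0 : F) [1] := by
  simp [row1P, un]

theorem cost_row1P {F : Type} [Field F] [DecidableEq F] (v : SV F s) (k : SC F s) (n : ℕ) :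
    (row1P : Pr s Un Po).cost v k (un n) ≤ 20 * n + 20 := by
  have h := cost_fitP (s := s) (a := .fld) (b := .unit) v k (un n, ((0 : F), [(1 : F)]))
  simp [row1P, un] at h ⊢
  omega

/-- the two factors are not empty; input `((table, s), (A, B))` -/
def mainP (p : Pr [] (.prod TB (.prod Un (.prod Ma Ma))) Ma) :
    Pr s (.prod (.prod TB Un) (.prod Ma Ma)) Ma :=
  .comp (.pair (.comp .snd appP) (.pair .nil
    (lt (.comp (.comp .fst .snd) (.comp (.pair row1P .nil) .cons))
      (.comp (.pair (.comp .fst (.comp .fst .fst)) (.pair (.comp .fst (.comp .fst .snd))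
        (.pair (.comp (.pair (.comp .fst (.comp .snd .fst)) .snd) appP)
          (.comp (.pair (.comp .fst (.comp .snd .snd)) .snd) appP)))) (liftP s p))))) fitP

theorem val_mainP {F : Type} [Field F] [DecidableEq F]
    (p : Pr [] (.prod TB (.prod Un (.prod Ma Ma))) Ma) (v : SV F s)
    (tb : List (List F) × List (List F)) (n : ℕ) (A B : List (List F)) :
    (mainP p : Pr s (.prod (.prod TB Un) (.prod Ma Ma)) Ma).val v ((tb, un n), (A, B)) =
      fit (A.length + B.length) [] (p.val ()
        (tb, (un n, (A ++ [fit n (0 : F) [1]], B ++ [fit n (0 : F) [1]]))) : List (List F)) := by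
  simp [mainP, val_row1P]

theorem cost_mainP {F : Type} [Field F] [DecidableEq F]
    (p : Pr [] (.prod TB (.prod Un (.prod Ma Ma))) Ma) (v : SV F s) (k : SC F s)
    (tb : List (List F) × List (List F)) (n : ℕ) (A B : List (List F)) :
    (mainP p : Pr s (.prod (.prod TB Un) (.prod Ma Ma)) Ma).cost v k ((tb, un n), (A, B)) ≤
      p.cost () () (tb, (un n, (A ++ [fit n (0 : F) [1]], B ++ [fit n (0 : F) [1]]))) +
      20 * n + 60 * (A.length + B.length) + 100 := by
  have h1 := cost_row1P (s := s) (F := F) v k n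
  have h2 := cost_appP (s := s) (a := Po) (F := F) v k (A, B)
  have h3 := cost_appP (s := s) (a := Po) (F := F) v k (A, [fit n (0 : F) [1]])
  have h4 := cost_appP (s := s) (a := Po) (F := F) v k (B, [fit n (0 : F) [1]])
  have h5 := cost_fitP (s := s) (a := Po) (b := Po) (F := F) v k
    (A ++ B, (([] : List F), p.val ()
        (tb, (un n, (A ++ [fit n (0 : F) [1]], B ++ [fit n (0 : F) [1]])))))
  simp [mainP, val_row1P] at h1 h2 h3 h4 h5 ⊢
  omega

/-- product of two; input `((table, s), (A, B))` -/
def combP (p : Pr [] (.prod TB (.prod Un (.prod Ma Ma))) Ma) :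
    Pr s (.prod (.prod TB Un) (.prod Ma Ma)) Ma :=
  onL (.comp .snd .fst) (.comp .snd .snd)
    (onL (.comp .fst (.comp .snd .snd)) (.comp .fst (.comp .snd .fst))
      (.comp (.comp .fst .fst) (mainP p)))

/-- properties of a program for the product of two -/
def CombSpec {s : List (Ty × Ty)} (q : Pr s (.prod (.prod TB Un) (.prod Ma Ma)) Ma) (C : ℕ) :
    Prop :=
  ∀ (F : Type) [Field F] [DecidableEq F] (v : SV F s) (k : SC F s)
  (tb : List (List F) × List (List F)) (n : ℕ)
  (A B : List (List F)), IsTb tb → 1 ≤ n → Sh n A → Sh n B →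
  let r : List (List F) := q.val v ((tb, un n), (A, B))
  Sh n r ∧ r.length = A.length + B.length ∧
  (∀ (R : Type) [CommRing R] [Algebra F R] (τ : R), τ ^ n = 0 → mrp τ r = mrp τ A * mrp τ B) ∧
  q.cost v k ((tb, un n), (A, B)) ≤ C * mu (n * (A.length + B.length) + 1)

theorem mrp_nil {F R : Type} [Field F] [CommRing R] [Algebra F R] (τ : R) :
    mrp τ ([] : List (List F)) = 1 := by
  simp [mrp, rp, pol]

theorem sh_fit {F : Type} (s n : ℕ) (l : List (List F)) (hl : Sh s l) (h : n ≤ l.length) :
    Sh s (fit n [] l) := by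
  rw [fit_eq_take _ _ _ h]
  intro r hr
  exact hl r (List.mem_of_mem_take hr)

theorem exists_combSpec (h1 : SpecMulR) (h0 : SpecUnits) :
    ∃ (p : Pr [] (.prod TB (.prod Un (.prod Ma Ma))) Ma) (C : ℕ),
      ∀ s : List (Ty × Ty), CombSpec (combP p : Pr s _ _) C := by
  obtain ⟨p, C1, hp⟩ := h1
  obtain ⟨mono, -, -, -, -, hle, -, hc, -⟩ := h0
  obtain ⟨C2, hC2⟩ := hc 4
  refine ⟨p, C1 * C2 + 400, ?_⟩
  intro s F _ _ v k tb n A B htb hn hA hB
  have hmu1 := hle (n * (A.length + B.length) + 1)
  rcases A with _ | ⟨a, A⟩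
  · simp only [combP]
    refine ⟨by simpa using hB, by simp, ?_, ?_⟩
    · intro R _ _ τ _
      simp [mrp_nil]
    · simp at hmu1 ⊢
      nlinarith [Nat.zero_le (C1 * C2 * mu (n * B.length + 1))]
  rcases B with _ | ⟨b, B⟩
  · simp only [combP]
    refine ⟨by simpa using hA, by simp, ?_, ?_⟩
    · intro R _ _ τ _
      simp [mrp_nil]
    · simp at hmu1 ⊢
      nlinarith [Nat.zero_le (C1 * C2 * mu (n * (A.length + 1) + 1))]
  generalize hA' : a :: A = A' at *
  generalize hB' : b :: B = B' at *
  have hlA : 1 ≤ A'.length := by rw [← hA']; simp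
  have hlB : 1 ≤ B'.length := by rw [← hB']; simp
  have hval : (combP p : Pr s _ _).val v ((tb, un n), (A', B')) =
      (mainP p : Pr s _ _).val v ((tb, un n), (A', B')) := by
    rw [← hA', ← hB']; simp [combP]
  have hcost : (combP p : Pr s _ _).cost v k ((tb, un n), (A', B')) ≤
      (mainP p : Pr s _ _).cost v k ((tb, un n), (A', B')) + 40 := by
    rw [← hA', ← hB']; simp [combP]; omega
  have hrow : (fit n (0 : F) [1]).length = n := length_fit _ _ _
  have hA1 : Sh n (A' ++ [fit n (0 : F) [1]]) := by
    intro r hr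
    rcases List.mem_append.mp hr with h | h
    · exact hA r h
    · rw [List.mem_singleton.mp h, hrow]
  have hB1 : Sh n (B' ++ [fit n (0 : F) [1]]) := by
    intro r hr
    rcases List.mem_append.mp hr with h | h
    · exact hB r h
    · rw [List.mem_singleton.mp h, hrow]
  obtain ⟨p1, p2, p3, p4⟩ := hp F tb n _ _ htb hn hA1 hB1
  have hmain := cost_mainP (s := s) p v k tb n A' B'
  intro r
  have hr : r = fit (A'.length + B'.length) [] (p.val ()
        (tb, (un n, (A' ++ [fit n (0 : F) [1]], B' ++ [fit n (0 : F) [1]]))) : List (List F)) := by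
    change (combP p : Pr s _ _).val v ((tb, un n), (A', B')) = _
    rw [hval, val_mainP]
  rw [List.length_append, List.length_append, List.length_singleton] at p2 p4
  refine ⟨?_, ?_, ?_, ?_⟩
  · rw [hr]
    exact sh_fit _ _ _ p1 (by rw [p2]; omega)
  · rw [hr, length_fit]
  · intro R _ _ τ hτ
    rw [hr]
    refine mrp_fit τ A' B' _ p2 ?_
    rw [p3 R τ hτ, rp_app_row1 τ n hn, rp_app_row1 τ n hn]
  · have e1 := hC2 (n * (A'.length + B'.length))
    have e2 := mono (n * (A'.length + 1 + (B'.length + 1)) + 1)
      (4 * (n * (A'.length + B'.length) + 1)) (by nlinarith)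
    have e3 : n ≤ n * (A'.length + B'.length) := by nlinarith
    have e4 : A'.length + B'.length ≤ n * (A'.length + B'.length) := by nlinarith
    have e5 : C1 * mu (n * (A'.length + 1 + (B'.length + 1)) + 1) ≤
        C1 * C2 * mu (n * (A'.length + B'.length) + 1) := by
      calc _ ≤ C1 * mu (4 * (n * (A'.length + B'.length) + 1)) := Nat.mul_le_mul_left _ e2
        _ ≤ C1 * (C2 * mu (n * (A'.length + B'.length) + 1)) := Nat.mul_le_mul_left _ e1
        _ = _ := by ring
    nlinarith

/-! ### the recursion -/

/-- input of the recursive function: `(table, (s, factors))` -/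
abbrev SG : Ty := .prod TB (.prod Un (.list Ma))

/-- at least two factors -/
def nodeP (p : Pr [] (.prod TB (.prod Un (.prod Ma Ma))) Ma) : Pr [(SG, Ma)] SG Ma :=
  lt (.comp (.comp .snd .snd) eoP)
    (.comp (.pair (.pair (.comp .fst .fst) (.comp .fst (.comp .snd .fst)))
      (.pair
        (.comp (.pair (.comp .fst .fst) (.pair (.comp .fst (.comp .snd .fst))
          (.comp .snd .fst))) .self)
        (.comp (.pair (.comp .fst .fst) (.pair (.comp .fst (.comp .snd .fst))
          (.comp .snd .snd))) .self))) (combP p))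

/-- body of the recursion -/
def bodyP (p : Pr [] (.prod TB (.prod Un (.prod Ma Ma))) Ma) : Pr [(SG, Ma)] SG Ma :=
  onL (.comp .snd .snd) .nil
    (onL (.comp .snd .snd) (.comp .snd .fst) (.comp (.comp .fst .fst) (nodeP p)))

/-- sum of the lengths -/
def sl {α : Type} (l : List (List α)) : ℕ := (l.map List.length).sum

theorem sl_eo {α : Type} (l : List (List α)) : sl (eo l).1 + sl (eo l).2 = sl l := by
  unfold sl
  rw [← List.sum_append, ← List.map_append]
  exact ((eo_perm l).map _).sum_eq

theorem prod_eo {α M : Type} [CommMonoid M] (f : α → M) (l : List α) :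
    ((eo l).1.map f).prod * ((eo l).2.map f).prod = (l.map f).prod := by
  rw [← List.prod_append, ← List.map_append]
  exact ((eo_perm l).map _).prod_eq

theorem mem_eo1 {α : Type} (l : List α) (x : α) (h : x ∈ (eo l).1) : x ∈ l :=
  (eo_perm l).mem_iff.mp (List.mem_append_left _ h)

theorem mem_eo2 {α : Type} (l : List α) (x : α) (h : x ∈ (eo l).2) : x ∈ l :=
  (eo_perm l).mem_iff.mp (List.mem_append_right _ h)

theorem rec_spec (p : Pr [] (.prod TB (.prod Un (.prod Ma Ma))) Ma) (C1 : ℕ)
    (hp : ∀ s : List (Ty × Ty), CombSpec (combP p : Pr s _ _) C1)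
    (mono : ∀ a b, a ≤ b → mu a ≤ mu b) (sup : ∀ a b, mu a + mu b ≤ mu (a + b))
    (hle : ∀ N, N ≤ mu N)
    (F : Type) [Field F] [DecidableEq F] (tb : List (List F) × List (List F)) (s : ℕ)
    (htb : IsTb tb) (hs : 1 ≤ s) (n : ℕ) : ∀ l : List (List (List F)), l.length ≤ n →
    (∀ A ∈ l, Sh s A) →
    let r : List (List F) := goV (bodyP p) .nil () n (tb, (un s, l))
    Sh s r ∧ r.length = sl l ∧
    (∀ (R : Type) [CommRing R] [Algebra F R] (τ : R), τ ^ s = 0 →
      mrp τ r = (l.map (fun A => mrp τ A)).prod) ∧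
    goC (bodyP p) .nil () () n (tb, (un s, l)) ≤
      (C1 + 100) * (Nat.clog 2 l.length + 1) * mu (s * sl l + 2 * l.length) + 10 := by
  induction n with
  | zero =>
    intro l hl hA
    have : l = [] := List.length_eq_zero_iff.mp (by omega)
    subst this
    refine ⟨?_, ?_, ?_, ?_⟩
    · intro r hr
      simp [goV] at hr
    · simp [goV, sl]
    · intro R _ _ τ _
      simp [goV, mrp_nil]
    · simp [goC]
  | succ n ih =>
    intro l hl hA
    have hmu1 := hle (s * sl l + 2 * l.length)
    rcases l with _ | ⟨A, _ | ⟨B, t⟩⟩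
    · refine ⟨?_, ?_, ?_, ?_⟩
      · intro r hr
        simp [goV, bodyP] at hr
      · simp [goV, sl, bodyP]
      · intro R _ _ τ _
        simp [goV, mrp_nil, bodyP]
      · simp [goC, bodyP]
    · refine ⟨?_, ?_, ?_, ?_⟩
      · simpa [goV, bodyP] using hA
      · simp [goV, sl, bodyP]
      · intro R _ _ τ _
        simp [goV, bodyP]
      · simp [goC, bodyP] at hmu1 ⊢
        nlinarith [Nat.zero_le (C1 * mu (s * sl [A] + 2))]
    generalize hll : A :: B :: t = l at *
    have hlen : 2 ≤ l.length := by rw [← hll]; simp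
    obtain ⟨le1, le2⟩ := length_eo l
    obtain ⟨a1, a2, a3, a4⟩ := ih (eo l).1 (by omega) (fun x hx => hA x (mem_eo1 l x hx))
    obtain ⟨b1, b2, b3, b4⟩ := ih (eo l).2 (by omega) (fun x hx => hA x (mem_eo2 l x hx))
    have hval : goV (bodyP p) .nil () (n + 1) (tb, (un s, l)) =
        (combP p : Pr [(SG, Ma)] _ _).val (F := F) (goV (bodyP p) .nil () n, ())
          ((tb, un s), (goV (bodyP p) .nil () n (tb, (un s, (eo l).1)),
            goV (bodyP p) .nil () n (tb, (un s, (eo l).2)))) := by
      rw [← hll]; simp [goV, bodyP, nodeP]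
    have hcost : goC (bodyP p) .nil () () (n + 1) (tb, (un s, l)) ≤
        (combP p : Pr [(SG, Ma)] _ _).cost (F := F) (goV (bodyP p) .nil () n, ())
          (goC (bodyP p) .nil () () n, ())
          ((tb, un s), (goV (bodyP p) .nil () n (tb, (un s, (eo l).1)),
            goV (bodyP p) .nil () n (tb, (un s, (eo l).2)))) +
        goC (bodyP p) .nil () () n (tb, (un s, (eo l).1)) +
        goC (bodyP p) .nil () () n (tb, (un s, (eo l).2)) + 24 * l.length + 80 := by
      have h5 := cost_eoP (s := [(SG, Ma)]) (a := Ma) (F := F) (goV (bodyP p) .nil () n, ())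
        (goC (bodyP p) .nil () () n, ()) l
      rw [← hll] at h5 ⊢; simp [goC, bodyP, nodeP] at h5 ⊢
      omega
    obtain ⟨c1, c2, c3, c4⟩ := hp [(SG, Ma)] F (goV (bodyP p) .nil () n, ())
      (goC (bodyP p) .nil () () n, ()) tb s
      (goV (bodyP p) .nil () n (tb, (un s, (eo l).1)))
      (goV (bodyP p) .nil () n (tb, (un s, (eo l).2))) htb hs a1 b1
    intro r
    have hr : r = (combP p : Pr [(SG, Ma)] _ _).val (F := F) (goV (bodyP p) .nil () n, ())
          ((tb, un s), (goV (bodyP p) .nil () n (tb, (un s, (eo l).1)),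
            goV (bodyP p) .nil () n (tb, (un s, (eo l).2)))) := hval
    have hsl := sl_eo l
    rw [a2, b2, hsl] at c2 c4
    refine ⟨?_, ?_, ?_, ?_⟩
    · rw [hr]; exact c1
    · rw [hr]; exact c2
    · intro R _ _ τ hτ
      rw [hr, c3 R τ hτ, a3 R τ hτ, b3 R τ hτ]
      exact prod_eo _ _
    · have hclog : Nat.clog 2 l.length = Nat.clog 2 ((l.length + 1) / 2) + 1 := by
        rw [Nat.clog_of_one_lt (n := l.length) (by norm_num) (by omega)]
        simp
      have hm1 : Nat.clog 2 (eo l).1.length + 1 = Nat.clog 2 l.length := by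
        rw [le1, hclog]
      have hm2 : Nat.clog 2 (eo l).2.length + 1 ≤ Nat.clog 2 l.length := by
        rw [le2, hclog]
        exact Nat.succ_le_succ (Nat.clog_mono_right 2 (by omega))
      have hsup := sup (s * sl (eo l).1 + 2 * (eo l).1.length)
        (s * sl (eo l).2 + 2 * (eo l).2.length)
      have harg : s * sl (eo l).1 + 2 * (eo l).1.length +
          (s * sl (eo l).2 + 2 * (eo l).2.length) = s * sl l + 2 * l.length := by
        rw [← hsl, le1, le2]
        have : (l.length + 1) / 2 + l.length / 2 = l.length := by omega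
        nlinarith
      rw [harg] at hsup
      have hmm := mono (s * sl l + 1) (s * sl l + 2 * l.length) (by omega)
      rw [hm1] at a4
      have b5 : (C1 + 100) * (Nat.clog 2 (eo l).2.length + 1) *
          mu (s * sl (eo l).2 + 2 * (eo l).2.length) ≤ (C1 + 100) * Nat.clog 2 l.length *
          mu (s * sl (eo l).2 + 2 * (eo l).2.length) :=
        Nat.mul_le_mul_right _ (Nat.mul_le_mul_left _ hm2)
      have e1 : (C1 + 100) * Nat.clog 2 l.length * (mu (s * sl (eo l).1 + 2 * (eo l).1.length) +
          mu (s * sl (eo l).2 + 2 * (eo l).2.length)) ≤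
          (C1 + 100) * Nat.clog 2 l.length * mu (s * sl l + 2 * l.length) :=
        Nat.mul_le_mul_left _ hsup
      have e2 : C1 * mu (s * sl l + 1) ≤ C1 * mu (s * sl l + 2 * l.length) :=
        Nat.mul_le_mul_left _ hmm
      refine hcost.trans ?_
      refine (Nat.add_le_add_right (Nat.add_le_add_right (Nat.add_le_add (Nat.add_le_add c4 a4)
        b4) _) _).trans ?_
      generalize mu (s * sl l + 2 * l.length) = M at *
      generalize mu (s * sl (eo l).1 + 2 * (eo l).1.length) = M1 at *
      generalize mu (s * sl (eo l).2 + 2 * (eo l).2.length) = M2 at *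
      generalize Nat.clog 2 l.length = L at *
      have e3 : 24 * l.length + 80 + 20 ≤ 100 * M := by
        have : 2 * l.length ≤ M := le_trans (Nat.le_add_left _ _) hmu1
        omega
      clear hr hcost c4 a4 b4 c1 c2 c3 a1 a2 a3 b1 b2 b3 hval
      have e4 : (C1 + 100) * (L + 1) * M = (C1 + 100) * L * M + (C1 * M + 100 * M) := by ring
      have e5 : (C1 + 100) * L * (M1 + M2) = (C1 + 100) * L * M1 + (C1 + 100) * L * M2 := by ring
      rw [e4]
      rw [e5] at e1
      omega

end PT

open PT in
theorem specProd (h1 : SpecMulR) (h0 : SpecUnits) : SpecProd := by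
  obtain ⟨p, C1, hp⟩ := exists_combSpec h1 h0
  obtain ⟨mono, -, -, sup, -, hle, -, hc, -⟩ := h0
  obtain ⟨C2, hC2⟩ := hc 2
  refine ⟨.comp (.pair (.comp .snd .snd) .id) (.recD (bodyP p) .nil), (C1 + 100) * C2 + 20, 1, ?_⟩
  intro F _ _ tb s l htb hs hA
  obtain ⟨a1, a2, a3, a4⟩ := rec_spec p C1 hp mono sup hle F tb s htb hs l.length l le_rfl hA
  intro r
  have hr : r = goV (bodyP p) .nil () l.length (tb, (un s, l)) := by
    have : ∀ x : Ty.D F SG, Pr.val (F := F) (.comp (.pair (.comp .snd .snd) .id)
        (.recD (bodyP p) .nil)) () x = goV (bodyP p) .nil () (List.length x.2.2) x := by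
      intro x
      simp [val_recD]
    exact this (tb, (un s, l))
  refine ⟨?_, ?_, ?_, ?_⟩
  · rw [hr]; exact a1
  · rw [hr]; exact a2
  · intro R _ _ τ hτ
    rw [hr]; exact a3 R τ hτ
  · have hlen : r.length = sl l := by rw [hr]; exact a2
    rw [hlen]
    have hc1 : Pr.cost (F := F) (.comp (.pair (.comp .snd .snd) .id) (.recD (bodyP p) .nil)) () ()
        (tb, (un s, l)) = goC (bodyP p) .nil () () l.length (tb, (un s, l)) + 5 := by
      simp [cost_recD]
      omega
    rw [hc1]
    have h2 := hC2 (s * sl l + l.length)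
    have h3 := mono (s * sl l + 2 * l.length) (2 * (s * sl l + l.length + 1)) (by omega)
    have h4 : Nat.clog 2 l.length + 1 ≤ lgc (s + sl l + l.length) := by
      unfold lgc
      exact Nat.succ_le_succ (Nat.clog_mono_right 2 (by omega))
    have h5 := hle (s * sl l + l.length + 1)
    have h6 : 1 ≤ lgc (s + sl l + l.length) := by unfold lgc; omega
    rw [pow_one]
    generalize lgc (s + sl l + l.length) = L at *
    have h7 : (C1 + 100) * (Nat.clog 2 l.length + 1) * mu (s * sl l + 2 * l.length) ≤
        (C1 + 100) * L * (C2 * mu (s * sl l + l.length + 1)) :=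
      Nat.mul_le_mul (Nat.mul_le_mul_left _ h4) (h3.trans h2)
    generalize mu (s * sl l + l.length + 1) = M at *
    have h8 : 1 ≤ L * M := by nlinarith
    nlinarith
end Pool.Agent.H330FB.JH3
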