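import Pool.Agent.H330FB.Lib5
import Pool.Agent.H330FB.Spec2
set_option autoImplicit false
noncomputable section
namespace Pool.Agent.H330FB.JP1
open Polynomial

/-- `[z, a z, a ^ 2 z, ...]` of length `n` -/
def fibPw {F : Type} [Field F] : ℕ → F → F → List F
  | 0, _, _ => []
  | n + 1, a, z => z :: fibPw n a (a * z)

theorem fibPw_eq {F : Type} [Field F] (n : ℕ) (a z : F) :
    fibPw n a z = (List.range n).map (fun j => a ^ j * z) := by
  induction n generalizing z with
  | zero => rfl
  | succ n ih =>
    rw [fibPw, ih, List.range_succ_eq_map]
    simp only [List.map_cons, List.map_map, pow_zero, one_mul, List.cons.injEq, true_and]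
    refine List.map_congr_left fun j _ => ?_
    simp only [Function.comp, pow_succ]
    ring

section
variable {F : Type} [Field F] [DecidableEq F]
variable {s : List (Ty × Ty)} {b : Ty}

/-- input `(u, (a, z))` -/
def fibPwP : Pr s (.prod (.list b) (.prod .fld .fld)) (.list .fld) :=
  .recD (.comp (.pair .snd (.comp (.pair .fst .mul) .self)) .cons) .nil

theorem val_fibPwP (v : SV F s) (x : Ty.D F (.prod (.list b) (.prod .fld .fld))) :
    (fibPwP : Pr s (.prod (.list b) (.prod .fld .fld)) (.list .fld)).val v x =
      fibPw (List.length x.1) x.2.1 x.2.2 := by
  obtain ⟨u, a, z⟩ := x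
  simp only [fibPwP, val_recD]
  generalize List.length u = n
  induction n generalizing z with
  | zero => simp [goV, fibPw]
  | succ n ih => simp [goV, fibPw, ih]

theorem cost_fibPwP (v : SV F s) (k : SC F s)
    (x : Ty.D F (.prod (.list b) (.prod .fld .fld))) :
    (fibPwP : Pr s (.prod (.list b) (.prod .fld .fld)) (.list .fld)).cost v k x ≤
      20 * List.length x.1 + 2 := by
  obtain ⟨u, a, z⟩ := x
  simp only [fibPwP, cost_recD]
  generalize List.length u = n
  induction n generalizing z with
  | zero => simp [goC]
  | succ n ih => have := ih (a * z); simp [goC] at this ⊢; omega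

end

theorem fib_zip {α β γ δ : Type} (f : β → γ → δ) (g : α → β) (h : α → γ) (l : List α) :
    List.zipWith f (l.map g) (l.map h) = l.map (fun x => f (g x) (h x)) := by
  induction l with
  | nil => rfl
  | cons x l ih => simp [ih]

theorem fib_range {α : Type} (z : α) (l : List α) :
    (List.range l.length).map (fun j => l.getD j z) = l := by
  apply List.ext_getElem
  · simp
  · intro i h1 h2
    simp at h1
    simp [h1]

theorem fib_transp {α : Type} (z : α) (n : ℕ) (A : List (List α)) (h : ∀ r ∈ A, r.length = n) :
    transp n A = (List.range n).map (fun j => A.map (fun r => r.getD j z)) := by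
  induction A with
  | nil =>
    simp only [transp, List.foldr_nil, List.map_nil]
    rw [List.map_const', List.length_range]
  | cons r A ih =>
    have h1 := ih (fun r hr => h r (by simp [hr]))
    have h2 := h r (by simp)
    have h3 : transp n (r :: A) = List.zipWith (fun x l => x :: l) r (transp n A) := rfl
    rw [h3, h1]
    conv_lhs => rw [← fib_range z r, h2]
    rw [fib_zip]
    simp

theorem fib_eval {F : Type} [Field F] (a : F) (r : List F) (k : ℕ) :
    (List.zipWith (fun x y => x * y) r ((List.range' k r.length).map (fun j => a ^ j))).sum =
      a ^ k * (pol r).eval a := by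
  induction r generalizing k with
  | nil => simp [pol]
  | cons x r ih =>
    simp only [List.length_cons, List.range'_succ, List.map_cons, List.zipWith_cons_cons,
      List.sum_cons, ih, pol, eval_add, eval_C, eval_mul, eval_X, pow_succ]
    ring

/-- the program -/
def fibP (q : Pr [] (.prod Un (.prod Ma Ma)) Ma) : Pr [] (.prod Ma Po) Ma :=
  onL .fst (mapP .nil)
    (ap2 transpP (.comp .fst .snd)
      (ap3 q (.comp (.pair .star (.comp .fst .snd)) (mapP (c := .unit) .star)) (.comp .fst .fst)
        (ap2 transpP (.comp .snd .fst)
          (.comp (.pair (.comp .snd .fst) (.comp .fst .snd))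
            (mapP (.comp (.pair .fst (.pair .snd .one)) fibPwP))))))

theorem specFib (h1 : SpecMM) (h0 : SpecUnits) : SpecFib := by
  obtain ⟨q, C, hq⟩ := h1
  obtain ⟨-, -, hvv, -, -, -, hww, -⟩ := h0
  refine ⟨fibP q, C + 1000, ?_⟩
  intro F _ _ w A as hA
  rcases A with _ | ⟨r0, A'⟩
  · constructor
    · simp [fibP]
    · have e1 := cost_mapP_le (s := []) (F := F) (c := Ma) (a := .fld) (b := Po) .nil () ()
        (([] : List (List F)), as) 1 (fun _ _ => by simp)
      have e2 := hww (([] : List (List F)).length + w + as.length + 1)
      simp only [fibP, cost_onL, cost_fst, lcase_nil, val_fst]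
      simp only [List.length_nil] at e1 e2 ⊢
      nlinarith
  · set A : List (List F) := r0 :: A' with hAd
    have hr0 : r0.length = w := hA r0 (by simp [hAd])
    set c := as.length with hc
    have hun : List.map (fun _ : F => ()) as = un c := by
      rw [un, List.map_const', hc]
    -- the matrix of powers
    have hV : as.map (fun a => fibPw r0.length a 1) =
        as.map (fun a => (List.range w).map (fun j => a ^ j)) := by
      refine List.map_congr_left fun a _ => ?_
      rw [fibPw_eq, hr0]
      simp
    set V := as.map (fun a => (List.range w).map (fun j => a ^ j)) with hVd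
    have hVs : ∀ r ∈ V, r.length = w := by
      intro r hr
      simp only [hVd, List.mem_map] at hr
      obtain ⟨a, _, rfl⟩ := hr
      simp
    have hB : transp w V = (List.range w).map (fun j => as.map (fun a => a ^ j)) := by
      rw [fib_transp 0 w V hVs]
      refine List.map_congr_left fun j hj => ?_
      rw [hVd, List.map_map]
      refine List.map_congr_left fun a _ => ?_
      have hj' : j < w := List.mem_range.mp hj
      simp [hj']
    set B := transp w V with hBd
    have hBl : B.length = w := by rw [hB]; simp
    have hBs : Sh c B := by
      intro r hr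
      rw [hB] at hr
      simp only [List.mem_map] at hr
      obtain ⟨a, _, rfl⟩ := hr
      simp [hc]
    have hAB : Sh B.length A := by rw [hBl]; exact hA
    obtain ⟨hq1, hq2⟩ := hq F c A B hAB hBs
    have hM : mmul c A B = A.map (fun r => (List.range c).map (fun j => (pol r).eval (as.getD j 0))) := by
      unfold mmul
      refine List.map_congr_left fun r hr => ?_
      refine List.map_congr_left fun j hj => ?_
      have hj' : j < as.length := List.mem_range.mp hj
      have hrl : r.length = w := hA r hr
      have e1 : List.zipWith (fun x y => x * List.getD y j 0) r B =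
          List.zipWith (fun x y => x * y) r (B.map (fun y => y.getD j 0)) := by
        rw [List.zipWith_map_right]
      rw [e1]
      have e2 : B.map (fun y => y.getD j 0) =
          (List.range' 0 r.length).map (fun k => (as.getD j 0) ^ k) := by
        rw [hB, List.map_map, hrl, List.range_eq_range']
        refine List.map_congr_left fun k _ => ?_
        simp [hj']
      rw [e2, fib_eval]
      simp
    have hMs : ∀ r ∈ mmul c A B, r.length = c := by
      intro r hr
      rw [hM] at hr
      simp only [List.mem_map] at hr
      obtain ⟨a, _, rfl⟩ := hr
      simp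
    have hfin : transp c (mmul c A B) = as.map (fun a => A.map (fun r => (pol r).eval a)) := by
      rw [fib_transp 0 c _ hMs, hM]
      conv_rhs => rw [← fib_range 0 as]
      rw [List.map_map]
      refine List.map_congr_left fun j hj => ?_
      have hj' : j < c := List.mem_range.mp hj
      simp only [List.map_map, Function.comp]
      refine List.map_congr_left fun r _ => ?_
      simp [hj']
    have hMl : (mmul c A B).length = A.length := by rw [hM]; simp
    have hqv : (q.val () (un c, (A, B)) : List (List F)) = mmul c A B := hq1
    constructor
    · rw [← hfin, ← hqv]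
      simp only [fibP, val_onL, val_fst, hAd, lcase_cons, val_comp, val_pair, val_snd, val_mapP,
        val_star, val_transpP, val_one, val_fibPwP]
      rw [hV, hr0, hun]
    · have e1 := cost_mapP_le (s := []) (F := F) (c := .unit) (a := .fld) (b := .unit) .star () ()
        ((), as) 1 (fun _ _ => by simp)
      have e2 := cost_mapP_le (s := []) (F := F) (c := Po) (a := .fld) (b := Po)
        (.comp (.pair .fst (.pair .snd .one)) fibPwP) () () (r0, as) (20 * w + 7) (fun y _ => by
          have := cost_fibPwP (s := []) (F := F) (b := .fld) () () (r0, (y, 1))
          simp only [cost_comp, cost_pair, cost_fst, cost_snd, cost_one, val_pair, val_fst, val_snd,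
            val_one] at this ⊢
          rw [hr0] at this
          omega)
      have e3 := cost_transpP (s := []) (F := F) (a := .fld) (b := .fld) () () (r0, V)
        (fun r hr => by rw [hVs r hr, hr0])
      have e4 := cost_transpP (s := []) (F := F) (a := .fld) (b := .fld) () () (as, mmul c A B)
        (fun r hr => hMs r hr)
      have e5 := hww (A.length + w + as.length + 1)
      have e6 : vv (Nat.clog 2 (B.length + c + 1)) ≤ vv (Nat.clog 2 (A.length + w + as.length + 1)) := by
        refine hvv _ _ (Nat.clog_mono_right 2 ?_)
        rw [hBl]; omega
      have e7 : q.cost () () (un c, (A, B)) ≤ C * ww (A.length + w + as.length + 1) := by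
        refine hq2.trans ?_
        unfold ww
        rw [hBl, mul_assoc]
        refine Nat.mul_le_mul_left C (Nat.mul_le_mul (by omega) ?_)
        rw [hBl] at e6
        exact e6
      have hcost : (fibP q).cost () () (A, as) = (mapP (c := .unit) (a := .fld) (b := .unit) .star : Pr [] _ _).cost () () ((), as)
          + (mapP (.comp (.pair .fst (.pair .snd .one)) fibPwP) : Pr [] (.prod Po (.list .fld)) _).cost () () (r0, as)
          + (transpP : Pr [] (.prod (.list .fld) (.list (.list .fld))) _).cost () () (r0, V)
          + (transpP : Pr [] (.prod (.list .fld) (.list (.list .fld))) _).cost () () (as, mmul c A B)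
          + q.cost () () (un c, (A, B)) + 23 := by
        simp only [fibP, cost_onL, cost_fst, val_fst, hAd, lcase_cons, cost_comp, cost_pair, val_comp, val_pair, val_snd, val_mapP,
          val_star, val_transpP, val_one, val_fibPwP, cost_snd, cost_star]
        rw [hV, hr0, hun]
        rw [← hAd, ← hBd, hqv]
        ring_nf
      rw [hcost]
      have e8 : List.length V = c := by simp [hVd, hc]
      simp only [hr0, e8, hMl] at e1 e2 e3 e4
      set L := A.length
      set W := ww (L + w + as.length + 1)
      rw [← hc] at e1 e2 e4 e5
      have t1 : 0 ≤ L * w := Nat.zero_le _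
      have t2 : 0 ≤ L * c := Nat.zero_le _
      have t3 : 0 ≤ w * c := Nat.zero_le _
      nlinarith

end Pool.Agent.H330FB.JP1
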