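import Pool.Agent.H330FB.Lib5
import Pool.Agent.H330FB.Spec2
set_option autoImplicit false
set_option linter.unusedSectionVars false
noncomputable section
namespace Pool.Agent.H330FB.JP2
open Polynomial

section P2
variable {F : Type} [Field F] [DecidableEq F]
variable {s : List (Ty × Ty)} {a b c d : Ty}

/-- running products -/
def pws (x : F) : ℕ → F → List F
  | 0, _ => []
  | n + 1, y => y :: pws x n (y * x)

theorem length_pws (x : F) (n : ℕ) (y : F) : (pws x n y).length = n := by
  induction n generalizing y with
  | zero => rfl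
  | succ n ih => simp [pws, ih]

theorem getD_pws (x : F) (n : ℕ) (y : F) (k : ℕ) (hk : k < n) :
    (pws x n y).getD k 0 = y * x ^ k := by
  induction n generalizing y k with
  | zero => omega
  | succ n ih =>
    cases k with
    | zero => simp [pws]
    | succ k =>
      have := ih (y * x) k (by omega)
      simp only [pws, List.getD_cons_succ, this]
      ring

/-- running products, input `(u, (x, y))` -/
def pwsP : Pr s (.prod (.list d) (.prod .fld .fld)) Po :=
  .recD (.comp (.pair .snd (.comp (.pair .fst (.comp (.pair .snd .fst) .mul)) .self)) .cons) .nil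

@[simp] theorem val_pwsP (v : SV F s) (x : Ty.D F (.prod (.list d) (.prod .fld .fld))) :
    (pwsP : Pr s (.prod (.list d) (.prod .fld .fld)) Po).val v x =
      pws x.2.1 (List.length x.1) x.2.2 := by
  obtain ⟨u, x, y⟩ := x
  simp only [pwsP, val_recD]
  generalize List.length u = n
  induction n generalizing y with
  | zero => simp [goV, pws]
  | succ n ih => simp [goV, pws] at ih ⊢; exact ih _

theorem cost_pwsP (v : SV F s) (k : SC F s) (x : Ty.D F (.prod (.list d) (.prod .fld .fld))) :
    (pwsP : Pr s (.prod (.list d) (.prod .fld .fld)) Po).cost v k x ≤ 20 * List.length x.1 + 2 := by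
  obtain ⟨u, x, y⟩ := x
  simp only [pwsP, cost_recD]
  generalize List.length u = n
  induction n generalizing y with
  | zero => simp [goC]
  | succ n ih => have := ih (y * x); simp [goC] at this ⊢; omega

/-- one row -/
def prowP : Pr s (.prod Un .fld) Po :=
  .comp (.pair .fst (.comp (.comp .snd .inv) (.pair .id .id))) pwsP

@[simp] theorem val_prowP (v : SV F s) (x : Ty.D F (.prod Un .fld)) :
    (prowP : Pr s (.prod Un .fld) Po).val v x =
      pws ((x.2 : F)⁻¹) (List.length x.1) ((x.2 : F)⁻¹) := by
  simp [prowP]

theorem cost_prowP (v : SV F s) (k : SC F s) (x : Ty.D F (.prod Un .fld)) :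
    (prowP : Pr s (.prod Un .fld) Po).cost v k x ≤ 20 * List.length x.1 + 9 := by
  have h := cost_pwsP (s := s) (F := F) (d := .unit) v k (x.1, (((x.2 : F)⁻¹, (x.2 : F)⁻¹)))
  simp [prowP] at h ⊢
  omega

/-- value of a list of binary digits -/
def bval : List Bool → ℕ
  | [] => 0
  | b :: l => (if b then 1 else 0) + 2 * bval l

theorem bval_bits (n : ℕ) : bval (Nat.bits n) = n := by
  induction n using Nat.binaryRec' with
  | zero => simp [bval]
  | bit b n h ih =>
    rw [Nat.bits_append_bit n b h]
    simp only [bval, ih]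
    cases b
    · simp [Nat.bit]
    · simp [Nat.bit]; ring

/-- step of the repeated squaring -/
def sqstP : Pr s (.prod .unit (.prod (.prod .fld .fld) .fld)) (.prod .fld .fld) :=
  onZ (.comp .snd .snd)
    (.pair (.comp .snd (.comp .fst .fst)) (.comp (.comp .snd (.comp .fst .snd)) (.comp (.pair .id .id) .mul)))
    (.pair (.comp (.comp .snd .fst) .mul) (.comp (.comp .snd (.comp .fst .snd)) (.comp (.pair .id .id) .mul)))

@[simp] theorem val_sqstP (v : SV F s) (x : Ty.D F (.prod .unit (.prod (.prod .fld .fld) .fld))) :
    (sqstP : Pr s (.prod .unit (.prod (.prod .fld .fld) .fld)) (.prod .fld .fld)).val v x =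
      if (x.2.2 : F) = 0 then ((x.2.1.1 : F), (x.2.1.2 * x.2.1.2 : F))
      else ((x.2.1.1 * x.2.1.2 : F), (x.2.1.2 * x.2.1.2 : F)) := by
  simp only [sqstP, val_onZ, val_comp, val_pair, val_snd, val_fst, val_id, val_mul]
  try rfl

theorem cost_sqstP (v : SV F s) (k : SC F s) (x : Ty.D F (.prod .unit (.prod (.prod .fld .fld) .fld))) :
    (sqstP : Pr s (.prod .unit (.prod (.prod .fld .fld) .fld)) (.prod .fld .fld)).cost v k x ≤ 30 := by
  obtain ⟨u, ⟨x, y⟩, z⟩ := x
  simp only [sqstP, cost_onZ, cost_comp, cost_pair, cost_snd, cost_fst, cost_id, cost_mul, ite_self]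
  omega

/-- power of a field element; the exponent is given by its binary digits -/
def fpwP : Pr s (.prod Po .fld) .fld :=
  .comp (.comp (.pair .star (.pair (.pair .one .snd) .fst)) (foldP (c := .unit) sqstP)) .fst

theorem val_fpwP (v : SV F s) (n : ℕ) (m : F) :
    (fpwP : Pr s (.prod Po .fld) .fld).val v (bits F n, m) = (m ^ n : F) := by
  have key : ∀ (l : List Bool) (x y : F),
      (List.foldl (fun (z : F × F) (w : F) => if w = 0 then (z.1, z.2 * z.2)
        else (z.1 * z.2, z.2 * z.2)) (x, y) (l.map (fun b => if b then (1 : F) else 0))).1 =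
      x * y ^ bval l := by
    intro l
    induction l with
    | nil => intro x y; simp [bval]
    | cons b l ih =>
      intro x y
      cases b
      · simp only [List.map_cons, List.foldl_cons, bval]
        simp only [Bool.false_eq_true, if_false, if_true]
        rw [ih]
        rw [zero_add, pow_mul, pow_two]
      · simp only [List.map_cons, List.foldl_cons, bval]
        simp only [if_true, one_ne_zero, if_false]
        rw [ih, pow_add, pow_one, pow_mul, pow_two, mul_assoc]
  have h := key (Nat.bits n) 1 m
  rw [bval_bits, one_mul] at h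
  simp only [fpwP, val_comp, val_pair, val_star, val_one, val_snd, val_fst, val_foldP, val_sqstP]
  exact h

theorem length_bits (n : ℕ) : (bits F n).length ≤ lgc n := by
  unfold bits lgc
  rw [List.length_map, Nat.size_eq_bits_len, Nat.size_le]
  have := Nat.le_pow_clog (b := 2) (by norm_num) n
  rw [pow_succ]
  have h1 : 1 ≤ 2 ^ Nat.clog 2 n := Nat.one_le_two_pow
  omega

theorem cost_fpwP (v : SV F s) (k : SC F s) (x : Ty.D F (.prod Po .fld)) :
    (fpwP : Pr s (.prod Po .fld) .fld).cost v k x ≤ 57 * List.length x.1 + 25 := by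
  have h := cost_foldP_le (s := s) (F := F) (c := .unit) (b := .prod .fld .fld) (a := .fld) sqstP v k
    ((), (((1 : F), (x.2 : F)), x.1)) 30 (fun _ => True) trivial (fun _ _ _ _ => trivial)
    (fun y z _ _ => cost_sqstP v k _)
  simp [fpwP] at h ⊢
  omega

/-- `m ^ (q ^ e)` -/
def frbP : Pr s (.prod (.prod Po Un) .fld) .fld :=
  .comp (.pair (.comp .fst .fst) (.pair .snd (.comp .fst .snd)))
    (foldP (c := Po) (.comp (.pair .fst (.comp .snd .fst)) fpwP))

theorem val_frbP (v : SV F s) (q e : ℕ) (m : F) :
    (frbP : Pr s (.prod (.prod Po Un) .fld) .fld).val v ((bits F q, un e), m) = (m ^ (q ^ e) : F) := by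
  have key : ∀ (e : ℕ) (m : F),
      List.foldl (fun (y : F) (_ : Unit) => (y ^ q : F)) m (un e) = m ^ (q ^ e) := by
    intro e
    induction e with
    | zero => intro m; simp [un]
    | succ e ih =>
      intro m
      have hu : un (e + 1) = () :: un e := by simp [un, List.replicate_succ]
      rw [hu, List.foldl_cons, ih, ← pow_mul, pow_succ']
  simp only [frbP, val_comp, val_pair, val_fst, val_snd, val_foldP]
  rw [← key e m]
  congr 1
  funext y z
  exact val_fpwP v q y

theorem cost_frbP (v : SV F s) (k : SC F s) (bs : List F) (u : List Unit) (m : F) :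
    (frbP : Pr s (.prod (.prod Po Un) .fld) .fld).cost v k ((bs, u), m) ≤
      (57 * bs.length + 60) * u.length + 25 := by
  have h := cost_foldP_le (s := s) (F := F) (c := Po) (b := .fld) (a := .unit)
    (.comp (.pair .fst (.comp .snd .fst)) fpwP) v k
    (bs, ((m : F), u)) (57 * bs.length + 30) (fun _ => True) trivial (fun _ _ _ _ => trivial)
    (fun y z _ _ => by
      have := cost_fpwP (s := s) v k (bs, y)
      simp at this ⊢
      omega)
  simp [frbP] at h ⊢
  nlinarith

/-- final operation on one entry -/
def entP : Pr s (.prod (.prod Po Un) .fld) .fld :=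
  .comp (.comp (.pair .snd frbP) .add) .neg

theorem val_entP (v : SV F s) (q e : ℕ) (m : F) :
    (entP : Pr s (.prod (.prod Po Un) .fld) .fld).val v ((bits F q, un e), m) =
      (-(m + m ^ (q ^ e)) : F) := by
  have h := val_frbP (s := s) v q e m
  simp only [entP, val_comp, val_pair, val_snd, val_add, val_neg]
  rw [h]

theorem cost_entP (v : SV F s) (k : SC F s) (q e : ℕ) (m : F) :
    (entP : Pr s (.prod (.prod Po Un) .fld) .fld).cost v k ((bits F q, un e), m) ≤
      150 * ((e + 1) * lgc q) := by
  have h := cost_frbP (s := s) v k (bits F q) (un e) m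
  have h2 := length_bits (F := F) q
  have h3 : (un e).length = e := by simp [un]
  have h4 : 1 ≤ lgc q := by unfold lgc; omega
  rw [h3] at h
  have h5 : (57 * (bits F q).length + 60) * e ≤ (57 * lgc q + 60) * e :=
    Nat.mul_le_mul_right _ (by omega)
  simp only [entP, cost_comp, cost_pair, cost_snd, cost_add, cost_neg]
  nlinarith [Nat.zero_le (e * lgc q), Nat.mul_le_mul_right e h4]

theorem transp_eq (n : ℕ) (gs : List (List F)) (h : Sh n gs) :
    transp n gs = (List.range n).map (fun i => gs.map (fun g => g.getD i 0)) := by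
  induction gs with
  | nil =>
    simp only [transp, List.foldr_nil, List.map_nil]
    apply List.ext_getElem <;> simp
  | cons g gs ih =>
    have h1 := ih (fun r hr => h r (List.mem_cons_of_mem _ hr))
    have h2 : g.length = n := h g List.mem_cons_self
    have h3 : transp n (g :: gs) = List.zipWith (fun x l => x :: l) g (transp n gs) := rfl
    rw [h3, h1]
    apply List.ext_getElem
    · simp [h2]
    · intro i hi1 hi2
      have hi : i < g.length := by simp at hi1; omega
      simp only [List.getElem_zipWith, List.getElem_map, List.getElem_range, List.map_cons]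
      rw [List.getD_eq_getElem _ _ hi]

end P2

theorem P2_d1 (s n S : ℕ) (h1 : s + 1 ≤ S) (h2 : n + 1 ≤ S) :
    (20 * s + 9 + 13) * n + 5 ≤ 27 * (S * S) := by
  have h3 : (s + 1) * (n + 1) ≤ S * S := Nat.mul_le_mul h1 h2
  nlinarith [Nat.zero_le (s * n)]

theorem P2_d2 (n g S : ℕ) (h1 : n + 1 ≤ S) (h2 : g + 1 ≤ S) :
    (51 * n + 90) * (g + 1) ≤ 141 * (S * S) := by
  have h3 : (n + 1) * (g + 1) ≤ S * S := Nat.mul_le_mul h1 h2
  nlinarith [Nat.zero_le (n * g)]

theorem P2_d3 (X P s n S : ℕ) (hX : 1 ≤ X) (hP : X ≤ P) (h1 : s + 1 ≤ S) (h2 : n + 1 ≤ S) :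
    ((150 * X + 13) * s + 5 + 13) * n + 5 ≤ 200 * (P * (S * S)) := by
  have h3 : (150 * X + 13) * s + 5 + 13 ≤ (181 * X) * (s + 1) := by nlinarith [Nat.zero_le (X * s)]
  have h4 : (s + 1) * (n + 1) ≤ S * S := Nat.mul_le_mul h1 h2
  have h5 : X * ((s + 1) * (n + 1)) ≤ P * (S * S) := Nat.mul_le_mul hP h4
  have h6 : ((150 * X + 13) * s + 5 + 13) * n ≤ (181 * X) * (s + 1) * n := Nat.mul_le_mul_right _ h3
  have h7 : (181 * X) * (s + 1) * n + 181 * (X * (s + 1)) = 181 * (X * ((s + 1) * (n + 1))) := by ring
  have h8 : 1 ≤ X * (s + 1) := Nat.one_le_iff_ne_zero.2 (by positivity)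
  omega

theorem specY (h1 : SpecMM) (h0 : SpecUnits) : SpecY := by
  obtain ⟨q0, C0, hq0⟩ := h1
  obtain ⟨_, _, hvv, _, _, _, hNN, _⟩ := h0
  refine ⟨.comp (.pair .fst
    (.comp (.pair (.comp .snd .fst)
      (.pair
        (.comp (.pair (.comp .snd (.comp .snd .fst)) (.comp .snd (.comp .snd (.comp .snd .snd)))) transpP)
        (.comp (.pair (.comp .snd .fst) (.comp .snd (.comp .snd (.comp .snd .fst))))
          (mapP (c := Un) prowP)))) q0))
    (mapP (c := .prod Po Un) (mapP (c := .prod Po Un) entP)), C0 + 1000, 1, ?_⟩
  intro F _ _ q e s n as gs hS hl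
  have hls : (un s).length = s := by simp [un]
  have hln : (un n).length = n := by simp [un]
  set B : List (List F) := as.map (fun a => pws (a⁻¹) s (a⁻¹)) with hBdef
  have hBl : B.length = as.length := by simp [hBdef]
  have hBS : Sh s B := by
    intro r hr
    obtain ⟨x, _, rfl⟩ := List.mem_map.1 hr
    exact length_pws _ _ _
  have hT := transp_eq n gs hS
  have hTl : (transp n gs).length = n := by rw [hT]; simp
  have hTS : Sh B.length (transp n gs) := by
    intro r hr
    rw [hT] at hr
    obtain ⟨i, _, rfl⟩ := List.mem_map.1 hr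
    rw [hBl, List.length_map, hl]
  obtain ⟨hval, hcost⟩ := hq0 F s (transp n gs) B hTS hBS
  have hBv : (mapP (s := []) (c := Un) (a := .fld) (b := Po) prowP).val (F := F) () (un s, as) = B := by
    rw [val_mapP, hBdef]
    apply List.map_congr_left
    intro x _
    simp only [val_prowP]
    change pws x⁻¹ (un s).length x⁻¹ = _
    rw [hls]
  have hTv : (transpP (s := []) (a := .fld) (b := .unit)).val (F := F) () (un n, gs) = transp n gs := by
    rw [val_transpP]
    change transp (un n).length gs = _
    rw [hln]
  have hent : ∀ i k, (List.zipWith (fun a g => g.getD i 0 * a⁻¹ ^ (k + 1)) as gs).sum =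
      (List.zipWith (fun (a : F) (g : List F) => g.getD i 0 * a⁻¹ ^ (k + 1)) as gs).sum := fun _ _ => rfl
  constructor
  · simp only [val_comp, val_pair, val_fst, val_snd, hBv, hTv, val_mapP, hval]
    unfold mmul
    rw [hT, List.map_map, List.map_map]
    apply List.map_congr_left
    intro i _
    simp only [Function.comp_apply, List.map_map]
    apply List.map_congr_left
    intro k hk
    have hk' : k < s := List.mem_range.1 hk
    simp only [Function.comp_apply]
    have e1 : List.zipWith (fun x y => x * y.getD k 0) (List.map (fun g => g.getD i 0) gs) B =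
        List.zipWith (fun a g => g.getD i 0 * a⁻¹ ^ (k + 1)) as gs := by
      rw [hBdef, List.zipWith_map, List.zipWith_comm]
      congr 1
      funext x y
      rw [getD_pws _ _ _ _ hk', pow_succ']
    rw [e1]
    exact val_entP (F := F) (s := []) () q e _
  · have hrow : ∀ a ∈ as, (prowP (s := [])).cost (F := F) () () (un s, a) ≤ 20 * s + 9 := by
      intro a _
      have := cost_prowP (F := F) (s := []) () () (un s, a)
      simp only [hls] at this
      exact this
    have c1 := cost_mapP_le (s := []) (F := F) (c := Un) (a := .fld) (b := Po) prowP () ()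
      (un s, as) (20 * s + 9) hrow
    have c2 := cost_transpP (s := []) (F := F) (a := .fld) (b := .unit) () () (un n, gs)
      (by intro r hr; change r.length = (un n).length; rw [hln]; exact hS r hr)
    simp only [hln] at c2
    have hlm : (mmul s (transp n gs) B).length = n := by simp [mmul, hTl]
    have hlr : ∀ r ∈ mmul s (transp n gs) B, r.length = s := by
      intro r hr
      obtain ⟨x, _, rfl⟩ := List.mem_map.1 hr
      simp
    have c3 := cost_mapP_le (s := []) (F := F) (c := .prod Po Un) (a := Po) (b := Po)
      (mapP (c := .prod Po Un) entP) () () ((bits F q, un e), mmul s (transp n gs) B)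
      ((150 * ((e + 1) * lgc q) + 13) * s + 5) (by
        intro r hr
        have c4 := cost_mapP_le (s := []) (F := F) (c := .prod Po Un) (a := .fld) (b := .fld)
          entP () () ((bits F q, un e), r) (150 * ((e + 1) * lgc q))
          (fun y _ => by
            have := cost_entP (F := F) (s := []) () () q e y
            exact this)
        have : List.length r = s := hlr r hr
        simp only [this] at c4
        exact c4)
    simp only [hlm] at c3
    simp only [cost_comp, cost_pair, cost_fst, cost_snd, val_comp, val_pair, val_fst, val_snd, hBv,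
      hTv, hval]
    rw [pow_one]
    -- units
    have hlq : 1 ≤ lgc q := by unfold lgc; omega
    have hln1 : 1 ≤ lgc (n + s + 1) := by unfold lgc; omega
    generalize hS' : n + s + as.length + 1 = S
    have hPL : (e + 1) * lgc q ≤ PL e q (n + s) := by
      unfold PL
      exact Nat.le_mul_of_pos_right _ hln1
    have hPL1 : 1 ≤ (e + 1) * lgc q := Nat.one_le_iff_ne_zero.2 (by positivity)
    generalize PL e q (n + s) = P at hPL ⊢
    generalize (e + 1) * lgc q = X at c3 hPL hPL1 ⊢
    have hSS := hNN S
    have c5 : q0.cost () () (un s, (transp n gs, B)) ≤ C0 * ww S := by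
      refine hcost.trans ?_
      rw [hTl, hBl]
      unfold ww
      have e1 : n + as.length + s + 1 = S := by omega
      rw [e1, mul_assoc]
      apply Nat.mul_le_mul_left
      apply Nat.mul_le_mul_left
      apply hvv
      apply Nat.clog_mono_right
      omega
    have hgl : gs.length + 1 ≤ S := by omega
    have hP1 : 1 ≤ P := hPL1.trans hPL
    have d1 := P2_d1 s as.length S (by omega) (by omega)
    have d2 := P2_d2 n gs.length S (by omega) (by omega)
    have d3 := P2_d3 X P s n S hPL1 hPL (by omega) (by omega)
    have d1' : (20 * s + 9 + 13) * List.length as + 5 ≤ 27 * ww S := by omega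
    have d4 : P * (S * S) ≤ P * ww S := Nat.mul_le_mul_left _ hSS
    have d5 : ww S ≤ P * ww S := Nat.le_mul_of_pos_left _ (by omega)
    have d6 : C0 * ww S ≤ C0 * (P * ww S) := Nat.mul_le_mul_left _ d5
    have hSpos : 1 ≤ S * S := by
      have : 1 ≤ S := by omega
      nlinarith
    have e7 : (C0 + 1000) * P * ww S = C0 * (P * ww S) + 1000 * (P * ww S) := by ring
    rw [e7]
    change (mapP (s := []) (c := Un) prowP).cost () () (un s, as) ≤ (20 * s + 9 + 13) * List.length as + 5 at c1
    omega

end Pool.Agent.H330FB.JP2
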