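import Pool.Agent.H330FB.Lib5
import Pool.Agent.H330FB.Spec2
set_option autoImplicit false
noncomputable section
namespace Pool.Agent.H330FB.JP3
open Polynomial

namespace LamP

/-- rows multiplied by `c`, `c + 1`, `c + 2`, ... -/
def dl {F : Type} [Field F] : F → List (List F) → List (List F)
  | _, [] => []
  | c, r :: t => r.map (fun x => c * x) :: dl (c + 1) t

lemma length_dl {F : Type} [Field F] (c : F) (l : List (List F)) : (dl c l).length = l.length := by
  induction l generalizing c with
  | nil => rfl
  | cons r t ih => simp [dl, ih]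

lemma Sh_dl {F : Type} [Field F] (s : ℕ) (c : F) (l : List (List F)) (h : Sh s l) :
    Sh s (dl c l) := by
  induction l generalizing c with
  | nil => intro r hr; simp [dl] at hr
  | cons r t ih =>
    intro r' hr'
    simp only [dl, List.mem_cons] at hr'
    rcases hr' with rfl | hr'
    · simp [h r (by simp)]
    · exact ih (c + 1) (fun r hr => h r (by simp [hr])) r' hr'

section rp
variable {F R : Type} [Field F] [CommRing R] [Algebra F R]

lemma aeval_map_mul (τ : R) (c : F) (r : List F) :
    aeval τ (pol (r.map (fun x => c * x))) = algebraMap F R c * aeval τ (pol r) := by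
  induction r with
  | nil => simp [pol]
  | cons x t ih =>
    simp only [List.map_cons, pol, map_add, map_mul, aeval_C, aeval_X, ih]
    ring

lemma rp_cons (τ : R) (r : List F) (l : List (List F)) :
    rp τ (r :: l) = C (aeval τ (pol r)) + X * rp τ l := rfl

lemma rp_dl (τ : R) (c : F) (l : List (List F)) :
    rp τ (dl c l) = C (algebraMap F R c) * rp τ l + X * derivative (rp τ l) := by
  induction l generalizing c with
  | nil => simp [rp, dl, pol]
  | cons r t ih =>
    rw [dl, rp_cons, rp_cons, ih, aeval_map_mul]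
    simp only [map_add, map_mul, map_one, derivative_mul, derivative_X, derivative_C]
    ring

lemma rp_append (τ : R) (l : List (List F)) (r : List F) :
    rp τ (l ++ [r]) = rp τ l + C (aeval τ (pol r)) * X ^ l.length := by
  induction l with
  | nil => simp [rp, pol]
  | cons x t ih =>
    rw [List.cons_append, rp_cons, rp_cons, ih, List.length_cons]
    ring

lemma pol_fit (n : ℕ) (l : List F) (h : l.length ≤ n) : pol (fit n 0 l) = pol l := by
  induction n generalizing l with
  | zero =>
    have : l = [] := List.length_eq_zero_iff.mp (by omega)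
    subst this; rfl
  | succ n ih =>
    cases l with
    | nil => simp [fit, pol, ih [] (by simp)]
    | cons x t => simp [fit, pol, ih t (by simp at h; omega)]

/-- derivative of the monic polynomial -/
lemma rp_deriv (τ : R) (s : ℕ) (hs : 1 ≤ s) (x : List F) (t : List (List F)) :
    rp τ (dl 1 (t ++ [fit s 0 [1]])) = derivative (mrp τ (x :: t)) := by
  have h1 : mrp τ (x :: t) = C (aeval τ (pol x)) + X * rp τ (t ++ [fit s 0 [1]]) := by
    rw [mrp, rp_cons, rp_append, pol_fit s [1] (by simpa using hs), List.length_cons]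
    simp [pol]
    ring
  rw [h1, rp_dl]
  simp only [map_one, one_mul, derivative_add, derivative_C, derivative_mul, derivative_X, zero_add]

end rp

section deg
variable {R : Type} [CommRing R]

lemma coeff_pol_append (l : List R) (x : R) : (pol (l ++ [x])).coeff l.length = x := by
  induction l with
  | nil => simp [pol]
  | cons y t ih => simp [pol, ih]

lemma degree_pol_lt (l : List R) : (pol l).degree < (l.length : WithBot ℕ) ∨ l = [] := by
  induction l with
  | nil => right; rfl
  | cons y t ih =>
    left
    rw [pol, List.length_cons]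
    refine (degree_add_le _ _).trans_lt (max_lt ?_ ?_)
    · refine degree_C_le.trans_lt ?_
      exact_mod_cast Nat.succ_pos _
    · rcases ih with ih | rfl
      · rcases subsingleton_or_nontrivial R with hR | hR
        · rw [Subsingleton.elim (X * pol t) 0, degree_zero]
          exact WithBot.bot_lt_coe _
        · rw [X_mul, degree_mul_X]
          push_cast
          exact WithBot.add_lt_add_right (by simp) ih
      · simp [pol]

lemma degree_pol_lt' [Nontrivial R] (l : List R) : (pol l).degree < (l.length : WithBot ℕ) := by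
  rcases degree_pol_lt l with h | rfl
  · exact h
  · simp only [pol, degree_zero, List.length_nil]
    exact WithBot.bot_lt_coe _

lemma monic_mpol' [Nontrivial R] (l : List R) (n : ℕ) (h : n = l.length) :
    (X ^ n + pol l).Monic ∧ (X ^ n + pol l).natDegree = n := by
  subst h
  have h1 := degree_pol_lt' l
  have h2 : (X ^ l.length + pol l).Monic := monic_X_pow_add h1
  refine ⟨h2, ?_⟩
  rw [natDegree_eq_of_degree_eq_some]
  rw [degree_add_eq_left_of_degree_lt]
  · exact degree_X_pow _
  · rwa [degree_X_pow]

end deg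

lemma rp_lam {F R : Type} [Field F] [CommRing R] [Algebra F R] (τ : R) (A Q : List (List F))
    (r : List F) (l : List (List F)) (c : R[X]) (hlen : (l ++ [r]).length = A.length)
    (h : c = rp τ Q * mrp τ A + rp τ (l ++ [r])) :
    aeval τ (pol r) = lam (mrp τ A) c := by
  rcases subsingleton_or_nontrivial R with hR | hR
  · exact Subsingleton.elim _ _
  have hm := monic_mpol' (A.map (fun r => aeval τ (pol r))) A.length (by simp)
  have hm1 : (mrp τ A).Monic := hm.1
  have hm2 : (mrp τ A).natDegree = A.length := hm.2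
  have hd : (rp τ (l ++ [r])).degree < (mrp τ A).degree := by
    rw [degree_eq_natDegree hm1.ne_zero, hm2, ← hlen]
    have := degree_pol_lt' ((l ++ [r]).map (fun r => aeval τ (pol r)))
    rw [List.length_map] at this
    exact this
  have h3 := (div_modByMonic_unique (f := c) (rp τ Q) (rp τ (l ++ [r])) hm1
    ⟨by rw [h]; ring, hd⟩).2
  rw [lam, h3, hm2, ← hlen]
  have h4 : (l ++ [r]).length - 1 = (l.map (fun r => aeval τ (pol r))).length := by simp
  rw [h4, rp, List.map_append, List.map_cons, List.map_nil, coeff_pol_append]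

/-- the context -/
abbrev g0 : Ty := .prod TB (.prod Un (.prod Ma Ma))

section prog
variable {F : Type} [Field F] [DecidableEq F]

/-- the row `1, 0, 0, ...` -/
def e1P : Pr [] g0 Po :=
  .comp (.pair (.comp .snd .fst) (.pair .zero (.comp (.pair .one .nil) .cons))) fitP

lemma val_e1P (tb : List (List F) × List (List F)) (s : ℕ) (A Y : List (List F)) :
    e1P.val () (tb, (un s, (A, Y))) = fit s (0 : F) [1] := by
  simp [e1P, un]

lemma cost_e1P (tb : List (List F) × List (List F)) (s : ℕ) (A Y : List (List F)) :
    e1P.cost () () (tb, (un s, (A, Y))) ≤ 20 * s + 20 := by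
  have h := cost_fitP (F := F) (s := []) (a := .fld) (b := .unit) () () (un s, ((0 : F), [(1 : F)]))
  simp [e1P, un] at h ⊢
  omega

/-- tail of the coefficients of the monic polynomial -/
def tP : Pr [] g0 Ma := onL (.comp (.comp .snd .snd) .fst) .nil
  (.comp (.pair (.comp .snd .snd) (.comp (.pair (.comp .fst e1P) .nil) .cons)) appP)

lemma val_tP (tb : List (List F) × List (List F)) (s : ℕ) (x : List F) (A Y : List (List F)) :
    tP.val () (tb, (un s, (x :: A, Y))) = A ++ [fit s (0 : F) [1]] := by
  have h1 := val_e1P tb s (x :: A) Y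
  simp [tP]
  exact h1

lemma cost_tP (tb : List (List F) × List (List F)) (s : ℕ) (x : List F) (A Y : List (List F)) :
    tP.cost () () (tb, (un s, (x :: A, Y))) ≤ 20 * s + 20 * A.length + 50 := by
  have h1 := cost_e1P tb s (x :: A) Y
  have h := cost_appP (F := F) (s := []) (a := Po) () () (A, [e1P.val () (tb, (un s, (x :: A, Y)))])
  simp [tP] at h h1 ⊢
  omega

/-- one step of the fold -/
def stP : Pr [] (.prod .unit (.prod (.prod .fld Ma) Po)) (.prod .fld Ma) :=
  .pair (.comp (.pair (.comp (.comp .snd .fst) .fst) .one) .add)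
    (.comp (.pair (.comp (.pair (.comp (.comp .snd .fst) .fst) (.comp .snd .snd))
      (mapP (c := .fld) .mul)) (.comp (.comp .snd .fst) .snd)) .cons)

lemma val_stP (c : F) (acc : List (List F)) (r : List F) :
    stP.val () ((), ((c, acc), r)) = (c + 1, r.map (fun x => c * x) :: acc) := by
  simp [stP]

lemma cost_stP (c : F) (acc : List (List F)) (r : List F) :
    stP.cost () () ((), ((c, acc), r)) ≤ 14 * r.length + 40 := by
  have h := cost_mapP_le (F := F) (s := []) (c := .fld) (a := .fld) (b := .fld) .mul () () (c, r) 1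
    (fun _ _ => by simp)
  simp [stP] at h ⊢
  omega

omit [DecidableEq F] in
lemma foldl_st (l : List (List F)) : ∀ (c : F) (acc : List (List F)),
    (List.foldl (fun (y : F × List (List F)) (z : List F) =>
      (y.1 + 1, z.map (fun x => y.1 * x) :: y.2)) (c, acc) l).2 = (dl c l).reverse ++ acc := by
  induction l with
  | nil => intro c acc; simp [dl]
  | cons r t ih => intro c acc; simp [dl, ih]

/-- the derivative -/
def dP : Pr [] g0 Ma :=
  .comp (.comp (.pair .star (.pair (.pair .one .nil) tP)) (foldP (c := .unit) stP))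
    (.comp .snd revP)

lemma val_dP (tb : List (List F) × List (List F)) (s : ℕ) (x : List F) (A Y : List (List F)) :
    dP.val () (tb, (un s, (x :: A, Y))) = dl 1 (A ++ [fit s (0 : F) [1]]) := by
  have h := foldl_st (A ++ [fit s (0 : F) [1]]) 1 []
  have e : (fun (y : F × List (List F)) (z : List F) => stP.val () ((), (y, z))) =
      (fun (y : F × List (List F)) (z : List F) =>
        (y.1 + 1, z.map (fun x => y.1 * x) :: y.2)) := by
    funext y z
    exact val_stP y.1 y.2 z
  simp only [dP, val_comp, val_pair, val_star, val_one, val_nil, val_foldP, val_snd,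
    val_revP]
  erw [e, val_tP, h]
  simp

lemma cost_dP (tb : List (List F) × List (List F)) (s : ℕ) (x : List F) (A Y : List (List F))
    (hA : Sh s A) :
    dP.cost () () (tb, (un s, (x :: A, Y))) ≤
      (14 * s + 120) * (A.length + 1) + 20 * s + 120 := by
  have h1 := cost_tP tb s x A Y
  have h2 := cost_foldP_le (F := F) (s := []) (c := .unit) (b := .prod .fld Ma) (a := Po) stP () ()
    ((), (((1 : F), ([] : List (List F))), A ++ [fit s (0 : F) [1]])) (14 * s + 40)
    (fun _ => True) trivial (fun _ _ _ _ => trivial) (fun y z _ hz => by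
      have h3 := cost_stP y.1 y.2 z
      have h4 : z.length = s := by
        rcases List.mem_append.1 hz with hz | hz
        · exact hA z hz
        · rw [List.mem_singleton.1 hz]; simp
      rw [h4] at h3
      exact h3)
  have h := foldl_st (A ++ [fit s (0 : F) [1]]) 1 []
  have e : (fun (y : F × List (List F)) (z : List F) => stP.val () ((), (y, z))) =
      (fun (y : F × List (List F)) (z : List F) =>
        (y.1 + 1, z.map (fun x => y.1 * x) :: y.2)) := by
    funext y z
    exact val_stP y.1 y.2 z
  have h5 := cost_revP (F := F) (s := []) (a := Po) () () (dl 1 (A ++ [fit s (0 : F) [1]])).reverse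
  rw [List.length_reverse, length_dl] at h5
  simp only [dP, cost_comp, cost_pair, cost_star, cost_one, cost_nil, val_comp, val_pair, val_star,
    val_one, val_nil, val_foldP, cost_snd, val_snd]
  erw [e, val_tP, h]
  simp only [List.append_nil, List.length_append, List.length_singleton] at h2 h5 ⊢
  nlinarith

/-- the product -/
def mP (pM : Pr [] (.prod TB (.prod Un (.prod Ma Ma))) Ma) : Pr [] g0 Ma :=
  .comp (.pair .fst (.pair (.comp .snd .fst) (.pair (.comp (.comp .snd .snd) .snd) dP))) pM

lemma val_mP (pM : Pr [] (.prod TB (.prod Un (.prod Ma Ma))) Ma)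
    (tb : List (List F) × List (List F)) (s : ℕ) (x : List F) (A Y : List (List F)) :
    (mP pM).val () (tb, (un s, (x :: A, Y))) =
      pM.val () (tb, (un s, (Y, dl 1 (A ++ [fit s (0 : F) [1]])))) := by
  have h := val_dP tb s x A Y
  simp only [mP, val_comp, val_pair, val_fst, val_snd]
  erw [h]

lemma cost_mP (pM : Pr [] (.prod TB (.prod Un (.prod Ma Ma))) Ma)
    (tb : List (List F) × List (List F)) (s : ℕ) (x : List F) (A Y : List (List F)) :
    (mP pM).cost () () (tb, (un s, (x :: A, Y))) =
      dP.cost () () (tb, (un s, (x :: A, Y))) +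
      pM.cost () () (tb, (un s, (Y, dl 1 (A ++ [fit s (0 : F) [1]])))) + 9 := by
  have h := val_dP tb s x A Y
  simp only [mP, cost_comp, cost_pair, cost_fst, cost_snd, val_comp, val_pair, val_fst, val_snd]
  erw [h]
  omega

/-- quotient and remainder -/
def qP (pM : Pr [] (.prod TB (.prod Un (.prod Ma Ma))) Ma)
    (pD : Pr [] (.prod TB (.prod Un (.prod Ma Ma))) (.prod Ma Ma)) : Pr [] g0 (.prod Ma Ma) :=
  .comp (.pair .fst (.pair (.comp .snd .fst) (.pair (mP pM) (.comp (.comp .snd .snd) .fst)))) pD

lemma val_qP (pM : Pr [] (.prod TB (.prod Un (.prod Ma Ma))) Ma)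
    (pD : Pr [] (.prod TB (.prod Un (.prod Ma Ma))) (.prod Ma Ma))
    (tb : List (List F) × List (List F)) (s : ℕ) (A Y : List (List F)) :
    (qP pM pD).val () (tb, (un s, (A, Y))) =
      pD.val () (tb, (un s, ((mP pM).val () (tb, (un s, (A, Y))), A))) := rfl

lemma cost_qP (pM : Pr [] (.prod TB (.prod Un (.prod Ma Ma))) Ma)
    (pD : Pr [] (.prod TB (.prod Un (.prod Ma Ma))) (.prod Ma Ma))
    (tb : List (List F) × List (List F)) (s : ℕ) (A Y : List (List F)) :
    (qP pM pD).cost () () (tb, (un s, (A, Y))) =
      (mP pM).cost () () (tb, (un s, (A, Y))) +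
      pD.cost () () (tb, (un s, ((mP pM).val () (tb, (un s, (A, Y))), A))) + 9 := by
  simp only [qP, cost_comp, cost_pair, cost_fst, cost_snd, val_comp, val_pair, val_fst, val_snd]
  omega

/-- the last row -/
def laP (pM : Pr [] (.prod TB (.prod Un (.prod Ma Ma))) Ma)
    (pD : Pr [] (.prod TB (.prod Un (.prod Ma Ma))) (.prod Ma Ma)) : Pr [] g0 Po :=
  .comp (.pair .star (.pair .nil (.comp (qP pM pD) .snd)))
    (foldP (c := .unit) (a := Po) (.comp .snd .snd))

lemma foldl_last {α : Type} (l : List α) (r y : α) :
    List.foldl (fun (_ z : α) => z) y (l ++ [r]) = r := by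
  rw [List.foldl_append]; rfl

lemma val_laP (pM : Pr [] (.prod TB (.prod Un (.prod Ma Ma))) Ma)
    (pD : Pr [] (.prod TB (.prod Un (.prod Ma Ma))) (.prod Ma Ma))
    (x : Ty.D F g0) (l : List (List F)) (r : List F)
    (h : ((qP pM pD).val () x).2 = (l ++ [r] : List (List F))) :
    (laP pM pD).val () x = r := by
  simp only [laP, val_comp, val_pair, val_star, val_nil, val_foldP, val_snd]
  erw [h]
  exact foldl_last l r []

lemma cost_laP (pM : Pr [] (.prod TB (.prod Un (.prod Ma Ma))) Ma)
    (pD : Pr [] (.prod TB (.prod Un (.prod Ma Ma))) (.prod Ma Ma))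
    (x : Ty.D F g0) :
    (laP pM pD).cost () () x ≤ (qP pM pD).cost () () x +
      30 * List.length ((qP pM pD).val () x).2 + 30 := by
  have h2 := cost_foldP_le (F := F) (s := []) (c := .unit) (b := Po) (a := Po) (.comp .snd .snd)
    () () ((), (([] : List F), ((qP pM pD).val () x).2)) 2 (fun _ => True) trivial
    (fun _ _ _ _ => trivial) (fun _ _ _ _ => by simp)
  simp only [laP, cost_comp, cost_pair, cost_star, cost_nil, cost_snd, val_comp, val_pair,
    val_star, val_nil, val_snd] at h2 ⊢
  omega

end prog

lemma lgc_two (m : ℕ) : lgc (m + m + 1) ≤ 2 * lgc (m + 1) := by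
  have h1 : Nat.clog 2 (m + m + 1) ≤ Nat.clog 2 (2 * (m + 1)) := Nat.clog_mono_right 2 (by omega)
  have h2 : Nat.clog 2 (2 * (m + 1)) ≤ Nat.clog 2 (m + 1) + 1 := by
    rcases Nat.eq_zero_or_pos m with rfl | hm
    · exact Nat.clog_le_of_le_pow (by norm_num)
    · apply Nat.clog_le_of_le_pow
      rw [pow_succ]
      have := Nat.le_pow_clog (b := 2) (by norm_num) (m + 1)
      omega
  unfold lgc
  omega

end LamP

open LamP in
/- lam (F, Y F'): derivative of the monic polynomial with lower rows A (m rows): rows k+1 -> (k+1) * row (k+1) shifted, plus m * X^(m-1); the factor k in the field is a running counter (zip A ++ [row 1] with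
[0,1,2,...] computed by repeated addition of 1), then drop the first row. Product with Y (SpecMulR), remainder modulo A (SpecDivR) has m rows; take the last row (row m-1).
rp of the remainder is c %ₘ mrp τ A (uniqueness: degree < m; R nontrivial; trivial R: everything is equal). -/
theorem specLam (h1 : SpecMulR) (h2 : SpecDivR) (h0 : SpecUnits) : SpecLam := by
  obtain ⟨pM, C1, hM⟩ := h1
  obtain ⟨pD, C2, hD⟩ := h2
  obtain ⟨hmono, -, -, -, -, hid, -, hmul, -⟩ := h0
  obtain ⟨K1, hK1⟩ := hmul 3
  refine ⟨laP pM pD, 600 + C1 * K1 + 2 * C2 * K1, 1, ?_⟩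
  intro F _ _ tb s A Y htb hs hA hY hA1 hlen
  obtain ⟨x, A', rfl⟩ : ∃ x A', A = x :: A' := by
    cases A with
    | nil => simp at hA1
    | cons x A' => exact ⟨x, A', rfl⟩
  set m := (x :: A').length with hm
  have hmA : A'.length + 1 = m := by rw [hm]; simp
  -- the derivative
  set D : List (List F) := dl 1 (A' ++ [fit s (0 : F) [1]]) with hDdef
  have hShA' : Sh s A' := fun r hr => hA r (by simp [hr])
  have hDSh : Sh s D := by
    apply Sh_dl
    intro r hr
    rcases List.mem_append.1 hr with hr | hr
    · exact hShA' r hr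
    · rw [List.mem_singleton.1 hr]; simp
  have hDlen : D.length = m := by rw [hDdef, length_dl, ← hmA]; simp
  obtain ⟨hP1, hP2, hP3, hP4⟩ := hM F tb s Y D htb hs hY hDSh
  set P : List (List F) := pM.val () (tb, (un s, (Y, D))) with hPdef
  obtain ⟨hQ1, hQ2, hQ3, hQ4, hQ5, hQ6⟩ := hD F tb s P (x :: A') htb hs hP1 hA
  have hval1 : (mP pM).val () (tb, (un s, (x :: A', Y))) = P := val_mP pM tb s x A' Y
  have hval2 : (qP pM pD).val () (tb, (un s, (x :: A', Y))) =
      pD.val () (tb, (un s, (P, x :: A'))) := by
    rw [val_qP, hval1]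
  set Q := pD.val () (tb, (un s, (P, x :: A'))) with hQdef
  -- the last row
  obtain ⟨l, r, hlr⟩ : ∃ (l : List (List F)) (r : List F), Q.2 = l ++ [r] := by
    have hne : (Q.2 : List (List F)) ≠ [] := by
      intro he
      have h3 : List.length (Q.2 : List (List F)) = m := hQ4
      rw [he, List.length_nil] at h3
      omega
    exact ⟨_, _, (List.dropLast_append_getLast hne).symm⟩
  have hlast : (laP pM pD).val () (tb, (un s, (x :: A', Y))) = r :=
    val_laP pM pD _ l r (by rw [hval2]; exact hlr)
  refine ⟨?_, ?_, ?_⟩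
  · rw [hlast]
    apply hQ3
    rw [hlr]
    exact List.mem_append_right l (List.mem_singleton.2 rfl)
  · intro R _ _ τ hτ
    rw [hlast]
    have h5 := hP3 R τ hτ
    have h6 := hQ5 R τ hτ
    rw [hlr] at h6
    have h7 : rp τ D = derivative (mrp τ (x :: A')) := rp_deriv τ s hs x A'
    rw [h7] at h5
    rw [← h5]
    refine rp_lam τ (x :: A') Q.1 r l _ ?_ h6
    rw [← hlr]
    exact hQ4
  · have e1 := cost_laP pM pD (tb, (un s, (x :: A', Y)))
    have e2 := cost_qP pM pD tb s (x :: A') Y
    have e3 := cost_mP pM tb s x A' Y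
    have e4 := cost_dP tb s x A' Y hShA'
    rw [hval1] at e2
    rw [hval2] at e1
    have e5 : List.length (Q.2 : List (List F)) = m := hQ4
    rw [e5] at e1
    have e6 : P.length = m + m := by rw [hP2, hlen, hDlen]
    rw [hlen, hDlen] at hP4
    rw [e6] at hQ6
    have e7 : pM.cost () () (tb, (un s, (Y, dl 1 (A' ++ [fit s (0 : F) [1]])))) ≤
      C1 * mu (s * (m + m) + 1) := hP4
    have e8 : pD.cost () () (tb, (un s, (P, x :: A'))) ≤
      C2 * lgc (m + m + 1) * mu (s * (m + m + m) + 1) := hQ6
    -- cost units
    have f1 : mu (s * (m + m) + 1) ≤ K1 * mu (s * m + 1) :=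
      (hmono _ _ (by nlinarith)).trans (hK1 (s * m))
    have f2 : mu (s * (m + m + m) + 1) ≤ K1 * mu (s * m + 1) :=
      (hmono _ _ (by nlinarith)).trans (hK1 (s * m))
    have f3 : s * m + 1 ≤ mu (s * m + 1) := hid _
    have f4 := lgc_two m
    have f5 : 1 ≤ lgc (m + 1) := by unfold lgc; omega
    have f6 : C2 * lgc (m + m + 1) * mu (s * (m + m + m) + 1) ≤
        C2 * (2 * lgc (m + 1)) * (K1 * mu (s * m + 1)) :=
      Nat.mul_le_mul (Nat.mul_le_mul_left _ f4) f2
    have f7 : C1 * mu (s * (m + m) + 1) ≤ C1 * (K1 * mu (s * m + 1)) := Nat.mul_le_mul_left _ f1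
    have f8 : m ≤ s * m := Nat.le_mul_of_pos_left m hs
    have f9 : s ≤ s * m := Nat.le_mul_of_pos_right s hA1
    have f10 : (14 * s + 120) * (A'.length + 1) + 20 * s + 120 ≤ 400 * (s * m + 1) := by
      rw [hmA]
      have : (14 * s + 120) * m = 14 * (s * m) + 120 * m := by ring
      omega
    rw [pow_one]
    set U := mu (s * m + 1) with hU
    set Lg := lgc (m + 1) with hLg
    have g1 : C1 * (K1 * U) ≤ C1 * K1 * Lg * U := by
      have : C1 * K1 * 1 * U ≤ C1 * K1 * Lg * U :=
        Nat.mul_le_mul_right _ (Nat.mul_le_mul_left _ f5)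
      calc C1 * (K1 * U) = C1 * K1 * 1 * U := by ring
        _ ≤ _ := this
    have g2 : U ≤ Lg * U := Nat.le_mul_of_pos_left U f5
    have g3 : (600 + C1 * K1 + 2 * C2 * K1) * Lg * U =
        600 * (Lg * U) + C1 * K1 * Lg * U + C2 * (2 * Lg) * (K1 * U) := by ring
    rw [g3]
    have g4 : (laP pM pD).cost () () (tb, (un s, (x :: A', Y))) ≤
        400 * (s * m + 1) + C1 * mu (s * (m + m) + 1) +
        C2 * lgc (m + m + 1) * mu (s * (m + m + m) + 1) + 30 * m + 60 := by
      omega
    omega

end Pool.Agent.H330FB.JP3
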