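import Pool.Agent.H330FB.StmtsR2
set_option autoImplicit false

/-!
# Vectors which are constant on blocks solve the system
-/

noncomputable section
namespace Pool.Agent.H330FB.JR10
open Polynomial

namespace GS

/-! ### lam -/

section lam
variable {R : Type} [CommRing R]

lemma lam_add (F c d : R[X]) : lam F (c + d) = lam F c + lam F d := by
  unfold lam; rw [add_modByMonic, coeff_add]

lemma lam_zero (F : R[X]) : lam F 0 = 0 := by
  unfold lam; rw [zero_modByMonic, coeff_zero]

lemma lam_C_mul (F : R[X]) (a : R) (c : R[X]) : lam F (C a * c) = a * lam F c := by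
  unfold lam; rw [← smul_eq_C_mul, smul_modByMonic, coeff_smul, smul_eq_mul]

lemma lam_sum {ι : Type} (s : Finset ι) (F : R[X]) (c : ι → R[X]) :
    lam F (∑ i ∈ s, c i) = ∑ i ∈ s, lam F (c i) := by
  classical
  induction s using Finset.induction_on with
  | empty => simp [lam_zero]
  | insert a s ha ih => rw [Finset.sum_insert ha, Finset.sum_insert ha, lam_add, ih]

lemma lam_congr {F c d : R[X]} (hF : F.Monic) (h : F ∣ c - d) : lam F c = lam F d := by
  unfold lam
  have h1 : (c - d) %ₘ F = 0 := (modByMonic_eq_zero_iff_dvd hF).2 h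
  rw [sub_modByMonic, sub_eq_zero] at h1
  rw [h1]

lemma lam_map {R' : Type} [CommRing R'] [Nontrivial R'] (f : R →+* R') {F : R[X]} (hF : F.Monic)
    (c : R[X]) : lam (F.map f) (c.map f) = f (lam F c) := by
  unfold lam
  rw [← map_modByMonic f hF, coeff_map, hF.natDegree_map]

end lam

/-! ### total degree -/

section TD
variable {A : Type} [CommRing A]

lemma TD_mono {f : A[X][X]} {k m : ℕ} (h : TD f k) (hkm : k ≤ m) : TD f m :=
  fun i j hij => h i j (by omega)

lemma TD_add {f g : A[X][X]} {k : ℕ} (hf : TD f k) (hg : TD g k) : TD (f + g) k := by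
  intro i j hij
  rw [coeff_add, coeff_add, hf i j hij, hg i j hij, add_zero]

lemma TD_mul {f g : A[X][X]} {k m : ℕ} (hf : TD f k) (hg : TD g m) : TD (f * g) (k + m) := by
  intro i j hij
  rw [coeff_mul, finsetSum_coeff]
  refine Finset.sum_eq_zero fun x hx => ?_
  rw [coeff_mul]
  refine Finset.sum_eq_zero fun y hy => ?_
  rw [Finset.HasAntidiagonal.mem_antidiagonal] at hx hy
  by_cases h : k < x.1 + y.1
  · rw [hf _ _ h, zero_mul]
  · rw [hg x.2 y.2 (by omega), mul_zero]

lemma TD_derivative {f : A[X][X]} {k : ℕ} (hf : TD f k) : TD (derivative f) (k - 1) := by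
  intro i j hij
  rw [coeff_derivative]
  have h1 := hf (i + 1) j (by omega)
  have h2 : ((i : A[X]) + 1) = C ((i : A) + 1) := by simp
  rw [h2, coeff_mul_C, h1, zero_mul]

lemma TD_CC (c : A) : TD (C (C c) : A[X][X]) 0 := by
  intro i j hij
  rw [coeff_C]
  split_ifs with h
  · rw [coeff_C, if_neg (by omega)]
  · simp

/-- the grading trick -/
noncomputable def ph (A : Type) [CommRing A] : A[X][X] →+* A[X][X][X] :=
  eval₂RingHom (eval₂RingHom ((C : A[X][X] →+* A[X][X][X]).comp ((C : A[X] →+* A[X][X]).comp C))
    (C (C X) * X : A[X][X][X])) (C X * X : A[X][X][X])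

lemma ph_monomial (i j : ℕ) (c : A) :
    ph A (monomial i (monomial j c)) = monomial (i + j) (monomial i (monomial j c)) := by
  unfold ph
  rw [coe_eval₂RingHom, eval₂_monomial, coe_eval₂RingHom, eval₂_monomial]
  simp only [← C_mul_X_pow_eq_monomial, RingHom.comp_apply, map_mul, map_pow, pow_add]
  ring

lemma ph_coeff (f : A[X][X]) (m i j : ℕ) :
    (((ph A f).coeff m).coeff i).coeff j = if i + j = m then (f.coeff i).coeff j else 0 := by
  induction f using Polynomial.induction_on' with
  | add p q hp hq =>
    rw [map_add]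
    simp only [coeff_add, hp, hq]
    split_ifs <;> simp
  | monomial a p =>
    induction p using Polynomial.induction_on' with
    | add p q hp hq =>
      rw [map_add, map_add]
      simp only [coeff_add, hp, hq]
      split_ifs <;> simp
    | monomial b c =>
      rw [ph_monomial]
      simp only [coeff_monomial]
      by_cases h1 : a + b = m
      · rw [if_pos h1]
        simp only [coeff_monomial]
        by_cases h2 : a = i
        · rw [if_pos h2]
          simp only [coeff_monomial]
          by_cases h3 : b = j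
          · rw [if_pos h3, if_pos (by omega)]
          · rw [if_neg h3]; simp
        · rw [if_neg h2]; simp
      · rw [if_neg h1]
        by_cases h2 : a = i
        · rw [if_pos h2]
          simp only [coeff_monomial]
          by_cases h3 : b = j
          · rw [if_neg (by omega)]; simp
          · rw [if_neg h3]; simp
        · rw [if_neg h2]; simp

lemma ph_natDegree_ge [Nontrivial A] {f : A[X][X]} (hf : f.Monic) :
    ph A f ≠ 0 ∧ f.natDegree ≤ (ph A f).natDegree := by
  have h1 : (((ph A f).coeff f.natDegree).coeff f.natDegree).coeff 0 = 1 := by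
    rw [ph_coeff, if_pos (by omega), hf.coeff_natDegree, coeff_one_zero]
  have h2 : (ph A f).coeff f.natDegree ≠ 0 := by
    intro h; rw [h] at h1; simp at h1
  refine ⟨?_, le_natDegree_of_ne_zero h2⟩
  intro h; rw [h] at h2; simp at h2

lemma TD_of_mul [IsDomain A] {f g : A[X][X]} (hf : f.Monic) (hg : g.Monic)
    (h : TD (f * g) (f.natDegree + g.natDegree)) : TD f f.natDegree := by
  obtain ⟨hf0, hf1⟩ := ph_natDegree_ge hf
  obtain ⟨hg0, hg1⟩ := ph_natDegree_ge hg
  have h1 : (ph A (f * g)).natDegree ≤ f.natDegree + g.natDegree := by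
    rw [natDegree_le_iff_coeff_eq_zero]
    intro m hm
    ext i j
    rw [ph_coeff]
    split_ifs with hij
    · rw [h i j (by omega)]; simp
    · simp
  rw [map_mul, natDegree_mul hf0 hg0] at h1
  have h2 : (ph A f).natDegree ≤ f.natDegree := by omega
  intro i j hij
  have h3 := ph_coeff f (i + j) i j
  have h4 : (ph A f).coeff (i + j) = 0 := coeff_eq_zero_of_natDegree_lt (by omega)
  rw [if_pos rfl, h4] at h3
  simpa using h3.symm

end TD

/-! ### splitting the local factors -/

section split
variable {K : Type} [Field K] {R : Type} [CommRing R] {ε : R →+* K}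

/-- coprimality can be tested modulo a nilpotent kernel -/
lemma coprime_lift (hsurj : Function.Surjective ε) (hnil : ∀ x, ε x = 0 → IsNilpotent x)
    {f g : R[X]} (h : IsCoprime (f.map ε) (g.map ε)) : IsCoprime f g := by
  obtain ⟨a, b, hab⟩ := h
  obtain ⟨a', rfl⟩ := map_surjective ε hsurj a
  obtain ⟨b', rfl⟩ := map_surjective ε hsurj b
  have h1 : (a' * f + b' * g - 1).map ε = 0 := by
    rw [Polynomial.map_sub, Polynomial.map_add, Polynomial.map_mul, Polynomial.map_mul, hab,
      Polynomial.map_one, sub_self]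
  have h2 : IsNilpotent (a' * f + b' * g - 1) := by
    rw [Polynomial.isNilpotent_iff]
    intro i
    apply hnil
    have h3 : ((a' * f + b' * g - 1).map ε).coeff i = (0 : K[X]).coeff i := by rw [h1]
    rwa [coeff_map, coeff_zero] at h3
  have h3 : IsUnit (a' * f + b' * g) := by
    have := h2.isUnit_one_add
    rwa [add_sub_cancel] at this
  obtain ⟨u, hu⟩ := h3
  refine ⟨↑u⁻¹ * a', ↑u⁻¹ * b', ?_⟩
  have h4 : (↑u⁻¹ * a') * f + (↑u⁻¹ * b') * g = ↑u⁻¹ * (a' * f + b' * g) := by ring
  rw [h4, ← hu, Units.inv_mul]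

lemma split (hsurj : Function.Surjective ε) (hnil : ∀ x, ε x = 0 → IsNilpotent x)
    {r : ℕ} {F : Fin r → R[X]} (hFm : ∀ i, (F i).Monic) (hirr : ∀ i, Irreducible ((F i).map ε))
    (hinj : Function.Injective (fun i => (F i).map ε)) (I : Finset (Fin r)) :
    ∀ A B : R[X], A.Monic → B.Monic → A * B = ∏ i ∈ I, F i →
      ∃ J ⊆ I, A = ∏ i ∈ J, F i ∧ B = ∏ i ∈ I \ J, F i := by
  classical
  induction I using Finset.induction_on with
  | empty =>
    intro A B hA hB hAB
    rw [Finset.prod_empty] at hAB
    have hA1 : A = 1 := by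
      by_cases htr : Nontrivial R
      · have h1 := hA.natDegree_mul hB
        rw [hAB, natDegree_one] at h1
        exact hA.natDegree_eq_zero.1 (by omega)
      · rw [not_nontrivial_iff_subsingleton] at htr
        exact Subsingleton.elim _ _
    refine ⟨∅, le_rfl, by simpa using hA1, ?_⟩
    rw [hA1, one_mul] at hAB
    simpa using hAB
  | insert i I hi ih =>
    intro A B hA hB hAB
    rw [Finset.prod_insert hi] at hAB
    have hnd : ¬ (F i).map ε ∣ (∏ j ∈ I, F j).map ε := by
      intro hd
      rw [Polynomial.map_prod] at hd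
      obtain ⟨j, hj, hd⟩ := (hirr i).prime.exists_mem_finset_dvd hd
      have h1 : Associated ((F i).map ε) ((F j).map ε) := (hirr i).associated_of_dvd (hirr j) hd
      have h2 : (F i).map ε = (F j).map ε :=
        eq_of_monic_of_associated ((hFm i).map ε) ((hFm j).map ε) h1
      exact hi (hinj h2 ▸ hj)
    have hAB' : A.map ε * B.map ε = (F i).map ε * (∏ j ∈ I, F j).map ε := by
      rw [← Polynomial.map_mul, hAB, Polynomial.map_mul]
    -- the factor divides exactly one of the two
    have key : ∀ A B : R[X], A.Monic → B.Monic → A * B = F i * ∏ j ∈ I, F j →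
        (F i).map ε ∣ A.map ε → ∃ A' : R[X], A'.Monic ∧ A = F i * A' ∧
          A' * B = ∏ j ∈ I, F j := by
      intro A B hA hB hAB hd
      have hnB : ¬ (F i).map ε ∣ B.map ε := by
        intro hdB
        obtain ⟨A₁, hA₁⟩ := hd
        obtain ⟨B₁, hB₁⟩ := hdB
        have h1 : A.map ε * B.map ε = (F i).map ε * (∏ j ∈ I, F j).map ε := by
          rw [← Polynomial.map_mul, hAB, Polynomial.map_mul]
        rw [hA₁, hB₁] at h1
        apply hnd
        refine ⟨A₁ * B₁, ?_⟩
        have h2 : (F i).map ε * (((F i).map ε) * (A₁ * B₁)) =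
            (F i).map ε * (∏ j ∈ I, F j).map ε := by rw [← h1]; ring
        exact (mul_left_cancel₀ (hirr i).ne_zero h2).symm
      have hcop : IsCoprime (F i) B :=
        coprime_lift hsurj hnil (((hirr i).coprime_iff_not_dvd).2 hnB)
      have hdvd : F i ∣ A := hcop.dvd_of_dvd_mul_right (hAB ▸ dvd_mul_right _ _)
      obtain ⟨A', hA'⟩ := hdvd
      have hA'm : A'.Monic := by
        rw [hA'] at hA
        exact (hFm i).of_mul_monic_left hA
      refine ⟨A', hA'm, hA', ?_⟩
      have h3 : F i * (A' * B) = F i * ∏ j ∈ I, F j := by rw [← hAB, hA']; ring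
      exact (hFm i).isRegular.left h3
    have hor : (F i).map ε ∣ A.map ε ∨ (F i).map ε ∣ B.map ε :=
      (hirr i).prime.dvd_or_dvd (hAB' ▸ dvd_mul_right _ _)
    rcases hor with hd | hd
    · obtain ⟨A', hA'm, hA', hprod⟩ := key A B hA hB hAB hd
      obtain ⟨J, hJ, h1, h2⟩ := ih A' B hA'm hB hprod
      have hiJ : i ∉ J := fun h => hi (hJ h)
      refine ⟨insert i J, Finset.insert_subset_insert i hJ, ?_, ?_⟩
      · rw [Finset.prod_insert hiJ, hA', h1]
      · rw [h2]
        congr 1
        ext x
        simp only [Finset.mem_sdiff, Finset.mem_insert]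
        constructor
        · rintro ⟨hx, hx2⟩
          refine ⟨Or.inr hx, ?_⟩
          rintro (rfl | h)
          · exact hi hx
          · exact hx2 h
        · rintro ⟨hx, hx2⟩
          push Not at hx2
          exact ⟨hx.resolve_left hx2.1, hx2.2⟩
    · obtain ⟨B', hB'm, hB', hprod⟩ := key B A hB hA (by rw [mul_comm]; exact hAB) hd
      obtain ⟨J, hJ, h1, h2⟩ := ih A B' hA hB'm (by rw [mul_comm]; exact hprod)
      have hiJ : i ∉ J := fun h => hi (hJ h)
      refine ⟨J, hJ.trans (Finset.subset_insert i I), h1, ?_⟩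
      have e : insert i I \ J = insert i (I \ J) := by
        rw [Finset.insert_sdiff_of_notMem _ hiJ]
      rw [e, Finset.prod_insert (by simp [hi]), hB', h2]

end split

/-! ### construction of the lift of `V_l` -/

section construct

lemma evt_C {K L : Type} [Field K] [Field L] [Algebra K L] (b : L) (c : K) :
    evt b (C c) = algebraMap K L c := by
  unfold evt; simp

variable {K L : Type} [Field K] [Field L] [Fintype K] [Algebra K L]
  {R : Type} [CommRing R]

/-- the part of `V_l` over a set of indices -/
noncomputable def VI (π : K[X] →+* R) {r : ℕ} (F : Fin r → R[X]) (l : Fin r → K)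
    (I : Finset (Fin r)) : R[X] :=
  ∑ i ∈ I, C (π (C (l i))) * derivative (F i) * ∏ j ∈ I.erase i, F j

omit [Fintype K] in
lemma VI_part (π : K[X] →+* R) {r : ℕ} (F : Fin r → R[X]) (l : Fin r → K)
    {J J' : Finset (Fin r)} (h : Disjoint J J') :
    ∑ i ∈ J, C (π (C (l i))) * derivative (F i) * ∏ j ∈ (J ∪ J').erase i, F j =
      VI π F l J * ∏ j ∈ J', F j := by
  rw [VI, Finset.sum_mul]
  refine Finset.sum_congr rfl fun i hi => ?_
  have hi' : i ∉ J' := Finset.disjoint_left.1 h hi
  have e : (J ∪ J').erase i = J.erase i ∪ J' := by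
    ext x
    simp only [Finset.mem_erase, Finset.mem_union]
    constructor
    · rintro ⟨h1, h2 | h2⟩
      · exact Or.inl ⟨h1, h2⟩
      · exact Or.inr h2
    · rintro (⟨h1, h2⟩ | h2)
      · exact ⟨h1, Or.inl h2⟩
      · exact ⟨fun h3 => hi' (h3 ▸ h2), Or.inr h2⟩
  have hdis : Disjoint (J.erase i) J' := h.mono_left (Finset.erase_subset _ _)
  rw [e, Finset.prod_union hdis]
  ring

omit [Fintype K] in
lemma VI_union (π : K[X] →+* R) {r : ℕ} (F : Fin r → R[X]) (l : Fin r → K)
    {J J' : Finset (Fin r)} (h : Disjoint J J') :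
    VI π F l (J ∪ J') = VI π F l J * ∏ j ∈ J', F j + VI π F l J' * ∏ j ∈ J, F j := by
  rw [← VI_part π F l h, ← VI_part π F l h.symm]
  unfold VI
  rw [Finset.sum_union h, Finset.union_comm J' J]

lemma construct {π : K[X] →+* R} {ε : R →+* K} (hsurj : Function.Surjective ε)
    (hnil : ∀ x, ε x = 0 → IsNilpotent x) {r : ℕ} {S : K[X][X]} {F : Fin r → R[X]}
    (hFm : ∀ i, (F i).Monic) (hirr : ∀ i, Irreducible ((F i).map ε))
    (hinj : Function.Injective (fun i => (F i).map ε)) (l : Fin r → K)
    (hl : ∀ i j, SameBlock π S F i j → l i = l j) (m : ℕ) :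
    ∀ S₁ : K[X][X], S₁.natDegree = m → S₁.Monic → TD S₁ S₁.natDegree → S₁ ∣ S →
      ∀ I : Finset (Fin r), S₁.map π = ∏ i ∈ I, F i →
      ∃ v : K[X][X], v.map π = VI π F l I ∧ TD v (S₁.natDegree - 1) ∧
        ∀ b : L, IsCoprime (fib S b) (derivative (fib S b)) → ∃ u : L[X],
          fib S₁ b ∣ fib v b - u * derivative (fib S₁ b) ∧
          fib S₁ b ∣ u ^ Fintype.card K - u := by
  classical
  have hR : Nontrivial R := ε.domain_nontrivial
  induction m using Nat.strong_induction_on with
  | _ m ih =>
  intro S₁ hm hS₁ hTD hdvd I hI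
  by_cases h0 : S₁.natDegree = 0
  · have h1 : S₁ = 1 := hS₁.natDegree_eq_zero.1 h0
    have hIe : I = ∅ := by
      by_contra hne
      obtain ⟨i, hi⟩ := Finset.nonempty_iff_ne_empty.2 hne
      have h2 : F i ∣ 1 := by
        rw [h1, Polynomial.map_one] at hI
        rw [hI]
        exact Finset.dvd_prod_of_mem F hi
      have h3 : IsUnit ((F i).map ε) := by
        have := (isUnit_of_dvd_one h2).map (mapRingHom ε)
        simpa using this
      exact (hirr i).not_isUnit h3
    refine ⟨0, ?_, ?_, ?_⟩
    · rw [hIe]; simp [VI]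
    · intro i j _; simp
    · intro b _
      refine ⟨0, ?_, ?_⟩
      · rw [h1]; simp [fib]
      · rw [h1]; simp [fib]
  · by_cases hir : Irreducible S₁
    · have hIne : I.Nonempty := by
        by_contra hne
        rw [Finset.not_nonempty_iff_eq_empty] at hne
        rw [hne, Finset.prod_empty] at hI
        have := hS₁.natDegree_map π
        rw [hI, natDegree_one] at this
        exact h0 this.symm
      obtain ⟨i₀, hi₀⟩ := hIne
      have hconst : ∀ i ∈ I, l i = l i₀ := fun i hi => by
        apply hl
        refine ⟨S₁, hS₁, hir, hdvd, ?_, ?_⟩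
        · rw [hI]; exact Finset.dvd_prod_of_mem F hi
        · rw [hI]; exact Finset.dvd_prod_of_mem F hi₀
      refine ⟨C (C (l i₀)) * derivative S₁, ?_, ?_, ?_⟩
      · rw [Polynomial.map_mul, map_C, ← derivative_map, hI, derivative_prod_finset, VI,
          Finset.mul_sum]
        refine Finset.sum_congr rfl fun i hi => ?_
        rw [hconst i hi]
        ring
      · have := TD_mul (TD_CC (l i₀)) (TD_derivative hTD)
        simpa using this
      · intro b _
        refine ⟨C (algebraMap K L (l i₀)), ?_, ?_⟩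
        · have : fib (C (C (l i₀)) * derivative S₁) b =
              C (algebraMap K L (l i₀)) * derivative (fib S₁ b) := by
            unfold fib
            rw [Polynomial.map_mul, map_C, derivative_map, evt_C]
          rw [this, sub_self]
          exact dvd_zero _
        · rw [← C_pow, ← map_pow, FiniteField.pow_card, sub_self]
          exact dvd_zero _
    · have h1 : ∃ A B : K[X][X], A.Monic ∧ B.Monic ∧ A * B = S₁ ∧ A.natDegree ≠ 0 ∧
          B.natDegree ≠ 0 := by
        by_contra hcon
        push Not at hcon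
        apply hir
        rw [hS₁.irreducible_iff_natDegree]
        refine ⟨fun h => h0 (by rw [h, natDegree_one]), fun f g hf hg hfg => ?_⟩
        by_cases hf0 : f.natDegree = 0
        · exact Or.inl hf0
        · exact Or.inr (hcon f g hf hg hfg hf0)
      obtain ⟨A, B, hA, hB, hAB, hA0, hB0⟩ := h1
      have hdeg : S₁.natDegree = A.natDegree + B.natDegree := by
        rw [← hAB, hA.natDegree_mul hB]
      have hTDA : TD A A.natDegree := TD_of_mul hA hB (by rw [hAB, ← hdeg]; exact hTD)
      have hTDB : TD B B.natDegree :=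
        TD_of_mul hB hA (by rw [mul_comm B A, hAB, add_comm, ← hdeg]; exact hTD)
      obtain ⟨J, hJ, hJA, hJB⟩ := split hsurj hnil hFm hirr hinj I (A.map π) (B.map π)
        (hA.map π) (hB.map π) (by rw [← Polynomial.map_mul, hAB, hI])
      have hAS : A ∣ S := (hAB ▸ dvd_mul_right A B).trans hdvd
      have hBS : B ∣ S := (hAB ▸ dvd_mul_left B A).trans hdvd
      obtain ⟨vA, hvA, hvATD, hvAu⟩ := ih A.natDegree (by omega) A rfl hA hTDA hAS J hJA
      obtain ⟨vB, hvB, hvBTD, hvBu⟩ := ih B.natDegree (by omega) B rfl hB hTDB hBS (I \ J) hJB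
      refine ⟨vA * B + vB * A, ?_, ?_, ?_⟩
      · have hdis : Disjoint J (I \ J) := Finset.disjoint_sdiff
        have hu : J ∪ I \ J = I := Finset.union_sdiff_of_subset hJ
        rw [Polynomial.map_add, Polynomial.map_mul, Polynomial.map_mul, hvA, hvB, hJA, hJB]
        conv_rhs => rw [← hu]
        rw [VI_union π F l hdis]
      · refine TD_add ?_ ?_
        · exact TD_mono (TD_mul hvATD hTDB) (by omega)
        · exact TD_mono (TD_mul hvBTD hTDA) (by omega)
      · intro b hb
        obtain ⟨uA, huA1, huA2⟩ := hvAu b hb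
        obtain ⟨uB, huB1, huB2⟩ := hvBu b hb
        have hfS : fib S₁ b = fib A b * fib B b := by
          unfold fib; rw [← hAB, Polynomial.map_mul]
        have hcop : IsCoprime (fib A b) (fib B b) := by
          obtain ⟨W, hW⟩ := hdvd
          have h3 : fib S b = (fib A b * fib B b) * fib W b := by
            rw [← hfS]; unfold fib; rw [hW, Polynomial.map_mul]
          have h4 : (fib S b).Separable := hb
          rw [h3] at h4
          exact h4.of_mul_left.isCoprime
        obtain ⟨α, β, hαβ⟩ := hcop
        set f := fib A b with hf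
        set g := fib B b with hg
        set u := uA * (β * g) + uB * (α * f) with hu
        have e1 : u - uA = (uB * α - uA * α) * f := by
          rw [hu]; linear_combination uA * hαβ
        have e2 : u - uB = (uA * β - uB * β) * g := by
          rw [hu]; linear_combination uB * hαβ
        have d1 : f ∣ u - uA := Dvd.intro_left _ e1.symm
        have d2 : g ∣ u - uB := Dvd.intro_left _ e2.symm
        have hcop' : IsCoprime f g := ⟨α, β, hαβ⟩
        have hv : fib (vA * B + vB * A) b = fib vA b * g + fib vB b * f := by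
          rw [hf, hg]; unfold fib
          rw [Polynomial.map_add, Polynomial.map_mul, Polynomial.map_mul]
        refine ⟨u, ?_, ?_⟩
        · rw [hfS, hv, derivative_mul]
          apply hcop'.mul_dvd
          · have e3 : fib vA b * g + fib vB b * f - u * (derivative f * g + f * derivative g) =
                (fib vA b - uA * derivative f) * g - (u - uA) * (derivative f * g) +
                f * (fib vB b - u * derivative g) := by ring
            rw [e3]
            exact dvd_add (dvd_sub (huA1.mul_right _) (d1.mul_right _)) (dvd_mul_right _ _)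
          · have e3 : fib vA b * g + fib vB b * f - u * (derivative f * g + f * derivative g) =
                (fib vB b - uB * derivative g) * f - (u - uB) * (derivative g * f) +
                g * (fib vA b - u * derivative f) := by ring
            rw [e3]
            exact dvd_add (dvd_sub (huB1.mul_right _) (d2.mul_right _)) (dvd_mul_right _ _)
        · rw [hfS]
          apply hcop'.mul_dvd
          · have e3 : u ^ Fintype.card K - u = (u ^ Fintype.card K - uA ^ Fintype.card K) +
                (uA ^ Fintype.card K - uA) - (u - uA) := by ring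
            rw [e3]
            exact dvd_sub (dvd_add (d1.trans (sub_dvd_pow_sub_pow _ _ _)) huA2) d1
          · have e3 : u ^ Fintype.card K - u = (u ^ Fintype.card K - uB ^ Fintype.card K) +
                (uB ^ Fintype.card K - uB) - (u - uB) := by ring
            rw [e3]
            exact dvd_sub (dvd_add (d2.trans (sub_dvd_pow_sub_pow _ _ _)) huB2) d2

end construct

/-! ### computation with the test series -/

section comp

lemma tpol_degree {K : Type} [Field K] {M : ℕ} (c : Fin M → K) : (tpol c).degree < M := by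
  unfold tpol
  refine lt_of_le_of_lt (degree_sum_le _ _) ?_
  rw [Finset.sup_lt_iff (by exact WithBot.bot_lt_coe M)]
  intro i _
  refine lt_of_le_of_lt (degree_C_mul_X_pow_le _ _) ?_
  exact_mod_cast i.2

lemma tpol_coeff {K : Type} [Field K] {M : ℕ} (c : Fin M → K) (i : Fin M) :
    (tpol c).coeff i = c i := by
  unfold tpol
  rw [finsetSum_coeff, Finset.sum_eq_single i]
  · simp
  · intro j _ hj
    rw [coeff_C_mul, coeff_X_pow, if_neg (fun h => hj (Fin.ext h.symm)), mul_zero]
  · simp

lemma tpol_coeff_ge {K : Type} [Field K] {M : ℕ} (c : Fin M → K) {j : ℕ} (hj : M ≤ j) :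
    (tpol c).coeff j = 0 := by
  apply coeff_eq_zero_of_degree_lt
  exact lt_of_lt_of_le (tpol_degree c) (by exact_mod_cast hj)

variable {K L : Type} [Field K] [Field L] [Algebra K L] {R : Type} [CommRing R]

/-- the polynomial `G` -/
noncomputable def GG {N n : ℕ} (e : (Fin N → L) ≃ₗ[K] (Fin (2 * N) → K))
    (g : Fin N → Fin n → L) : K[X][X] :=
  ∑ i : Fin n, C (tpol (e (fun j => g j i))) * X ^ (i : ℕ)

lemma GG_coeff {N n : ℕ} (e : (Fin N → L) ≃ₗ[K] (Fin (2 * N) → K))
    (g : Fin N → Fin n → L) (i : ℕ) :
    (GG e g).coeff i = if h : i < n then tpol (e (fun j => g j ⟨i, h⟩)) else 0 := by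
  unfold GG
  rw [finsetSum_coeff]
  split_ifs with h
  · rw [Finset.sum_eq_single ⟨i, h⟩]
    · simp
    · intro j _ hj
      rw [coeff_C_mul, coeff_X_pow, if_neg (fun h' => hj (Fin.ext h'.symm)), mul_zero]
    · simp
  · refine Finset.sum_eq_zero fun j _ => ?_
    have : i ≠ j := by have := j.2; omega
    rw [coeff_C_mul, coeff_X_pow, if_neg this, mul_zero]

lemma GG_TD {N n : ℕ} (hN : 1 ≤ N) (hn : 1 ≤ n) (e : (Fin N → L) ≃ₗ[K] (Fin (2 * N) → K))
    (g : Fin N → Fin n → L) : TD (GG e g) ((2 * N - 1) + (n - 1)) := by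
  intro i j hij
  rw [GG_coeff]
  split_ifs with h
  · exact tpol_coeff_ge _ (by omega)
  · simp

lemma GG_map {N n : ℕ} {π : K[X] →+* R} {s : ℕ} {a : Fin N → L} {p : K[X]}
    (e : (Fin N → L) ≃ₗ[K] (Fin (2 * N) → K))
    (he : ∀ τ : Fin N → L, π (p * Pser K s a τ) = π (tpol (e τ)))
    (g : Fin N → Fin n → L) : C (π p) * Yp π s a g = (GG e g).map π := by
  unfold Yp GG
  rw [Finset.mul_sum, Polynomial.map_sum]
  refine Finset.sum_congr rfl fun i _ => ?_
  rw [Polynomial.map_mul, Polynomial.map_pow, map_X, map_C, ← he, map_mul, C_mul]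
  ring

lemma GG_fib {N n : ℕ} {a : Fin N → L} {p : K[X]}
    (e : (Fin N → L) ≃ₗ[K] (Fin (2 * N) → K))
    (he : ∀ (τ : Fin N → L) j, evt (a j) (tpol (e τ)) = τ j * evt (a j) p)
    (g : Fin N → Fin n → L) (j : Fin N) :
    (GG e g).map (evt (a j)) = C (evt (a j) p) * gp (g j) := by
  unfold GG gp
  rw [Finset.mul_sum, Polynomial.map_sum]
  refine Finset.sum_congr rfl fun i _ => ?_
  rw [Polynomial.map_mul, Polynomial.map_pow, map_X, map_C, he, C_mul]
  ring

lemma gp_gfrob {S : K[X][X]} (hS : S.Monic) {n : ℕ} (hn : S.natDegree = n) (Q : ℕ) (b : L)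
    (g : Fin n → L) : gp (gfrob S Q b g) = (gp g) ^ Q %ₘ fib S b := by
  have hm : (fib S b).Monic := hS.map _
  have hd : (fib S b).natDegree = n := by unfold fib; rw [hS.natDegree_map, hn]
  have hlt : ((gp g) ^ Q %ₘ fib S b).degree < n := by
    have := degree_modByMonic_lt ((gp g) ^ Q) hm
    rwa [degree_eq_natDegree hm.ne_zero, hd] at this
  ext i
  unfold gp gfrob
  rw [finsetSum_coeff]
  by_cases h : i < n
  · rw [Finset.sum_eq_single ⟨i, h⟩]
    · simp
      rfl
    · intro j _ hj
      rw [coeff_C_mul, coeff_X_pow, if_neg (fun h' => hj (Fin.ext h'.symm)), mul_zero]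
    · simp
  · have h1 : ((∑ i : Fin n, C (g i) * X ^ (i : ℕ)) ^ Q %ₘ fib S b).coeff i = 0 := by
      apply coeff_eq_zero_of_degree_lt
      exact lt_of_lt_of_le hlt (by exact_mod_cast (not_lt.1 h))
    rw [h1]
    refine Finset.sum_eq_zero fun j _ => ?_
    have : i ≠ j := by have := j.2; omega
    rw [coeff_C_mul, coeff_X_pow, if_neg this, mul_zero]

/-- the left hand side of the system -/
lemma lhs_eq (h2 : StmtLamMul) {π : K[X] →+* R} {r : ℕ} {S : K[X][X]} {F : Fin r → R[X]}
    (hFm : ∀ i, (F i).Monic) (hprod : ∏ i, F i = S.map π) (l : Fin r → K) (Y : R[X]) :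
    ∑ i, π (C (l i)) * lam (F i) (Y * derivative (F i)) = lam (S.map π) (Y * Vl π F l) := by
  unfold Vl
  rw [Finset.mul_sum, lam_sum]
  refine Finset.sum_congr rfl fun i _ => ?_
  have h3 := h2 R (F i) (∏ j ∈ Finset.univ.erase i, F j) (Y * derivative (F i)) (hFm i)
    (monic_prod_of_monic _ _ fun j _ => hFm j)
  rw [Finset.mul_prod_erase Finset.univ F (Finset.mem_univ i), hprod] at h3
  rw [← h3, ← lam_C_mul]
  congr 1
  ring

end comp

end GS

open GS in
theorem goodSolves (h1 : StmtPlace) (h2 : StmtLamMul) (h3 : StmtLamFrob) (h4 : StmtTDMod) :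
    StmtGoodSolves := by
  intro K L _ _ _ _ _ R _ π ε s n r N S F hfin hLF hN hs a g hadm
  have hR : Nontrivial R := ε.domain_nontrivial
  obtain ⟨hpm, hpd, hp0, hpa, hpa', hpdvd, e, he⟩ :=
    h1 K L R π s N hfin hLF.ker a hadm.1 hadm.2.1 hadm.2.2.1
  set p := pad K a with hp
  have hpdeg : p.degree = ((2 * N : ℕ) : WithBot ℕ) := by
    rw [degree_eq_natDegree hpm.ne_zero, hpd]
  have hn := hLF.pos
  -- the ring `R`
  have hsurj : Function.Surjective ε := fun c => ⟨π (C c), by rw [hLF.eps]; simp⟩
  have hnil : ∀ x, ε x = 0 → IsNilpotent x := by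
    intro x hx
    obtain ⟨f, rfl⟩ := hLF.surj x
    rw [hLF.eps] at hx
    have h5 : X ∣ f := by
      rw [X_dvd_iff, coeff_zero_eq_eval_zero]; exact hx
    obtain ⟨h, rfl⟩ := h5
    refine ⟨s, ?_⟩
    rw [← map_pow, hLF.ker, mul_pow]
    exact dvd_mul_right _ _
  have hunit : IsUnit (π p) := by
    have h5 : IsCoprime p ((X : K[X]) ^ s) := by
      apply IsCoprime.pow_right
      rw [isCoprime_comm, (irreducible_X).coprime_iff_not_dvd, X_dvd_iff]
      exact hp0
    obtain ⟨α, β, hαβ⟩ := h5
    have h6 : π (X ^ s) = 0 := (hLF.ker _).2 dvd_rfl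
    have h7 := congrArg π hαβ
    rw [map_add, map_mul, map_mul, h6, mul_zero, add_zero, map_one] at h7
    exact IsUnit.of_mul_eq_one_right _ h7
  constructor
  · -- existence
    intro l hl
    obtain ⟨v, hvmap, hvTD, hvu⟩ := construct (L := L) hsurj hnil hLF.Fmonic hLF.irr hLF.inj l hl
      S.natDegree S rfl hLF.monic (hLF.deg ▸ hLF.td) dvd_rfl Finset.univ hLF.prod.symm
    have hvV : v.map π = Vl π F l := hvmap
    rw [hLF.deg] at hvTD
    -- one equation for each choice of `g`
    have main : ∀ g : Fin N → Fin n → L, ∃ Θ : K[X],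
        (∀ j, evt (a j) Θ = evt (a j) (derivative p) *
          lam (fib S (a j)) (gp (g j) * fib v (a j))) ∧
        ∀ τ : Fin N → L, (∀ j, τ j = lam (fib S (a j)) (gp (g j) * fib v (a j))) →
          ∃ T : K[X], T.degree < ((n - 1 : ℕ) : WithBot ℕ) ∧
            ∑ i, π (C (l i)) * lam (F i) (Yp π s a g * derivative (F i)) =
              π (T + Pser K s a τ) := by
      intro g
      set G := GG e g with hG
      have hGmap : C (π p) * Yp π s a g = G.map π := GG_map e (fun τ => (he τ).1) g
      set Θ := lam S (G * v) with hΘ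
      have hΘev : ∀ j, evt (a j) Θ = evt (a j) (derivative p) *
          lam (fib S (a j)) (gp (g j) * fib v (a j)) := by
        intro j
        rw [hΘ, ← lam_map (evt (a j)) hLF.monic, Polynomial.map_mul, hG,
          GG_fib e (fun τ j => (he τ).2 j) g j, mul_assoc, lam_C_mul]
        rfl
      refine ⟨Θ, hΘev, fun τ hτ => ?_⟩
      have hdvd : p ∣ Θ - tpol (e τ) := by
        apply hpdvd
        intro j
        rw [map_sub, hΘev, (he τ).2, hτ j]
        ring
      obtain ⟨T, hT⟩ := hdvd
      have hΘdeg : Θ.degree < ((2 * N + (n - 1) : ℕ) : WithBot ℕ) := by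
        have h5 := h4 K S (G * v) _ hLF.monic (hLF.deg.symm ▸ hLF.td)
          (TD_mul (GG_TD hN hn e g) hvTD)
        rw [degree_lt_iff_coeff_zero]
        intro j hj
        rw [hΘ, lam, hLF.deg]
        exact h5.1 _ _ (by omega)
      refine ⟨T, ?_, ?_⟩
      · by_cases hT0 : T = 0
        · rw [hT0, degree_zero]; exact WithBot.bot_lt_coe _
        · have h5 : (p * T).degree < ((2 * N + (n - 1) : ℕ) : WithBot ℕ) := by
            rw [← hT]
            refine lt_of_le_of_lt (degree_sub_le _ _) (max_lt hΘdeg ?_)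
            exact lt_of_lt_of_le (tpol_degree _) (by exact_mod_cast Nat.le_add_right _ _)
          rw [degree_mul, hpdeg, degree_eq_natDegree hT0] at h5
          rw [degree_eq_natDegree hT0]
          have h6 : 2 * N + T.natDegree < 2 * N + (n - 1) := by exact_mod_cast h5
          exact_mod_cast (by omega : T.natDegree < n - 1)
      · rw [lhs_eq h2 hLF.Fmonic hLF.prod, ← hvV]
        apply hunit.mul_left_cancel
        rw [← lam_C_mul, ← mul_assoc, hGmap, ← Polynomial.map_mul, lam_map π hLF.monic, ← hΘ,
          ← map_mul, mul_add, map_add, (he τ).1, ← map_add]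
        congr 1
        rw [← hT]; ring
    obtain ⟨Θ, -, hτ1⟩ := main g
    obtain ⟨Θ', -, hτ2⟩ := main (fun j => gfrob S (Fintype.card K) (a j) (g j))
    refine ⟨fun j => lam (fib S (a j)) (gp (g j) * fib v (a j)), hτ1 _ fun j => rfl, hτ2 _ ?_⟩
    intro j
    obtain ⟨u, hu1, hu2⟩ := hvu (a j) (hadm.2.2.2 j)
    set f := fib S (a j) with hf
    have hfm : f.Monic := hLF.monic.map _
    -- characteristic
    obtain ⟨q, hq⟩ := CharP.exists K
    obtain ⟨k, hqp, hcard⟩ := FiniteField.card K q
    have : Fact q.Prime := ⟨hqp⟩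
    have : CharP L q := charP_of_injective_algebraMap (algebraMap K L).injective q
    have e1 : lam f (gp (g j) * fib v (a j)) = lam f ((gp (g j) * u) * derivative f) := by
      apply lam_congr hfm
      have : gp (g j) * fib v (a j) - (gp (g j) * u) * derivative f =
          gp (g j) * (fib v (a j) - u * derivative f) := by ring
      rw [this]
      exact hu1.mul_left _
    have e2 : lam f (gp (gfrob S (Fintype.card K) (a j) (g j)) * fib v (a j)) =
        lam f ((gp (g j) * u) ^ Fintype.card K * derivative f) := by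
      apply lam_congr hfm
      rw [gp_gfrob hLF.monic hLF.deg, ← hf]
      have h5 : f ∣ gp (g j) ^ Fintype.card K - gp (g j) ^ Fintype.card K %ₘ f := by
        refine ⟨gp (g j) ^ Fintype.card K /ₘ f, ?_⟩
        have h6 := modByMonic_add_div (gp (g j) ^ Fintype.card K) f
        linear_combination -h6
      have : gp (g j) ^ Fintype.card K %ₘ f * fib v (a j) -
          (gp (g j) * u) ^ Fintype.card K * derivative f =
          gp (g j) ^ Fintype.card K * (fib v (a j) - u * derivative f) -
          (gp (g j) ^ Fintype.card K * derivative f) * (u ^ Fintype.card K - u) -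
          (gp (g j) ^ Fintype.card K - gp (g j) ^ Fintype.card K %ₘ f) * fib v (a j) := by
        rw [mul_pow]; ring
      rw [this]
      exact dvd_sub (dvd_sub (hu1.mul_left _) (hu2.mul_left _)) (h5.mul_right _)
    show (lam f (gp (g j) * fib v (a j))) ^ Fintype.card K =
      lam f (gp (gfrob S (Fintype.card K) (a j) (g j)) * fib v (a j))
    rw [e1, e2, hcard]
    exact (h3 L q k f (gp (g j) * u) hfm).symm
  · -- uniqueness
    intro τ hτ
    obtain ⟨⟨T, hTdeg, hT⟩, -⟩ := hτ
    have h5 : π (T + Pser K s a τ) = 0 := by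
      rw [← hT]
      refine Finset.sum_eq_zero fun i _ => ?_
      simp
    have h6 : π (p * T + tpol (e τ)) = 0 := by
      rw [map_add, ← (he τ).1, ← map_add, ← mul_add, map_mul, h5, mul_zero]
    rw [hLF.ker] at h6
    have h7 : p * T + tpol (e τ) = 0 := by
      apply eq_zero_of_dvd_of_degree_lt h6
      rw [degree_X_pow]
      refine lt_of_le_of_lt (degree_add_le _ _) (max_lt ?_ ?_)
      · by_cases hT0 : T = 0
        · rw [hT0, mul_zero, degree_zero]; exact WithBot.bot_lt_coe _
        · rw [degree_mul, hpdeg, degree_eq_natDegree hT0]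
          rw [degree_eq_natDegree hT0] at hTdeg
          have h8 : T.natDegree < n - 1 := by exact_mod_cast hTdeg
          exact_mod_cast (by omega : 2 * N + T.natDegree < s)
      · exact lt_of_lt_of_le (tpol_degree _) (by exact_mod_cast (by omega : 2 * N ≤ s))
    have hT0 : T = 0 := by
      by_contra hne
      have h8 : (p * T).degree < ((2 * N : ℕ) : WithBot ℕ) := by
        rw [eq_neg_of_add_eq_zero_left h7, degree_neg]
        exact tpol_degree _
      rw [degree_mul, hpdeg, degree_eq_natDegree hne] at h8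
      have h9 : 2 * N + T.natDegree < 2 * N := by exact_mod_cast h8
      omega
    rw [hT0, mul_zero, zero_add] at h7
    have h8 : e τ = 0 := by
      funext i
      rw [← tpol_coeff (e τ) i, h7]
      simp
    exact e.map_eq_zero_iff.1 h8

end Pool.Agent.H330FB.JR10
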