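import Pool.Agent.H330FB.StmtsR2
set_option autoImplicit false
noncomputable section
namespace Pool.Agent.H330FB.JR11
open Polynomial

/-- `lam` as a linear map -/
noncomputable def lamL {R : Type} [CommRing R] (F : R[X]) : R[X] →ₗ[R] R :=
  (lcoeff R (F.natDegree - 1)) ∘ₗ modByMonicHom F

theorem lamL_apply {R : Type} [CommRing R] (F c : R[X]) : lamL F c = lam F c := rfl

theorem lam_C_mul {R : Type} [CommRing R] (F c : R[X]) (x : R) :
    lam F (C x * c) = x * lam F c := by
  rw [← lamL_apply, ← smul_eq_C_mul, map_smul, smul_eq_mul, lamL_apply]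

theorem bpol_eq {K : Type} [Field K] {n M : ℕ} (G : Fin n → Fin M → K) :
    bpol G = ∑ i : Fin n, C (tpol (G i)) * X ^ (i : ℕ) := rfl

theorem tpol_add {K : Type} [Field K] {M : ℕ} (c d : Fin M → K) :
    tpol (c + d) = tpol c + tpol d := by
  simp [tpol, add_mul, Finset.sum_add_distrib]

theorem tpol_smul {K : Type} [Field K] {M : ℕ} (x : K) (d : Fin M → K) :
    tpol (x • d) = C x * tpol d := by
  simp [tpol, Finset.mul_sum, mul_assoc]

theorem bpol_add {K : Type} [Field K] {n M : ℕ} (G H : Fin n → Fin M → K) :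
    bpol (G + H) = bpol G + bpol H := by
  simp [bpol_eq, tpol_add, add_mul, Finset.sum_add_distrib]

theorem bpol_smul {K : Type} [Field K] {n M : ℕ} (x : K) (G : Fin n → Fin M → K) :
    bpol (x • G) = C (C x) * bpol G := by
  simp [bpol_eq, tpol_smul, Finset.mul_sum, mul_assoc]

theorem tpol_deg {K : Type} [Field K] {M : ℕ} (c : Fin M → K) :
    (tpol c).natDegree ≤ M - 1 := by
  unfold tpol
  refine natDegree_sum_le_of_forall_le _ _ (fun i _ => ?_)
  refine (natDegree_C_mul_X_pow_le _ _).trans ?_
  have := i.2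
  omega

theorem bpol_zero {K : Type} [Field K] {n M : ℕ} : bpol (0 : Fin n → Fin M → K) = 0 := by
  simp [bpol_eq, tpol]

/-- the space `W` -/
def WS {K R : Type} [Field K] [CommRing R] (π : K[X] →+* R) (F V : R[X]) (n M m : ℕ) :
    Submodule K (Fin n → Fin M → K) where
  carrier := {G | ∃ T : K[X], T.natDegree ≤ m ∧ lam F ((bpol G).map π * V) = π T}
  add_mem' := by
    rintro G H ⟨T, hT, hT'⟩ ⟨U, hU, hU'⟩
    refine ⟨T + U, (natDegree_add_le _ _).trans (max_le hT hU), ?_⟩
    rw [bpol_add, Polynomial.map_add, add_mul, ← lamL_apply, map_add, lamL_apply, lamL_apply, hT',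
      hU', map_add]
  zero_mem' := ⟨0, by simp, by
    rw [bpol_zero, Polynomial.map_zero, zero_mul, ← lamL_apply, map_zero, map_zero]⟩
  smul_mem' := by
    rintro c G ⟨T, hT, hT'⟩
    refine ⟨C c * T, (natDegree_C_mul_le _ _).trans hT, ?_⟩
    rw [bpol_smul, Polynomial.map_mul, map_C, mul_assoc, lam_C_mul, hT', map_mul]

theorem Vl_degree {K R : Type} [Field K] [CommRing R] [Nontrivial R] (π : K[X] →+* R) {r : ℕ}
    (F : Fin r → R[X]) (hF : ∀ i, (F i).Monic) (l : Fin r → K) (n : ℕ)
    (hn : (∏ i, F i).degree = n) : (Vl π F l).degree < n := by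
  unfold Vl
  refine (degree_sum_le _ _).trans_lt ?_
  refine (Finset.sup_lt_iff (WithBot.bot_lt_coe n)).2 ?_
  suffices H : ∀ i, (C (π (C (l i))) * derivative (F i) *
      ∏ j ∈ Finset.univ.erase i, F j).degree < (n : WithBot ℕ) from fun i _ => H i
  intro i
  have h1 : (∏ j ∈ Finset.univ.erase i, F j).Monic := monic_prod_of_monic _ _ (fun j _ => hF j)
  rw [← hn, ← Finset.mul_prod_erase Finset.univ F (Finset.mem_univ i), h1.degree_mul, h1.degree_mul]
  refine WithBot.add_lt_add_right (degree_ne_bot.2 h1.ne_zero) ?_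
  refine lt_of_le_of_lt ?_ (degree_derivative_lt (hF i).ne_zero)
  refine (degree_mul_le _ _).trans ?_
  calc degree (C (π (C (l i)))) + degree (derivative (F i)) ≤ 0 + degree (derivative (F i)) :=
        add_le_add_left degree_C_le _
    _ = _ := zero_add _

/-- the system implies that the coefficients are in `W` -/
theorem sys_mem (h2 : StmtLamMul) {K L R : Type} [Field K] [Field L] [Algebra K L] [CommRing R]
    (π : K[X] →+* R) (s n r N Q : ℕ) (hn : 1 ≤ n) (S : K[X][X]) (F : Fin r → R[X])
    (hF : ∀ i, (F i).Monic) (hp : ∏ i, F i = S.map π) (l : Fin r → K) (a : Fin N → L)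
    (hpm : (pad K a).natDegree = 2 * N)
    (e : (Fin N → L) ≃ₗ[K] (Fin (2 * N) → K))
    (he : ∀ τ : Fin N → L, π (pad K a * Pser K s a τ) = π (tpol (e τ)))
    (g : Fin N → Fin n → L) (τ : Fin N → L) (hs : Sys π s S F Q a g l τ) :
    (fun i => e (fun j => g j i)) ∈ WS π (S.map π) (Vl π F l) n (2 * N) (2 * N + n - 2) := by
  obtain ⟨⟨T, hT, hT'⟩, -⟩ := hs
  set G : Fin n → Fin (2 * N) → K := fun i => e (fun j => g j i) with hG
  have h3 : C (π (pad K a)) * Yp π s a g = (bpol G).map π := by
    rw [bpol_eq, Polynomial.map_sum]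
    unfold Yp
    rw [Finset.mul_sum]
    refine Finset.sum_congr rfl fun i _ => ?_
    rw [Polynomial.map_mul, map_C, Polynomial.map_pow, map_X, ← he, ← mul_assoc, ← C_mul, ← map_mul]
  have h4 : ∑ i, π (C (l i)) * lam (F i) (Yp π s a g * derivative (F i)) =
      lam (S.map π) (Yp π s a g * Vl π F l) := by
    unfold Vl
    rw [Finset.mul_sum, ← lamL_apply, map_sum]
    refine Finset.sum_congr rfl fun i _ => ?_
    have h5 : (∏ j ∈ Finset.univ.erase i, F j).Monic := monic_prod_of_monic _ _ (fun j _ => hF j)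
    rw [← h2 R (F i) (∏ j ∈ Finset.univ.erase i, F j) _ (hF i) h5,
      Finset.mul_prod_erase Finset.univ F (Finset.mem_univ i), hp, lamL_apply, ← lam_C_mul]
    congr 1
    ring
  refine ⟨pad K a * T + tpol (e τ), ?_, ?_⟩
  · refine (natDegree_add_le _ _).trans (max_le ?_ ?_)
    · by_cases hT0 : T = 0
      · rw [hT0, mul_zero, natDegree_zero]; exact Nat.zero_le _
      · refine natDegree_mul_le.trans ?_
        rw [hpm]
        have h6 : T.natDegree < n - 1 := by
          rwa [← natDegree_lt_iff_degree_lt hT0] at hT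
        omega
    · refine (tpol_deg _).trans ?_
      omega
  · rw [← h3, mul_assoc, lam_C_mul, ← h4, hT', map_add, map_add, map_mul, mul_add, ← he, map_mul]

theorem types (h1 : StmtPlace) (h2 : StmtLamMul) (h3 : StmtLemmaE) : StmtTypes := by
  intro K L _ _ _ _ _ R _ π ε s n r N S F hKL hLF hN hs l
  have hn := hLF.pos
  have hnt : Nontrivial R := by
    refine ⟨⟨π 1, 0, fun h => ?_⟩⟩
    have h4 := (hLF.ker 1).1 h
    have h5 := natDegree_le_of_dvd h4 one_ne_zero
    rw [natDegree_X_pow, natDegree_one] at h5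
    omega
  set V := Vl π F l with hV
  have hVd : V.degree < n := by
    refine Vl_degree π F hLF.Fmonic l n ?_
    rw [hLF.prod, hLF.monic.degree_map, degree_eq_natDegree hLF.monic.ne_zero, hLF.deg]
  set W := WS π (S.map π) V n (2 * N) (2 * N + n - 2) with hW
  by_cases hlt : n * (2 * N) < Module.finrank K W + (n + 1)
  · right
    exact h3 K R π s hLF.ker S n hLF.monic hLF.deg hn hLF.td V hVd (2 * N) (2 * N + n - 2) (n + 1)
      (by omega) (by omega) (by omega) W (fun G hG => hG) hlt
  · left
    intro a ha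
    obtain ⟨ha0, hainj, haQ, -⟩ := ha
    obtain ⟨hpm, hpd, -, -, -, -, e, he⟩ := h1 K L R π s N hKL hLF.ker a ha0 hainj haQ
    have hcard : Nat.card {g : Fin N → Fin n → L // ∃ τ, Sys π s S F (Fintype.card K) a g l τ} ≤
        Nat.card W := by
      refine Nat.card_le_card_of_injective
        (fun g => (⟨fun i => e (fun j => g.1 j i), by
          obtain ⟨τ, hτ⟩ := g.2
          exact sys_mem h2 π s n r N (Fintype.card K) hn S F hLF.Fmonic hLF.prod l a hpd e
            (fun τ => (he τ).1) g.1 τ hτ⟩ : W)) ?_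
      intro g g' hgg
      refine Subtype.ext (funext fun j => funext fun i => ?_)
      have h6 := congrFun (congrArg Subtype.val hgg) i
      have h7 := e.injective h6
      exact congrFun h7 j
    have hW' : Nat.card W = Fintype.card K ^ Module.finrank K W := by
      have : Finite W := inferInstance
      have : Fintype W := Fintype.ofFinite W
      rw [Nat.card_eq_fintype_card, Module.card_eq_pow_finrank (K := K)]
    have hLc : Fintype.card L = Fintype.card K ^ 2 := by
      rw [Module.card_eq_pow_finrank (K := K) (V := L), hKL]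
    calc Nat.card {g : Fin N → Fin n → L // ∃ τ, Sys π s S F (Fintype.card K) a g l τ} *
          Fintype.card K ^ (n + 1) ≤ Nat.card W * Fintype.card K ^ (n + 1) :=
          Nat.mul_le_mul_right _ hcard
      _ = Fintype.card K ^ (Module.finrank K W + (n + 1)) := by
          rw [hW', pow_add _ (Module.finrank K W)]
      _ ≤ Fintype.card K ^ (n * (2 * N)) :=
          Nat.pow_le_pow_right Fintype.card_pos (not_lt.1 hlt)
      _ = Fintype.card L ^ (N * n) := by
          rw [hLc, ← pow_mul]
          congr 1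
          ring

end Pool.Agent.H330FB.JR11
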