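import Pool.Agent.H330FB.StmtsR2
set_option autoImplicit false
noncomputable section
namespace Pool.Agent.H330FB.JR12
open Polynomial

/-! ### auxiliary facts on `lam` -/

noncomputable def t2lam {R : Type} [CommRing R] (F : R[X]) : R[X] →ₗ[R] R :=
  (lcoeff R (F.natDegree - 1)).comp (modByMonicHom F)

lemma t2lam_apply {R : Type} [CommRing R] (F c : R[X]) : t2lam F c = lam F c := rfl

lemma t2_lam_add {R : Type} [CommRing R] (F c d : R[X]) : lam F (c + d) = lam F c + lam F d := by
  rw [← t2lam_apply, ← t2lam_apply, ← t2lam_apply, map_add]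

lemma t2_lam_sub {R : Type} [CommRing R] (F c d : R[X]) : lam F (c - d) = lam F c - lam F d := by
  rw [← t2lam_apply, ← t2lam_apply, ← t2lam_apply, map_sub]

lemma t2_lam_sum {R ι : Type} [CommRing R] (F : R[X]) (s : Finset ι) (c : ι → R[X]) :
    lam F (∑ i ∈ s, c i) = ∑ i ∈ s, lam F (c i) := by
  simp only [← t2lam_apply, map_sum]

lemma t2_lam_C {R : Type} [CommRing R] (F c : R[X]) (r : R) : lam F (C r * c) = r * lam F c := by
  rw [← t2lam_apply, ← t2lam_apply, ← smul_eq_C_mul, map_smul, smul_eq_mul]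

lemma t2_lam_congr {R : Type} [CommRing R] {F c d : R[X]} (hF : F.Monic) (h : F ∣ c - d) :
    lam F c = lam F d := by
  have h1 : lam F (c - d) = 0 := by
    unfold lam
    rw [(modByMonic_eq_zero_iff_dvd hF).mpr h, coeff_zero]
  rw [t2_lam_sub] at h1
  exact sub_eq_zero.mp h1

lemma t2_lam_map {R R' : Type} [CommRing R] [CommRing R'] [Nontrivial R'] (φ : R →+* R') {F : R[X]}
    (hF : F.Monic) (c : R[X]) : lam (F.map φ) (c.map φ) = φ (lam F c) := by
  unfold lam
  rw [← map_modByMonic φ hF, coeff_map, hF.natDegree_map]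

/-! ### total degree -/

lemma t2_TD_mono {A : Type} [CommRing A] {f : A[X][X]} {m n : ℕ} (h : TD f m) (hmn : m ≤ n) :
    TD f n := fun i j hij => h i j (by omega)

lemma t2_TD_mul {A : Type} [CommRing A] {f g : A[X][X]} {m n : ℕ} (hf : TD f m) (hg : TD g n) :
    TD (f * g) (m + n) := by
  intro i j hij
  rw [coeff_mul, finsetSum_coeff]
  apply Finset.sum_eq_zero
  intro x hx
  rw [coeff_mul]
  apply Finset.sum_eq_zero
  intro y hy
  rw [Finset.HasAntidiagonal.mem_antidiagonal] at hx hy
  by_cases h : m < x.1 + y.1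
  · rw [hf _ _ h, zero_mul]
  · rw [hg x.2 y.2 (by omega), mul_zero]

lemma t2_TD_one {A : Type} [CommRing A] : TD (1 : A[X][X]) 0 := by
  intro i j hij
  rw [coeff_one]
  split_ifs with h
  · rw [coeff_one]
    rw [if_neg (by omega)]
  · simp

lemma t2_TD_pow {A : Type} [CommRing A] {f : A[X][X]} {m : ℕ} (hf : TD f m) (k : ℕ) :
    TD (f ^ k) (k * m) := by
  induction k with
  | zero => simpa using t2_TD_one
  | succ k ih =>
    rw [pow_succ]
    exact t2_TD_mono (t2_TD_mul ih hf) (by rw [Nat.succ_mul])

lemma t2_TD_sub {A : Type} [CommRing A] {f g : A[X][X]} {m : ℕ} (hf : TD f m) (hg : TD g m) :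
    TD (f - g) m := by
  intro i j hij
  rw [coeff_sub, coeff_sub, hf i j hij, hg i j hij, sub_zero]

lemma t2_TD_C {A : Type} [CommRing A] {f : A[X]} {m : ℕ} (hf : f.natDegree ≤ m) :
    TD (C f : A[X][X]) m := by
  intro i j hij
  rw [coeff_C]
  split_ifs with h
  · apply coeff_eq_zero_of_natDegree_lt
    omega
  · simp

lemma t2_TD_deriv {A : Type} [CommRing A] {f : A[X][X]} {m : ℕ} (hf : TD f m) :
    TD (derivative f) (m - 1) := by
  intro i j hij
  rw [coeff_derivative]
  have h1 : ((i : A[X]) + 1) = C ((i : A) + 1) := by simp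
  rw [h1, coeff_mul_C, hf (i+1) j (by omega), zero_mul]

/-- `TD` bounds degrees of coefficients -/
lemma t2_TD_coeff {A : Type} [CommRing A] {f : A[X][X]} {m : ℕ} (hf : TD f m) (i : ℕ) :
    (f.coeff i).natDegree ≤ m - i := by
  rw [natDegree_le_iff_coeff_eq_zero]
  intro j hj
  exact hf i j (by omega)


/-! ### Step 1 -/

lemma t2_eps_map {K R : Type} [Field K] [CommRing R] {π : K[X] →+* R} {ε : R →+* K}
    (h : ∀ f : K[X], ε (π f) = f.eval 0) (P : K[X][X]) :
    (P.map π).map ε = P.map (evalRingHom (0 : K)) := by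
  rw [Polynomial.map_map]
  congr 1
  ext x
  · simp [h]
  · simp [h]

/-- an element of the kernel of `ε` is nilpotent -/
lemma t2_nil {K R : Type} [Field K] [CommRing R] {π : K[X] →+* R} {ε : R →+* K} {s n r : ℕ}
    {S : K[X][X]} {F : Fin r → R[X]} (h : LocalFact π ε s n r S F) {x : R} (hx : ε x = 0) :
    IsNilpotent x := by
  obtain ⟨f, rfl⟩ := h.surj x
  rw [h.eps] at hx
  refine ⟨s, ?_⟩
  rw [← map_pow, h.ker]
  apply pow_dvd_pow_of_dvd
  rw [X_dvd_iff, coeff_zero_eq_eval_zero]
  exact hx

/-- lifting of coprimality -/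
lemma t2_cop {K R : Type} [Field K] [CommRing R] {π : K[X] →+* R} {ε : R →+* K} {s n r : ℕ}
    {S : K[X][X]} {F : Fin r → R[X]} (h : LocalFact π ε s n r S F) {P Q : R[X]}
    (hPQ : IsCoprime (P.map ε) (Q.map ε)) : IsCoprime P Q := by
  obtain ⟨A, B, hAB⟩ := hPQ
  have hsurj : Function.Surjective ε := by
    intro c
    refine ⟨π (C c), ?_⟩
    rw [h.eps]; simp
  obtain ⟨A', rfl⟩ := map_surjective ε hsurj A
  obtain ⟨B', rfl⟩ := map_surjective ε hsurj B
  have hnil : IsNilpotent (1 - (A' * P + B' * Q)) := by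
    rw [Polynomial.isNilpotent_iff]
    intro i
    apply t2_nil h
    rw [← coeff_map]
    have : (1 - (A' * P + B' * Q)).map ε = 0 := by
      simp only [Polynomial.map_sub, Polynomial.map_one, Polynomial.map_add, Polynomial.map_mul]
      rw [hAB, sub_self]
    rw [this, coeff_zero]
  have hunit : IsUnit (A' * P + B' * Q) := by
    have := hnil.isUnit_one_sub
    rwa [sub_sub_cancel] at this
  obtain ⟨u, hu⟩ := hunit
  refine ⟨(↑u⁻¹ : R[X]) * A', (↑u⁻¹ : R[X]) * B', ?_⟩
  rw [mul_assoc, mul_assoc, ← mul_add, ← hu]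
  exact u.inv_mul


lemma t2_prod_XC (K : Type) [Field K] [Fintype K] :
    ∏ c : K, (X - C c) = (X : K[X]) ^ Fintype.card K - X := by
  have hne := FiniteField.X_pow_card_sub_X_ne_zero K (Fintype.one_lt_card (α := K))
  have hnd := FiniteField.X_pow_card_sub_X_natDegree_eq K (Fintype.one_lt_card (α := K))
  have hmon : ((X : K[X]) ^ Fintype.card K - X).Monic := by
    apply monic_X_pow_sub
    rw [degree_X]
    exact_mod_cast Fintype.one_lt_card (α := K)
  have hroots := FiniteField.roots_X_pow_card_sub_X K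
  have hcard : Multiset.card ((X : K[X]) ^ Fintype.card K - X).roots =
      ((X : K[X]) ^ Fintype.card K - X).natDegree := by
    rw [hroots, hnd]; rfl
  have := prod_multiset_X_sub_C_of_monic_of_roots_card_eq hmon hcard
  rw [hroots] at this
  rw [← this]
  rfl

lemma t2_prod_factor {K : Type} [Field K] [Fintype K] {A : Type} [CommRing A] [Algebra K A] [IsDomain A]
    (a b : A) :
    a ^ Fintype.card K * b - b ^ Fintype.card K * a = b * ∏ c : K, (a - algebraMap K A c * b) := by
  by_cases hb : b = 0
  · subst hb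
    have : Fintype.card K ≠ 0 := Fintype.card_ne_zero
    simp [this]
  have hinj : Function.Injective (algebraMap A (FractionRing A)) := IsFractionRing.injective _ _
  apply hinj
  have hb' : algebraMap A (FractionRing A) b ≠ 0 := by
    intro h
    exact hb (hinj (by rw [h, map_zero]))
  simp only [map_sub, map_mul, map_pow, map_prod]
  set a' := algebraMap A (FractionRing A) a
  set b' := algebraMap A (FractionRing A) b
  let _ : Algebra K (FractionRing A) := ((algebraMap A (FractionRing A)).comp (algebraMap K A)).toAlgebra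
  have h1 := congrArg (fun P => Polynomial.eval₂ ((algebraMap A (FractionRing A)).comp (algebraMap K A)) (a' / b') P)
    (t2_prod_XC K)
  simp only [eval₂_sub, eval₂_pow, eval₂_X, eval₂_finsetProd, eval₂_C] at h1
  have h2 : ∀ c : K, a' - algebraMap A (FractionRing A) (algebraMap K A c) * b' =
      b' * (a' / b' - (algebraMap A (FractionRing A)).comp (algebraMap K A) c) := by
    intro c
    rw [mul_sub, mul_div_cancel₀ _ hb', RingHom.comp_apply]; ring
  rw [Finset.prod_congr rfl (fun c _ => h2 c), Finset.prod_mul_distrib, h1, Finset.prod_const,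
    Finset.card_univ]
  have h3 : b' ^ Fintype.card K * ((a' / b') ^ Fintype.card K) = a' ^ Fintype.card K := by
    rw [← mul_pow, mul_div_cancel₀ _ hb']
  calc a' ^ Fintype.card K * b' - b' ^ Fintype.card K * a'
      = b' * (b' ^ Fintype.card K * ((a' / b') ^ Fintype.card K)) - b' ^ Fintype.card K * (b' * (a' / b')) := by
        rw [h3, mul_div_cancel₀ _ hb']; ring
    _ = b' * (b' ^ Fintype.card K * ((a' / b') ^ Fintype.card K - a' / b')) := by ring


section
variable {K R : Type} [Field K] [CommRing R] {π : K[X] →+* R} {ε : R →+* K} {s n r : ℕ}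
    {S : K[X][X]} {F : Fin r → R[X]}

lemma t2_F_natDegree (h : LocalFact π ε s n r S F) (i : Fin r) : 1 ≤ (F i).natDegree := by
  have h1 := (h.irr i).natDegree_pos
  rwa [(h.Fmonic i).natDegree_map] at h1

lemma t2_map_prod (h : LocalFact π ε s n r S F) :
    S.map (evalRingHom (0 : K)) = ∏ i, (F i).map ε := by
  rw [← t2_eps_map h.eps, ← h.prod, Polynomial.map_prod]

lemma t2_sep [Fintype K] (h : LocalFact π ε s n r S F) :
    (S.map (evalRingHom (0 : K))).Separable := by
  rw [t2_map_prod h]
  apply separable_prod'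
  · intro i _ j _ hij
    rw [(h.irr i).coprime_iff_not_dvd]
    intro hd
    have hass := (h.irr i).associated_of_dvd (h.irr j) hd
    have := eq_of_monic_of_associated ((h.Fmonic i).map ε) ((h.Fmonic j).map ε) hass
    exact hij (h.inj this)
  · intro i _
    exact PerfectField.separable_of_irreducible (h.irr i)

lemma t2_F_cop [Fintype K] (h : LocalFact π ε s n r S F) (i : Fin r) :
    IsCoprime (F i) (derivative (S.map π)) := by
  apply t2_cop h
  have h1 := t2_sep h
  rw [← derivative_map, t2_eps_map h.eps]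
  apply IsCoprime.of_isCoprime_of_dvd_left h1
  rw [t2_map_prod h]
  exact Finset.dvd_prod_of_mem _ (Finset.mem_univ i)

lemma t2_Vl_congr (h : LocalFact π ε s n r S F) (l : Fin r → K) (i : Fin r) :
    F i ∣ Vl π F l - C (π (C (l i))) * derivative (S.map π) := by
  have hd : derivative (S.map π) = ∑ j, derivative (F j) * ∏ k ∈ Finset.univ.erase j, F k := by
    rw [← h.prod, derivative_prod_finset]
    apply Finset.sum_congr rfl
    intro j _
    ring
  rw [hd, Vl, Finset.mul_sum, ← Finset.sum_sub_distrib]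
  apply Finset.dvd_sum
  intro j _
  by_cases hij : i = j
  · subst hij
    rw [mul_assoc, sub_self]
    exact dvd_zero _
  · apply dvd_sub
    · apply Dvd.dvd.mul_left
      exact Finset.dvd_prod_of_mem _ (Finset.mem_erase.mpr ⟨hij, Finset.mem_univ _⟩)
    · apply Dvd.dvd.mul_left
      apply Dvd.dvd.mul_left
      exact Finset.dvd_prod_of_mem _ (Finset.mem_erase.mpr ⟨hij, Finset.mem_univ _⟩)

lemma t2_claim [Fintype K] (h : LocalFact π ε s n r S F) (hs : n + 1 ≤ s) (l : Fin r → K)
    (hl : ¬ (∀ i j, SameBlock π S F i j → l i = l j)) (δ : K[X]) (U : K[X][X]) (hδ : δ ≠ 0)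
    (hδn : δ.natDegree < n + 1) (hU : C (π δ) * Vl π F l = U.map π) :
    ¬ S ∣ U ^ Fintype.card K * (C δ * derivative S) - (C δ * derivative S) ^ Fintype.card K * U := by
  intro hdvd
  push Not at hl
  obtain ⟨i, j, ⟨g, hgm, hgi, hgS, hFi, hFj⟩, hij⟩ := hl
  have hgp : Prime g := hgi.prime
  rw [t2_prod_factor U (C δ * derivative S)] at hdvd
  have h1 := hgS.trans hdvd
  have hg1 : 1 ≤ g.natDegree := by
    by_contra hc
    have : g.natDegree = 0 := by omega
    have := eq_one_of_monic_natDegree_zero hgm this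
    exact hgi.not_isUnit (by rw [this]; exact isUnit_one)
  rcases hgp.dvd_or_dvd h1 with h2 | h2
  · rcases hgp.dvd_or_dvd h2 with h3 | h3
    · -- g ∣ C δ
      refine hgm.not_dvd_of_natDegree_lt ?_ ?_ h3
      · simpa using hδ
      · rw [natDegree_C]; omega
    · -- g ∣ S'
      have h4 := t2_sep h
      have h5 : g.map (evalRingHom (0:K)) ∣ S.map (evalRingHom (0:K)) := Polynomial.map_dvd _ hgS
      have h6 : g.map (evalRingHom (0:K)) ∣ derivative (S.map (evalRingHom (0:K))) := by
        rw [derivative_map]; exact Polynomial.map_dvd _ h3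
      have h7 := IsCoprime.isUnit_of_dvd' h4 h5 h6
      have h8 := natDegree_eq_zero_of_isUnit h7
      rw [hgm.natDegree_map] at h8
      omega
  · obtain ⟨c, -, hc⟩ := hgp.exists_mem_finset_dvd h2
    have key : ∀ i : Fin r, F i ∣ g.map π → l i = c := by
      intro i hFi
      have k1 : F i ∣ (U - algebraMap K K[X][X] c * (C δ * derivative S)).map π :=
        hFi.trans (Polynomial.map_dvd _ hc)
      have k2 : (U - algebraMap K K[X][X] c * (C δ * derivative S)).map π =
          C (π δ) * Vl π F l - C (π (C c * δ)) * derivative (S.map π) := by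
        rw [Polynomial.map_sub, ← hU, Polynomial.map_mul, Polynomial.map_mul, map_C, derivative_map]
        have : algebraMap K K[X][X] c = C (C c) := rfl
        rw [this, map_C, map_mul, C_mul, mul_assoc]
      rw [k2] at k1
      have k3 := (t2_Vl_congr h l i).mul_left (C (π δ))
      have k4 := dvd_sub k1 k3
      have k5 : C (π δ) * Vl π F l - C (π (C c * δ)) * derivative (S.map π) -
          C (π δ) * (Vl π F l - C (π (C (l i))) * derivative (S.map π)) =
          C (π (C (l i - c) * δ)) * derivative (S.map π) := by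
        simp only [map_mul, map_sub]
        ring
      rw [k5] at k4
      have k6 := (t2_F_cop h i).dvd_of_dvd_mul_right k4
      by_contra hne
      have k7 : π (C (l i - c) * δ) ≠ 0 := by
        intro h0
        rw [h.ker] at h0
        have hne' : l i - c ≠ 0 := sub_ne_zero.mpr hne
        have hm : (C (l i - c) * δ) ≠ 0 := mul_ne_zero (C_ne_zero.mpr hne') hδ
        have := natDegree_le_of_dvd h0 hm
        rw [natDegree_X_pow, natDegree_C_mul hne'] at this
        omega
      refine (h.Fmonic i).not_dvd_of_natDegree_lt ?_ ?_ k6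
      · exact C_ne_zero.mpr k7
      · rw [natDegree_C]; exact t2_F_natDegree h i
    exact hij ((key i hFi).trans (key j hFj).symm)

end


section
variable {L : Type} [Field L]

lemma t2_gp_eq {n : ℕ} (g : Fin n → L) :
    gp g = ∑ i ∈ Finset.range n, C (if h : i < n then g ⟨i, h⟩ else 0) * X ^ i := by
  unfold gp
  rw [Finset.sum_range]
  apply Finset.sum_congr rfl
  intro i _
  rw [dif_pos i.2]

lemma t2_gp_coeff {n : ℕ} (g : Fin n → L) (i : Fin n) : (gp g).coeff i = g i := by
  unfold gp
  rw [finsetSum_coeff, Finset.sum_eq_single i]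
  · simp
  · intro j _ hj
    rw [coeff_C_mul_X_pow, if_neg]
    intro h
    exact hj (Fin.ext h.symm)
  · simp

lemma t2_gp_degree {n : ℕ} (g : Fin n → L) : (gp g).degree < n := by
  unfold gp
  apply degree_sum_fin_lt

lemma t2_gp_of {n : ℕ} {P : L[X]} (h : P.degree < n) : gp (fun i : Fin n => P.coeff i) = P := by
  ext k
  by_cases hk : k < n
  · exact t2_gp_coeff (fun i : Fin n => P.coeff i) ⟨k, hk⟩
  · have h1 : (gp (fun i : Fin n => P.coeff i)).coeff k = 0 :=
      coeff_eq_zero_of_degree_lt ((t2_gp_degree _).trans_le (by exact_mod_cast (by omega : n ≤ k)))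
    have h2 : P.coeff k = 0 :=
      coeff_eq_zero_of_degree_lt (h.trans_le (by exact_mod_cast (by omega : n ≤ k)))
    rw [h1, h2]

lemma t2_gp_add {n : ℕ} (g h : Fin n → L) : gp (g + h) = gp g + gp h := by
  unfold gp
  rw [← Finset.sum_add_distrib]
  apply Finset.sum_congr rfl
  intro i _
  rw [Pi.add_apply, C_add, add_mul]

lemma t2_gp_smul {n : ℕ} (c : L) (g : Fin n → L) : gp (c • g) = C c * gp g := by
  unfold gp
  rw [Finset.mul_sum]
  apply Finset.sum_congr rfl
  intro i _
  rw [Pi.smul_apply, smul_eq_mul, C_mul, mul_assoc]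

lemma t2_hyper [Fintype L] (p : ℕ) [Fact p.Prime] [CharP L p] (k : ℕ) (hnd : StmtLamNondeg) (f : L[X])
    (hf : f.Monic) (n : ℕ) (hn : f.natDegree = n) (hsq : Squarefree f) (d : L[X])
    (hd : d %ₘ f ≠ 0) :
    Nat.card {g : Fin n → L // lam f ((gp g) ^ (p ^ k) * d) = 0} * Fintype.card L ≤
      Fintype.card L ^ n := by
  classical
  have hdeg : f.degree = n := by rw [← hn]; exact degree_eq_natDegree hf.ne_zero
  let φ : (Fin n → L) →ₗ[L] L :=
    { toFun := fun c => lam f (gp c * d)
      map_add' := by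
        intro x y
        rw [t2_gp_add, add_mul, t2_lam_add]
      map_smul' := by
        intro c x
        rw [t2_gp_smul, mul_assoc, t2_lam_C]
        rfl }
  have hφ : φ ≠ 0 := by
    intro h0
    obtain ⟨c, hc, hc2⟩ := hnd L f d hf hd
    rw [hdeg] at hc
    apply hc2
    have : φ (fun i => c.coeff i) = 0 := by rw [h0]; rfl
    change lam f (gp (fun i : Fin n => c.coeff i) * d) = 0 at this
    rwa [t2_gp_of hc] at this
  have hsurj : Function.Surjective φ := LinearMap.surjective hφ
  have hker : Nat.card (LinearMap.ker φ) * Fintype.card L = Fintype.card L ^ n := by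
    have h1 := LinearMap.finrank_range_add_finrank_ker φ
    rw [LinearMap.range_eq_top.mpr hsurj, finrank_top, Module.finrank_self, Module.finrank_fin_fun] at h1
    have h2 : Nat.card (LinearMap.ker φ) = Fintype.card L ^ Module.finrank L (LinearMap.ker φ) := by
      rw [Nat.card_eq_fintype_card, Module.card_eq_pow_finrank (K := L)]
    rw [h2, ← pow_succ]
    congr 1
    omega
  rw [← hker]
  apply Nat.mul_le_mul_right
  let ψ : {g : Fin n → L // lam f ((gp g) ^ (p ^ k) * d) = 0} → LinearMap.ker φ := fun g =>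
    ⟨fun i => ((gp g.1) ^ (p ^ k) %ₘ f).coeff i, by
      rw [LinearMap.mem_ker]
      change lam f (gp (fun i : Fin n => ((gp g.1) ^ (p ^ k) %ₘ f).coeff i) * d) = 0
      have h1 : ((gp g.1) ^ (p ^ k) %ₘ f).degree < n := by
        rw [← hdeg]; exact degree_modByMonic_lt _ hf
      rw [t2_gp_of h1]
      refine Eq.trans ?_ g.2
      apply t2_lam_congr hf
      rw [← sub_mul]
      apply Dvd.dvd.mul_right
      rw [← dvd_neg, neg_sub]
      exact ⟨(gp g.1) ^ (p ^ k) /ₘ f, by
        have := modByMonic_add_div ((gp g.1) ^ (p ^ k)) f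
        linear_combination (-1 : L[X]) * this⟩⟩
  apply Nat.card_le_card_of_injective ψ
  intro g h hgh
  have h1 : ∀ g : Fin n → L, ((gp g) ^ (p ^ k) %ₘ f).degree < n := by
    intro g
    rw [← hdeg]; exact degree_modByMonic_lt _ hf
  have h2 : (gp g.1) ^ (p ^ k) %ₘ f = (gp h.1) ^ (p ^ k) %ₘ f := by
    have := congrArg (fun x => gp x.1) hgh
    change gp (fun i : Fin n => ((gp g.1) ^ (p ^ k) %ₘ f).coeff i) =
      gp (fun i : Fin n => ((gp h.1) ^ (p ^ k) %ₘ f).coeff i) at this
    rwa [t2_gp_of (h1 _), t2_gp_of (h1 _)] at this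
  have h3 : f ∣ (gp g.1 - gp h.1) ^ (p ^ k) := by
    rw [sub_pow_char_pow]
    rw [← modByMonic_eq_zero_iff_dvd hf, sub_modByMonic, h2, sub_self]
  have h4 : f ∣ gp g.1 - gp h.1 := (hsq.dvd_pow_iff_dvd (by
    have : (p:ℕ) ^ k ≠ 0 := pow_ne_zero _ (Fact.out : p.Prime).ne_zero
    exact this)).mp h3
  have h5 : gp g.1 - gp h.1 = 0 := by
    by_contra hne
    have h6 : (gp g.1 - gp h.1).degree < f.degree := by
      rw [hdeg]
      exact (degree_sub_le _ _).trans_lt (max_lt (t2_gp_degree _) (t2_gp_degree _))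
    exact hf.not_dvd_of_degree_lt hne h6 h4
  apply Subtype.ext
  funext i
  rw [← t2_gp_coeff g.1 i, ← t2_gp_coeff h.1 i, sub_eq_zero.mp h5]

end


section
variable {K L R : Type} [Field K] [Field L] [Fintype K] [Fintype L] [Algebra K L] [CommRing R]
    {π : K[X] →+* R} {ε : R →+* K} {s n r N : ℕ} {S : K[X][X]} {F : Fin r → R[X]}

lemma t2_tpol_natDegree {M m : ℕ} (c : Fin M → K) (h : M ≤ m + 1) : (tpol c).natDegree ≤ m := by
  unfold tpol
  apply natDegree_sum_le_of_forall_le
  intro i _
  refine (natDegree_C_mul_X_pow_le _ _).trans ?_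
  have := i.2
  omega

lemma t2_sum_lam (h : LocalFact π ε s n r S F) (hmul : StmtLamMul) (l : Fin r → K) (Y : R[X]) :
    ∑ i, π (C (l i)) * lam (F i) (Y * derivative (F i)) = lam (S.map π) (Y * Vl π F l) := by
  rw [Vl, Finset.mul_sum, t2_lam_sum]
  apply Finset.sum_congr rfl
  intro i _
  have h1 : Y * (C (π (C (l i))) * derivative (F i) * ∏ j ∈ Finset.univ.erase i, F j) =
      C (π (C (l i))) * ((Y * derivative (F i)) * ∏ j ∈ Finset.univ.erase i, F j) := by ring
  rw [h1, t2_lam_C, ← h.prod, ← Finset.mul_prod_erase Finset.univ F (Finset.mem_univ i)]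
  rw [hmul R (F i) _ _ (h.Fmonic i) (monic_prod_of_monic _ _ (fun j _ => h.Fmonic j))]

lemma t2_half (h1 : StmtPlace) (h2 : StmtLamMul) (h5 : StmtTDMod)
    (hfr : Module.finrank K L = 2) (h : LocalFact π ε s n r S F) (hN : N = 2 * n + 2)
    (hs : 12 * n + 20 ≤ s) (l : Fin r → K) (δ : K[X]) (U : K[X][X]) (hδ : δ.natDegree < n + 1)
    (hTD : TD U ((2 * N + n - 2) + (n + 1) + n)) (hU : C (π δ) * Vl π F l = U.map π)
    (a : Fin N → L) (ha : Adm S (Fintype.card K) a) (g : Fin N → Fin n → L) (τ : Fin N → L)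
    (hsys : ∃ T : K[X], T.degree < ((n - 1 : ℕ) : WithBot ℕ) ∧
      ∑ i, π (C (l i)) * lam (F i) (Yp π s a g * derivative (F i)) = π (T + Pser K s a τ))
    (j : Fin N) :
    lam (fib S (a j)) (gp (g j) * fib U (a j)) = evt (a j) δ * τ j := by
  have hR : Nontrivial R := ε.domain_nontrivial
  obtain ⟨T, hT, hTe⟩ := hsys
  obtain ⟨pm, pdeg, pc0, proot, pder, pdvd, e, he⟩ :=
    h1 K L R π s N hfr h.ker a ha.1 ha.2.1 ha.2.2.1
  set p := pad K a with hp
  set GP : K[X][X] := ∑ i : Fin n, C (tpol (e (fun j => g j i))) * X ^ (i : ℕ) with hGP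
  have hY : C (π p) * Yp π s a g = GP.map π := by
    rw [hGP, Yp, Finset.mul_sum, Polynomial.map_sum]
    apply Finset.sum_congr rfl
    intro i _
    rw [Polynomial.map_mul, Polynomial.map_pow, map_X, map_C, ← (he (fun j => g j i)).1, map_mul,
      C_mul]
    ring
  have hGa : fib GP (a j) = C (evt (a j) (derivative p)) * gp (g j) := by
    rw [hGP, fib, gp, Finset.mul_sum, Polynomial.map_sum]
    apply Finset.sum_congr rfl
    intro i _
    rw [Polynomial.map_mul, Polynomial.map_pow, map_X, map_C, (he (fun j => g j i)).2 j, mul_comm (g j i),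
      C_mul, mul_assoc]
  have h6 : π (lam S (GP * U)) = π (δ * (p * T + tpol (e τ))) := by
    rw [← t2_lam_map π h.monic, Polynomial.map_mul, ← hY, ← hU]
    have k1 : C (π p) * Yp π s a g * (C (π δ) * Vl π F l) =
        C (π p * π δ) * (Yp π s a g * Vl π F l) := by
      rw [C_mul]; ring
    rw [k1, t2_lam_C, ← t2_sum_lam h h2, hTe]
    simp only [map_mul, map_add]
    rw [← (he τ).1, map_mul]
    ring
  have hGPTD : TD GP (n - 1 + (2 * N - 1)) := by
    intro i' j' hij
    rw [hGP, finsetSum_coeff, finsetSum_coeff]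
    apply Finset.sum_eq_zero
    intro i _
    rw [coeff_C_mul_X_pow]
    split_ifs with hc
    · apply coeff_eq_zero_of_natDegree_lt
      have := t2_tpol_natDegree (m := 2 * N - 1) (e (fun j => g j i)) (by omega)
      have := i.2
      omega
    · simp
  have hS : TD S S.natDegree := by rw [h.deg]; exact h.td
  have hTD1 := (h5 K S (GP * U) _ h.monic hS (t2_TD_mul hGPTD hTD)).1
  have hn := h.pos
  have hd1 : (lam S (GP * U)).natDegree < s := by
    unfold lam
    rw [h.deg]
    have := t2_TD_coeff hTD1 (n - 1)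
    omega
  have hTn : T.natDegree ≤ n := by
    by_cases hT0 : T = 0
    · rw [hT0]; simp
    · rw [degree_eq_natDegree hT0] at hT
      have : T.natDegree < n - 1 := by exact_mod_cast hT
      omega
  have hd2 : (δ * (p * T + tpol (e τ))).natDegree < s := by
    refine lt_of_le_of_lt (natDegree_mul_le) ?_
    have k1 : (p * T + tpol (e τ)).natDegree ≤ 2 * N + n := by
      refine (natDegree_add_le _ _).trans (max_le ?_ ?_)
      · refine natDegree_mul_le.trans ?_
        omega
      · have := t2_tpol_natDegree (m := 2 * N - 1) (e τ) (by omega)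
        omega
    omega
  have h7 : lam S (GP * U) = δ * (p * T + tpol (e τ)) := by
    rw [← sub_eq_zero]
    by_contra hne
    have k1 : X ^ s ∣ lam S (GP * U) - δ * (p * T + tpol (e τ)) := by
      rw [← h.ker, map_sub, h6, sub_self]
    have k2 := natDegree_le_of_dvd k1 hne
    rw [natDegree_X_pow] at k2
    have k3 := natDegree_sub_le (lam S (GP * U)) (δ * (p * T + tpol (e τ)))
    omega
  have h8 := congrArg (evt (a j)) h7
  rw [← t2_lam_map (evt (a j)) h.monic, Polynomial.map_mul] at h8
  change lam (fib S (a j)) (fib GP (a j) * fib U (a j)) = _ at h8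
  rw [hGa, mul_assoc, t2_lam_C, map_mul, map_add, map_mul, proot j, zero_mul, zero_add, (he τ).2 j] at h8
  apply mul_left_cancel₀ (pder j)
  rw [h8]; ring

end


/-- number of zeros of a polynomial with coefficients in `K` among the elements of `L` -/
lemma t2_card_zero {K L : Type} [Field K] [Field L] [Fintype L] [Algebra K L] (q : K[X]) (hq : q ≠ 0)
    (m : ℕ) (hm : q.natDegree ≤ m) : Nat.card {a : L // evt a q = 0} ≤ m := by
  classical
  have hq' : q.map (algebraMap K L) ≠ 0 := by
    rwa [Polynomial.map_ne_zero_iff (algebraMap K L).injective]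
  have h1 : Nat.card {a : L // evt a q = 0} ≤ (q.map (algebraMap K L)).roots.toFinset.card := by
    rw [Nat.card_eq_fintype_card, Fintype.card_subtype]
    apply Finset.card_le_card
    intro a ha
    rw [Finset.mem_filter] at ha
    rw [Multiset.mem_toFinset, mem_roots hq', IsRoot.def, eval_map]
    exact ha.2
  refine h1.trans ?_
  refine (Multiset.toFinset_card_le _).trans ?_
  refine (card_roots' _).trans ?_
  exact natDegree_map_le.trans hm

open Classical in
/-- solution of the congruence `δ f' u = U` modulo the fibre `f` -/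
noncomputable def t2u {K L : Type} [Field K] [Field L] [Algebra K L] (S U : K[X][X]) (δ : K[X])
    (a : L) : L[X] :=
  if h : ∃ u : L[X], fib S a ∣ C (evt a δ) * derivative (fib S a) * u - fib U a then Classical.choose h
  else 0

lemma t2u_spec {K L : Type} [Field K] [Field L] [Algebra K L] (S U : K[X][X]) (δ : K[X])
    (a : L) (hδ : evt a δ ≠ 0) (hc : IsCoprime (fib S a) (derivative (fib S a))) :
    fib S a ∣ C (evt a δ) * derivative (fib S a) * t2u S U δ a - fib U a := by
  have h : ∃ u : L[X], fib S a ∣ C (evt a δ) * derivative (fib S a) * u - fib U a := by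
    obtain ⟨A, B, hAB⟩ := hc
    refine ⟨C (evt a δ)⁻¹ * (B * fib U a), -A * fib U a, ?_⟩
    have h1 : C (evt a δ) * C (evt a δ)⁻¹ = (1 : L[X]) := by
      rw [← C_mul, mul_inv_cancel₀ hδ, C_1]
    linear_combination (derivative (fib S a) * B * fib U a) * h1 + fib U a * hAB
  unfold t2u
  rw [dif_pos h]
  exact Classical.choose_spec h

theorem typeII (h1 : StmtPlace) (h2 : StmtLamMul) (h3 : StmtLamFrob) (h4 : StmtLamNondeg) (h5 : StmtTDMod) : StmtTypeII := by
  intro K L _ _ _ _ _ R _ π ε s n r N S F hfr h hN hs l hl δ U hδ hδn hUn hTD hU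
  classical
  obtain ⟨p, hp⟩ := CharP.exists K
  obtain ⟨k, hpp, hQ⟩ := FiniteField.card K p
  have : Fact p.Prime := ⟨hpp⟩
  have : CharP L p := charP_of_injective_algebraMap (algebraMap K L).injective p
  have hcardL : Fintype.card L = Fintype.card K ^ 2 := by
    rw [Module.card_eq_pow_finrank (K := K) (V := L), hfr]
  have hn := h.pos
  set Q := Fintype.card K with hQdef
  have hQ2 : 2 ≤ Q := Fintype.one_lt_card
  -- the polynomial Ψ
  set B : K[X][X] := C δ * derivative S with hB
  set Ψ : K[X][X] := U ^ Q * B - B ^ Q * U with hΨ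
  have hclaim : ¬ S ∣ Ψ := t2_claim h (by omega) l hl δ U hδ hδn hU
  set Ψ0 := Ψ %ₘ S with hΨ0
  have hΨ0ne : Ψ0 ≠ 0 := by
    intro h0
    exact hclaim ((modByMonic_eq_zero_iff_dvd h.monic).mp h0)
  have hS : TD S S.natDegree := by rw [h.deg]; exact h.td
  have hTDB : TD B (n + (n - 1)) := t2_TD_mul (t2_TD_C (by omega)) (t2_TD_deriv h.td)
  have hTDU : TD U (7 * n + 3) := t2_TD_mono hTD (by omega)
  have hTDΨ : TD Ψ ((7 * n + 3) * Q + 2 * n - 1) := by
    apply t2_TD_sub
    · refine t2_TD_mono (t2_TD_mul (t2_TD_pow hTDU Q) hTDB) ?_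
      have : Q * (7 * n + 3) = (7 * n + 3) * Q := Nat.mul_comm _ _
      omega
    · refine t2_TD_mono (t2_TD_mul (t2_TD_pow hTDB Q) hTDU) ?_
      obtain ⟨m, rfl⟩ : ∃ m, n = m + 1 := ⟨n - 1, by omega⟩
      have e1 : m + 1 + (m + 1 - 1) = 2 * m + 1 := by omega
      rw [e1]
      have : Q * (2 * m + 1) + (7 * (m + 1) + 3) + 1 ≤ (7 * (m + 1) + 3) * Q + 2 * (m + 1) := by
        nlinarith [Nat.zero_le (m * Q), Nat.mul_le_mul_left m hQ2]
      omega
  have hTDΨ0 : TD Ψ0 ((7 * n + 3) * Q + 2 * n - 1) := (h5 K S Ψ _ h.monic hS hTDΨ).1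
  obtain ⟨i0, hi0⟩ : ∃ i, Ψ0.coeff i ≠ 0 := by
    by_contra hc
    push Not at hc
    exact hΨ0ne (Polynomial.ext (by simpa using hc))
  -- bad places
  let bad : L → Prop := fun a => evt a δ = 0 ∨ fib Ψ0 a = 0
  have hbad : Nat.card {a : L // bad a} ≤ n + ((7 * n + 3) * Q + 2 * n - 1) := by
    have b1 := t2_card_zero (L := L) δ hδ n (by omega)
    have b2 := t2_card_zero (L := L) (Ψ0.coeff i0) hi0 ((7 * n + 3) * Q + 2 * n - 1)
      ((t2_TD_coeff hTDΨ0 i0).trans (by omega))
    rw [Nat.card_eq_fintype_card, Fintype.card_subtype] at b1 b2 ⊢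
    refine le_trans ?_ (Nat.add_le_add b1 b2)
    refine le_trans (Finset.card_le_card ?_) (Finset.card_union_le _ _)
    intro a ha
    rw [Finset.mem_filter] at ha
    rw [Finset.mem_union, Finset.mem_filter, Finset.mem_filter]
    rcases ha.2 with h6 | h6
    · left; exact ⟨Finset.mem_univ _, h6⟩
    · right
      refine ⟨Finset.mem_univ _, ?_⟩
      have : (fib Ψ0 a).coeff i0 = 0 := by rw [h6, coeff_zero]
      rwa [fib, coeff_map] at this
  -- the event
  let E : L → (Fin n → L) → Prop := fun a g => bad a ∨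
    (IsCoprime (fib S a) (derivative (fib S a)) ∧
      lam (fib S a) ((gp g) ^ (p ^ (k : ℕ)) * (((t2u S U δ a) ^ Q - t2u S U δ a) * derivative (fib S a))) = 0)
  have hfm : ∀ a : L, (fib S a).Monic := fun a => h.monic.map _
  have hfd : ∀ a : L, (fib S a).natDegree = n := fun a => by
    rw [fib, h.monic.natDegree_map, h.deg]
  refine ⟨E, ?_, ?_⟩
  · -- counting
    have hEa : ∀ a : L, Nat.card {g : Fin n → L // E a g} * Fintype.card L ≤
        if bad a then Fintype.card L ^ (n + 1) else Fintype.card L ^ n := by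
      intro a
      split_ifs with hb
      · rw [pow_succ]
        apply Nat.mul_le_mul_right
        have : Nat.card (Fin n → L) = Fintype.card L ^ n := by
          rw [Nat.card_eq_fintype_card]; simp
        rw [← this]
        exact Nat.card_le_card_of_injective (fun x => x.1) Subtype.val_injective
      · by_cases hc : IsCoprime (fib S a) (derivative (fib S a))
        · have hb' : evt a δ ≠ 0 ∧ fib Ψ0 a ≠ 0 := by
            simpa [bad, not_or] using hb
          have hspec := t2u_spec S U δ a hb'.1 hc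
          set u := t2u S U δ a with hu
          have hd : (u ^ Q - u) * derivative (fib S a) %ₘ fib S a ≠ 0 := by
            intro h0
            rw [modByMonic_eq_zero_iff_dvd (hfm a)] at h0
            apply hb'.2
            have k1 : fib Ψ0 a = fib Ψ a %ₘ fib S a := by
              rw [hΨ0, fib, map_modByMonic _ h.monic]; rfl
            rw [k1, modByMonic_eq_zero_iff_dvd (hfm a)]
            have k2 : fib Ψ a = (fib U a) ^ Q * (C (evt a δ) * derivative (fib S a)) -
                (C (evt a δ) * derivative (fib S a)) ^ Q * fib U a := by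
              rw [hΨ, hB]
              simp only [fib, Polynomial.map_sub, Polynomial.map_mul, Polynomial.map_pow, map_C,
                derivative_map]
            set w := C (evt a δ) * derivative (fib S a) with hw
            have k3 : fib S a ∣ w * u - fib U a := hspec
            have k4 : fib S a ∣ (w * u) ^ Q - (fib U a) ^ Q := k3.trans (sub_dvd_pow_sub_pow _ _ _)
            have k5 : fib Ψ a = w ^ Q * C (evt a δ) * ((u ^ Q - u) * derivative (fib S a)) -
                (((w * u) ^ Q - (fib U a) ^ Q) * w - w ^ Q * (w * u - fib U a)) := by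
              rw [k2, mul_pow, hw]; ring
            rw [k5]
            exact dvd_sub (h0.mul_left _) (dvd_sub (k4.mul_right _) (k3.mul_left _))
          have hh := t2_hyper p k h4 (fib S a) (hfm a) n (hfd a) (Separable.squarefree hc) _ hd
          refine le_trans (Nat.mul_le_mul_right _ ?_) hh
          apply Nat.card_le_card_of_injective
            (fun x : {g : Fin n → L // E a g} =>
              (⟨x.1, (x.2.resolve_left hb).2⟩ : {g : Fin n → L // lam (fib S a)
                ((gp g) ^ (p ^ (k : ℕ)) * ((u ^ Q - u) * derivative (fib S a))) = 0}))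
          intro x y hxy
          apply Subtype.ext
          exact congrArg (fun z => z.1) hxy
        · have : IsEmpty {g : Fin n → L // E a g} := by
            refine ⟨fun x => ?_⟩
            rcases x.2 with h6 | h6
            · exact hb h6
            · exact hc h6.1
          rw [Nat.card_of_isEmpty, zero_mul]
          exact Nat.zero_le _
    have hcount : Nat.card {x : L × (Fin n → L) // E x.1 x.2} * Fintype.card L ≤
        (Nat.card {a : L // bad a} + 1) * Fintype.card L ^ (n + 1) := by
      rw [Nat.card_congr (Equiv.subtypeProdEquivSigmaSubtype E), Nat.card_sigma, Finset.sum_mul]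
      refine (Finset.sum_le_sum (fun a _ => hEa a)).trans ?_
      have : ∀ a : L, (if bad a then Fintype.card L ^ (n + 1) else Fintype.card L ^ n) ≤
          (if bad a then Fintype.card L ^ (n + 1) else 0) + Fintype.card L ^ n := by
        intro a
        split_ifs
        · omega
        · omega
      refine (Finset.sum_le_sum (fun a _ => this a)).trans ?_
      rw [Finset.sum_add_distrib, Finset.sum_const, Finset.card_univ, smul_eq_mul,
        ← Finset.sum_filter, Finset.sum_const, smul_eq_mul, Nat.card_eq_fintype_card,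
        Fintype.card_subtype, add_mul, one_mul, ← pow_succ' (Fintype.card L) n]
    have hle : Nat.card {a : L // bad a} + 1 ≤ 12 * n * Q := by
      have k1 : (7 * n + 3) * Q + 3 * n ≤ 12 * n * Q := by
        nlinarith [Nat.mul_le_mul_left n hQ2, Nat.mul_le_mul_right Q hn]
      omega
    have h9 : Nat.card {x : L × (Fin n → L) // E x.1 x.2} * Q * Q ≤
        (12 * n * Fintype.card L ^ (n + 1)) * Q := by
      calc Nat.card {x : L × (Fin n → L) // E x.1 x.2} * Q * Q
          = Nat.card {x : L × (Fin n → L) // E x.1 x.2} * Fintype.card L := by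
            rw [hcardL]; ring
        _ ≤ (Nat.card {a : L // bad a} + 1) * Fintype.card L ^ (n + 1) := hcount
        _ ≤ 12 * n * Q * Fintype.card L ^ (n + 1) := Nat.mul_le_mul_right _ hle
        _ = _ := by ring
    exact Nat.le_of_mul_le_mul_right h9 (by omega)
  · -- the implication
    intro a g ha hτ j
    obtain ⟨τ, hsys1, hsys2⟩ := hτ
    by_cases hb : bad (a j)
    · exact Or.inl hb
    · right
      have hc := ha.2.2.2 j
      refine ⟨hc, ?_⟩
      have hb' : evt (a j) δ ≠ 0 ∧ fib Ψ0 (a j) ≠ 0 := by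
        simpa [bad, not_or] using hb
      have hspec := t2u_spec S U δ (a j) hb'.1 hc
      set u := t2u S U δ (a j) with hu
      have e1 := t2_half h1 h2 h5 hfr h hN hs l δ U hδn hTD hU a ha g τ hsys1 j
      have e2 := t2_half h1 h2 h5 hfr h hN hs l δ U hδn hTD hU a ha
        (fun j => gfrob S Q (a j) (g j)) (fun j => τ j ^ Q) hsys2 j
      have key : ∀ c : L[X], lam (fib S (a j)) (c * fib U (a j)) =
          evt (a j) δ * lam (fib S (a j)) (c * u * derivative (fib S (a j))) := by
        intro c
        rw [← t2_lam_C]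
        apply t2_lam_congr (hfm _)
        have : c * fib U (a j) - C (evt (a j) δ) * (c * u * derivative (fib S (a j))) =
            -c * (C (evt (a j) δ) * derivative (fib S (a j)) * u - fib U (a j)) := by ring
        rw [this]
        exact hspec.mul_left _
      rw [key] at e1 e2
      have e1' := mul_left_cancel₀ hb'.1 e1
      have e2' := mul_left_cancel₀ hb'.1 e2
      have hgf : gp (gfrob S Q (a j) (g j)) = (gp (g j)) ^ Q %ₘ fib S (a j) := by
        unfold gfrob
        apply t2_gp_of
        have : (fib S (a j)).degree = n := by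
          rw [degree_eq_natDegree (hfm _).ne_zero, hfd]
        rw [← this]
        exact degree_modByMonic_lt _ (hfm _)
      have e3 : lam (fib S (a j)) ((gp (g j)) ^ Q * u * derivative (fib S (a j))) = τ j ^ Q := by
        rw [← e2', hgf]
        apply t2_lam_congr (hfm _)
        have k1 := modByMonic_add_div ((gp (g j)) ^ Q) (fib S (a j))
        refine ⟨((gp (g j)) ^ Q /ₘ fib S (a j)) * u * derivative (fib S (a j)), ?_⟩
        linear_combination (-(u * derivative (fib S (a j)))) * k1
      have e4 := h3 L p k (fib S (a j)) (gp (g j) * u) (hfm _)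
      rw [e1'] at e4
      have hQ' : Q = p ^ (k:ℕ) := hQ
      rw [← hQ'] at e4 ⊢
      have e5 : (gp (g j)) ^ Q * ((u ^ Q - u) * derivative (fib S (a j))) =
          (gp (g j) * u) ^ Q * derivative (fib S (a j)) - (gp (g j)) ^ Q * u * derivative (fib S (a j)) := by
        rw [mul_pow]; ring
      rw [e5, t2_lam_sub, e4, e3, sub_self]

end Pool.Agent.H330FB.JR12
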