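import Pool.Agent.H330FB.StmtsR2
set_option autoImplicit false
noncomputable section
namespace Pool.Agent.H330FB.JR13
open Polynomial

/-! ### the size of the numbers -/

theorem r13_arith1 (n Q T cA cB : ℕ) (hn : 1 ≤ n) (hQ : (40 * n) ^ 4 ≤ Q)
    (hA : cA * Q ^ 2 ≤ ((2 * n + 2) * Q + (2 * n + 2) ^ 2 + (2 * n + 2) * (2 * n ^ 2 + n)) * T)
    (hB : cB * Q ≤ T) : (cA + cB) * Q ≤ 7 * n * T := by
  have hQ0 : 0 < Q := lt_of_lt_of_le (by positivity) hQ
  have hn1 : n ≤ n ^ 2 := Nat.le_self_pow (by norm_num) n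
  have hn2 : n ^ 2 ≤ n ^ 3 := Nat.pow_le_pow_right hn (by norm_num)
  have hn3 : n ^ 3 ≤ n ^ 4 := Nat.pow_le_pow_right hn (by norm_num)
  have h1 : (2 * n + 2) ^ 2 + (2 * n + 2) * (2 * n ^ 2 + n) ≤ Q := by
    refine le_trans ?_ hQ
    have e1 : (2 * n + 2) ^ 2 + (2 * n + 2) * (2 * n ^ 2 + n) =
        4 * n ^ 3 + 10 * n ^ 2 + 10 * n + 4 := by ring
    have e2 : (40 * n) ^ 4 = 2560000 * n ^ 4 := by ring
    rw [e1, e2]
    omega
  have h2 : (2 * n + 2) * Q + (2 * n + 2) ^ 2 + (2 * n + 2) * (2 * n ^ 2 + n) + Q ≤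
      7 * n * Q := by
    have h3 : (2 * n + 2) * Q + Q + Q ≤ 7 * n * Q := by
      have h4 : (2 * n + 2) * Q + Q + Q = (2 * n + 4) * Q := by ring
      rw [h4]
      exact Nat.mul_le_mul_right _ (by omega)
    omega
  have h5 : (cA + cB) * Q * Q ≤ 7 * n * T * Q := by
    calc (cA + cB) * Q * Q = cA * Q ^ 2 + cB * Q * Q := by ring
      _ ≤ ((2 * n + 2) * Q + (2 * n + 2) ^ 2 + (2 * n + 2) * (2 * n ^ 2 + n)) * T + T * Q :=
          Nat.add_le_add hA (Nat.mul_le_mul_right _ hB)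
      _ = ((2 * n + 2) * Q + (2 * n + 2) ^ 2 + (2 * n + 2) * (2 * n ^ 2 + n) + Q) * T := by ring
      _ ≤ (7 * n * Q) * T := Nat.mul_le_mul_right _ h2
      _ = 7 * n * T * Q := by ring
  exact Nat.le_of_mul_le_mul_right h5 hQ0

theorem r13_arith2 (n Q q c e : ℕ) (hQ : (40 * n) ^ 4 ≤ Q) (hn : 1 ≤ n)
    (he : e * Q ≤ 12 * n * q ^ (n + 1)) (hc : c ≤ e ^ (2 * n + 2)) :
    c * Q ^ (n + 1) ≤ q ^ ((2 * n + 2) * (n + 1)) := by
  have hQ0 : 0 < Q := lt_of_lt_of_le (by positivity) hQ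
  have h1 : c * Q ^ (2 * n + 2) ≤ (12 * n) ^ (2 * n + 2) * q ^ ((2 * n + 2) * (n + 1)) := by
    calc c * Q ^ (2 * n + 2) ≤ e ^ (2 * n + 2) * Q ^ (2 * n + 2) := Nat.mul_le_mul_right _ hc
      _ = (e * Q) ^ (2 * n + 2) := by rw [mul_pow]
      _ ≤ (12 * n * q ^ (n + 1)) ^ (2 * n + 2) := Nat.pow_le_pow_left he _
      _ = (12 * n) ^ (2 * n + 2) * q ^ ((2 * n + 2) * (n + 1)) := by
          rw [mul_pow, ← pow_mul, mul_comm (n + 1)]
  have h2 : (12 * n) ^ (2 * n + 2) ≤ Q ^ (n + 1) := by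
    have e1 : (12 * n) ^ (2 * n + 2) = ((12 * n) ^ 2) ^ (n + 1) := by
      rw [← pow_mul]; congr 1
    rw [e1]
    refine Nat.pow_le_pow_left (le_trans ?_ hQ) _
    calc (12 * n) ^ 2 ≤ (40 * n) ^ 2 := Nat.pow_le_pow_left (by omega) _
      _ ≤ (40 * n) ^ 4 := Nat.pow_le_pow_right (by omega) (by norm_num)
  have h3 : c * Q ^ (n + 1) * Q ^ (n + 1) ≤ q ^ ((2 * n + 2) * (n + 1)) * Q ^ (n + 1) := by
    calc c * Q ^ (n + 1) * Q ^ (n + 1) = c * Q ^ (2 * n + 2) := by
          rw [mul_assoc, ← pow_add]; congr 2; ring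
      _ ≤ (12 * n) ^ (2 * n + 2) * q ^ ((2 * n + 2) * (n + 1)) := h1
      _ ≤ Q ^ (n + 1) * q ^ ((2 * n + 2) * (n + 1)) := Nat.mul_le_mul_right _ h2
      _ = q ^ ((2 * n + 2) * (n + 1)) * Q ^ (n + 1) := mul_comm _ _
  exact Nat.le_of_mul_le_mul_right h3 (pow_pos hQ0 _)

/-! ### counting -/

/-- counting pairs fibre by fibre -/
theorem r13_fibre {A G : Type} [Fintype A] [Fintype G] (P : A → Prop) (Rr : A → G → Prop) (c d : ℕ)
    (h : ∀ a, P a → Nat.card {g : G // Rr a g} * c ≤ d) :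
    Nat.card {ω : A × G // P ω.1 ∧ Rr ω.1 ω.2} * c ≤ Fintype.card A * d := by
  classical
  have e : {ω : A × G // P ω.1 ∧ Rr ω.1 ω.2} ≃ Σ a : A, {g : G // P a ∧ Rr a g} :=
    { toFun := fun ω => ⟨ω.1.1, ω.1.2, ω.2⟩
      invFun := fun x => ⟨(x.1, x.2.1), x.2.2⟩
      left_inv := fun ω => rfl
      right_inv := fun x => rfl }
  rw [Nat.card_congr e, Nat.card_eq_fintype_card, Fintype.card_sigma, Finset.sum_mul]
  calc ∑ a : A, Fintype.card {g : G // P a ∧ Rr a g} * c ≤ ∑ _a : A, d := by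
        refine Finset.sum_le_sum fun a _ => ?_
        by_cases hP : P a
        · refine le_trans (Nat.mul_le_mul_right _ ?_) (h a hP)
          rw [Nat.card_eq_fintype_card]
          exact Fintype.card_subtype_mono _ _ (fun g hg => hg.2)
        · have : Fintype.card {g : G // P a ∧ Rr a g} = 0 := by
            rw [Fintype.card_eq_zero_iff]
            exact ⟨fun g => hP g.2.1⟩
          rw [this, zero_mul]
          exact Nat.zero_le _
    _ = Fintype.card A * d := by rw [Finset.sum_const, Finset.card_univ, smul_eq_mul]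

/-- counting with an event at every place -/
theorem r13_place {L H : Type} [Finite L] [Finite H] (N : ℕ) (E : L → H → Prop)
    (P : (Fin N → L) × (Fin N → H) → Prop) (h : ∀ ω, P ω → ∀ j, E (ω.1 j) (ω.2 j)) :
    Nat.card {ω : (Fin N → L) × (Fin N → H) // P ω} ≤
      Nat.card {x : L × H // E x.1 x.2} ^ N := by
  have e : Nat.card (Fin N → {x : L × H // E x.1 x.2}) = Nat.card {x : L × H // E x.1 x.2} ^ N := by
    rw [Nat.card_fun, Nat.card_fin]
  rw [← e]
  refine Nat.card_le_card_of_injective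
    (fun ω j => ⟨(ω.1.1 j, ω.1.2 j), h ω.1 ω.2 j⟩) ?_
  rintro ⟨⟨a, g⟩, hω⟩ ⟨⟨a', g'⟩, hω'⟩ heq
  have h1 : ∀ j, a j = a' j ∧ g j = g' j := by
    intro j
    have h2 := congrArg Subtype.val (congrFun heq j)
    exact ⟨congrArg Prod.fst h2, congrArg Prod.snd h2⟩
  have h3 : a = a' := funext fun j => (h1 j).1
  have h4 : g = g' := funext fun j => (h1 j).2
  subst h3 h4
  rfl

/-! ### the local factors -/

section
variable {K : Type} [Field K] {R : Type} [CommRing R] {π : K[X] →+* R} {ε : R →+* K}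
  {s n r : ℕ} {S : K[X][X]} {F : Fin r → R[X]}

theorem r13_comp (h : LocalFact π ε s n r S F) : ε.comp π = evalRingHom (0 : K) :=
  RingHom.ext fun f => h.eps f

theorem r13_prod (h : LocalFact π ε s n r S F) :
    S.map (evalRingHom (0 : K)) = ∏ i, (F i).map ε := by
  rw [← r13_comp h, ← Polynomial.map_map, ← h.prod, Polynomial.map_prod]

theorem r13_sqf (h : LocalFact π ε s n r S F) : Squarefree (S.map (evalRingHom (0 : K))) := by
  classical
  rw [r13_prod h]
  refine Finset.squarefree_prod_of_pairwise_isCoprime ?_ fun i _ => (h.irr i).squarefree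
  intro i _ j _ hij
  change IsRelPrime ((F i).map ε) ((F j).map ε)
  refine IsCoprime.isRelPrime (((h.irr i).coprime_iff_not_dvd).2 fun hdvd => ?_)
  have h1 : Associated ((F i).map ε) ((F j).map ε) :=
    (h.irr i).associated_of_dvd (h.irr j) hdvd
  have h2 : (F i).map ε = (F j).map ε :=
    eq_of_monic_of_associated ((h.Fmonic i).map ε) ((h.Fmonic j).map ε) h1
  exact hij (h.inj h2)

theorem r13_le (h : LocalFact π ε s n r S F) : r ≤ n := by
  have h1 : (S.map (evalRingHom (0 : K))).natDegree = n := by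
    rw [h.monic.natDegree_map, h.deg]
  rw [r13_prod h, natDegree_prod_of_monic _ _ fun i _ => (h.Fmonic i).map ε] at h1
  have h2 : ∑ _i : Fin r, 1 ≤ ∑ i, ((F i).map ε).natDegree := by
    refine Finset.sum_le_sum fun i _ => ?_
    exact (h.irr i).natDegree_pos
  rw [h1] at h2
  simpa using h2

end

/- ASSEMBLY. N = 2n+2, Ω = (Fin N -> L) x (Fin N -> Fin n -> L), card Ω = card L ^ (N(n+1)), card L = Q^2. r <= n since prod F_i = S.map π and every F_i
has degree >= 1 (its image under ε is irreducible). Squarefree (S.map (evalRingHom 0)): it is the product of the distinct irreducible (F i).map ε.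
not GoodR  implies  not Adm a, or (Adm a and for some l not constant on blocks there is τ with Sys l τ). (First part of Adm gives a_j nonzero;
parts 3 and 4 of GoodR by StmtGoodSolves.) For each such l (at most Q^n of them): type I: number of (a,g) with Adm a and some τ is
at most card L^N * card L^(Nn) / Q^(n+1); type II: at most prod_j card{E} <= (12 n card L^(n+1) / Q)^N.
Total * Q <= [ (N Q + N^2 + N(2n^2+n))/Q + 1 + Q^(n+1) (12n)^N / Q^N ] card Ω <= 7 n card Ω, using Q >= (40n)^4, (12n)^(2n+2) = (144 n^2)^(n+1) <= Q^(n+1). -/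
theorem stmtR (h1 : StmtAdmCount) (h2 : StmtGoodSolves) (h3 : StmtTypes) (h4 : StmtTypeII) : StmtR := by
  intro K L _ _ _ _ _ R _ π ε s n r S F hKL hF hs hQ
  classical
  set Q := Fintype.card K with hQdef
  set q := Fintype.card L with hqdef
  set N := 2 * n + 2 with hN
  have hn : 1 ≤ n := hF.pos
  have hQ0 : 0 < Q := Fintype.card_pos
  set T := q ^ (N * (n + 1)) with hT
  -- the vectors not constant on blocks
  set NC : Finset (Fin r → K) :=
    Finset.univ.filter fun l => ¬ ∀ i j, SameBlock π S F i j → l i = l j with hNC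
  set A : Finset ((Fin N → L) × (Fin N → Fin n → L)) :=
    Finset.univ.filter fun ω => ¬ Adm S Q ω.1 with hAdef
  set B : (Fin r → K) → Finset ((Fin N → L) × (Fin N → Fin n → L)) := fun l =>
    Finset.univ.filter fun ω => Adm S Q ω.1 ∧ ∃ τ, Sys π s S F Q ω.1 ω.2 l τ with hBdef
  -- the inclusion
  have hsub : (Finset.univ.filter fun ω : (Fin N → L) × (Fin N → Fin n → L) =>
      ¬ GoodR π s S F Q ω.1 ω.2) ⊆ A ∪ NC.biUnion B := by
    intro ω hω
    rw [Finset.mem_filter] at hω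
    rw [Finset.mem_union]
    by_cases hadm : Adm S Q ω.1
    · right
      by_contra hcon
      apply hω.2
      obtain ⟨g1, g2⟩ := h2 K L R π ε s n r N S F hKL hF (by omega) (by omega) ω.1 ω.2 hadm
      refine ⟨hadm.1, fun l τ hsys => ?_, g1, g2⟩
      by_contra hl
      apply hcon
      rw [Finset.mem_biUnion]
      exact ⟨l, Finset.mem_filter.2 ⟨Finset.mem_univ _, hl⟩,
        Finset.mem_filter.2 ⟨Finset.mem_univ _, hadm, τ, hsys⟩⟩
    · left
      exact Finset.mem_filter.2 ⟨Finset.mem_univ _, hadm⟩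
  -- the first count
  have hA : A.card * Q ^ 2 ≤
      ((2 * n + 2) * Q + (2 * n + 2) ^ 2 + (2 * n + 2) * (2 * n ^ 2 + n)) * T := by
    have c1 := h1 K L S n N hKL hF.monic hF.deg hn hF.td (r13_sqf hF)
    have c2 : A.card = Nat.card {a : Fin N → L // ¬ Adm S Q a} * q ^ (N * n) := by
      have c3 : A = (Finset.univ.filter fun a : Fin N → L => ¬ Adm S Q a) ×ˢ
          (Finset.univ : Finset (Fin N → Fin n → L)) := by
        ext ω
        simp [hAdef]
      rw [c3, Finset.card_product, Nat.card_eq_fintype_card, Fintype.card_subtype,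
        Finset.card_univ]
      congr 1
      simp [Fintype.card_pi, ← pow_mul, mul_comm]
      rfl
    rw [c2]
    calc Nat.card {a : Fin N → L // ¬ Adm S Q a} * q ^ (N * n) * Q ^ 2
        = Nat.card {a : Fin N → L // ¬ Adm S Q a} * Q ^ 2 * q ^ (N * n) := by ring
      _ ≤ (N * Q + N ^ 2 + N * (2 * n ^ 2 + n)) * q ^ N * q ^ (N * n) :=
          Nat.mul_le_mul_right _ c1
      _ = (N * Q + N ^ 2 + N * (2 * n ^ 2 + n)) * T := by
          rw [mul_assoc, ← pow_add, hT]; congr 2; ring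
  -- the second count
  have hB : ∀ l ∈ NC, (B l).card * Q ^ (n + 1) ≤ T := by
    intro l hl
    have hl' := (Finset.mem_filter.1 hl).2
    have c1 : (B l).card = Nat.card {ω : (Fin N → L) × (Fin N → Fin n → L) //
        Adm S Q ω.1 ∧ ∃ τ, Sys π s S F Q ω.1 ω.2 l τ} := by
      rw [Nat.card_eq_fintype_card, Fintype.card_subtype]
    rw [c1]
    rcases h3 K L R π ε s n r N S F hKL hF rfl hs l with hI | ⟨δ, U, hδ, hδd, hU, hTD, hV⟩
    · refine le_trans (r13_fibre (fun a => Adm S Q a)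
        (fun a g => ∃ τ, Sys π s S F Q a g l τ) (Q ^ (n + 1)) (q ^ (N * n)) hI) ?_
      rw [Fintype.card_fun, Fintype.card_fin, ← pow_add, hT]
      apply le_of_eq
      congr 1
      ring
    · obtain ⟨E, hE1, hE2⟩ := h4 K L R π ε s n r N S F hKL hF rfl hs l hl' δ U hδ hδd hU hTD hV
      refine r13_arith2 n Q q _ _ hQ hn hE1 ?_
      exact r13_place N E _ fun ω hω => hE2 ω.1 ω.2 hω.1 hω.2
  have hNCcard : NC.card ≤ Q ^ n := by
    calc NC.card ≤ (Finset.univ : Finset (Fin r → K)).card := Finset.card_filter_le _ _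
      _ = Q ^ r := by rw [Finset.card_univ, Fintype.card_fun, Fintype.card_fin]
      _ ≤ Q ^ n := Nat.pow_le_pow_right hQ0 (r13_le hF)
  have hBsum : (NC.biUnion B).card * Q ≤ T := by
    have c1 : (NC.biUnion B).card * Q * Q ^ n ≤ T * Q ^ n := by
      calc (NC.biUnion B).card * Q * Q ^ n = (NC.biUnion B).card * Q ^ (n + 1) := by ring
        _ ≤ (∑ l ∈ NC, (B l).card) * Q ^ (n + 1) :=
            Nat.mul_le_mul_right _ Finset.card_biUnion_le
        _ = ∑ l ∈ NC, (B l).card * Q ^ (n + 1) := Finset.sum_mul _ _ _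
        _ ≤ ∑ _l ∈ NC, T := Finset.sum_le_sum hB
        _ = NC.card * T := by rw [Finset.sum_const, smul_eq_mul]
        _ ≤ Q ^ n * T := Nat.mul_le_mul_right _ hNCcard
        _ = T * Q ^ n := mul_comm _ _
    exact Nat.le_of_mul_le_mul_right c1 (pow_pos hQ0 _)
  have hfin := r13_arith1 n Q T A.card (NC.biUnion B).card hn hQ hA hBsum
  refine le_trans (Nat.mul_le_mul_right _ ?_) hfin
  rw [Nat.card_eq_fintype_card, Fintype.card_subtype]
  exact (Finset.card_le_card hsub).trans (Finset.card_union_le _ _)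

end Pool.Agent.H330FB.JR13
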