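import Pool.Agent.H330FB.StmtsR
set_option autoImplicit false
noncomputable section
namespace Pool.Agent.H330FB.JR2
open Polynomial

theorem lamMul : StmtLamMul := by
  intro R _ F G c hF hG
  cases subsingleton_or_nontrivial R with
  | inl h => exact Subsingleton.elim _ _
  | inr h =>
    have hFG : (F * G).Monic := hF.mul hG
    have hmod : (c * G) %ₘ (F * G) = (c %ₘ F) * G := by
      refine (div_modByMonic_unique (c /ₘ F) ((c %ₘ F) * G) hFG ⟨?_, ?_⟩).2
      · conv_rhs => rw [← modByMonic_add_div c F]
        ring
      · rw [hG.degree_mul, hG.degree_mul]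
        have h1 : (c %ₘ F).degree < F.degree := degree_modByMonic_lt c hF
        have h2 : G.degree ≠ ⊥ := by
          rw [Ne, degree_eq_bot]
          exact hG.ne_zero
        exact WithBot.add_lt_add_right h2 h1
    unfold lam
    rw [hmod, hF.natDegree_mul hG]
    by_cases h0 : F.natDegree = 0
    · have h1 : F = 1 := hF.natDegree_eq_zero.1 h0
      subst h1
      simp
    · have h1 : F.natDegree + G.natDegree - 1 = (F.natDegree - 1) + G.natDegree := by omega
      have h2 : (c %ₘ F).natDegree ≤ F.natDegree - 1 := by
        have hne : F ≠ 1 := by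
          rintro rfl
          simp at h0
        have := natDegree_modByMonic_lt c hF hne
        omega
      rw [h1, coeff_mul_add_eq_of_natDegree_le h2 le_rfl]
      have h3 : G.coeff G.natDegree = 1 := hG
      rw [h3, mul_one]

theorem lamNondeg : StmtLamNondeg := by
  intro L _ F d hF he
  set e := d %ₘ F with hedef
  have hdeg : e.degree < F.degree := degree_modByMonic_lt d hF
  have hlt : e.natDegree < F.natDegree := natDegree_lt_natDegree he hdeg
  refine ⟨X ^ (F.natDegree - 1 - e.natDegree), ?_, ?_⟩
  · rw [degree_X_pow, degree_eq_natDegree hF.ne_zero]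
    exact_mod_cast (by omega : F.natDegree - 1 - e.natDegree < F.natDegree)
  · have h1 : (X ^ (F.natDegree - 1 - e.natDegree) * d) %ₘ F =
        X ^ (F.natDegree - 1 - e.natDegree) * e := by
      refine (div_modByMonic_unique (X ^ (F.natDegree - 1 - e.natDegree) * (d /ₘ F)) _ hF
        ⟨?_, ?_⟩).2
      · conv_rhs => rw [← modByMonic_add_div d F]
        rw [← hedef]
        ring
      · rw [degree_mul, degree_X_pow, degree_eq_natDegree he, degree_eq_natDegree hF.ne_zero]
        exact_mod_cast (by omega : F.natDegree - 1 - e.natDegree + e.natDegree < F.natDegree)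
    unfold lam
    rw [h1, coeff_X_pow_mul']
    have h2 : F.natDegree - 1 - (F.natDegree - 1 - e.natDegree) = e.natDegree := by omega
    rw [if_pos (by omega), h2]
    exact leadingCoeff_ne_zero.2 he

end Pool.Agent.H330FB.JR2
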