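import Pool.Agent.H330FB.StmtsR

set_option autoImplicit false

noncomputable section
namespace Pool.Agent.H330FB.JR3

open Polynomial

section TDModAux

variable {A : Type} [CommRing A]

theorem TD_mono_TDMod {f : A[X][X]} {a b : ℕ} (hf : TD f a) (h : a ≤ b) : TD f b :=
  fun i j hij => hf i j (lt_of_le_of_lt h hij)

theorem TD_zero_TDMod (a : ℕ) : TD (0 : A[X][X]) a := fun i j _ => by simp

theorem TD_add_TDMod {f g : A[X][X]} {a : ℕ} (hf : TD f a) (hg : TD g a) : TD (f + g) a := by
  intro i j hij
  rw [coeff_add, coeff_add, hf i j hij, hg i j hij, add_zero]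

theorem TD_sub_TDMod {f g : A[X][X]} {a : ℕ} (hf : TD f a) (hg : TD g a) : TD (f - g) a := by
  intro i j hij
  rw [coeff_sub, coeff_sub, hf i j hij, hg i j hij, sub_zero]

theorem TD_mul_TDMod {f g : A[X][X]} {a b : ℕ} (hf : TD f a) (hg : TD g b) :
    TD (f * g) (a + b) := by
  intro i j hij
  rw [coeff_mul, finsetSum_coeff]
  refine Finset.sum_eq_zero fun x hx => ?_
  rw [coeff_mul]
  refine Finset.sum_eq_zero fun y hy => ?_
  rw [Finset.HasAntidiagonal.mem_antidiagonal] at hx hy
  rcases Nat.lt_or_ge a (x.1 + y.1) with h | h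
  · rw [hf _ _ h, zero_mul]
  · rw [hg x.2 y.2 (by omega), mul_zero]

/-- existence of a division with control of the total degree -/
theorem exists_TDMod [Nontrivial A] {S : A[X][X]} (hS : S.Monic) (hSd : TD S S.natDegree) (k : ℕ) :
    ∀ (N : ℕ) (f : A[X][X]), f.degree < N → TD f k →
      ∃ q r : A[X][X], r + S * q = f ∧ r.degree < S.degree ∧ TD r k ∧
        TD q (k - S.natDegree) := by
  intro N
  induction N with
  | zero =>
    intro f hf _
    have : f = 0 := by
      ext1 i
      rw [(degree_lt_iff_coeff_zero f 0).1 hf i (Nat.zero_le _), coeff_zero]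
    subst this
    refine ⟨0, 0, by simp, ?_, TD_zero_TDMod _, TD_zero_TDMod _⟩
    rw [degree_zero]
    exact bot_lt_iff_ne_bot.2 (fun h => hS.ne_zero (degree_eq_bot.1 h))
  | succ N ih =>
    intro f hf hk
    rcases lt_or_ge f.degree S.degree with h | h
    · exact ⟨0, f, by simp, h, hk, TD_zero_TDMod _⟩
    · have hf0 : f ≠ 0 := by
        rintro rfl
        rw [degree_zero, le_bot_iff, degree_eq_bot] at h
        exact hS.ne_zero h
      have hnd : S.natDegree ≤ f.natDegree := natDegree_le_natDegree h
      have hkd : f.natDegree ≤ k := by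
        by_contra hlt
        apply hf0
        rw [← leadingCoeff_eq_zero]
        ext j
        rw [coeff_zero]
        exact hk _ _ (by omega)
      set t : A[X][X] := C f.leadingCoeff * X ^ (f.natDegree - S.natDegree) with ht
      have htd : TD t (k - S.natDegree) := by
        intro i j hij
        rw [ht, coeff_C_mul, coeff_X_pow]
        split_ifs with hi
        · rw [mul_one]
          exact hk _ _ (by omega)
        · rw [mul_zero, coeff_zero]
      have hlt : (f - S * t).degree < f.degree := by
        have := div_wf_lemma ⟨h, hf0⟩ hS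
        exact this
      have hmem : TD (f - S * t) k := by
        refine TD_sub_TDMod hk ?_
        refine TD_mono_TDMod (TD_mul_TDMod hSd htd) ?_
        omega
      obtain ⟨q, r, h1, h2, h3, h4⟩ := ih (f - S * t) (by
        have h6 : f.natDegree < N + 1 := (natDegree_lt_iff_degree_lt hf0).2 hf
        have h5 : f.degree ≤ N := degree_le_of_natDegree_le (by omega)
        exact lt_of_lt_of_le hlt h5) hmem
      refine ⟨q + t, r, ?_, h2, h3, TD_add_TDMod h4 htd⟩
      rw [mul_add, ← add_assoc, h1]
      ring

end TDModAux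

/-- Total degree does not increase when dividing by `S`. -/
theorem tdMod : StmtTDMod := by
  intro A _ _ S f k hS hSd hf
  obtain ⟨q, r, h1, h2, h3, h4⟩ := exists_TDMod hS hSd k (f.natDegree + 1) f
    (lt_of_le_of_lt degree_le_natDegree (by exact_mod_cast Nat.lt_succ_self _)) hf
  obtain ⟨h5, h6⟩ := div_modByMonic_unique q r hS ⟨h1, h2⟩
  rw [h5, h6]
  exact ⟨h3, h4⟩

end Pool.Agent.H330FB.JR3
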