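import Pool.Agent.H330FB.StmtsR
set_option autoImplicit false
noncomputable section
namespace Pool.Agent.H330FB.JR4
open Polynomial

theorem lam_add_J985 {R : Type} [CommRing R] (F a b : R[X]) : lam F (a + b) = lam F a + lam F b := by
  unfold lam
  rw [add_modByMonic, coeff_add]

theorem lam_map_J985 {R S : Type} [CommRing R] [CommRing S] [Nontrivial S] (φ : R →+* S)
    (F c : R[X]) (hF : F.Monic) : lam (F.map φ) (c.map φ) = φ (lam F c) := by
  unfold lam
  rw [← map_modByMonic φ hF, coeff_map, hF.natDegree_map]

theorem lam_prod_J985 (h : StmtLamMul) {A : Type} [Field A] (c : A[X]) (s : Multiset A) :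
    lam (s.map (fun a => X - C a)).prod (c * derivative (s.map (fun a => X - C a)).prod) =
      (s.map (fun a => c.eval a)).sum := by
  induction s using Multiset.induction_on with
  | empty => simp [lam]
  | cons a t ih =>
    simp only [Multiset.map_cons, Multiset.prod_cons, Multiset.sum_cons]
    set g : A[X] := (t.map (fun a => X - C a)).prod with hgdef
    have hg : g.Monic := monic_multiset_prod_of_monic _ _ (fun a _ => monic_X_sub_C a)
    have h1 : lam ((X - C a) * g) (c * g) = c.eval a := by
      rw [h A (X - C a) g c (monic_X_sub_C a) hg]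
      unfold lam
      rw [modByMonic_X_sub_C_eq_C_eval, natDegree_X_sub_C]
      simp
    have h2 : lam ((X - C a) * g) ((c * derivative g) * (X - C a)) =
        (t.map (fun a => c.eval a)).sum := by
      rw [mul_comm (X - C a) g, h A g (X - C a) (c * derivative g) hg (monic_X_sub_C a)]
      exact ih
    have h3 : c * derivative ((X - C a) * g) = c * g + (c * derivative g) * (X - C a) := by
      rw [derivative_mul, derivative_X_sub_C]
      ring
    rw [h3, lam_add_J985, h1, h2]

theorem lamFrob (h : StmtLamMul) : StmtLamFrob := by
  intro L _ p _ _ k f c hf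
  have hinj : Function.Injective (algebraMap L (AlgebraicClosure L)) :=
    (algebraMap L (AlgebraicClosure L)).injective
  have : CharP (AlgebraicClosure L) p := charP_of_injective_algebraMap hinj p
  apply hinj
  rw [map_pow, ← lam_map_J985 _ _ _ hf, ← lam_map_J985 _ _ _ hf]
  rw [Polynomial.map_mul, Polynomial.map_mul, Polynomial.map_pow, ← derivative_map]
  set A := AlgebraicClosure L with hA
  set φ : L →+* A := algebraMap L A with hφ
  have hs : (f.map φ) = (((f.map φ).roots).map (fun a => X - C a)).prod := by
    have := (IsAlgClosed.splits (f.map φ)).eq_prod_roots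
    rw [(hf.map φ).leadingCoeff] at this
    simpa using this
  rw [hs, lam_prod_J985 h, lam_prod_J985 h]
  have : ((Multiset.map (fun a => eval a (c.map φ)) (f.map φ).roots).sum) ^ p ^ k =
      iterateFrobenius A p k ((Multiset.map (fun a => eval a (c.map φ)) (f.map φ).roots).sum) := by
    rw [iterateFrobenius_def]
  rw [this, map_multiset_sum, Multiset.map_map]
  congr 1
  apply Multiset.map_congr rfl
  intro x _
  simp [iterateFrobenius_def]

end Pool.Agent.H330FB.JR4
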