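import Pool.Agent.H330FB.StmtsR
set_option autoImplicit false
noncomputable section
namespace Pool.Agent.H330FB.JR5
open Polynomial

lemma lam_sum_smul {R : Type} [CommRing R] (F : R[X]) {ι : Type} (t : Finset ι) (c : ι → R)
    (f : ι → R[X]) : lam F (∑ i ∈ t, C (c i) * f i) = ∑ i ∈ t, c i * lam F (f i) := by
  have h : ∀ g, lam F g = ((lcoeff R (F.natDegree - 1)) ∘ₗ (modByMonicHom F)) g := fun g => rfl
  simp only [h]
  rw [map_sum]
  refine Finset.sum_congr rfl fun i _ => ?_
  rw [← smul_eq_C_mul, map_smul, smul_eq_mul]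

/-- natDegree of a determinant with row bounds -/
lemma natDegree_det_le_rows {K : Type} [Field K] {n : ℕ} (A : Matrix (Fin n) (Fin n) K[X])
    (a : Fin n → ℕ) (h : ∀ i j, (A i j).natDegree ≤ a i) : A.det.natDegree ≤ ∑ i, a i := by
  rw [Matrix.det_apply']
  refine natDegree_sum_le_of_forall_le _ _ fun σ _ => ?_
  have h1 : (∏ i, A (σ i) i).natDegree ≤ ∑ i, a i := by
    calc (∏ i, A (σ i) i).natDegree ≤ ∑ i, (A (σ i) i).natDegree := natDegree_prod_le _ _
      _ ≤ ∑ i, a (σ i) := Finset.sum_le_sum fun i _ => h _ _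
      _ = ∑ i, a i := Equiv.sum_comp σ a
  calc (((Equiv.Perm.sign σ : ℤ) : K[X]) * ∏ i, A (σ i) i).natDegree
      ≤ (((Equiv.Perm.sign σ : ℤ) : K[X])).natDegree + (∏ i, A (σ i) i).natDegree := natDegree_mul_le
    _ ≤ 0 + ∑ i, a i := by
      refine add_le_add ?_ h1
      rw [natDegree_intCast]
    _ = _ := zero_add _

lemma coeff_prod_rows {K : Type} [Field K] {ι : Type} (t : Finset ι) (f : ι → K[X]) (a : ι → ℕ)
    (h : ∀ i ∈ t, (f i).natDegree ≤ a i) :
    (∏ i ∈ t, f i).coeff (∑ i ∈ t, a i) = ∏ i ∈ t, (f i).coeff (a i) := by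
  classical
  induction t using Finset.induction_on with
  | empty => simp
  | insert i t hi ih =>
    rw [Finset.prod_insert hi, Finset.sum_insert hi, Finset.prod_insert hi,
      ← ih (fun j hj => h j (Finset.mem_insert_of_mem hj))]
    refine coeff_mul_add_eq_of_natDegree_le (h i (Finset.mem_insert_self _ _)) ?_
    calc (∏ i ∈ t, f i).natDegree ≤ ∑ i ∈ t, (f i).natDegree := natDegree_prod_le _ _
      _ ≤ _ := Finset.sum_le_sum fun j hj => h j (Finset.mem_insert_of_mem hj)

lemma coeff_det_rows {K : Type} [Field K] {n : ℕ} (A : Matrix (Fin n) (Fin n) K[X])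
    (a : Fin n → ℕ) (h : ∀ i j, (A i j).natDegree ≤ a i) :
    A.det.coeff (∑ i, a i) = (Matrix.of fun i j => (A i j).coeff (a i)).det := by
  rw [Matrix.det_apply', Matrix.det_apply', finsetSum_coeff]
  refine Finset.sum_congr rfl fun σ _ => ?_
  rw [← C_eq_intCast, coeff_C_mul]
  congr 1
  have e : ∑ i, a i = ∑ i, a (σ i) := (Equiv.sum_comp σ a).symm
  rw [e, coeff_prod_rows Finset.univ (fun i => A (σ i) i) (fun i => a (σ i)) (fun i _ => h _ _)]
  rfl

/-- the row polynomials of `G` -/
noncomputable def rowp {K : Type} [Field K] {n M : ℕ} (G : Fin n → Fin M → K) (i : Fin n) : K[X] :=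
  ∑ j : Fin M, C (G i j) * X ^ (j : ℕ)

lemma rowp_coeff {K : Type} [Field K] {n M : ℕ} (G : Fin n → Fin M → K) (i : Fin n) (k : ℕ) :
    (rowp G i).coeff k = if h : k < M then G i ⟨k, h⟩ else 0 := by
  classical
  simp only [rowp, finsetSum_coeff, coeff_C_mul, coeff_X_pow]
  split_ifs with h
  · rw [Finset.sum_eq_single ⟨k, h⟩]
    · simp
    · intro b _ hb
      have : k ≠ (b : ℕ) := fun e => hb (Fin.ext e.symm)
      simp [this]
    · simp
  · refine Finset.sum_eq_zero fun b _ => ?_
    have : k ≠ (b : ℕ) := fun e => h (e ▸ b.isLt)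
    simp [this]

/-- leading position predicate -/
def LeadAt {K : Type} [Field K] {n M : ℕ} (G : Fin n → Fin M → K) (k : Fin n) (a : Fin M) : Prop :=
  G k a ≠ 0 ∧ (∀ k' a', a < a' → G k' a' = 0) ∧ (∀ k', k < k' → G k' a = 0)

lemma exists_lead {K : Type} [Field K] {n M : ℕ} (G : Fin n → Fin M → K) (hG : G ≠ 0) :
    ∃ k a, LeadAt G k a := by
  classical
  let s1 : Finset (Fin M) := Finset.univ.filter fun a => ∃ k, G k a ≠ 0
  have hs1 : s1.Nonempty := by
    by_contra hc
    rw [Finset.not_nonempty_iff_eq_empty] at hc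
    apply hG
    funext k a
    by_contra h
    have : a ∈ s1 := by simp only [s1, Finset.mem_filter, Finset.mem_univ, true_and]; exact ⟨k, h⟩
    rw [hc] at this
    simp at this
  let a := s1.max' hs1
  have ha : a ∈ s1 := s1.max'_mem hs1
  let s2 : Finset (Fin n) := Finset.univ.filter fun k => G k a ≠ 0
  have hs2 : s2.Nonempty := by
    obtain ⟨k, hk⟩ := (Finset.mem_filter.mp ha).2
    exact ⟨k, by simp only [s2, Finset.mem_filter, Finset.mem_univ, true_and]; exact hk⟩
  let k := s2.max' hs2
  have hk : k ∈ s2 := s2.max'_mem hs2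
  refine ⟨k, a, (Finset.mem_filter.mp hk).2, ?_, ?_⟩
  · intro k' a' haa
    by_contra h
    have : a' ∈ s1 := by simp only [s1, Finset.mem_filter, Finset.mem_univ, true_and]; exact ⟨k', h⟩
    exact absurd (s1.le_max' _ this) (not_le.mpr haa)
  · intro k' hkk
    by_contra h
    have : k' ∈ s2 := by simp only [s2, Finset.mem_filter, Finset.mem_univ, true_and]; exact h
    exact absurd (s2.le_max' _ this) (not_le.mpr hkk)

/-- a reduced system of rows in a subspace of small codimension -/
lemma exists_reduced {K : Type} [Field K] {n M r : ℕ} (hrM : r ≤ M)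
    (W : Submodule K (Fin n → Fin M → K)) (hW : n * M < Module.finrank K W + r) :
    ∃ (a : Fin n → Fin M) (G : Fin n → Fin n → Fin M → K), (∀ k, G k ∈ W) ∧
      (∀ k, LeadAt (G k) k (a k)) ∧ ∑ k, (a k : ℕ) < r := by
  classical
  let LP : Finset (Fin n × Fin M) := Finset.univ.filter fun p => ∃ G ∈ W, LeadAt G p.1 p.2
  -- finrank W ≤ |LP|
  have h1 : Module.finrank K W ≤ LP.card := by
    let φ : W →ₗ[K] (LP → K) :=
      { toFun := fun G p => (G : Fin n → Fin M → K) p.1.1 p.1.2
        map_add' := fun _ _ => rfl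
        map_smul' := fun _ _ => rfl }
    have hφ : Function.Injective φ := by
      rw [← LinearMap.ker_eq_bot, LinearMap.ker_eq_bot']
      intro G hG
      by_contra hne
      have hne' : (G : Fin n → Fin M → K) ≠ 0 := fun h => hne (Subtype.ext h)
      obtain ⟨k, a, hka⟩ := exists_lead _ hne'
      have hmem : (k, a) ∈ LP := by
        simp only [LP, Finset.mem_filter, Finset.mem_univ, true_and]
        exact ⟨_, G.2, hka⟩
      have := congrFun hG ⟨(k, a), hmem⟩
      exact hka.1 this
    have h2 := LinearMap.finrank_le_finrank_of_injective hφ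
    simpa using h2
  have h2 : (LPᶜ).card < r := by
    rw [Finset.card_compl]
    simp only [Fintype.card_prod, Fintype.card_fin]
    have : LP.card ≤ n * M := by
      have := LP.card_le_univ
      simpa using this
    omega
  have h3 : ∀ k : Fin n, ∃ a : Fin M, (k, a) ∈ LP := by
    intro k
    by_contra hc
    push Not at hc
    have h4 : (Finset.univ.image fun a : Fin M => (k, a)) ⊆ LPᶜ := by
      intro p hp
      simp only [Finset.mem_image, Finset.mem_univ, true_and] at hp
      obtain ⟨a, rfl⟩ := hp
      exact Finset.mem_compl.mpr (hc a)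
    have h5 := Finset.card_le_card h4
    rw [Finset.card_image_of_injective _ (fun a b h => (Prod.mk.inj h).2)] at h5
    simp at h5
    omega
  -- minimal a
  have h4 : ∀ k : Fin n, ∃ a : Fin M, (k, a) ∈ LP ∧ ∀ b, b < a → (k, b) ∉ LP := by
    intro k
    let s : Finset (Fin M) := Finset.univ.filter fun a => (k, a) ∈ LP
    have hs : s.Nonempty := by
      obtain ⟨a, ha⟩ := h3 k
      exact ⟨a, by simp only [s, Finset.mem_filter, Finset.mem_univ, true_and]; exact ha⟩
    refine ⟨s.min' hs, (Finset.mem_filter.mp (s.min'_mem hs)).2, fun b hb hbm => ?_⟩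
    have : b ∈ s := by simp only [s, Finset.mem_filter, Finset.mem_univ, true_and]; exact hbm
    exact absurd (s.min'_le _ this) (not_le.mpr hb)
  choose a ha1 ha2 using h4
  have h5 : ∀ k : Fin n, ∃ G ∈ W, LeadAt G k (a k) := fun k => (Finset.mem_filter.mp (ha1 k)).2
  choose G hG1 hG2 using h5
  refine ⟨a, G, hG1, hG2, ?_⟩
  refine lt_of_le_of_lt ?_ h2
  -- Σ a_k ≤ |LPᶜ|
  let B : Finset (Fin n × Fin M) := Finset.univ.filter fun p => p.2 < a p.1
  have hB : B ⊆ LPᶜ := by
    intro p hp
    exact Finset.mem_compl.mpr (ha2 p.1 p.2 (Finset.mem_filter.mp hp).2)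
  refine le_trans (le_of_eq ?_) (Finset.card_le_card hB)
  have hBc : B.card = ∑ k : Fin n, (Finset.univ.filter fun b : Fin M => b < a k).card := by
    rw [← Finset.card_sigma]
    refine Finset.card_bij' (fun p _ => ⟨p.1, p.2⟩) (fun p _ => (p.1, p.2)) ?_ ?_ ?_ ?_
    · intro p hp
      simpa [B] using hp
    · intro p hp
      simpa [B] using hp
    · intro p _; rfl
    · intro p _; rfl
  rw [hBc]
  refine Finset.sum_congr rfl fun k _ => ?_
  rw [show (Finset.univ.filter fun b : Fin M => b < a k) = Finset.Iio (a k) by ext; simp]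
  rw [Fin.card_Iio]

theorem lemmaE (h1 : StmtLamExpand) : StmtLemmaE := by
  intro K _ R _ π s hπ S n hS hSn hn hTD V hV M m r hr hrM hrs W hW hWr
  classical
  obtain ⟨a, G, hGW, hlead, hsum⟩ := exists_reduced hrM W hWr
  choose T hT1 hT2 using hW
  -- nontriviality of R
  have : Nontrivial R := by
    refine nontrivial_of_ne (π 1) 0 ?_
    intro h
    rw [hπ] at h
    have h2 : (X : K[X]) ^ s = 1 ∨ True := Or.inr trivial
    have h3 : IsUnit ((X : K[X]) ^ s) := isUnit_of_dvd_one h
    have h4 := natDegree_eq_zero_of_isUnit h3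
    rw [natDegree_X_pow] at h4
    omega
  set F := S.map π with hF
  have hFm : F.Monic := hS.map π
  have hFn : F.natDegree = n := by rw [hF, hS.natDegree_map]; exact hSn
  let σ : ℕ → R := fun k => lam F (X ^ k * V)
  -- matrix
  let A : Matrix (Fin n) (Fin n) K[X] := Matrix.of fun k k' => rowp (G k) k'
  have hAdeg : ∀ i j, (A i j).natDegree ≤ (a i : ℕ) := by
    intro i j
    rw [natDegree_le_iff_coeff_eq_zero]
    intro N hN
    simp only [A, Matrix.of_apply, rowp_coeff]
    split_ifs with h
    · exact (hlead i).2.1 j ⟨N, h⟩ (by exact hN)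
    · rfl
  have hdeg : A.det.natDegree ≤ ∑ k, (a k : ℕ) := natDegree_det_le_rows A _ hAdeg
  have hne : A.det ≠ 0 := by
    intro h0
    have h2 := coeff_det_rows A (fun k => (a k : ℕ)) hAdeg
    rw [h0, coeff_zero] at h2
    have h3 : (Matrix.of fun i j => (A i j).coeff ((a i : ℕ))).det = ∏ i, G i i (a i) := by
      rw [Matrix.det_of_isLowerTriangular]
      · refine Finset.prod_congr rfl fun i _ => ?_
        simp only [A, Matrix.of_apply, rowp_coeff]
        rw [dif_pos (a i).isLt]
      · intro i j hij
        simp only [A, Matrix.of_apply, rowp_coeff]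
        rw [dif_pos (a i).isLt]
        exact (hlead i).2.2 j hij
    rw [h3] at h2
    exact (Finset.prod_ne_zero_iff.mpr fun i _ => (hlead i).1) h2.symm
  -- relation for rows
  have hrow : ∀ k : Fin n, ∑ k' : Fin n, π (A k k') * σ k' = π (T (G k) (hGW k)) := by
    intro k
    rw [← hT2 (G k) (hGW k)]
    have e : (bpol (G k)).map π * V = ∑ k' : Fin n, C (π (A k k')) * (X ^ (k' : ℕ) * V) := by
      simp only [bpol, Polynomial.map_sum, Polynomial.map_mul, map_C, Polynomial.map_pow, map_X,
        Finset.sum_mul, mul_assoc]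
      rfl
    rw [e, lam_sum_smul]
  let Uk : Fin n → K[X] := fun k => ∑ k'', A.adjugate k k'' * T (G k'') (hGW k'')
  have hUk : ∀ k : Fin n, π A.det * σ k = π (Uk k) := by
    intro k
    have hadj : ∀ k', ∑ k'', A.adjugate k k'' * A k'' k' = if k = k' then A.det else 0 := by
      intro k'
      have := congrFun (congrFun (Matrix.adjugate_mul A) k) k'
      rw [Matrix.mul_apply] at this
      rw [this]
      simp [Matrix.one_apply]
    calc π A.det * σ k = ∑ k' : Fin n, π (if k = k' then A.det else 0) * σ k' := by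
          rw [Finset.sum_eq_single k]
          · simp
          · intro b _ hb; simp [Ne.symm hb]
          · simp
      _ = ∑ k' : Fin n, ∑ k'', π (A.adjugate k k'') * (π (A k'' k') * σ k') := by
          refine Finset.sum_congr rfl fun k' _ => ?_
          rw [← hadj k', map_sum, Finset.sum_mul]
          refine Finset.sum_congr rfl fun k'' _ => ?_
          rw [map_mul, mul_assoc]
      _ = ∑ k'', π (A.adjugate k k'') * π (T (G k'') (hGW k'')) := by
          rw [Finset.sum_comm]
          refine Finset.sum_congr rfl fun k'' _ => ?_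
          rw [← hrow k'', Finset.mul_sum]
      _ = π (Uk k) := by simp only [Uk, map_sum, map_mul]
  have hUdeg : ∀ k, (Uk k).natDegree ≤ (r - 1) + m := by
    intro k
    refine natDegree_sum_le_of_forall_le _ _ fun k'' _ => ?_
    refine le_trans natDegree_mul_le (add_le_add ?_ (hT1 _ _))
    rw [Matrix.adjugate_apply]
    refine le_trans (natDegree_det_le_rows _ (fun i => if i = k'' then 0 else (a i : ℕ)) ?_) ?_
    · intro i j
      by_cases hi : i = k''
      · subst hi
        rw [Matrix.updateRow_self, if_pos rfl]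
        by_cases hj : j = k
        · subst hj; simp
        · simp [hj]
      · rw [Matrix.updateRow_ne hi, if_neg hi]
        exact hAdeg i j
    · have : ∑ i, (if i = k'' then 0 else (a i : ℕ)) ≤ ∑ i, (a i : ℕ) :=
        Finset.sum_le_sum fun i _ => by split_ifs <;> omega
      omega
  -- the basis polynomials
  let b : ℕ → K[X][X] := fun k => ∑ j ∈ Finset.range (n - k), C (S.coeff (k + 1 + j)) * X ^ j
  refine ⟨A.det, ∑ k : Fin n, C (Uk k) * b k, hne, by omega, ?_, ?_, ?_⟩
  · -- degree
    rw [← mem_degreeLT]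
    refine Submodule.sum_mem _ fun k _ => ?_
    rw [mem_degreeLT]
    have h2 : (b k).degree < n := by
      rw [← mem_degreeLT]
      refine Submodule.sum_mem _ fun j hj => ?_
      rw [mem_degreeLT]
      refine lt_of_le_of_lt (degree_C_mul_X_pow_le _ _) ?_
      have := Finset.mem_range.mp hj
      exact_mod_cast (by omega : j < n)
    calc (C (Uk k) * b k).degree ≤ (C (Uk k)).degree + (b k).degree := degree_mul_le _ _
      _ ≤ 0 + (b k).degree := by gcongr; exact degree_C_le
      _ = (b k).degree := zero_add _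
      _ < n := h2
  · -- total degree
    intro i j hij
    rw [finsetSum_coeff, finsetSum_coeff]
    refine Finset.sum_eq_zero fun k _ => ?_
    rw [coeff_C_mul]
    have hb : (b k).coeff i = if i < n - (k : ℕ) then S.coeff (k + 1 + i) else 0 := by
      simp only [b, finsetSum_coeff, coeff_C_mul, coeff_X_pow]
      split_ifs with h
      · rw [Finset.sum_eq_single i]
        · simp
        · intro b _ hb; simp [Ne.symm hb]
        · intro h'; exact absurd (Finset.mem_range.mpr h) h'
      · refine Finset.sum_eq_zero fun b hb => ?_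
        have : i ≠ b := fun e => h (e ▸ Finset.mem_range.mp hb)
        simp [this]
    rw [hb]
    split_ifs with h
    · refine coeff_eq_zero_of_natDegree_lt ?_
      have h3 : (S.coeff (k + 1 + i)).natDegree ≤ n - (k + 1 + i) := by
        rw [natDegree_le_iff_coeff_eq_zero]
        intro N hN
        exact hTD _ _ (by omega)
      have := hUdeg k
      refine lt_of_le_of_lt natDegree_mul_le ?_
      omega
    · simp
  · -- the identity
    have hV2 : V.degree < F.degree := by
      rw [degree_eq_natDegree hFm.ne_zero, hFn]; exact hV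
    have hexp := h1 R F V hFm hV2
    rw [hFn, Finset.sum_range] at hexp
    conv_lhs => rw [hexp]
    rw [Finset.mul_sum, Polynomial.map_sum]
    refine Finset.sum_congr rfl fun k _ => ?_
    rw [← mul_assoc, ← C_mul, hUk k, Polynomial.map_mul, map_C]
    congr 1
    simp only [b, Polynomial.map_sum, Polynomial.map_mul, map_C, Polynomial.map_pow, map_X]
    refine Finset.sum_congr rfl fun j _ => ?_
    rw [hF, coeff_map]

end Pool.Agent.H330FB.JR5
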