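import Pool.Agent.H330FB.StmtsR
set_option autoImplicit false
noncomputable section
namespace Pool.Agent.H330FB.JR7
open Polynomial

theorem rl_sum_coeff {K : Type} [Field K] (s : ℕ) (c : ℕ → K) (k : ℕ) :
    (∑ i ∈ Finset.range s, C (c i) * X ^ i : K[X]).coeff k = if k < s then c k else 0 := by
  rw [finset_sum_coeff]
  simp only [coeff_C_mul, coeff_X_pow, mul_ite, mul_one, mul_zero]
  rw [Finset.sum_ite_eq]
  simp

theorem rl_red {K : Type} [Field K] {R : Type} [CommRing R] (π : K[X] →+* R) (s n : ℕ)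
    (hker : ∀ f : K[X], π f = 0 ↔ X ^ s ∣ f) (c d : ℕ → K) (hn : n ≤ s) :
    (∃ T : K[X], T.degree < ((n - 1 : ℕ) : WithBot ℕ) ∧
      π (∑ k ∈ Finset.range s, C (c k) * X ^ k) =
        π (T + -∑ k ∈ Finset.range s, C (d k) * X ^ k)) ↔
    ∀ k, n - 1 ≤ k → k < s → c k + d k = 0 := by
  constructor
  · rintro ⟨T, hT, h⟩ k hk1 hk2
    rw [← sub_eq_zero, ← map_sub, hker, X_pow_dvd_iff] at h
    have h1 := h k hk2
    have h2 : T.coeff k = 0 :=
      coeff_eq_zero_of_degree_lt (lt_of_lt_of_le hT (by exact_mod_cast hk1))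
    simp only [coeff_sub, coeff_add, coeff_neg, rl_sum_coeff, if_pos hk2, h2] at h1
    linear_combination h1
  · intro h
    refine ⟨∑ k ∈ Finset.range (n - 1), C (c k + d k) * X ^ k, ?_, ?_⟩
    · rw [degree_lt_iff_coeff_zero]
      intro m hm
      rw [rl_sum_coeff, if_neg (by omega)]
    · rw [← sub_eq_zero, ← map_sub, hker, X_pow_dvd_iff]
      intro k hk
      simp only [coeff_sub, coeff_add, coeff_neg, rl_sum_coeff, if_pos hk]
      by_cases hk1 : k < n - 1
      · rw [if_pos hk1]; ring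
      · rw [if_neg hk1]
        have := h k (by omega) hk
        linear_combination this

section
variable {K L : Type} [Field K] [Field L] [Fintype K] [Fintype L] [Algebra K L]

theorem rl_trace (h2 : Module.finrank K L = 2) (z : L) :
    algebraMap K L (Algebra.trace K L z) = z + z ^ Fintype.card K := by
  rw [FiniteField.algebraMap_trace_eq_sum_pow, h2, Nat.card_eq_fintype_card]
  simp [Finset.sum_range_succ]

theorem rl_QQ (h2 : Module.finrank K L = 2) (z : L) :
    (z ^ Fintype.card K) ^ Fintype.card K = z := by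
  have h : Fintype.card L = Fintype.card K ^ 2 := by
    rw [← h2]; exact Module.card_eq_pow_finrank
  rw [← pow_mul, ← pow_two, ← h]
  exact FiniteField.pow_card z

theorem rl_add (x y : L) :
    (x + y) ^ Fintype.card K = x ^ Fintype.card K + y ^ Fintype.card K := by
  have h := map_add (FiniteField.frobeniusAlgHom K L) x y
  simpa only [FiniteField.coe_frobeniusAlgHom] using h

theorem rl_sum {ι : Type} (s : Finset ι) (f : ι → L) :
    (∑ i ∈ s, f i) ^ Fintype.card K = ∑ i ∈ s, f i ^ Fintype.card K := by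
  have h := map_sum (FiniteField.frobeniusAlgHom K L) f s
  simpa only [FiniteField.coe_frobeniusAlgHom] using h

theorem rl_alg (x : K) : (algebraMap K L x) ^ Fintype.card K = algebraMap K L x := by
  rw [← map_pow, FiniteField.pow_card]

theorem rl_zero : (0 : L) ^ Fintype.card K = 0 := zero_pow Fintype.card_ne_zero

/-- one half of the system -/
theorem rl_half (h2 : Module.finrank K L = 2) {R : Type} [CommRing R] (π : K[X] →+* R)
    {s n N r : ℕ} (hker : ∀ f : K[X], π f = 0 ↔ X ^ s ∣ f) (hn : n ≤ s) (a : Fin N → L)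
    (Λ : Fin r → R) (zc : Fin r → ℕ → K)
    (hz : ∀ i, Λ i = π (∑ k ∈ Finset.range s, C (zc i k) * X ^ k)) (l : Fin r → K)
    (τ : Fin N → L) :
    (∃ T : K[X], T.degree < ((n - 1 : ℕ) : WithBot ℕ) ∧
      ∑ i, π (C (l i)) * Λ i = π (T + Pser K s a τ)) ↔
    ∀ k, n - 1 ≤ k → k < s →
      ∑ i, algebraMap K L (l i) * algebraMap K L (zc i k) +
        ∑ j, (τ j * (a j)⁻¹ ^ (k + 1) +
          τ j ^ Fintype.card K * ((a j)⁻¹ ^ Fintype.card K) ^ (k + 1)) = 0 := by
  have h1 : ∑ i, π (C (l i)) * Λ i =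
      π (∑ k ∈ Finset.range s, C (∑ i, l i * zc i k) * X ^ k) := by
    simp_rw [hz]
    simp_rw [← map_mul]
    rw [← map_sum]
    congr 1
    simp_rw [Finset.mul_sum]
    rw [Finset.sum_comm]
    refine Finset.sum_congr rfl fun k _ => ?_
    rw [map_sum, Finset.sum_mul]
    refine Finset.sum_congr rfl fun i _ => ?_
    rw [C_mul, mul_assoc]
  rw [h1]
  unfold Pser
  rw [rl_red π s n hker (fun k => ∑ i, l i * zc i k)
    (fun k => ∑ j, Algebra.trace K L (τ j * (a j)⁻¹ ^ (k + 1))) hn]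
  refine forall_congr' fun k => imp_congr_right fun _ => imp_congr_right fun _ => ?_
  rw [← (algebraMap K L).injective.eq_iff, map_zero, map_add, map_sum, map_sum]
  simp_rw [map_mul, rl_trace h2]
  have h3 : ∀ j, (τ j * (a j)⁻¹ ^ (k + 1)) ^ Fintype.card K =
      τ j ^ Fintype.card K * ((a j)⁻¹ ^ Fintype.card K) ^ (k + 1) := by
    intro j
    rw [mul_pow, ← pow_mul, ← pow_mul, mul_comm (k + 1)]
  simp_rw [h3]

theorem rl_iff (h2 : Module.finrank K L = 2) {R : Type} [CommRing R] (π : K[X] →+* R)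
    {s n N r : ℕ} (hker : ∀ f : K[X], π f = 0 ↔ X ^ s ∣ f) (hn : n ≤ s) (S : K[X][X])
    (F : Fin r → R[X]) (a : Fin N → L) (g : Fin N → Fin n → L)
    (zc zc' : Fin r → ℕ → K)
    (hz : ∀ i, lam (F i) (Yp π s a g * derivative (F i)) =
      π (∑ k ∈ Finset.range s, C (zc i k) * X ^ k))
    (hz' : ∀ i, lam (F i) (Yp π s a (fun j => gfrob S (Fintype.card K) (a j) (g j)) *
      derivative (F i)) = π (∑ k ∈ Finset.range s, C (zc' i k) * X ^ k))
    (l : Fin r → K) (τ : Fin N → L) :
    Sys π s S F (Fintype.card K) a g l τ ↔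
      SysL n s (Fintype.card K) zc zc' a (fun i => algebraMap K L (l i)) τ
        (fun j => τ j ^ Fintype.card K) := by
  unfold Sys SysL
  rw [rl_half h2 π hker hn a _ zc hz l τ,
    rl_half h2 π hker hn a _ zc' hz' l (fun j => τ j ^ Fintype.card K)]
  simp_rw [rl_QQ h2]
  constructor
  · rintro ⟨h3, h4⟩ k hk1 hk2
    exact ⟨h3 k hk1 hk2, h4 k hk1 hk2⟩
  · intro h
    exact ⟨fun k hk1 hk2 => (h k hk1 hk2).1, fun k hk1 hk2 => (h k hk1 hk2).2⟩

theorem rl_conj (h2 : Module.finrank K L = 2) {s n N r : ℕ} (zc zc' : Fin r → ℕ → K)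
    (a : Fin N → L) (l : Fin r → L) (τ τ' : Fin N → L)
    (h : SysL n s (Fintype.card K) zc zc' a l τ τ') :
    SysL n s (Fintype.card K) zc zc' a (fun i => l i ^ Fintype.card K)
      (fun j => τ' j ^ Fintype.card K) (fun j => τ j ^ Fintype.card K) := by
  intro k hk1 hk2
  obtain ⟨h3, h4⟩ := h k hk1 hk2
  have h5 : ∀ j, ((a j)⁻¹ ^ (k + 1)) ^ Fintype.card K =
      ((a j)⁻¹ ^ Fintype.card K) ^ (k + 1) := fun j => by
    rw [← pow_mul, ← pow_mul, mul_comm (k + 1)]
  have h6 : ∀ j, (((a j)⁻¹ ^ Fintype.card K) ^ (k + 1)) ^ Fintype.card K =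
      (a j)⁻¹ ^ (k + 1) := fun j => by
    rw [← h5, rl_QQ h2]
  have h3' := congrArg (· ^ Fintype.card K) h3
  have h4' := congrArg (· ^ Fintype.card K) h4
  simp only [rl_add, rl_sum, mul_pow, rl_alg, h5, h6, rl_zero] at h3' h4'
  refine ⟨?_, ?_⟩
  · rw [← h3']
    congr 1
    refine Finset.sum_congr rfl fun j _ => ?_
    ring
  · rw [← h4']
    congr 1
    refine Finset.sum_congr rfl fun j _ => ?_
    ring

theorem rl_lin {s n Q N r : ℕ} (zc zc' : Fin r → ℕ → K)
    (a : Fin N → L) (l m : Fin r → L) (τ τ' σ σ' : Fin N → L) (c d : L)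
    (h : SysL n s Q zc zc' a l τ τ') (h' : SysL n s Q zc zc' a m σ σ') :
    SysL n s Q zc zc' a (fun i => c * l i + d * m i)
      (fun j => c * τ j + d * σ j) (fun j => c * τ' j + d * σ' j) := by
  intro k hk1 hk2
  obtain ⟨h3, h4⟩ := h k hk1 hk2
  obtain ⟨h5, h6⟩ := h' k hk1 hk2
  constructor
  · have h7 : c * (∑ i, l i * algebraMap K L (zc i k) +
      ∑ j, (τ j * (a j)⁻¹ ^ (k + 1) + τ' j * ((a j)⁻¹ ^ Q) ^ (k + 1))) +
      d * (∑ i, m i * algebraMap K L (zc i k) +
      ∑ j, (σ j * (a j)⁻¹ ^ (k + 1) + σ' j * ((a j)⁻¹ ^ Q) ^ (k + 1))) = 0 := by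
      rw [h3, h5]; ring
    rw [← h7, mul_add, mul_add, Finset.mul_sum, Finset.mul_sum, Finset.mul_sum, Finset.mul_sum]
    have e1 : ∀ w x y z : L, w + x + (y + z) = (w + y) + (x + z) := by intros; ring
    rw [e1, ← Finset.sum_add_distrib, ← Finset.sum_add_distrib]
    congr 1
    · refine Finset.sum_congr rfl fun i _ => ?_
      ring
    · refine Finset.sum_congr rfl fun i _ => ?_
      ring
  · have h7 : c * (∑ i, l i * algebraMap K L (zc' i k) +
      ∑ j, (τ' j * (a j)⁻¹ ^ (k + 1) + τ j * ((a j)⁻¹ ^ Q) ^ (k + 1))) +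
      d * (∑ i, m i * algebraMap K L (zc' i k) +
      ∑ j, (σ' j * (a j)⁻¹ ^ (k + 1) + σ j * ((a j)⁻¹ ^ Q) ^ (k + 1))) = 0 := by
      rw [h4, h6]; ring
    rw [← h7, mul_add, mul_add, Finset.mul_sum, Finset.mul_sum, Finset.mul_sum, Finset.mul_sum]
    have e1 : ∀ w x y z : L, w + x + (y + z) = (w + y) + (x + z) := by intros; ring
    rw [e1, ← Finset.sum_add_distrib, ← Finset.sum_add_distrib]
    congr 1
    · refine Finset.sum_congr rfl fun i _ => ?_
      ring
    · refine Finset.sum_congr rfl fun i _ => ?_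
      ring

/-- the trace trick -/
theorem rl_trick (h2 : Module.finrank K L = 2) {s n N r : ℕ} (zc zc' : Fin r → ℕ → K)
    (a : Fin N → L) (l : Fin r → L) (τ τ' : Fin N → L)
    (h : SysL n s (Fintype.card K) zc zc' a l τ τ') (c : L) :
    SysL n s (Fintype.card K) zc zc' a (fun i => algebraMap K L (Algebra.trace K L (c * l i)))
      (fun j => c * τ j + (c * τ' j) ^ Fintype.card K)
      (fun j => (c * τ j + (c * τ' j) ^ Fintype.card K) ^ Fintype.card K) := by
  have h3 := rl_lin zc zc' a l (fun i => l i ^ Fintype.card K) τ τ'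
    (fun j => τ' j ^ Fintype.card K) (fun j => τ j ^ Fintype.card K) c (c ^ Fintype.card K)
    h (rl_conj h2 zc zc' a l τ τ' h)
  have e1 : (fun i => algebraMap K L (Algebra.trace K L (c * l i))) =
      fun i => c * l i + c ^ Fintype.card K * l i ^ Fintype.card K := by
    funext i
    rw [rl_trace h2, mul_pow]
  have e2 : (fun j => c * τ j + (c * τ' j) ^ Fintype.card K) =
      fun j => c * τ j + c ^ Fintype.card K * τ' j ^ Fintype.card K := by
    funext j
    rw [mul_pow]
  have e3 : (fun j => (c * τ j + (c * τ' j) ^ Fintype.card K) ^ Fintype.card K) =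
      fun j => c * τ' j + c ^ Fintype.card K * τ j ^ Fintype.card K := by
    funext j
    rw [rl_add, rl_QQ h2, mul_pow, add_comm]
  rw [e1, e2, e3]
  exact h3

end

theorem stmtRL : StmtRL := by
  intro K L _ _ _ _ _ R _ π ε s n r N S F h2 hLF hns a g hG zc zc' hz hz'
  obtain ⟨_, hG1, hG2, hG3⟩ := hG
  have hiff := rl_iff h2 π hLF.ker hns S F a g zc zc' hz hz'
  haveI : FiniteDimensional K L := Module.Finite.of_finite
  refine ⟨?_, ?_, ?_⟩
  · intro l τ τ' h i j hij
    have h3 : ∀ c : L, Algebra.trace K L (c * (l i - l j)) = 0 := by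
      intro c
      have h4 := (hiff (fun i => Algebra.trace K L (c * l i)) _).2 (rl_trick h2 zc zc' a l τ τ' h c)
      have h5 := hG1 _ _ h4 i j hij
      rw [mul_sub, map_sub, h5, sub_self]
    by_contra hne
    have hne' : l i - l j ≠ 0 := sub_ne_zero.2 hne
    obtain ⟨z, hz1⟩ := Algebra.trace_surjective K L 1
    have h6 := h3 (z * (l i - l j)⁻¹)
    rw [mul_assoc, inv_mul_cancel₀ hne', mul_one, hz1] at h6
    exact one_ne_zero h6
  · intro l hl
    obtain ⟨τ, hτ⟩ := hG2 l hl
    exact ⟨τ, _, (hiff l τ).1 hτ⟩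
  · intro τ τ' h
    have h3 : ∀ (c : L) (j : Fin N), c * τ j + (c * τ' j) ^ Fintype.card K = 0 := by
      intro c j
      have h4 := rl_trick h2 zc zc' a 0 τ τ' h c
      have e1 : (fun i : Fin r => algebraMap K L (Algebra.trace K L (c * (0 : Fin r → L) i))) =
          fun i => algebraMap K L ((0 : Fin r → K) i) := by
        funext i; simp
      rw [e1] at h4
      have h5 := hG3 _ ((hiff 0 _).2 h4)
      exact congrFun h5 j
    obtain ⟨c, hc⟩ : ∃ c : L, c ^ Fintype.card K ≠ c := by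
      by_contra hcon
      push Not at hcon
      have h6 : FiniteField.frobeniusAlgHom K L = 1 := by
        ext x
        simp only [FiniteField.coe_frobeniusAlgHom, AlgHom.one_apply]
        exact hcon x
      have h7 := FiniteField.orderOf_frobeniusAlgHom K L
      rw [h6, orderOf_one, h2] at h7
      norm_num at h7
    have h8 : ∀ j, τ j = 0 := by
      intro j
      have h9 := h3 1 j
      have h10 := h3 c j
      rw [one_mul, one_mul] at h9
      rw [mul_pow] at h10
      have h11 : (c - c ^ Fintype.card K) * τ j = 0 := by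
        linear_combination h10 - c ^ Fintype.card K * h9
      rcases mul_eq_zero.1 h11 with h12 | h12
      · exact absurd (sub_eq_zero.1 h12).symm hc
      · exact h12
    refine ⟨funext h8, funext fun j => ?_⟩
    have h9 := h3 1 j
    rw [h8 j, mul_zero, zero_add, one_mul] at h9
    exact pow_eq_zero_iff Fintype.card_ne_zero |>.1 h9

end Pool.Agent.H330FB.JR7
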