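import Pool.Agent.H330FB.StmtsR2
set_option autoImplicit false
noncomputable section
namespace Pool.Agent.H330FB.JR8
open Polynomial

namespace PF

section
variable {K L : Type} [Field K] [Field L] [Fintype K] [Fintype L] [Algebra K L]

theorem tr_eq (h2 : Module.finrank K L = 2) (x : L) :
    algebraMap K L (Algebra.trace K L x) = x + x ^ Fintype.card K := by
  rw [FiniteField.algebraMap_trace_eq_sum_pow, h2, Finset.sum_range_succ, Finset.sum_range_one,
    Nat.card_eq_fintype_card]
  simp

theorem nm_eq (h2 : Module.finrank K L = 2) (x : L) :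
    algebraMap K L (Algebra.norm K x) = x * x ^ Fintype.card K := by
  rw [FiniteField.algebraMap_norm_eq_prod_pow, h2, Finset.prod_range_succ, Finset.prod_range_one,
    Nat.card_eq_fintype_card]
  simp

theorem bar_bar (h2 : Module.finrank K L = 2) (x : L) :
    (x ^ Fintype.card K) ^ Fintype.card K = x := by
  rw [← pow_mul, ← pow_two]
  have h : Fintype.card L = Fintype.card K ^ 2 := by
    rw [← h2]; exact Module.card_eq_pow_finrank
  rw [← h]
  exact FiniteField.pow_card x

/-- the quadratic factor -/
noncomputable def PP (K : Type) {L : Type} [Field K] [Field L] [Algebra K L] (a : L) : K[X] :=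
  X ^ 2 - C (Algebra.trace K L a) * X + C (Algebra.norm K a)

/-- the numerator -/
noncomputable def WW (K : Type) {L : Type} [Field K] [Field L] [Algebra K L] (Q : ℕ) (a τ : L) :
    K[X] :=
  C (Algebra.trace K L τ) * X - C (Algebra.trace K L (τ * a ^ Q))

omit [Fintype K] [Fintype L] in
theorem evt_apply (a : L) (f : K[X]) : evt a f = aeval a f := rfl

omit [Fintype K] [Fintype L] in
theorem evt_C (a : L) (c : K) : evt a (C c) = algebraMap K L c := by
  rw [evt_apply, aeval_C]

omit [Fintype K] [Fintype L] in
theorem evt_X (a : L) : evt a (X : K[X]) = a := by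
  rw [evt_apply, aeval_X]

omit [Fintype K] [Fintype L] in
theorem PP_natDegree (a : L) : (PP K a).natDegree = 2 := by
  unfold PP; compute_degree!

omit [Fintype K] [Fintype L] in
theorem PP_monic (a : L) : (PP K a).Monic := by
  unfold PP; monicity!

theorem evt_PP (h2 : Module.finrank K L = 2) (a b : L) :
    evt b (PP K a) = (b - a) * (b - a ^ Fintype.card K) := by
  unfold PP
  simp only [map_add, map_sub, map_mul, map_pow, evt_C, evt_X, tr_eq h2, nm_eq h2]
  ring

theorem evt_dPP (h2 : Module.finrank K L = 2) (a b : L) :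
    evt b (derivative (PP K a)) = (b - a) + (b - a ^ Fintype.card K) := by
  unfold PP
  simp only [derivative_add, derivative_sub, derivative_mul, derivative_X_pow, derivative_C,
    derivative_X, map_add, map_sub, map_mul, map_pow, evt_C, evt_X, tr_eq h2, map_zero, map_one,
    map_ofNat, Nat.cast_ofNat]
  ring

theorem evt_WW (h2 : Module.finrank K L = 2) (a τ : L) :
    evt a (WW K (Fintype.card K) a τ) = τ * (a - a ^ Fintype.card K) := by
  unfold WW
  simp only [map_sub, map_mul, evt_C, evt_X, tr_eq h2]
  rw [mul_pow, bar_bar h2]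
  ring

omit [Fintype L] in
theorem not_range {a : L} (ha : a ^ Fintype.card K ≠ a) : a ∉ (algebraMap K L).range := by
  rintro ⟨c, rfl⟩
  apply ha
  rw [← map_pow, FiniteField.pow_card]

theorem PP_eq_minpoly (h2 : Module.finrank K L = 2) {a : L} (ha : a ^ Fintype.card K ≠ a) :
    PP K a = minpoly K a := by
  have : FiniteDimensional K L := Module.finite_of_finrank_pos (by omega)
  have hi : IsIntegral K a := Algebra.IsIntegral.isIntegral a
  refine eq_of_monic_of_dvd_of_natDegree_le (minpoly.monic hi) (PP_monic a) ?_ ?_
  · refine minpoly.dvd K a ?_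
    have := evt_PP h2 a a
    rw [evt_apply] at this
    rw [this]; ring
  · rw [PP_natDegree]
    exact (minpoly.two_le_natDegree_iff hi).2 (not_range ha)

theorem PP_dvd_iff (h2 : Module.finrank K L = 2) {a : L} (ha : a ^ Fintype.card K ≠ a)
    (f : K[X]) : PP K a ∣ f ↔ evt a f = 0 := by
  rw [PP_eq_minpoly h2 ha, evt_apply]
  exact minpoly.dvd_iff

theorem PP_irr (h2 : Module.finrank K L = 2) {a : L} (ha : a ^ Fintype.card K ≠ a) :
    Irreducible (PP K a) := by
  have : FiniteDimensional K L := Module.finite_of_finrank_pos (by omega)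
  rw [PP_eq_minpoly h2 ha]
  exact minpoly.irreducible (Algebra.IsIntegral.isIntegral a)

/-- the single series -/
noncomputable def Ps (K : Type) {L : Type} [Field K] [Field L] [Algebra K L] (s : ℕ) (a τ : L) :
    K[X] :=
  ∑ k ∈ Finset.range s, C (Algebra.trace K L (τ * a⁻¹ ^ (k + 1))) * X ^ k

theorem Ps_id (h2 : Module.finrank K L = 2) {a : L} (ha : a ≠ 0) (τ : L) (s : ℕ) :
    PP K a * Ps K s a τ + WW K (Fintype.card K) a τ =
      X ^ s * (C (Algebra.trace K L (τ * a⁻¹ ^ s)) * X -
        C (Algebra.trace K L (τ * a ^ Fintype.card K * a⁻¹ ^ s))) := by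
  induction s with
  | zero => simp [Ps, WW]
  | succ s ih =>
    have e1 : Ps K (s + 1) a τ = Ps K s a τ + C (Algebra.trace K L (τ * a⁻¹ ^ (s + 1))) * X ^ s := by
      unfold Ps; rw [Finset.sum_range_succ]
    have hn : algebraMap K L (Algebra.norm K a) = a * a ^ Fintype.card K := nm_eq h2 a
    have ht : algebraMap K L (Algebra.trace K L a) = a + a ^ Fintype.card K := tr_eq h2 a
    have e2 : Algebra.norm K a * Algebra.trace K L (τ * a⁻¹ ^ (s + 1)) =
        Algebra.trace K L (τ * a ^ Fintype.card K * a⁻¹ ^ s) := by
      rw [← smul_eq_mul, ← map_smul, Algebra.smul_def, hn]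
      congr 1
      rw [pow_succ]
      field_simp
    have e3 : Algebra.trace K L a * Algebra.trace K L (τ * a⁻¹ ^ (s + 1)) =
        Algebra.trace K L (τ * a⁻¹ ^ s) +
          Algebra.trace K L (τ * a ^ Fintype.card K * a⁻¹ ^ (s + 1)) := by
      rw [← smul_eq_mul, ← map_smul, Algebra.smul_def, ht, ← map_add]
      congr 1
      rw [pow_succ]
      field_simp
    have e2' := congrArg C e2
    have e3' := congrArg C e3
    rw [C_mul] at e2' e3'
    rw [C_add] at e3'
    rw [e1, mul_add, add_right_comm, ih, pow_succ (X : K[X]) s]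
    unfold PP
    linear_combination X ^ s * e2' - X ^ s * X * e3'

end

end PF

open PF

theorem place : StmtPlace := by
  intro K L _ _ _ _ _ R _ π s N h2 hπ a ha0 hinj hbar
  classical
  have hfd : FiniteDimensional K L := Module.finite_of_finrank_pos (by omega)
  have hpad : pad K a = ∏ j, PP K (a j) := rfl
  have hne : ∀ j, a j ^ Fintype.card K ≠ a j := fun j => hbar j j
  -- values of the other factors
  have hval : ∀ i j, i ≠ j → evt (a j) (PP K (a i)) ≠ 0 := by
    intro i j hij
    rw [evt_PP h2]
    refine mul_ne_zero (sub_ne_zero.2 fun h => hij (hinj h.symm)) (sub_ne_zero.2 fun h => ?_)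
    exact hbar i j h.symm
  set A : Fin N → K[X] := fun j => ∏ i ∈ Finset.univ.erase j, PP K (a i) with hA
  have hsplit : ∀ j, pad K a = A j * PP K (a j) := by
    intro j
    rw [hpad, hA, Finset.prod_erase_mul _ _ (Finset.mem_univ j)]
  have hAne : ∀ j, evt (a j) (A j) ≠ 0 := by
    intro j
    rw [hA]
    simp only [map_prod]
    exact Finset.prod_ne_zero_iff.2 fun i hi => hval i j (Finset.ne_of_mem_erase hi)
  have hAzero : ∀ i j, i ≠ j → evt (a j) (A i) = 0 := by
    intro i j hij
    rw [hA]
    simp only [map_prod]
    refine Finset.prod_eq_zero (Finset.mem_erase.2 ⟨hij.symm, Finset.mem_univ j⟩) ?_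
    rw [evt_PP h2]; ring
  have hder : ∀ j, evt (a j) (derivative (pad K a)) =
      evt (a j) (A j) * (a j - a j ^ Fintype.card K) := by
    intro j
    rw [hsplit j, derivative_mul, map_add, map_mul, map_mul, evt_PP h2, evt_dPP h2]
    ring
  have hmon : (pad K a).Monic := by
    rw [hpad]
    exact monic_prod_of_monic _ _ fun i _ => PP_monic (a i)
  have hdeg : (pad K a).natDegree = 2 * N := by
    rw [hpad, natDegree_prod_of_monic _ _ fun i _ => PP_monic (a i)]
    simp [PP_natDegree, mul_comm]
  have hder0 : ∀ j, evt (a j) (derivative (pad K a)) ≠ 0 := by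
    intro j
    rw [hder]
    exact mul_ne_zero (hAne j) (sub_ne_zero.2 (hne j).symm)
  refine ⟨hmon, hdeg, ?_, ?_, hder0, ?_, ?_⟩
  · rw [coeff_zero_eq_eval_zero, hpad, eval_prod]
    refine Finset.prod_ne_zero_iff.2 fun i _ => ?_
    simp only [PP, eval_add, eval_sub, eval_mul, eval_pow, eval_X, eval_C]
    have : Algebra.norm K (a i) ≠ 0 := Algebra.norm_ne_zero_iff.2 (ha0 i)
    simpa using this
  · intro j
    rw [hsplit j, map_mul, evt_PP h2]
    ring
  · intro f hf
    rw [hpad]
    refine Finset.prod_dvd_of_coprime ?_ fun i _ => (PP_dvd_iff h2 (hne i) f).2 (hf i)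
    intro i _ j _ hij
    refine (PP_irr h2 (hne i)).coprime_iff_not_dvd.2 fun h => ?_
    exact hval j i (Ne.symm hij) ((PP_dvd_iff h2 (hne i) _).1 h)
  · -- the linear map
    let T : (Fin N → L) → K[X] := fun τ => ∑ j, A j * WW K (Fintype.card K) (a j) (τ j)
    have hTdeg : ∀ τ, (T τ).degree < (2 * N : ℕ) := by
      intro τ
      refine (degree_sum_le _ _).trans_lt ?_
      rw [Finset.sup_lt_iff (WithBot.bot_lt_coe _)]
      intro j _
      have h1 : (PP K (a j)).degree = 2 := by
        rw [degree_eq_natDegree (PP_monic (a j)).ne_zero, PP_natDegree]; rfl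
      have h3 : (A j).degree + 2 = (2 * N : ℕ) := by
        have h4 : (pad K a).degree = (2 * N : ℕ) := by
          rw [degree_eq_natDegree hmon.ne_zero, hdeg]
        rw [← h4, hsplit j, degree_mul, h1]
      have h5 : (WW K (Fintype.card K) (a j) (τ j)).degree ≤ 1 := by
        unfold WW
        refine (degree_sub_le _ _).trans (max_le (degree_C_mul_X_le _) ?_)
        exact degree_C_le.trans zero_le_one
      have h6 : A j ≠ 0 := by
        intro h
        apply hAne j
        rw [h, map_zero]
      have h7 : (A j).degree = ((A j).natDegree : WithBot ℕ) := degree_eq_natDegree h6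
      calc (A j * WW K (Fintype.card K) (a j) (τ j)).degree
          = (A j).degree + (WW K (Fintype.card K) (a j) (τ j)).degree := degree_mul
        _ ≤ (A j).degree + 1 := by gcongr
        _ < (A j).degree + 2 := by
            rw [h7]
            exact_mod_cast Nat.lt_succ_self _
        _ = (2 * N : ℕ) := h3
    have hTadd : ∀ τ τ', T (τ + τ') = T τ + T τ' := by
      intro τ τ'
      simp only [T, ← Finset.sum_add_distrib]
      refine Finset.sum_congr rfl fun j _ => ?_
      simp only [WW, Pi.add_apply, add_mul, map_add]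
      ring
    have hTsmul : ∀ (c : K) τ, T (c • τ) = c • T τ := by
      intro c τ
      simp only [T, Finset.smul_sum]
      refine Finset.sum_congr rfl fun j _ => ?_
      simp only [WW, Pi.smul_apply, smul_mul_assoc, map_smul, smul_eq_mul, C_mul, smul_eq_C_mul]
      ring
    let e0 : (Fin N → L) →ₗ[K] (Fin (2 * N) → K) :=
      { toFun := fun τ k => (T τ).coeff k
        map_add' := fun τ τ' => by
          funext k
          simp [hTadd]
        map_smul' := fun c τ => by
          funext k
          simp [hTsmul] }
    have htp : ∀ τ, tpol (e0 τ) = T τ := by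
      intro τ
      unfold tpol
      ext m
      rw [finsetSum_coeff]
      simp only [coeff_C_mul_X_pow]
      by_cases hm : m < 2 * N
      · rw [Finset.sum_eq_single (⟨m, hm⟩ : Fin (2 * N))]
        · simp [e0]
        · intro b _ hb
          rw [if_neg]
          intro h
          exact hb (Fin.ext h.symm)
        · intro h
          exact absurd (Finset.mem_univ _) h
      · rw [Finset.sum_eq_zero, coeff_eq_zero_of_degree_lt]
        · refine (hTdeg τ).trans_le ?_
          exact_mod_cast not_lt.1 hm
        · intro b _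
          rw [if_neg]
          have := b.2
          omega
    have hev : ∀ τ j, evt (a j) (T τ) = τ j * evt (a j) (derivative (pad K a)) := by
      intro τ j
      simp only [T, map_sum, map_mul]
      rw [Finset.sum_eq_single j]
      · rw [evt_WW h2, hder]
        ring
      · intro b _ hb
        rw [hAzero b j hb, zero_mul]
      · intro h
        exact absurd (Finset.mem_univ _) h
    have hinj0 : Function.Injective e0 := by
      rw [injective_iff_map_eq_zero]
      intro τ hτ
      have h1 : T τ = 0 := by
        rw [← htp, hτ]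
        simp [tpol]
      funext j
      have h3 := hev τ j
      rw [h1, map_zero] at h3
      exact (mul_eq_zero.1 h3.symm).resolve_right (hder0 j)
    have hdim : Module.finrank K (Fin N → L) = Module.finrank K (Fin (2 * N) → K) := by
      rw [Module.finrank_pi_fintype]
      simp [h2, mul_comm]
    refine ⟨e0.linearEquivOfInjective hinj0 hdim, fun τ => ?_⟩
    rw [LinearMap.linearEquivOfInjective_apply, htp]
    refine ⟨?_, hev τ⟩
    have hdvd : X ^ s ∣ pad K a * Pser K s a τ - T τ := by
      have e1 : Pser K s a τ = -∑ j, Ps K s (a j) (τ j) := by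
        unfold Pser Ps
        rw [Finset.sum_comm]
        congr 1
        refine Finset.sum_congr rfl fun k _ => ?_
        rw [map_sum]
        exact Finset.sum_mul _ _ _
      have e2 : pad K a * Pser K s a τ - T τ =
          -∑ j, A j * (PP K (a j) * Ps K s (a j) (τ j) + WW K (Fintype.card K) (a j) (τ j)) := by
        rw [e1, mul_neg, Finset.mul_sum]
        simp only [T, mul_add, Finset.sum_add_distrib]
        rw [neg_add, sub_eq_add_neg]
        congr 2
        refine Finset.sum_congr rfl fun j _ => ?_
        rw [hsplit j]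
        ring
      rw [e2]
      refine (dvd_neg).2 (Finset.dvd_sum fun j _ => ?_)
      rw [Ps_id h2 (ha0 j)]
      exact Dvd.dvd.mul_left (dvd_mul_right _ _) _
    have h8 := (hπ _).2 hdvd
    rw [map_sub] at h8
    exact sub_eq_zero.1 h8

end Pool.Agent.H330FB.JR8
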