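import Pool.Agent.H330FB.StmtsR2
set_option autoImplicit false
noncomputable section
namespace Pool.Agent.H330FB.JR9
open Polynomial

namespace H13R9

/-- coprimality over `K(t)` from coprimality at `t = 0` -/
theorem coprime_generic {K : Type} [Field K] (S : K[X][X]) (hS : S.Monic)
    (h0 : IsCoprime (S.map (evalRingHom (0 : K))) (derivative (S.map (evalRingHom (0 : K))))) :
    IsCoprime (S.map (algebraMap K[X] (RatFunc K)))
      (derivative (S.map (algebraMap K[X] (RatFunc K)))) := by
  have hinj : Function.Injective (algebraMap K[X] (RatFunc K)) :=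
    IsFractionRing.injective K[X] (RatFunc K)
  by_contra hcon
  have hne : S.map (algebraMap K[X] (RatFunc K)) ≠ 0 := (hS.map _).ne_zero
  have hcon' : ¬ (∀ z ∈ nonunits (RatFunc K)[X], z ≠ 0 →
      z ∣ S.map (algebraMap K[X] (RatFunc K)) →
      ¬ z ∣ derivative (S.map (algebraMap K[X] (RatFunc K)))) := by
    intro h
    exact hcon (isCoprime_of_dvd _ _ (fun h1 => hne h1.1) h)
  push Not at hcon'
  obtain ⟨p, hpu, hp0, hp1, hp2⟩ := hcon'
  obtain ⟨g, hg⟩ := IsIntegrallyClosed.eq_map_mul_C_of_dvd (RatFunc K) hS hp1
  have hlc : p.leadingCoeff ≠ 0 := leadingCoeff_ne_zero.2 hp0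
  have hdeg : (g.map (algebraMap K[X] (RatFunc K))).natDegree = p.natDegree := by
    have := congrArg natDegree hg
    rw [natDegree_mul_C hlc] at this
    exact this
  have hgm' : (g.map (algebraMap K[X] (RatFunc K))).Monic := by
    have h1 := congrArg leadingCoeff hg
    rw [leadingCoeff_mul, leadingCoeff_C] at h1
    exact mul_right_cancel₀ hlc (by rw [h1, one_mul])
  have hgm : g.Monic := hinj.monic_map_iff.2 hgm'
  have hassoc : Associated (g.map (algebraMap K[X] (RatFunc K))) p :=
    ⟨(isUnit_C.2 (isUnit_iff_ne_zero.2 hlc)).unit, hg⟩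
  have hd1 : g ∣ S := by
    rw [← map_dvd_map _ hinj hgm]
    exact hassoc.dvd.trans hp1
  have hd2 : g ∣ derivative S := by
    rw [← map_dvd_map _ hinj hgm, ← derivative_map]
    exact hassoc.dvd.trans hp2
  have hgpos : 0 < g.natDegree := by
    rw [← natDegree_map_eq_of_injective hinj g, hdeg]
    by_contra h
    push Not at h
    apply hpu
    have h1 : p.natDegree = 0 := by omega
    rw [natDegree_eq_zero] at h1
    obtain ⟨c, hc⟩ := h1
    rw [← hc]
    exact isUnit_C.2 (isUnit_iff_ne_zero.2 (fun hc0 => hp0 (by rw [← hc, hc0, C_0])))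
  have hu : IsUnit (g.map (evalRingHom (0 : K))) := by
    apply h0.isUnit_of_dvd'
    · exact Polynomial.map_dvd _ hd1
    · rw [derivative_map]; exact Polynomial.map_dvd _ hd2
  have h2 : (g.map (evalRingHom (0 : K))).natDegree = g.natDegree := hgm.natDegree_map _
  have h3 := natDegree_eq_zero_of_isUnit hu
  omega

/-- counting with one restricted coordinate -/
theorem cnt {L : Type} [Fintype L] [DecidableEq L] {N : ℕ} (j : Fin N)
    (φ : (Fin N → L) → Finset L) (hφ : ∀ a z, φ (Function.update a j z) = φ a) (c : ℕ)
    (hc : ∀ a, (φ a).card ≤ c) :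
    (Finset.univ.filter (fun a : Fin N → L => a j ∈ φ a)).card * Fintype.card L ≤
      c * Fintype.card L ^ N := by
  have h1 : (Finset.univ.filter (fun a : Fin N → L => a j ∈ φ a)).card * Fintype.card L =
      ((Finset.univ.filter (fun a : Fin N → L => a j ∈ φ a)) ×ˢ (Finset.univ : Finset L)).card := by
    rw [Finset.card_product, Finset.card_univ]
  rw [h1]
  calc _ ≤ ((Finset.univ : Finset (Fin N → L)).sigma φ).card := by
        apply Finset.card_le_card_of_injOn
          (fun x : (Fin N → L) × L => (⟨Function.update x.1 j x.2, x.1 j⟩ : (_ : Fin N → L) × L))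
        · rintro ⟨a, z⟩ hx
          simp only [Finset.coe_product, Finset.coe_filter, Finset.mem_univ, true_and,
            Finset.coe_univ, Set.mem_prod, Set.mem_setOf_eq, Set.mem_univ, and_true] at hx
          simp only [Finset.coe_sigma, Finset.coe_univ, Set.mem_sigma_iff, Set.mem_univ, true_and,
            Finset.mem_coe]
          rw [hφ]; exact hx
        · rintro ⟨a, z⟩ _ ⟨a', z'⟩ _ he
          simp only [Sigma.mk.injEq, heq_eq_eq] at he
          obtain ⟨he1, he2⟩ := he
          have hz : z = z' := by
            have := congrFun he1 j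
            simpa using this
          have ha : a = a' := by
            funext i
            by_cases hi : i = j
            · rw [hi]; exact he2
            · have := congrFun he1 i
              rwa [Function.update_of_ne hi, Function.update_of_ne hi] at this
          rw [hz, ha]
    _ = ∑ b : Fin N → L, (φ b).card := by rw [Finset.card_sigma]
    _ ≤ ∑ _b : Fin N → L, c := Finset.sum_le_sum fun b _ => hc b
    _ = c * Fintype.card L ^ N := by
        rw [Finset.sum_const, Finset.card_univ, smul_eq_mul, Fintype.card_fun, Fintype.card_fin,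
          mul_comm]

end H13R9

open H13R9

theorem admCount (h : StmtFewBad) : StmtAdmCount := by
  classical
  intro K L _ _ _ _ _ S n N hfr hS hn hn1 htd hsq
  have hsep : (S.map (evalRingHom (0 : K))).Separable :=
    PerfectField.separable_iff_squarefree.2 hsq
  obtain ⟨δ, A, B, hδ0, hδd, hδ⟩ := h K S n hS hn hn1 htd (coprime_generic S hS hsep)
  set Q := Fintype.card K with hQ
  have hQ1 : 1 < Q := Fintype.one_lt_card
  have hL : Fintype.card L = Q ^ 2 := by
    rw [hQ, ← hfr]; exact Module.card_eq_pow_finrank
  -- coprime fibres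
  have hcop : ∀ z : L, evt z δ ≠ 0 → IsCoprime (fib S z) (derivative (fib S z)) := by
    intro z hz
    have h1 := congrArg (Polynomial.map (evt z)) hδ
    rw [Polynomial.map_add, Polynomial.map_mul, Polynomial.map_mul, Polynomial.map_C,
      ← derivative_map] at h1
    refine ⟨C (evt z δ)⁻¹ * A.map (evt z), C (evt z δ)⁻¹ * B.map (evt z), ?_⟩
    have h2 : C (evt z δ)⁻¹ * C (evt z δ) = 1 := by
      rw [← C_mul, inv_mul_cancel₀ hz, C_1]
    unfold fib
    calc C (evt z δ)⁻¹ * A.map (evt z) * S.map (evt z) +
        C (evt z δ)⁻¹ * B.map (evt z) * derivative (S.map (evt z))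
        = C (evt z δ)⁻¹ * (A.map (evt z) * S.map (evt z) +
          B.map (evt z) * derivative (S.map (evt z))) := by ring
      _ = 1 := by rw [← h1, h2]
  -- the exceptional sets
  set Z : Finset L := Finset.univ.filter (fun z => z ^ Q = z) with hZ
  set Y : Finset L := Finset.univ.filter (fun z => evt z δ = 0) with hY
  have hZc : Z.card ≤ Q := by
    have hne : (X ^ Q - X : L[X]) ≠ 0 := FiniteField.X_pow_card_sub_X_ne_zero L hQ1
    have h1 : Z ⊆ (X ^ Q - X : L[X]).roots.toFinset := by
      intro z hz
      rw [hZ, Finset.mem_filter] at hz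
      rw [Multiset.mem_toFinset, mem_roots hne, IsRoot.def]
      simp [hz.2]
    calc Z.card ≤ _ := Finset.card_le_card h1
      _ ≤ (X ^ Q - X : L[X]).roots.card := Multiset.toFinset_card_le _
      _ ≤ (X ^ Q - X : L[X]).natDegree := card_roots' _
      _ = Q := FiniteField.X_pow_card_sub_X_natDegree_eq L hQ1
  have hYc : Y.card ≤ 2 * n ^ 2 + n := by
    have hinj : Function.Injective (algebraMap K L) := (algebraMap K L).injective
    have hne : δ.map (algebraMap K L) ≠ 0 := (Polynomial.map_ne_zero_iff hinj).2 hδ0
    have h1 : Y ⊆ (δ.map (algebraMap K L)).roots.toFinset := by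
      intro z hz
      rw [hY, Finset.mem_filter] at hz
      rw [Multiset.mem_toFinset, mem_roots hne, IsRoot.def, eval_map]
      exact hz.2
    calc Y.card ≤ _ := Finset.card_le_card h1
      _ ≤ (δ.map (algebraMap K L)).roots.card := Multiset.toFinset_card_le _
      _ ≤ (δ.map (algebraMap K L)).natDegree := card_roots' _
      _ = δ.natDegree := natDegree_map_eq_of_injective hinj _
      _ ≤ _ := hδd
  set φ : Fin N → Fin N → (Fin N → L) → Finset L := fun i j a =>
    if i = j then ∅ else if i < j then {a i} else {a i ^ Q} with hφdef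
  have hφ1 : ∀ i j a, (φ i j a).card ≤ 1 := by
    intro i j a
    simp only [hφdef]
    split_ifs <;> simp
  have hφ2 : ∀ i j a z, φ i j (Function.update a j z) = φ i j a := by
    intro i j a z
    simp only [hφdef]
    by_cases hij : i = j
    · rw [if_pos hij, if_pos hij]
    · rw [if_neg hij, if_neg hij, Function.update_of_ne hij]
  -- the union bound
  set E1 : Fin N → Finset (Fin N → L) := fun j => Finset.univ.filter (fun a => a j ∈ Z) with hE1
  set E2 : Fin N × Fin N → Finset (Fin N → L) := fun q =>
    Finset.univ.filter (fun a => a q.2 ∈ φ q.1 q.2 a) with hE2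
  set E3 : Fin N → Finset (Fin N → L) := fun j => Finset.univ.filter (fun a => a j ∈ Y) with hE3
  have hcover : (Finset.univ.filter (fun a : Fin N → L => ¬ Adm S Q a)) ⊆
      (Finset.univ.biUnion E1 ∪ Finset.univ.biUnion E2) ∪ Finset.univ.biUnion E3 := by
    intro a ha
    rw [Finset.mem_filter] at ha
    by_contra hcon
    apply ha.2
    simp only [Finset.mem_union, Finset.mem_biUnion, Finset.mem_univ, true_and, not_or,
      not_exists] at hcon
    obtain ⟨⟨c1, c2⟩, c3⟩ := hcon
    have d1 : ∀ j, a j ^ Q ≠ a j := by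
      intro j hj
      apply c1 j
      simp only [hE1, hZ, Finset.mem_filter, Finset.mem_univ, true_and]
      exact hj
    have d2 : ∀ i j, i < j → a i ≠ a j := by
      intro i j hij he
      apply c2 (i, j)
      simp only [hE2, hφdef, Finset.mem_filter, Finset.mem_univ, true_and]
      rw [if_neg hij.ne, if_pos hij, Finset.mem_singleton, he]
    have d3 : ∀ i j, j < i → a i ^ Q ≠ a j := by
      intro i j hij he
      apply c2 (i, j)
      simp only [hE2, hφdef, Finset.mem_filter, Finset.mem_univ, true_and]
      rw [if_neg hij.ne', if_neg (by omega), Finset.mem_singleton, he]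
    have d4 : ∀ j, evt (a j) δ ≠ 0 := by
      intro j hj
      apply c3 j
      simp only [hE3, hY, Finset.mem_filter, Finset.mem_univ, true_and]
      exact hj
    refine ⟨?_, ?_, ?_, fun j => hcop _ (d4 j)⟩
    · intro j hj
      apply d1 j
      rw [hj, zero_pow (by omega)]
    · intro i j hij
      by_contra hne
      rcases lt_or_gt_of_ne hne with hlt | hlt
      · exact d2 i j hlt hij
      · exact d2 j i hlt hij.symm
    · intro i j he
      rcases lt_trichotomy i j with hlt | heq | hlt
      · apply d3 j i hlt
        rw [← he, ← pow_mul, ← sq, ← hL]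
        exact FiniteField.pow_card (a i)
      · rw [heq] at he; exact d1 j he
      · exact d3 i j hlt he
  have hb1 : ∀ j, (E1 j).card * Fintype.card L ≤ Q * Fintype.card L ^ N := fun j =>
    cnt j (fun _ => Z) (fun _ _ => rfl) Q (fun _ => hZc)
  have hb2 : ∀ q, (E2 q).card * Fintype.card L ≤ 1 * Fintype.card L ^ N := fun q =>
    cnt q.2 (φ q.1 q.2) (hφ2 q.1 q.2) 1 (hφ1 q.1 q.2)
  have hb3 : ∀ j, (E3 j).card * Fintype.card L ≤ (2 * n ^ 2 + n) * Fintype.card L ^ N := fun j =>
    cnt j (fun _ => Y) (fun _ _ => rfl) _ (fun _ => hYc)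
  have hcard : Nat.card {a : Fin N → L // ¬ Adm S Q a} =
      (Finset.univ.filter (fun a : Fin N → L => ¬ Adm S Q a)).card := by
    rw [Nat.card_eq_fintype_card, Fintype.card_subtype]
  rw [hcard, ← hL]
  have h1 : (Finset.univ.filter (fun a : Fin N → L => ¬ Adm S Q a)).card ≤
      (∑ j, (E1 j).card + ∑ q, (E2 q).card) + ∑ j, (E3 j).card := by
    refine (Finset.card_le_card hcover).trans ?_
    refine (Finset.card_union_le _ _).trans ?_
    refine Nat.add_le_add ((Finset.card_union_le _ _).trans ?_) Finset.card_biUnion_le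
    exact Nat.add_le_add Finset.card_biUnion_le Finset.card_biUnion_le
  calc (Finset.univ.filter (fun a : Fin N → L => ¬ Adm S Q a)).card * Fintype.card L
      ≤ ((∑ j, (E1 j).card + ∑ q, (E2 q).card) + ∑ j, (E3 j).card) * Fintype.card L :=
        Nat.mul_le_mul_right _ h1
    _ = (∑ j, (E1 j).card * Fintype.card L + ∑ q, (E2 q).card * Fintype.card L) +
        ∑ j, (E3 j).card * Fintype.card L := by
        rw [add_mul, add_mul, Finset.sum_mul, Finset.sum_mul, Finset.sum_mul]
    _ ≤ (∑ _j : Fin N, Q * Fintype.card L ^ N + ∑ _q : Fin N × Fin N, 1 * Fintype.card L ^ N) +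
        ∑ _j : Fin N, (2 * n ^ 2 + n) * Fintype.card L ^ N := by
        refine Nat.add_le_add (Nat.add_le_add ?_ ?_) ?_
        · exact Finset.sum_le_sum fun j _ => hb1 j
        · exact Finset.sum_le_sum fun q _ => hb2 q
        · exact Finset.sum_le_sum fun j _ => hb3 j
    _ = (N * Q + N ^ 2 + N * (2 * n ^ 2 + n)) * Fintype.card L ^ N := by
        simp only [Finset.sum_const, Finset.card_univ, Fintype.card_fin, Fintype.card_prod,
          smul_eq_mul]
        ring

end Pool.Agent.H330FB.JR9
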