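import Pool.Agent.H330FB.StmtsR

set_option autoImplicit false

/-!
# The recombination theorem: intermediate statements
-/

namespace Pool.Agent.H330FB

open Polynomial

section
variable {K L : Type} [Field K] [Field L] [Algebra K L]

/-- admissible places -/
def Adm (S : K[X][X]) (Q : ℕ) {N : ℕ} (a : Fin N → L) : Prop :=
  (∀ j, a j ≠ 0) ∧ Function.Injective a ∧ (∀ i j, a i ^ Q ≠ a j) ∧
    ∀ j, IsCoprime (fib S (a j)) (derivative (fib S (a j)))

/-- the polynomial with the roots `a_j` and their conjugates -/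
noncomputable def pad (K : Type) {L : Type} [Field K] [Field L] [Algebra K L] {N : ℕ}
    (a : Fin N → L) : K[X] :=
  ∏ j, (X ^ 2 - C (Algebra.trace K L (a j)) * X + C (Algebra.norm K (a j)))

/-- polynomial in `t` with coefficients `c` -/
noncomputable def tpol {K : Type} [Field K] {M : ℕ} (c : Fin M → K) : K[X] :=
  ∑ k : Fin M, C (c k) * X ^ (k : ℕ)

variable {R : Type} [CommRing R]

/-- the polynomial `V_l` -/
noncomputable def Vl (π : K[X] →+* R) {r : ℕ} (F : Fin r → R[X]) (l : Fin r → K) : R[X] :=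
  ∑ i, C (π (C (l i))) * derivative (F i) * ∏ j ∈ Finset.univ.erase i, F j

end

/-- partial fractions at the places `a_j` -/
def StmtPlace : Prop := ∀ (K L : Type) [Field K] [Field L] [Fintype K] [Fintype L] [Algebra K L]
  (R : Type) [CommRing R] (π : K[X] →+* R) (s N : ℕ), Module.finrank K L = 2 →
  (∀ f : K[X], π f = 0 ↔ X ^ s ∣ f) →
  ∀ (a : Fin N → L), (∀ j, a j ≠ 0) → Function.Injective a →
    (∀ i j, a i ^ Fintype.card K ≠ a j) →
  (pad K a).Monic ∧ (pad K a).natDegree = 2 * N ∧ (pad K a).coeff 0 ≠ 0 ∧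
  (∀ j, evt (a j) (pad K a) = 0) ∧ (∀ j, evt (a j) (derivative (pad K a)) ≠ 0) ∧
  (∀ f : K[X], (∀ j, evt (a j) f = 0) → pad K a ∣ f) ∧
  ∃ e : (Fin N → L) ≃ₗ[K] (Fin (2 * N) → K),
    ∀ τ : Fin N → L, π (pad K a * Pser K s a τ) = π (tpol (e τ)) ∧
      ∀ j, evt (a j) (tpol (e τ)) = τ j * evt (a j) (derivative (pad K a))

/-- most places are admissible -/
def StmtAdmCount : Prop := ∀ (K L : Type) [Field K] [Field L] [Fintype K] [Fintype L]
  [Algebra K L] (S : K[X][X]) (n N : ℕ), Module.finrank K L = 2 → S.Monic → S.natDegree = n →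
  1 ≤ n → TD S n → Squarefree (S.map (evalRingHom (0 : K))) →
  Nat.card {a : Fin N → L // ¬ Adm S (Fintype.card K) a} * Fintype.card K ^ 2 ≤
    (N * Fintype.card K + N ^ 2 + N * (2 * n ^ 2 + n)) * Fintype.card L ^ N

/-- vectors which are constant on blocks solve the system; uniqueness -/
def StmtGoodSolves : Prop := ∀ (K L : Type) [Field K] [Field L] [Fintype K] [Fintype L]
  [Algebra K L] (R : Type) [CommRing R] (π : K[X] →+* R) (ε : R →+* K) (s n r N : ℕ)
  (S : K[X][X]) (F : Fin r → R[X]), Module.finrank K L = 2 → LocalFact π ε s n r S F →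
  1 ≤ N → 2 * N + n ≤ s → ∀ (a : Fin N → L) (g : Fin N → Fin n → L), Adm S (Fintype.card K) a →
  (∀ (l : Fin r → K), (∀ i j, SameBlock π S F i j → l i = l j) →
    ∃ τ : Fin N → L, Sys π s S F (Fintype.card K) a g l τ) ∧
  (∀ τ : Fin N → L, Sys π s S F (Fintype.card K) a g 0 τ → τ = 0)

/-- type I and type II: for a vector `l` which is not constant on blocks, either it occurs for few
`g`, or there is an event `E` of small probability at each place -/
def StmtTypes : Prop := ∀ (K L : Type) [Field K] [Field L] [Fintype K] [Fintype L]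
  [Algebra K L] (R : Type) [CommRing R] (π : K[X] →+* R) (ε : R →+* K) (s n r N : ℕ)
  (S : K[X][X]) (F : Fin r → R[X]), Module.finrank K L = 2 → LocalFact π ε s n r S F →
  N = 2 * n + 2 → 12 * n + 20 ≤ s →
  ∀ (l : Fin r → K),
  ((∀ a : Fin N → L, Adm S (Fintype.card K) a →
      Nat.card {g : Fin N → Fin n → L // ∃ τ, Sys π s S F (Fintype.card K) a g l τ} *
        Fintype.card K ^ (n + 1) ≤ Fintype.card L ^ (N * n)) ∨
   ∃ (δ : K[X]) (U : K[X][X]), δ ≠ 0 ∧ δ.natDegree < n + 1 ∧ U.degree < n ∧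
    TD U ((2 * N + n - 2) + (n + 1) + n) ∧ C (π δ) * Vl π F l = U.map π)

/-- type II: the event at each place -/
def StmtTypeII : Prop := ∀ (K L : Type) [Field K] [Field L] [Fintype K] [Fintype L]
  [Algebra K L] (R : Type) [CommRing R] (π : K[X] →+* R) (ε : R →+* K) (s n r N : ℕ)
  (S : K[X][X]) (F : Fin r → R[X]), Module.finrank K L = 2 → LocalFact π ε s n r S F →
  N = 2 * n + 2 → 12 * n + 20 ≤ s →
  ∀ (l : Fin r → K), ¬ (∀ i j, SameBlock π S F i j → l i = l j) →
  ∀ (δ : K[X]) (U : K[X][X]), δ ≠ 0 → δ.natDegree < n + 1 → U.degree < n →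
    TD U ((2 * N + n - 2) + (n + 1) + n) → C (π δ) * Vl π F l = U.map π →
  ∃ E : L → (Fin n → L) → Prop,
    Nat.card {x : L × (Fin n → L) // E x.1 x.2} * Fintype.card K ≤
      12 * n * Fintype.card L ^ (n + 1) ∧
    ∀ (a : Fin N → L) (g : Fin N → Fin n → L), Adm S (Fintype.card K) a →
      (∃ τ, Sys π s S F (Fintype.card K) a g l τ) → ∀ j, E (a j) (g j)

end Pool.Agent.H330FB
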