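import Pool.Agent.H330FB.Lib5
import Pool.Agent.H330FB.Spec3b
import Pool.Agent.H330FB.StmtsR2
set_option autoImplicit false
noncomputable section
namespace Pool.Agent.H330FB.JS10
open Polynomial

namespace S10Mon

/-! ### total degree of factors -/

theorem exists_lead {K : Type} [Field K] (G : K[X][X]) (i j : ℕ) (h : (G.coeff i).coeff j ≠ 0) :
    ∃ i0 j0, (G.coeff i0).coeff j0 ≠ 0 ∧
      ∀ a c, (G.coeff a).coeff c ≠ 0 → a + c < i0 + j0 ∨ (a + c = i0 + j0 ∧ a ≤ i0) := by
  classical
  set T : Finset (ℕ × ℕ) :=
    G.support.biUnion (fun i => (G.coeff i).support.image (fun j => (i, j))) with hT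
  have hmem : ∀ a c, (a, c) ∈ T ↔ (G.coeff a).coeff c ≠ 0 := by
    intro a c
    rw [hT]
    simp only [Finset.mem_biUnion, Finset.mem_image, mem_support_iff, Prod.mk.injEq]
    constructor
    · rintro ⟨a', _, c', hc', rfl, rfl⟩
      exact hc'
    · intro h'
      refine ⟨a, ?_, c, h', rfl, rfl⟩
      intro h0
      rw [h0, coeff_zero] at h'
      exact h' rfl
  obtain ⟨⟨i0, j0⟩, h0, hmax⟩ := Finset.exists_max_image T
    (fun p => toLex (p.1 + p.2, p.1)) ⟨(i, j), (hmem i j).2 h⟩
  refine ⟨i0, j0, (hmem i0 j0).1 h0, fun a c hac => ?_⟩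
  have h1 := hmax (a, c) ((hmem a c).2 hac)
  rw [Prod.Lex.toLex_le_toLex] at h1
  exact h1

theorem td_factor {K : Type} [Field K] (G H : K[X][X]) (hH : H.Monic)
    (h : TD (G * H) (G.natDegree + H.natDegree)) : TD G G.natDegree := by
  intro i j hij
  by_contra hne
  obtain ⟨i0, j0, h0, hmax0⟩ := exists_lead G i j hne
  have hH1 : (H.coeff H.natDegree).coeff 0 ≠ 0 := by
    rw [hH.coeff_natDegree, coeff_one_zero]
    exact one_ne_zero
  obtain ⟨i1, j1, h1, hmax1⟩ := exists_lead H _ _ hH1
  have hb0 : i + j ≤ i0 + j0 := by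
    rcases hmax0 i j hne with h' | h' <;> omega
  have hb1 : H.natDegree ≤ i1 + j1 := by
    rcases hmax1 _ _ hH1 with h' | h' <;> omega
  have hz := h (i0 + i1) (j0 + j1) (by omega)
  rw [coeff_mul, finsetSum_coeff] at hz
  rw [Finset.sum_eq_single (i0, i1)] at hz
  · rw [coeff_mul, Finset.sum_eq_single (j0, j1)] at hz
    · exact (mul_ne_zero h0 h1) hz
    · rintro ⟨c, d⟩ hcd hne'
      rw [Finset.HasAntidiagonal.mem_antidiagonal] at hcd
      by_contra hprod
      have e1 := hmax0 i0 c (fun h' => hprod (by simp only at h' ⊢; rw [h', zero_mul]))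
      have e2 := hmax1 i1 d (fun h' => hprod (by simp only at h' ⊢; rw [h', mul_zero]))
      apply hne'
      simp only at hcd
      have : c = j0 := by omega
      have : d = j1 := by omega
      simp [*]
    · intro h'
      exact absurd (Finset.HasAntidiagonal.mem_antidiagonal.2 (by rfl)) h'
  · rintro ⟨a, b⟩ hab hne'
    rw [Finset.HasAntidiagonal.mem_antidiagonal] at hab
    simp only at hab ⊢
    rw [coeff_mul]
    refine Finset.sum_eq_zero ?_
    rintro ⟨c, d⟩ hcd
    rw [Finset.HasAntidiagonal.mem_antidiagonal] at hcd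
    simp only at hcd ⊢
    by_contra hprod
    have e1 := hmax0 a c (fun h' => hprod (by rw [h', zero_mul]))
    have e2 := hmax1 b d (fun h' => hprod (by rw [h', mul_zero]))
    apply hne'
    have : a = i0 := by omega
    have : b = i1 := by omega
    simp [*]
  · intro h'
    exact absurd (Finset.HasAntidiagonal.mem_antidiagonal.2 (by rfl)) h'

/-! ### coefficients -/

theorem coeff_pol {R : Type} [CommRing R] (l : List R) (j : ℕ) :
    (pol l).coeff j = l.getD j 0 := by
  induction l generalizing j with
  | nil => simp [pol]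
  | cons x l ih =>
    rw [pol, coeff_add]
    cases j with
    | zero => simp
    | succ j => rw [coeff_X_mul, ih, coeff_C_succ, zero_add]; simp

theorem coeff_biv {K : Type} [Field K] (l : List (List K)) (i : ℕ) :
    (biv l).coeff i = pol (l.getD i []) := by
  rw [biv, coeff_pol]
  rw [List.getD_eq_getElem?_getD, List.getD_eq_getElem?_getD, List.getElem?_map]
  cases l[i]? <;> simp [pol]

theorem biv_degree_lt {K : Type} [Field K] (l : List (List K)) :
    (biv l).degree < (l.length : ℕ) := by
  rw [degree_lt_iff_coeff_zero]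
  intro m hm
  rw [coeff_biv, List.getD_eq_default _ _ (by exact_mod_cast hm)]
  rfl

theorem mbiv_monic {K : Type} [Field K] (l : List (List K)) : (mbiv l).Monic := by
  unfold mbiv
  exact monic_X_pow_add (biv_degree_lt l)

theorem mbiv_natDegree {K : Type} [Field K] (l : List (List K)) :
    (mbiv l).natDegree = l.length := by
  unfold mbiv
  rw [natDegree_add_eq_left_of_degree_lt]
  · exact natDegree_X_pow _
  · rw [degree_X_pow]
    exact biv_degree_lt l

theorem coeff_mbiv_lt {K : Type} [Field K] (l : List (List K)) (i : ℕ) (hi : i < l.length) :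
    (mbiv l).coeff i = pol (l.getD i []) := by
  rw [mbiv, coeff_add, coeff_biv, coeff_X_pow, if_neg (by omega), zero_add]

theorem getD_fit {α : Type} (n : ℕ) (z : α) (l : List α) (j : ℕ) :
    (fit n z l).getD j z = if j < n then l.getD j z else z := by
  induction n generalizing l j with
  | zero => simp [fit]
  | succ n ih =>
    cases l with
    | nil =>
      cases j with
      | zero => simp [fit]
      | succ j => rw [fit, List.getD_cons_succ, ih]; simp
    | cons x l =>
      cases j with
      | zero => simp [fit]
      | succ j => rw [fit, List.getD_cons_succ, ih]; simp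

/-- rows fitted -/
def fitR {K : Type} [Field K] (G : List (List K)) : List (List K) :=
  G.map (fit (G.length + 1) 0)

theorem length_fitR {K : Type} [Field K] (G : List (List K)) : (fitR G).length = G.length := by
  simp [fitR]

theorem mbiv_fitR {K : Type} [Field K] (G : List (List K)) (h : TD (mbiv G) G.length) :
    mbiv (fitR G) = mbiv G := by
  unfold mbiv
  rw [length_fitR]
  congr 1
  ext i j
  rw [coeff_biv, coeff_biv, coeff_pol, coeff_pol]
  by_cases hi : i < G.length
  · have h1 : (fitR G).getD i [] = fit (G.length + 1) 0 (G.getD i []) := by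
      rw [fitR, List.getD_eq_getElem?_getD, List.getD_eq_getElem?_getD, List.getElem?_map,
        List.getElem?_eq_getElem hi]
      simp
    rw [h1, getD_fit]
    split_ifs with hj
    · rfl
    · have h2 := h i j (by omega)
      rw [coeff_mbiv_lt G i hi, coeff_pol] at h2
      exact h2.symm
  · have e1 : (fitR G).getD i [] = [] := List.getD_eq_default _ _ (by rw [length_fitR]; omega)
    have e2 : G.getD i [] = [] := List.getD_eq_default _ _ (by omega)
    rw [e1, e2]

theorem getD_inj {K : Type} [Field K] {w : ℕ} {r r' : List K} (hr : r.length = w)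
    (hr' : r'.length = w) (h : ∀ j, r.getD j 0 = r'.getD j 0) : r = r' := by
  apply List.ext_getElem (hr.trans hr'.symm)
  intro j hj hj'
  have := h j
  rwa [List.getD_eq_getElem _ _ hj, List.getD_eq_getElem _ _ hj'] at this

theorem mbiv_inj {K : Type} [Field K] {w : ℕ} {G G' : List (List K)} (hG : Sh w G)
    (hG' : Sh w G') (h : mbiv G = mbiv G') : G = G' := by
  have hlen : G.length = G'.length := by rw [← mbiv_natDegree, h, mbiv_natDegree]
  apply List.ext_getElem hlen
  intro i hi hi'
  have h1 : (mbiv G).coeff i = (mbiv G').coeff i := by rw [h]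
  rw [coeff_mbiv_lt G i hi, coeff_mbiv_lt G' i hi', List.getD_eq_getElem _ _ hi,
    List.getD_eq_getElem _ _ hi'] at h1
  refine getD_inj (hG _ (List.getElem_mem hi)) (hG' _ (List.getElem_mem hi')) fun j => ?_
  have h2 := congrArg (fun p => p.coeff j) h1
  simpa only [coeff_pol] using h2


/-! ### counting -/

theorem card_fiber {X Y : Type} [AddCommGroup X] [AddCommGroup Y] [Fintype X] [Fintype Y]
    (f : X →+ Y) (hf : Function.Surjective f) (B : Y → Prop) :
    Nat.card {x : X // B (f x)} * Nat.card Y = Nat.card X * Nat.card {y : Y // B y} := by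
  classical
  have h1 : ∀ C : Y → Prop, Nat.card {x : X // C (f x)} = Nat.card {y : Y // C y} *
      (Finset.univ.filter (fun x : X => f x = 0)).card := by
    intro C
    rw [Nat.card_eq_fintype_card, Nat.card_eq_fintype_card, Fintype.card_subtype,
      Fintype.card_subtype]
    rw [Finset.card_eq_sum_card_fiberwise (f := f) (t := Finset.univ.filter C)
      (fun x hx => by simpa using hx)]
    rw [Finset.sum_const_nat (m := (Finset.univ.filter (fun x : X => f x = 0)).card)]
    intro y hy
    have hy' : C y := (Finset.mem_filter.1 hy).2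
    have h2 : (Finset.univ.filter (fun x => C (f x))).filter (fun x => f x = y) =
        Finset.univ.filter (fun x => f x = y) := by
      ext x
      simp only [Finset.mem_filter, Finset.mem_univ, true_and]
      constructor
      · exact fun h => h.2
      · intro h; exact ⟨by rw [h]; exact hy', h⟩
    rw [h2]
    exact AddMonoidHom.card_fiber_eq_of_mem_range f (hf y) (hf 0)
  have e1 := h1 B
  have e2 := h1 (fun _ => True)
  have e3 : Nat.card {y : Y // True} = Nat.card Y := Nat.card_congr (Equiv.subtypeUnivEquiv (fun _ => trivial))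
  have e4 : Nat.card {x : X // True} = Nat.card X := Nat.card_congr (Equiv.subtypeUnivEquiv (fun _ => trivial))
  rw [e3, e4] at e2
  rw [e1, e2]
  ring

/-- the restriction map -/
def res {L : Type} [Field L] {d n : ℕ} (h : n ≤ d)
    (x : (Fin (2 * d + 2) → L) × (Fin (2 * d + 2) → Fin d → L)) :
    (Fin (2 * n + 2) → L) × (Fin (2 * n + 2) → Fin n → L) :=
  (fun i => x.1 (Fin.castLE (by omega) i),
    fun i j => x.2 (Fin.castLE (by omega) i) (Fin.castLE h j))

theorem card_res {L : Type} [Field L] [Fintype L] {d n : ℕ} (h : n ≤ d)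
    (B : (Fin (2 * n + 2) → L) × (Fin (2 * n + 2) → Fin n → L) → Prop) (q c : ℕ)
    (hB : Nat.card {y // B y} * q ≤ c * Fintype.card L ^ ((2 * n + 2) * (n + 1))) :
    Nat.card {x : (Fin (2 * d + 2) → L) × (Fin (2 * d + 2) → Fin d → L) // B (res h x)} * q ≤
      c * Fintype.card L ^ ((2 * d + 2) * (d + 1)) := by
  classical
  set f : ((Fin (2 * d + 2) → L) × (Fin (2 * d + 2) → Fin d → L)) →+
      ((Fin (2 * n + 2) → L) × (Fin (2 * n + 2) → Fin n → L)) :=
    { toFun := res h, map_zero' := rfl, map_add' := fun _ _ => rfl } with hf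
  have hsurj : Function.Surjective f := by
    rintro ⟨y1, y2⟩
    refine ⟨(fun i => if hi : (i : ℕ) < 2 * n + 2 then y1 ⟨i, hi⟩ else 0,
      fun i j => if hi : (i : ℕ) < 2 * n + 2 then (if hj : (j : ℕ) < n then y2 ⟨i, hi⟩ ⟨j, hj⟩ else 0)
        else 0), ?_⟩
    apply Prod.ext
    · funext i
      change (if hi : ((Fin.castLE (by omega) i : Fin (2 * d + 2)) : ℕ) < 2 * n + 2 then _ else _) = _
      rw [dif_pos (by exact i.2)]
      rfl
    · funext i j
      change (if hi : ((Fin.castLE (by omega) i : Fin (2 * d + 2)) : ℕ) < 2 * n + 2 then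
        (if hj : ((Fin.castLE h j : Fin d) : ℕ) < n then _ else _) else _) = _
      rw [dif_pos (by exact i.2), dif_pos (by exact j.2)]
      rfl
  have hcard : ∀ m : ℕ, Nat.card ((Fin (2 * m + 2) → L) × (Fin (2 * m + 2) → Fin m → L)) =
      Fintype.card L ^ ((2 * m + 2) * (m + 1)) := by
    intro m
    rw [Nat.card_eq_fintype_card, Fintype.card_prod, Fintype.card_fun, Fintype.card_fun,
      Fintype.card_fun, Fintype.card_fin, Fintype.card_fin, ← pow_mul, ← pow_add]
    congr 1
    ring
  have key := card_fiber f hsurj B
  rw [hcard, hcard] at key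
  have hpos : 0 < Fintype.card L ^ ((2 * n + 2) * (n + 1)) := pow_pos Fintype.card_pos _
  refine Nat.le_of_mul_le_mul_right ?_ hpos
  calc Nat.card {x // B (res h x)} * q * Fintype.card L ^ ((2 * n + 2) * (n + 1))
      = (Nat.card {x // B (f x)} * Fintype.card L ^ ((2 * n + 2) * (n + 1))) * q := by
        change Nat.card {x // B (f x)} * q * _ = _
        ring
    _ = Fintype.card L ^ ((2 * d + 2) * (d + 1)) * (Nat.card {y // B y} * q) := by rw [key]; ring
    _ ≤ Fintype.card L ^ ((2 * d + 2) * (d + 1)) *
        (c * Fintype.card L ^ ((2 * n + 2) * (n + 1))) := Nat.mul_le_mul_left _ hB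
    _ = _ := by ring

/-- union bound -/
theorem card_union {X ι : Type} [Fintype X] (l : List ι) (P : X → Prop) (B : ι → X → Prop)
    (w : ι → ℕ) (q c M : ℕ) (h : ∀ x, P x → ∃ i ∈ l, B i x)
    (hB : ∀ i ∈ l, Nat.card {x // B i x} * q ≤ c * w i * M) :
    Nat.card {x // P x} * q ≤ c * (l.map w).sum * M := by
  classical
  induction l generalizing P with
  | nil =>
    have : IsEmpty {x // P x} := ⟨fun x => by
      obtain ⟨i, hi, _⟩ := h x.1 x.2
      simp at hi⟩
    rw [Nat.card_of_isEmpty, zero_mul]
    exact Nat.zero_le _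
  | cons i l ih =>
    have h1 := ih (fun x => ∃ j ∈ l, B j x) (fun x hx => hx) (fun j hj => hB j (by simp [hj]))
    have h2 := hB i (by simp)
    have h3 : Nat.card {x // P x} ≤ Nat.card {x // B i x} + Nat.card {x // ∃ j ∈ l, B j x} := by
      rw [Nat.card_eq_fintype_card, Nat.card_eq_fintype_card, Nat.card_eq_fintype_card,
        Fintype.card_subtype, Fintype.card_subtype, Fintype.card_subtype]
      refine le_trans (Finset.card_le_card ?_) (Finset.card_union_le _ _)
      intro x hx
      obtain ⟨j, hj, hjx⟩ := h x (by simpa using hx)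
      rcases List.mem_cons.1 hj with rfl | hj
      · simp [hjx]
      · simp only [Finset.mem_union, Finset.mem_filter, Finset.mem_univ, true_and]
        exact Or.inr ⟨j, hj, hjx⟩
    rw [List.map_cons, List.sum_cons]
    calc Nat.card {x // P x} * q ≤ (Nat.card {x // B i x} + Nat.card {x // ∃ j ∈ l, B j x}) * q :=
          Nat.mul_le_mul_right _ h3
      _ = Nat.card {x // B i x} * q + Nat.card {x // ∃ j ∈ l, B j x} * q := by ring
      _ ≤ c * w i * M + c * (l.map w).sum * M := add_le_add h2 h1
      _ = _ := by ring


/-! ### the factors of the parts -/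

theorem prod_map_pow' {α M : Type} [CommMonoid M] (l : List α) (f : α → M) (c : ℕ) :
    (l.map (fun x => f x ^ c)).prod = (l.map f).prod ^ c := by
  induction l with
  | nil => simp
  | cons a l ih => simp [ih, mul_pow]

theorem dvd_prod_of_mem {α : Type} {K : Type} [Field K] (l : List α) (f : α → K[X][X]) (a : α)
    (ha : a ∈ l) : f a ∣ (l.map f).prod :=
  List.dvd_prod (List.mem_map_of_mem ha)

theorem natDegree_prod_map {α K : Type} [Field K] (l : List α) (f : α → K[X][X])
    (hf : ∀ a ∈ l, (f a).Monic) :
    (l.map f).prod.Monic ∧ (l.map f).prod.natDegree = (l.map (fun a => (f a).natDegree)).sum := by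
  induction l with
  | nil => simp
  | cons a l ih =>
    obtain ⟨h1, h2⟩ := ih (fun b hb => hf b (by simp [hb]))
    have h3 := hf a (by simp)
    refine ⟨?_, ?_⟩
    · simpa using h3.mul h1
    · rw [List.map_cons, List.prod_cons, h3.natDegree_mul h1, h2, List.map_cons, List.sum_cons]

theorem td_of_dvd {K : Type} [Field K] (S G : List (List K)) (hS : TD (mbiv S) S.length)
    (h : mbiv G ∣ mbiv S) : TD (mbiv G) G.length := by
  obtain ⟨H, hH⟩ := h
  have hHm : H.Monic := by
    refine Monic.of_mul_monic_left (mbiv_monic G) ?_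
    rw [← hH]
    exact mbiv_monic S
  have hdeg : S.length = (mbiv G).natDegree + H.natDegree := by
    rw [← (mbiv_monic G).natDegree_mul hHm, ← hH, mbiv_natDegree]
  have h1 := td_factor (mbiv G) H hHm (by rw [← hH, ← hdeg]; exact hS)
  rwa [mbiv_natDegree] at h1

theorem recGood_sum {K : Type} [Field K] (S : List (List K)) (out : List (List (List K)))
    (h : RecGood S out) : (out.map List.length).sum = S.length := by
  obtain ⟨h1, _, _⟩ := h
  have h2 := (natDegree_prod_map out mbiv (fun G _ => mbiv_monic G)).2
  rw [h1, mbiv_natDegree] at h2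
  rw [h2]
  congr 1
  exact List.map_congr_left fun G _ => (mbiv_natDegree G).symm

theorem recGood_td {K : Type} [Field K] (S : List (List K)) (out : List (List (List K)))
    (h : RecGood S out) (hS : TD (mbiv S) S.length) (G : List (List K)) (hG : G ∈ out) :
    TD (mbiv G) G.length := by
  refine td_of_dvd S G hS ?_
  rw [← h.1]
  exact dvd_prod_of_mem out mbiv G hG

theorem sum_le_sum' {α : Type} (l : List α) (f g : α → ℕ) (h : ∀ a ∈ l, f a ≤ g a) :
    (l.map f).sum ≤ (l.map g).sum := by
  induction l with
  | nil => simp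
  | cons a l ih =>
    have h1 := h a (by simp)
    have h2 := ih (fun b hb => h b (by simp [hb]))
    simp only [List.map_cons, List.sum_cons]
    omega

theorem sqGood_sum {K : Type} [Field K] (A : List (List K))
    (out : List (List Unit × (List (List K) × List (List K)))) (h : SqGood A out) :
    (out.map (fun o => o.2.1.length)).sum ≤ A.length := by
  obtain ⟨h1, h2, _⟩ := h
  have h3 := (natDegree_prod_map out (fun o => mbiv o.2.1 ^ o.1.length)
    (fun o _ => (mbiv_monic o.2.1).pow _)).2
  rw [h1, mbiv_natDegree] at h3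
  rw [h3]
  refine sum_le_sum' _ _ _ fun o ho => ?_
  rw [(mbiv_monic o.2.1).natDegree_pow, mbiv_natDegree]
  have := (h2 o ho).1
  exact Nat.le_mul_of_pos_left _ this

/-- the result -/
def fin {K : Type} [Field K] (parts : List (List Unit × (List (List K) × List (List K))))
    (outs : (List Unit × (List (List K) × List (List K))) → List (List (List K))) :
    List (List (List K) × List Unit) :=
  (parts.map (fun o => (outs o).map (fun G => (fitR G, o.1)))).flatten

theorem pairwise_of_squarefree {α K : Type} [Field K] (l : List α) (f : α → K[X][X])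
    (h : Squarefree ((l.map f).prod.map (evalRingHom (0 : K)))) :
    l.Pairwise (fun o o' => ∀ G : K[X][X], G ∣ f o → G ∣ f o' →
      IsUnit (G.map (evalRingHom (0 : K)))) := by
  induction l with
  | nil => exact List.Pairwise.nil
  | cons a l ih =>
    rw [List.map_cons, List.prod_cons, Polynomial.map_mul] at h
    refine List.Pairwise.cons ?_ (ih (h.of_mul_right))
    intro b hb G hG hG'
    apply h
    refine mul_dvd_mul (Polynomial.map_dvd _ hG) (Polynomial.map_dvd _ (hG'.trans ?_))
    exact dvd_prod_of_mem l f b hb

theorem monFac_fin {K : Type} [Field K] (A : List (List K))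
    (parts : List (List Unit × (List (List K) × List (List K))))
    (outs : (List Unit × (List (List K) × List (List K))) → List (List (List K)))
    (h : SqGood A parts) (ho : ∀ o ∈ parts, RecGood o.2.1 (outs o)) :
    MonFac A (fin parts outs) := by
  have htd : ∀ o ∈ parts, ∀ G ∈ outs o, TD (mbiv G) G.length := by
    intro o hop G hG
    exact recGood_td o.2.1 (outs o) (ho o hop) (h.2.1 o hop).2.2.2.1 G hG
  refine ⟨?_, ?_, ?_⟩
  · rw [fin, List.map_flatten, List.prod_flatten, ← h.1, List.map_map, List.map_map]
    congr 1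
    refine List.map_congr_left fun o hop => ?_
    simp only [Function.comp_apply]
    rw [List.map_map, ← (ho o hop).1, ← prod_map_pow']
    congr 1
    refine List.map_congr_left fun G hG => ?_
    simp only [Function.comp_apply]
    rw [mbiv_fitR G (htd o hop G hG)]
  · intro x hx
    rw [fin, List.mem_flatten] at hx
    obtain ⟨l, hl, hxl⟩ := hx
    obtain ⟨o, hop, rfl⟩ := List.mem_map.1 hl
    obtain ⟨G, hG, rfl⟩ := List.mem_map.1 hxl
    have h1 := (ho o hop).2.1 G hG
    refine ⟨?_, ?_, ?_, (h.2.1 o hop).1⟩
    · rw [length_fitR]; exact h1.1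
    · rw [length_fitR]
      intro r hr
      obtain ⟨r', _, rfl⟩ := List.mem_map.1 hr
      exact length_fit _ _ _
    · rw [mbiv_fitR G (htd o hop G hG)]
      exact h1.2.2
  · rw [fin, List.map_flatten, List.nodup_flatten]
    refine ⟨?_, ?_⟩
    · intro l hl
      rw [List.map_map] at hl
      obtain ⟨o, hop, rfl⟩ := List.mem_map.1 hl
      simp only [Function.comp_apply]
      rw [List.map_map]
      refine List.Nodup.map_on ?_ (ho o hop).2.2
      intro G hG G' hG' hGG
      have h1 : fitR G = fitR G' := hGG
      refine mbiv_inj ((ho o hop).2.1 G hG).2.1 ((ho o hop).2.1 G' hG').2.1 ?_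
      rw [← mbiv_fitR G (htd o hop G hG), ← mbiv_fitR G' (htd o hop G' hG'), h1]
    · rw [List.map_map, List.pairwise_map]
      have hp := pairwise_of_squarefree parts (fun o => mbiv o.2.1) h.2.2
      refine hp.imp_of_mem ?_
      intro o o' hop hop' hu
      simp only [Function.comp_apply]
      rw [List.map_map, List.map_map]
      intro x hx hx'
      obtain ⟨G, hG, rfl⟩ := List.mem_map.1 hx
      obtain ⟨G', hG', hGG⟩ := List.mem_map.1 hx'
      have h1 : fitR G' = fitR G := hGG
      have h2 : mbiv G' = mbiv G := by
        rw [← mbiv_fitR G (htd o hop G hG), ← mbiv_fitR G' (htd o' hop' G' hG'), h1]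
      have h3 : mbiv G ∣ mbiv o.2.1 := by
        rw [← (ho o hop).1]; exact dvd_prod_of_mem _ mbiv G hG
      have h4 : mbiv G ∣ mbiv o'.2.1 := by
        rw [← (ho o' hop').1, ← h2]; exact dvd_prod_of_mem _ mbiv G' hG'
      have h5 := hu (mbiv G) h3 h4
      have h6 := natDegree_eq_zero_of_isUnit h5
      rw [(mbiv_monic G).natDegree_map, mbiv_natDegree] at h6
      have := ((ho o hop).2.1 G hG).1
      omega


/-! ### the program -/

/-- type of the input -/
abbrev Inp : Ty := .prod TB (.prod (.prod Po Un) (.prod (.prod Ma (.list (.prod Po Un))) (.prod Po Ma)))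
/-- type of a part -/
abbrev PA : Ty := .prod Un (.prod Ma Ma)
/-- type of the input of the recombination -/
abbrev RI : Ty := .prod TB (.prod (.prod Po Un) (.prod Ma (.prod Ma (.prod Po Ma))))

/-- rows fitted to the length plus one -/
def fitRP : Pr [] Ma Ma :=
  .comp (.pair (.comp (.pair .nil .id) .cons) .id)
    (mapP (.comp (.pair .fst (.pair .zero .snd)) fitP))

/-- a list of length `2 n + 2` -/
def fuelP : Pr [] Ma Ma :=
  .comp (.pair .nil (.comp (.pair .nil (.comp (.pair .id .id) appP)) .cons)) .cons

/-- input of the recombination; context `((input, part), fuel)` -/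
def recI : Pr [] (.prod (.prod Inp PA) Ma) RI :=
  .pair (.comp (.comp .fst .fst) .fst)
    (.pair (.comp (.comp (.comp .fst .fst) .snd) .fst)
    (.pair (.comp (.comp (.comp .fst .snd) .snd) .fst)
    (.pair (.comp (.comp (.comp .fst .snd) .snd) .snd)
    (.pair
      (.comp (.comp (.pair .snd (.comp (.comp (.comp (.comp (.comp .fst .fst) .snd) .snd) .snd)
        .fst)) splitP) .fst)
      (.comp (.pair (.comp (.comp (.comp .fst .snd) .snd) .fst)
          (.comp (.comp (.pair .snd (.comp (.comp (.comp (.comp (.comp .fst .fst) .snd) .snd) .snd)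
            .snd)) splitP) .fst))
        (mapP (.comp splitP .fst)))))))

/-- the factors of a part -/
def partP (prec : Pr [] RI (.list Ma)) : Pr [] (.prod Inp PA) (.list (.prod Ma Un)) :=
  lt (.comp (.comp (.comp .snd .snd) .fst) fuelP)
    (.comp (.pair (.comp (.comp .fst .snd) .fst) (.comp recI prec))
      (mapP (.pair (.comp .snd fitRP) .fst)))

/-- the program -/
def monP (psq : Pr [] (.prod TB (.prod (.prod Po Un) (.prod Ma (.list (.prod Po Un))))) (.list PA))
    (prec : Pr [] RI (.list Ma)) : Pr [] Inp (.list (.prod Ma Un)) :=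
  .comp (.comp (.pair .id (.comp (.pair .fst (.pair (.comp .snd .fst) (.comp (.comp .snd .snd)
    .fst))) psq)) (mapP (partP prec))) flatP

section
variable {F : Type} [Field F] [DecidableEq F]

@[simp] theorem val_fitRP (v : SV F []) (G : List (List F)) :
    (fitRP.val v G : List (List F)) = G.map (fit (G.length + 1) 0) := by
  simp [fitRP]

@[simp] theorem val_fuelP (v : SV F []) (G : List (List F)) :
    (fuelP.val v G : List (List F)) = [] :: [] :: (G ++ G) := by
  simp [fuelP]

/-- the input of the recombination -/
def recIn (x : Ty.D F Inp) (o : Ty.D F PA) : Ty.D F RI :=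
  (x.1, (x.2.1, (o.2.1, (o.2.2, (List.take (2 * List.length o.2.1 + 2) x.2.2.2.1,
    List.map (List.take (List.length o.2.1))
      (List.take (2 * List.length o.2.1 + 2) x.2.2.2.2))))))

theorem val_partP (prec : Pr [] RI (.list Ma)) (x : Ty.D F Inp) (o : Ty.D F PA) :
    ((partP prec).val () (x, o) : List (List (List F) × List Unit)) =
      List.map (fun G => (List.map (fit (List.length G + 1) 0) G, o.1))
        (prec.val () (recIn x o) : List (List (List F))) := by
  have h : (List.length o.2.1 + List.length o.2.1 + 1 + 1) = 2 * List.length o.2.1 + 2 := by omega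
  simp [partP, recI, recIn, h]

theorem val_monP (psq : Pr [] (.prod TB (.prod (.prod Po Un) (.prod Ma (.list (.prod Po Un)))))
    (.list PA)) (prec : Pr [] RI (.list Ma)) (x : Ty.D F Inp) :
    ((monP psq prec).val () x : List (List (List F) × List Unit)) =
      (List.map (fun o => List.map (fun G => (List.map (fit (List.length G + 1) 0) G, o.1))
        (prec.val () (recIn x o) : List (List (List F))))
        (psq.val () (x.1, (x.2.1, x.2.2.1)) : List _)).flatten := by
  simp only [monP, val_comp, val_pair, val_fst, val_snd, val_id, val_mapP, val_flatP]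
  congr 1
  exact List.map_congr_left fun o _ => val_partP prec x o

/-! ### running time -/

theorem cost_fitRP (v : SV F []) (k : SC F []) (G : List (List F)) :
    fitRP.cost v k G ≤ (20 * G.length + 45) * G.length + 12 := by
  have h := cost_mapP_le (s := []) (c := Ma) (a := Po) (b := Po)
    (.comp (.pair .fst (.pair .zero .snd)) fitP) v k (([] :: G : List (List F)), G)
    (20 * (G.length + 1) + 7) (fun y _ => by
      have e := cost_fitP (s := []) (F := F) (a := .fld) (b := Po) v k
        (([] :: G : List (List F)), ((0 : F), y))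
      simp at e ⊢
      omega)
  simp [fitRP] at h ⊢
  nlinarith

theorem cost_fuelP (v : SV F []) (k : SC F []) (G : List (List F)) :
    fuelP.cost v k G ≤ 20 * G.length + 14 := by
  have h := cost_appP (s := []) (a := Po) v k (G, G)
  simp [fuelP] at h ⊢
  omega

theorem sum_map_le {α : Type} (l : List α) (f g : α → ℕ) (h : ∀ a ∈ l, f a ≤ g a) :
    (l.map f).sum ≤ (l.map g).sum := by
  induction l with
  | nil => simp
  | cons a l ih =>
    have h1 := h a (by simp)
    have h2 := ih (fun b hb => h b (by simp [hb]))
    simp only [List.map_cons, List.sum_cons]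
    omega

theorem sum_map_mul {α : Type} (l : List α) (f : α → ℕ) (c : ℕ) :
    (l.map (fun a => c * f a)).sum = c * (l.map f).sum := by
  induction l with
  | nil => simp
  | cons a l ih => simp only [List.map_cons, List.sum_cons, ih]; ring

theorem length_le_of_sum {α : Type} (l : List α) (f : α → ℕ) (h : ∀ a ∈ l, 1 ≤ f a) :
    l.length ≤ (l.map f).sum := by
  induction l with
  | nil => simp
  | cons a l ih =>
    have h1 := h a (by simp)
    have h2 := ih (fun b hb => h b (by simp [hb]))
    simp only [List.map_cons, List.sum_cons, List.length_cons]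
    omega

theorem le_of_mem_sum {α : Type} (l : List α) (f : α → ℕ) (a : α) (h : a ∈ l) :
    f a ≤ (l.map f).sum := List.single_le_sum (by simp) _ (List.mem_map_of_mem h)

theorem cost_recI (x : Ty.D F Inp) (o : Ty.D F PA) (fu : List (List F))
    (hfu : fu.length = 2 * List.length o.2.1 + 2) :
    recI.cost () () ((x, o), fu) ≤ 300 * (List.length o.2.1 + 1) ^ 2 := by
  obtain ⟨c, S, hs⟩ := o
  obtain ⟨tb, qe, Au, pl, g⟩ := x
  have e1 := cost_splitP (s := []) (F := F) (a := .fld) (b := Po) () () (fu, pl)
  have e2 := cost_splitP (s := []) (F := F) (a := Po) (b := Po) () () (fu, g)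
  have e3 := cost_mapP_le (s := []) (F := F) (c := Ma) (a := Po) (b := Po)
    (.comp splitP .fst) () () (S, List.take (List.length fu) g)
    (24 * List.length S + 9) (fun y _ => by
      have e := cost_splitP (s := []) (F := F) (a := .fld) (b := Po) () () (S, y)
      simp at e ⊢
      omega)
  have e4 : List.length (List.take (List.length fu) g) ≤ fu.length := by
    rw [List.length_take]; exact min_le_left _ _
  simp only [List.length_take] at e3 e4
  simp only at hfu
  have e5 : (24 * List.length S + 9 + 13) * min fu.length (List.length g) ≤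
      (24 * List.length S + 22) * (2 * List.length S + 2) := by
    refine Nat.mul_le_mul (by omega) (by omega)
  simp [recI] at e1 e2 e3 ⊢
  nlinarith

theorem cost_partP (prec : Pr [] RI (.list Ma)) (x : Ty.D F Inp) (o : Ty.D F PA)
    (h1 : ∀ G ∈ (prec.val () (recIn x o) : List (List (List F))), 1 ≤ List.length G)
    (h2 : ((prec.val () (recIn x o) : List (List (List F))).map List.length).sum =
      List.length o.2.1) :
    (partP prec).cost () () (x, o) ≤ 500 * (List.length o.2.1 + 1) ^ 2 +
      prec.cost () () (recIn x o) := by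
  set n := List.length o.2.1 with hn
  set out : List (List (List F)) := prec.val () (recIn x o) with hout
  have hval : recI.val () ((x, o), (([] : List F) :: [] :: (o.2.1 ++ o.2.1 : List (List F)))) =
      recIn x o := by
    have h : (List.length o.2.1 + List.length o.2.1 + 1 + 1) = 2 * List.length o.2.1 + 2 := by omega
    simp [recI, recIn, h]
  have e1 := cost_fuelP (F := F) () () o.2.1
  have e2 := cost_recI x o ([] :: [] :: (o.2.1 ++ o.2.1 : List (List F))) (by simp; omega)
  have e3 := cost_mapP (s := []) (F := F) (c := Un) (a := Ma) (b := .prod Ma Un)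
    (.pair (.comp .snd fitRP) .fst) () () (o.1, out)
  have e4 : (List.map (fun y => (Pr.pair (.comp .snd fitRP) .fst :
      Pr [] (.prod Un Ma) (.prod Ma Un)).cost () () (o.1, y) + 13) out).sum ≤
      (List.map (fun y => (20 * n + 80) * List.length y) out).sum := by
    refine sum_map_le _ _ _ fun y hy => ?_
    have a1 := cost_fitRP (F := F) () () y
    have a2 := h1 y hy
    have a3 : List.length y ≤ n := by
      rw [← h2]
      exact le_of_mem_sum out List.length y hy
    simp only [cost_pair, cost_comp, cost_snd, cost_fst, val_snd]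
    have a4 : (20 * List.length y + 45) * List.length y ≤ (20 * n + 45) * List.length y :=
      Nat.mul_le_mul_right _ (by omega)
    have a5 : 35 ≤ 35 * List.length y := by omega
    calc _ ≤ (20 * List.length y + 45) * List.length y + 12 + 16 := by omega
      _ ≤ (20 * n + 45) * List.length y + 35 * List.length y := by omega
      _ = (20 * n + 80) * List.length y := by ring
  rw [sum_map_mul out List.length, h2] at e4
  have e5 : (partP prec).cost () () (x, o) ≤ fuelP.cost () () o.2.1 +
      recI.cost () () ((x, o), (([] : List F) :: [] :: (o.2.1 ++ o.2.1 : List (List F)))) +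
        prec.cost () () (recIn x o) +
        (mapP (.pair (.comp .snd fitRP) .fst) : Pr [] (.prod Un (.list Ma)) _).cost () ()
          (o.1, out) + 20 := by
    simp only [partP, cost_lt, cost_comp, cost_pair, cost_fst, cost_snd, val_comp, val_pair,
      val_fst, val_snd, val_fuelP, hval]
    rw [← hout]
    omega
  simp only at e3
  nlinarith

end

section
variable {F : Type} [Field F] [DecidableEq F]

theorem cost_monP' (psq : Pr [] (.prod TB (.prod (.prod Po Un) (.prod Ma (.list (.prod Po Un)))))
    (.list PA)) (prec : Pr [] RI (.list Ma)) (x : Ty.D F Inp) (parts : List (Ty.D F PA)) (d : ℕ)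
    (hp : psq.val () (x.1, (x.2.1, x.2.2.1)) = parts)
    (h1 : ∀ o ∈ parts, 1 ≤ List.length o.2.1)
    (h2 : (parts.map (fun o => List.length o.2.1)).sum ≤ d)
    (h3 : ∀ o ∈ parts, ∀ G ∈ (prec.val () (recIn x o) : List (List (List F))), 1 ≤ List.length G)
    (h4 : ∀ o ∈ parts, ((prec.val () (recIn x o) : List (List (List F))).map List.length).sum =
      List.length o.2.1) :
    (monP psq prec).cost () () x ≤ psq.cost () () (x.1, (x.2.1, x.2.2.1)) +
      (parts.map (fun o => 520 * (List.length o.2.1 + 1) ^ 2 +
        prec.cost () () (recIn x o))).sum + 200 * (d + 1) ^ 2 := by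
  have hlen : parts.length ≤ d := (length_le_of_sum parts _ h1).trans h2
  have e1 := cost_mapP (s := []) (F := F) (c := Inp) (a := PA) (b := .list (.prod Ma Un))
    (partP prec) () () (x, parts)
  have e2 : (parts.map (fun o => (partP prec).cost () () (x, o) + 13)).sum ≤
      (parts.map (fun o => 520 * (List.length o.2.1 + 1) ^ 2 +
        prec.cost () () (recIn x o))).sum := by
    refine sum_map_le _ _ _ fun o ho => ?_
    have a1 := cost_partP prec x o (h3 o ho) (h4 o ho)
    have a2 : 1 ≤ (List.length o.2.1 + 1) ^ 2 := Nat.one_le_pow _ _ (by omega)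
    omega
  have e3 := cost_flatP (s := []) (F := F) (a := .prod Ma Un) () ()
    (List.map (fun o => (partP prec).val () (x, o)) parts) d (by
      intro y hy
      obtain ⟨o, ho, rfl⟩ := List.mem_map.1 hy
      rw [val_partP, List.length_map]
      refine (length_le_of_sum _ _ (h3 o ho)).trans ?_
      rw [h4 o ho]
      exact (le_of_mem_sum parts (fun o => List.length o.2.1) o ho).trans h2)
  rw [List.length_map] at e3
  have e4 : (20 * d + 71) * parts.length ≤ (20 * d + 71) * d := Nat.mul_le_mul_left _ hlen
  have e5 : (monP psq prec).cost () () x ≤ psq.cost () () (x.1, (x.2.1, x.2.2.1)) +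
      (mapP (partP prec)).cost () () (x, parts) +
      (flatP : Pr [] (.list (.list (.prod Ma Un))) _).cost () ()
        (List.map (fun o => (partP prec).val () (x, o)) parts) + 20 := by
    simp only [monP, cost_comp, cost_pair, cost_fst, cost_snd, cost_id, val_comp, val_pair,
      val_fst, val_snd, val_id, val_mapP, hp]
    omega
  simp only at e1
  nlinarith

end

theorem take_ofFn' {α : Type} {m n : ℕ} (h : m ≤ n) (v : Fin n → α) :
    List.take m (List.ofFn v) = List.ofFn (fun i => v (Fin.castLE h i)) :=
  (Fin.ofFn_take_eq_take_ofFn h v).symm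

theorem recIn_eq {K L : Type} [Field K] [Field L] [DecidableEq L] [Algebra K L] {d : ℕ}
    (tb : List (List K) × List (List K)) (qe : Ty.D L (.prod Po Un))
    (Au : Ty.D L (.prod Ma (.list (.prod Po Un))))
    (x : (Fin (2 * d + 2) → L) × (Fin (2 * d + 2) → Fin d → L))
    (o : List Unit × (List (List K) × List (List K))) (h : o.2.1.length ≤ d) :
    recIn (F := L) (Ty.map (algebraMap K L) TB tb, (qe, (Au, (List.ofFn x.1, rows x.2))))
      (Ty.map (algebraMap K L) PA o) =
    (Ty.map (algebraMap K L) TB tb, (qe, (Ty.map (algebraMap K L) Ma o.2.1,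
      (Ty.map (algebraMap K L) Ma o.2.2, (List.ofFn (res h x).1, rows (res h x).2))))) := by
  have h1 : List.length (Ty.map (algebraMap K L) Ma o.2.1) = o.2.1.length := by
    simp [Ty.map]
  have h2 : List.length (Ty.map (algebraMap K L) PA o).2.1 = o.2.1.length := h1
  unfold recIn
  simp only [h2]
  rw [take_ofFn' (by omega), rows, take_ofFn' (by omega), List.map_ofFn]
  simp only [Ty.map, rows, res]
  congr 6
  funext i
  simp only [Function.comp_apply]
  rw [take_ofFn' h]

theorem map_fit {K L : Type} [Field K] [Field L] (φ : K →+* L) (n : ℕ) (r : List K) :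
    (fit n 0 r).map φ = fit n 0 (r.map φ) := by
  induction n generalizing r with
  | zero => rfl
  | succ n ih =>
    cases r with
    | nil => simp only [fit, List.map_cons, List.map_nil, map_zero, ih]
    | cons x r => simp only [fit, List.map_cons, ih]

theorem map_bits {K L : Type} [Field K] [Field L] (φ : K →+* L) (q : ℕ) :
    (bits K q).map φ = bits L q := by
  simp only [bits, List.map_map]
  refine List.map_congr_left fun b _ => ?_
  cases b <;> simp

theorem map_un {K L : Type} (φ : K → L) (l : List Unit) : Ty.map φ Un l = l := by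
  simp only [Ty.map]
  exact List.map_id'' (fun _ => rfl) l

theorem PL_pos (e q n : ℕ) : 1 ≤ PL e q n := by
  unfold PL lgc
  exact Nat.mul_pos (Nat.mul_pos (by omega) (by omega)) (by omega)

theorem PL_mono (e q : ℕ) {n d : ℕ} (h : n ≤ d) : PL e q n ≤ PL e q d := by
  unfold PL lgc
  refine Nat.mul_le_mul_left _ ?_
  have := Nat.clog_mono_right 2 (show n + 1 ≤ d + 1 by omega)
  omega

theorem sum_ww {α : Type} (hwa : ∀ a b, ww a + ww b ≤ ww (a + b)) (l : List α) (f : α → ℕ) :
    (l.map (fun a => ww (f a))).sum ≤ ww (l.map f).sum := by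
  induction l with
  | nil => simp
  | cons a l ih =>
    simp only [List.map_cons, List.sum_cons]
    exact (Nat.add_le_add_left ih _).trans (hwa _ _)

theorem card_sub_le {X : Type} [Finite X] (P Q : X → Prop) (h : ∀ x, P x → Q x) :
    Nat.card {x // P x} ≤ Nat.card {x // Q x} :=
  Nat.card_le_card_of_injective (fun x => (⟨x.1, h x.1 x.2⟩ : {x // Q x}))
    (fun x y hxy => Subtype.ext (congrArg (fun z : {x // Q x} => z.1) hxy))

end S10Mon

theorem specMon (h1 : SpecSq) (h2 : SpecRec) (h3 : StmtR) (h4 : StmtLocal) (h5 : SpecNat)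
    (h0 : SpecUnits) : SpecMon := by
  classical
  obtain ⟨psq, C1, k1, hsq⟩ := h1
  obtain ⟨prec, C2, k2, hrec⟩ := h2
  obtain ⟨_, hwm, _, _, hwa, _, hww, _, hwc, _⟩ := h0
  obtain ⟨C3, hC3⟩ := hwc 2
  refine ⟨S10Mon.monP psq prec, C1 + (520 + C2) * C3 + 200, k1 + k2, ?_⟩
  intro K L _ _ _ _ _ _ _ q e d tb A uni T N hfin hcard htb hA hd hSh hTD hUni hT hTA hAT hsqf hq
  obtain ⟨hgood, hcost⟩ := hsq K q e d tb A uni T N hcard htb hA hd hSh hTD hUni hT hTA hAT hsqf
  set parts : List (List Unit × (List (List K) × List (List K))) :=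
    psq.val () (tb, ((bits K q, un e), (A, uni))) with hparts
  obtain ⟨hval, hcostL⟩ := h5 _ _ psq K L (algebraMap K L) (tb, ((bits K q, un e), (A, uni)))
  have hin : Ty.map (algebraMap K L) (.prod TB (.prod (.prod Po Un) (.prod Ma
      (.list (.prod Po Un))))) (tb, ((bits K q, un e), (A, uni))) =
      (Ty.map (algebraMap K L) TB tb, ((bits L q, un e),
        (Ty.map (algebraMap K L) (.prod Ma (.list (.prod Po Un))) (A, uni)))) := by
    have e1 : Ty.map (algebraMap K L) Po (bits K q) = bits L q := S10Mon.map_bits (algebraMap K L) q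
    have e2 : Ty.map (algebraMap K L) Un (un e) = un e := S10Mon.map_un _ _
    conv_rhs => rw [← e1, ← e2]
    rfl
  rw [hin] at hval hcostL
  rw [← hparts] at hval
  -- sizes of the parts
  have hnle : ∀ o ∈ parts, o.2.1.length ≤ d := by
    intro o ho
    have a1 := S10Mon.le_of_mem_sum parts (fun o => o.2.1.length) o ho
    have a2 := S10Mon.sqGood_sum A parts hgood
    omega
  have hsum : (parts.map (fun o => o.2.1.length)).sum ≤ d := by
    have a2 := S10Mon.sqGood_sum A parts hgood
    omega
  -- the input over `L`
  set xL : ((Fin (2 * d + 2) → L) × (Fin (2 * d + 2) → Fin d → L)) → Ty.D L S10Mon.Inp :=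
    fun x => (Ty.map (algebraMap K L) TB tb, ((bits L q, un e),
        (Ty.map (algebraMap K L) (.prod Ma (.list (.prod Po Un))) (A, uni),
          (List.ofFn x.1, rows x.2)))) with hxL
  set Good : (List Unit × (List (List K) × List (List K))) →
      ((Fin (2 * d + 2) → L) × (Fin (2 * d + 2) → Fin d → L)) → Prop :=
    fun o x => ∃ out : List (List (List K)), RecGood o.2.1 out ∧
      (prec.val () (S10Mon.recIn (xL x) (Ty.map (algebraMap K L) S10Mon.PA o)) :
        List (List (List L))) = Ty.map (algebraMap K L) (.list Ma) out ∧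
      prec.cost () () (S10Mon.recIn (xL x) (Ty.map (algebraMap K L) S10Mon.PA o)) ≤
        C2 * PL e q o.2.1.length ^ k2 * ww (o.2.1.length + 1) with hGood
  have hbad : ∀ o ∈ parts, Nat.card {x // ¬ Good o x} * q ^ e ≤
      7 * o.2.1.length * (Fintype.card L) ^ ((2 * d + 2) * (d + 1)) := by
    intro o ho
    obtain ⟨_, g2, g3, g4, g5, g6, g7⟩ := hgood.2.1 o ho
    obtain ⟨R, _, π, ε, F, hLF, hF⟩ := h4 K tb o.2.1 o.2.2 o.2.1.length (12 * o.2.1.length + 20)
      htb rfl g2 (by omega) g3 g4 g5 g6 g7 (by omega)
    have hn := hnle o ho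
    have hR := h3 K L R π ε (12 * o.2.1.length + 20) o.2.1.length o.2.2.length (mbiv o.2.1) F hfin
      hLF le_rfl (by
        rw [hcard]
        refine le_trans (Nat.pow_le_pow_left (by omega) 4) hq)
    rw [hcard] at hR
    have h6 := S10Mon.card_res hn (fun ω => ¬ GoodR π (12 * o.2.1.length + 20) (mbiv o.2.1) F
      (q ^ e) ω.1 ω.2) (q ^ e) (7 * o.2.1.length) hR
    refine le_trans (Nat.mul_le_mul_right _ ?_) h6
    refine S10Mon.card_sub_le _ _ fun x hx hG => hx ?_
    obtain ⟨out, ho1, ho2, ho3⟩ := hrec K L q e o.2.1.length tb o.2.1 o.2.2 R π ε F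
      (S10Mon.res hn x).1 (S10Mon.res hn x).2 hfin hcard htb rfl g3 hLF hF (by rw [hcard]; exact hG)
    refine ⟨out, ho1, ?_, ?_⟩
    · rw [hxL, S10Mon.recIn_eq tb _ _ x o hn]; exact ho2
    · rw [hxL, S10Mon.recIn_eq tb _ _ x o hn]; exact ho3
  have hmain : ∀ x, (∀ o ∈ parts, Good o x) →
      ∃ out : List (List (List K) × List Unit), MonFac A out ∧
      ((S10Mon.monP psq prec).val () (xL x) : List (List (List L) × List Unit)) =
        Ty.map (algebraMap K L) (.list (.prod Ma Un)) out ∧
      (S10Mon.monP psq prec).cost () () (xL x) ≤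
        (C1 + (520 + C2) * C3 + 200) * PL e q d ^ (k1 + k2) * ww (d + 1) := by
    intro x hx
    have hx' : ∀ o : (List Unit × (List (List K) × List (List K))),
        ∃ out : List (List (List K)), o ∈ parts → (RecGood o.2.1 out ∧
      (prec.val () (S10Mon.recIn (xL x) (Ty.map (algebraMap K L) S10Mon.PA o)) :
        List (List (List L))) = Ty.map (algebraMap K L) (.list Ma) out ∧
      prec.cost () () (S10Mon.recIn (xL x) (Ty.map (algebraMap K L) S10Mon.PA o)) ≤
        C2 * PL e q o.2.1.length ^ k2 * ww (o.2.1.length + 1)) := by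
      intro o
      by_cases ho : o ∈ parts
      · obtain ⟨out, hout⟩ := hx o ho
        exact ⟨out, fun _ => hout⟩
      · exact ⟨[], fun h => absurd h ho⟩
    choose outs houts using hx'
    refine ⟨S10Mon.fin parts outs, S10Mon.monFac_fin A parts outs hgood (fun o ho => (houts o ho).1),
      ?_, ?_⟩
    · rw [S10Mon.val_monP]
      have hv : psq.val () ((xL x).1, ((xL x).2.1, (xL x).2.2.1)) =
        Ty.map (algebraMap K L) (.list S10Mon.PA) parts := hval
      rw [hv]
      change _ = List.map (Ty.map (algebraMap K L) (.prod Ma Un)) (S10Mon.fin parts outs)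
      rw [S10Mon.fin, List.map_flatten, List.map_map]
      change (List.map _ (List.map (Ty.map (algebraMap K L) S10Mon.PA) parts)).flatten = _
      rw [List.map_map]
      congr 1
      refine List.map_congr_left fun o ho => ?_
      simp only [Function.comp_apply]
      rw [(houts o ho).2.1]
      change List.map _ (List.map (Ty.map (algebraMap K L) Ma) (outs o)) = _
      rw [List.map_map, List.map_map]
      refine List.map_congr_left fun G _ => ?_
      simp only [Function.comp_apply]
      refine Prod.ext ?_ rfl
      change List.map (fit ((List.map _ G).length + 1) 0) (List.map _ G) =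
        List.map _ (S10Mon.fitR G)
      rw [S10Mon.fitR, List.map_map, List.map_map, List.length_map]
      refine List.map_congr_left fun r _ => ?_
      exact (S10Mon.map_fit (algebraMap K L) _ r).symm
    · have hlenPA : ∀ o : (List Unit × (List (List K) × List (List K))),
          List.length (Ty.map (algebraMap K L) S10Mon.PA o).2.1 = o.2.1.length := by
        intro o; exact List.length_map _
      have hc := S10Mon.cost_monP' psq prec (xL x) (Ty.map (algebraMap K L) (.list S10Mon.PA) parts) d
        hval (by
          intro o' ho'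
          obtain ⟨o, ho, rfl⟩ := List.mem_map.1 ho'
          rw [hlenPA]
          exact (hgood.2.1 o ho).2.1) (by
          change ((parts.map (Ty.map (algebraMap K L) S10Mon.PA)).map _).sum ≤ d
          rw [List.map_map]
          refine le_trans (le_of_eq ?_) hsum
          congr 1
          exact List.map_congr_left fun o _ => hlenPA o) (by
          intro o' ho' G hG
          obtain ⟨o, ho, rfl⟩ := List.mem_map.1 ho'
          rw [(houts o ho).2.1] at hG
          obtain ⟨G', hG', rfl⟩ := List.mem_map.1 hG
          have := ((houts o ho).1.2.1 G' hG').1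
          change 1 ≤ List.length (List.map _ G')
          rw [List.length_map]
          exact this) (by
          intro o' ho'
          obtain ⟨o, ho, rfl⟩ := List.mem_map.1 ho'
          rw [(houts o ho).2.1, hlenPA]
          change ((List.map (Ty.map (algebraMap K L) Ma) (outs o)).map List.length).sum = _
          rw [List.map_map, ← S10Mon.recGood_sum o.2.1 (outs o) (houts o ho).1]
          congr 1
          refine List.map_congr_left fun G _ => ?_
          exact List.length_map _)
      have hP : 1 ≤ PL e q d := S10Mon.PL_pos e q d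
      have hW : (d + 1) ^ 2 ≤ ww (d + 1) := by
        rw [sq]; exact hww _
      have hs1 : ((Ty.map (algebraMap K L) (.list S10Mon.PA) parts : List (Ty.D L S10Mon.PA)).map
          (fun o => 520 * (List.length o.2.1 + 1) ^ 2 + prec.cost () () (S10Mon.recIn (xL x) o))).sum
          ≤ (520 + C2) * PL e q d ^ k2 * (C3 * ww (d + 1)) := by
        change ((parts.map (Ty.map (algebraMap K L) S10Mon.PA)).map _).sum ≤ _
        rw [List.map_map]
        refine le_trans (S10Mon.sum_map_le _ _ (fun o => ((520 + C2) * PL e q d ^ k2) *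
          ww (2 * o.2.1.length)) ?_) ?_
        · intro o ho
          simp only [Function.comp_apply]
          rw [hlenPA]
          have b1 := (houts o ho).2.2
          have b2 : PL e q o.2.1.length ^ k2 ≤ PL e q d ^ k2 :=
            Nat.pow_le_pow_left (S10Mon.PL_mono e q (hnle o ho)) _
          have b3 : ww (o.2.1.length + 1) ≤ ww (2 * o.2.1.length) :=
            hwm _ _ (by have := (hgood.2.1 o ho).2.1; omega)
          have b4 : (o.2.1.length + 1) ^ 2 ≤ ww (2 * o.2.1.length) := by
            rw [sq]; exact (hww _).trans b3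
          have b5 : 1 ≤ PL e q d ^ k2 := Nat.one_le_pow _ _ hP
          calc 520 * (o.2.1.length + 1) ^ 2 + prec.cost () ()
                (S10Mon.recIn (xL x) (Ty.map (algebraMap K L) S10Mon.PA o))
              ≤ 520 * ww (2 * o.2.1.length) * PL e q d ^ k2 +
                C2 * PL e q d ^ k2 * ww (2 * o.2.1.length) := by
                refine add_le_add ?_ (b1.trans ?_)
                · exact (Nat.mul_le_mul_left _ b4).trans (Nat.le_mul_of_pos_right _ b5)
                · exact Nat.mul_le_mul (Nat.mul_le_mul_left _ b2) b3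
            _ = (520 + C2) * PL e q d ^ k2 * ww (2 * o.2.1.length) := by ring
        · rw [S10Mon.sum_map_mul]
          refine Nat.mul_le_mul_left _ ?_
          refine (S10Mon.sum_ww hwa parts (fun o => 2 * o.2.1.length)).trans ?_
          refine le_trans (hwm _ _ ?_) (hC3 d)
          rw [S10Mon.sum_map_mul parts (fun o => o.2.1.length)]
          omega
      have hs2 : psq.cost () () ((xL x).1, ((xL x).2.1, (xL x).2.2.1)) ≤
          C1 * PL e q d ^ k1 * ww (d + 1) := by
        refine le_trans (le_of_eq ?_) hcost
        exact hcostL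
      have hk1 : PL e q d ^ k1 ≤ PL e q d ^ (k1 + k2) := Nat.pow_le_pow_right hP (by omega)
      have hk2 : PL e q d ^ k2 ≤ PL e q d ^ (k1 + k2) := Nat.pow_le_pow_right hP (by omega)
      have hk3 : 1 ≤ PL e q d ^ (k1 + k2) := Nat.one_le_pow _ _ hP
      refine hc.trans ?_
      calc _ ≤ C1 * PL e q d ^ k1 * ww (d + 1) + (520 + C2) * PL e q d ^ k2 * (C3 * ww (d + 1)) +
            200 * ww (d + 1) := add_le_add (add_le_add hs2 hs1) (Nat.mul_le_mul_left _ hW)
        _ ≤ C1 * PL e q d ^ (k1 + k2) * ww (d + 1) +
            (520 + C2) * PL e q d ^ (k1 + k2) * (C3 * ww (d + 1)) +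
            200 * ww (d + 1) * PL e q d ^ (k1 + k2) := by
              refine add_le_add (add_le_add ?_ ?_) ?_
              · exact Nat.mul_le_mul_right _ (Nat.mul_le_mul_left _ hk1)
              · exact Nat.mul_le_mul_right _ (Nat.mul_le_mul_left _ hk2)
              · exact Nat.le_mul_of_pos_right _ hk3
        _ = _ := by ring
  have hunion := S10Mon.card_union parts (fun x => ¬ ∃ out : List (List (List K) × List Unit),
      MonFac A out ∧
      ((S10Mon.monP psq prec).val () (xL x) : List (List (List L) × List Unit)) =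
        Ty.map (algebraMap K L) (.list (.prod Ma Un)) out ∧
      (S10Mon.monP psq prec).cost () () (xL x) ≤
        (C1 + (520 + C2) * C3 + 200) * PL e q d ^ (k1 + k2) * ww (d + 1))
    (fun o x => ¬ Good o x) (fun o => o.2.1.length) (q ^ e) 7
    ((Fintype.card L) ^ ((2 * d + 2) * (d + 1))) (by
      intro x hx
      by_contra hcon
      push Not at hcon
      exact hx (hmain x hcon)) hbad
  refine hunion.trans ?_
  exact Nat.mul_le_mul_right _ (Nat.mul_le_mul_left _ hsum)

end Pool.Agent.H330FB.JS10
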