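import Pool.Agent.H330FB.Lib5
import Pool.Agent.H330FB.Spec3b
set_option autoImplicit false
noncomputable section
namespace Pool.Agent.H330FB.JS11
open Polynomial
namespace S11

section prog
variable {F : Type} [Field F] [DecidableEq F]
variable {s : List (Ty × Ty)} {a b c d e g σ τ : Ty}

/-! ### powers -/

/-- one step of the binary power -/
def pwB : Pr s (.prod .unit (.prod (.prod .fld .fld) .fld)) (.prod .fld .fld) :=
  .pair (onZ (.comp .snd .snd) (.comp (.comp .snd .fst) .fst) (.comp (.comp .snd .fst) .mul))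
    (ap2 .mul (.comp (.comp .snd .fst) .snd) (.comp (.comp .snd .fst) .snd))

/-- binary power -/
def pwP : Pr s (.prod (.list .fld) .fld) .fld :=
  .comp (ap3 (foldP pwB) .star (.pair .one .snd) .fst) .fst

/-- binary power as a function -/
def pw (l : List F) (z : F) : F :=
  (List.foldl (fun (y : F × F) z => (if z = 0 then y.1 else y.1 * y.2, y.2 * y.2)) (1, z) l).1

theorem pw_fold (n : ℕ) (y z : F) :
    (List.foldl (fun (y : F × F) z => (if z = 0 then y.1 else y.1 * y.2, y.2 * y.2)) (y, z)
      (bits F n)).1 = y * z ^ n := by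
  induction n using Nat.binaryRec' generalizing y z with
  | zero => simp [bits]
  | bit b n hb ih =>
    have e : bits F (Nat.bit b n) = (if b then (1 : F) else 0) :: bits F n := by
      unfold bits
      rw [Nat.bits_append_bit n b hb]; rfl
    rw [e, List.foldl_cons, ih]
    cases b with
    | true =>
      simp only [Nat.bit_val, if_true, one_ne_zero, if_false, Bool.toNat_true]
      ring
    | false =>
      simp only [Nat.bit_val, Bool.false_eq_true, if_false, if_true, Bool.toNat_false]
      ring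

theorem pw_bits (n : ℕ) (z : F) : pw (bits F n) z = z ^ n := by
  unfold pw
  rw [pw_fold, one_mul]

@[simp] theorem val_pwP (v : SV F s) (x : Ty.D F (.prod (.list .fld) .fld)) :
    (pwP : Pr s (.prod (.list .fld) .fld) .fld).val v x = pw x.1 x.2 := by
  simp only [pwP, val_comp, val_pair, val_foldP, pwB, val_fst, val_snd, val_onZ, val_star,
    val_one, val_mul]
  rfl

theorem cost_pwP (v : SV F s) (k : SC F s) (x : Ty.D F (.prod (.list .fld) .fld)) :
    (pwP : Pr s (.prod (.list .fld) .fld) .fld).cost v k x ≤ 80 * List.length x.1 + 30 := by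
  have h := cost_foldP_le (s := s) pwB v k ((), (((1 : F), x.2), x.1)) 40 (fun _ => True) trivial
    (fun _ _ _ _ => trivial) (fun y z _ _ => by
      by_cases hz : (z : F) = 0 <;> simp [pwB, hz])
  simp [pwP] at h ⊢
  omega

/-- power with exponent `q ^ e` -/
def frP : Pr s (.prod (.prod (.list .fld) (.list .unit)) .fld) .fld :=
  ap3 (foldP (ap2 pwP .fst (.comp .snd .fst))) (.comp .fst .fst) .snd (.comp .fst .snd)

/-- the function computed by `frP` -/
def fr (x : List F × List Unit) (z : F) : F := List.foldl (fun y _ => pw x.1 y) z x.2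

theorem fr_bits (q e : ℕ) (z : F) : fr (bits F q, un e) z = z ^ (q ^ e) := by
  unfold fr un
  simp only
  induction e generalizing z with
  | zero => simp
  | succ e ih =>
    rw [List.replicate_succ, List.foldl_cons, ih, pw_bits, ← pow_mul, pow_succ']

@[simp] theorem val_frP (v : SV F s) (x : Ty.D F (.prod (.prod (.list .fld) (.list .unit)) .fld)) :
    (frP : Pr s (.prod (.prod (.list .fld) (.list .unit)) .fld) .fld).val v x = fr x.1 x.2 := by
  simp only [frP, val_comp, val_pair, val_foldP, val_fst, val_snd, val_pwP]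
  rfl

theorem cost_frP (v : SV F s) (k : SC F s)
    (x : Ty.D F (.prod (.prod (.list .fld) (.list .unit)) .fld)) :
    (frP : Pr s (.prod (.prod (.list .fld) (.list .unit)) .fld) .fld).cost v k x
      ≤ 100 * (List.length x.1.1 + 1) * (List.length x.1.2 + 1) := by
  obtain ⟨⟨l, e⟩, z⟩ := x
  have h := cost_foldP_le (s := s) (ap2 pwP .fst (.comp .snd .fst)) v k (l, (z, e))
    (80 * l.length + 40) (fun _ => True) trivial
    (fun _ _ _ _ => trivial) (fun y z _ _ => by
      have := cost_pwP (s := s) v k (l, y)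
      simp at this ⊢
      omega)
  simp [frP] at h ⊢
  nlinarith

/-- the trace -/
def trP : Pr s (.prod (.prod (.list .fld) (.list .unit)) .fld) .fld := ap2 .add .snd frP

/-- the function computed by `trP` -/
def tr (x : List F × List Unit) (z : F) : F := z + fr x z

theorem tr_bits (q e : ℕ) (z : F) : tr (bits F q, un e) z = z + z ^ (q ^ e) := by
  unfold tr
  rw [fr_bits]

@[simp] theorem val_trP (v : SV F s) (x : Ty.D F (.prod (.prod (.list .fld) (.list .unit)) .fld)) :
    (trP : Pr s (.prod (.prod (.list .fld) (.list .unit)) .fld) .fld).val v x = tr x.1 x.2 := by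
  simp only [trP, val_comp, val_pair, val_frP, val_snd, val_add]
  rfl

theorem cost_trP (v : SV F s) (k : SC F s)
    (x : Ty.D F (.prod (.prod (.list .fld) (.list .unit)) .fld)) :
    (trP : Pr s (.prod (.prod (.list .fld) (.list .unit)) .fld) .fld).cost v k x
      ≤ 100 * (List.length x.1.1 + 1) * (List.length x.1.2 + 1) + 3 := by
  have h := cost_frP v k x
  simp [trP] at h ⊢
  omega

omit [DecidableEq F] in
theorem length_bits (n : ℕ) : (bits F n).length ≤ lgc n := by
  unfold bits lgc
  rw [List.length_map, Nat.size_eq_bits_len, Nat.size_le]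
  calc n ≤ 2 ^ Nat.clog 2 n := Nat.le_pow_clog (by norm_num) n
    _ < 2 ^ (Nat.clog 2 n + 1) := Nat.pow_lt_pow_right (by norm_num) (by omega)

theorem one_le_lgc (n : ℕ) : 1 ≤ lgc n := by unfold lgc; omega

/-! ### heads and unary numbers -/

/-- head of a row, zero if there is none -/
def hdP : Pr s (.list .fld) .fld := onL .id .zero (.comp .snd .fst)

@[simp] theorem val_hdP (v : SV F s) (x : Ty.D F (.list .fld)) :
    (hdP : Pr s (.list .fld) .fld).val v x = List.getD x 0 0 := by
  cases x <;> simp [hdP]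

theorem cost_hdP (v : SV F s) (k : SC F s) (x : Ty.D F (.list .fld)) :
    (hdP : Pr s (.list .fld) .fld).cost v k x ≤ 8 := by
  cases x <;> simp [hdP]

/-- tail -/
def tlP : Pr s (.list a) (.list a) := onL .id .nil (.comp .snd .snd)

@[simp] theorem val_tlP (v : SV F s) (x : Ty.D F (.list a)) :
    (tlP : Pr s (.list a) (.list a)).val v x = List.tail x := by
  cases x <;> simp [tlP]

theorem cost_tlP (v : SV F s) (k : SC F s) (x : Ty.D F (.list a)) :
    (tlP : Pr s (.list a) (.list a)).cost v k x ≤ 8 := by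
  cases x <;> simp [tlP]

theorem unit_list (l : List Unit) : l = un l.length := by
  unfold un
  exact List.eq_replicate_of_mem (fun _ _ => rfl)

@[simp] theorem length_un (n : ℕ) : (un n).length = n := by simp [un]

/-- the number `n` in unary -/
def cn : ℕ → Pr s a (.list .unit)
  | 0 => .nil
  | n + 1 => ap2 .cons .star (cn n)

@[simp] theorem val_cn (n : ℕ) (v : SV F s) (x : Ty.D F a) :
    (cn n : Pr s a (.list .unit)).val v x = un n := by
  induction n with
  | zero => rfl
  | succ n ih => simp only [cn, val_comp, val_pair, ih, val_star, val_cons]; rfl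

@[simp] theorem cost_cn (n : ℕ) (v : SV F s) (k : SC F s) (x : Ty.D F a) :
    (cn n : Pr s a (.list .unit)).cost v k x = 3 * n + 1 := by
  induction n with
  | zero => rfl
  | succ n ih => simp only [cn, cost_comp, cost_pair, ih, cost_star, cost_cons]; omega

/-- length minus one in unary -/
def unD : Pr s (.list a) (.list .unit) :=
  ap2 (mapP (c := .unit) .star) .star tlP

@[simp] theorem val_unD (v : SV F s) (x : Ty.D F (.list a)) :
    (unD : Pr s (.list a) (.list .unit)).val v x = un (List.length x - 1) := by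
  simp only [unD, val_comp, val_pair, val_mapP, val_star, val_tlP]
  rw [unit_list (List.map _ _)]
  simp

theorem cost_unD (v : SV F s) (k : SC F s) (x : Ty.D F (.list a)) :
    (unD : Pr s (.list a) (.list .unit)).cost v k x ≤ 14 * List.length x + 30 := by
  have h := cost_mapP_le (s := s) (c := .unit) (a := a) (b := .unit) .star v k ((), List.tail x) 1
    (fun _ _ => by simp)
  have h2 := cost_tlP (s := s) v k x
  simp [unD] at h h2 ⊢
  omega

/-- number of rows of the random matrix for the univariate factorization -/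
def w3P : Pr s (.list .unit) (.list .unit) :=
  ap2 appP lgP (ap2 appP lgP (ap2 appP lgP (cn 13)))

@[simp] theorem val_w3P (v : SV F s) (x : Ty.D F (.list .unit)) :
    (w3P : Pr s (.list .unit) (.list .unit)).val v x = un (3 * lgc (List.length x) + 10) := by
  rw [unit_list ((w3P : Pr s (.list .unit) (.list .unit)).val v x)]
  congr 1
  have h := val_lgP (s := s) v x
  simp [w3P, lgc] at h ⊢
  omega

theorem clog_le (n : ℕ) : Nat.clog 2 n ≤ n := by
  rcases Nat.eq_zero_or_pos n with h | h
  · subst h; simp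
  · exact (Nat.clog_le_of_le_pow (Nat.lt_two_pow_self).le)

theorem cost_w3P (v : SV F s) (k : SC F s) (x : Ty.D F (.list .unit)) :
    (w3P : Pr s (.list .unit) (.list .unit)).cost v k x ≤ 500 * List.length x + 500 := by
  have h := val_lgP (s := s) v x
  have hc := cost_lgP (s := s) v k x
  have hl := clog_le (List.length x)
  have a1 := fun m => cost_appP (s := s) (a := .unit) v k ((lgP : Pr s (.list .unit) _).val v x, m)
  simp only [h] at a1
  have b1 := a1 (un 13)
  have b2 := a1 ((lgP : Pr s (.list .unit) _).val v x ++ un 13 : List Unit)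
  have b3 := a1 ((lgP : Pr s (.list .unit) _).val v x ++
    ((lgP : Pr s (.list .unit) _).val v x ++ un 13 : List Unit) : List Unit)
  simp only [w3P, cost_comp, cost_pair, val_comp, val_pair, val_appP, val_cn, cost_cn]
  omega

/-- number of places -/
def n4P : Pr s (.list .unit) (.list .unit) :=
  ap2 appP .id (ap2 appP .id (cn 2))

@[simp] theorem val_n4P (v : SV F s) (x : Ty.D F (.list .unit)) :
    (n4P : Pr s (.list .unit) (.list .unit)).val v x = un (2 * List.length x + 2) := by
  rw [unit_list ((n4P : Pr s (.list .unit) (.list .unit)).val v x)]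
  congr 1
  simp [n4P]
  omega

theorem cost_n4P (v : SV F s) (k : SC F s) (x : Ty.D F (.list .unit)) :
    (n4P : Pr s (.list .unit) (.list .unit)).cost v k x ≤ 40 * List.length x + 30 := by
  have a1 := fun m => cost_appP (s := s) (a := .unit) v k (x, m)
  have b1 := a1 (un 2)
  have b2 := a1 (x ++ un 2 : List Unit)
  simp only [n4P, cost_comp, cost_pair, cost_id, val_comp, val_pair, val_appP, val_cn, val_id,
    cost_cn] at b1 b2 ⊢
  omega

end prog

section prog2
variable {F : Type} [Field F] [DecidableEq F]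
variable {s : List (Ty × Ty)} {a b c d e g σ τ : Ty}

/-! ### splitting of the random list -/

/-- number of random elements used for the rows `g` etc. -/
def spP : Pr s (.prod (.list .unit) (.list a))
    (.prod (.list a) (.prod (.list a) (.prod (.list (.list a)) (.prod (.list a)
      (.list (.list a)))))) :=
  lt (ap2 splitP (cn (a := .prod (.list .unit) (.list a)) 7) .snd)
  (lt (ap2 splitP (cn 2) (.comp .snd .snd))
  (lt (ap3 chunksP (.comp (.comp (.comp .fst .fst) .fst) w3P) (.comp (.comp .fst .fst) .fst)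
      (.comp .snd .snd))
  (lt (ap2 splitP (.comp .snd flatP) (.comp (.comp .fst .snd) .snd))
  (lt (ap2 splitP (.comp (.comp (.comp (.comp (.comp .fst .fst) .fst) .fst) .fst) n4P)
      (.comp .snd .snd))
  (.pair (.comp (.comp (.comp (.comp (.comp .fst .fst) .fst) .fst) .snd) .fst)
  (.pair (.comp (.comp (.comp (.comp .fst .fst) .fst) .snd) .fst)
  (.pair (.comp (.comp .fst .fst) .snd)
  (.pair (.comp .snd .fst)
    (ap3 chunksP (.comp (.comp (.comp (.comp (.comp (.comp .fst .fst) .fst) .fst) .fst) .fst) n4P)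
      (.comp (.comp (.comp (.comp (.comp .fst .fst) .fst) .fst) .fst) .fst)
      (.comp .snd .snd)))))))))) 

theorem val_spP (v : SV F s) (x : Ty.D F (.prod (.list .unit) (.list a))) :
    (spP : Pr s (.prod (.list .unit) (.list a)) _).val v x =
      (let d := List.length x.1
       let r1 := List.drop 7 x.2
       let r2 := List.drop 2 r1
       let R3 := chunks d (3 * lgc d + 10) r2
       let r3 := List.drop R3.flatten.length r2
       let r4 := List.drop (2 * d + 2) r3
       (List.take 7 x.2, (List.take 2 r1, (R3, (List.take (2 * d + 2) r3,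
        chunks d (2 * d + 2) r4))))) := by
  simp [spP]

theorem length_chunks_mem {α : Type} (n k : ℕ) (l : List α) :
    ∀ r ∈ chunks n k l, r.length ≤ n := by
  induction k generalizing l with
  | zero => simp [chunks]
  | succ k ih =>
    intro r hr
    simp only [chunks, List.mem_cons] at hr
    rcases hr with rfl | hr
    · simp
    · exact ih _ r hr

theorem length_chunks {α : Type} (n k : ℕ) (l : List α) : (chunks n k l).length = k := by
  induction k generalizing l with
  | zero => simp [chunks]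
  | succ k ih => simp [chunks, ih]

theorem length_flatten_le {α : Type} (n : ℕ) (l : List (List α)) (h : ∀ r ∈ l, r.length ≤ n) :
    l.flatten.length ≤ n * l.length := by
  induction l with
  | nil => simp
  | cons r l ih =>
    have h1 := ih (fun r hr => h r (by simp [hr]))
    have h2 := h r (by simp)
    simp only [List.flatten_cons, List.length_append, List.length_cons]
    nlinarith

theorem cost_spP (v : SV F s) (k : SC F s) (x : Ty.D F (.prod (.list .unit) (.list a))) (d W : ℕ)
    (hd : List.length x.1 = d) (hW : W = 3 * lgc d + 10) :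
    (spP : Pr s (.prod (.list .unit) (.list a)) _).cost v k x ≤
      (100 * d + 200) * W + (100 * d + 200) * (2 * d + 2) + 1000 * d + 1500 := by
  obtain ⟨u, l⟩ := x
  simp only at hd
  subst hd hW
  have c1 := cost_splitP (s := s) (b := .unit) (a := a) v k (un 7, l)
  have c2 := cost_splitP (s := s) (b := .unit) (a := a) v k (un 2, List.drop 7 l)
  have c3 := cost_w3P (s := s) v k u
  have c4 := cost_chunksP (s := s) (b := .unit) (c := .unit) (a := a) v k
    (un (3 * lgc (List.length u) + 10), (u, List.drop 2 (List.drop 7 l)))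
  set R3 := chunks (List.length u) (3 * lgc (List.length u) + 10)
    (List.drop 2 (List.drop 7 l)) with hR3
  have hR : ∀ r ∈ R3, r.length ≤ List.length u := length_chunks_mem _ _ _
  have hR' : R3.length = 3 * lgc (List.length u) + 10 := length_chunks _ _ _
  have hR'' := length_flatten_le _ R3 hR
  have c5 := cost_flatP (s := s) (a := a) v k R3 _ hR
  have c6 := cost_splitP (s := s) (b := a) (a := a) v k
    (R3.flatten, List.drop 2 (List.drop 7 l))
  have c7 := cost_n4P (s := s) v k u
  have c8 := cost_splitP (s := s) (b := .unit) (a := a) v k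
    (un (2 * List.length u + 2), List.drop R3.flatten.length (List.drop 2 (List.drop 7 l)))
  have c9 := cost_chunksP (s := s) (b := .unit) (c := .unit) (a := a) v k
    (un (2 * List.length u + 2), (u, List.drop (2 * List.length u + 2)
      (List.drop R3.flatten.length (List.drop 2 (List.drop 7 l)))))
  simp only [length_un] at c1 c2 c3 c4 c5 c6 c7 c8 c9 hR' hR''
  rw [hR'] at c5 hR''
  simp only [spP, cost_lt, cost_comp, cost_pair, cost_fst, cost_snd, cost_cn, val_comp, val_pair,
    val_fst, val_snd, val_cn, val_splitP, val_w3P, val_chunksP, val_flatP, val_n4P, length_un,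
    ← hR3]
  nlinarith

/-! ### traces -/

/-- traces of a row -/
def trR : Pr s (.prod (.prod (.list .fld) (.list .unit)) (.list .fld)) (.list .fld) := mapP trP

/-- traces of the entries of a matrix -/
def trM : Pr s (.prod (.prod (.list .fld) (.list .unit)) (.list (.list .fld)))
    (.list (.list .fld)) := mapP (mapP trP)

@[simp] theorem val_trR (v : SV F s)
    (x : Ty.D F (.prod (.prod (.list .fld) (.list .unit)) (.list .fld))) :
    (trR : Pr s (.prod (.prod (.list .fld) (.list .unit)) (.list .fld)) (.list .fld)).val v x =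
      (List.map (tr x.1) x.2 : List F) := by
  simp only [trR, val_mapP, val_trP]

@[simp] theorem val_trM (v : SV F s)
    (x : Ty.D F (.prod (.prod (.list .fld) (.list .unit)) (.list (.list .fld)))) :
    (trM : Pr s (.prod (.prod (.list .fld) (.list .unit)) (.list (.list .fld)))
      (.list (.list .fld))).val v x = (List.map (List.map (tr x.1)) x.2 : List (List F)) := by
  simp only [trM, val_mapP, val_trP]

theorem cost_trR (v : SV F s) (k : SC F s)
    (x : Ty.D F (.prod (.prod (.list .fld) (.list .unit)) (.list .fld))) (T : ℕ)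
    (hT : 100 * (List.length x.1.1 + 1) * (List.length x.1.2 + 1) + 16 ≤ T) :
    (trR : Pr s (.prod (.prod (.list .fld) (.list .unit)) (.list .fld)) (.list .fld)).cost v k x ≤
      T * List.length x.2 + 5 := by
  have h := cost_mapP_le (s := s) trP v k x (T - 13) (fun y _ => by
    have := cost_trP (s := s) v k (x.1, y)
    simp only at this ⊢
    omega)
  have e : T - 13 + 13 = T := by omega
  rw [e] at h
  exact h

theorem cost_trM (v : SV F s) (k : SC F s)
    (x : Ty.D F (.prod (.prod (.list .fld) (.list .unit)) (.list (.list .fld)))) (T n : ℕ)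
    (hT : 100 * (List.length x.1.1 + 1) * (List.length x.1.2 + 1) + 16 ≤ T)
    (hn : ∀ r ∈ x.2, List.length r ≤ n) :
    (trM : Pr s (.prod (.prod (.list .fld) (.list .unit)) (.list (.list .fld)))
      (.list (.list .fld))).cost v k x ≤ (T * n + 18) * List.length x.2 + 5 := by
  refine cost_mapP_le (s := s) (mapP trP) v k x (T * n + 5) (fun y hy => ?_)
  have h1 := cost_trR (s := s) v k (x.1, y) T hT
  have h2 := hn y hy
  have h3 : T * List.length y ≤ T * n := Nat.mul_le_mul_left _ h2
  simp only [trR] at h1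
  omega

/-- first part of the program: the random elements -/
def prP : Pr s (.prod (.prod Po Un) (.prod Ma Po))
    (.prod Po (.prod .fld (.prod .fld (.prod Ma (.prod Po Ma))))) :=
  lt (ap2 spP (.comp (.comp .snd .fst) unD) (.comp .snd .snd))
  (lt (ap2 trR (.comp .fst .fst) (.comp (.comp .snd .snd) .fst))
  (.pair (ap2 trR (.comp (.comp .fst .fst) .fst) (.comp (.comp .fst .snd) .fst))
  (.pair (.comp .snd hdP)
  (.pair (.comp (.comp .snd tlP) hdP)
  (.pair (ap2 trM (.comp (.comp .fst .fst) .fst)
    (.comp (.comp (.comp (.comp .fst .snd) .snd) .snd) .fst))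
    (.comp (.comp (.comp (.comp .fst .snd) .snd) .snd) .snd))))))

theorem val_prP (v : SV F s) (x : Ty.D F (.prod (.prod Po Un) (.prod Ma Po))) :
    (prP : Pr s (.prod (.prod Po Un) (.prod Ma Po)) _).val v x =
      (let d := List.length x.2.1 - 1
       let r1 := List.drop 7 x.2.2
       let r2 := List.drop 2 r1
       let R3 := chunks d (3 * lgc d + 10) r2
       let r3 := List.drop R3.flatten.length r2
       let r4 := List.drop (2 * d + 2) r3
       (List.map (tr x.1) (List.take 7 x.2.2),
        (List.getD (List.map (tr x.1) (List.take 2 r1)) 0 0,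
         (List.getD (List.map (tr x.1) (List.take 2 r1)).tail 0 0,
          (List.map (List.map (tr x.1)) R3, (List.take (2 * d + 2) r3,
           chunks d (2 * d + 2) r4)))))) := by
  simp only [prP, val_lt, val_comp, val_pair, val_spP, val_fst, val_snd, val_unD, val_trR,
    val_hdP, val_tlP, val_trM, length_un]

theorem cost_prP (v : SV F s) (k : SC F s) (x : Ty.D F (.prod (.prod Po Un) (.prod Ma Po)))
    (d T : ℕ) (hd : List.length x.2.1 = d + 1)
    (hT : 100 * (List.length x.1.1 + 1) * (List.length x.1.2 + 1) + 16 ≤ T) :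
    (prP : Pr s (.prod (.prod Po Un) (.prod Ma Po)) _).cost v k x ≤
      (100 * d + 200 + T * d + 18) * (3 * lgc d + 10) + (100 * d + 200) * (2 * d + 2) +
        1100 * d + 9 * T + 2000 := by
  obtain ⟨⟨qb, e⟩, H, rnd⟩ := x
  simp only at hd hT
  have e1 : List.length H - 1 = d := by omega
  have c1 := cost_spP (s := s) (a := .fld) v k (un d, rnd) d (3 * lgc d + 10) (length_un d) rfl
  have c2 := cost_unD (s := s) (a := .list .fld) v k H
  have c3 := cost_trR (s := s) v k ((qb, e), List.take 2 (List.drop 7 rnd)) T hT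
  have c4 := cost_trR (s := s) v k ((qb, e), List.take 7 rnd) T hT
  have c5 := cost_hdP (s := s) v k
    (List.map (tr (qb, e)) (List.take 2 (List.drop 7 rnd)) : List F)
  have c6 := cost_hdP (s := s) v k
    (List.map (tr (qb, e)) (List.take 2 (List.drop 7 rnd)) : List F).tail
  have c7 := cost_tlP (s := s) (a := .fld) v k
    (List.map (tr (qb, e)) (List.take 2 (List.drop 7 rnd)) : List F)
  have c8 := cost_trM (s := s) v k
    ((qb, e), chunks d (3 * lgc d + 10) (List.drop 2 (List.drop 7 rnd))) T d hT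
    (length_chunks_mem _ _ _)
  simp only [length_chunks] at c8
  have l1 : (List.take 2 (List.drop 7 rnd)).length ≤ 2 := List.length_take_le _ _
  have l2 : (List.take 7 rnd).length ≤ 7 := List.length_take_le _ _
  have l3 : T * (List.take 2 (List.drop 7 rnd)).length ≤ T * 2 := Nat.mul_le_mul_left _ l1
  have l4 : T * (List.take 7 rnd).length ≤ T * 7 := Nat.mul_le_mul_left _ l2
  rw [hd] at c2
  simp only at c3 c4
  simp only [prP, cost_lt, cost_comp, cost_pair, cost_fst, cost_snd, val_comp, val_pair,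
    val_fst, val_snd, val_unD, val_spP, val_trR, val_tlP, e1, length_un]
  nlinarith

/-! ### scaling and normalization -/

/-- multiplication of a row by a scalar -/
def sclR : Pr s (.prod .fld (.list .fld)) (.list .fld) := mapP (c := .fld) .mul

/-- multiplication of a matrix by a scalar -/
def sclM : Pr s (.prod .fld (.list (.list .fld))) (.list (.list .fld)) := mapP (c := .fld) sclR

@[simp] theorem val_sclR (v : SV F s) (x : Ty.D F (.prod .fld (.list .fld))) :
    (sclR : Pr s (.prod .fld (.list .fld)) (.list .fld)).val v x =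
      (List.map (fun y : F => x.1 * y) x.2 : List F) := by
  simp only [sclR, val_mapP, val_mul]

@[simp] theorem val_sclM (v : SV F s) (x : Ty.D F (.prod .fld (.list (.list .fld)))) :
    (sclM : Pr s (.prod .fld (.list (.list .fld))) (.list (.list .fld))).val v x =
      (List.map (List.map (fun y : F => x.1 * y)) x.2 : List (List F)) := by
  simp only [sclM, val_mapP, val_sclR]

theorem cost_sclR (v : SV F s) (k : SC F s) (x : Ty.D F (.prod .fld (.list .fld))) :
    (sclR : Pr s (.prod .fld (.list .fld)) (.list .fld)).cost v k x ≤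
      14 * List.length x.2 + 5 :=
  cost_mapP_le (s := s) (c := .fld) .mul v k x 1 (fun _ _ => by simp)

theorem cost_sclM (v : SV F s) (k : SC F s) (x : Ty.D F (.prod .fld (.list (.list .fld)))) (n : ℕ)
    (hn : ∀ r ∈ x.2, List.length r ≤ n) :
    (sclM : Pr s (.prod .fld (.list (.list .fld))) (.list (.list .fld))).cost v k x ≤
      (14 * n + 18) * List.length x.2 + 5 := by
  refine cost_mapP_le (s := s) (c := .fld) sclR v k x (14 * n + 5) (fun y hy => ?_)
  have h1 := cost_sclR (s := s) v k (x.1, y)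
  have h2 := hn y hy
  simp only at h1
  omega

/-- removes the last row and divides by its first entry -/
def norA : Pr s Ma Ma :=
  onL revP .nil (ap2 sclM (.comp (.comp (.comp .snd .fst) hdP) .inv) (.comp (.comp .snd .snd) revP))

theorem val_norA (v : SV F s) (A : List (List F)) (r : List F) :
    (norA : Pr s Ma Ma).val v (A ++ [r] : List (List F)) =
      (A.map (List.map (fun y => (r.getD 0 0)⁻¹ * y)) : List (List F)) := by
  simp [norA]

theorem cost_norA (v : SV F s) (k : SC F s) (A : List (List F)) (r : List F) (n : ℕ)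
    (hn : ∀ r ∈ A, List.length r ≤ n) :
    (norA : Pr s Ma Ma).cost v k (A ++ [r] : List (List F)) ≤
      (14 * n + 100) * A.length + 150 := by
  have c1 := cost_revP (s := s) (a := .list .fld) v k (A ++ [r] : List (List F))
  have c2 := cost_revP (s := s) (a := .list .fld) v k (A.reverse : List (List F))
  have c3 := cost_hdP (s := s) v k r
  have c4 := cost_sclM (s := s) v k ((r.getD 0 0)⁻¹, A) n hn
  simp only [List.length_append, List.length_reverse, List.length_singleton] at c1 c2 c4
  simp only [norA, cost_onL, cost_comp, cost_pair, cost_fst, cost_snd, cost_inv, val_comp,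
    val_pair, val_fst, val_snd, val_revP, val_hdP, val_inv, List.reverse_append,
    List.reverse_cons, List.reverse_nil, List.nil_append, List.singleton_append, lcase_cons,
    List.reverse_reverse]
  nlinarith

/-- first column -/
def hd0P : Pr s Ma Po := ap2 (mapP (c := .unit) (.comp .snd hdP)) .star .id

@[simp] theorem val_hd0P (v : SV F s) (x : Ty.D F Ma) :
    (hd0P : Pr s Ma Po).val v x = hd0 (x : List (List F)) := by
  simp only [hd0P, val_comp, val_pair, val_mapP, val_star, val_id, val_snd, val_hdP, hd0]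

theorem cost_hd0P (v : SV F s) (k : SC F s) (x : Ty.D F Ma) :
    (hd0P : Pr s Ma Po).cost v k x ≤ 22 * List.length x + 8 := by
  have h := cost_mapP_le (s := s) (c := .unit) (a := .list .fld) (b := .fld) (.comp .snd hdP)
    v k ((), x) 9 (fun y _ => by
      have := cost_hdP (s := s) v k y
      simp only [cost_comp, cost_snd, val_snd]
      omega)
  simp only [hd0P, cost_comp, cost_pair, cost_star, cost_id, val_pair, val_star, val_id] at h ⊢
  omega

/-- adds the row `[1, 0, ..., 0]` -/
def extP : Pr s Ma Ma :=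
  ap2 appP .id (ap2 .cons (ap2 .cons .one (ap2 (mapP (c := .unit) .zero) .star .id)) .nil)

/-- adds the row `[1, 0, ..., 0]` -/
def ext (G : List (List F)) : List (List F) := G ++ [1 :: List.replicate G.length 0]

@[simp] theorem val_extP (v : SV F s) (x : Ty.D F Ma) :
    (extP : Pr s Ma Ma).val v x = (ext (x : List (List F)) : List (List F)) := by
  have e : List.map (fun _ : Ty.D F (.list .fld) => (0 : F)) x = List.replicate (List.length x) 0 := by
    induction x with
    | nil => rfl
    | cons h t ih => simp [List.replicate_succ]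
  simp only [extP, ext, val_comp, val_pair, val_appP, val_cons, val_one, val_mapP, val_star,
    val_id, val_nil, val_zero, e]

theorem cost_extP (v : SV F s) (k : SC F s) (x : Ty.D F Ma) :
    (extP : Pr s Ma Ma).cost v k x ≤ 34 * List.length x + 30 := by
  have h := cost_mapP_le (s := s) (c := .unit) (a := .list .fld) (b := .fld) .zero
    v k ((), x) 1 (fun y _ => by simp)
  have h2 := cost_appP (s := s) (a := .list .fld) v k
    (x, (ap2 .cons (ap2 .cons .one (ap2 (mapP (c := .unit) .zero) .star .id)) .nil :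
      Pr s Ma Ma).val v x)
  simp only [val_pair, val_star, val_id, val_comp, val_cons, val_one, val_mapP, val_nil,
    val_zero] at h h2
  simp only [extP, cost_comp, cost_pair, cost_star, cost_id, val_pair, val_star, val_id,
    cost_one, cost_cons, cost_nil, val_comp, val_cons, val_one, val_mapP, val_nil, val_zero]
  omega

/-- first entry which is not zero -/
def fnzP : Pr s (.list .fld) .fld :=
  ap3 (foldP (c := .unit) (b := .fld) (onZ (.comp .snd .fst) (.comp .snd .snd) (.comp .snd .fst)))
    .star .zero .id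

/-- first entry which is not zero -/
def fnz (l : List F) : F := List.foldl (fun y z => if y = 0 then z else y) 0 l

@[simp] theorem val_fnzP (v : SV F s) (x : Ty.D F (.list .fld)) :
    (fnzP : Pr s (.list .fld) .fld).val v x = fnz (x : List F) := by
  simp only [fnzP, val_comp, val_pair, val_foldP, val_star, val_zero, val_id, val_onZ, val_snd,
    val_fst]
  rfl

theorem cost_fnzP (v : SV F s) (k : SC F s) (x : Ty.D F (.list .fld)) :
    (fnzP : Pr s (.list .fld) .fld).cost v k x ≤ 40 * List.length x + 20 := by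
  have h := cost_foldP_le (s := s) (c := .unit) (b := .fld) (a := .fld)
    (onZ (.comp .snd .fst) (.comp .snd .snd) (.comp .snd .fst)) v k ((), ((0 : F), x)) 13
    (fun _ => True) trivial (fun _ _ _ _ => trivial) (fun y z _ _ => by
      by_cases hy : (y : F) = 0 <;> simp [hy])
  simp only at h
  simp only [fnzP, cost_comp, cost_pair, cost_star, cost_zero, cost_id, val_pair, val_star,
    val_zero, val_id]
  omega

theorem fnz_fold (l : List F) (y : F) (hy : y ≠ 0) :
    List.foldl (fun y z => if y = 0 then z else y) y l = y := by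
  induction l with
  | nil => rfl
  | cons h t ih => simp only [List.foldl_cons, hy, if_false, ih]

theorem fnz_spec (l : List F) (h : ∃ j, l.getD j 0 ≠ 0) :
    ∃ i, l.getD i 0 = fnz l ∧ fnz l ≠ 0 ∧ ∀ j < i, l.getD j 0 = 0 := by
  induction l with
  | nil => simp at h
  | cons x l ih =>
    by_cases hx : x = 0
    · obtain ⟨j, hj⟩ := h
      have hj' : ∃ j, l.getD j 0 ≠ 0 := by
        cases j with
        | zero => simp [hx] at hj
        | succ j => exact ⟨j, by simpa using hj⟩
      obtain ⟨i, h1, h2, h3⟩ := ih hj'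
      have e : fnz (x :: l) = fnz l := by simp [fnz, hx]
      refine ⟨i + 1, by simpa [e] using h1, by rw [e]; exact h2, ?_⟩
      intro j hj
      cases j with
      | zero => simp [hx]
      | succ j => simpa using h3 j (by omega)
    · have e : fnz (x :: l) = x := by
        simp only [fnz, List.foldl_cons, if_true]
        exact fnz_fold l x hx
      exact ⟨0, by simp [e], by rw [e]; exact hx, by simp⟩

/-- normalization -/
def nrmP : Pr s Ma Ma :=
  onL revP .nil (ap2 sclM (.comp (.comp (.comp .snd .fst) fnzP) .inv) .fst)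

/-- normalization -/
def nrm (G : List (List F)) : List (List F) :=
  lcase G.reverse [] (fun r _ => G.map (List.map (fun y => (fnz r)⁻¹ * y)))

@[simp] theorem val_nrmP (v : SV F s) (x : Ty.D F Ma) :
    (nrmP : Pr s Ma Ma).val v x = (nrm (x : List (List F)) : List (List F)) := by
  simp only [nrmP, nrm, val_onL, val_revP, val_nil, val_comp, val_pair, val_sclM, val_fst,
    val_snd, val_fnzP, val_inv]

theorem cost_nrmP (v : SV F s) (k : SC F s) (x : Ty.D F Ma) (n : ℕ)
    (hn : ∀ r ∈ (x : List (List F)), List.length r ≤ n) :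
    (nrmP : Pr s Ma Ma).cost v k x ≤ (14 * n + 60) * List.length x + 40 * n + 100 := by
  have c1 := cost_revP (s := s) (a := .list .fld) v k x
  have c2 := fun y : F => cost_sclM (s := s) v k (y, x) n hn
  simp only at c2
  simp only [nrmP, cost_onL, cost_comp, cost_pair, cost_fst, cost_snd, cost_inv, val_comp,
    val_pair, val_fst, val_snd, val_revP, val_fnzP, val_inv, cost_nil]
  have hr : ∀ r ∈ List.reverse (x : List (List F)), List.length r ≤ n :=
    fun r hr => hn r (by simpa using hr)
  generalize List.reverse (x : List (List F)) = y at hr ⊢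
  cases y with
  | nil => simp only [lcase_nil]; nlinarith
  | cons r t =>
    have c3 := cost_fnzP (s := s) v k r
    have c4 := hr r (by simp)
    have c5 := c2 (fnz r)⁻¹
    simp only [lcase_cons]
    nlinarith
end prog2

section prog3
variable {F : Type} [Field F] [DecidableEq F]

/-- input type of the second part -/
abbrev TyB : Ty := .prod Po (.prod .fld (.prod .fld (.prod Ma (.prod (.prod Po Un) Ma))))

/-- second part: coordinates, table, univariate factorization -/
def PB (ptb : Pr [] Po TB) (pco : Pr [] (.prod .fld (.prod .fld Ma)) Ma)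
    (pun : Pr [] (.prod TB (.prod (.prod Po Un) (.prod Po Ma))) (.list (.prod Po Un))) :
    Pr [] TyB (.prod TB (.prod Ma (.list (.prod Po Un)))) :=
  lt (.comp .fst ptb)
  (lt (.comp (ap3 pco (.comp .fst (.comp .snd .fst)) (.comp .fst (.comp .snd (.comp .snd .fst)))
      (.comp .fst (.comp .snd (.comp .snd (.comp .snd (.comp .snd .snd)))))) norA)
  (.pair (.comp .fst .snd) (.pair .snd
    (ap2 pun (.comp .fst .snd)
      (.pair (.comp (.comp .fst .fst) (.comp .snd (.comp .snd (.comp .snd (.comp .snd .fst)))))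
      (.pair (.comp .snd hd0P)
        (.comp (.comp .fst .fst) (.comp .snd (.comp .snd (.comp .snd .fst))))))))))

theorem val_PB (ptb : Pr [] Po TB) (pco : Pr [] (.prod .fld (.prod .fld Ma)) Ma)
    (pun : Pr [] (.prod TB (.prod (.prod Po Un) (.prod Po Ma))) (.list (.prod Po Un)))
    (t7 : List F) (a b : F) (U : List (List F)) (qe : List F × List Unit) (H : List (List F)) :
    (PB ptb pco pun).val () (t7, (a, (b, (U, (qe, H))))) =
      (let tb := ptb.val () t7
       let A := (norA : Pr [] Ma Ma).val () (pco.val () (a, (b, H)))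
       (tb, (A, pun.val () (tb, (qe, (hd0 (A : List (List F)), U)))))) := by
  simp only [PB, val_lt, val_comp, val_pair, val_fst, val_snd, val_hd0P]

theorem cost_PB (ptb : Pr [] Po TB) (pco : Pr [] (.prod .fld (.prod .fld Ma)) Ma)
    (pun : Pr [] (.prod TB (.prod (.prod Po Un) (.prod Po Ma))) (.list (.prod Po Un)))
    (t7 : List F) (a b : F) (U : List (List F)) (qe : List F × List Unit) (H : List (List F)) :
    (PB ptb pco pun).cost () () (t7, (a, (b, (U, (qe, H))))) =
      (let tb := ptb.val () t7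
       let A0 := pco.val () (a, (b, H))
       let A := (norA : Pr [] Ma Ma).val () A0
       ptb.cost () () t7 + pco.cost () () (a, (b, H)) + (norA : Pr [] Ma Ma).cost () () A0 +
         (hd0P : Pr [] Ma Po).cost () () A +
         pun.cost () () (tb, (qe, (hd0 (A : List (List F)), U))) + 44) := by
  simp only [PB, val_comp, val_pair, val_fst, val_snd, val_hd0P, cost_lt, cost_comp,
    cost_pair, cost_fst, cost_snd]
  ring

/-- the back transformation of one factor -/
def PDf (pcb : Pr [] (.prod .fld (.prod .fld Ma)) Ma) :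
    Pr [] (.prod (.prod .fld .fld) (.prod Ma Un)) (.prod Ma Un) :=
  .pair (.comp (ap3 pcb (.comp .fst .fst) (.comp .fst .snd) (.comp (.comp .snd .fst) extP)) nrmP)
    (.comp .snd .snd)

/-- last part: back transformation -/
def PD (pcb : Pr [] (.prod .fld (.prod .fld Ma)) Ma) :
    Pr [] (.prod .fld (.prod .fld (.list (.prod Ma Un)))) (.list (.prod Ma Un)) :=
  ap2 (mapP (PDf pcb)) (.pair (.comp .fst .neg) (.comp (.comp .snd .fst) .neg)) (.comp .snd .snd)

theorem val_PD (pcb : Pr [] (.prod .fld (.prod .fld Ma)) Ma) (a b : F)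
    (out : List (List (List F) × List Unit)) :
    (PD pcb).val () (a, (b, out)) =
      List.map (fun o : List (List F) × List Unit =>
        ((nrm (pcb.val () (-a, (-b, ext o.1)) : List (List F)) : List (List F)), o.2)) out := by
  simp only [PD, PDf, val_comp, val_pair, val_mapP, val_fst, val_snd, val_neg, val_extP, val_nrmP]

theorem cost_PD (pcb : Pr [] (.prod .fld (.prod .fld Ma)) Ma) (a b : F)
    (out : List (List (List F) × List Unit)) (B : List (List F) × List Unit → ℕ)
    (hB : ∀ o ∈ out, (PDf pcb).cost () () ((-a, -b), o) + 13 ≤ B o) :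
    (PD pcb).cost () () (a, (b, out)) ≤ (out.map B).sum + 20 := by
  have h := cost_mapP (s := []) (PDf pcb) () () ((-a, -b), out)
  have h2 : (List.map (fun y : List (List F) × List Unit =>
      (PDf pcb).cost () () ((-a, -b), y) + 13) out).sum ≤ (out.map B).sum :=
    List.sum_le_sum hB
  have h3 := h.trans (Nat.add_le_add_right h2 5)
  simp only [PD, cost_comp, cost_pair, cost_fst, cost_snd, cost_neg, val_comp, val_pair, val_fst,
    val_snd, val_neg]
  omega

theorem cost_PDf (pcb : Pr [] (.prod .fld (.prod .fld Ma)) Ma) (a b : F)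
    (G : List (List F)) (c : List Unit) (m : ℕ) (hm : G.length = m)
    (h1 : List.length (pcb.val () (a, (b, ext G)) : List (List F)) = m + 1)
    (h2 : ∀ r ∈ (pcb.val () (a, (b, ext G)) : List (List F)), List.length r ≤ m + 1) :
    (PDf pcb).cost () () ((a, b), (G, c)) ≤
      pcb.cost () () (a, (b, ext G)) + 400 * (m + 1) * (m + 1) := by
  have c1 := cost_extP (s := []) () () G
  have c2 := cost_nrmP (s := []) () () (pcb.val () (a, (b, ext G))) (m + 1) h2
  rw [h1] at c2
  rw [hm] at c1
  simp only [PDf, cost_comp, cost_pair, cost_fst, cost_snd, val_comp, val_pair, val_fst,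
    val_snd, val_extP]
  nlinarith

/-- the program -/
def prog (pb : Pr [] TyB (.prod TB (.prod Ma (.list (.prod Po Un)))))
    (pmon : Pr [] (.prod TB (.prod (.prod Po Un) (.prod
      (.prod Ma (.list (.prod Po Un))) (.prod Po Ma)))) (.list (.prod Ma Un)))
    (pd : Pr [] (.prod .fld (.prod .fld (.list (.prod Ma Un)))) (.list (.prod Ma Un))) :
    Pr [] (.prod (.prod Po Un) (.prod Ma Po)) (.list (.prod Ma Un)) :=
  lt prP
  (lt (.comp (.pair (.comp .snd .fst) (.pair (.comp .snd (.comp .snd .fst))
      (.pair (.comp .snd (.comp .snd (.comp .snd .fst)))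
      (.pair (.comp .snd (.comp .snd (.comp .snd (.comp .snd .fst))))
      (.pair (.comp .fst .fst) (.comp .fst (.comp .snd .fst))))))) pb)
  (lt (ap2 pmon (.comp .snd .fst) (.pair (.comp .fst (.comp .fst .fst)) (.pair (.comp .snd .snd)
      (.comp .fst (.comp .snd (.comp .snd (.comp .snd (.comp .snd .snd))))))))
  (ap3 pd (.comp .fst (.comp .fst (.comp .snd (.comp .snd .fst))))
    (.comp .fst (.comp .fst (.comp .snd (.comp .snd (.comp .snd .fst))))) .snd)))

theorem val_prog (pb : Pr [] TyB (.prod TB (.prod Ma (.list (.prod Po Un)))))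
    (pmon : Pr [] (.prod TB (.prod (.prod Po Un) (.prod
      (.prod Ma (.list (.prod Po Un))) (.prod Po Ma)))) (.list (.prod Ma Un)))
    (pd : Pr [] (.prod .fld (.prod .fld (.list (.prod Ma Un)))) (.list (.prod Ma Un)))
    (qe : List F × List Unit) (H : List (List F)) (rnd : List F)
    (t7 : List F) (a b : F) (U : List (List F)) (pl : List F) (gs : List (List F))
    (hpr : (prP : Pr [] (.prod (.prod Po Un) (.prod Ma Po)) _).val () (qe, (H, rnd)) =
      (t7, (a, (b, (U, (pl, gs))))))
    (tb : List (List F) × List (List F)) (au : List (List F) × List (List F × List Unit))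
    (hpb : pb.val () (t7, (a, (b, (U, (qe, H))))) = (tb, au)) 
    (w : List (List (List F) × List Unit))
    (hw : pmon.val () (tb, (qe, (au, (pl, gs)))) = w) :
    (prog pb pmon pd).val () (qe, (H, rnd)) = pd.val () (a, (b, w)) := by
  simp only [prog, val_lt, val_comp, val_pair, val_fst, val_snd, hpr, hpb, hw]

theorem cost_prog (pb : Pr [] TyB (.prod TB (.prod Ma (.list (.prod Po Un)))))
    (pmon : Pr [] (.prod TB (.prod (.prod Po Un) (.prod
      (.prod Ma (.list (.prod Po Un))) (.prod Po Ma)))) (.list (.prod Ma Un)))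
    (pd : Pr [] (.prod .fld (.prod .fld (.list (.prod Ma Un)))) (.list (.prod Ma Un)))
    (qe : List F × List Unit) (H : List (List F)) (rnd : List F)
    (t7 : List F) (a b : F) (U : List (List F)) (pl : List F) (gs : List (List F))
    (hpr : (prP : Pr [] (.prod (.prod Po Un) (.prod Ma Po)) _).val () (qe, (H, rnd)) =
      (t7, (a, (b, (U, (pl, gs))))))
    (tb : List (List F) × List (List F)) (au : List (List F) × List (List F × List Unit))
    (hpb : pb.val () (t7, (a, (b, (U, (qe, H))))) = (tb, au)) 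
    (w : List (List (List F) × List Unit))
    (hw : pmon.val () (tb, (qe, (au, (pl, gs)))) = w) :
    (prog pb pmon pd).cost () () (qe, (H, rnd)) ≤
      (prP : Pr [] (.prod (.prod Po Un) (.prod Ma Po)) _).cost () () (qe, (H, rnd)) +
      pb.cost () () (t7, (a, (b, (U, (qe, H))))) + pmon.cost () () (tb, (qe, (au, (pl, gs)))) +
      pd.cost () () (a, (b, w)) + 100 := by
  simp only [prog, cost_lt, cost_comp, cost_pair, cost_fst, cost_snd, val_comp, val_pair,
    val_fst, val_snd, hpr, hpb, hw]
  omega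

end prog3
end S11

namespace S11

section alg
variable {K : Type} [Field K]

/-- the substitution `t = t x`; the total degree becomes the degree -/
noncomputable def ph : K[X][X] →+* K[X][X] :=
  eval₂RingHom (eval₂RingHom (C.comp C : K →+* K[X][X]) (C X * X)) X

theorem ph_mon (i j : ℕ) (a : K) :
    ph (monomial i (monomial j a)) = monomial (i + j) (monomial j a) := by
  rw [← C_mul_X_pow_eq_monomial, ← C_mul_X_pow_eq_monomial]
  simp only [ph, coe_eval₂RingHom, eval₂_C, eval₂_X, RingHom.comp_apply,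
    ← C_mul_X_pow_eq_monomial, map_mul, map_pow]
  ring

theorem coeff_ph (f : K[X][X]) (k j : ℕ) :
    ((ph f).coeff k).coeff j = if j ≤ k then (f.coeff (k - j)).coeff j else 0 := by
  induction f using Polynomial.induction_on' with
  | add p q hp hq =>
    rw [map_add, coeff_add, coeff_add, hp, hq]
    split_ifs <;> simp
  | monomial i p =>
    induction p using Polynomial.induction_on' with
    | add p q hp hq =>
      rw [map_add, map_add, coeff_add, coeff_add, hp, hq]
      split_ifs <;> simp
    | monomial j' a =>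
      rw [ph_mon, coeff_monomial, coeff_monomial]
      split_ifs <;> first
        | rfl
        | (simp only [coeff_monomial, coeff_zero]; split_ifs <;> first | rfl | omega)

theorem td_iff (f : K[X][X]) (n : ℕ) : TD f n ↔ (ph f).natDegree ≤ n := by
  rw [natDegree_le_iff_coeff_eq_zero]
  constructor
  · intro h k hk
    ext j
    rw [coeff_ph]
    split_ifs with hj
    · rw [h (k - j) j (by omega)]; simp
    · simp
  · intro h i j hij
    have h1 := h (i + j) hij
    have h2 := coeff_ph f (i + j) j
    rw [h1, coeff_zero, if_pos (by omega), Nat.add_sub_cancel] at h2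
    exact h2.symm

theorem td_mono {f : K[X][X]} {n m : ℕ} (h : TD f n) (hm : n ≤ m) : TD f m :=
  fun i j hij => h i j (by omega)

theorem td_mul {f g : K[X][X]} {n m : ℕ} (hf : TD f n) (hg : TD g m) : TD (f * g) (n + m) := by
  rw [td_iff] at *
  rw [map_mul]
  exact natDegree_mul_le_of_le hf hg

theorem td_pow {f : K[X][X]} {n : ℕ} (hf : TD f n) (k : ℕ) : TD (f ^ k) (k * n) := by
  rw [td_iff] at *
  rw [map_pow]
  exact natDegree_pow_le_of_le k hf

theorem td_sum {ι : Type} (s : Finset ι) (f : ι → K[X][X]) (n : ℕ) (h : ∀ i ∈ s, TD (f i) n) :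
    TD (∑ i ∈ s, f i) n := by
  rw [td_iff, map_sum]
  exact natDegree_sum_le_of_forall_le _ _ (fun i hi => (td_iff _ _).1 (h i hi))

theorem td_cc (u : K) : TD (C (C u) : K[X][X]) 0 := by
  rw [td_iff]
  simp [ph]

theorem td_x : TD (X : K[X][X]) 1 := by
  rw [td_iff]
  simp only [ph, coe_eval₂RingHom, eval₂_X]
  exact natDegree_X_le

theorem td_cx : TD (C X : K[X][X]) 1 := by
  rw [td_iff]
  simp only [ph, coe_eval₂RingHom, eval₂_X, eval₂_C]
  exact (natDegree_C_mul_le _ _).trans natDegree_X_le

theorem td_zero (n : ℕ) : TD (0 : K[X][X]) n := fun i j _ => by simp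

theorem td_add {f g : K[X][X]} {n : ℕ} (hf : TD f n) (hg : TD g n) : TD (f + g) n :=
  fun i j h => by rw [coeff_add, coeff_add, hf i j h, hg i j h, add_zero]

theorem td_smul {f : K[X][X]} {n : ℕ} (u : K) (hf : TD f n) : TD (C (C u) * f) n := by
  have := td_mul (td_cc u) hf
  rwa [zero_add] at this

theorem td_dvd {f g : K[X][X]} (hf : f.Monic) (hg : g.Monic) (h : f ∣ g)
    (ht : TD g g.natDegree) : TD f f.natDegree := by
  obtain ⟨e, rfl⟩ := h
  have he : e.Monic := hf.of_mul_monic_left hg
  rw [hf.natDegree_mul he, td_iff, map_mul] at ht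
  have aux : ∀ f : K[X][X], f.Monic → f.natDegree ≤ (ph f).natDegree ∧ ph f ≠ 0 := by
    intro f hf
    have h1 : ((ph f).coeff f.natDegree).coeff 0 = 1 := by
      rw [coeff_ph, if_pos (Nat.zero_le _), Nat.sub_zero, coeff_natDegree, hf.leadingCoeff]
      simp
    have h2 : (ph f).coeff f.natDegree ≠ 0 := by
      intro h; rw [h] at h1; simp at h1
    exact ⟨le_natDegree_of_ne_zero h2, fun h => h2 (by rw [h]; simp)⟩
  obtain ⟨a1, a2⟩ := aux f hf
  obtain ⟨b1, b2⟩ := aux e he
  rw [natDegree_mul a2 b2] at ht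
  rw [td_iff]
  omega

/-! ### coordinates -/

theorem sub_cc (a b c : K) : sub a b (C (C c)) = C (C c) := by simp [sub]
theorem sub_cx (a b : K) : sub a b (C X) = C (X + C b) + C (C a) * X := by simp [sub]
theorem sub_x (a b : K) : sub a b (X : K[X][X]) = X := by simp [sub]

theorem sub_sub (a b : K) (f : K[X][X]) : sub (-a) (-b) (sub a b f) = f := by
  have : (sub (-a) (-b)).comp (sub a b) = RingHom.id K[X][X] := by
    refine Polynomial.ringHom_ext' (Polynomial.ringHom_ext' ?_ ?_) ?_
    · ext c
      simp [sub_cc]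
    · simp only [RingHom.comp_apply, RingHom.id_apply, sub_cx, map_add, map_mul, sub_cc, sub_x]
      simp only [map_neg]
      ring
    · simp only [RingHom.comp_apply, RingHom.id_apply, sub_x]
  exact congrArg (fun φ : K[X][X] →+* K[X][X] => φ f) this

theorem sub_sub' (a b : K) (f : K[X][X]) : sub a b (sub (-a) (-b) f) = f := by
  have := sub_sub (-a) (-b) f
  rwa [neg_neg, neg_neg] at this

/-- coordinate change as an automorphism -/
noncomputable def subE (a b : K) : K[X][X] ≃+* K[X][X] :=
  RingEquiv.ofRingHom (sub a b) (sub (-a) (-b)) (RingHom.ext (sub_sub' a b))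
    (RingHom.ext (sub_sub a b))

theorem irr_sub (a b : K) (f : K[X][X]) (h : Irreducible f) : Irreducible (sub a b f) :=
  (MulEquiv.irreducible_iff (subE a b)).2 h

theorem td_subcx (a b : K) : TD (sub a b (C X)) 1 := by
  rw [sub_cx, map_add]
  exact td_add (td_add td_cx (td_mono (td_cc b) (by norm_num))) (td_smul a td_x)

theorem td_sub (a b : K) (f : K[X][X]) (n : ℕ) (h : TD f n) : TD (sub a b f) n := by
  rw [f.as_sum_range_C_mul_X_pow, map_sum]
  refine td_sum _ _ _ (fun i _ => ?_)
  rw [(f.coeff i).as_sum_range_C_mul_X_pow, map_sum, Finset.sum_mul, map_sum]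
  refine td_sum _ _ _ (fun j _ => ?_)
  by_cases hij : n < i + j
  · rw [h i j hij]
    simp only [map_zero, zero_mul]
    exact td_zero n
  · rw [map_mul, map_mul, map_mul, sub_cc, map_pow, map_pow, map_pow, sub_x]
    refine td_mono ?_ (show j * 1 + i * 1 ≤ n by omega)
    exact td_mul (td_smul _ (td_pow (td_subcx a b) j)) (td_pow td_x i)

/-! ### lists -/

theorem coeff_pol {R : Type} [CommRing R] (l : List R) (i : ℕ) : (pol l).coeff i = l.getD i 0 := by
  induction l generalizing i with
  | nil => simp [pol]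
  | cons x l ih =>
    cases i with
    | zero => simp [pol]
    | succ i => simp [pol, ih]

theorem coeff_biv (l : List (List K)) (i j : ℕ) :
    ((biv l).coeff i).coeff j = (l.getD i []).getD j 0 := by
  unfold biv
  rw [coeff_pol]
  have : (l.map pol).getD i 0 = pol (l.getD i []) := by
    by_cases h : i < l.length
    · simp [List.getD_eq_getElem?_getD, h]
    · simp [List.getD_eq_getElem?_getD, Nat.le_of_not_lt h, pol]
  rw [this, coeff_pol]

theorem degree_pol {R : Type} [CommRing R] (l : List R) : (pol l).degree < l.length := by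
  rw [degree_lt_iff_coeff_zero]
  intro m hm
  rw [coeff_pol]
  exact List.getD_eq_default _ _ hm

theorem mbiv_monic (l : List (List K)) : (mbiv l).Monic := by
  unfold mbiv biv
  refine monic_X_pow_add ?_
  have := degree_pol (l.map pol)
  rwa [List.length_map] at this

theorem mbiv_natDegree (l : List (List K)) : (mbiv l).natDegree = l.length := by
  unfold mbiv biv
  have h := degree_pol (l.map pol)
  rw [List.length_map] at h
  rw [natDegree_add_eq_left_of_degree_lt (by rwa [degree_X_pow]), natDegree_X_pow]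

theorem coeff_mbiv (l : List (List K)) (i j : ℕ) (hi : i < l.length) :
    ((mbiv l).coeff i).coeff j = (l.getD i []).getD j 0 := by
  unfold mbiv
  rw [coeff_add, coeff_X_pow, if_neg (by omega), zero_add, coeff_biv]

theorem pol_append {R : Type} [CommRing R] (l m : List R) :
    pol (l ++ m) = pol l + X ^ l.length * pol m := by
  induction l with
  | nil => simp [pol]
  | cons x l ih =>
    simp only [List.cons_append, pol, ih, List.length_cons]
    ring

theorem biv_append (A : List (List K)) (r : List K) :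
    biv (A ++ [r]) = biv A + X ^ A.length * C (pol r) := by
  unfold biv
  rw [List.map_append, pol_append]
  simp [pol]

theorem pol_replicate {R : Type} [CommRing R] (n : ℕ) : pol (List.replicate n (0 : R)) = 0 := by
  induction n with
  | zero => simp [pol]
  | succ n ih => simp [List.replicate_succ, pol, ih]

theorem biv_ext (G : List (List K)) (n : ℕ) :
    biv (G ++ [1 :: List.replicate n 0]) = mbiv G := by
  rw [biv_append, pol, pol_replicate]
  simp [mbiv, add_comm]

theorem getD_scl (u : K) (l : List K) (j : ℕ) :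
    (l.map (fun y => u * y)).getD j 0 = u * l.getD j 0 := by
  by_cases h : j < l.length
  · simp [List.getD_eq_getElem?_getD, h]
  · simp [List.getD_eq_getElem?_getD, Nat.le_of_not_lt h]

theorem getD_sclM (u : K) (l : List (List K)) (i j : ℕ) :
    ((l.map (List.map (fun y => u * y))).getD i []).getD j 0 = u * (l.getD i []).getD j 0 := by
  rw [← getD_scl]
  congr 1
  by_cases h : i < l.length
  · simp [List.getD_eq_getElem?_getD, h]
  · simp [List.getD_eq_getElem?_getD, Nat.le_of_not_lt h]

theorem biv_scl (u : K) (l : List (List K)) :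
    biv (l.map (List.map (fun y => u * y))) = C (C u) * biv l := by
  ext i j
  rw [coeff_biv, getD_sclM, coeff_C_mul, coeff_C_mul, coeff_biv]

theorem hom_scl (u : K) (l : List (List K)) :
    hom (l.map (List.map (fun y => u * y))) = C (C u) * hom l := by
  unfold hom
  rw [List.length_map, Finset.mul_sum]
  refine Finset.sum_congr rfl (fun k _ => ?_)
  rw [Finset.mul_sum]
  refine Finset.sum_congr rfl (fun j _ => ?_)
  rw [getD_sclM]
  simp only [map_mul, mul_assoc]

theorem td_hom (l : List (List K)) (n : ℕ)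
    (h : ∀ k < l.length, n < k → ∀ j, (l.getD k []).getD j 0 = 0) : TD (hom l) n := by
  unfold hom
  refine td_sum _ _ _ (fun k hk => td_sum _ _ _ (fun j hj => ?_))
  rw [Finset.mem_range] at hk hj
  by_cases hn : n < k
  · rw [h k hk hn j]
    simp only [map_zero, zero_mul]
    exact td_zero n
  · rw [map_mul, map_pow]
    refine td_mono ?_ (show j * 1 + (k - j) * 1 ≤ n by omega)
    exact td_mul (td_smul _ (td_pow td_cx j)) (td_pow td_x _)

end alg
end S11

namespace S11

/-! ### fractions -/

/-- fraction of the bad elements -/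
noncomputable def bad {X : Type} (P : X → Prop) : ℝ := (Nat.card {x // ¬ P x} : ℝ) / Nat.card X

theorem bad_nonneg {X : Type} (P : X → Prop) : 0 ≤ bad P := by unfold bad; positivity

theorem bad_prod {X Y : Type} [Finite X] [Finite Y] [Nonempty X] [Nonempty Y] (G : X → Prop)
    (P : X → Y → Prop) (c : ℝ) (hc : 0 ≤ c) (h : ∀ x, G x → bad (P x) ≤ c) :
    bad (fun z : X × Y => G z.1 ∧ P z.1 z.2) ≤ bad G + c := by
  classical
  have : Fintype X := Fintype.ofFinite X
  have : Fintype Y := Fintype.ofFinite Y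
  have hX : (0 : ℝ) < Nat.card X := by exact_mod_cast Nat.card_pos
  have hY : (0 : ℝ) < Nat.card Y := by exact_mod_cast Nat.card_pos
  have e1 : Nat.card {z : X × Y // ¬ (G z.1 ∧ P z.1 z.2)} =
      ∑ x : X, Nat.card {y : Y // ¬ (G x ∧ P x y)} := by
    rw [← Nat.card_sigma]
    exact Nat.card_congr (Equiv.subtypeProdEquivSigmaSubtype (fun x y => ¬ (G x ∧ P x y)))
  have e2 : ∀ x : X, (Nat.card {y : Y // ¬ (G x ∧ P x y)} : ℝ) ≤
      (if ¬ G x then (Nat.card Y : ℝ) else 0) + c * Nat.card Y := by
    intro x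
    by_cases hx : G x
    · have h1 := h x hx
      unfold bad at h1
      rw [div_le_iff₀ hY] at h1
      simp only [hx, true_and, not_true_eq_false, if_false, zero_add]
      exact h1
    · simp only [hx, false_and, not_false_eq_true, if_true]
      have h1 : (Nat.card {y : Y // True} : ℝ) ≤ Nat.card Y := by
        exact_mod_cast Nat.card_le_card_of_injective (Subtype.val) Subtype.val_injective
      have h2 : 0 ≤ c * (Nat.card Y : ℝ) := by positivity
      linarith
  have e3 : (Nat.card {x // ¬ G x} : ℝ) * Nat.card Y =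
      ∑ x : X, (if ¬ G x then (Nat.card Y : ℝ) else 0) := by
    rw [Finset.sum_ite, Finset.sum_const_zero, add_zero, Finset.sum_const, nsmul_eq_mul,
      Nat.card_eq_fintype_card, Fintype.card_subtype]
  have e4 : (Nat.card {z : X × Y // ¬ (G z.1 ∧ P z.1 z.2)} : ℝ) ≤
      Nat.card {x // ¬ G x} * Nat.card Y + Nat.card X * (c * Nat.card Y) := by
    rw [e1, Nat.cast_sum, e3]
    refine (Finset.sum_le_sum (fun x _ => e2 x)).trans ?_
    rw [Finset.sum_add_distrib, Finset.sum_const, nsmul_eq_mul, Finset.card_univ,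
      Nat.card_eq_fintype_card (α := X)]
  unfold bad
  rw [Nat.card_prod, Nat.cast_mul, div_add' _ _ _ hX.ne', div_le_div_iff₀ (by positivity) hX]
  calc _ ≤ ((Nat.card {x // ¬ G x} : ℝ) * Nat.card Y + Nat.card X * (c * Nat.card Y)) *
        Nat.card X := mul_le_mul_of_nonneg_right e4 hX.le
    _ = _ := by ring

theorem bad_le_of_mul {X : Type} [Finite X] [Nonempty X] (P : X → Prop) (Q M : ℕ) (hQ : 0 < Q)
    (h : Nat.card {x // ¬ P x} * Q ≤ M * Nat.card X) : bad P ≤ (M : ℝ) / Q := by
  have hX : (0 : ℝ) < Nat.card X := by exact_mod_cast Nat.card_pos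
  have hQ' : (0 : ℝ) < Q := by exact_mod_cast hQ
  unfold bad
  rw [div_le_div_iff₀ hX hQ']
  exact_mod_cast h

/-- a map with fibres of equal size -/
def Unif {X Y : Type} (p : X → Y) : Prop :=
  ∃ (Z : Type) (_ : Finite Z) (_ : Nonempty Z) (e : X ≃ Y × Z), ∀ x, (e x).1 = p x

theorem bad_unif {X Y : Type} (p : X → Y) (h : Unif p) (P : Y → Prop) :
    bad (fun x => P (p x)) = bad P := by
  obtain ⟨Z, _, _, e, he⟩ := h
  have hZ : (Nat.card Z : ℝ) ≠ 0 := by exact_mod_cast Nat.card_pos.ne'
  have e1 : Nat.card {x // ¬ P (p x)} = Nat.card {y // ¬ P y} * Nat.card Z := by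
    rw [← Nat.card_prod]
    refine Nat.card_congr ((e.subtypeEquiv (q := fun z : Y × Z => ¬ P z.1) (fun x => ?_)).trans
      (Equiv.prodSubtypeFstEquivSubtypeProd (p := fun y => ¬ P y)))
    rw [he]
  have e2 : Nat.card X = Nat.card Y * Nat.card Z := by
    rw [← Nat.card_prod]
    exact Nat.card_congr e
  unfold bad
  rw [e1, e2, Nat.cast_mul, Nat.cast_mul, mul_div_mul_right _ _ hZ]

theorem unif_pi {X Y ι : Type} [Finite ι] (p : X → Y) (h : Unif p) :
    Unif (fun (f : ι → X) (i : ι) => p (f i)) := by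
  obtain ⟨Z, _, _, e, he⟩ := h
  refine ⟨ι → Z, inferInstance, inferInstance,
    (Equiv.arrowCongr (Equiv.refl ι) e).trans (Equiv.arrowProdEquivProdArrow _ _ _), ?_⟩
  intro f
  funext i
  exact he (f i)

theorem unif_linear {K L : Type} [Field K] [AddCommGroup L] [Module K L] [Finite L]
    (τ : L →ₗ[K] K) (h : Function.Surjective τ) : Unif (fun z => τ z) := by
  obtain ⟨σ, hσ⟩ := LinearMap.exists_rightInverse_of_surjective τ (LinearMap.range_eq_top.2 h)
  have hσ' : ∀ c, τ (σ c) = c := fun c => congrArg (fun f : K →ₗ[K] K => f c) hσ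
  refine ⟨LinearMap.ker τ, inferInstance, inferInstance,
    { toFun := fun z => (τ z, ⟨z - σ (τ z), by
        rw [LinearMap.mem_ker, map_sub, hσ', sub_self]⟩)
      invFun := fun y => σ y.1 + y.2
      left_inv := fun z => by simp
      right_inv := fun y => ?_ }, fun z => rfl⟩
  obtain ⟨c, k, hk⟩ := y
  rw [LinearMap.mem_ker] at hk
  simp [hσ', hk]

theorem card_eq_le {K : Type} [Finite K] (n : ℕ) (i j : Fin n) (hij : i ≠ j) :
    Nat.card {t : Fin n → K // t i = t j} * Nat.card K ≤ Nat.card (Fin n → K) := by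
  classical
  rw [← Nat.card_prod]
  refine Nat.card_le_card_of_injective (fun x => Function.update x.1.1 i x.2) ?_
  rintro ⟨⟨t, ht⟩, c⟩ ⟨⟨t', ht'⟩, c'⟩ h
  simp only at h
  have h1 : c = c' := by
    have := congrFun h i
    simpa using this
  have h2 : ∀ k, k ≠ i → t k = t' k := by
    intro k hk
    have := congrFun h k
    simpa [hk] using this
  have h3 : t = t' := by
    funext k
    by_cases hk : k = i
    · rw [hk, ht, ht']
      exact h2 j hij.symm
    · exact h2 k hk
  subst h1 h3
  rfl

theorem card_noninj {K : Type} [Finite K] (n : ℕ) :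
    Nat.card {t : Fin n → K // ¬ Function.Injective t} * Nat.card K ≤
      n ^ 2 * Nat.card (Fin n → K) := by
  classical
  have : Fintype K := Fintype.ofFinite K
  have h1 : (Finset.univ.filter (fun t : Fin n → K => ¬ Function.Injective t)) ⊆
      (Finset.univ : Finset (Fin n × Fin n)).biUnion (fun p =>
        if p.1 ≠ p.2 then Finset.univ.filter (fun t : Fin n → K => t p.1 = t p.2) else ∅) := by
    intro t ht
    rw [Finset.mem_filter] at ht
    have h2 := ht.2
    unfold Function.Injective at h2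
    push Not at h2
    obtain ⟨i, j, h3, h4⟩ := h2
    rw [Finset.mem_biUnion]
    exact ⟨(i, j), Finset.mem_univ _, by simp [h4, h3]⟩
  have h2 := (Finset.card_le_card h1).trans Finset.card_biUnion_le
  have h3 : ∀ p : Fin n × Fin n, (if p.1 ≠ p.2 then
      Finset.univ.filter (fun t : Fin n → K => t p.1 = t p.2) else ∅).card * Nat.card K ≤
        Nat.card (Fin n → K) := by
    intro p
    by_cases hp : p.1 ≠ p.2
    · rw [if_pos hp, ← Fintype.card_subtype, ← Nat.card_eq_fintype_card]
      exact card_eq_le n p.1 p.2 hp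
    · rw [if_neg hp]; simp
  rw [Nat.card_eq_fintype_card (α := {t : Fin n → K // ¬ Function.Injective t}),
    Fintype.card_subtype]
  refine (Nat.mul_le_mul_right _ h2).trans ?_
  rw [Finset.sum_mul]
  refine (Finset.sum_le_card_nsmul _ _ _ (fun p _ => h3 p)).trans ?_
  simp [sq]

/-! ### the random list -/

theorem split_add {α : Type} {m n : ℕ} (r : Fin (m + n) → α) :
    ∃ (x : Fin m → α) (y : Fin n → α), List.ofFn r = List.ofFn x ++ List.ofFn y :=
  ⟨_, _, List.ofFn_add⟩

theorem split_mul {F : Type} {m n : ℕ} (r : Fin (m * n) → F) :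
    ∃ x : Fin m → Fin n → F, List.ofFn r = (rows x).flatten :=
  ⟨_, List.ofFn_mul r⟩

theorem chunks_flatten {α : Type} (n : ℕ) (l : List (List α)) (m : List α)
    (h : ∀ r ∈ l, r.length = n) : chunks n l.length (l.flatten ++ m) = l := by
  induction l with
  | nil => simp [chunks]
  | cons r l ih =>
    have h1 := h r (by simp)
    have h2 := ih (fun r hr => h r (by simp [hr]))
    simp only [List.length_cons, chunks, List.flatten_cons, List.append_assoc]
    rw [List.take_left' h1, List.drop_left' h1, h2]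

theorem length_rows {F : Type} {m n : ℕ} (g : Fin m → Fin n → F) : (rows g).length = m := by
  simp [rows]

theorem sh_rows {F : Type} {m n : ℕ} (g : Fin m → Fin n → F) : ∀ r ∈ rows g, r.length = n := by
  intro r hr
  simp only [rows, List.mem_ofFn] at hr
  obtain ⟨i, rfl⟩ := hr
  simp

/-- the parts of the random list -/
abbrev Om (L : Type) (d : ℕ) : Type :=
  (((Fin 7 → L) × (Fin 2 → L)) × (Fin (3 * lgc d + 10) → Fin d → L)) ×
    ((Fin (2 * d + 2) → L) × (Fin (2 * d + 2) → Fin d → L))

/-- the random list -/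
def join {L : Type} {d : ℕ} (w : Om L d) : List L :=
  List.ofFn w.1.1.1 ++ (List.ofFn w.1.1.2 ++ ((rows w.1.2).flatten ++
    (List.ofFn w.2.1 ++ (rows w.2.2).flatten)))

theorem exists_join {L : Type} (d : ℕ) (r : Fin (Rn d) → L) : ∃ w : Om L d, List.ofFn r = join w := by
  have e : Rn d = 7 + (2 + ((3 * lgc d + 10) * d + ((2 * d + 2) + (2 * d + 2) * d))) := by
    unfold Rn; ring
  revert r
  rw [e]
  intro r
  obtain ⟨x1, r1, h1⟩ := split_add r
  obtain ⟨x2, r2, h2⟩ := split_add r1
  obtain ⟨r3, r4, h3⟩ := split_add r2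
  obtain ⟨x3, h3'⟩ := split_mul r3
  obtain ⟨x4, r5, h4⟩ := split_add r4
  obtain ⟨x5, h5⟩ := split_mul r5
  exact ⟨(((x1, x2), x3), (x4, x5)), by rw [h1, h2, h3, h3', h4, h5]; rfl⟩

theorem card_Om (L : Type) [Finite L] (d : ℕ) : Nat.card (Om L d) = Nat.card L ^ Rn d := by
  simp only [Om, Nat.card_prod, Nat.card_fun, Nat.card_eq_fintype_card (α := Fin _),
    Fintype.card_fin]
  rw [← pow_mul, ← pow_mul, ← pow_add, ← pow_add, ← pow_add, ← pow_add]
  congr 1
  unfold Rn; ring

theorem count_join {L : Type} [Finite L] (d : ℕ) (P : List L → Prop) (G : Om L d → Prop)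
    (h : ∀ w, G w → P (join w)) (hG : bad G ≤ 1 / 10) [Nonempty L] :
    10 * Nat.card {r : Fin (Rn d) → L // ¬ P (List.ofFn r)} ≤ Nat.card L ^ Rn d := by
  choose f hf using exists_join (L := L) d
  have h1 : Nat.card {r : Fin (Rn d) → L // ¬ P (List.ofFn r)} ≤ Nat.card {w // ¬ G w} := by
    refine Nat.card_le_card_of_injective (fun r => ⟨f r.1, fun hg => r.2 (by
      rw [hf]; exact h _ hg)⟩) ?_
    rintro ⟨r, hr⟩ ⟨r', hr'⟩ he
    have h2 : f r = f r' := congrArg Subtype.val he
    have h3 : List.ofFn r = List.ofFn r' := by rw [hf, hf, h2]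
    exact Subtype.ext (List.ofFn_injective h3)
  have hX : (0 : ℝ) < Nat.card (Om L d) := by exact_mod_cast Nat.card_pos
  unfold bad at hG
  rw [div_le_div_iff₀ hX (by norm_num), one_mul] at hG
  rw [card_Om] at hG
  have h3 : Nat.card {w // ¬ G w} * 10 ≤ Nat.card L ^ Rn d := by exact_mod_cast hG
  omega

end S11

namespace S11

section alg2
variable {K : Type} [Field K]

theorem getD_last {α : Type} (A : List α) (r z : α) (d : ℕ) (h : A.length = d) :
    (A ++ [r]).getD d z = r := by
  subst h
  simp [List.getD_eq_getElem?_getD]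

theorem pre_spec (A : List (List K)) (row : List K) (d : ℕ) (hlen : A.length = d)
    (htd : TD (biv (A ++ [row])) d) (hu : row.getD 0 0 ≠ 0) :
    biv (A ++ [row]) = C (C (row.getD 0 0)) *
      mbiv (A.map (List.map (fun y => (row.getD 0 0)⁻¹ * y))) := by
  have h1 : pol row = C (row.getD 0 0) := by
    ext j
    rw [coeff_pol, coeff_C]
    split_ifs with hj
    · rw [hj]
    · have := htd d j (by omega)
      rw [coeff_biv, getD_last _ _ _ _ hlen] at this
      exact this
  rw [biv_append, h1]
  unfold mbiv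
  rw [biv_scl, List.length_map, mul_add, ← mul_assoc (C (C (row.getD 0 0))), ← map_mul, ← map_mul,
    mul_inv_cancel₀ hu]
  simp only [map_one, one_mul]
  ring

theorem row_inj (l l' : List K) (h : l.length = l'.length) (h2 : ∀ j, l.getD j 0 = l'.getD j 0) :
    l = l' := by
  refine List.ext_getElem h (fun i h1 h3 => ?_)
  have := h2 i
  rwa [List.getD_eq_getElem _ _ h1, List.getD_eq_getElem _ _ h3] at this

theorem mbiv_inj (G G' : List (List K)) (hG : Sh (G.length + 1) G) (hG' : Sh (G'.length + 1) G')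
    (h : mbiv G = mbiv G') : G = G' := by
  have hl : G.length = G'.length := by
    rw [← mbiv_natDegree G, ← mbiv_natDegree G', h]
  refine List.ext_getElem hl (fun i h1 h3 => ?_)
  refine row_inj _ _ ?_ (fun j => ?_)
  · rw [hG _ (List.getElem_mem h1), hG' _ (List.getElem_mem h3), hl]
  · have e1 := coeff_mbiv G i j h1
    have e2 := coeff_mbiv G' i j h3
    rw [List.getD_eq_getElem _ _ h1] at e1
    rw [List.getD_eq_getElem _ _ h3] at e2
    rw [← e1, ← e2, h]

theorem irr_scl (v : K) (hv : v ≠ 0) (f : K[X][X]) (h : Irreducible f) :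
    Irreducible (C (C v) * f) := by
  have hu : IsUnit (C (C v) : K[X][X]) := (IsUnit.mk0 v hv).map (C.comp C : K →+* K[X][X])
  exact (irreducible_isUnit_mul hu).2 h

variable [DecidableEq K]

theorem back_spec (a b : K) (G r : List (List K)) (m : ℕ) (hm : G.length = m) (h1 : 1 ≤ m)
    (hirr : Irreducible (mbiv G)) (hr : IsHom m r) (hh : hom r = sub (-a) (-b) (mbiv G)) :
    ∃ v : K, v ≠ 0 ∧ hom (nrm r) = C (C v) * sub (-a) (-b) (mbiv G) ∧ IsHom m (nrm r) ∧
      (∃ i, ((nrm r).getD m []).getD i 0 = 1 ∧ ∀ j < i, ((nrm r).getD m []).getD j 0 = 0) ∧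
      Irreducible (hom (nrm r)) := by
  obtain ⟨hl, hrow⟩ := hr
  rcases List.eq_nil_or_concat r with rfl | ⟨r', last, rfl⟩
  · simp at hl
  rw [List.concat_eq_append] at *
  have hl' : r'.length = m := by simpa using hl
  have hlast : (r' ++ [last]).getD m [] = last := getD_last _ _ _ _ hl'
  have hne : ∃ j, last.getD j 0 ≠ 0 := by
    by_contra hcon
    push Not at hcon
    have t1 : TD (hom (r' ++ [last])) (m - 1) := by
      refine td_hom _ _ (fun k hk hk2 j => ?_)
      have : k = m := by simp at hk; omega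
      rw [this, hlast]
      exact hcon j
    have t2 := td_sub a b _ _ t1
    rw [hh, sub_sub'] at t2
    have t3 := t2 m 0 (by omega)
    have t4 := (mbiv_monic G).leadingCoeff
    rw [leadingCoeff, mbiv_natDegree, hm] at t4
    rw [t4] at t3
    simp at t3
  obtain ⟨i, hi1, hi2, hi3⟩ := fnz_spec last hne
  have hn : nrm (r' ++ [last]) =
      (r' ++ [last]).map (List.map (fun y => (fnz last)⁻¹ * y)) := by
    unfold nrm
    simp only [List.reverse_append, List.reverse_cons, List.reverse_nil, List.nil_append,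
      List.singleton_append, lcase_cons]
  refine ⟨(fnz last)⁻¹, inv_ne_zero hi2, ?_, ?_, ⟨i, ?_, ?_⟩, ?_⟩
  · rw [hn, hom_scl, hh]
  · rw [hn]
    refine ⟨by rw [List.length_map, hl], fun k hk => ?_⟩
    have e : ((r' ++ [last]).map (List.map (fun y => (fnz last)⁻¹ * y))).getD k [] =
        ((r' ++ [last]).getD k []).map (fun y => (fnz last)⁻¹ * y) := by
      have hk' : k < (r' ++ [last]).length := by omega
      rw [List.getD_eq_getElem _ _ hk', List.getD_eq_getElem _ _ (by simpa using hk'),
        List.getElem_map]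
    rw [e, List.length_map]
    exact hrow k hk
  · rw [hn, getD_sclM, hlast, hi1, inv_mul_cancel₀ hi2]
  · intro j hj
    rw [hn, getD_sclM, hlast, hi3 j hj, mul_zero]
  · rw [hn, hom_scl, hh]
    exact irr_scl _ (inv_ne_zero hi2) _ (irr_sub _ _ _ hirr)

omit [DecidableEq K] in
theorem prod_scl {α : Type} (out : List α) (f g : α → K[X][X]) (v : α → K) (c : α → ℕ)
    (h : ∀ o ∈ out, v o ≠ 0 ∧ f o = C (C (v o)) * g o) :
    ∃ w : K, w ≠ 0 ∧ (out.map (fun o => g o ^ c o)).prod =
      C (C w) * (out.map (fun o => f o ^ c o)).prod := by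
  induction out with
  | nil => exact ⟨1, one_ne_zero, by simp⟩
  | cons o out ih =>
    obtain ⟨w, hw, e⟩ := ih (fun o ho => h o (by simp [ho]))
    obtain ⟨hv, ho⟩ := h o (by simp)
    refine ⟨w * ((v o)⁻¹) ^ c o, mul_ne_zero hw (pow_ne_zero _ (inv_ne_zero hv)), ?_⟩
    rw [List.map_cons, List.map_cons, List.prod_cons, List.prod_cons, e, ho]
    have h1 : (C (C (v o)⁻¹) : K[X][X]) * C (C (v o)) = 1 := by
      rw [← map_mul, ← map_mul, inv_mul_cancel₀ hv]; simp
    have h2 : g o ^ c o = (C (C (v o)⁻¹) : K[X][X]) ^ c o * (C (C (v o)) * g o) ^ c o := by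
      rw [← mul_pow, ← mul_assoc, h1, one_mul]
    rw [h2]
    simp only [map_mul, map_pow]
    ring

/-- correctness of the last part -/
theorem fac_good (a b u : K) (hu : u ≠ 0) (f : K[X][X]) (A : List (List K)) (d : ℕ)
    (hA : A.length = d) (htd : TD (mbiv A) d) (hf : sub a b f = C (C u) * mbiv A)
    (out : List (List (List K) × List Unit)) (hout : MonFac A out)
    (R : List (List K) → List (List K))
    (hR : ∀ G : List (List K), Sh (G.length + 1) G → TD (mbiv G) G.length →
      IsHom G.length (R G) ∧ hom (R G) = sub (-a) (-b) (mbiv G)) :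
    FacGood f (out.map (fun o => (nrm (R o.1), o.2))) := by
  obtain ⟨hprod, hall, hnd⟩ := hout
  have htdG : ∀ o ∈ out, TD (mbiv o.1) o.1.length := by
    intro o ho
    have hd : mbiv o.1 ∣ mbiv A := by
      rw [← hprod]
      refine (dvd_pow_self _ ?_).trans (List.dvd_prod (List.mem_map_of_mem ho))
      have := (hall o ho).2.2.2
      omega
    have := td_dvd (mbiv_monic o.1) (mbiv_monic A) hd (by rw [mbiv_natDegree, hA]; exact htd)
    rwa [mbiv_natDegree] at this
  have hback : ∀ o : List (List K) × List Unit, ∃ v : K, o ∈ out → v ≠ 0 ∧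
      hom (nrm (R o.1)) = C (C v) * sub (-a) (-b) (mbiv o.1) ∧
      IsHom o.1.length (nrm (R o.1)) ∧
      (∃ i, ((nrm (R o.1)).getD o.1.length []).getD i 0 = 1 ∧
        ∀ j < i, ((nrm (R o.1)).getD o.1.length []).getD j 0 = 0) ∧
      Irreducible (hom (nrm (R o.1))) := by
    intro o
    by_cases ho : o ∈ out
    · obtain ⟨h1, h2, h3, h4⟩ := hall o ho
      obtain ⟨h5, h6⟩ := hR o.1 h2 (htdG o ho)
      obtain ⟨v, hv⟩ := back_spec a b o.1 (R o.1) o.1.length rfl h1 h3 h5 h6
      exact ⟨v, fun _ => hv⟩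
    · exact ⟨0, fun h => absurd h ho⟩
  choose v hv using hback
  refine ⟨?_, ?_, ?_⟩
  · obtain ⟨w, hw, e⟩ := prod_scl out (fun o => hom (nrm (R o.1)))
      (fun o => sub (-a) (-b) (mbiv o.1)) v (fun o => o.2.length)
      (fun o ho => ⟨(hv o ho).1, (hv o ho).2.1⟩)
    refine ⟨u * w, mul_ne_zero hu hw, ?_⟩
    have h1 : f = sub (-a) (-b) (C (C u) * mbiv A) := by rw [← hf, sub_sub]
    rw [h1, map_mul, sub_cc, ← hprod, map_list_prod, List.map_map, List.map_map]
    have h2 : (List.map ((sub (-a) (-b)) ∘ fun o : List (List K) × List Unit =>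
        mbiv o.1 ^ o.2.length) out).prod =
        (List.map (fun o => sub (-a) (-b) (mbiv o.1) ^ o.2.length) out).prod := by
      congr 1
      refine List.map_congr_left (fun o _ => ?_)
      simp only [Function.comp_apply, map_pow]
    rw [h2, e]
    simp only [map_mul, mul_assoc]
    rfl
  · intro o' ho'
    rw [List.mem_map] at ho'
    obtain ⟨o, ho, rfl⟩ := ho'
    obtain ⟨h1, h2, h3, h4⟩ := hall o ho
    obtain ⟨_, _, g3, ⟨i, g4, g5⟩, g6⟩ := hv o ho
    exact ⟨o.1.length, i, h1, g3, g4, g5, g6, h4⟩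
  · have e : List.map Prod.fst (List.map (fun o : List (List K) × List Unit =>
        (nrm (R o.1), o.2)) out) = List.map (fun G => nrm (R G)) (out.map Prod.fst) := by
      rw [List.map_map, List.map_map]; rfl
    rw [e]
    refine List.Nodup.map_on ?_ hnd
    intro G hG G' hG' he
    rw [List.mem_map] at hG hG'
    obtain ⟨o, ho, rfl⟩ := hG
    obtain ⟨o', ho', rfl⟩ := hG'
    obtain ⟨n1, n2, _⟩ := hv o ho
    obtain ⟨n1', n2', _⟩ := hv o' ho'
    have e1 : (C (C (v o)) : K[X][X]) * mbiv o.1 = C (C (v o')) * mbiv o'.1 := by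
      have := congrArg (sub a b) (n2.symm.trans ((congrArg hom he).trans n2'))
      rwa [map_mul, map_mul, sub_cc, sub_cc, sub_sub', sub_sub'] at this
    have e2 := congrArg leadingCoeff e1
    rw [leadingCoeff_mul, leadingCoeff_mul, (mbiv_monic _).leadingCoeff,
      (mbiv_monic _).leadingCoeff, mul_one, mul_one, leadingCoeff_C, leadingCoeff_C] at e2
    rw [e2] at e1
    have hne : (C (C (v o')) : K[X][X]) ≠ 0 := by
      rw [Ne, C_eq_zero, C_eq_zero]; exact n1'
    exact mbiv_inj _ _ (hall o ho).2.1 (hall o' ho').2.1 (mul_left_cancel₀ hne e1)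

end alg2
end S11

namespace S11

theorem map_bits {K L : Type} [Field K] [Field L] (φ : K →+* L) (n : ℕ) :
    Ty.map φ Po (bits K n) = bits L n := by
  simp only [Po, Ty.map, bits, List.map_map]
  refine List.map_congr_left (fun b _ => ?_)
  cases b <;> simp

theorem map_un {K L : Type} (φ : K → L) (n : ℕ) : Ty.map φ Un (un n) = un n := by
  simp only [Un, Ty.map, un]
  simp

/-- value of the first part on the random list -/
theorem val_prP_join {K L : Type} [Field K] [Field L] [DecidableEq L] (φ : K →+* L) (τ : L → K)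
    (q e d : ℕ) (hτ : ∀ z, φ (τ z) = z + z ^ (q ^ e)) (H : List (List L)) (hH : H.length = d + 1)
    (w : Om L d) :
    (prP : Pr [] (.prod (.prod Po Un) (.prod Ma Po)) _).val () ((bits L q, un e), (H, join w)) =
      (Ty.map φ Po (List.ofFn (fun i => τ (w.1.1.1 i))),
        (φ (τ (w.1.1.2 0)), (φ (τ (w.1.1.2 1)),
          (Ty.map φ Ma (rows (fun i j => τ (w.1.2 i j))),
            (List.ofFn w.2.1, rows w.2.2))))) := by
  obtain ⟨⟨⟨x1, x2⟩, x3⟩, ⟨x4, x5⟩⟩ := w
  have hd : List.length H - 1 = d := by omega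
  have htr : (tr (bits L q, un e) : L → L) = fun z => φ (τ z) := by
    funext z
    rw [tr_bits, hτ]
  have e1 : List.take 7 (join (((x1, x2), x3), (x4, x5))) = List.ofFn x1 :=
    List.take_left' (by simp)
  have e2 : List.drop 7 (join (((x1, x2), x3), (x4, x5))) =
      List.ofFn x2 ++ ((rows x3).flatten ++ (List.ofFn x4 ++ (rows x5).flatten)) :=
    List.drop_left' (by simp)
  have e3 : List.take 2 (List.ofFn x2 ++ ((rows x3).flatten ++
      (List.ofFn x4 ++ (rows x5).flatten))) = List.ofFn x2 := List.take_left' (by simp)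
  have e4 : List.drop 2 (List.ofFn x2 ++ ((rows x3).flatten ++
      (List.ofFn x4 ++ (rows x5).flatten))) = (rows x3).flatten ++
      (List.ofFn x4 ++ (rows x5).flatten) := List.drop_left' (by simp)
  have e5 : chunks d (3 * lgc d + 10) ((rows x3).flatten ++
      (List.ofFn x4 ++ (rows x5).flatten)) = rows x3 := by
    have := chunks_flatten d (rows x3) (List.ofFn x4 ++ (rows x5).flatten) (sh_rows x3)
    rwa [length_rows] at this
  have e6 : List.drop (rows x3).flatten.length ((rows x3).flatten ++
      (List.ofFn x4 ++ (rows x5).flatten)) = List.ofFn x4 ++ (rows x5).flatten :=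
    List.drop_left
  have e7 : List.take (2 * d + 2) (List.ofFn x4 ++ (rows x5).flatten) = List.ofFn x4 :=
    List.take_left' (by simp)
  have e8 : List.drop (2 * d + 2) (List.ofFn x4 ++ (rows x5).flatten) = (rows x5).flatten :=
    List.drop_left' (by simp)
  have e9 : chunks d (2 * d + 2) (rows x5).flatten = rows x5 := by
    have := chunks_flatten d (rows x5) [] (sh_rows x5)
    rwa [length_rows, List.append_nil] at this
  rw [val_prP]
  simp only [hd, e1, e2, e3, e4, e5, e6, e7, e8, e9, htr]
  have f1 : List.map (fun z => φ (τ z)) (List.ofFn x1) =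
      Ty.map φ Po (List.ofFn (fun i => τ (x1 i))) := by
    simp only [Ty.map]
    rw [List.map_ofFn, List.map_ofFn]; rfl
  have f2 : List.map (List.map (fun z => φ (τ z))) (rows x3) =
      Ty.map φ Ma (rows (fun i j => τ (x3 i j))) := by
    simp only [Po, Ty.map, rows]
    rw [List.map_ofFn, List.map_ofFn]
    congr 1
    funext i
    simp only [Function.comp_apply]
    rw [List.map_ofFn, List.map_ofFn]; rfl
  have f3 : (List.map (fun z => φ (τ z)) (List.ofFn x2)).getD 0 0 = φ (τ (x2 0)) := by
    simp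
  have f4 : (List.map (fun z => φ (τ z)) (List.ofFn x2)).tail.getD 0 0 = φ (τ (x2 1)) := by
    simp [List.ofFn_succ]
  rw [f1, f2, f3, f4]

theorem trace_formula {K L : Type} [Field K] [Fintype K] [Field L] [Fintype L] [Algebra K L]
    (q e : ℕ) (h2 : Module.finrank K L = 2) (hc : Fintype.card K = q ^ e) (z : L) :
    algebraMap K L (Algebra.trace K L z) = z + z ^ (q ^ e) := by
  rw [FiniteField.algebraMap_trace_eq_sum_pow, h2, Nat.card_eq_fintype_card, hc]
  simp [Finset.sum_range_succ]

theorem unif_trace {K L : Type} [Field K] [Fintype K] [Field L] [Fintype L] [Algebra K L] :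
    Unif (fun z : L => Algebra.trace K L z) :=
  unif_linear (Algebra.trace K L) (Algebra.trace_surjective K L)

end S11

namespace S11

theorem ar1 (d : ℕ) : (14 * (d + 1) + 100) * d + 150 ≤ 300 * ((d + 1) * (d + 1)) := by nlinarith

theorem ar2 (x C w m : ℕ) (h1 : x ≤ C * w + 400 * (m + 1) * (m + 1))
    (h2 : (m + 1) * (m + 1) ≤ w) : x + 13 ≤ (C + 413) * w := by nlinarith

/-- specification of the program of `SpecCoF` -/
def CoFSpec (p : Pr [] (.prod .fld (.prod .fld Ma)) Ma) (C : ℕ) (K : Type) [Field K]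
    [DecidableEq K] : Prop :=
  ∀ (a b : K) (d : ℕ) (H : List (List K)), IsHom d H →
  let r : List (List K) := p.val () (a, (b, H))
  r.length = d + 1 ∧ Sh (d + 1) r ∧ biv r = sub a b (hom H) ∧
  p.cost () () (a, (b, H)) ≤ C * ww (d + 1)

/-- the polynomial in good coordinates -/
theorem A_spec {K : Type} [Field K] [DecidableEq K] (pco : Pr [] (.prod .fld (.prod .fld Ma)) Ma)
    (Cco : ℕ) (hco : CoFSpec pco Cco K) (a b : K) (d : ℕ) (H : List (List K)) (hH : IsHom d H)
    (hg : CoGood a b (hom H) d) (A0 A : List (List K)) (hA0 : A0 = pco.val () (a, (b, H)))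
    (hA : A = (norA : Pr [] Ma Ma).val () A0) :
    ∃ u : K, u ≠ 0 ∧ A.length = d ∧ Sh (d + 1) A ∧ TD (mbiv A) d ∧
      sub a b (hom H) = C (C u) * mbiv A ∧
      (∃ (T : K[X][X]) (N : ℕ), T.Monic ∧ T ∣ mbiv A ∧ mbiv A ∣ T ^ N ∧
        Squarefree (T.map (evalRingHom (0 : K)))) ∧
      (norA : Pr [] Ma Ma).cost () () A0 ≤ 300 * ((d + 1) * (d + 1)) := by
  obtain ⟨h1, h2, h3, -⟩ := hco a b d H hH
  rw [← hA0] at h1 h2 h3
  obtain ⟨hg1, T, N, hT1, hT2, hT3, hT4⟩ := hg
  rw [← h3, coeff_biv] at hg1
  have htd0 : TD (biv A0) d := by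
    rw [h3]
    refine td_sub a b _ d (td_hom _ _ (fun k hk hk2 => ?_))
    have := hH.1
    omega
  rcases List.eq_nil_or_concat A0 with e | ⟨A', row, e⟩
  · rw [e] at h1; simp at h1
  rw [List.concat_eq_append] at e
  clear hA0
  subst e
  have hl : A'.length = d := by simpa using h1
  rw [getD_last _ _ _ _ hl] at hg1
  rw [val_norA] at hA
  have hp := pre_spec A' row d hl htd0 hg1
  rw [← hA] at hp
  have hrow : ∀ r ∈ A', r.length = d + 1 := fun r hr => h2 r (by simp [hr])
  have hu : IsUnit (C (C (row.getD 0 0)) : K[X][X]) :=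
    (IsUnit.mk0 _ hg1).map (C.comp C : K →+* K[X][X])
  rw [h3] at hp
  refine ⟨row.getD 0 0, hg1, ?_, ?_, ?_, hp, ⟨T, N, hT1, ?_, ?_, hT4⟩, ?_⟩
  · rw [hA, List.length_map, hl]
  · rw [hA]
    intro r hr
    rw [List.mem_map] at hr
    obtain ⟨r', hr', rfl⟩ := hr
    rw [List.length_map]
    exact hrow r' hr'
  · have h4 : mbiv A = C (C (row.getD 0 0)⁻¹) * biv (A' ++ [row]) := by
      rw [h3, hp, ← mul_assoc, ← map_mul, ← map_mul, inv_mul_cancel₀ hg1]
      simp
    rw [h4]
    exact td_smul _ htd0
  · rw [hp] at hT2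
    exact (hu.dvd_mul_left).1 hT2
  · rw [hp] at hT3
    exact (hu.mul_left_dvd).1 hT3
  · have hc := cost_norA (s := []) () () A' row (d + 1) (fun r hr => (hrow r hr).le)
    rw [hl] at hc
    exact le_trans hc (ar1 d)

/-- specification of the program of `SpecCoB` -/
def CoBSpec (p : Pr [] (.prod .fld (.prod .fld Ma)) Ma) (C : ℕ) (K : Type) [Field K]
    [DecidableEq K] : Prop :=
  ∀ (a b : K) (m : ℕ) (G : List (List K)),
  G.length = m + 1 → Sh (m + 1) G → TD (biv G) m →
  let r : List (List K) := p.val () (a, (b, G))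
  IsHom m r ∧ hom r = sub a b (biv G) ∧
  p.cost () () (a, (b, G)) ≤ C * ww (m + 1)

theorem isHom_rows {K : Type} (m : ℕ) (r : List (List K)) (h : IsHom m r) :
    r.length = m + 1 ∧ ∀ x ∈ r, x.length ≤ m + 1 := by
  refine ⟨h.1, fun x hx => ?_⟩
  obtain ⟨i, hi, rfl⟩ := List.mem_iff_getElem.1 hx
  have h1 := h.1
  have h4 := h.2 i (by omega)
  rw [List.getD_eq_getElem _ _ hi] at h4
  omega

theorem ext_spec {K : Type} [Field K] [DecidableEq K] (G : List (List K)) (m : ℕ)
    (hm : G.length = m) (h : Sh (m + 1) G) :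
    (ext G).length = m + 1 ∧ Sh (m + 1) (ext G) ∧ biv (ext G) = mbiv G := by
  refine ⟨by simp [ext, hm], ?_, biv_ext G _⟩
  intro r hr
  rw [ext, List.mem_append] at hr
  rcases hr with hr | hr
  · exact h r hr
  · rw [List.mem_singleton] at hr
    rw [hr]; simp [hm]

/-- result of the last part -/
theorem PD_spec {K : Type} [Field K] [DecidableEq K] (pcb : Pr [] (.prod .fld (.prod .fld Ma)) Ma)
    (Ccb C2 : ℕ) (hcb : CoBSpec pcb Ccb K) (hwmono : ∀ a b, a ≤ b → ww a ≤ ww b)
    (hwadd : ∀ a b, ww a + ww b ≤ ww (a + b)) (hwsq : ∀ N, N * N ≤ ww N)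
    (hC2 : ∀ N, ww (2 * (N + 1)) ≤ C2 * ww (N + 1)) (a b u : K) (hu : u ≠ 0)
    (d : ℕ) (f : K[X][X]) (A : List (List K)) (hA : A.length = d) (htd : TD (mbiv A) d)
    (hf : sub a b f = C (C u) * mbiv A)
    (out : List (List (List K) × List Unit)) (hout : MonFac A out) :
    FacGood f ((PD pcb).val () (a, (b, out))) ∧
    (PD pcb).cost () () (a, (b, out)) ≤ (Ccb + 413) * (C2 * ww (d + 1)) + 20 := by
  obtain ⟨hprod, hall, hnd⟩ := id hout
  have htdG : ∀ o ∈ out, TD (mbiv o.1) o.1.length := by
    intro o ho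
    have hd : mbiv o.1 ∣ mbiv A := by
      rw [← hprod]
      refine (dvd_pow_self _ ?_).trans (List.dvd_prod (List.mem_map_of_mem ho))
      have := (hall o ho).2.2.2
      omega
    have := td_dvd (mbiv_monic o.1) (mbiv_monic A) hd (by rw [mbiv_natDegree, hA]; exact htd)
    rwa [mbiv_natDegree] at this
  constructor
  · rw [val_PD]
    refine fac_good a b u hu f A d hA htd hf out hout
      (fun G => pcb.val () (-a, (-b, ext G))) (fun G hG hG2 => ?_)
    obtain ⟨e1, e2, e3⟩ := ext_spec G G.length rfl hG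
    obtain ⟨g1, g2, -⟩ := hcb (-a) (-b) G.length (ext G) e1 e2 (by rw [e3]; exact hG2)
    exact ⟨g1, by rw [g2, e3]⟩
  · have hB : ∀ o ∈ out, (PDf pcb).cost () () ((-a, -b), o) + 13 ≤
        (fun o : List (List K) × List Unit => (Ccb + 413) * ww (o.1.length + 1)) o := by
      intro o ho
      obtain ⟨G, c⟩ := o
      obtain ⟨h1, h2, -, -⟩ := hall _ ho
      obtain ⟨e1, e2, e3⟩ := ext_spec G G.length rfl h2
      have e4 : TD (biv (ext G)) G.length := by
        rw [e3]
        exact htdG (G, c) ho
      obtain ⟨g1, g2, g3⟩ := hcb (-a) (-b) G.length (ext G) e1 e2 e4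
      have g4 := isHom_rows _ _ g1
      have h3 := cost_PDf pcb (-a) (-b) G c G.length rfl g4.1 g4.2
      have g5 := Nat.add_le_add_right g3 (400 * (G.length + 1) * (G.length + 1))
      exact ar2 ((PDf pcb).cost () () ((-a, -b), (G, c))) Ccb (ww (G.length + 1)) G.length
        (le_trans h3 g5) (hwsq (G.length + 1))
    refine (cost_PD pcb a b out _ hB).trans ?_
    have hsum : ∀ l : List (List (List K) × List Unit),
        (l.map (fun o : List (List K) × List Unit => (Ccb + 413) * ww (o.1.length + 1))).sum ≤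
          (Ccb + 413) * ww ((l.map (fun o : List (List K) × List Unit => o.1.length + 1)).sum) := by
      intro l
      induction l with
      | nil => simp
      | cons o l ih =>
        simp only [List.map_cons, List.sum_cons]
        have := hwadd (o.1.length + 1)
          ((l.map (fun o : List (List K) × List Unit => o.1.length + 1)).sum)
        nlinarith
    have hdeg : (out.map (fun o : List (List K) × List Unit => o.1.length + 1)).sum ≤
        2 * d := by
      have e1 : ((out.map (fun o => mbiv o.1 ^ o.2.length)).prod).natDegree =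
          (out.map (fun o : List (List K) × List Unit => o.2.length * o.1.length)).sum := by
        have : ∀ l : List (List (List K) × List Unit),
            ((l.map (fun o => mbiv o.1 ^ o.2.length)).prod).Monic ∧
            ((l.map (fun o => mbiv o.1 ^ o.2.length)).prod).natDegree =
            (l.map (fun o : List (List K) × List Unit => o.2.length * o.1.length)).sum := by
          intro l
          induction l with
          | nil => simp
          | cons o l ih =>
            simp only [List.map_cons, List.prod_cons, List.sum_cons]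
            have hm := (mbiv_monic o.1).pow o.2.length
            refine ⟨hm.mul ih.1, ?_⟩
            rw [hm.natDegree_mul ih.1, (mbiv_monic o.1).natDegree_pow, mbiv_natDegree, ih.2]
        exact (this out).2
      rw [hprod, mbiv_natDegree, hA] at e1
      have e2 : ∀ l : List (List (List K) × List Unit),
          (∀ o ∈ l, 1 ≤ o.1.length ∧ 1 ≤ o.2.length) →
          (l.map (fun o : List (List K) × List Unit => o.1.length + 1)).sum ≤
          2 * (l.map (fun o : List (List K) × List Unit => o.2.length * o.1.length)).sum := by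
        intro l hl
        induction l with
        | nil => simp
        | cons o l ih =>
          have h1 := ih (fun o ho => hl o (by simp [ho]))
          obtain ⟨h2, h3⟩ := hl o (by simp)
          simp only [List.map_cons, List.sum_cons]
          nlinarith
      rw [e1]
      exact e2 out (fun o ho => ⟨(hall o ho).1, (hall o ho).2.2.2⟩)
    have h6 := (hwmono _ _ (hdeg.trans (by omega : 2 * d ≤ 2 * (d + 1)))).trans (hC2 d)
    have h7 := (hsum out).trans (Nat.mul_le_mul_left (Ccb + 413) h6)
    omega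

end S11

namespace S11

theorem ar3 (d e lq l ld T : ℕ) (h1 : 1 ≤ lq) (h2 : 1 ≤ l) (h3 : ld ≤ l)
    (hT : T = 100 * (lq + 1) * (e + 1) + 16) :
    (100 * d + 200 + T * d + 18) * (3 * ld + 10) + (100 * d + 200) * (2 * d + 2) +
        1100 * d + 9 * T + 2000 ≤ 10000 * ((e + 1) * lq * l * ((d + 1) * (d + 1))) := by
  set E := (e + 1) * lq with hE
  have hE1 : 1 ≤ E := Nat.mul_pos (by omega) h1
  have hT2 : T ≤ 216 * E := by
    rw [hT]
    have : (lq + 1) * (e + 1) ≤ 2 * E := by rw [hE]; nlinarith
    nlinarith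
  have a1 : 3 * ld + 10 ≤ 13 * l := by omega
  have a2 : 100 * d + 200 + T * d + 18 ≤ 434 * (E * (d + 1)) := by
    have : T * d ≤ 216 * E * d := Nat.mul_le_mul_right _ hT2
    nlinarith
  have a3 : (100 * d + 200 + T * d + 18) * (3 * ld + 10) ≤ 434 * (E * (d + 1)) * (13 * l) :=
    Nat.mul_le_mul a2 a1
  have a4 : E * (d + 1) * l ≤ E * l * ((d + 1) * (d + 1)) := by
    have : E * (d + 1) * l = E * l * ((d + 1) * 1) := by ring
    rw [this]
    exact Nat.mul_le_mul_left _ (Nat.mul_le_mul_left _ (by omega))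
  have hEl : 1 ≤ E * l := Nat.mul_pos hE1 h2
  have a5 : (d + 1) * (d + 1) ≤ E * l * ((d + 1) * (d + 1)) := Nat.le_mul_of_pos_left _ hEl
  have a6 : E * l ≤ E * l * ((d + 1) * (d + 1)) :=
    Nat.le_mul_of_pos_right _ (Nat.mul_pos (by omega) (by omega))
  have a7 : E ≤ E * l := Nat.le_mul_of_pos_right _ h2
  nlinarith

theorem ar4 (c1 Ctb Cco Cun Cmon Ccb C2 P w N2 d ku km k M x : ℕ) (hk : k = ku + km + 1)
    (hP : 1 ≤ P) (hN : (d + 1) * (d + 1) = N2) (hw : N2 ≤ w) (hM : M = P ^ k * w)
    (h1 : c1 ≤ 10000 * (P * N2))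
    (hx : x ≤ c1 + (Ctb + Cco * w + 300 * N2 + (22 * d + 8) + Cun * P ^ ku * w + 44) +
      Cmon * P ^ km * w + ((Ccb + 413) * (C2 * w) + 20) + 100) :
    x ≤ (20000 + Ctb + Cco + Cun + Cmon + (Ccb + 413) * C2) * M := by
  have hP1 : ∀ i, 1 ≤ P ^ i := fun i => Nat.one_le_pow _ _ hP
  have p1 : P ≤ P ^ k := by
    calc P = P ^ 1 := (pow_one P).symm
      _ ≤ P ^ k := Nat.pow_le_pow_right hP (by omega)
  have p2 : P ^ ku ≤ P ^ k := Nat.pow_le_pow_right hP (by omega)
  have p3 : P ^ km ≤ P ^ k := Nat.pow_le_pow_right hP (by omega)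
  have b1 : P * N2 ≤ M := hM ▸ Nat.mul_le_mul p1 hw
  have b2 : P ^ ku * w ≤ M := hM ▸ Nat.mul_le_mul_right _ p2
  have b3 : P ^ km * w ≤ M := hM ▸ Nat.mul_le_mul_right _ p3
  have b4 : w ≤ M := hM ▸ Nat.le_mul_of_pos_left _ (hP1 k)
  have b5 : N2 ≤ M := hw.trans b4
  have b6 : 1 ≤ M := le_trans (by rw [← hN]; nlinarith) b5
  have b7 : d ≤ M := le_trans (by rw [← hN]; nlinarith) b5
  have e1 : Cun * P ^ ku * w ≤ Cun * M := by rw [mul_assoc]; exact Nat.mul_le_mul_left _ b2
  have e2 : Cmon * P ^ km * w ≤ Cmon * M := by rw [mul_assoc]; exact Nat.mul_le_mul_left _ b3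
  have e3 : Cco * w ≤ Cco * M := Nat.mul_le_mul_left _ b4
  have e4 : (Ccb + 413) * (C2 * w) ≤ (Ccb + 413) * C2 * M := by
    rw [mul_assoc]; exact Nat.mul_le_mul_left _ (Nat.mul_le_mul_left _ b4)
  have e5 : Ctb ≤ Ctb * M := Nat.le_mul_of_pos_right _ b6
  have e6 : (20000 + Ctb + Cco + Cun + Cmon + (Ccb + 413) * C2) * M =
    20000 * M + Ctb * M + Cco * M + Cun * M + Cmon * M + (Ccb + 413) * C2 * M := by ring
  rw [e6]
  omega

theorem lgc_mono {a b : ℕ} (h : a ≤ b) : lgc a ≤ lgc b := by
  unfold lgc
  exact Nat.add_le_add_right (Nat.clog_mono_right 2 h) 1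

/-- the deterministic part -/
theorem det {K L : Type} [Field K] [DecidableEq K] [Field L] [DecidableEq L] (φ : K →+* L)
    (h7 : SpecNat)
    (hwmono : ∀ a b, a ≤ b → ww a ≤ ww b)
    (hwadd : ∀ a b, ww a + ww b ≤ ww (a + b)) (hwsq : ∀ N, N * N ≤ ww N) (C2 : ℕ)
    (hC2 : ∀ N, ww (2 * (N + 1)) ≤ C2 * ww (N + 1))
    (ptb : Pr [] Po TB) (Ctb : ℕ)
    (pco : Pr [] (.prod .fld (.prod .fld Ma)) Ma) (Cco : ℕ) (hco : CoFSpec pco Cco K)
    (pun : Pr [] (.prod TB (.prod (.prod Po Un) (.prod Po Ma))) (.list (.prod Po Un)))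
    (Cun kun : ℕ)
    (pmon : Pr [] (.prod TB (.prod (.prod Po Un) (.prod
      (.prod Ma (.list (.prod Po Un))) (.prod Po Ma)))) (.list (.prod Ma Un)))
    (Cmon kmon : ℕ)
    (pcb : Pr [] (.prod .fld (.prod .fld Ma)) Ma) (Ccb : ℕ) (hcb : CoBSpec pcb Ccb K)
    (q e d : ℕ) (H : List (List K)) (hH : IsHom d H)
    (t7 : List K) (a b : K) (U : List (List K)) (pl : List L) (gs : List (List L)) (rnd : List L)
    (hpr : (prP : Pr [] (.prod (.prod Po Un) (.prod Ma Po)) _).val ()
      ((bits L q, un e), (Ty.map φ Ma H, rnd)) =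
      (Ty.map φ Po t7, (φ a, (φ b, (Ty.map φ Ma U, (pl, gs))))))
    (tb : List (List K) × List (List K)) (htb : tb = ptb.val () t7)
    (htbc : ptb.cost () () t7 ≤ Ctb)
    (hg : CoGood a b (hom H) d) (A0 A : List (List K)) (hA0 : A0 = pco.val () (a, (b, H)))
    (hA : A = (norA : Pr [] Ma Ma).val () A0)
    (uni : List (List K × List Unit))
    (huni : uni = pun.val () (tb, ((bits K q, un e), (hd0 A, U))))
    (hunc : pun.cost () () (tb, ((bits K q, un e), (hd0 A, U))) ≤ Cun * PL e q d ^ kun * ww (d + 1))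
    (out : List (List (List K) × List Unit)) (hout : MonFac A out)
    (hmv : (pmon.val () (Ty.map φ TB tb, ((bits L q, un e),
        (Ty.map φ (.prod Ma (.list (.prod Po Un))) (A, uni), (pl, gs)))) :
        List (List (List L) × List Unit)) = Ty.map φ (.list (.prod Ma Un)) out)
    (hmc : pmon.cost () () (Ty.map φ TB tb, ((bits L q, un e),
        (Ty.map φ (.prod Ma (.list (.prod Po Un))) (A, uni), (pl, gs)))) ≤
          Cmon * PL e q d ^ kmon * ww (d + 1)) :
    ∃ out : List (List (List K) × List Unit), FacGood (hom H) out ∧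
      ((prog (PB ptb pco pun) pmon (PD pcb)).val ()
        ((bits L q, un e), (Ty.map φ Ma H, rnd)) :
        List (List (List L) × List Unit)) = Ty.map φ (.list (.prod Ma Un)) out ∧
      (prog (PB ptb pco pun) pmon (PD pcb)).cost () () ((bits L q, un e), (Ty.map φ Ma H, rnd)) ≤
        (20000 + Ctb + Cco + Cun + Cmon + (Ccb + 413) * C2) *
          (PL e q d ^ (kun + kmon + 1) * ww (d + 1)) := by
  obtain ⟨u, hu, hAl, hAs, hAt, hAe, -, hAc⟩ := A_spec pco Cco hco a b d H hH hg A0 A hA0 hA
  obtain ⟨hfac, hpdc⟩ := PD_spec pcb Ccb C2 hcb hwmono hwadd hwsq hC2 a b u hu d (hom H) A hAl hAt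
    hAe out hout
  -- second part
  have hB := h7 TyB _ (PB ptb pco pun) K L φ (t7, (a, (b, (U, ((bits K q, un e), H)))))
  have hX : Ty.map φ TyB (t7, (a, (b, (U, ((bits K q, un e), H))))) =
      (Ty.map φ Po t7, (φ a, (φ b, (Ty.map φ Ma U, ((bits L q, un e), Ty.map φ Ma H))))) := by
    show (Ty.map φ Po t7, (φ a, (φ b, (Ty.map φ Ma U,
      ((Ty.map φ Po (bits K q), Ty.map φ Un (un e)), Ty.map φ Ma H))))) = _
    rw [map_bits, map_un]
  have vK := val_PB ptb pco pun t7 a b U (bits K q, un e) H
  have cK := cost_PB ptb pco pun t7 a b U (bits K q, un e) H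
  simp only [← htb, ← hA0, ← hA, ← huni] at vK cK
  obtain ⟨hB1, hB2⟩ := hB
  rw [hX, vK] at hB1
  rw [hX, cK] at hB2
  have hpb : (PB ptb pco pun).val ()
      (Ty.map φ Po t7, (φ a, (φ b, (Ty.map φ Ma U, ((bits L q, un e), Ty.map φ Ma H))))) =
      (Ty.map φ TB tb, Ty.map φ (.prod Ma (.list (.prod Po Un))) (A, uni)) := by
    rw [hB1]; rfl
  -- last part
  have hD := h7 _ _ (PD pcb) K L φ (a, (b, out))
  have hY : Ty.map φ (.prod .fld (.prod .fld (.list (.prod Ma Un)))) (a, (b, out)) =
      (φ a, (φ b, Ty.map φ (.list (.prod Ma Un)) out)) := rfl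
  rw [hY] at hD
  obtain ⟨hD1, hD2⟩ := hD
  refine ⟨(PD pcb).val () (a, (b, out)), hfac, ?_, ?_⟩
  · rw [val_prog (PB ptb pco pun) pmon (PD pcb) (bits L q, un e) (Ty.map φ Ma H) rnd _ _ _ _ _ _
      hpr _ _ hpb _ hmv]
    exact hD1
  · have hc := cost_prog (PB ptb pco pun) pmon (PD pcb) (bits L q, un e) (Ty.map φ Ma H) rnd
      _ _ _ _ _ _ hpr _ _ hpb _ hmv
    rw [hB2, hD2] at hc
    have hlen : List.length (Ty.map φ Ma H : List (List L)) = d + 1 := by
      simp only [Ty.map]
      rw [List.length_map]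
      exact hH.1
    have hlb := length_bits (F := L) q
    have c1 := cost_prP (s := []) () () ((bits L q, un e), (Ty.map φ Ma H, rnd)) d
      (100 * (lgc q + 1) * (e + 1) + 16) hlen (by
        simp only [length_un]
        exact Nat.add_le_add_right (Nat.mul_le_mul_right _ (Nat.mul_le_mul_left _ (by omega))) _)
    have c2 := ar3 d e (lgc q) (lgc (d + 1)) (lgc d) _ (one_le_lgc _) (one_le_lgc _)
      (lgc_mono (by omega)) rfl
    have c3 := cost_hd0P (s := []) () () A
    rw [hAl] at c3
    obtain ⟨-, -, -, hcoc⟩ := hco a b d H hH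
    refine ar4 _ Ctb Cco Cun Cmon Ccb C2 (PL e q d) (ww (d + 1)) ((d + 1) * (d + 1)) d kun kmon
      (kun + kmon + 1) _ _ rfl ?_ rfl (hwsq _) rfl (le_trans c1 c2) (le_trans hc ?_)
    · exact Nat.mul_pos (Nat.mul_pos (by omega) (one_le_lgc _)) (one_le_lgc _)
    · have s1 := Nat.add_le_add (Nat.add_le_add (Nat.add_le_add (Nat.add_le_add htbc hcoc) hAc) c3)
        hunc
      have s2 := Nat.add_le_add_right s1 44
      exact Nat.add_le_add_right (Nat.add_le_add (Nat.add_le_add (Nat.add_le_add_left s2 _) hmc)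
        hpdc) 100

end S11

namespace S11

theorem ar5 (d Q : ℕ) (hQ : (40 * (d + 1)) ^ 4 ≤ Q) :
    ((7 ^ 2 : ℕ) : ℝ) / Q + ((2 * d ^ 2 + 3 * d : ℕ) : ℝ) / Q + 1 / 100 + ((7 * d : ℕ) : ℝ) / Q ≤
      1 / 10 := by
  have h1 : ((40 * ((d : ℝ) + 1)) ^ 4) ≤ Q := by exact_mod_cast hQ
  have h2 : (1 : ℝ) ≤ (d : ℝ) + 1 := by
    have : (0 : ℝ) ≤ d := Nat.cast_nonneg d
    linarith
  have h3 : (40 * ((d : ℝ) + 1)) ^ 4 ≥ 2560000 * ((d : ℝ) + 1) ^ 2 := by
    have : ((d : ℝ) + 1) ^ 2 ≤ ((d : ℝ) + 1) ^ 4 := pow_le_pow_right₀ h2 (by norm_num)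
    nlinarith
  have hQ0 : (0 : ℝ) < Q := by nlinarith [sq_nonneg ((d : ℝ) + 1)]
  have h4 : ((7 ^ 2 : ℕ) : ℝ) / Q + ((2 * d ^ 2 + 3 * d : ℕ) : ℝ) / Q + ((7 * d : ℕ) : ℝ) / Q ≤
      9 / 100 := by
    rw [← add_div, ← add_div, div_le_div_iff₀ hQ0 (by norm_num)]
    push_cast
    have : (0 : ℝ) ≤ d := by positivity
    nlinarith
  linarith

end S11

open S11 in
theorem specFac (h1 : SpecTb) (h2 : SpecCoF) (h3 : SpecUni) (h4 : SpecMon) (h5 : SpecCoB) (h6 : StmtCoCount) (h7 : SpecNat)
    (h0 : SpecUnits) : SpecFac := by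
  obtain ⟨ptb, Ctb, htb⟩ := h1
  obtain ⟨pco, Cco, hco⟩ := h2
  obtain ⟨pun, Cun, kun, hun⟩ := h3
  obtain ⟨pmon, Cmon, kmon, hmon⟩ := h4
  obtain ⟨pcb, Ccb, hcb⟩ := h5
  obtain ⟨-, hwmono, -, -, hwadd, -, hwsq, -, hwmul, -⟩ := h0
  obtain ⟨C2, hC2⟩ := hwmul 2
  refine ⟨prog (PB ptb pco pun) pmon (PD pcb),
    20000 + Ctb + Cco + Cun + Cmon + (Ccb + 413) * C2, kun + kmon + 1, ?_⟩
  intro K L _ _ _ _ _ _ _ q e d H hfin hcard hH hd htop hQ
  have hcoK : CoFSpec pco Cco K := fun a b d H hH => hco K a b d H hH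
  have hcbK : CoBSpec pcb Ccb K := fun a b m G h1 h2 h3 => hcb K a b m G h1 h2 h3
  let τ : L → K := fun z => Algebra.trace K L z
  have hτ : ∀ z, algebraMap K L (τ z) = z + z ^ (q ^ e) := trace_formula q e hfin hcard
  have hut : Unif τ := unif_trace
  have hKc : Nat.card K = q ^ e := by rw [Nat.card_eq_fintype_card, hcard]
  have hqe : 0 < q ^ e := lt_of_lt_of_le (by positivity) hQ
  have hdq : d ≤ q ^ e := le_trans (by
    calc d ≤ 40 * (d + 1) := by omega
      _ = (40 * (d + 1)) ^ 1 := (pow_one _).symm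
      _ ≤ (40 * (d + 1)) ^ 4 := Nat.pow_le_pow_right (by omega) (by norm_num)) hQ
  have h40 : (40 * d) ^ 4 ≤ q ^ e := le_trans (Nat.pow_le_pow_left (by omega) 4) hQ
  -- the objects over `K`
  let t7 : (Fin 7 → L) → List K := fun x => List.ofFn (fun i => τ (x i))
  let tb : (Fin 7 → L) → List (List K) × List (List K) := fun x => ptb.val () (t7 x)
  let A0 : (Fin 2 → L) → List (List K) := fun x => pco.val () (τ (x 0), (τ (x 1), H))
  let A : (Fin 2 → L) → List (List K) := fun x => (norA : Pr [] Ma Ma).val () (A0 x)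
  let uni : (Fin 7 → L) → (Fin 2 → L) → List (List K) → List (List K × List Unit) :=
    fun x y U => pun.val () (tb x, ((bits K q, un e), (hd0 (A y), U)))
  -- the good events
  let G1 : (Fin 7 → L) → Prop := fun x => Function.Injective (fun i => τ (x i))
  let G2 : (Fin 2 → L) → Prop := fun x => CoGood (τ (x 0)) (τ (x 1)) (hom H) d
  let P3 : (Fin 7 → L) × (Fin 2 → L) → (Fin (3 * lgc d + 10) → Fin d → K) → Prop := fun x U =>
    UniGood (hd0 (A x.2)) (pun.val () (tb x.1, ((bits K q, un e), (hd0 (A x.2), rows U)))) ∧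
      pun.cost () () (tb x.1, ((bits K q, un e), (hd0 (A x.2), rows U))) ≤
        Cun * PL e q d ^ kun * ww (d + 1)
  let G3 : (Fin 7 → L) × (Fin 2 → L) → (Fin (3 * lgc d + 10) → Fin d → L) → Prop := fun x U =>
    P3 x (fun i j => τ (U i j))
  let G4 : ((Fin 7 → L) × (Fin 2 → L)) × (Fin (3 * lgc d + 10) → Fin d → L) →
      (Fin (2 * d + 2) → L) × (Fin (2 * d + 2) → Fin d → L) → Prop := fun w x =>
    ∃ out : List (List (List K) × List Unit), MonFac (A w.1.2) out ∧
      (pmon.val () (Ty.map (algebraMap K L) TB (tb w.1.1), ((bits L q, un e),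
        (Ty.map (algebraMap K L) (.prod Ma (.list (.prod Po Un)))
          (A w.1.2, uni w.1.1 w.1.2 (rows (fun i j => τ (w.2 i j)))),
          (List.ofFn x.1, rows x.2)))) : List (List (List L) × List Unit)) =
        Ty.map (algebraMap K L) (.list (.prod Ma Un)) out ∧
      pmon.cost () () (Ty.map (algebraMap K L) TB (tb w.1.1), ((bits L q, un e),
        (Ty.map (algebraMap K L) (.prod Ma (.list (.prod Po Un)))
          (A w.1.2, uni w.1.1 w.1.2 (rows (fun i j => τ (w.2 i j)))),
          (List.ofFn x.1, rows x.2)))) ≤ Cmon * PL e q d ^ kmon * ww (d + 1)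
  -- table
  have hIs : ∀ x, G1 x → IsTb (tb x) ∧ ptb.cost () () (t7 x) ≤ Ctb := by
    intro x hx
    exact htb K (t7 x) (by simp [t7]) (List.nodup_ofFn.2 hx)
  -- the first two events
  have b1 : bad G1 ≤ ((7 ^ 2 : ℕ) : ℝ) / ((q ^ e : ℕ) : ℝ) := by
    have e1 : bad G1 = bad (fun t : Fin 7 → K => Function.Injective t) :=
      bad_unif (fun (f : Fin 7 → L) (i : Fin 7) => τ (f i)) (unif_pi τ hut) _
    rw [e1]
    refine bad_le_of_mul _ _ _ hqe ?_
    rw [← hKc]
    exact card_noninj 7
  have b2 : bad G2 ≤ ((2 * d ^ 2 + 3 * d : ℕ) : ℝ) / ((q ^ e : ℕ) : ℝ) := by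
    have e1 : bad G2 = bad (fun t : Fin 2 → K => CoGood (t 0) (t 1) (hom H) d) :=
      bad_unif (fun (f : Fin 2 → L) (i : Fin 2) => τ (f i)) (unif_pi τ hut)
        (fun t : Fin 2 → K => CoGood (t 0) (t 1) (hom H) d)
    rw [e1]
    refine bad_le_of_mul _ _ _ hqe ?_
    have e2 : Nat.card {t : Fin 2 → K // ¬ CoGood (t 0) (t 1) (hom H) d} =
        Nat.card {x : K × K // ¬ CoGood x.1 x.2 (hom H) d} :=
      Nat.card_congr ((finTwoArrowEquiv K).subtypeEquiv (fun t => by simp [finTwoArrowEquiv]))
    have e3 := h6 K d H hH hd htop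
    rw [e2, Nat.card_fun, Nat.card_eq_fintype_card (α := Fin 2), Fintype.card_fin, hKc]
    rw [hcard] at e3
    refine (Nat.mul_le_mul_right _ e3).trans (le_of_eq ?_)
    ring
  have b12 : bad (fun z : (Fin 7 → L) × (Fin 2 → L) => G1 z.1 ∧ G2 z.2) ≤
      ((7 ^ 2 : ℕ) : ℝ) / ((q ^ e : ℕ) : ℝ) +
        ((2 * d ^ 2 + 3 * d : ℕ) : ℝ) / ((q ^ e : ℕ) : ℝ) :=
    (bad_prod G1 (fun _ => G2) _ (by positivity) (fun _ _ => b2)).trans
      (add_le_add_left b1 _)
  -- facts on `A`
  have hAf : ∀ y, G2 y → (A y).length = d ∧ Sh (d + 1) (A y) ∧ TD (mbiv (A y)) d ∧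
      (∃ (T : K[X][X]) (N : ℕ), T.Monic ∧ T ∣ mbiv (A y) ∧ mbiv (A y) ∣ T ^ N ∧
        Squarefree (T.map (evalRingHom (0 : K)))) := by
    intro y hy
    obtain ⟨u, -, g1, g2, g3, -, g4, -⟩ := A_spec pco Cco hcoK (τ (y 0)) (τ (y 1)) d H hH hy
      (A0 y) (A y) rfl rfl
    exact ⟨g1, g2, g3, g4⟩
  have b3 : ∀ z : (Fin 7 → L) × (Fin 2 → L), (G1 z.1 ∧ G2 z.2) → bad (G3 z) ≤ 1 / 100 := by
    rintro ⟨x, y⟩ ⟨hx, hy⟩
    obtain ⟨g1, -, -, -⟩ := hAf y hy
    have hl : (hd0 (A y)).length = d := by simp [hd0, g1]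
    have e1 : bad (G3 (x, y)) = bad (P3 (x, y)) :=
      bad_unif (fun (f : Fin (3 * lgc d + 10) → Fin d → L) (i : Fin (3 * lgc d + 10))
        (j : Fin d) => τ (f i j))
        (unif_pi (fun (f : Fin d → L) (j : Fin d) => τ (f j)) (unif_pi τ hut)) (P3 (x, y))
    rw [e1]
    have e2 := hun K q e d (tb x) (hd0 (A y)) hcard (hIs x hx).1 hl hd hdq
    have e3 : Nat.card {U : Fin (3 * lgc d + 10) → Fin d → K // ¬ P3 (x, y) U} * 100 ≤
        1 * Nat.card (Fin (3 * lgc d + 10) → Fin d → K) := by
      rw [Nat.card_fun, Nat.card_fun, Nat.card_eq_fintype_card (α := Fin _), Fintype.card_fin,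
        Nat.card_eq_fintype_card (α := Fin _), Fintype.card_fin,
        Nat.card_eq_fintype_card (α := K), ← pow_mul, mul_comm d, one_mul, mul_comm _ 100]
      exact e2
    have e4 := bad_le_of_mul _ 100 1 (by norm_num) e3
    simpa using e4
  have b4 : ∀ w : ((Fin 7 → L) × (Fin 2 → L)) × (Fin (3 * lgc d + 10) → Fin d → L),
      ((G1 w.1.1 ∧ G2 w.1.2) ∧ G3 w.1 w.2) →
      bad (G4 w) ≤ ((7 * d : ℕ) : ℝ) / ((q ^ e : ℕ) : ℝ) := by
    rintro ⟨⟨x, y⟩, U⟩ ⟨⟨hx, hy⟩, hU⟩
    obtain ⟨g1, g2, g3, T, N, g4, g5, g6, g7⟩ := hAf y hy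
    have e1 := hmon K L q e d (tb x) (A y) (uni x y (rows (fun i j => τ (U i j)))) T N hfin hcard
      (hIs x hx).1 g1 hd g2 g3 hU.1 g4 g5 g6 g7 h40
    refine bad_le_of_mul _ _ _ hqe (le_trans e1 (le_of_eq ?_))
    rw [Nat.card_prod, Nat.card_fun, Nat.card_fun, Nat.card_fun,
      Nat.card_eq_fintype_card (α := Fin _), Fintype.card_fin,
      Nat.card_eq_fintype_card (α := Fin _), Fintype.card_fin, Nat.card_eq_fintype_card,
      ← pow_mul, ← pow_add]
    congr 2
    ring
  -- all events
  let G : Om L d → Prop := fun w =>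
    ((G1 w.1.1.1 ∧ G2 w.1.1.2) ∧ G3 w.1.1 w.1.2) ∧ G4 w.1 w.2
  have bG : bad G ≤ 1 / 10 := by
    have s1 := bad_prod (fun z : (Fin 7 → L) × (Fin 2 → L) => G1 z.1 ∧ G2 z.2) G3 (1 / 100)
      (by norm_num) b3
    have s2 := bad_prod (fun w : ((Fin 7 → L) × (Fin 2 → L)) ×
      (Fin (3 * lgc d + 10) → Fin d → L) => (G1 w.1.1 ∧ G2 w.1.2) ∧ G3 w.1 w.2) G4
      (((7 * d : ℕ) : ℝ) / ((q ^ e : ℕ) : ℝ)) (by positivity) b4
    have s3 := ar5 d (q ^ e) hQ
    exact s2.trans ((add_le_add_left (s1.trans (add_le_add_left b12 _)) _).trans s3)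
  have hfinal := count_join d (fun l : List L => ∃ out : List (List (List K) × List Unit),
      FacGood (hom H) out ∧
      ((prog (PB ptb pco pun) pmon (PD pcb)).val () ((bits L q, un e),
        (Ty.map (algebraMap K L) Ma H, l)) : List (List (List L) × List Unit)) =
        Ty.map (algebraMap K L) (.list (.prod Ma Un)) out ∧
      (prog (PB ptb pco pun) pmon (PD pcb)).cost () () ((bits L q, un e),
        (Ty.map (algebraMap K L) Ma H, l)) ≤
        (20000 + Ctb + Cco + Cun + Cmon + (Ccb + 413) * C2) * PL e q d ^ (kun + kmon + 1) *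
          ww (d + 1)) G (by
    rintro w ⟨⟨⟨hx, hy⟩, hU⟩, out, hout, hmv, hmc⟩
    have hlen : List.length (Ty.map (algebraMap K L) Ma H : List (List L)) = d + 1 := by
      simp only [Ty.map]
      rw [List.length_map]
      exact hH.1
    have hpr := val_prP_join (algebraMap K L) τ q e d hτ
      (Ty.map (algebraMap K L) Ma H : List (List L)) hlen w
    obtain ⟨out', k1, k2, k3⟩ := det (algebraMap K L) h7 hwmono hwadd hwsq C2 hC2 ptb Ctb pco Cco
      hcoK pun Cun kun pmon Cmon kmon pcb Ccb hcbK q e d H hH (t7 w.1.1.1) (τ (w.1.1.2 0))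
      (τ (w.1.1.2 1)) (rows (fun i j => τ (w.1.2 i j))) (List.ofFn w.2.1) (rows w.2.2) (join w)
      hpr (tb w.1.1.1) rfl (hIs _ hx).2 hy (A0 w.1.1.2) (A w.1.1.2) rfl rfl
      (uni w.1.1.1 w.1.1.2 (rows (fun i j => τ (w.1.2 i j)))) rfl hU.2 out hout hmv hmc
    exact ⟨out', k1, k2, by rw [mul_assoc]; exact k3⟩) bG
  rw [Nat.card_eq_fintype_card (α := L)] at hfinal
  exact hfinal

end Pool.Agent.H330FB.JS11
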