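import Pool.Agent.H330FB.Lib5
import Pool.Agent.H330FB.Spec3b
set_option autoImplicit false
noncomputable section
namespace Pool.Agent.H330FB.JS2
open Polynomial

section slAux
variable {R R' : Type} [CommRing R] [CommRing R']

theorem stmtLocal_coeff (l : List R) (i : ℕ) : (pol l).coeff i = l.getD i 0 := by
  induction l generalizing i with
  | nil => simp [pol]
  | cons x l ih =>
    cases i with
    | zero => simp [pol]
    | succ i => simp [pol, ih]

theorem stmtLocal_degree (l : List R) : (pol l).degree < l.length := by
  rw [degree_lt_iff_coeff_zero]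
  intro m hm
  rw [stmtLocal_coeff, List.getD_eq_default _ _ (by exact_mod_cast hm)]

theorem stmtLocal_map (φ : R →+* R') (l : List R) : (pol l).map φ = pol (l.map φ) := by
  induction l with
  | nil => simp [pol]
  | cons x l ih => simp [pol, ih]

theorem stmtLocal_append (l : List R) (k : ℕ) : pol (l ++ List.replicate k 0) = pol l := by
  ext i
  rw [stmtLocal_coeff, stmtLocal_coeff]
  by_cases h : i < l.length
  · rw [List.getD_append _ _ _ _ h]
  · push Not at h
    rw [List.getD_append_right _ _ _ _ h, List.getD_eq_default l _ h]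
    rw [List.getD_eq_getElem?_getD, List.getElem?_replicate]
    split_ifs <;> rfl

theorem stmtLocal_monic (l : List R) : (X ^ l.length + pol l).Monic :=
  monic_X_pow_add (stmtLocal_degree l)

theorem stmtLocal_natDegree [Nontrivial R] (l : List R) :
    (X ^ l.length + pol l).natDegree = l.length := by
  rw [natDegree_add_eq_left_of_degree_lt, natDegree_X_pow]
  rw [degree_X_pow]
  exact stmtLocal_degree l

theorem stmtLocal_inj [Nontrivial R] (l l' : List R) (h : mpol l = mpol l') : l = l' := by
  have h1 : l.length = l'.length := by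
    rw [← stmtLocal_natDegree l, ← stmtLocal_natDegree l']
    exact congrArg natDegree h
  have h2 : pol l = pol l' := by
    unfold mpol at h
    rw [h1] at h
    exact add_left_cancel h
  apply List.ext_getElem h1
  intro i hi hi'
  have h3 := congrArg (fun f => coeff f i) h2
  simp only [stmtLocal_coeff] at h3
  rwa [List.getD_eq_getElem _ _ hi, List.getD_eq_getElem _ _ hi'] at h3

end slAux

/-- a permutation of the image comes from a permutation -/
theorem stmtLocal_perm {α β : Type} (f : α → β) (l : List α) (m : List β)
    (h : (l.map f).Perm m) : ∃ l' : List α, l.Perm l' ∧ l'.map f = m := by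
  have h1 : List.Forall₂ (fun a b => f a = b) l (l.map f) := by
    rw [List.forall₂_map_right_iff]
    exact List.forall₂_same.mpr (fun _ _ => rfl)
  have h2 : Relation.Comp (List.Forall₂ (fun (a : α) (b : β) => f a = b)) List.Perm l m :=
    ⟨_, h1, h⟩
  rw [List.forall₂_comp_perm_eq_perm_comp_forall₂] at h2
  obtain ⟨l', h3, h4⟩ := h2
  refine ⟨l', h3, ?_⟩
  have h5 : List.Forall₂ (fun b b' : β => b = b') (l'.map f) m := by
    rw [List.forall₂_map_left_iff]
    exact h4
  rw [List.forall₂_eq_eq_eq] at h5
  exact h5

/-- the ring of truncated power series -/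
theorem stmtLocal_ring (K : Type) [Field K] (s : ℕ) (hs : 1 ≤ s) :
    ∃ (R : Type) (_ : CommRing R) (_ : Algebra K R) (π : K[X] →+* R) (ε : R →+* K),
      Function.Surjective π ∧ (∀ f : K[X], π f = 0 ↔ X ^ s ∣ f) ∧
      (∀ f : K[X], ε (π f) = f.eval 0) ∧ (∀ f : K[X], aeval (π X) f = π f) := by
  let I : Ideal K[X] := Ideal.span {(X : K[X]) ^ s}
  refine ⟨K[X] ⧸ I, inferInstance, inferInstance, Ideal.Quotient.mk I,
    Ideal.Quotient.lift I (evalRingHom (0 : K)) (by
      intro f hf
      rw [Ideal.mem_span_singleton] at hf
      obtain ⟨g, rfl⟩ := hf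
      simp [show s ≠ 0 by omega]), Ideal.Quotient.mk_surjective, ?_, ?_, ?_⟩
  · intro f
    rw [Ideal.Quotient.eq_zero_iff_mem, Ideal.mem_span_singleton]
  · intro f
    simp
  · intro f
    have h1 : aeval ((Ideal.Quotient.mkₐ K I) X) f = (Ideal.Quotient.mkₐ K I) (aeval X f) :=
      aeval_algHom_apply _ _ _
    rw [aeval_X_left_apply] at h1
    exact h1

theorem stmtLocal (h : SpecTree) : StmtLocal := by
  intro K _ _ tb S hs n s hTb hSn hn hns hSh hTD hirr hnd hprod hs1
  obtain ⟨p, C, k, hp⟩ := h .unit
  -- the ring
  obtain ⟨R, iR, iA, π, ε, hsurj, hker, heps, hae⟩ := stmtLocal_ring K s hs1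
  have hnt : Nontrivial R := ε.domain_nontrivial
  have hτ : (π X) ^ s = 0 := by rw [← map_pow]; exact (hker _).2 dvd_rfl
  -- the input
  let A : List (List K) := S.map (fun r => r ++ List.replicate (s - (n + 1)) 0)
  let gs : List (Unit × List K) := hs.map (fun h => ((), h))
  let Y : List (List K) := List.replicate S.length (List.replicate s 0)
  have hAlen : A.length = S.length := by simp [A]
  have hA : Sh s A := by
    intro r hr
    simp only [A, List.mem_map] at hr
    obtain ⟨r', hr', rfl⟩ := hr
    have := hSh r' hr'
    simp [this]; omega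
  have hY : Sh s Y := by
    intro r hr
    simp only [Y, List.mem_replicate] at hr
    rw [hr.2]; simp
  have hhd : hd0 A = hd0 S := by
    simp only [hd0, A, List.map_map]
    apply List.map_congr_left
    intro r hr
    have := hSh r hr
    simp only [Function.comp]
    rw [List.getD_append _ _ _ _ (by omega)]
  have hlen1 : ∀ h ∈ hs, 1 ≤ h.length := by
    intro h hh
    by_contra hcon
    have h0 : h = [] := List.eq_nil_of_length_eq_zero (by omega)
    have := hirr h hh
    rw [h0] at this
    simp [mpol, pol] at this
  have hhs : hs ≠ [] := by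
    intro h0
    rw [h0] at hprod
    have h1 : (mpol (hd0 S)).natDegree = 0 := by rw [← hprod]; simp
    unfold mpol at h1
    rw [stmtLocal_natDegree] at h1
    simp [hd0] at h1
    rw [h1] at hSn
    simp at hSn; omega
  have hcop : hs.Pairwise (fun g g' => IsCoprime (mpol g) (mpol g')) := by
    refine List.Pairwise.imp_of_mem ?_ hnd
    intro g g' hg hg' hne
    have h1 := hirr g hg
    have h2 := hirr g' hg'
    refine (h1.coprime_iff_not_dvd).2 ?_
    intro hd
    have h3 := (h1.dvd_irreducible_iff_associated h2).1 hd
    have h4 := eq_of_monic_of_associated (stmtLocal_monic g) (stmtLocal_monic g') h3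
    exact hne (stmtLocal_inj g g' h4)
  have key := hp K tb s gs A Y Y hTb hs1 (by simp [gs, hhs])
    (by
      intro g hg
      simp only [gs, List.mem_map] at hg
      obtain ⟨h, hh, rfl⟩ := hg
      exact hlen1 h hh)
    (by
      simp only [gs, List.pairwise_map]
      exact hcop)
    (by
      rw [hhd, ← hprod]
      simp [gs, List.map_map, Function.comp_def])
    hA hY hY (by simp [Y, hAlen]) (by simp [Y, hAlen])
  simp only at key
  obtain ⟨k1, k2, k3, -⟩ := key
  generalize (p.val () (tb, (un s, (gs, (A, (Y, Y))))) :
    List (Unit × (List (List K) × (List (List K) × List (List K))))) = out at k1 k2 k3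
  -- reorder
  obtain ⟨out', ho1, ho2⟩ := stmtLocal_perm _ _ _ k1
  have ho3 : out'.map (fun o => hd0 o.2.1) = hs := by
    have := congrArg (List.map Prod.snd) ho2
    simpa [gs, List.map_map, Function.comp_def] using this
  have hlen : out'.length = hs.length := by rw [← ho3]; simp
  let G : List R[X] := out'.map (fun o => mrp (π X) o.2.1)
  have hGlen : G.length = hs.length := by simp [G, hlen]
  have hGprod : G.prod = mrp (π X) A := by
    have h1 := (k3 R (π X) hτ).1
    rw [← h1]
    exact ((ho1.map (fun o => mrp (π X) o.2.1)).prod_eq).symm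
  have hrp : ∀ l : List (List K), mrp (π X) l = X ^ l.length + pol (l.map (fun r => π (pol r))) := by
    intro l
    simp only [mrp, rp, hae]
  have hmA : mrp (π X) A = (mbiv S).map π := by
    rw [hrp, hAlen]
    simp only [mbiv, biv, Polynomial.map_add, Polynomial.map_pow, map_X, stmtLocal_map, A,
      List.map_map]
    congr 2
    apply List.map_congr_left
    intro r _
    simp only [Function.comp, stmtLocal_append]
  have hme : ∀ l : List (List K), (mrp (π X) l).map ε = mpol (hd0 l) := by
    intro l
    rw [hrp]
    simp only [Polynomial.map_add, Polynomial.map_pow, map_X, stmtLocal_map, mpol, hd0,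
      List.length_map, List.map_map]
    congr 2
    apply List.map_congr_left
    intro r _
    simp only [Function.comp, heps]
    rw [← coeff_zero_eq_eval_zero, stmtLocal_coeff]
  have hmm : ∀ l : List (List K), (mrp (π X) l).Monic := by
    intro l
    rw [hrp]
    have := stmtLocal_monic (l.map (fun r => π (pol r)))
    rwa [List.length_map] at this
  let F : Fin hs.length → R[X] := fun i => G.get (Fin.cast hGlen.symm i)
  have hF : ∀ i : Fin hs.length, F i = mrp (π X) (out'.get (Fin.cast hlen.symm i)).2.1 := by
    intro i
    simp [F, G]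
  have hFe : ∀ i, (F i).map ε = mpol (hs.get i) := by
    intro i
    rw [hF, hme]
    congr 1
    have h1 : (out'.map (fun o => hd0 o.2.1)).get (Fin.cast (by rw [ho3]) i) = hs.get i := by
      simp only [List.get_eq_getElem, Fin.val_cast]
      exact List.getElem_of_eq ho3 _
    rw [← h1]
    simp
  refine ⟨R, iR, π, ε, F, ?_, hFe⟩
  have hmb : (mbiv S).Monic := by
    have := stmtLocal_monic (S.map (pol (R := K)))
    rwa [List.length_map] at this
  have hdeg : (mbiv S).natDegree = n := by
    have := stmtLocal_natDegree (S.map (pol (R := K)))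
    rw [List.length_map, hSn] at this
    simpa [mbiv, biv, hSn] using this
  refine ⟨hsurj, hker, heps, hmb, hdeg, hn, hTD, ?_, ?_, ?_, ?_⟩
  · intro i; rw [hF]; exact hmm _
  · rw [← hmA, ← hGprod]
    rw [← List.prod_ofFn]
    congr 1
    apply List.ext_getElem
    · simp [hGlen]
    · intro i hi hi'
      simp [F]
  · intro i; rw [hFe]; exact hirr _ (List.get_mem _ _)
  · intro i j hij
    simp only [hFe] at hij
    exact hnd.injective_get (stmtLocal_inj _ _ hij)

end Pool.Agent.H330FB.JS2
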