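import Pool.Agent.H330FB.Lib5
import Pool.Agent.H330FB.Spec3b
set_option autoImplicit false
noncomputable section
namespace Pool.Agent.H330FB.JS4
open Polynomial

section alg

variable {L V : Type} [Field L] [AddCommGroup V] [Module L V] {a b N r : ℕ}

theorem blk_rel (u : Fin N → V) (w : Fin r → V) (blk : Fin r → ℕ)
    (hrel : ∀ (t : Fin N → L) (l : Fin r → L), ∑ j, t j • u j + ∑ i, l i • w i = 0 →
      (∀ i i', blk i = blk i' → l i = l i') ∧ (l = 0 → t = 0))
    (e : Fin a ⊕ Fin b ≃ Fin N ⊕ Fin r) (c : Fin N ⊕ Fin r → L)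
    (h : ∑ k, c (e (.inl k)) • (Sum.elim u w (e (.inl k))) +
      ∑ k, c (e (.inr k)) • (Sum.elim u w (e (.inr k))) = 0) :
    (∀ i i', blk i = blk i' → c (.inr i) = c (.inr i')) ∧
      ((∀ i, c (.inr i) = 0) → ∀ j, c (.inl j) = 0) := by
  have h1 : ∑ x, c (e x) • (Sum.elim u w (e x)) = 0 := by
    rw [Fintype.sum_sum_type]; exact h
  rw [Equiv.sum_comp e (fun x => c x • (Sum.elim u w x)), Fintype.sum_sum_type] at h1
  simp only [Sum.elim_inl, Sum.elim_inr] at h1
  obtain ⟨h2, h3⟩ := hrel (fun j => c (.inl j)) (fun i => c (.inr i)) h1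
  refine ⟨h2, fun h4 j => ?_⟩
  have := h3 (funext h4)
  exact congrFun this j

theorem blk_alg (e : Fin a ⊕ Fin b ≃ Fin N ⊕ Fin r) (u : Fin N → V) (w : Fin r → V)
    (blk : Fin r → ℕ)
    (hrel : ∀ (t : Fin N → L) (l : Fin r → L), ∑ j, t j • u j + ∑ i, l i • w i = 0 →
      (∀ i i', blk i = blk i' → l i = l i') ∧ (l = 0 → t = 0))
    (hind : ∀ i, ∃ t : Fin N → L, ∑ j, t j • u j +
      ∑ i', (if blk i' = blk i then (1 : L) else 0) • w i' = 0)
    (hli : LinearIndependent L (fun k : Fin a => Sum.elim u w (e (.inl k))))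
    (X : Fin b → Fin a → L)
    (hX : ∀ k, Sum.elim u w (e (.inr k)) = ∑ k', X k k' • Sum.elim u w (e (.inl k')))
    (hρ : ∀ k k', X k k' ≠ 0 → ∀ j, e (.inr k) = .inl j → ∃ j', e (.inl k') = .inl j') :
    ∃ φ : Fin b → Fin r, (∀ k, e (.inr k) = .inr (φ k)) ∧
      (∀ k k', blk (φ k) = blk (φ k') → k = k') ∧ (∀ i, ∃ k, blk (φ k) = blk i) ∧
      (∀ k k' i, e (.inl k') = .inr i → X k k' = if blk i = blk (φ k) then -1 else 0) := by
  classical
  -- the relation of a free column
  let c : Fin b → Fin N ⊕ Fin r → L := fun k x =>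
    Sum.elim (fun k' => - X k k') (fun k' => if k' = k then 1 else 0) (e.symm x)
  have hc1 : ∀ k k', c k (e (.inl k')) = - X k k' := by
    intro k k'; simp [c]
  have hc2 : ∀ k k', c k (e (.inr k')) = if k' = k then 1 else 0 := by
    intro k k'; simp [c]
  have hc : ∀ k, ∑ k', c k (e (.inl k')) • (Sum.elim u w (e (.inl k'))) +
      ∑ k', c k (e (.inr k')) • (Sum.elim u w (e (.inr k'))) = 0 := by
    intro k
    simp only [hc1, hc2, neg_smul, Finset.sum_neg_distrib, ite_smul, one_smul, zero_smul,
      Finset.sum_ite_eq', Finset.mem_univ, if_true]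
    rw [← hX k]
    simp
  have hcr := fun k => blk_rel u w blk hrel e (c k) (hc k)
  -- free columns are not place columns
  have hfree : ∀ k, ∃ i, e (.inr k) = .inr i := by
    intro k
    rcases hk : e (.inr k) with j | i
    · exfalso
      have h0 : ∀ i, c k (.inr i) = 0 := by
        intro i
        obtain ⟨x, hx⟩ := e.surjective (.inr i)
        rcases x with k' | k'
        · rw [← hx, hc1]
          by_contra hne
          have hne' : X k k' ≠ 0 := fun h => hne (by rw [h, neg_zero])
          obtain ⟨j', hj'⟩ := hρ k k' hne' j hk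
          rw [hx] at hj'
          exact absurd hj' (by simp)
        · rw [← hx, hc2]
          split_ifs with h
          · exfalso
            rw [h, hk] at hx
            exact absurd hx (by simp)
          · rfl
      have h1 := (hcr k).2 h0 j
      rw [← hk, hc2] at h1
      simp at h1
    · exact ⟨i, rfl⟩
  choose φ hφ using hfree
  have hcφ : ∀ k k', c k (.inr (φ k')) = if k' = k then 1 else 0 := by
    intro k k'; rw [← hφ, hc2]
  have huniq : ∀ k k', blk (φ k) = blk (φ k') → k = k' := by
    intro k k' h
    have h1 := (hcr k).1 _ _ h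
    rw [hcφ, hcφ, if_pos rfl] at h1
    by_contra hne
    rw [if_neg (fun h => hne h.symm)] at h1
    exact one_ne_zero h1
  have hex : ∀ i, ∃ k, blk (φ k) = blk i := by
    intro i
    by_contra hno
    push Not at hno
    obtain ⟨t, ht⟩ := hind i
    let d : Fin N ⊕ Fin r → L := Sum.elim t (fun i' => if blk i' = blk i then 1 else 0)
    have hd : ∑ x, d x • (Sum.elim u w x) = 0 := by
      rw [Fintype.sum_sum_type]; exact ht
    rw [← Equiv.sum_comp e, Fintype.sum_sum_type] at hd
    have hd2 : ∀ k, d (e (.inr k)) = 0 := by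
      intro k
      rw [hφ]
      simp only [d, Sum.elim_inr]
      rw [if_neg (hno k)]
    simp only [hd2, zero_smul, Finset.sum_const_zero, add_zero] at hd
    have hd3 := (Fintype.linearIndependent_iff.mp hli) (fun k => d (e (.inl k))) hd
    obtain ⟨x, hx⟩ := e.surjective (.inr i)
    have h1 : d (e x) = 1 := by rw [hx]; simp [d]
    rcases x with k | k
    · rw [hd3] at h1; exact zero_ne_one h1
    · rw [hd2] at h1; exact zero_ne_one h1
  refine ⟨φ, hφ, huniq, hex, ?_⟩
  intro k k' i hi
  have h1 : c k (.inr i) = - X k k' := by rw [← hi, hc1]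
  split_ifs with h
  · have h2 := (hcr k).1 _ _ h
    rw [hcφ, if_pos rfl, h1] at h2
    linear_combination -h2
  · obtain ⟨k'', hk''⟩ := hex i
    have hne : k'' ≠ k := by
      intro hh
      rw [hh] at hk''
      exact h hk''.symm
    have h2 := (hcr k).1 _ _ hk''
    rw [hcφ, if_neg hne, h1] at h2
    linear_combination h2

end alg

section lists

theorem blk_perm_map {α β : Type} (f : α → β) {l₁ : List β} {m : List β} (h : l₁.Perm m) :
    ∀ l₂ : List α, m = l₂.map f → ∃ l : List α, l.Perm l₂ ∧ l.map f = l₁ := by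
  induction h with
  | nil =>
    intro l₂ h2
    exact ⟨l₂, List.Perm.refl _, h2.symm⟩
  | @cons x l₁ m h ih =>
    intro l₂ h2
    rcases l₂ with _ | ⟨y, l₂⟩
    · simp at h2
    · simp only [List.map_cons, List.cons.injEq] at h2
      obtain ⟨l, hl1, hl2⟩ := ih l₂ h2.2
      exact ⟨y :: l, hl1.cons y, by simp [hl2, h2.1]⟩
  | @swap x y l =>
    intro l₂ h2
    rcases l₂ with _ | ⟨a, _ | ⟨b, l₂⟩⟩
    · simp at h2
    · simp at h2
    · simp only [List.map_cons, List.cons.injEq] at h2
      exact ⟨b :: a :: l₂, List.Perm.swap a b l₂, by simp [h2]⟩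
  | @trans l₁ l₂' l₃ h1 h2 ih1 ih2 =>
    intro l₂ h3
    obtain ⟨l, hl1, hl2⟩ := ih2 l₂ h3
    obtain ⟨l', hl1', hl2'⟩ := ih1 l hl2.symm
    exact ⟨l', hl1'.trans hl1, hl2'⟩

/-- the labels with a coefficient which is not zero -/
def blkSel {α F : Type} [Field F] [DecidableEq F] (acc : List α) (zs : List (α × F)) : List α :=
  List.foldl (fun y z => if z.2 = 0 then y else z.1 :: y) acc zs

theorem blkSel_prod {α F M : Type} [Field F] [DecidableEq F] [CommMonoid M] (h : α → M)
    (zs : List (α × F)) : ∀ acc : List α, ((blkSel acc zs).map h).prod =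
      (acc.map h).prod * (zs.map (fun z => if z.2 = 0 then 1 else h z.1)).prod := by
  induction zs with
  | nil => intro acc; simp [blkSel]
  | cons z zs ih =>
    intro acc
    have h1 : blkSel acc (z :: zs) = blkSel (if z.2 = 0 then acc else z.1 :: acc) zs := rfl
    rw [h1, ih]
    split_ifs with h0
    · simp [h0]
    · simp [h0, mul_left_comm, mul_assoc]

theorem blkSel_length {α F : Type} [Field F] [DecidableEq F]
    (zs : List (α × F)) : ∀ acc : List α, (blkSel acc zs).length ≤ acc.length + zs.length := by
  induction zs with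
  | nil => intro acc; simp [blkSel]
  | cons z zs ih =>
    intro acc
    have h1 : blkSel acc (z :: zs) = blkSel (if z.2 = 0 then acc else z.1 :: acc) zs := rfl
    rw [h1]
    have := ih (if z.2 = 0 then acc else z.1 :: acc)
    split_ifs at this ⊢
    · simp; omega
    · simp at this ⊢; omega

theorem blkSel_mem {α F : Type} [Field F] [DecidableEq F]
    (zs : List (α × F)) : ∀ (acc : List α), ∀ A ∈ blkSel acc zs, A ∈ acc ∨ ∃ z ∈ zs, A = z.1 := by
  induction zs with
  | nil => intro acc A hA; left; simpa [blkSel] using hA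
  | cons z zs ih =>
    intro acc A hA
    have h1 : blkSel acc (z :: zs) = blkSel (if z.2 = 0 then acc else z.1 :: acc) zs := rfl
    rw [h1] at hA
    rcases ih _ A hA with h | ⟨z', hz', h⟩
    · split_ifs at h
      · left; exact h
      · rcases List.mem_cons.mp h with h | h
        · right; exact ⟨z, by simp, h⟩
        · left; exact h
    · right; exact ⟨z', by simp [hz'], h⟩

theorem blk_zip {α F : Type} [Field F] (P : List α) (X : List F) (h : X.length = P.length) :
    List.zipWith (fun y z => (y, z)) P X =
      List.ofFn (fun k : Fin P.length => (P.get k, X.getD k 0)) := by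
  apply List.ext_getElem
  · simp [h]
  · intro i h1 h2
    simp only [List.length_zipWith] at h1
    have h3 : i < X.length := by omega
    simp [List.getElem_zipWith, List.getD_eq_getElem?_getD, h3]

/-- the result for one free column -/
structure BlkRes {L : Type} [Field L] [DecidableEq L] (n r : ℕ) (As : Fin r → List (List L))
    (blk : Fin r → ℕ) (P : List (List (List L))) (Fr : List (List (List L) × List L)) where
  φ : Fin Fr.length → Fin r
  inj : ∀ k k', blk (φ k) = blk (φ k') → k = k'
  surj : ∀ i, ∃ k, blk (φ k) = blk i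
  lenX : ∀ x ∈ Fr, x.2.length = P.length
  len : P.length + Fr.length = 4 * n + 4 + r
  mem : ∀ A ∈ P ++ Fr.map Prod.fst, A = [] ∨ ∃ i, A = As i
  prod : ∀ (k : Fin Fr.length) (M : Type) [CommMonoid M] (h : List (List L) → M), h [] = 1 →
    ((blkSel [(Fr.get k).1] (List.zipWith (fun y z => (y, z)) P (Fr.get k).2)).map h).prod =
      ∏ i ∈ Finset.univ.filter (fun i => blk i = blk (φ k)), h (As i)

theorem blk_lists {L : Type} [Field L] [DecidableEq L] (n r : ℕ)
    (tc : Fin (4 * n + 4) → List L) (As : Fin r → List (List L)) (lc : Fin r → List L)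
    (blk : Fin r → ℕ) (hA : ∀ i, 1 ≤ (As i).length)
    (hrel : ∀ (t : Fin (4 * n + 4) → L) (l : Fin r → L),
      ∑ j, t j • cvec (tc j) + ∑ i, l i • cvec (lc i) = 0 →
        (∀ i i', blk i = blk i' → l i = l i') ∧ (l = 0 → t = 0))
    (hind : ∀ i, ∃ t : Fin (4 * n + 4) → L, ∑ j, t j • cvec (tc j) +
      ∑ i', (if blk i' = blk i then (1 : L) else 0) • cvec (lc i') = 0)
    (P : List (List (List L))) (Fr : List (List (List L) × List L))
    (hK : KerSpec (List.ofFn (fun j => (([] : List (List L)), tc j)) ++
      List.ofFn (fun i => (As i, lc i))) P Fr) : Nonempty (BlkRes n r As blk P Fr) := by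
  classical
  obtain ⟨P', Fr', hP, hFr, hperm, -, hli, hX, hρ⟩ := hK
  let g : Fin (4 * n + 4) ⊕ Fin r → List (List L) × List L :=
    Sum.elim (fun j => ([], tc j)) (fun i => (As i, lc i))
  let idx0 : List (Fin (4 * n + 4) ⊕ Fin r) := List.ofFn Sum.inl ++ List.ofFn Sum.inr
  have hcs : List.ofFn (fun j => (([] : List (List L)), tc j)) ++
      List.ofFn (fun i => (As i, lc i)) = idx0.map g := by
    simp [idx0, g, List.map_append, List.map_ofFn, Function.comp_def]
  obtain ⟨idx, hidx1, hidx2⟩ := blk_perm_map g hperm idx0 hcs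
  have hnd0 : idx0.Nodup := by
    apply List.Nodup.append
    · exact List.nodup_ofFn.mpr Sum.inl_injective
    · exact List.nodup_ofFn.mpr Sum.inr_injective
    · intro x h1 h2
      rw [List.mem_ofFn] at h1 h2
      obtain ⟨y, hy⟩ := h1
      obtain ⟨z, hz⟩ := h2
      rw [← hz] at hy
      exact absurd hy (by simp)
  have hnd : idx.Nodup := hidx1.nodup_iff.mpr hnd0
  have hall : ∀ x, x ∈ idx := by
    intro x
    rw [hidx1.mem_iff]
    rcases x with j | i
    · exact List.mem_append_left _ (List.mem_ofFn.mpr ⟨j, rfl⟩)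
    · exact List.mem_append_right _ (List.mem_ofFn.mpr ⟨i, rfl⟩)
  have hlen : P'.length + Fr'.length = idx.length := by
    have := congrArg List.length hidx2
    simp at this
    exact this.symm
  let e : Fin P'.length ⊕ Fin Fr'.length ≃ Fin (4 * n + 4) ⊕ Fin r :=
    (finSumFinEquiv.trans (finCongr hlen)).trans (hnd.getEquivOfForallMemList idx hall)
  have hel : ∀ k, g (e (.inl k)) = P'.get k := by
    intro k
    have h1 : g (e (.inl k)) = (idx.map g)[(k : ℕ)]'(by simp; omega) := by
      simp [e]
    rw [h1]
    simp only [hidx2]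
    rw [List.getElem_append_left]
    rfl
  have her : ∀ k, g (e (.inr k)) = (Fr'.get k).1 := by
    intro k
    have h1 : g (e (.inr k)) = (idx.map g)[(P'.length + k : ℕ)]'(by simp; omega) := by
      simp [e]
    rw [h1]
    simp only [hidx2]
    rw [List.getElem_append_right (by omega)]
    simp
  have hUV : ∀ x, Sum.elim (fun j => cvec (tc j)) (fun i => cvec (lc i)) x = cvec (g x).2 := by
    intro x
    rcases x with j | i <;> rfl
  obtain ⟨φ, hφ1, hφ2, hφ3, hφ4⟩ := blk_alg e (fun j => cvec (tc j)) (fun i => cvec (lc i)) blk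
    hrel hind
    (by
      have : (fun k : Fin P'.length => Sum.elim (fun j => cvec (tc j)) (fun i => cvec (lc i))
          (e (.inl k))) = fun k : Fin P'.length => cvec (P'.get k).2 := by
        funext k
        rw [hUV, hel]
      rw [this]
      exact hli)
    (fun k k' => (Fr'.get k).2.getD k' 0)
    (by
      intro k
      rw [hUV, her, (hX _ (List.get_mem Fr' k)).2]
      apply Finset.sum_congr rfl
      intro k' _
      rw [hUV, hel])
    (by
      intro k k' hne j hj
      have h1 := hρ (fun x => min 1 x.1.length) (by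
        rw [List.pairwise_append]
        refine ⟨?_, ?_, ?_⟩
        · rw [List.pairwise_ofFn]
          intro i j _
          simp
        · rw [List.pairwise_ofFn]
          intro i j _
          have h1 := hA i
          have h2 := hA j
          simp only
          omega
        · intro x hx y hy
          rw [List.mem_ofFn] at hx
          obtain ⟨j, rfl⟩ := hx
          simp) _ (List.get_mem Fr' k) k' hne
      rw [← her, ← hel, hj] at h1
      rcases hk' : e (.inl k') with j' | i
      · exact ⟨j', rfl⟩
      · exfalso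
        rw [hk'] at h1
        simp only [g, Sum.elim_inl, Sum.elim_inr, List.length_nil] at h1
        have := hA i
        omega)
  have hlenFr : Fr.length = Fr'.length := by rw [hFr, List.length_map]
  have hget : ∀ k : Fin Fr.length, Fr.get k =
      ((Fr'.get (Fin.cast hlenFr k)).1.1, (Fr'.get (Fin.cast hlenFr k)).2) := by
    intro k
    subst hFr
    simp
  refine ⟨⟨fun k => φ (Fin.cast hlenFr k), ?_, ?_, ?_, ?_, ?_, ?_⟩⟩
  · intro k k' h
    have := hφ2 _ _ h
    exact Fin.cast_injective hlenFr this
  · intro i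
    obtain ⟨k, hk⟩ := hφ3 i
    exact ⟨Fin.cast hlenFr.symm k, by simpa using hk⟩
  · intro x hx
    rw [hFr, List.mem_map] at hx
    obtain ⟨y, hy, rfl⟩ := hx
    rw [hP, List.length_map]
    exact (hX y hy).1
  · rw [hlenFr, hP, List.length_map, hlen, hidx1.length_eq]
    simp only [idx0, List.length_append, List.length_ofFn]
  · intro A hA'
    have h1 : A ∈ (P' ++ Fr'.map Prod.fst).map Prod.fst := by
      rw [hP, hFr] at hA'
      simp only [List.map_append, List.map_map] at hA' ⊢
      exact hA'
    rw [← hidx2, List.map_map, List.mem_map] at h1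
    obtain ⟨x, -, rfl⟩ := h1
    rcases x with j | i
    · left; rfl
    · right; exact ⟨i, rfl⟩
  · intro k M _ h h1
    have hlX : (Fr.get k).2.length = P.length := by
      rw [hget k, hP, List.length_map]
      exact (hX _ (List.get_mem Fr' _)).1
    rw [blkSel_prod, blk_zip _ _ hlX, List.map_ofFn, List.prod_ofFn]
    subst hP
    have hL : (P'.map Prod.fst).length = P'.length := List.length_map ..
    generalize hk0 : Fin.cast hlenFr k = k0
    rw [hget k, hk0]
    -- the right side as a product over all columns
    let H' : Fin (4 * n + 4) ⊕ Fin r → M := Sum.elim (fun _ => 1)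
      (fun i => if blk i = blk (φ k0) then h (As i) else 1)
    have hR : ∏ i ∈ Finset.univ.filter (fun i => blk i = blk (φ k0)), h (As i) =
        ∏ x, H' x := by
      rw [Fintype.prod_sum_type, Finset.prod_filter]
      simp [H']
    rw [hR, ← Equiv.prod_comp e, Fintype.prod_sum_type, mul_comm]
    congr 1
    · rw [← Equiv.prod_comp (finCongr hL)]
      apply Finset.prod_congr rfl
      intro x _
      have hx : (P'.map Prod.fst).get x = (g (e (.inl (Fin.cast hL x)))).1 := by
        rw [hel]
        simp
      simp only [Function.comp_apply, finCongr_apply]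
      rw [hx]
      have hX4 := hφ4 k0 (Fin.cast hL x)
      rcases hc : e (.inl (Fin.cast hL x)) with j | i
      · simp only [H', Sum.elim_inl, g, h1, ite_self]
      · have := hX4 i hc
        simp only [Fin.val_cast] at this
        simp only [H', Sum.elim_inr, g, this]
        by_cases hb : blk i = blk (φ k0)
        · simp [hb]
        · simp [hb]
    · rw [Fintype.prod_eq_single k0]
      · rw [hφ1]
        simp only [H', Sum.elim_inr, if_true, List.map_cons, List.map_nil, List.prod_cons,
          List.prod_nil, mul_one]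
        rw [← her, hφ1]
        rfl
      · intro x hx
        rw [hφ1]
        simp only [H', Sum.elim_inr]
        rw [if_neg]
        intro hh
        exact hx (hφ2 _ _ hh)

end lists


section prog

variable {F : Type} [Field F] [DecidableEq F]

/-- context -/
abbrev BlkG : Ty := .prod (.prod TB (.prod Un (.list (.prod Ma Po))))
  (.prod (.list Ma) (.list (.prod Ma Po)))

/-- one step of the selection -/
def blkStep : Pr [] (.prod .unit (.prod (.list Ma) (.prod Ma .fld))) (.list Ma) :=
  onZ (.comp .snd (.comp .snd .snd)) (.comp .snd .fst)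
    (.comp (.pair (.comp .snd (.comp .snd .fst)) (.comp .snd .fst)) .cons)

/-- the selection -/
def blkSelP : Pr [] (.prod BlkG (.prod Ma Po)) (.list Ma) :=
  .comp (.pair .star (.pair (.comp (.pair (.comp .snd .fst) .nil) .cons)
    (.comp (.pair .star (.pair (.comp .fst (.comp .snd .fst)) (.comp .snd .snd)))
      (zipP (c := .unit) (a := Ma) (b := .fld) (d := .prod Ma .fld) .snd))))
    (foldP (c := .unit) blkStep)

theorem val_blkStep (x : Unit × (List (List (List F)) × (List (List F) × F))) :
    (blkStep.val (F := F) () x : List (List (List F))) =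
      if x.2.2.2 = 0 then x.2.1 else x.2.2.1 :: x.2.1 := by
  rfl

theorem cost_blkStep (x : Unit × (List (List (List F)) × (List (List F) × F))) :
    blkStep.cost (F := F) () () x ≤ 20 := by
  obtain ⟨u, acc, A, y⟩ := x
  simp only [blkStep, cost_onZ, cost_comp, cost_snd, cost_fst, cost_pair, cost_cons]
  split_ifs <;> omega

theorem val_blkSelP (c : Ty.D F BlkG) (A : List (List F)) (X : List F) :
    (blkSelP.val (F := F) () (c, (A, X)) : List (List (List F))) =
      blkSel [A] (List.zipWith (fun y z => (y, z)) (c.2.1 : List (List (List F))) X) := by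
  simp only [blkSelP, val_comp, val_pair, val_star, val_snd, val_fst, val_nil, val_cons,
    val_zipP, val_foldP]
  unfold blkSel
  congr 1

theorem cost_blkSelP (c : Ty.D F BlkG) (A : List (List F)) (X : List F) :
    blkSelP.cost (F := F) () () (c, (A, X)) ≤ 97 * List.length c.2.1 + 60 := by
  have h1 := cost_zipP_le (F := F) (s := []) (c := .unit) (a := Ma) (b := .fld)
    (d := .prod Ma .fld) .snd () () ((), ((c.2.1 : List (List (List F))), X)) 1
    (fun _ _ _ _ => by simp)
  have h2 := cost_foldP_le (F := F) (s := []) (c := .unit) (b := .list Ma) (a := .prod Ma .fld)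
    blkStep () () ((), (([A] : List (List (List F))),
      List.zipWith (fun y z => (y, z)) (c.2.1 : List (List (List F))) X)) 20 (fun _ => True)
    trivial (fun _ _ _ _ => trivial) (fun y z _ _ => cost_blkStep ((), (y, z)))
  have h3 : (List.zipWith (fun y z => (y, z)) (c.2.1 : List (List (List F))) X).length ≤
      List.length c.2.1 := by
    rw [List.length_zipWith]
    exact Nat.min_le_left _ _
  simp only [blkSelP, cost_comp, cost_pair, cost_star, cost_snd, cost_fst, cost_nil, cost_cons,
    val_comp, val_pair, val_star, val_snd, val_fst, val_nil, val_cons, val_zipP] at h1 h2 ⊢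
  generalize (foldP blkStep).cost (F := F) () () _ = v at h2 ⊢
  generalize (zipP (.snd : Pr [] (.prod .unit (.prod Ma .fld)) _)).cost (F := F) () () _ = v' at h1 ⊢
  have h4 := h2.trans (Nat.add_le_add_right (Nat.mul_le_mul_left (20 + 27) h3) 14)
  omega

/-- the program for one free column -/
def blkF (pM : Pr [] (.prod TB (.prod Un (.list Ma))) Ma) : Pr [] (.prod BlkG (.prod Ma Po)) Ma :=
  .comp (.pair (.comp .fst (.comp .fst .fst))
    (.pair (.comp .fst (.comp .fst (.comp .snd .fst))) blkSelP)) pM

theorem val_blkF (pM : Pr [] (.prod TB (.prod Un (.list Ma))) Ma) (c : Ty.D F BlkG)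
    (y : List (List F) × List F) :
    ((blkF pM).val (F := F) () (c, y) : List (List F)) = pM.val () (c.1.1, (c.1.2.1,
      blkSel [y.1] (List.zipWith (fun y z => (y, z)) (c.2.1 : List (List (List F))) y.2))) := by
  obtain ⟨A, X⟩ := y
  simp only [blkF, val_comp, val_pair, val_fst, val_snd]
  have := val_blkSelP (F := F) c A X
  rw [this]

theorem cost_blkF (pM : Pr [] (.prod TB (.prod Un (.list Ma))) Ma) (c : Ty.D F BlkG)
    (y : List (List F) × List F) :
    (blkF pM).cost (F := F) () () (c, y) ≤ pM.cost () () (c.1.1, (c.1.2.1,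
      blkSel [y.1] (List.zipWith (fun y z => (y, z)) (c.2.1 : List (List (List F))) y.2))) +
      (97 * List.length c.2.1 + 80) := by
  obtain ⟨A, X⟩ := y
  simp only [blkF, cost_comp, cost_pair, cost_fst, cost_snd, val_comp, val_pair, val_fst, val_snd]
  have h1 := val_blkSelP (F := F) c A X
  have h2 := cost_blkSelP (F := F) c A X
  rw [h1]
  generalize pM.cost (F := F) () () _ = u
  generalize blkSelP.cost (F := F) () () _ = v at h2 ⊢
  omega

/-- the whole program -/
def blkProg (pK : Pr [] (.list (.prod Ma Po)) (.prod (.list Ma) (.list (.prod Ma Po))))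
    (pM : Pr [] (.prod TB (.prod Un (.list Ma))) Ma) :
    Pr [] (.prod TB (.prod Un (.list (.prod Ma Po)))) (.list Ma) :=
  lt (.comp (.comp .snd .snd) pK) (.comp (.pair .id (.comp .snd .snd))
    (mapP (c := BlkG) (a := .prod Ma Po) (b := Ma) (blkF pM)))

theorem val_blkProg (pK : Pr [] (.list (.prod Ma Po)) (.prod (.list Ma) (.list (.prod Ma Po))))
    (pM : Pr [] (.prod TB (.prod Un (.list Ma))) Ma) (tb : List (List F) × List (List F))
    (u : List Unit) (cs : List (List (List F) × List F)) :
    ((blkProg pK pM).val (F := F) () (tb, (u, cs)) : List (List (List F))) =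
      List.map (fun y : List (List F) × List F => (pM.val () (tb, (u, (blkSel [y.1]
        (List.zipWith (fun y z => (y, z)) ((pK.val () cs).1 : List (List (List F))) y.2)))) :
          List (List F)))
        ((pK.val () cs).2 : List (List (List F) × List F)) := by
  simp only [blkProg, val_lt, val_comp, val_pair, val_id, val_snd, val_mapP]
  apply List.map_congr_left
  intro y _
  exact val_blkF pM ((tb, (u, cs)), pK.val () cs) y

theorem cost_blkProg (pK : Pr [] (.list (.prod Ma Po)) (.prod (.list Ma) (.list (.prod Ma Po))))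
    (pM : Pr [] (.prod TB (.prod Un (.list Ma))) Ma) (tb : List (List F) × List (List F))
    (u : List Unit) (cs : List (List (List F) × List F)) :
    (blkProg pK pM).cost (F := F) () () (tb, (u, cs)) ≤ pK.cost () () cs + 20 +
      (List.map (fun y : List (List F) × List F => pM.cost () () (tb, (u, (blkSel [y.1]
        (List.zipWith (fun y z => (y, z)) ((pK.val () cs).1 : List (List (List F))) y.2)))) +
          (97 * List.length (pK.val () cs).1 + 100))
        ((pK.val () cs).2 : List (List (List F) × List F))).sum := by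
  have h1 := cost_mapP (F := F) (s := []) (c := BlkG) (a := .prod Ma Po) (b := Ma)
      (blkF pM) () () (((tb, (u, cs)), pK.val () cs), (pK.val () cs).2)
  have h2 : (List.map (fun y : List (List F) × List F =>
      (blkF pM).cost (F := F) () () (((tb, (u, cs)), pK.val () cs), y) + 13)
        ((pK.val () cs).2 : List (List (List F) × List F))).sum ≤
      (List.map (fun y : List (List F) × List F => pM.cost () () (tb, (u, (blkSel [y.1]
        (List.zipWith (fun y z => (y, z)) ((pK.val () cs).1 : List (List (List F))) y.2)))) +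
          (97 * List.length (pK.val () cs).1 + 100))
        ((pK.val () cs).2 : List (List (List F) × List F))).sum := by
    apply List.sum_le_sum
    intro y _
    have e1 := cost_blkF pM ((tb, (u, cs)), pK.val () cs) y
    simp only at e1 ⊢
    generalize (blkF pM).cost (F := F) () () _ = v at e1 ⊢
    generalize pM.cost (F := F) () () _ = v' at e1 ⊢
    omega
  have h3 := h1.trans (Nat.add_le_add_right h2 5)
  simp only [blkProg, cost_lt, cost_comp, cost_pair, cost_id, cost_snd, val_comp,
    val_pair, val_id, val_snd]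
  generalize (mapP (blkF pM)).cost (F := F) () () _ = v at h3 ⊢
  generalize (List.map _ _ : List ℕ).sum = v' at h3 ⊢
  generalize pK.cost (F := F) () () _ = v''
  omega

end prog


theorem blk_sum_blocks {r b : ℕ} (blk : Fin r → ℕ) (φ : Fin b → Fin r)
    (inj : ∀ k k', blk (φ k) = blk (φ k') → k = k') (surj : ∀ i, ∃ k, blk (φ k) = blk i)
    (f : Fin r → ℕ) :
    ∑ k, ∑ i ∈ Finset.univ.filter (fun i => blk i = blk (φ k)), f i = ∑ i, f i := by
  simp only [Finset.sum_filter]
  rw [Finset.sum_comm]
  apply Finset.sum_congr rfl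
  intro i _
  obtain ⟨k, hk⟩ := surj i
  rw [Fintype.sum_eq_single k]
  · rw [if_pos hk.symm]
  · intro k' hk'
    rw [if_neg]
    intro h
    exact hk' (inj _ _ (h.symm.trans hk.symm))

theorem blk_mu_sum (muS : ∀ a b, mu a + mu b ≤ mu (a + b)) {b : ℕ} (f : Fin b → ℕ) :
    ∑ k, mu (f k) ≤ mu (∑ k, f k) := by
  have : ∀ s : Finset (Fin b), ∑ k ∈ s, mu (f k) ≤ mu (∑ k ∈ s, f k) := by
    classical
    intro s
    induction s using Finset.induction_on with
    | empty => simp
    | insert a s ha ih =>
      rw [Finset.sum_insert ha, Finset.sum_insert ha]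
      exact (Nat.add_le_add_left ih _).trans (muS _ _)
  exact this _

theorem blk_mult {α : Type} (l : List α) (f : α → ℕ) :
    (l.map (fun A => Multiplicative.ofAdd (f A))).prod = Multiplicative.ofAdd ((l.map f).sum) := by
  induction l with
  | nil => rfl
  | cons x l ih => simp [ih, ofAdd_add]

theorem blk_lgc (n N : ℕ) (h : N ≤ 25 * (n + 1)) : lgc N ≤ 6 * lgc (n + 1) := by
  unfold lgc
  have h1 : N ≤ 2 ^ (5 + Nat.clog 2 (n + 1)) := by
    have h2 := Nat.le_pow_clog (b := 2) (by norm_num) (n + 1)
    rw [pow_add]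
    calc N ≤ 25 * (n + 1) := h
      _ ≤ 2 ^ 5 * (n + 1) := by omega
      _ ≤ 2 ^ 5 * 2 ^ Nat.clog 2 (n + 1) := Nat.mul_le_mul_left _ h2
  have h3 := Nat.clog_le_of_le_pow h1
  omega

theorem specBlk (h1 : SpecKer) (h2 : SpecProd) (h0 : SpecUnits) : SpecBlk := by
  obtain ⟨pK, C1, hK⟩ := h1 Ma
  obtain ⟨pM, C2, k2, hM⟩ := h2
  obtain ⟨muM, wwM, vvM, muS, wwS, muN, wwN, muc, wwc, vvc, muww, -, -, -⟩ := h0
  obtain ⟨Cv, hCv⟩ := vvc 43
  obtain ⟨C3, hC3⟩ := muww 26
  refine ⟨blkProg pK pM, 47 * C1 * Cv + C2 * 6 ^ k2 * C3 + 508, k2, ?_⟩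
  intro L _ _ tb n r m tc As lc blk htb hn hm htc hlc hSh hA hsum hrel hind out
  set cs : List (List (List L) × List L) :=
    List.ofFn (fun j => (([] : List (List L)), tc j)) ++ List.ofFn (fun i => (As i, lc i)) with hcs
  have hcsm : ∀ x ∈ cs, x.2.length = m := by
    intro x hx
    rw [hcs, List.mem_append, List.mem_ofFn, List.mem_ofFn] at hx
    rcases hx with ⟨j, rfl⟩ | ⟨i, rfl⟩
    · exact htc j
    · exact hlc i
  have hcsl : cs.length = 4 * n + 4 + r := by
    rw [hcs, List.length_append, List.length_ofFn, List.length_ofFn]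
  obtain ⟨hspec, hcost⟩ := hK L m cs hcsm
  have hout : out = _ := val_blkProg pK pM tb (un (12 * n + 20)) cs
  have hcost2 := cost_blkProg pK pM tb (un (12 * n + 20)) cs
  clear_value out
  generalize hP : ((pK.val () cs).1 : List (List (List L))) = P at hspec hout hcost2
  generalize hFr : ((pK.val () cs).2 : List (List (List L) × List L)) = Fr at hspec hout hcost2
  obtain ⟨B⟩ := blk_lists n r tc As lc blk hA hrel hind P Fr hspec
  -- one column
  let sel : Fin Fr.length → List (List (List L)) := fun k =>
    blkSel [(Fr.get k).1] (List.zipWith (fun y z => (y, z)) P (Fr.get k).2)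
  have hsel : ∀ k, ∀ A ∈ sel k, Sh (12 * n + 20) A := by
    intro k A hA'
    have hmem : A ∈ P ++ Fr.map Prod.fst := by
      rcases blkSel_mem _ _ A hA' with h | ⟨z, hz, rfl⟩
      · rw [List.mem_singleton] at h
        apply List.mem_append_right
        rw [h]
        exact List.mem_map.mpr ⟨_, List.get_mem Fr k, rfl⟩
      · apply List.mem_append_left
        rw [blk_zip P _ (B.lenX _ (List.get_mem Fr k)), List.mem_ofFn] at hz
        obtain ⟨k', rfl⟩ := hz
        exact List.get_mem P k'
    rcases B.mem A hmem with rfl | ⟨i, rfl⟩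
    · intro r' hr'
      simp at hr'
    · exact hSh i
  have hMk := fun k => hM L tb (12 * n + 20) (sel k) htb (by omega) (hsel k)
  have hlenk : ∀ k, ((sel k).map List.length).sum =
      ∑ i ∈ Finset.univ.filter (fun i => blk i = blk (B.φ k)), (As i).length := by
    intro k
    have h := B.prod k (Multiplicative ℕ) (fun A => Multiplicative.ofAdd A.length) rfl
    have h' := blk_mult (sel k) List.length
    have h'' := h'.symm.trans h
    rw [← ofAdd_sum] at h''
    exact Multiplicative.ofAdd.injective h''
  have hselen : ∀ k, (sel k).length ≤ 1 + P.length := by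
    intro k
    have h := blkSel_length (List.zipWith (fun y z => (y, z)) P (Fr.get k).2) [(Fr.get k).1]
    rw [List.length_zipWith] at h
    have h' : min P.length (Fr.get k).2.length ≤ P.length := Nat.min_le_left _ _
    simp only [List.length_singleton] at h
    exact h.trans (by omega)
  refine ⟨⟨List.ofFn B.φ, ?_, ?_, ?_, ?_⟩, ?_⟩
  · rw [List.length_ofFn, hout, List.length_map]
  · rw [List.map_ofFn]
    exact List.nodup_ofFn.mpr (fun k k' h => B.inj k k' h)
  · intro i
    obtain ⟨k, hk⟩ := B.surj i
    exact ⟨B.φ k, List.mem_ofFn.mpr ⟨k, rfl⟩, hk⟩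
  · intro j hj hj'
    have hj2 : j < Fr.length := by
      rw [hout, List.length_map] at hj
      exact hj
    have e1 : out[j] = (pM.val () (tb, (un (12 * n + 20), sel ⟨j, hj2⟩)) : List (List L)) := by
      simp only [hout, List.getElem_map]
      rfl
    have e2 : (List.ofFn B.φ)[j] = B.φ ⟨j, hj2⟩ := by
      rw [List.getElem_ofFn]
    obtain ⟨g1, g2, g3, -⟩ := hMk ⟨j, hj2⟩
    rw [e1, e2]
    refine ⟨g1, ?_, ?_⟩
    · rw [g2]
      exact hlenk _
    · intro R _ _ τ hτ
      rw [g3 R τ hτ]
      apply B.prod ⟨j, hj2⟩ R[X] (fun A => mrp τ A)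
      simp [mrp, rp, pol]
  · -- the cost
    have hr : r ≤ n := by
      calc r = ∑ _i : Fin r, 1 := by simp
        _ ≤ ∑ i, (As i).length := Finset.sum_le_sum (fun i _ => hA i)
        _ = n := hsum
    have hb : Fr.length ≤ r := by
      have hinj : Function.Injective B.φ := by
        intro k k' h
        exact B.inj k k' (by rw [h])
      have := Fintype.card_le_of_injective _ hinj
      simpa using this
    have hPl : P.length ≤ 5 * n + 4 := by
      have := B.len
      omega
    have hlenle : ∀ k, ∑ i ∈ Finset.univ.filter (fun i => blk i = blk (B.φ k)), (As i).length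
        ≤ n := by
      intro k
      calc _ ≤ ∑ i, (As i).length := Finset.sum_le_sum_of_subset (Finset.filter_subset _ _)
        _ = n := hsum
    have hsumk := blk_sum_blocks blk B.φ B.inj B.surj (fun i => (As i).length)
    rw [hsum] at hsumk
    set len : Fin Fr.length → ℕ := fun k =>
      ∑ i ∈ Finset.univ.filter (fun i => blk i = blk (B.φ k)), (As i).length with hlen
    have hck : ∀ k, pM.cost (F := L) () () (tb, (un (12 * n + 20), sel k)) ≤
        C2 * (6 * lgc (n + 1)) ^ k2 * mu ((12 * n + 20) * len k + (5 * n + 6)) := by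
      intro k
      obtain ⟨-, g2, -, g4⟩ := hMk k
      refine g4.trans ?_
      have hrl := g2.trans (hlenk k)
      rw [hrl]
      have hl1 := hlenle k
      have hl2 := hselen k
      apply Nat.mul_le_mul
      · apply Nat.mul_le_mul_left
        apply Nat.pow_le_pow_left
        apply blk_lgc
        omega
      · apply muM
        have : (12 * n + 20) * (∑ i ∈ Finset.univ.filter (fun i => blk i = blk (B.φ k)),
          (As i).length) = (12 * n + 20) * len k := rfl
        rw [this]
        omega
    have hsumc : (List.map (fun y : List (List L) × List L => pM.cost (F := L) () ()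
        (tb, (un (12 * n + 20), (blkSel [y.1] (List.zipWith (fun y z => (y, z)) P y.2)))) +
          (97 * P.length + 100)) Fr).sum ≤
        C2 * (6 * lgc (n + 1)) ^ k2 * (C3 * ww (n + 1)) + 488 * ww (n + 1) := by
      rw [← Fin.sum_univ_fun_getElem, Finset.sum_add_distrib]
      apply Nat.add_le_add
      · calc ∑ k : Fin Fr.length, pM.cost (F := L) () () (tb, (un (12 * n + 20),
              (blkSel [(Fr[(k : ℕ)]).1] (List.zipWith (fun y z => (y, z)) P (Fr[(k : ℕ)]).2))))
            ≤ ∑ k : Fin Fr.length, C2 * (6 * lgc (n + 1)) ^ k2 *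
                mu ((12 * n + 20) * len k + (5 * n + 6)) := Finset.sum_le_sum (fun k _ => hck k)
          _ = C2 * (6 * lgc (n + 1)) ^ k2 *
                ∑ k : Fin Fr.length, mu ((12 * n + 20) * len k + (5 * n + 6)) := by
              rw [Finset.mul_sum]
          _ ≤ C2 * (6 * lgc (n + 1)) ^ k2 * (C3 * ww (n + 1)) := by
              apply Nat.mul_le_mul_left
              refine (blk_mu_sum muS _).trans ?_
              refine le_trans ?_ (hC3 n)
              apply muM
              rw [Finset.sum_add_distrib, ← Finset.mul_sum, hsumk, Finset.sum_const,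
                Finset.card_univ, Fintype.card_fin, smul_eq_mul]
              have : Fr.length * (5 * n + 6) ≤ n * (5 * n + 6) :=
                Nat.mul_le_mul_right _ (hb.trans hr)
              nlinarith
      · rw [Finset.sum_const, Finset.card_univ, Fintype.card_fin, smul_eq_mul]
        calc Fr.length * (97 * P.length + 100) ≤ n * (97 * (5 * n + 4) + 100) :=
              Nat.mul_le_mul (hb.trans hr) (by omega)
          _ ≤ 488 * ((n + 1) * (n + 1)) := by nlinarith
          _ ≤ 488 * ww (n + 1) := Nat.mul_le_mul_left _ (wwN _)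
    have hker : pK.cost (F := L) () () cs ≤ 47 * C1 * Cv * ww (n + 1) := by
      refine hcost.trans ?_
      rw [hcsl]
      have e1 : 4 * n + 4 + r + m + 1 ≤ 47 * (n + 1) := by omega
      have e2 : vv (Nat.clog 2 (m + 1)) ≤ Cv * vv (Nat.clog 2 (n + 1)) := by
        refine le_trans (vvM _ _ ?_) (hCv n)
        apply Nat.clog_mono_right
        omega
      calc C1 * (4 * n + 4 + r + m + 1) * vv (Nat.clog 2 (m + 1))
          ≤ C1 * (47 * (n + 1)) * (Cv * vv (Nat.clog 2 (n + 1))) :=
            Nat.mul_le_mul (Nat.mul_le_mul_left _ e1) e2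
        _ = 47 * C1 * Cv * ww (n + 1) := by unfold ww; ring
    have hww : 1 ≤ ww (n + 1) := by
      have := wwN (n + 1)
      nlinarith
    have hlg : 1 ≤ lgc (n + 1) ^ k2 := Nat.one_le_pow _ _ (by unfold lgc; omega)
    refine hcost2.trans ?_
    calc pK.cost (F := L) () () cs + 20 + _
        ≤ 47 * C1 * Cv * ww (n + 1) + 20 * ww (n + 1) +
          (C2 * (6 * lgc (n + 1)) ^ k2 * (C3 * ww (n + 1)) + 488 * ww (n + 1)) := by
          apply Nat.add_le_add (Nat.add_le_add hker (by omega)) hsumc
      _ = (47 * C1 * Cv + 508) * (1 * ww (n + 1)) +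
          C2 * 6 ^ k2 * C3 * (lgc (n + 1) ^ k2 * ww (n + 1)) := by
          rw [mul_pow]; ring
      _ ≤ (47 * C1 * Cv + 508) * (lgc (n + 1) ^ k2 * ww (n + 1)) +
          C2 * 6 ^ k2 * C3 * (lgc (n + 1) ^ k2 * ww (n + 1)) := by
          apply Nat.add_le_add_right
          apply Nat.mul_le_mul_left
          exact Nat.mul_le_mul_right _ hlg
      _ = (47 * C1 * Cv + C2 * 6 ^ k2 * C3 + 508) * lgc (n + 1) ^ k2 * ww (n + 1) := by ring

end Pool.Agent.H330FB.JS4
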