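import Pool.Agent.H330FB.Lib5
import Pool.Agent.H330FB.Spec3b
import Pool.Agent.H330FB.StmtsR2
set_option autoImplicit false
noncomputable section
namespace Pool.Agent.H330FB.JS5
open Polynomial

/-! ### total degree of factors -/

section TD
variable {A : Type} [CommRing A]

/-- the grading trick -/
noncomputable def s5_ph (A : Type) [CommRing A] : A[X][X] →+* A[X][X][X] :=
  eval₂RingHom (eval₂RingHom ((C : A[X][X] →+* A[X][X][X]).comp ((C : A[X] →+* A[X][X]).comp C))
    (C (C X) * X : A[X][X][X])) (C X * X : A[X][X][X])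

lemma s5_ph_monomial (i j : ℕ) (c : A) :
    s5_ph A (monomial i (monomial j c)) = monomial (i + j) (monomial i (monomial j c)) := by
  unfold s5_ph
  rw [coe_eval₂RingHom, eval₂_monomial, coe_eval₂RingHom, eval₂_monomial]
  simp only [← C_mul_X_pow_eq_monomial, RingHom.comp_apply, map_mul, map_pow, pow_add]
  ring

lemma s5_ph_coeff (f : A[X][X]) (m i j : ℕ) :
    (((s5_ph A f).coeff m).coeff i).coeff j = if i + j = m then (f.coeff i).coeff j else 0 := by
  induction f using Polynomial.induction_on' with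
  | add p q hp hq =>
    rw [map_add]
    simp only [coeff_add, hp, hq]
    split_ifs <;> simp
  | monomial a p =>
    induction p using Polynomial.induction_on' with
    | add p q hp hq =>
      rw [map_add, map_add]
      simp only [coeff_add, hp, hq]
      split_ifs <;> simp
    | monomial b c =>
      rw [s5_ph_monomial]
      simp only [coeff_monomial]
      by_cases h1 : a + b = m
      · rw [if_pos h1]
        simp only [coeff_monomial]
        by_cases h2 : a = i
        · rw [if_pos h2]
          simp only [coeff_monomial]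
          by_cases h3 : b = j
          · rw [if_pos h3, if_pos (by omega)]
          · rw [if_neg h3]; simp
        · rw [if_neg h2]; simp
      · rw [if_neg h1]
        by_cases h2 : a = i
        · rw [if_pos h2]
          simp only [coeff_monomial]
          by_cases h3 : b = j
          · rw [if_neg (by omega)]; simp
          · rw [if_neg h3]; simp
        · rw [if_neg h2]; simp

lemma s5_ph_natDegree_ge [Nontrivial A] {f : A[X][X]} (hf : f.Monic) :
    s5_ph A f ≠ 0 ∧ f.natDegree ≤ (s5_ph A f).natDegree := by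
  have h1 : (((s5_ph A f).coeff f.natDegree).coeff f.natDegree).coeff 0 = 1 := by
    rw [s5_ph_coeff, if_pos (by omega), hf.coeff_natDegree, coeff_one_zero]
  have h2 : (s5_ph A f).coeff f.natDegree ≠ 0 := by
    intro h; rw [h] at h1; simp at h1
  refine ⟨?_, le_natDegree_of_ne_zero h2⟩
  intro h; rw [h] at h2; simp at h2

lemma s5_TD_of_mul [IsDomain A] {f g : A[X][X]} (hf : f.Monic) (hg : g.Monic)
    (h : TD (f * g) (f.natDegree + g.natDegree)) : TD f f.natDegree := by
  obtain ⟨hf0, hf1⟩ := s5_ph_natDegree_ge hf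
  obtain ⟨hg0, hg1⟩ := s5_ph_natDegree_ge hg
  have h1 : (s5_ph A (f * g)).natDegree ≤ f.natDegree + g.natDegree := by
    rw [natDegree_le_iff_coeff_eq_zero]
    intro m hm
    ext i j
    rw [s5_ph_coeff]
    split_ifs with hij
    · rw [h i j (by omega)]; simp
    · simp
  rw [map_mul, natDegree_mul hf0 hg0] at h1
  have h2 : (s5_ph A f).natDegree ≤ f.natDegree := by omega
  intro i j hij
  have h3 := s5_ph_coeff f (i + j) i j
  have h4 : (s5_ph A f).coeff (i + j) = 0 := coeff_eq_zero_of_natDegree_lt (by omega)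
  rw [if_pos rfl, h4] at h3
  simpa using h3.symm

end TD

/-! ### splitting the local factors -/

section split
variable {K : Type} [Field K] {R : Type} [CommRing R] {ε : R →+* K}

/-- coprimality can be tested modulo a nilpotent kernel -/
lemma s5_coprime_lift (hsurj : Function.Surjective ε) (hnil : ∀ x, ε x = 0 → IsNilpotent x)
    {f g : R[X]} (h : IsCoprime (f.map ε) (g.map ε)) : IsCoprime f g := by
  obtain ⟨a, b, hab⟩ := h
  obtain ⟨a', rfl⟩ := map_surjective ε hsurj a
  obtain ⟨b', rfl⟩ := map_surjective ε hsurj b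
  have h1 : (a' * f + b' * g - 1).map ε = 0 := by
    rw [Polynomial.map_sub, Polynomial.map_add, Polynomial.map_mul, Polynomial.map_mul, hab,
      Polynomial.map_one, sub_self]
  have h2 : IsNilpotent (a' * f + b' * g - 1) := by
    rw [Polynomial.isNilpotent_iff]
    intro i
    apply hnil
    have h3 : ((a' * f + b' * g - 1).map ε).coeff i = (0 : K[X]).coeff i := by rw [h1]
    rwa [coeff_map, coeff_zero] at h3
  have h3 : IsUnit (a' * f + b' * g) := by
    have := h2.isUnit_one_add
    rwa [add_sub_cancel] at this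
  obtain ⟨u, hu⟩ := h3
  refine ⟨↑u⁻¹ * a', ↑u⁻¹ * b', ?_⟩
  have h4 : (↑u⁻¹ * a') * f + (↑u⁻¹ * b') * g = ↑u⁻¹ * (a' * f + b' * g) := by ring
  rw [h4, ← hu, Units.inv_mul]

lemma s5_split0 (hsurj : Function.Surjective ε) (hnil : ∀ x, ε x = 0 → IsNilpotent x)
    {r : ℕ} {F : Fin r → R[X]} (hFm : ∀ i, (F i).Monic) (hirr : ∀ i, Irreducible ((F i).map ε))
    (hinj : Function.Injective (fun i => (F i).map ε)) (I : Finset (Fin r)) :
    ∀ A B : R[X], A.Monic → B.Monic → A * B = ∏ i ∈ I, F i →
      ∃ J ⊆ I, A = ∏ i ∈ J, F i ∧ B = ∏ i ∈ I \ J, F i := by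
  classical
  induction I using Finset.induction_on with
  | empty =>
    intro A B hA hB hAB
    rw [Finset.prod_empty] at hAB
    have hA1 : A = 1 := by
      by_cases htr : Nontrivial R
      · have h1 := hA.natDegree_mul hB
        rw [hAB, natDegree_one] at h1
        exact hA.natDegree_eq_zero.1 (by omega)
      · rw [not_nontrivial_iff_subsingleton] at htr
        exact Subsingleton.elim _ _
    refine ⟨∅, le_rfl, by simpa using hA1, ?_⟩
    rw [hA1, one_mul] at hAB
    simpa using hAB
  | insert i I hi ih =>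
    intro A B hA hB hAB
    rw [Finset.prod_insert hi] at hAB
    have hnd : ¬ (F i).map ε ∣ (∏ j ∈ I, F j).map ε := by
      intro hd
      rw [Polynomial.map_prod] at hd
      obtain ⟨j, hj, hd⟩ := (hirr i).prime.exists_mem_finset_dvd hd
      have h1 : Associated ((F i).map ε) ((F j).map ε) := (hirr i).associated_of_dvd (hirr j) hd
      have h2 : (F i).map ε = (F j).map ε :=
        eq_of_monic_of_associated ((hFm i).map ε) ((hFm j).map ε) h1
      exact hi (hinj h2 ▸ hj)
    have hAB' : A.map ε * B.map ε = (F i).map ε * (∏ j ∈ I, F j).map ε := by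
      rw [← Polynomial.map_mul, hAB, Polynomial.map_mul]
    -- the factor divides exactly one of the two
    have key : ∀ A B : R[X], A.Monic → B.Monic → A * B = F i * ∏ j ∈ I, F j →
        (F i).map ε ∣ A.map ε → ∃ A' : R[X], A'.Monic ∧ A = F i * A' ∧
          A' * B = ∏ j ∈ I, F j := by
      intro A B hA hB hAB hd
      have hnB : ¬ (F i).map ε ∣ B.map ε := by
        intro hdB
        obtain ⟨A₁, hA₁⟩ := hd
        obtain ⟨B₁, hB₁⟩ := hdB
        have h1 : A.map ε * B.map ε = (F i).map ε * (∏ j ∈ I, F j).map ε := by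
          rw [← Polynomial.map_mul, hAB, Polynomial.map_mul]
        rw [hA₁, hB₁] at h1
        apply hnd
        refine ⟨A₁ * B₁, ?_⟩
        have h2 : (F i).map ε * (((F i).map ε) * (A₁ * B₁)) =
            (F i).map ε * (∏ j ∈ I, F j).map ε := by rw [← h1]; ring
        exact (mul_left_cancel₀ (hirr i).ne_zero h2).symm
      have hcop : IsCoprime (F i) B :=
        s5_coprime_lift hsurj hnil (((hirr i).coprime_iff_not_dvd).2 hnB)
      have hdvd : F i ∣ A := hcop.dvd_of_dvd_mul_right (hAB ▸ dvd_mul_right _ _)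
      obtain ⟨A', hA'⟩ := hdvd
      have hA'm : A'.Monic := by
        rw [hA'] at hA
        exact (hFm i).of_mul_monic_left hA
      refine ⟨A', hA'm, hA', ?_⟩
      have h3 : F i * (A' * B) = F i * ∏ j ∈ I, F j := by rw [← hAB, hA']; ring
      exact (hFm i).isRegular.left h3
    have hor : (F i).map ε ∣ A.map ε ∨ (F i).map ε ∣ B.map ε :=
      (hirr i).prime.dvd_or_dvd (hAB' ▸ dvd_mul_right _ _)
    rcases hor with hd | hd
    · obtain ⟨A', hA'm, hA', hprod⟩ := key A B hA hB hAB hd
      obtain ⟨J, hJ, h1, h2⟩ := ih A' B hA'm hB hprod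
      have hiJ : i ∉ J := fun h => hi (hJ h)
      refine ⟨insert i J, Finset.insert_subset_insert i hJ, ?_, ?_⟩
      · rw [Finset.prod_insert hiJ, hA', h1]
      · rw [h2]
        congr 1
        ext x
        simp only [Finset.mem_sdiff, Finset.mem_insert]
        constructor
        · rintro ⟨hx, hx2⟩
          refine ⟨Or.inr hx, ?_⟩
          rintro (rfl | h)
          · exact hi hx
          · exact hx2 h
        · rintro ⟨hx, hx2⟩
          push Not at hx2
          exact ⟨hx.resolve_left hx2.1, hx2.2⟩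
    · obtain ⟨B', hB'm, hB', hprod⟩ := key B A hB hA (by rw [mul_comm]; exact hAB) hd
      obtain ⟨J, hJ, h1, h2⟩ := ih A B' hA hB'm (by rw [mul_comm]; exact hprod)
      have hiJ : i ∉ J := fun h => hi (hJ h)
      refine ⟨J, hJ.trans (Finset.subset_insert i I), h1, ?_⟩
      have e : insert i I \ J = insert i (I \ J) := by
        rw [Finset.insert_sdiff_of_notMem _ hiJ]
      rw [e, Finset.prod_insert (by simp [hi]), hB', h2]

end split

/-! ### the irreducible factors and the local factors -/

section fac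
variable {K : Type} [Field K] {R : Type} [CommRing R] {π : K[X] →+* R} {ε : R →+* K}
  {s n r : ℕ} {S : K[X][X]} {F : Fin r → R[X]}

lemma s5_surj (h : LocalFact π ε s n r S F) : Function.Surjective ε :=
  fun c => ⟨π (C c), by rw [h.eps]; simp⟩

lemma s5_nil (h : LocalFact π ε s n r S F) : ∀ x, ε x = 0 → IsNilpotent x := by
  intro x hx
  obtain ⟨f, rfl⟩ := h.surj x
  rw [h.eps] at hx
  refine ⟨s, ?_⟩
  rw [← map_pow, h.ker]
  apply pow_dvd_pow_of_dvd
  rw [X_dvd_iff, coeff_zero_eq_eval_zero]
  exact hx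

lemma s5_eps_dvd (h : LocalFact π ε s n r S F) (J : Finset (Fin r)) (i : Fin r)
    (hd : (F i).map ε ∣ (∏ j ∈ J, F j).map ε) : i ∈ J := by
  rw [Polynomial.map_prod] at hd
  obtain ⟨j, hj, hd⟩ := (h.irr i).prime.exists_mem_finset_dvd hd
  have h1 : Associated ((F i).map ε) ((F j).map ε) := (h.irr i).associated_of_dvd (h.irr j) hd
  have h2 : (F i).map ε = (F j).map ε :=
    eq_of_monic_of_associated ((h.Fmonic i).map ε) ((h.Fmonic j).map ε) h1
  have h3 : i = j := h.inj h2
  exact h3 ▸ hj

lemma s5_map_dvd {f g : R[X]} (hfg : f ∣ g) : f.map ε ∣ g.map ε := by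
  obtain ⟨k, rfl⟩ := hfg
  rw [Polynomial.map_mul]
  exact dvd_mul_right _ _

lemma s5_dvd_prod (h : LocalFact π ε s n r S F) (J : Finset (Fin r)) (i : Fin r) :
    F i ∣ ∏ j ∈ J, F j ↔ i ∈ J :=
  ⟨fun hd => s5_eps_dvd h J i (s5_map_dvd hd), fun hi => Finset.dvd_prod_of_mem F hi⟩

lemma s5_split (h : LocalFact π ε s n r S F) {P Q : K[X][X]} (hP : P.Monic) (hQ : Q.Monic)
    (hPQ : P * Q = S) : ∃ J : Finset (Fin r), P.map π = ∏ i ∈ J, F i ∧
      (∀ i, F i ∣ P.map π ↔ i ∈ J) ∧ (∀ i, F i ∣ Q.map π ↔ i ∉ J) := by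
  classical
  obtain ⟨J, _, h1, h2⟩ := s5_split0 (s5_surj h) (s5_nil h) h.Fmonic h.irr h.inj Finset.univ
    (P.map π) (Q.map π) (hP.map π) (hQ.map π) (by rw [← Polynomial.map_mul, hPQ, h.prod])
  refine ⟨J, h1, fun i => ?_, fun i => ?_⟩
  · rw [h1, s5_dvd_prod h]
  · rw [h2, s5_dvd_prod h]; simp

lemma s5_cof {P : K[X][X]} (hS : S.Monic) (hP : P.Monic) (hd : P ∣ S) :
    ∃ Q : K[X][X], Q.Monic ∧ P * Q = S := by
  obtain ⟨Q, hQ⟩ := hd
  refine ⟨Q, ?_, hQ.symm⟩
  rw [hQ] at hS
  exact hP.of_mul_monic_left hS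

lemma s5_dvd_iff (h : LocalFact π ε s n r S F) {P : K[X][X]} (hP : P.Monic) (hd : P ∣ S)
    (i : Fin r) : F i ∣ P.map π ↔ (F i).map ε ∣ (P.map π).map ε := by
  refine ⟨s5_map_dvd, fun hh => ?_⟩
  obtain ⟨Q, hQ, hPQ⟩ := s5_cof h.monic hP hd
  obtain ⟨J, h1, h2, _⟩ := s5_split h hP hQ hPQ
  rw [h2]
  rw [h1] at hh
  exact s5_eps_dvd h J i hh

lemma s5_ex (h : LocalFact π ε s n r S F) (i : Fin r) :
    ∃ G : K[X][X], G.Monic ∧ Irreducible G ∧ G ∣ S ∧ F i ∣ G.map π := by
  have key : ∀ m : ℕ, ∀ P : K[X][X], P.natDegree = m → P.Monic → P ∣ S → F i ∣ P.map π →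
      ∃ G : K[X][X], G.Monic ∧ Irreducible G ∧ G ∣ S ∧ F i ∣ G.map π := by
    intro m
    induction m using Nat.strong_induction_on with
    | _ m ih =>
    intro P hm hP hPS hi
    by_cases hir : Irreducible P
    · exact ⟨P, hP, hir, hPS, hi⟩
    · have h0 : P.natDegree ≠ 0 := by
        intro h0
        have h1 : P = 1 := hP.natDegree_eq_zero.1 h0
        rw [h1, Polynomial.map_one] at hi
        have h3 : IsUnit ((F i).map ε) := by
          have := (isUnit_of_dvd_one hi).map (mapRingHom ε)
          simpa using this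
        exact (h.irr i).not_isUnit h3
      have h1 : ∃ A B : K[X][X], A.Monic ∧ B.Monic ∧ A * B = P ∧ A.natDegree ≠ 0 ∧
          B.natDegree ≠ 0 := by
        by_contra hcon
        push Not at hcon
        apply hir
        rw [hP.irreducible_iff_natDegree]
        refine ⟨fun h => h0 (by rw [h, natDegree_one]), fun f g hf hg hfg => ?_⟩
        by_cases hf0 : f.natDegree = 0
        · exact Or.inl hf0
        · exact Or.inr (hcon f g hf hg hfg hf0)
      obtain ⟨A, B, hA, hB, hAB, hA0, hB0⟩ := h1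
      have hdeg : P.natDegree = A.natDegree + B.natDegree := by
        rw [← hAB, hA.natDegree_mul hB]
      have hAS : A ∣ S := (hAB ▸ dvd_mul_right A B).trans hPS
      have hBS : B ∣ S := (hAB ▸ dvd_mul_left B A).trans hPS
      have h2 : (F i).map ε ∣ (A.map π).map ε * (B.map π).map ε := by
        rw [← Polynomial.map_mul, ← Polynomial.map_mul, hAB]
        exact s5_map_dvd hi
      rcases (h.irr i).prime.dvd_or_dvd h2 with h3 | h3
      · exact ih A.natDegree (by omega) A rfl hA hAS ((s5_dvd_iff h hA hAS i).2 h3)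
      · exact ih B.natDegree (by omega) B rfl hB hBS ((s5_dvd_iff h hB hBS i).2 h3)
  refine key _ S rfl h.monic dvd_rfl ?_
  rw [← h.prod]
  exact Finset.dvd_prod_of_mem F (Finset.mem_univ i)

lemma s5_uniq (h : LocalFact π ε s n r S F) {G G' : K[X][X]} (hG : G.Monic)
    (hGi : Irreducible G) (hGS : G ∣ S) (hG' : G'.Monic) (hGi' : Irreducible G') (hGS' : G' ∣ S)
    (i : Fin r) (h1 : F i ∣ G.map π) (h2 : F i ∣ G'.map π) : G = G' := by
  obtain ⟨Q, hQ, hGQ⟩ := s5_cof h.monic hG hGS
  obtain ⟨J, _, h4, h5⟩ := s5_split h hG hQ hGQ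
  have h6 : G' ∣ G * Q := by rw [hGQ]; exact hGS'
  rcases hGi'.prime.dvd_or_dvd h6 with h7 | h7
  · exact (eq_of_monic_of_associated hG' hG (hGi'.associated_of_dvd hGi h7)).symm
  · exfalso
    obtain ⟨W, hW⟩ := h7
    have h8 : F i ∣ Q.map π := by
      rw [hW, Polynomial.map_mul]
      exact h2.mul_right _
    exact (h5 i).1 h8 ((h4 i).1 h1)

/-- the irreducible factor belonging to a local factor -/
def s5_IsG (π : K[X] →+* R) (S : K[X][X]) (F : Fin r → R[X]) (Gi : Fin r → K[X][X]) : Prop :=
  ∀ i, (Gi i).Monic ∧ Irreducible (Gi i) ∧ Gi i ∣ S ∧ F i ∣ (Gi i).map π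

lemma s5_exG (h : LocalFact π ε s n r S F) : ∃ Gi : Fin r → K[X][X], s5_IsG π S F Gi := by
  choose Gi hGi using s5_ex h
  exact ⟨Gi, hGi⟩

lemma s5_iff (h : LocalFact π ε s n r S F) {Gi : Fin r → K[X][X]} (hG : s5_IsG π S F Gi)
    (i j : Fin r) : F i ∣ (Gi j).map π ↔ Gi i = Gi j := by
  constructor
  · intro hd
    exact s5_uniq h (hG i).1 (hG i).2.1 (hG i).2.2.1 (hG j).1 (hG j).2.1 (hG j).2.2.1 i
      (hG i).2.2.2 hd
  · intro he
    rw [← he]
    exact (hG i).2.2.2

lemma s5_same (h : LocalFact π ε s n r S F) {Gi : Fin r → K[X][X]} (hG : s5_IsG π S F Gi)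
    (i j : Fin r) : SameBlock π S F i j ↔ Gi i = Gi j := by
  constructor
  · rintro ⟨g, hg, hgi, hgS, h1, h2⟩
    have e1 := s5_uniq h hg hgi hgS (hG i).1 (hG i).2.1 (hG i).2.2.1 i h1 (hG i).2.2.2
    have e2 := s5_uniq h hg hgi hgS (hG j).1 (hG j).2.1 (hG j).2.2.1 j h2 (hG j).2.2.2
    rw [← e1, ← e2]
  · intro he
    refine ⟨Gi i, (hG i).1, (hG i).2.1, (hG i).2.2.1, (hG i).2.2.2, ?_⟩
    rw [he]
    exact (hG j).2.2.2

lemma s5_block (h : LocalFact π ε s n r S F) {Gi : Fin r → K[X][X]} (hG : s5_IsG π S F Gi)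
    (j : Fin r) [DecidablePred fun i => Gi i = Gi j] :
    (Gi j).map π = ∏ i ∈ Finset.univ.filter (fun i => Gi i = Gi j), F i := by
  obtain ⟨Q, hQ, hGQ⟩ := s5_cof h.monic (hG j).1 (hG j).2.2.1
  obtain ⟨J, h3, h4, _⟩ := s5_split h (hG j).1 hQ hGQ
  rw [h3]
  congr 1
  ext i
  rw [← h4, s5_iff h hG]
  simp

lemma s5_prod (h : LocalFact π ε s n r S F) {Gi : Fin r → K[X][X]} (hG : s5_IsG π S F Gi)
    [DecidableEq (K[X][X])] :
    ∏ G ∈ Finset.univ.image Gi, G = S := by
  have hR : Nontrivial R := ε.domain_nontrivial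
  have hm : (∏ G ∈ Finset.univ.image Gi, G).Monic := by
    apply monic_prod_of_monic
    intro G hG'
    obtain ⟨i, _, rfl⟩ := Finset.mem_image.1 hG'
    exact (hG i).1
  have hd : ∏ G ∈ Finset.univ.image Gi, G ∣ S := by
    apply Finset.prod_dvd_of_isRelPrime
    · intro G hG1 G' hG2 hne
      obtain ⟨i, _, rfl⟩ := Finset.mem_image.1 (Finset.mem_coe.1 hG1)
      obtain ⟨j, _, rfl⟩ := Finset.mem_image.1 (Finset.mem_coe.1 hG2)
      change IsRelPrime (Gi i) (Gi j)
      rw [(hG i).2.1.isRelPrime_iff_not_dvd]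
      intro hdvd
      exact hne (eq_of_monic_of_associated (hG i).1 (hG j).1
        ((hG i).2.1.associated_of_dvd (hG j).2.1 hdvd))
    · intro G hG'
      obtain ⟨i, _, rfl⟩ := Finset.mem_image.1 hG'
      exact (hG i).2.2.1
  obtain ⟨H, hH, hGH⟩ := s5_cof h.monic hm hd
  obtain ⟨J, h3, h4, h5⟩ := s5_split h hm hH hGH
  obtain ⟨J', h3', h4', h5'⟩ := s5_split h hH hm (by rw [mul_comm]; exact hGH)
  have hJ : J' = ∅ := by
    rw [Finset.eq_empty_iff_forall_notMem]
    intro i hi
    refine (h5' i).1 ?_ hi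
    refine (hG i).2.2.2.trans ?_
    obtain ⟨W, hW⟩ := Finset.dvd_prod_of_mem (fun G : K[X][X] => G)
      (Finset.mem_image_of_mem Gi (Finset.mem_univ i))
    rw [hW, Polynomial.map_mul]
    exact dvd_mul_right _ _
  rw [hJ, Finset.prod_empty] at h3'
  have h6 : H.natDegree = 0 := by
    rw [← hH.natDegree_map π, h3', natDegree_one]
  have h7 : H = 1 := hH.natDegree_eq_zero.1 h6
  rw [h7, mul_one] at hGH
  exact hGH

lemma s5_TD (h : LocalFact π ε s n r S F) {G : K[X][X]} (hG : G.Monic) (hd : G ∣ S) :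
    G.natDegree ≤ n ∧ ∀ k, (G.coeff k).natDegree ≤ n := by
  obtain ⟨Q, hQ, hGQ⟩ := s5_cof h.monic hG hd
  have h1 : S.natDegree = G.natDegree + Q.natDegree := by rw [← hGQ, hG.natDegree_mul hQ]
  have h2 : G.natDegree ≤ n := by rw [← h.deg]; omega
  have h3 : TD G G.natDegree := s5_TD_of_mul hG hQ (by rw [hGQ, ← h1, h.deg]; exact h.td)
  refine ⟨h2, fun k => ?_⟩
  rw [natDegree_le_iff_coeff_eq_zero]
  intro m hm
  exact h3 k m (by omega)

end fac

/-! ### lists and polynomials -/

section lists
variable {A B : Type} [CommRing A] [CommRing B]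

lemma s5_pol_coeff (l : List A) (k : ℕ) : (pol l).coeff k = l.getD k 0 := by
  induction l generalizing k with
  | nil => simp [pol]
  | cons x l ih =>
    cases k with
    | zero => simp [pol]
    | succ k => simp [pol, ih, coeff_X_mul]

lemma s5_pol_map (f : A →+* B) (l : List A) : (pol l).map f = pol (l.map f) := by
  induction l with
  | nil => simp [pol]
  | cons x l ih => simp [pol, ih]

lemma s5_getD_range (m : ℕ) (f : ℕ → A) (k : ℕ) :
    ((List.range m).map f).getD k 0 = if k < m then f k else 0 := by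
  by_cases h : k < m
  · rw [if_pos h, List.getD_eq_getElem _ _ (by simpa using h)]
    simp
  · rw [if_neg h, List.getD_eq_default _ _ (by simpa using h)]

lemma s5_degree_pol (l : List A) : (pol l).degree < ((l.length : ℕ) : WithBot ℕ) := by
  rw [degree_lt_iff_coeff_zero]
  intro k hk
  rw [s5_pol_coeff, List.getD_eq_default _ _ (by simpa using hk)]

lemma s5_ext_getD {l m : List A} (h : l.length = m.length) (h2 : ∀ k, l.getD k 0 = m.getD k 0) :
    l = m := by
  apply List.ext_getElem h
  intro k h3 h4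
  have := h2 k
  rwa [List.getD_eq_getElem _ _ h3, List.getD_eq_getElem _ _ h4] at this

lemma s5_fit_getD (n : ℕ) (l : List A) (k : ℕ) :
    (fit n 0 l).getD k 0 = if k < n then l.getD k 0 else 0 := by
  induction n generalizing l k with
  | zero => simp [fit]
  | succ n ih =>
    cases l with
    | nil =>
      cases k with
      | zero => simp [fit]
      | succ k => simp only [fit, List.getD_cons_succ, ih, List.getD_nil]; simp
    | cons x l =>
      cases k with
      | zero => simp [fit]
      | succ k => simp only [fit, List.getD_cons_succ, ih]; simp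

end lists

section rows
variable {K : Type} [Field K]

/-- the rows of coefficients of `G`, each of length `n + 1` -/
noncomputable def s5_rows (n : ℕ) (G : K[X][X]) : List (List K) :=
  (List.range G.natDegree).map (fun k => (List.range (n + 1)).map (fun t => (G.coeff k).coeff t))

lemma s5_mbiv_rows {n : ℕ} {G : K[X][X]} (hG : G.Monic) (hn : ∀ k, (G.coeff k).natDegree ≤ n) :
    mbiv (s5_rows n G) = G := by
  have hlen : (s5_rows n G).length = G.natDegree := by simp [s5_rows]
  ext1 k
  rw [mbiv, coeff_add, coeff_X_pow, biv, s5_pol_coeff, hlen]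
  have h1 : (List.map pol (s5_rows n G)).getD k 0 =
      if k < G.natDegree then G.coeff k else 0 := by
    rw [s5_rows, List.map_map, s5_getD_range]
    split_ifs with hk
    · ext t
      rw [Function.comp_apply, s5_pol_coeff, s5_getD_range]
      split_ifs with ht
      · rfl
      · exact (coeff_eq_zero_of_natDegree_lt (by have := hn k; omega)).symm
    · rfl
  rw [h1]
  rcases lt_trichotomy k G.natDegree with h | h | h
  · rw [if_neg (by omega), if_pos h, zero_add]
  · rw [if_pos h, if_neg (by omega), add_zero, h]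
    exact hG.coeff_natDegree.symm
  · rw [if_neg (by omega), if_neg (by omega), zero_add]
    exact (coeff_eq_zero_of_natDegree_lt h).symm

end rows

/-! ### the ring over the extension -/

section ext
variable {K L : Type} [Field K] [Field L] [Algebra K L] {R : Type} [CommRing R] {π : K[X] →+* R}
  {ε : R →+* K} {s n r : ℕ} {S : K[X][X]} {F : Fin r → R[X]}

lemma s5_rho (h : LocalFact π ε s n r S F) : ∃ ρ : R →+* AdjoinRoot (X ^ s : L[X]),
    ∀ f : K[X], ρ (π f) = AdjoinRoot.mk (X ^ s : L[X]) (f.map (algebraMap K L)) := by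
  let φ : K[X] →+* AdjoinRoot (X ^ s : L[X]) :=
    (AdjoinRoot.mk (X ^ s : L[X])).comp (mapRingHom (algebraMap K L))
  have hker : RingHom.ker π ≤ RingHom.ker φ := by
    intro f hf
    rw [RingHom.mem_ker] at hf ⊢
    rw [h.ker] at hf
    obtain ⟨g, rfl⟩ := hf
    change AdjoinRoot.mk (X ^ s : L[X]) ((X ^ s * g).map (algebraMap K L)) = 0
    rw [AdjoinRoot.mk_eq_zero, Polynomial.map_mul, Polynomial.map_pow, map_X]
    exact dvd_mul_right _ _
  refine ⟨RingHom.liftOfRightInverse π (Function.surjInv h.surj)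
    (Function.rightInverse_surjInv h.surj) ⟨φ, hker⟩, fun f => ?_⟩
  rw [RingHom.liftOfRightInverse_comp_apply]
  rfl

/-- a row of length `s` is determined by its value -/
lemma s5_row {v : List L} (hv : v.length = s) {f : K[X]} (hf : f.natDegree < s)
    (h : aeval (AdjoinRoot.root (X ^ s : L[X])) (pol v) =
      AdjoinRoot.mk (X ^ s : L[X]) (f.map (algebraMap K L))) (k : ℕ) :
    v.getD k 0 = algebraMap K L (f.coeff k) := by
  have h1 : aeval (AdjoinRoot.root (X ^ s : L[X])) (pol v) =
      AdjoinRoot.mk (X ^ s : L[X]) (pol v) := by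
    rw [AdjoinRoot.aeval_eq]
  rw [h1, AdjoinRoot.mk_eq_mk] at h
  have h2 : pol v - f.map (algebraMap K L) = 0 := by
    apply eq_zero_of_dvd_of_degree_lt h
    rw [degree_X_pow]
    refine (degree_sub_le _ _).trans_lt (max_lt ?_ ?_)
    · have := s5_degree_pol v
      rwa [hv] at this
    · refine (degree_map_le).trans_lt ?_
      exact (degree_le_natDegree).trans_lt (by exact_mod_cast hf)
  have h3 := congrArg (fun p => coeff p k) (sub_eq_zero.1 h2)
  simp only [s5_pol_coeff, coeff_map] at h3
  exact h3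

/-- the value of the result at one block -/
lemma s5_out (h : LocalFact π ε s n r S F) (hns : n < s) {G : K[X][X]} (hG : G.Monic)
    (hGS : G ∣ S) (J : Finset (Fin r)) (hJ : G.map π = ∏ i ∈ J, F i)
    (Fs : Fin r → List (List K))
    (hFs : ∀ i, Sh s (Fs i) ∧ 1 ≤ (Fs i).length ∧
      F i = X ^ (Fs i).length + pol ((Fs i).map (fun v => π (pol v))))
    {M : List (List L)} (hM : Sh s M)
    (hlen : M.length = ∑ i ∈ J, (Ty.map (algebraMap K L) Ma (Fs i) : List (List L)).length)
    (hval : ∀ (R' : Type) [CommRing R'] [Algebra L R'] (τ : R'), τ ^ s = 0 →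
      mrp τ M = ∏ i ∈ J, mrp τ (Ty.map (algebraMap K L) Ma (Fs i) : List (List L))) :
    M.map (fun v => fit (n + 1) 0 v) =
      (Ty.map (algebraMap K L) Ma (s5_rows n G) : List (List L)) := by
  have hR : Nontrivial R := ε.domain_nontrivial
  have hs : s ≠ 0 := by omega
  have hR' : Nontrivial (AdjoinRoot (X ^ s : L[X])) :=
    AdjoinRoot.nontrivial _ (by rw [degree_X_pow]; exact_mod_cast hs)
  obtain ⟨ρ, hρ⟩ := s5_rho (L := L) h
  have hτ : (AdjoinRoot.root (X ^ s : L[X])) ^ s = 0 := by
    rw [← AdjoinRoot.mk_X, ← map_pow, AdjoinRoot.mk_self]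
  -- degrees
  have hdF : ∀ i, (F i).natDegree = (Fs i).length := by
    intro i
    rw [(hFs i).2.2]
    have h1 := s5_degree_pol ((Fs i).map (fun v => π (pol v)))
    rw [List.length_map] at h1
    rw [natDegree_eq_of_degree_eq_some]
    rw [degree_add_eq_left_of_degree_lt]
    · rw [degree_X_pow]
    · rwa [degree_X_pow]
  have hdG : G.natDegree = ∑ i ∈ J, (Fs i).length := by
    rw [← hG.natDegree_map π, hJ, natDegree_prod_of_monic _ _ (fun i _ => h.Fmonic i)]
    exact Finset.sum_congr rfl fun i _ => hdF i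
  have hMl : M.length = G.natDegree := by
    rw [hlen, hdG]
    refine Finset.sum_congr rfl fun i _ => ?_
    change (List.map _ (Fs i)).length = _
    rw [List.length_map]
  -- the value at the local factors
  have hF : ∀ i, (F i).map ρ = mrp (AdjoinRoot.root (X ^ s : L[X]))
      (Ty.map (algebraMap K L) Ma (Fs i) : List (List L)) := by
    intro i
    rw [(hFs i).2.2, Polynomial.map_add, Polynomial.map_pow, map_X, s5_pol_map, mrp, rp]
    change _ = X ^ (List.map (List.map (algebraMap K L)) (Fs i)).length +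
      pol ((List.map (List.map (algebraMap K L)) (Fs i)).map _)
    rw [List.length_map, List.map_map, List.map_map]
    congr 2
    apply List.map_congr_left
    intro v _
    rw [Function.comp_apply, Function.comp_apply, hρ, ← s5_pol_map, AdjoinRoot.aeval_eq]
  have hMv : mrp (AdjoinRoot.root (X ^ s : L[X])) M = (G.map π).map ρ := by
    rw [hval _ _ hτ, hJ, Polynomial.map_prod]
    exact (Finset.prod_congr rfl fun i _ => hF i).symm
  obtain ⟨_, hTD⟩ := s5_TD h hG hGS
  -- rows
  have hrow : ∀ k (hk : k < M.length), ∀ t, (M[k]).getD t 0 =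
      algebraMap K L ((G.coeff k).coeff t) := by
    intro k hk
    have h1 := congrArg (fun p => coeff p k) hMv
    simp only [mrp, rp, coeff_add, coeff_X_pow, s5_pol_coeff, coeff_map, hρ] at h1
    rw [if_neg (by omega), zero_add, List.getD_eq_getElem _ _ (by simpa using hk),
      List.getElem_map] at h1
    have h2 : M[k].length = s := hM _ (List.getElem_mem hk)
    exact s5_row h2 (lt_of_le_of_lt (hTD k) hns) h1
  change List.map (fun v => fit (n + 1) 0 v) M =
    List.map (List.map (algebraMap K L)) (s5_rows n G)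
  apply List.ext_getElem
  · rw [List.length_map, List.length_map, hMl, s5_rows, List.length_map, List.length_range]
  · intro k h1 h2
    rw [List.length_map] at h1
    rw [List.getElem_map, List.getElem_map]
    simp only [s5_rows, List.getElem_map, List.getElem_range, List.map_map]
    apply s5_ext_getD
    · rw [length_fit, List.length_map, List.length_range]
    · intro t
      rw [s5_fit_getD, s5_getD_range, hrow k h1]
      rfl

end ext

/-! ### the linear system -/

section lin

lemma s5_sum_two {M : Type} [AddCommMonoid M] {k N : ℕ} (h : k = 2 * N) (f : Fin k → M) :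
    ∑ j, f j = ∑ i : Fin N, (f ⟨2 * i, by omega⟩ + f ⟨2 * i + 1, by omega⟩) := by
  subst h
  have key : ∀ (N : ℕ) (g : ℕ → M), ∑ j ∈ Finset.range (2 * N), g j =
      ∑ i ∈ Finset.range N, (g (2 * i) + g (2 * i + 1)) := by
    intro N g
    induction N with
    | zero => simp
    | succ N ih =>
      rw [Finset.sum_range_succ, ← ih, show 2 * (N + 1) = 2 * N + 1 + 1 by ring,
        Finset.sum_range_succ, Finset.sum_range_succ, add_assoc]
  have h1 := key N (fun j => if h : j < 2 * N then f ⟨j, h⟩ else 0)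
  rw [Finset.sum_range, Finset.sum_range] at h1
  have h2 : ∑ j : Fin (2 * N), f j =
      ∑ j : Fin (2 * N), (if h : (j : ℕ) < 2 * N then f ⟨j, h⟩ else 0) := by
    refine Finset.sum_congr rfl fun j _ => ?_
    rw [dif_pos j.2]
  rw [h2, h1]
  refine Finset.sum_congr rfl fun i _ => ?_
  rw [dif_pos, dif_pos]

lemma s5_flat_two {α β : Type} {k N : ℕ} (h : k = 2 * N) (a : Fin N → α) (f g : α → β) :
    (List.ofFn a).flatMap (fun x => [f x, g x]) =
      List.ofFn (fun j : Fin k => if (j : ℕ) % 2 = 0 then f (a ⟨j / 2, by omega⟩)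
        else g (a ⟨j / 2, by omega⟩)) := by
  subst h
  induction N with
  | zero => simp
  | succ N ih =>
    have e : List.ofFn (fun j : Fin (2 * (N + 1)) => if (j : ℕ) % 2 = 0
        then f (a ⟨j / 2, by omega⟩) else g (a ⟨j / 2, by omega⟩)) =
        List.ofFn (fun j : Fin (2 * N + 1 + 1) => if (j : ℕ) % 2 = 0
        then f (a ⟨j / 2, by omega⟩) else g (a ⟨j / 2, by omega⟩)) := rfl
    rw [e, List.ofFn_succ, List.flatMap_cons, ih (fun i => a i.succ), List.ofFn_succ,
      List.ofFn_succ]
    simp only [List.cons_append, List.nil_append]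
    refine List.cons_eq_cons.2 ⟨?_, List.cons_eq_cons.2 ⟨?_, ?_⟩⟩
    · simp
    · simp
    · congr 1
      funext j
      simp only [Fin.val_succ]
      have h1 : ((j : ℕ) + 1 + 1) % 2 = (j : ℕ) % 2 := by omega
      have h2 : ((j : ℕ) + 1 + 1) / 2 = (j : ℕ) / 2 + 1 := by omega
      simp only [h1, h2]
      rfl

variable {K L : Type} [Field K] [Field L] [Algebra K L]

lemma s5_cvec_two (M : ℕ) (f g : ℕ → L) (m : ℕ) :
    cvec ((List.range M).map f ++ (List.range M).map g) m =
      if m < M then f m else if m - M < M then g (m - M) else 0 := by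
  unfold cvec
  by_cases h1 : m < M
  · rw [if_pos h1, List.getD_append _ _ _ _ (by simpa using h1), s5_getD_range, if_pos h1]
  · rw [if_neg h1, List.getD_append_right _ _ _ _ (by simpa using h1), s5_getD_range]
    simp only [List.length_map, List.length_range]

/-- the column of a local factor -/
def s5_lc (n s : ℕ) (L : Type) [Field L] [Algebra K L] (z z' : ℕ → K) : List L :=
  (List.range (s - (n - 1))).map (fun k => algebraMap K L (z (n - 1 + k))) ++
    (List.range (s - (n - 1))).map (fun k => algebraMap K L (z' (n - 1 + k)))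

lemma s5_lin {n s Q N r : ℕ} (zc zc' : Fin r → ℕ → K) (a : Fin N → L) (l : Fin r → L)
    (τ τ' : Fin N → L) :
    (∑ i : Fin N, (τ i • cvec (tcol n s (a i)⁻¹ ++ tcol n s ((a i)⁻¹ ^ Q)) +
      τ' i • cvec (tcol n s ((a i)⁻¹ ^ Q) ++ tcol n s (a i)⁻¹)) +
      ∑ i, l i • cvec (s5_lc n s L (zc i) (zc' i)) = 0) ↔
    SysL n s Q zc zc' a l τ τ' := by
  have key : ∀ m : ℕ, (∑ i : Fin N, (τ i • cvec (tcol n s (a i)⁻¹ ++ tcol n s ((a i)⁻¹ ^ Q)) +
      τ' i • cvec (tcol n s ((a i)⁻¹ ^ Q) ++ tcol n s (a i)⁻¹)) +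
      ∑ i, l i • cvec (s5_lc n s L (zc i) (zc' i))) m =
      if m < s - (n - 1) then
        ∑ i, l i * algebraMap K L (zc i (n - 1 + m)) +
        ∑ j, (τ j * (a j)⁻¹ ^ (n - 1 + m + 1) + τ' j * ((a j)⁻¹ ^ Q) ^ (n - 1 + m + 1))
      else if m - (s - (n - 1)) < s - (n - 1) then
        ∑ i, l i * algebraMap K L (zc' i (n - 1 + (m - (s - (n - 1))))) +
        ∑ j, (τ' j * (a j)⁻¹ ^ (n - 1 + (m - (s - (n - 1))) + 1) +
          τ j * ((a j)⁻¹ ^ Q) ^ (n - 1 + (m - (s - (n - 1))) + 1))
      else 0 := by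
    intro m
    simp only [Pi.add_apply, Finset.sum_apply, Pi.smul_apply, smul_eq_mul, tcol, s5_lc,
      s5_cvec_two]
    split_ifs with h1 h2
    · rw [add_comm]
    · rw [add_comm]
      congr 1
      refine Finset.sum_congr rfl fun i _ => ?_
      rw [add_comm]
    · simp
  constructor
  · intro h k hk1 hk2
    constructor
    · have h1 := key (k - (n - 1))
      rw [h, if_pos (by omega), show n - 1 + (k - (n - 1)) = k by omega] at h1
      exact h1.symm
    · have h1 := key (k - (n - 1) + (s - (n - 1)))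
      rw [h, if_neg (by omega), if_pos (by omega),
        show n - 1 + (k - (n - 1) + (s - (n - 1)) - (s - (n - 1))) = k by omega] at h1
      exact h1.symm
  · intro h
    funext m
    rw [key]
    split_ifs with h1 h2
    · exact (h (n - 1 + m) (by omega) (by omega)).1
    · exact (h (n - 1 + (m - (s - (n - 1)))) (by omega) (by omega)).2
    · rfl

/-- the column of index `j` of the places -/
def s5_tc {N : ℕ} (n s Q k : ℕ) (h : k = 2 * N) (a : Fin N → L) (j : Fin k) : List L :=
  if (j : ℕ) % 2 = 0 then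
    tcol n s (a ⟨j / 2, by omega⟩)⁻¹ ++ tcol n s ((a ⟨j / 2, by omega⟩)⁻¹ ^ Q)
  else tcol n s ((a ⟨j / 2, by omega⟩)⁻¹ ^ Q) ++ tcol n s (a ⟨j / 2, by omega⟩)⁻¹

lemma s5_flat {N : ℕ} (n s Q k : ℕ) (h : k = 2 * N) (a : Fin N → L) :
    (List.ofFn a).flatMap (tcols n s Q) =
      List.ofFn (fun j : Fin k => (([] : List (List L)), s5_tc n s Q k h a j)) := by
  have h1 := s5_flat_two h a
    (fun x => (([] : List (List L)), tcol n s x⁻¹ ++ tcol n s (x⁻¹ ^ Q)))
    (fun x => (([] : List (List L)), tcol n s (x⁻¹ ^ Q) ++ tcol n s x⁻¹))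
  refine h1.trans ?_
  congr 1
  funext j
  unfold s5_tc
  split_ifs <;> rfl

lemma s5_tc_length {N : ℕ} (n s Q k : ℕ) (h : k = 2 * N) (a : Fin N → L) (j : Fin k) :
    (s5_tc n s Q k h a j).length = 2 * (s - (n - 1)) := by
  unfold s5_tc tcol
  split_ifs <;> simp <;> omega

lemma s5_lc_length (n s : ℕ) (z z' : ℕ → K) :
    (s5_lc n s L z z').length = 2 * (s - (n - 1)) := by
  unfold s5_lc
  simp; omega

lemma s5_lin2 {N r : ℕ} (n s Q k : ℕ) (h : k = 2 * N) (zc zc' : Fin r → ℕ → K) (a : Fin N → L)
    (t : Fin k → L) (l : Fin r → L) :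
    (∑ j, t j • cvec (s5_tc n s Q k h a j) +
      ∑ i, l i • cvec (s5_lc n s L (zc i) (zc' i)) = 0) ↔
    SysL n s Q zc zc' a l (fun i => t ⟨2 * i, by omega⟩) (fun i => t ⟨2 * i + 1, by omega⟩) := by
  rw [← s5_lin, s5_sum_two h]
  have : ∀ i : Fin N, t ⟨2 * i, by omega⟩ • cvec (s5_tc n s Q k h a ⟨2 * i, by omega⟩) +
      t ⟨2 * i + 1, by omega⟩ • cvec (s5_tc n s Q k h a ⟨2 * i + 1, by omega⟩) =
      t ⟨2 * i, by omega⟩ • cvec (tcol n s (a i)⁻¹ ++ tcol n s ((a i)⁻¹ ^ Q)) +
      t ⟨2 * i + 1, by omega⟩ • cvec (tcol n s ((a i)⁻¹ ^ Q) ++ tcol n s (a i)⁻¹) := by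
    intro i
    have e1 : (2 * (i : ℕ)) % 2 = 0 := by omega
    have e2 : ¬ (2 * (i : ℕ) + 1) % 2 = 0 := by omega
    have e3 : (⟨2 * (i : ℕ) / 2, by omega⟩ : Fin N) = i := Fin.ext (by simp)
    have e4 : (⟨(2 * (i : ℕ) + 1) / 2, by omega⟩ : Fin N) = i := Fin.ext (by simp; omega)
    simp only [s5_tc, e1, e2, if_true, if_false, e3, e4]
  rw [Finset.sum_congr rfl fun i _ => this i]

end lin

/-! ### the table -/

lemma s5_tb {K L : Type} [Field K] [Field L] [Algebra K L] {tb : List (List K) × List (List K)}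
    (h : IsTb tb) : IsTb (Ty.map (algebraMap K L) TB tb : List (List L) × List (List L)) := by
  obtain ⟨tb1, tb2⟩ := tb
  change IsTb ((List.map (List.map (algebraMap K L)) tb1, List.map (List.map (algebraMap K L)) tb2) :
    List (List L) × List (List L))
  obtain ⟨h1, h2, h3, h4, h5⟩ := h
  have e : ∀ (m : List (List K)) (i j : ℕ),
      ((List.map (List.map (algebraMap K L)) m).getD i []).getD j 0 =
        algebraMap K L ((m.getD i []).getD j 0) := by
    intro m i j
    have e1 : (List.map (List.map (algebraMap K L)) m).getD i [] =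
        List.map (algebraMap K L) (m.getD i []) := by
      rw [List.getD_eq_getElem?_getD, List.getD_eq_getElem?_getD, List.getElem?_map]
      cases m[i]? <;> rfl
    rw [e1]
    generalize m.getD i [] = w
    rw [List.getD_eq_getElem?_getD, List.getD_eq_getElem?_getD, List.getElem?_map]
    cases w[j]? <;> simp
  refine ⟨?_, ?_, ?_, ?_, ?_⟩
  · simpa using h1
  · intro v hv
    obtain ⟨w, hw, rfl⟩ := List.mem_map.1 hv
    simpa using h2 w hw
  · simpa using h3
  · intro v hv
    obtain ⟨w, hw, rfl⟩ := List.mem_map.1 hv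
    simpa using h4 w hw
  · intro i hi i' hi' j hj
    have := congrArg (algebraMap K L) (h5 i hi i' hi' j hj)
    rw [map_sum] at this
    simp only [map_mul] at this
    simp only [e]
    rw [this]
    split_ifs <;> simp


/-! ### reindexing -/

section re
variable {K L : Type} [Field K] [Field L] [Algebra K L] {R : Type} [CommRing R] {π : K[X] →+* R}
  {ε : R →+* K} {s n N r : ℕ} {S : K[X][X]} {F : Fin r → R[X]}

lemma s5_local (h : LocalFact π ε s n r S F) (σ : Equiv.Perm (Fin r)) :
    LocalFact π ε s n r S (fun i => F (σ i)) where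
  surj := h.surj
  ker := h.ker
  eps := h.eps
  monic := h.monic
  deg := h.deg
  pos := h.pos
  td := h.td
  Fmonic := fun i => h.Fmonic (σ i)
  prod := (Equiv.prod_comp σ F).trans h.prod
  irr := fun i => h.irr (σ i)
  inj := fun _ _ hij => σ.injective (h.inj hij)

lemma s5_sys (σ : Equiv.Perm (Fin r)) (Q : ℕ) (a : Fin N → L) (g : Fin N → Fin n → L)
    (l : Fin r → K) (τ : Fin N → L) :
    Sys π s S (fun i => F (σ i)) Q a g l τ ↔ Sys π s S F Q a g (fun i => l (σ.symm i)) τ := by
  unfold Sys
  have key : ∀ Y : R[X], ∑ i, π (C (l i)) * lam (F (σ i)) (Y * derivative (F (σ i))) =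
      ∑ i, π (C (l (σ.symm i))) * lam (F i) (Y * derivative (F i)) := by
    intro Y
    rw [← Equiv.sum_comp σ (fun i => π (C (l (σ.symm i))) * lam (F i) (Y * derivative (F i)))]
    simp only [Equiv.symm_apply_apply]
  simp only [key]

lemma s5_good (σ : Equiv.Perm (Fin r)) (Q : ℕ) (a : Fin N → L) (g : Fin N → Fin n → L)
    (h : GoodR π s S F Q a g) : GoodR π s S (fun i => F (σ i)) Q a g := by
  obtain ⟨h1, h2, h3, h4⟩ := h
  refine ⟨h1, ?_, ?_, ?_⟩
  · intro l τ hs i j hij
    have := h2 _ _ ((s5_sys σ Q a g l τ).1 hs) (σ i) (σ j) hij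
    simpa using this
  · intro l hl
    obtain ⟨τ, hτ⟩ := h3 (fun i => l (σ.symm i)) (fun i j hij => hl _ _ (by
      obtain ⟨G, e1, e2, e3, e4, e5⟩ := hij
      exact ⟨G, e1, e2, e3, by simpa using e4, by simpa using e5⟩))
    exact ⟨τ, (s5_sys σ Q a g l τ).2 hτ⟩
  · intro τ hτ
    exact h4 τ ((s5_sys σ Q a g 0 τ).1 hτ)

end re

/-! ### the program -/

section prog
variable {F : Type} [Field F] [DecidableEq F]
variable {s : List (Ty × Ty)} {g : Ty}

/-- the number computed by `p`, increased by `k` -/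
def s5_consN : ℕ → Pr s g Un → Pr s g Un
  | 0, p => p
  | k + 1, p => .comp (.pair .star (s5_consN k p)) .cons

lemma s5_val_consN (k : ℕ) (p : Pr s g Un) (v : SV F s) (x : Ty.D F g) :
    (s5_consN k p).val v x = (List.replicate k () ++ p.val v x : List Unit) := by
  induction k with
  | zero => simp [s5_consN]
  | succ k ih => simp [s5_consN, ih, List.replicate_succ]

lemma s5_cost_consN (k : ℕ) (p : Pr s g Un) (v : SV F s) (c : SC F s) (x : Ty.D F g) :
    (s5_consN k p).cost v c x = p.cost v c x + 3 * k := by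
  induction k with
  | zero => simp [s5_consN]
  | succ k ih => simp [s5_consN, ih]; omega

/-- the number `12 n + 20`, where `n` is the length of the input -/
def s5_un : Pr [] Ma Un :=
  .comp (.pair .star (.pair (s5_consN 20 .nil) .id))
    (foldP (c := .unit) (s5_consN 12 (.comp .snd .fst)))

lemma s5_val_un (x : List (List F)) :
    (s5_un.val () x : List Unit) = un (12 * x.length + 20) := by
  have key : ∀ (l : List (List F)) (m : ℕ),
      List.foldl (fun (y : List Unit) (_ : List F) => List.replicate 12 () ++ y)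
        (List.replicate m ()) l = List.replicate (12 * l.length + m) () := by
    intro l
    induction l with
    | nil => intro m; simp
    | cons h t ih =>
      intro m
      rw [List.foldl_cons, List.replicate_append_replicate, ih]
      congr 1
      simp only [List.length_cons]; ring
  have := key x 20
  simp only [s5_un, val_comp, val_pair, val_star, val_id, val_foldP, s5_val_consN, val_nil,
    val_snd, val_fst, List.append_nil, un]
  exact this

lemma s5_cost_un (x : List (List F)) :
    s5_un.cost () () (x : Ty.D F Ma) ≤ 65 * x.length + 100 := by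
  have h := cost_foldP_le (F := F) (s := []) (c := .unit) (a := Po) (b := Un)
    (s5_consN 12 (.comp .snd .fst)) () () ((), ((List.replicate 20 () : List Unit), x)) 38
    (fun _ => True) trivial (fun _ _ _ _ => trivial)
    (fun _ _ _ _ => by rw [s5_cost_consN]; simp)
  simp only [s5_un, cost_comp, cost_pair, cost_star, cost_id, val_pair, val_star, val_id,
    s5_cost_consN, s5_val_consN, cost_nil, val_nil, List.append_nil] at h ⊢
  omega

/-- fit a row -/
def s5_f2 : Pr [] (.prod Ma Po) Po := .comp (.pair .fst (.pair .zero .snd)) fitP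

/-- the program -/
def s5_prog (pc : Pr [] (.prod TB (.prod (.prod Po Un) (.prod Ma (.prod Ma
    (.prod Po Ma))))) (.list (.prod Ma Po)))
    (pb : Pr [] (.prod TB (.prod Un (.list (.prod Ma Po)))) (.list Ma)) :
    Pr [] (.prod TB (.prod (.prod Po Un) (.prod Ma (.prod Ma
    (.prod Po Ma))))) (.list Ma) :=
  lt pc (.comp (.pair (.comp (.pair .nil (.comp .fst (.comp .snd (.comp .snd .fst)))) .cons)
    (.comp (.pair (.comp .fst .fst)
      (.pair (.comp (.comp .fst (.comp .snd (.comp .snd .fst))) s5_un) .snd)) pb))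
    (mapP (c := Ma) (mapP (c := Ma) s5_f2)))

lemma s5_val_prog (pc : Pr [] (.prod TB (.prod (.prod Po Un) (.prod Ma (.prod Ma
    (.prod Po Ma))))) (.list (.prod Ma Po)))
    (pb : Pr [] (.prod TB (.prod Un (.list (.prod Ma Po)))) (.list Ma))
    (tb : List (List F) × List (List F)) (be : List F × List Unit) (S : List (List F))
    (y : List (List F) × (List F × List (List F))) :
    ((s5_prog pc pb).val () (tb, (be, (S, y))) : List (List (List F))) =
      (pb.val () (tb, (un (12 * S.length + 20), pc.val () (tb, (be, (S, y))))) :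
        List (List (List F))).map (fun M => M.map (fun v => fit (S.length + 1) 0 v)) := by
  simp only [s5_prog, s5_f2, val_lt, val_comp, val_pair, val_nil, val_cons, val_fst, val_snd,
    val_mapP, val_fitP, val_zero, List.length_cons]
  rw [s5_val_un]

lemma s5_cost_fit (u M : List (List F)) :
    (mapP (c := Ma) s5_f2).cost () () ((u, M) : Ty.D F (.prod Ma Ma)) ≤
      (20 * u.length + 20) * M.length + 5 := by
  have h := cost_mapP_le (F := F) (s := []) (c := Ma) (a := Po) (b := Po) s5_f2 () () (u, M)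
    (20 * u.length + 7) (fun y _ => by
      have h1 := cost_fitP (F := F) (s := []) (a := .fld) (b := Po) () () (u, ((0 : F), y))
      simp only [s5_f2, cost_comp, cost_pair, cost_fst, cost_zero, cost_snd, val_pair, val_fst,
        val_zero, val_snd] at h1 ⊢
      omega)
  refine h.trans ?_
  rw [show 20 * u.length + 7 + 13 = 20 * u.length + 20 by ring]

lemma s5_cost_prog (pc : Pr [] (.prod TB (.prod (.prod Po Un) (.prod Ma (.prod Ma
    (.prod Po Ma))))) (.list (.prod Ma Po)))
    (pb : Pr [] (.prod TB (.prod Un (.list (.prod Ma Po)))) (.list Ma))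
    (tb : List (List F) × List (List F)) (be : List F × List Unit) (S : List (List F))
    (y : List (List F) × (List F × List (List F)))
    (hM : ∀ M ∈ (pb.val () (tb, (un (12 * S.length + 20), pc.val () (tb, (be, (S, y))))) :
        List (List (List F))), 1 ≤ M.length) :
    (s5_prog pc pb).cost () () (tb, (be, (S, y))) ≤
      pc.cost () () (tb, (be, (S, y))) +
      pb.cost () () (tb, (un (12 * S.length + 20), pc.val () (tb, (be, (S, y))))) +
      (20 * S.length + 80) * ((pb.val () (tb, (un (12 * S.length + 20),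
        pc.val () (tb, (be, (S, y))))) : List (List (List F))).map List.length).sum +
      65 * S.length + 200 := by
  have h1 := s5_cost_un S
  generalize hB : (pb.val () (tb, (un (12 * S.length + 20), pc.val () (tb, (be, (S, y))))) :
        List (List (List F))) = B at hM ⊢
  have h2 := cost_mapP (F := F) (s := []) (c := Ma) (a := Ma) (b := Ma) (mapP (c := Ma) s5_f2)
    () () ((([] : List F) :: S), B)
  have h3 : (List.map (fun y => (mapP (c := Ma) s5_f2).cost () ()
      ((([] : List F) :: S), y) + 13) B).sum ≤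
      (20 * S.length + 80) * (B.map List.length).sum := by
    clear hB h2 h1
    induction B with
    | nil => simp
    | cons M B ih =>
      have e1 := ih (fun M' hM' => hM M' (by simp [hM']))
      have e2 := hM M (by simp)
      have e3 := s5_cost_fit (([] : List F) :: S) M
      simp only [List.map_cons, List.sum_cons, List.length_cons] at e1 e3 ⊢
      nlinarith
  have h4 := h2.trans (Nat.add_le_add_right h3 5)
  clear h2 h3
  simp only [s5_prog, cost_lt, cost_comp, cost_pair, cost_nil, cost_cons, cost_fst, cost_snd,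
    val_comp, val_pair, val_nil, val_cons, val_fst, val_snd, s5_val_un] at h4 ⊢
  rw [hB]
  omega

end prog

/-! ### degrees -/

lemma s5_mbiv_deg {K : Type} [Field K] (A : List (List K)) :
    (mbiv A).Monic ∧ (mbiv A).natDegree = A.length := by
  have h1 : (biv A).degree < ((A.length : ℕ) : WithBot ℕ) := by
    have := s5_degree_pol (A.map pol)
    rwa [List.length_map] at this
  refine ⟨monic_X_pow_add h1, ?_⟩
  rw [mbiv, natDegree_eq_of_degree_eq_some]
  rw [degree_add_eq_left_of_degree_lt]
  · rw [degree_X_pow]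
  · rwa [degree_X_pow]

lemma s5_deg_prod {K : Type} [Field K] (out : List (List (List K))) :
    (out.map mbiv).prod.Monic ∧ (out.map mbiv).prod.natDegree = (out.map List.length).sum := by
  induction out with
  | nil => simp
  | cons A out ih =>
    obtain ⟨h1, h2⟩ := s5_mbiv_deg A
    obtain ⟨h3, h4⟩ := ih
    simp only [List.map_cons, List.prod_cons, List.sum_cons]
    exact ⟨h1.mul h3, by rw [h1.natDegree_mul h3, h2, h4]⟩


/-- the answer -/
lemma s5_recgood {K : Type} [Field K] {R : Type} [CommRing R] {π : K[X] →+* R}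
    {ε : R →+* K} {s n : ℕ} {r : ℕ} {S : List (List K)} {F : Fin r → R[X]}
    (h : LocalFact π ε s n r (mbiv S) F) (hS : S.length = n) {Gi : Fin r → K[X][X]}
    (hG : s5_IsG π (mbiv S) F Gi) (bs : List (Fin r)) (hnd : (bs.map Gi).Nodup)
    (hall : ∀ i, ∃ b ∈ bs, Gi b = Gi i) :
    RecGood S (bs.map (fun b => s5_rows n (Gi b))) := by
  classical
  have hrow : ∀ b, mbiv (s5_rows n (Gi b)) = Gi b := fun b =>
    s5_mbiv_rows (hG b).1 (s5_TD h (hG b).1 (hG b).2.2.1).2
  refine ⟨?_, ?_, ?_⟩
  · rw [List.map_map]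
    have e1 : List.map (mbiv ∘ fun b => s5_rows n (Gi b)) bs = bs.map Gi :=
      List.map_congr_left fun b _ => hrow b
    rw [e1, ← s5_prod h hG]
    have e2 : (bs.map Gi).toFinset = Finset.univ.image Gi := by
      ext G
      simp only [List.mem_toFinset, List.mem_map, Finset.mem_image, Finset.mem_univ, true_and]
      constructor
      · rintro ⟨b, _, rfl⟩; exact ⟨b, rfl⟩
      · rintro ⟨i, rfl⟩
        obtain ⟨b, hb, hb2⟩ := hall i
        exact ⟨b, hb, hb2⟩
    rw [← e2, List.prod_toFinset _ hnd, List.map_id']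
  · intro A hA
    obtain ⟨b, _, rfl⟩ := List.mem_map.1 hA
    refine ⟨?_, ?_, ?_⟩
    · have : (s5_rows n (Gi b)).length = (Gi b).natDegree := by simp [s5_rows]
      rw [this]
      rcases Nat.eq_zero_or_pos (Gi b).natDegree with h0 | h0
      · exfalso
        have h1 := (hG b).1.natDegree_eq_zero.1 h0
        exact (hG b).2.1.not_isUnit (by rw [h1]; exact isUnit_one)
      · exact h0
    · intro v hv
      obtain ⟨k, _, rfl⟩ := List.mem_map.1 hv
      simp [hS]
    · rw [hrow]
      exact (hG b).2.1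
  · rw [List.nodup_map_iff_inj_on]
    · intro b hb c hc he
      have e1 : Gi b = Gi c := by rw [← hrow b, ← hrow c, he]
      exact List.inj_on_of_nodup_map hnd hb hc e1
    · exact List.Nodup.of_map _ hnd

/-- TARGET -/
theorem specRec (h1 : SpecCols) (h2 : SpecBlk) (h3 : StmtRL) (h0 : SpecUnits) : SpecRec := by
  classical
  obtain ⟨pc, C1, k1, hpc⟩ := h1
  obtain ⟨pb, C2, k2, hpb⟩ := h2
  refine ⟨s5_prog pc pb, C1 + C2 + 400, k1 + k2, ?_⟩
  intro K L iK1 iK2 iK3 iL1 iL2 iL3 iA q e n tb S hs R iR π ε F a g hKL hQ htb hSl hSn hF hFm hgood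
  obtain ⟨r, Fs, zc, zc', hFs, hz, hz', hval, hcost⟩ :=
    hpc K L q e n tb S hs R π ε F a g hKL hQ htb hSl hSn hF hFm
  have hn : 1 ≤ n := hF.pos
  have hF' : LocalFact π ε (12 * n + 20) n hs.length (mbiv S) (fun i => F (r i)) :=
    s5_local hF r
  have hgood' : GoodR π (12 * n + 20) (mbiv S) (fun i => F (r i)) (Fintype.card K) a g :=
    s5_good r _ a g hgood
  obtain ⟨hA, hB, hC⟩ := h3 K L R π ε (12 * n + 20) n hs.length (2 * n + 2) (mbiv S)
    (fun i => F (r i)) hKL hF' (by omega) a g hgood' zc zc' hz hz'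
  rw [hQ] at hA hB hC
  obtain ⟨Gi, hGi⟩ := s5_exG hF'
  obtain ⟨fn, hfn⟩ := Set.countable_iff_exists_injOn.1 (Set.finite_range Gi).countable
  have hblk : ∀ i j, fn (Gi i) = fn (Gi j) ↔ Gi i = Gi j := fun i j =>
    ⟨fun he => hfn (Set.mem_range_self i) (Set.mem_range_self j) he, fun he => by rw [he]⟩
  have hsame : ∀ i j, SameBlock π (mbiv S) (fun i => F (r i)) i j ↔ fn (Gi i) = fn (Gi j) :=
    fun i j => (s5_same hF' hGi i j).trans (hblk i j).symm
  have hlen : ∀ i, (Ty.map (algebraMap K L) Ma (Fs i) : List (List L)).length =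
      (Fs i).length := fun i => List.length_map _
  have hdF : ∀ i, (F (r i)).natDegree = (Fs i).length := by
    have : Nontrivial R := ε.domain_nontrivial
    intro i
    rw [(hFs i).2.2]
    have h1 := s5_degree_pol ((Fs i).map (fun v => π (pol v)))
    rw [List.length_map] at h1
    rw [natDegree_eq_of_degree_eq_some]
    rw [degree_add_eq_left_of_degree_lt]
    · rw [degree_X_pow]
    · rwa [degree_X_pow]
  have hsum : ∑ i, (Ty.map (algebraMap K L) Ma (Fs i) : List (List L)).length = n := by
    have : Nontrivial R := ε.domain_nontrivial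
    rw [← hF'.deg, ← hF'.monic.natDegree_map π, ← hF'.prod,
      natDegree_prod_of_monic _ _ fun i _ => hF'.Fmonic i]
    exact Finset.sum_congr rfl fun i _ => (hlen i).trans (hdF i).symm
  have hlin1 : ∀ (t : Fin (4 * n + 4) → L) (l : Fin hs.length → L),
      ∑ j, t j • cvec (s5_tc n (12 * n + 20) (q ^ e) (4 * n + 4) (by omega) a j) +
        ∑ i, l i • cvec (s5_lc n (12 * n + 20) L (zc i) (zc' i)) = 0 →
      (∀ i i', fn (Gi i) = fn (Gi i') → l i = l i') ∧ (l = 0 → t = 0) := by
    intro t l h
    have hsys := (s5_lin2 n (12 * n + 20) (q ^ e) (4 * n + 4) (by omega) zc zc' a t l).1 h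
    refine ⟨fun i i' hii => hA l _ _ hsys i i' ((hsame i i').2 hii), fun hl => ?_⟩
    rw [hl] at hsys
    obtain ⟨e1, e2⟩ := hC _ _ hsys
    funext j
    have hj := j.2
    rcases Nat.even_or_odd' (j : ℕ) with ⟨i, hi | hi⟩
    · have := congrFun e1 ⟨i, by omega⟩
      have e3 : (⟨2 * ((⟨i, by omega⟩ : Fin (2 * n + 2)) : ℕ), by simp; omega⟩ : Fin (4 * n + 4)) = j :=
        Fin.ext hi.symm
      simp only at this
      rw [← e3]
      exact this
    · have := congrFun e2 ⟨i, by omega⟩
      have e3 : (⟨2 * ((⟨i, by omega⟩ : Fin (2 * n + 2)) : ℕ) + 1, by simp; omega⟩ :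
          Fin (4 * n + 4)) = j := Fin.ext hi.symm
      simp only at this
      rw [← e3]
      exact this
  have hlin2 : ∀ i, ∃ t : Fin (4 * n + 4) → L,
      ∑ j, t j • cvec (s5_tc n (12 * n + 20) (q ^ e) (4 * n + 4) (by omega) a j) +
        ∑ i', (if fn (Gi i') = fn (Gi i) then (1 : L) else 0) •
          cvec (s5_lc n (12 * n + 20) L (zc i') (zc' i')) = 0 := by
    intro i
    obtain ⟨τ, τ', hτ⟩ := hB (fun i' => if fn (Gi i') = fn (Gi i) then (1 : K) else 0)
      (fun i' i'' hii => by
        have := (hsame i' i'').1 hii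
        simp only [this])
    refine ⟨fun j => if (j : ℕ) % 2 = 0 then τ ⟨j / 2, by omega⟩ else τ' ⟨j / 2, by omega⟩, ?_⟩
    rw [s5_lin2 n (12 * n + 20) (q ^ e) (4 * n + 4) (by omega) zc zc' a]
    have e1 : (fun i' => if fn (Gi i') = fn (Gi i) then (1 : L) else 0) =
        (fun i' => algebraMap K L (if fn (Gi i') = fn (Gi i) then (1 : K) else 0)) := by
      funext i'
      split_ifs <;> simp
    rw [e1]
    convert hτ using 1
    · funext k
      have e2 : (2 * (k : ℕ)) % 2 = 0 := by omega
      have e3 : (⟨2 * (k : ℕ) / 2, by omega⟩ : Fin (2 * n + 2)) = k := Fin.ext (by simp)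
      simp only [e2, if_true, e3]
    · funext k
      have e2 : ¬ (2 * (k : ℕ) + 1) % 2 = 0 := by omega
      have e3 : (⟨(2 * (k : ℕ) + 1) / 2, by omega⟩ : Fin (2 * n + 2)) = k :=
        Fin.ext (by simp; omega)
      simp only [e2, if_false, e3]
  obtain ⟨⟨bs, hb1, hb2, hb3, hb4⟩, hcost2⟩ := hpb L (Ty.map (algebraMap K L) TB tb) n hs.length
    (2 * (12 * n + 20 - (n - 1)))
    (s5_tc n (12 * n + 20) (q ^ e) (4 * n + 4) (by omega) a)
    (fun i => Ty.map (algebraMap K L) Ma (Fs i))
    (fun i => s5_lc n (12 * n + 20) L (zc i) (zc' i)) (fun i => fn (Gi i)) (s5_tb htb) hn rfl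
    (fun j => s5_tc_length _ _ _ _ _ _ j) (fun i => s5_lc_length _ _ _ _)
    (fun i v hv => by
      obtain ⟨w, hw, rfl⟩ := List.mem_map.1 hv
      have := (hFs i).1 w hw
      rw [← this]
      exact List.length_map _)
    (fun i => by rw [hlen]; exact (hFs i).2.1) hsum hlin1 hlin2
  have hcols : (pc.val () (Ty.map (algebraMap K L) TB tb, ((bits L q, un e),
      (Ty.map (algebraMap K L) Ma S, (Ty.map (algebraMap K L) Ma hs, (List.ofFn a, rows g))))) :
      List (List (List L) × List L)) =
      List.ofFn (fun j => (([] : List (List L)),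
        s5_tc n (12 * n + 20) (q ^ e) (4 * n + 4) (by omega) a j)) ++
      List.ofFn (fun i => ((Ty.map (algebraMap K L) Ma (Fs i) : List (List L)),
        s5_lc n (12 * n + 20) L (zc i) (zc' i))) := by
    rw [hval, s5_flat n (12 * n + 20) (q ^ e) (4 * n + 4) (by omega) a]
    rfl
  have hSL : (Ty.map (algebraMap K L) Ma S : List (List L)).length = n :=
    (List.length_map _).trans hSl
  generalize hBl : (pb.val () (Ty.map (algebraMap K L) TB tb, (un (12 * n + 20),
    (List.ofFn (fun j => (([] : List (List L)),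
        s5_tc n (12 * n + 20) (q ^ e) (4 * n + 4) (by omega) a j)) ++
      List.ofFn (fun i => ((Ty.map (algebraMap K L) Ma (Fs i) : List (List L)),
        s5_lc n (12 * n + 20) L (zc i) (zc' i)))))) : List (List (List L))) = Bl at hb1 hb4
  have hBl' : (pb.val () (Ty.map (algebraMap K L) TB tb, (un
    (12 * (Ty.map (algebraMap K L) Ma S : List (List L)).length + 20),
    pc.val () (Ty.map (algebraMap K L) TB tb, ((bits L q, un e),
      (Ty.map (algebraMap K L) Ma S, (Ty.map (algebraMap K L) Ma hs,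
        (List.ofFn a, rows g))))))) : List (List (List L))) = Bl := by
    rw [hcols, hSL]; exact hBl
  have hnd : (bs.map Gi).Nodup := by
    have e1 : (bs.map (fun i => fn (Gi i))) = (bs.map Gi).map fn := by
      rw [List.map_map]; rfl
    rw [e1] at hb2
    exact List.Nodup.of_map _ hb2
  have hall : ∀ i, ∃ b ∈ bs, Gi b = Gi i := fun i => by
    obtain ⟨b, hb, hb'⟩ := hb3 i
    exact ⟨b, hb, (hblk b i).1 hb'⟩
  have hrec := s5_recgood hF' hSl hGi bs hnd hall
  have hout : Bl.map (fun M => M.map (fun v => fit (n + 1) 0 v)) =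
      (Ty.map (algebraMap K L) (.list Ma) (bs.map (fun b => s5_rows n (Gi b))) :
        List (List (List L))) := by
    change _ = List.map (Ty.map (algebraMap K L) Ma) (bs.map (fun b => s5_rows n (Gi b)))
    apply List.ext_getElem
    · simp only [List.length_map]; exact hb1.symm
    · intro j hj1 hj2
      rw [List.length_map] at hj1
      have hj3 : j < bs.length := by omega
      obtain ⟨e1, e2, e3⟩ := hb4 j hj1 hj3
      rw [List.getElem_map, List.getElem_map, List.getElem_map]
      refine s5_out hF' (by omega) (hGi _).1 (hGi _).2.2.1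
        (Finset.univ.filter (fun i => fn (Gi i) = fn (Gi bs[j]))) ?_ Fs hFs e1 e2 e3
      rw [s5_block hF' hGi]
      congr 1
      ext i
      simp only [Finset.mem_filter, Finset.mem_univ, true_and]
      exact (hblk i _).symm
  refine ⟨bs.map (fun b => s5_rows n (Gi b)), hrec, ?_, ?_⟩
  · rw [s5_val_prog, hBl', hSL]
    exact hout
  · -- the cost
    have hMlen : Bl.map List.length = (bs.map (fun b => s5_rows n (Gi b))).map List.length := by
      have e1 : Bl.map List.length =
          (Bl.map (fun M => M.map (fun v => fit (n + 1) 0 v))).map List.length := by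
        rw [List.map_map]
        exact List.map_congr_left fun M _ => (List.length_map _).symm
      rw [e1, hout]
      change (List.map (Ty.map (algebraMap K L) Ma)
        (bs.map (fun b => s5_rows n (Gi b)))).map List.length = _
      rw [List.map_map]
      exact List.map_congr_left fun M _ => List.length_map _
    have hMsum : (Bl.map List.length).sum = n := by
      rw [hMlen, ← (s5_deg_prod _).2, hrec.1, (s5_mbiv_deg S).2, hSl]
    have hM1 : ∀ M ∈ Bl, 1 ≤ M.length := by
      intro M hM
      have e1 : M.length ∈ Bl.map List.length := List.mem_map_of_mem hM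
      rw [hMlen] at e1
      obtain ⟨A, hA, hA2⟩ := List.mem_map.1 e1
      rw [← hA2]
      exact (hrec.2.1 A hA).1
    have hc := s5_cost_prog pc pb (Ty.map (algebraMap K L) TB tb) (bits L q, un e)
      (Ty.map (algebraMap K L) Ma S) (Ty.map (algebraMap K L) Ma hs, (List.ofFn a, rows g))
      (by rw [hBl']; exact hM1)
    rw [hBl', hMsum, hSL, hcols] at hc
    have hP1 : 1 ≤ lgc (n + 1) := by unfold lgc; omega
    have hP2 : lgc (n + 1) ≤ PL e q n := by
      unfold PL
      have h5 : 1 ≤ lgc q := by unfold lgc; omega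
      have h6 : 1 ≤ (e + 1) * lgc q := Nat.mul_pos (by omega) h5
      exact Nat.le_mul_of_pos_left _ h6
    have hP3 : 1 ≤ PL e q n := hP1.trans hP2
    have hw : (n + 1) * (n + 1) ≤ ww (n + 1) := h0.2.2.2.2.2.2.1 (n + 1)
    generalize hPg : PL e q n = P at hcost hP2 hP3 ⊢
    generalize hWg : ww (n + 1) = W at hcost hcost2 hw ⊢
    generalize hLg : lgc (n + 1) = Lg at hP1 hP2 hcost2
    have i1 : P ^ k1 ≤ P ^ (k1 + k2) := Nat.pow_le_pow_right hP3 (by omega)
    have i2 : Lg ^ k2 ≤ P ^ (k1 + k2) :=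
      (Nat.pow_le_pow_left hP2 k2).trans (Nat.pow_le_pow_right hP3 (by omega))
    have i3 : 1 ≤ P ^ (k1 + k2) := Nat.one_le_pow _ _ hP3
    have j1 : C1 * P ^ k1 * W ≤ C1 * P ^ (k1 + k2) * W :=
      Nat.mul_le_mul_right _ (Nat.mul_le_mul_left _ i1)
    have j2 : C2 * Lg ^ k2 * W ≤ C2 * P ^ (k1 + k2) * W :=
      Nat.mul_le_mul_right _ (Nat.mul_le_mul_left _ i2)
    have j3 : (20 * n + 80) * n + 65 * n + 200 ≤ 400 * P ^ (k1 + k2) * W := by
      have j4 : (20 * n + 80) * n + 65 * n + 200 ≤ 400 * ((n + 1) * (n + 1)) := by nlinarith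
      have j5 : 400 * ((n + 1) * (n + 1)) ≤ 400 * W := Nat.mul_le_mul_left _ hw
      have j6 : 400 * W ≤ 400 * P ^ (k1 + k2) * W :=
        Nat.mul_le_mul_right _ (by nlinarith)
      omega
    have j7 : (C1 + C2 + 400) * P ^ (k1 + k2) * W =
      C1 * P ^ (k1 + k2) * W + C2 * P ^ (k1 + k2) * W + 400 * P ^ (k1 + k2) * W := by ring
    rw [j7]
    omega

end Pool.Agent.H330FB.JS5
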