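import Pool.Agent.H330FB.Lib5
import Pool.Agent.H330FB.Spec3b
set_option autoImplicit false
noncomputable section
namespace Pool.Agent.H330FB.JS6
open Polynomial

/-! ### polynomials given by lists -/

section CoFpol

variable {R : Type} [CommRing R]

theorem coF_coeff (l : List R) (i : ℕ) : (pol l).coeff i = l.getD i 0 := by
  induction l generalizing i with
  | nil => simp [pol]
  | cons x l ih =>
    cases i with
    | zero => simp [pol]
    | succ i => simp [pol, coeff_C_succ, ih]

theorem coF_fit (n : ℕ) (l : List R) (h : l.length ≤ n) : pol (fit n 0 l) = pol l := by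
  induction n generalizing l with
  | zero =>
    have : l = [] := List.length_eq_zero_iff.mp (by omega)
    subst this; simp [fit]
  | succ n ih =>
    cases l with
    | nil =>
      have := ih [] (by simp)
      simp only [pol] at this
      simp [fit, pol, this]
    | cons x l => simp [fit, pol, ih l (by simpa using h)]

theorem coF_zp (l m : List R) : pol (zp (fun x y => x + y) l m) = pol l + pol m := by
  induction l generalizing m with
  | nil => simp [zp, pol]
  | cons x l ih =>
    cases m with
    | nil => simp [zp, pol]
    | cons y m => simp [zp, pol, ih m]; ring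

theorem coF_smul (a : R) (l : List R) : pol (l.map (fun x => a * x)) = C a * pol l := by
  induction l with
  | nil => simp [pol]
  | cons x l ih => simp [pol, ih]; ring

theorem coF_map {S : Type} [CommRing S] (φ : R →+* S) (l : List R) :
    pol (l.map φ) = (pol l).map φ := by
  induction l with
  | nil => simp [pol]
  | cons x l ih => simp [pol, ih]

theorem coF_sum (l : List R) : pol l = ∑ k ∈ Finset.range l.length, C (l.getD k 0) * X ^ k := by
  induction l with
  | nil => simp [pol]
  | cons x l ih =>
    rw [List.length_cons, Finset.sum_range_succ']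
    simp only [List.getD_cons_succ, List.getD_cons_zero, pow_zero, mul_one, pol]
    rw [add_comm]
    congr 1
    rw [ih, Finset.mul_sum]
    refine Finset.sum_congr rfl fun k _ => ?_
    ring

theorem coF_snoc (l : List R) : pol (l ++ [0]) = pol l := by
  induction l with
  | nil => simp [pol]
  | cons x l ih => simp [pol, ih]

theorem coF_natDegree (l : List R) (k : ℕ) (h : l.length ≤ k + 1) : (pol l).natDegree ≤ k := by
  rw [natDegree_le_iff_coeff_eq_zero]
  intro j hj
  rw [coF_coeff]
  exact List.getD_eq_default _ _ (by omega)

end CoFpol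

section CoFalg

variable {K : Type} [Field K]

/-- homogenization -/
noncomputable def coF_Hk (k : ℕ) (p : K[X]) : K[X][X] :=
  ∑ j ∈ Finset.range (k + 1), C (C (p.coeff j) * X ^ j) * X ^ (k - j)

theorem coF_hom (l : List (List K)) :
    hom l = ∑ k ∈ Finset.range l.length, coF_Hk k (pol (l.getD k [])) := by
  unfold hom coF_Hk
  simp_rw [coF_coeff]

theorem coF_sub_C (a b c : K) : sub a b (C (C c)) = C (C c) := by
  simp [sub]
theorem coF_sub_y (a b : K) : sub a b (C X) = C (X + C b) + C (C a) * X := by
  simp [sub]
theorem coF_sub_x (a b : K) : sub a b X = X := by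
  simp [sub]

theorem coF_pow (a : K) (k j : ℕ) (hj : j ≤ k) :
    coF_Hk k ((X + C a) ^ j) = (C X + C (C a) * X) ^ j * X ^ (k - j) := by
  unfold coF_Hk
  simp_rw [coeff_X_add_C_pow]
  rw [add_pow, Finset.sum_mul]
  have h1 : Finset.range (j + 1) ⊆ Finset.range (k + 1) := Finset.range_mono (by omega)
  rw [← Finset.sum_subset h1]
  · refine Finset.sum_congr rfl fun m hm => ?_
    have hm' : m ≤ j := by simpa [Nat.lt_succ_iff] using hm
    have e1 : k - m = (j - m) + (k - j) := by omega
    rw [e1, pow_add, mul_pow]
    simp only [map_mul, map_pow, map_natCast]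
    ring
  · intro m _ hm
    have hm' : j < m := by simpa [Nat.lt_succ_iff] using hm
    rw [Nat.choose_eq_zero_of_lt hm']
    simp

theorem coF_Hk_comp (a : K) (k : ℕ) (p : K[X]) (hp : p.natDegree ≤ k) :
    coF_Hk k (p.comp (X + C a)) = sub a 0 (coF_Hk k p) := by
  have h1 : ∀ m, (p.comp (X + C a)).coeff m =
      ∑ j ∈ Finset.range (k + 1), p.coeff j * ((X + C a) ^ j : K[X]).coeff m := by
    intro m
    rw [comp, eval₂_eq_sum_range' C (Nat.lt_succ_of_le hp), finsetSum_coeff]
    refine Finset.sum_congr rfl fun j _ => ?_
    rw [coeff_C_mul]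
  have h2 : coF_Hk k (p.comp (X + C a)) =
      ∑ j ∈ Finset.range (k + 1), C (C (p.coeff j)) * coF_Hk k ((X + C a) ^ j) := by
    unfold coF_Hk
    simp_rw [h1, Finset.mul_sum]
    rw [Finset.sum_comm]
    refine Finset.sum_congr rfl fun m _ => ?_
    rw [map_sum, Finset.sum_mul, map_sum, Finset.sum_mul]
    refine Finset.sum_congr rfl fun j _ => ?_
    simp only [map_mul]
    ring
  rw [h2]
  unfold coF_Hk
  rw [map_sum]
  refine Finset.sum_congr rfl fun j hj => ?_
  have hj' : j ≤ k := by simpa [Nat.lt_succ_iff] using hj
  have h3 := coF_pow a k j hj'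
  unfold coF_Hk at h3
  rw [h3]
  simp only [map_mul, map_pow, coF_sub_C, coF_sub_y, coF_sub_x, map_zero, add_zero]
  ring

theorem coF_sub_comp (a b : K) (f : K[X][X]) :
    sub a b f = (sub a 0 f).map (compRingHom (X + C b)) := by
  have : sub a b = (mapRingHom (compRingHom (X + C b))).comp (sub a 0) := by
    apply Polynomial.ringHom_ext
    · intro p
      have h2 : (sub a b).comp C = ((mapRingHom (compRingHom (X + C b))).comp (sub a 0)).comp C := by
        apply Polynomial.ringHom_ext
        · intro c
          simp [coF_sub_C]
        · simp only [RingHom.comp_apply, coF_sub_y]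
          simp
      exact RingHom.congr_fun h2 p
    · simp [coF_sub_x]
  rw [this]
  rfl

/-! matrix product -/

theorem coF_zip_coeff (r : List K) (B : List (List K)) (j : ℕ) :
    ((List.zipWith (fun x y => C x * pol y) r B).sum).coeff j =
      (List.zipWith (fun x y => x * y.getD j 0) r B).sum := by
  induction r generalizing B with
  | nil => simp
  | cons x r ih =>
    cases B with
    | nil => simp
    | cons y B =>
      simp only [List.zipWith_cons_cons, List.sum_cons, coeff_add, ih, coeff_C_mul, coF_coeff]

theorem coF_mrow (c : ℕ) (r : List K) (B : List (List K)) (hB : Sh c B) :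
    pol ((List.range c).map (fun j => (List.zipWith (fun x y => x * y.getD j 0) r B).sum)) =
      (List.zipWith (fun x y => C x * pol y) r B).sum := by
  ext j
  rw [coF_zip_coeff, coF_coeff]
  by_cases hj : j < c
  · rw [List.getD_eq_getElem _ _ (by simpa using hj)]
    simp
  · rw [List.getD_eq_default _ _ (by simpa using hj)]
    symm
    have : ∀ (r : List K) (B : List (List K)), Sh c B →
        (List.zipWith (fun x y => x * y.getD j 0) r B).sum = 0 := by
      intro r
      induction r with
      | nil => simp
      | cons x r ih =>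
        intro B hB
        cases B with
        | nil => simp
        | cons y B =>
          have h1 : y.getD j 0 = 0 := List.getD_eq_default _ _ (by
            have := hB y (by simp); omega)
          have h2 := ih B (fun r hr => hB r (by simp [hr]))
          simp only [List.zipWith_cons_cons, List.sum_cons, h1, mul_zero, zero_add, h2]
    exact this r B hB

/-- the rows of the Pascal matrix -/
def prow {F : Type} [Field F] (a : F) : ℕ → List F → List (List F)
  | 0, _ => []
  | n + 1, r => r :: prow a n (zp (fun x y => x + y) (0 :: r) (r.map (fun x => a * x)))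

theorem coF_length_zp {α : Type} (f : α → α → α) (l m : List α) :
    (zp f l m).length = max l.length m.length := by
  induction l generalizing m with
  | nil => simp [zp]
  | cons x l ih =>
    cases m with
    | nil => simp [zp]
    | cons y m => simp [zp, ih m]

theorem coF_length_prow (a : K) (n : ℕ) (r : List K) : (prow a n r).length = n := by
  induction n generalizing r with
  | zero => rfl
  | succ n ih => simp [prow, ih]

theorem coF_prow_rows (a : K) (n : ℕ) (r : List K) : ∀ x ∈ prow a n r,
    x.length + 1 ≤ r.length + n := by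
  induction n generalizing r with
  | zero => simp [prow]
  | succ n ih =>
    intro x hx
    simp only [prow, List.mem_cons] at hx
    rcases hx with rfl | hx
    · omega
    · have := ih _ x hx
      rw [coF_length_zp] at this
      simp at this
      omega

theorem coF_prow_sum (a : K) (n N : ℕ) (r0 : List K) (r : List K) (hr : r.length ≤ n)
    (hN : r0.length + n ≤ N + 1) :
    (List.zipWith (fun x y => C x * pol y) r ((prow a n r0).map (fit N 0))).sum =
      pol r0 * (pol r).comp (X + C a) := by
  induction n generalizing r0 r with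
  | zero =>
    have : r = [] := List.length_eq_zero_iff.mp (by omega)
    subst this; simp [pol]
  | succ n ih =>
    cases r with
    | nil => simp [pol]
    | cons x r =>
      simp only [prow, List.map_cons, List.zipWith_cons_cons, List.sum_cons]
      rw [ih _ r (by simpa using hr) (by rw [coF_length_zp]; simp; omega), coF_zp, coF_smul,
        coF_fit N r0 (by omega)]
      simp only [pol, map_zero, zero_add, add_comp, C_comp, mul_comp, X_comp]
      ring

/-- Pascal matrix -/
def coF_P (n : ℕ) (a : K) : List (List K) := (prow a n [1]).map (fit n 0)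

theorem coF_P_length (n : ℕ) (a : K) : (coF_P n a).length = n := by
  simp [coF_P, coF_length_prow]

theorem coF_P_sh (n : ℕ) (a : K) : Sh n (coF_P n a) := by
  intro r hr
  simp only [coF_P, List.mem_map] at hr
  obtain ⟨x, _, rfl⟩ := hr
  simp

theorem coF_mmul (n : ℕ) (a : K) (A : List (List K)) (hA : Sh n A) :
    (mmul n A (coF_P n a)).map pol = A.map (fun r => (pol r).comp (X + C a)) := by
  unfold mmul
  rw [List.map_map]
  apply List.map_congr_left
  intro r hr
  simp only [Function.comp_apply]
  rw [coF_mrow n r _ (coF_P_sh n a)]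
  unfold coF_P
  rw [coF_prow_sum a n n [1] r (hA r hr).le (by simp; omega)]
  simp [pol]

end CoFalg

section CoFshear

variable {K : Type} [Field K]

def coF_hd {F : Type} [Field F] (l : List F) : F := lcase l 0 (fun h _ => h)
def coF_tl {F : Type} (l : List F) : List F := lcase l [] (fun _ t => t)

/-- rows by powers of `x` -/
def coF_T {F : Type} [Field F] : ℕ → List (List F) → List (List F)
  | 0, _ => []
  | n + 1, B => lcase B [] (fun _ B' =>
      List.zipWith (fun x l => x :: l) (B.map coF_hd) (coF_T n (B'.map coF_tl) ++ [[]]))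

theorem coF_T_length (n : ℕ) (B : List (List K)) (h : B.length ≤ n) :
    (coF_T n B).length = B.length := by
  induction n generalizing B with
  | zero =>
    have : B = [] := List.length_eq_zero_iff.mp (by omega)
    subst this; rfl
  | succ n ih =>
    cases B with
    | nil => rfl
    | cons r B' =>
      simp only [coF_T, lcase_cons, List.length_zipWith, List.length_map, List.length_append,
        List.length_cons, List.length_nil]
      rw [ih _ (by simpa using h)]
      simp

theorem coF_T_rows (n : ℕ) (B : List (List K)) (h : B.length ≤ n) :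
    ∀ r ∈ coF_T n B, r.length ≤ B.length := by
  induction n generalizing B with
  | zero => simp [coF_T]
  | succ n ih =>
    cases B with
    | nil => simp [coF_T]
    | cons r B' =>
      intro x hx
      simp only [coF_T, lcase_cons] at hx
      obtain ⟨i, hi, rfl⟩ := List.getElem_of_mem hx
      rw [List.getElem_zipWith]
      simp only [List.length_cons]
      have h2 : ∀ y ∈ coF_T n (B'.map coF_tl) ++ [[]], y.length ≤ B'.length := by
        intro y hy
        rw [List.mem_append, List.mem_singleton] at hy
        rcases hy with hy | rfl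
        · have := ih _ (by simpa using h) y hy
          simpa using this
        · simp
      have := h2 _ (List.getElem_mem (l := coF_T n (B'.map coF_tl) ++ [[]]) (n := i) (by
        simp at hi ⊢; omega))
      omega

theorem coF_biv_cons (hs : List K) (Ts : List (List K)) (h : hs.length = Ts.length) :
    biv (List.zipWith (fun x l => x :: l) hs Ts) = pol (hs.map C) + C X * biv Ts := by
  induction hs generalizing Ts with
  | nil =>
    cases Ts with
    | nil => simp [biv, pol]
    | cons y Ts => simp at h
  | cons x hs ih =>
    cases Ts with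
    | nil => simp at h
    | cons y Ts =>
      have := ih Ts (by simpa using h)
      simp only [biv, List.zipWith_cons_cons, List.map_cons, pol] at this ⊢
      rw [this]
      simp only [map_add, map_mul]
      ring

theorem coF_biv_snoc (Ts : List (List K)) : biv (Ts ++ [[]]) = biv Ts := by
  unfold biv
  rw [List.map_append]
  exact coF_snoc _

theorem coF_getD_hd (l : List (List K)) (k : ℕ) :
    (l.map coF_hd).getD k 0 = (l.getD k []).getD 0 0 := by
  induction l generalizing k with
  | nil => simp
  | cons r l ih =>
    cases k with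
    | zero => cases r <;> simp [coF_hd]
    | succ k => simpa using ih k

theorem coF_getD_tl (l : List (List K)) (k j : ℕ) :
    ((l.map coF_tl).getD k []).getD j 0 = (l.getD k []).getD (j + 1) 0 := by
  induction l generalizing k with
  | nil => simp
  | cons r l ih =>
    cases k with
    | zero => cases r <;> simp [coF_tl]
    | succ k => simpa using ih k

theorem coF_hom_cons (r : List K) (B' : List (List K)) :
    hom (r :: B') = pol (((r :: B').map coF_hd).map C) + C X * hom (B'.map coF_tl) := by
  rw [coF_sum]
  unfold hom
  simp only [List.length_map, List.length_cons]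
  have h1 : ∀ k, (((r :: B').map coF_hd).map (C : K → K[X])).getD k 0 =
      C (((r :: B').getD k []).getD 0 0) := by
    intro k
    rw [← coF_getD_hd]
    generalize (r :: B').map coF_hd = l
    induction l generalizing k with
    | nil => simp
    | cons x l ih =>
      cases k with
      | zero => simp
      | succ k => simpa using ih k
  simp_rw [h1]
  have h2 : ∀ k, ∑ j ∈ Finset.range (k + 1),
      C (C (((r :: B').getD k []).getD j 0) * X ^ j) * X ^ (k - j) =
      ∑ j ∈ Finset.range k,
        C (C (((r :: B').getD k []).getD (j + 1) 0) * X ^ (j + 1)) * X ^ (k - (j + 1)) +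
      C (C (((r :: B').getD k []).getD 0 0)) * X ^ k := by
    intro k
    rw [Finset.sum_range_succ']
    simp
  simp_rw [h2]
  rw [Finset.sum_add_distrib, add_comm]
  congr 1
  rw [Finset.sum_range_succ', Finset.range_zero, Finset.sum_empty, add_zero, Finset.mul_sum]
  refine Finset.sum_congr rfl fun k _ => ?_
  rw [Finset.mul_sum]
  refine Finset.sum_congr rfl fun j _ => ?_
  rw [coF_getD_tl, List.getD_cons_succ, Nat.add_sub_add_right]
  simp only [map_mul, map_pow, pow_succ]
  ring

theorem coF_T_hom (n : ℕ) (B : List (List K)) (h : B.length ≤ n) : biv (coF_T n B) = hom B := by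
  induction n generalizing B with
  | zero =>
    have : B = [] := List.length_eq_zero_iff.mp (by omega)
    subst this; simp [coF_T, biv, pol, hom]
  | succ n ih =>
    cases B with
    | nil => simp [coF_T, biv, pol, hom]
    | cons r B' =>
      simp only [coF_T, lcase_cons]
      rw [coF_biv_cons, coF_biv_snoc, ih _ (by simpa using h), coF_hom_cons]
      rw [List.length_append, coF_T_length _ _ (by simpa using h)]
      simp

/-- the whole computation on lists -/
def coF_f {F : Type} [Field F] (a b : F) (H : List (List F)) : List (List F) :=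
  mmul H.length ((coF_T H.length (mmul H.length (H.map (fit H.length 0))
    (coF_P H.length a))).map (fit H.length 0)) (coF_P H.length b)

theorem coF_mmul_length {F : Type} [Field F] (c : ℕ) (A B : List (List F)) :
    (mmul c A B).length = A.length := by simp [mmul]

theorem coF_mmul_sh {F : Type} [Field F] (c : ℕ) (A B : List (List F)) :
    Sh c (mmul c A B) := by
  intro r hr
  simp only [mmul, List.mem_map] at hr
  obtain ⟨x, _, rfl⟩ := hr
  simp

theorem coF_sh_fit {F : Type} [Field F] (n : ℕ) (A : List (List F)) : Sh n (A.map (fit n 0)) := by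
  intro r hr
  simp only [List.mem_map] at hr
  obtain ⟨x, _, rfl⟩ := hr
  simp

theorem coF_correct (a b : K) (d : ℕ) (H : List (List K)) (hH : IsHom d H) :
    biv (coF_f a b H) = sub a b (hom H) := by
  obtain ⟨hlen, hrow⟩ := hH
  set n := H.length with hn
  set A := H.map (fit n 0) with hA
  set B := mmul n A (coF_P n a) with hB
  set D := (coF_T n B).map (fit n 0) with hD
  have hBlen : B.length = n := by rw [hB, coF_mmul_length, hA, List.length_map]
  have e1 : biv (coF_f a b H) = (biv D).map (compRingHom (X + C b)) := by
    change biv (mmul n D (coF_P n b)) = _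
    unfold biv
    rw [coF_mmul n b D (coF_sh_fit n _), ← coF_map, List.map_map (l := D)]
    rfl
  have e2 : biv D = hom B := by
    rw [← coF_T_hom n B hBlen.le]
    unfold biv
    rw [hD, List.map_map]
    congr 1
    apply List.map_congr_left
    intro r hr
    simp only [Function.comp_apply]
    apply coF_fit
    have := coF_T_rows n B hBlen.le r hr
    omega
  have e3 : hom B = sub a 0 (hom H) := by
    rw [coF_hom, coF_hom, hBlen, map_sum]
    refine Finset.sum_congr rfl fun k hk => ?_
    have hk1 : k < n := Finset.mem_range.mp hk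
    have hk2 : k < H.length := hk1
    have hlk := hrow k (by omega)
    have e4 : pol (B.getD k []) = (pol (H.getD k [])).comp (X + C a) := by
      have e5 := congrArg (fun l => l.getD k 0) (coF_mmul n a A (coF_sh_fit n H))
      rw [← hB] at e5
      rw [List.getD_eq_getElem _ _ (by rw [List.length_map]; omega),
        List.getD_eq_getElem _ _ (by rw [List.length_map, hA, List.length_map]; omega)] at e5
      simp only [List.getElem_map, hA] at e5
      rw [coF_fit _ _ (by
        rw [List.getD_eq_getElem _ _ hk2] at hlk
        omega)] at e5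
      rw [List.getD_eq_getElem _ _ (by omega), List.getD_eq_getElem _ _ hk2]
      exact e5
    rw [e4, coF_Hk_comp]
    exact coF_natDegree _ _ hlk.le
  rw [e1, e2, e3, ← coF_sub_comp]

end CoFshear

section CoFprog

variable {F : Type} [Field F] [DecidableEq F]
variable {s : List (Ty × Ty)} {b : Ty}

/-- next Pascal row -/
def coF_nextP : Pr s (.prod .fld Po) Po :=
  .comp (.pair (.comp (.pair .zero .snd) .cons) (mapP .mul)) (zpP .add)

theorem coF_val_nextP (v : SV F s) (x : Ty.D F (.prod .fld Po)) :
    (coF_nextP : Pr s (.prod .fld Po) Po).val v x =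
      zp (fun y z => y + z) ((0 : F) :: x.2) (List.map (fun y => x.1 * y) x.2) := by
  simp [coF_nextP]

theorem coF_cost_nextP (v : SV F s) (k : SC F s) (x : Ty.D F (.prod .fld Po)) :
    (coF_nextP : Pr s (.prod .fld Po) Po).cost v k x ≤ 60 * List.length x.2 + 80 := by
  obtain ⟨a, l⟩ := x
  have h1 := cost_mapP_le (s := s) (c := .fld) (a := .fld) (b := .fld) .mul v k (a, l) 1
    (fun _ _ => by simp)
  have h2 := cost_zpP_le (s := s) (a := .fld) .add v k
    ((Pr.pair (.comp (.pair .zero .snd) .cons) (mapP .mul) :
      Pr s (.prod .fld Po) (.prod Po Po)).val v (a, l)) 1 (fun _ _ _ _ => by simp)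
  simp [coF_nextP] at h1 h2 ⊢
  omega

/-- Pascal rows -/
def coF_prowP : Pr s (.prod (.list b) (.prod .fld Po)) Ma :=
  .recD (.comp (.pair .snd (.comp (.pair .fst coF_nextP) .self)) .cons) .nil

theorem coF_val_prowP (v : SV F s) (x : Ty.D F (.prod (.list b) (.prod .fld Po))) :
    (coF_prowP : Pr s (.prod (.list b) (.prod .fld Po)) Ma).val v x =
      prow x.2.1 (List.length x.1) x.2.2 := by
  obtain ⟨u, a, r⟩ := x
  simp only [coF_prowP, val_recD]
  generalize List.length u = n
  induction n generalizing r with
  | zero => simp [goV, prow]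
  | succ n ih => simp [goV, prow, coF_val_nextP] at ih ⊢; rw [ih]

theorem coF_cost_prowP (v : SV F s) (k : SC F s) (x : Ty.D F (.prod (.list b) (.prod .fld Po))) :
    (coF_prowP : Pr s (.prod (.list b) (.prod .fld Po)) Ma).cost v k x ≤
      (60 * (List.length x.2.2 + List.length x.1) + 90) * List.length x.1 + 2 := by
  obtain ⟨u, a, r⟩ := x
  simp only [coF_prowP, cost_recD]
  generalize List.length u = n
  induction n generalizing r with
  | zero => simp [goC]
  | succ n ih =>
    have e1 := ih (zp (fun y z => y + z) ((0 : F) :: r) (List.map (fun y => a * y) r))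
    have e2 := coF_cost_nextP (s := (.prod .fld Po, Ma) :: s) (F := F)
      (goV (.comp (.pair .snd (.comp (.pair .fst coF_nextP) .self)) .cons) .nil v n, v)
      (goC (.comp (.pair .snd (.comp (.pair .fst coF_nextP) .self)) .cons) .nil v k n, k) (a, r)
    rw [coF_length_zp] at e1
    simp [goC, coF_val_nextP] at e1 e2 ⊢
    nlinarith

/-- pad all rows to the length of a list; input `(u, rows)` -/
def coF_padP : Pr s (.prod (.list b) Ma) Ma :=
  mapP (.comp (.pair .fst (.pair .zero .snd)) fitP)

theorem coF_val_padP (v : SV F s) (x : Ty.D F (.prod (.list b) Ma)) :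
    (coF_padP : Pr s (.prod (.list b) Ma) Ma).val v x =
      List.map (fit (List.length x.1) (0 : F)) x.2 := by
  simp [coF_padP]

theorem coF_cost_padP (v : SV F s) (k : SC F s) (x : Ty.D F (.prod (.list b) Ma)) :
    (coF_padP : Pr s (.prod (.list b) Ma) Ma).cost v k x ≤
      (20 * List.length x.1 + 30) * List.length x.2 + 5 := by
  have h := cost_mapP_le (s := s) (c := .list b) (a := Po) (b := Po)
    (.comp (.pair .fst (.pair .zero .snd)) fitP) v k x (20 * List.length x.1 + 10)
    (fun y _ => by
      have := cost_fitP (s := s) v k (x.1, ((0 : F), y))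
      simp at this ⊢
      omega)
  unfold coF_padP
  refine h.trans ?_
  apply Nat.add_le_add_right
  apply Nat.mul_le_mul_right
  omega

def coF_hdP : Pr s Po .fld := onL .id .zero (.comp .snd .fst)
def coF_tlP : Pr s Po Po := onL .id .nil (.comp .snd .snd)

theorem coF_val_hdP (v : SV F s) (x : Ty.D F Po) :
    (coF_hdP : Pr s Po .fld).val v x = coF_hd (F := F) x := by
  simp [coF_hdP, coF_hd]
theorem coF_val_tlP (v : SV F s) (x : Ty.D F Po) :
    (coF_tlP : Pr s Po Po).val v x = coF_tl (F := F) x := by
  simp [coF_tlP, coF_tl]
theorem coF_cost_hdP (v : SV F s) (k : SC F s) (x : Ty.D F Po) :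
    (coF_hdP : Pr s Po .fld).cost v k x ≤ 6 := by
  cases x <;> simp [coF_hdP]
theorem coF_cost_tlP (v : SV F s) (k : SC F s) (x : Ty.D F Po) :
    (coF_tlP : Pr s Po Po).cost v k x ≤ 6 := by
  cases x <;> simp [coF_tlP]

/-- body of the shear -/
def coF_TB : Pr ((Ma, Ma) :: s) Ma Ma :=
  onL .id .nil
    (.comp (.pair .star (.pair
      (.comp (.pair .star .fst) (mapP (c := .unit) (.comp .snd coF_hdP)))
      (.comp (.pair (.comp (.comp (.pair .star (.comp .snd .snd))
        (mapP (c := .unit) (.comp .snd coF_tlP))) .self)
        (.comp (.pair .nil .nil) .cons)) appP)))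
      (zipP (c := .unit) (.comp .snd .cons)))

/-- the shear -/
def coF_TP : Pr s (.prod (.list b) Ma) Ma := .recD coF_TB .nil

theorem coF_goV_T (v : SV F s) (n : ℕ) (B : List (List F)) :
    goV (s := s) coF_TB .nil v n B = coF_T n B := by
  induction n generalizing B with
  | zero => simp [goV, coF_T]
  | succ n ih =>
    simp only [goV]
    generalize goV (s := s) coF_TB .nil v n = g at ih
    cases B with
    | nil => simp [coF_T, coF_TB]
    | cons r B' => simp [coF_T, coF_TB, coF_val_hdP, coF_val_tlP, ih]

theorem coF_val_TP (v : SV F s) (x : Ty.D F (.prod (.list b) Ma)) :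
    (coF_TP : Pr s (.prod (.list b) Ma) Ma).val v x = coF_T (F := F) (List.length x.1) x.2 := by
  simp only [coF_TP, val_recD]
  exact coF_goV_T v _ _

theorem coF_cost_TB (v : SV F ((Ma, Ma) :: s)) (k : SC F ((Ma, Ma) :: s)) (N : ℕ)
    (r : List F) (B' : List (List F)) (hN : B'.length = N)
    (hv : List.length (v.1 (B'.map coF_tl)) = N) :
    (coF_TB : Pr ((Ma, Ma) :: s) Ma Ma).cost v k (r :: B') ≤
      150 * N + 250 + k.1 (B'.map coF_tl) := by
  have h1 := cost_mapP_le (s := (Ma, Ma) :: s) (c := .unit) (a := Po) (b := .fld)
    (.comp .snd coF_hdP) v k ((), r :: B') 7 (fun y _ => by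
      have := coF_cost_hdP (s := (Ma, Ma) :: s) v k y
      simp at this ⊢; omega)
  have h2 := cost_mapP_le (s := (Ma, Ma) :: s) (c := .unit) (a := Po) (b := Po)
    (.comp .snd coF_tlP) v k ((), B') 7 (fun y _ => by
      have := coF_cost_tlP (s := (Ma, Ma) :: s) v k y
      simp at this ⊢; omega)
  have h3 := cost_appP (s := (Ma, Ma) :: s) (a := Po) v k (v.1 (B'.map coF_tl), [([] : List F)])
  have h4 := cost_zipP_le (s := (Ma, Ma) :: s) (c := .unit) (a := .fld) (b := Po) (d := Po)
    (.comp .snd .cons) v k ((), ((r :: B').map coF_hd, v.1 (B'.map coF_tl) ++ [([] : List F)])) 2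
    (fun _ _ _ _ => by simp)
  simp only [List.map_cons, List.length_cons, List.length_map] at h1 h2 h3 h4
  rw [hv] at h3
  rw [hN] at h1 h2 h4
  simp [coF_TB, coF_val_hdP, coF_val_tlP] at h1 h2 h3 h4 ⊢
  eta_reduce
  omega

theorem coF_cost_TP (v : SV F s) (k : SC F s) (x : Ty.D F (.prod (.list b) Ma))
    (hx : List.length x.2 ≤ List.length x.1) :
    (coF_TP : Pr s (.prod (.list b) Ma) Ma).cost v k x ≤
      (250 * List.length x.2 + 250) * (List.length x.1 + 1) + 2 := by
  obtain ⟨u, B⟩ := x
  simp only [coF_TP, cost_recD]
  have : ∀ (n : ℕ) (B : List (List F)), B.length ≤ n →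
      goC (s := s) coF_TB .nil v k n B ≤ (250 * B.length + 250) * (n + 1) := by
    intro n
    induction n with
    | zero => intro B _; simp [goC]
    | succ n ih =>
      intro B hB
      cases B with
      | nil => simp [goC, coF_TB]; omega
      | cons r B' =>
        have hB' : B'.length ≤ n := by simpa using hB
        have e1 := coF_cost_TB (s := s) (goV (s := s) coF_TB .nil v n, v)
          (goC (s := s) coF_TB .nil v k n, k) B'.length r B' rfl (by
            simp only [coF_goV_T]
            rw [coF_T_length _ _ (by simpa using hB'), List.length_map])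
        have e2 := ih (B'.map coF_tl) (by simpa using hB')
        simp only [List.length_map] at e2
        simp only [goC, List.length_cons]
        simp only at e1
        nlinarith
  have h2 := this u.length B hx
  simp only at h2 hx ⊢
  omega

/-- Pascal matrix; input `(u, a)` -/
def coF_PP : Pr s (.prod Un .fld) Ma :=
  .comp (.pair .fst (.comp (.pair .fst (.pair .snd (.comp (.pair .one .nil) .cons))) coF_prowP))
    coF_padP

theorem coF_val_PP (v : SV F s) (x : Ty.D F (.prod Un .fld)) :
    (coF_PP : Pr s (.prod Un .fld) Ma).val v x = coF_P (List.length x.1) (x.2 : F) := by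
  simp [coF_PP, coF_val_padP, coF_val_prowP, coF_P]

theorem coF_cost_PP (v : SV F s) (k : SC F s) (x : Ty.D F (.prod Un .fld)) :
    (coF_PP : Pr s (.prod Un .fld) Ma).cost v k x ≤
      300 * (List.length x.1 + 1) * (List.length x.1 + 1) := by
  obtain ⟨u, a⟩ := x
  have h1 := coF_cost_prowP (s := s) v k (u, (a, [(1 : F)]))
  have h2 := coF_cost_padP (s := s) v k (u, prow a u.length [(1 : F)])
  simp only [coF_length_prow, List.length_cons, List.length_nil] at h1 h2
  simp [coF_PP, coF_val_prowP] at h1 h2 ⊢
  nlinarith

/-- unary length; input `H` -/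
def coF_unP : Pr s Ma Un := .comp (.pair .star .id) (mapP (c := .unit) .star)

theorem coF_val_unP (v : SV F s) (x : Ty.D F Ma) :
    (coF_unP : Pr s Ma Un).val v x = un (List.length x) := by
  simp [coF_unP, un]

theorem coF_cost_unP (v : SV F s) (k : SC F s) (x : Ty.D F Ma) :
    (coF_unP : Pr s Ma Un).cost v k x ≤ 14 * List.length x + 8 := by
  have h1 := cost_mapP_le (s := s) (c := .unit) (a := Po) (b := .unit) .star v k ((), x) 1
    (fun _ _ => by simp)
  simp [coF_unP] at h1 ⊢
  omega

/-- the program for the substitution -/
def coF_main (pm : Pr [] (.prod Un (.prod Ma Ma)) Ma) : Pr [] (.prod .fld (.prod .fld Ma)) Ma :=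
  lt (.comp (.comp .snd .snd) coF_unP)
    (lt (.comp (.pair .snd (.pair
        (.comp (.pair .snd (.comp .fst (.comp .snd .snd))) coF_padP)
        (.comp (.pair .snd (.comp .fst .fst)) coF_PP))) pm)
      (.comp (.pair (.comp .fst .snd) (.pair
        (.comp (.pair (.comp .fst .snd) (.comp (.pair (.comp .fst .snd) .snd) coF_TP)) coF_padP)
        (.comp (.pair (.comp .fst .snd) (.comp (.comp (.comp .fst .fst) .snd) .fst)) coF_PP)))
        pm))

theorem length_un (n : ℕ) : (un n).length = n := by simp [un]

end CoFprog

theorem specCoF (h1 : SpecMM) (h0 : SpecUnits) : SpecCoF := by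
  obtain ⟨pm, Cm, hm⟩ := h1
  obtain ⟨-, -, hvmono, -, -, -, hww, -, -, hclog, -⟩ := h0
  obtain ⟨C1, hC1⟩ := hclog 3
  refine ⟨coF_main pm, 10000 + 8 * Cm * C1, ?_⟩
  intro F _ _ a b d H hH
  have hlen : H.length = d + 1 := hH.1
  set n := H.length with hn
  have hA : Sh (coF_P n a).length (H.map (fit n (0 : F))) := by
    rw [coF_P_length]; exact coF_sh_fit n H
  obtain ⟨m1, m2⟩ := hm F n (H.map (fit n 0)) (coF_P n a) hA (coF_P_sh n a)
  set B := mmul n (H.map (fit n 0)) (coF_P n a) with hB
  have hBlen : B.length = n := by rw [hB, coF_mmul_length, List.length_map]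
  have hD : Sh (coF_P n b).length ((coF_T n B).map (fit n (0 : F))) := by
    rw [coF_P_length]; exact coF_sh_fit n _
  obtain ⟨m3, m4⟩ := hm F n ((coF_T n B).map (fit n 0)) (coF_P n b) hD (coF_P_sh n b)
  have hval : (coF_main pm).val () (a, (b, H)) = coF_f a b H := by
    simp only [coF_main, val_lt, val_comp, val_pair, val_fst, val_snd, coF_val_unP, coF_val_padP,
      coF_val_PP, coF_val_TP, length_un]
    rw [← hn, m1, m3]
    rfl
  intro r
  have hr : r = coF_f a b H := hval
  refine ⟨?_, ?_, ?_, ?_⟩
  · rw [hr]
    unfold coF_f
    rw [coF_mmul_length, List.length_map, coF_T_length _ _ (by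
      rw [← hn, ← hB, hBlen]), ← hn, ← hB, hBlen, hlen]
  · rw [hr, ← hlen]
    exact coF_mmul_sh _ _ _
  · rw [hr]
    exact coF_correct a b d H hH
  · have c1 := coF_cost_unP (F := F) (s := []) () () H
    have c2 := coF_cost_padP (F := F) (s := []) (b := .unit) () () (un n, H)
    have c3 := coF_cost_PP (F := F) (s := []) () () (un n, a)
    have c4 := coF_cost_PP (F := F) (s := []) () () (un n, b)
    have c5 := coF_cost_TP (F := F) (s := []) (b := .unit) () () (un n, B) (by
      simp only [length_un]; omega)
    have c6 := coF_cost_padP (F := F) (s := []) (b := .unit) () () (un n, coF_T n B)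
    simp only [length_un, coF_T_length n B hBlen.le, hBlen] at c1 c2 c3 c4 c5 c6
    rw [← hn] at c1 c2
    have hTl : ((coF_T n B).map (fit n (0 : F))).length = n := by
      rw [List.length_map, coF_T_length n B hBlen.le, hBlen]
    rw [coF_P_length] at m2 m4
    rw [hTl] at m4
    rw [List.length_map, ← hn] at m2
    have hv : vv (Nat.clog 2 (n + n + 1)) ≤ C1 * vv (Nat.clog 2 n) := by
      have e1 := hC1 d
      rw [← hlen] at e1
      refine le_trans (hvmono _ _ (Nat.clog_mono_right 2 ?_)) e1
      omega
    have hw : n * n ≤ ww n := hww n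
    have hw2 : ww n = n * vv (Nat.clog 2 n) := rfl
    have hmm : Cm * (n + n + n + 1) * vv (Nat.clog 2 (n + n + 1)) ≤ 4 * Cm * C1 * ww n := by
      calc Cm * (n + n + n + 1) * vv (Nat.clog 2 (n + n + 1))
          ≤ Cm * (4 * n) * (C1 * vv (Nat.clog 2 n)) := by
            apply Nat.mul_le_mul _ hv
            apply Nat.mul_le_mul_left
            omega
        _ = 4 * Cm * C1 * ww n := by rw [hw2]; ring
    have hn1 : 1 ≤ n := by omega
    rw [← hlen]
    simp only [coF_main, cost_lt, cost_comp, cost_pair, cost_fst, cost_snd, val_comp,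
      val_pair, val_fst, val_snd, coF_val_unP, coF_val_padP, coF_val_PP, coF_val_TP, length_un]
    rw [← hn, m1]
    have m2' := m2.trans hmm
    have m4' := m4.trans hmm
    nlinarith

end Pool.Agent.H330FB.JS6
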