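import Pool.Agent.H330FB.Lib5
import Pool.Agent.H330FB.Spec3b

set_option autoImplicit false

/-!
# Coordinates, backward (job S6b)

The substitution `y = t + a x + b` in a polynomial of total degree at most `m`: multiplication of
the rows by the Pascal matrix of `b`, passage to the homogeneous parts (antidiagonals),
multiplication by the Pascal matrix of `a`.
-/

noncomputable section
namespace Pool.Agent.H330FB.JS6b

open Polynomial

section prog
variable {F : Type} [Field F] [DecidableEq F]
variable {s : List (Ty × Ty)} {c : Ty}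

/-- next row of the Pascal matrix -/
def s6nx {F : Type} [Field F] (b : F) (r : List F) : List F :=
  List.zipWith (fun x y => x + b * y) (0 :: r) r

/-- rows of the Pascal matrix -/
def s6pasc {F : Type} [Field F] (b : F) : ℕ → List F → List (List F)
  | 0, _ => []
  | n + 1, r => r :: s6pasc b n (s6nx b r)

/-- next row of the Pascal matrix, input `(b, r)` -/
def s6nxP : Pr s (.prod .fld Po) Po :=
  .comp (.pair .fst (.pair (.comp (.pair .zero .snd) .cons) .snd))
    (zipP (c := .fld) (a := .fld) (b := .fld) (d := .fld)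
      (.comp (.pair (.comp .snd .fst) (.comp (.pair .fst (.comp .snd .snd)) .mul)) .add))

@[simp] theorem val_s6nxP (v : SV F s) (x : Ty.D F (.prod .fld Po)) :
    (s6nxP : Pr s (.prod .fld Po) Po).val v x = s6nx (x.1 : F) x.2 := by
  simp [s6nxP, s6nx]

theorem cost_s6nxP (v : SV F s) (k : SC F s) (x : Ty.D F (.prod .fld Po)) :
    (s6nxP : Pr s (.prod .fld Po) Po).cost v k x ≤ 70 * List.length x.2 + 100 := by
  have h := cost_zipP_le (s := s) (F := F) (c := .fld) (a := .fld) (b := .fld) (d := .fld)
      (.comp (.pair (.comp .snd .fst) (.comp (.pair .fst (.comp .snd .snd)) .mul)) .add)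
      v k (x.1, ((0 : F) :: x.2, x.2)) 11 (fun _ _ _ _ => by simp)
  simp [s6nxP] at h ⊢
  omega

/-- rows of the Pascal matrix, input `(u, (b, r))` -/
def s6pascP : Pr s (.prod (.list c) (.prod .fld Po)) Ma :=
  .recD (.comp (.pair .snd (.comp (.pair .fst s6nxP) .self)) .cons) .nil

@[simp] theorem val_s6pascP (v : SV F s) (x : Ty.D F (.prod (.list c) (.prod .fld Po))) :
    (s6pascP : Pr s (.prod (.list c) (.prod .fld Po)) Ma).val v x =
      s6pasc (x.2.1 : F) (List.length x.1) x.2.2 := by
  obtain ⟨u, b, r⟩ := x
  simp only [s6pascP, val_recD]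
  generalize List.length u = n
  induction n generalizing r with
  | zero => simp [goV, s6pasc]
  | succ n ih => simp [goV, s6pasc, ih]

theorem length_s6nx {F : Type} [Field F] (b : F) (r : List F) : (s6nx b r).length = r.length := by
  simp [s6nx]

theorem cost_s6pascP (v : SV F s) (k : SC F s) (x : Ty.D F (.prod (.list c) (.prod .fld Po))) :
    (s6pascP : Pr s (.prod (.list c) (.prod .fld Po)) Ma).cost v k x ≤
      (70 * List.length x.2.2 + 120) * List.length x.1 + 2 := by
  obtain ⟨u, b, r⟩ := x
  simp only [s6pascP, cost_recD]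
  generalize List.length u = n
  induction n generalizing r with
  | zero => simp [goC]
  | succ n ih =>
    have h1 := ih (s6nx b r)
    have h2 := cost_s6nxP (s := (.prod .fld Po, Ma) :: s) (F := F)
      (goV (.comp (.pair .snd (.comp (.pair .fst s6nxP) .self)) .cons) .nil v n, v)
      (goC (.comp (.pair .snd (.comp (.pair .fst s6nxP) .self)) .cons) .nil v k n, k) (b, r)
    rw [length_s6nx] at h1
    simp [goC] at h1 h2 ⊢
    nlinarith

/-- the Pascal matrix of size `N` -/
def s6P {F : Type} [Field F] (b : F) (N : ℕ) : List (List F) := s6pasc b N (fit N 0 [1])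

/-- the Pascal matrix, input `(u, b)` -/
def s6PP : Pr s (.prod (.list c) .fld) Ma :=
  .comp (.pair .fst (.pair .snd (.comp (.pair .fst (.pair .zero
    (.comp (.pair .one .nil) .cons))) fitP))) s6pascP

@[simp] theorem val_s6PP (v : SV F s) (x : Ty.D F (.prod (.list c) .fld)) :
    (s6PP : Pr s (.prod (.list c) .fld) Ma).val v x = s6P (x.2 : F) (List.length x.1) := by
  simp [s6PP, s6P]

theorem cost_s6PP (v : SV F s) (k : SC F s) (x : Ty.D F (.prod (.list c) .fld)) :
    (s6PP : Pr s (.prod (.list c) .fld) Ma).cost v k x ≤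
      (70 * List.length x.1 + 140) * List.length x.1 + 20 := by
  have h1 := cost_fitP (s := s) (F := F) (b := c) (a := .fld) v k (x.1, ((0 : F), [(1 : F)]))
  have h2 := cost_s6pascP (s := s) (F := F) (c := c) v k
    (x.1, ((x.2 : F), fit (List.length x.1) (0 : F) [1]))
  simp [s6PP] at h1 h2 ⊢
  nlinarith

/-- antidiagonals -/
def s6E {α : Type} (A : List (List α)) : List (List α) :=
  A.foldr (fun r acc => List.zipWith (fun x l => x :: l) r ([] :: acc)) []

/-- antidiagonals -/
def s6EP {a : Ty} : Pr s (.list (.list a)) (.list (.list a)) :=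
  .comp (.pair .star (.pair .nil revP))
    (foldP (c := .unit) (.comp (.pair .star (.pair (.comp .snd .snd)
      (.comp (.pair .nil (.comp .snd .fst)) .cons))) (zipP (c := .unit) (.comp .snd .cons))))

@[simp] theorem val_s6EP {a : Ty} (v : SV F s) (x : Ty.D F (.list (.list a))) :
    (s6EP : Pr s (.list (.list a)) (.list (.list a))).val v x = s6E x := by
  simp [s6EP, s6E]

theorem cost_s6EP {a : Ty} (v : SV F s) (k : SC F s) (x : Ty.D F (.list (.list a))) (n : ℕ)
    (h : ∀ r ∈ x, List.length r ≤ n) :
    (s6EP : Pr s (.list (.list a)) (.list (.list a))).cost v k x ≤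
      (51 * n + 90) * (List.length x + 1) := by
  have h2 := cost_revP (s := s) v k x
  have h3 := cost_foldP_le (s := s) (c := .unit) (b := .list (.list a)) (a := .list a)
    (.comp (.pair .star (.pair (.comp .snd .snd)
      (.comp (.pair .nil (.comp .snd .fst)) .cons))) (zipP (c := .unit) (.comp .snd .cons))) v k
    ((), (([] : List (List (Ty.D F a))), List.reverse x))
    (51 * n + 30) (fun _ => True) trivial (fun _ _ _ _ => trivial)
    (fun y z _ hz => by
      have e := cost_zipP_le (s := s) (c := .unit) (a := a) (b := .list a) (d := .list a)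
        (.comp .snd .cons) v k ((), (z, ([] :: y : List (List (Ty.D F a))))) 2
        (fun _ _ _ _ => by simp)
      have e2 := h z (by simpa using hz)
      simp at e e2 ⊢
      nlinarith)
  simp [s6EP] at h2 h3 ⊢
  nlinarith

end prog

/-! ### entries -/

theorem s6_length_pasc {F : Type} [Field F] (b : F) (n : ℕ) (r : List F) :
    (s6pasc b n r).length = n := by
  induction n generalizing r with
  | zero => rfl
  | succ n ih => simp [s6pasc, ih]

theorem s6_sh_pasc {F : Type} [Field F] (b : F) (n N : ℕ) (r : List F) (hr : r.length = N) :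
    Sh N (s6pasc b n r) := by
  induction n generalizing r with
  | zero => intro x hx; simp [s6pasc] at hx
  | succ n ih =>
    intro x hx
    simp only [s6pasc, List.mem_cons] at hx
    rcases hx with hx | hx
    · rw [hx, hr]
    · exact ih _ (by rw [length_s6nx, hr]) x hx

theorem s6_length_P {F : Type} [Field F] (b : F) (N : ℕ) : (s6P b N).length = N :=
  s6_length_pasc _ _ _

theorem s6_sh_P {F : Type} [Field F] (b : F) (N : ℕ) : Sh N (s6P b N) :=
  s6_sh_pasc _ _ _ _ (length_fit _ _ _)

theorem s6_getD_fit {α : Type} (n : ℕ) (z : α) (l : List α) (i : ℕ) (hi : i < n) :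
    (fit n z l).getD i z = l.getD i z := by
  induction n generalizing l i with
  | zero => omega
  | succ n ih =>
    cases l with
    | nil =>
      cases i with
      | zero => rfl
      | succ i =>
        have := ih [] i (by omega)
        simpa [fit] using this
    | cons x l =>
      cases i with
      | zero => rfl
      | succ i =>
        have := ih l i (by omega)
        simpa [fit] using this

theorem s6_getD_nx {F : Type} [Field F] (b : F) (r : List F) (i : ℕ) (hi : i < r.length) :
    (s6nx b r).getD i 0 = ((0 :: r).getD i 0) + b * r.getD i 0 := by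
  unfold s6nx
  have key : ∀ (r r' : List F) (i : ℕ), i < r.length → i < r'.length →
      (List.zipWith (fun x y => x + b * y) r' r).getD i 0 = r'.getD i 0 + b * r.getD i 0 := by
    intro r
    induction r with
    | nil => intro r' i h; simp at h
    | cons x r ih =>
      intro r' i h h'
      cases r' with
      | nil => simp at h'
      | cons x' r' =>
        cases i with
        | zero => simp
        | succ i =>
          have := ih r' i (by simpa using h) (by simpa using h')
          simpa using this
  exact key r (0 :: r) i hi (by simp; omega)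

theorem s6_row {F : Type} [Field F] (b : F) (N j : ℕ) (r : List F) (hr : r.length = N)
    (hN : ∀ l < N, r.getD l 0 = (Nat.choose j l : F) * b ^ (j - l)) :
    ∀ l < N, (s6nx b r).getD l 0 = (Nat.choose (j + 1) l : F) * b ^ (j + 1 - l) := by
  intro l hl
  rw [s6_getD_nx b r l (by omega)]
  cases l with
  | zero =>
    rw [hN 0 (by omega)]
    simp
    ring
  | succ l =>
    rw [hN (l + 1) hl]
    have h1 : (0 :: r).getD (l + 1) 0 = r.getD l 0 := by simp
    have h2 : j + 1 - (l + 1) = j - l := by omega
    rw [h1, hN l (by omega), Nat.choose_succ_succ', h2]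
    push_cast
    by_cases h3 : l + 1 ≤ j
    · have h4 : j - l = j - (l + 1) + 1 := by omega
      rw [h4]
      ring
    · rw [Nat.choose_eq_zero_of_lt (by omega : j < l + 1)]
      simp

theorem s6_pasc_entry {F : Type} [Field F] (b : F) (N : ℕ) (n j0 : ℕ) (r : List F)
    (hr : r.length = N) (hN : ∀ l < N, r.getD l 0 = (Nat.choose j0 l : F) * b ^ (j0 - l)) :
    ∀ j < n, ∀ l < N, ((s6pasc b n r).getD j []).getD l 0 =
      (Nat.choose (j0 + j) l : F) * b ^ (j0 + j - l) := by
  induction n generalizing j0 r with
  | zero => intro j hj; omega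
  | succ n ih =>
    intro j hj l hl
    cases j with
    | zero => simpa [s6pasc] using hN l hl
    | succ j =>
      have := ih (j0 + 1) (s6nx b r) (by rw [length_s6nx, hr]) (s6_row b N j0 r hr hN) j
        (by omega) l hl
      rw [show j0 + (j + 1) = j0 + 1 + j by omega]
      simpa [s6pasc] using this

theorem s6_P_entry {F : Type} [Field F] (b : F) (N j l : ℕ) (hj : j < N) (hl : l < N) :
    ((s6P b N).getD j []).getD l 0 = (Nat.choose j l : F) * b ^ (j - l) := by
  have h := s6_pasc_entry b N N 0 (fit N 0 [1]) (length_fit _ _ _) (by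
    intro l hl
    rw [s6_getD_fit _ _ _ _ hl]
    cases l with
    | zero => simp
    | succ l => simp) j hj l hl
  rw [zero_add] at h
  exact h

theorem s6_zip_sum {F : Type} [Field F] (g : List F → F) (r : List F) (B : List (List F))
    (h : r.length = B.length) : (List.zipWith (fun x y => x * g y) r B).sum =
      ∑ j ∈ Finset.range B.length, r.getD j 0 * g (B.getD j []) := by
  induction r generalizing B with
  | nil =>
    cases B with
    | nil => simp
    | cons y B => simp at h
  | cons x r ih =>
    cases B with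
    | nil => simp at h
    | cons y B =>
      simp only [List.zipWith_cons_cons, List.sum_cons, List.length_cons]
      rw [Finset.sum_range_succ', ih B (by simpa using h)]
      simp [add_comm]

theorem s6_getD_map {α β : Type} (f : α → β) (l : List α) (i : ℕ) (hi : i < l.length) (x : α) (y : β) :
    (l.map f).getD i y = f (l.getD i x) := by
  simp [List.getD_eq_getElem?_getD, hi]

theorem s6_mmul_entry {F : Type} [Field F] (N : ℕ) (A B : List (List F)) (hA : Sh B.length A)
    (i l : ℕ) (hi : i < A.length) (hl : l < N) : ((mmul N A B).getD i []).getD l 0 =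
      ∑ j ∈ Finset.range B.length, (A.getD i []).getD j 0 * (B.getD j []).getD l 0 := by
  unfold mmul
  rw [s6_getD_map _ A i hi [] [], s6_getD_map _ _ l (by simpa using hl) 0 0]
  have h1 : (List.range N).getD l 0 = l := by
    simp [List.getD_eq_getElem?_getD, hl]
  rw [h1, s6_zip_sum (fun y => y.getD l 0)]
  apply hA
  rw [List.getD_eq_getElem _ _ hi]
  exact List.getElem_mem hi

theorem s6_zw {α : Type} (z : α) (r : List α) (L : List (List α)) (k : ℕ) (h1 : k < r.length)
    (h2 : k < L.length) : (List.zipWith (fun x l => x :: l) r L).getD k [] =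
      r.getD k z :: L.getD k [] := by
  simp [List.getD_eq_getElem?_getD, h1, h2]

theorem s6_E_length {α : Type} (N : ℕ) (A : List (List α)) (hA : ∀ r ∈ A, r.length = N) :
    (s6E A).length = min N A.length := by
  induction A with
  | nil => simp [s6E]
  | cons r A ih =>
    have h1 := ih (fun r hr => hA r (by simp [hr]))
    have h2 := hA r (by simp)
    simp only [s6E, List.foldr_cons, List.length_zipWith, List.length_cons] at h1 ⊢
    rw [h1, h2]
    omega

theorem s6_E_entry {α : Type} (z : α) (N : ℕ) (A : List (List α)) (hA : ∀ r ∈ A, r.length = N)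
    (k : ℕ) (hk : k < min N A.length) : ((s6E A).getD k []).length = k + 1 ∧
      ∀ i ≤ k, ((s6E A).getD k []).getD i z = (A.getD i []).getD (k - i) z := by
  induction A generalizing k with
  | nil => simp at hk
  | cons r A ih =>
    have h2 := hA r (by simp)
    have hL := s6_E_length N A (fun r hr => hA r (by simp [hr]))
    have hk' : k < N ∧ k < A.length + 1 := by simp at hk; omega
    have e : (s6E (r :: A)).getD k [] = r.getD k z :: ([] :: s6E A).getD k [] := by
      have := s6_zw z r ([] :: s6E A) k (by omega) (by simp; omega)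
      simpa [s6E] using this
    rw [e]
    cases k with
    | zero =>
      refine ⟨by simp, fun i hi => ?_⟩
      obtain rfl : i = 0 := by omega
      simp
    | succ k =>
      obtain ⟨i1, i2⟩ := ih (fun r hr => hA r (by simp [hr])) k (by omega)
      have e2 : ([] :: s6E A).getD (k + 1) [] = (s6E A).getD k [] := by simp
      rw [e2]
      refine ⟨by rw [List.length_cons, i1], fun i hi => ?_⟩
      cases i with
      | zero => simp
      | succ i =>
        have := i2 i (by omega)
        rw [show k + 1 - (i + 1) = k - i by omega]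
        simpa using this

/-! ### polynomials -/

section poly
variable {F : Type} [Field F]

theorem s6_pol_sum {R : Type} [CommRing R] (l : List R) :
    pol l = ∑ i ∈ Finset.range l.length, C (l.getD i 0) * X ^ i := by
  induction l with
  | nil => simp [pol]
  | cons x l ih =>
    rw [List.length_cons, Finset.sum_range_succ', pol, ih, Finset.mul_sum, add_comm]
    congr 1
    · refine Finset.sum_congr rfl fun i _ => ?_
      simp only [List.getD_cons_succ]
      ring
    · simp

/-- value of the bivariate polynomial with the matrix `A` of size `N` at `y` -/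
noncomputable def s6ev (N : ℕ) (A : List (List F)) (y : F[X][X]) : F[X][X] :=
  ∑ i ∈ Finset.range N, ∑ j ∈ Finset.range N, C (C ((A.getD i []).getD j 0)) * y ^ j * X ^ i

/-- value of the polynomial with the homogeneous parts `H` at `y` -/
noncomputable def s6evH (N : ℕ) (H : List (List F)) (y : F[X][X]) : F[X][X] :=
  ∑ k ∈ Finset.range N, ∑ j ∈ Finset.range (k + 1),
    C (C ((H.getD k []).getD j 0)) * y ^ j * X ^ (k - j)

omit [Field F] in
theorem s6_sh_get {N : ℕ} {A : List (List F)} (hA : Sh N A) {i : ℕ} (hi : i < A.length) :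
    (A.getD i []).length = N := by
  apply hA
  rw [List.getD_eq_getElem _ _ hi]
  exact List.getElem_mem hi

theorem s6_biv (N : ℕ) (A : List (List F)) (hl : A.length = N) (hA : Sh N A) :
    biv A = s6ev N A (C X) := by
  unfold biv s6ev
  rw [s6_pol_sum, List.length_map, hl]
  refine Finset.sum_congr rfl fun i hi => ?_
  rw [Finset.mem_range] at hi
  rw [s6_getD_map pol A i (by omega) [] 0, s6_pol_sum, s6_sh_get hA (by omega), map_sum,
    Finset.sum_mul]
  refine Finset.sum_congr rfl fun j _ => ?_
  rw [map_mul, map_pow]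

theorem s6_sub (a b : F) (N : ℕ) (A : List (List F)) :
    sub a b (s6ev N A (C X)) = s6ev N A (C (X + C b) + C (C a) * X) := by
  unfold s6ev sub
  simp only [map_sum, map_mul, map_pow]
  refine Finset.sum_congr rfl fun i _ => Finset.sum_congr rfl fun j _ => ?_
  simp

theorem s6_hom (N : ℕ) (H : List (List F)) (hl : H.length = N) : hom H = s6evH N H (C X) := by
  unfold hom s6evH
  rw [hl]
  refine Finset.sum_congr rfl fun k _ => Finset.sum_congr rfl fun j _ => ?_
  rw [map_mul, map_pow]

theorem s6_binom (b : F) (j N : ℕ) (hj : j < N) (y : F[X][X]) :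
    ∑ l ∈ Finset.range N, C (C ((Nat.choose j l : F) * b ^ (j - l))) * y ^ l =
      (y + C (C b)) ^ j := by
  rw [add_pow]
  have hsub : Finset.range (j + 1) ⊆ Finset.range N := Finset.range_subset_range.2 (by omega)
  rw [← Finset.sum_subset hsub]
  · refine Finset.sum_congr rfl fun l _ => ?_
    simp only [map_mul, map_pow, map_natCast]
    ring
  · intro l _ hl
    rw [Finset.mem_range, not_lt] at hl
    rw [Nat.choose_eq_zero_of_lt (by omega)]
    simp

theorem s6_shift (b : F) (N : ℕ) (A : List (List F)) (hl : A.length = N) (hA : Sh N A)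
    (y : F[X][X]) : s6ev N (mmul N A (s6P b N)) y = s6ev N A (y + C (C b)) := by
  unfold s6ev
  refine Finset.sum_congr rfl fun i hi => ?_
  rw [Finset.mem_range] at hi
  have e1 : ∀ l ∈ Finset.range N, C (C (((mmul N A (s6P b N)).getD i []).getD l 0)) * y ^ l * X ^ i =
      ∑ j ∈ Finset.range N, C (C ((A.getD i []).getD j 0)) *
        (C (C ((Nat.choose j l : F) * b ^ (j - l))) * y ^ l) * X ^ i := by
    intro l hl'
    rw [Finset.mem_range] at hl'
    rw [s6_mmul_entry N A (s6P b N) (by rw [s6_length_P]; exact hA) i l (by omega) hl',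
      s6_length_P, map_sum, map_sum, Finset.sum_mul, Finset.sum_mul]
    refine Finset.sum_congr rfl fun j hj => ?_
    rw [Finset.mem_range] at hj
    rw [s6_P_entry b N j l hj hl', map_mul, map_mul]
    ring
  rw [Finset.sum_congr rfl e1, Finset.sum_comm]
  refine Finset.sum_congr rfl fun j hj => ?_
  rw [Finset.mem_range] at hj
  rw [← Finset.sum_mul, ← Finset.mul_sum, s6_binom b j N hj]

theorem s6_binomH (a : F) (j k : ℕ) (hj : j ≤ k) (y : F[X][X]) :
    ∑ l ∈ Finset.range (k + 1), C (C ((Nat.choose j l : F) * a ^ (j - l))) * y ^ l * X ^ (k - l) =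
      (y + C (C a) * X) ^ j * X ^ (k - j) := by
  rw [add_pow, Finset.sum_mul]
  have hsub : Finset.range (j + 1) ⊆ Finset.range (k + 1) := Finset.range_subset_range.2 (by omega)
  rw [← Finset.sum_subset hsub]
  · refine Finset.sum_congr rfl fun l hl => ?_
    rw [Finset.mem_range] at hl
    have h1 : k - l = (j - l) + (k - j) := by omega
    rw [h1, pow_add, mul_pow]
    simp only [map_mul, map_pow, map_natCast]
    ring
  · intro l _ hl
    rw [Finset.mem_range, not_lt] at hl
    rw [Nat.choose_eq_zero_of_lt (by omega)]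
    simp

/-- homogeneous parts, rows of full length -/
theorem s6_shiftH (a : F) (N : ℕ) (H : List (List F)) (hl : H.length = N) (hH : Sh N H)
    (h0 : ∀ k < N, ∀ j, k < j → (H.getD k []).getD j 0 = 0)
    (y : F[X][X]) : s6evH N (mmul N H (s6P a N)) y = s6evH N H (y + C (C a) * X) := by
  unfold s6evH
  refine Finset.sum_congr rfl fun k hk => ?_
  rw [Finset.mem_range] at hk
  have e1 : ∀ l ∈ Finset.range (k + 1),
      C (C (((mmul N H (s6P a N)).getD k []).getD l 0)) * y ^ l * X ^ (k - l) =
      ∑ j ∈ Finset.range N, C (C ((H.getD k []).getD j 0)) *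
        (C (C ((Nat.choose j l : F) * a ^ (j - l))) * y ^ l * X ^ (k - l)) := by
    intro l hl'
    rw [Finset.mem_range] at hl'
    rw [s6_mmul_entry N H (s6P a N) (by rw [s6_length_P]; exact hH) k l (by omega) (by omega),
      s6_length_P, map_sum, map_sum, Finset.sum_mul, Finset.sum_mul]
    refine Finset.sum_congr rfl fun j hj => ?_
    rw [Finset.mem_range] at hj
    rw [s6_P_entry a N j l hj (by omega), map_mul, map_mul]
    ring
  rw [Finset.sum_congr rfl e1, Finset.sum_comm]
  have hsub : Finset.range (k + 1) ⊆ Finset.range N := Finset.range_subset_range.2 (by omega)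
  rw [← Finset.sum_subset hsub]
  · refine Finset.sum_congr rfl fun j hj => ?_
    rw [Finset.mem_range] at hj
    rw [← Finset.mul_sum, s6_binomH a j k (by omega)]
    ring
  · intro j _ hj
    rw [Finset.mem_range, not_lt] at hj
    rw [h0 k hk j (by omega)]
    simp

/-- homogeneous parts -/
def s6H {α : Type} (A : List (List α)) : List (List α) := (s6E A).map List.reverse

omit [Field F] in
theorem s6_H_length {N : ℕ} {A : List (List F)} (hl : A.length = N) (hA : Sh N A) :
    (s6H A).length = N := by
  unfold s6H
  rw [List.length_map, s6_E_length N A hA, hl, min_self]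

theorem s6_H_entry {N : ℕ} {A : List (List F)} (hl : A.length = N) (hA : Sh N A) (k : ℕ)
    (hk : k < N) : ((s6H A).getD k []).length = k + 1 ∧
      ∀ j ≤ k, ((s6H A).getD k []).getD j 0 = (A.getD (k - j) []).getD j 0 := by
  obtain ⟨h1, h2⟩ := s6_E_entry (0 : F) N A hA k (by omega)
  have hE := s6_E_length N A hA
  unfold s6H
  rw [s6_getD_map List.reverse (s6E A) k (by omega) [] []]
  refine ⟨by rw [List.length_reverse, h1], fun j hj => ?_⟩
  have h3 : k + 1 - 1 - j = k - j := by omega
  have h4 : k - (k - j) = j := by omega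
  rw [List.getD_reverse _ (by omega), h1, h2 _ (by omega), h3, h4]

theorem s6_diag {N : ℕ} {A : List (List F)} (hl : A.length = N) (hA : Sh N A)
    (h0 : ∀ i < N, ∀ j < N, N ≤ i + j → (A.getD i []).getD j 0 = 0) (H : List (List F))
    (hH : ∀ k < N, ∀ j ≤ k, (H.getD k []).getD j 0 = ((s6H A).getD k []).getD j 0)
    (y : F[X][X]) : s6evH N H y = s6ev N A y := by
  unfold s6evH s6ev
  have e1 : ∀ k ∈ Finset.range N, ∑ j ∈ Finset.range (k + 1),
      C (C ((H.getD k []).getD j 0)) * y ^ j * X ^ (k - j) =
      ∑ i ∈ Finset.range (k + 1),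
        C (C ((A.getD i []).getD (k - i) 0)) * y ^ (k - i) * X ^ i := by
    intro k hk
    rw [Finset.mem_range] at hk
    rw [← Finset.sum_range_reflect]
    refine Finset.sum_congr rfl fun i hi => ?_
    rw [Finset.mem_range] at hi
    rw [hH k hk _ (by omega), (s6_H_entry hl hA k hk).2 _ (by omega)]
    have h1 : k + 1 - 1 - i = k - i := by omega
    have h2 : k - (k - i) = i := by omega
    rw [h1, h2]
  rw [Finset.sum_congr rfl e1,
    Finset.sum_range_diag_flip N (fun i j => C (C ((A.getD i []).getD j 0)) * y ^ j * X ^ i)]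
  refine Finset.sum_congr rfl fun i hi => ?_
  rw [Finset.mem_range] at hi
  apply Finset.sum_subset (Finset.range_subset_range.2 (by omega))
  intro j hj hj'
  rw [Finset.mem_range] at hj hj'
  rw [h0 i hi j hj (by omega)]
  simp

theorem s6_pol_coeff {R : Type} [CommRing R] (l : List R) (i : ℕ) : (pol l).coeff i = l.getD i 0 := by
  induction l generalizing i with
  | nil => simp [pol]
  | cons x l ih =>
    cases i with
    | zero => simp [pol]
    | succ i => simp [pol, ih]

theorem s6_biv_coeff (A : List (List F)) (i j : ℕ) :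
    ((biv A).coeff i).coeff j = (A.getD i []).getD j 0 := by
  unfold biv
  rw [s6_pol_coeff]
  by_cases hi : i < A.length
  · rw [s6_getD_map pol A i hi [] 0, s6_pol_coeff]
  · have h1 : (A.map pol).getD i 0 = 0 := List.getD_eq_default _ _ (by simpa using hi)
    have h2 : A.getD i [] = [] := List.getD_eq_default _ _ (by simpa using hi)
    rw [h1, h2]
    simp

theorem s6_sh_mmul (N : ℕ) (A B : List (List F)) : Sh N (mmul N A B) := by
  intro r hr
  unfold mmul at hr
  obtain ⟨x, _, rfl⟩ := List.mem_map.1 hr
  simp

theorem s6_length_mmul (N : ℕ) (A B : List (List F)) : (mmul N A B).length = A.length := by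
  unfold mmul
  rw [List.length_map]

/-- the result of the routine -/
def s6res {F : Type} [Field F] (a b : F) (N : ℕ) (G : List (List F)) : List (List F) :=
  List.zipWith (fun h r => fit h.length 0 r) (s6H (mmul N G (s6P b N)))
    (mmul N ((s6H (mmul N G (s6P b N))).map (fit N 0)) (s6P a N))

theorem s6_res_spec (a b : F) (m : ℕ) (G : List (List F)) (hl : G.length = m + 1)
    (hG : Sh (m + 1) G) (hT : TD (biv G) m) :
    IsHom m (s6res a b (m + 1) G) ∧ hom (s6res a b (m + 1) G) = sub a b (biv G) := by
  set N := m + 1 with hN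
  set A1 := mmul N G (s6P b N) with hA1
  set H := s6H A1 with hHdef
  set A2 := mmul N (H.map (fit N 0)) (s6P a N) with hA2
  have hA1l : A1.length = N := by rw [hA1, s6_length_mmul, hl]
  have hA1s : Sh N A1 := s6_sh_mmul _ _ _
  have hHl : H.length = N := s6_H_length hA1l hA1s
  have hA2l : A2.length = N := by rw [hA2, s6_length_mmul, List.length_map, hHl]
  have hA2s : Sh N A2 := s6_sh_mmul _ _ _
  have hres : s6res a b N G = List.zipWith (fun h r => fit h.length 0 r) H A2 := rfl
  have hrl : (s6res a b N G).length = N := by rw [hres, List.length_zipWith, hHl, hA2l, min_self]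
  have hrow : ∀ k < N, (s6res a b N G).getD k [] = fit (k + 1) 0 (A2.getD k []) := by
    intro k hk
    rw [hres, ← (s6_H_entry hA1l hA1s k hk).1]
    rw [List.getD_eq_getElem _ _ (by rw [← hres, hrl]; exact hk), List.getElem_zipWith,
      List.getD_eq_getElem _ _ (by rw [← hHdef, hHl]; exact hk),
      List.getD_eq_getElem _ _ (by rw [hA2l]; exact hk)]
  refine ⟨⟨hrl, fun k hk => ?_⟩, ?_⟩
  · rw [hrow k (by omega), length_fit]
  · have hent : ∀ k < N, ∀ j ≤ k, ((s6res a b N G).getD k []).getD j 0 = (A2.getD k []).getD j 0 := by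
      intro k hk j hj
      rw [hrow k hk, s6_getD_fit _ _ _ _ (by omega)]
    rw [s6_hom N _ hrl, s6_biv N G hl hG, s6_sub]
    have e1 : s6evH N (s6res a b N G) (C X) = s6evH N A2 (C X) := by
      unfold s6evH
      refine Finset.sum_congr rfl fun k hk => Finset.sum_congr rfl fun j hj => ?_
      rw [Finset.mem_range] at hk hj
      rw [hent k hk j (by omega)]
    have hF : ∀ k < N, (H.map (fit N 0)).getD k [] = fit N 0 (H.getD k []) := fun k hk =>
      s6_getD_map (fit N 0) H k (by omega) [] []
    have e2 : s6evH N A2 (C X) = s6evH N (H.map (fit N 0)) (C X + C (C a) * X) := by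
      apply s6_shiftH
      · rw [List.length_map, hHl]
      · intro r hr
        obtain ⟨x, _, rfl⟩ := List.mem_map.1 hr
        exact length_fit _ _ _
      · intro k hk j hj
        rw [hF k hk]
        by_cases hjN : j < N
        · rw [s6_getD_fit _ _ _ _ hjN, List.getD_eq_default]
          rw [(s6_H_entry hA1l hA1s k hk).1]
          omega
        · rw [List.getD_eq_default]
          rw [length_fit]
          omega
    have e3 : s6evH N (H.map (fit N 0)) (C X + C (C a) * X) = s6ev N A1 (C X + C (C a) * X) := by
      apply s6_diag hA1l hA1s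
      · intro i hi j hj hij
        rw [hA1, s6_mmul_entry N G (s6P b N) (by rw [s6_length_P]; exact hG) i j (by omega) hj,
          s6_length_P]
        refine Finset.sum_eq_zero fun l hl' => ?_
        rw [Finset.mem_range] at hl'
        rw [s6_P_entry b N l j hl' hj]
        by_cases hlj : l < j
        · rw [Nat.choose_eq_zero_of_lt hlj]
          simp
        · have h1 := hT i l (by omega)
          rw [s6_biv_coeff] at h1
          rw [h1, zero_mul]
      · intro k hk j hj
        rw [hF k hk, s6_getD_fit _ _ _ _ (by omega)]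
    have e4 : s6ev N A1 (C X + C (C a) * X) = s6ev N G (C X + C (C a) * X + C (C b)) :=
      s6_shift b N G hl hG _
    rw [e1, e2, e3, e4]
    congr 1
    rw [map_add]
    ring

end poly

/-! ### the program -/

section main
variable {F : Type} [Field F] [DecidableEq F]

/-- the length in unary -/
def s6unP {a : Ty} : Pr [] (.list a) Un := .comp (.pair .star .id) (mapP (c := .unit) .star)

theorem val_s6unP {a : Ty} (x : Ty.D F (.list a)) :
    (s6unP : Pr [] (.list a) Un).val () x = un (List.length x) := by
  simp [s6unP, un]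

theorem cost_s6unP {a : Ty} (x : Ty.D F (.list a)) :
    (s6unP : Pr [] (.list a) Un).cost () () x ≤ 14 * List.length x + 10 := by
  have h := cost_mapP_le (s := []) (F := F) (c := .unit) (a := a) (b := .unit) .star () () ((), x) 1
    (fun _ _ => by simp)
  simp [s6unP] at h ⊢
  omega

/-- first stage -/
def s6st1 (q : Pr [] (.prod Un (.prod Ma Ma)) Ma) : Pr [] (.prod .fld (.prod .fld Ma)) Ma :=
  .comp (.pair (.comp (.comp .snd .snd) s6unP) (.pair (.comp .snd .snd)
    (.comp (.pair (.comp .snd .snd) (.comp .snd .fst)) s6PP))) q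

theorem val_s6st1 (q : Pr [] (.prod Un (.prod Ma Ma)) Ma) (a b : F) (G : List (List F)) :
    (s6st1 q).val () (a, (b, G)) = q.val () (un G.length, (G, s6P b G.length)) := by
  have h := val_s6unP (F := F) (a := Po) G
  simp [s6st1, h]

theorem cost_s6st1 (q : Pr [] (.prod Un (.prod Ma Ma)) Ma) (a b : F) (G : List (List F)) :
    (s6st1 q).cost () () (a, (b, G)) ≤ q.cost () () (un G.length, (G, s6P b G.length)) +
      14 * G.length + (70 * G.length + 140) * G.length + 50 := by
  have h := val_s6unP (F := F) (a := Po) G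
  have h1 := cost_s6unP (F := F) (a := Po) G
  have h2 := cost_s6PP (F := F) (s := []) (c := Po) () () (G, b)
  simp [s6st1, h] at h1 h2 ⊢
  omega

/-- second stage -/
def s6st2 : Pr [] Ma Ma :=
  .comp s6EP (.comp (.pair .star .id) (mapP (c := .unit) (.comp .snd revP)))

theorem val_s6st2 (A : List (List F)) : (s6st2 : Pr [] Ma Ma).val () A = s6H A := by
  simp [s6st2, s6H]

theorem cost_s6st2 (A : List (List F)) (N : ℕ) (hl : A.length = N) (hA : Sh N A) :
    (s6st2 : Pr [] Ma Ma).cost () () A ≤ (51 * N + 90) * (N + 1) + (33 * N + 33) * N + 20 := by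
  have h1 := cost_s6EP (F := F) (s := []) (a := .fld) () () A N (fun r hr => (hA r hr).le)
  have hE := s6_E_length N A hA
  have h2 := cost_mapP_le (s := []) (F := F) (c := .unit) (a := Po) (b := Po) (.comp .snd revP) () ()
    ((), s6E A) (33 * N + 20) (fun y hy => by
      have h3 := cost_revP (F := F) (s := []) (a := .fld) () () y
      have h4 : List.length y ≤ N := by
        obtain ⟨k, hk, rfl⟩ := List.getElem_of_mem hy
        have hk' : k < min N A.length := by rw [← hE]; exact hk
        have h5 := (s6_E_entry (0 : F) N A hA k hk').1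
        rw [List.getD_eq_getElem _ _ hk] at h5
        rw [h5]
        omega
      simp at h3 ⊢
      omega)
  simp [s6st2] at h1 h2 ⊢
  rw [hE, hl, min_self] at h2
  rw [hl] at h1
  have h4 : (33 * N + 20 + 13) * N = (33 * N + 33) * N := by ring
  omega

/-- input of the third stage -/
def s6in3 : Pr [] (.prod (.prod .fld (.prod .fld Ma)) Ma) (.prod Un (.prod Ma Ma)) :=
  .pair (.comp (.comp (.comp .fst .snd) .snd) s6unP) (.pair
    (.comp (.pair (.comp (.comp .fst .snd) .snd) .snd)
      (mapP (c := Ma) (.comp (.pair .fst (.pair .zero .snd)) fitP)))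
    (.comp (.pair (.comp (.comp .fst .snd) .snd) (.comp .fst .fst)) s6PP))

theorem val_s6in3 (a b : F) (G H : List (List F)) :
    (s6in3 : Pr [] (.prod (.prod .fld (.prod .fld Ma)) Ma) _).val () ((a, (b, G)), H) =
      (un G.length, (H.map (fit G.length 0), s6P a G.length)) := by
  have h := val_s6unP (F := F) (a := Po) G
  simp [s6in3, h]

theorem cost_s6in3 (a b : F) (G H : List (List F)) (hH : H.length = G.length) :
    (s6in3 : Pr [] (.prod (.prod .fld (.prod .fld Ma)) Ma) _).cost () () ((a, (b, G)), H) ≤
      14 * G.length + (20 * G.length + 30) * G.length + (70 * G.length + 140) * G.length + 80 := by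
  have h1 := cost_s6unP (F := F) (a := Po) G
  have h2 := cost_s6PP (F := F) (s := []) (c := Po) () () (G, a)
  have h3 := cost_mapP_le (s := []) (F := F) (c := Ma) (a := Po) (b := Po)
    (.comp (.pair .fst (.pair .zero .snd)) fitP) () () (G, H) (20 * G.length + 7) (fun y _ => by
      have h4 := cost_fitP (F := F) (s := []) (b := Po) (a := .fld) () () (G, ((0 : F), y))
      simp at h4 ⊢
      omega)
  simp [s6in3] at h1 h2 h3 ⊢
  rw [hH] at h3
  have h4 : (20 * G.length + 7 + 13) * G.length ≤ (20 * G.length + 30) * G.length :=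
    Nat.mul_le_mul_right _ (by omega)
  omega

/-- third stage -/
def s6st3 (q : Pr [] (.prod Un (.prod Ma Ma)) Ma) :
    Pr [] (.prod (.prod .fld (.prod .fld Ma)) Ma) Ma := .comp s6in3 q

theorem val_s6st3 (q : Pr [] (.prod Un (.prod Ma Ma)) Ma) (a b : F) (G H : List (List F)) :
    (s6st3 q).val () ((a, (b, G)), H) =
      q.val () (un G.length, (H.map (fit G.length 0), s6P a G.length)) := by
  rw [s6st3, val_comp, val_s6in3]

theorem cost_s6st3 (q : Pr [] (.prod Un (.prod Ma Ma)) Ma) (a b : F) (G H : List (List F))
    (hH : H.length = G.length) :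
    (s6st3 q).cost () () ((a, (b, G)), H) ≤
      q.cost () () (un G.length, (H.map (fit G.length 0), s6P a G.length)) +
      14 * G.length + (20 * G.length + 30) * G.length + (70 * G.length + 140) * G.length + 80 := by
  have h := cost_s6in3 a b G H hH
  rw [s6st3, cost_comp, val_s6in3]
  omega

/-- fourth stage -/
def s6st4 : Pr [] (.prod Ma Ma) Ma :=
  .comp (.pair .star .id) (zipP (c := .unit) (.comp .snd (.comp (.pair .fst (.pair .zero .snd)) fitP)))

theorem val_s6st4 (H A : List (List F)) : (s6st4 : Pr [] (.prod Ma Ma) Ma).val () (H, A) =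
    List.zipWith (fun h r => fit h.length 0 r) H A := by
  simp [s6st4]

theorem cost_s6st4 (H A : List (List F)) (N : ℕ) (hH : ∀ h ∈ H, List.length h ≤ N) :
    (s6st4 : Pr [] (.prod Ma Ma) Ma).cost () () (H, A) ≤ (20 * N + 60) * H.length + 20 := by
  have h3 := cost_zipP_le (s := []) (F := F) (c := .unit) (a := Po) (b := Po) (d := Po)
    (.comp .snd (.comp (.pair .fst (.pair .zero .snd)) fitP)) () () ((), (H, A)) (20 * N + 8)
    (fun y hy z _ => by
      have h4 := cost_fitP (F := F) (s := []) (b := .fld) (a := .fld) () () (y, ((0 : F), z))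
      have h5 := hH y hy
      simp at h4 ⊢
      omega)
  simp [s6st4] at h3 ⊢
  have h4 : (20 * N + 8 + 49) * H.length ≤ (20 * N + 60) * H.length :=
    Nat.mul_le_mul_right _ (by omega)
  omega

/-- the program -/
def s6main (q : Pr [] (.prod Un (.prod Ma Ma)) Ma) : Pr [] (.prod .fld (.prod .fld Ma)) Ma :=
  lt (.comp (s6st1 q) s6st2) (.comp (.pair .snd (s6st3 q)) s6st4)

end main

theorem specCoB (h1 : SpecMM) (h0 : SpecUnits) : SpecCoB := by
  obtain ⟨q, Cq, hq⟩ := h1
  obtain ⟨-, -, hvm, -, -, -, hNN, -, -, hv, -⟩ := h0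
  obtain ⟨C3, hC3⟩ := hv 3
  refine ⟨s6main q, 2000 + 2 * (Cq * 4 * C3), ?_⟩
  intro F _ _ a b m G hl hG hT
  have hspec := s6_res_spec a b m G hl hG hT
  set N := m + 1 with hN
  have q1 := hq F N G (s6P b N) (by rw [s6_length_P]; exact hG) (s6_sh_P b N)
  set A1 := mmul N G (s6P b N) with hA1
  have hA1l : A1.length = N := by rw [hA1, s6_length_mmul, hl]
  have hA1s : Sh N A1 := s6_sh_mmul _ _ _
  have hHl : (s6H A1).length = N := s6_H_length hA1l hA1s
  have hHF : Sh N ((s6H A1).map (fit N 0)) := by
    intro r hr
    obtain ⟨x, _, rfl⟩ := List.mem_map.1 hr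
    exact length_fit _ _ _
  have q2 := hq F N ((s6H A1).map (fit N 0)) (s6P a N) (by rw [s6_length_P]; exact hHF) (s6_sh_P a N)
  have v1 : (s6st1 q).val () (a, (b, G)) = A1 := by rw [val_s6st1, hl, q1.1]
  have v3 : (s6st3 q).val () ((a, (b, G)), s6H A1) = mmul N ((s6H A1).map (fit N 0)) (s6P a N) := by
    rw [val_s6st3, hl, q2.1]
  have hval : (s6main q).val () (a, (b, G)) = s6res a b N G := by
    simp only [s6main, val_lt, val_comp, val_pair, val_snd, v1, val_s6st2, v3]
    exact val_s6st4 _ _
  have hrows : ∀ h ∈ s6H A1, List.length h ≤ N := by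
    intro h hh
    obtain ⟨k, hk, rfl⟩ := List.getElem_of_mem hh
    rw [hHl] at hk
    have h5 := (s6_H_entry hA1l hA1s k hk).1
    rw [List.getD_eq_getElem _ _ (by rw [hHl]; exact hk)] at h5
    rw [h5]
    omega
  have hN1 : 1 ≤ N := by omega
  have hcost : (s6main q).cost () () (a, (b, G)) ≤ 2000 * (N * N) +
      2 * (Cq * (N + N + N + 1) * vv (Nat.clog 2 (N + N + 1))) := by
    have c1 := cost_s6st1 q a b G
    have c2 := cost_s6st2 A1 N hA1l hA1s
    have c3 := cost_s6st3 q a b G (s6H A1) (by rw [hHl, hl])
    have c4 := cost_s6st4 (s6H A1) (mmul N ((s6H A1).map (fit N 0)) (s6P a N)) N hrows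
    have d1 := q1.2
    have d2 := q2.2
    rw [hl] at c1 c3 d1
    rw [s6_length_P] at d1 d2
    rw [List.length_map, hHl] at d2
    rw [hHl] at c4
    simp only [s6main, cost_lt, cost_comp, val_comp, v1, val_s6st2, val_pair, v3, val_snd, cost_pair,
      cost_snd]
    nlinarith
  refine ⟨?_, ?_, ?_⟩
  · rw [hval]; exact hspec.1
  · rw [hval]; exact hspec.2
  · refine hcost.trans ?_
    have e1 : vv (Nat.clog 2 (N + N + 1)) ≤ C3 * vv (Nat.clog 2 N) := by
      refine (hvm _ _ (Nat.clog_mono_right 2 (by omega : N + N + 1 ≤ 3 * (m + 1)))).trans ?_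
      exact hC3 m
    have e2 : Cq * (N + N + N + 1) * vv (Nat.clog 2 (N + N + 1)) ≤ Cq * 4 * C3 * ww N := by
      have : Cq * (N + N + N + 1) ≤ Cq * (4 * N) := Nat.mul_le_mul_left _ (by omega)
      calc Cq * (N + N + N + 1) * vv (Nat.clog 2 (N + N + 1))
          ≤ Cq * (4 * N) * (C3 * vv (Nat.clog 2 N)) := Nat.mul_le_mul this e1
        _ = Cq * 4 * C3 * ww N := by unfold ww; ring
    have e3 := hNN N
    calc 2000 * (N * N) + 2 * (Cq * (N + N + N + 1) * vv (Nat.clog 2 (N + N + 1)))
        ≤ 2000 * ww N + 2 * (Cq * 4 * C3 * ww N) := by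
          apply Nat.add_le_add
          · exact Nat.mul_le_mul_left _ e3
          · exact Nat.mul_le_mul_left _ e2
      _ = (2000 + 2 * (Cq * 4 * C3)) * ww N := by ring

end Pool.Agent.H330FB.JS6b
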