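import Pool.Agent.H330FB.Lib5
import Pool.Agent.H330FB.Spec3b
set_option autoImplicit false
noncomputable section
namespace Pool.Agent.H330FB.JS8
open Polynomial

namespace S8

section progs
variable {F : Type} [Field F] [DecidableEq F]
variable {s : List (Ty × Ty)} {a b c d e g σ τ : Ty}

/-! ### every n-th element -/

/-- every n-th element, with fuel -/
def evf {α : Type} : ℕ → ℕ → List α → List α
  | 0, _, _ => []
  | _ + 1, _, [] => []
  | k + 1, n, x :: l => x :: evf k n ((x :: l).drop n)

/-- input `(u, l)` -/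
def evP : Pr s (.prod (.list b) (.list a)) (.list a) :=
  .comp (.pair .snd .id) (.recD (onL .snd .nil
    (.comp (.pair (.comp .snd .fst)
      (.comp (.pair (.comp .fst .fst) (.comp (.comp .fst splitP) .snd)) .self)) .cons)) .nil)

@[simp] theorem val_evP (v : SV F s) (x : Ty.D F (.prod (.list b) (.list a))) :
    (evP : Pr s (.prod (.list b) (.list a)) _).val v x =
      evf (List.length x.2) (List.length x.1) x.2 := by
  obtain ⟨u, l⟩ := x
  simp only [evP, val_comp, val_pair, val_snd, val_id, val_recD]
  generalize List.length l = n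
  induction n generalizing l with
  | zero => simp [goV, evf]
  | succ n ih => cases l <;> simp [goV, evf, ih]

theorem cost_evP (v : SV F s) (k : SC F s) (x : Ty.D F (.prod (.list b) (.list a))) :
    (evP : Pr s (.prod (.list b) (.list a)) _).cost v k x ≤
      (24 * List.length x.1 + 40) * (evf (List.length x.2) (List.length x.1) x.2).length + 14 := by
  obtain ⟨u, l⟩ := x
  simp only [evP, cost_comp, cost_pair, cost_snd, cost_id, val_pair, val_snd, val_id,
    cost_recD]
  generalize List.length l = n
  induction n generalizing l with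
  | zero => simp [goC, evf]
  | succ n ih =>
    cases l with
    | nil => simp [goC, evf]
    | cons h t =>
      have e1 := ih (List.drop u.length (h :: t))
      have e2 := cost_splitP (s := (.prod (.list b) (.list a), .list a) :: s) (F := F)
        (goV (onL .snd .nil
          (.comp (.pair (.comp .snd .fst)
          (.comp (.pair (.comp .fst .fst) (.comp (.comp .fst splitP) .snd)) .self)) .cons)) .nil
          v n, v)
        (goC (onL .snd .nil
          (.comp (.pair (.comp .snd .fst)
          (.comp (.pair (.comp .fst .fst) (.comp (.comp .fst splitP) .snd)) .self)) .cons)) .nil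
          v k n, k) (u, h :: t)
      simp [goC, evf] at e1 e2 ⊢
      nlinarith

theorem getD_evf {α : Type} (z : α) (n : ℕ) (hn : 1 ≤ n) (k : ℕ) (l : List α)
    (hk : l.length ≤ k) (i : ℕ) : (evf k n l).getD i z = l.getD (n * i) z := by
  induction k generalizing l i with
  | zero =>
    have : l = [] := List.length_eq_zero_iff.mp (by omega)
    subst this
    simp [evf]
  | succ k ih =>
    cases l with
    | nil => simp [evf]
    | cons x l =>
      cases i with
      | zero => simp [evf]
      | succ i =>
        have h1 := ih ((x :: l).drop n) (by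
          rw [List.length_drop]
          simp only [List.length_cons] at hk ⊢
          omega) i
        simp only [evf, List.getD_cons_succ]
        rw [h1]
        rw [List.getD_eq_getElem?_getD, List.getD_eq_getElem?_getD, List.getElem?_drop]
        congr 2
        ring

theorem length_evf {α : Type} (n : ℕ) (hn : 1 ≤ n) (M : ℕ) (k : ℕ) (l : List α)
    (hk : l.length ≤ k) (hl : l.length = n * M) : (evf k n l).length = M := by
  induction M generalizing k l with
  | zero =>
    have : l = [] := List.length_eq_zero_iff.mp (by omega)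
    subst this
    cases k <;> simp [evf]
  | succ M ih =>
    cases k with
    | zero =>
      have : 0 < n * (M + 1) := by positivity
      omega
    | succ k =>
      cases l with
      | nil =>
        have : 0 < n * (M + 1) := by positivity
        simp at hl
        omega
      | cons x l =>
        have h1 := ih k ((x :: l).drop n) (by
          rw [List.length_drop]
          simp only [List.length_cons] at hk ⊢
          omega) (by
          rw [List.length_drop, hl, Nat.mul_succ]
          omega)
        simp only [evf, List.length_cons, h1]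

theorem mul_length_evf {α : Type} (n : ℕ) (k : ℕ) (l : List α) :
    n * (evf k n l).length ≤ l.length + n := by
  induction k generalizing l with
  | zero => simp [evf]
  | succ k ih =>
    cases l with
    | nil => simp [evf]
    | cons x l =>
      have h1 := ih ((x :: l).drop n)
      rw [List.length_drop] at h1
      simp only [evf, List.length_cons] at h1 ⊢
      by_cases h : l.length + 1 < n
      · have h2 : (x :: l).drop n = [] := by
          rw [List.drop_eq_nil_iff]
          simp
          omega
        rw [h2]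
        have : evf k n ([] : List α) = [] := by cases k <;> rfl
        rw [this]
        simp
      · have : n * ((evf k n (List.drop n (x :: l))).length + 1) =
            n * (evf k n (List.drop n (x :: l))).length + n := by ring
        omega

theorem mem_evf {α : Type} (n : ℕ) (k : ℕ) (l : List α) (x : α) (hx : x ∈ evf k n l) : x ∈ l := by
  induction k generalizing l with
  | zero => simp [evf] at hx
  | succ k ih =>
    cases l with
    | nil => simp [evf] at hx
    | cons y l =>
      simp only [evf, List.mem_cons] at hx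
      rcases hx with rfl | hx
      · simp
      · exact List.mem_of_mem_drop (ih _ hx)

theorem cost_evP' (v : SV F s) (k : SC F s) (x : Ty.D F (.prod (.list b) (.list a)))
    (hn : 1 ≤ List.length x.1) :
    (evP : Pr s (.prod (.list b) (.list a)) _).cost v k x ≤
      64 * (List.length x.2 + List.length x.1) + 14 := by
  have h1 := cost_evP v k x
  have h2 := mul_length_evf (List.length x.1) (List.length x.2) x.2
  nlinarith

/-! ### powers of a field element -/

/-- input `(u, z)` -/
def powP : Pr s (.prod (.list b) .fld) .fld :=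
  .comp (.pair .snd (.pair .one .fst))
    (foldP (c := .fld) (b := .fld) (a := b) (.comp (.pair (.comp .snd .fst) .fst) .mul))

@[simp] theorem val_powP (v : SV F s) (x : Ty.D F (.prod (.list b) .fld)) :
    (powP : Pr s (.prod (.list b) .fld) _).val v x = (x.2 : F) ^ (List.length x.1) := by
  obtain ⟨u, z⟩ := x
  simp only [powP, val_comp, val_pair, val_snd, val_one, val_fst, val_foldP, val_mul]
  have : ∀ (u : List (Ty.D F b)) (y : F), List.foldl (fun y _ => y * z) y u = y * z ^ u.length := by
    intro u
    induction u with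
    | nil => intro y; simp
    | cons h t ih => intro y; simp [ih, pow_succ]; ring
  rw [this, one_mul]

theorem cost_powP (v : SV F s) (k : SC F s) (x : Ty.D F (.prod (.list b) .fld)) :
    (powP : Pr s (.prod (.list b) .fld) _).cost v k x ≤ 40 * List.length x.1 + 30 := by
  have h := cost_foldP_le (s := s) (c := .fld) (b := .fld) (a := b)
    (.comp (.pair (.comp .snd .fst) .fst) .mul) v k (x.2, ((1 : F), x.1)) 6 (fun _ => True)
    trivial (fun _ _ _ _ => trivial) (fun _ _ _ _ => by simp)
  simp [powP] at h ⊢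
  omega

/-! ### the length as a field element -/

/-- the length of a list in the field -/
def chP : Pr s (.list a) .fld :=
  .comp (.pair .star (.pair .zero .id))
    (foldP (c := .unit) (b := .fld) (a := a) (.comp (.pair (.comp .snd .fst) .one) .add))

@[simp] theorem val_chP (v : SV F s) (x : Ty.D F (.list a)) :
    (chP : Pr s (.list a) _).val v x = ((List.length x : ℕ) : F) := by
  simp only [chP, val_comp, val_pair, val_id, val_zero, val_snd, val_fst, val_foldP, val_add,
    val_one]
  have : ∀ (u : List (Ty.D F a)) (y : F), List.foldl (fun y _ => y + 1) y u = y + u.length := by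
    intro u
    induction u with
    | nil => intro y; simp
    | cons h t ih => intro y; simp [ih]; ring
  rw [this, zero_add]

theorem cost_chP (v : SV F s) (k : SC F s) (x : Ty.D F (.list a)) :
    (chP : Pr s (.list a) _).cost v k x ≤ 40 * List.length x + 30 := by
  have h := cost_foldP_le (s := s) (c := .unit) (b := .fld) (a := a)
    (.comp (.pair (.comp .snd .fst) .one) .add) v k ((), ((0 : F), x)) 6 (fun _ => True)
    trivial (fun _ _ _ _ => trivial) (fun _ _ _ _ => by simp)
  simp [chP] at h ⊢
  omega

/-! ### shortest initial segment whose length vanishes in the field -/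

/-- shortest initial segment whose length vanishes in the field -/
def pf {α : Type} : F → List α → List α
  | _, [] => []
  | y, h :: t => if y + 1 = 0 then [h] else h :: pf (y + 1) t

/-- shortest initial segment whose length vanishes in the field -/
def pfP : Pr s (.list a) (.list a) :=
  .comp (.pair .id (.pair .zero .id)) (.recD
    (onL .snd .nil (onZ (.comp (.pair (.comp .fst .fst) .one) .add)
      (.comp (.pair (.comp .snd .fst) .nil) .cons)
      (.comp (.pair (.comp .snd .fst) (.comp (.pair (.comp (.pair (.comp .fst .fst) .one) .add)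
        (.comp .snd .snd)) .self)) .cons))) .nil)

@[simp] theorem val_pfP (v : SV F s) (x : Ty.D F (.list a)) :
    (pfP : Pr s (.list a) _).val v x = pf (0 : F) (x : List _) := by
  simp only [pfP, val_comp, val_pair, val_id, val_zero, val_recD]
  generalize (0 : F) = y
  induction x generalizing y with
  | nil => simp [goV, pf]
  | cons h t ih =>
    have := ih (y + 1)
    simp [goV, pf] at this ⊢
    rw [this]

theorem cost_pfP (v : SV F s) (k : SC F s) (x : Ty.D F (.list a)) :
    (pfP : Pr s (.list a) _).cost v k x ≤ 40 * List.length x + 14 := by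
  simp only [pfP, cost_comp, cost_pair, val_pair, val_id, cost_id, cost_zero, val_zero, cost_recD]
  generalize (0 : F) = y
  induction x generalizing y with
  | nil => simp [goC]
  | cons h t ih =>
    have := ih (y + 1)
    simp [goC] at this ⊢
    split_ifs <;> omega

theorem pf_eq {α : Type} (p : ℕ) [CharP F p] (j : ℕ) (hj : j < p) (l : List α) :
    pf (j : F) l = l.take (p - j) := by
  induction l generalizing j with
  | nil => simp [pf]
  | cons h t ih =>
    simp only [pf]
    have h1 : ((j : F) + 1 = 0) ↔ p ∣ j + 1 := by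
      rw [← CharP.cast_eq_zero_iff F p (j + 1)]
      push_cast
      rfl
    by_cases hp : p = j + 1
    · rw [if_pos (h1.mpr (by rw [hp]))]
      have : p - j = 1 := by omega
      rw [this]
      simp
    · have h2 : ¬ ((j : F) + 1 = 0) := by
        rw [h1]
        intro h3
        have := Nat.le_of_dvd (by omega) h3
        omega
      rw [if_neg h2]
      have h3 := ih (j + 1) (by omega)
      push_cast at h3
      rw [h3]
      have : p - j = (p - (j + 1)) + 1 := by omega
      rw [this, List.take_succ_cons]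

/-! ### inverse of the Frobenius map -/

/-- one step -/
def frs (p : ℕ) (z y : F) : F := if y ^ p + -z = 0 then y else y ^ p

/-- input `((pu, fuel), z)` -/
def ifP : Pr s (.prod (.prod (.list b) (.list d)) .fld) .fld :=
  .comp (.pair (.pair (.comp .fst .fst) .snd) (.pair .snd (.comp .fst .snd)))
    (foldP (c := .prod (.list b) .fld) (b := .fld) (a := d)
      (lt (.comp (.pair (.comp .fst .fst) (.comp .snd .fst)) powP)
        (onZ (.comp (.pair .snd (.comp (.comp (.comp .fst .fst) .snd) .neg)) .add)
          (.comp (.comp .fst .snd) .fst) .snd)))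

/-- inverse of the Frobenius map -/
def ifr (p n : ℕ) (z : F) : F := (frs p z)^[n] z

theorem foldl_const {α β : Type} (f : α → α) (l : List β) (y : α) :
    List.foldl (fun y _ => f y) y l = f^[l.length] y := by
  induction l generalizing y with
  | nil => rfl
  | cons h t ih => simp [ih]

@[simp] theorem val_ifP (v : SV F s) (x : Ty.D F (.prod (.prod (.list b) (.list d)) .fld)) :
    (ifP : Pr s (.prod (.prod (.list b) (.list d)) .fld) _).val v x =
      ifr (List.length x.1.1) (List.length x.1.2) (x.2 : F) := by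
  obtain ⟨⟨u, w⟩, z⟩ := x
  simp only [ifP, val_comp, val_pair, val_snd, val_fst, val_foldP, val_lt, val_powP, val_onZ,
    val_add, val_neg]
  exact foldl_const (frs (F := F) (List.length u) z) w z

theorem cost_ifP (v : SV F s) (k : SC F s)
    (x : Ty.D F (.prod (.prod (.list b) (.list d)) .fld)) :
    (ifP : Pr s (.prod (.prod (.list b) (.list d)) .fld) _).cost v k x ≤
      (40 * List.length x.1.1 + 100) * List.length x.1.2 + 30 := by
  obtain ⟨⟨u, w⟩, z⟩ := x
  have h := cost_foldP_le (s := s) (c := .prod (.list b) .fld) (b := .fld) (a := d)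
    (lt (.comp (.pair (.comp .fst .fst) (.comp .snd .fst)) powP)
        (onZ (.comp (.pair .snd (.comp (.comp (.comp .fst .fst) .snd) .neg)) .add)
          (.comp (.comp .fst .snd) .fst) .snd)) v k ((u, z), (z, w))
    (40 * List.length u + 73) (fun _ => True) trivial (fun _ _ _ _ => trivial)
    (fun y z' _ _ => by
      have e := cost_powP (s := s) (b := b) v k (u, y)
      simp at e ⊢
      split_ifs <;> omega)
  simp [ifP] at h ⊢
  nlinarith

theorem ifr_pow {p : ℕ} (f : ℕ) (hf : 1 ≤ f) (z : F) (hz : z ^ (p ^ f) = z) (n : ℕ) (hn : f ≤ n) :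
    (ifr p n z) ^ p = z := by
  have key : ∀ n : ℕ, ((frs p z)^[n] z) ^ p = z ∨
      ((frs p z)^[n] z = z ^ (p ^ n) ∧ ∀ j < n, z ^ (p ^ (j + 1)) ≠ z) := by
    intro n
    induction n with
    | zero => right; simp
    | succ n ih =>
      rw [Function.iterate_succ_apply']
      rcases ih with h | ⟨h, h'⟩
      · left
        have : frs p z ((frs p z)^[n] z) = (frs p z)^[n] z := by
          rw [frs, if_pos]
          rw [h]; ring
        rw [this, h]
      · by_cases hc : z ^ (p ^ (n + 1)) = z
        · left
          have h2 : ((frs p z)^[n] z) ^ p = z := by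
            rw [h, ← pow_mul, ← pow_succ, hc]
          have : frs p z ((frs p z)^[n] z) = (frs p z)^[n] z := by
            rw [frs, if_pos]
            rw [h2]; ring
          rw [this, h2]
        · right
          have h2 : ((frs p z)^[n] z) ^ p = z ^ (p ^ (n + 1)) := by
            rw [h, ← pow_mul, ← pow_succ]
          refine ⟨?_, ?_⟩
          · rw [frs, if_neg, h2]
            rw [h2]
            intro h3
            apply hc
            linear_combination h3
          · intro j hj
            rcases Nat.lt_succ_iff_lt_or_eq.mp hj with h3 | h3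
            · exact h' j h3
            · rw [h3]; exact hc
  rcases key n with h | ⟨_, h⟩
  · exact h
  · exfalso
    apply h (f - 1) (by omega)
    rw [Nat.sub_add_cancel hf]
    exact hz

end progs

section algebra
variable {F : Type} [Field F] [DecidableEq F]

theorem pol_coeff {R : Type} [CommRing R] (l : List R) (i : ℕ) : (pol l).coeff i = l.getD i 0 := by
  induction l generalizing i with
  | nil => simp [pol]
  | cons x l ih =>
    cases i with
    | zero => simp [pol]
    | succ i => simp [pol, ih, coeff_C_succ]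

theorem biv_coeff (l : List (List F)) (i : ℕ) : (biv l).coeff i = pol (l.getD i []) := by
  unfold biv
  rw [pol_coeff]
  have : (0 : F[X]) = pol [] := rfl
  rw [this, List.getD_map]

theorem mbiv_coeff_lt (l : List (List F)) (i : ℕ) (hi : i < l.length) :
    (mbiv l).coeff i = pol (l.getD i []) := by
  unfold mbiv
  rw [coeff_add, biv_coeff, coeff_X_pow, if_neg (by omega), zero_add]

theorem mbiv_coeff_self (l : List (List F)) : (mbiv l).coeff l.length = 1 := by
  unfold mbiv
  rw [coeff_add, biv_coeff, coeff_X_pow, if_pos rfl, List.getD_eq_default _ _ le_rfl]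
  simp [pol]

theorem mbiv_coeff_gt (l : List (List F)) (i : ℕ) (hi : l.length < i) :
    (mbiv l).coeff i = 0 := by
  unfold mbiv
  rw [coeff_add, biv_coeff, coeff_X_pow, if_neg (by omega), List.getD_eq_default _ _ hi.le]
  simp [pol]

/-- comparison of a monic polynomial with a list -/
theorem mbiv_eq_of (l : List (List F)) (S : F[X][X]) (hS : S.Monic) (hd : S.natDegree = l.length)
    (h : ∀ i < l.length, ∀ j, (S.coeff i).coeff j = (l.getD i []).getD j 0) : mbiv l = S := by
  ext i j
  rcases lt_trichotomy i l.length with hi | hi | hi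
  · rw [mbiv_coeff_lt l i hi, pol_coeff, h i hi]
  · rw [hi, mbiv_coeff_self]
    have : S.coeff l.length = 1 := by rw [← hd]; exact hS
    rw [this]
  · have h0 : S.coeff i = 0 := coeff_eq_zero_of_natDegree_lt (by omega)
    rw [mbiv_coeff_gt l i hi, h0]

theorem getD_fit {α : Type} (n : ℕ) (z : α) (l : List α) (j : ℕ) (hj : j < n) :
    (fit n z l).getD j z = l.getD j z := by
  induction n generalizing l j with
  | zero => omega
  | succ n ih =>
    cases l with
    | nil =>
      cases j with
      | zero => simp [fit]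
      | succ j =>
        have := ih [] j (by omega)
        simp only [fit, List.getD_cons_succ]
        rw [this]
        simp
    | cons x l =>
      cases j with
      | zero => simp [fit]
      | succ j =>
        simp only [fit, List.getD_cons_succ]
        exact ih l j (by omega)

end algebra

section strip
variable {F : Type} [Field F] [DecidableEq F]
variable {s : List (Ty × Ty)}

/-- one row -/
def rowf (p n : ℕ) (r : List F) : List F :=
  (fit r.length 0 (evf r.length p r)).map (ifr p n)

/-- one row -/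
def rowP : Pr s (.prod (.prod Un Po) Po) Po :=
  .comp (.pair .fst (.comp (.pair .snd (.pair .zero
    (.comp (.pair (.comp .fst .fst) .snd) evP))) fitP)) (mapP ifP)

@[simp] theorem val_rowP (v : SV F s) (x : Ty.D F (.prod (.prod Un Po) Po)) :
    (rowP : Pr s (.prod (.prod Un Po) Po) Po).val v x =
      rowf (List.length x.1.1) (List.length x.1.2) (x.2 : List F) := by
  obtain ⟨⟨u, w⟩, r⟩ := x
  simp [rowP, rowf]

theorem cost_rowP (v : SV F s) (k : SC F s) (x : Ty.D F (.prod (.prod Un Po) Po))
    (hn : 1 ≤ List.length x.1.1) :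
    (rowP : Pr s (.prod (.prod Un Po) Po) Po).cost v k x ≤
      (40 * List.length x.1.1 + 100) * List.length x.1.2 * List.length x.2 +
        140 * List.length x.2 + 64 * List.length x.1.1 + 50 := by
  obtain ⟨⟨u, w⟩, r⟩ := x
  have h1 := cost_evP' (s := s) (a := .fld) (b := .unit) v k (u, r) hn
  have h2 := cost_fitP (s := s) (a := .fld) (b := .fld) v k
    (r, ((0 : F), evf r.length u.length r))
  have h3 := cost_mapP_le (s := s) (c := .prod Un Po) (a := .fld) (b := .fld) ifP v k
    ((u, w), fit r.length (0 : F) (evf r.length u.length r)) ((40 * u.length + 100) * w.length + 30)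
    (fun y _ => cost_ifP v k ((u, w), y))
  simp [rowP] at h1 h2 h3 ⊢
  nlinarith

/-- one extraction -/
def stepf (n : ℕ) (x : List Unit × List (List F)) : List Unit × List (List F) :=
  (evf x.1.length (pf (0 : F) x.1).length x.1,
    (evf x.2.length (pf (0 : F) x.1).length x.2).map (rowf (pf (0 : F) x.1).length n))

/-- one extraction; input `(fuel, (u, P))` -/
def stepP : Pr s (.prod Po (.prod Un Ma)) (.prod Po (.prod Un Ma)) :=
  lt (.comp (.comp .snd .fst) pfP)
    (.pair (.comp .fst .fst) (.pair (.comp (.pair .snd (.comp (.comp .fst .snd) .fst)) evP)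
      (.comp (.pair (.pair .snd (.comp .fst .fst))
        (.comp (.pair .snd (.comp (.comp .fst .snd) .snd)) evP)) (mapP rowP))))

@[simp] theorem val_stepP (v : SV F s) (x : Ty.D F (.prod Po (.prod Un Ma))) :
    (stepP : Pr s (.prod Po (.prod Un Ma)) _).val v x =
      (x.1, stepf (F := F) (List.length x.1) x.2) := by
  obtain ⟨w, u, P⟩ := x
  simp [stepP, stepf]

theorem cost_stepP (v : SV F s) (k : SC F s) (x : Ty.D F (.prod Po (.prod Un Ma))) (w M : ℕ)
    (hp : 1 ≤ (pf (0 : F) (x.2.1 : List Unit)).length)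
    (hp2 : (pf (0 : F) (x.2.1 : List Unit)).length ≤ List.length x.2.1)
    (hw : Sh w (x.2.2 : List (List F))) (hM : List.length x.2.2 =
      (pf (0 : F) (x.2.1 : List Unit)).length * M) (hpw : List.length x.2.1 ≤ w)
    (hcl : List.length x.2.1 ≤ List.length x.2.2) :
    (stepP : Pr s (.prod Po (.prod Un Ma)) _).cost v k x ≤
      900 * (List.length x.1 + 1) * w * List.length x.2.2 := by
  obtain ⟨fu, u, P⟩ := x
  simp only at hp hp2 hw hM hpw hcl ⊢
  set p := (pf (0 : F) u).length with hpdef
  have hlen : (evf P.length p P).length = M := length_evf p hp M P.length P le_rfl hM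
  have h1 := cost_pfP (s := s) (a := .unit) v k u
  have h2 := cost_evP' (s := s) (a := .unit) (b := .unit) v k (pf (0 : F) u, u) hp
  have h3 := cost_evP' (s := s) (a := Po) (b := .unit) v k (pf (0 : F) u, P) hp
  have h4 := cost_mapP_le (s := s) (c := .prod Un Po) (a := Po) (b := Po) rowP v k
    ((pf (0 : F) u, fu), evf P.length p P)
    ((40 * p + 100) * fu.length * w + 140 * w + 64 * p + 50) (by
      intro y hy
      have e := cost_rowP (s := s) v k ((pf (0 : F) u, fu), y) hp
      have e2 : List.length y = w := hw y (mem_evf _ _ _ _ hy)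
      simp only [e2] at e
      exact e)
  simp only [hlen] at h4
  have hM1 : M ≤ P.length := by rw [hM]; nlinarith
  have hw1 : 1 ≤ w := by omega
  have hP1 : 1 ≤ P.length := by omega
  have key : ((40 * p + 100) * fu.length * w + 140 * w + 64 * p + 50 + 13) * M + 5 ≤
      (140 * fu.length * w + 272 * w) * P.length := by
    have hp3 : (40 * p + 100) * M ≤ 140 * P.length := by
      rw [hM]
      nlinarith
    have hp4 : (40 * p + 100) * M * (fu.length * w) ≤ 140 * P.length * (fu.length * w) :=
      Nat.mul_le_mul_right _ hp3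
    have hp5 : (140 * w + 64 * p + 63) * M + 5 ≤ 272 * w * P.length := by
      have : (140 * w + 64 * p + 63) * M ≤ 267 * w * P.length := by
        apply Nat.mul_le_mul _ hM1
        omega
      nlinarith
    nlinarith
  simp [stepP] at h1 h2 h3 h4 ⊢
  simp only [← hpdef] at h2 h3 h4 ⊢
  have hwP : P.length ≤ w * P.length := by nlinarith
  have hwP2 : u.length ≤ w * P.length := by omega
  have hwP3 : 1 ≤ w * P.length := by omega
  have e1 : 900 * (fu.length + 1) * w * P.length =
    900 * (fu.length * w * P.length) + 900 * (w * P.length) := by ring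
  have e2 : (140 * fu.length * w + 272 * w) * P.length =
    140 * (fu.length * w * P.length) + 272 * (w * P.length) := by ring
  rw [e1]
  rw [e2] at key
  generalize hY : fu.length * w * P.length = Y at *
  generalize hZ : w * P.length = Z at *
  omega

/-- removal of the characteristic from the exponent -/
def strip (n : ℕ) : ℕ → List Unit × List (List F) → List Unit × List (List F)
  | 0, x => x
  | k + 1, x => if ((x.1.length : ℕ) : F) = 0 then strip n k (stepf n x) else x

/-- removal of the characteristic from the exponent, body -/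
def stripB : Pr ((.prod Po (.prod Un Ma), .prod Un Ma) :: s) (.prod Po (.prod Un Ma))
    (.prod Un Ma) :=
  onZ (.comp (.comp .snd .fst) chP) (.comp stepP .self) .snd

/-- removal of the characteristic from the exponent -/
def stripP : Pr s (.prod Po (.prod Un Ma)) (.prod Un Ma) :=
  .comp (.pair (.comp .snd .fst) .id) (.recD stripB .snd)

theorem goV_strip (v : SV F s) (n : ℕ) (w : List F) (x : List Unit × List (List F)) :
    goV (stripB (s := s)) .snd v n (w, x) = strip (List.length w) n x := by
  induction n generalizing x with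
  | zero => rfl
  | succ n ih =>
    have h := ih (stepf w.length x)
    simp only [goV, stripB, val_onZ, val_comp, val_snd, val_fst, val_chP, val_stepP, val_self,
      strip] at h ⊢
    split_ifs with h0
    · exact h
    · rfl

@[simp] theorem val_stripP (v : SV F s) (x : Ty.D F (.prod Po (.prod Un Ma))) :
    (stripP : Pr s (.prod Po (.prod Un Ma)) _).val v x =
      strip (F := F) (List.length x.1) (List.length x.2.1) x.2 := by
  obtain ⟨w, u, P⟩ := x
  simp only [stripP, val_comp, val_pair, val_snd, val_fst, val_id, val_recD]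
  exact goV_strip v _ w (u, P)

/-- the invariant -/
structure Inv (w m c : ℕ) (S : F[X][X]) (x : List Unit × List (List F)) : Prop where
  hc : x.1.length = c
  h1 : 1 ≤ c
  hP : x.2.length = m * c
  hw : Sh w x.2
  hS : mbiv x.2 = S ^ c

theorem inv_step {p : ℕ} (hp : p.Prime) [CharP F p] {f : ℕ} (hf : 1 ≤ f)
    (hF : ∀ z : F, z ^ (p ^ f) = z) {w m c : ℕ} (hm : 1 ≤ m) {S : F[X][X]} (hS : S.Monic)
    (hSd : S.natDegree = m)
    {x : List Unit × List (List F)} (h : Inv w m c S x) (h0 : ((c : ℕ) : F) = 0) {n : ℕ}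
    (hn : f ≤ n) :
    (pf (0 : F) x.1).length = p ∧ ∃ c1, c = p * c1 ∧ Inv w m c1 S (stepf n x) := by
  obtain ⟨u, P⟩ := x
  obtain ⟨hc, h1, hP, hw, hSP⟩ := h
  simp only at hc hP hw hSP
  have hdvd : p ∣ c := (CharP.cast_eq_zero_iff F p c).mp h0
  have hpf : pf (0 : F) u = u.take p := by
    have := pf_eq (F := F) p 0 hp.pos u
    simpa using this
  have hpl : (pf (0 : F) u).length = p := by
    rw [hpf, List.length_take, hc, min_eq_left (Nat.le_of_dvd h1 hdvd)]
  refine ⟨hpl, ?_⟩
  obtain ⟨c1, rfl⟩ := hdvd
  have hc1 : 1 ≤ c1 := by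
    rcases Nat.eq_zero_or_pos c1 with h | h
    · subst h; simp at h1
    · exact h
  refine ⟨c1, rfl, ?_⟩
  unfold stepf
  simp only [hpl]
  have hPlen : (evf P.length p P).length = m * c1 :=
    length_evf p hp.one_lt.le (m * c1) P.length P le_rfl (by rw [hP]; ring)
  have hSh : Sh w ((evf P.length p P).map (rowf p n)) := by
    intro r hr
    rw [List.mem_map] at hr
    obtain ⟨r', hr', rfl⟩ := hr
    unfold rowf
    rw [List.length_map, length_fit]
    exact hw r' (mem_evf _ _ _ _ hr')
  refine ⟨?_, hc1, ?_, hSh, ?_⟩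
  · exact length_evf p hp.one_lt.le c1 u.length u le_rfl hc
  · rw [List.length_map, hPlen]
  · have hV : (S ^ c1).Monic := hS.pow c1
    have hVd : (S ^ c1).natDegree = m * c1 := by
      rw [hS.natDegree_pow, hSd, mul_comm]
    have := Fact.mk hp
    apply mbiv_eq_of _ _ hV
    · rw [hVd, List.length_map, hPlen]
    · intro i hi j
      rw [List.length_map, hPlen] at hi
      set V := S ^ c1 with hVdef
      have hVp : V ^ p = mbiv P := by rw [hSP, hVdef, ← pow_mul, mul_comm]
      have hpi : p * i < P.length := by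
        rw [hP]
        calc p * i < p * (m * c1) := by
              apply Nat.mul_lt_mul_of_pos_left hi hp.pos
          _ = m * (p * c1) := by ring
      have hcoef : ((V.coeff i).coeff j) ^ p = (P.getD (p * i) []).getD (p * j) 0 := by
        have e1 : (V ^ p).coeff (p * i) = (V.coeff i) ^ p := by
          rw [← Polynomial.map_frobenius_expand (p := p) (f := V)]
          rw [coeff_map, mul_comm p i, coeff_expand_mul hp.pos, frobenius_def]
        have e2 : ((V.coeff i) ^ p).coeff (p * j) = ((V.coeff i).coeff j) ^ p := by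
          rw [← Polynomial.map_frobenius_expand (p := p) (f := V.coeff i)]
          rw [coeff_map, mul_comm p j, coeff_expand_mul hp.pos, frobenius_def]
        rw [← e2, ← e1, hVp, mbiv_coeff_lt P _ hpi, pol_coeff]
      have hrow : ((evf P.length p P).map (rowf p n)).getD i [] =
          rowf p n (P.getD (p * i) []) := by
        have : rowf p n ([] : List F) = [] := by simp [rowf, fit]
        rw [← this, List.getD_map, getD_evf [] p hp.one_lt.le P.length P le_rfl]
        rw [this]
      rw [hrow]
      have hrl : (P.getD (p * i) []).length = w := by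
        apply hw
        rw [List.getD_eq_getElem _ _ hpi]
        exact List.getElem_mem _
      unfold rowf
      rw [hrl]
      set r := P.getD (p * i) [] with hrdef
      by_cases hj : j < w
      · have hlt : j < ((fit w (0 : F) (evf w p r)).map (ifr p n)).length := by
          rw [List.length_map, length_fit]; exact hj
        have h5 : ((fit w (0 : F) (evf w p r)).map (ifr p n)).getD j 0 =
            ifr p n (r.getD (p * j) 0) := by
          rw [List.getD_eq_getElem _ _ hlt, List.getElem_map]
          congr 1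
          rw [← List.getD_eq_getElem _ (0 : F), getD_fit w 0 _ j hj,
            getD_evf 0 p hp.one_lt.le w r (by rw [hrl])]
        rw [h5]
        have h6 : (ifr p n (r.getD (p * j) 0)) ^ p = r.getD (p * j) 0 :=
          ifr_pow f hf _ (hF _) n hn
        rw [← hcoef] at h6 ⊢
        exact (frobenius_inj F p (by simpa [frobenius_def] using h6)).symm
      · have h5 : ((fit w (0 : F) (evf w p r)).map (ifr p n)).getD j 0 = 0 := by
          rw [List.getD_eq_default]
          rw [List.length_map, length_fit]
          omega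
        rw [h5]
        have h6 : r.getD (p * j) 0 = 0 := by
          rw [List.getD_eq_default]
          rw [hrl]
          have := hp.one_lt
          nlinarith
        rw [h6] at hcoef
        exact pow_eq_zero_iff hp.ne_zero |>.mp hcoef

theorem strip_spec {p : ℕ} (hp : p.Prime) [CharP F p] {f : ℕ} (hf : 1 ≤ f)
    (hF : ∀ z : F, z ^ (p ^ f) = z) {w m : ℕ} (hm : 1 ≤ m) {S : F[X][X]} (hS : S.Monic)
    (hSd : S.natDegree = m) {n : ℕ} (hn : f ≤ n) (k : ℕ) :
    ∀ (c : ℕ) (x : List Unit × List (List F)), Inv w m c S x → c ≤ k →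
    ∃ c', c' ≤ c ∧ ((c' : ℕ) : F) ≠ 0 ∧ Inv w m c' S (strip n k x) := by
  induction k with
  | zero =>
    intro c x h hc
    have := h.h1
    omega
  | succ k ih =>
    intro c x h hc
    by_cases h0 : ((c : ℕ) : F) = 0
    · obtain ⟨_, c1, hc1, h'⟩ := inv_step hp hf hF hm hS hSd h h0 hn
      have hlt : c1 < c := by
        have := hp.one_lt
        have := h'.h1
        nlinarith
      obtain ⟨c', h2, h3, h4⟩ := ih c1 _ h' (by omega)
      refine ⟨c', by omega, h3, ?_⟩
      rw [strip, if_pos (by rw [h.hc]; exact h0)]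
      exact h4
    · refine ⟨c, le_rfl, h0, ?_⟩
      rw [strip, if_neg (by rw [h.hc]; exact h0)]
      exact h

theorem cost_strip {p : ℕ} (hp : p.Prime) [CharP F p] {f : ℕ} (hf : 1 ≤ f)
    (hF : ∀ z : F, z ^ (p ^ f) = z) {w m : ℕ} (hm : 1 ≤ m) {S : F[X][X]} (hS : S.Monic)
    (hSd : S.natDegree = m) (wf : List F) (hn : f ≤ wf.length) (v : SV F s) (k : SC F s) (j : ℕ) :
    ∀ (c : ℕ) (x : List Unit × List (List F)), Inv w m c S x → c ≤ j → c ≤ w →
    goC (stripB (s := s)) .snd v k j (wf, x) ≤ 2000 * (wf.length + 1) * w * (m * c) := by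
  induction j with
  | zero =>
    intro c x h hc
    have := h.h1
    omega
  | succ j ih =>
    intro c x h hc hcw
    have hcost := cost_chP (s := (.prod Po (.prod Un Ma), .prod Un Ma) :: s) (a := .unit)
      (F := F) (goV (stripB (s := s)) .snd v j, v) (goC (stripB (s := s)) .snd v k j, k) x.1
    have hA : 1 ≤ c := h.h1
    have hmc : c ≤ m * c := by nlinarith
    have hbase : 100 * c ≤ 100 * ((wf.length + 1) * w * (m * c)) := by
      have h2 : 1 ≤ (wf.length + 1) * w := by nlinarith
      nlinarith
    by_cases h0 : ((c : ℕ) : F) = 0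
    · obtain ⟨hpl, c1, hc1, h'⟩ := inv_step hp hf hF hm hS hSd h h0 hn
      have h2c : 2 * c1 ≤ c := by
        have := hp.two_le
        rw [hc1]
        nlinarith
      have h'1 := h'.h1
      have hind := ih c1 _ h' (by omega) (by omega)
      have hst := cost_stepP (s := (.prod Po (.prod Un Ma), .prod Un Ma) :: s)
        (F := F) (goV (stripB (s := s)) .snd v j, v) (goC (stripB (s := s)) .snd v k j, k)
        (wf, x) w (m * c1) (by rw [hpl]; exact hp.one_lt.le)
        (by
          rw [hpl, h.hc, hc1]
          nlinarith) h.hw (by rw [hpl, h.hP, hc1]; ring) (by rw [h.hc]; exact hcw)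
        (by rw [h.hc, h.hP]; exact hmc)
      rw [h.hP] at hst
      have hval : ((List.length x.1 : ℕ) : F) = 0 := by rw [h.hc]; exact h0
      rw [h.hc] at hcost
      simp only [goC, stripB, cost_onZ, cost_comp, cost_snd, cost_fst, val_comp, val_snd, val_fst,
        val_chP, hval, if_true, val_stepP, cost_self] at hcost hst hind ⊢
      have e1 : 2000 * (wf.length + 1) * w * (m * c1) ≤ 1000 * ((wf.length + 1) * w * (m * c)) := by
        have : 2 * (m * c1) ≤ m * c := by nlinarith
        have h3 : (wf.length + 1) * w * (2 * (m * c1)) ≤ (wf.length + 1) * w * (m * c) :=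
          Nat.mul_le_mul_left _ this
        nlinarith
      have e2 : 900 * (wf.length + 1) * w * (m * c) = 900 * ((wf.length + 1) * w * (m * c)) := by
        ring
      have e3 : 2000 * (wf.length + 1) * w * (m * c) = 2000 * ((wf.length + 1) * w * (m * c)) := by
        ring
      rw [e2] at hst
      rw [e3]
      generalize (wf.length + 1) * w * (m * c) = Z at *
      omega
    · have hval : ¬ ((List.length x.1 : ℕ) : F) = 0 := by rw [h.hc]; exact h0
      rw [h.hc] at hcost
      simp only [goC, stripB, cost_onZ, cost_comp, cost_snd, cost_fst, val_comp, val_snd, val_fst,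
        val_chP, hval, if_false] at hcost ⊢
      have e3 : 2000 * (wf.length + 1) * w * (m * c) = 2000 * ((wf.length + 1) * w * (m * c)) := by
        ring
      rw [e3]
      generalize (wf.length + 1) * w * (m * c) = Z at *
      omega

end strip

section ring
variable {F : Type} [Field F]

theorem pol_map {R T : Type} [CommRing R] [CommRing T] (f : R →+* T) (l : List R) :
    (pol l).map f = pol (l.map f) := by
  induction l with
  | nil => simp [pol]
  | cons x l ih => simp [pol, ih]

theorem rp_eq {R : Type} [CommRing R] [Algebra F R] (τ : R) (l : List (List F)) :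
    rp τ l = (biv l).map (aeval τ : F[X] →ₐ[F] R).toRingHom := by
  unfold rp biv
  rw [pol_map, List.map_map]
  rfl

theorem X_pow_dvd_sub_take {R : Type} [CommRing R] (l : List R) (n : ℕ) :
    (X : R[X]) ^ n ∣ pol l - pol (l.take n) := by
  rw [X_pow_dvd_iff]
  intro d hd
  rw [coeff_sub, pol_coeff, pol_coeff, List.getD_eq_getElem?_getD, List.getD_eq_getElem?_getD,
    List.getElem?_take, if_pos hd, sub_self]

theorem rp_take {R : Type} [CommRing R] [Algebra F R] (τ : R) (l : List (List F)) (n : ℕ) :
    (X : R[X]) ^ n ∣ rp τ l - rp τ (l.take n) := by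
  unfold rp
  rw [List.map_take]
  exact X_pow_dvd_sub_take _ _

theorem one_add_pow {R : Type} [CommRing R] (δ : R) (n : ℕ) :
    ∃ g : R, (1 + δ) ^ n = 1 + n * δ + δ ^ 2 * g := by
  induction n with
  | zero => exact ⟨0, by simp⟩
  | succ n ih =>
    obtain ⟨g, hg⟩ := ih
    refine ⟨g + g * δ + n, ?_⟩
    rw [pow_succ, hg]
    push_cast
    ring

/-- the Newton step -/
theorem newton_step {R : Type} [CommRing R] (Sh V V' y : R[X]) (κ : R) (c n a : ℕ)
    (hκ : κ * c = 1) (h1 : (X : R[X]) ^ a ∣ Sh * V - 1)
    (h2 : (X : R[X]) ^ n ∣ Sh ^ c * V ^ c - y)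
    (h3 : (X : R[X]) ^ n ∣ V * (C (1 + κ) - C κ * y) - V') :
    (X : R[X]) ^ (min (2 * a) n) ∣ Sh * V' - 1 := by
  obtain ⟨δ, hδ⟩ := h1
  have hz : Sh * V = 1 + X ^ a * δ := by linear_combination hδ
  obtain ⟨g, hg⟩ := one_add_pow (X ^ a * δ) c
  have hn : (X : R[X]) ^ (min (2 * a) n) ∣ X ^ n := pow_dvd_pow _ (min_le_right _ _)
  have ha : (X : R[X]) ^ (min (2 * a) n) ∣ (X ^ a * δ) ^ 2 := by
    have : (X : R[X]) ^ (min (2 * a) n) ∣ X ^ (2 * a) := pow_dvd_pow _ (min_le_left _ _)
    refine this.trans ⟨δ ^ 2, ?_⟩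
    ring
  have h2' := hn.trans h2
  have h3' := hn.trans h3
  have hpow : Sh ^ c * V ^ c = (1 + X ^ a * δ) ^ c := by rw [← mul_pow, hz]
  have hCκ : C κ * (c : R[X]) = 1 := by
    rw [← C_eq_natCast, ← C_mul, hκ, C_1]
  have e1 : Sh * V' - 1 = -(Sh * (V * (C (1 + κ) - C κ * y) - V')) +
      (1 + X ^ a * δ) * C κ * (Sh ^ c * V ^ c - y) -
      (X ^ a * δ) ^ 2 * (1 + C κ * g * (1 + X ^ a * δ)) := by
    rw [hpow, hg]
    have e2 : Sh * (V * (C (1 + κ) - C κ * y) - V') =
        (1 + X ^ a * δ) * (C (1 + κ) - C κ * y) - Sh * V' := by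
      rw [← hz]; ring
    rw [e2, C_add, C_1]
    linear_combination (-(X ^ a * δ) * (1 + X ^ a * δ)) * hCκ
  rw [e1]
  apply dvd_sub
  · apply dvd_add
    · exact (dvd_mul_of_dvd_right h3' _).neg_right
    · exact dvd_mul_of_dvd_right h2' _
  · exact dvd_mul_of_dvd_left ha _

end ring

section newton
variable {F : Type} [Field F] [DecidableEq F]
variable {s : List (Ty × Ty)}
variable (pm : Pr [] (.prod TB (.prod Un (.prod Ma Ma))) Ma)

/-- context of the truncated products: table, width, length -/
abbrev Ga : Ty := .prod TB (.prod Un Ma)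

/-- truncated product -/
def tm (tb : List (List F) × List (List F)) (wu : List Unit) (n : ℕ) (a b : List (List F)) :
    List (List F) := List.take n (pm.val () (tb, (wu, (a, b))) : List (List F))

/-- truncated product; input `((tb, (wu, U)), (a, b))` -/
def tmP : Pr s (.prod Ga (.prod Ma Ma)) Ma :=
  .comp (.comp (.pair (.comp (.comp .fst .snd) .snd) (.comp (.pair (.comp .fst .fst)
    (.pair (.comp (.comp .fst .snd) .fst) .snd)) (liftP s pm))) splitP) .fst

@[simp] theorem val_tmP (v : SV F s) (x : Ty.D F (.prod Ga (.prod Ma Ma))) :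
    (tmP pm : Pr s (.prod Ga (.prod Ma Ma)) Ma).val v x =
      tm pm x.1.1 x.1.2.1 (List.length x.1.2.2) x.2.1 x.2.2 := by
  simp [tmP, tm]

/-- what the multiplication program does over `F` -/
structure Mul (C : ℕ) (tb : List (List F) × List (List F)) (w : ℕ) : Prop where
  h : ∀ (a b : List (List F)), Sh w a → Sh w b →
    Sh w (pm.val () (tb, (un w, (a, b))) : List (List F)) ∧
    List.length (pm.val () (tb, (un w, (a, b))) : List (List F)) = a.length + b.length ∧
    (∀ (R : Type) [CommRing R] [Algebra F R] (τ : R), τ ^ w = 0 →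
      rp τ (pm.val () (tb, (un w, (a, b))) : List (List F)) = rp τ a * rp τ b) ∧
    pm.cost () () (tb, (un w, (a, b))) ≤ C * mu (w * (a.length + b.length) + 1)

variable {pm} {C0 : ℕ} {tb : List (List F) × List (List F)} {w : ℕ}

theorem tm_spec (hM : Mul pm C0 tb w) {n : ℕ} {a b : List (List F)} (ha : Sh w a) (hb : Sh w b) :
    Sh w (tm pm tb (un w) n a b) ∧ (tm pm tb (un w) n a b).length = min n (a.length + b.length) ∧
    (∀ (R : Type) [CommRing R] [Algebra F R] (τ : R), τ ^ w = 0 →
      (X : R[X]) ^ n ∣ rp τ a * rp τ b - rp τ (tm pm tb (un w) n a b)) := by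
  obtain ⟨h1, h2, h3, _⟩ := hM.h a b ha hb
  refine ⟨?_, ?_, ?_⟩
  · intro r hr
    exact h1 r (List.mem_of_mem_take hr)
  · unfold tm
    rw [List.length_take, h2]
  · intro R _ _ τ hτ
    rw [← h3 R τ hτ]
    exact rp_take τ _ n

theorem cost_tmP (hM : Mul pm C0 tb w) (v : SV F s) (k : SC F s) (U : List (List F))
    {a b : List (List F)} (ha : Sh w a) (hb : Sh w b) :
    (tmP pm : Pr s (.prod Ga (.prod Ma Ma)) Ma).cost v k ((tb, (un w, U)), (a, b)) ≤
      C0 * mu (w * (a.length + b.length) + 1) + 24 * U.length + 30 := by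
  obtain ⟨_, _, _, h⟩ := hM.h a b ha hb
  have h2 := cost_splitP (s := s) (a := Po) (b := Po) v k
    (U, (pm.val () (tb, (un w, (a, b))) : List (List F)))
  simp [tmP] at h h2 ⊢
  omega

/-- iterated product with `v`; input `((context, v), (start, list))` -/
def chainP (pm : Pr [] (.prod TB (.prod Un (.prod Ma Ma))) Ma) :
    Pr s (.prod (.prod Ga Ma) (.prod Ma Un)) Ma :=
  foldP (.comp (.pair (.comp .fst .fst) (.pair (.comp .snd .fst) (.comp .fst .snd))) (tmP pm))

/-- iterated product -/
def chain (pm : Pr [] (.prod TB (.prod Un (.prod Ma Ma))) Ma)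
    (tb : List (List F) × List (List F)) (wu : List Unit) (n : ℕ) (v : List (List F)) (j : ℕ)
    (y : List (List F)) : List (List F) := (fun y => tm pm tb wu n y v)^[j] y

@[simp] theorem val_chainP (v : SV F s) (x : Ty.D F (.prod (.prod Ga Ma) (.prod Ma Un))) :
    (chainP pm : Pr s (.prod (.prod Ga Ma) (.prod Ma Un)) Ma).val v x =
      chain pm x.1.1.1 x.1.1.2.1 (List.length x.1.1.2.2) x.1.2 (List.length x.2.2) x.2.1 := by
  obtain ⟨⟨⟨t, wu, U⟩, w⟩, y, l⟩ := x
  simp only [chainP, val_foldP, val_comp, val_pair, val_fst, val_snd, val_tmP]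
  exact foldl_const (fun y => tm pm t wu (List.length U) y w) l y

theorem chain_spec (hM : Mul pm C0 tb w) {n : ℕ} {v : List (List F)} (hv : Sh w v) (j : ℕ)
    {y : List (List F)} (hy : Sh w y) (hyn : y.length = n) :
    Sh w (chain pm tb (un w) n v j y) ∧ (chain pm tb (un w) n v j y).length = n ∧
    (∀ (R : Type) [CommRing R] [Algebra F R] (τ : R), τ ^ w = 0 →
      (X : R[X]) ^ n ∣ rp τ y * (rp τ v) ^ j - rp τ (chain pm tb (un w) n v j y)) := by
  induction j with
  | zero => exact ⟨hy, hyn, fun R _ _ τ _ => by simp [chain]⟩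
  | succ j ih =>
    obtain ⟨h1, h2, h3⟩ := ih
    have e : chain pm tb (un w) n v (j + 1) y =
        tm pm tb (un w) n (chain pm tb (un w) n v j y) v := by
      unfold chain
      rw [Function.iterate_succ_apply']
    rw [e]
    obtain ⟨h4, h5, h6⟩ := tm_spec hM (n := n) h1 hv
    refine ⟨h4, ?_, ?_⟩
    · rw [h5, h2]; omega
    · intro R _ _ τ hτ
      have e1 := h3 R τ hτ
      have e2 := h6 R τ hτ
      have e3 : rp τ y * rp τ v ^ (j + 1) -
          rp τ (tm pm tb (un w) n (chain pm tb (un w) n v j y) v) =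
          (rp τ y * rp τ v ^ j - rp τ (chain pm tb (un w) n v j y)) * rp τ v +
          (rp τ (chain pm tb (un w) n v j y) * rp τ v -
            rp τ (tm pm tb (un w) n (chain pm tb (un w) n v j y) v)) := by
        ring
      rw [e3]
      exact dvd_add (dvd_mul_of_dvd_left e1 _) e2

theorem cost_chainP (hM : Mul pm C0 tb w) (hmono : ∀ a b, a ≤ b → mu a ≤ mu b) (vv : SV F s)
    (k : SC F s) (U : List (List F)) {v y : List (List F)} (hv : Sh w v)
    (hvn : v.length ≤ U.length) (hy : Sh w y) (hyn : y.length = U.length) (l : List Unit) :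
    (chainP pm : Pr s (.prod (.prod Ga Ma) (.prod Ma Un)) Ma).cost vv k
      (((tb, (un w, U)), v), (y, l)) ≤
      (C0 * mu (w * (2 * U.length) + 1) + 24 * U.length + 70) * l.length + 14 := by
  have h := cost_foldP_le (s := s) (c := .prod Ga Ma) (b := Ma) (a := .unit)
    (.comp (.pair (.comp .fst .fst) (.pair (.comp .snd .fst) (.comp .fst .snd))) (tmP pm)) vv k
    (((tb, (un w, U)), v), (y, l)) (C0 * mu (w * (2 * U.length) + 1) + 24 * U.length + 43)
    (fun y => Sh w (y : List (List F)) ∧ List.length y = U.length) ⟨hy, hyn⟩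
    (fun y z hy _ => by
      obtain ⟨h4, h5, _⟩ := tm_spec hM (n := U.length) hy.1 hv
      simp only [val_comp, val_pair, val_fst, val_snd, val_tmP]
      refine ⟨h4, ?_⟩
      rw [h5, hy.2]; omega)
    (fun y z hy _ => by
      have e := cost_tmP hM vv k U hy.1 hv
      have e2 : C0 * mu (w * (List.length y + v.length) + 1) ≤
          C0 * mu (w * (2 * U.length) + 1) := by
        apply Nat.mul_le_mul_left
        apply hmono
        have := hy.2
        have : List.length y + v.length ≤ 2 * U.length := by omega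
        have := Nat.mul_le_mul_left w this
        omega
      simp only [cost_comp, cost_pair, cost_fst, cost_snd, val_comp, val_pair, val_fst,
        val_snd] at e ⊢
      omega)
  unfold chainP
  simp only at h ⊢
  refine h.trans (le_of_eq ?_)
  ring

/-! ### the linear correction -/

/-- adds `t` to the first entry of the first row -/
def add1 (t : F) : List (List F) → List (List F)
  | (x :: xs) :: rs => ((x + t) :: xs) :: rs
  | _ => []

/-- `(1 + κ) - κ y` -/
def adj (κ : F) (y : List (List F)) : List (List F) :=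
  add1 (1 + κ) (y.map (fun r => r.map (fun z => -κ * z)))

/-- adds `1 + κ` to the first entry; input `(κ, y)` -/
def add1P : Pr s (.prod .fld Ma) Ma :=
  onL .snd .nil (onL (.comp .snd .fst) .nil
    (.comp (.pair (.comp (.pair (.comp (.pair (.comp .snd .fst)
      (.comp (.pair .one (.comp (.comp .fst .fst) .fst)) .add)) .add) (.comp .snd .snd)) .cons)
      (.comp (.comp .fst .snd) .snd)) .cons))

@[simp] theorem val_add1P (v : SV F s) (x : Ty.D F (.prod .fld Ma)) :
    (add1P : Pr s (.prod .fld Ma) Ma).val v x = add1 (1 + x.1 : F) x.2 := by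
  obtain ⟨κ, y⟩ := x
  rcases y with _ | ⟨_ | ⟨x, xs⟩, rs⟩ <;> simp [add1P, add1]

theorem cost_add1P (v : SV F s) (k : SC F s) (x : Ty.D F (.prod .fld Ma)) :
    (add1P : Pr s (.prod .fld Ma) Ma).cost v k x ≤ 40 := by
  obtain ⟨κ, y⟩ := x
  rcases y with _ | ⟨_ | ⟨x, xs⟩, rs⟩ <;> simp [add1P]

/-- `(1 + κ) - κ y`; input `(κ, y)` -/
def adjP : Pr s (.prod .fld Ma) Ma :=
  .comp (.pair .fst (mapP (mapP (.comp (.pair (.comp .fst .neg) .snd) .mul)))) add1P

@[simp] theorem val_adjP (v : SV F s) (x : Ty.D F (.prod .fld Ma)) :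
    (adjP : Pr s (.prod .fld Ma) Ma).val v x = adj (x.1 : F) x.2 := by
  obtain ⟨κ, y⟩ := x
  simp [adjP, adj]

theorem cost_adjP (v : SV F s) (k : SC F s) (x : Ty.D F (.prod .fld Ma)) (w : ℕ)
    (hw : Sh w (x.2 : List (List F))) :
    (adjP : Pr s (.prod .fld Ma) Ma).cost v k x ≤ (20 * w + 20) * List.length x.2 + 60 := by
  obtain ⟨κ, y⟩ := x
  have h1 := cost_mapP_le (s := s) (c := .fld) (a := Po) (b := Po)
    (mapP (.comp (.pair (.comp .fst .neg) .snd) .mul)) v k (κ, y) (19 * w + 5) (by
      intro r hr
      have h2 := cost_mapP_le (s := s) (c := .fld) (a := .fld) (b := .fld)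
        (.comp (.pair (.comp .fst .neg) .snd) .mul) v k (κ, r) 6 (fun _ _ => by simp)
      have h3 : List.length r = w := hw r hr
      simp only [h3] at h2
      simp only at h2 ⊢
      omega)
  have h4 := cost_add1P (s := s) v k (κ, List.map (fun r => List.map (fun z => -κ * z) r) y)
  simp [adjP] at h1 h4 ⊢
  nlinarith

theorem adj_spec {κ : F} {y : List (List F)} {w : ℕ} (hw : 1 ≤ w) (hy : Sh w y)
    (hy1 : 1 ≤ y.length) :
    Sh w (adj κ y) ∧ (adj κ y).length = y.length ∧
    ∀ (R : Type) [CommRing R] [Algebra F R] (τ : R),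
      rp τ (adj κ y) = C (1 + algebraMap F R κ) - C (algebraMap F R κ) * rp τ y := by
  have hneg : ∀ (R : Type) [CommRing R] [Algebra F R] (τ : R) (r : List F),
      aeval τ (pol (r.map (fun z => -κ * z))) = -(algebraMap F R κ) * aeval τ (pol r) := by
    intro R _ _ τ r
    induction r with
    | nil => simp [pol]
    | cons x r ih =>
      simp only [List.map_cons, pol, map_add, map_mul, aeval_C, aeval_X, ih, map_neg]
      ring
  have hneg2 : ∀ (R : Type) [CommRing R] [Algebra F R] (τ : R) (y : List (List F)),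
      rp τ (y.map (fun r => r.map (fun z => -κ * z))) = -(C (algebraMap F R κ)) * rp τ y := by
    intro R _ _ τ y
    unfold rp
    induction y with
    | nil => simp [pol]
    | cons r y ih =>
      simp only [List.map_cons, pol, hneg, ih]
      simp only [C_mul, C_neg]
      ring
  cases y with
  | nil => simp at hy1
  | cons r rs =>
    have hr : r.length = w := hy r (by simp)
    cases r with
    | nil => simp at hr; omega
    | cons x xs =>
      refine ⟨?_, ?_, ?_⟩
      · intro r' hr'
        simp only [adj, List.map_cons, add1, List.mem_cons, List.mem_map] at hr'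
        rcases hr' with rfl | ⟨r'', h, rfl⟩
        · simpa using hr
        · rw [List.length_map]
          exact hy r'' (by simp [h])
      · simp [adj, add1]
      · intro R _ _ τ
        have h1 : rp τ (adj κ ((x :: xs) :: rs)) = C (1 + algebraMap F R κ) +
            rp τ (((x :: xs) :: rs).map (fun r => r.map (fun z => -κ * z))) := by
          unfold rp
          simp only [adj, List.map_cons, add1, pol, map_add, map_mul, aeval_C, aeval_X, map_one,
            C_add]
          ring
        rw [h1, hneg2]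
        ring

end newton

section loop
variable {F : Type} [Field F] [DecidableEq F]
variable {s : List (Ty × Ty)}

/-- full context: truncated products, exponent, polynomial, inverse of the exponent -/
abbrev Gb : Ty := .prod Ga (.prod Un (.prod Ma .fld))

/-- Newton step -/
def ns (pm : Pr [] (.prod TB (.prod Un (.prod Ma Ma))) Ma)
    (tb : List (List F) × List (List F)) (wu : List Unit) (n c : ℕ) (Ph : List (List F)) (κ : F)
    (v : List (List F)) : List (List F) :=
  tm pm tb wu n v (adj κ (chain pm tb wu n v c Ph))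

/-- Newton step; input `(context, v)` -/
def nsP (pm : Pr [] (.prod TB (.prod Un (.prod Ma Ma))) Ma) : Pr s (.prod Gb Ma) Ma :=
  .comp (.pair (.comp .fst .fst) (.pair .snd (.comp (.pair (.comp (.comp (.comp .fst .snd) .snd) .snd)
    (.comp (.pair (.pair (.comp .fst .fst) .snd)
      (.pair (.comp (.comp (.comp .fst .snd) .snd) .fst) (.comp (.comp .fst .snd) .fst)))
      (chainP pm))) adjP))) (tmP pm)

variable {pm : Pr [] (.prod TB (.prod Un (.prod Ma Ma))) Ma}

@[simp] theorem val_nsP (v : SV F s) (x : Ty.D F (.prod Gb Ma)) :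
    (nsP pm : Pr s (.prod Gb Ma) Ma).val v x =
      ns pm x.1.1.1 x.1.1.2.1 (List.length x.1.1.2.2) (List.length x.1.2.1) x.1.2.2.1 x.1.2.2.2
        x.2 := by
  simp [nsP, ns]

/-- Newton iteration; input `(context, (start, list))` -/
def nlP (pm : Pr [] (.prod TB (.prod Un (.prod Ma Ma))) Ma) : Pr s (.prod Gb (.prod Ma Un)) Ma :=
  foldP (.comp (.pair .fst (.comp .snd .fst)) (nsP pm))

@[simp] theorem val_nlP (v : SV F s) (x : Ty.D F (.prod Gb (.prod Ma Un))) :
    (nlP pm : Pr s (.prod Gb (.prod Ma Un)) Ma).val v x =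
      (ns pm x.1.1.1 x.1.1.2.1 (List.length x.1.1.2.2) (List.length x.1.2.1) x.1.2.2.1
        x.1.2.2.2)^[List.length x.2.2] x.2.1 := by
  obtain ⟨⟨⟨t, wu, U⟩, cu, Ph, κ⟩, y, l⟩ := x
  simp only [nlP, val_foldP, val_comp, val_pair, val_fst, val_snd, val_nsP]
  exact foldl_const (ns pm t wu (List.length U) (List.length cu) Ph κ) l y

variable {C0 : ℕ} {tb : List (List F) × List (List F)} {w : ℕ}

/-- shape of the iterates -/
theorem ns_shape (hM : Mul pm C0 tb w) {n c : ℕ} {Ph v : List (List F)} {κ : F} (hw : 1 ≤ w)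
    (hn : 1 ≤ n) (hPh : Sh w Ph) (hPn : Ph.length = n) (hv : Sh w v) (hv1 : 1 ≤ v.length) :
    Sh w (ns pm tb (un w) n c Ph κ v) ∧ 1 ≤ (ns pm tb (un w) n c Ph κ v).length ∧
      (ns pm tb (un w) n c Ph κ v).length ≤ n := by
  obtain ⟨h1, h2, _⟩ := chain_spec hM hv c hPh hPn
  obtain ⟨h4, h5, _⟩ := adj_spec (κ := κ) hw h1 (by rw [h2]; exact hn)
  obtain ⟨h7, h8, _⟩ := tm_spec hM (n := n) hv h4
  unfold ns
  refine ⟨h7, ?_, ?_⟩
  · rw [h8, h5, h2]; omega
  · rw [h8]; omega

theorem ns_spec (hM : Mul pm C0 tb w) {n c : ℕ} {Ph v : List (List F)} {κ : F} (hw : 1 ≤ w)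
    (hn : 1 ≤ n) (hPh : Sh w Ph) (hPn : Ph.length = n) (hv : Sh w v)
    (R : Type) [CommRing R] [Algebra F R] (τ : R) (hτ : τ ^ w = 0) (Sx : R[X])
    (hS : (X : R[X]) ^ n ∣ Sx ^ c - rp τ Ph) (hκ : algebraMap F R κ * c = 1) (a : ℕ)
    (h : (X : R[X]) ^ a ∣ Sx * rp τ v - 1) :
    (X : R[X]) ^ (min (2 * a) n) ∣ Sx * rp τ (ns pm tb (un w) n c Ph κ v) - 1 := by
  obtain ⟨h1, h2, h3⟩ := chain_spec hM hv c hPh hPn
  obtain ⟨h4, h5, h6⟩ := adj_spec (κ := κ) hw h1 (by rw [h2]; exact hn)
  obtain ⟨h7, h8, h9⟩ := tm_spec hM (n := n) hv h4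
  have e3 := h3 R τ hτ
  have e9 := h9 R τ hτ
  rw [h6 R τ] at e9
  refine newton_step Sx (rp τ v) _ (rp τ (chain pm tb (un w) n v c Ph)) (algebraMap F R κ) c n a
    hκ h ?_ e9
  have e : Sx ^ c * rp τ v ^ c - rp τ (chain pm tb (un w) n v c Ph) =
      (Sx ^ c - rp τ Ph) * rp τ v ^ c +
      (rp τ Ph * rp τ v ^ c - rp τ (chain pm tb (un w) n v c Ph)) := by ring
  rw [e]
  exact dvd_add (dvd_mul_of_dvd_left hS _) e3

theorem loop_shape (hM : Mul pm C0 tb w) {n c : ℕ} {Ph v : List (List F)} {κ : F} (hw : 1 ≤ w)
    (hn : 1 ≤ n) (hPh : Sh w Ph) (hPn : Ph.length = n) (hv : Sh w v) (hv1 : 1 ≤ v.length)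
    (hvn : v.length ≤ n) (k : ℕ) :
    Sh w ((ns pm tb (un w) n c Ph κ)^[k] v) ∧ 1 ≤ ((ns pm tb (un w) n c Ph κ)^[k] v).length ∧
      ((ns pm tb (un w) n c Ph κ)^[k] v).length ≤ n := by
  induction k with
  | zero => exact ⟨hv, hv1, hvn⟩
  | succ k ih =>
    rw [Function.iterate_succ_apply']
    exact ns_shape hM hw hn hPh hPn ih.1 ih.2.1

theorem loop_spec (hM : Mul pm C0 tb w) {n c : ℕ} {Ph v : List (List F)} {κ : F} (hw : 1 ≤ w)
    (hn : 1 ≤ n) (hPh : Sh w Ph) (hPn : Ph.length = n) (hv : Sh w v) (hv1 : 1 ≤ v.length)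
    (hvn : v.length ≤ n)
    (R : Type) [CommRing R] [Algebra F R] (τ : R) (hτ : τ ^ w = 0) (Sx : R[X])
    (hS : (X : R[X]) ^ n ∣ Sx ^ c - rp τ Ph) (hκ : algebraMap F R κ * c = 1)
    (h : (X : R[X]) ^ 1 ∣ Sx * rp τ v - 1) (k : ℕ) :
    (X : R[X]) ^ (min (2 ^ k) n) ∣ Sx * rp τ ((ns pm tb (un w) n c Ph κ)^[k] v) - 1 := by
  induction k with
  | zero =>
    have : min (2 ^ 0) n = 1 := by rw [pow_zero]; omega
    rw [this]
    exact h
  | succ k ih =>
    rw [Function.iterate_succ_apply']
    have h1 := ns_spec hM hw hn hPh hPn (loop_shape hM hw hn hPh hPn hv hv1 hvn k).1 R τ hτ Sx hS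
      hκ _ ih
    refine dvd_trans (pow_dvd_pow _ ?_) h1
    rw [pow_succ]
    omega

/-- cost of the Newton step -/
theorem cost_nsP (hM : Mul pm C0 tb w) (hmono : ∀ a b, a ≤ b → mu a ≤ mu b) (vv : SV F s)
    (k : SC F s) (U : List (List F)) {cu : List Unit} {Ph v : List (List F)} {κ : F} (hw : 1 ≤ w)
    (hn : 1 ≤ U.length) (hPh : Sh w Ph) (hPn : Ph.length = U.length) (hv : Sh w v)
    (hvn : v.length ≤ U.length) :
    (nsP pm : Pr s (.prod Gb Ma) Ma).cost vv k (((tb, (un w, U)), (cu, (Ph, κ))), v) ≤
      (C0 * mu (w * (2 * U.length) + 1) + 24 * U.length + 70) * (cu.length + 1) +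
      (20 * w + 20) * U.length + 200 := by
  obtain ⟨h1, h2, _⟩ := chain_spec hM hv cu.length hPh hPn
  obtain ⟨h4, h5, _⟩ := adj_spec (κ := κ) hw h1 (by rw [h2]; exact hn)
  have e1 := cost_chainP (s := s) hM hmono vv k U hv hvn hPh hPn cu
  have e2 := cost_adjP (s := s) vv k (κ, chain pm tb (un w) U.length v cu.length Ph) w h1
  have e3 := cost_tmP (s := s) hM vv k U hv h4
  simp only [h2] at e2
  have e4 : C0 * mu (w * (v.length + (adj κ (chain pm tb (un w) U.length v cu.length Ph)).length)
      + 1) ≤ C0 * mu (w * (2 * U.length) + 1) := by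
    apply Nat.mul_le_mul_left
    apply hmono
    rw [h5, h2]
    have : v.length + U.length ≤ 2 * U.length := by omega
    have := Nat.mul_le_mul_left w this
    omega
  simp only [nsP, cost_comp, cost_pair, cost_fst, cost_snd, val_comp, val_pair, val_fst, val_snd,
    val_chainP, val_adjP]
  nlinarith

theorem cost_nlP (hM : Mul pm C0 tb w) (hmono : ∀ a b, a ≤ b → mu a ≤ mu b) (vv : SV F s)
    (k : SC F s) (U : List (List F)) {cu : List Unit} {Ph v : List (List F)} {κ : F} (hw : 1 ≤ w)
    (hn : 1 ≤ U.length) (hPh : Sh w Ph) (hPn : Ph.length = U.length) (hv : Sh w v)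
    (hv1 : 1 ≤ v.length) (hvn : v.length ≤ U.length) (l : List Unit) :
    (nlP pm : Pr s (.prod Gb (.prod Ma Un)) Ma).cost vv k
      (((tb, (un w, U)), (cu, (Ph, κ))), (v, l)) ≤
      ((C0 * mu (w * (2 * U.length) + 1) + 24 * U.length + 70) * (cu.length + 1) +
      (20 * w + 20) * U.length + 240) * l.length + 14 := by
  have h := cost_foldP_le (s := s) (c := Gb) (b := Ma) (a := .unit)
    (.comp (.pair .fst (.comp .snd .fst)) (nsP pm)) vv k
    (((tb, (un w, U)), (cu, (Ph, κ))), (v, l))
    ((C0 * mu (w * (2 * U.length) + 1) + 24 * U.length + 70) * (cu.length + 1) +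
      (20 * w + 20) * U.length + 210)
    (fun y => Sh w (y : List (List F)) ∧ 1 ≤ List.length y ∧ List.length y ≤ U.length)
    ⟨hv, hv1, hvn⟩
    (fun y z hy _ => by
      simp only [val_comp, val_pair, val_fst, val_snd, val_nsP]
      exact ns_shape hM hw hn hPh hPn hy.1 hy.2.1)
    (fun y z hy _ => by
      have e := cost_nsP (s := s) hM hmono vv k U (cu := cu) (κ := κ) hw hn hPh hPn hy.1 hy.2.2
      simp only [cost_comp, cost_pair, cost_fst, cost_snd, val_comp, val_pair, val_fst,
        val_snd] at e ⊢
      omega)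
  unfold nlP
  simp only at h ⊢
  nlinarith

end loop

section final
variable {F : Type} [Field F] [DecidableEq F]
variable {s : List (Ty × Ty)} {a : Ty}

/-- fuel -/
def fuelP : Pr s (.prod Po Un) Po := .comp (mapP (c := Po) (a := .unit) (b := Po) .fst) flatP

theorem length_val_fuelP (v : SV F s) (x : Ty.D F (.prod Po Un)) :
    List.length ((fuelP : Pr s (.prod Po Un) Po).val v x) =
      List.length x.2 * List.length x.1 := by
  obtain ⟨q, e⟩ := x
  simp [fuelP]

theorem cost_fuelP (v : SV F s) (k : SC F s) (x : Ty.D F (.prod Po Un)) :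
    (fuelP : Pr s (.prod Po Un) Po).cost v k x ≤
      (20 * List.length x.1 + 90) * List.length x.2 + 60 := by
  obtain ⟨q, e⟩ := x
  have h1 := cost_mapP_le (s := s) (c := Po) (a := .unit) (b := Po) .fst v k (q, e) 1
    (fun _ _ => by simp)
  have h2 := cost_flatP (s := s) (a := .fld) v k (List.map (fun _ => q) e) q.length (by
    intro y hy
    simp at hy
    rw [← hy.2])
  simp [fuelP] at h1 h2 ⊢
  nlinarith

/-- width in unary -/
def wuP : Pr s Ma Un :=
  onL .id .nil (.comp (.pair .star (.comp .snd .fst)) (mapP (c := .unit) .star))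

theorem val_wuP (v : SV F s) (x : List (List F)) (w : ℕ) (hx : Sh w x) (h1 : 1 ≤ x.length) :
    (wuP : Pr s Ma Un).val v x = un w := by
  cases x with
  | nil => simp at h1
  | cons r rs =>
    have hr : r.length = w := hx r (by simp)
    simp only [wuP, val_onL, val_id, lcase_cons, val_comp, val_pair, val_star, val_snd, val_fst,
      val_mapP]
    rw [← hr]
    unfold un
    clear hx h1 hr
    induction r with
    | nil => rfl
    | cons y r ih =>
      simp only [List.map_cons, List.length_cons, List.replicate_succ]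
      rw [← ih]

theorem cost_wuP (v : SV F s) (k : SC F s) (x : List (List F)) (w : ℕ) (hx : Sh w x) :
    (wuP : Pr s Ma Un).cost v k x ≤ 14 * w + 30 := by
  cases x with
  | nil => simp [wuP]
  | cons r rs =>
    have hr : r.length = w := hx r (by simp)
    have h1 := cost_mapP_le (s := s) (c := .unit) (a := .fld) (b := .unit) .star v k ((), r) 1
      (fun _ _ => by simp)
    simp [wuP, hr] at h1 ⊢
    omega

/-- length in unary -/
def UP : Pr s (.prod Un Ma) Ma := .comp (.pair .nil evP) .cons

@[simp] theorem val_UP (v : SV F s) (x : Ty.D F (.prod Un Ma)) :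
    (UP : Pr s (.prod Un Ma) Ma).val v x =
      ([] : List F) :: evf (List.length x.2) (List.length x.1) x.2 := by
  simp [UP]

theorem cost_UP (v : SV F s) (k : SC F s) (x : Ty.D F (.prod Un Ma))
    (hn : 1 ≤ List.length x.1) :
    (UP : Pr s (.prod Un Ma) Ma).cost v k x ≤ 64 * (List.length x.2 + List.length x.1) + 20 := by
  have h := cost_evP' (s := s) (a := Po) (b := .unit) v k x hn
  simp [UP] at h ⊢
  omega

/-- the constant one -/
def oneP : Pr s Un Ma :=
  .comp (.pair (.comp (.pair .id (.pair .zero (.comp (.pair .one .nil) .cons))) fitP) .nil) .cons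

@[simp] theorem val_oneP (v : SV F s) (x : Ty.D F Un) :
    (oneP : Pr s Un Ma).val v x = [fit (List.length x) (0 : F) [1]] := by
  simp [oneP]

theorem cost_oneP (v : SV F s) (k : SC F s) (x : Ty.D F Un) :
    (oneP : Pr s Un Ma).cost v k x ≤ 20 * List.length x + 20 := by
  have h := cost_fitP (s := s) (a := .fld) (b := .unit) v k (x, ((0 : F), [(1 : F)]))
  simp [oneP] at h ⊢
  omega

/-- the reversed polynomial; input `(U, (one, P))` -/
def PhP : Pr s (.prod Ma (.prod Ma Ma)) Ma :=
  .comp (.comp (.pair .fst (.comp (.pair (.comp .snd .fst) (.comp (.comp .snd .snd) revP)) appP))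
    splitP) .fst

@[simp] theorem val_PhP (v : SV F s) (x : Ty.D F (.prod Ma (.prod Ma Ma))) :
    (PhP : Pr s (.prod Ma (.prod Ma Ma)) Ma).val v x =
      List.take (List.length x.1) ((x.2.1 : List (List F)) ++ List.reverse x.2.2) := by
  simp [PhP]

theorem cost_PhP (v : SV F s) (k : SC F s) (x : Ty.D F (.prod Ma (.prod Ma Ma))) :
    (PhP : Pr s (.prod Ma (.prod Ma Ma)) Ma).cost v k x ≤
      24 * List.length x.1 + 20 * List.length x.2.1 + 33 * List.length x.2.2 + 60 := by
  obtain ⟨U, o, P⟩ := x
  have h1 := cost_revP (s := s) (a := Po) v k P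
  have h2 := cost_appP (s := s) (a := Po) v k (o, List.reverse P)
  have h3 := cost_splitP (s := s) (a := Po) (b := Po) v k (U, o ++ List.reverse P)
  simp [PhP] at h1 h2 h3 ⊢
  omega

/-- tail -/
def tailP : Pr s (.list a) (.list a) := onL .id .nil (.comp .snd .snd)

@[simp] theorem val_tailP (v : SV F s) (x : Ty.D F (.list a)) :
    (tailP : Pr s (.list a) (.list a)).val v x = List.tail (x : List _) := by
  simp only [tailP, val_onL, val_id]
  cases x <;> simp

theorem cost_tailP (v : SV F s) (k : SC F s) (x : Ty.D F (.list a)) :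
    (tailP : Pr s (.list a) (.list a)).cost v k x ≤ 10 := by
  simp only [tailP, cost_onL, cost_id]
  cases x <;> simp

/-- the context; input `(table, (c, P))` -/
def ctxP : Pr s (.prod TB (.prod Un Ma)) (.prod Gb Ma) :=
  lt (.comp (.comp .snd .snd) wuP) (lt (.comp (.comp .fst .snd) UP) (lt (.comp (.comp .fst .snd) oneP)
    (.pair (.pair (.pair (.comp (.comp (.comp .fst .fst) .fst) .fst)
      (.pair (.comp (.comp .fst .fst) .snd) (.comp .fst .snd)))
      (.pair (.comp (.comp (.comp (.comp .fst .fst) .fst) .snd) .fst)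
        (.pair (.comp (.pair (.comp .fst .snd) (.pair .snd
          (.comp (.comp (.comp (.comp .fst .fst) .fst) .snd) .snd))) PhP)
          (.comp (.comp (.comp (.comp (.comp (.comp .fst .fst) .fst) .snd) .fst) chP) .inv)))) .snd)))

/-- the end; input `(context, one)` -/
def finP (pm : Pr [] (.prod TB (.prod Un (.prod Ma Ma))) Ma) : Pr s (.prod Gb Ma) Ma :=
  lt (.comp (.pair .fst (.pair .snd (.comp (.comp (.comp (.comp .fst .fst) .snd) .snd) lgP)))
    (nlP pm))
    (.comp (.comp (.comp (.pair (.pair (.comp (.comp .fst .fst) .fst) .snd)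
      (.pair (.comp (.comp (.comp (.comp .fst .fst) .snd) .snd) .fst)
        (.comp (.comp (.comp (.comp .fst .fst) .snd) .fst) tailP))) (chainP pm)) tailP) revP)

/-- the program -/
def rootP (pm : Pr [] (.prod TB (.prod Un (.prod Ma Ma))) Ma) :
    Pr s (.prod TB (.prod (.prod Po Un) (.prod Un Ma))) Ma :=
  .comp (.comp (.pair .fst (.comp (.pair (.comp (.comp .snd .fst) fuelP) (.comp .snd .snd))
    stripP)) ctxP) (finP pm)

variable {pm : Pr [] (.prod TB (.prod Un (.prod Ma Ma))) Ma}

/-- context as a value -/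
def cx (tb : List (List F) × List (List F)) (w : ℕ) (x : List Unit × List (List F)) :
    Ty.D F Gb :=
  ((tb, (un w, ([] : List F) :: evf x.2.length x.1.length x.2)), (x.1,
    (List.take (evf x.2.length x.1.length x.2).length.succ
      (fit w (0 : F) [1] :: x.2.reverse), ((x.1.length : ℕ) : F)⁻¹)))

theorem val_ctxP (v : SV F s) (tb : List (List F) × List (List F))
    (x : List Unit × List (List F)) (w : ℕ) (hx : Sh w x.2) (h1 : 1 ≤ x.2.length) :
    (ctxP : Pr s (.prod TB (.prod Un Ma)) _).val v (tb, x) =
      (cx tb w x, [fit w (0 : F) [1]]) := by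
  obtain ⟨cu, P⟩ := x
  simp only at hx h1
  have hwl : (un w).length = w := by simp [un]
  simp only [ctxP, val_lt, val_comp, val_snd, val_fst, val_wuP v P w hx h1, val_pair, val_UP,
    val_oneP, val_PhP, val_chP, val_inv, cx, hwl]
  simp

theorem cost_ctxP (v : SV F s) (k : SC F s) (tb : List (List F) × List (List F))
    (x : List Unit × List (List F)) (w m : ℕ) (hx : Sh w x.2) (h1 : 1 ≤ x.2.length)
    (hc : 1 ≤ x.1.length) (hm : x.2.length = m * x.1.length) :
    (ctxP : Pr s (.prod TB (.prod Un Ma)) _).cost v k (tb, x) ≤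
      300 * (x.2.length + x.1.length + w + 2) := by
  obtain ⟨cu, P⟩ := x
  simp only at hx h1 hc hm
  have hwl : (un w).length = w := by simp [un]
  have hlen : (evf P.length cu.length P).length = m :=
    length_evf cu.length hc m P.length P le_rfl (by rw [hm]; ring)
  have hmP : m ≤ P.length := by rw [hm]; nlinarith
  have e1 := cost_wuP (s := s) v k P w hx
  have e2 := cost_UP (s := s) v k (cu, P) hc
  have e3 := cost_oneP (s := s) v k (un w : List Unit)
  have e4 := cost_PhP (s := s) v k ((([] : List F) :: evf P.length cu.length P),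
    ([fit w (0 : F) [1]], P))
  have e5 := cost_chP (s := s) (a := .unit) (F := F) v k cu
  simp only [ctxP, cost_lt, cost_comp, cost_snd, cost_fst, cost_pair, cost_inv, val_lt, val_comp,
    val_snd, val_fst, val_wuP v P w hx h1, val_pair, val_UP, val_oneP, hwl, List.length_cons,
    List.length_nil, hlen] at e1 e2 e3 e4 e5 ⊢
  omega

end final

section last
variable {F : Type} [Field F] [DecidableEq F]
variable {s : List (Ty × Ty)}
variable {pm : Pr [] (.prod TB (.prod Un (.prod Ma Ma))) Ma}

/-- approximate root, highest coefficients first -/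
def apx (pm : Pr [] (.prod TB (.prod Un (.prod Ma Ma))) Ma) (tb : List (List F) × List (List F))
    (wu : List Unit) (n c : ℕ) (Ph : List (List F)) (κ : F) (o : List (List F)) :
    List (List F) :=
  chain pm tb wu n ((ns pm tb wu n c Ph κ)^[Nat.clog 2 n] o) (c - 1) Ph

theorem val_finP (v : SV F s) (tb : List (List F) × List (List F)) (wu : List Unit)
    (U : List (List F)) (cu : List Unit) (Ph : List (List F)) (κ : F) (o : List (List F)) :
    (finP pm : Pr s (.prod Gb Ma) Ma).val v (((tb, (wu, U)), (cu, (Ph, κ))), o) =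
      List.reverse (List.tail (apx pm tb wu U.length cu.length Ph κ o)) := by
  simp only [finP, val_lt, val_comp, val_pair, val_fst, val_snd, val_nlP, val_chainP,
    val_tailP, val_revP, apx, List.length_tail]
  rw [val_lgP]

theorem cost_finP {C0 : ℕ} {tb : List (List F) × List (List F)} {w : ℕ}
    (hM : Mul pm C0 tb w) (hmono : ∀ a b, a ≤ b → mu a ≤ mu b) (vv : SV F s)
    (k : SC F s) (U : List (List F)) {cu : List Unit} {Ph o : List (List F)} {κ : F} (hw : 1 ≤ w)
    (hn : 1 ≤ U.length) (hPh : Sh w Ph) (hPn : Ph.length = U.length) (ho : Sh w o)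
    (ho1 : o.length = 1) :
    (finP pm : Pr s (.prod Gb Ma) Ma).cost vv k (((tb, (un w, U)), (cu, (Ph, κ))), o) ≤
      ((C0 * mu (w * (2 * U.length) + 1) + 24 * U.length + 70) * (cu.length + 1) +
      (20 * w + 20) * U.length + 240) * (Nat.clog 2 U.length + 1) + 160 * U.length + 200 := by
  obtain ⟨h1, h2, h3⟩ := loop_shape (κ := κ) hM (c := cu.length) hw hn hPh hPn ho (by omega)
    (by omega) (Nat.clog 2 U.length)
  obtain ⟨h4, h5, _⟩ := chain_spec hM h1 (cu.length - 1) hPh hPn
  have e0 := cost_lgP (s := s) (a := Po) vv k U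
  have e1 := cost_nlP (s := s) hM hmono vv k U (cu := cu) (κ := κ) hw hn hPh hPn ho (by omega)
    (by omega) ((lgP : Pr s (.list Po) _).val vv U)
  rw [val_lgP] at e1
  have e2 := cost_chainP (s := s) hM hmono vv k U h1 h3 hPh hPn cu.tail
  have e3 := cost_tailP (s := s) (a := Po) vv k
    (chain pm tb (un w) U.length ((ns pm tb (un w) U.length cu.length Ph κ)^[Nat.clog 2 U.length] o)
      (cu.length - 1) Ph)
  have e4 := cost_revP (s := s) (a := Po) vv k (List.tail
    (chain pm tb (un w) U.length ((ns pm tb (un w) U.length cu.length Ph κ)^[Nat.clog 2 U.length] o)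
      (cu.length - 1) Ph))
  have e5 := cost_tailP (s := s) (a := .unit) vv k cu
  have e6 : (C0 * mu (w * (2 * U.length) + 1) + 24 * U.length + 70) * cu.tail.length ≤
      (C0 * mu (w * (2 * U.length) + 1) + 24 * U.length + 70) * (cu.length + 1) := by
    apply Nat.mul_le_mul_left
    rw [List.length_tail]
    omega
  simp only [finP, cost_lt, cost_comp, cost_pair, cost_fst, cost_snd, val_comp, val_pair,
    val_fst, val_snd, val_nlP, val_chainP, val_tailP, List.length_tail, h5] at e0 e1 e2 e3 e4 e5 e6 ⊢
  rw [val_lgP]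
  have e7 : ((C0 * mu (w * (2 * U.length) + 1) + 24 * U.length + 70) * (cu.length + 1) +
      (20 * w + 20) * U.length + 240) * (Nat.clog 2 U.length + 1) =
      ((C0 * mu (w * (2 * U.length) + 1) + 24 * U.length + 70) * (cu.length + 1) +
      (20 * w + 20) * U.length + 240) * Nat.clog 2 U.length +
      ((C0 * mu (w * (2 * U.length) + 1) + 24 * U.length + 70) * (cu.length + 1) +
      (20 * w + 20) * U.length + 240) := by ring
  rw [e7]
  generalize ((C0 * mu (w * (2 * U.length) + 1) + 24 * U.length + 70) * (cu.length + 1) +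
      (20 * w + 20) * U.length + 240) * Nat.clog 2 U.length = Y1 at *
  generalize (C0 * mu (w * (2 * U.length) + 1) + 24 * U.length + 70) * (cu.length + 1) = Y2 at *
  generalize (C0 * mu (w * (2 * U.length) + 1) + 24 * U.length + 70) * (cu.length - 1) = Y3 at *
  generalize (20 * w + 20) * U.length = Y4 at *
  omega

theorem apx_spec {C0 : ℕ} {tb : List (List F) × List (List F)} {w : ℕ}
    (hM : Mul pm C0 tb w) {n c : ℕ} {Ph o : List (List F)} {κ : F} (hw : 1 ≤ w)
    (hn : 1 ≤ n) (hPh : Sh w Ph) (hPn : Ph.length = n) (ho : Sh w o) (ho1 : o.length = 1)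
    (hc : 1 ≤ c)
    (R : Type) [CommRing R] [Algebra F R] (τ : R) (hτ : τ ^ w = 0) (Sx : R[X])
    (hS : (X : R[X]) ^ n ∣ Sx ^ c - rp τ Ph) (hκ : algebraMap F R κ * c = 1)
    (h : (X : R[X]) ^ 1 ∣ Sx * rp τ o - 1) :
    Sh w (apx pm tb (un w) n c Ph κ o) ∧ (apx pm tb (un w) n c Ph κ o).length = n ∧
      (X : R[X]) ^ n ∣ Sx - rp τ (apx pm tb (un w) n c Ph κ o) := by
  have hv := (loop_shape (κ := κ) hM (c := c) hw hn hPh hPn ho (by omega) (by omega)
    (Nat.clog 2 n)).1
  have h1 := loop_spec hM hw hn hPh hPn ho (by omega) (by omega) R τ hτ Sx hS hκ h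
    (Nat.clog 2 n)
  have h2 : min (2 ^ (Nat.clog 2 n)) n = n := by
    have := Nat.le_pow_clog (b := 2) (by norm_num) n
    omega
  rw [h2] at h1
  obtain ⟨h4, h5, h6⟩ := chain_spec hM hv (c - 1) hPh hPn
  refine ⟨h4, h5, ?_⟩
  have h7 := h6 R τ hτ
  unfold apx
  set V := rp τ ((ns pm tb (un w) n c Ph κ)^[Nat.clog 2 n] o) with hV
  set q := rp τ (chain pm tb (un w) n ((ns pm tb (un w) n c Ph κ)^[Nat.clog 2 n] o) (c - 1) Ph)
    with hq
  obtain ⟨c', rfl⟩ : ∃ c', c = c' + 1 := ⟨c - 1, by omega⟩
  rw [Nat.add_sub_cancel] at h7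
  have h8 : (X : R[X]) ^ n ∣ (Sx * V) ^ c' - 1 ^ c' := h1.trans (sub_dvd_pow_sub_pow _ _ _)
  rw [one_pow] at h8
  have e : Sx - q = -(Sx * ((Sx * V) ^ c' - 1)) + (Sx ^ (c' + 1) - rp τ Ph) * V ^ c' +
      (rp τ Ph * V ^ c' - q) := by
    rw [mul_pow, pow_succ]
    ring
  rw [e]
  exact dvd_add (dvd_add (dvd_mul_of_dvd_right h8 _).neg_right (dvd_mul_of_dvd_left hS _)) h7

theorem pol_one (w : ℕ) (hw : 1 ≤ w) : pol (fit w (0 : F) [1]) = 1 := by
  ext j
  rw [pol_coeff, coeff_one]
  by_cases hj : j < w
  · rw [getD_fit _ _ _ _ hj]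
    cases j <;> simp
  · rw [List.getD_eq_default _ _ (by rw [length_fit]; omega), if_neg (by omega)]

theorem biv_rev (P : List (List F)) (w : ℕ) (hw : 1 ≤ w) (hd : (mbiv P).natDegree = P.length) :
    biv (fit w (0 : F) [1] :: P.reverse) = (mbiv P).reverse := by
  ext1 i
  rw [biv_coeff, coeff_reverse, hd]
  cases i with
  | zero =>
    rw [revAt_le (Nat.zero_le _), Nat.sub_zero, mbiv_coeff_self, List.getD_cons_zero,
      pol_one w hw]
  | succ i =>
    rw [List.getD_cons_succ]
    by_cases hi : i < P.length
    · rw [revAt_le (by omega), mbiv_coeff_lt P _ (by omega)]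
      congr 1
      rw [List.getD_eq_getElem _ _ (by simpa using hi), List.getElem_reverse,
        List.getD_eq_getElem _ _ (by omega)]
      congr 1
      omega
    · rw [revAt_eq_self_of_lt (by omega), mbiv_coeff_gt P _ (by omega),
        List.getD_eq_default _ _ (by simpa using hi)]
      rfl

theorem reverse_pow' (S : F[X][X]) (c : ℕ) : (S ^ c).reverse = S.reverse ^ c := by
  induction c with
  | zero =>
    rw [pow_zero, pow_zero, ← C_1, reverse_C]
  | succ c ih => rw [pow_succ, reverse_mul_of_domain, ih, pow_succ]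

theorem root_correct {C0 : ℕ} {tb : List (List F) × List (List F)} {w m c : ℕ}
    (hM : Mul pm C0 tb w) (hm : 1 ≤ m) {S : F[X][X]} (hS : S.Monic) (hSd : S.natDegree = m)
    (hTD : TD S m) {x : List Unit × List (List F)} (h : Inv w m c S x)
    (hc0 : ((c : ℕ) : F) ≠ 0) (hw : m + 1 ≤ w) (v : SV F s) :
    let r : List (List F) := (finP pm : Pr s (.prod Gb Ma) Ma).val v
      (cx tb w x, [fit w (0 : F) [1]])
    mbiv r = S ∧ r.length = m ∧ Sh w r := by
  obtain ⟨cu, P⟩ := x
  obtain ⟨hc, h1, hP, hSh, hSP⟩ := h
  simp only at hc hP hSh hSP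
  have hw1 : 1 ≤ w := by omega
  have hPlen : (evf P.length cu.length P).length = m :=
    length_evf cu.length (by omega) m P.length P le_rfl (by rw [hP, hc]; ring)
  intro r
  have hr : r = List.reverse (List.tail (apx pm tb (un w) (m + 1) c
      (List.take (m + 1) (fit w (0 : F) [1] :: P.reverse)) ((c : ℕ) : F)⁻¹
      [fit w (0 : F) [1]])) := by
    simp only [r, cx]
    rw [val_finP]
    rw [hc] at hPlen
    simp only [List.length_cons, hc, hPlen, Nat.succ_eq_add_one]
  set L := fit w (0 : F) [1] :: P.reverse with hL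
  have hLsh : Sh w L := by
    intro y hy
    rw [hL, List.mem_cons] at hy
    rcases hy with rfl | hy
    · exact length_fit _ _ _
    · exact hSh y (List.mem_reverse.mp hy)
  have hLlen : L.length = m * c + 1 := by
    rw [hL, List.length_cons, List.length_reverse, hP]
  have hPhsh : Sh w (List.take (m + 1) L) := fun y hy => hLsh y (List.mem_of_mem_take hy)
  have hmc : m ≤ m * c := by nlinarith
  have hPhlen : (List.take (m + 1) L).length = m + 1 := by
    rw [List.length_take, hLlen]
    omega
  have hPd : (mbiv P).natDegree = P.length := by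
    rw [hSP, hS.natDegree_pow, hSd, hP, mul_comm]
  -- the ring
  let R := AdjoinRoot ((X : F[X]) ^ w)
  let τ : R := AdjoinRoot.root ((X : F[X]) ^ w)
  have hτ : τ ^ w = 0 := by
    have h2 : AdjoinRoot.mk ((X : F[X]) ^ w) (X ^ w) = 0 := AdjoinRoot.mk_self
    rw [map_pow, AdjoinRoot.mk_X] at h2
    exact h2
  let φ : F[X] →+* R := (aeval τ : F[X] →ₐ[F] R).toRingHom
  have hφ : ∀ f : F[X], φ f = AdjoinRoot.mk _ f := fun f => AdjoinRoot.aeval_eq f
  have hrp : ∀ l : List (List F), rp τ l = (biv l).map φ := fun l => rp_eq τ l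
  set Sx : R[X] := S.reverse.map φ with hSx
  have hSxc : Sx ^ c = rp τ L := by
    rw [hrp, hL, biv_rev P w hw1 hPd, hSP, reverse_pow', hSx, Polynomial.map_pow]
  have hdv : (X : R[X]) ^ (m + 1) ∣ Sx ^ c - rp τ (List.take (m + 1) L) := by
    rw [hSxc]
    exact rp_take τ L (m + 1)
  have hκ : algebraMap F R ((c : ℕ) : F)⁻¹ * c = 1 := by
    have : (c : R) = algebraMap F R ((c : ℕ) : F) := by rw [map_natCast]
    rw [this, ← map_mul, inv_mul_cancel₀ hc0, map_one]
  have hone : rp τ [fit w (0 : F) [1]] = 1 := by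
    rw [hrp]
    have : biv [fit w (0 : F) [1]] = 1 := by
      simp [biv, pol, pol_one w hw1]
    rw [this, Polynomial.map_one]
  have hstart : (X : R[X]) ^ 1 ∣ Sx * rp τ [fit w (0 : F) [1]] - 1 := by
    rw [hone, mul_one, pow_one, X_dvd_iff, coeff_sub, hSx, coeff_map, coeff_zero_reverse,
      hS.leadingCoeff, map_one, coeff_one_zero, sub_self]
  obtain ⟨hs1, hs2, hs3⟩ := apx_spec (κ := ((c : ℕ) : F)⁻¹) hM hw1 (by omega) hPhsh hPhlen
    (o := [fit w (0 : F) [1]]) (by
      intro y hy
      simp at hy
      rw [hy, length_fit]) (by simp) h1 R τ hτ Sx hdv hκ hstart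
  set a := apx pm tb (un w) (m + 1) c (List.take (m + 1) L) ((c : ℕ) : F)⁻¹
    [fit w (0 : F) [1]] with ha
  have hrl : r.length = m := by
    rw [hr, List.length_reverse, List.length_tail, hs2]
    omega
  have hrs : Sh w r := by
    intro y hy
    rw [hr, List.mem_reverse] at hy
    exact hs1 y (List.mem_of_mem_tail hy)
  refine ⟨?_, hrl, hrs⟩
  apply mbiv_eq_of r S hS (by rw [hSd, hrl])
  intro i hi j
  rw [hrl] at hi
  have hgd : r.getD i [] = a.getD (m - i) [] := by
    rw [hr]
    have hlt : i < (List.reverse (List.tail a)).length := by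
      rw [List.length_reverse, List.length_tail, hs2]; omega
    rw [List.getD_eq_getElem _ _ hlt, List.getElem_reverse, List.getElem_tail,
      List.getD_eq_getElem _ _ (by rw [hs2]; omega)]
    congr 1
    rw [List.length_tail, hs2]
    omega
  rw [hgd]
  have hcoef : Sx.coeff (m - i) = (rp τ a).coeff (m - i) := by
    rw [X_pow_dvd_iff] at hs3
    have := hs3 (m - i) (by omega)
    rw [coeff_sub] at this
    exact sub_eq_zero.mp this
  rw [hSx, coeff_map, hrp, coeff_map, biv_coeff, hφ, hφ, AdjoinRoot.mk_eq_mk,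
    coeff_reverse, hSd, revAt_le (by omega)] at hcoef
  have hmi : m - (m - i) = i := by omega
  rw [hmi, X_pow_dvd_iff] at hcoef
  by_cases hj : j < w
  · have := hcoef j hj
    rw [coeff_sub, pol_coeff] at this
    exact sub_eq_zero.mp this
  · rw [hTD i j (by omega), List.getD_eq_default]
    have : (a.getD (m - i) []).length = w := by
      apply hs1
      rw [List.getD_eq_getElem _ _ (by rw [hs2]; omega)]
      exact List.getElem_mem _
    rw [this]
    omega

end last

section top
variable {F : Type} [Field F] [DecidableEq F]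
variable {s : List (Ty × Ty)}

theorem cost_stripP_eq (v : SV F s) (k : SC F s) (wf : List F) (u : List Unit)
    (P : List (List F)) :
    (stripP : Pr s (.prod Po (.prod Un Ma)) (.prod Un Ma)).cost v k (wf, (u, P)) =
      goC (stripB (s := s)) .snd v k u.length (wf, (u, P)) + 5 := by
  simp only [stripP, cost_comp, cost_pair, cost_snd, cost_fst, cost_id, val_comp, val_pair,
    val_snd, val_fst, val_id, cost_recD]
  omega

theorem size_le_lgc (q : ℕ) : Nat.size q ≤ lgc q := by
  rw [Nat.size_le]
  unfold lgc
  calc q ≤ 2 ^ (Nat.clog 2 q) := Nat.le_pow_clog (by norm_num) q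
    _ < 2 ^ (Nat.clog 2 q + 1) := Nat.pow_lt_pow_right (by norm_num) (by omega)

theorem mul_mu_le (hsup : ∀ a b, mu a + mu b ≤ mu (a + b)) (a c : ℕ) : c * mu a ≤ mu (c * a) := by
  induction c with
  | zero => simp
  | succ c ih =>
    have := hsup (c * a) a
    have e1 : (c + 1) * mu a = c * mu a + mu a := by ring
    have e2 : (c + 1) * a = c * a + a := by ring
    rw [e1, e2]
    omega

end top

end S8

theorem specRoot (h1 : SpecMulR) (h0 : SpecUnits) : SpecRoot := by
  obtain ⟨pm, C0, hpm⟩ := h1
  obtain ⟨hmono, _, _, hsup, _, hle, _, hmul, _⟩ := h0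
  obtain ⟨C5, hC5⟩ := hmul 5
  refine ⟨S8.rootP pm, 2 * C0 * C5 + 8000, 1, ?_⟩
  intro K _ _ _ q e w c m tb P S hcard htb hc hm hS hSd hTD hSP hPl hPw hwm
  have hmc : m ≤ m * c := Nat.le_mul_of_pos_right m (by omega)
  have hcm : c ≤ m * c := Nat.le_mul_of_pos_left c (by omega)
  have hw1 : 1 ≤ w := by omega
  have hM : S8.Mul pm C0 tb w := ⟨fun a b ha hb => hpm K tb w a b htb hw1 ha hb⟩
  obtain ⟨p, hp⟩ := CharP.exists K
  obtain ⟨f', hpp, hf⟩ := FiniteField.card K p
  set f : ℕ := (f' : ℕ) with hfdef
  have hf1 : 1 ≤ f := f'.pos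
  have hF : ∀ z : K, z ^ (p ^ f) = z := by
    intro z
    rw [← hf]
    exact FiniteField.pow_card z
  have he : 1 ≤ e := by
    rcases Nat.eq_zero_or_pos e with h | h
    · exfalso
      have := Fintype.one_lt_card (α := K)
      rw [hcard, h, pow_zero] at this
      omega
    · exact h
  have hq : 1 ≤ Nat.size q := by
    rcases Nat.eq_zero_or_pos q with h | h
    · exfalso
      have := Fintype.one_lt_card (α := K)
      rw [hcard, h, zero_pow (by omega)] at this
      omega
    · exact Nat.size_pos.mpr h
  have hfe : f ≤ e * Nat.size q := by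
    have h2 : 2 ^ f ≤ p ^ f := Nat.pow_le_pow_left hpp.two_le f
    have h3 : p ^ f = q ^ e := by rw [← hf, hcard]
    have h4 : q ^ e ≤ (2 ^ (Nat.size q)) ^ e := Nat.pow_le_pow_left (Nat.lt_size_self q).le e
    rw [← pow_mul, mul_comm] at h4
    have h5 : 2 ^ f ≤ 2 ^ (e * Nat.size q) := by
      rw [h3] at h2
      exact h2.trans h4
    exact (Nat.pow_le_pow_iff_right (by norm_num)).mp h5
  -- the fuel
  set wf : List K := (S8.fuelP : Pr [] (.prod Po Un) Po).val () (bits K q, un e) with hwf
  have hbl : (bits K q).length = Nat.size q := by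
    simp [bits, Nat.size_eq_bits_len]
  have hul : ∀ n, (un n).length = n := by intro n; simp [un]
  have hwfl : wf.length = e * Nat.size q := by
    have := S8.length_val_fuelP (F := K) (s := []) () (bits K q, un e)
    rw [hwf, this]
    simp only [hul, hbl]
  have hInv : S8.Inv w m c S (un c, P) := ⟨hul c, hc, hPl, hPw, hSP⟩
  obtain ⟨c', hcc, hc0, hI⟩ := S8.strip_spec hpp hf1 hF hm hS hSd (n := wf.length)
    (by rw [hwfl]; exact hfe) c c (un c, P) hInv le_rfl
  set x' := S8.strip wf.length c (un c, P) with hx'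
  have hI1 := hI.h1
  have hIP := hI.hP
  have hIc := hI.hc
  have hP1 : 1 ≤ x'.2.length := by
    rw [hIP]
    exact Nat.mul_pos (by omega) (by omega)
  have hval : (S8.rootP pm : Pr [] _ _).val () (tb, ((bits K q, un e), (un c, P))) =
      (S8.finP pm : Pr [] _ _).val () (S8.cx tb w x', [fit w (0 : K) [1]]) := by
    have e1 := S8.val_stripP (F := K) (s := []) () (wf, (un c, P))
    simp only [hul] at e1
    simp only [S8.rootP, val_comp, val_pair, val_fst, val_snd]
    rw [← hwf, e1, ← hx', S8.val_ctxP (s := []) () tb x' w hI.hw hP1]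
  obtain ⟨r1, r2, r3⟩ := S8.root_correct (s := []) hM hm hS hSd hTD hI hc0 (by omega) ()
  refine ⟨?_, ?_, ?_, ?_⟩
  · rw [hval]; exact r1
  · rw [hval]; exact r2
  · rw [hval]; exact r3
  · -- cost
    have hlen0 : (S8.evf x'.2.length x'.1.length x'.2).length = m :=
      S8.length_evf x'.1.length (by omega) m x'.2.length x'.2 le_rfl (by rw [hIP, hIc]; ring)
    have hlen : (S8.evf x'.2.length c' x'.2).length = m := by rw [← hIc]; exact hlen0
    have c1 := S8.cost_fuelP (F := K) (s := []) () () (bits K q, un e)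
    have c2 := S8.cost_strip (s := []) hpp hf1 hF hm hS hSd wf (by rw [hwfl]; exact hfe) () () c c
      (un c, P) hInv le_rfl (by omega)
    have c3 := S8.cost_stripP_eq (F := K) (s := []) () () wf (un c) P
    have c4 := S8.cost_ctxP (s := []) () () tb x' w m hI.hw hP1 (by omega) (by rw [hIP, hIc])
    set L := fit w (0 : K) [1] :: x'.2.reverse with hL
    have hLsh : Sh w L := by
      intro y hy
      rw [hL, List.mem_cons] at hy
      rcases hy with rfl | hy
      · exact length_fit _ _ _
      · exact hI.hw y (List.mem_reverse.mp hy)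
    have hLlen : L.length = m * c' + 1 := by
      rw [hL, List.length_cons, List.length_reverse, hIP]
    have hmc' : m ≤ m * c' := Nat.le_mul_of_pos_right m (by omega)
    have c5 := S8.cost_finP (s := []) hM hmono () () (([] : List K) ::
      S8.evf x'.2.length x'.1.length x'.2) (cu := x'.1)
      (Ph := List.take (S8.evf x'.2.length x'.1.length x'.2).length.succ L)
      (κ := ((x'.1.length : ℕ) : K)⁻¹) (o := [fit w (0 : K) [1]]) hw1 (by simp)
      (fun y hy => hLsh y (List.mem_of_mem_take hy)) (by
        rw [List.length_take, hLlen, List.length_cons, hlen0]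
        omega) (by
        intro y hy
        simp at hy
        rw [hy, length_fit]) (by simp)
    simp only [List.length_cons, hIc, hlen] at c5
    -- units
    set Z := mu (w * (m * c) + 1) with hZ
    have f1 : w * (m * c) + 1 ≤ Z := hle _
    have hcc' : m * c' ≤ m * c := Nat.mul_le_mul_left m hcc
    have f2 : c' * mu (w * (2 * (m + 1)) + 1) ≤ C5 * Z := by
      have hwm1 : 1 ≤ w * m := Nat.mul_pos (by omega) (by omega)
      obtain ⟨N, hN⟩ : ∃ N, w * m = N + 1 := ⟨w * m - 1, by omega⟩
      have g1 : mu (w * (2 * (m + 1)) + 1) ≤ mu (5 * (w * m)) := by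
        apply hmono
        have g5 : w * (2 * (m + 1)) = 2 * (w * m) + 2 * w := by ring
        have g6 : w ≤ w * m := Nat.le_mul_of_pos_right w (by omega)
        rw [g5]
        omega
      have g2 : mu (5 * (w * m)) ≤ C5 * mu (w * m) := by
        rw [hN]; exact hC5 N
      have g3 : c' * mu (w * m) ≤ mu (c' * (w * m)) := S8.mul_mu_le hsup _ _
      have g4 : mu (c' * (w * m)) ≤ Z := by
        apply hmono
        have : c' * (w * m) = w * (m * c') := by ring
        rw [this]
        have := Nat.mul_le_mul_left w hcc'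
        omega
      calc c' * mu (w * (2 * (m + 1)) + 1) ≤ c' * (C5 * mu (w * m)) :=
            Nat.mul_le_mul_left _ (g1.trans g2)
        _ = C5 * (c' * mu (w * m)) := by ring
        _ ≤ C5 * Z := Nat.mul_le_mul_left _ (g3.trans g4)
    set PP := PL e q w with hPP
    have hlg : 1 ≤ lgc (w + 1) := by unfold lgc; omega
    have hlq := S8.size_le_lgc q
    have p1 : e * Nat.size q ≤ PP := by
      rw [hPP]
      unfold PL
      calc e * Nat.size q ≤ (e + 1) * lgc q := Nat.mul_le_mul (by omega) hlq
        _ = (e + 1) * lgc q * 1 := by ring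
        _ ≤ (e + 1) * lgc q * lgc (w + 1) := Nat.mul_le_mul_left _ hlg
    have p2 : 1 ≤ PP := le_trans (Nat.mul_pos (by omega) (by omega)) p1
    have p3 : Nat.clog 2 (m + 1) + 1 ≤ PP := by
      have h2 : Nat.clog 2 (m + 1) + 1 ≤ lgc (w + 1) := by
        unfold lgc
        have := Nat.clog_mono_right 2 (show m + 1 ≤ w + 1 by omega)
        omega
      rw [hPP]
      unfold PL
      have h3 : 1 ≤ (e + 1) * lgc q := by
        have : 1 ≤ lgc q := by unfold lgc; omega
        exact Nat.mul_pos (by omega) (by omega)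
      calc Nat.clog 2 (m + 1) + 1 ≤ 1 * lgc (w + 1) := by omega
        _ ≤ (e + 1) * lgc q * lgc (w + 1) := Nat.mul_le_mul_right _ h3
    have hZ1 : 1 ≤ Z := by omega
    have hPZ : Z ≤ PP * Z := Nat.le_mul_of_pos_left Z (by omega)
    have hPZ2 : PP ≤ PP * Z := Nat.le_mul_of_pos_right PP (by omega)
    -- fuel
    have k1 : (S8.fuelP : Pr [] (.prod Po Un) Po).cost () () (bits K q, un e) ≤
        200 * (PP * Z) := by
      simp only [hul, hbl] at c1
      have : (20 * Nat.size q + 90) * e ≤ (110 * Nat.size q) * e :=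
        Nat.mul_le_mul_right e (by omega)
      have g5 : (110 * Nat.size q) * e = 110 * (e * Nat.size q) := by ring
      rw [g5] at this
      omega
    -- strip
    have k2 : goC (S8.stripB (s := [])) .snd () () c (wf, (un c, P)) ≤ 4000 * (PP * Z) := by
      refine c2.trans ?_
      rw [hwfl]
      calc 2000 * (e * Nat.size q + 1) * w * (m * c)
          = 2000 * ((e * Nat.size q + 1) * (w * (m * c))) := by ring
        _ ≤ 2000 * ((PP + PP) * Z) := by
            apply Nat.mul_le_mul_left
            apply Nat.mul_le_mul (by omega) (by omega)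
        _ = 4000 * (PP * Z) := by ring
    -- context
    have hwZ : w ≤ w * (m * c) := Nat.le_mul_of_pos_right w (by omega)
    have hmZ : m * c ≤ w * (m * c) := Nat.le_mul_of_pos_left (m * c) (by omega)
    have k3 : (S8.ctxP : Pr [] (.prod TB (.prod Un Ma)) _).cost () () (tb, x') ≤
        1500 * (PP * Z) := by
      rw [hIP, hIc] at c4
      omega
    -- Newton
    have k4 : (C0 * mu (w * (2 * (m + 1)) + 1) + 24 * (m + 1) + 70) * (c' + 1) +
        (20 * w + 20) * (m + 1) + 240 ≤ (2 * C0 * C5 + 556) * Z := by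
      have t1 : C0 * mu (w * (2 * (m + 1)) + 1) * (c' + 1) ≤ 2 * C0 * C5 * Z := by
        calc C0 * mu (w * (2 * (m + 1)) + 1) * (c' + 1)
            ≤ C0 * mu (w * (2 * (m + 1)) + 1) * (2 * c') := Nat.mul_le_mul_left _ (by omega)
          _ = 2 * C0 * (c' * mu (w * (2 * (m + 1)) + 1)) := by ring
          _ ≤ 2 * C0 * (C5 * Z) := Nat.mul_le_mul_left _ f2
          _ = 2 * C0 * C5 * Z := by ring
      have t2 : (24 * (m + 1) + 70) * (c' + 1) ≤ 236 * Z := by
        calc (24 * (m + 1) + 70) * (c' + 1) ≤ (118 * m) * (2 * c') :=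
              Nat.mul_le_mul (by omega) (by omega)
          _ = 236 * (m * c') := by ring
          _ ≤ 236 * Z := Nat.mul_le_mul_left _ (by omega)
      have t3 : (20 * w + 20) * (m + 1) ≤ 80 * Z := by
        calc (20 * w + 20) * (m + 1) ≤ (40 * w) * (2 * m) :=
              Nat.mul_le_mul (by omega) (by omega)
          _ = 80 * (w * m) := by ring
          _ ≤ 80 * Z := by
              apply Nat.mul_le_mul_left
              have := Nat.mul_le_mul_left w hmc
              omega
      have e1 : (C0 * mu (w * (2 * (m + 1)) + 1) + 24 * (m + 1) + 70) * (c' + 1) =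
          C0 * mu (w * (2 * (m + 1)) + 1) * (c' + 1) + (24 * (m + 1) + 70) * (c' + 1) := by ring
      have e2 : (2 * C0 * C5 + 556) * Z = 2 * C0 * C5 * Z + 556 * Z := by ring
      rw [e1, e2]
      omega
    have k5 : (S8.finP pm : Pr [] _ _).cost () () (S8.cx tb w x', [fit w (0 : K) [1]]) ≤
        (2 * C0 * C5 + 1200) * (PP * Z) := by
      have hcx : S8.cx tb w x' = ((tb, (un w, ([] : List K) ::
          S8.evf x'.2.length x'.1.length x'.2)), (x'.1,
          (List.take (S8.evf x'.2.length x'.1.length x'.2).length.succ L,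
            ((x'.1.length : ℕ) : K)⁻¹))) := rfl
      rw [hcx, hIc, hlen]
      refine c5.trans ?_
      have t1 := Nat.mul_le_mul k4 p3
      have t2 : (2 * C0 * C5 + 556) * Z * PP = (2 * C0 * C5 + 556) * (PP * Z) := by ring
      have t3 : (2 * C0 * C5 + 1200) * (PP * Z) =
          (2 * C0 * C5 + 556) * (PP * Z) + 644 * (PP * Z) := by ring
      rw [t2] at t1
      rw [t3]
      refine le_trans (Nat.add_le_add_right (Nat.add_le_add_right t1 _) _) ?_
      have u1 : m ≤ PP * Z := le_trans hmc (le_trans hmZ (le_trans (Nat.le_of_succ_le f1) hPZ))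
      have u2 : 1 ≤ PP * Z := le_trans hZ1 hPZ
      have t4 : 160 * (m + 1) + 200 ≤ 644 * (PP * Z) := by
        clear t1 t2 t3 c5 k4 k1 k2 k3 p1 p2 p3 f1 f2 c1 c2 c3 c4
        omega
      rw [add_assoc]
      exact Nat.add_le_add_left t4 _
    have e1 := S8.val_stripP (F := K) (s := []) () (wf, (un c, P))
    simp only [hul] at e1
    rw [hul] at c3
    simp only [S8.rootP, cost_comp, cost_pair, cost_fst, cost_snd, val_comp, val_pair, val_fst,
      val_snd]
    rw [← hwf, e1, ← hx', S8.val_ctxP (s := []) () tb x' w hI.hw hP1, c3, pow_one]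
    have e3 : (2 * C0 * C5 + 8000) * PP * Z =
        (2 * C0 * C5 + 1200) * (PP * Z) + 6800 * (PP * Z) := by ring
    rw [e3]
    clear_value Z PP
    generalize (2 * C0 * C5 + 1200) * (PP * Z) = Y1 at k5 ⊢
    generalize hY2 : PP * Z = Y2 at *
    omega

end Pool.Agent.H330FB.JS8
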