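import Pool.Agent.H330FB.Lib5
import Pool.Agent.H330FB.Spec3b

set_option autoImplicit false

/-!
# Squarefree decomposition
-/

noncomputable section
namespace Pool.Agent.H330FB.JS9

open Polynomial

section prog
variable {F : Type} [Field F] [DecidableEq F]
variable {s : List (Ty × Ty)} {a b c : Ty}

/-- cost of a left fold, the cost of a step depends on the element, the invariant on the rest -/
theorem SQ_cost_foldP (f : Pr s (.prod c (.prod b a)) b) (v : SV F s) (k : SC F s)
    (x : Ty.D F (.prod c (.prod b (.list a)))) (B : Ty.D F a → ℕ)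
    (I : List (Ty.D F a) → Ty.D F b → Prop) (h0 : I x.2.2 x.2.1)
    (hI : ∀ z l y, I (z :: l) y → I l (f.val v (x.1, (y, z))))
    (hB : ∀ z l y, I (z :: l) y → f.cost v k (x.1, (y, z)) ≤ B z) :
    (foldP f).cost v k x ≤ (List.map (fun z => B z + 27) x.2.2).sum + 14 := by
  obtain ⟨x, y, l⟩ := x
  simp only [foldP, cost_comp, cost_pair, cost_snd, cost_id, cost_recD, val_pair, val_snd,
    val_id, val_comp] at h0 hI hB ⊢
  have : ∀ (l : List (Ty.D F a)) (y : Ty.D F b), I l y →
      goC (foldB f) (.comp .snd .fst) v k l.length (x, (y, l)) ≤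
      (List.map (fun z => B z + 27) l).sum + 7 := by
    intro l
    induction l with
    | nil => intro y _; simp [goC]
    | cons h t ih =>
      intro y hy
      have e1 := ih (f.val v (x, (y, h))) (hI h t y hy)
      have e2 := hB h t y hy
      simp [goC, foldB] at e1 ⊢
      omega
  have := this l y h0
  omega

/-! ### comparison of lengths -/

/-- body of `eqP` -/
def SQ_eqB : Pr ((.prod (.list a) (.list b), .fld) :: s) (.prod (.list a) (.list b)) .fld :=
  onL .fst .zero (onL (.comp .fst .snd) .zero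
    (.comp (.pair (.comp (.comp .fst .snd) .snd) (.comp .snd .snd)) .self))

/-- `1` if the lists have the same length, otherwise `0` -/
def SQ_eqP : Pr s (.prod (.list a) (.list b)) .fld :=
  .comp (.pair .snd .id) (.recD SQ_eqB (onL .fst .one .zero))

@[simp] theorem SQ_val_eqP (v : SV F s) (x : Ty.D F (.prod (.list a) (.list b))) :
    (SQ_eqP : Pr s (.prod (.list a) (.list b)) .fld).val v x =
      (if List.length x.1 = List.length x.2 then (1 : F) else 0 : F) := by
  obtain ⟨u, w⟩ := x
  simp only [SQ_eqP, val_comp, val_pair, val_snd, val_id, val_recD]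
  induction w generalizing u with
  | nil => cases u <;> simp [goV]
  | cons h t ih =>
    cases u with
    | nil => simp [goV, SQ_eqB]
    | cons h' t' =>
      have := ih t'
      simp [goV, SQ_eqB] at this ⊢
      exact this

theorem SQ_cost_eqP (v : SV F s) (k : SC F s) (x : Ty.D F (.prod (.list a) (.list b))) :
    (SQ_eqP : Pr s (.prod (.list a) (.list b)) .fld).cost v k x ≤ 22 * List.length x.2 + 12 := by
  obtain ⟨u, w⟩ := x
  simp only [SQ_eqP, cost_comp, cost_pair, cost_snd, cost_id, val_pair, val_snd, val_id,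
    cost_recD]
  have : ∀ (w : List (Ty.D F b)) (u : List (Ty.D F a)),
      goC (s := s) SQ_eqB (onL .fst .one .zero) v k w.length (u, w) ≤ 22 * w.length + 6 := by
    intro w
    induction w with
    | nil => intro u; cases u <;> simp [goC]
    | cons h t ih =>
      intro u
      cases u with
      | nil => simp [goC, SQ_eqB]
      | cons h' t' =>
        have := ih t'
        simp [goC, SQ_eqB] at this ⊢
        omega
  have := this w u
  omega

/-! ### unary numbers -/

/-- length in unary -/
def SQ_unP : Pr s (.list a) Un := .comp (.pair .star .id) (mapP (c := .unit) .star)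

@[simp] theorem SQ_val_unP (v : SV F s) (x : Ty.D F (.list a)) :
    (SQ_unP : Pr s (.list a) Un).val v x = un (List.length x) := by
  simp only [SQ_unP, val_comp, val_pair, val_mapP, val_star, val_id]
  unfold un
  induction x with
  | nil => rfl
  | cons h t ih => simp [List.replicate_succ]

theorem SQ_cost_unP (v : SV F s) (k : SC F s) (x : Ty.D F (.list a)) :
    (SQ_unP : Pr s (.list a) Un).cost v k x ≤ 14 * List.length x + 8 := by
  have h := cost_mapP_le (s := s) (c := .unit) (a := a) (b := .unit) .star v k ((), x) 1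
    (fun _ _ => by simp)
  simp [SQ_unP] at h ⊢
  omega

/-- the unary numbers `n, …, 1` -/
def SQ_UL : ℕ → List (List Unit)
  | 0 => []
  | n + 1 => un (n + 1) :: SQ_UL n

/-- step of `ulP` -/
def SQ_ulS : Pr s (.prod .unit (.prod (.prod Un (.list Un)) a)) (.prod Un (.list Un)) :=
  lt (.comp (.pair .star (.comp (.comp .snd .fst) .fst)) .cons)
    (.pair .snd (.comp (.pair .snd (.comp .fst (.comp (.comp .snd .fst) .snd))) .cons))

/-- the unary numbers up to the length of a list -/
def SQ_ulP : Pr s (.list a) (.list Un) :=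
  .comp (.comp (.pair .star (.pair (.pair .nil .nil) .id)) (foldP (c := .unit) SQ_ulS)) .snd

theorem SQ_ul_fold {α : Type} (l : List α) (n : ℕ) :
    List.foldl (fun (y : List Unit × List (List Unit)) (_ : α) =>
      (() :: y.1, (() :: y.1) :: y.2)) (un n, SQ_UL n) l =
      (un (n + l.length), SQ_UL (n + l.length)) := by
  induction l generalizing n with
  | nil => rfl
  | cons h t ih =>
    rw [List.foldl_cons]
    have e : (() :: un n) = un (n + 1) := by simp [un, List.replicate_succ]
    simp only [e]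
    have := ih (n + 1)
    simp only [SQ_UL] at this
    rw [this, List.length_cons, show n + 1 + t.length = n + (t.length + 1) by omega]

@[simp] theorem SQ_val_ulP (v : SV F s) (x : Ty.D F (.list a)) :
    (SQ_ulP : Pr s (.list a) (.list Un)).val v x = SQ_UL (List.length x) := by
  have h := SQ_ul_fold (x : List (Ty.D F a)) 0
  simp only [Nat.zero_add] at h
  simp only [SQ_ulP, SQ_ulS, val_comp, val_pair, val_foldP, val_star, val_id, val_nil, val_lt,
    val_snd, val_fst, val_cons]
  exact congrArg Prod.snd h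

theorem SQ_cost_ulP (v : SV F s) (k : SC F s) (x : Ty.D F (.list a)) :
    (SQ_ulP : Pr s (.list a) (.list Un)).cost v k x ≤ 60 * List.length x + 30 := by
  have h := cost_foldP_le (s := s) (c := .unit) (a := a) (b := .prod Un (.list Un)) SQ_ulS v k
    ((), ((([] : List Unit), ([] : List (List Unit))), x)) 20 (fun _ => True) trivial
    (fun _ _ _ _ => trivial) (fun _ _ _ _ => by simp [SQ_ulS])
  simp [SQ_ulP] at h ⊢
  omega

end prog

/-! ### product of monic polynomials -/

section prog2
variable {F : Type} [Field F] [DecidableEq F]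

/-- product of two monic polynomials, input `(table, (a, b))` -/
def SQ_mmP (q : Pr [] (.prod TB (.prod Po Po)) Po) : Pr [] (.prod TB (.prod Po Po)) Po :=
  .comp (.comp (.pair (.comp .snd appP)
    (.comp (.pair .fst (.pair
      (.comp (.pair (.comp .snd .fst) (.comp (.pair .one .nil) .cons)) appP)
      (.comp (.pair (.comp .snd .snd) (.comp (.pair .one .nil) .cons)) appP))) q)) splitP) .fst

theorem SQ_val_mmP (q : Pr [] (.prod TB (.prod Po Po)) Po)
    (tb : List (List F) × List (List F)) (x y : List F) :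
    (SQ_mmP q).val () (tb, (x, y)) =
      List.take (x.length + y.length) (q.val () (tb, (x ++ [1], y ++ [1])) : List F) := by
  simp [SQ_mmP]

theorem SQ_cost_mmP (q : Pr [] (.prod TB (.prod Po Po)) Po)
    (tb : List (List F) × List (List F)) (x y : List F) :
    (SQ_mmP q).cost () () (tb, (x, y)) ≤ q.cost () () (tb, (x ++ [1], y ++ [1])) +
      64 * (x.length + y.length) + 60 := by
  have h1 := cost_appP (F := F) (s := []) (a := .fld) () () (x, y)
  have h2 := cost_appP (F := F) (s := []) (a := .fld) () () (x, [1])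
  have h3 := cost_appP (F := F) (s := []) (a := .fld) () () (y, [1])
  have h4 := cost_splitP (F := F) (s := []) (a := .fld) (b := .fld) () ()
    (x ++ y, (q.val () (tb, (x ++ [1], y ++ [1])) : List F))
  simp only [List.length_append] at h4
  simp only [SQ_mmP, cost_comp, cost_pair, cost_fst, cost_snd, cost_one, cost_nil,
    cost_cons, val_comp, val_pair, val_fst, val_snd, val_one, val_nil, val_cons,
    val_appP] at h1 h2 h3 h4 ⊢
  omega

/-- multiply by a power; input `((table, h), (g, c))` -/
def SQ_pmP (q : Pr [] (.prod TB (.prod Po Po)) Po) :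
    Pr [] (.prod (.prod TB Po) (.prod Po Un)) Po :=
  foldP (c := .prod TB Po) (b := Po) (a := .unit)
    (.comp (.pair (.comp .fst .fst) (.pair (.comp .snd .fst) (.comp .fst .snd))) (SQ_mmP q))

/-- step of `grP` -/
def SQ_grS (q : Pr [] (.prod TB (.prod Po Po)) Po) :
    Pr [] (.prod (.prod TB Un) (.prod (.prod Ma Po) (.prod Po Un))) (.prod Ma Po) :=
  onZ (.comp (.pair (.comp .fst .snd) (.comp (.comp .snd .snd) .snd)) SQ_eqP)
    (.comp .snd .fst)
    (.pair (.comp (.pair (.comp (.comp .snd .snd) .fst) (.comp (.comp .snd .fst) .fst)) .cons)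
      (.comp (.pair (.pair (.comp .fst .fst) (.comp (.comp .snd .snd) .fst))
        (.pair (.comp (.comp .snd .fst) .snd) (.comp (.comp .snd .snd) .snd))) (SQ_pmP q)))

/-- the group of the multiplicity `u`; input `((table, u), factors)` -/
def SQ_grP (q : Pr [] (.prod TB (.prod Po Po)) Po) :
    Pr [] (.prod (.prod TB Un) (.list (.prod Po Un))) (.prod Ma Po) :=
  .comp (.pair .fst (.pair (.pair .nil .nil) .snd)) (foldP (SQ_grS q))

/-- step of `gsP` -/
def SQ_gsS (q : Pr [] (.prod TB (.prod Po Po)) Po) :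
    Pr [] (.prod (.prod TB (.list (.prod Po Un)))
      (.prod (.list (.prod (.prod Un Ma) Po)) Un)) (.list (.prod (.prod Un Ma) Po)) :=
  lt (.comp (.pair (.pair (.comp .fst .fst) (.comp .snd .snd)) (.comp .fst .snd)) (SQ_grP q))
    (onL (.comp .snd .fst) (.comp (.comp .fst .snd) .fst)
      (.comp (.pair (.pair (.pair (.comp (.comp (.comp .fst .fst) .snd) .snd)
          (.comp (.comp .fst .snd) .fst)) (.comp (.comp .fst .snd) .snd))
        (.comp (.comp (.comp .fst .fst) .snd) .fst)) .cons))

/-- all groups; input `((table, factors), unary numbers)` -/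
def SQ_gsP (q : Pr [] (.prod TB (.prod Po Po)) Po) :
    Pr [] (.prod (.prod TB (.list (.prod Po Un))) (.list Un))
      (.list (.prod (.prod Un Ma) Po)) :=
  .comp (.pair .fst (.pair .nil .snd)) (foldP (SQ_gsS q))

/-- the result for one part; input `((table, (bits, e)), part)` -/
def SQ_roS (r : Pr [] (.prod TB (.prod (.prod Po Un) (.prod Un Ma))) Ma) :
    Pr [] (.prod (.prod TB (.prod Po Un)) (.prod (.prod Un Ma) (.prod Ma (.prod Ma Ma))))
      (.prod Un (.prod Ma Ma)) :=
  lt (.comp (.pair (.comp .fst .fst) (.pair (.comp .fst .snd)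
      (.pair (.comp (.comp .snd .fst) .fst) (.comp (.comp .snd .snd) .fst)))) r)
    (.pair (.comp (.comp (.comp .fst .snd) .fst) .fst)
      (.pair (.comp (.pair (.comp (.pair .nil .snd) .cons) .snd)
          (mapP (c := Ma) (a := Po) (b := Po) (.comp (.pair .fst (.pair .zero .snd)) fitP)))
        (.comp (.comp (.comp .fst .snd) .fst) .snd)))

/-- the squarefree decomposition -/
def SQ_P (q : Pr [] (.prod TB (.prod Po Po)) Po)
    (t : Pr [] (.prod TB (.prod Un (.prod (.list (.prod (.prod Un Ma) Po))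
      (.prod Ma (.prod Ma Ma))))) (.list (.prod (.prod Un Ma) (.prod Ma (.prod Ma Ma)))))
    (r : Pr [] (.prod TB (.prod (.prod Po Un) (.prod Un Ma))) Ma) :
    Pr [] (.prod TB (.prod (.prod Po Un) (.prod Ma (.list (.prod Po Un)))))
      (.list (.prod Un (.prod Ma Ma))) :=
  .comp (.pair (.pair .fst (.comp .snd .fst))
    (.comp (.pair .fst (.pair
      (.comp (.pair .star (.comp (.comp (.comp .snd .snd) .fst) SQ_unP)) .cons)
      (.pair (.comp (.pair (.pair .fst (.comp (.comp .snd .snd) .snd))
          (.comp (.comp (.comp .snd .snd) .fst) SQ_ulP)) (SQ_gsP q))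
        (.pair (.comp (.comp .snd .snd) .fst)
          (.pair (.comp (.comp .snd .snd) .fst) (.comp (.comp .snd .snd) .fst)))))) t))
    (mapP (SQ_roS r))

end prog2


section vals
variable {F : Type} [Field F] [DecidableEq F]

theorem SQ_coeff_pol {R : Type} [CommRing R] (l : List R) (i : ℕ) :
    (pol l).coeff i = l.getD i 0 := by
  induction l generalizing i with
  | nil => simp [pol]
  | cons x l ih =>
    cases i with
    | zero => simp [pol]
    | succ i => simp [pol, coeff_C_succ, ih]

theorem SQ_degree_pol {R : Type} [CommRing R] (l : List R) :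
    (pol l).degree < (l.length : ℕ) := by
  rw [degree_lt_iff_coeff_zero]
  intro m hm
  rw [SQ_coeff_pol, List.getD_eq_default _ _ hm]

theorem SQ_mpol_monic {R : Type} [CommRing R] [Nontrivial R] (l : List R) : (mpol l).Monic :=
  monic_X_pow_add (SQ_degree_pol l)

theorem SQ_mpol_natDegree {R : Type} [CommRing R] [Nontrivial R] (l : List R) :
    (mpol l).natDegree = l.length := by
  unfold mpol
  rw [add_comm, natDegree_add_eq_right_of_degree_lt]
  · exact natDegree_X_pow _
  · rw [degree_X_pow]
    exact SQ_degree_pol l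

theorem SQ_mpol_take {R : Type} [CommRing R] [Nontrivial R] (l : List R) (n : ℕ) (P : R[X])
    (hP : P.Monic) (hn : P.natDegree = n) (hl : n ≤ l.length) (h : pol l = P) :
    mpol (l.take n) = P := by
  have hlen : (l.take n).length = n := by simp [hl]
  unfold mpol
  rw [hlen]
  ext i
  rw [coeff_add, coeff_X_pow, SQ_coeff_pol]
  rcases lt_trichotomy i n with hi | hi | hi
  · rw [if_neg hi.ne, zero_add, ← h, SQ_coeff_pol, List.getD_eq_getElem?_getD,
      List.getD_eq_getElem?_getD, List.getElem?_take_of_lt hi]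
  · subst hi
    rw [if_pos rfl, List.getD_eq_default _ _ hlen.le, add_zero]
    have := hP.coeff_natDegree
    rw [hn] at this
    rw [this]
  · rw [if_neg hi.ne', List.getD_eq_default _ _ (by omega), add_zero,
      coeff_eq_zero_of_natDegree_lt (by omega)]

theorem SQ_pol_append_one {R : Type} [CommRing R] (l : List R) :
    pol (l ++ [1]) = mpol l := by
  induction l with
  | nil => simp [pol, mpol]
  | cons x l ih =>
    rw [List.cons_append]
    unfold mpol at ih ⊢
    simp only [pol, ih, List.length_cons]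
    ring

/-- value of `mmP` -/
def SQ_mm (q : Pr [] (.prod TB (.prod Po Po)) Po) (tb : List (List F) × List (List F))
    (x y : List F) : List F :=
  List.take (x.length + y.length) (q.val () (tb, (x ++ [1], y ++ [1])) : List F)

theorem SQ_mm_spec (q : Pr [] (.prod TB (.prod Po Po)) Po)
    (tb : List (List F) × List (List F))
    (hq : ∀ a b : List F, pol (q.val () (tb, (a, b)) : List F) = pol a * pol b ∧
      List.length (q.val () (tb, (a, b)) : List F) = a.length + b.length) (x y : List F) :
    mpol (SQ_mm q tb x y) = mpol x * mpol y ∧ (SQ_mm q tb x y).length = x.length + y.length := by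
  obtain ⟨h1, h2⟩ := hq (x ++ [1]) (y ++ [1])
  rw [SQ_pol_append_one, SQ_pol_append_one] at h1
  simp only [List.length_append, List.length_cons, List.length_nil] at h2
  have hm : (mpol x * mpol y).Monic := (SQ_mpol_monic x).mul (SQ_mpol_monic y)
  have hd : (mpol x * mpol y).natDegree = x.length + y.length := by
    rw [(SQ_mpol_monic x).natDegree_mul (SQ_mpol_monic y), SQ_mpol_natDegree, SQ_mpol_natDegree]
  refine ⟨SQ_mpol_take _ _ _ hm hd (by omega) h1, ?_⟩
  unfold SQ_mm
  rw [List.length_take]
  omega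

/-- value of `pmP` -/
def SQ_pm (q : Pr [] (.prod TB (.prod Po Po)) Po) (tb : List (List F) × List (List F))
    (h g : List F) (c : List Unit) : List F :=
  List.foldl (fun g _ => SQ_mm q tb g h) g c

theorem SQ_pm_spec (q : Pr [] (.prod TB (.prod Po Po)) Po)
    (tb : List (List F) × List (List F))
    (hq : ∀ a b : List F, pol (q.val () (tb, (a, b)) : List F) = pol a * pol b ∧
      List.length (q.val () (tb, (a, b)) : List F) = a.length + b.length) (h g : List F)
    (c : List Unit) :
    mpol (SQ_pm q tb h g c) = mpol g * mpol h ^ c.length ∧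
      (SQ_pm q tb h g c).length = g.length + c.length * h.length := by
  unfold SQ_pm
  induction c generalizing g with
  | nil => simp
  | cons u c ih =>
    obtain ⟨h1, h2⟩ := ih (SQ_mm q tb g h)
    obtain ⟨h3, h4⟩ := SQ_mm_spec q tb hq g h
    rw [List.foldl_cons, h1, h2, h3, h4, List.length_cons]
    constructor
    · ring
    · ring

/-- value of `grS` -/
def SQ_grs (q : Pr [] (.prod TB (.prod Po Po)) Po) (tb : List (List F) × List (List F))
    (u : List Unit) (y : List (List F) × List F) (z : List F × List Unit) :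
    List (List F) × List F :=
  if u.length = z.2.length then (z.1 :: y.1, SQ_pm q tb z.1 y.2 z.2) else y

theorem SQ_grs_spec (q : Pr [] (.prod TB (.prod Po Po)) Po)
    (tb : List (List F) × List (List F))
    (hq : ∀ a b : List F, pol (q.val () (tb, (a, b)) : List F) = pol a * pol b ∧
      List.length (q.val () (tb, (a, b)) : List F) = a.length + b.length) (c : ℕ)
    (uni : List (List F × List Unit)) (y : List (List F) × List F) :
    (List.foldl (SQ_grs q tb (un c)) y uni).1 =
      ((uni.filter (fun z => z.2.length = c)).map Prod.fst).reverse ++ y.1 ∧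
    mpol (List.foldl (SQ_grs q tb (un c)) y uni).2 =
      mpol y.2 * ((uni.filter (fun z => z.2.length = c)).map
        (fun z => mpol z.1 ^ z.2.length)).prod ∧
    (List.foldl (SQ_grs q tb (un c)) y uni).2.length =
      y.2.length + ((uni.filter (fun z => z.2.length = c)).map
        (fun z => z.2.length * z.1.length)).sum := by
  have hun : (un c).length = c := by simp [un]
  induction uni generalizing y with
  | nil => simp
  | cons z uni ih =>
    obtain ⟨h1, h2, h3⟩ := ih (SQ_grs q tb (un c) y z)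
    rw [List.foldl_cons, h1, h2, h3]
    by_cases hz : z.2.length = c
    · rw [List.filter_cons_of_pos (by simp [hz])]
      obtain ⟨h4, h5⟩ := SQ_pm_spec q tb hq z.1 y.2 z.2
      simp only [SQ_grs, hun, hz, if_true, h4, h5, List.map_cons, List.prod_cons, List.sum_cons,
        List.reverse_cons, List.append_assoc]
      refine ⟨by simp, ?_, ?_⟩
      · ring
      · ring
    · rw [List.filter_cons_of_neg (by simp [hz])]
      have hz' : ¬ c = z.2.length := fun h => hz h.symm
      simp only [SQ_grs, hun, hz', if_false]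
      exact ⟨trivial, trivial, trivial⟩

/-- the group of `u` -/
def SQ_gr (q : Pr [] (.prod TB (.prod Po Po)) Po) (tb : List (List F) × List (List F))
    (uni : List (List F × List Unit)) (u : List Unit) : List (List F) × List F :=
  List.foldl (SQ_grs q tb u) ([], []) uni

/-- value of `gsS` -/
def SQ_gss (q : Pr [] (.prod TB (.prod Po Po)) Po) (tb : List (List F) × List (List F))
    (uni : List (List F × List Unit)) (acc : List ((List Unit × List (List F)) × List F))
    (u : List Unit) : List ((List Unit × List (List F)) × List F) :=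
  lcase (SQ_gr q tb uni u).1 acc (fun _ _ => ((u, (SQ_gr q tb uni u).1), (SQ_gr q tb uni u).2) :: acc)

theorem SQ_gss_fold (q : Pr [] (.prod TB (.prod Po Po)) Po)
    (tb : List (List F) × List (List F))
    (uni : List (List F × List Unit)) (us : List (List Unit))
    (acc : List ((List Unit × List (List F)) × List F)) :
    List.foldl (SQ_gss q tb uni) acc us =
      ((us.filter (fun u => (SQ_gr q tb uni u).1 ≠ [])).reverse.map
        (fun u => ((u, (SQ_gr q tb uni u).1), (SQ_gr q tb uni u).2))) ++ acc := by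
  induction us generalizing acc with
  | nil => rfl
  | cons u us ih =>
    rw [List.foldl_cons, ih]
    by_cases hu : (SQ_gr q tb uni u).1 = []
    · rw [List.filter_cons_of_neg (by simp [hu])]
      unfold SQ_gss
      rw [hu, lcase_nil]
    · rw [List.filter_cons_of_pos (by simp [hu])]
      obtain ⟨h, t, ht⟩ := List.exists_cons_of_ne_nil hu
      have : SQ_gss q tb uni acc u =
          ((u, (SQ_gr q tb uni u).1), (SQ_gr q tb uni u).2) :: acc := by
        unfold SQ_gss
        rw [ht, lcase_cons]
      rw [this]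
      simp

theorem SQ_UL_reverse (n : ℕ) : (SQ_UL n).reverse = (List.range n).map (fun i => un (i + 1)) := by
  induction n with
  | zero => rfl
  | succ n ih =>
    simp [SQ_UL, ih, List.range_succ]

/-- occurring multiplicities -/
def SQ_cs {β : Type} (d : ℕ) (uni : List (β × List Unit)) : List ℕ :=
  ((List.range d).map (fun i => i + 1)).filter
    (fun c => (uni.filter (fun z => z.2.length = c)) ≠ [])

theorem SQ_gs_eq (q : Pr [] (.prod TB (.prod Po Po)) Po)
    (tb : List (List F) × List (List F))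
    (hq : ∀ a b : List F, pol (q.val () (tb, (a, b)) : List F) = pol a * pol b ∧
      List.length (q.val () (tb, (a, b)) : List F) = a.length + b.length) (d : ℕ)
    (uni : List (List F × List Unit)) :
    List.foldl (SQ_gss q tb uni) [] (SQ_UL d) =
      (SQ_cs d uni).map
        (fun c => ((un c, (SQ_gr q tb uni (un c)).1), (SQ_gr q tb uni (un c)).2)) := by
  rw [SQ_gss_fold, List.append_nil, ← List.filter_reverse, SQ_UL_reverse]
  unfold SQ_cs
  have : (List.range d).map (fun i => un (i + 1)) =
      ((List.range d).map (fun i => i + 1)).map un := by simp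
  rw [this, List.filter_map, List.map_map]
  congr 1
  apply List.filter_congr
  intro c _
  have h := (SQ_grs_spec q tb hq c uni ([], [])).1
  simp only [Function.comp]
  unfold SQ_gr
  rw [h]
  simp

theorem SQ_val_pmP (q : Pr [] (.prod TB (.prod Po Po)) Po)
    (tb : List (List F) × List (List F)) (h g : List F) (c : List Unit) :
    (SQ_pmP q).val () ((tb, h), (g, c)) = SQ_pm q tb h g c := by
  unfold SQ_pmP SQ_pm
  have e : (fun (g : List F) (_ : Unit) => (SQ_mmP q).val () (tb, (g, h))) =
      fun g _ => SQ_mm q tb g h := by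
    funext y z
    exact SQ_val_mmP q tb y h
  rw [← e]
  simp only [val_comp, val_pair, val_fst, val_snd, val_foldP]

theorem SQ_val_grS (q : Pr [] (.prod TB (.prod Po Po)) Po)
    (tb : List (List F) × List (List F)) (u : List Unit) (y : List (List F) × List F)
    (z : List F × List Unit) :
    (SQ_grS q).val () ((tb, u), (y, z)) = SQ_grs q tb u y z := by
  unfold SQ_grS SQ_grs
  rw [← SQ_val_pmP q tb z.1 y.2 z.2]
  by_cases h : u.length = z.2.length
  · simp only [val_onZ, val_comp, val_pair, val_fst, val_snd, val_cons, SQ_val_eqP,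
      h, if_true, one_ne_zero, if_false]
  · simp only [val_onZ, val_comp, val_pair, val_fst, val_snd, val_cons, SQ_val_eqP,
      h, if_true, if_false]

theorem SQ_val_grP (q : Pr [] (.prod TB (.prod Po Po)) Po)
    (tb : List (List F) × List (List F)) (u : List Unit) (uni : List (List F × List Unit)) :
    (SQ_grP q).val () ((tb, u), uni) = SQ_gr q tb uni u := by
  unfold SQ_grP SQ_gr
  have e : (fun (y : List (List F) × List F) (z : List F × List Unit) =>
      (SQ_grS q).val () ((tb, u), (y, z))) = SQ_grs q tb u := by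
    funext y z
    exact SQ_val_grS q tb u y z
  rw [← e]
  simp only [val_comp, val_pair, val_fst, val_snd, val_nil, val_foldP]

theorem SQ_val_gsS (q : Pr [] (.prod TB (.prod Po Po)) Po)
    (tb : List (List F) × List (List F)) (uni : List (List F × List Unit))
    (acc : List ((List Unit × List (List F)) × List F)) (u : List Unit) :
    (SQ_gsS q).val () ((tb, uni), (acc, u)) = SQ_gss q tb uni acc u := by
  unfold SQ_gsS SQ_gss
  rw [← SQ_val_grP q tb u uni]
  simp only [val_comp, val_pair, val_fst, val_snd, val_cons, val_lt, val_onL]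

theorem SQ_val_gsP (q : Pr [] (.prod TB (.prod Po Po)) Po)
    (tb : List (List F) × List (List F)) (uni : List (List F × List Unit))
    (us : List (List Unit)) :
    (SQ_gsP q).val () ((tb, uni), us) = List.foldl (SQ_gss q tb uni) [] us := by
  unfold SQ_gsP
  have e : (fun (acc : List ((List Unit × List (List F)) × List F)) (u : List Unit) =>
      (SQ_gsS q).val () ((tb, uni), (acc, u))) = SQ_gss q tb uni := by
    funext y z
    exact SQ_val_gsS q tb uni y z
  rw [← e]
  simp only [val_comp, val_pair, val_fst, val_snd, val_nil, val_foldP]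

/-- value of `roS` -/
def SQ_ro (r : Pr [] (.prod TB (.prod (.prod Po Un) (.prod Un Ma))) Ma)
    (tb : List (List F) × List (List F)) (bq : List F) (ue : List Unit)
    (o : (List Unit × List (List F)) × (List (List F) × (List (List F) × List (List F)))) :
    List Unit × (List (List F) × List (List F)) :=
  (o.1.1, (List.map (fit (List.length (r.val () (tb, ((bq, ue), (o.1.1, o.2.1))) : List (List F)) + 1)
    (0 : F)) (r.val () (tb, ((bq, ue), (o.1.1, o.2.1))) : List (List F)), o.1.2))

theorem SQ_val_roS (r : Pr [] (.prod TB (.prod (.prod Po Un) (.prod Un Ma))) Ma)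
    (tb : List (List F) × List (List F)) (bq : List F) (ue : List Unit)
    (o : (List Unit × List (List F)) × (List (List F) × (List (List F) × List (List F)))) :
    (SQ_roS r).val () ((tb, (bq, ue)), o) = SQ_ro r tb bq ue o := by
  unfold SQ_roS SQ_ro
  simp only [val_comp, val_pair, val_fst, val_snd, val_cons, val_lt, val_nil, val_zero, val_mapP,
    val_fitP, List.length_cons]

theorem SQ_val_P (q : Pr [] (.prod TB (.prod Po Po)) Po)
    (t : Pr [] (.prod TB (.prod Un (.prod (.list (.prod (.prod Un Ma) Po))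
      (.prod Ma (.prod Ma Ma))))) (.list (.prod (.prod Un Ma) (.prod Ma (.prod Ma Ma)))))
    (r : Pr [] (.prod TB (.prod (.prod Po Un) (.prod Un Ma))) Ma)
    (tb : List (List F) × List (List F)) (bq : List F) (ue : List Unit)
    (A : List (List F)) (uni : List (List F × List Unit)) :
    (SQ_P q t r).val () (tb, ((bq, ue), (A, uni))) =
      List.map (SQ_ro r tb bq ue)
        (t.val () (tb, (un (A.length + 1),
          (List.foldl (SQ_gss q tb uni) [] (SQ_UL A.length), (A, (A, A)))))) := by
  unfold SQ_P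
  have e1 : ∀ n : ℕ, (() :: un n) = un (n + 1) := fun n => by
    simp [un, List.replicate_succ]
  have e2 : (fun (o : (List Unit × List (List F)) ×
      (List (List F) × (List (List F) × List (List F)))) =>
      (SQ_roS r).val () ((tb, (bq, ue)), o)) = SQ_ro r tb bq ue := by
    funext o
    exact SQ_val_roS r tb bq ue o
  rw [← e2, ← SQ_val_gsP]
  simp only [val_comp, val_pair, val_fst, val_snd, val_cons, val_star, val_mapP, SQ_val_unP,
    SQ_val_ulP, e1]

end vals


section costs
variable {F : Type} [Field F] [DecidableEq F]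

theorem SQ_cost_pmP (q : Pr [] (.prod TB (.prod Po Po)) Po)
    (tb : List (List F) × List (List F)) (M d : ℕ)
    (hM : ∀ x y : List F, x.length + y.length ≤ d → (SQ_mmP q).cost () () (tb, (x, y)) ≤ M)
    (hl : ∀ x y : List F, (SQ_mm q tb x y).length = x.length + y.length) (h g : List F)
    (c : List Unit) (hd : g.length + c.length * h.length ≤ d) :
    (SQ_pmP q).cost () () ((tb, h), (g, c)) ≤ (M + 35) * c.length + 14 := by
  have h1 := SQ_cost_foldP (F := F) (s := []) (c := .prod TB Po) (b := Po) (a := .unit)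
    (.comp (.pair (.comp .fst .fst) (.pair (.comp .snd .fst) (.comp .fst .snd))) (SQ_mmP q))
    () () ((tb, h), (g, c)) (fun _ => M + 8)
    (fun l y => List.length y + l.length * h.length ≤ d) hd
    (fun z l y hy => by
      have e := SQ_val_mmP q tb y h
      have e2 := hl y h
      simp only [val_comp, val_pair, val_fst, val_snd, List.length_cons] at hy ⊢
      have e3 : List.length ((SQ_mmP q).val () (tb, (y, h)) : List F) =
          List.length (y : List F) + h.length := by
        rw [e]
        exact e2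
      rw [e3]
      nlinarith)
    (fun z l y hy => by
      have e := hM y h (by
        simp only [List.length_cons] at hy
        nlinarith)
      simp only [cost_comp, cost_pair, cost_fst, cost_snd, val_comp, val_pair, val_fst, val_snd]
      omega)
  refine h1.trans ?_
  rw [List.map_const', List.sum_replicate, smul_eq_mul]
  nlinarith

theorem SQ_cost_grS (q : Pr [] (.prod TB (.prod Po Po)) Po)
    (tb : List (List F) × List (List F)) (M d : ℕ)
    (hM : ∀ x y : List F, x.length + y.length ≤ d → (SQ_mmP q).cost () () (tb, (x, y)) ≤ M)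
    (hl : ∀ x y : List F, (SQ_mm q tb x y).length = x.length + y.length)
    (u : List Unit) (y : List (List F) × List F) (z : List F × List Unit)
    (hd : y.2.length + z.2.length * z.1.length ≤ d) :
    (SQ_grS q).cost () () ((tb, u), (y, z)) ≤ 22 * z.2.length + 45 +
      (if u.length = z.2.length then (M + 35) * z.2.length + 50 else 0) := by
  have h1 := SQ_cost_eqP (F := F) (s := []) (a := .unit) (b := .unit) () () (u, z.2)
  have h2 := SQ_cost_pmP q tb M d hM hl z.1 y.2 z.2 hd
  unfold SQ_grS
  by_cases h : u.length = z.2.length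
  · simp only [cost_onZ, cost_comp, cost_pair, cost_fst, cost_snd, cost_cons, val_comp, val_pair,
      val_fst, val_snd, SQ_val_eqP, h, if_true, one_ne_zero, if_false] at h1 h2 ⊢
    omega
  · simp only [cost_onZ, cost_comp, cost_pair, cost_fst, cost_snd, cost_cons, val_comp, val_pair,
      val_fst, val_snd, SQ_val_eqP, h, if_true, if_false] at h1 h2 ⊢
    omega

/-- bound for `grP` -/
def SQ_GB (M : ℕ) (uni : List (List F × List Unit)) (u : List Unit) : ℕ :=
  (uni.map (fun z => 22 * z.2.length + 72 +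
    (if u.length = z.2.length then (M + 35) * z.2.length + 50 else 0))).sum

theorem SQ_cost_grP (q : Pr [] (.prod TB (.prod Po Po)) Po)
    (tb : List (List F) × List (List F)) (M d : ℕ)
    (hM : ∀ x y : List F, x.length + y.length ≤ d → (SQ_mmP q).cost () () (tb, (x, y)) ≤ M)
    (hl : ∀ x y : List F, (SQ_mm q tb x y).length = x.length + y.length)
    (u : List Unit) (uni : List (List F × List Unit))
    (hd : (uni.map (fun z => z.2.length * z.1.length)).sum ≤ d) :
    (SQ_grP q).cost () () ((tb, u), uni) ≤ SQ_GB M uni u + 30 := by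
  have hpm : ∀ (h g : List F) (c : List Unit),
      (SQ_pm q tb h g c).length = g.length + c.length * h.length := by
    intro h g c
    unfold SQ_pm
    induction c generalizing g with
    | nil => simp
    | cons u c ih =>
      rw [List.foldl_cons, ih, hl, List.length_cons]
      ring
  have h1 := SQ_cost_foldP (F := F) (s := []) (c := .prod TB Un) (b := .prod Ma Po)
    (a := .prod Po Un) (SQ_grS q) () () ((tb, u), ((([] : List (List F)), ([] : List F)), uni))
    (fun z => 22 * List.length z.2 + 45 +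
      (if u.length = List.length z.2 then (M + 35) * List.length z.2 + 50 else 0))
    (fun l y => List.length y.2 +
      (List.map (fun z : List F × List Unit => z.2.length * z.1.length) l).sum ≤ d)
    (by
      show (0 : ℕ) + _ ≤ d
      rw [Nat.zero_add]
      exact hd)
    (fun z l y hy => by
      have e := SQ_val_grS q tb u y z
      rw [e]
      rw [List.map_cons, List.sum_cons] at hy
      unfold SQ_grs
      by_cases h : u.length = z.2.length
      · rw [if_pos h]
        simp only [hpm]
        omega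
      · rw [if_neg h]
        omega)
    (fun z l y hy => by
      rw [List.map_cons, List.sum_cons] at hy
      exact SQ_cost_grS q tb M d hM hl u y z (by omega))
  have e : (List.map (fun z : List F × List Unit => 22 * z.2.length + 45 +
      (if u.length = z.2.length then (M + 35) * z.2.length + 50 else 0) + 27) uni).sum =
      (List.map (fun z : List F × List Unit => 22 * z.2.length + 72 +
      (if u.length = z.2.length then (M + 35) * z.2.length + 50 else 0)) uni).sum := by
    congr 1
    apply List.map_congr_left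
    intro z _
    omega
  have h2 : (foldP (SQ_grS q)).cost () ()
      ((tb, u), ((([] : List (List F)), ([] : List F)), uni)) ≤
      (List.map (fun z : List F × List Unit => 22 * z.2.length + 72 +
      (if u.length = z.2.length then (M + 35) * z.2.length + 50 else 0)) uni).sum + 14 := by
    rw [← e]
    exact h1
  unfold SQ_grP SQ_GB
  simp only [cost_comp, cost_pair, cost_fst, cost_snd, cost_nil, val_pair, val_fst, val_snd,
    val_nil] at h2 ⊢
  omega

theorem SQ_cost_gsP (q : Pr [] (.prod TB (.prod Po Po)) Po)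
    (tb : List (List F) × List (List F)) (M d : ℕ)
    (hM : ∀ x y : List F, x.length + y.length ≤ d → (SQ_mmP q).cost () () (tb, (x, y)) ≤ M)
    (hl : ∀ x y : List F, (SQ_mm q tb x y).length = x.length + y.length)
    (us : List (List Unit)) (uni : List (List F × List Unit))
    (hd : (uni.map (fun z => z.2.length * z.1.length)).sum ≤ d) :
    (SQ_gsP q).cost () () ((tb, uni), us) ≤
      (us.map (fun u => SQ_GB M uni u + 120)).sum + 30 := by
  have h1 := SQ_cost_foldP (F := F) (s := []) (c := .prod TB (.list (.prod Po Un)))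
    (b := .list (.prod (.prod Un Ma) Po)) (a := Un) (SQ_gsS q) () ()
    ((tb, uni), (([] : List ((List Unit × List (List F)) × List F)), us))
    (fun u => SQ_GB M uni u + 93) (fun _ _ => True) trivial (fun _ _ _ _ => trivial)
    (fun u l y _ => by
      have e := SQ_cost_grP q tb M d hM hl u uni hd
      unfold SQ_gsS
      simp only [cost_lt, cost_onL, cost_comp, cost_pair, cost_fst, cost_snd, cost_cons, val_comp,
        val_pair, val_fst, val_snd] at e ⊢
      rcases hc : ((SQ_grP q).val () ((tb, u), uni)).1 with _ | ⟨a, b⟩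
      · rw [lcase_nil]
        omega
      · rw [lcase_cons]
        omega)
  have h2 : (foldP (SQ_gsS q)).cost () ()
      ((tb, uni), (([] : List ((List Unit × List (List F)) × List F)), us)) ≤
      (List.map (fun u : List Unit => SQ_GB M uni u + 120) us).sum + 14 := h1
  unfold SQ_gsP
  simp only [cost_comp, cost_pair, cost_fst, cost_snd, cost_nil, val_pair, val_fst, val_snd,
    val_nil] at h2 ⊢
  omega

theorem SQ_UL_sum (w c n : ℕ) :
    ((SQ_UL n).map (fun u => if u.length = c then w else 0)).sum ≤ if c ≤ n then w else 0 := by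
  induction n with
  | zero => simp [SQ_UL]
  | succ n ih =>
    have e : (un (n + 1)).length = n + 1 := by simp [un]
    simp only [SQ_UL, List.map_cons, List.sum_cons, e]
    by_cases h : n + 1 = c
    · rw [if_pos h, if_pos (by omega)]
      rw [if_neg (by omega)] at ih
      omega
    · rw [if_neg h]
      by_cases h2 : c ≤ n
      · rw [if_pos h2] at ih
        rw [if_pos (by omega)]
        omega
      · rw [if_neg h2] at ih
        omega

omit [Field F] [DecidableEq F] in
theorem SQ_GB_sum (M d : ℕ) (uni : List (List F × List Unit)) :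
    ((SQ_UL d).map (fun u => SQ_GB M uni u + 120)).sum ≤
      d * (22 * (uni.map (fun z => z.2.length)).sum + 72 * uni.length + 120) +
      (M + 35) * (uni.map (fun z => z.2.length)).sum + 50 * uni.length := by
  have hU : (SQ_UL d).length = d := by
    induction d with
    | zero => rfl
    | succ n ih => simp [SQ_UL, ih]
  induction uni with
  | nil =>
    simp only [SQ_GB, List.map_nil, List.sum_nil, List.length_nil]
    rw [List.map_const', List.sum_replicate, hU]
    simp
  | cons z uni ih =>
    have e1 : ((SQ_UL d).map (fun u => SQ_GB M (z :: uni) u + 120)).sum =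
        ((SQ_UL d).map (fun _ => 22 * z.2.length + 72)).sum +
        ((SQ_UL d).map (fun u => if u.length = z.2.length then (M + 35) * z.2.length + 50
          else 0)).sum +
        ((SQ_UL d).map (fun u => SQ_GB M uni u + 120)).sum := by
      rw [← List.sum_map_add, ← List.sum_map_add]
      refine congrArg List.sum (List.map_congr_left (fun u _ => ?_))
      simp only [SQ_GB, List.map_cons, List.sum_cons]
      omega
    have e2 := SQ_UL_sum ((M + 35) * z.2.length + 50) z.2.length d
    have e3 : (if z.2.length ≤ d then ((M + 35) * z.2.length + 50) else 0) ≤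
        (M + 35) * z.2.length + 50 := by
      split_ifs <;> omega
    rw [List.map_const', List.sum_replicate, hU, smul_eq_mul] at e1
    rw [e1]
    simp only [List.map_cons, List.sum_cons, List.length_cons]
    have e4 := e2.trans e3
    nlinarith

/-- cost of the final map -/
theorem SQ_cost_roS (r : Pr [] (.prod TB (.prod (.prod Po Un) (.prod Un Ma))) Ma)
    (tb : List (List F) × List (List F)) (bq : List F) (ue : List Unit)
    (o : (List Unit × List (List F)) × (List (List F) × (List (List F) × List (List F)))) :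
    (SQ_roS r).cost () () ((tb, (bq, ue)), o) ≤
      r.cost () () (tb, ((bq, ue), (o.1.1, o.2.1))) +
      (20 * (List.length (r.val () (tb, ((bq, ue), (o.1.1, o.2.1))) : List (List F)) + 1) + 30) *
        (List.length (r.val () (tb, ((bq, ue), (o.1.1, o.2.1))) : List (List F)) + 1) + 70 := by
  obtain ⟨R, hR⟩ : ∃ R : List (List F), R =
    (r.val () (tb, ((bq, ue), (o.1.1, o.2.1))) : List (List F)) := ⟨_, rfl⟩
  have h1 := cost_mapP_le (F := F) (s := []) (c := Ma) (a := Po) (b := Po)
    (.comp (.pair .fst (.pair .zero .snd)) fitP) () () ((([] : List F) :: R), R)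
    (20 * (R.length + 1) + 9)
    (fun y _ => by
      have e := cost_fitP (F := F) (s := []) (a := .fld) (b := Po) () ()
        ((([] : List F) :: R), ((0 : F), y))
      simp only [cost_comp, cost_pair, cost_fst, cost_snd, cost_zero, val_pair, val_fst, val_snd,
        val_zero, List.length_cons] at e ⊢
      omega)
  unfold SQ_roS
  simp only [cost_lt, cost_comp, cost_pair, cost_fst, cost_snd, cost_cons, cost_nil, val_comp,
    val_pair, val_fst, val_snd, val_nil, val_cons, ← hR] at h1 ⊢
  nlinarith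

end costs


section td
variable {K : Type} [Field K]

/-- substitution `t ↦ y x` -/
noncomputable def SQ_phi : K[X][X] →+* K[X][X] :=
  eval₂RingHom (eval₂RingHom (C.comp C : K →+* K[X][X]) (C X * X)) X

theorem SQ_phi_coeff (f : K[X][X]) (k j : ℕ) :
    ((SQ_phi f).coeff k).coeff j = if j ≤ k then (f.coeff (k - j)).coeff j else 0 := by
  induction f using Polynomial.induction_on' with
  | add f g hf hg =>
    rw [map_add, coeff_add, coeff_add, hf, hg]
    split_ifs <;> simp
  | monomial i p =>
    induction p using Polynomial.induction_on' with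
    | add p q hp hq =>
      rw [map_add, map_add, coeff_add, coeff_add, hp, hq]
      split_ifs <;> simp
    | monomial m a =>
      have e : SQ_phi (monomial i (monomial m a)) = C (monomial m a) * X ^ (m + i) := by
        unfold SQ_phi
        rw [coe_eval₂RingHom, eval₂_monomial, coe_eval₂RingHom, eval₂_monomial]
        rw [← C_mul_X_pow_eq_monomial, map_mul, map_pow, mul_pow, pow_add]
        simp only [RingHom.coe_comp, Function.comp_apply]
        ring
      rw [e, coeff_C_mul, coeff_X_pow]
      by_cases h1 : j ≤ k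
      · rw [if_pos h1, coeff_monomial]
        by_cases h2 : k = m + i
        · rw [if_pos h2, mul_one]
          by_cases h3 : i = k - j
          · rw [if_pos h3]
          · rw [if_neg h3, coeff_monomial, coeff_zero, if_neg (by omega)]
        · rw [if_neg h2, mul_zero, coeff_zero]
          by_cases h3 : i = k - j
          · rw [if_pos h3, coeff_monomial, if_neg (by omega)]
          · rw [if_neg h3, coeff_zero]
      · rw [if_neg h1]
        by_cases h2 : k = m + i
        · rw [if_pos h2, mul_one, coeff_monomial, if_neg (by omega)]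
        · rw [if_neg h2, mul_zero, coeff_zero]

theorem SQ_TD_iff (f : K[X][X]) (n : ℕ) : TD f n ↔ (SQ_phi f).natDegree ≤ n := by
  rw [natDegree_le_iff_coeff_eq_zero]
  constructor
  · intro h N hN
    ext j
    rw [SQ_phi_coeff, coeff_zero]
    split_ifs with hj
    · exact h _ _ (by omega)
    · rfl
  · intro h i j hij
    have e := SQ_phi_coeff f (i + j) j
    rw [h _ hij, coeff_zero, if_pos (by omega), Nat.add_sub_cancel] at e
    exact e.symm

theorem SQ_TD_mul {f g : K[X][X]} {m n : ℕ} (hf : TD f m) (hg : TD g n) :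
    TD (f * g) (m + n) := by
  rw [SQ_TD_iff] at *
  rw [map_mul]
  exact natDegree_mul_le.trans (add_le_add hf hg)

theorem SQ_TD_pow {f : K[X][X]} {m : ℕ} (hf : TD f m) (c : ℕ) : TD (f ^ c) (c * m) := by
  rw [SQ_TD_iff] at *
  rw [map_pow]
  exact natDegree_pow_le.trans (Nat.mul_le_mul_left c hf)

theorem SQ_phi_natDegree {f : K[X][X]} (hf : f.Monic) :
    SQ_phi f ≠ 0 ∧ f.natDegree ≤ (SQ_phi f).natDegree := by
  have h1 : (SQ_phi f).coeff f.natDegree ≠ 0 := by
    intro h
    have e := SQ_phi_coeff f f.natDegree 0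
    rw [h, coeff_zero, if_pos (Nat.zero_le _), Nat.sub_zero, hf.coeff_natDegree, coeff_one_zero]
      at e
    exact one_ne_zero e.symm
  refine ⟨fun h => h1 (by rw [h, coeff_zero]), le_natDegree_of_ne_zero h1⟩

theorem SQ_TD_factor {f g : K[X][X]} (hf : f.Monic) (hg : g.Monic)
    (h : TD (f * g) (f.natDegree + g.natDegree)) : TD f f.natDegree := by
  rw [SQ_TD_iff] at *
  obtain ⟨h1, h2⟩ := SQ_phi_natDegree hf
  obtain ⟨h3, h4⟩ := SQ_phi_natDegree hg
  rw [map_mul, natDegree_mul h1 h3] at h
  omega

end td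

section decomp
variable {K : Type} [Field K]

theorem SQ_decomp (N n : ℕ) (T S : K[X][X]) (hn : T.natDegree ≤ n) (hT : T.Monic) (hS : S.Monic)
    (hsq : Squarefree (T.map (evalRingHom (0 : K)))) (h1 : T ∣ S) (h2 : S ∣ T ^ N) :
    ∃ L : List (K[X][X] × ℕ), (∀ x ∈ L, x.1.Monic ∧ 1 ≤ x.1.natDegree ∧ 1 ≤ x.2) ∧
      (L.map Prod.fst).prod = T ∧ (L.map (fun x => x.1 ^ x.2)).prod = S := by
  induction n generalizing T S with
  | zero =>
    have hT1 : T = 1 := hT.natDegree_eq_zero.mp (by omega)
    subst hT1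
    rw [one_pow] at h2
    have hS1 : S = 1 := hS.eq_one_of_isUnit (isUnit_of_dvd_one h2)
    exact ⟨[], by simp, by simp, by simp [hS1]⟩
  | succ n ih =>
    by_cases hT0 : T.natDegree = 0
    · exact ih T S (by omega) hT hS hsq h1 h2
    have hTu : ¬ IsUnit T := by
      intro hu
      have := hT.eq_one_of_isUnit hu
      rw [this] at hT0
      exact hT0 natDegree_one
    obtain ⟨G0, hG0, hG0T⟩ := WfDvdMonoid.exists_irreducible_factor hTu hT.ne_zero
    obtain ⟨G, hG, hGi, hGT⟩ : ∃ G : K[X][X], G.Monic ∧ Irreducible G ∧ G ∣ T := by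
      obtain ⟨H0, hH0⟩ := hG0T
      have hlc : G0.leadingCoeff * H0.leadingCoeff = 1 := by
        rw [← leadingCoeff_mul, ← hH0]
        exact hT
      have hu : IsUnit G0.leadingCoeff := IsUnit.of_mul_eq_one _ hlc
      obtain ⟨u, hu⟩ := hu
      have hass : Associated G0 (G0 * C (↑u⁻¹ : K[X])) :=
        ⟨Units.map (C : K[X] →+* K[X][X]).toMonoidHom u⁻¹, rfl⟩
      refine ⟨G0 * C (↑u⁻¹ : K[X]), ?_, hass.irreducible hG0, ?_⟩
      · unfold Monic
        rw [leadingCoeff_mul, leadingCoeff_C, ← hu, Units.mul_inv]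
      · exact hass.symm.dvd.trans ⟨H0, hH0⟩
    have hGp : Prime G := hGi.prime
    have hGd : 1 ≤ G.natDegree := by
      rcases Nat.eq_zero_or_pos G.natDegree with h | h
      · exact absurd (by rw [hG.natDegree_eq_zero.mp h]; exact isUnit_one) hGi.not_isUnit
      · exact h
    have hGe : ¬ IsUnit (G.map (evalRingHom (0 : K))) := by
      intro hu
      have h3 := (hG.map (evalRingHom (0 : K))).eq_one_of_isUnit hu
      have h4 := hG.natDegree_map (evalRingHom (0 : K))
      rw [h3, natDegree_one] at h4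
      omega
    obtain ⟨T1, hT1⟩ := hGT
    have hT1m : T1.Monic := hG.of_mul_monic_left (hT1 ▸ hT)
    have hGT1 : ¬ G ∣ T1 := by
      rintro ⟨T2, hT2⟩
      apply hGe
      apply hsq
      rw [hT1, hT2, Polynomial.map_mul, Polynomial.map_mul, ← mul_assoc]
      exact dvd_mul_right _ _
    obtain ⟨S1, hS1, hS1d⟩ := (FiniteMultiplicity.of_not_isUnit hGi.not_isUnit
      hS.ne_zero).exists_eq_pow_mul_and_not_dvd
    obtain ⟨a, ha⟩ : ∃ a, a = multiplicity G S := ⟨_, rfl⟩
    rw [← ha] at hS1
    have ha1 : 1 ≤ a := by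
      rcases Nat.eq_zero_or_pos a with h | h
      · exfalso
        apply hS1d
        rw [h, pow_zero, one_mul] at hS1
        rw [← hS1]
        exact (Dvd.intro T1 hT1.symm).trans h1
      · exact h
    have hS1m : S1.Monic := (hG.pow a).of_mul_monic_left (hS1 ▸ hS)
    have hrT : IsRelPrime G T1 := hGi.isRelPrime_iff_not_dvd.mpr hGT1
    have hrS : IsRelPrime G S1 := hGi.isRelPrime_iff_not_dvd.mpr hS1d
    have e1 : T1 ∣ S1 := by
      obtain ⟨b, rfl⟩ : ∃ b, a = b + 1 := ⟨a - 1, by omega⟩
      have h3 : G * T1 ∣ G * (G ^ b * S1) := by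
        rw [← hT1, ← mul_assoc, ← pow_succ', ← hS1]
        exact h1
      have h4 : T1 ∣ G ^ b * S1 := (mul_dvd_mul_iff_left hG.ne_zero).mp h3
      exact (hrT.symm.pow_right (n := b)).dvd_of_dvd_mul_left h4
    have e2 : S1 ∣ T1 ^ N := by
      have h3 : S1 ∣ G ^ N * T1 ^ N := by
        rw [← mul_pow, ← hT1]
        exact (Dvd.intro_left _ hS1.symm).trans h2
      exact (hrS.symm.pow_right (n := N)).dvd_of_dvd_mul_left h3
    have e3 : T1.natDegree ≤ n := by
      have := hG.natDegree_mul hT1m
      rw [← hT1] at this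
      omega
    have e4 : Squarefree (T1.map (evalRingHom (0 : K))) := by
      refine hsq.squarefree_of_dvd ?_
      rw [hT1, Polynomial.map_mul]
      exact dvd_mul_left _ _
    obtain ⟨L, hL1, hL2, hL3⟩ := ih T1 S1 e3 hT1m hS1m e4 e1 e2
    refine ⟨(G, a) :: L, ?_, ?_, ?_⟩
    · intro x hx
      rcases List.mem_cons.mp hx with rfl | hx
      · exact ⟨hG, hGd, ha1⟩
      · exact hL1 x hx
    · rw [List.map_cons, List.prod_cons, hL2, hT1]
    · rw [List.map_cons, List.prod_cons, hL3, hS1]

/-- numbers -/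
theorem SQ_nat_aux (D : Finset ℕ) (v : ℕ → ℕ) (hv : ∑ c ∈ D, v c ≤ 1) (c0 : ℕ) (h0 : c0 ∈ D)
    (h1 : v c0 ≠ 0) : v c0 = 1 ∧ ∑ c ∈ D, c * v c = c0 := by
  classical
  rw [← Finset.add_sum_erase D v h0] at hv
  have h2 : ∑ c ∈ D.erase c0, v c = 0 := by omega
  have h3 : v c0 = 1 := by omega
  refine ⟨h3, ?_⟩
  rw [← Finset.add_sum_erase D _ h0, h3, mul_one]
  have h4 : ∑ c ∈ D.erase c0, c * v c = 0 := by
    apply Finset.sum_eq_zero
    intro c hc
    rw [Finset.sum_eq_zero_iff] at h2
    rw [h2 c hc, mul_zero]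
  rw [h4, add_zero]

theorem SQ_nat (D : Finset ℕ) (v w : ℕ → ℕ) (hD : ∀ c ∈ D, 1 ≤ c) (hv : ∑ c ∈ D, v c ≤ 1)
    (hw : ∑ c ∈ D, w c ≤ 1) (h : ∑ c ∈ D, c * v c = ∑ c ∈ D, c * w c) :
    ∀ c ∈ D, v c = w c := by
  have key : ∀ v w : ℕ → ℕ, ∑ c ∈ D, v c ≤ 1 → ∑ c ∈ D, w c ≤ 1 →
      ∑ c ∈ D, c * v c = ∑ c ∈ D, c * w c → ∀ c ∈ D, v c ≠ 0 → v c = w c := by
    intro v w hv hw h c hc hvc
    obtain ⟨h1, h2⟩ := SQ_nat_aux D v hv c hc hvc
    have h3 : ∃ c' ∈ D, w c' ≠ 0 := by
      by_contra hne
      push Not at hne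
      have h4 : ∑ c ∈ D, c * w c = 0 := Finset.sum_eq_zero (fun c hc => by
        rw [hne c hc, mul_zero])
      have := hD c hc
      omega
    obtain ⟨c', hc', hwc'⟩ := h3
    obtain ⟨h4, h5⟩ := SQ_nat_aux D w hw c' hc' hwc'
    have h6 : c = c' := by omega
    rw [h6] at h1 ⊢
    rw [h1, h4]
  intro c hc
  by_cases h1 : v c = 0
  · by_cases h2 : w c = 0
    · rw [h1, h2]
    · exact (key w v hw hv h.symm c hc h2).symm
  · exact key v w hv hw h c hc h1

theorem SQ_unique (D : Finset ℕ) (f g : ℕ → K[X]) (hD : ∀ c ∈ D, 1 ≤ c)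
    (hf : ∀ c, (f c).Monic) (hg : ∀ c, (g c).Monic)
    (h : ∏ c ∈ D, f c ^ c = ∏ c ∈ D, g c ^ c) (hf2 : Squarefree (∏ c ∈ D, f c))
    (hg2 : Squarefree (∏ c ∈ D, g c)) : ∀ c ∈ D, f c = g c := by
  classical
  have hprod : ∀ (f : ℕ → K[X]) (D : Finset ℕ), (∀ c, (f c).Monic) →
      UniqueFactorizationMonoid.normalizedFactors (∏ c ∈ D, f c) =
        ∑ c ∈ D, UniqueFactorizationMonoid.normalizedFactors (f c) := by
    intro f D hf
    induction D using Finset.induction_on with
    | empty => simp
    | insert a D ha ih =>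
      rw [Finset.prod_insert ha, Finset.sum_insert ha,
        UniqueFactorizationMonoid.normalizedFactors_mul (hf a).ne_zero
          (monic_prod_of_monic _ _ (fun c _ => hf c)).ne_zero, ih]
  have hcount : ∀ (f : ℕ → K[X]) (p : K[X]), (∀ c, (f c).Monic) → Squarefree (∏ c ∈ D, f c) →
      ∑ c ∈ D, Multiset.count p (UniqueFactorizationMonoid.normalizedFactors (f c)) ≤ 1 := by
    intro f p hf hsq
    rw [← Multiset.count_sum', ← hprod f D hf]
    rw [UniqueFactorizationMonoid.squarefree_iff_nodup_normalizedFactors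
      (monic_prod_of_monic _ _ (fun c _ => hf c)).ne_zero] at hsq
    exact Multiset.nodup_iff_count_le_one.mp hsq p
  have hpow : ∀ (f : ℕ → K[X]) (p : K[X]), (∀ c, (f c).Monic) →
      Multiset.count p (UniqueFactorizationMonoid.normalizedFactors (∏ c ∈ D, f c ^ c)) =
      ∑ c ∈ D, c * Multiset.count p (UniqueFactorizationMonoid.normalizedFactors (f c)) := by
    intro f p hf
    rw [hprod (fun c => f c ^ c) D (fun c => (hf c).pow c), Multiset.count_sum']
    refine Finset.sum_congr rfl (fun c _ => ?_)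
    rw [UniqueFactorizationMonoid.normalizedFactors_pow, Multiset.count_nsmul]
  intro c hc
  apply eq_of_monic_of_associated (hf c) (hg c)
  have h1 : UniqueFactorizationMonoid.normalizedFactors (f c) =
      UniqueFactorizationMonoid.normalizedFactors (g c) := by
    ext p
    refine SQ_nat D
      (fun c => Multiset.count p (UniqueFactorizationMonoid.normalizedFactors (f c)))
      (fun c => Multiset.count p (UniqueFactorizationMonoid.normalizedFactors (g c)))
      hD (hcount f p hf hf2) (hcount g p hg hg2) ?_ c hc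
    rw [← hpow f p hf, ← hpow g p hg, h]
  have h2 := UniqueFactorizationMonoid.prod_normalizedFactors (hf c).ne_zero
  have h3 := UniqueFactorizationMonoid.prod_normalizedFactors (hg c).ne_zero
  rw [h1] at h2
  exact h2.symm.trans h3

end decomp

section uni
variable {K : Type} [Field K]

theorem SQ_mpol_inj {h h' : List K} (e : mpol h = mpol h') : h = h' := by
  have e1 : h.length = h'.length := by
    rw [← SQ_mpol_natDegree h, ← SQ_mpol_natDegree h', e]
  have e2 : pol h = pol h' := by
    unfold mpol at e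
    rw [e1] at e
    exact add_left_cancel e
  apply List.ext_getElem e1
  intro i h1 h2
  have e3 := SQ_coeff_pol h i
  have e4 := SQ_coeff_pol h' i
  rw [List.getD_eq_getElem _ _ h1] at e3
  rw [List.getD_eq_getElem _ _ h2] at e4
  rw [← e3, ← e4, e2]

theorem SQ_sqf_list {β : Type} (uni : List (List K × β))
    (hi : ∀ x ∈ uni, Irreducible (mpol x.1)) (hn : (uni.map Prod.fst).Nodup) :
    Squarefree (uni.map (fun x => mpol x.1)).prod := by
  induction uni with
  | nil => simp
  | cons x uni ih =>
    rw [List.map_cons, List.prod_cons, squarefree_mul_iff]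
    rw [List.map_cons, List.nodup_cons] at hn
    refine ⟨?_, (hi x List.mem_cons_self).squarefree,
      ih (fun y hy => hi y (List.mem_cons_of_mem _ hy)) hn.2⟩
    rw [(hi x List.mem_cons_self).isRelPrime_iff_not_dvd]
    intro hd
    rw [(hi x List.mem_cons_self).prime.dvd_prod_iff] at hd
    obtain ⟨a, ha, hxa⟩ := hd
    obtain ⟨y, hy, rfl⟩ := List.mem_map.mp ha
    have h1 : Associated (mpol x.1) (mpol y.1) :=
      (hi x List.mem_cons_self).associated_of_dvd (hi y (List.mem_cons_of_mem _ hy)) hxa
    have h2 := eq_of_monic_of_associated (SQ_mpol_monic x.1) (SQ_mpol_monic y.1) h1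
    exact hn.1 (List.mem_map.mpr ⟨y, hy, (SQ_mpol_inj h2).symm⟩)

/-- product over the fibres of a map -/
theorem SQ_fiber {α M : Type} [CommMonoid M] (L : List α) (g : α → ℕ) (f : α → M)
    (D : Finset ℕ) (h : ∀ x ∈ L, g x ∈ D) :
    ∏ c ∈ D, ((L.filter (fun x => g x = c)).map f).prod = (L.map f).prod := by
  induction L with
  | nil => simp
  | cons x L ih =>
    have e : ∀ c, (((x :: L).filter (fun x => g x = c)).map f).prod =
        (if g x = c then f x else 1) * ((L.filter (fun x => g x = c)).map f).prod := by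
      intro c
      by_cases hc : g x = c
      · rw [List.filter_cons_of_pos (by simp [hc]), if_pos hc, List.map_cons, List.prod_cons]
      · rw [List.filter_cons_of_neg (by simp [hc]), if_neg hc, one_mul]
    simp only [e]
    rw [Finset.prod_mul_distrib, ih (fun y hy => h y (List.mem_cons_of_mem _ hy)),
      Finset.prod_ite_eq D (g x) (fun _ => f x), if_pos (h x List.mem_cons_self), List.map_cons,
      List.prod_cons]

theorem SQ_list_monic {R α : Type} [CommRing R] (L : List α) (f : α → R[X])
    (h : ∀ x ∈ L, (f x).Monic) : (L.map f).prod.Monic := by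
  induction L with
  | nil => simp
  | cons x L ih =>
    rw [List.map_cons, List.prod_cons]
    exact (h x List.mem_cons_self).mul (ih (fun y hy => h y (List.mem_cons_of_mem _ hy)))

theorem SQ_list_natDegree {R α : Type} [CommRing R] (L : List α) (f : α → R[X])
    (h : ∀ x ∈ L, (f x).Monic) :
    (L.map f).prod.natDegree = (L.map (fun x => (f x).natDegree)).sum := by
  induction L with
  | nil => simp
  | cons x L ih =>
    rw [List.map_cons, List.prod_cons, List.map_cons, List.sum_cons,
      (h x List.mem_cons_self).natDegree_mul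
        (SQ_list_monic L f (fun y hy => h y (List.mem_cons_of_mem _ hy))),
      ih (fun y hy => h y (List.mem_cons_of_mem _ hy))]

theorem SQ_pol_map {R R' : Type} [CommRing R] [CommRing R'] (φ : R →+* R') (l : List R) :
    (pol l).map φ = pol (l.map φ) := by
  induction l with
  | nil => simp [pol]
  | cons x l ih => simp [pol, ih]

theorem SQ_mpol_map {R R' : Type} [CommRing R] [CommRing R'] (φ : R →+* R') (l : List R) :
    (mpol l).map φ = mpol (l.map φ) := by
  unfold mpol
  rw [Polynomial.map_add, Polynomial.map_pow, map_X, SQ_pol_map, List.length_map]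

theorem SQ_mbiv_eq (A : List (List K)) : mbiv A = mpol (A.map pol) := by
  unfold mbiv mpol biv
  rw [List.length_map]

theorem SQ_hd0 (A : List (List K)) :
    (mbiv A).map (evalRingHom (0 : K)) = mpol (hd0 A) := by
  rw [SQ_mbiv_eq, SQ_mpol_map, List.map_map]
  unfold hd0
  congr 1
  apply List.map_congr_left
  intro r _
  rw [Function.comp_apply, coe_evalRingHom, ← coeff_zero_eq_eval_zero, SQ_coeff_pol]

end uni

theorem SQ_list_pow {α M : Type} [CommMonoid M] (L : List α) (f : α → M) (n : ℕ) :
    (L.map f).prod ^ n = (L.map (fun x => f x ^ n)).prod := by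
  induction L with
  | nil => simp
  | cons x L ih => rw [List.map_cons, List.prod_cons, mul_pow, ih, List.map_cons, List.prod_cons]

/-- the parts of the squarefree decomposition -/
theorem SQ_parts {K : Type} [Field K] (d : ℕ) (A : List (List K))
    (uni : List (List K × List Unit)) (T : K[X][X]) (N : ℕ) (hd : A.length = d)
    (hTD : TD (mbiv A) d) (hu : UniGood (hd0 A) uni) (hT : T.Monic) (h1 : T ∣ mbiv A)
    (h2 : mbiv A ∣ T ^ N) (hsq : Squarefree (T.map (evalRingHom (0 : K)))) :
    ∃ Sc : ℕ → K[X][X], (∀ c, (Sc c).Monic) ∧ (∀ c ∈ Finset.Icc 1 d, TD (Sc c) (Sc c).natDegree) ∧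
      (∀ c ∈ Finset.Icc 1 d, (Sc c).map (evalRingHom (0 : K)) =
        ((uni.filter (fun z => z.2.length = c)).map (fun z => mpol z.1)).prod) ∧
      ∏ c ∈ Finset.Icc 1 d, Sc c ^ c = mbiv A ∧
      Squarefree ((∏ c ∈ Finset.Icc 1 d, Sc c).map (evalRingHom (0 : K))) ∧
      (uni.map (fun z => z.2.length * z.1.length)).sum = d ∧
      (∀ z ∈ uni, 1 ≤ z.2.length ∧ 1 ≤ z.1.length) := by
  obtain ⟨hu1, hu2, hu3⟩ := hu
  have hAm : (mbiv A).Monic := by
    rw [SQ_mbiv_eq]
    exact SQ_mpol_monic _
  have hAd : (mbiv A).natDegree = d := by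
    rw [SQ_mbiv_eq, SQ_mpol_natDegree, List.length_map, hd]
  obtain ⟨L, hL1, hL2, hL3⟩ := SQ_decomp N T.natDegree T (mbiv A) le_rfl hT hAm hsq h1 h2
  have hsum : (uni.map (fun z => z.2.length * z.1.length)).sum = d := by
    have e1 := SQ_list_natDegree uni (fun x => mpol x.1 ^ x.2.length)
      (fun x _ => (SQ_mpol_monic x.1).pow _)
    rw [hu1, SQ_mpol_natDegree] at e1
    have e2 : (hd0 A).length = d := by
      unfold hd0
      rw [List.length_map, hd]
    rw [e2] at e1
    rw [e1]
    refine congrArg List.sum (List.map_congr_left (fun z _ => ?_))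
    rw [(SQ_mpol_monic z.1).natDegree_pow, SQ_mpol_natDegree]
  have hpos : ∀ z ∈ uni, 1 ≤ z.2.length ∧ 1 ≤ z.1.length := by
    intro z hz
    refine ⟨(hu2 z hz).2, ?_⟩
    rw [← SQ_mpol_natDegree z.1]
    exact (hu2 z hz).1.natDegree_pos
  have hLd : ∀ x ∈ L, x.2 ∈ Finset.Icc 1 d := by
    intro x hx
    rw [Finset.mem_Icc]
    refine ⟨(hL1 x hx).2.2, ?_⟩
    have e1 := SQ_list_natDegree L (fun x => x.1 ^ x.2) (fun x hx => (hL1 x hx).1.pow _)
    rw [hL3, hAd] at e1
    have e2 : (x.1 ^ x.2).natDegree ≤ d := by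
      rw [e1]
      exact List.le_sum_of_mem (List.mem_map.mpr ⟨x, hx, rfl⟩)
    rw [(hL1 x hx).1.natDegree_pow] at e2
    have e3 := (hL1 x hx).2.1
    nlinarith
  have hud : ∀ z ∈ uni, z.2.length ∈ Finset.Icc 1 d := by
    intro z hz
    rw [Finset.mem_Icc]
    refine ⟨(hpos z hz).1, ?_⟩
    have e2 : z.2.length * z.1.length ≤ d := by
      rw [← hsum]
      exact List.le_sum_of_mem (List.mem_map.mpr ⟨z, hz, rfl⟩)
    have e3 := (hpos z hz).2
    nlinarith
  have hF1 : ∏ c ∈ Finset.Icc 1 d, ((L.filter (fun x => x.2 = c)).map Prod.fst).prod = T := by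
    rw [SQ_fiber L Prod.snd Prod.fst (Finset.Icc 1 d) hLd, hL2]
  have hF2 : ∏ c ∈ Finset.Icc 1 d, ((L.filter (fun x => x.2 = c)).map Prod.fst).prod ^ c =
      mbiv A := by
    rw [← hL3, ← SQ_fiber L Prod.snd (fun x => x.1 ^ x.2) (Finset.Icc 1 d) hLd]
    refine Finset.prod_congr rfl (fun c _ => ?_)
    rw [SQ_list_pow]
    refine congrArg List.prod (List.map_congr_left (fun x hx => ?_))
    have := (List.mem_filter.mp hx).2
    simp only [decide_eq_true_eq] at this
    rw [this]
  have hG1 : ∏ c ∈ Finset.Icc 1 d, ((uni.filter (fun z => z.2.length = c)).map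
      (fun z => mpol z.1)).prod = (uni.map (fun z => mpol z.1)).prod :=
    SQ_fiber uni (fun z => z.2.length) (fun z => mpol z.1) (Finset.Icc 1 d) hud
  have hG2 : ∏ c ∈ Finset.Icc 1 d, ((uni.filter (fun z => z.2.length = c)).map
      (fun z => mpol z.1)).prod ^ c = mpol (hd0 A) := by
    rw [← hu1, ← SQ_fiber uni (fun z => z.2.length) (fun z => mpol z.1 ^ z.2.length)
      (Finset.Icc 1 d) hud]
    refine Finset.prod_congr rfl (fun c _ => ?_)
    rw [SQ_list_pow]
    refine congrArg List.prod (List.map_congr_left (fun x hx => ?_))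
    have := (List.mem_filter.mp hx).2
    simp only [decide_eq_true_eq] at this
    rw [this]
  refine ⟨fun c => ((L.filter (fun x => x.2 = c)).map Prod.fst).prod, ?_, ?_, ?_, ?_, ?_, hsum,
    hpos⟩
  · intro c
    exact SQ_list_monic _ _ (fun x hx => (hL1 x (List.mem_of_mem_filter hx)).1)
  · intro c hc
    have hcm : (((L.filter (fun x => x.2 = c)).map Prod.fst).prod).Monic :=
      SQ_list_monic _ _ (fun x hx => (hL1 x (List.mem_of_mem_filter hx)).1)
    have hdv : ((L.filter (fun x => x.2 = c)).map Prod.fst).prod ∣ mbiv A := by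
      rw [← hF2]
      refine (dvd_pow_self _ ?_).trans (Finset.dvd_prod_of_mem
        (fun c => ((L.filter (fun x => x.2 = c)).map Prod.fst).prod ^ c) hc)
      have := (Finset.mem_Icc.mp hc).1
      omega
    obtain ⟨g, hg⟩ := hdv
    have hgm : g.Monic := hcm.of_mul_monic_left (hg ▸ hAm)
    refine SQ_TD_factor hcm hgm ?_
    rw [← hcm.natDegree_mul hgm, ← hg, hAd]
    exact hTD
  · refine SQ_unique (Finset.Icc 1 d)
      (fun c => (((L.filter (fun x => x.2 = c)).map Prod.fst).prod).map (evalRingHom (0 : K)))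
      (fun c => ((uni.filter (fun z => z.2.length = c)).map (fun z => mpol z.1)).prod)
      (fun c hc => (Finset.mem_Icc.mp hc).1)
      (fun c => Monic.map _
        (SQ_list_monic _ _ (fun x hx => (hL1 x (List.mem_of_mem_filter hx)).1)))
      (fun c => SQ_list_monic _ _ (fun x _ => SQ_mpol_monic x.1)) ?_ ?_ ?_
    · rw [hG2, ← SQ_hd0, ← hF2, Polynomial.map_prod]
      refine Finset.prod_congr rfl (fun c _ => ?_)
      rw [Polynomial.map_pow]
    · have e := congrArg (fun f : K[X][X] => f.map (evalRingHom (0 : K))) hF1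
      simp only [Polynomial.map_prod] at e
      rw [e]
      exact hsq
    · rw [hG1]
      exact SQ_sqf_list uni (fun x hx => (hu2 x hx).1) hu3
  · exact hF2
  · rw [hF1]
    exact hsq


theorem SQ_ring (K : Type) [Field K] (s : ℕ) (hs : 1 ≤ s) :
    ∃ (R : Type) (_ : CommRing R) (_ : Algebra K R) (τ : R) (ε : R →+* K),
      τ ^ s = 0 ∧ Function.Surjective ε ∧ (∀ x, ε x = 0 → IsNilpotent x) ∧
      (∀ f : K[X], ε (aeval τ f) = f.eval 0) ∧ ∀ f : K[X], aeval τ f = 0 → X ^ s ∣ f := by
  have h0 : eval₂ (RingHom.id K) (0 : K) (X ^ s) = 0 := by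
    rw [eval₂_X_pow, zero_pow (by omega)]
  have hε : ∀ f : K[X], AdjoinRoot.lift (RingHom.id K) (0 : K) h0
      (aeval (AdjoinRoot.root (X ^ s : K[X])) f) = f.eval 0 := by
    intro f
    rw [AdjoinRoot.aeval_eq, AdjoinRoot.lift_mk, eval₂_id]
  refine ⟨AdjoinRoot (X ^ s : K[X]), inferInstance, inferInstance,
    AdjoinRoot.root (X ^ s : K[X]), AdjoinRoot.lift (RingHom.id K) (0 : K) h0, ?_, ?_, ?_, hε, ?_⟩
  · have h1 := AdjoinRoot.aeval_eq (f := (X ^ s : K[X])) (X ^ s)
    rw [AdjoinRoot.mk_self, map_pow, aeval_X] at h1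
    exact h1
  · intro a
    refine ⟨aeval (AdjoinRoot.root (X ^ s : K[X])) (C a), ?_⟩
    rw [hε, eval_C]
  · intro x hx
    obtain ⟨f, rfl⟩ := AdjoinRoot.mk_surjective x
    rw [← AdjoinRoot.aeval_eq, hε, ← coeff_zero_eq_eval_zero] at hx
    obtain ⟨g, rfl⟩ := X_dvd_iff.mpr hx
    refine ⟨s, ?_⟩
    rw [← map_pow, mul_pow, map_mul, AdjoinRoot.mk_self, zero_mul]
  · intro f hf
    rw [AdjoinRoot.aeval_eq] at hf
    exact AdjoinRoot.mk_eq_zero.mp hf

section hens
variable {K : Type} [Field K]

theorem SQ_mrp_eq {R : Type} [CommRing R] [Algebra K R] (τ : R) (l : List (List K)) :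
    mrp τ l = (mbiv l).map ((aeval τ : K[X] →ₐ[K] R) : K[X] →+* R) := by
  rw [SQ_mbiv_eq, SQ_mpol_map, List.map_map]
  unfold mrp rp mpol
  rw [List.length_map]
  rfl

theorem SQ_inj {R : Type} [CommRing R] [Algebra K R] (τ : R) (s : ℕ)
    (hker : ∀ f : K[X], aeval τ f = 0 → X ^ s ∣ f) (f g : K[X][X])
    (hf : ∀ i, (f.coeff i).degree < (s : ℕ)) (hg : ∀ i, (g.coeff i).degree < (s : ℕ))
    (h : f.map ((aeval τ : K[X] →ₐ[K] R) : K[X] →+* R) =
      g.map ((aeval τ : K[X] →ₐ[K] R) : K[X] →+* R)) : f = g := by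
  ext1 i
  have h1 := congrArg (fun p => p.coeff i) h
  simp only [coeff_map] at h1
  have h2 : aeval τ (f.coeff i - g.coeff i) = 0 := by
    rw [map_sub]
    exact sub_eq_zero.mpr h1
  have h3 := hker _ h2
  have h4 : (f.coeff i - g.coeff i).degree < (X ^ s : K[X]).degree := by
    rw [degree_X_pow]
    exact (degree_sub_le _ _).trans_lt (max_lt (hf i) (hg i))
  exact sub_eq_zero.mp (eq_zero_of_dvd_of_degree_lt h3 h4)

theorem SQ_coeff_mbiv (P : List (List K)) (i : ℕ) :
    (mbiv P).coeff i = (if i = P.length then 1 else 0) + pol (P.getD i []) := by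
  rw [SQ_mbiv_eq]
  unfold mpol
  rw [coeff_add, coeff_X_pow, SQ_coeff_pol, List.length_map]
  congr 1
  rw [List.getD_eq_getElem?_getD, List.getD_eq_getElem?_getD, List.getElem?_map]
  cases P[i]? <;> simp [pol]

theorem SQ_deg_mbiv (P : List (List K)) (s : ℕ) (hs : 1 ≤ s) (h : Sh s P) (i : ℕ) :
    ((mbiv P).coeff i).degree < (s : ℕ) := by
  rw [SQ_coeff_mbiv]
  refine (degree_add_le _ _).trans_lt (max_lt ?_ ?_)
  · split_ifs
    · rw [degree_one]
      exact_mod_cast hs
    · rw [degree_zero]
      exact WithBot.bot_lt_coe s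
  · rcases lt_or_ge i P.length with hi | hi
    · rw [List.getD_eq_getElem _ _ hi, ← h _ (List.getElem_mem hi)]
      exact SQ_degree_pol _
    · rw [List.getD_eq_default _ _ hi]
      show (0 : K[X]).degree < _
      rw [degree_zero]
      exact WithBot.bot_lt_coe s

theorem SQ_deg_TD (f : K[X][X]) (d s : ℕ) (hs : d < s) (h : TD f d) (i : ℕ) :
    (f.coeff i).degree < (s : ℕ) := by
  rw [degree_lt_iff_coeff_zero]
  intro m hm
  exact h i m (by omega)

theorem SQ_hensel (h4 : StmtUniq) (d s : ℕ) (hs : d < s) (A : List (List K)) (Sc : ℕ → K[X][X])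
    (L : List (ℕ × List (List K))) (cs : List ℕ)
    (hLc : (L.map Prod.fst).Perm cs) (hcs : cs.Nodup)
    (hprod : (cs.map (fun c => Sc c ^ c)).prod = mbiv A)
    (hSh : ∀ x ∈ L, Sh s x.2) (hTD : ∀ c ∈ cs, TD (Sc c ^ c) d) (hmon : ∀ c, (Sc c).Monic)
    (hhd : ∀ x ∈ L, mpol (hd0 x.2) = ((Sc x.1).map (evalRingHom (0 : K))) ^ x.1)
    (hcop : ∀ c ∈ cs, ∀ c' ∈ cs, c ≠ c' →
      IsCoprime ((Sc c).map (evalRingHom (0 : K))) ((Sc c').map (evalRingHom (0 : K))))
    (hR : ∀ (R : Type) [CommRing R] [Algebra K R] (τ : R), τ ^ s = 0 →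
      (L.map (fun x => mrp τ x.2)).prod = mrp τ A) :
    ∀ x ∈ L, mbiv x.2 = Sc x.1 ^ x.1 := by
  obtain ⟨R, _, _, τ, ε, hτ, hεs, hεn, hε, hker⟩ := SQ_ring K s (by omega)
  have hmb : ∀ P : List (List K), (mbiv P).Monic := fun P => by
    rw [SQ_mbiv_eq]
    exact SQ_mpol_monic _
  have hcomp : ∀ f : K[X][X],
      (f.map ((aeval τ : K[X] →ₐ[K] R) : K[X] →+* R)).map ε = f.map (evalRingHom (0 : K)) := by
    intro f
    have e : ε.comp ((aeval τ : K[X] →ₐ[K] R) : K[X] →+* R) = evalRingHom (0 : K) :=
      RingHom.ext (fun a => hε a)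
    rw [Polynomial.map_map, e]
  have key := h4 R K ε hεs hεn L.length (fun i => mrp τ (L[i.1]).2)
    (fun i => (Sc (L[i.1]).1 ^ (L[i.1]).1).map ((aeval τ : K[X] →ₐ[K] R) : K[X] →+* R))
    (fun i => by
      rw [SQ_mrp_eq]
      exact (hmb _).map _)
    (fun i => ((hmon _).pow _).map _)
    (by
      rw [Fin.prod_univ_fun_getElem L (fun x => mrp τ x.2), hR R τ hτ,
        Fin.prod_univ_fun_getElem L (fun x => (Sc x.1 ^ x.1).map
          ((aeval τ : K[X] →ₐ[K] R) : K[X] →+* R))]
      have e1 : L.map (fun x => (Sc x.1 ^ x.1).map ((aeval τ : K[X] →ₐ[K] R) : K[X] →+* R)) =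
          (L.map Prod.fst).map (fun c => (Sc c ^ c).map
            ((aeval τ : K[X] →ₐ[K] R) : K[X] →+* R)) := by
        rw [List.map_map]
        rfl
      rw [e1, (hLc.map _).prod_eq, SQ_mrp_eq, ← hprod]
      have e2 : ∀ l : List ℕ, (l.map (fun c => (Sc c ^ c).map
          ((aeval τ : K[X] →ₐ[K] R) : K[X] →+* R))).prod =
          ((l.map (fun c => Sc c ^ c)).prod).map ((aeval τ : K[X] →ₐ[K] R) : K[X] →+* R) := by
        intro l
        induction l with
        | nil => simp
        | cons c l ih =>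
          rw [List.map_cons, List.prod_cons, ih, List.map_cons, List.prod_cons,
            Polynomial.map_mul]
      rw [e2])
    (fun i => by
      show (mrp τ (L[i.1]).2).map ε = _
      rw [SQ_mrp_eq, hcomp, SQ_hd0, hcomp, hhd _ (List.getElem_mem _), Polynomial.map_pow])
    (fun i j hij => by
      show IsCoprime ((mrp τ (L[i.1]).2).map ε) ((mrp τ (L[j.1]).2).map ε)
      rw [SQ_mrp_eq, SQ_mrp_eq, hcomp, hcomp, SQ_hd0, SQ_hd0, hhd _ (List.getElem_mem _),
        hhd _ (List.getElem_mem _)]
      apply IsCoprime.pow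
      have hmem : ∀ i : Fin L.length, (L[i.1]).1 ∈ cs := fun i =>
        hLc.mem_iff.mp (List.mem_map.mpr ⟨L[i.1], List.getElem_mem _, rfl⟩)
      refine hcop _ (hmem i) _ (hmem j) ?_
      intro he
      have hnd : (L.map Prod.fst).Nodup := hLc.nodup_iff.mpr hcs
      have h5 := (List.Nodup.getElem_inj_iff hnd (i := i) (j := j)
        (hi := by simp) (hj := by simp)).mp (by simpa using he)
      exact hij (Fin.ext h5))
  intro x hx
  obtain ⟨i, hi, rfl⟩ := List.getElem_of_mem hx
  have h5 := congrFun key ⟨i, hi⟩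
  simp only at h5
  rw [SQ_mrp_eq] at h5
  refine SQ_inj τ s hker _ _ (SQ_deg_mbiv _ s (by omega) (hSh _ (List.getElem_mem hi)))
    (SQ_deg_TD _ d s hs (hTD _ ?_)) h5
  exact hLc.mem_iff.mp (List.mem_map.mpr ⟨L[i], List.getElem_mem _, rfl⟩)

theorem SQ_cs_mem {β : Type} {d : ℕ} {uni : List (β × List Unit)} {c : ℕ}
    (h : c ∈ SQ_cs d uni) : c ∈ Finset.Icc 1 d ∧ uni.filter (fun z => z.2.length = c) ≠ [] := by
  unfold SQ_cs at h
  obtain ⟨h1, h2⟩ := List.mem_filter.mp h
  obtain ⟨i, hi, rfl⟩ := List.mem_map.mp h1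
  have h3 := List.mem_range.mp hi
  refine ⟨by rw [Finset.mem_Icc]; omega, by simpa using h2⟩

theorem SQ_cs_nodup {β : Type} (d : ℕ) (uni : List (β × List Unit)) :
    (SQ_cs d uni).Nodup := by
  unfold SQ_cs
  apply List.Nodup.filter
  exact List.nodup_range.map (fun a b h => by simpa using h)

theorem SQ_cs_prod {β M : Type} [CommMonoid M] (d : ℕ) (uni : List (β × List Unit)) (f : ℕ → M)
    (h : ∀ c ∈ Finset.Icc 1 d, uni.filter (fun z => z.2.length = c) = [] → f c = 1) :
    ((SQ_cs d uni).map f).prod = ∏ c ∈ Finset.Icc 1 d, f c := by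
  have h1 : ∀ (p : ℕ → Bool) (l : List ℕ), (∀ c ∈ l, p c = false → f c = 1) →
      ((l.filter p).map f).prod = (l.map f).prod := by
    intro p l hl
    induction l with
    | nil => simp
    | cons c l ih =>
      have ih' := ih (fun c hc => hl c (List.mem_cons_of_mem _ hc))
      by_cases hc : p c = true
      · rw [List.filter_cons_of_pos hc, List.map_cons, List.prod_cons, ih', List.map_cons,
          List.prod_cons]
      · rw [List.filter_cons_of_neg hc, ih', List.map_cons, List.prod_cons,
          hl c List.mem_cons_self (by simpa using hc), one_mul]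
  have h2 : ∀ n : ℕ, ∏ c ∈ Finset.Icc 1 n, f c =
      (((List.range n).map (fun i => i + 1)).map f).prod := by
    intro n
    induction n with
    | zero => simp
    | succ n ih =>
      rw [Finset.prod_Icc_succ_top (by omega), ih, List.range_succ, List.map_append,
        List.map_append, List.prod_append]
      simp
  unfold SQ_cs
  rw [h2, h1]
  intro c hc hp
  obtain ⟨i, hi, rfl⟩ := List.mem_map.mp hc
  have h3 := List.mem_range.mp hi
  apply h _ (by rw [Finset.mem_Icc]; omega)
  simpa using hp

theorem SQ_coprime_of_sqf {R : Type} [CommRing R] [IsDomain R] [IsPrincipalIdealRing R]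
    (D : Finset ℕ) (f : ℕ → R)
    (h : Squarefree (∏ c ∈ D, f c)) (c c' : ℕ) (hc : c ∈ D) (hc' : c' ∈ D) (hne : c ≠ c') :
    IsCoprime (f c) (f c') := by
  have h1 : f c * f c' ∣ ∏ c ∈ D, f c := by
    rw [← Finset.prod_pair hne]
    apply Finset.prod_dvd_prod_of_subset
    intro x hx
    rcases Finset.mem_insert.mp hx with rfl | hx
    · exact hc
    · rw [Finset.mem_singleton.mp hx]
      exact hc'
  have h2 := h.squarefree_of_dvd h1
  rw [squarefree_mul_iff] at h2
  exact h2.1.isCoprime

theorem SQ_pol_fit (n : ℕ) (l : List K) (h : ∀ j, n ≤ j → (pol l).coeff j = 0) :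
    pol (fit n (0 : K) l) = pol l := by
  have key : ∀ (n : ℕ) (l : List K) (j : ℕ),
      (pol (fit n (0 : K) l)).coeff j = if j < n then (pol l).coeff j else 0 := by
    intro n
    induction n with
    | zero => intro l j; simp [fit, pol]
    | succ n ih =>
      intro l j
      cases l with
      | nil =>
        cases j with
        | zero => simp [fit, pol]
        | succ j =>
          have := ih [] j
          simp [fit, pol] at this ⊢
          exact this
      | cons x l =>
        cases j with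
        | zero => simp [fit, pol]
        | succ j =>
          have := ih l j
          simp only [fit, pol, coeff_add, coeff_C_succ, coeff_X_mul, zero_add] at this ⊢
          rw [this]
          by_cases h1 : j < n
          · rw [if_pos h1, if_pos (by omega)]
          · rw [if_neg h1, if_neg (by omega)]
  ext j
  rw [key]
  split_ifs with h1
  · rfl
  · exact (h j (by omega)).symm

theorem SQ_mbiv_fit (R : List (List K)) (hTD : TD (mbiv R) R.length) :
    mbiv (R.map (fit (R.length + 1) (0 : K))) = mbiv R ∧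
      Sh (R.length + 1) (R.map (fit (R.length + 1) (0 : K))) := by
  constructor
  · have e : (R.map (fit (R.length + 1) (0 : K))).map pol = R.map pol := by
      rw [List.map_map]
      apply List.map_congr_left
      intro r hr
      rw [Function.comp_apply]
      apply SQ_pol_fit
      intro j hj
      obtain ⟨i, hi, rfl⟩ := List.getElem_of_mem hr
      have h1 := hTD i j (by omega)
      rw [SQ_coeff_mbiv, if_neg (by omega), zero_add, List.getD_eq_getElem _ _ hi] at h1
      exact h1
    rw [SQ_mbiv_eq, SQ_mbiv_eq, e]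
  · intro r hr
    obtain ⟨r', _, rfl⟩ := List.mem_map.mp hr
    exact length_fit _ _ _

end hens


/-- the data of the decomposition -/
structure SQ_Data {K : Type} [Field K] (d : ℕ) (A : List (List K))
    (uni : List (List K × List Unit)) (Sc : ℕ → K[X][X]) : Prop where
  mon : ∀ c, (Sc c).Monic
  td : ∀ c ∈ Finset.Icc 1 d, TD (Sc c) (Sc c).natDegree
  red : ∀ c ∈ Finset.Icc 1 d, (Sc c).map (evalRingHom (0 : K)) =
    ((uni.filter (fun z => z.2.length = c)).map (fun z => mpol z.1)).prod
  prod : ∏ c ∈ Finset.Icc 1 d, Sc c ^ c = mbiv A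
  sqf : Squarefree ((∏ c ∈ Finset.Icc 1 d, Sc c).map (evalRingHom (0 : K)))
  sum : (uni.map (fun z => z.2.length * z.1.length)).sum = d
  pos : ∀ z ∈ uni, 1 ≤ z.2.length ∧ 1 ≤ z.1.length

section asm
variable {K : Type} [Field K] [DecidableEq K]

theorem SQ_gr_facts (q : Pr [] (.prod TB (.prod Po Po)) Po)
    (tb : List (List K) × List (List K))
    (hq : ∀ a b : List K, pol (q.val () (tb, (a, b)) : List K) = pol a * pol b ∧
      List.length (q.val () (tb, (a, b)) : List K) = a.length + b.length) (c : ℕ)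
    (uni : List (List K × List Unit)) :
    (SQ_gr q tb uni (un c)).1 =
      ((uni.filter (fun z => z.2.length = c)).map Prod.fst).reverse ∧
    mpol (SQ_gr q tb uni (un c)).2 =
      ((uni.filter (fun z => z.2.length = c)).map (fun z => mpol z.1)).prod ^ c ∧
    (SQ_gr q tb uni (un c)).2.length =
      ((uni.filter (fun z => z.2.length = c)).map (fun z => z.2.length * z.1.length)).sum := by
  obtain ⟨h1, h2, h3⟩ := SQ_grs_spec q tb hq c uni ([], [])
  refine ⟨?_, ?_, ?_⟩
  · unfold SQ_gr
    rw [h1, List.append_nil]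
  · unfold SQ_gr
    rw [h2]
    have e : mpol ([] : List K) = 1 := by simp [mpol, pol]
    rw [e, one_mul, SQ_list_pow]
    refine congrArg List.prod (List.map_congr_left (fun x hx => ?_))
    have := (List.mem_filter.mp hx).2
    simp only [decide_eq_true_eq] at this
    rw [this]
  · unfold SQ_gr
    rw [h3]
    simp

variable {d : ℕ} {A : List (List K)} {uni : List (List K × List Unit)} {Sc : ℕ → K[X][X]}

omit [DecidableEq K] in
theorem SQ_Data.one (D : SQ_Data d A uni Sc) (c : ℕ) (hc : c ∈ Finset.Icc 1 d)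
    (h : uni.filter (fun z => z.2.length = c) = []) : Sc c = 1 := by
  have h1 := D.red c hc
  rw [h, List.map_nil, List.prod_nil] at h1
  have h2 := (D.mon c).natDegree_map (evalRingHom (0 : K))
  rw [h1, natDegree_one] at h2
  exact (D.mon c).natDegree_eq_zero.mp h2.symm

omit [DecidableEq K] in
theorem SQ_Data.deg (D : SQ_Data d A uni Sc) (c : ℕ) (hc : c ∈ Finset.Icc 1 d)
    (h : uni.filter (fun z => z.2.length = c) ≠ []) : 1 ≤ (Sc c).natDegree := by
  have h1 := D.red c hc
  have h2 := (D.mon c).natDegree_map (evalRingHom (0 : K))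
  rw [h1, SQ_list_natDegree _ _ (fun x _ => SQ_mpol_monic x.1)] at h2
  rw [← h2]
  obtain ⟨z, l, hz⟩ := List.exists_cons_of_ne_nil h
  have h3 : z ∈ uni := by
    have : z ∈ uni.filter (fun z => z.2.length = c) := by rw [hz]; exact List.mem_cons_self
    exact List.mem_of_mem_filter this
  rw [hz, List.map_cons, List.sum_cons, SQ_mpol_natDegree]
  have := (D.pos z h3).2
  omega

omit [DecidableEq K] in
theorem SQ_Data.gprod (D : SQ_Data d A uni Sc) :
    ((SQ_cs d uni).map (fun c => ((Sc c).map (evalRingHom (0 : K))) ^ c)).prod =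
      mpol (hd0 A) := by
  rw [SQ_cs_prod d uni (fun c => ((Sc c).map (evalRingHom (0 : K))) ^ c)
    (fun c hc h => by rw [D.one c hc h, Polynomial.map_one, one_pow]), ← SQ_hd0, ← D.prod,
    Polynomial.map_prod]
  refine Finset.prod_congr rfl (fun c _ => ?_)
  rw [Polynomial.map_pow]

omit [DecidableEq K] in
theorem SQ_Data.cop (D : SQ_Data d A uni Sc) (c c' : ℕ) (hc : c ∈ Finset.Icc 1 d)
    (hc' : c' ∈ Finset.Icc 1 d) (hne : c ≠ c') :
    IsCoprime ((Sc c).map (evalRingHom (0 : K))) ((Sc c').map (evalRingHom (0 : K))) := by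
  have h := D.sqf
  rw [Polynomial.map_prod] at h
  exact SQ_coprime_of_sqf (Finset.Icc 1 d) (fun c => (Sc c).map (evalRingHom (0 : K))) h c c'
    hc hc' hne

theorem SQ_pre (q : Pr [] (.prod TB (.prod Po Po)) Po)
    (tb : List (List K) × List (List K))
    (hq : ∀ a b : List K, pol (q.val () (tb, (a, b)) : List K) = pol a * pol b ∧
      List.length (q.val () (tb, (a, b)) : List K) = a.length + b.length)
    (D : SQ_Data d A uni Sc) (hd : A.length = d) (hd1 : 1 ≤ d) :
    List.foldl (SQ_gss q tb uni) [] (SQ_UL d) ≠ [] ∧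
    (∀ g ∈ List.foldl (SQ_gss q tb uni) [] (SQ_UL d), 1 ≤ g.2.length) ∧
    (List.foldl (SQ_gss q tb uni) [] (SQ_UL d)).Pairwise
      (fun g g' => IsCoprime (mpol g.2) (mpol g'.2)) ∧
    ((List.foldl (SQ_gss q tb uni) [] (SQ_UL d)).map (fun g => mpol g.2)).prod =
      mpol (hd0 A) := by
  rw [SQ_gs_eq q tb hq d uni]
  have hg : ∀ c ∈ SQ_cs d uni, mpol (SQ_gr q tb uni (un c)).2 =
      ((Sc c).map (evalRingHom (0 : K))) ^ c := by
    intro c hc
    rw [(SQ_gr_facts q tb hq c uni).2.1, D.red c (SQ_cs_mem hc).1]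
  have h4 : (((SQ_cs d uni).map (fun c => ((un c, (SQ_gr q tb uni (un c)).1),
      (SQ_gr q tb uni (un c)).2))).map (fun g => mpol g.2)).prod = mpol (hd0 A) := by
    rw [List.map_map, ← D.gprod]
    exact congrArg List.prod (List.map_congr_left (fun c hc => hg c hc))
  refine ⟨?_, ?_, ?_, h4⟩
  · intro h
    rw [h, List.map_nil, List.prod_nil] at h4
    have h5 := SQ_mpol_natDegree (hd0 A)
    rw [← h4, natDegree_one] at h5
    unfold hd0 at h5
    rw [List.length_map] at h5
    omega
  · intro g hgm
    obtain ⟨c, hc, rfl⟩ := List.mem_map.mp hgm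
    show 1 ≤ (SQ_gr q tb uni (un c)).2.length
    rw [(SQ_gr_facts q tb hq c uni).2.2]
    obtain ⟨z, l, hz⟩ := List.exists_cons_of_ne_nil (SQ_cs_mem hc).2
    have h3 : z ∈ uni := by
      have : z ∈ uni.filter (fun z => z.2.length = c) := by rw [hz]; exact List.mem_cons_self
      exact List.mem_of_mem_filter this
    rw [hz, List.map_cons, List.sum_cons]
    have h5 := Nat.mul_le_mul (D.pos z h3).1 (D.pos z h3).2
    omega
  · rw [List.pairwise_map]
    refine (SQ_cs_nodup d uni).pairwise_of_forall_ne (fun c hc c' hc' hne => ?_)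
    show IsCoprime (mpol (SQ_gr q tb uni (un c)).2) (mpol (SQ_gr q tb uni (un c')).2)
    rw [hg c hc, hg c' hc']
    exact (D.cop c c' (SQ_cs_mem hc).1 (SQ_cs_mem hc').1 hne).pow

theorem SQ_post (h4 : StmtUniq) (q : Pr [] (.prod TB (.prod Po Po)) Po)
    (tb : List (List K) × List (List K))
    (hq : ∀ a b : List K, pol (q.val () (tb, (a, b)) : List K) = pol a * pol b ∧
      List.length (q.val () (tb, (a, b)) : List K) = a.length + b.length)
    (D : SQ_Data d A uni Sc) (hd : A.length = d)
    (out : List ((List Unit × List (List K)) × (List (List K) × (List (List K) × List (List K)))))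
    (hperm : (out.map (fun o => (o.1, hd0 o.2.1))).Perm
      (List.foldl (SQ_gss q tb uni) [] (SQ_UL d)))
    (hSh : ∀ o ∈ out, Sh (d + 1) o.2.1)
    (hR : ∀ (R : Type) [CommRing R] [Algebra K R] (τ : R), τ ^ (d + 1) = 0 →
      (out.map (fun o => mrp τ o.2.1)).prod = mrp τ A) :
    (out.map (fun o => o.1.1.length)).Perm (SQ_cs d uni) ∧
    (∀ o ∈ out, o.1.1.length ∈ SQ_cs d uni ∧ o.1.1 = un o.1.1.length ∧
      o.1.2 = ((uni.filter (fun z => z.2.length = o.1.1.length)).map Prod.fst).reverse ∧
      mbiv o.2.1 = Sc o.1.1.length ^ o.1.1.length ∧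
      o.2.1.length = (Sc o.1.1.length).natDegree * o.1.1.length) ∧
    (out.map (fun o => o.2.1.length)).sum = d := by
  rw [SQ_gs_eq q tb hq d uni] at hperm
  have hun : ∀ c : ℕ, (un c).length = c := fun c => by simp [un]
  have h1 : (out.map (fun o => o.1.1.length)).Perm (SQ_cs d uni) := by
    have e := hperm.map (fun g => g.1.1.length)
    rw [List.map_map, List.map_map] at e
    have e2 : (SQ_cs d uni).map ((fun g : (List Unit × List (List K)) × List K => g.1.1.length) ∘
        (fun c => ((un c, (SQ_gr q tb uni (un c)).1), (SQ_gr q tb uni (un c)).2))) =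
        SQ_cs d uni := by
      rw [show ((fun g : (List Unit × List (List K)) × List K => g.1.1.length) ∘
        (fun c => ((un c, (SQ_gr q tb uni (un c)).1), (SQ_gr q tb uni (un c)).2))) = id from
        funext (fun c => hun c), List.map_id]
    rw [e2] at e
    exact e
  have h2 : ∀ o ∈ out, o.1.1.length ∈ SQ_cs d uni ∧ o.1.1 = un o.1.1.length ∧
      o.1.2 = ((uni.filter (fun z => z.2.length = o.1.1.length)).map Prod.fst).reverse ∧
      mpol (hd0 o.2.1) = ((Sc o.1.1.length).map (evalRingHom (0 : K))) ^ o.1.1.length := by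
    intro o ho
    have e : (o.1, hd0 o.2.1) ∈ (SQ_cs d uni).map (fun c => ((un c, (SQ_gr q tb uni (un c)).1),
        (SQ_gr q tb uni (un c)).2)) :=
      hperm.mem_iff.mp (List.mem_map.mpr ⟨o, ho, rfl⟩)
    obtain ⟨c, hc, hce⟩ := List.mem_map.mp e
    have e1 : o.1 = (un c, (SQ_gr q tb uni (un c)).1) := (congrArg Prod.fst hce).symm
    have e2 : hd0 o.2.1 = (SQ_gr q tb uni (un c)).2 := (congrArg Prod.snd hce).symm
    have e3 : o.1.1.length = c := by rw [e1]; exact hun c
    rw [e3, e2, e1]
    refine ⟨hc, rfl, (SQ_gr_facts q tb hq c uni).1, ?_⟩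
    rw [(SQ_gr_facts q tb hq c uni).2.1, D.red c (SQ_cs_mem hc).1]
  have hmbm : ∀ P : List (List K), (mbiv P).Monic := fun P => by
    rw [SQ_mbiv_eq]
    exact SQ_mpol_monic _
  have hmbd : ∀ P : List (List K), (mbiv P).natDegree = P.length := fun P => by
    rw [SQ_mbiv_eq, SQ_mpol_natDegree, List.length_map]
  have hcsprod : ((SQ_cs d uni).map (fun c => Sc c ^ c)).prod = mbiv A := by
    rw [SQ_cs_prod d uni (fun c => Sc c ^ c)
      (fun c hc h => by rw [D.one c hc h, one_pow]), D.prod]
  have hTDc : ∀ c ∈ SQ_cs d uni, TD (Sc c ^ c) d := by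
    intro c hc
    have hc1 := (SQ_cs_mem hc).1
    have e1 := SQ_TD_pow (D.td c hc1) c
    have e2 : c * (Sc c).natDegree ≤ d := by
      rw [← (D.mon c).natDegree_pow]
      have e3 : (Sc c ^ c).natDegree ≤ (mbiv A).natDegree := by
        refine natDegree_le_of_dvd ?_ (hmbm A).ne_zero
        rw [← D.prod]
        exact Finset.dvd_prod_of_mem (fun c => Sc c ^ c) hc1
      rw [hmbd, hd] at e3
      exact e3
    intro i j hij
    exact e1 i j (by omega)
  have h3 := SQ_hensel h4 d (d + 1) (by omega) A Sc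
    (out.map (fun o => (o.1.1.length, o.2.1))) (SQ_cs d uni)
    (by
      rw [List.map_map]
      exact h1)
    (SQ_cs_nodup d uni) hcsprod
    (by
      intro x hx
      obtain ⟨o, ho, rfl⟩ := List.mem_map.mp hx
      exact hSh o ho)
    hTDc D.mon
    (by
      intro x hx
      obtain ⟨o, ho, rfl⟩ := List.mem_map.mp hx
      exact (h2 o ho).2.2.2)
    (fun c hc c' hc' hne => D.cop c c' (SQ_cs_mem hc).1 (SQ_cs_mem hc').1 hne)
    (by
      intro R _ _ τ hτ
      rw [List.map_map, ← hR R τ hτ]
      rfl)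
  have h5 : ∀ o ∈ out, mbiv o.2.1 = Sc o.1.1.length ^ o.1.1.length := fun o ho =>
    h3 (o.1.1.length, o.2.1) (List.mem_map.mpr ⟨o, ho, rfl⟩)
  refine ⟨h1, ?_, ?_⟩
  · intro o ho
    obtain ⟨e1, e2, e3, _⟩ := h2 o ho
    refine ⟨e1, e2, e3, h5 o ho, ?_⟩
    rw [← hmbd, h5 o ho, (D.mon _).natDegree_pow, mul_comm]
  · have e1 : (out.map (fun o => mbiv o.2.1)).prod = mbiv A := by
      rw [← hcsprod, ← (h1.map (fun c => Sc c ^ c)).prod_eq, List.map_map]
      exact congrArg List.prod (List.map_congr_left (fun o ho => h5 o ho))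
    have e2 := SQ_list_natDegree out (fun o => mbiv o.2.1) (fun o _ => hmbm _)
    rw [e1, hmbd, hd] at e2
    rw [e2]
    exact congrArg List.sum (List.map_congr_left (fun o _ => (hmbd _).symm))

end asm

theorem SQ_good {K : Type} [Field K] [DecidableEq K] {d : ℕ} {A : List (List K)}
    {uni : List (List K × List Unit)} {Sc : ℕ → K[X][X]}
    (D : SQ_Data d A uni Sc) (hu : UniGood (hd0 A) uni)
    (out : List ((List Unit × List (List K)) × (List (List K) × (List (List K) × List (List K)))))
    (h1 : (out.map (fun o => o.1.1.length)).Perm (SQ_cs d uni))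
    (h2 : ∀ o ∈ out, o.1.1.length ∈ SQ_cs d uni ∧ o.1.1 = un o.1.1.length ∧
      o.1.2 = ((uni.filter (fun z => z.2.length = o.1.1.length)).map Prod.fst).reverse)
    (r : Pr [] (.prod TB (.prod (.prod Po Un) (.prod Un Ma))) Ma)
    (tb : List (List K) × List (List K)) (bq : List K) (ue : List Unit)
    (hr : ∀ o ∈ out,
      mbiv (r.val () (tb, ((bq, ue), (o.1.1, o.2.1))) : List (List K)) = Sc o.1.1.length ∧
      List.length (r.val () (tb, ((bq, ue), (o.1.1, o.2.1))) : List (List K)) =
        (Sc o.1.1.length).natDegree) :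
    SqGood A (out.map (SQ_ro r tb bq ue)) := by
  obtain ⟨hu1, hu2, hu3⟩ := hu
  have hfit : ∀ o ∈ out, mbiv (SQ_ro r tb bq ue o).2.1 = Sc o.1.1.length ∧
      (SQ_ro r tb bq ue o).2.1.length = (Sc o.1.1.length).natDegree ∧
      Sh ((Sc o.1.1.length).natDegree + 1) (SQ_ro r tb bq ue o).2.1 := by
    intro o ho
    obtain ⟨e1, e2⟩ := hr o ho
    have hTD := D.td _ (SQ_cs_mem (h2 o ho).1).1
    obtain ⟨R, hR⟩ : ∃ R : List (List K), R =
      (r.val () (tb, ((bq, ue), (o.1.1, o.2.1))) : List (List K)) := ⟨_, rfl⟩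
    rw [← hR] at e1 e2
    rw [← e2, ← e1] at hTD
    obtain ⟨e3, e4⟩ := SQ_mbiv_fit R hTD
    unfold SQ_ro
    rw [← hR]
    refine ⟨e3.trans e1, ?_, ?_⟩
    · show (R.map _).length = _
      rw [List.length_map, e2]
    · rw [← e2]
      exact e4
  refine ⟨?_, ?_, ?_⟩
  · rw [List.map_map]
    have e1 : (out.map ((fun o : List Unit × (List (List K) × List (List K)) =>
        mbiv o.2.1 ^ o.1.length) ∘ SQ_ro r tb bq ue)).prod =
        ((out.map (fun o => o.1.1.length)).map (fun c => Sc c ^ c)).prod := by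
      rw [List.map_map]
      refine congrArg List.prod (List.map_congr_left (fun o ho => ?_))
      show mbiv (SQ_ro r tb bq ue o).2.1 ^ o.1.1.length = _
      rw [(hfit o ho).1]
      rfl
    rw [e1, (h1.map _).prod_eq, SQ_cs_prod d uni (fun c => Sc c ^ c)
      (fun c hc h => by rw [D.one c hc h, one_pow]), D.prod]
  · intro o' ho'
    obtain ⟨o, ho, rfl⟩ := List.mem_map.mp ho'
    obtain ⟨e1, e2, e3⟩ := hfit o ho
    obtain ⟨e4, e5, e6⟩ := h2 o ho
    have hc := (SQ_cs_mem e4).1
    have e7 : (SQ_ro r tb bq ue o).2.2 =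
        ((uni.filter (fun z => z.2.length = o.1.1.length)).map Prod.fst).reverse := e6
    have e8 : (SQ_ro r tb bq ue o).1 = o.1.1 := rfl
    rw [e1, e2, e7, e8]
    refine ⟨(Finset.mem_Icc.mp hc).1, D.deg _ hc (SQ_cs_mem e4).2, e3, D.td _ hc, ?_, ?_, ?_⟩
    · intro h hh
      rw [List.mem_reverse] at hh
      obtain ⟨z, hz, rfl⟩ := List.mem_map.mp hh
      exact (hu2 z (List.mem_of_mem_filter hz)).1
    · rw [List.nodup_reverse]
      exact hu3.sublist (List.Sublist.map _ List.filter_sublist)
    · rw [List.map_reverse, List.prod_reverse, List.map_map, ← SQ_hd0, e1, D.red _ hc]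
      rfl
  · have e1 : ((out.map (SQ_ro r tb bq ue)).map
        (fun o : List Unit × (List (List K) × List (List K)) => mbiv o.2.1)).prod =
        ∏ c ∈ Finset.Icc 1 d, Sc c := by
      rw [← SQ_cs_prod d uni (fun c => Sc c) (fun c hc h => D.one c hc h),
        ← (h1.map (fun c => Sc c)).prod_eq, List.map_map, List.map_map]
      exact congrArg List.prod (List.map_congr_left (fun o ho => (hfit o ho).1))
    rw [e1]
    exact D.sqf


theorem SQ_cost_P {F : Type} [Field F] [DecidableEq F] (q : Pr [] (.prod TB (.prod Po Po)) Po)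
    (t : Pr [] (.prod TB (.prod Un (.prod (.list (.prod (.prod Un Ma) Po))
      (.prod Ma (.prod Ma Ma))))) (.list (.prod (.prod Un Ma) (.prod Ma (.prod Ma Ma)))))
    (r : Pr [] (.prod TB (.prod (.prod Po Un) (.prod Un Ma))) Ma)
    (tb : List (List F) × List (List F)) (bq : List F) (ue : List Unit)
    (A : List (List F)) (uni : List (List F × List Unit))
    (G : List ((List Unit × List (List F)) × List F))
    (hG : G = List.foldl (SQ_gss q tb uni) [] (SQ_UL A.length)) :
    (SQ_P q t r).cost () () (tb, ((bq, ue), (A, uni))) ≤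
      74 * A.length + (SQ_gsP q).cost () () ((tb, uni), SQ_UL A.length) +
      t.cost () () (tb, (un (A.length + 1), (G, (A, (A, A))))) +
      (mapP (SQ_roS r)).cost () () ((tb, (bq, ue)),
        t.val () (tb, (un (A.length + 1), (G, (A, (A, A)))))) + 150 := by
  have e1 : ∀ n : ℕ, (() :: un n) = un (n + 1) := fun n => by
    simp [un, List.replicate_succ]
  have c1 := SQ_cost_unP (F := F) (s := []) (a := Po) () () A
  have c2 := SQ_cost_ulP (F := F) (s := []) (a := Po) () () A
  rw [hG, ← SQ_val_gsP]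
  unfold SQ_P
  simp only [cost_comp, cost_pair, cost_fst, cost_snd, cost_cons, cost_star, val_comp, val_pair,
    val_fst, val_snd, val_cons, val_star, SQ_val_unP, SQ_val_ulP, e1] at c1 c2 ⊢
  omega

theorem SQ_lgc_two (L : ℕ) : lgc (L + 1 + L) ≤ 2 * lgc (L + 1) := by
  unfold lgc
  have h1 : Nat.clog 2 (L + 1 + L) ≤ Nat.clog 2 (L + 1) + 1 := by
    rw [Nat.clog_le_iff_le_pow (by norm_num)]
    have h2 : L + 1 ≤ 2 ^ (Nat.clog 2 (L + 1)) := Nat.le_pow_clog (by norm_num) _
    rw [pow_succ]
    omega
  omega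

theorem SQ_lgc_succ (L : ℕ) : lgc (L + 1 + 1) ≤ 2 * lgc (L + 1) := by
  unfold lgc
  have h1 : Nat.clog 2 (L + 1 + 1) ≤ Nat.clog 2 (L + 1) + 1 := by
    rw [Nat.clog_le_iff_le_pow (by norm_num)]
    have h2 : L + 1 ≤ 2 ^ (Nat.clog 2 (L + 1)) := Nat.le_pow_clog (by norm_num) _
    rw [pow_succ]
    omega
  omega

theorem SQ_mu_sum (supadd : ∀ a b, mu a + mu b ≤ mu (a + b)) {α : Type} (l : List α)
    (f : α → ℕ) : (l.map (fun x => mu (f x))).sum ≤ mu (l.map f).sum := by
  induction l with
  | nil => simp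
  | cons x l ih =>
    rw [List.map_cons, List.sum_cons, List.map_cons, List.sum_cons]
    exact (Nat.add_le_add_left ih _).trans (supadd _ _)

theorem SQ_sum_le {α : Type} (l : List α) (f g : α → ℕ) (h : ∀ x ∈ l, f x ≤ g x) :
    (l.map f).sum ≤ (l.map g).sum := by
  induction l with
  | nil => simp
  | cons x l ih =>
    rw [List.map_cons, List.sum_cons, List.map_cons, List.sum_cons]
    exact Nat.add_le_add (h x List.mem_cons_self)
      (ih (fun y hy => h y (List.mem_cons_of_mem _ hy)))

theorem SQ_sum_lin {α : Type} (l : List α) (f : α → ℕ) (a b : ℕ) :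
    (l.map (fun x => a * f x + b)).sum = a * (l.map f).sum + b * l.length := by
  induction l with
  | nil => simp
  | cons x l ih =>
    rw [List.map_cons, List.sum_cons, ih, List.map_cons, List.sum_cons, List.length_cons]
    ring

theorem SQ_len_le {α : Type} (l : List α) (f : α → ℕ) (h : ∀ x ∈ l, 1 ≤ f x) :
    l.length ≤ (l.map f).sum := by
  induction l with
  | nil => simp
  | cons x l ih =>
    rw [List.map_cons, List.sum_cons, List.length_cons]
    have h1 := h x List.mem_cons_self
    have h2 := ih (fun y hy => h y (List.mem_cons_of_mem _ hy))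
    omega

theorem SQ_gs_bound {F : Type} [Field F] [DecidableEq F] (q : Pr [] (.prod TB (.prod Po Po)) Po)
    (C3 : ℕ) (mono : ∀ a b, a ≤ b → mu a ≤ mu b)
    (tb : List (List F) × List (List F))
    (hq : ∀ a b : List F, pol (q.val () (tb, (a, b)) : List F) = pol a * pol b ∧
      List.length (q.val () (tb, (a, b)) : List F) = a.length + b.length ∧
      q.cost () () (tb, (a, b)) ≤ C3 * mu (a.length + b.length + 1))
    (d : ℕ) (uni : List (List F × List Unit))
    (hd : (uni.map (fun z => z.2.length * z.1.length)).sum = d)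
    (hpos : ∀ z ∈ uni, 1 ≤ z.2.length ∧ 1 ≤ z.1.length) :
    (SQ_gsP q).cost () () ((tb, uni), SQ_UL d) ≤
      C3 * (d * mu (3 * (d + 1))) + 500 * ((d + 1) * (d + 1)) := by
  have hM : ∀ x y : List F, x.length + y.length ≤ d →
      (SQ_mmP q).cost () () (tb, (x, y)) ≤ C3 * mu (3 * (d + 1)) + 64 * d + 60 := by
    intro x y hxy
    have e1 := SQ_cost_mmP q tb x y
    have e2 := (hq (x ++ [1]) (y ++ [1])).2.2
    have e3 : mu ((x ++ [(1 : F)]).length + (y ++ [(1 : F)]).length + 1) ≤ mu (3 * (d + 1)) := by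
      apply mono
      simp only [List.length_append, List.length_cons, List.length_nil]
      omega
    have e4 := Nat.mul_le_mul_left C3 e3
    omega
  have hl : ∀ x y : List F, (SQ_mm q tb x y).length = x.length + y.length := fun x y =>
    (SQ_mm_spec q tb (fun a b => ⟨(hq a b).1, (hq a b).2.1⟩) x y).2
  have h1 := SQ_cost_gsP q tb _ d hM hl (SQ_UL d) uni hd.le
  have h2 := SQ_GB_sum (C3 * mu (3 * (d + 1)) + 64 * d + 60) d uni
  have h3 : (uni.map (fun z => z.2.length)).sum ≤ d := by
    rw [← hd]
    apply SQ_sum_le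
    intro z hz
    have := (hpos z hz).2
    nlinarith
  have h4 : uni.length ≤ d := by
    refine (SQ_len_le uni (fun z => z.2.length) (fun z hz => (hpos z hz).1)).trans h3
  obtain ⟨S1, hS1⟩ : ∃ S1, S1 = (uni.map (fun z => z.2.length)).sum := ⟨_, rfl⟩
  obtain ⟨n1, hn1⟩ : ∃ n1, n1 = uni.length := ⟨_, rfl⟩
  obtain ⟨X1, hX1⟩ : ∃ X1, X1 = C3 * mu (3 * (d + 1)) := ⟨_, rfl⟩
  rw [← hS1, ← hn1, ← hX1] at h2
  rw [← hS1] at h3
  rw [← hn1] at h4
  rw [← hX1] at h1
  have e1 : d * (22 * S1 + 72 * n1 + 120) ≤ d * (22 * d + 72 * d + 120) := by gcongr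
  have e2 : (X1 + 64 * d + 60 + 35) * S1 ≤ (X1 + 64 * d + 60 + 35) * d := by gcongr
  have e3 : C3 * (d * mu (3 * (d + 1))) = X1 * d := by rw [hX1]; ring
  rw [e3]
  have e4 := h1.trans (Nat.add_le_add_right h2 30)
  nlinarith

theorem specSq (h1 : SpecTree) (h2 : SpecRoot) (h3 : SpecMul) (h4 : StmtUniq) (h0 : SpecUnits) :
    SpecSq := by
  obtain ⟨t, C1, k1, ht⟩ := h1 (.prod Un Ma)
  obtain ⟨r, C2, k2, hr⟩ := h2
  obtain ⟨q, C3, hq⟩ := h3
  obtain ⟨mono, -, -, supadd, -, -, hNN, -, -, -, hmu2, hmu3, -, -⟩ := h0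
  obtain ⟨Ca, hCa⟩ := hmu2 2
  obtain ⟨Cb, hCb⟩ := hmu3 3
  refine ⟨SQ_P q t r, C3 * Cb + 1000 + C1 * 2 ^ k1 * (Ca + 1) + C2 * 2 ^ k2 * Ca, k1 + k2, ?_⟩
  intro K _ _ _ p e d tb A uni T N hcard htb hd hd1 hSh hTD hu hT hTA hAT hsq
  obtain ⟨Sc, hm, htd, hred, hprod, hsqf, hsum, hpos⟩ :=
    SQ_parts d A uni T N hd hTD hu hT hTA hAT hsq
  have D : SQ_Data d A uni Sc := ⟨hm, htd, hred, hprod, hsqf, hsum, hpos⟩
  have hq1 : ∀ a b : List K, pol (q.val () (tb, (a, b)) : List K) = pol a * pol b ∧
      List.length (q.val () (tb, (a, b)) : List K) = a.length + b.length := fun a b =>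
    ⟨(hq K tb a b htb).1, (hq K tb a b htb).2.1⟩
  obtain ⟨p1, p2, p3, p4⟩ := SQ_pre q tb hq1 D hd hd1
  obtain ⟨G, hG⟩ : ∃ G : List ((List Unit × List (List K)) × List K),
    G = List.foldl (SQ_gss q tb uni) [] (SQ_UL d) := ⟨_, rfl⟩
  rw [← hG] at p1 p2 p3 p4
  obtain ⟨t1, t2, t3, t4⟩ := ht K tb (d + 1) G A A A htb (by omega) p1 p2 p3 p4 hSh hSh hSh rfl rfl
  obtain ⟨out, hout⟩ : ∃ out : List ((List Unit × List (List K)) ×
      (List (List K) × (List (List K) × List (List K)))),
    out = t.val () (tb, (un (d + 1), (G, (A, (A, A))))) := ⟨_, rfl⟩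
  rw [← hout] at t1 t2 t3
  rw [hG] at t1
  obtain ⟨o1, o2, o3⟩ := SQ_post h4 q tb hq1 D hd out t1 (fun o ho => (t2 o ho).1)
    (fun R _ _ τ hτ => (t3 R τ hτ).1)
  have hDo : ∀ o ∈ out, 1 ≤ o.1.1.length ∧ 1 ≤ (Sc o.1.1.length).natDegree ∧
      1 ≤ o.2.1.length ∧ (Sc o.1.1.length).natDegree ≤ o.2.1.length ∧ o.2.1.length ≤ d := by
    intro o ho
    obtain ⟨a1, -, -, -, a5⟩ := o2 o ho
    have b1 := (Finset.mem_Icc.mp (SQ_cs_mem a1).1).1
    have b2 := D.deg _ (SQ_cs_mem a1).1 (SQ_cs_mem a1).2
    refine ⟨b1, b2, ?_, ?_, ?_⟩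
    · rw [a5]
      have := Nat.mul_le_mul b2 b1
      omega
    · rw [a5]
      exact Nat.le_mul_of_pos_right _ b1
    · rw [← o3]
      exact List.le_sum_of_mem (List.mem_map.mpr ⟨o, ho, rfl⟩)
  have hro : ∀ o ∈ out,
      mbiv (r.val () (tb, ((bits K p, un e), (o.1.1, o.2.1))) : List (List K)) =
        Sc o.1.1.length ∧
      List.length (r.val () (tb, ((bits K p, un e), (o.1.1, o.2.1))) : List (List K)) =
        (Sc o.1.1.length).natDegree ∧
      r.cost () () (tb, ((bits K p, un e), (o.1.1, o.2.1))) ≤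
        C2 * PL e p (d + 1) ^ k2 * mu ((d + 1) * o.2.1.length + 1) := by
    intro o ho
    obtain ⟨a1, a2, a3, a4, a5⟩ := o2 o ho
    obtain ⟨b1, b2, b3, b4, b5⟩ := hDo o ho
    have hh := hr K p e (d + 1) o.1.1.length (Sc o.1.1.length).natDegree tb o.2.1
      (Sc o.1.1.length) hcard htb b1 b2 (D.mon _) rfl (D.td _ (SQ_cs_mem a1).1) a4 a5
      (t2 o ho).1 (by rw [← a5]; omega)
    rw [← a2, ← a5] at hh
    exact ⟨hh.1, hh.2.1, hh.2.2.2⟩
  constructor
  · rw [SQ_val_P, hd, ← hG, ← hout]
    exact SQ_good D hu out o1 (fun o ho => ⟨(o2 o ho).1, (o2 o ho).2.1, (o2 o ho).2.2.1⟩) r tb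
      (bits K p) (un e) (fun o ho => ⟨(hro o ho).1, (hro o ho).2.1⟩)
  · have c0 := SQ_cost_P q t r tb (bits K p) (un e) A uni G (by rw [hd]; exact hG)
    rw [hd, ← hout] at c0
    have c1 := SQ_gs_bound q C3 mono tb (fun a b => hq K tb a b htb) d uni hsum hpos
    have c2 := cost_mapP (SQ_roS r) () () ((tb, (bits K p, un e)), out)
    obtain ⟨P, hP⟩ : ∃ P, P = PL e p d := ⟨_, rfl⟩
    obtain ⟨W, hW⟩ : ∃ W, W = ww (d + 1) := ⟨_, rfl⟩
    have hP1 : 1 ≤ P := by
      rw [hP]
      unfold PL lgc
      exact Nat.mul_pos (Nat.mul_pos (by omega) (by omega)) (by omega)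
    have hPL1 : PL e p (d + 1) ≤ 2 * P := by
      rw [hP]
      unfold PL
      calc (e + 1) * lgc p * lgc (d + 1 + 1) ≤ (e + 1) * lgc p * (2 * lgc (d + 1)) :=
            Nat.mul_le_mul_left _ (SQ_lgc_succ d)
        _ = 2 * ((e + 1) * lgc p * lgc (d + 1)) := by ring
    have hlg : lgc (d + 1 + d) ≤ 2 * P := by
      refine (SQ_lgc_two d).trans (Nat.mul_le_mul_left 2 ?_)
      rw [hP]
      unfold PL
      have : 1 ≤ (e + 1) * lgc p := by
        unfold lgc
        exact Nat.mul_pos (by omega) (by omega)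
      exact Nat.le_mul_of_pos_left _ this
    have hdd : (d + 1) * (d + 1) ≤ W := by
      rw [hW]
      exact hNN (d + 1)
    have hmuA : mu (2 * (d + 1) * (d + 1)) ≤ Ca * W := by
      rw [hW]
      exact hCa d
    -- the roots
    have r1 : (out.map (fun o => (SQ_roS r).cost () () ((tb, (bits K p, un e)), o) + 13)).sum ≤
        (out.map (fun o => (C2 * (2 * P) ^ k2 * mu ((d + 1) * o.2.1.length + 1) +
          183 * ((d + 1) * o.2.1.length)))).sum := by
      apply SQ_sum_le
      intro o ho
      obtain ⟨a1, a2, a3⟩ := hro o ho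
      obtain ⟨b1, b2, b3, b4, b5⟩ := hDo o ho
      have c3 := SQ_cost_roS r tb (bits K p) (un e) o
      rw [a2] at c3
      obtain ⟨m, hm⟩ : ∃ m, m = (Sc o.1.1.length).natDegree := ⟨_, rfl⟩
      obtain ⟨L, hL⟩ : ∃ L, L = o.2.1.length := ⟨_, rfl⟩
      rw [← hm] at c3 b2 b4
      rw [← hL] at b3 b4 b5 a3 ⊢
      have c4 : C2 * PL e p (d + 1) ^ k2 * mu ((d + 1) * L + 1) ≤
          C2 * (2 * P) ^ k2 * mu ((d + 1) * L + 1) := by gcongr
      have c5 : (20 * (m + 1) + 30) * (m + 1) ≤ (50 * (d + 1)) * (2 * L) := by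
        apply Nat.mul_le_mul <;> omega
      have c6 : 1 ≤ (d + 1) * L := Nat.mul_pos (by omega) (by omega)
      have c7 : (50 * (d + 1)) * (2 * L) = 100 * ((d + 1) * L) := by ring
      omega
    have r2 : (out.map (fun o => (C2 * (2 * P) ^ k2 * mu ((d + 1) * o.2.1.length + 1) +
          183 * ((d + 1) * o.2.1.length)))).sum ≤
        C2 * (2 * P) ^ k2 * mu (2 * (d + 1) * (d + 1)) + 183 * ((d + 1) * (d + 1)) := by
      have s1 : ∀ l : List ((List Unit × List (List K)) ×
          (List (List K) × (List (List K) × List (List K)))),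
          (l.map (fun o => (C2 * (2 * P) ^ k2 * mu ((d + 1) * o.2.1.length + 1) +
          183 * ((d + 1) * o.2.1.length)))).sum =
          C2 * (2 * P) ^ k2 * (l.map (fun o => mu ((d + 1) * o.2.1.length + 1))).sum +
          183 * ((d + 1) * (l.map (fun o => o.2.1.length)).sum) := by
        intro l
        induction l with
        | nil => simp
        | cons x l ih =>
          simp only [List.map_cons, List.sum_cons, ih]
          ring
      rw [s1, o3]
      have s2 := SQ_mu_sum supadd out (fun o => (d + 1) * o.2.1.length + 1)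
      rw [SQ_sum_lin out (fun o => o.2.1.length) (d + 1) 1, o3] at s2
      have s3 := SQ_len_le out (fun o => o.2.1.length) (fun o ho => (hDo o ho).2.2.1)
      rw [o3] at s3
      have s4 : mu ((d + 1) * d + 1 * out.length) ≤ mu (2 * (d + 1) * (d + 1)) := by
        apply mono
        nlinarith
      have s5 := s2.trans s4
      have s6 : (d + 1) * d ≤ (d + 1) * (d + 1) := by gcongr; omega
      have s7 := Nat.mul_le_mul_left (C2 * (2 * P) ^ k2) s5
      omega
    have r3 : C2 * (2 * P) ^ k2 * mu (2 * (d + 1) * (d + 1)) ≤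
        C2 * 2 ^ k2 * Ca * (P ^ (k1 + k2) * W) := by
      calc C2 * (2 * P) ^ k2 * mu (2 * (d + 1) * (d + 1)) ≤ C2 * (2 * P) ^ k2 * (Ca * W) := by
            gcongr
        _ = C2 * 2 ^ k2 * Ca * (P ^ k2 * W) := by rw [mul_pow]; ring
        _ ≤ C2 * 2 ^ k2 * Ca * (P ^ (k1 + k2) * W) := by
            gcongr
            omega
    have r4 : t.cost () () (tb, (un (d + 1), (G, (A, (A, A))))) ≤
        C1 * 2 ^ k1 * (Ca + 1) * (P ^ (k1 + k2) * W) := by
      rw [hd] at t4
      have s1 : mu ((d + 1) * d + 1) ≤ mu (2 * (d + 1) * (d + 1)) := by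
        apply mono
        nlinarith
      calc t.cost () () (tb, (un (d + 1), (G, (A, (A, A)))))
          ≤ C1 * lgc (d + 1 + d) ^ k1 * (mu ((d + 1) * d + 1) + ww (d + 1)) := t4
        _ ≤ C1 * (2 * P) ^ k1 * (Ca * W + W) := by
            rw [← hW]
            gcongr
            exact s1.trans hmuA
        _ = C1 * 2 ^ k1 * (Ca + 1) * (P ^ k1 * W) := by rw [mul_pow]; ring
        _ ≤ C1 * 2 ^ k1 * (Ca + 1) * (P ^ (k1 + k2) * W) := by
            gcongr
            omega
    have r5 : C3 * (d * mu (3 * (d + 1))) ≤ C3 * Cb * (P ^ (k1 + k2) * W) := by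
      have s1 : (d + 1) * mu (3 * (d + 1)) ≤ Cb * W := by
        rw [hW]
        exact hCb d
      have s2 : 1 ≤ P ^ (k1 + k2) := Nat.one_le_pow _ _ hP1
      calc C3 * (d * mu (3 * (d + 1))) ≤ C3 * ((d + 1) * mu (3 * (d + 1))) := by
            gcongr
            omega
        _ ≤ C3 * (Cb * W) := by gcongr
        _ = C3 * Cb * (1 * W) := by ring
        _ ≤ C3 * Cb * (P ^ (k1 + k2) * W) := by gcongr
    have r6 : (d + 1) * (d + 1) ≤ P ^ (k1 + k2) * W := by
      have s2 : 1 ≤ P ^ (k1 + k2) := Nat.one_le_pow _ _ hP1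
      nlinarith
    rw [← hP, ← hW]
    have r7 : d + 1 ≤ (d + 1) * (d + 1) := by nlinarith
    calc (SQ_P q t r).cost () () (tb, ((bits K p, un e), (A, uni)))
        ≤ C3 * Cb * (P ^ (k1 + k2) * W) + 1000 * (P ^ (k1 + k2) * W) +
          C1 * 2 ^ k1 * (Ca + 1) * (P ^ (k1 + k2) * W) +
          C2 * 2 ^ k2 * Ca * (P ^ (k1 + k2) * W) := by
          simp only at c2
          omega
      _ = (C3 * Cb + 1000 + C1 * 2 ^ k1 * (Ca + 1) + C2 * 2 ^ k2 * Ca) * P ^ (k1 + k2) * W := by
          ring

end Pool.Agent.H330FB.JS9
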