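import Pool.Agent.H330FB.JR1
import Pool.Agent.H330FB.JR2
import Pool.Agent.H330FB.JR3
import Pool.Agent.H330FB.JR4
import Pool.Agent.H330FB.JR5
import Pool.Agent.H330FB.JR6
import Pool.Agent.H330FB.JR7
import Pool.Agent.H330FB.JR8
import Pool.Agent.H330FB.JR9
import Pool.Agent.H330FB.JR10
import Pool.Agent.H330FB.JR11
import Pool.Agent.H330FB.JR12
import Pool.Agent.H330FB.JR13
import Pool.Agent.H330FB.JA1
import Pool.Agent.H330FB.JA2
import Pool.Agent.H330FB.JA3
import Pool.Agent.H330FB.JA4
import Pool.Agent.H330FB.JA5
import Pool.Agent.H330FB.JA6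
import Pool.Agent.H330FB.JA7
import Pool.Agent.H330FB.JA8
import Pool.Agent.H330FB.JA10
import Pool.Agent.H330FB.JA11
import Pool.Agent.H330FB.JA12
import Pool.Agent.H330FB.JA13
import Pool.Agent.H330FB.JA14
import Pool.Agent.H330FB.JB1
import Pool.Agent.H330FB.JB2
import Pool.Agent.H330FB.JB3
import Pool.Agent.H330FB.JB4
import Pool.Agent.H330FB.JB5
import Pool.Agent.H330FB.JH1
import Pool.Agent.H330FB.JH2
import Pool.Agent.H330FB.JH3
import Pool.Agent.H330FB.JP1
import Pool.Agent.H330FB.JP2
import Pool.Agent.H330FB.JP3
import Pool.Agent.H330FB.JS1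
import Pool.Agent.H330FB.JS2
import Pool.Agent.H330FB.JS3
import Pool.Agent.H330FB.JS4
import Pool.Agent.H330FB.JS5
import Pool.Agent.H330FB.JS6
import Pool.Agent.H330FB.JS6b
import Pool.Agent.H330FB.JS7
import Pool.Agent.H330FB.JS8
import Pool.Agent.H330FB.JS9
import Pool.Agent.H330FB.JS10
import Pool.Agent.H330FB.JS11
import Pool.Agent.H330FB.JE1
import Pool.Agent.H330FB.JE2
import Pool.Agent.H330FB.JE3
import Pool.Agent.H330FB.JE4
import Pool.Agent.H330FB.JE5
import Pool.Agent.H330FB.JE6
import Pool.Agent.H330FB.JE7
import Pool.Agent.H330FB.JE8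
import Pool.Agent.H330FB.JE9

set_option autoImplicit false

/-!
# Assembly of all parts
-/

namespace Pool.Agent.H330FB.Assembly

open Pool.Agent.H330FB

theorem units : SpecUnits := JA1.specUnits
theorem calc' : SpecCalc := JA2.specCalc
theorem table : SpecTb := JA3.specTb
theorem mul : SpecMul := JA4.specMul units
theorem mulR : SpecMulR := JA5.specMulR mul units
theorem divR : SpecDivR := JA6.specDivR mulR units
theorem mulMod : SpecMulMod := JA7.specMulMod mulR divR units
theorem pow : SpecPow := JA8.specPow mulMod units
theorem frob : SpecFrob := JA8.specFrob pow units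
theorem mm : SpecMM := JA10.specMM units
theorem ker : SpecKer := JA11.specKer mm units
theorem inv : SpecInv := JA12.specInv ker units
theorem ann : SpecAnn := JA13.specAnn ker mulMod units
theorem nat : SpecNat := JA14.specNat
theorem idem : SpecIdem := JB1.specIdem mulMod pow frob units
theorem ber : SpecBer := JB2.specBer mulMod frob ker units
theorem refine' : SpecRefine := JB3.specRefine mulMod ann units
theorem prim : SpecPrim := JB4.specPrim mulMod frob ann units
theorem uni : SpecUni := JB5.specUni idem ber refine' prim units
theorem hstep : SpecHStep := JH1.specHStep mulR divR mulMod inv units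
theorem prod : SpecProd := JH3.specProd mulR units
theorem tree : SpecTree := JH2.specTree hstep divR mul prod units
theorem fibre : SpecFib := JP1.specFib mm units
theorem series : SpecY := JP2.specY mm units
theorem lamP : SpecLam := JP3.specLam mulR divR units
theorem lamExpand : StmtLamExpand := JR1.lamExpand
theorem lamMul : StmtLamMul := JR2.lamMul
theorem lamNondeg : StmtLamNondeg := JR2.lamNondeg
theorem tdMod : StmtTDMod := JR3.tdMod
theorem lamFrob : StmtLamFrob := JR4.lamFrob lamMul
theorem lemmaE : StmtLemmaE := JR5.lemmaE lamExpand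
theorem fewBad : StmtFewBad := JR6.fewBad
theorem stmtRL : StmtRL := JR7.stmtRL
theorem place : StmtPlace := JR8.place
theorem admCount : StmtAdmCount := JR9.admCount fewBad
theorem goodSolves : StmtGoodSolves := JR10.goodSolves place lamMul lamFrob tdMod
theorem types : StmtTypes := JR11.types place lamMul lemmaE
theorem typeII : StmtTypeII := JR12.typeII place lamMul lamFrob lamNondeg tdMod
theorem stmtR : StmtR := JR13.stmtR admCount goodSolves types typeII
theorem stmtUniq : StmtUniq := JS1.stmtUniq
theorem stmtLocal : StmtLocal := JS2.stmtLocal tree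
theorem cols : SpecCols := JS3.specCols fibre frob series tree lamP nat stmtUniq units
theorem blk : SpecBlk := JS4.specBlk ker prod units
theorem rec' : SpecRec := JS5.specRec cols blk stmtRL units
theorem coF : SpecCoF := JS6.specCoF mm units
theorem coB : SpecCoB := JS6b.specCoB mm units
theorem coCount : StmtCoCount := JS7.stmtCoCount fewBad
theorem root : SpecRoot := JS8.specRoot mulR units
theorem sq : SpecSq := JS9.specSq tree root mul stmtUniq units
theorem mon : SpecMon := JS10.specMon sq rec' stmtR stmtLocal nat units
theorem fac : SpecFac := JS11.specFac table coF uni mon coB coCount nat units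
theorem naive : SpecNaive := JE1.specNaive
theorem sim : SpecSim := Pool.Agent.H330FB.specSim naive
theorem irrCount : StmtIrrCount := JE3.stmtIrrCount
theorem irr : SpecIrr := JE4.specIrr naive inv
theorem find : SpecFind := JE5.specFind irr irrCount
theorem desc : SpecDesc := JE6.specDesc mulR units
theorem full : SpecFull := JE7.specFull fac desc table nat units
theorem mainP : SpecMain := JE8.specMain full sim find calc' units
theorem final : FinalStmt := JE9.finalStmt mainP

end Pool.Agent.H330FB.Assembly
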