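import Pool.Agent.H330FB.StmtsR
set_option autoImplicit false
noncomputable section
namespace Pool.Agent.H330FB.JR1
open Polynomial

namespace LamExpandAux

variable {R : Type} [CommRing R]

lemma coeff_eq_zero_of_deg {F r : R[X]} [Nontrivial R] (hF : F.Monic)
    (h : r.degree < F.degree) {j : ℕ} (hj : F.natDegree ≤ j) : r.coeff j = 0 := by
  rw [degree_eq_natDegree hF.ne_zero] at h
  exact (degree_lt_iff_coeff_zero r F.natDegree).1 h j hj

lemma step [Nontrivial R] (F V : R[X]) (hF : F.Monic) (k : ℕ) :
    (X ^ (k + 1) * V) %ₘ F =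
      X * ((X ^ k * V) %ₘ F) - C (((X ^ k * V) %ₘ F).coeff (F.natDegree - 1)) * F := by
  set r := (X ^ k * V) %ₘ F with hr
  have hrdeg : r.degree < F.degree := degree_modByMonic_lt _ hF
  set c := r.coeff (F.natDegree - 1) with hc
  refine (div_modByMonic_unique (X * ((X ^ k * V) /ₘ F) + C c) (X * r - C c * F) hF ⟨?_, ?_⟩).2
  · have h1 := modByMonic_add_div (X ^ k * V) F
    rw [← hr] at h1
    rw [pow_succ']
    linear_combination X * h1
  · rw [degree_eq_natDegree hF.ne_zero, degree_lt_iff_coeff_zero]
    intro j hj
    rw [coeff_sub, coeff_C_mul]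
    rcases j with _ | j
    · have h0 : F.natDegree = 0 := by omega
      have : c = 0 := by
        rw [hc]
        exact coeff_eq_zero_of_deg hF hrdeg (by omega)
      rw [this]
      simp
    · rw [coeff_X_mul]
      by_cases h1 : F.natDegree = j + 1
      · have h2 : F.coeff (j + 1) = 1 := by
          rw [← h1]
          exact hF.coeff_natDegree
        rw [h2, mul_one, hc, h1]
        simp
      · rw [coeff_eq_zero_of_deg hF hrdeg (by omega), coeff_eq_zero_of_natDegree_lt (by omega)]
        simp

end LamExpandAux

open LamExpandAux in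
theorem lamExpand : StmtLamExpand := by
  intro R _ F V hF hV
  rcases subsingleton_or_nontrivial R with hR | hR
  · exact Subsingleton.elim _ _
  have hr0 : (X ^ 0 * V) %ₘ F = V := by
    rw [pow_zero, one_mul]
    exact (modByMonic_eq_self_iff hF).2 hV
  have hrdeg : ∀ k, ((X ^ k * V) %ₘ F).degree < F.degree := fun k => degree_modByMonic_lt _ hF
  have key : ∀ n j : ℕ, V.coeff j = ((X ^ n * V) %ₘ F).coeff (j + n) +
      ∑ k ∈ Finset.range n, lam F (X ^ k * V) * F.coeff (k + 1 + j) := by
    intro n
    induction n with
    | zero =>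
      intro j
      rw [hr0]
      simp
    | succ n ih =>
      intro j
      have e0 : j + (n + 1) = j + n + 1 := by ring
      have e1 : n + 1 + j = j + n + 1 := by ring
      rw [Finset.sum_range_succ, step F V hF n, e0, coeff_sub, coeff_C_mul, coeff_X_mul,
        ih j, e1]
      unfold lam
      ring
  ext j
  rw [finsetSum_coeff]
  by_cases hj : j < F.natDegree
  · rw [key (F.natDegree - j) j]
    have h0 : ((X ^ (F.natDegree - j) * V) %ₘ F).coeff (j + (F.natDegree - j)) = 0 :=
      coeff_eq_zero_of_deg hF (hrdeg _) (by omega)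
    rw [h0, zero_add]
    have hsub : Finset.range (F.natDegree - j) ⊆ Finset.range F.natDegree :=
      Finset.range_mono (by omega)
    rw [← Finset.sum_subset hsub]
    · apply Finset.sum_congr rfl
      intro k hk
      rw [Finset.mem_range] at hk
      rw [coeff_C_mul, finsetSum_coeff]
      simp only [coeff_C_mul, coeff_X_pow, mul_ite, mul_one, mul_zero]
      rw [Finset.sum_ite_eq, if_pos (by rw [Finset.mem_range]; omega)]
    · intro k hk hk2
      rw [Finset.mem_range] at hk hk2
      rw [coeff_C_mul, finsetSum_coeff]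
      simp only [coeff_C_mul, coeff_X_pow, mul_ite, mul_one, mul_zero]
      rw [Finset.sum_ite_eq, if_neg (by rw [Finset.mem_range]; omega), mul_zero]
  · rw [coeff_eq_zero_of_deg hF hV (by omega)]
    symm
    apply Finset.sum_eq_zero
    intro k hk
    rw [coeff_C_mul, finsetSum_coeff]
    simp only [coeff_C_mul, coeff_X_pow, mul_ite, mul_one, mul_zero]
    rw [Finset.sum_ite_eq, if_neg (by rw [Finset.mem_range]; omega), mul_zero]

end Pool.Agent.H330FB.JR1
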