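import Pool.Agent.H330FB.Lib5
import Pool.Agent.H330FB.Spec3b
set_option autoImplicit false
noncomputable section
namespace Pool.Agent.H330FB.JS1
open Polynomial

theorem uniq_isUnit {R K : Type} [CommRing R] [Field K] (ε : R →+* K)
    (hnil : ∀ x, ε x = 0 → IsNilpotent x) (p : R[X]) (hp : p.map ε = 1) : IsUnit p := by
  have hn : IsNilpotent (p - 1) := by
    rw [Polynomial.isNilpotent_iff]
    intro i
    apply hnil
    rw [← Polynomial.coeff_map, Polynomial.map_sub, hp, Polynomial.map_one, sub_self,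
      Polynomial.coeff_zero]
  have := hn.isUnit_add_one
  rwa [sub_add_cancel] at this

theorem uniq_coprime {R K : Type} [CommRing R] [Field K] (ε : R →+* K)
    (hs : Function.Surjective ε) (hnil : ∀ x, ε x = 0 → IsNilpotent x) (f g : R[X])
    (h : IsCoprime (f.map ε) (g.map ε)) : IsCoprime f g := by
  obtain ⟨a', b', hab⟩ := h
  obtain ⟨a, rfl⟩ := Polynomial.map_surjective ε hs a'
  obtain ⟨b, rfl⟩ := Polynomial.map_surjective ε hs b'
  have hu : IsUnit (a * f + b * g) := by
    apply uniq_isUnit ε hnil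
    rw [Polynomial.map_add, Polynomial.map_mul, Polynomial.map_mul]
    exact hab
  obtain ⟨c, hc⟩ := hu.exists_left_inv
  refine ⟨c * a, c * b, ?_⟩
  rw [← hc]
  ring

theorem uniq_dvd {R K : Type} [CommRing R] [Field K] (ε : R →+* K)
    (hs : Function.Surjective ε) (hnil : ∀ x, ε x = 0 → IsNilpotent x) (r : ℕ)
    (A B : Fin r → R[X]) (hprod : ∏ i, A i = ∏ i, B i)
    (hmap : ∀ i, (A i).map ε = (B i).map ε)
    (hcop : ∀ i j, i ≠ j → IsCoprime ((A i).map ε) ((A j).map ε)) (i : Fin r) : A i ∣ B i := by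
  have h1 : IsCoprime (A i) (∏ j ∈ Finset.univ.erase i, B j) := by
    refine IsCoprime.prod_right fun j hj => uniq_coprime ε hs hnil _ _ ?_
    rw [← hmap j]
    exact hcop i j (Finset.ne_of_mem_erase hj).symm
  have h2 : A i ∣ B i * ∏ j ∈ Finset.univ.erase i, B j := by
    rw [Finset.mul_prod_erase Finset.univ B (Finset.mem_univ i), ← hprod]
    exact Finset.dvd_prod_of_mem A (Finset.mem_univ i)
  exact h1.dvd_of_dvd_mul_right h2

theorem stmtUniq : StmtUniq := by
  intro R K _ _ ε hs hnil r A B hA hB hprod hmap hcop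
  have hR : Nontrivial R := ε.domain_nontrivial
  funext i
  have h1 := uniq_dvd ε hs hnil r A B hprod hmap hcop i
  have hd : (B i).natDegree = (A i).natDegree := by
    rw [← (hB i).natDegree_map ε, ← (hA i).natDegree_map ε, hmap i]
  exact (Polynomial.eq_of_monic_of_dvd_of_natDegree_le (hA i) (hB i) h1 hd.le).symm

end Pool.Agent.H330FB.JS1
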