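import Mathlib

set_option autoImplicit false

/-!
# A total first-order list language over a field, with running times

Data types are built from the elements of a field `F`, the one-point type, pairs and lists.
Programs are closed terms of a finite language; each elementary step (forming a pair, taking a
component, `cons`, inspecting a list, one field operation, one zero test, one recursive call)
costs one unit. All data are immutable, so that pairing copies only references. Recursion is
bounded in depth by the length of a list.
-/

namespace Pool.Agent.H330FB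

/-- Data types. -/
inductive Ty : Type
  | fld : Ty
  | unit : Ty
  | prod : Ty → Ty → Ty
  | list : Ty → Ty

/-- The values of a data type over the field `F`. -/
@[reducible]
def Ty.D (F : Type) : Ty → Type
  | .fld => F
  | .unit => Unit
  | .prod a b => Ty.D F a × Ty.D F b
  | .list a => List (Ty.D F a)

/-- Programs from data of type `a` to data of type `b`. The list `s` holds the types of the
recursive functions which may be called (the innermost first). -/
inductive Pr : List (Ty × Ty) → Ty → Ty → Type
  /-- the identity -/
  | id {s : List (Ty × Ty)} {a : Ty} : Pr s a a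
  /-- first `p`, then `q` -/
  | comp {s : List (Ty × Ty)} {a b c : Ty} (p : Pr s a b) (q : Pr s b c) : Pr s a c
  /-- both results on the same input -/
  | pair {s : List (Ty × Ty)} {a b c : Ty} (p : Pr s a b) (q : Pr s a c) : Pr s a (.prod b c)
  | fst {s : List (Ty × Ty)} {a b : Ty} : Pr s (.prod a b) a
  | snd {s : List (Ty × Ty)} {a b : Ty} : Pr s (.prod a b) b
  | star {s : List (Ty × Ty)} {a : Ty} : Pr s a .unit
  | nil {s : List (Ty × Ty)} {a b : Ty} : Pr s a (.list b)
  | cons {s : List (Ty × Ty)} {a : Ty} : Pr s (.prod a (.list a)) (.list a)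
  /-- case distinction on a list: `p` if it is empty, otherwise `q` on head and tail -/
  | caseL {s : List (Ty × Ty)} {a b c : Ty} (p : Pr s a c)
      (q : Pr s (.prod a (.prod b (.list b))) c) : Pr s (.prod a (.list b)) c
  | zero {s : List (Ty × Ty)} {a : Ty} : Pr s a .fld
  | one {s : List (Ty × Ty)} {a : Ty} : Pr s a .fld
  | add {s : List (Ty × Ty)} : Pr s (.prod .fld .fld) .fld
  | neg {s : List (Ty × Ty)} : Pr s .fld .fld
  | mul {s : List (Ty × Ty)} : Pr s (.prod .fld .fld) .fld
  | inv {s : List (Ty × Ty)} : Pr s .fld .fld
  /-- zero test of a field element: `p` if it is zero, otherwise `q` -/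
  | ifz {s : List (Ty × Ty)} {a b : Ty} (p q : Pr s a b) : Pr s (.prod a .fld) b
  /-- call of the innermost recursive function -/
  | self {s : List (Ty × Ty)} {σ τ : Ty} : Pr ((σ, τ) :: s) σ τ
  /-- a program which does not call the innermost recursive function -/
  | up {s : List (Ty × Ty)} {σ τ a b : Ty} (p : Pr s a b) : Pr ((σ, τ) :: s) a b
  /-- recursion: on input `(d, x)` the recursive function with body `p` is called on `x`; calls at
  depth greater than the length of the list `d` are answered by `q` -/
  | recD {s : List (Ty × Ty)} {σ τ d : Ty} (p : Pr ((σ, τ) :: s) σ τ) (q : Pr s σ τ) :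
      Pr s (.prod (.list d) σ) τ

/-- The values of the recursive functions which may be called. -/
@[reducible]
def SV (F : Type) : List (Ty × Ty) → Type
  | [] => Unit
  | p :: s => (Ty.D F p.1 → Ty.D F p.2) × SV F s

/-- The running times of the recursive functions which may be called. -/
@[reducible]
def SC (F : Type) : List (Ty × Ty) → Type
  | [] => Unit
  | p :: s => (Ty.D F p.1 → ℕ) × SC F s

/-- Case distinction on a list. -/
def listCase {α γ : Type} (l : List α) (n : γ) (f : α → List α → γ) : γ :=
  match l with
  | [] => n
  | h :: t => f h t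

/-- The value of a recursive function at depth `n`: `q` at depth 0, and one step `p`, applied to
the function at depth `n`, at depth `n + 1`. -/
def recVal {α β : Type} (q : α → β) (p : (α → β) → α → β) (n : ℕ) : α → β :=
  Nat.rec (motive := fun _ => α → β) q (fun _ r => p r) n

/-- The running time of a recursive function at depth `n`; the time of one step depends on the
values and on the running times of the recursive calls. -/
def recCost {α β : Type} (q : α → β) (p : (α → β) → α → β) (cq : α → ℕ)
    (cp : (α → β) → (α → ℕ) → α → ℕ) (n : ℕ) : α → ℕ :=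
  Nat.rec (motive := fun _ => α → ℕ) cq (fun n k => cp (recVal q p n) k) n

/-- The result of a program. -/
noncomputable def Pr.val {F : Type} [Field F] [DecidableEq F] {s : List (Ty × Ty)} {a b : Ty}
    (p : Pr s a b) : SV F s → Ty.D F a → Ty.D F b :=
  Pr.rec (motive := fun s a b _ => SV F s → Ty.D F a → Ty.D F b)
    (fun _ x => x)
    (fun _ _ p q v x => q v (p v x))
    (fun _ _ p q v x => (p v x, q v x))
    (fun _ x => x.1)
    (fun _ x => x.2)
    (fun _ _ => ())
    (fun _ _ => [])
    (fun _ x => x.1 :: x.2)
    (fun _ _ p q v x => listCase x.2 (p v x.1) (fun h t => q v (x.1, (h, t))))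
    (fun _ _ => (0 : F))
    (fun _ _ => (1 : F))
    (fun _ x => (x.1 + x.2 : F))
    (fun _ x => (-x : F))
    (fun _ x => (x.1 * x.2 : F))
    (fun _ x => (x⁻¹ : F))
    (fun _ _ p q v x => if (x.2 : F) = 0 then p v x.1 else q v x.1)
    (fun v x => v.1 x)
    (fun _ p v x => p v.2 x)
    (fun _ _ p q v x => recVal (q v) (fun r => p (r, v)) (List.length x.1) x.2)
    p

/-- The running time of a program. -/
noncomputable def Pr.cost {F : Type} [Field F] [DecidableEq F] {s : List (Ty × Ty)} {a b : Ty}
    (p : Pr s a b) : SV F s → SC F s → Ty.D F a → ℕ :=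
  Pr.rec (motive := fun s a _ _ => SV F s → SC F s → Ty.D F a → ℕ)
    (fun _ _ _ => 1)
    (fun p _ cp cq v c x => cp v c x + cq v c (p.val v x))
    (fun _ _ cp cq v c x => cp v c x + cq v c x + 1)
    (fun _ _ _ => 1)
    (fun _ _ _ => 1)
    (fun _ _ _ => 1)
    (fun _ _ _ => 1)
    (fun _ _ _ => 1)
    (fun _ _ cp cq v c x => listCase x.2 (cp v c x.1) (fun h t => cq v c (x.1, (h, t))) + 1)
    (fun _ _ _ => 1)
    (fun _ _ _ => 1)
    (fun _ _ _ => 1)
    (fun _ _ _ => 1)
    (fun _ _ _ => 1)
    (fun _ _ _ => 1)
    (fun _ _ cp cq v c x => (if (x.2 : F) = 0 then cp v c x.1 else cq v c x.1) + 1)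
    (fun _ c x => c.1 x + 1)
    (fun _ cp v c x => cp v.2 c.2 x)
    (fun p q cp cq v c x => recCost (q.val v) (fun r => p.val (r, v)) (cq v c)
      (fun r k => cp (r, v) (k, c)) (List.length x.1) x.2 + 1)
    p

end Pool.Agent.H330FB
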