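import Pool.Agent.H330FB.Lang

set_option autoImplicit false

namespace Pool.Agent.H330FB

section sem
variable {F : Type} [Field F] [DecidableEq F]
variable {s : List (Ty × Ty)} {a b c d σ τ : Ty}

@[simp] theorem val_id (v : SV F s) (x : Ty.D F a) : (Pr.id : Pr s a a).val v x = x := rfl
@[simp] theorem val_comp (p : Pr s a b) (q : Pr s b c) (v : SV F s) (x : Ty.D F a) :
    (Pr.comp p q).val v x = q.val v (p.val v x) := rfl
@[simp] theorem val_pair (p : Pr s a b) (q : Pr s a c) (v : SV F s) (x : Ty.D F a) :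
    (Pr.pair p q).val v x = (p.val v x, q.val v x) := rfl
@[simp] theorem val_fst (v : SV F s) (x : Ty.D F (.prod a b)) :
    (Pr.fst : Pr s (.prod a b) a).val v x = x.1 := rfl
@[simp] theorem val_snd (v : SV F s) (x : Ty.D F (.prod a b)) :
    (Pr.snd : Pr s (.prod a b) b).val v x = x.2 := rfl
@[simp] theorem val_star (v : SV F s) (x : Ty.D F a) : (Pr.star : Pr s a .unit).val v x = () := rfl
@[simp] theorem val_nil (v : SV F s) (x : Ty.D F a) :
    (Pr.nil : Pr s a (.list b)).val v x = [] := rfl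
@[simp] theorem val_cons (v : SV F s) (x : Ty.D F (.prod a (.list a))) :
    (Pr.cons : Pr s (.prod a (.list a)) (.list a)).val v x = x.1 :: x.2 := rfl
/-- case distinction on a list, as a function -/
def lcase {α γ : Type} (l : List α) (n : γ) (f : α → List α → γ) : γ :=
  match l with
  | [] => n
  | h :: t => f h t
@[simp] theorem lcase_nil {α γ : Type} (n : γ) (f : α → List α → γ) : lcase [] n f = n := rfl
@[simp] theorem lcase_cons {α γ : Type} (h : α) (t : List α) (n : γ) (f : α → List α → γ) :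
    lcase (h :: t) n f = f h t := rfl
@[simp] theorem val_caseL (p : Pr s a c) (q : Pr s (.prod a (.prod b (.list b))) c)
    (v : SV F s) (x : Ty.D F (.prod a (.list b))) :
    (Pr.caseL p q).val v x = lcase x.2 (p.val v x.1) (fun h t => q.val v (x.1, (h, t))) := by
  obtain ⟨x, l⟩ := x; cases l <;> rfl
@[simp] theorem val_zero (v : SV F s) (x : Ty.D F a) :
    (Pr.zero : Pr s a .fld).val v x = (0 : F) := rfl
@[simp] theorem val_one (v : SV F s) (x : Ty.D F a) :
    (Pr.one : Pr s a .fld).val v x = (1 : F) := rfl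
@[simp] theorem val_add (v : SV F s) (x : Ty.D F (.prod .fld .fld)) :
    (Pr.add : Pr s (.prod .fld .fld) .fld).val v x = (x.1 + x.2 : F) := rfl
@[simp] theorem val_neg (v : SV F s) (x : Ty.D F .fld) :
    (Pr.neg : Pr s .fld .fld).val v x = (-x : F) := rfl
@[simp] theorem val_mul (v : SV F s) (x : Ty.D F (.prod .fld .fld)) :
    (Pr.mul : Pr s (.prod .fld .fld) .fld).val v x = (x.1 * x.2 : F) := rfl
@[simp] theorem val_inv (v : SV F s) (x : Ty.D F .fld) :
    (Pr.inv : Pr s .fld .fld).val v x = (x⁻¹ : F) := rfl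
@[simp] theorem val_ifz (p q : Pr s a b) (v : SV F s) (x : Ty.D F (.prod a .fld)) :
    (Pr.ifz p q).val v x = if (x.2 : F) = 0 then p.val v x.1 else q.val v x.1 := rfl
@[simp] theorem val_self (v : SV F ((σ, τ) :: s)) (x : Ty.D F σ) :
    (Pr.self : Pr ((σ, τ) :: s) σ τ).val v x = v.1 x := rfl
@[simp] theorem val_up (p : Pr s a b) (v : SV F ((σ, τ) :: s)) (x : Ty.D F a) :
    (Pr.up p : Pr ((σ, τ) :: s) a b).val v x = p.val v.2 x := rfl

@[simp] theorem cost_id (v : SV F s) (k : SC F s) (x : Ty.D F a) :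
    (Pr.id : Pr s a a).cost v k x = 1 := rfl
@[simp] theorem cost_comp (p : Pr s a b) (q : Pr s b c) (v : SV F s) (k : SC F s) (x : Ty.D F a) :
    (Pr.comp p q).cost v k x = p.cost v k x + q.cost v k (p.val v x) := rfl
@[simp] theorem cost_pair (p : Pr s a b) (q : Pr s a c) (v : SV F s) (k : SC F s) (x : Ty.D F a) :
    (Pr.pair p q).cost v k x = p.cost v k x + q.cost v k x + 1 := rfl
@[simp] theorem cost_fst (v : SV F s) (k : SC F s) (x : Ty.D F (.prod a b)) :
    (Pr.fst : Pr s (.prod a b) a).cost v k x = 1 := rfl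
@[simp] theorem cost_snd (v : SV F s) (k : SC F s) (x : Ty.D F (.prod a b)) :
    (Pr.snd : Pr s (.prod a b) b).cost v k x = 1 := rfl
@[simp] theorem cost_star (v : SV F s) (k : SC F s) (x : Ty.D F a) :
    (Pr.star : Pr s a .unit).cost v k x = 1 := rfl
@[simp] theorem cost_nil (v : SV F s) (k : SC F s) (x : Ty.D F a) :
    (Pr.nil : Pr s a (.list b)).cost v k x = 1 := rfl
@[simp] theorem cost_cons (v : SV F s) (k : SC F s) (x : Ty.D F (.prod a (.list a))) :
    (Pr.cons : Pr s (.prod a (.list a)) (.list a)).cost v k x = 1 := rfl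
@[simp] theorem cost_caseL (p : Pr s a c) (q : Pr s (.prod a (.prod b (.list b))) c)
    (v : SV F s) (k : SC F s) (x : Ty.D F (.prod a (.list b))) :
    (Pr.caseL p q).cost v k x =
      lcase x.2 (p.cost v k x.1) (fun h t => q.cost v k (x.1, (h, t))) + 1 := by
  obtain ⟨x, l⟩ := x; cases l <;> rfl
@[simp] theorem cost_zero (v : SV F s) (k : SC F s) (x : Ty.D F a) :
    (Pr.zero : Pr s a .fld).cost v k x = 1 := rfl
@[simp] theorem cost_one (v : SV F s) (k : SC F s) (x : Ty.D F a) :
    (Pr.one : Pr s a .fld).cost v k x = 1 := rfl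
@[simp] theorem cost_add (v : SV F s) (k : SC F s) (x : Ty.D F (.prod .fld .fld)) :
    (Pr.add : Pr s (.prod .fld .fld) .fld).cost v k x = 1 := rfl
@[simp] theorem cost_neg (v : SV F s) (k : SC F s) (x : Ty.D F .fld) :
    (Pr.neg : Pr s .fld .fld).cost v k x = 1 := rfl
@[simp] theorem cost_mul (v : SV F s) (k : SC F s) (x : Ty.D F (.prod .fld .fld)) :
    (Pr.mul : Pr s (.prod .fld .fld) .fld).cost v k x = 1 := rfl
@[simp] theorem cost_inv (v : SV F s) (k : SC F s) (x : Ty.D F .fld) :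
    (Pr.inv : Pr s .fld .fld).cost v k x = 1 := rfl
@[simp] theorem cost_ifz (p q : Pr s a b) (v : SV F s) (k : SC F s) (x : Ty.D F (.prod a .fld)) :
    (Pr.ifz p q).cost v k x =
      (if (x.2 : F) = 0 then p.cost v k x.1 else q.cost v k x.1) + 1 := rfl
@[simp] theorem cost_self (v : SV F ((σ, τ) :: s)) (k : SC F ((σ, τ) :: s)) (x : Ty.D F σ) :
    (Pr.self : Pr ((σ, τ) :: s) σ τ).cost v k x = k.1 x + 1 := rfl
@[simp] theorem cost_up (p : Pr s a b) (v : SV F ((σ, τ) :: s)) (k : SC F ((σ, τ) :: s))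
    (x : Ty.D F a) : (Pr.up p : Pr ((σ, τ) :: s) a b).cost v k x = p.cost v.2 k.2 x := rfl

/-- values of the recursive function at depth `n` -/
noncomputable def goV (p : Pr ((σ, τ) :: s) σ τ) (q : Pr s σ τ) (v : SV F s) : ℕ → Ty.D F σ → Ty.D F τ
  | 0 => q.val v
  | n + 1 => p.val (goV p q v n, v)

/-- costs of the recursive function at depth `n` -/
noncomputable def goC (p : Pr ((σ, τ) :: s) σ τ) (q : Pr s σ τ) (v : SV F s) (k : SC F s) :
    ℕ → Ty.D F σ → ℕ
  | 0 => q.cost v k
  | n + 1 => p.cost (goV p q v n, v) (goC p q v k n, k)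

theorem goV_eq (p : Pr ((σ, τ) :: s) σ τ) (q : Pr s σ τ) (v : SV F s) (n : ℕ) :
    (Nat.rec (motive := fun _ => Ty.D F σ → Ty.D F τ) (q.val v) (fun _ r => p.val (r, v)) n)
      = goV p q v n := by
  induction n with
  | zero => rfl
  | succ n ih => simp only [goV, ← ih]

theorem val_recD (p : Pr ((σ, τ) :: s) σ τ) (q : Pr s σ τ) (v : SV F s)
    (x : Ty.D F (.prod (.list d) σ)) :
    (Pr.recD p q : Pr s (.prod (.list d) σ) τ).val v x = goV p q v (List.length x.1) x.2 := by
  rw [← goV_eq]; rfl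

theorem goC_eq (p : Pr ((σ, τ) :: s) σ τ) (q : Pr s σ τ) (v : SV F s) (k : SC F s) (n : ℕ) :
    (Nat.rec (motive := fun _ => Ty.D F σ → ℕ) (q.cost v k)
        (fun n r => p.cost
          (Nat.rec (motive := fun _ => Ty.D F σ → Ty.D F τ) (q.val v)
            (fun _ r' => p.val (r', v)) n, v) (r, k)) n)
      = goC p q v k n := by
  induction n with
  | zero => rfl
  | succ n ih => simp only [goC, ← ih, ← goV_eq]

theorem cost_recD (p : Pr ((σ, τ) :: s) σ τ) (q : Pr s σ τ) (v : SV F s) (k : SC F s)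
    (x : Ty.D F (.prod (.list d) σ)) :
    (Pr.recD p q : Pr s (.prod (.list d) σ) τ).cost v k x
      = goC p q v k (List.length x.1) x.2 + 1 := by
  rw [← goC_eq]; rfl

end sem

end Pool.Agent.H330FB
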