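import Pool.Agent.H330FB.Lib1

set_option autoImplicit false

namespace Pool.Agent.H330FB

variable {F : Type} [Field F] [DecidableEq F]
variable {s : List (Ty × Ty)} {a b c d e g σ τ : Ty}

/-- application of a program with two arguments -/
abbrev ap2 (f : Pr s (.prod a b) c) (p : Pr s g a) (q : Pr s g b) : Pr s g c :=
  .comp (.pair p q) f

/-- application of a program with three arguments -/
abbrev ap3 (f : Pr s (.prod a (.prod b c)) d) (p : Pr s g a) (q : Pr s g b) (r : Pr s g c) :
    Pr s g d :=
  .comp (.pair p (.pair q r)) f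

/-- let-binding: the new variable is the last component of the context -/
def lt (e : Pr s g a) (p : Pr s (.prod g a) b) : Pr s g b := .comp (.pair .id e) p

@[simp] theorem val_lt (e : Pr s g a) (p : Pr s (.prod g a) b) (v : SV F s) (x : Ty.D F g) :
    (lt e p).val v x = p.val v (x, e.val v x) := rfl
@[simp] theorem cost_lt (e : Pr s g a) (p : Pr s (.prod g a) b) (v : SV F s) (k : SC F s)
    (x : Ty.D F g) :
    (lt e p).cost v k x = e.cost v k x + p.cost v k (x, e.val v x) + 2 := by
  simp [lt]; omega

/-- case distinction on the list computed by `e` -/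
def onL (e : Pr s g (.list a)) (p : Pr s g b) (q : Pr s (.prod g (.prod a (.list a))) b) :
    Pr s g b := .comp (.pair .id e) (.caseL p q)

@[simp] theorem val_onL (e : Pr s g (.list a)) (p : Pr s g b)
    (q : Pr s (.prod g (.prod a (.list a))) b) (v : SV F s) (x : Ty.D F g) :
    (onL e p q).val v x = lcase (e.val v x) (p.val v x) (fun h t => q.val v (x, (h, t))) := by
  simp [onL]
@[simp] theorem cost_onL (e : Pr s g (.list a)) (p : Pr s g b)
    (q : Pr s (.prod g (.prod a (.list a))) b) (v : SV F s) (k : SC F s) (x : Ty.D F g) :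
    (onL e p q).cost v k x = e.cost v k x + 3 +
      lcase (e.val v x) (p.cost v k x) (fun h t => q.cost v k (x, (h, t))) := by
  simp [onL]; omega

/-- zero test of the field element computed by `e` -/
def onZ (e : Pr s g .fld) (p q : Pr s g b) : Pr s g b := .comp (.pair .id e) (.ifz p q)

@[simp] theorem val_onZ (e : Pr s g .fld) (p q : Pr s g b) (v : SV F s) (x : Ty.D F g) :
    (onZ e p q).val v x = if (e.val v x : F) = 0 then p.val v x else q.val v x := by
  simp [onZ]
@[simp] theorem cost_onZ (e : Pr s g .fld) (p q : Pr s g b) (v : SV F s) (k : SC F s)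
    (x : Ty.D F g) :
    (onZ e p q).cost v k x = e.cost v k x + 3 +
      (if (e.val v x : F) = 0 then p.cost v k x else q.cost v k x) := by
  simp [onZ]; omega

/-! ### map -/

/-- body of `map` -/
def mapB (f : Pr s (.prod c a) b) :
    Pr ((.prod c (.list a), .list b) :: s) (.prod c (.list a)) (.list b) :=
  .caseL .nil
      (.comp (.pair (.comp (.pair .fst (.comp .snd .fst)) (.up f))
        (.comp (.pair .fst (.comp .snd .snd)) .self)) .cons)

/-- `map` with a context -/
def mapP (f : Pr s (.prod c a) b) : Pr s (.prod c (.list a)) (.list b) :=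
  .comp (.pair .snd .id) (.recD (mapB f) .nil)

@[simp] theorem val_mapP (f : Pr s (.prod c a) b) (v : SV F s)
    (x : Ty.D F (.prod c (.list a))) :
    (mapP f).val v x = List.map (fun y => f.val v (x.1, y)) x.2 := by
  obtain ⟨x, l⟩ := x
  simp only [mapP, val_comp, val_pair, val_snd, val_id, val_recD]
  induction l with
  | nil => rfl
  | cons h t ih => simp [goV, mapB] at ih ⊢; exact ih

theorem cost_mapP (f : Pr s (.prod c a) b) (v : SV F s) (k : SC F s)
    (x : Ty.D F (.prod c (.list a))) :
    (mapP f).cost v k x ≤
      (List.map (fun y => f.cost v k (x.1, y) + 13) x.2).sum + 5 := by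
  obtain ⟨x, l⟩ := x
  simp only [mapP, cost_comp, cost_pair, cost_snd, cost_id, cost_recD, val_pair, val_snd, val_id]
  have : ∀ l : List (Ty.D F a), goC (mapB f) .nil v k l.length (x, l) ≤
      (List.map (fun y => f.cost v k (x, y) + 13) l).sum + 1 := by
    intro l
    induction l with
    | nil => exact le_rfl
    | cons h t ih => simp [goC, mapB] at ih ⊢; omega
  have := this l
  omega

/-- cost of `map` when each call costs at most `B` -/
theorem cost_mapP_le (f : Pr s (.prod c a) b) (v : SV F s) (k : SC F s)
    (x : Ty.D F (.prod c (.list a))) (B : ℕ) (hB : ∀ y ∈ x.2, f.cost v k (x.1, y) ≤ B) :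
    (mapP f).cost v k x ≤ (B + 13) * List.length x.2 + 5 := by
  refine (cost_mapP f v k x).trans ?_
  have : ∀ l : List (Ty.D F a), (∀ y ∈ l, f.cost v k (x.1, y) ≤ B) →
      (List.map (fun y => f.cost v k (x.1, y) + 13) l).sum ≤ (B + 13) * List.length l := by
    intro l hl
    induction l with
    | nil => simp
    | cons h t ih =>
      have h1 := hl h (by simp)
      have h2 := ih (fun y hy => hl y (by simp [hy]))
      simp only [List.map_cons, List.sum_cons, List.length_cons]
      nlinarith
  have := this x.2 hB
  omega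

/-! ### left fold -/

/-- body of the left fold -/
def foldB (f : Pr s (.prod c (.prod b a)) b) :
    Pr ((.prod c (.prod b (.list a)), b) :: s) (.prod c (.prod b (.list a))) b :=
  onL (.comp .snd .snd) (.comp .snd .fst)
    (.comp (.pair (.comp .fst .fst)
      (.pair (.comp (.pair (.comp .fst .fst) (.pair (.comp (.comp .fst .snd) .fst)
        (.comp .snd .fst))) (.up f)) (.comp .snd .snd))) .self)

/-- left fold with a context: input `(context, (start, list))` -/
def foldP (f : Pr s (.prod c (.prod b a)) b) : Pr s (.prod c (.prod b (.list a))) b :=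
  .comp (.pair (.comp .snd .snd) .id) (.recD (foldB f) (.comp .snd .fst))

@[simp] theorem val_foldP (f : Pr s (.prod c (.prod b a)) b) (v : SV F s)
    (x : Ty.D F (.prod c (.prod b (.list a)))) :
    (foldP f).val v x = List.foldl (fun y z => f.val v (x.1, (y, z))) x.2.1 x.2.2 := by
  obtain ⟨x, y, l⟩ := x
  simp only [foldP, val_comp, val_pair, val_snd, val_id, val_recD]
  induction l generalizing y with
  | nil => rfl
  | cons h t ih => simp [goV, foldB] at ih ⊢; exact ih _

theorem cost_foldP_le (f : Pr s (.prod c (.prod b a)) b) (v : SV F s) (k : SC F s)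
    (x : Ty.D F (.prod c (.prod b (.list a)))) (B : ℕ) (I : Ty.D F b → Prop)
    (h0 : I x.2.1) (hI : ∀ y z, I y → z ∈ x.2.2 → I (f.val v (x.1, (y, z))))
    (hB : ∀ y z, I y → z ∈ x.2.2 → f.cost v k (x.1, (y, z)) ≤ B) :
    (foldP f).cost v k x ≤ (B + 27) * List.length x.2.2 + 14 := by
  obtain ⟨x, y, l⟩ := x
  simp only [foldP, cost_comp, cost_pair, cost_snd, cost_id, cost_recD, val_pair, val_snd,
    val_id, val_comp] at h0 hI hB ⊢
  have : ∀ (l : List (Ty.D F a)) (y : Ty.D F b), I y →
      (∀ y z, I y → z ∈ l → I (f.val v (x, (y, z)))) →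
      (∀ y z, I y → z ∈ l → f.cost v k (x, (y, z)) ≤ B) →
      goC (foldB f) (.comp .snd .fst) v k l.length (x, (y, l)) ≤
      (B + 27) * List.length l + 7 := by
    intro l
    induction l with
    | nil => intro y _ _ _; simp [goC]
    | cons h t ih =>
      intro y hy h1 h2
      have e1 := ih (f.val v (x, (y, h))) (h1 y h hy (by simp))
        (fun y z hy hz => h1 y z hy (by simp [hz])) (fun y z hy hz => h2 y z hy (by simp [hz]))
      have e2 := h2 y h hy (by simp)
      simp [goC, foldB] at e1 ⊢
      nlinarith
  have := this l y h0 hI hB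
  omega

end Pool.Agent.H330FB
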