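import Pool.Agent.H330FB.Lib2

set_option autoImplicit false

/-!
# A small library of list programs

Every program `fooP` comes with a lemma `val_fooP` (its value, as a Lean function on lists) and a
bound `cost_fooP` of its running time.
-/

namespace Pool.Agent.H330FB

variable {F : Type} [Field F] [DecidableEq F]
variable {s : List (Ty × Ty)} {a b c d e g σ τ : Ty}

/-! ### fit -/

/-- the list of the first `n` elements, padded by `z` if there are fewer -/
def fit {α : Type} : ℕ → α → List α → List α
  | 0, _, _ => []
  | n + 1, z, [] => z :: fit n z []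
  | n + 1, z, x :: l => x :: fit n z l

@[simp] theorem length_fit {α : Type} (n : ℕ) (z : α) (l : List α) : (fit n z l).length = n := by
  induction n generalizing l with
  | zero => rfl
  | succ n ih => cases l <;> simp [fit, ih]

/-- input `(u, (z, l))` -/
def fitP : Pr s (.prod (.list b) (.prod a (.list a))) (.list a) :=
  .recD (onL .snd (.comp (.pair .fst (.comp (.pair .fst .nil) .self)) .cons)
    (.comp (.pair (.comp .snd .fst) (.comp (.pair (.comp .fst .fst) (.comp .snd .snd)) .self))
      .cons)) .nil

@[simp] theorem val_fitP (v : SV F s) (x : Ty.D F (.prod (.list b) (.prod a (.list a)))) :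
    (fitP : Pr s (.prod (.list b) (.prod a (.list a))) (.list a)).val v x =
      fit (List.length x.1) x.2.1 x.2.2 := by
  obtain ⟨u, z, l⟩ := x
  simp only [fitP, val_recD]
  generalize List.length u = n
  induction n generalizing l with
  | zero => simp [goV, fit]
  | succ n ih => cases l <;> simp [goV, fit, ih]

theorem cost_fitP (v : SV F s) (k : SC F s) (x : Ty.D F (.prod (.list b) (.prod a (.list a)))) :
    (fitP : Pr s (.prod (.list b) (.prod a (.list a))) (.list a)).cost v k x ≤
      20 * List.length x.1 + 2 := by
  obtain ⟨u, z, l⟩ := x
  simp only [fitP, cost_recD]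
  generalize List.length u = n
  induction n generalizing l with
  | zero => simp [goC]
  | succ n ih =>
    cases l with
    | nil => have := ih []; simp [goC] at this ⊢; omega
    | cons h t => have := ih t; simp [goC] at this ⊢; omega

/-! ### take and drop -/

/-- input `(u, l)`, output `(take, drop)` -/
def splitP : Pr s (.prod (.list b) (.list a)) (.prod (.list a) (.list a)) :=
  .recD (onL .id (.pair .nil .nil)
    (lt (.comp (.comp .snd .snd) .self)
      (.pair (.comp (.pair (.comp (.comp .fst .snd) .fst) (.comp .snd .fst)) .cons)
        (.comp .snd .snd)))) (.pair .nil .id)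

@[simp] theorem val_splitP (v : SV F s) (x : Ty.D F (.prod (.list b) (.list a))) :
    (splitP : Pr s (.prod (.list b) (.list a)) _).val v x =
      (List.take (List.length x.1) x.2, List.drop (List.length x.1) x.2) := by
  obtain ⟨u, l⟩ := x
  simp only [splitP, val_recD]
  generalize List.length u = n
  induction n generalizing l with
  | zero => simp [goV]
  | succ n ih => cases l <;> simp [goV, ih]

theorem cost_splitP (v : SV F s) (k : SC F s) (x : Ty.D F (.prod (.list b) (.list a))) :
    (splitP : Pr s (.prod (.list b) (.list a)) _).cost v k x ≤ 24 * List.length x.1 + 8 := by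
  obtain ⟨u, l⟩ := x
  simp only [splitP, cost_recD]
  generalize List.length u = n
  induction n generalizing l with
  | zero => simp [goC]
  | succ n ih =>
    cases l with
    | nil => simp [goC]
    | cons h t => have := ih t; simp [goC] at this ⊢; omega

/-! ### append, reverse, flatten -/

/-- input `(l, m)`, output `l ++ m` -/
def appP : Pr s (.prod (.list a) (.list a)) (.list a) :=
  .comp (.pair .fst .id) (.recD (onL .fst .snd
    (.comp (.pair (.comp .snd .fst) (.comp (.pair (.comp .snd .snd) (.comp .fst .snd)) .self))
      .cons)) .snd)

@[simp] theorem val_appP (v : SV F s) (x : Ty.D F (.prod (.list a) (.list a))) :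
    (appP : Pr s (.prod (.list a) (.list a)) _).val v x = ((x.1 : List _) ++ x.2 : List _) := by
  obtain ⟨l, m⟩ := x
  simp only [appP, val_comp, val_pair, val_fst, val_id, val_recD]
  induction l with
  | nil => simp [goV]
  | cons h t ih => simp [goV] at ih ⊢; exact ih

theorem cost_appP (v : SV F s) (k : SC F s) (x : Ty.D F (.prod (.list a) (.list a))) :
    (appP : Pr s (.prod (.list a) (.list a)) _).cost v k x ≤ 20 * List.length x.1 + 5 := by
  obtain ⟨l, m⟩ := x
  simp only [appP, cost_comp, cost_pair, cost_fst, cost_id, val_pair, val_fst, val_id, cost_recD]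
  induction l with
  | nil => simp [goC]
  | cons h t ih => simp [goC] at ih ⊢; omega

/-- reverse -/
def revP : Pr s (.list a) (.list a) :=
  .comp (.pair .star (.pair .nil .id))
    (foldP (c := .unit) (.comp (.pair (.comp .snd .snd) (.comp .snd .fst)) .cons))

@[simp] theorem val_revP (v : SV F s) (x : Ty.D F (.list a)) :
    (revP : Pr s (.list a) _).val v x = (List.reverse x : List _) := by
  simp [revP]

theorem cost_revP (v : SV F s) (k : SC F s) (x : Ty.D F (.list a)) :
    (revP : Pr s (.list a) _).cost v k x ≤ 33 * List.length x + 19 := by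
  have h := cost_foldP_le (c := .unit)
    (.comp (.pair (.comp .snd .snd) (.comp .snd .fst)) .cons : Pr s (.prod .unit (.prod (.list a) a)) _)
    v k ((), (([] : List _), x)) 6 (fun _ => True) trivial (fun _ _ _ _ => trivial)
    (fun _ _ _ _ => by simp)
  simp [revP] at h ⊢
  omega

/-- flatten a list of lists -/
def flatP : Pr s (.list (.list a)) (.list a) :=
  .comp (.pair .star (.pair .nil revP))
    (foldP (c := .unit) (.comp (.pair (.comp .snd .snd) (.comp .snd .fst)) appP))

@[simp] theorem val_flatP (v : SV F s) (x : Ty.D F (.list (.list a))) :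
    (flatP : Pr s (.list (.list a)) _).val v x = (List.flatten x : List _) := by
  have : ∀ (l : List (List (Ty.D F a))) (m : List (Ty.D F a)),
      List.foldl (fun y z => z ++ y) m l = (List.reverse l).flatten ++ m := by
    intro l
    induction l with
    | nil => simp
    | cons h t ih => intro m; simp [ih]
  simp [flatP, this]

theorem cost_flatP (v : SV F s) (k : SC F s) (x : Ty.D F (.list (.list a))) (n : ℕ)
    (hn : ∀ y ∈ x, List.length y ≤ n) :
    (flatP : Pr s (.list (.list a)) _).cost v k x ≤ (20 * n + 71) * List.length x + 40 := by
  have h := cost_foldP_le (c := .unit)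
    (.comp (.pair (.comp .snd .snd) (.comp .snd .fst)) appP :
      Pr s (.prod .unit (.prod (.list a) (.list a))) _)
    v k ((), (([] : List _), List.reverse x)) (20 * n + 11) (fun _ => True) trivial
    (fun _ _ _ _ => trivial)
    (fun y z _ hz => by
      have h1 := cost_appP (s := s) v k (z, y)
      have h2 := hn z (by simpa using hz)
      simp at h1 ⊢
      omega)
  have h2 := cost_revP (s := s) v k x
  simp [flatP] at h h2 ⊢
  nlinarith

/-! ### zipWith -/

/-- input `(context, (l, m))` -/
def zipP (f : Pr s (.prod c (.prod a b)) d) : Pr s (.prod c (.prod (.list a) (.list b))) (.list d) :=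
  .comp (.pair (.comp .snd .fst) .id)
    (.recD (onL (.comp .snd .fst) .nil
      (onL (.comp (.comp .fst .snd) .snd) .nil
        (.comp (.pair
          (.comp (.pair (.comp (.comp .fst .fst) .fst)
            (.pair (.comp (.comp .fst .snd) .fst) (.comp .snd .fst))) (.up f))
          (.comp (.pair (.comp (.comp .fst .fst) .fst)
            (.pair (.comp (.comp .fst .snd) .snd) (.comp .snd .snd))) .self)) .cons))) .nil)

@[simp] theorem val_zipP (f : Pr s (.prod c (.prod a b)) d) (v : SV F s)
    (x : Ty.D F (.prod c (.prod (.list a) (.list b)))) :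
    (zipP f).val v x = List.zipWith (fun y z => f.val v (x.1, (y, z))) x.2.1 x.2.2 := by
  obtain ⟨x, l, m⟩ := x
  simp only [zipP, val_comp, val_pair, val_snd, val_fst, val_id, val_recD]
  induction l generalizing m with
  | nil => simp [goV]
  | cons h t ih =>
    cases m with
    | nil => simp [goV]
    | cons h' t' => have := ih t'; simp [goV] at this ⊢; exact this

theorem cost_zipP_le (f : Pr s (.prod c (.prod a b)) d) (v : SV F s) (k : SC F s)
    (x : Ty.D F (.prod c (.prod (.list a) (.list b)))) (B : ℕ)
    (hB : ∀ y ∈ x.2.1, ∀ z ∈ x.2.2, f.cost v k (x.1, (y, z)) ≤ B) :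
    (zipP f).cost v k x ≤ (B + 49) * List.length x.2.1 + 15 := by
  obtain ⟨x, l, m⟩ := x
  simp only [zipP, cost_comp, cost_pair, cost_snd, cost_fst, cost_id, val_comp, val_pair, val_snd,
    val_fst, val_id, cost_recD] at hB ⊢
  have : goC (onL (.comp .snd .fst) .nil
      (onL (.comp (.comp .fst .snd) .snd) .nil
        (.comp (.pair
          (.comp (.pair (.comp (.comp .fst .fst) .fst)
            (.pair (.comp (.comp .fst .snd) .fst) (.comp .snd .fst))) (.up f))
          (.comp (.pair (.comp (.comp .fst .fst) .fst)
            (.pair (.comp (.comp .fst .snd) .snd) (.comp .snd .snd))) .self)) .cons))) .nil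
        v k l.length (x, (l, m)) ≤ (B + 49) * List.length l + 7 := by
    induction l generalizing m with
    | nil => simp [goC]
    | cons h t ih =>
      cases m with
      | nil => simp [goC]; nlinarith
      | cons h' t' =>
        have e1 := ih t' (fun y hy z hz => hB y (by simp [hy]) z (by simp [hz]))
        have e2 := hB h (by simp) h' (by simp)
        simp [goC] at e1 ⊢
        nlinarith
  omega

end Pool.Agent.H330FB
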