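import Pool.Agent.H330FB.Lib3

set_option autoImplicit false

/-!
# A small library of list programs (continued)
-/

namespace Pool.Agent.H330FB

variable {F : Type} [Field F] [DecidableEq F]
variable {s : List (Ty × Ty)} {a b c d e g σ τ : Ty}

/-! ### even and odd positions -/

/-- the elements in even positions and those in odd positions -/
def eo {α : Type} : List α → List α × List α
  | [] => ([], [])
  | x :: l => (x :: (eo l).2, (eo l).1)

/-- even and odd positions -/
def eoP : Pr s (.list a) (.prod (.list a) (.list a)) :=
  .comp (.pair .id .id) (.recD (onL .id (.pair .nil .nil)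
    (lt (.comp (.comp .snd .snd) .self)
      (.pair (.comp (.pair (.comp (.comp .fst .snd) .fst) (.comp .snd .snd)) .cons)
        (.comp .snd .fst)))) (.pair .nil .nil))

@[simp] theorem val_eoP (v : SV F s) (x : Ty.D F (.list a)) :
    (eoP : Pr s (.list a) _).val v x = eo (x : List _) := by
  simp only [eoP, val_comp, val_pair, val_id, val_recD]
  induction x with
  | nil => simp [goV, eo]
  | cons h t ih => simp [goV, eo] at ih ⊢; simp [ih]

theorem cost_eoP (v : SV F s) (k : SC F s) (x : Ty.D F (.list a)) :
    (eoP : Pr s (.list a) _).cost v k x ≤ 24 * List.length x + 10 := by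
  simp only [eoP, cost_comp, cost_pair, val_pair, val_id, cost_id, cost_recD]
  induction x with
  | nil => simp [goC]
  | cons h t ih => simp [goC] at ih ⊢; omega

/-- interleaving, with padding by `z` -/
def il {α : Type} (z : α) : List α → List α → List α
  | [], [] => []
  | [], y :: b => z :: y :: il z [] b
  | x :: a, [] => x :: z :: il z a []
  | x :: a, y :: b => x :: y :: il z a b

/-- input `(z, (l, m))` -/
def ilP : Pr s (.prod a (.prod (.list a) (.list a))) (.list a) :=
  .comp (.pair (.comp .snd appP) .id)
    (.recD (onL (.comp .snd .fst)
      (onL (.comp .snd .snd) .nil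
        (.comp (.pair (.comp .fst .fst) (.comp (.pair (.comp .snd .fst)
          (.comp (.pair (.comp .fst .fst) (.pair .nil (.comp .snd .snd))) .self)) .cons)) .cons))
      (onL (.comp (.comp .fst .snd) .snd)
        (.comp (.pair (.comp .snd .fst) (.comp (.pair (.comp .fst .fst)
          (.comp (.pair (.comp .fst .fst) (.pair (.comp .snd .snd) .nil)) .self)) .cons)) .cons)
        (.comp (.pair (.comp (.comp .fst .snd) .fst) (.comp (.pair (.comp .snd .fst)
          (.comp (.pair (.comp (.comp .fst .fst) .fst)
            (.pair (.comp (.comp .fst .snd) .snd) (.comp .snd .snd))) .self)) .cons)) .cons)))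
      .nil)

@[simp] theorem val_ilP (v : SV F s) (x : Ty.D F (.prod a (.prod (.list a) (.list a)))) :
    (ilP : Pr s (.prod a (.prod (.list a) (.list a))) _).val v x = il x.1 x.2.1 x.2.2 := by
  obtain ⟨z, l, m⟩ := x
  simp only [ilP, val_comp, val_pair, val_snd, val_appP, val_id, val_recD]
  have : ∀ (n : ℕ) (l m : List (Ty.D F a)), l.length + m.length ≤ n →
      goV (s := s) (onL (.comp .snd .fst)
      (onL (.comp .snd .snd) .nil
        (.comp (.pair (.comp .fst .fst) (.comp (.pair (.comp .snd .fst)
          (.comp (.pair (.comp .fst .fst) (.pair .nil (.comp .snd .snd))) .self)) .cons)) .cons))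
      (onL (.comp (.comp .fst .snd) .snd)
        (.comp (.pair (.comp .snd .fst) (.comp (.pair (.comp .fst .fst)
          (.comp (.pair (.comp .fst .fst) (.pair (.comp .snd .snd) .nil)) .self)) .cons)) .cons)
        (.comp (.pair (.comp (.comp .fst .snd) .fst) (.comp (.pair (.comp .snd .fst)
          (.comp (.pair (.comp (.comp .fst .fst) .fst)
            (.pair (.comp (.comp .fst .snd) .snd) (.comp .snd .snd))) .self)) .cons)) .cons)))
      .nil v n (z, (l, m)) = il z l m := by
    intro n
    induction n with
    | zero =>
      intro l m h
      have h1 : l = [] := List.length_eq_zero_iff.mp (by omega)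
      have h2 : m = [] := List.length_eq_zero_iff.mp (by omega)
      subst h1 h2
      simp [goV, il]
    | succ n ih =>
      intro l m h
      cases l with
      | nil =>
        cases m with
        | nil => simp [goV, il]
        | cons y m => simp [goV, il]; rw [ih [] m (by simp at h ⊢; omega)]
      | cons x l =>
        cases m with
        | nil => simp [goV, il]; rw [ih l [] (by simp at h ⊢; omega)]
        | cons y m => simp [goV, il]; rw [ih l m (by simp at h ⊢; omega)]
  exact this _ _ _ (by simp)

theorem cost_ilP (v : SV F s) (k : SC F s) (x : Ty.D F (.prod a (.prod (.list a) (.list a)))) :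
    (ilP : Pr s (.prod a (.prod (.list a) (.list a))) _).cost v k x ≤
      60 * (List.length x.2.1 + List.length x.2.2) + 40 := by
  obtain ⟨z, l, m⟩ := x
  simp only [ilP, cost_comp, cost_pair, cost_snd, cost_id, val_comp, val_pair, val_snd,
    val_appP, val_id, cost_recD]
  have h0 := cost_appP (s := s) v k (l, m)
  have : ∀ (n : ℕ) (l m : List (Ty.D F a)), l.length + m.length ≤ n →
      goC (s := s) (onL (.comp .snd .fst)
      (onL (.comp .snd .snd) .nil
        (.comp (.pair (.comp .fst .fst) (.comp (.pair (.comp .snd .fst)
          (.comp (.pair (.comp .fst .fst) (.pair .nil (.comp .snd .snd))) .self)) .cons)) .cons))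
      (onL (.comp (.comp .fst .snd) .snd)
        (.comp (.pair (.comp .snd .fst) (.comp (.pair (.comp .fst .fst)
          (.comp (.pair (.comp .fst .fst) (.pair (.comp .snd .snd) .nil)) .self)) .cons)) .cons)
        (.comp (.pair (.comp (.comp .fst .snd) .fst) (.comp (.pair (.comp .snd .fst)
          (.comp (.pair (.comp (.comp .fst .fst) .fst)
            (.pair (.comp (.comp .fst .snd) .snd) (.comp .snd .snd))) .self)) .cons)) .cons)))
      .nil v k n (z, (l, m)) ≤ 40 * (l.length + m.length) + 14 := by
    intro n
    induction n with
    | zero =>
      intro l m h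
      simp [goC]
    | succ n ih =>
      intro l m h
      cases l with
      | nil =>
        cases m with
        | nil => simp [goC]
        | cons y m => have := ih [] m (by simp at h ⊢; omega); simp [goC] at this ⊢; omega
      | cons x l =>
        cases m with
        | nil => have := ih l [] (by simp at h ⊢; omega); simp [goC] at this ⊢; omega
        | cons y m => have := ih l m (by simp at h ⊢; omega); simp [goC] at this ⊢; omega
  have := this (l ++ m).length l m (by simp)
  simp only at h0 ⊢
  omega

/-! ### zip with padding -/

/-- zip where the longer list is kept beyond the end of the shorter one -/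
def zp {α : Type} (f : α → α → α) : List α → List α → List α
  | [], m => m
  | x :: l, [] => x :: l
  | x :: l, y :: m => f x y :: zp f l m

/-- zip with padding -/
def zpP (f : Pr s (.prod a a) a) : Pr s (.prod (.list a) (.list a)) (.list a) :=
  .comp (.pair .fst .id)
    (.recD (onL .fst .snd
      (onL (.comp .fst .snd) (.comp .fst .fst)
        (.comp (.pair
          (.comp (.pair (.comp (.comp .fst .snd) .fst) (.comp .snd .fst)) (.up f))
          (.comp (.pair (.comp (.comp .fst .snd) .snd) (.comp .snd .snd)) .self)) .cons))) .snd)

@[simp] theorem val_zpP (f : Pr s (.prod a a) a) (v : SV F s)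
    (x : Ty.D F (.prod (.list a) (.list a))) :
    (zpP f).val v x = zp (fun y z => f.val v (y, z)) x.1 x.2 := by
  obtain ⟨l, m⟩ := x
  simp only [zpP, val_comp, val_pair, val_snd, val_fst, val_id, val_recD]
  induction l generalizing m with
  | nil => simp [goV, zp]
  | cons h t ih =>
    cases m with
    | nil => simp [goV, zp]
    | cons h' t' => have := ih t'; simp [goV, zp] at this ⊢; exact this

theorem cost_zpP_le (f : Pr s (.prod a a) a) (v : SV F s) (k : SC F s)
    (x : Ty.D F (.prod (.list a) (.list a))) (B : ℕ)
    (hB : ∀ y ∈ x.1, ∀ z ∈ x.2, f.cost v k (y, z) ≤ B) :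
    (zpP f).cost v k x ≤ (B + 40) * List.length x.1 + 15 := by
  obtain ⟨l, m⟩ := x
  simp only [zpP, cost_comp, cost_pair, cost_snd, cost_fst, cost_id, val_comp, val_pair, val_snd,
    val_fst, val_id, cost_recD] at hB ⊢
  have : goC (onL .fst .snd
      (onL (.comp .fst .snd) (.comp .fst .fst)
        (.comp (.pair
          (.comp (.pair (.comp (.comp .fst .snd) .fst) (.comp .snd .fst)) (.up f))
          (.comp (.pair (.comp (.comp .fst .snd) .snd) (.comp .snd .snd)) .self)) .cons))) .snd
        v k l.length (l, m) ≤ (B + 40) * List.length l + 10 := by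
    induction l generalizing m with
    | nil => simp [goC]
    | cons h t ih =>
      cases m with
      | nil => simp [goC]; nlinarith
      | cons h' t' =>
        have e1 := ih t' (fun y hy z hz => hB y (by simp [hy]) z (by simp [hz]))
        have e2 := hB h (by simp) h' (by simp)
        simp [goC] at e1 ⊢
        nlinarith
  omega

/-! ### binary logarithm of a length -/

/-- number of halvings -/
def lgP : Pr s (.list a) (.list .unit) :=
  .comp (.pair .id .id) (.recD (onL .id .nil (onL (.comp .snd .snd) .nil
    (.comp (.pair .star (.comp (.comp (.comp (.comp .fst .fst) eoP) .fst) .self)) .cons))) .nil)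

theorem length_eo {α : Type} (l : List α) :
    (eo l).1.length = (l.length + 1) / 2 ∧ (eo l).2.length = l.length / 2 := by
  induction l with
  | nil => simp [eo]
  | cons h t ih =>
    obtain ⟨h1, h2⟩ := ih
    simp only [eo, List.length_cons]
    omega

theorem val_lgP (v : SV F s) (x : Ty.D F (.list a)) :
    List.length ((lgP : Pr s (.list a) _).val v x) = Nat.clog 2 (List.length x) := by
  simp only [lgP, val_comp, val_pair, val_id, val_recD]
  have : ∀ (n : ℕ) (l : List (Ty.D F a)), l.length ≤ n → List.length (goV (s := s)
      (onL .id .nil (onL (.comp .snd .snd) .nil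
        (.comp (.pair .star (.comp (.comp (.comp (.comp .fst .fst) eoP) .fst) .self)) .cons))) .nil
        v n l) = Nat.clog 2 l.length := by
    intro n
    induction n with
    | zero =>
      intro l h
      have h1 : l = [] := List.length_eq_zero_iff.mp (by omega)
      subst h1
      simp [goV]
    | succ n ih =>
      intro l h
      rcases l with _ | ⟨x, _ | ⟨y, l⟩⟩
      · simp [goV]
      · simp [goV]
      · have e := ih (eo (x :: y :: l)).1 (by
          rw [(length_eo _).1]; simp at h ⊢; omega)
        simp [goV] at e ⊢
        rw [e, (length_eo _).1]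
        rw [Nat.clog_of_one_lt (n := l.length + 1 + 1) (by norm_num) (by omega)]
        simp
  exact this _ _ le_rfl

theorem cost_lgP (v : SV F s) (k : SC F s) (x : Ty.D F (.list a)) :
    (lgP : Pr s (.list a) _).cost v k x ≤ 120 * List.length x + 20 := by
  simp only [lgP, cost_comp, cost_pair, val_pair, val_id, cost_id, cost_recD]
  have : ∀ (n : ℕ) (l : List (Ty.D F a)), l.length ≤ n → goC (s := s)
      (onL .id .nil (onL (.comp .snd .snd) .nil
        (.comp (.pair .star (.comp (.comp (.comp (.comp .fst .fst) eoP) .fst) .self)) .cons))) .nil
        v k n l ≤ 120 * l.length + 12 := by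
    intro n
    induction n with
    | zero =>
      intro l h
      simp [goC]
    | succ n ih =>
      intro l h
      rcases l with _ | ⟨x, _ | ⟨y, l⟩⟩
      · simp [goC]
      · simp [goC]
      · have e := ih (eo (x :: y :: l)).1 (by
          rw [(length_eo _).1]; simp at h ⊢; omega)
        have e2 := cost_eoP (s := (.list a, .list .unit) :: s) (F := F)
          (goV (onL .id .nil (onL (.comp .snd .snd) .nil
            (.comp (.pair .star (.comp (.comp (.comp (.comp .fst .fst) eoP) .fst) .self))
              .cons))) .nil v n, v)
          (goC (onL .id .nil (onL (.comp .snd .snd) .nil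
            (.comp (.pair .star (.comp (.comp (.comp (.comp .fst .fst) eoP) .fst) .self))
              .cons))) .nil v k n, k) (x :: y :: l)
        rw [(length_eo _).1] at e
        simp [goC] at e e2 ⊢
        omega
  have := this x.length x le_rfl
  omega

end Pool.Agent.H330FB
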