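import Pool.Agent.H330FB.Spec2

set_option autoImplicit false

/-!
# Exact statements on programs, part 3
-/

namespace Pool.Agent.H330FB

open Polynomial

/-! ### Hensel: algebra -/

/-- uniqueness of lifted factorizations -/
def StmtUniq : Prop := ∀ (R K : Type) [CommRing R] [Field K] (ε : R →+* K),
  Function.Surjective ε → (∀ x, ε x = 0 → IsNilpotent x) →
  ∀ (r : ℕ) (A B : Fin r → R[X]), (∀ i, (A i).Monic) → (∀ i, (B i).Monic) →
  ∏ i, A i = ∏ i, B i → (∀ i, (A i).map ε = (B i).map ε) →
  (∀ i j, i ≠ j → IsCoprime ((A i).map ε) ((A j).map ε)) → A = B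

/-- existence of local factors -/
def StmtLocal : Prop := ∀ (K : Type) [Field K] [DecidableEq K]
  (tb : List (List K) × List (List K)) (S hs : List (List K)) (n s : ℕ), IsTb tb →
  S.length = n → 1 ≤ n → n < s → Sh (n + 1) S → TD (mbiv S) n →
  (∀ h ∈ hs, Irreducible (mpol h)) → hs.Nodup → (hs.map mpol).prod = mpol (hd0 S) → 1 ≤ s →
  ∃ (R : Type) (_ : CommRing R) (π : K[X] →+* R) (ε : R →+* K) (F : Fin hs.length → R[X]),
    LocalFact π ε s n hs.length (mbiv S) F ∧ ∀ i, (F i).map ε = mpol (hs.get i)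

/-! ### Recombination -/

/-- complete factorization of a squarefree monic polynomial -/
def RecGood {K : Type} [Field K] (S : List (List K)) (out : List (List (List K))) : Prop :=
  (out.map mbiv).prod = mbiv S ∧
  (∀ A ∈ out, 1 ≤ A.length ∧ Sh (S.length + 1) A ∧ Irreducible (mbiv A)) ∧ out.Nodup

/-- recombination; input `(table, ((bits q, e), (S, (local factors, (places, g)))))`;
the program is run over `L`, `S` and the local factors are defined over `K` -/
def SpecRec : Prop := ∃ (p : Pr [] (.prod TB (.prod (.prod Po Un) (.prod Ma (.prod Ma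
    (.prod Po Ma))))) (.list Ma)) (C k : ℕ),
  ∀ (K L : Type) [Field K] [Fintype K] [DecidableEq K] [Field L] [Fintype L] [DecidableEq L]
  [Algebra K L] (q e n : ℕ) (tb : List (List K) × List (List K)) (S hs : List (List K))
  (R : Type) [CommRing R] (π : K[X] →+* R) (ε : R →+* K) (F : Fin hs.length → R[X])
  (a : Fin (2 * n + 2) → L) (g : Fin (2 * n + 2) → Fin n → L),
  Module.finrank K L = 2 → Fintype.card K = q ^ e → IsTb tb → S.length = n → Sh (n + 1) S →
  LocalFact π ε (12 * n + 20) n hs.length (mbiv S) F → (∀ i, (F i).map ε = mpol (hs.get i)) →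
  GoodR π (12 * n + 20) (mbiv S) F (Fintype.card K) a g →
  ∃ out : List (List (List K)), RecGood S out ∧
    (p.val () (Ty.map (algebraMap K L) TB tb, ((bits L q, un e),
      (Ty.map (algebraMap K L) Ma S, (Ty.map (algebraMap K L) Ma hs, (List.ofFn a, rows g))))) :
      List (List (List L))) = Ty.map (algebraMap K L) (.list Ma) out ∧
    p.cost () () (Ty.map (algebraMap K L) TB tb, ((bits L q, un e),
      (Ty.map (algebraMap K L) Ma S, (Ty.map (algebraMap K L) Ma hs, (List.ofFn a, rows g))))) ≤
      C * PL e q n ^ k * ww (n + 1)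

/-! ### Coordinates -/

/-- substitution `y = t + a x + b`; the inner variable is `y` in the argument and `t` in the
value -/
noncomputable def sub {K : Type} [Field K] (a b : K) : K[X][X] →+* K[X][X] :=
  eval₂RingHom (eval₂RingHom (C.comp C : K →+* K[X][X]) (C (X + C b) + C (C a) * X)) X

/-- bivariate polynomial; row `k` of `l` holds the coefficients of `x^(k-j) y^j` -/
noncomputable def hom {K : Type} [Field K] (l : List (List K)) : K[X][X] :=
  ∑ k ∈ Finset.range l.length, ∑ j ∈ Finset.range (k + 1),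
    C (C ((l.getD k []).getD j 0) * X ^ j) * X ^ (k - j)

/-- format of a polynomial of total degree at most `d` -/
def IsHom {K : Type} (d : ℕ) (l : List (List K)) : Prop :=
  l.length = d + 1 ∧ ∀ k ≤ d, (l.getD k []).length = k + 1

/-- the top form is not zero -/
def TopNe {K : Type} [Field K] (d : ℕ) (l : List (List K)) : Prop :=
  ∃ j, (l.getD d []).getD j 0 ≠ 0

/-- substitution, input `(a, (b, H))`, result by powers of `x` -/
def SpecCoF : Prop := ∃ (p : Pr [] (.prod .fld (.prod .fld Ma)) Ma) (C : ℕ),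
  ∀ (F : Type) [Field F] [DecidableEq F] (a b : F) (d : ℕ) (H : List (List F)), IsHom d H →
  let r : List (List F) := p.val () (a, (b, H))
  r.length = d + 1 ∧ Sh (d + 1) r ∧ biv r = sub a b (hom H) ∧
  p.cost () () (a, (b, H)) ≤ C * ww (d + 1)

/-- substitution, input `(a, (b, G))` by powers of `x`, result by homogeneous parts -/
def SpecCoB : Prop := ∃ (p : Pr [] (.prod .fld (.prod .fld Ma)) Ma) (C : ℕ),
  ∀ (F : Type) [Field F] [DecidableEq F] (a b : F) (m : ℕ) (G : List (List F)),
  G.length = m + 1 → Sh (m + 1) G → TD (biv G) m →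
  let r : List (List F) := p.val () (a, (b, G))
  IsHom m r ∧ hom r = sub a b (biv G) ∧
  p.cost () () (a, (b, G)) ≤ C * ww (m + 1)

/-- good coordinates for `f` of total degree `d` -/
def CoGood {K : Type} [Field K] (a b : K) (f : K[X][X]) (d : ℕ) : Prop :=
  ((sub a b f).coeff d).coeff 0 ≠ 0 ∧
  ∃ (T : K[X][X]) (N : ℕ), T.Monic ∧ T ∣ sub a b f ∧ sub a b f ∣ T ^ N ∧
    Squarefree (T.map (evalRingHom (0 : K)))

/-- most coordinates are good -/
def StmtCoCount : Prop := ∀ (K : Type) [Field K] [Fintype K] (d : ℕ) (H : List (List K)),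
  IsHom d H → 1 ≤ d → TopNe d H →
  Nat.card {x : K × K // ¬ CoGood x.1 x.2 (hom H) d} ≤ (2 * d ^ 2 + 3 * d) * Fintype.card K

/-! ### Roots and squarefree decomposition -/

/-- `c`-th root; input `(table, ((bits q, e), (c, P)))` -/
def SpecRoot : Prop := ∃ (p : Pr [] (.prod TB (.prod (.prod Po Un) (.prod Un Ma))) Ma) (C k : ℕ),
  ∀ (K : Type) [Field K] [Fintype K] [DecidableEq K] (q e w c m : ℕ)
  (tb : List (List K) × List (List K)) (P : List (List K)) (S : K[X][X]),
  Fintype.card K = q ^ e → IsTb tb → 1 ≤ c → 1 ≤ m → S.Monic → S.natDegree = m → TD S m →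
  mbiv P = S ^ c → P.length = m * c → Sh w P → m * c + 1 ≤ w →
  let r : List (List K) := p.val () (tb, ((bits K q, un e), (un c, P)))
  mbiv r = S ∧ r.length = m ∧ Sh w r ∧
  p.cost () () (tb, ((bits K q, un e), (un c, P))) ≤
    C * PL e q w ^ k * mu (w * (m * c) + 1)

/-- squarefree decomposition: parts `(c, (S_c, univariate factors of S_c at t = 0))` -/
def SqGood {K : Type} [Field K] (A : List (List K))
    (out : List (List Unit × (List (List K) × List (List K)))) : Prop :=
  (out.map (fun o => mbiv o.2.1 ^ o.1.length)).prod = mbiv A ∧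
  (∀ o ∈ out, 1 ≤ o.1.length ∧ 1 ≤ o.2.1.length ∧ Sh (o.2.1.length + 1) o.2.1 ∧
    TD (mbiv o.2.1) o.2.1.length ∧ (∀ h ∈ o.2.2, Irreducible (mpol h)) ∧ o.2.2.Nodup ∧
    (o.2.2.map mpol).prod = mpol (hd0 o.2.1)) ∧
  Squarefree ((out.map (fun o => mbiv o.2.1)).prod.map (evalRingHom (0 : K)))

/-- squarefree decomposition; input `(table, ((bits q, e), (A, univariate factorization)))` -/
def SpecSq : Prop := ∃ (p : Pr [] (.prod TB (.prod (.prod Po Un) (.prod Ma
    (.list (.prod Po Un))))) (.list (.prod Un (.prod Ma Ma)))) (C k : ℕ),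
  ∀ (K : Type) [Field K] [Fintype K] [DecidableEq K] (q e d : ℕ)
  (tb : List (List K) × List (List K)) (A : List (List K)) (uni : List (List K × List Unit))
  (T : K[X][X]) (N : ℕ),
  Fintype.card K = q ^ e → IsTb tb → A.length = d → 1 ≤ d → Sh (d + 1) A → TD (mbiv A) d →
  UniGood (hd0 A) uni → T.Monic → T ∣ mbiv A → mbiv A ∣ T ^ N →
  Squarefree (T.map (evalRingHom (0 : K))) →
  SqGood A (p.val () (tb, ((bits K q, un e), (A, uni)))) ∧
  p.cost () () (tb, ((bits K q, un e), (A, uni))) ≤ C * PL e q d ^ k * ww (d + 1)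

/-! ### Factorization of monic polynomials -/

/-- complete factorization of a polynomial, monic in `x` -/
def MonFac {K : Type} [Field K] (A : List (List K)) (out : List (List (List K) × List Unit)) :
    Prop :=
  (out.map (fun o => mbiv o.1 ^ o.2.length)).prod = mbiv A ∧
  (∀ o ∈ out, 1 ≤ o.1.length ∧ Sh (o.1.length + 1) o.1 ∧ Irreducible (mbiv o.1) ∧
    1 ≤ o.2.length) ∧ (out.map Prod.fst).Nodup

/-- factorization of a monic polynomial, given its univariate factorization at `t = 0`;
input `(table, ((bits q, e), ((A, uni), (places, g))))`, run over `L` -/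
def SpecMon : Prop := ∃ (p : Pr [] (.prod TB (.prod (.prod Po Un) (.prod
    (.prod Ma (.list (.prod Po Un))) (.prod Po Ma)))) (.list (.prod Ma Un))) (C k : ℕ),
  ∀ (K L : Type) [Field K] [Fintype K] [DecidableEq K] [Field L] [Fintype L] [DecidableEq L]
  [Algebra K L] (q e d : ℕ) (tb : List (List K) × List (List K)) (A : List (List K))
  (uni : List (List K × List Unit)) (T : K[X][X]) (N : ℕ),
  Module.finrank K L = 2 → Fintype.card K = q ^ e → IsTb tb → A.length = d → 1 ≤ d →
  Sh (d + 1) A → TD (mbiv A) d → UniGood (hd0 A) uni → T.Monic → T ∣ mbiv A →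
  mbiv A ∣ T ^ N → Squarefree (T.map (evalRingHom (0 : K))) → (40 * d) ^ 4 ≤ q ^ e →
  Nat.card {x : (Fin (2 * d + 2) → L) × (Fin (2 * d + 2) → Fin d → L) //
    ¬ ∃ out : List (List (List K) × List Unit), MonFac A out ∧
      (p.val () (Ty.map (algebraMap K L) TB tb, ((bits L q, un e),
        (Ty.map (algebraMap K L) (.prod Ma (.list (.prod Po Un))) (A, uni),
          (List.ofFn x.1, rows x.2)))) : List (List (List L) × List Unit)) =
        Ty.map (algebraMap K L) (.list (.prod Ma Un)) out ∧
      p.cost () () (Ty.map (algebraMap K L) TB tb, ((bits L q, un e),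
        (Ty.map (algebraMap K L) (.prod Ma (.list (.prod Po Un))) (A, uni),
          (List.ofFn x.1, rows x.2)))) ≤ C * PL e q d ^ k * ww (d + 1)} * q ^ e ≤
    7 * d * (Fintype.card L) ^ ((2 * d + 2) * (d + 1))

/-! ### The factorization over a large field -/

/-- complete factorization of `f`; the factors are normalized: in the top form the first
coefficient which is not zero is one -/
def FacGood {K : Type} [Field K] (f : K[X][X]) (out : List (List (List K) × List Unit)) : Prop :=
  (∃ u : K, u ≠ 0 ∧ f = C (C u) * (out.map (fun o => hom o.1 ^ o.2.length)).prod) ∧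
  (∀ o ∈ out, ∃ m i, 1 ≤ m ∧ IsHom m o.1 ∧ (o.1.getD m []).getD i 0 = 1 ∧
    (∀ j < i, (o.1.getD m []).getD j 0 = 0) ∧ Irreducible (hom o.1) ∧ 1 ≤ o.2.length) ∧
  (out.map Prod.fst).Nodup

/-- number of random elements used -/
def Rn (d : ℕ) : ℕ := 9 + (3 * lgc d + 10) * d + (2 * d + 2) + (2 * d + 2) * d

/-- factorization over a large field; input `((bits q, e), (H, random elements))` -/
def SpecFac : Prop := ∃ (p : Pr [] (.prod (.prod Po Un) (.prod Ma Po)) (.list (.prod Ma Un)))
    (C k : ℕ),
  ∀ (K L : Type) [Field K] [Fintype K] [DecidableEq K] [Field L] [Fintype L] [DecidableEq L]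
  [Algebra K L] (q e d : ℕ) (H : List (List K)),
  Module.finrank K L = 2 → Fintype.card K = q ^ e → IsHom d H → 1 ≤ d → TopNe d H →
  (40 * (d + 1)) ^ 4 ≤ q ^ e →
  10 * Nat.card {r : Fin (Rn d) → L //
    ¬ ∃ out : List (List (List K) × List Unit), FacGood (hom H) out ∧
      (p.val () ((bits L q, un e), (Ty.map (algebraMap K L) Ma H, List.ofFn r)) :
        List (List (List L) × List Unit)) =
        Ty.map (algebraMap K L) (.list (.prod Ma Un)) out ∧
      p.cost () () ((bits L q, un e), (Ty.map (algebraMap K L) Ma H, List.ofFn r)) ≤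
        C * PL e q d ^ k * ww (d + 1)} ≤ Fintype.card L ^ Rn d

end Pool.Agent.H330FB
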